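import Mathlib
import Pool.Agent.PTDM.C21
import Pool.Agent.PTDM.C22
import Pool.Agent.PTDM.C23
import Pool.Agent.PTDM.C31
import Pool.Agent.PTDM.C33
import Pool.Agent.PTDM.C39

/-! Parts: PTKX.StL, PTKX.StN, PTKX.StG, PTKX.HNE, PTKX.IF4B, PTKX.NNS, PTKX.NRK, PTKX.NTR, PTKX.SVF -/

section

/-!
# The average rank of prime twists: the local terms over `K = Q(w)`

The classes `b`, `x` are now elements of `Z[w]` (`Eis`) and not rational integers. The statements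
of this file are those of `PT/Stmts1.lean` and `PT3/Stmts.lean` with `Eis` in place of `ℤ`; the
proofs are the same ones (copy the file named in the docstring and replace `ℤ` by `Eis`, casts
disappear). They were checked numerically.

Everything in `PT`, `PTE`, `PT3`, `PTL`, `PTN` is proved and may be imported, or taken as a
hypothesis of your theorem (for example `(hSTM : STM) (hSPP : SPP) (hSSL : SSL) (hSLC : SLC)`,
`(hLCL : LCL)`, `(hSCJ : SCJ)`); statements `Stmt_...` of `PTK` may be hypotheses too, if your docstring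
says so.
-/

set_option autoImplicit false

namespace Pool.Agent.PTK

open Pool.Agent.Lib_helper18 Pool.Agent.Lib_helper18.Eis Pool.Agent.Lib_helper84.Cub
open Pool.Agent.PT

/-! ### Definitions -/

/-- the linear form `p + q w^i r` -/
def LfE (p q : Eis) (i : ℕ) (r : Eis) : Eis := p + q * w ^ i * r

/-- the symbol of `B` with `α = [(p + q w² r)(p' + q' w r)] / [(p + q w r)(p' + q' w² r)]` -/
def ASE (s : Eis → Eis → ZMod 3) (B : Eis) (p q p' q' r : Eis) : ZMod 3 :=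
  s B (LfE p q 2 r) + s B (LfE p' q' 1 r) - s B (LfE p q 1 r) - s B (LfE p' q' 2 r)

/-- `G_i = q p' - w^i p q'` -/
def GfE (p q p' q' : Eis) (i : ℕ) : Eis := q * p' - w ^ i * p * q'

/-- `D_i = X u + w^i v Y` -/
def DfE (X Y u v : Eis) (i : ℕ) : Eis := X * u + w ^ i * v * Y

/-- The local term of the point `(X, Y)`. -/
def SVE (s : Eis → Eis → ZMod 3) (x p q p' q' X Y : Eis) : ZMod 3 :=
  (s (DfE X Y p' p 1) (p ^ 3 - x * p' ^ 3) - s (DfE X Y p' p 2) (p ^ 3 - x * p' ^ 3) -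
    s (DfE X Y p' p 1) (X ^ 3 + x * Y ^ 3) + s (DfE X Y p' p 2) (X ^ 3 + x * Y ^ 3)) -
  (s (DfE X Y q' q 1) (x * q' ^ 3 - q ^ 3) - s (DfE X Y q' q 2) (x * q' ^ 3 - q ^ 3) -
    s (DfE X Y q' q 1) (X ^ 3 + x * Y ^ 3) + s (DfE X Y q' q 2) (X ^ 3 + x * Y ^ 3))

/-- `b` is a cube in the completion at `π` -/
def LCE (π b : Eis) : Prop := ∀ N : ℕ, ∃ r : Eis, π ^ N ∣ r ^ 3 - b

/-- `η = (p + q T)/(p' + q' T)` has norm `x` from `K(b^(1/3))`. -/
structure SolWE (b x p q p' q' : Eis) : Prop where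
  eq : p ^ 3 + b * q ^ 3 = x * (p' ^ 3 + b * q' ^ 3)
  n1 : p ^ 3 + b * q ^ 3 ≠ 0

/-- `SolWE` with nondegeneracy conditions (automatic when `b` and `x` are not cubes). -/
structure SolE (b x p q p' q' : Eis) : Prop extends SolWE b x p q p' q' where
  n2 : p ^ 3 - x * p' ^ 3 ≠ 0
  g1 : GfE p q p' q' 1 ≠ 0
  g2 : GfE p q p' q' 2 ≠ 0

/-- nondegeneracy of the point `(X, Y)` with respect to `(p, q, p', q')` -/
structure DNE (X Y p q p' q' : Eis) : Prop where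
  d1 : DfE X Y p' p 1 ≠ 0
  d2 : DfE X Y p' p 2 ≠ 0
  d3 : DfE X Y q' q 1 ≠ 0
  d4 : DfE X Y q' q 2 ≠ 0

/-- `(X, Y)` is a point of class `x` on the curve `X³ + Y³ = B` (over `K`). -/
structure PtE (B x X Y : Eis) : Prop where
  hX : X ≠ 0
  hY : Y ≠ 0
  eq : ∃ c : Eis, c ≠ 0 ∧ x * (X ^ 3 + x * Y ^ 3) = B * c ^ 3

/-! ### Identities for a symbol -/

/-- PTK_IF1: `α_b α_x = w⁻¹ k_0` modulo cubes. Copy of `PT/IF1.lean` (in the integral case the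
numbers `Gf .. 1`, `Gf .. 2` are never `0`; here this is assumed in `SolE`). -/
def Stmt_IF1 : Prop := ∀ (π : Eis) (s : Eis → Eis → ZMod 3) (e : ℕ), LSym π s e →
  ∀ b x p q p' q' : Eis, b ≠ 0 → x ≠ 0 → SolE b x p q p' q' →
  ∃ N0 : ℕ, ∀ r ξ : Eis, π ^ N0 ∣ r ^ 3 - b → π ^ N0 ∣ ξ ^ 3 - x →
    ∀ B : Eis, B ≠ 0 → ASE s B p q p' q' r + ASE s B p (-p') (-q) q' ξ =
      s B (GfE p q p' q' 1) - s B (GfE p q p' q' 2) + s w B

/-- PTK_IF2: `(x, α_b) = (x, k_0) + (w, x)`. Copy of `PT/IF2.lean`. -/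
def Stmt_IF2 : Prop := ∀ (π : Eis) (s : Eis → Eis → ZMod 3) (e : ℕ), LSym π s e →
  ∀ b x p q p' q' : Eis, b ≠ 0 → x ≠ 0 → SolE b x p q p' q' →
  ∃ N0 : ℕ, ∀ r : Eis, π ^ N0 ∣ r ^ 3 - b →
    ASE s x p q p' q' r = s x (GfE p q p' q' 1) - s x (GfE p q p' q' 2) + s w x

/-- PTK_IF4: the local term of a point when `x` is a local cube. Copy of `PT/IF4.lean` (there the
`D_i` never vanish; here this is the hypothesis `DNE`). -/
def Stmt_IF4 : Prop := ∀ (π : Eis) (s : Eis → Eis → ZMod 3) (e : ℕ), LSym π s e →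
  ∀ b x p q p' q' X Y : Eis, b ≠ 0 → x ≠ 0 → SolE b x p q p' q' → X ≠ 0 → Y ≠ 0 →
    X ^ 3 + x * Y ^ 3 ≠ 0 → DNE X Y p q p' q' →
  ∃ N0 : ℕ, ∀ ξ : Eis, π ^ N0 ∣ ξ ^ 3 - x →
    SVE s x p q p' q' X Y =
      ASE s (X ^ 3 + x * Y ^ 3) p (-p') (-q) q' ξ + s (LfE X Y 1 ξ) b - s (LfE X Y 2 ξ) b

/-- PTK_IF4B: `(F_1/F_2, n_0) = (w, n_0)`. Copy of `PT/IF4B.lean`. -/
def Stmt_IF4B : Prop := ∀ (π : Eis) (s : Eis → Eis → ZMod 3) (e : ℕ), LSym π s e →
  ∀ x X Y : Eis, x ≠ 0 → X ≠ 0 → Y ≠ 0 → X ^ 3 + x * Y ^ 3 ≠ 0 →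
  ∃ N0 : ℕ, ∀ ξ : Eis, π ^ N0 ∣ ξ ^ 3 - x →
    s (LfE X Y 1 ξ) (X ^ 3 + x * Y ^ 3) - s (LfE X Y 2 ξ) (X ^ 3 + x * Y ^ 3) =
      s w (X ^ 3 + x * Y ^ 3)

/-! ### Tame places -/

/-- PTK_F6R: the local term of a point at a tame place where `x` has valuation prime to `3`.
Copy of `PT/F6R.lean`. -/
def Stmt_F6R : Prop := ∀ (π : PP) (b x p q p' q' X Y : Eis), b ≠ 0 → x ≠ 0 →
  SolE b x p q p' q' → X ≠ 0 → Y ≠ 0 → DNE X Y p q p' q' → ¬ 3 ∣ V π.1 x →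
    (3 ∣ V π.1 (X ^ 3 + x * Y ^ 3) → SVE (tm π.1) x p q p' q' X Y = 0) ∧
    (¬ 3 ∣ V π.1 (X ^ 3 + x * Y ^ 3) → SVE (tm π.1) x p q p' q' X Y = - tm π.1 w b)

/-- PTK_F7U: the local term of a point at a tame place where `x` has valuation divisible by `3` and is
not a cube. Copy of `PT/F7U.lean`. -/
def Stmt_F7U : Prop := ∀ (π : PP) (b x p q p' q' X Y : Eis), b ≠ 0 → x ≠ 0 →
  SolE b x p q p' q' → X ≠ 0 → Y ≠ 0 → DNE X Y p q p' q' → 3 ∣ V π.1 x → ch π.1 x ≠ 0 →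
    SVE (tm π.1) x p q p' q' X Y = 0

/-- PTK_LFV: the valuations of the linear forms of a point when `x` is a local cube.
Proof. Let `π' = π.1`, `V = V π'`, `n₀ = X³ + x Y³ ≠ 0`, `3 ∣ V x`, `3 ∣ V n₀`, `ξ³ = x` up to `π' ^ N0`,
`N0` large (larger than `V x` and `V n₀ + 3 V X + 3 V Y + V x`); then `V ξ³ = V x`. With
`F_i = X + Y w^i ξ`: `F_0 F_1 F_2 = X³ + Y³ ξ³` has the valuation of `n₀` (differences by a multiple
of `π' ^ N0`). If `V X ≠ V (Y ξ)` then all `V F_i` are `min (V X) (V (Y ξ))`. Otherwise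
`X = π' ^ a X'`, `Y ξ = π' ^ a Z'` with units `X'`, `Z'`; `F_i = π' ^ a (X' + w^i Z')`; two of the
`X' + w^i Z'` cannot both be divisible by `π'` (their difference is `(w^i - w^j) Z'`, and
`w^i - w^j` divides `3`), so at most one `V F_i` is different from `a`, it is `a + k`, and
`3 a + k = V n₀` gives `3 ∣ k`. -/
def Stmt_LFV : Prop := ∀ (π : PP) (x X Y : Eis), x ≠ 0 → X ≠ 0 → Y ≠ 0 →
  X ^ 3 + x * Y ^ 3 ≠ 0 → 3 ∣ V π.1 x → 3 ∣ V π.1 (X ^ 3 + x * Y ^ 3) →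
  ∃ N0 : ℕ, ∀ ξ : Eis, π.1 ^ N0 ∣ ξ ^ 3 - x →
    (V π.1 (LfE X Y 1 ξ) : ZMod 3) = (V π.1 (LfE X Y 2 ξ) : ZMod 3)

/-! ### Local cubes -/

/-- PTK_LCI: local cubes. Copy of `PT/LCI.lean` (first and third part); second part: if
`λ ∤ b` and `b c³ = a³` modulo `λ⁴` with `c`, `a` prime to `λ` then `b` is a cube in the completion at
`λ`. Proof of the second part: cubes of elements prime to `λ` are `± 1` modulo `λ⁴` (see
`NCNT.cube_mod_nine` in PT/NCNT.lean; `λ⁴ = w² 9`), so `b = ± 1` modulo `λ⁴`; since `-1` is a cube let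
`b = 1` modulo `λ⁴`. By induction there is `r_N = 1` modulo `λ²` with `λ ^ (N + 4) ∣ r_N³ - b`:
`r_0 = 1`, and for `r' = r + λ ^ (N + 2) t`, `r'³ = r³ + 3 r² λ ^ (N + 2) t + ...`, `3 = - w² λ²`
(`three_eq`), the further terms are divisible by `λ ^ (N + 5)`; `r² = 1` modulo `λ`; choose `t`. -/
def Stmt_LCI : Prop :=
  (∀ (π : PP) (b : Eis), b ≠ 0 → (LCE π.1 b ↔ 3 ∣ V π.1 b ∧ ch π.1 b = 0)) ∧
  (∀ b a c : Eis, ¬ lam ∣ a → ¬ lam ∣ c → lam ^ 4 ∣ b * c ^ 3 - a ^ 3 → LCE lam b) ∧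
  (∀ (π : Eis) (s : Eis → Eis → ZMod 3) (e : ℕ) (b a : Eis), LSym π s e → LCE π b →
    b ≠ 0 → a ≠ 0 → s b a = 0)

/-! ### The place above `3` -/

/-- PTK_SVF: the sum of the local terms. Copy of the last part of `PT/LFIN.lean` (product formula
`SSL`, fourth part, for every term). -/
def Stmt_SVF : Prop := ∀ b x p q p' q' X Y : Eis, b ≠ 0 → x ≠ 0 → SolE b x p q p' q' →
  X ≠ 0 → Y ≠ 0 → X ^ 3 + x * Y ^ 3 ≠ 0 → DNE X Y p q p' q' →
  (Function.support fun v : Pl => SVE (sy v) x p q p' q' X Y).Finite ∧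
    ∑ᶠ v : Pl, SVE (sy v) x p q p' q' X Y = 0

/-- PTK_IIAG: the local term of a point at `λ` when `b` is a cube. Copy of `PT3/IIAG.lean`
(hypotheses `Stmt_LCI`, `Stmt_IF1`, `Stmt_IF2`, `Stmt_IF4`, `Stmt_F6R`, `Stmt_F7U`, `Stmt_SVF`). -/
def Stmt_IIAG : Prop := ∀ r x p q p' q' X Y : Eis, r ≠ 0 → x ≠ 0 → SolE (r ^ 3) x p q p' q' →
  X ≠ 0 → Y ≠ 0 → X ^ 3 + x * Y ^ 3 ≠ 0 → DNE X Y p q p' q' →
  SVE sl x p q p' q' X Y =
    sl (X ^ 3 + x * Y ^ 3) (GfE p q p' q' 1) - sl (X ^ 3 + x * Y ^ 3) (GfE p q p' q' 2) +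
      sl w (X ^ 3 + x * Y ^ 3) - ASE sl (X ^ 3 + x * Y ^ 3) p q p' q' r

/-- PTK_IIA: the local term of a point at `λ` when `b` is a local cube. Copy of `PT3/IIA.lean`
(hypothesis `Stmt_IIAG`). -/
def Stmt_IIA : Prop := ∀ b x p q p' q' X Y : Eis, b ≠ 0 → x ≠ 0 → LCE lam b →
  SolE b x p q p' q' → X ≠ 0 → Y ≠ 0 → X ^ 3 + x * Y ^ 3 ≠ 0 → DNE X Y p q p' q' →
  ∃ N0 : ℕ, ∀ r : Eis, lam ^ N0 ∣ r ^ 3 - b →
  SVE sl x p q p' q' X Y =
    sl (X ^ 3 + x * Y ^ 3) (GfE p q p' q' 1) - sl (X ^ 3 + x * Y ^ 3) (GfE p q p' q' 2) +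
      sl w (X ^ 3 + x * Y ^ 3) - ASE sl (X ^ 3 + x * Y ^ 3) p q p' q' r

/-! ### The global relation -/

/-- The cubic residue symbol modulo the inert prime `Q` of
`[(p + q w² r)(p' + q' w r)] / [(p + q w r)(p' + q' w² r)]`. -/
noncomputable def TAUE (Q : ℕ) (p q p' q' r : Eis) : ZMod 3 :=
  sym (Q : Eis) (LfE p q 2 r) + sym (Q : Eis) (LfE p' q' 1 r) -
    sym (Q : Eis) (LfE p q 1 r) - sym (Q : Eis) (LfE p' q' 2 r)

/-- The general hypotheses: `x` is the base and `b` the norm. Then `SolE b x p (-p') (-q) q'` (check: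
`eq` is the same equation, `n1` and `n2` are exchanged, `GfE` is unchanged), and the local term of a
point `(X, Y)` of class `x` is `SVE (sy v) x p (-p') (-q) q' X Y`. -/
structure HypD (N : ℕ) (b x p q p' q' : Eis) : Prop where
  N0 : 0 < N
  sol : SolE x b p q p' q'
  hb : b ≠ 0
  hx : x ≠ 0
  lc : LCE lam b
  unr : ∀ π : PP, ¬ π.1 ∣ (N : Eis) → ¬ π.1 ∣ b ∧ ¬ π.1 ∣ x
  cf : ∀ π : PP, V π.1 (N : Eis) ≤ 2

/-- the hypotheses on the point: `B = N Q^E` -/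
structure HypP (N : ℕ) (b x p q p' q' : Eis) (E Q : ℕ) (X Y : Eis) : Prop where
  hE : E = 1 ∨ E = 2
  hQ : Q.Prime
  sb : ∀ σ : PP, tm σ.1 b ((N : Eis) * (Q : Eis) ^ E) = 0
  sx : ∀ σ : PP, tm σ.1 x ((N : Eis) * (Q : Eis) ^ E) = 0
  pt : PtE ((N : Eis) * (Q : Eis) ^ E) x X Y
  dn : DNE X Y p (-p') (-q) q'

/-- PTK_DP1: the local terms of a point at a place `π` dividing `f` depend on `Q^E` only through a
character of `Q`. (`Q` is prime to `f`, so `π ∤ Q`.)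
Proof. Hypotheses you may use: `Stmt_IF4`, `Stmt_IF4B`, `Stmt_F6R`, `Stmt_F7U`, `Stmt_LFV`, `Stmt_LCI`.
Put `B = N Q^E`, `n₀ = X³ + x Y³`, `x n₀ = B c³`, `s = tm π.1`, `V = V π.1`, `ch = ch π.1`.
(a) `3 ∣ V x`, `ch x = 0` (`x` is a local cube). By `IF4` (for `SolE b x p (-p') (-q) q'`), for all good `ξ`
(`π ^ N0 ∣ ξ³ - x`): `SVE = ASE s n₀ p q p' q' ξ + s F_1 b - s F_2 b`, `F_i = LfE X Y i ξ`. `s n₀ a = s B a` for
`a ≠ 0` as `x` is a local cube. The other terms are a constant: if `π ∣ N` and `3 ∤ V b` then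
`s b a = i s B a` for all `a ≠ 0` with `i = V b / V B` in `ZMod 3` (`V B = V N = 1, 2`; `s b B = 0`; a general
fact on `tm`: it depends only on the vectors `(V, ch)`), so by `IF4B`, `s F_1 b - s F_2 b = i (s F_1 B - s F_2 B) =
i (s F_1 n₀ - s F_2 n₀) = i s w n₀ = i s w B = V(b) ch w`; if `π ∣ N` and `3 ∣ V b` then `V B ch b = 0`, so
`b` is a local cube and the terms are `0` (`LCI`); if `π ∤ N` then `V b = V B = 0`,
`3 ∣ V n₀`, and they are `- (V F_1 - V F_2) ch b = 0` by `LFV`. So for all good `ξ` the number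
`ASE s B p q p' q' ξ = s B (..)` is the same (namely `SVE - constant`). Fix once and for all `ξ₀` with
`π ^ N1 ∣ ξ₀³ - x`, `N1` so large that `ASE s a p q p' q' ξ = ASE s a p q p' q' ξ₀` for all `a ≠ 0` and all
`ξ` congruent to `ξ₀` modulo `π ^ N1` (continuity in the second variable; the `LfE` at `ξ₀` are not `0`
since their product is `p³ + x q³` modulo `π ^ N1`); for every `N0` there is a `ξ` with `π ^ N0 ∣ ξ³ - x`
congruent to `ξ₀` (Hensel; or: a sequence of approximations has infinitely many terms close to one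
of `w^i ξ₀`, multiply them by `w^(-i)`). See `PTL/DC.lean: place_LC` which is this argument in the
rational case. Then `ASE s B ξ₀ = ASE s N ξ₀ + E ASE s Q ξ₀` and `ASE s Q ξ₀ = k ch Q`, `k` an integer,
is a character of `Q` modulo `f`.
(b) `3 ∤ V x`: then `π ∣ N`; `F6R`: `V n₀ = V N - V x` modulo `3`, so the value is a constant.
(c) `3 ∣ V x`, `ch x ≠ 0`: `0` by `F7U`. -/
def Stmt_DP1 : Prop := ∀ (N : ℕ) (b x p q p' q' : Eis), HypD N b x p q p' q' →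
  ∀ (π : PP) (f : ℕ), 1 < f → π.1 ∣ (f : Eis) →
    ∃ (C : ZMod 3) (Φ : (ZMod f)ˣ →* Multiplicative (ZMod 3)),
    ∀ (E Q : ℕ) (hQ : Q.Coprime f) (X Y : Eis), HypP N b x p q p' q' E Q X Y →
      SVE (tm π.1) x p (-p') (-q) q' X Y = C + E * (Φ (ZMod.unitOfCoprime Q hQ)).toAdd

/-- PTK_DP2: the same at `λ`.
Proof. Hypotheses you may use: `Stmt_IIA`, `Stmt_IF2`. By `IIA` for `SolE b x p (-p') (-q) q'` (`b` is a local
cube): for all good `r` (`λ ^ N0 ∣ r³ - b`), `SVE = R n₀` with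
`R a = sl a G_1 - sl a G_2 + sl w a - ASE sl a p (-p') (-q) q' r`; `R` is additive in `a`, `R x = 0` by `IF2`,
`R (c³) = 0`, so `R n₀ = R B = R N + E R Q`, and `R Q` depends only on `Q` modulo `9` (`SLC`: exponent
`4`, `λ⁴ ∣ 9`). The value is the same for all good `r`; fix `r₀` as in `DP1`. -/
def Stmt_DP2 : Prop := ∀ (N : ℕ) (b x p q p' q' : Eis), HypD N b x p q p' q' →
  ∀ f : ℕ, 1 < f → 9 ∣ f → ∃ (C : ZMod 3) (Φ : (ZMod f)ˣ →* Multiplicative (ZMod 3)),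
    ∀ (E Q : ℕ) (hQ : Q.Coprime f) (X Y : Eis), HypP N b x p q p' q' E Q X Y →
      SVE sl x p (-p') (-q) q' X Y = C + E * (Φ (ZMod.unitOfCoprime Q hQ)).toAdd

/-- PTK_DP3: the local terms vanish outside.
Proof. As `DP1`, (a), (c) (`π ∤ N`): `B`, `b`, `x` are prime to `π`. If `x` is a local cube, `SVE = ASE s B p q p' q' ξ`
for a good `ξ`; the `LfE` are prime to `π` because their product over `i = 0, 1, 2` is `p³ + x q³`, resp.
`p'³ + x q'³`, modulo `π`; so all symbols are `0`. -/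
def Stmt_DP3 : Prop := ∀ (N : ℕ) (b x p q p' q' : Eis), HypD N b x p q p' q' →
  ∀ (π : PP) (E Q : ℕ) (X Y : Eis), HypP N b x p q p' q' E Q X Y →
    ¬ π.1 ∣ (N : Eis) → ¬ π.1 ∣ (Q : Eis) →
    ¬ π.1 ∣ (p ^ 3 + x * q ^ 3) * (p' ^ 3 + x * q' ^ 3) →
    SVE (tm π.1) x p (-p') (-q) q' X Y = 0

/-- PTK_DP4: the local term at `Q`.
Proof. `V x = V b = 0`, `V B = E` at `π = Q`; `tm x B = 0`, `tm b B = 0` give `sym Q x = sym Q b = 0`: `x` and
`b` are local cubes (`LCI`). By `IF4` for a good `ξ'`: `SVE = ASE s B p q p' q' ξ'` (the terms with `b` vanish).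
The `LfE` are prime to `Q` (as in `DP3`), so `s B (LfE ..) = - E sym Q (LfE ..)` and the value is
`- E TAUE Q p q p' q' ξ'`. `ξ'³ = ξ³` modulo `Q`, so `ξ' = w^i ξ` modulo `Q` (`Q` is a prime of `Z[w]`, and
`∏ (ξ' - w^i ξ) = ξ'³ - ξ³`), and `TAUE` does not depend on `i`: with `l_i = p + q w^i ξ`, `l'_i` similar,
`∏ l_i = b ∏ l'_i` modulo `Q`, `sym Q b = 0`; `TAUE(ξ) = l_2 + l'_1 - l_1 - l'_2` (symbols),
`TAUE(w ξ) = l_0 + l'_2 - l_2 - l'_0`, difference `l_0 + l_1 - 2 l_2 - (l'_0 + l'_1 - 2 l'_2)`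
`= ∑ l_i - ∑ l'_i = 0` modulo `3`. -/
def Stmt_DP4 : Prop := ∀ (N : ℕ) (b x p q p' q' : Eis), HypD N b x p q p' q' →
  ∀ (π : PP) (E Q : ℕ) (X Y ξ : Eis), HypP N b x p q p' q' E Q X Y → Q % 3 = 2 →
    π.1 = (Q : Eis) → ¬ π.1 ∣ (N : Eis) →
    ¬ π.1 ∣ (p ^ 3 + x * q ^ 3) * (p' ^ 3 + x * q' ^ 3) → (Q : Eis) ∣ ξ ^ 3 - x →
    SVE (tm π.1) x p (-p') (-q) q' X Y = - (E * TAUE Q p q p' q' ξ)

/-- PTK_DCK: the relation for the Frobenius invariant of `Q`.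
Proof. Hypotheses: `Stmt_DP1`, …, `Stmt_DP4`, `Stmt_SVF` (for `SolE b x p (-p') (-q) q'`). Copy the structure of
the last part of `PT3/DCOT.lean: main`: `M` is a rational integer divisible by `N` and by
`(p³ + x q³)(p'³ + x q'³)` (times its conjugate); `f₀ = 9 |M|`; `C`, `Φ` are the sums, resp. products, of
those of the places dividing `M` and of `λ`. `DNE`: for `Q > N₀` the `D_i` do not vanish. Let
`(P, Q₁, P', Q₁') = (p, -p', -q, q')`, `D_i = X P' + w^i P Y`, `D'_i = X Q₁' + w^i Q₁ Y`. If `D_i = 0` then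
`(X P')³ = - (P Y)³`, and `P' ≠ 0`, `P ≠ 0` (otherwise both are `0`, against `n2` of the solution
`SolE b x P Q₁ P' Q₁'`: `P³ - x P'³ ≠ 0`), so `P'³ (X³ + x Y³) = - Y³ (P³ - x P'³)`, and with
`x (X³ + x Y³) = B c³`: `B (c P')³ = - x Y³ (P³ - x P'³)`. The valuation at `Q` of the left side is `E` modulo `3`,
that of the right side is `0` modulo `3` if `Q` does not divide `x (P³ - x P'³)`. The same for
`D'_i` with `x Q₁'³ - Q₁³` (`P³ - x P'³ = b (x Q₁'³ - Q₁³)`). -/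
def Stmt_DCK : Prop := ∀ (N : ℕ) (b x p q p' q' : Eis), HypD N b x p q p' q' →
  ∃ f₀ : ℕ, 0 < f₀ ∧ ∀ f : ℕ, 0 < f → f₀ ∣ f →
  ∃ (C : ZMod 3) (Φ : (ZMod f)ˣ →* Multiplicative (ZMod 3)) (N₀ : ℕ),
    ∀ (E Q : ℕ) (hQ : Q.Coprime f), (E = 1 ∨ E = 2) → Q.Prime → N₀ < Q → Q % 3 = 2 →
      (∀ σ : PP, tm σ.1 b ((N : Eis) * (Q : Eis) ^ E) = 0) →
      (∀ σ : PP, tm σ.1 x ((N : Eis) * (Q : Eis) ^ E) = 0) →
      ∀ X Y ξ : Eis, PtE ((N : Eis) * (Q : Eis) ^ E) x X Y → (Q : Eis) ∣ ξ ^ 3 - x →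
        C + E * ((Φ (ZMod.unitOfCoprime Q hQ)).toAdd - TAUE Q p q p' q' ξ) = 0

end Pool.Agent.PTK


end

section

/-!
# The average rank of prime twists: the norm theorem for `K(x^(1/3)) / K`, `K = Q(w)`

The statements are those of `PT/Stmts3.lean` with `x` in `Z[w]` in place of a rational integer, and
without complex conjugation on `L`. The proofs are those of the files `PT/N*.lean` (copy the file named in
the docstring; replace `ℤ` by `Eis`, `CubF` by `CubE`, `LC` by `LCE`, and remove `c`). General lemmas of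
those files (for example in the namespace `Pool.Agent.PT.NTR`, as far as they do not mention `CubF`) can be
imported. `HERBQ`, `SUN`, `KUM`, `NAUX` (PT/Stmts3.lean) are general and proved.
-/

set_option autoImplicit false

open NumberField IsDedekindDomain Finset
open scoped nonZeroDivisors Pointwise

namespace Pool.Agent.PTK

open Pool.Agent.Lib_helper18 Pool.Agent.Lib_helper18.Eis Pool.Agent.Lib_helper84.Cub
open Pool.Agent.PT

/-- The data of the field `L = K(x^(1/3))`. -/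
structure CubE (x : Eis) (L : Type) [Field L] [NumberField L] (ι : Eis →+* L) (θ : L)
    (σ : L ≃ₐ[ℚ] L) : Prop where
  inj : Function.Injective ι
  cube : θ ^ 3 = ι x
  sθ : σ θ = ι w * θ
  sι : ∀ a : Eis, σ (ι a) = ι a
  rep : ∀ z : L, ∃ (m : ℤ) (a b d : Eis), m ≠ 0 ∧ (m : L) * z = ι a + ι b * θ + ι d * θ ^ 2
  lin : ∀ a b d : Eis, ι a + ι b * θ + ι d * θ ^ 2 = 0 → a = 0 ∧ b = 0 ∧ d = 0

/-- PTK_NFL: existence of the field. Copy of `PT/NFLD.lean`. (Irreducibility of `T³ - x` over the fraction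
field of `Eis`: if `b³ = x` for a fraction `b = u / v` then `u³ = x v³`, so `v³ ∣ u³`, `v ∣ u`
(`Eis` is a principal ideal domain, `pow_dvd_pow_iff` for `GCDMonoid` or by valuations), so `x` is a
cube.) -/
def Stmt_NFL : Prop := ∀ x : Eis, x ≠ 0 → (¬ ∃ c : Eis, c ^ 3 = x) →
  ∃ (L : Type) (_ : Field L) (_ : NumberField L) (ι : Eis →+* L) (θ : L) (σ : L ≃ₐ[ℚ] L),
    CubE x L ι θ σ

/-- PTK_NRK: the unit rank. Copy of `PT/NRK.lean`. -/
def Stmt_NRK : Prop := ∀ (x : Eis) (L : Type) [Field L] [NumberField L] (ι : Eis →+* L) (θ : L)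
  (σ : L ≃ₐ[ℚ] L), CubE x L ι θ σ → NumberField.Units.rank L = 2

/-- PTK_NHN: Hilbert 90. Copy of `PT/NHN.lean`. -/
def Stmt_NHN : Prop := ∀ (x : Eis) (L : Type) [Field L] [NumberField L] (ι : Eis →+* L) (θ : L)
  (σ : L ≃ₐ[ℚ] L), x ≠ 0 → CubE x L ι θ σ →
  (∀ z : L, σ (σ (σ z)) = z) ∧
  (∀ z : L, σ z = z → ∃ a b : Eis, b ≠ 0 ∧ z * ι b = ι a) ∧
  ∀ u : Lˣ, ∏ i ∈ range 3, σ ^ i • u = 1 → ∃ v : Lˣ, u = v / σ • v

/-- PTK_NTR: the primes of `L` above the primes of `Z[w]`. Copy of `PT/NTR.lean` (most lemmas of the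
namespace `Pool.Agent.PT.NTR` are general and can be cited). The only use of `c` there is
`not_isUnit_io`; here: if `ι u z = 1` with `z` integral, `u = uni v`, then `z` is integral over `Eis` and in the
fraction field, so in `ι Eis` (`Eis` is integrally closed), and `u` would be a unit; or: the norm
`N_{L/ℚ}(z)` is an integer and `N(ι u) N(z) = 1`; `N(ι u) = ± (norm u)³`. -/
def Stmt_NTR : Prop := ∀ (x : Eis) (L : Type) [Field L] [NumberField L] (ι : Eis →+* L) (θ : L)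
  (σ : L ≃ₐ[ℚ] L), x ≠ 0 → ¬ lam ∣ x → CubE x L ι θ σ →
  (∀ (P : HeightOneSpectrum (𝓞 L)) (a : Eis), P.valuation L (ι a) ≤ 1) ∧
  (∀ P : HeightOneSpectrum (𝓞 L), ∃ v : Pl, P ∈ Abv ι v ∧
    ∀ a : Eis, P.valuation L (ι a) < 1 → uni v ∣ a) ∧
  (∀ P : HeightOneSpectrum (𝓞 L), ∃ P' : HeightOneSpectrum (𝓞 L),
    ∀ z : L, P'.valuation L (σ z) = P.valuation L z) ∧
  (∀ v : Pl, (Abv ι v).Finite ∧ (Abv ι v).Nonempty) ∧
  (∀ (v : Pl) (P P' : HeightOneSpectrum (𝓞 L)), P ∈ Abv ι v → P' ∈ Abv ι v →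
    ∃ i : ℕ, ∀ z : L, P'.valuation L ((σ ^ i) z) = P.valuation L z) ∧
  (∀ (π : PP) (P : HeightOneSpectrum (𝓞 L)), ¬ π.1 ∣ x → P ∈ Abv ι (some π) →
    P.valuation L (ι π.1) = WithZero.exp (-1 : ℤ))

open Classical in
/-- PTK_NCN: the number of primes above a place. Copy of `PT/NCNT.lean` (with `Stmt_LCI`, first and
second part, in `local_cube`). -/
def Stmt_NCN : Prop := ∀ (x : Eis) (L : Type) [Field L] [NumberField L] (ι : Eis →+* L) (θ : L)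
  (σ : L ≃ₐ[ℚ] L), x ≠ 0 → ¬ lam ∣ x → (∀ π : PP, V π.1 x ≤ 2) →
  CubE x L ι θ σ → ∀ v : Pl, Nat.card (Abv ι v) = if LCE (uni v) x then 3 else 1

/-- PTK_NFX: the fixed `S`-units. Copy of `PT/NFIX.lean`. -/
def Stmt_NFX : Prop := ∀ (x : Eis) (L : Type) [Field L] [NumberField L] (ι : Eis →+* L) (θ : L)
  (σ : L ≃ₐ[ℚ] L), x ≠ 0 → ¬ lam ∣ x → CubE x L ι θ σ → ∀ S : Finset Pl,
  (∀ (u : Lˣ) (a : Eis), (u : L) = ι a → (∀ v : Pl, uni v ∣ a → v ∈ S) → u ∈ SF ι σ S) ∧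
  (∀ u ∈ SF ι σ S, ∃ a b : Eis, a ≠ 0 ∧ b ≠ 0 ∧ (u : L) * ι b = ι a) ∧
  Module.finrank ℤ (Additive (SF ι σ S)) = S.card

/-- PTK_NHO: the first cohomology of the `S`-units. Copy of `PT/NHO.lean`. -/
def Stmt_NHO : Prop := ∀ (x : Eis) (L : Type) [Field L] [NumberField L] (ι : Eis →+* L) (θ : L)
  (σ : L ≃ₐ[ℚ] L), x ≠ 0 → ¬ lam ∣ x → CubE x L ι θ σ → ∀ S : Finset Pl,
  none ∈ S → (∀ π : PP, π.1 ∣ x → some π ∈ S) →
  (∀ u ∈ SU ι S, σ • u ∈ SU ι S) ∧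
  ∀ u ∈ SU ι S, ∏ i ∈ range 3, σ ^ i • u = 1 → ∃ v ∈ SU ι S, u = v / σ • v

/-- PTK_NNS: norms have trivial symbols with `x`. Copy of `PT/NNS.lean`. -/
def Stmt_NNS : Prop := ∀ (x : Eis) (L : Type) [Field L] [NumberField L] (ι : Eis →+* L) (θ : L)
  (σ : L ≃ₐ[ℚ] L), x ≠ 0 → CubE x L ι θ σ →
  ∀ (π : Eis) (s : Eis → Eis → ZMod 3) (e : ℕ), LSym π s e →
  ∀ (z : L) (a b : Eis), z ≠ 0 → a ≠ 0 → b ≠ 0 → z * σ z * σ (σ z) * ι b = ι a →
    s a x = s b x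

open Classical in
/-- PTK_NGN: a set of places and sufficiently many units with independent symbols. Copy of the part of
`PT/NGEN.lean` where `x` is a cube modulo `9` (here `x = ± 1` modulo `λ⁴`, so `LCE lam x` by `Stmt_LCI` with
`c = 1`, `a = ± 1`; `x` is primary up to sign: `Prim x`). -/
def Stmt_NGN : Prop := ∀ (x : Eis) (S₀ : Finset Pl), x ≠ 0 → lam ^ 4 ∣ x ^ 2 - 1 →
  (∀ π : PP, V π.1 x ≤ 2) → (¬ ∃ c : Eis, c ^ 3 = x) → none ∈ S₀ →
  (∀ π : PP, π.1 ∣ x → some π ∈ S₀) →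
  (∀ π : PP, some π ∈ S₀ → ¬ LCE π.1 x → π.1 ∣ x) →
  ∃ (S : Finset Pl) (e : ℕ) (d : Fin e → Eis), S₀ ⊆ S ∧ (∀ v ∈ S, v ∉ S₀ → LCE (uni v) x) ∧
    (S.filter fun v => ¬ LCE (uni v) x).card = e + 1 ∧
    (∀ i, d i ≠ 0) ∧ (∀ i (v : Pl), uni v ∣ d i → v ∈ S) ∧
    (∀ n m : Fin e → ℕ, ∏ i, d i ^ n i = ∏ i, d i ^ m i → n = m) ∧
    (∀ n : Fin e → ZMod 3, (∀ v : Pl, ∑ i, n i * sy v (d i) x = 0) → n = 0)

/-- PTK_NMN: the norm theorem for `L / K`. Copy of `PT/NMAIN.lean` (hypotheses: the `Stmt_N..` above,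
`HERBQ`, `SUN`). -/
def Stmt_NMN : Prop := ∀ (x : Eis) (L : Type) [Field L] [NumberField L] (ι : Eis →+* L) (θ : L)
  (σ : L ≃ₐ[ℚ] L), x ≠ 0 → lam ^ 4 ∣ x ^ 2 - 1 → (∀ π : PP, V π.1 x ≤ 2) →
  (¬ ∃ c : Eis, c ^ 3 = x) → CubE x L ι θ σ →
  ∀ y : Eis, y ≠ 0 → (∀ π : PP, tm π.1 x y = 0) →
    (∀ π : PP, π.1 ∣ y → ¬ LCE π.1 x → π.1 ∣ x) →
    ∃ z : L, z ≠ 0 ∧ z * σ z * σ (σ z) = ι y

/-- PTK_NDS: the solution as a quotient of linear forms. As the end of `PT/NDESC.lean`, directly over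
`Eis` (no descent): `m z = ι a + ι b θ + ι d θ²`; choose `(γ, δ) ≠ (0, 0)` in `Eis` with `b δ + d γ = 0`; then
`m z (γ + δ θ) = (a γ + d δ x) + (a δ + b γ) θ`, take norms:
`m³ y (γ³ + x δ³) = (a γ + d δ x)³ + x (a δ + b γ)³`. So `p = a γ + d δ x`, `q = a δ + b γ`,
`p' = m γ`, `q' = m δ`. -/
def Stmt_NDS : Prop := ∀ (x : Eis) (L : Type) [Field L] [NumberField L] (ι : Eis →+* L) (θ : L)
  (σ : L ≃ₐ[ℚ] L), x ≠ 0 → CubE x L ι θ σ → ∀ (y : Eis) (z : L), y ≠ 0 → z ≠ 0 →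
    z * σ z * σ (σ z) = ι y → ∃ p q p' q' : Eis, SolWE x y p q p' q'

/-- PTK_HNE: the Hasse norm theorem used in the sequel. `NFL`, `NMN`, `NDS`. For the additional
conditions of `SolE`: `n2`: if `p³ = y p'³` then `p' = 0` (otherwise `y` is a cube: `p'³ ∣ p³`), `p = 0`, so
`x q³ = x y q'³` and `y` would be a cube again (`q' ≠ 0` by `n1`). `g1`, `g2`: if `q p' = w^i p q'`: if `p' ≠ 0` and
`q' ≠ 0` then `p = t p'`, `w^i q = …`: `q³ p'³ = p³ q'³` and so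
`p³ + x q³ = (p / p')³ (p'³ + x q'³)`, i.e. `y p'³ = p³`, against `n2`; `p' = 0` implies `p q' = 0`, `q' ≠ 0`, `p = 0`,
against `n2`; `q' = 0` implies `q p' = 0`, `p' ≠ 0`, `q = 0`, and `p³ = y p'³`. -/
def Stmt_HNE : Prop := ∀ x y : Eis, x ≠ 0 → lam ^ 4 ∣ x ^ 2 - 1 → (¬ ∃ c : Eis, c ^ 3 = x) →
  (∀ π : PP, V π.1 x ≤ 2) → y ≠ 0 → (¬ ∃ c : Eis, c ^ 3 = y) → (∀ π : PP, tm π.1 x y = 0) →
  (∀ π : PP, π.1 ∣ y → ¬ LCE π.1 x → π.1 ∣ x) →
  ∃ p q p' q' : Eis, SolE x y p q p' q'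

end Pool.Agent.PTK


end

section

/-!
# The average rank of prime twists: the governing field over `K = Q(w)`

The base class `x` and the norms `b j` (`j : Fin s`) are elements of `Z[w]`. The statements are variants of
those of `PT/Stmts4.lean`; only the pairs `(x, b j)` occur. `ι : Eis →+* L` is the embedding of `Z[w]`
into the governing field `L`.
-/

set_option autoImplicit false

open NumberField IsDedekindDomain Finset
open scoped nonZeroDivisors Pointwise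

namespace Pool.Agent.PTK

open Pool.Agent.Lib_helper18 Pool.Agent.Lib_helper18.Eis Pool.Agent.Lib_helper84.Cub
open Pool.Agent.PT Pool.Agent.PTL

/-- the numerator of `α` -/
def aNE {L : Type} [Field L] (ι : Eis →+* L) (p q p' q' : Eis) (ρ : L) : L :=
  (ι p + ι q * ι w ^ 2 * ρ) * (ι p' + ι q' * ι w * ρ)

/-- the denominator of `α` -/
def aDE {L : Type} [Field L] (ι : Eis →+* L) (p q p' q' : Eis) (ρ : L) : L :=
  (ι p + ι q * ι w * ρ) * (ι p' + ι q' * ι w ^ 2 * ρ)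

/-- A system: base class `x`, norms `b j`; all classes satisfy `z * conj z = t³` (then complex conjugation
acts trivially on the Galois group of `K(x^(1/3), b_j^(1/3)) / K`). -/
structure SysK {s : ℕ} (x : Eis) (b p q p' q' : Fin s → Eis) : Prop where
  ind : ∀ (c₀ : ℕ) (c : Fin s → ℕ), (¬ 3 ∣ c₀ ∨ ∃ i, ¬ 3 ∣ c i) →
    ¬ ∃ t : Eis, t ^ 3 = x ^ c₀ * ∏ i, b i ^ c i
  sol : ∀ j, SolE x (b j) (p j) (q j) (p' j) (q' j)
  cx : ∃ t : Eis, x * conj x = t ^ 3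
  cb : ∀ j, ∃ t : Eis, b j * conj (b j) = t ^ 3

/-- The governing field. -/
structure GovK {s : ℕ} (x : Eis) (b p q p' q' : Fin s → Eis) (f : ℕ)
    (L : Type) [Field L] [NumberField L] (ζ : L) (ι : Eis →+* L) : Prop where
  gal : IsGalois ℚ L
  prim : IsPrimitiveRoot ζ f
  nine : 9 ∣ f
  hω : ι w = ζ ^ (f / 3)
  rx : ∃ θ : L, θ ^ 3 = ι x
  rb : ∀ j, ∃ θ : L, θ ^ 3 = ι (b j)
  A : ∀ (j : Fin s) (ρ : L), ρ ^ 3 = ι x → ∃ A : L,
    A ^ 3 * aDE ι (p j) (q j) (p' j) (q' j) ρ = aNE ι (p j) (q j) (p' j) (q' j) ρ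
  D : ∀ (j : Fin s) (ρ : L), ρ ^ 3 = ι x →
    aDE ι (p j) (q j) (p' j) (q' j) ρ ≠ 0 ∧ aNE ι (p j) (q j) (p' j) (q' j) ρ ≠ 0

/-- PTK_GZK: existence of the governing field. As `PT/GZERO.lean` (`GZERO.exists_field`). `ι` is
`GFR.lift (ζ ^ (f / 3)) rel` (`PT/GFR.lean`: `lift z hz : Eis →+* S` maps `w` to `z`), and the embedding of `L`
into the algebraic closure is compatible with it. -/
def Stmt_GZK : Prop := ∀ (s : ℕ) (x : Eis) (b p q p' q' : Fin s → Eis) (f : ℕ),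
  SysK x b p q p' q' → 0 < f → 9 ∣ f →
  ∃ (L : Type) (_ : Field L) (_ : NumberField L) (ζ : L) (ι : Eis →+* L),
    GovK x b p q p' q' f L ζ ι

/-- `g²` fixes the cube roots of `x` and of the `b j`. -/
def FxK {s : ℕ} (x : Eis) (b : Fin s → Eis) {L : Type} [Field L] [NumberField L] (ι : Eis →+* L)
    (g : L ≃ₐ[ℚ] L) : Prop :=
  (∀ ρ : L, ρ ^ 3 = ι x → g (g ρ) = ρ) ∧ ∀ (j : Fin s) (ρ : L), ρ ^ 3 = ι (b j) → g (g ρ) = ρ

/-- The relation between `g` and `t = t_j(g)`: `g² A = ω^t A` for all `A` with `A³ = α_j(ρ)`, `ρ³ = x`. -/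
def IsTK {s : ℕ} (x : Eis) (p q p' q' : Fin s → Eis) {L : Type} [Field L]
    [NumberField L] (ι : Eis →+* L) (g : L ≃ₐ[ℚ] L) (j : Fin s) (t : ZMod 3) : Prop :=
  ∀ ρ A : L, ρ ^ 3 = ι x →
    A ^ 3 * aDE ι (p j) (q j) (p' j) (q' j) ρ = aNE ι (p j) (q j) (p' j) (q' j) ρ →
    g (g A) = ι w ^ t.val * A

/-- PTK_GTK: existence, uniqueness and properties of `t`.
Proof (see `PT/GT.lean`, `PT/GC.lean` for similar computations). Put `ω = ι w`, `h = g²`: `h` fixes `ω`, so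
`h (ι a) = ι a` (`ι a = re + im ω`). (1) For one pair `(ρ, A)`: `h` fixes `α(ρ)`, so `h A = ω^t A`, `A ≠ 0`; the
same `t` for `ω^i A`. For `ω ρ`: by the computation of `GC.movA` a cube root `A'` of `α(ω ρ)` satisfies
`A' (p + q ω² ρ) = ω^e A θ (p' + q' ω² ρ)` with `θ³ = b_j` (coefficients through `ι`; the norm relation
`∏ (p + q ω^i ρ) = b_j ∏ (p' + q' ω^i ρ)`, `SolE.eq`), and `h θ = θ`, `h ρ = ρ`; so `h A' = ω^t A'`. Uniqueness: there
is a root `ρ` (`rx`) and an `A`; `ω^t A = ω^t' A` implies `t = t'`. (2) Let `τ ω = ω` first: for a pair `(ρ, A)`,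
`(τ⁻¹ ρ, τ⁻¹ A)` is a pair, so `(τ g τ⁻¹)² A = τ (h (τ⁻¹ A)) = ω^t A`, and in the same way for the roots. If
`τ ω = ω²` (the only other case) then `τ = τ' g` with `τ' = τ g⁻¹`, `τ' ω = ω`, and `τ g τ⁻¹ = τ' g τ'⁻¹`.
(3) `(g^k)² = h^k`, and `g^k ω = ω²` for odd `k`. -/
def Stmt_GTK : Prop := ∀ (s : ℕ) (x : Eis) (b p q p' q' : Fin s → Eis) (f : ℕ)
  (L : Type) [Field L] [NumberField L] (ζ : L) (ι : Eis →+* L), SysK x b p q p' q' →
  GovK x b p q p' q' f L ζ ι →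
  ∀ j,
  (∀ g : L ≃ₐ[ℚ] L, g (ι w) = ι w ^ 2 → FxK x b ι g → ∃! t : ZMod 3, IsTK x p q p' q' ι g j t) ∧
  (∀ (g τ : L ≃ₐ[ℚ] L) (t : ZMod 3), g (ι w) = ι w ^ 2 → FxK x b ι g →
    IsTK x p q p' q' ι g j t →
    FxK x b ι (τ * g * τ⁻¹) ∧ IsTK x p q p' q' ι (τ * g * τ⁻¹) j t) ∧
  (∀ (g : L ≃ₐ[ℚ] L) (t : ZMod 3) (k : ℕ), g (ι w) = ι w ^ 2 → FxK x b ι g → Odd k →
    IsTK x p q p' q' ι g j t → FxK x b ι (g ^ k) ∧ IsTK x p q p' q' ι (g ^ k) j (k * t))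

/-- PTK_GKK: Kummer theory over `K`.
Proof. `KUM` (PT/Stmts3.lean, `KUM_thm`) for `F = IntermediateField.adjoin ℚ {ι w}` (all of it is
`{ι a / m}`), `L / F` Galois. Independence: if `∏ (ι x)^.. ∏ (ι (b i))^.. = β³` with `β ∈ F` then
`β = ι u / ι v` (`u, v ∈ Eis`, `v ≠ 0`), so `u³ = v³ x^.. ∏ b_i^..`, `v ∣ u` and the product is the cube of an
element of `Eis`, against `SysK.ind`. -/
def Stmt_GKK : Prop := ∀ (s : ℕ) (x : Eis) (b p q p' q' : Fin s → Eis) (f : ℕ)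
  (L : Type) [Field L] [NumberField L] (ζ : L) (ι : Eis →+* L), SysK x b p q p' q' →
  GovK x b p q p' q' f L ζ ι →
  ∀ (a₀ : ZMod 3) (a : Fin s → ZMod 3), ∃ g : L ≃ₐ[ℚ] L, g (ι w) = ι w ∧
    (∀ ρ : L, ρ ^ 3 = ι x → g ρ = ι w ^ a₀.val * ρ) ∧
    ∀ (j : Fin s) (ρ : L), ρ ^ 3 = ι (b j) → g ρ = ι w ^ (a j).val * ρ

/-- PTK_GCK: the commutators.
Proof. Hypothesis `Stmt_GKK`. Put `ω = ι w`. Lemma (from `GC.mv`, `GC.fx`, `GC.comm_apply` in PT/GC.lean; the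
coefficients are now `ι p`, … instead of integers): let `σ, τ` fix `ω`, `σ ρ = ω ρ` for the roots of `x`, `σ θ = θ` for the
roots of all `b i`, `τ ρ = ρ` for the roots of `x`, `τ θ = ω^(a i) θ` for the roots of `b i`. Then for every pair
`(ρ, A)` for `j`: `τ (σ A) = ω^(a j) σ (τ A)`, so `(σ τ)⁻¹ (τ σ) A = ω^(a j) A`. Given `v`, take `σ`, `τ` from `GKK` with
`a = v`, and `z = (σ τ)⁻¹ (τ σ)`. `z` fixes the roots (both `σ` and `τ` act on them by constants), and `z ζ = ζ`: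
`σ ζ` and `τ ζ` are powers of `ζ`, so they commute on `ζ`. Last clause: let `g ω = ω²`. Put `σ' = g⁻¹ σ g`,
`τ' = g⁻¹ τ g`, `z' = g⁻¹ z g = (σ' τ')⁻¹ (τ' σ')`. `σ'` acts on the roots as `σ`: for `ρ³ = ι x`: `(g ρ)³ = g (ι x) =
ι (conj x)` (`ι a = re + im ω`, `conj`: `w ↦ w²`), and `x conj x = t³`, so `g ρ = ω^k ι t / ρ`, `σ (g ρ) = ω^k ι t / (ω ρ) =
ω⁻¹ (g ρ)`, `g⁻¹ (ω⁻¹ g ρ) = ω ρ` (`g⁻¹ ω⁻¹ = ω`); in the same way for `θ³ = ι (b i)`: `σ' θ = θ`; and for `τ'`. So by the lemma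
`z' A = ω^(v j) A`, and `z (g A) = g (z' A) = g (ω^(v j) A) = ω^(- v j) g A`. -/
def Stmt_GCK : Prop := ∀ (s : ℕ) (x : Eis) (b p q p' q' : Fin s → Eis) (f : ℕ)
  (L : Type) [Field L] [NumberField L] (ζ : L) (ι : Eis →+* L), SysK x b p q p' q' →
  GovK x b p q p' q' f L ζ ι →
  ∀ v : Fin s → ZMod 3, ∃ z : L ≃ₐ[ℚ] L, z ζ = ζ ∧ (∀ ρ : L, ρ ^ 3 = ι x → z ρ = ρ) ∧
    (∀ (j : Fin s) (ρ : L), ρ ^ 3 = ι (b j) → z ρ = ρ) ∧
    ∀ (j : Fin s) (ρ A : L), ρ ^ 3 = ι x →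
      A ^ 3 * aDE ι (p j) (q j) (p' j) (q' j) ρ = aNE ι (p j) (q j) (p' j) (q' j) ρ →
      z A = ι w ^ (v j).val * A ∧
      ∀ g : L ≃ₐ[ℚ] L, g (ι w) = ι w ^ 2 → z (g A) = ι w ^ (- v j).val * g A

/-- PTK_GFK: Frobenius elements and `t`.
Proof. As `PT/GFR.lean` (`GFR.exists_frob_gen` gives the first part). Let `Q = 2 (mod 3)`, `φ` a Frobenius
element for `P`, `κ = 𝓞 L / P`, `z` the image of `ω`. `φ ω = ω²` as in GFR. `h = φ²`: `mk (h y) = (mk y) ^ (Q²)` for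
`y ∈ 𝓞 L`. The homomorphism `Eis → κ`, `a ↦ mk (ι a)`, has kernel `(Q)` (`Q` is a prime of `Eis` and `κ` is a
field), and `sym (Q : Eis) a` is characterised by `a ^ ((Q² - 1) / 3) = w ^ (sym Q a)` modulo `Q` for `Q ∤ a`
(library of helper18; see how GFR uses it). (a) Let `ρ³ = ι x`, `sym Q x = 0`, `Q` large (`Q ∤ x`):
`mk (h ρ) = (mk ρ) ^ (Q²) = mk ρ · (mk (ι x)) ^ ((Q² - 1) / 3) = mk ρ`, and `h ρ = ω^i ρ`, so `ω^i = 1` in `κ`, `i = 0`. The
same for `b j`. (b) Let `Q ∣ r³ - x`. The roots of `T³ = x` in `κ` are the images of `ω^i ρ`; so there is a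
root `ρ` with `mk ρ = mk (ι r)`. For `A` with `A³ aD = aN`: `y = A aD` is integral, `y³ = aN aD²`, `h y = ω^t y` (`h` fixes
`aD`, since `h` fixes `ρ` and `ι a`) and `mk (h y) = (mk y)^(Q²) = mk y · (mk (aN aD²)) ^ ((Q² - 1) / 3)`, and
`mk (aN aD²)` is the image of `(LfE p q 2 r) (LfE p' q' 1 r) ((LfE p q 1 r) (LfE p' q' 2 r))²`, prime to `Q` for large `Q`
(the product of the `LfE p q i r`, `i = 0, 1, 2`, is `p³ + x q³` modulo `Q`). So `ω^t = ω^(TAUE)` in `κ`. -/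
def Stmt_GFK : Prop := ∀ (s : ℕ) (x : Eis) (b p q p' q' : Fin s → Eis) (f : ℕ)
  (L : Type) [Field L] [NumberField L] (ζ : L) (ι : Eis →+* L), SysK x b p q p' q' →
  GovK x b p q p' q' f L ζ ι →
  ∃ N₀ : ℕ, ∀ Q : ℕ, Q.Prime → N₀ < Q → ∀ (P : Ideal (𝓞 L)), P.IsPrime → (Q : 𝓞 L) ∈ P →
    (∀ g : L ≃ₐ[ℚ] L, MulAction.stabilizer (L ≃ₐ[ℚ] L) P = Subgroup.zpowers g →
      ∃ k : ℕ, k.Coprime (orderOf g) ∧ IsArithFrobAt ℤ (g ^ k) P) ∧
    ∀ φ : L ≃ₐ[ℚ] L, IsArithFrobAt ℤ φ P → Q % 3 = 2 → φ (ι w) = ι w ^ 2 ∧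
      (sym (Q : Eis) x = 0 → (∀ j, sym (Q : Eis) (b j) = 0) → FxK x b ι φ ∧
        ∀ (j : Fin s) (r : Eis) (t : ZMod 3), (Q : Eis) ∣ r ^ 3 - x →
          IsTK x p q p' q' ι φ j t → t = TAUE Q (p j) (q j) (p' j) (q' j) r)

/-- PTK_GAK: summary of the governing field.
Proof. As `PT/GALD.lean`, with `GZK`, `GTK`, `GCK`, `GFK`, `GCHI`. `F g : g (ι w) = ι w ^ 2 ∧ FxK x b ι g` (if `M2 (χ g)`
then `g (ι w) = ι w ^ 2`, as in GALD), `t g j` the number of `GTK` if `F g`, `0` otherwise. Equidistribution: let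
`z` be from `GCK` for the vector `2 (v' - v) = -(v' - v)`; `g ↦ g z` is a bijection of the first set onto the second one:
`χ (g z) = χ g` (`z ζ = ζ`), `F (g z)`: on roots `ρ`: `(g z)² ρ = g z g ρ`, and `g ρ = ω^k ι t / ρ` (see `GCK`) is fixed by `z`
(or: `g ρ` is a root of `conj x`, which is a quotient), so it is `g² ρ`. `(g z)² A = g (z (g (z A)))`, with `z A = ω^u A`:
`g (z A) = ω^(-u) g A`, `z (ω^(-u) g A) = ω^(-u) ω^(-u) g A`, `g` of it is `ω^(2u) g² A = ω^(2u + t) A`. So `t (g z) = t g + 2 u`. -/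
def Stmt_GAK : Prop := ∀ (s : ℕ) (x : Eis) (b p q p' q' : Fin s → Eis) (f : ℕ),
  SysK x b p q p' q' → 0 < f → 9 ∣ f →
  ∃ (L : Type) (_ : Field L) (_ : NumberField L) (_ : IsGalois ℚ L)
    (χ : (L ≃ₐ[ℚ] L) →* (ZMod f)ˣ) (F : (L ≃ₐ[ℚ] L) → Prop)
    (t : (L ≃ₐ[ℚ] L) → Fin s → ZMod 3) (N₀ : ℕ),
    Function.Surjective χ ∧
    (∀ g τ : L ≃ₐ[ℚ] L, M2 (χ g) → F g → F (τ * g * τ⁻¹) ∧ t (τ * g * τ⁻¹) = t g) ∧
    (∀ (g : L ≃ₐ[ℚ] L) (k : ℕ), M2 (χ g) → F g → Odd k → F (g ^ k) ∧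
      t (g ^ k) = (k : ZMod 3) • t g) ∧
    (∀ (a : (ZMod f)ˣ) (v v' : Fin s → ZMod 3), M2 a →
      Nat.card {g : L ≃ₐ[ℚ] L // χ g = a ∧ F g ∧ t g = v} =
        Nat.card {g : L ≃ₐ[ℚ] L // χ g = a ∧ F g ∧ t g = v'}) ∧
    ∀ (Q : ℕ) (hQ : Q.Coprime f), Q.Prime → N₀ < Q → ∀ (P : Ideal (𝓞 L)) (g : L ≃ₐ[ℚ] L),
      P.IsPrime → (Q : 𝓞 L) ∈ P →
      MulAction.stabilizer (L ≃ₐ[ℚ] L) P = Subgroup.zpowers g →
      ∃ k : ℕ, k.Coprime (orderOf g) ∧ χ (g ^ k) = ZMod.unitOfCoprime Q hQ ∧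
        (Q % 3 = 2 → sym (Q : Eis) x = 0 → (∀ j, sym (Q : Eis) (b j) = 0) → F (g ^ k) ∧
          ∀ (j : Fin s) (r : Eis), (Q : Eis) ∣ r ^ 3 - x →
            t (g ^ k) j = TAUE Q (p j) (q j) (p' j) (q' j) r)

/-! ### Densities -/

/-- PTK_DNS: upper bound for the density of a set of primes whose Frobenius elements are in a
subset stable under passing to another generator of a conjugate cyclic subgroup.
Proof. This is the proof of `BD.dens` in PTL/BD.lean (read it) in an abstract form: the complement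
`InU g ∧ ¬ B g`, `InU g : M2 (χ g) ∧ (κ (χ g) = c ∨ κ (χ g) = -c)` (`BD.InU` or `BDENS.InU`), is stable too (two
generators of the same cyclic group: `χ h = χ g ^ k` with `k` odd and prime to `3`… as in `BDENS.stable`), the
lower bound `RI.FROBD_thm` for it, and `DIR` for the residue classes of `InU`. -/
def Stmt_DNS : Prop := ∀ (f m : ℕ) (κ : (ZMod f)ˣ →* Multiplicative (Fin (m + 1) → ZMod 3))
  (c : Fin (m + 1) → ZMod 3) (L : Type) [Field L] [NumberField L] [IsGalois ℚ L]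
  (χ : (L ≃ₐ[ℚ] L) →* (ZMod f)ˣ) (B : (L ≃ₐ[ℚ] L) → Prop) (S : Set ℕ) (N₀ : ℕ),
  0 < f → 9 ∣ f → Function.Surjective χ →
  (∀ g h τ : L ≃ₐ[ℚ] L, B g → Subgroup.zpowers h = Subgroup.zpowers (τ * g * τ⁻¹) → B h) →
  (∀ g, B g → M2 (χ g) ∧ ((κ (χ g)).toAdd = c ∨ (κ (χ g)).toAdd = -c)) →
  (∀ (Q : ℕ) (hQ : Q.Coprime f), Q.Prime → N₀ < Q → ∀ (P : Ideal (𝓞 L)) (g : L ≃ₐ[ℚ] L),
    P.IsPrime → (Q : 𝓞 L) ∈ P → MulAction.stabilizer (L ≃ₐ[ℚ] L) P = Subgroup.zpowers g →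
    (∃ k : ℕ, k.Coprime (orderOf g) ∧ χ (g ^ k) = ZMod.unitOfCoprime Q hQ) ∧ (Q ∈ S → B g)) →
  (∀ (Q : ℕ) (hQ : Q.Coprime f), Q.Prime → N₀ < Q → Q ∈ S → Q % 3 = 2 ∧
    ((κ (ZMod.unitOfCoprime Q hQ)).toAdd = c ∨ (κ (ZMod.unitOfCoprime Q hQ)).toAdd = -c)) →
  ∃ K : ℝ, ∀ σ : ℝ, 1 < σ → σ ≤ 2 → BDENS.sm S σ ≤
    (Nat.card {g : L ≃ₐ[ℚ] L // B g} : ℝ) / Nat.card (L ≃ₐ[ℚ] L) * Real.log (1 / (σ - 1)) + K

/-- the primes `Q` with prescribed `TAUE`, exponent `1`, class `c` -/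
def SPK {s f m : ℕ} (x : Eis) (b p q p' q' : Fin s → Eis)
    (κ : (ZMod f)ˣ →* Multiplicative (Fin (m + 1) → ZMod 3)) (c : Fin (m + 1) → ZMod 3)
    (C : Fin s → ZMod 3) (Φ : (ZMod f)ˣ →* Multiplicative (Fin s → ZMod 3)) : Set ℕ :=
  {Q : ℕ | ∃ hQ : Q.Coprime f, Q % 3 = 2 ∧ (κ (ZMod.unitOfCoprime Q hQ)).toAdd = c ∧
    sym (Q : Eis) x = 0 ∧ (∀ j, sym (Q : Eis) (b j) = 0) ∧
    ∀ (j : Fin s) (r : Eis), (Q : Eis) ∣ r ^ 3 - x →
      TAUE Q (p j) (q j) (p' j) (q' j) r = C j + (Φ (ZMod.unitOfCoprime Q hQ)).toAdd j}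

/-- the primes `Q` with prescribed `TAUE`, exponent `2`, class `-c` -/
def SMK {s f m : ℕ} (x : Eis) (b p q p' q' : Fin s → Eis)
    (κ : (ZMod f)ˣ →* Multiplicative (Fin (m + 1) → ZMod 3)) (c : Fin (m + 1) → ZMod 3)
    (C : Fin s → ZMod 3) (Φ : (ZMod f)ˣ →* Multiplicative (Fin s → ZMod 3)) : Set ℕ :=
  {Q : ℕ | ∃ hQ : Q.Coprime f, Q % 3 = 2 ∧ (κ (ZMod.unitOfCoprime Q hQ)).toAdd = -c ∧
    sym (Q : Eis) x = 0 ∧ (∀ j, sym (Q : Eis) (b j) = 0) ∧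
    ∀ (j : Fin s) (r : Eis), (Q : Eis) ∣ r ^ 3 - x →
      TAUE Q (p j) (q j) (p' j) (q' j) r = - C j + (Φ (ZMod.unitOfCoprime Q hQ)).toAdd j}

/-- PTK_BDK: the bound for the density, both exponents together.
Proof. As `BDE_thm` (PTL/BD.lean, read it), with `GAK`, `DNS`. A root `r` of `r³ = x` modulo `Q` exists
because `sym Q x = 0` (`Q ∤ x` for large `Q`; `LCI`-like: an element of the field `Eis / Q` with trivial symbol
is a cube; `Stmt_LCI`, first part, and the prime `π : PP` with `π.1 = Q`, `SPP`).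
`XP g : M2 (χ g) ∧ F g ∧ κ (χ g) = c ∧ t g = C + Φ (χ g)`, `XM g : M2 (χ g) ∧ F g ∧ κ (χ g) = -c ∧
t g = - C + Φ (χ g)`. If `h = g' ^ k`, `g' = τ g τ⁻¹`, `k` odd and prime to `3` (two generators of a cyclic group whose
order is divisible by `2` and, if necessary, made prime to `3`; see `BDENS.exists_pow`) then for
`k = 1 (mod 3)`, `XP` and `XM` are preserved, for `k = 2 (mod 3)` they are exchanged (`t (g'^k) = k t`,
`Φ (χ g' ^ k) = k Φ`, `κ` the same): so `XP ∨ XM` and `XP ∧ XM` are stable. `F` is preserved (`GAK`; and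
`F h → F g'` as `g'` is a power of `h`). Counting: for every unit `a` with `M2 a` the sets
`{g // χ g = a ∧ F g ∧ t g = v}` have the same size for all `3^s` vectors `v`, so
`3^s #{g // χ g = a ∧ F g ∧ t g = v} ≤ #{g // χ g = a} = #G / φ(f)`; sum over the
`φ(f) / (2 · 3^(m+1))` units `a` with `M2 a`, `κ a = c`: `3^s · 2 · 3^(m+1) #XP ≤ #G`, the same for `XM`. `DNS` for
`S = SPK ∪ SMK`, `B = XP ∨ XM` and `S = SPK ∩ SMK`, `B = XP ∧ XM`; `BD.sm_union_inter`, `BD.card_incl`: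
the sum is at most `(2 / (3^s · 2 · 3^(m+1))) log + K`. -/
def Stmt_BDK : Prop := ∀ (s : ℕ) (x : Eis) (b p q p' q' : Fin s → Eis) (f m : ℕ)
  (κ : (ZMod f)ˣ →* Multiplicative (Fin (m + 1) → ZMod 3)) (c : Fin (m + 1) → ZMod 3)
  (C : Fin s → ZMod 3) (Φ : (ZMod f)ˣ →* Multiplicative (Fin s → ZMod 3)),
  SysK x b p q p' q' → 0 < f → 9 ∣ f →
  (∀ c : Fin (m + 1) → ZMod 3,
    Nat.card {a : (ZMod f)ˣ // M2 a ∧ (κ a).toAdd = c} * (2 * 3 ^ (m + 1)) = f.totient) →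
  ∃ K : ℝ, ∀ σ : ℝ, 1 < σ → σ ≤ 2 →
    BDENS.sm (SPK x b p q p' q' κ c C Φ) σ + BDENS.sm (SMK x b p q p' q' κ c C Φ) σ ≤
      1 / 3 ^ s / 3 ^ (m + 1) * Real.log (1 / (σ - 1)) + K

end Pool.Agent.PTK


end

section

/-!
# The average rank of prime twists: the Hasse norm theorem for `K(x^(1/3)) / K`, assembly
-/

set_option autoImplicit false

open NumberField IsDedekindDomain Finset
open scoped nonZeroDivisors Pointwise

namespace Pool.Agent.PTK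

open Pool.Agent.Lib_helper18 Pool.Agent.Lib_helper18.Eis Pool.Agent.Lib_helper84.Cub
open Pool.Agent.PT

namespace HNE

theorem cube_of {y a b : Eis} (hb : b ≠ 0) (h : a ^ 3 = y * b ^ 3) : ∃ c : Eis, c ^ 3 = y := by
  have h1 : b ^ 3 ∣ a ^ 3 := ⟨y, by rw [h, mul_comm]⟩
  have h2 : b ∣ a := (IsIntegrallyClosed.pow_dvd_pow_iff (by norm_num : (3 : ℕ) ≠ 0)).1 h1
  obtain ⟨c, rfl⟩ := h2
  refine ⟨c, mul_right_cancel₀ (pow_ne_zero 3 hb) ?_⟩
  rw [← h]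
  ring

theorem sol {x y p q p' q' : Eis} (hx : x ≠ 0) (hy : ¬ ∃ c : Eis, c ^ 3 = y)
    (h : SolWE x y p q p' q') : SolE x y p q p' q' := by
  have hn : p' ^ 3 + x * q' ^ 3 ≠ 0 := by
    intro h1
    apply h.n1
    rw [h.eq, h1, mul_zero]
  have n2 : p ^ 3 - y * p' ^ 3 ≠ 0 := by
    intro h1
    have h2 : p ^ 3 = y * p' ^ 3 := sub_eq_zero.1 h1
    rcases eq_or_ne p' 0 with h3 | h3
    · have h4 : p = 0 := by
        apply pow_eq_zero_iff (n := 3) (by norm_num) |>.1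
        rw [h2, h3]
        ring
      have h5 := h.eq
      have h6 : q ^ 3 = y * q' ^ 3 := by
        apply mul_left_cancel₀ hx
        rw [h3, h4] at h5
        linear_combination h5
      rcases eq_or_ne q' 0 with h7 | h7
      · apply hn
        rw [h3, h7]
        ring
      · exact hy (cube_of h7 h6)
    · exact hy (cube_of h3 h2)
  have g : ∀ i : ℕ, GfE p q p' q' i ≠ 0 := by
    intro i h1
    unfold GfE at h1
    have h2 : q * p' = w ^ i * p * q' := sub_eq_zero.1 h1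
    have h3 : q ^ 3 * p' ^ 3 = p ^ 3 * q' ^ 3 := by
      have h4 : (w ^ i) ^ 3 = 1 := by rw [← pow_mul, mul_comm, pow_mul, w_cube, one_pow]
      calc q ^ 3 * p' ^ 3 = (q * p') ^ 3 := by ring
        _ = (w ^ i) ^ 3 * (p ^ 3 * q' ^ 3) := by rw [h2]; ring
        _ = p ^ 3 * q' ^ 3 := by rw [h4, one_mul]
    have h5 : (p ^ 3 - y * p' ^ 3) * (p' ^ 3 + x * q' ^ 3) = 0 := by
      linear_combination (- x) * h3 - p' ^ 3 * (- h.eq)
    rcases mul_eq_zero.1 h5 with h6 | h6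
    · exact n2 h6
    · exact hn h6
  exact { toSolWE := h, n2 := n2, g1 := g 1, g2 := g 2 }

end HNE

/-- the Hasse norm theorem, with nondegenerate solutions -/
theorem HNE_thm (hNFL : Stmt_NFL) (hNMN : Stmt_NMN) (hNDS : Stmt_NDS) : Stmt_HNE := by
  intro x y hx h9 hxc hV hy hyc htm hd
  obtain ⟨L, _, _, ι, θ, σ, hC⟩ := hNFL x hx hxc
  obtain ⟨z, hz, hN⟩ := hNMN x L ι θ σ hx h9 hV hxc hC y hy htm hd
  obtain ⟨p, q, p', q', hs⟩ := hNDS x L ι θ σ hx hC y z hy hz hN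
  exact ⟨p, q, p', q', HNE.sol hx hyc hs⟩

end Pool.Agent.PTK


end

section

/-!
# IF4B: the symbol of `F_1 / F_2` and `n_0` over `K`
-/

set_option autoImplicit false

namespace Pool.Agent.PTK

open Pool.Agent.Lib_helper18 Pool.Agent.Lib_helper18.Eis Pool.Agent.Lib_helper84.Cub
open Pool.Agent.PT Pool.Agent.PT.IF4B

theorem IF4B_thm (hSTAR : STAR) : Stmt_IF4B := by
  intro π s e hs x X Y hx' _ _ hn'
  have hw : w ≠ 0 := by
    intro h
    have h1 := congrArg Eis.im h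
    simp at h1
  set n0 : Eis := X ^ 3 + x * Y ^ 3 with hn0
  refine ⟨V π n0 + V π x + e + 1, fun ξ hξ => ?_⟩
  have hξ0 : ξ ≠ 0 := by
    intro h
    rw [h] at hξ
    refine not_dvd hs.prime hx' (N := V π n0 + V π x + e + 1) (by omega) ?_
    have h1 : (0 : Eis) ^ 3 - x = -x := by ring
    rw [h1, dvd_neg] at hξ
    exact hξ
  have hprod := prod_eq X ξ Y
  have hdvd : π ^ (V π n0 + V π x + e + 1) ∣ X ^ 3 + ξ ^ 3 * Y ^ 3 - n0 := by
    have h1 : X ^ 3 + ξ ^ 3 * Y ^ 3 - n0 = (ξ ^ 3 - x) * Y ^ 3 := by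
      rw [hn0]
      ring
    rw [h1]
    exact Dvd.dvd.mul_right hξ _
  have hne : X ^ 3 + ξ ^ 3 * Y ^ 3 ≠ 0 := by
    intro h
    rw [h, zero_sub, dvd_neg] at hdvd
    exact not_dvd hs.prime hn' (by omega) hdvd
  set F : ℕ → Eis := fun i => X + w ^ i * ξ * Y with hF
  have hF3 : F 0 * F 1 * F 2 = X ^ 3 + ξ ^ 3 * Y ^ 3 := hprod
  have hF0 : F 0 ≠ 0 := by
    intro h
    rw [h, zero_mul, zero_mul] at hF3
    exact hne hF3.symm
  have hF1 : F 1 ≠ 0 := by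
    intro h
    rw [h, mul_zero, zero_mul] at hF3
    exact hne hF3.symm
  have hF2 : F 2 ≠ 0 := by
    intro h
    rw [h, mul_zero] at hF3
    exact hne hF3.symm
  have hFi : ∀ i, F i ≠ 0 := by
    intro i
    have h1 : F i = F (i % 3) := by
      simp only [hF]
      rw [w_pow i]
    rw [h1]
    have h2 : i % 3 < 3 := Nat.mod_lt _ (by norm_num)
    interval_cases i % 3
    · exact hF0
    · exact hF1
    · exact hF2
  have h1 := (hSTAR π s e hs X Y 0 0 ξ F (fun _ => 0) (fun _ => 0)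
    (fun _ => rfl) (fun i => by simp) (fun i => by simp) hξ0 hFi).1
  have hcont : ∀ b : Eis, b ≠ 0 → s b (F 0 * F 1 * F 2) = s b n0 := by
    intro b hb
    rw [hs.skew _ b (hF3 ▸ hne) hb, hs.skew n0 b hn' hb, hF3]
    congr 1
    refine hs.cont n0 _ b hn' hb ((pow_dvd_pow π ?_).trans hdvd)
    omega
  rw [hcont _ hF1, hcont _ hF2, hcont _ hw] at h1
  have h2 : ∀ i, LfE X Y i ξ = F i := by
    intro i
    simp only [LfE, hF]
    ring
  rw [h2, h2]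
  exact h1

end Pool.Agent.PTK


end

section

/-!
# PTK, module NNS: norms have trivial symbols with the base class (helper54)

Copy of `PT/NNS.lean`.
-/

set_option autoImplicit false

open NumberField IsDedekindDomain Finset
open scoped nonZeroDivisors Pointwise

namespace Pool.Agent.PTK

open Pool.Agent.Lib_helper18 Pool.Agent.Lib_helper18.Eis Pool.Agent.Lib_helper84.Cub
open Pool.Agent.PT

namespace NNS

variable {x : Eis} {L : Type} [Field L] [NumberField L] {ι : Eis →+* L} {θ : L} {σ : L ≃ₐ[ℚ] L}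

lemma norm_lin (h : CubE x L ι θ σ) (α β : Eis) :
    (ι α + ι β * θ) * σ (ι α + ι β * θ) * σ (σ (ι α + ι β * θ)) = ι (α ^ 3 + x * β ^ 3) := by
  have hw : ι w ^ 2 + ι w + 1 = 0 := by
    have : w ^ 2 + w + 1 = (0 : Eis) := by
      decide
    rw [← map_pow, ← map_one ι, ← map_add, ← map_add, this, map_zero]
  have h3 : ι w ^ 3 = 1 := by
    linear_combination (ι w - 1) * hw
  have e1 : σ (ι α + ι β * θ) = ι α + ι β * (ι w * θ) := by
    rw [map_add, map_mul, h.sι, h.sι, h.sθ]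
  have e2 : σ (σ (ι α + ι β * θ)) = ι α + ι β * (ι w * (ι w * θ)) := by
    rw [e1, map_add, map_mul, map_mul, h.sι, h.sι, h.sι, h.sθ]
  rw [e2, e1, map_add, map_mul, map_pow, map_pow, ← h.cube]
  linear_combination (ι α ^ 2 * ι β * θ + ι α * ι β ^ 2 * θ ^ 2 * ι w) * hw
    + ι β ^ 3 * θ ^ 3 * h3

lemma norm_ne (h : CubE x L ι θ σ) {α β : Eis} (hne : ι α + ι β * θ ≠ 0) :
    α ^ 3 + x * β ^ 3 ≠ 0 := by
  intro h0
  have h1 := norm_lin h α β
  rw [h0, map_zero] at h1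
  have hs : ∀ y : L, y ≠ 0 → σ y ≠ 0 := fun y hy => (map_ne_zero σ).mpr hy
  exact (mul_ne_zero (mul_ne_zero hne (hs _ hne)) (hs _ (hs _ hne))) h1

end NNS

theorem NNS_thm : Stmt_NNS := by
  intro x L _ _ ι θ σ hxE hF π s e hs z a b hz ha hb hzab
  obtain ⟨m, a0, b0, d0, hm, hrep⟩ := hF.rep z
  have hmL : (m : L) ≠ 0 := by exact_mod_cast hm
  have hmE : (m : Eis) ≠ 0 := by
    intro h0
    have h1 : ι (m : Eis) = (m : L) := map_intCast ι m
    rw [h0, map_zero] at h1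
    exact hmL h1.symm
  obtain ⟨γ, δ, α, β, hγδ, hαβ⟩ : ∃ γ δ α β : Eis, ι γ + ι δ * θ ≠ 0 ∧
      z * (ι γ + ι δ * θ) * (m : L) = ι α + ι β * θ := by
    by_cases hbd : b0 = 0 ∧ d0 = 0
    · refine ⟨1, 0, a0, 0, ?_, ?_⟩
      · simp
      · rw [hbd.1, hbd.2] at hrep
        simp only [map_zero, zero_mul, add_zero, map_one, mul_one] at hrep ⊢
        rw [mul_comm]; exact hrep
    · refine ⟨b0, -d0, a0 * b0 - d0 ^ 2 * x, b0 ^ 2 - a0 * d0, ?_, ?_⟩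
      · intro h0
        have h1 := hF.lin b0 (-d0) 0 (by rw [map_zero, zero_mul, add_zero]; exact h0)
        exact hbd ⟨h1.1, neg_eq_zero.mp h1.2.1⟩
      · rw [map_sub, map_sub, map_neg, map_mul, map_mul, map_mul, map_pow, map_pow, ← hF.cube]
        linear_combination (ι b0 - ι d0 * θ) * hrep
  have hαβ0 : ι α + ι β * θ ≠ 0 := by
    rw [← hαβ]
    exact mul_ne_zero (mul_ne_zero hz hγδ) hmL
  have hN1 := NNS.norm_ne hF hγδ
  have hN2 := NNS.norm_ne hF hαβ0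
  have hkey : a * ((m : Eis) ^ 3 * (γ ^ 3 + x * δ ^ 3)) = b * (α ^ 3 + x * β ^ 3) := by
    apply hF.inj
    have hm' : ι (m : Eis) = (m : L) := map_intCast ι m
    have hsm : ∀ k : ℤ, σ (k : L) = (k : L) := fun k => map_intCast σ k
    rw [map_mul, map_mul, map_mul, map_pow, hm', ← NNS.norm_lin hF γ δ, ← NNS.norm_lin hF α β, ← hαβ,
      ← hzab]
    simp only [map_mul, hsm]
    ring
  have hl : s (a * ((m : Eis) ^ 3 * (γ ^ 3 + x * δ ^ 3))) x = s a x := by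
    rw [hs.mul _ _ _ ha (mul_ne_zero (pow_ne_zero 3 hmE) hN1) hxE,
      hs.mul _ _ _ (pow_ne_zero 3 hmE) hN1 hxE, Pool.Agent.PT.NNS.cube_left hs hmE hxE,
      Pool.Agent.PT.NNS.norm_symbol hs hxE hN1, add_zero, add_zero]
  have hr : s (b * (α ^ 3 + x * β ^ 3)) x = s b x := by
    rw [hs.mul _ _ _ hb hN2 hxE, Pool.Agent.PT.NNS.norm_symbol hs hxE hN2, add_zero]
  rw [← hl, hkey, hr]

end Pool.Agent.PTK


end

section

/-!
# PTK_NRK: the unit rank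
-/

set_option autoImplicit false

open NumberField IsDedekindDomain Finset
open scoped nonZeroDivisors Pointwise

namespace Pool.Agent.PTK

open Pool.Agent.Lib_helper18 Pool.Agent.Lib_helper18.Eis Pool.Agent.Lib_helper84.Cub
open Pool.Agent.PT

namespace NRK

/-- the basis of `L` over `ℚ` -/
def bv {L : Type} [Field L] (ι : Eis →+* L) (θ : L) : Fin 6 → L :=
  ![1, ι w, θ, ι w * θ, θ ^ 2, ι w * θ ^ 2]

theorem iota_eq {L : Type} [Field L] (ι : Eis →+* L) (a : Eis) :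
    ι a = (a.re : L) + (a.im : L) * ι w := by
  conv_lhs => rw [eq_re_add_im a]
  simp

theorem bv_indep {x : Eis} {L : Type} [Field L] [NumberField L] {ι : Eis →+* L} {θ : L}
    {σ : L ≃ₐ[ℚ] L} (h : CubE x L ι θ σ) : LinearIndependent ℚ (bv ι θ) := by
  rw [← LinearIndependent.iff_fractionRing ℤ ℚ, Fintype.linearIndependent_iff]
  intro g hg
  rw [Fin.sum_univ_six] at hg
  simp only [bv, Matrix.cons_val, zsmul_eq_mul] at hg
  obtain ⟨h1, h2, h3⟩ := h.lin ⟨g 0, g 1⟩ ⟨g 2, g 3⟩ ⟨g 4, g 5⟩ (by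
    rw [iota_eq ι ⟨g 0, g 1⟩, iota_eq ι ⟨g 2, g 3⟩, iota_eq ι ⟨g 4, g 5⟩]
    simp only
    rw [← hg]
    ring)
  have e1 := congrArg Eis.re h1
  have e2 := congrArg Eis.im h1
  have e3 := congrArg Eis.re h2
  have e4 := congrArg Eis.im h2
  have e5 := congrArg Eis.re h3
  have e6 := congrArg Eis.im h3
  simp only [zero_re, zero_im] at e1 e2 e3 e4 e5 e6
  intro i
  fin_cases i <;> assumption

theorem bv_span {x : Eis} {L : Type} [Field L] [NumberField L] {ι : Eis →+* L} {θ : L}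
    {σ : L ≃ₐ[ℚ] L} (h : CubE x L ι θ σ) : ⊤ ≤ Submodule.span ℚ (Set.range (bv ι θ)) := by
  intro z _
  obtain ⟨m, a, b, d, hm, hz⟩ := h.rep z
  have hmL : (m : L) ≠ 0 := Int.cast_ne_zero.mpr hm
  have hz' : z = ((m : ℚ)⁻¹) • ((a.re : ℚ) • bv ι θ 0 + (a.im : ℚ) • bv ι θ 1 +
      (b.re : ℚ) • bv ι θ 2 + (b.im : ℚ) • bv ι θ 3 +
      (d.re : ℚ) • bv ι θ 4 + (d.im : ℚ) • bv ι θ 5) := by
    simp only [bv, Matrix.cons_val, Algebra.smul_def, map_inv₀, map_intCast]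
    rw [iota_eq ι a, iota_eq ι b, iota_eq ι d] at hz
    field_simp
    rw [mul_comm z, hz]
    ring
  have hmem : ∀ i, bv ι θ i ∈ Submodule.span ℚ (Set.range (bv ι θ)) := fun i =>
    Submodule.subset_span ⟨i, rfl⟩
  rw [hz']
  refine Submodule.smul_mem _ _ ?_
  refine Submodule.add_mem _ (Submodule.add_mem _ (Submodule.add_mem _ (Submodule.add_mem _
    (Submodule.add_mem _ ?_ ?_) ?_) ?_) ?_) ?_ <;> exact Submodule.smul_mem _ _ (hmem _)

theorem finrank_six {x : Eis} {L : Type} [Field L] [NumberField L] {ι : Eis →+* L} {θ : L}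
    {σ : L ≃ₐ[ℚ] L} (h : CubE x L ι θ σ) : Module.finrank ℚ L = 6 := by
  rw [Module.finrank_eq_card_basis (Module.Basis.mk (bv_indep h) (bv_span h))]
  simp

theorem prim {x : Eis} {L : Type} [Field L] [NumberField L] {ι : Eis →+* L} {θ : L}
    {σ : L ≃ₐ[ℚ] L} (h : CubE x L ι θ σ) : IsPrimitiveRoot (ι w) 3 := by
  have h3 : (ι w) ^ 3 = 1 := by rw [← map_pow, w_cube, map_one]
  have h1 : ι w ≠ 1 := by
    intro he
    rw [← map_one ι] at he
    have := congrArg Eis.im (h.inj he)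
    simp at this
  have := orderOf_eq_prime (p := 3) h3 h1
  rw [← this]
  exact IsPrimitiveRoot.orderOf _

end NRK

/-- NRK: the unit rank. -/
theorem NRK_thm : Stmt_NRK := by
  intro x L _ _ ι θ σ h
  have h6 := NRK.finrank_six h
  have hr : NumberField.InfinitePlace.nrRealPlaces L = 0 :=
    NumberField.InfinitePlace.IsPrimitiveRoot.nrRealPlaces_eq_zero_of_two_lt (by norm_num)
      (NRK.prim h)
  have hc := NumberField.InfinitePlace.card_add_two_mul_card_eq_rank L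
  have ht := NumberField.InfinitePlace.card_eq_nrRealPlaces_add_nrComplexPlaces L
  unfold NumberField.Units.rank
  rw [ht]
  omega

end Pool.Agent.PTK


end

section

/-!
# PTK_NTR: the primes of `L = K(x^(1/3))` above the primes of `Z[w]`
-/

set_option autoImplicit false

open NumberField IsDedekindDomain Finset
open scoped nonZeroDivisors Pointwise

namespace Pool.Agent.PTK

open Pool.Agent.Lib_helper18 Pool.Agent.Lib_helper18.Eis Pool.Agent.Lib_helper84.Cub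
open Pool.Agent.PT

namespace NTR

open Pool.Agent.PT.NTR (uni_prime isIntegral_io io coe_io val_le_one val_lt_iff exists_place lt_iff
  eq_one_of reduce exists_map io_ne_zero abv_finite transitive trace_dvd)

variable {L : Type} [Field L] [NumberField L]

/-- `Z[w]` is integrally closed -/
theorem isUnit_of_int {ι : Eis →+* L} (hinj : Function.Injective ι) {u : Eis} {z : L}
    (hz : IsIntegral ℤ z) (h : ι u * z = 1) : IsUnit u := by
  have hu : u ≠ 0 := by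
    rintro rfl
    rw [map_zero, zero_mul] at h
    exact zero_ne_one h
  let f : FractionRing Eis →+* L := IsFractionRing.lift hinj
  have hf : ∀ a : Eis, f (algebraMap Eis (FractionRing Eis) a) = ι a := fun a =>
    IsFractionRing.lift_algebraMap hinj a
  have huK : algebraMap Eis (FractionRing Eis) u ≠ 0 := by
    rw [Ne, IsFractionRing.to_map_eq_zero_iff]
    exact hu
  have h1 : f ((algebraMap Eis (FractionRing Eis) u)⁻¹) = z := by
    rw [map_inv₀, hf]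
    exact (eq_inv_of_mul_eq_one_right h).symm
  have h3 : IsIntegral Eis ((algebraMap Eis (FractionRing Eis) u)⁻¹) := by
    obtain ⟨q, hq, hq0⟩ := hz
    refine ⟨q.map (Int.castRingHom Eis), hq.map _, ?_⟩
    rw [Polynomial.eval₂_map]
    apply f.injective
    rw [Polynomial.hom_eval₂, h1, map_zero, ← hq0]
    congr 1
    exact RingHom.ext_int _ _
  obtain ⟨y, hy⟩ := IsIntegrallyClosed.isIntegral_iff.mp h3
  have h4 : algebraMap Eis (FractionRing Eis) (u * y) = algebraMap Eis (FractionRing Eis) 1 := by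
    rw [map_mul, hy, map_one, mul_inv_cancel₀ huK]
  have h5 : u * y = 1 := IsFractionRing.injective Eis (FractionRing Eis) h4
  exact IsUnit.of_mul_eq_one y h5

theorem not_isUnit_io {ι : Eis →+* L} (hinj : Function.Injective ι) (v : Pl) :
    ¬ IsUnit (io ι (uni v)) := by
  intro hu
  obtain ⟨z, hz⟩ := hu.exists_right_inv
  have h1 : ι (uni v) * (z : L) = 1 := by
    have := congrArg (algebraMap (𝓞 L) L) hz
    rw [map_mul, map_one] at this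
    exact this
  exact (uni_prime v).not_isUnit (isUnit_of_int hinj z.2 h1)

theorem abv_nonempty {ι : Eis →+* L} (hinj : Function.Injective ι) (v : Pl) :
    (Abv ι v).Nonempty := by
  obtain ⟨M, hM, hmem⟩ := exists_max_ideal_of_mem_nonunits
    (show io ι (uni v) ∈ nonunits (𝓞 L) from not_isUnit_io hinj v)
  have h0 : M ≠ ⊥ := by
    intro h
    rw [h, Ideal.mem_bot] at hmem
    exact io_ne_zero hinj (uni_prime v).ne_zero hmem
  refine ⟨⟨M, hM.isPrime, h0⟩, ?_⟩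
  show HeightOneSpectrum.valuation L _ (ι (uni v)) < 1
  rw [Pool.Agent.PT.NTR.val_lt_iff]
  exact hmem

theorem reduced (hSPP : SPP) {x : Eis} {ι : Eis →+* L} {θ : L} {σ : L ≃ₐ[ℚ] L}
    (hF : CubE x L ι θ σ)
    (hσ3 : ∀ z : L, σ (σ (σ z)) = z)
    (hfix : ∀ z : L, σ z = z → ∃ a b : Eis, b ≠ 0 ∧ z * ι b = ι a)
    {π : PP} {P : HeightOneSpectrum (𝓞 L)} (hx : ¬ π.1 ∣ x)
    (hP : P ∈ Abv ι (some π)) {y u : L} (hy : IsIntegral ℤ y) (hu : IsIntegral ℤ u)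
    (hyu : y ^ 2 = ι π.1 * u) : ∃ t : L, IsIntegral ℤ t ∧ y = ι π.1 * t := by
  have hinj := hF.inj
  have hθi : IsIntegral ℤ θ := by
    refine IsIntegral.of_pow (n := 3) (by norm_num) ?_
    rw [hF.cube]
    exact isIntegral_io ι x
  have hint : ∀ (Q : HeightOneSpectrum (𝓞 L)) (y : L), IsIntegral ℤ y → Q.valuation L y ≤ 1 :=
    fun Q y hy => Q.valuation_le_one (⟨y, hy⟩ : 𝓞 L)
  have hσi : ∀ z : L, IsIntegral ℤ z → IsIntegral ℤ (σ z) := fun z hz => map_isIntegral_int σ hz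
  have hPlt : P.valuation L (ι π.1) < 1 := hP
  -- small valuations of all conjugates
  have key : ∀ z t : L, IsIntegral ℤ t → z ^ 2 = ι π.1 * t → P.valuation L z < 1 := by
    intro z t ht hzt
    have h1 : P.valuation L z ^ 2 < 1 := by
      rw [← map_pow, hzt, map_mul]
      exact mul_lt_one_of_lt_of_le hPlt (hint P t ht)
    by_contra hcon
    push Not at hcon
    exact absurd (one_le_pow₀ hcon (n := 2)) (not_le.mpr h1)
  have hy1 : σ y ^ 2 = ι π.1 * σ u := by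
    rw [← map_pow, hyu, map_mul, hF.sι]
  have hy2 : σ (σ y) ^ 2 = ι π.1 * σ (σ u) := by
    rw [← map_pow, hy1, map_mul, hF.sι]
  have k0 := key y u hu hyu
  have k1 := key (σ y) (σ u) (hσi _ hu) hy1
  have k2 := key (σ (σ y)) (σ (σ u)) (hσi _ (hσi _ hu)) hy2
  have htr : ∀ t : L, IsIntegral ℤ t → ∃ s : L, IsIntegral ℤ s ∧
      y * t + σ (y * t) + σ (σ (y * t)) = ι π.1 * s := by
    intro t ht
    refine trace_dvd hSPP hinj hσ3 hfix hP (hy.mul ht) ?_ ?_ ?_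
    · rw [map_mul]
      exact mul_lt_one_of_lt_of_le k0 (hint P t ht)
    · rw [map_mul, map_mul]
      exact mul_lt_one_of_lt_of_le k1 (hint P _ (hσi _ ht))
    · rw [map_mul, map_mul, map_mul]
      exact mul_lt_one_of_lt_of_le k2 (hint P _ (hσi _ (hσi _ ht)))
  obtain ⟨s0, hs0, e0⟩ := htr 1 isIntegral_one
  obtain ⟨s1, hs1, e1⟩ := htr θ hθi
  obtain ⟨s2, hs2, e2⟩ := htr (θ ^ 2) (hθi.pow 2)
  have hw : ι w ^ 2 + ι w + 1 = 0 := by
    rw [← map_pow, ← map_one ι, ← map_add, ← map_add, w_rel, map_zero]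
  have hw3 : ι w ^ 3 = 1 := by rw [← map_pow, w_cube, map_one]
  have hcube := hF.cube
  have hmain : 3 * ι x * y = ι π.1 * (ι x * s0 + θ * s2 + θ ^ 2 * s1) := by
    have h1 : 3 * ι x * y = ι x * (y * 1 + σ (y * 1) + σ (σ (y * 1))) +
        θ * (y * θ ^ 2 + σ (y * θ ^ 2) + σ (σ (y * θ ^ 2))) +
        θ ^ 2 * (y * θ + σ (y * θ) + σ (σ (y * θ))) := by
      simp only [map_mul, map_pow, hF.sθ, hF.sι, mul_one]
      rw [← hcube]
      have hw4 : ι w ^ 4 = ι w := by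
        calc ι w ^ 4 = ι w ^ 3 * ι w := by ring
          _ = ι w := by rw [hw3, one_mul]
      have e1' : θ ^ 3 * (σ y * (ι w ^ 2 + ι w + 1)) = 0 := by rw [hw]; ring
      have e2' : θ ^ 3 * (σ (σ y) * (ι w ^ 4 + ι w ^ 2 + 1)) = 0 := by
        rw [hw4]
        have : ι w + ι w ^ 2 + 1 = 0 := by rw [← hw]; ring
        rw [this]; ring
      linear_combination (-1 : L) * e1' - e2'
    rw [h1, e0, e1, e2]
    ring
  have h3 : ¬ π.1 ∣ (3 * x : Eis) := by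
    intro h
    rcases π.2.1.dvd_or_dvd h with h | h
    · exact (hSPP.2.2.2.1 π).1 h
    · exact hx h
  obtain ⟨m, n, hmn⟩ := (π.2.1.coprime_iff_not_dvd.mpr h3 : IsCoprime π.1 (3 * x : Eis))
  have hxi : IsIntegral ℤ (ι x) := isIntegral_io ι x
  refine ⟨ι m * y + ι n * (ι x * s0 + θ * s2 + θ ^ 2 * s1), ?_, ?_⟩
  · exact ((isIntegral_io ι m).mul hy).add ((isIntegral_io ι n).mul
      (((hxi.mul hs0).add (hθi.mul hs2)).add ((hθi.pow 2).mul hs1)))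
  · have h5 : y = y * ι (m * π.1 + n * (3 * x : Eis)) := by rw [hmn, map_one, mul_one]
    have h6 : ι (m * π.1 + n * (3 * x : Eis)) = ι m * ι π.1 + ι n * (3 * ι x) := by
      simp only [map_add, map_mul, map_ofNat]
    rw [h6] at h5
    calc y = y * (ι m * ι π.1 + ι n * (3 * ι x)) := h5
      _ = ι m * ι π.1 * y + ι n * (3 * ι x * y) := by ring
      _ = _ := by rw [hmain]; ring

theorem unram (hSPP : SPP) {x : Eis} {ι : Eis →+* L} {θ : L} {σ : L ≃ₐ[ℚ] L}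
    (hF : CubE x L ι θ σ)
    (hσ3 : ∀ z : L, σ (σ (σ z)) = z)
    (hfix : ∀ z : L, σ z = z → ∃ a b : Eis, b ≠ 0 ∧ z * ι b = ι a)
    (π : PP) (P : HeightOneSpectrum (𝓞 L)) (hx : ¬ π.1 ∣ x)
    (hP : P ∈ Abv ι (some π)) : P.valuation L (ι π.1) = WithZero.exp (-1 : ℤ) := by
  have hinj := hF.inj
  have hp0 : io ι π.1 ≠ 0 := io_ne_zero hinj π.2.1.ne_zero
  set p := io ι π.1 with hp
  have hnot : p ∉ P.asIdeal ^ 2 := by
    intro hmem
    have hdvd : P.asIdeal ^ 2 ∣ Ideal.span {p} := Ideal.dvd_span_singleton.mpr hmem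
    obtain ⟨J', hJ'⟩ := hdvd
    set J : Ideal (𝓞 L) := P.asIdeal * J' with hJ
    have hpJ : Ideal.span {p} = P.asIdeal * J := by rw [hJ', hJ, pow_two, mul_assoc]
    have hJ2 : J * J ≤ Ideal.span {p} := by
      have h1 : J * J = Ideal.span {p} * J' := by
        rw [hJ', hJ]; ring
      rw [h1]
      exact Ideal.mul_le_left
    have hpne : Ideal.span {p} ≠ (0 : Ideal (𝓞 L)) := fun h => hp0 (Ideal.span_singleton_eq_bot.mp h)
    have hJ0 : J ≠ 0 := by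
      intro h
      rw [h, mul_zero] at hpJ
      exact hpne hpJ
    have hnle : ¬ J ≤ Ideal.span {p} := by
      intro hle
      have h1 : J = P.asIdeal * J := le_antisymm (by rw [← hpJ]; exact hle) Ideal.mul_le_right
      have h2 : (1 : Ideal (𝓞 L)) * J = P.asIdeal * J := by rw [one_mul]; exact h1
      have h3 : (1 : Ideal (𝓞 L)) = P.asIdeal := mul_right_cancel₀ hJ0 h2
      exact P.isPrime.ne_top (by rw [← h3, Ideal.one_eq_top])
    obtain ⟨y, hyJ, hyp⟩ := Set.not_subset.mp hnle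
    have hy2 : y * y ∈ Ideal.span {p} := hJ2 (Ideal.mul_mem_mul hyJ hyJ)
    obtain ⟨u, hu⟩ := Ideal.mem_span_singleton.mp hy2
    have hu' : (y : L) ^ 2 = ι π.1 * (u : L) := by
      have := congrArg (algebraMap (𝓞 L) L) hu
      rw [map_mul, map_mul, ← pow_two] at this
      exact this
    obtain ⟨t, ht, hyt⟩ := reduced hSPP hF hσ3 hfix hx hP y.2 u.2 hu'
    apply hyp
    show y ∈ Ideal.span {p}
    rw [Ideal.mem_span_singleton]
    set t' : 𝓞 L := ⟨t, ht⟩ with ht'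
    exact ⟨t', RingOfIntegers.ext (hyt.trans (map_mul (algebraMap (𝓞 L) L) p t').symm)⟩
  have hval : P.valuation L (ι π.1) = P.intValuation p := P.valuation_of_algebraMap p
  rw [hval, P.intValuation_eq_exp_neg_multiplicity hp0]
  have hlt : P.intValuation p < 1 := by rw [← hval]; exact hP
  set k := multiplicity P.asIdeal (Ideal.span {p}) with hk
  have hk' := P.intValuation_eq_exp_neg_multiplicity hp0
  rw [← hk] at hk'
  have hk1 : 1 ≤ k := by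
    by_contra h
    have h0 : k = 0 := by omega
    rw [h0] at hk'
    rw [hk'] at hlt
    simp at hlt
  have hk2 : k < 2 := by
    by_contra h
    push Not at h
    apply hnot
    rw [← P.intValuation_le_pow_iff_mem, hk', WithZero.exp_le_exp]
    push_cast
    omega
  have hk3 : k = 1 := by omega
  rw [hk3]
  norm_num

end NTR

theorem NTR_thm (hSPP : SPP) (hNHN : Stmt_NHN) : Stmt_NTR := by
  intro x L _ _ ι θ σ hx0 hx3 hF
  obtain ⟨hσ3, hfix, -⟩ := hNHN x L ι θ σ hx0 hF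
  exact ⟨fun P a => Pool.Agent.PT.NTR.val_le_one ι P a,
    fun P => Pool.Agent.PT.NTR.exists_place hSPP ι P,
    fun P => Pool.Agent.PT.NTR.exists_map σ P,
    fun v => ⟨Pool.Agent.PT.NTR.abv_finite hF.inj v, NTR.abv_nonempty hF.inj v⟩,
    fun v P P' hP hP' => Pool.Agent.PT.NTR.transitive hSPP hF.inj hσ3 hfix v P P' hP hP',
    fun π P hπ hP => NTR.unram hSPP hF hσ3 hfix π P hπ hP⟩

end Pool.Agent.PTK


end

section

/-!
# PTK_SVF: the sum of the local terms of a point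
-/

set_option autoImplicit false

namespace Pool.Agent.PTK

open Pool.Agent.Lib_helper18 Pool.Agent.Lib_helper18.Eis Pool.Agent.Lib_helper84.Cub
open Pool.Agent.PT

namespace SVF

/-- Finite support and sum zero. -/
def FZ (f : Pl → ZMod 3) : Prop := (Function.support f).Finite ∧ ∑ᶠ v : Pl, f v = 0

lemma FZ.add {f g : Pl → ZMod 3} (hf : FZ f) (hg : FZ g) : FZ (fun v => f v + g v) := by
  refine ⟨(hf.1.union hg.1).subset (Function.support_add f g), ?_⟩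
  rw [finsum_add_distrib hf.1 hg.1, hf.2, hg.2, add_zero]

lemma FZ.sub {f g : Pl → ZMod 3} (hf : FZ f) (hg : FZ g) : FZ (fun v => f v - g v) := by
  refine ⟨(hf.1.union hg.1).subset (Function.support_sub f g), ?_⟩
  rw [finsum_sub_distrib hf.1 hg.1, hf.2, hg.2, sub_zero]

lemma N''_ne {b x p q p' q' : Eis} (h : SolE b x p q p' q') : x * q' ^ 3 - q ^ 3 ≠ 0 := by
  intro h1
  apply h.n2
  have h2 := h.eq
  have h3 : p ^ 3 - x * p' ^ 3 = b * (x * q' ^ 3 - q ^ 3) := by linear_combination h2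
  rw [h3, h1, mul_zero]

end SVF

open _root_.Pool.Agent.PTK.SVF in
/-- PTK_SVF. -/
theorem SVF_thm (hSSL : SSL) : Stmt_SVF := by
  have key : ∀ a b : Eis, a ≠ 0 → b ≠ 0 → FZ (fun v : Pl => sy v a b) :=
    fun a b ha hb => hSSL.2.2.2 a b ha hb
  intro b x p q p' q' X Y _ _ hs _ _ hn hD
  have hN2 := N''_ne hs
  exact (((((key _ _ hD.d1 hs.n2).sub (key _ _ hD.d2 hs.n2)).sub (key _ _ hD.d1 hn)).add
    (key _ _ hD.d2 hn)).sub ((((key _ _ hD.d3 hN2).sub (key _ _ hD.d4 hN2)).sub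
    (key _ _ hD.d3 hn)).add (key _ _ hD.d4 hn)))

end Pool.Agent.PTK


end
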