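import Mathlib
import Pool.Agent.PTDM.C21
import Pool.Agent.PTDM.C27
import Pool.Agent.PTDM.C39
import Pool.Agent.PTDM.C42
import Pool.Agent.PTDM.C44
import Pool.Agent.PTKW.C01

/-! Parts: PTKX.StC, PTKX.StJ, PTKX.StK, PTKX.StM, PTKX.StW, PTKX.StX, PTKX.StZ, PTKX.StV, PTKX.StZ2, PTKX.SYK, PTKX.MTZ -/

section

/-!
# The average rank of prime twists: the classes

`B = BB h n E q = 3^h n q^E`, `n` in normal form, `q = 2 (mod 3)` a large prime, `q^E` in the class `(w0, c)`.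
The classes of the rational points of `X³ + Y³ = B` in the minus part are `zN π e y`, `y ∈ VS h n π p e r w0 c`
(`PTN/StA.lean`: read the definitions of `Nm`, `VS`, `actR`, `SelM`, `InCT`; `PTN/NPSI.lean`).
-/

set_option autoImplicit false

open NumberField IsDedekindDomain Finset
open scoped nonZeroDivisors Pointwise

namespace Pool.Agent.PTK

open Pool.Agent.Lib_helper18 Pool.Agent.Lib_helper18.Eis Pool.Agent.Lib_helper84.Cub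
open Pool.Agent.PT Pool.Agent.PTE Pool.Agent.PT3 Pool.Agent.PTL Pool.Agent.PTN

/-- The class of the minus part with the vector `y`. -/
noncomputable def zN {m : ℕ} (π : Fin m → PP) (e : Fin m → ℕ) (y : Fin (m + 1) → ZMod 3) : Eis :=
  w ^ (- y 0).val * ∏ i, ((π i).1 ^ ((e i : ZMod 3) * y i.succ).val *
    conj (π i).1 ^ (2 * ((e i : ZMod 3) * y i.succ)).val)

/-- The classes of `VS` that are local cubes at `λ` (see `ZL`). -/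
def V0 (h n : ℕ) {m k : ℕ} (π : Fin m → PP) (p e : Fin m → ℕ) (r : Fin k → ℕ)
    (w0 : ZMod 3) (c : Fin m → ZMod 3) : Submodule (ZMod 3) (Fin (m + 1) → ZMod 3) where
  carrier := {y | y ∈ VS h n π p e r w0 c ∧ y 0 = 0 ∧
    ∑ i : Fin m, y i.succ * ((e i : ZMod 3) * sym (π i).1 3) = 0}
  add_mem' := by
    rintro u v ⟨h1, h2, h3⟩ ⟨g1, g2, g3⟩
    refine ⟨add_mem h1 g1, by rw [Pi.add_apply, h2, g2, add_zero], ?_⟩
    simp only [Pi.add_apply, add_mul, Finset.sum_add_distrib]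
    rw [h3, g3, add_zero]
  zero_mem' := ⟨zero_mem _, rfl, by simp⟩
  smul_mem' := by
    rintro t u ⟨h1, h2, h3⟩
    refine ⟨Submodule.smul_mem _ t h1, by rw [Pi.smul_apply, h2, smul_zero], ?_⟩
    simp only [Pi.smul_apply, smul_eq_mul, mul_assoc]
    rw [← Finset.mul_sum, h3, mul_zero]

/-- the dimension of `V0` -/
noncomputable def v0N (h n : ℕ) {m k : ℕ} (π : Fin m → PP) (p e : Fin m → ℕ) (r : Fin k → ℕ)
    (w0 : ZMod 3) (c : Fin m → ZMod 3) : ℕ := Module.finrank (ZMod 3) (V0 h n π p e r w0 c)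

open Classical in
/-- the bound for the codimension of `V0` in `VS` -/
noncomputable def dN (h n : ℕ) (w0 : ZMod 3) : ℕ :=
  if h = 1 then 0 else if h = 0 ∧ wt ((n : ℤ) ^ 2) + w0 = 0 then 2 else 1

/-- PTK_VDIM: the codimension of `V0`.
Proof. `V0` is the kernel of a linear map on `VS` with image of dimension at most `dN`
(`LinearMap.finrank_range_add_finrank_ker`). `h = 1`: on `VS`, `y 0 = 0` (`actR` is false: `h = 2` or `h = 0`), and the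
condition of the column `inl 0` (active, `h ≠ 0`) is `y 0 (..) + ∑ y i.succ (e i sym (π i) 3) = 0`; so
`V0 = VS`. `h = 2`: by this column the second condition follows from `y 0 = 0`. `h = 0` and
`wt (n²) + w0 ≠ 0`: `actR` is false, so `y 0 = 0` on `VS`. -/
def Stmt_VDIM : Prop := ∀ (h n m k : ℕ) (π : Fin m → PP) (p e : Fin m → ℕ) (r : Fin k → ℕ)
  (w0 : ZMod 3) (c : Fin m → ZMod 3), h ≤ 2 →
  vN h n π p e r w0 c ≤ v0N h n π p e r w0 c + dN h n w0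

/-! ### The elements `zN` -/

/-- PTK_ZA: general properties of `zN`.
Proof. `π i` and `conj (π i)` are primes, not associated to each other nor to another `π j`,
`conj (π j)`, nor to `λ` (`NF`; see `HYPT.dat`, `not_assoc`, `assoc_iff` used in PTN/NPSI.lean).
`z conj z = ∏ (π conj π)^(a + b)`, `a = g.val`, `b = (2 g).val`, `3 ∣ a + b`, and `w conj w = 1`. `V (π i) z = g i`, `V (conj (π i)) z =
(2 g i).val`. `yv`: `e i (e i y i.succ) = y i.succ` (`e i = 1, 2`); `- sl z 4 = y 0`: `sl` is additive in the first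
variable, `sl (π i) 4 = 0`, `sl (conj (π i)) 4 = 0` (`SREC`, first part: `π i` and `4` are primary),
`sl w 4 = - lw 4 = 1` (`LCL`, `HYPT.lw_four`). Additivity: both sides have exponents that are congruent modulo
`3`. Cube: if `zN y` is a cube then `yv = 0`, so `y = 0`. -/
def Stmt_ZA : Prop := ∀ (n m k : ℕ) (π : Fin m → PP) (p e : Fin m → ℕ) (r f : Fin k → ℕ),
  NF n π p e r f → ∀ y : Fin (m + 1) → ZMod 3,
  zN π e y ≠ 0 ∧ ¬ lam ∣ zN π e y ∧ (∃ t : Eis, zN π e y * conj (zN π e y) = t ^ 3) ∧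
  (∀ σ : PP, ¬ σ.1 ∣ (n : Eis) → ¬ σ.1 ∣ zN π e y) ∧ (∀ σ : PP, V σ.1 (zN π e y) ≤ 2) ∧
  (∀ σ : PP, σ.1 ∣ zN π e y → ∃ i, y i.succ ≠ 0 ∧ (σ = π i ∨ σ.1 = conj (π i).1)) ∧
  (∀ i : Fin m, y i.succ ≠ 0 → (π i).1 ∣ zN π e y ∧ conj (π i).1 ∣ zN π e y) ∧
  NPSI.yv π e (zN π e y) = y ∧
  (∀ y' : Fin (m + 1) → ZMod 3, ∃ g g' : Eis, g ≠ 0 ∧ g' ≠ 0 ∧
    zN π e y * zN π e y' * g ^ 3 = zN π e (y + y') * g' ^ 3) ∧
  ((∃ t : Eis, t ^ 3 = zN π e y) → y = 0)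

/-- PTK_ZI: independence.
Proof. `ZA` (additivity, by induction): `∏ zN (Y i) ^ c i` is `zN (∑ c i Y i)` up to cubes; a cube only if
`∑ c i Y i = 0` (last part of `ZA`: if `zN y g³ = t³ g'³`… then `zN y` is a cube: `g³ ∣ (t g')³`, so `g ∣ t g'`). -/
def Stmt_ZI : Prop := ∀ (n m k : ℕ) (π : Fin m → PP) (p e : Fin m → ℕ) (r f : Fin k → ℕ),
  NF n π p e r f → ∀ (s : ℕ) (Y : Fin s → Fin (m + 1) → ZMod 3) (c : Fin s → ℕ),
  (∃ t : Eis, t ^ 3 = ∏ i, zN π e (Y i) ^ c i) → ∑ i, (c i : ZMod 3) • Y i = 0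

/-- PTK_ZL: the classes of `V0` are local cubes at `λ`.
Proof. `z = zN π e y`, `y 0 = 0`: no factor `w`; the `π i`, `conj (π i)` are primary (`Prim`), so `z` is, up to sign,
`a + b w` with `3 ∣ b`, `3 ∤ a`. `sl z 4 = 0` (`ZA`). `sl z 3 = 0`: product formula `SSL` for `(z, 3)`: `tm σ z 3 = - V z sym σ 3`, at
`π i` and `conj (π i)` together `- g sym (π i) 3 - 2 g sym (conj (π i)) 3 = - g sym (π i) 3 + 2 g sym (π i) 3 =
g sym (π i) 3`, `g = e i y i.succ` (`sym (conj π) 3 = - sym π 3`), so `sl z 3 = - ∑ = 0`. By `SREC`: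
`sl z 3 = sl z (-1) + 2 sl z w + 2 sl z λ = 2 wt (N z) + 4 wt (a²)`, and `N z = t t'` is a cube of an integer
(`z conj z = t³`; `N t`…: `N z² = N(t)³`, and `N z` is an integer, so a cube), so `wt (N z) = 0` (`N z = ± 1`
modulo `9`) and `wt (a²) = 0`, `a = ± 1` modulo `9`; `N z = a² - a b + b² = 1 ∓ b` modulo `9` (`b² = 0`), `= ± 1`, and `3 ∣ b`, so
`9 ∣ b`. `9 = w λ⁴`, so `λ⁴ ∣ z ∓ 1`. -/
def Stmt_ZL : Prop := ∀ (n m k : ℕ) (π : Fin m → PP) (p e : Fin m → ℕ) (r f : Fin k → ℕ),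
  NF n π p e r f → ∀ y : Fin (m + 1) → ZMod 3, y 0 = 0 →
  ∑ i : Fin m, y i.succ * ((e i : ZMod 3) * sym (π i).1 3) = 0 → lam ^ 4 ∣ zN π e y ^ 2 - 1

/-- PTK_ZC: the symbols of the classes of `VS` (checked numerically).
Proof. `z = zN π e y`, `g i = e i y i.succ`; `V (π i) z = g i`, `V (conj (π i)) z = 2 g i` (modulo `3`, `ZA`). Product formula (`SSL`;
`NPSI.lean: yv_mem`, which is the converse computation) for `(z, x)`, `x` a rational integer prime to `3` and to all `p i`, or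
`x = p i'`: the terms at `σ` and `conj σ` are equal because `tm (conj σ) z x = - tm σ (conj z) x` (`SCJ`, `conj x = x`) and
`conj z = t³ / z` (`ZA`), so `tm (conj σ) z x = tm σ z x`; hence `2 ∑_i tm (π i) z x + ∑_j tm (r j) z x + sl z x = 0`, where
`sl z x = - lw x sl z 4 = lw x y 0` (`HYPT.sl_int`, `lv x = 0`; `ZA`), `lw x = wt (x²)`.
`x = p i'`: `tm (π i) z x = - g i sym (π i) (p i')` for `i ≠ i'`, `tm (π i') z x = ch (π i') z - g i' sym (π i') (conj (π i'))` (`V (π i') x = 1`,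
`ch (π i') x = sym (π i') (conj (π i'))`), `tm (r j) z x = 0` (`V z = V x = 0`). With `2 = -1`:
`ch (π i') z = g i' sym (π i') (conj (π i')) + ∑_{i ≠ i'} g i sym (π i) (p i') + y 0 wt (p i'²)`.
The condition of the column `inl i'.succ` of `Nm` for `y ∈ VS` is
`y 0 wt (p i'²) + ∑_{i ≠ i'} g i sym (π i) (p i') + y i'.succ (e i' sym (π i') (conj (π i')) - ch (π i') (3^h n) - c i') = 0`,
so `ch (π i') z = y i'.succ (ch (π i') (3^h n) + c i')`. Second part: the same formula for `(z, r j)`: at `ρ = r j` (`V ρ x = 1`,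
`V ρ z = 0`) the term is `ch ρ z`, so `- ∑ (- g i sym (π i) (r j)) + ch ρ z + y 0 wt (r j²) = 0`, and the first and third terms
are the condition of the column `inr j`, `= 0`. -/
def Stmt_ZC : Prop := ∀ (h n m k : ℕ) (π : Fin m → PP) (p e : Fin m → ℕ) (r f : Fin k → ℕ)
  (w0 : ZMod 3) (c : Fin m → ZMod 3), NF n π p e r f → h ≤ 2 →
  ∀ y ∈ VS h n π p e r w0 c,
    (∀ i, ch (π i).1 (zN π e y) = y i.succ * (ch (π i).1 ((3 ^ h * n : ℕ) : Eis) + c i)) ∧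
    ∀ (j : Fin k) (ρ : PP), ρ.1 = (r j : Eis) → ch ρ.1 (zN π e y) = 0

/-- PTK_ZS: the classes of `VS` are in the minus part of the Selmer group of `B = BB h n E q`.
Proof. `z = zN π e y`. `tm σ z B`, `B = 3^h n q^E`: `σ = π i`: `V B = e i` (`HYPT.dat`), `ch B = ch (3^h n) + c i` (`InCT`),
`V z = e i y i.succ` (`ZA`), `ZC`: `tm = e i y (..) - e i y (..) = 0`; `σ = conj (π i)`: `tm (conj σ') z B = tm σ' z B` for
rational `B` (`SCJ`, `conj z = t³ / z`); `σ = r j`: `V z = 0`, `ch z = 0`; `σ ∤ 3 n q`: `V z = V B = 0`; `σ = q`: product formula for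
`(z, B)` (`SSL`): all other terms vanish, if `sl z B = 0`: `sl z B = lv B sl z 3 - lw B sl z 4` (`HYPT.sl_int`; `lv B = h`,
`lw B = wt (n²) + w0`, `HYPT.lvw`), `sl z 4 = - y 0`, and `sl z 3 = - ∑ g i sym (π i) 3` (product formula for `(z, 3)`, see `ZL`; for
`y 0 ≠ 0` too, since `sl w 3 = 0`, `lw 3 = 0`): `h = 0`: `sl z B = (wt (n²) + w0) y 0`, and `y 0 = 0` if `wt (n²) + w0 ≠ 0` (`actR`); `h = 1`:
`y 0 = 0` and the column `inl 0` gives `∑ = 0`; `h = 2`: `2 sl z 3 + (..) y 0 = - 2 ∑ + (..) y 0 = ∑ + (..) y 0 = 0` by the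
column `inl 0`. `SelM.lam`: `lv B = 1` means `h = 1`. -/
def Stmt_ZS : Prop := ∀ (h n m k : ℕ) (π : Fin m → PP) (p e : Fin m → ℕ) (r f : Fin k → ℕ)
  (w0 : ZMod 3) (c : Fin m → ZMod 3) (E q : ℕ), NF n π p e r f → h ≤ 2 →
  (E = 1 ∨ E = 2) → q.Prime → q % 3 = 2 → InCT E π w0 c q → ¬ q ∣ n →
  ∀ y ∈ VS h n π p e r w0 c, SelM (BB h n E q) (zN π e y)

/-- PTK_ZT: the symbols of two classes of `VS`.
Proof. `z = zN π e y`, `z' = zN π e y'`. At `π i`: `V z = e i y i.succ`, `ch z = y i.succ β`, `β` the same for both (`ZC`), so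
`tm z z' = e y' y β - e y y' β = 0`. At `conj (π i)`: `tm (conj σ) (conj z) (conj z') = - tm σ z z'` (`SCJ`), `conj z = t³ / z`. At the
other places `V z = V z' = 0`. Second part: `σ ∣ z'`, `ZA`: `σ = π i` or `conj (π i)` with `y' i.succ ≠ 0`; if `y i.succ ≠ 0` then
`σ ∣ z` (`ZA`); otherwise `V σ z = 0` and `ch σ z = 0` (`ZC`; for `conj (π i)` by conjugation), so `z` is a local cube
(`Stmt_LCI`). -/
def Stmt_ZT : Prop := ∀ (h n m k : ℕ) (π : Fin m → PP) (p e : Fin m → ℕ) (r f : Fin k → ℕ)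
  (w0 : ZMod 3) (c : Fin m → ZMod 3), NF n π p e r f → h ≤ 2 →
  ∀ y ∈ VS h n π p e r w0 c, ∀ y' ∈ VS h n π p e r w0 c,
    (∀ σ : PP, tm σ.1 (zN π e y) (zN π e y') = 0) ∧
    ∀ σ : PP, σ.1 ∣ zN π e y' → ¬ LCE σ.1 (zN π e y) → σ.1 ∣ zN π e y

/-! ### The classes of the points -/

/-- `z` is, up to cubes, the class of a rational point (or of the point at infinity) -/
def Occ (B : ℤ) (z : Eis) : Prop :=
  ∃ ζ g g' : Eis, S1 B ζ ∧ g ≠ 0 ∧ g' ≠ 0 ∧ ζ * g ^ 3 = z * g' ^ 3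

/-- the vectors of the classes of the points -/
def WqS (h n : ℕ) {m k : ℕ} (π : Fin m → PP) (p e : Fin m → ℕ) (r : Fin k → ℕ)
    (w0 : ZMod 3) (c : Fin m → ZMod 3) (B : ℤ) : Set (Fin (m + 1) → ZMod 3) :=
  {y | y ∈ VS h n π p e r w0 c ∧ Occ B (zN π e y)}

/-- PTK_S1G: the classes of the points form a group.
Proof. Take `K`, `ι`, `c` from `KEX` (PTN/StG.lean; everything there is proved: `PTN/Final.lean`), `j` from `KEMB`.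
For every `ζ` with `S1 B ζ` there is `P ∈ GA B` with `kap ι (j P) = ι ζ g³`, `g ≠ 0`: `P = 0` for `ζ = 1`, otherwise
`CubeRank.basics B _`, second part, and `KMI`. By `KAD`, `kap (j (P - P'))` is `ι ζ / ι ζ'` up to a cube (`KID.kap_sub` in
PTN/KID.lean). Conversely, `P - P' = 0` or it has coordinates (`basics`, first part, `B` cube-free), and
`KMI` gives `ζ''`. `K` is the fraction field: an identity `ι a g³ = ι b g'³` with `g, g' ∈ K` nonzero gives one with `g, g'` in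
`Eis` (`KF.frac`). -/
def Stmt_S1G : Prop := ∀ B : ℤ, B ≠ 0 → CubeRank.CubeFree B → (¬ ∃ n : ℤ, n ^ 3 = B) →
  ∀ ζ ζ' : Eis, S1 B ζ → S1 B ζ' →
  ∃ ζ'' g g' : Eis, S1 B ζ'' ∧ g ≠ 0 ∧ g' ≠ 0 ∧ ζ'' * ζ' * g ^ 3 = ζ * g' ^ 3

/-- PTK_WGR: the number of the vectors is a power of `3`; every class of a point has a vector.
Proof. `WqS` is a subgroup of `VS`: `0` (`zN 0 = 1`, `S1 B 1`); for `y, y' ∈ WqS`, `ζ, ζ'`: `ζ''` from `S1G` is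
`zN y / zN y' = zN (y - y')` up to cubes (`ZA`), so `y - y' ∈ WqS`. A subgroup of `(ZMod 3)^(m+1)` is a subspace
(`AddSubgroup.toZModSubmodule`), so its cardinality is a power of `3` (`Module.natCard_eq_pow_finrank`).
Second part: `S1 B ζ` implies `SelM B ζ` (`NKIN`; for `ζ = 1` clear), `y = NPSI.yv π e ζ ∈ VS` (`NPSI.yv_mem`), and `zN π e y` is in
`SelM` (`ZS`) with the same vector (`ZA`), so `NPSI.yv_inj` gives `ζ g³ = zN y g'³`. -/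
def Stmt_WGR : Prop := ∀ (h n m k : ℕ) (π : Fin m → PP) (p e : Fin m → ℕ) (r f : Fin k → ℕ)
  (w0 : ZMod 3) (c : Fin m → ZMod 3) (E q : ℕ), NF n π p e r f → h ≤ 2 →
  (E = 1 ∨ E = 2) → q.Prime → 3 < q → q % 3 = 2 → InCT E π w0 c q → ¬ q ∣ n →
  (∃ d : ℕ, Nat.card (WqS h n π p e r w0 c (BB h n E q)) = 3 ^ d) ∧
  ∀ ζ : Eis, S1 (BB h n E q) ζ → ∃ y ∈ WqS h n π p e r w0 c (BB h n E q),
    ∃ g g' : Eis, g ≠ 0 ∧ g' ≠ 0 ∧ ζ * g ^ 3 = zN π e y * g' ^ 3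

/-- PTK_PT: a class of a point that is not a cube gives a point of this class over `K`.
Proof. `ζ ≠ 1` (otherwise `x` is a cube: `g³ = x g'³`), so `ζ = a₁ a₂²` with `a₀ = x₀ + y₀`, `a₁ = w (x₀ + w y₀)`, `a₂ = w² (x₀ + w² y₀)`
(check: `w · w⁴ = w²` in `w² (x₀ + w y₀) (x₀ + w² y₀)²`), `a₀ + a₁ + a₂ = 0`, `a₀ a₁ a₂ = x₀³ + y₀³ = B z₀³`. With
`(X, Y) = (a₂, 1)`: `X³ + ζ Y³ = a₂² (a₂ + a₁) = - a₀ a₂²`, `ζ (X³ + ζ Y³) = - a₀ a₁ a₂ a₂³ = B (- z₀ a₂)³`. Transport: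
`ζ g³ = x g'³`: `(X', Y') = (g'² g X, g'³ Y)`, `c' = g' c g²`: `x (X'³ + x Y'³) = B c'³` (multiply out:
`x g'⁶ ((g X)³ + x g'³ Y³) = x g'⁶ g³ (X³ + ζ Y³)`, and `x g'³ = ζ g³`). Nonzero: `a₂ ≠ 0`, since
`a₀ a₁ a₂ ≠ 0`. -/
def Stmt_PT : Prop := ∀ (B : ℤ) (x : Eis), B ≠ 0 → x ≠ 0 → (¬ ∃ t : Eis, t ^ 3 = x) → Occ B x →
  ∃ X Y : Eis, PtE (B : Eis) x X Y

/-! ### The number of the primes with a given class -/

/-- PTK_SYK: the system for a vector `y` and independent vectors of `V0`.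
Proof. `x = zN π e y`, `b j = zN π e (u j)`. `HNE` for the base `b j` (`λ⁴ ∣ (b j)² - 1`: `ZL`; not a cube: `ZA`, `u j ≠ 0`) and the
norm `x` (`ZT`): `SolE (b j) x P Q P' Q'`, so `SolE x (b j) P (-P') (-Q) Q'`. `SysK.ind`: `ZI` and the independence. -/
def Stmt_SYK : Prop := ∀ (h n m k : ℕ) (π : Fin m → PP) (p e : Fin m → ℕ) (r f : Fin k → ℕ)
  (w0 : ZMod 3) (c : Fin m → ZMod 3), NF n π p e r f → h ≤ 2 →
  ∀ y ∈ VS h n π p e r w0 c, ∀ (s : ℕ) (u : Fin s → Fin (m + 1) → ZMod 3),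
  (∀ j, u j ∈ V0 h n π p e r w0 c) →
  LinearIndependent (ZMod 3) (Fin.cons y u : Fin (s + 1) → Fin (m + 1) → ZMod 3) →
  ∃ P Q P' Q' : Fin s → Eis, SysK (zN π e y) (fun j => zN π e (u j)) P Q P' Q' ∧
    ∀ j, HypD (3 ^ h * n) (zN π e (u j)) (zN π e y) (P j) (Q j) (P' j) (Q' j)

/-- the primes `q` such that `zN π e y` is the class of a point -/
def QY (h n : ℕ) {m : ℕ} (π : Fin m → PP) (e : Fin m → ℕ) (w0 : ZMod 3) (c : Fin m → ZMod 3)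
    (y : Fin (m + 1) → ZMod 3) (E : ℕ) : Set ℕ :=
  {q : ℕ | q % 3 = 2 ∧ InCT E π w0 c q ∧ Occ (BB h n E q) (zN π e y)}

/-- PTK_CTK: the number of the primes with a given class.
Proof. As `CLN_thm` (PTN/CLN.lean). `SYK`; `DCK` for every `j` with `N = 3^h n` gives `f₀ j`, for `f = 9 (∏ p i) ∏ f₀ j` the numbers
`C j`, the characters `Φ j`, `κ` from `CLSC`. For a large prime `q ∈ QY .. E`: `SelM B z` for the classes
(`ZS`) gives `tm σ z B = 0` and `sym q z = 0` (`V q B = E`, `V q z = 0`); the point over `K` from `PT`; a root `ξ` is arbitrary. So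
`C j + E (Φ j q - TAUE) = 0`: `q ∈ SPK` for `E = 1` (`TAUE = C + Φ`), `q ∈ SMK` for `E = 2` (`TAUE = - C + Φ`; the class of `q` is
`-(w0, c)`). `BDK`. (`(BB h n E q : Eis) = ((3^h n : ℕ) : Eis) (q : Eis)^E`.) -/
def Stmt_CTK : Prop := ∀ (h n m k : ℕ) (π : Fin m → PP) (p e : Fin m → ℕ) (r f : Fin k → ℕ)
  (w0 : ZMod 3) (c : Fin m → ZMod 3), NF n π p e r f → h ≤ 2 →
  ∀ y ∈ VS h n π p e r w0 c, ∀ (s : ℕ) (u : Fin s → Fin (m + 1) → ZMod 3),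
  (∀ j, u j ∈ V0 h n π p e r w0 c) →
  LinearIndependent (ZMod 3) (Fin.cons y u : Fin (s + 1) → Fin (m + 1) → ZMod 3) →
  ∃ K : ℝ, ∀ σ : ℝ, 1 < σ → σ ≤ 2 →
    BDENS.sm (QY h n π e w0 c y 1) σ + BDENS.sm (QY h n π e w0 c y 2) σ ≤
      1 / 3 ^ s / 3 ^ (m + 1) * Real.log (1 / (σ - 1)) + K

/-- PTK_LIN: completion to independent families (pure linear algebra).
Proof. A basis of `V`; for `y ∉ V` it is independent together with `y`; for `0 ≠ y ∈ V` extend `y` to a basis of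
`V` and drop `y`. -/
def Stmt_LIN : Prop := ∀ (M : ℕ) (V : Submodule (ZMod 3) (Fin M → ZMod 3)) (y : Fin M → ZMod 3),
  y ≠ 0 → ∃ (s : ℕ) (u : Fin s → Fin M → ZMod 3), (∀ j, u j ∈ V) ∧
    LinearIndependent (ZMod 3) (Fin.cons y u : Fin (s + 1) → Fin M → ZMod 3) ∧
    (y ∉ V → s = Module.finrank (ZMod 3) V) ∧ (y ∈ V → s + 1 = Module.finrank (ZMod 3) V)

open Classical in
/-- PTK_AVW: the average of the number of the classes.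
Proof. `Nat.card WqS = ∑ y ∈ VS, if Occ .. then 1 else 0`. So the sum is at most the sum over `y ∈ VS` of
`sm (QY .. y 1) σ + sm (QY .. y 2) σ` (`BDENS.sm` as a series, `ind_summable`). `y = 0`: `CLT` (PTN/StD.lean, `a = 2`),
`(1 / 3^(m+1)) log + K`; `y ≠ 0`: `LIN` for `V0` and `CTK`: `3^(-v₀)` for `y ∉ V0`, `3^(1 - v₀)` for `y ∈ V0`. Total:
`1 + (3^v₀ - 1) 3^(1-v₀) + (3^v - 3^v₀) 3^(-v₀) ≤ 1 + 3 + 3^d - 1 = 3 + 3^d` (`VDIM`; for `v₀ = 0` it is `3^v ≤ 3^d`). The bound is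
stated for finite sums as in `DOMG`. -/
def Stmt_AVW : Prop := ∀ (h n m k : ℕ) (π : Fin m → PP) (p e : Fin m → ℕ) (r f : Fin k → ℕ)
  (w0 : ZMod 3) (c : Fin m → ZMod 3), NF n π p e r f → h ≤ 2 →
  ∃ K : ℝ, ∀ σ : ℝ, 1 < σ → σ ≤ 2 → ∀ T : Finset ℕ,
    ∑ E ∈ ({1, 2} : Finset ℕ), ∑ q ∈ T,
      (if q.Prime ∧ q % 3 = 2 ∧ InCT E π w0 c q then
        (Nat.card (WqS h n π p e r w0 c (BB h n E q)) : ℝ) * (q : ℝ) ^ (-σ) else 0) ≤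
      (3 + 3 ^ dN h n w0) / 3 ^ (m + 1) * Real.log (1 / (σ - 1)) + K

/-! ### The bound for the rank -/

/-- PTK_NBW: the bound for the rank by the classes of the points and the corank of the matrix.
Proof. As `NBKN_thm` (PTN/NBKN.lean) with `W₁ = WqS .. B` (finite) in `KID`: `Ψ₁ ζ` is a vector `y ∈ WqS` with `ζ g³ = zN y g'³` for
`S1 B ζ` (`WGR`, second part); if `Ψ₁ ζ = Ψ₁ ζ'` then `ζ` and `ζ'` differ by a cube. `Nat.card WqS = 3^d`, `d = Nat.log 3 ..`. -/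
def Stmt_NBW : Prop := ∀ (h n m k : ℕ) (π : Fin m → PP) (p e : Fin m → ℕ) (r f : Fin k → ℕ)
  (w0 : ZMod 3) (c : Fin m → ZMod 3) (s : ℕ) (τ : Fin s → Fin 3) (b X Y : Fin s → ℤ)
  (P Q P' Q' : Fin s → Fin s → ℤ) (E q : ℕ), NF n π p e r f → h ≤ 2 →
  (∀ i, AdN h n π w0 c (b i)) → SysG b P Q P' Q' → SwS P Q P' Q' →
  (∀ B : ℤ, TyB h n w0 B → LamS B τ b X Y) →
  (∀ x : ℤ, AdN h n π w0 c x → ∃ (g : Fin s → ℕ) (u v : ℤ), u ≠ 0 ∧ v ≠ 0 ∧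
    x * u ^ 3 = (∏ i, b i ^ g i) * v ^ 3) →
  (E = 1 ∨ E = 2) → q.Prime → 3 < q → q % 3 = 2 → InCT E π w0 c q → ¬ q ∣ n →
  CubeRank.GenBy (BB h n E q) (Nat.log 3 (Nat.card (WqS h n π p e r w0 c (BB h n E q))) +
    (s - (MaT b X Y P Q P' Q' (BB h n E q)).rank))

/-- PTK_CRK: the corank as a function of `B`, and its distribution.
Proof. As `CLN_thm` (PTN/CLN.lean, read it): `κ₀ B = s - rank (MaT b X Y P Q P' Q' B)`; the first part is `NBW` in place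
of `NBKN`; for the tails the same inclusion in `SP`, `SM` and `BDG` (without the shift by `vN`). -/
def Stmt_CRK : Prop := ∀ (h n m k : ℕ) (π : Fin m → PP) (p e : Fin m → ℕ) (r f : Fin k → ℕ)
  (w0 : ZMod 3) (c : Fin m → ZMod 3), NF n π p e r f → h ≤ 2 →
  ∃ κ₀ : ℤ → ℕ, (∀ B, κ₀ B ≤ sN h n π p e r w0 c) ∧
  (∃ M : ℕ, ∀ E q : ℕ, (E = 1 ∨ E = 2) → q.Prime → M < q → q % 3 = 2 → InCT E π w0 c q →
    CubeRank.GenBy (BB h n E q) (Nat.log 3 (Nat.card (WqS h n π p e r w0 c (BB h n E q))) +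
      κ₀ (BB h n E q)) ∧
    ∃ d : ℕ, Nat.card (WqS h n π p e r w0 c (BB h n E q)) = 3 ^ d) ∧
  ∀ t : ℕ, ∃ K : ℝ, ∀ σ : ℝ, 1 < σ → σ ≤ 2 →
    BDENS.sm {q | q % 3 = 2 ∧ InCT 1 π w0 c q ∧ t ≤ κ₀ (BB h n 1 q)} σ +
      BDENS.sm {q | q % 3 = 2 ∧ InCT 2 π w0 c q ∧ t ≤ κ₀ (BB h n 2 q)} σ ≤
      LI (sN h n π p e r w0 c) t / 3 ^ (m + 1) * Real.log (1 / (σ - 1)) + K

open Classical in
/-- PTK_AVC: the average of `3` to the corank.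
Proof. `CRK`, `DOMG` (`P t = LI s t / 3^(m+1)`, `F = 3 ^ ·`, `N = sN`), `LAW` (first part with `v = 0`, and the seventh:
`Esk s (3^(0 + c)) ≤ 4 · 3^0`). -/
def Stmt_AVC : Prop := ∀ (h n m k : ℕ) (π : Fin m → PP) (p e : Fin m → ℕ) (r f : Fin k → ℕ)
  (w0 : ZMod 3) (c : Fin m → ZMod 3), NF n π p e r f → h ≤ 2 →
  ∃ κ₀ : ℤ → ℕ,
  (∃ M : ℕ, ∀ E q : ℕ, (E = 1 ∨ E = 2) → q.Prime → M < q → q % 3 = 2 → InCT E π w0 c q →
    CubeRank.GenBy (BB h n E q) (Nat.log 3 (Nat.card (WqS h n π p e r w0 c (BB h n E q))) +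
      κ₀ (BB h n E q)) ∧
    ∃ d : ℕ, Nat.card (WqS h n π p e r w0 c (BB h n E q)) = 3 ^ d) ∧
  ∃ K : ℝ, ∀ σ : ℝ, 1 < σ → σ ≤ 2 → ∀ T : Finset ℕ,
    ∑ E ∈ ({1, 2} : Finset ℕ), ∑ q ∈ T,
      (if q.Prime ∧ q % 3 = 2 ∧ InCT E π w0 c q then
        (3 : ℝ) ^ κ₀ (BB h n E q) * (q : ℝ) ^ (-σ) else 0) ≤
      4 / 3 ^ (m + 1) * Real.log (1 / (σ - 1)) + K

/-! ### The averages of the rank -/

/-- the bound for the average of the rank in a class: `7/3`, `8/3`, `10/3` for `d = 0, 1, 2` -/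
noncomputable def aD' (d : ℕ) : ℝ := if d = 0 then 7 / 3 else if d = 1 then 8 / 3 else 10 / 3

/-- the bound for the average of `3^(r/2)` in a class -/
noncomputable def bD' (d : ℕ) : ℝ := if d = 0 then 4 else if d = 1 then 49 / 10 else 104 / 15

/-- PTK_AVR: the average of the rank in a class.
Proof. `AVW`, `AVC`, `CLT` (`a = 2`, total number). For large `q` let `w = Nat.log 3 (Nat.card WqS)` (so
`Nat.card WqS = 3^w`) and `κ = κ₀ B`: `rr B ≤ w + κ` (`CubeRank.rr_le`). For natural numbers `w`: `w ≤ 1/2 + 3^w / 6` and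
`w ≤ 3/2 + 3^w / 18`; `κ ≤ 1/2 + 3^κ / 6`. So the average of `rr B` is at most
`1/2 + (3 + 3^d)/6 + 1/2 + 4/6` (`d = 0`: `7/3`, `d = 1`: `8/3`) and `3/2 + 12/18 + 7/6 = 10/3` (`d = 2`). Second part:
`√3 ^ (w + κ) = √(3^w) √(3^κ) ≤ (t 3^w + 3^κ / t) / 2` with `t = 1`, `4/5`, `3/5`:
`(4 + 4)/2 = 4`, `(24/5 + 5)/2 = 49/10`, `(36/5 + 20/3)/2 = 104/15`. The finitely many small `q` contribute a
constant. `Kl π w0 c (q^E)` and `InCT E π w0 c q` are equivalent for `q` prime to `3 n` (see `CAB`, PTN/CAB.lean, for both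
points). `(3 ^ h * n : ℕ) * q^E = BB h n E q`. -/
def Stmt_AVR : Prop := ∀ (h n m k : ℕ) (π : Fin m → PP) (p e : Fin m → ℕ) (r f : Fin k → ℕ)
  (w0 : ZMod 3) (c : Fin m → ZMod 3), NF n π p e r f → h ≤ 2 →
  AboveA ((3 ^ h * n : ℕ) : ℤ) 2 (Kl π w0 c) (fun A => (CubeRank.rr A : ℝ))
    (aD' (dN h n w0) / 3 ^ (m + 1)) ∧
  AboveA ((3 ^ h * n : ℕ) : ℤ) 2 (Kl π w0 c) (fun A => √3 ^ CubeRank.rr A)
    (bD' (dN h n w0) / 3 ^ (m + 1))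

/-- PTK_AVA: the averages over all `A`.
Proof. `SUMA` (PTN/StF.lean), `AVR`: `∑_{(w0, c)} aD' (dN) / 3^(m+1)`. `h = 1`: `7/3`; `h = 2`: `8/3`; `h = 0`: one of the three `w0` has
`dN = 2`, the others `dN = 1`: `(2 · 8/3 + 10/3) / 3 = 26/9`. All are `≤ 26/9`. Second: `(2 · 49/10 + 104/15)/3 = 251/45 ≤ 28/5`. -/
def Stmt_AVA : Prop := ∀ (h n m k : ℕ) (π : Fin m → PP) (p e : Fin m → ℕ) (r f : Fin k → ℕ),
  NF n π p e r f → h ≤ 2 →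
  AboveA ((3 ^ h * n : ℕ) : ℤ) 2 (fun _ => True) (fun A => (CubeRank.rr A : ℝ)) (26 / 9) ∧
  AboveA ((3 ^ h * n : ℕ) : ℤ) 2 (fun _ => True) (fun A => √3 ^ CubeRank.rr A) (28 / 5)

/-- PTK_MAI: the theorem.
Proof. `NFE`, `AVA`, `AVR`, `TRU`: see `PTN/MAINN.lean` (for the classes of units `u` modulo `9 N`: `w0 = wt (U²)`,
`c i = sym (π i) U`, `U = u.val`; for large `q`, `q^e = u x³ (mod 9 N)` implies `Kl π w0 c (q^e)`), `aD' ≤ 10/3`,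
`bD' ≤ 104/15`, generation by `rr` points: `PTN.Final` (first part of `CLN`), `CLT` for the last part (the total
weight of the `A` in a class, both bounds; for a unit `u` the primes powers with `Kl` are those with
`q^e = u x³`: the classes `(w0, c)` of the units are the cosets of the cubes: this is not needed, only the upper
bound is stated). -/
def Stmt_MAI : Prop := ∀ N : ℕ, 0 < N → (∀ p : ℕ, p.Prime → ¬ p ^ 3 ∣ N) →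
  ∀ m : ℕ, m = (N.primeFactors.filter (fun p => p % 3 = 1)).card →
  AboveA N 2 (fun _ => True) (fun A => (CubeRank.rr A : ℝ)) (26 / 9) ∧
  AboveA N 2 (fun _ => True) (fun A => √3 ^ CubeRank.rr A) (28 / 5) ∧
  ∀ u : (ZMod (9 * N))ˣ,
    AboveA N 2 (fun y => ∃ x : ℤ, ((9 * N : ℕ) : ℤ) ∣ y - ((u : ZMod (9 * N)).val : ℤ) * x ^ 3)
      (fun A => (CubeRank.rr A : ℝ)) (10 / 3 / 3 ^ (m + 1)) ∧
    AboveA N 2 (fun y => ∃ x : ℤ, ((9 * N : ℕ) : ℤ) ∣ y - ((u : ZMod (9 * N)).val : ℤ) * x ^ 3)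
      (fun A => √3 ^ CubeRank.rr A) (104 / 15 / 3 ^ (m + 1))

end Pool.Agent.PTK


end

section

/-!
# The average of `3^r` for prime twists: the joint governing field

Stage 2 of the project PTK. `b : Fin s → ℤ`, `p q p' q'` is a system for the plus part (rational classes, `SysG`),
`x, u : Eis`, `P Q P' Q'` a system for the minus part (`SysK`). Everything of `StL`, `StN`, `StG`, `StC` (stage 1) and of
`PT`, `PTE`, `PT3`, `PTL`, `PTN` may be imported or taken as a hypothesis.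
-/

set_option autoImplicit false

open NumberField IsDedekindDomain Finset
open scoped nonZeroDivisors Pointwise

namespace Pool.Agent.PTK

open Pool.Agent.Lib_helper18 Pool.Agent.Lib_helper18.Eis Pool.Agent.Lib_helper84.Cub
open Pool.Agent.PT Pool.Agent.PTE Pool.Agent.PT3 Pool.Agent.PTL Pool.Agent.PTN

/-! ### The field -/

/-- The joint governing field. -/
structure GovJ {s k : ℕ} (b : Fin s → ℤ) (p q p' q' : Fin s → Fin s → ℤ)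
    (x : Eis) (u P Q P' Q' : Fin k → Eis) (f : ℕ)
    (L : Type) [Field L] [NumberField L] (ζ : L) (ι : Eis →+* L) : Prop where
  plus : GovF b p q p' q' f L ζ (ι w)
  minus : GovK x u P Q P' Q' f L ζ ι

/-- `A` belongs to the pair `(j, i)` of the plus part -/
def PrP {s : ℕ} (b : Fin s → ℤ) (p q p' q' : Fin s → Fin s → ℤ) {L : Type} [Field L]
    (ι : Eis →+* L) (j i : Fin s) (ρ A : L) : Prop :=
  ρ ^ 3 = (b j : L) ∧
    A ^ 3 * aD (ι w) (p j i) (q j i) (p' j i) (q' j i) ρ =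
      aN (ι w) (p j i) (q j i) (p' j i) (q' j i) ρ

/-- `A` belongs to the class `u j` of the minus part -/
def PrM {k : ℕ} (x : Eis) (P Q P' Q' : Fin k → Eis) {L : Type} [Field L]
    (ι : Eis →+* L) (j : Fin k) (ρ A : L) : Prop :=
  ρ ^ 3 = ι x ∧ A ^ 3 * aDE ι (P j) (Q j) (P' j) (Q' j) ρ = aNE ι (P j) (Q j) (P' j) (Q' j) ρ

/-- `z` fixes `ζ` and the cube roots of all classes -/
structure FxA {s k : ℕ} (b : Fin s → ℤ) (x : Eis) (u : Fin k → Eis) {L : Type} [Field L]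
    [NumberField L] (ζ : L) (ι : Eis →+* L) (z : L ≃ₐ[ℚ] L) : Prop where
  ze : z ζ = ζ
  rx : ∀ ρ : L, ρ ^ 3 = ι x → z ρ = ρ
  ru : ∀ (j : Fin k) (ρ : L), ρ ^ 3 = ι (u j) → z ρ = ρ
  rb : ∀ (i : Fin s) (ρ : L), ρ ^ 3 = (b i : L) → z ρ = ρ

/-- PTK_JZ: existence of the joint governing field.
Proof. As `GZERO_thm` (PT/GZERO.lean), `GZEROG_thm` (PTE) and `GZK_thm` (PTK/GZK.lean) with one field: `GZERO.exists_field` for
the union of the finite sets: `ζ`, the roots of all `T³ = b j`, `T³ = x`, `T³ = u j`, and chosen cube roots of all the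
`α`. `ι` is `GFR.lift (ζ ^ (f / 3)) rel`, `ι w = ζ ^ (f / 3)`. -/
def Stmt_JZ : Prop := ∀ (s k : ℕ) (b : Fin s → ℤ) (p q p' q' : Fin s → Fin s → ℤ)
  (x : Eis) (u P Q P' Q' : Fin k → Eis) (f : ℕ), SysG b p q p' q' → SysK x u P Q P' Q' →
  0 < f → 9 ∣ f →
  ∃ (L : Type) (_ : Field L) (_ : NumberField L) (ζ : L) (ι : Eis →+* L),
    GovJ b p q p' q' x u P Q P' Q' f L ζ ι

/-- PTK_JKU: Kummer theory over `K = Q(w)` for all classes together.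
Proof. As `GKK_thm` (PTK/GKK.lean), for the family `x, u j, b i`. Independence: let `x^c₀ ∏ u_j^(c j) ∏ b_i^(d i) = t³` in `Eis`. Put
`Z = x^c₀ ∏ u_j^(c j)`, `D = ∏ b_i^(d i)` (rational integer). `Z conj Z = t₁³` (`SysK.cx`, `cb`), so
`t³ conj t³ = t₁³ D²`, hence `t₁³ ∣ (t conj t)³`, `D²` is a cube in `Eis`, and `D (D²)³… `: `D³ = D · D²`, so `D · D²` and `D²` are cubes and
`D ≠ 0`, so `D` is a cube in `Eis` (`a³ = D b³` implies `b ∣ a`). A rational integer which is a cube in `Eis` is a cube in `ℤ` (`GKI`, or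
norms: `D² = N(t)³`, `D` is a cube). `SysG.ind`: `3 ∣ d i` for all `i`. So `D` is a cube and `Z` is a cube in `Eis`, and `SysK.ind` gives
`3 ∣ c₀`, `3 ∣ c j`. -/
def Stmt_JKU : Prop := ∀ (s k : ℕ) (b : Fin s → ℤ) (p q p' q' : Fin s → Fin s → ℤ)
  (x : Eis) (u P Q P' Q' : Fin k → Eis) (f : ℕ)
  (L : Type) [Field L] [NumberField L] (ζ : L) (ι : Eis →+* L),
  SysG b p q p' q' → SysK x u P Q P' Q' → GovJ b p q p' q' x u P Q P' Q' f L ζ ι →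
  ∀ (a₀ : ZMod 3) (a : Fin k → ZMod 3) (v : Fin s → ZMod 3), ∃ g : L ≃ₐ[ℚ] L, g (ι w) = ι w ∧
    (∀ ρ : L, ρ ^ 3 = ι x → g ρ = ι w ^ a₀.val * ρ) ∧
    (∀ (j : Fin k) (ρ : L), ρ ^ 3 = ι (u j) → g ρ = ι w ^ (a j).val * ρ) ∧
    ∀ (i : Fin s) (ρ : L), ρ ^ 3 = (b i : L) → g ρ = ι w ^ (v i).val * ρ

/-- PTK_JC1: commutators for the minus part which are trivial on the plus part.
Proof. As `GCK_thm` (PTK/GCK.lean), with `σ`, `τ` from `JKU` with `v = 0`: `σ` moves the roots of `x` only, `τ` moves the roots of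
`u j` by `ω^(v j)` only; `z = (σ τ)⁻¹ (τ σ)`. New: for a pair `(ρ, A)` of the plus part, `j ≠ i`: `σ` and `τ` fix `ρ` and `ω`, so they fix
`α = aN / aD` (`GovF.D`) and multiply `A` by powers of `ω`; so they commute on `A` and `z A = A`. -/
def Stmt_JC1 : Prop := ∀ (s k : ℕ) (b : Fin s → ℤ) (p q p' q' : Fin s → Fin s → ℤ)
  (x : Eis) (u P Q P' Q' : Fin k → Eis) (f : ℕ)
  (L : Type) [Field L] [NumberField L] (ζ : L) (ι : Eis →+* L),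
  SysG b p q p' q' → SysK x u P Q P' Q' → GovJ b p q p' q' x u P Q P' Q' f L ζ ι →
  ∀ v : Fin k → ZMod 3, ∃ z : L ≃ₐ[ℚ] L, FxA b x u ζ ι z ∧
    (∀ (j i : Fin s) (ρ A : L), j ≠ i → PrP b p q p' q' ι j i ρ A → z A = A) ∧
    ∀ (j : Fin k) (ρ A : L), PrM x P Q P' Q' ι j ρ A → z A = ι w ^ (v j).val * A ∧
      ∀ g : L ≃ₐ[ℚ] L, g (ι w) = ι w ^ 2 → z (g A) = ι w ^ (- v j).val * g A

/-- PTK_JC2: commutators for the plus part which are trivial on the minus part.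
Proof. As `GCG_thm` (PTE/GCG.lean), with the `g i` from `JKU` (`a₀ = 0`, `a = 0`, `v = Pi.single i 1`; `g i (ι w) = ι w`; they need not fix
`ζ`, but they act on `ζ` by powers, so the commutators fix `ζ`; in `GC.all` (PT/GC.lean) only products of the commutators
`(g j * g i)⁻¹ * (g i * g j)` are formed). The set `H` of all `z` with `FxA z`, `z A = A` for all pairs of the minus part and
`z (g A) = g A` for all `g` with `g (ι w) = ι w ^ 2` is closed under products, inverses and contains every commutator of two elements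
`σ, τ` which fix `ω` and all roots of `x`, `u j` and act on the roots of the `b i` by powers of `ω`: for a pair `(ρ, A)`: `σ`, `τ` fix
`α` and act on `A` by powers of `ω`, so `z A = A`. For `g A`: `(g A)³ = g α`, and `g α` is in the field generated by `ω` and `g ρ`, with
`(g ρ)³ = g (ι x) = ι (conj x)`, `x conj x = t³`, so `g ρ = ω^l ι t / ρ` is fixed by `σ`, `τ`; so `σ`, `τ` act on `g A` by powers of `ω`,
`z (g A) = g A`. (`GC.all` builds `z` from the elementary ones: repeat its proof carrying the property `H` along.) -/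
def Stmt_JC2 : Prop := ∀ (s k : ℕ) (b : Fin s → ℤ) (p q p' q' : Fin s → Fin s → ℤ)
  (x : Eis) (u P Q P' Q' : Fin k → Eis) (f : ℕ)
  (L : Type) [Field L] [NumberField L] (ζ : L) (ι : Eis →+* L),
  SysG b p q p' q' → SysK x u P Q P' Q' → GovJ b p q p' q' x u P Q P' Q' f L ζ ι →
  ∀ v : Fin s → Fin s → ZMod 3, ∃ z : L ≃ₐ[ℚ] L, FxA b x u ζ ι z ∧
    (∀ (j i : Fin s) (ρ A : L), j < i → PrP b p q p' q' ι j i ρ A → z A = ι w ^ (v j i).val * A) ∧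
    ∀ (j : Fin k) (ρ A : L), PrM x P Q P' Q' ι j ρ A → z A = A ∧
      ∀ g : L ≃ₐ[ℚ] L, g (ι w) = ι w ^ 2 → z (g A) = g A

/-! ### `Q = 2 (mod 3)` -/

/-- PTK_JAL: summary of the joint governing field, `Q = 2 (mod 3)`.
Proof. `L` from `JZ`. `tt`, its properties and the Frobenius clause: as in `GALG_thm` (PT3/GALG.lean) with `GTG`, `GFRG` for the `GovF`
part; `F`, `t`: as in `GAK_thm` (PTK/GAK.lean) with `GTK`, `GFK` for the `GovK` part; `χ` from `GCHI`. The same `k` serves both Frobenius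
clauses (first take `k` with `IsArithFrobAt ℤ (g ^ k) P` from `GFRG` or `GFK`, then apply both second parts). Equidistribution: let `z₁`
be from `JC1` for `2 (y' - y) = - (y' - y)`, `z₂` from `JC2` for `v - v'`; `g ↦ g z₁ z₂` is a bijection of the first set onto the second
one: `χ` does not change, `F` does not change, `t (g z₁ z₂) = t g + (y' - y)` (as in `GAK_thm`; `z₂` acts trivially on `A` and on `g A`),
`tt (g z₁ z₂) j i = tt g j i + (v' - v) j i` for `j < i` (as in `GALG_thm`; `z₁` acts trivially on the `A` of the plus part). -/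
def Stmt_JAL : Prop := ∀ (s : ℕ) (b : Fin s → ℤ) (p q p' q' : Fin s → Fin s → ℤ)
  (k : ℕ) (x : Eis) (u P Q P' Q' : Fin k → Eis) (f : ℕ), SysG b p q p' q' →
  SysK x u P Q P' Q' → 0 < f → 9 ∣ f →
  ∃ (L : Type) (_ : Field L) (_ : NumberField L) (_ : IsGalois ℚ L)
    (χ : (L ≃ₐ[ℚ] L) →* (ZMod f)ˣ) (tt : (L ≃ₐ[ℚ] L) → Fin s → Fin s → ZMod 3)
    (F : (L ≃ₐ[ℚ] L) → Prop) (t : (L ≃ₐ[ℚ] L) → Fin k → ZMod 3) (N₀ : ℕ),
    Function.Surjective χ ∧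
    (∀ g τ : L ≃ₐ[ℚ] L, M2 (χ g) → ∀ j i, j ≠ i → tt (τ * g * τ⁻¹) j i = tt g j i) ∧
    (∀ (g : L ≃ₐ[ℚ] L) (l : ℕ), M2 (χ g) → Odd l → ∀ j i, j ≠ i → tt (g ^ l) j i = l * tt g j i) ∧
    (∀ g τ : L ≃ₐ[ℚ] L, M2 (χ g) → F g → F (τ * g * τ⁻¹) ∧ t (τ * g * τ⁻¹) = t g) ∧
    (∀ (g : L ≃ₐ[ℚ] L) (l : ℕ), M2 (χ g) → F g → Odd l → F (g ^ l) ∧
      t (g ^ l) = (l : ZMod 3) • t g) ∧
    (∀ (a : (ZMod f)ˣ) (v v' : Fin s → Fin s → ZMod 3) (y y' : Fin k → ZMod 3), M2 a →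
      Nat.card {g : L ≃ₐ[ℚ] L // χ g = a ∧ F g ∧ t g = y ∧ ∀ j i, j < i → tt g j i = v j i} =
        Nat.card {g : L ≃ₐ[ℚ] L //
          χ g = a ∧ F g ∧ t g = y' ∧ ∀ j i, j < i → tt g j i = v' j i}) ∧
    ∀ (N : ℕ) (hN : N.Coprime f), N.Prime → N₀ < N → ∀ (I : Ideal (𝓞 L)) (g : L ≃ₐ[ℚ] L),
      I.IsPrime → (N : 𝓞 L) ∈ I →
      MulAction.stabilizer (L ≃ₐ[ℚ] L) I = Subgroup.zpowers g →
      ∃ l : ℕ, l.Coprime (orderOf g) ∧ χ (g ^ l) = ZMod.unitOfCoprime N hN ∧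
        (N % 3 = 2 →
          (∀ j i, j ≠ i → ∀ r : ℤ, (N : ℤ) ∣ r ^ 3 - b j →
            tt (g ^ l) j i = TAUV N (p j i) (q j i) (p' j i) (q' j i) r) ∧
          (sym (N : Eis) x = 0 → (∀ j, sym (N : Eis) (u j) = 0) → F (g ^ l) ∧
            ∀ (j : Fin k) (r : Eis), (N : Eis) ∣ r ^ 3 - x →
              t (g ^ l) j = TAUE N (P j) (Q j) (P' j) (Q' j) r))

/-- PTK_BDJ: the bound for the density, both parts and both exponents together, `Q = 2 (mod 3)`.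
Proof. As `BDK_thm` (PTK/BDK.lean) and `BDE_thm` (PTL/BD.lean), with `JAL` and `DNS`. Put `C : plus`, `C' : minus` constants,
`XP g : M2 (χ g) ∧ κ (χ g) = c ∧ F g ∧ t g = C' + Φ' (χ g) ∧ tn ≤ s - rank (alt (C + Φ (χ g) - tt g))`,
`XM g : M2 (χ g) ∧ κ (χ g) = -c ∧ F g ∧ t g = - C' + Φ' (χ g) ∧ tn ≤ s - rank (alt (C - Φ (χ g) + tt g))`. Exchanged by powers `= 2 (mod 3)`,
preserved by powers `= 1 (mod 3)`. Counting for every unit `a` with `M2 a`: for every `y`, with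
`X = {g // χ g = a ∧ F g ∧ t g = y}`, `EQX` gives `#{g ∈ X : alt (C ± tt g) ∈ S} · #matrices = #{v : alt v ∈ S} · #X` (the fibres of `tt` have the
same size by `JAL`, which gives also that all `#X` (different `y`) are equal: sum over `v`), and `3^k #X = #{χ g = a ∧ F g} ≤ #{χ g = a}`. So
`3^k · #matrices · 2 · 3^(m+1) #XP ≤ NK s tn · #G`, the same for `XM`. `DNS` for `XP ∨ XM`, `XP ∧ XM`; `BD.sm_union_inter`,
`BD.card_incl`. -/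
def Stmt_BDJ : Prop := ∀ (s : ℕ) (b : Fin s → ℤ) (p q p' q' : Fin s → Fin s → ℤ)
  (k : ℕ) (x : Eis) (u P Q P' Q' : Fin k → Eis) (f m tn : ℕ)
  (κ : (ZMod f)ˣ →* Multiplicative (Fin (m + 1) → ZMod 3)) (c : Fin (m + 1) → ZMod 3)
  (C : Fin s → Fin s → ZMod 3) (Φ : (ZMod f)ˣ →* Multiplicative (Fin s → Fin s → ZMod 3))
  (C' : Fin k → ZMod 3) (Φ' : (ZMod f)ˣ →* Multiplicative (Fin k → ZMod 3)),
  SysG b p q p' q' → SysK x u P Q P' Q' → 0 < f → 9 ∣ f →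
  (∀ c : Fin (m + 1) → ZMod 3,
    Nat.card {a : (ZMod f)ˣ // M2 a ∧ (κ a).toAdd = c} * (2 * 3 ^ (m + 1)) = f.totient) →
  ∃ K : ℝ, ∀ σ : ℝ, 1 < σ → σ ≤ 2 →
    BDENS.sm (SP b p q p' q' tn κ c C Φ ∩ SPK x u P Q P' Q' κ c C' Φ') σ +
      BDENS.sm (SM b p q p' q' tn κ c C Φ ∩ SMK x u P Q P' Q' κ c C' Φ') σ ≤
      LI s tn / 3 ^ k / 3 ^ (m + 1) * Real.log (1 / (σ - 1)) + K

/-! ### `Q = 1 (mod 3)`: the field -/

/-- `g` fixes the cube roots of `x` and of the `u j`. -/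
def FxU {k : ℕ} (x : Eis) (u : Fin k → Eis) {L : Type} [Field L] [NumberField L] (ι : Eis →+* L)
    (g : L ≃ₐ[ℚ] L) : Prop :=
  (∀ ρ : L, ρ ^ 3 = ι x → g ρ = ρ) ∧ ∀ (j : Fin k) (ρ : L), ρ ^ 3 = ι (u j) → g ρ = ρ

/-- The relation between `g` and `t = t_j(g)`: `g A = ω^t A` for all pairs. -/
def IsTU {k : ℕ} (x : Eis) (P Q P' Q' : Fin k → Eis) {L : Type} [Field L]
    [NumberField L] (ι : Eis →+* L) (g : L ≃ₐ[ℚ] L) (j : Fin k) (t : ZMod 3) : Prop :=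
  ∀ ρ A : L, PrM x P Q P' Q' ι j ρ A → g A = ι w ^ t.val * A

/-- The cubic residue symbol modulo the prime `π` of
`[(p + q w² r)(p' + q' w r)] / [(p + q w r)(p' + q' w² r)]`. -/
noncomputable def TAUP (π : Eis) (p q p' q' r : Eis) : ZMod 3 :=
  sym π (LfE p q 2 r) + sym π (LfE p' q' 1 r) - sym π (LfE p q 1 r) - sym π (LfE p' q' 2 r)

/-- PTK_GTU: existence, uniqueness and properties of `t` for `Q = 1 (mod 3)`.
Proof. As `GTK_thm` (PTK/GTK.lean; there `h = g²` plays the role of `g`). (1) For one pair `(ρ, A)`: `g` fixes `α(ρ)`, so `g A = ω^t A`; the same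
`t` for all pairs (`GTK.step`). (2) If `τ ω = ω`: `τ⁻¹ ρ` is a root of `x`. If `τ ω = ω²` (the only other case): `(τ⁻¹ ρ)³ = ι (conj x)`,
`x conj x = T³`, so `τ⁻¹ ρ = ω^l ι T / ρ'` with a root `ρ'` of `x`, fixed by `g`; the same for the roots of `u j`. (3) `(τ⁻¹ ρ, τ⁻¹ A)` is a
pair, `g` multiplies `τ⁻¹ A` by `ω^t`, apply `τ`. (4) Clear. -/
def Stmt_GTU : Prop := ∀ (k : ℕ) (x : Eis) (u P Q P' Q' : Fin k → Eis) (f : ℕ)
  (L : Type) [Field L] [NumberField L] (ζ : L) (ι : Eis →+* L), SysK x u P Q P' Q' →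
  GovK x u P Q P' Q' f L ζ ι →
  (∀ g τ : L ≃ₐ[ℚ] L, g (ι w) = ι w → FxU x u ι g → FxU x u ι (τ * g * τ⁻¹)) ∧
  (∀ (g : L ≃ₐ[ℚ] L) (l : ℕ), FxU x u ι g → FxU x u ι (g ^ l)) ∧
  ∀ j,
  (∀ g : L ≃ₐ[ℚ] L, g (ι w) = ι w → FxU x u ι g → ∃! t : ZMod 3, IsTU x P Q P' Q' ι g j t) ∧
  (∀ (g τ : L ≃ₐ[ℚ] L) (t : ZMod 3), g (ι w) = ι w → FxU x u ι g → τ (ι w) = ι w →
    IsTU x P Q P' Q' ι g j t → IsTU x P Q P' Q' ι (τ * g * τ⁻¹) j t) ∧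
  (∀ (g : L ≃ₐ[ℚ] L) (t : ZMod 3) (l : ℕ), g (ι w) = ι w →
    IsTU x P Q P' Q' ι g j t → IsTU x P Q P' Q' ι (g ^ l) j (l * t))

/-- PTK_GFKU: Frobenius elements and `t`, `Q = 1 (mod 3)`.
Proof. As `GFK_thm` (PTK/GFK.lean: `exists_lift`, `not_dvd_of_lt`, …). Let `κ = 𝓞 L / I`. The homomorphism `Eis → κ`, `a ↦ mk (ι a)`, has a
kernel generated by a prime `ρ₀` with `ρ₀ ∣ Q`, so `ρ₀` is associated to `ρ` or to `conj ρ`; the residue field of `ρ₀` has `Q` elements and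
`sym ρ₀ a` is characterised by `a ^ ((Q - 1) / 3) = w ^ (sym ρ₀ a)` modulo `ρ₀`. `mk (φ y) = (mk y) ^ Q`, so `φ ω = ω`
(`ω^Q = ω`). (a) `sym (conj ρ) x = - sym ρ (conj x) = sym ρ x` (`SPLT` or `SCJ`: `sym (conj ρ) (conj a) = - sym ρ a`; `x conj x = T³`), the same for
`u j`; so `sym ρ₀ x = 0`, `sym ρ₀ (u j) = 0`, and `φ` fixes the roots (as in `GFK_thm`, with exponent `Q` in place of `Q²`). (b) If
`ρ₀ ∣ r³ - x` and `IsTU φ j t` then `t = TAUP ρ₀ .. r` (as (b) of `GFK_thm`). (c) `c φ c⁻¹` is a Frobenius element for the prime `c I`, and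
`ι a ∈ c I` iff `c⁻¹ (ι a) = ι (conj a) ∈ I`, so the kernel for `c I` is generated by `conj ρ₀`. By (b) for `c I`: if `conj ρ₀ ∣ r'³ - x`, `IsTU (c φ c⁻¹) j t'`
then `t' = TAUP (conj ρ₀) .. r'`. If `ρ₀ ~ ρ` the sum is as claimed; if `ρ₀ ~ conj ρ` use (b) with `r'` and (c) with `r` (`TAUP` depends only on the
ideal of the prime: `sym` does). -/
def Stmt_GFKU : Prop := ∀ (k : ℕ) (x : Eis) (u P Q P' Q' : Fin k → Eis) (f : ℕ)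
  (L : Type) [Field L] [NumberField L] (ζ : L) (ι : Eis →+* L), SysK x u P Q P' Q' →
  GovK x u P Q P' Q' f L ζ ι →
  ∃ N₀ : ℕ, ∀ N : ℕ, N.Prime → N₀ < N → N % 3 = 1 → ∀ (I : Ideal (𝓞 L)), I.IsPrime →
    (N : 𝓞 L) ∈ I → ∀ φ : L ≃ₐ[ℚ] L, IsArithFrobAt ℤ φ I → ∀ ρ : PP,
    (N : Eis) = ρ.1 * conj ρ.1 → sym ρ.1 x = 0 → (∀ j, sym ρ.1 (u j) = 0) →
    φ (ι w) = ι w ∧ FxU x u ι φ ∧
      ∀ (c : L ≃ₐ[ℚ] L), c (ι w) = ι w ^ 2 → ∀ (j : Fin k) (r r' : Eis) (t t' : ZMod 3),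
        ρ.1 ∣ r ^ 3 - x → conj ρ.1 ∣ r' ^ 3 - x → IsTU x P Q P' Q' ι φ j t →
        IsTU x P Q P' Q' ι (c * φ * c⁻¹) j t' →
        t + t' = TAUP ρ.1 (P j) (Q j) (P' j) (Q' j) r +
          TAUP (conj ρ.1) (P j) (Q j) (P' j) (Q' j) r'

/-- PTK_JAU: summary of the joint governing field, `Q = 1 (mod 3)`, generic pattern.
Proof. `L` from `JZ`, `χ` from `GCHI`; `F = Fx b`, `tt`: as in `GALDU_thm` (PTN/GALDU.lean) with `GTS`, `GFRU`, `GKUM` for the `GovF` part (clause 7: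
from `GALDU_thm`). `F₂ g = (g (ι w) = ι w ∧ FxU g)`; fix `c` with `c (ι w) = ι w ^ 2` (`χ` is surjective: `c` with
`χ c = -1`), `T g j = t_j(g) + t_j(c g c⁻¹)` (`GTU`). Invariance of `T`: for `τ ω = ω` by `GTU` (`c τ g τ⁻¹ c⁻¹ = (c τ c⁻¹) (c g c⁻¹) (c τ c⁻¹)⁻¹`); for
`τ ω = ω²`: `τ = (τ c⁻¹) c`, so `t (τ g τ⁻¹) = t (c g c⁻¹)`, and `c τ` fixes `ω`: `t (c τ g τ⁻¹ c⁻¹) = t g`. Powers: clear. Equidistribution: `z₁` from
`JC1` for `2 (y' - y)`, `z₂` from `JC2` for `v' - v`, `g ↦ g z₁ z₂`: `χ`, `F`, `F₂` do not change (`FxA`); `tt` changes by `v' - v` for `j < i` (as in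
`GALDU_thm`; `z₁ A = A`); `T (g z₁) = T g + 2 · 2 (y' - y)`: `t (g z₁) = t g + v₁`, `t (c g z₁ c⁻¹) = t (c g c⁻¹) + t (c z₁ c⁻¹)` and
`c z₁ c⁻¹ A = c (ω^(- v₁) c⁻¹ A) = ω^(v₁) A` by the last clause of `JC1` for `g = c⁻¹`; `v₁ = 2 (y' - y)`, `2 v₁ = 4 (y' - y) = y' - y`. `z₂` does not change `T`
(last clause of `JC2`). -/
def Stmt_JAU : Prop := ∀ (s : ℕ) (b : Fin (s + 1) → ℤ)
  (p q p' q' : Fin (s + 1) → Fin (s + 1) → ℤ)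
  (k : ℕ) (x : Eis) (u P Q P' Q' : Fin k → Eis) (f : ℕ), SysG b p q p' q' →
  SysK x u P Q P' Q' → 0 < f → 9 ∣ f →
  ∃ (L : Type) (_ : Field L) (_ : NumberField L) (_ : IsGalois ℚ L)
    (χ : (L ≃ₐ[ℚ] L) →* (ZMod f)ˣ) (F : (L ≃ₐ[ℚ] L) → Prop)
    (tt : (L ≃ₐ[ℚ] L) → Fin s → Fin s → ZMod 3)
    (F₂ : (L ≃ₐ[ℚ] L) → Prop) (T : (L ≃ₐ[ℚ] L) → Fin k → ZMod 3) (N₀ : ℕ),
    Function.Surjective χ ∧
    (∀ g τ : L ≃ₐ[ℚ] L, M1 (χ g) → F g →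
      F (τ * g * τ⁻¹) ∧ ∀ j i, j ≠ i → tt (τ * g * τ⁻¹) j i = tt g j i) ∧
    (∀ (g : L ≃ₐ[ℚ] L) (l : ℕ), M1 (χ g) → F g → ¬ 3 ∣ l →
      F (g ^ l) ∧ ∀ j i, j ≠ i → tt (g ^ l) j i = l * tt g j i) ∧
    (∀ g τ : L ≃ₐ[ℚ] L, M1 (χ g) → F₂ g → F₂ (τ * g * τ⁻¹) ∧ T (τ * g * τ⁻¹) = T g) ∧
    (∀ (g : L ≃ₐ[ℚ] L) (l : ℕ), M1 (χ g) → F₂ g → F₂ (g ^ l) ∧
      T (g ^ l) = (l : ZMod 3) • T g) ∧
    (∀ (a : (ZMod f)ˣ) (v v' : Fin s → Fin s → ZMod 3) (y y' : Fin k → ZMod 3), M1 a →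
      Nat.card {g : L ≃ₐ[ℚ] L //
          χ g = a ∧ F g ∧ F₂ g ∧ T g = y ∧ ∀ j i, j < i → tt g j i = v j i} =
        Nat.card {g : L ≃ₐ[ℚ] L //
          χ g = a ∧ F g ∧ F₂ g ∧ T g = y' ∧ ∀ j i, j < i → tt g j i = v' j i}) ∧
    (∀ a : (ZMod f)ˣ, M1 a → 3 ^ (s + 1) * Nat.card {g : L ≃ₐ[ℚ] L // χ g = a ∧ F g} =
      2 * Nat.card {g : L ≃ₐ[ℚ] L // χ g = a}) ∧
    ∀ (N : ℕ) (hN : N.Coprime f), N.Prime → N₀ < N →
      ∀ (I : Ideal (𝓞 L)) (g : L ≃ₐ[ℚ] L), I.IsPrime → (N : 𝓞 L) ∈ I →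
      MulAction.stabilizer (L ≃ₐ[ℚ] L) I = Subgroup.zpowers g →
      ∃ l : ℕ, l.Coprime (orderOf g) ∧ χ (g ^ l) = ZMod.unitOfCoprime N hN ∧
        (N % 3 = 1 → ∀ ρ : PP, (N : Eis) = ρ.1 * conj ρ.1 →
          (F (g ^ l) ↔ (∀ j : Fin s, sym ρ.1 (b j.castSucc : Eis) = 0) ∧
            sym ρ.1 (b (Fin.last s) : Eis) ≠ 0) ∧
          (F (g ^ l) → ∀ j i : Fin s, j ≠ i → ∀ r : ℤ, (N : ℤ) ∣ r ^ 3 - b j.castSucc →
            tt (g ^ l) j i = TAUVS ρ.1 (rs p j i) (rs q j i) (rs p' j i) (rs q' j i) r) ∧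
          (sym ρ.1 x = 0 → (∀ j, sym ρ.1 (u j) = 0) → F₂ (g ^ l) ∧
            ∀ (j : Fin k) (r r' : Eis), ρ.1 ∣ r ^ 3 - x → conj ρ.1 ∣ r' ^ 3 - x →
              T (g ^ l) j = TAUP ρ.1 (P j) (Q j) (P' j) (Q' j) r +
                TAUP (conj ρ.1) (P j) (Q j) (P' j) (Q' j) r'))

/-- PTK_JAZ: summary of the joint governing field, `Q = 1 (mod 3)`, all rational classes cubes modulo `Q`.
Proof. As `JAU`; `F₀ g`: `g (ι w) = ι w` and `g` fixes the roots of all `b j`. (`τ g τ⁻¹`: `τ⁻¹ ρ` is a root of `b j`.) Clause 7: `GKUM` for every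
vector: `{χ g = a}` is the disjoint union of the `3^s` translates (by `GKUM` elements) of `{χ g = a ∧ F₀ g}` (an element `g` with `g ω = ω`
multiplies the roots of `b j` by `ω^(v j)`); `M1 (χ g)` gives `g (ι w) = ι w`. Frobenius: `sym ρ (b j) = 0` for all `j` implies that `φ` fixes the
roots: as in `GFRU_thm` (PTN/GFRU.lean; `Dat.fr_root`, for all `j`), for both prime factors of `Q`. -/
def Stmt_JAZ : Prop := ∀ (s : ℕ) (b : Fin s → ℤ) (p q p' q' : Fin s → Fin s → ℤ)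
  (k : ℕ) (x : Eis) (u P Q P' Q' : Fin k → Eis) (f : ℕ), SysG b p q p' q' →
  SysK x u P Q P' Q' → 0 < f → 9 ∣ f →
  ∃ (L : Type) (_ : Field L) (_ : NumberField L) (_ : IsGalois ℚ L)
    (χ : (L ≃ₐ[ℚ] L) →* (ZMod f)ˣ) (F₀ : (L ≃ₐ[ℚ] L) → Prop)
    (F₂ : (L ≃ₐ[ℚ] L) → Prop) (T : (L ≃ₐ[ℚ] L) → Fin k → ZMod 3) (N₀ : ℕ),
    Function.Surjective χ ∧
    (∀ g τ : L ≃ₐ[ℚ] L, M1 (χ g) → F₀ g → F₀ (τ * g * τ⁻¹)) ∧
    (∀ (g : L ≃ₐ[ℚ] L) (l : ℕ), M1 (χ g) → F₀ g → F₀ (g ^ l)) ∧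
    (∀ g τ : L ≃ₐ[ℚ] L, M1 (χ g) → F₂ g → F₂ (τ * g * τ⁻¹) ∧ T (τ * g * τ⁻¹) = T g) ∧
    (∀ (g : L ≃ₐ[ℚ] L) (l : ℕ), M1 (χ g) → F₂ g → F₂ (g ^ l) ∧
      T (g ^ l) = (l : ZMod 3) • T g) ∧
    (∀ (a : (ZMod f)ˣ) (y y' : Fin k → ZMod 3), M1 a →
      Nat.card {g : L ≃ₐ[ℚ] L // χ g = a ∧ F₀ g ∧ F₂ g ∧ T g = y} =
        Nat.card {g : L ≃ₐ[ℚ] L // χ g = a ∧ F₀ g ∧ F₂ g ∧ T g = y'}) ∧
    (∀ a : (ZMod f)ˣ, M1 a → 3 ^ s * Nat.card {g : L ≃ₐ[ℚ] L // χ g = a ∧ F₀ g} =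
      Nat.card {g : L ≃ₐ[ℚ] L // χ g = a}) ∧
    ∀ (N : ℕ) (hN : N.Coprime f), N.Prime → N₀ < N →
      ∀ (I : Ideal (𝓞 L)) (g : L ≃ₐ[ℚ] L), I.IsPrime → (N : 𝓞 L) ∈ I →
      MulAction.stabilizer (L ≃ₐ[ℚ] L) I = Subgroup.zpowers g →
      ∃ l : ℕ, l.Coprime (orderOf g) ∧ χ (g ^ l) = ZMod.unitOfCoprime N hN ∧
        (N % 3 = 1 → ∀ ρ : PP, (N : Eis) = ρ.1 * conj ρ.1 →
          ((∀ j : Fin s, sym ρ.1 (b j : Eis) = 0) → F₀ (g ^ l)) ∧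
          (sym ρ.1 x = 0 → (∀ j, sym ρ.1 (u j) = 0) → F₂ (g ^ l) ∧
            ∀ (j : Fin k) (r r' : Eis), ρ.1 ∣ r ^ 3 - x → conj ρ.1 ∣ r' ^ 3 - x →
              T (g ^ l) j = TAUP ρ.1 (P j) (Q j) (P' j) (Q' j) r +
                TAUP (conj ρ.1) (P j) (Q j) (P' j) (Q' j) r'))

/-! ### `Q = 1 (mod 3)`: densities -/

/-- PTK_DNS1: as `DNS`, for `Q = 1 (mod 3)`.
Proof. As `DNS_thm` (PTK/DNS.lean) with `M1` in place of `M2` (see `BDU_thm` in PTN/BDU.lean; two generators of a finite cyclic group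
are powers of each other with an exponent prime to `3`). -/
def Stmt_DNS1 : Prop := ∀ (f m : ℕ) (κ : (ZMod f)ˣ →* Multiplicative (Fin (m + 1) → ZMod 3))
  (c : Fin (m + 1) → ZMod 3) (L : Type) [Field L] [NumberField L] [IsGalois ℚ L]
  (χ : (L ≃ₐ[ℚ] L) →* (ZMod f)ˣ) (B : (L ≃ₐ[ℚ] L) → Prop) (S : Set ℕ) (N₀ : ℕ),
  0 < f → 9 ∣ f → Function.Surjective χ →
  (∀ g h τ : L ≃ₐ[ℚ] L, B g → Subgroup.zpowers h = Subgroup.zpowers (τ * g * τ⁻¹) → B h) →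
  (∀ g, B g → M1 (χ g) ∧ ((κ (χ g)).toAdd = c ∨ (κ (χ g)).toAdd = -c)) →
  (∀ (Q : ℕ) (hQ : Q.Coprime f), Q.Prime → N₀ < Q → ∀ (P : Ideal (𝓞 L)) (g : L ≃ₐ[ℚ] L),
    P.IsPrime → (Q : 𝓞 L) ∈ P → MulAction.stabilizer (L ≃ₐ[ℚ] L) P = Subgroup.zpowers g →
    (∃ k : ℕ, k.Coprime (orderOf g) ∧ χ (g ^ k) = ZMod.unitOfCoprime Q hQ) ∧ (Q ∈ S → B g)) →
  (∀ (Q : ℕ) (hQ : Q.Coprime f), Q.Prime → N₀ < Q → Q ∈ S → Q % 3 = 1 ∧
    ((κ (ZMod.unitOfCoprime Q hQ)).toAdd = c ∨ (κ (ZMod.unitOfCoprime Q hQ)).toAdd = -c)) →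
  ∃ K : ℝ, ∀ σ : ℝ, 1 < σ → σ ≤ 2 → BDENS.sm S σ ≤
    (Nat.card {g : L ≃ₐ[ℚ] L // B g} : ℝ) / Nat.card (L ≃ₐ[ℚ] L) * Real.log (1 / (σ - 1)) + K

/-- the primes `N = 1 (mod 3)` with prescribed `TAUP`, exponent `1`, class `c` -/
def SPKU {k f m : ℕ} (x : Eis) (u P Q P' Q' : Fin k → Eis)
    (κ : (ZMod f)ˣ →* Multiplicative (Fin (m + 1) → ZMod 3)) (c : Fin (m + 1) → ZMod 3)
    (C : Fin k → ZMod 3) (Φ : (ZMod f)ˣ →* Multiplicative (Fin k → ZMod 3)) : Set ℕ :=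
  {N : ℕ | ∃ hN : N.Coprime f, N % 3 = 1 ∧ (κ (ZMod.unitOfCoprime N hN)).toAdd = c ∧
    ∀ ρ : PP, (N : Eis) = ρ.1 * conj ρ.1 → sym ρ.1 x = 0 ∧ (∀ j, sym ρ.1 (u j) = 0) ∧
      ∀ (j : Fin k) (r r' : Eis), ρ.1 ∣ r ^ 3 - x → conj ρ.1 ∣ r' ^ 3 - x →
        TAUP ρ.1 (P j) (Q j) (P' j) (Q' j) r + TAUP (conj ρ.1) (P j) (Q j) (P' j) (Q' j) r' =
          C j + (Φ (ZMod.unitOfCoprime N hN)).toAdd j}

/-- the primes `N = 1 (mod 3)` with prescribed `TAUP`, exponent `2`, class `-c` -/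
def SMKU {k f m : ℕ} (x : Eis) (u P Q P' Q' : Fin k → Eis)
    (κ : (ZMod f)ˣ →* Multiplicative (Fin (m + 1) → ZMod 3)) (c : Fin (m + 1) → ZMod 3)
    (C : Fin k → ZMod 3) (Φ : (ZMod f)ˣ →* Multiplicative (Fin k → ZMod 3)) : Set ℕ :=
  {N : ℕ | ∃ hN : N.Coprime f, N % 3 = 1 ∧ (κ (ZMod.unitOfCoprime N hN)).toAdd = -c ∧
    ∀ ρ : PP, (N : Eis) = ρ.1 * conj ρ.1 → sym ρ.1 x = 0 ∧ (∀ j, sym ρ.1 (u j) = 0) ∧
      ∀ (j : Fin k) (r r' : Eis), ρ.1 ∣ r ^ 3 - x → conj ρ.1 ∣ r' ^ 3 - x →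
        TAUP ρ.1 (P j) (Q j) (P' j) (Q' j) r + TAUP (conj ρ.1) (P j) (Q j) (P' j) (Q' j) r' =
          - C j + (Φ (ZMod.unitOfCoprime N hN)).toAdd j}

/-- the primes `N = 1 (mod 3)` modulo which all the `b i` are cubes -/
def ZP {s : ℕ} (b : Fin s → ℤ) : Set ℕ :=
  {N : ℕ | ∀ ρ : PP, (N : Eis) = ρ.1 * conj ρ.1 → ∀ i, sym ρ.1 (b i : Eis) = 0}

/-- PTK_BDJU: the bound for the density, `Q = 1 (mod 3)`, generic pattern.
Proof. As `BDU_thm` (PTN/BDU.lean) and `BDJ`, with `JAU`, `DNS1`. `XP g : M1 (χ g) ∧ κ (χ g) = c ∧ F g ∧ F₂ g ∧ T g = C' + Φ' (χ g) ∧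
tn ≤ s - rank (alt (C + Φ (χ g) + tt g))`, `XM g : M1 (χ g) ∧ κ (χ g) = -c ∧ F g ∧ F₂ g ∧ T g = - C' + Φ' (χ g) ∧
tn ≤ s - rank (alt (C - Φ (χ g) - tt g))`; preserved by powers `= 1 (mod 3)`, exchanged by powers `= 2 (mod 3)`. Roots `r`, `r'` of `x` modulo `ρ`, `conj ρ`
exist because the symbols are `0` (`LCI.cube_root` in PTK/LCI.lean; `sym (conj ρ) x = sym ρ x`, see `GFKU`). Counting: as in `BDJ`, with
`#{χ g = a ∧ F g ∧ F₂ g} ≤ #{χ g = a ∧ F g} = (2 / 3^(s+1)) #{χ g = a}`. -/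
def Stmt_BDJU : Prop := ∀ (s : ℕ) (b : Fin (s + 1) → ℤ)
  (p q p' q' : Fin (s + 1) → Fin (s + 1) → ℤ)
  (k : ℕ) (x : Eis) (u P Q P' Q' : Fin k → Eis) (f m tn : ℕ)
  (κ : (ZMod f)ˣ →* Multiplicative (Fin (m + 1) → ZMod 3)) (c : Fin (m + 1) → ZMod 3)
  (C : Fin s → Fin s → ZMod 3) (Φ : (ZMod f)ˣ →* Multiplicative (Fin s → Fin s → ZMod 3))
  (C' : Fin k → ZMod 3) (Φ' : (ZMod f)ˣ →* Multiplicative (Fin k → ZMod 3)),
  SysG b p q p' q' → SysK x u P Q P' Q' → 0 < f → 9 ∣ f →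
  (∀ c : Fin (m + 1) → ZMod 3,
    Nat.card {a : (ZMod f)ˣ // M1 a ∧ (κ a).toAdd = c} * (2 * 3 ^ (m + 1)) = f.totient) →
  ∃ K : ℝ, ∀ σ : ℝ, 1 < σ → σ ≤ 2 →
    BDENS.sm (SPU b p q p' q' tn κ c C Φ ∩ SPKU x u P Q P' Q' κ c C' Φ') σ +
      BDENS.sm (SMU b p q p' q' tn κ c C Φ ∩ SMKU x u P Q P' Q' κ c C' Φ') σ ≤
      2 / 3 ^ (s + 1) * LI s tn / 3 ^ k / 3 ^ (m + 1) * Real.log (1 / (σ - 1)) + K

/-- PTK_BDJZ: the bound for the density, `Q = 1 (mod 3)`, all rational classes cubes modulo `Q`.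
Proof. As `BDJU`, with `JAZ`, without the matrix; `F₀` in place of `F`, `#{χ g = a ∧ F₀ g} = #{χ g = a} / 3^s`. (A prime `N = 1 (mod 3)` has a `ρ`
with `N = ρ conj ρ`: `SPLT`.) -/
def Stmt_BDJZ : Prop := ∀ (s : ℕ) (b : Fin s → ℤ) (p q p' q' : Fin s → Fin s → ℤ)
  (k : ℕ) (x : Eis) (u P Q P' Q' : Fin k → Eis) (f m : ℕ)
  (κ : (ZMod f)ˣ →* Multiplicative (Fin (m + 1) → ZMod 3)) (c : Fin (m + 1) → ZMod 3)
  (C' : Fin k → ZMod 3) (Φ' : (ZMod f)ˣ →* Multiplicative (Fin k → ZMod 3)),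
  SysG b p q p' q' → SysK x u P Q P' Q' → 0 < f → 9 ∣ f →
  (∀ c : Fin (m + 1) → ZMod 3,
    Nat.card {a : (ZMod f)ˣ // M1 a ∧ (κ a).toAdd = c} * (2 * 3 ^ (m + 1)) = f.totient) →
  ∃ K : ℝ, ∀ σ : ℝ, 1 < σ → σ ≤ 2 →
    BDENS.sm (ZP b ∩ SPKU x u P Q P' Q' κ c C' Φ') σ +
      BDENS.sm (ZP b ∩ SMKU x u P Q P' Q' κ c C' Φ') σ ≤
      1 / 3 ^ s / 3 ^ k / 3 ^ (m + 1) * Real.log (1 / (σ - 1)) + K

/-! ### `Q = 1 (mod 3)`: the relation -/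

/-- PTK_DP4U: the local term at a prime factor of `Q`.
Proof. As `DP4_thm` (PTK/DP4.lean): `V π Q = 1` (`Q = ρ conj ρ`, `π` is associated to exactly one of them; `SPP`, last part), `V π B = E`. -/
def Stmt_DP4U : Prop := ∀ (N : ℕ) (b x p q p' q' : Eis), HypD N b x p q p' q' →
  ∀ (π : PP) (E Q : ℕ) (X Y ξ : Eis), HypP N b x p q p' q' E Q X Y → Q % 3 = 1 →
    π.1 ∣ (Q : Eis) → ¬ π.1 ∣ (N : Eis) →
    ¬ π.1 ∣ (p ^ 3 + x * q ^ 3) * (p' ^ 3 + x * q' ^ 3) → π.1 ∣ ξ ^ 3 - x →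
    SVE (tm π.1) x p (-p') (-q) q' X Y = - (E * TAUP π.1 p q p' q' ξ)

/-- PTK_DCKU: the relation for the Frobenius invariant of `Q`, `Q = 1 (mod 3)`.
Proof. As `DCK_thm` (PTK/DCK.lean); `Q` has the two places `ρ`, `conj ρ` (`conj ρ.1 = π'.1` for a `π' : PP`, `SPP`), with the terms
`- E TAUP ρ .. ξ`, `- E TAUP (conj ρ) .. ξ'` by `DP4U`. -/
def Stmt_DCKU : Prop := ∀ (N : ℕ) (b x p q p' q' : Eis), HypD N b x p q p' q' →
  ∃ f₀ : ℕ, 0 < f₀ ∧ ∀ f : ℕ, 0 < f → f₀ ∣ f →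
  ∃ (C : ZMod 3) (Φ : (ZMod f)ˣ →* Multiplicative (ZMod 3)) (N₀ : ℕ),
    ∀ (E Q : ℕ) (hQ : Q.Coprime f) (ρ : PP), (E = 1 ∨ E = 2) → Q.Prime → N₀ < Q → Q % 3 = 1 →
      (Q : Eis) = ρ.1 * conj ρ.1 →
      (∀ σ : PP, tm σ.1 b ((N : Eis) * (Q : Eis) ^ E) = 0) →
      (∀ σ : PP, tm σ.1 x ((N : Eis) * (Q : Eis) ^ E) = 0) →
      ∀ X Y ξ ξ' : Eis, PtE ((N : Eis) * (Q : Eis) ^ E) x X Y → ρ.1 ∣ ξ ^ 3 - x →
        conj ρ.1 ∣ ξ' ^ 3 - x →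
        C + E * ((Φ (ZMod.unitOfCoprime Q hQ)).toAdd - TAUP ρ.1 p q p' q' ξ -
          TAUP (conj ρ.1) p q p' q' ξ') = 0

end Pool.Agent.PTK


end

section

/-!
# The average of `3^r` for prime twists: classes and averages

Stage 2 of the project PTK, after the joint governing field (`StJ.lean`). Everything of `StL`, `StN`, `StG`, `StC`, `StJ` and of
`PT`, `PTE`, `PT3`, `PTL`, `PTN` may be imported or taken as a hypothesis.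
-/

set_option autoImplicit false

open NumberField IsDedekindDomain Finset
open scoped nonZeroDivisors Pointwise

namespace Pool.Agent.PTK

open Pool.Agent.Lib_helper18 Pool.Agent.Lib_helper18.Eis Pool.Agent.Lib_helper84.Cub
open Pool.Agent.PT Pool.Agent.PTE Pool.Agent.PT3 Pool.Agent.PTL Pool.Agent.PTN

/-! ### Sums over primes -/

open Classical in
/-- The sum of `G E q / q ^ σ` over `E = 1, 2` and the primes `q ∈ S E` is at most `x * log (1 / (σ - 1))`, up to a constant. -/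
def UpS (S : ℕ → Set ℕ) (G : ℕ → ℕ → ℝ) (x : ℝ) : Prop :=
  ∃ K : ℝ, ∀ σ : ℝ, 1 < σ → σ ≤ 2 → ∀ T : Finset ℕ,
    ∑ E ∈ ({1, 2} : Finset ℕ), ∑ q ∈ T,
      (if q.Prime ∧ q ∈ S E then G E q * (q : ℝ) ^ (-σ) else 0) ≤
      x * Real.log (1 / (σ - 1)) + K

open Classical in
/-- PTK_UPS: the calculus of `UpS`.
Proof. (1) For a prime `q > M` in `S E` multiply the hypothesis by `q ^ (-σ) ≥ 0`; the primes `q ≤ M` contribute at most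
`∑_{E, q ≤ M} |G E q|` (`q ^ (-σ) ≤ 1`). So `∑_{E, q ∈ T} [..] G q^(-σ) ≤ (1 / c) ∑_i ∑_{E, q ∈ T} [q prime, q ∈ T i E] G' i E q q^(-σ) + const`
(`0 ≤ G'`), and each inner sum is bounded by the hypothesis. (2) `log (1 / (σ - 1)) ≥ 0` (`FIN.log_nn` in PTL/FIN.lean). -/
def Stmt_UPS : Prop :=
  (∀ (ι : Type) [Fintype ι] (S : ℕ → Set ℕ) (G : ℕ → ℕ → ℝ) (T : ι → ℕ → Set ℕ) (G' : ι → ℕ → ℕ → ℝ) (x : ι → ℝ)
    (c : ℝ) (M : ℕ), 0 < c → (∀ i E q, 0 ≤ G' i E q) →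
    (∀ E q, (E = 1 ∨ E = 2) → q.Prime → M < q → q ∈ S E →
      c * G E q ≤ ∑ i, (if q ∈ T i E then G' i E q else 0)) →
    (∀ i, UpS (T i) (G' i) (x i)) → UpS S G ((∑ i, x i) / c)) ∧
  (∀ (S : ℕ → Set ℕ) (G : ℕ → ℕ → ℝ) (x y : ℝ), x ≤ y → UpS S G x → UpS S G y) ∧
  (∀ (S : ℕ → Set ℕ) (G : ℕ → ℕ → ℝ) (x c : ℝ), 0 ≤ c → UpS S G x →
    UpS S (fun E q => c * G E q) (c * x))

/-- PTK_UPA: from `UpS` to `AboveA`.
Proof. `(3 ^ h * n : ℕ) * q ^ E = BB h n E q`. For a prime `q` not dividing `n`, `Kl π w0 c (q ^ E)` and `InCT E π w0 c q` are equivalent; the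
finitely many other `q` contribute a constant (see `CAB_thm`, PTN/CAB.lean). -/
def Stmt_UPA : Prop := ∀ (h n m k : ℕ) (π : Fin m → PP) (p e : Fin m → ℕ) (r f : Fin k → ℕ)
  (w0 : ZMod 3) (c : Fin m → ZMod 3) (a : ℕ) (F : ℤ → ℝ) (x : ℝ), NF n π p e r f →
  UpS (fun E => {q | q % 3 = a ∧ InCT E π w0 c q}) (fun E q => F (BB h n E q)) x →
  AboveA ((3 ^ h * n : ℕ) : ℤ) a (Kl π w0 c) F x

/-- PTK_KUP: from tails to averages.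
Proof. `DOMG` (with `F = 3 ^ ·`, `F = id`, `F = 1`), `P t = x LI s t`, `N = s`, and `LAW` (first part for `v = 0`: the sum is
`x Esk s F`; seventh part: `Esk s (3 ^ (0 + c)) ≤ 4 · 3 ^ 0`; `Esk s 1 = 1`). -/
def Stmt_KUP : Prop := ∀ (S : ℕ → Set ℕ) (R : ℕ → ℕ → ℕ) (s M : ℕ) (x : ℝ), 0 ≤ x →
  (∀ E q, (E = 1 ∨ E = 2) → q.Prime → M < q → q ∈ S E → R E q ≤ s) →
  (∀ t, ∃ K : ℝ, ∀ σ : ℝ, 1 < σ → σ ≤ 2 →
    BDENS.sm {q | q ∈ S 1 ∧ t ≤ R 1 q} σ + BDENS.sm {q | q ∈ S 2 ∧ t ≤ R 2 q} σ ≤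
      x * LI s t * Real.log (1 / (σ - 1)) + K) →
  UpS S (fun E q => 3 ^ R E q) (4 * x) ∧
    UpS S (fun E q => (R E q : ℝ)) (Esk s (fun c => (c : ℝ)) * x) ∧ UpS S (fun _ _ => 1) x

/-- PTK_LAM: the mean corank.
Proof. `AL.Esk_id` (PTL/AL.lean). Second part: by `AL.Esk_le`: `s` odd: `c ≤ 3^c / 12 + 3/4` (`AL.pow_odd`), so
`Esk s id ≤ 13/12 - 1 / (4 · 3^s)`; `s` even: `c ≤ 3^c / 4 - 1/4` (`AL.pow_even`), so `Esk s id ≤ 3/4 - 3 / (4 · 3^s)`. With `s = d - 1`: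
`d = 0`: `1`. `d = 1`: `2/3`. `d = 2`: `8/9 + 3/9 = 11/9`. `d = 3`: `(26/27)(2/3) + 4/27`. `d ≥ 4`: at most `13/12 + 5/81 ≤ 11/9`
(`(d + 1) / 3^d` is decreasing). -/
def Stmt_LAM : Prop := (∀ s, Esk s (fun c => (c : ℝ)) ≤ 13 / 12) ∧
  ∀ d : ℕ, (1 - 1 / 3 ^ d) * Esk (d - 1) (fun c => (c : ℝ)) + (d + 1) / 3 ^ d ≤ 11 / 9

/-- PTK_WSUM: sums weighted by the number of the classes of points.
Proof. `Nat.card (WqS .. B) = ∑ y ∈ VS, if Occ B (zN π e y) then 1 else 0`. `UPS` (1) with `ι = VS`, `c = 1`, `M = 0`,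
`T y E = {q ∈ S E | Occ (BB h n E q) (zN π e y)}`, `G' = G` (equality of the two sides). `y = 0`: `zN π e 0` is `1` up to cubes, bound by the
hypothesis for `S` (`UPS` (1) again: `T 0 E ⊆ S E`). `y ≠ 0`: `LIN` for `V0`: `x₀ / 3^v₀` for `y ∉ V0`, `x₀ / 3^(v₀ - 1)` for `y ∈ V0`. The sum is
`(1 + (3^v₀ - 1) 3^(1 - v₀) + (3^v - 3^v₀) 3^(-v₀)) x₀ ≤ (3 + 3^d) x₀` by `VDIM` (as in `AVW_thm`, PTK/AVW.lean). -/
def Stmt_WSUM : Prop := ∀ (h n m k : ℕ) (π : Fin m → PP) (p e : Fin m → ℕ) (r f : Fin k → ℕ)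
  (w0 : ZMod 3) (c : Fin m → ZMod 3), NF n π p e r f → h ≤ 2 →
  ∀ (S : ℕ → Set ℕ) (G : ℕ → ℕ → ℝ) (x₀ : ℝ), 0 ≤ x₀ → (∀ E q, 0 ≤ G E q) → UpS S G x₀ →
  (∀ y ∈ VS h n π p e r w0 c, ∀ (s : ℕ) (u : Fin s → Fin (m + 1) → ZMod 3),
    (∀ j, u j ∈ V0 h n π p e r w0 c) →
    LinearIndependent (ZMod 3) (Fin.cons y u : Fin (s + 1) → Fin (m + 1) → ZMod 3) →
    UpS (fun E => {q | q ∈ S E ∧ Occ (BB h n E q) (zN π e y)}) G (x₀ / 3 ^ s)) →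
  UpS S (fun E q => (Nat.card (WqS h n π p e r w0 c (BB h n E q)) : ℝ) * G E q)
    ((3 + 3 ^ dN h n w0) * x₀)

/-! ### `q = 2 (mod 3)` -/

/-- a system for the plus part, `q = 2 (mod 3)` -/
structure PlS (h n : ℕ) {m : ℕ} (π : Fin m → PP) (w0 : ZMod 3) (c : Fin m → ZMod 3) {s : ℕ}
    (τ : Fin s → Fin 3) (b X Y : Fin s → ℤ) (P Q P' Q' : Fin s → Fin s → ℤ) : Prop where
  adm : ∀ i, AdN h n π w0 c (b i)
  sys : SysG b P Q P' Q'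
  sw : SwS P Q P' Q'
  lam : ∀ B : ℤ, TyB h n w0 B → LamS B τ b X Y
  gen : ∀ x : ℤ, AdN h n π w0 c x → ∃ (g : Fin s → ℕ) (u v : ℤ), u ≠ 0 ∧ v ≠ 0 ∧
    x * u ^ 3 = (∏ i, b i ^ g i) * v ^ 3

/-- the corank of the matrix of the plus part, `q = 2 (mod 3)` -/
noncomputable def kS (h n : ℕ) {s : ℕ} (b X Y : Fin s → ℤ) (P Q P' Q' : Fin s → Fin s → ℤ) (E q : ℕ) : ℕ :=
  s - (MaT b X Y P Q P' Q' (BB h n E q)).rank

/-- `κ` is the class modulo `f` -/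
def IsK {m f : ℕ} (π : Fin m → PP) (κ : (ZMod f)ˣ →* Multiplicative (Fin (m + 1) → ZMod 3)) : Prop :=
  ∀ (Q : ℕ) (hQ : Q.Coprime f), (κ (ZMod.unitOfCoprime Q hQ)).toAdd =
    Fin.cons (wt ((Q : ℤ) ^ 2)) (fun i => sym (π i).1 (Q : Eis))

/-- PTK_PLE: existence of a system for the plus part. Proof: `NBAS`, `ESYT` (`AdN` implies `AdC`). -/
def Stmt_PLE : Prop := ∀ (h n m k : ℕ) (π : Fin m → PP) (p e : Fin m → ℕ) (r f : Fin k → ℕ)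
  (w0 : ZMod 3) (c : Fin m → ZMod 3), NF n π p e r f → h ≤ 2 →
  ∃ (s : ℕ) (τ : Fin s → Fin 3) (b X Y : Fin s → ℤ) (P Q P' Q' : Fin s → Fin s → ℤ),
    s = sN h n π p e r w0 c ∧ PlS h n π w0 c τ b X Y P Q P' Q'

/-- PTK_MSP: the primes with large corank are in `SP`, `SM`.
Proof. This is the part `hmat`, `hsub1`, `hsub2` of `CLN_thm` (PTN/CLN.lean) for an arbitrary multiple `f'` of the conductor
`f₀ = ∏ F0 j i` (`DCOT`), without the rank of the curve. -/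
def Stmt_MSP : Prop := ∀ (h n m k : ℕ) (π : Fin m → PP) (p e : Fin m → ℕ) (r f : Fin k → ℕ)
  (w0 : ZMod 3) (c : Fin m → ZMod 3) (s : ℕ) (τ : Fin s → Fin 3) (b X Y : Fin s → ℤ)
  (P Q P' Q' : Fin s → Fin s → ℤ), NF n π p e r f → h ≤ 2 → PlS h n π w0 c τ b X Y P Q P' Q' →
  ∃ f₀ : ℕ, 0 < f₀ ∧ ∀ f' : ℕ, 0 < f' → f₀ ∣ f' →
  ∀ κ : (ZMod f')ˣ →* Multiplicative (Fin (m + 1) → ZMod 3), IsK π κ →
  ∃ (C : Fin s → Fin s → ZMod 3) (Φ : (ZMod f')ˣ →* Multiplicative (Fin s → Fin s → ZMod 3)) (N₀ : ℕ),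
    ∀ q t : ℕ, q.Prime → N₀ < q → q % 3 = 2 →
      (InCT 1 π w0 c q → t ≤ kS h n b X Y P Q P' Q' 1 q →
        q ∈ SP b P Q P' Q' t κ (Fin.cons w0 c) C Φ) ∧
      (InCT 2 π w0 c q → t ≤ kS h n b X Y P Q P' Q' 2 q →
        q ∈ SM b P Q P' Q' t κ (Fin.cons w0 c) C Φ)

/-- PTK_MSK: the primes for which `zN π e y` is the class of a point are in `SPK`, `SMK`.
Proof. This is the main part of `CTK_thm` (PTK/CTK.lean): `DCK` for every `j`, `ZS`, `PT`. -/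
def Stmt_MSK : Prop := ∀ (h n m k : ℕ) (π : Fin m → PP) (p e : Fin m → ℕ) (r f : Fin k → ℕ)
  (w0 : ZMod 3) (c : Fin m → ZMod 3), NF n π p e r f → h ≤ 2 →
  ∀ y ∈ VS h n π p e r w0 c, ∀ (s : ℕ) (u : Fin s → Fin (m + 1) → ZMod 3) (P Q P' Q' : Fin s → Eis),
  (∀ j, u j ∈ V0 h n π p e r w0 c) → SysK (zN π e y) (fun j => zN π e (u j)) P Q P' Q' →
  (∀ j, HypD (3 ^ h * n) (zN π e (u j)) (zN π e y) (P j) (Q j) (P' j) (Q' j)) →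
  ∃ f₀ : ℕ, 0 < f₀ ∧ ∀ f' : ℕ, 0 < f' → f₀ ∣ f' →
  ∀ κ : (ZMod f')ˣ →* Multiplicative (Fin (m + 1) → ZMod 3), IsK π κ →
  ∃ (C : Fin s → ZMod 3) (Φ : (ZMod f')ˣ →* Multiplicative (Fin s → ZMod 3)) (N₀ : ℕ),
    ∀ q : ℕ, q.Prime → N₀ < q →
      (q ∈ QY h n π e w0 c y 1 →
        q ∈ SPK (zN π e y) (fun j => zN π e (u j)) P Q P' Q' κ (Fin.cons w0 c) C Φ) ∧
      (q ∈ QY h n π e w0 c y 2 →
        q ∈ SMK (zN π e y) (fun j => zN π e (u j)) P Q P' Q' κ (Fin.cons w0 c) C Φ)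

/-- PTK_CTJ: the joint density.
Proof. `SYK` for `y`, `u`; `MSP`, `MSK`, common conductor `f' = 9 (∏ p i) f₀ f₀'`, `κ` from `CLSC`, `BDJ`, `CL.sm_le_add`
(`{q ∈ QY .. 1, t ≤ kS 1 q} ⊆ SP ∩ SPK` for large `q`). -/
def Stmt_CTJ : Prop := ∀ (h n m k : ℕ) (π : Fin m → PP) (p e : Fin m → ℕ) (r f : Fin k → ℕ)
  (w0 : ZMod 3) (c : Fin m → ZMod 3) (s : ℕ) (τ : Fin s → Fin 3) (b X Y : Fin s → ℤ)
  (P Q P' Q' : Fin s → Fin s → ℤ), NF n π p e r f → h ≤ 2 → PlS h n π w0 c τ b X Y P Q P' Q' →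
  ∀ y ∈ VS h n π p e r w0 c, ∀ (l : ℕ) (u : Fin l → Fin (m + 1) → ZMod 3),
  (∀ j, u j ∈ V0 h n π p e r w0 c) →
  LinearIndependent (ZMod 3) (Fin.cons y u : Fin (l + 1) → Fin (m + 1) → ZMod 3) →
  ∀ t : ℕ, ∃ K : ℝ, ∀ σ : ℝ, 1 < σ → σ ≤ 2 →
    BDENS.sm {q | q ∈ QY h n π e w0 c y 1 ∧ t ≤ kS h n b X Y P Q P' Q' 1 q} σ +
      BDENS.sm {q | q ∈ QY h n π e w0 c y 2 ∧ t ≤ kS h n b X Y P Q P' Q' 2 q} σ ≤
      1 / 3 ^ l / 3 ^ (m + 1) * LI s t * Real.log (1 / (σ - 1)) + K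

/-- PTK_CT0: the density of the corank. Proof: `MSP`, `CLSC`, `BDG` (as in `CLN_thm`). -/
def Stmt_CT0 : Prop := ∀ (h n m k : ℕ) (π : Fin m → PP) (p e : Fin m → ℕ) (r f : Fin k → ℕ)
  (w0 : ZMod 3) (c : Fin m → ZMod 3) (s : ℕ) (τ : Fin s → Fin 3) (b X Y : Fin s → ℤ)
  (P Q P' Q' : Fin s → Fin s → ℤ), NF n π p e r f → h ≤ 2 → PlS h n π w0 c τ b X Y P Q P' Q' →
  ∀ t : ℕ, ∃ K : ℝ, ∀ σ : ℝ, 1 < σ → σ ≤ 2 →
    BDENS.sm {q | (q % 3 = 2 ∧ InCT 1 π w0 c q) ∧ t ≤ kS h n b X Y P Q P' Q' 1 q} σ +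
      BDENS.sm {q | (q % 3 = 2 ∧ InCT 2 π w0 c q) ∧ t ≤ kS h n b X Y P Q P' Q' 2 q} σ ≤
      1 / 3 ^ (m + 1) * LI s t * Real.log (1 / (σ - 1)) + K

/-- bounds for the average of the rank in a class, `q = 2 (mod 3)` -/
noncomputable def aQ (d : ℕ) : ℝ := if d = 0 then 9 / 4 else if d = 1 then 31 / 12 else 13 / 4

/-- bounds for the average of the rank in a class, `q = 1 (mod 3)` -/
noncomputable def cQ (d : ℕ) : ℝ := if d = 0 then 43 / 18 else if d = 1 then 49 / 18 else 61 / 18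

/-- PTK_AV2: the averages in a class, `q = 2 (mod 3)`.
Proof. System from `PLE`; `S E = {q | q % 3 = 2 ∧ InCT E π w0 c q}`, `κ = kS`. `CT0`, `KUP` with `x = 1 / 3^(m+1)`: `UpS S (3^κ) (4 x)`,
`UpS S κ (13/12 x)` (`LAM`), `UpS S 1 x`. `CTJ`, `KUP` with `x / 3^l` (the set `{q ∈ S E, Occ ..}` is `QY .. E`): hypotheses of `WSUM` for
`G = 3^κ`, `x₀ = 4 x` and `G = 1`, `x₀ = x`. So `UpS S (card WqS · 3^κ) (4 (3 + 3^d) x)`, `UpS S (card WqS) ((3 + 3^d) x)`. For large `q`: `NBW`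
(fields of `PlS`) and `WGR`: `rr B ≤ w + κ`, `w = Nat.log 3 (card WqS)`, `card WqS = 3^w` (`CubeRank.rr_le`). So
`3^(rr B) ≤ card WqS · 3^κ`, and `rr B ≤ 1/2 + card WqS / 6 + κ` (`d ≤ 1`), `rr B ≤ 3/2 + card WqS / 18 + κ` (`d = 2`), see `AVR_thm`.
`1/2 + 4/6 + 13/12 = 9/4`, `1/2 + 1 + 13/12 = 31/12`, `3/2 + 12/18 + 13/12 = 13/4`. `UPS`, `UPA`. -/
def Stmt_AV2 : Prop := ∀ (h n m k : ℕ) (π : Fin m → PP) (p e : Fin m → ℕ) (r f : Fin k → ℕ)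
  (w0 : ZMod 3) (c : Fin m → ZMod 3), NF n π p e r f → h ≤ 2 →
  AboveA ((3 ^ h * n : ℕ) : ℤ) 2 (Kl π w0 c) (fun A => (CubeRank.rr A : ℝ))
    (aQ (dN h n w0) / 3 ^ (m + 1)) ∧
  AboveA ((3 ^ h * n : ℕ) : ℤ) 2 (Kl π w0 c) (fun A => 3 ^ CubeRank.rr A)
    (4 * (3 + 3 ^ dN h n w0) / 3 ^ (m + 1))

/-! ### `q = 1 (mod 3)`: the classes and the bounds -/

/-- PTK_ZSU: the classes of `VS` are in the minus part of the Selmer group, `q = 1 (mod 3)`.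
Proof. As `ZS_thm` (PTK/ZS.lean). At `π i`, `conj (π i)`, `r j` and the places prime to `3 n q` the same computation (`NPSU.dat` for the data of `B`).
At `ρ`, `conj ρ`: `tm (conj ρ) z B = tm ρ z B` (`SCJ`, `conj z = t³ / z`, `B` rational), so the product formula for `(z, B)` and `sl z B = 0` give
`2 tm ρ z B = 0`. -/
def Stmt_ZSU : Prop := ∀ (h n m k : ℕ) (π : Fin m → PP) (p e : Fin m → ℕ) (r f : Fin k → ℕ)
  (w0 : ZMod 3) (c : Fin m → ZMod 3) (E q : ℕ), NF n π p e r f → h ≤ 2 →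
  (E = 1 ∨ E = 2) → q.Prime → q % 3 = 1 → InCT E π w0 c q → ¬ q ∣ n →
  ∀ y ∈ VS h n π p e r w0 c, SelM (BB h n E q) (zN π e y)

/-- PTK_WGU: the classes of the rational points, `q = 1 (mod 3)`.
Proof. First part: as `WGR_thm` (`S1G`, `ZA`; the group `WqS` does not depend on the type of `q`). Second part: for `z` with `S1 B z` (so `SelM B z`,
`NKIN`) put `t z = V ρ z` in `ZMod 3`. (a) If `S1 B z`, `S1 B z'`, `t z = t z'` then there is `y ∈ WqS` with `z g³ = zN y z' g'³`: by `S1G` there is `z''`,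
`S1 B z''`, `z'' z' g³ = z g'³`, so `t z'' = 0`; the pair of `z''` (`NPSU.mem_YY` in PTN/NPSU.lean) is `(y, 0)` with `y ∈ VS` (`NPSU.fst_mem`), `zN π e y` is in
`SelM` (`ZSU`) with the same pair (`ZA`, `ρ ∤ n`), and `NPSU.cube` (see the end of `NPSU_thm`) gives `z'' g³ = zN y g'³`; so `y ∈ WqS`. (b) If there is an
admissible `x` with `sym ρ x ≠ 0` then `t z = 0` for all `z` (`NPSU.snd_zero`, see `NPSU_thm`). Choose for every value `t` of `t z` a `z_t` with `S1 B z_t`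
(`z_0 = 1`), and put `Y z = (y, t z)` with `y` from (a) for `z`, `z_{t z}`: `W = WqS × ZMod 3`, resp. `W = WqS` in the case (b). -/
def Stmt_WGU : Prop := ∀ (h n m k : ℕ) (π : Fin m → PP) (p e : Fin m → ℕ) (r f : Fin k → ℕ)
  (w0 : ZMod 3) (c : Fin m → ZMod 3) (E q : ℕ) (ρ : PP), NF n π p e r f → h ≤ 2 →
  (E = 1 ∨ E = 2) → q.Prime → 3 < q → q % 3 = 1 → InCT E π w0 c q → ¬ q ∣ n →
  (q : Eis) = ρ.1 * conj ρ.1 →
  (∃ d : ℕ, Nat.card (WqS h n π p e r w0 c (BB h n E q)) = 3 ^ d) ∧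
  ∃ (W : Type) (_ : Finite W) (Y : Eis → W),
    (Nat.card W ≤ 3 * Nat.card (WqS h n π p e r w0 c (BB h n E q))) ∧
    ((∃ x : ℤ, AdN h n π w0 c x ∧ sym ρ.1 (x : Eis) ≠ 0) →
      Nat.card W ≤ Nat.card (WqS h n π p e r w0 c (BB h n E q))) ∧
    ∀ z z' : Eis, S1 (BB h n E q) z → S1 (BB h n E q) z' → Y z = Y z' →
      ∃ g g' : Eis, g ≠ 0 ∧ g' ≠ 0 ∧ z * g ^ 3 = z' * g' ^ 3

/-- a system for the plus part, `q = 1 (mod 3)`, pattern `δ` -/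
structure PlU (h n : ℕ) {m : ℕ} (π : Fin m → PP) (w0 : ZMod 3) (c : Fin m → ZMod 3) {d : ℕ}
    (v : Fin d → ℤ) (δ : Fin d → ZMod 3) {s : ℕ} (τ : Fin s → Fin 3) (b : Fin (s + 1) → ℤ)
    (X Y : Fin s → ℤ) (P Q P' Q' : Fin (s + 1) → Fin (s + 1) → ℤ) : Prop where
  dim : s + 1 = d
  adm : ∀ i, AdN h n π w0 c (b i)
  sys : SysG b P Q P' Q'
  sw : SwS P Q P' Q'
  lam : ∀ B : ℤ, TyB h n w0 B → LamS B τ (rv b) X Y
  pat : ∀ ρ : PP, ¬ ρ.1 ∣ (n : Eis) →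
    (((∀ i : Fin s, sym ρ.1 (b i.castSucc : Eis) = 0) ∧
      sym ρ.1 (b (Fin.last s) : Eis) ≠ 0) ↔
      ∃ ε : ZMod 3, ε ≠ 0 ∧ ∀ i, sym ρ.1 (v i : Eis) = ε * δ i) ∧
    ((∀ i : Fin s, sym ρ.1 (b i.castSucc : Eis) = 0) →
      sym ρ.1 (b (Fin.last s) : Eis) ≠ 0 →
      ∀ x : ℤ, AdN h n π w0 c x → sym ρ.1 (x : Eis) = 0 → ∃ (g : Fin s → ℕ) (u t : ℤ),
        u ≠ 0 ∧ t ≠ 0 ∧ x * u ^ 3 = (∏ i, b i.castSucc ^ g i) * t ^ 3)

/-- the corank of the matrix of the plus part, `q = 1 (mod 3)` -/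
noncomputable def kU (h n : ℕ) {s : ℕ} (b : Fin (s + 1) → ℤ) (X Y : Fin s → ℤ)
    (P Q P' Q' : Fin (s + 1) → Fin (s + 1) → ℤ) (E q : ℕ) : ℕ :=
  s - (MaT (rv b) X Y (rs P) (rs Q) (rs P') (rs Q') (BB h n E q)).rank

/-- PTK_PLU: existence of the systems. Proof: `HB`, `ESYT` (as at the beginning of `DLU_thm`, PTN/DLU.lean). -/
def Stmt_PLU : Prop := ∀ (h n m k : ℕ) (π : Fin m → PP) (p e : Fin m → ℕ) (r f : Fin k → ℕ)
  (w0 : ZMod 3) (c : Fin m → ZMod 3) (d : ℕ) (v : Fin d → ℤ), NF n π p e r f → h ≤ 2 →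
  HB h n π w0 c v → ∀ δ : Fin d → ZMod 3, δ ≠ 0 →
  ∃ (s : ℕ) (τ : Fin s → Fin 3) (b : Fin (s + 1) → ℤ) (X Y : Fin s → ℤ)
    (P Q P' Q' : Fin (s + 1) → Fin (s + 1) → ℤ), PlU h n π w0 c v δ τ b X Y P Q P' Q'

/-- PTK_NBU: the bound for the rank, `q = 1 (mod 3)`, generic pattern.
Proof. As `NBKU_thm` (PTN/NBKU.lean) with `WGU` in place of `NPSU` (second bound for `Nat.card W`: `b (Fin.last s)` is admissible with `sym ρ ≠ 0`, by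
`pat` for the `ρ` of `Pat v δ`; `ρ ∤ n`). `Nat.card WqS = 3^w`, `w = Nat.log 3 ..`. -/
def Stmt_NBU : Prop := ∀ (h n m k : ℕ) (π : Fin m → PP) (p e : Fin m → ℕ) (r f : Fin k → ℕ)
  (w0 : ZMod 3) (c : Fin m → ZMod 3) (d : ℕ) (v : Fin d → ℤ) (δ : Fin d → ZMod 3)
  (s : ℕ) (τ : Fin s → Fin 3) (b : Fin (s + 1) → ℤ) (X Y : Fin s → ℤ)
  (P Q P' Q' : Fin (s + 1) → Fin (s + 1) → ℤ) (E q : ℕ), NF n π p e r f → h ≤ 2 → δ ≠ 0 →
  PlU h n π w0 c v δ τ b X Y P Q P' Q' →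
  (E = 1 ∨ E = 2) → q.Prime → 3 < q → q % 3 = 1 → InCT E π w0 c q → ¬ q ∣ n → q ∈ Pat v δ →
  CubeRank.GenBy (BB h n E q) (Nat.log 3 (Nat.card (WqS h n π p e r w0 c (BB h n E q))) +
    kU h n b X Y P Q P' Q' E q)

/-- PTK_NBZ: the bound for the rank, `q = 1 (mod 3)`, without the matrix.
Proof. As `NBK0_thm` (PTN/NBK0.lean) with `WGU` in place of `NPSU` (first bound for `Nat.card W`; a `ρ` exists by `SPLT`). -/
def Stmt_NBZ : Prop := ∀ (h n m k : ℕ) (π : Fin m → PP) (p e : Fin m → ℕ) (r f : Fin k → ℕ)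
  (w0 : ZMod 3) (c : Fin m → ZMod 3) (E q : ℕ), NF n π p e r f → h ≤ 2 →
  (E = 1 ∨ E = 2) → q.Prime → 3 < q → q % 3 = 1 → InCT E π w0 c q → ¬ q ∣ n →
  CubeRank.GenBy (BB h n E q) (Nat.log 3 (Nat.card (WqS h n π p e r w0 c (BB h n E q))) + 1 +
    sN h n π p e r w0 c)

/-! ### `q = 1 (mod 3)`: densities -/

/-- the primes `q = 1 (mod 3)` such that `zN π e y` is the class of a point -/
def QYU (h n : ℕ) {m : ℕ} (π : Fin m → PP) (e : Fin m → ℕ) (w0 : ZMod 3) (c : Fin m → ZMod 3)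
    (y : Fin (m + 1) → ZMod 3) (E : ℕ) : Set ℕ :=
  {q : ℕ | q % 3 = 1 ∧ InCT E π w0 c q ∧ Occ (BB h n E q) (zN π e y)}

/-- PTK_MSPU: as `MSP`, `q = 1 (mod 3)`.
Proof. This is the part `hmat`, `hsub1`, `hsub2` of `DLU_thm` (PTN/DLU.lean) for an arbitrary multiple `f'` of the conductor `∏ f₀ j i` (`DCOU`), without
the rank of the curve. -/
def Stmt_MSPU : Prop := ∀ (h n m k : ℕ) (π : Fin m → PP) (p e : Fin m → ℕ) (r f : Fin k → ℕ)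
  (w0 : ZMod 3) (c : Fin m → ZMod 3) (d : ℕ) (v : Fin d → ℤ) (δ : Fin d → ZMod 3)
  (s : ℕ) (τ : Fin s → Fin 3) (b : Fin (s + 1) → ℤ) (X Y : Fin s → ℤ)
  (P Q P' Q' : Fin (s + 1) → Fin (s + 1) → ℤ), NF n π p e r f → h ≤ 2 → δ ≠ 0 →
  PlU h n π w0 c v δ τ b X Y P Q P' Q' →
  ∃ f₀ : ℕ, 0 < f₀ ∧ ∀ f' : ℕ, 0 < f' → f₀ ∣ f' →
  ∀ κ : (ZMod f')ˣ →* Multiplicative (Fin (m + 1) → ZMod 3), IsK π κ →
  ∃ (C : Fin s → Fin s → ZMod 3) (Φ : (ZMod f')ˣ →* Multiplicative (Fin s → Fin s → ZMod 3)) (N₀ : ℕ),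
    ∀ q t : ℕ, q.Prime → N₀ < q → q % 3 = 1 → q ∈ Pat v δ →
      (InCT 1 π w0 c q → t ≤ kU h n b X Y P Q P' Q' 1 q →
        q ∈ SPU b P Q P' Q' t κ (Fin.cons w0 c) C Φ) ∧
      (InCT 2 π w0 c q → t ≤ kU h n b X Y P Q P' Q' 2 q →
        q ∈ SMU b P Q P' Q' t κ (Fin.cons w0 c) C Φ)

/-- PTK_MSKU: as `MSK`, `q = 1 (mod 3)`.
Proof. As `MSK`, with `DCKU`, `ZSU`. For `ρ` with `q = ρ conj ρ`: `V ρ B = E`, `tm ρ z B = 0` gives `sym ρ z = 0` for the classes `z`. -/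
def Stmt_MSKU : Prop := ∀ (h n m k : ℕ) (π : Fin m → PP) (p e : Fin m → ℕ) (r f : Fin k → ℕ)
  (w0 : ZMod 3) (c : Fin m → ZMod 3), NF n π p e r f → h ≤ 2 →
  ∀ y ∈ VS h n π p e r w0 c, ∀ (s : ℕ) (u : Fin s → Fin (m + 1) → ZMod 3) (P Q P' Q' : Fin s → Eis),
  (∀ j, u j ∈ V0 h n π p e r w0 c) → SysK (zN π e y) (fun j => zN π e (u j)) P Q P' Q' →
  (∀ j, HypD (3 ^ h * n) (zN π e (u j)) (zN π e y) (P j) (Q j) (P' j) (Q' j)) →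
  ∃ f₀ : ℕ, 0 < f₀ ∧ ∀ f' : ℕ, 0 < f' → f₀ ∣ f' →
  ∀ κ : (ZMod f')ˣ →* Multiplicative (Fin (m + 1) → ZMod 3), IsK π κ →
  ∃ (C : Fin s → ZMod 3) (Φ : (ZMod f')ˣ →* Multiplicative (Fin s → ZMod 3)) (N₀ : ℕ),
    ∀ q : ℕ, q.Prime → N₀ < q →
      (q ∈ QYU h n π e w0 c y 1 →
        q ∈ SPKU (zN π e y) (fun j => zN π e (u j)) P Q P' Q' κ (Fin.cons w0 c) C Φ) ∧
      (q ∈ QYU h n π e w0 c y 2 →
        q ∈ SMKU (zN π e y) (fun j => zN π e (u j)) P Q P' Q' κ (Fin.cons w0 c) C Φ)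

/-- PTK_CTU: the joint density, `q = 1 (mod 3)`, generic pattern.
Proof. `SYK`, `MSPU`, `MSKU`, `CLSC`, `CLSCS`, `BDJU`, as `CTJ`; `2 / 3^(s + 1) = 2 / 3^d`. -/
def Stmt_CTU : Prop := ∀ (h n m k : ℕ) (π : Fin m → PP) (p e : Fin m → ℕ) (r f : Fin k → ℕ)
  (w0 : ZMod 3) (c : Fin m → ZMod 3) (d : ℕ) (v : Fin d → ℤ) (δ : Fin d → ZMod 3)
  (s : ℕ) (τ : Fin s → Fin 3) (b : Fin (s + 1) → ℤ) (X Y : Fin s → ℤ)
  (P Q P' Q' : Fin (s + 1) → Fin (s + 1) → ℤ), NF n π p e r f → h ≤ 2 → δ ≠ 0 →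
  PlU h n π w0 c v δ τ b X Y P Q P' Q' →
  ∀ y ∈ VS h n π p e r w0 c, ∀ (l : ℕ) (u : Fin l → Fin (m + 1) → ZMod 3),
  (∀ j, u j ∈ V0 h n π p e r w0 c) →
  LinearIndependent (ZMod 3) (Fin.cons y u : Fin (l + 1) → Fin (m + 1) → ZMod 3) →
  ∀ t : ℕ, ∃ K : ℝ, ∀ σ : ℝ, 1 < σ → σ ≤ 2 →
    BDENS.sm {q | (q ∈ QYU h n π e w0 c y 1 ∧ q ∈ Pat v δ) ∧
        t ≤ kU h n b X Y P Q P' Q' 1 q} σ +
      BDENS.sm {q | (q ∈ QYU h n π e w0 c y 2 ∧ q ∈ Pat v δ) ∧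
        t ≤ kU h n b X Y P Q P' Q' 2 q} σ ≤
      2 / 3 ^ d / 3 ^ l / 3 ^ (m + 1) * LI s t * Real.log (1 / (σ - 1)) + K

/-- PTK_CU0: the density of the corank, `q = 1 (mod 3)`, generic pattern. Proof: `MSPU`, `CLSC`, `CLSCS`, `BDU` (as in `DLU_thm`). -/
def Stmt_CU0 : Prop := ∀ (h n m k : ℕ) (π : Fin m → PP) (p e : Fin m → ℕ) (r f : Fin k → ℕ)
  (w0 : ZMod 3) (c : Fin m → ZMod 3) (d : ℕ) (v : Fin d → ℤ) (δ : Fin d → ZMod 3)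
  (s : ℕ) (τ : Fin s → Fin 3) (b : Fin (s + 1) → ℤ) (X Y : Fin s → ℤ)
  (P Q P' Q' : Fin (s + 1) → Fin (s + 1) → ℤ), NF n π p e r f → h ≤ 2 → δ ≠ 0 →
  PlU h n π w0 c v δ τ b X Y P Q P' Q' →
  ∀ t : ℕ, ∃ K : ℝ, ∀ σ : ℝ, 1 < σ → σ ≤ 2 →
    BDENS.sm {q | (q % 3 = 1 ∧ InCT 1 π w0 c q ∧ q ∈ Pat v δ) ∧
        t ≤ kU h n b X Y P Q P' Q' 1 q} σ +
      BDENS.sm {q | (q % 3 = 1 ∧ InCT 2 π w0 c q ∧ q ∈ Pat v δ) ∧
        t ≤ kU h n b X Y P Q P' Q' 2 q} σ ≤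
      2 / 3 ^ d / 3 ^ (m + 1) * LI s t * Real.log (1 / (σ - 1)) + K

/-- PTK_CTZ: the joint density, `q = 1 (mod 3)`, all rational classes cubes modulo `q`.
Proof. Let `b : Fin sN → ℤ` be the basis of `PLE` (a `SysG`). If `q ∈ ZP v` is large then `q ∈ ZP b` (`HB`: every `b i` is a product of the `v j` up to cubes).
`SYK`, `MSKU`, `CLSC`, `CLSCS`, `BDJZ` for `b`. -/
def Stmt_CTZ : Prop := ∀ (h n m k : ℕ) (π : Fin m → PP) (p e : Fin m → ℕ) (r f : Fin k → ℕ)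
  (w0 : ZMod 3) (c : Fin m → ZMod 3) (d : ℕ) (v : Fin d → ℤ), NF n π p e r f → h ≤ 2 →
  HB h n π w0 c v →
  ∀ y ∈ VS h n π p e r w0 c, ∀ (l : ℕ) (u : Fin l → Fin (m + 1) → ZMod 3),
  (∀ j, u j ∈ V0 h n π p e r w0 c) →
  LinearIndependent (ZMod 3) (Fin.cons y u : Fin (l + 1) → Fin (m + 1) → ZMod 3) →
  ∃ K : ℝ, ∀ σ : ℝ, 1 < σ → σ ≤ 2 →
    BDENS.sm {q | q ∈ QYU h n π e w0 c y 1 ∧ q ∈ ZP v} σ +
      BDENS.sm {q | q ∈ QYU h n π e w0 c y 2 ∧ q ∈ ZP v} σ ≤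
      1 / 3 ^ sN h n π p e r w0 c / 3 ^ l / 3 ^ (m + 1) * Real.log (1 / (σ - 1)) + K

/-- PTK_CZ0: the density of the zero pattern.
Proof. As the part on `Z_E` in `CLU_thm` (PTN/CLU.lean): `CLT` (`a = 1`) minus the lower bounds `DLL` for the nonzero patterns (`SMT` (2)). Here
`d = sN` (the `d` of `NHPT`). -/
def Stmt_CZ0 : Prop := ∀ (h n m k : ℕ) (π : Fin m → PP) (p e : Fin m → ℕ) (r f : Fin k → ℕ)
  (w0 : ZMod 3) (c : Fin m → ZMod 3) (d : ℕ) (v : Fin d → ℤ), NF n π p e r f → h ≤ 2 →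
  HB h n π w0 c v →
  ∃ K : ℝ, ∀ σ : ℝ, 1 < σ → σ ≤ 2 →
    BDENS.sm {q | q % 3 = 1 ∧ InCT 1 π w0 c q ∧ q ∈ ZP v} σ +
      BDENS.sm {q | q % 3 = 1 ∧ InCT 2 π w0 c q ∧ q ∈ ZP v} σ ≤
      1 / 3 ^ d / 3 ^ (m + 1) * Real.log (1 / (σ - 1)) + K

/-- PTK_PAT: every prime has a pattern.
Proof. If `q ∉ ZP v` there is a `ρ` with `q = ρ conj ρ` such that the vector `x = (sym ρ (v i))_i` is not `0`. Then `q ∈ Pat v x` (`ε = 1`) and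
`q ∈ Pat v (-x)` (`ε = -1`), and `x ≠ -x`. (`M = 0`.) -/
def Stmt_PAT : Prop := ∀ (d : ℕ) (v : Fin d → ℤ), (∀ i, v i ≠ 0) → ∃ M : ℕ, ∀ q : ℕ, q.Prime → M < q →
  q % 3 = 1 → q ∈ ZP v ∨ ∃ δ δ' : Fin d → ZMod 3, δ ≠ 0 ∧ δ' ≠ 0 ∧ δ ≠ δ' ∧ q ∈ Pat v δ ∧ q ∈ Pat v δ'

/-- PTK_AVG: the averages for one pattern, `q = 1 (mod 3)`.
Proof. `S E = {q | q % 3 = 1 ∧ InCT E π w0 c q ∧ q ∈ Pat v δ}`, `κ = kU`, `x = 2 / 3^d / 3^(m+1)`. `CU0`, `KUP`: `UpS S (3^κ) (4 x)`,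
`UpS S κ (Esk s id x)`, `UpS S 1 x`. `CTU`, `KUP` with `x / 3^l`: hypotheses of `WSUM` for `G = 3^κ`, `x₀ = 4 x`, and `G = 1`, `x₀ = x`. -/
def Stmt_AVG : Prop := ∀ (h n m k : ℕ) (π : Fin m → PP) (p e : Fin m → ℕ) (r f : Fin k → ℕ)
  (w0 : ZMod 3) (c : Fin m → ZMod 3) (d : ℕ) (v : Fin d → ℤ) (δ : Fin d → ZMod 3)
  (s : ℕ) (τ : Fin s → Fin 3) (b : Fin (s + 1) → ℤ) (X Y : Fin s → ℤ)
  (P Q P' Q' : Fin (s + 1) → Fin (s + 1) → ℤ), NF n π p e r f → h ≤ 2 → δ ≠ 0 →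
  PlU h n π w0 c v δ τ b X Y P Q P' Q' →
  UpS (fun E => {q | q % 3 = 1 ∧ InCT E π w0 c q ∧ q ∈ Pat v δ})
    (fun E q => (Nat.card (WqS h n π p e r w0 c (BB h n E q)) : ℝ) * 3 ^ kU h n b X Y P Q P' Q' E q)
    ((3 + 3 ^ dN h n w0) * (4 * (2 / 3 ^ d / 3 ^ (m + 1)))) ∧
  UpS (fun E => {q | q % 3 = 1 ∧ InCT E π w0 c q ∧ q ∈ Pat v δ})
    (fun E q => (Nat.card (WqS h n π p e r w0 c (BB h n E q)) : ℝ))
    ((3 + 3 ^ dN h n w0) * (2 / 3 ^ d / 3 ^ (m + 1))) ∧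
  UpS (fun E => {q | q % 3 = 1 ∧ InCT E π w0 c q ∧ q ∈ Pat v δ})
    (fun E q => (kU h n b X Y P Q P' Q' E q : ℝ))
    (Esk (d - 1) (fun c => (c : ℝ)) * (2 / 3 ^ d / 3 ^ (m + 1))) ∧
  UpS (fun E => {q | q % 3 = 1 ∧ InCT E π w0 c q ∧ q ∈ Pat v δ}) (fun _ _ => 1)
    (2 / 3 ^ d / 3 ^ (m + 1))

/-- PTK_AVZ: the averages for the zero pattern, `q = 1 (mod 3)`.
Proof. As `AVG` with `CZ0`, `CTZ` (`d = sN`) and `WSUM` for `G = 1`, `x₀ = 1 / 3^d / 3^(m+1)` (from `sm` to `UpS`: `KUP` with `R = 0`, `s = 0`,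
`LI 0 t ≤ 1`, `LI 0 0 = 1`, the set for `t ≥ 1` is empty). -/
def Stmt_AVZ : Prop := ∀ (h n m k : ℕ) (π : Fin m → PP) (p e : Fin m → ℕ) (r f : Fin k → ℕ)
  (w0 : ZMod 3) (c : Fin m → ZMod 3) (d : ℕ) (v : Fin d → ℤ), NF n π p e r f → h ≤ 2 →
  HB h n π w0 c v → d = sN h n π p e r w0 c →
  UpS (fun E => {q | q % 3 = 1 ∧ InCT E π w0 c q ∧ q ∈ ZP v})
    (fun E q => (Nat.card (WqS h n π p e r w0 c (BB h n E q)) : ℝ))
    ((3 + 3 ^ dN h n w0) * (1 / 3 ^ d / 3 ^ (m + 1))) ∧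
  UpS (fun E => {q | q % 3 = 1 ∧ InCT E π w0 c q ∧ q ∈ ZP v}) (fun _ _ => 1)
    (1 / 3 ^ d / 3 ^ (m + 1))

/-- PTK_AV1: the averages in a class, `q = 1 (mod 3)`.
Proof. `v` from `NHPT` (`d = sN`, `HB`), for every `δ ≠ 0` a system (`PLU`). `S E = {q | q % 3 = 1 ∧ InCT E π w0 c q}`. Let `N = card WqS = 3^w`. For large `q ∈ S E` (`PAT`):
if `q ∈ ZP v` then `rr B ≤ w + 1 + d` (`NBZ`), otherwise `rr B ≤ w + κ_δ` for (at least) two `δ ≠ 0` with `q ∈ Pat v δ` (`NBU`). So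
`2 · 3^(rr B) ≤ ∑_{δ ≠ 0} [q ∈ Pat v δ] N 3^(κ_δ) + [q ∈ ZP v] 2 · 3^(1 + d) N`, and `UPS` (1) with `c = 2`, `ι = Option {δ // δ ≠ 0}`:
`(1/2) ((3^d - 1) (3 + 3^D) 4 · 2 / 3^d + 2 · 3^(1 + d) (3 + 3^D) / 3^d) / 3^(m+1) ≤ 7 (3 + 3^D) / 3^(m+1)`, `D = dN`. Rank: `w ≤ 1/2 + N/6` (`D ≤ 1`) or `w ≤ 3/2 + N/18` (`D = 2`), so
`2 rr B ≤ ∑_δ [q ∈ Pat v δ] (1/2 + N/6 + κ_δ) + [q ∈ ZP v] 2 (1/2 + N/6 + 1 + d)` (the sum over `δ` has at least two terms and all are `≥ 0`); with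
`AVG`, `AVZ`: `(1 - 1/3^d)(1/2 + (3 + 3^D)/6 + Esk (d - 1) id) + (1/3^d)(1/2 + (3 + 3^D)/6 + 1 + d) ≤ 1/2 + (3 + 3^D)/6 + 11/9` (`LAM`), `= 43/18`, `49/18` for
`D = 0, 1`, and `3/2 + 12/18 + 11/9 = 61/18` for `D = 2`. `UPA`. -/
def Stmt_AV1 : Prop := ∀ (h n m k : ℕ) (π : Fin m → PP) (p e : Fin m → ℕ) (r f : Fin k → ℕ)
  (w0 : ZMod 3) (c : Fin m → ZMod 3), NF n π p e r f → h ≤ 2 →
  AboveA ((3 ^ h * n : ℕ) : ℤ) 1 (Kl π w0 c) (fun A => (CubeRank.rr A : ℝ))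
    (cQ (dN h n w0) / 3 ^ (m + 1)) ∧
  AboveA ((3 ^ h * n : ℕ) : ℤ) 1 (Kl π w0 c) (fun A => 3 ^ CubeRank.rr A)
    (7 * (3 + 3 ^ dN h n w0) / 3 ^ (m + 1))

/-! ### The theorem -/

/-- PTK_AVF: the averages over all `A`.
Proof. As `AVA_thm` (PTK/AVA.lean): `SUMA`, `AV2`, `AV1`. `h = 1`: `dN = 0`; `h = 2`: `dN = 1`; `h = 0`: one of the three `w0` has `dN = 2`, the others `dN = 1`.
`(2 · 31/12 + 13/4)/3 = 101/36`, `(2 · 49/18 + 61/18)/3 = 53/18`, `4 (6 + 6 + 12)/3 = 32`, `7 · 8 = 56`. -/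
def Stmt_AVF : Prop := ∀ (h n m k : ℕ) (π : Fin m → PP) (p e : Fin m → ℕ) (r f : Fin k → ℕ),
  NF n π p e r f → h ≤ 2 →
  AboveA ((3 ^ h * n : ℕ) : ℤ) 2 (fun _ => True) (fun A => (CubeRank.rr A : ℝ)) (101 / 36) ∧
  AboveA ((3 ^ h * n : ℕ) : ℤ) 2 (fun _ => True) (fun A => 3 ^ CubeRank.rr A) 32 ∧
  AboveA ((3 ^ h * n : ℕ) : ℤ) 1 (fun _ => True) (fun A => (CubeRank.rr A : ℝ)) (53 / 18) ∧
  AboveA ((3 ^ h * n : ℕ) : ℤ) 1 (fun _ => True) (fun A => 3 ^ CubeRank.rr A) 56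

/-- PTK_MAJ: the theorem.
Proof. As `MAI_thm` (PTK/MAI.lean): `NFE`, `AVF`, `AV2`, `AV1`, `TRU`; `aQ ≤ 13/4`, `cQ ≤ 61/18`, `dN ≤ 2`. -/
def Stmt_MAJ : Prop := ∀ N : ℕ, 0 < N → (∀ p : ℕ, p.Prime → ¬ p ^ 3 ∣ N) →
  ∀ m : ℕ, m = (N.primeFactors.filter (fun p => p % 3 = 1)).card →
  AboveA N 2 (fun _ => True) (fun A => (CubeRank.rr A : ℝ)) (101 / 36) ∧
  AboveA N 2 (fun _ => True) (fun A => 3 ^ CubeRank.rr A) 32 ∧
  AboveA N 1 (fun _ => True) (fun A => (CubeRank.rr A : ℝ)) (53 / 18) ∧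
  AboveA N 1 (fun _ => True) (fun A => 3 ^ CubeRank.rr A) 56 ∧
  ∀ u : (ZMod (9 * N))ˣ,
    AboveA N 2 (fun y => ∃ x : ℤ, ((9 * N : ℕ) : ℤ) ∣ y - ((u : ZMod (9 * N)).val : ℤ) * x ^ 3)
      (fun A => (CubeRank.rr A : ℝ)) (13 / 4 / 3 ^ (m + 1)) ∧
    AboveA N 2 (fun y => ∃ x : ℤ, ((9 * N : ℕ) : ℤ) ∣ y - ((u : ZMod (9 * N)).val : ℤ) * x ^ 3)
      (fun A => 3 ^ CubeRank.rr A) (48 / 3 ^ (m + 1)) ∧
    AboveA N 1 (fun y => ∃ x : ℤ, ((9 * N : ℕ) : ℤ) ∣ y - ((u : ZMod (9 * N)).val : ℤ) * x ^ 3)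
      (fun A => (CubeRank.rr A : ℝ)) (61 / 18 / 3 ^ (m + 1)) ∧
    AboveA N 1 (fun y => ∃ x : ℤ, ((9 * N : ℕ) : ℤ) ∣ y - ((u : ZMod (9 * N)).val : ℤ) * x ^ 3)
      (fun A => 3 ^ CubeRank.rr A) (84 / 3 ^ (m + 1))

end Pool.Agent.PTK


end

section

/-!
# All moments of `3^r` for prime twists: local part, pairs of classes, the joint governing field

Stage 3 of the project PTK. Everything of `StL`, `StN`, `StG`, `StC`, `StJ`, `StK` (stages 1, 2; all proved: `X_thm` in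
`PTK/X.lean`) and of `PT`, `PTE`, `PT3`, `PTL`, `PTN` may be imported or taken as a hypothesis.

A test configuration has classes `z : Fin M → Eis` and `N` pairs `(α r, β r)`, `α r < β r`: base class `z (α r)`, norm
`z (β r)`. (Stages 1, 2: one base class `x` and norms `u j`.)
-/

set_option autoImplicit false

open NumberField IsDedekindDomain Finset
open scoped nonZeroDivisors Pointwise

namespace Pool.Agent.PTK

open Pool.Agent.Lib_helper18 Pool.Agent.Lib_helper18.Eis Pool.Agent.Lib_helper84.Cub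
open Pool.Agent.PT Pool.Agent.PTE Pool.Agent.PT3 Pool.Agent.PTL Pool.Agent.PTN

/-! ### The local term at `λ` when `x` is a local cube and `b` is not -/

/-- PTK_LRR: the class of a point of the isogenous curve at `3` (checked numerically).
Proof. Divide by the common power of `3`: `R i = 3^μ A i`; `lv (∏ R) = lv (∏ A)`, `lw (R i) = lw (A i)`. The sum of the `A i` is `0`, so at most
one `A i` is divisible by `3`. (i) All `A i` are prime to `3`: they are congruent modulo `3`, `A i = ε (1 + 3 t i)` with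
`∑ t i = -1 (mod 3)` (`∑ A i = 0` modulo `9`), so `lw (∏ A) = ∑ wt (A i²) ≠ 0` (`A i² = 1 + 6 t i` modulo `9`, `wt` is additive and injective on
the classes `1, 4, 7` modulo `9`), and `lv B = 0`, `lw B ≠ 0`, `lv (R 1) = lv (R 2)`: `κ = (lw (R 1) - lw (R 2)) / lw B`. (ii) `A i` is
divisible by exactly `3^v`, `v ≥ 1`; `lv B = v` modulo `3`, and `lv B ≠ 1`, so `v ≥ 2`; the other two satisfy `A j = - A k` modulo `9`,
`lw (A j) = lw (A k)`, and `lw (A i) + 2 lw (A k) = lw B`, so `lw (A i) - lw (A k) = lw B`, `lv (A i) - lv (A k) = lv B`: `κ = 0, 1, -1`. -/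
def Stmt_LRR : Prop := ∀ (R : Fin 3 → ℤ) (B : ℤ), (∀ i, R i ≠ 0) → B ≠ 0 → R 0 + R 1 + R 2 = 0 →
  lv (R 0 * R 1 * R 2) = lv B → lw (R 0 * R 1 * R 2) = lw B → lv B ≠ 1 →
  ∃ κ : ZMod 3, lv (R 1) - lv (R 2) = κ * lv B ∧ lw (R 1) - lw (R 2) = κ * lw B

/-- the linear forms of the point `(X, Y)` have the same symbol with the test classes, at `λ` -/
def GoodPt (B : ℤ) (x X Y : Eis) : Prop := ∀ b : Eis, b ≠ 0 → ¬ lam ∣ b →
  (∃ t : Eis, b * conj b = t ^ 3) → sl b (B : Eis) = 0 →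
  ∃ N0 : ℕ, ∀ ξ : Eis, lam ^ N0 ∣ ξ ^ 3 - x → sl (LfE X Y 1 ξ) b = sl (LfE X Y 2 ξ) b

/-- PTK_PTX: as `PT`, with the property `GoodPt` (checked numerically).
Proof. Hypotheses: `Stmt_LRR`, `SSL`, `SLC`, `SCJ`, `LCL`. The point of `PT_thm` (PTK/PT.lean): `ζ g³ = x g'³`, `a₀ = x₀ + y₀`,
`a₂ = w² (x₀ + w² y₀)`, `a₁ = conj a₂`, `ζ = a₁ a₂²`, `a₀ + a₁ + a₂ = 0`, `a₀ a₁ a₂ = B z₀³`, `X = g'² g a₂`, `Y = g'³`. Let
`λ ^ N0 ∣ ξ³ - x`, `N0` large; `γ = g a₂`, `η = g' ξ`: `F_i = X + w^i Y ξ = g'² (γ + w^i η)`, `η³ = ζ g³` (modulo a high power of `λ`). (1) The rational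
integers `ν = γ conj γ` and `η conj η` have (approximately) the same cube (`ζ conj ζ = (a₁ a₂)³`), so `η conj η = ν` modulo a high power of `3`
(a quotient of rational integers with cube `≈ 1` is `≈ 1`). (2) `ρ_i = w^i (γ + w^i η) conj (γ + η) = R_i + w^(2i) (η conj η - ν)` with the
rational integers `R_i = Tr(w^i) ν + Tr(w^i γ conj η)` (`Tr z = z + conj z`), `R 0 + R 1 + R 2 = 0`; `R_i ≠ 0` and `ρ_i / R_i ≈ 1`, because the product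
`∏ (γ + w^i η) = γ³ + η³ ≈ - g³ a₂² a₀ ≠ 0` bounds the valuations of the `γ + w^i η`. (3) `R 0 R 1 R 2 η³ ≈ B (- g² z₀ a₂ conj (γ + η))³` (as
`(γ³ + η³) η³ ≈ - g³ a₂² a₀ · ζ g³ = - g⁶ B z₀³ a₂³`); so the rational integers `R 0 R 1 R 2` and `B` have the same `lv` (valuations modulo `3`) and
the same `lw` (`sl w n = - lw n` for integers: `HYPT.sl_int`, `HYPT.lw_four`; `sl w (R 0 R 1 R 2) = sl w B` by continuity `SLC`). (4) `LRR`: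
`sl b (R 1) - sl b (R 2) = κ (lv B sl b 3 - lw B sl b 4) = κ sl b B = 0` (`HYPT.sl_int`). (5) `sl F_1 b - sl F_2 b = sl (w⁻¹ ρ_1) b - sl (w⁻² ρ_2) b
= sl (R 1) b - sl (R 2) b + sl w b = sl w b`, and `sl w b = 0`: `SCJ`: `sl (conj w) (conj b) = - sl w b`, while `conj w = w²`, `conj b = t³ / b` give
`sl (conj w) (conj b) = - 2 sl w b = sl w b`. -/
def Stmt_PTX : Prop := ∀ (B : ℤ) (x : Eis), B ≠ 0 → lv B ≠ 1 → x ≠ 0 → (¬ ∃ t : Eis, t ^ 3 = x) →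
  Occ B x → ∃ X Y : Eis, PtE (B : Eis) x X Y ∧ GoodPt B x X Y

/-- The hypotheses `HypD` without the condition that `b` is a local cube at `λ`; here `x` is one. -/
structure HypX (N : ℕ) (b x p q p' q' : Eis) : Prop where
  N0 : 0 < N
  sol : SolE x b p q p' q'
  hb : b ≠ 0
  hx : x ≠ 0
  lx : LCE lam x
  nb : ¬ lam ∣ b
  cb : ∃ t : Eis, b * conj b = t ^ 3
  unr : ∀ π : PP, ¬ π.1 ∣ (N : Eis) → ¬ π.1 ∣ b ∧ ¬ π.1 ∣ x
  cf : ∀ π : PP, V π.1 (N : Eis) ≤ 2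

/-- PTK_DX1: copy of `DP1` for `HypX` (the proof of `DP1_thm` in PTK/DP1.lean does not use `HypD.lc`). -/
def Stmt_DX1 : Prop := ∀ (N : ℕ) (b x p q p' q' : Eis), HypX N b x p q p' q' →
  ∀ (π : PP) (f : ℕ), 1 < f → π.1 ∣ (f : Eis) →
    ∃ (C : ZMod 3) (Φ : (ZMod f)ˣ →* Multiplicative (ZMod 3)),
    ∀ (E Q : ℕ) (hQ : Q.Coprime f) (X Y : Eis), HypP N b x p q p' q' E Q X Y →
      SVE (tm π.1) x p (-p') (-q) q' X Y = C + E * (Φ (ZMod.unitOfCoprime Q hQ)).toAdd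

/-- PTK_DX2: the local term at `λ`.
Proof. `IF4` for `s = sl`, `e = 4` (`SLC`) and `SolE b x p (-p') (-q) q'` (as in `DP1_thm`, part (a), `π = λ`): for all good `ξ`
(`λ ^ N0 ∣ ξ³ - x`; they exist by `HypX.lx`), `B = N Q^E`, `n₀ = X³ + x Y³`: `SVE = ASE sl n₀ p q p' q' ξ + sl F_1 b - sl F_2 b`, and
`sl F_1 b = sl F_2 b` by `GoodPt` (`sl b B = 0`: product formula `SSL` for `(b, B)`, `HypP.sb`). `sl n₀ a = sl B a` for `a ≠ 0` (`x n₀ = B c³`, `x` is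
a local cube, `Stmt_LCI`, third part). So `ASE sl B p q p' q' ξ` is the same number for all good `ξ`; fix `ξ₀` as in `DP1` / `DP2`:
`ASE sl B ξ₀ = ASE sl N ξ₀ + E ASE sl Q ξ₀`, and `sl Q a` depends only on `Q` modulo `9` (`SLC`). -/
def Stmt_DX2 : Prop := ∀ (N : ℕ) (b x p q p' q' : Eis), HypX N b x p q p' q' →
  ∀ f : ℕ, 1 < f → 9 ∣ f → ∃ (C : ZMod 3) (Φ : (ZMod f)ˣ →* Multiplicative (ZMod 3)),
    ∀ (E Q : ℕ) (hQ : Q.Coprime f) (X Y : Eis), HypP N b x p q p' q' E Q X Y →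
      GoodPt ((N : ℤ) * (Q : ℤ) ^ E) x X Y →
      SVE sl x p (-p') (-q) q' X Y = C + E * (Φ (ZMod.unitOfCoprime Q hQ)).toAdd

/-- PTK_DX3: copy of `DP3` for `HypX`. -/
def Stmt_DX3 : Prop := ∀ (N : ℕ) (b x p q p' q' : Eis), HypX N b x p q p' q' →
  ∀ (π : PP) (E Q : ℕ) (X Y : Eis), HypP N b x p q p' q' E Q X Y →
    ¬ π.1 ∣ (N : Eis) → ¬ π.1 ∣ (Q : Eis) →
    ¬ π.1 ∣ (p ^ 3 + x * q ^ 3) * (p' ^ 3 + x * q' ^ 3) →
    SVE (tm π.1) x p (-p') (-q) q' X Y = 0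

/-- PTK_DX4: copy of `DP4` and `DP4U` for `HypX`. -/
def Stmt_DX4 : Prop := ∀ (N : ℕ) (b x p q p' q' : Eis), HypX N b x p q p' q' →
  ∀ (π : PP) (E Q : ℕ) (X Y ξ : Eis), HypP N b x p q p' q' E Q X Y → ¬ π.1 ∣ (N : Eis) →
    ¬ π.1 ∣ (p ^ 3 + x * q ^ 3) * (p' ^ 3 + x * q' ^ 3) →
    (Q % 3 = 2 → π.1 = (Q : Eis) → (Q : Eis) ∣ ξ ^ 3 - x →
      SVE (tm π.1) x p (-p') (-q) q' X Y = - (E * TAUE Q p q p' q' ξ)) ∧
    (Q % 3 = 1 → π.1 ∣ (Q : Eis) → π.1 ∣ ξ ^ 3 - x →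
      SVE (tm π.1) x p (-p') (-q) q' X Y = - (E * TAUP π.1 p q p' q' ξ))

/-- PTK_DXK: the relation, `Q = 2 (mod 3)`. As `DCK_thm` with `DX1`, …, `DX4`. -/
def Stmt_DXK : Prop := ∀ (N : ℕ) (b x p q p' q' : Eis), HypX N b x p q p' q' →
  ∃ f₀ : ℕ, 0 < f₀ ∧ ∀ f : ℕ, 0 < f → f₀ ∣ f →
  ∃ (C : ZMod 3) (Φ : (ZMod f)ˣ →* Multiplicative (ZMod 3)) (N₀ : ℕ),
    ∀ (E Q : ℕ) (hQ : Q.Coprime f), (E = 1 ∨ E = 2) → Q.Prime → N₀ < Q → Q % 3 = 2 →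
      (∀ σ : PP, tm σ.1 b ((N : Eis) * (Q : Eis) ^ E) = 0) →
      (∀ σ : PP, tm σ.1 x ((N : Eis) * (Q : Eis) ^ E) = 0) →
      ∀ X Y ξ : Eis, PtE ((N : Eis) * (Q : Eis) ^ E) x X Y →
        GoodPt ((N : ℤ) * (Q : ℤ) ^ E) x X Y → (Q : Eis) ∣ ξ ^ 3 - x →
        C + E * ((Φ (ZMod.unitOfCoprime Q hQ)).toAdd - TAUE Q p q p' q' ξ) = 0

/-- PTK_DXL: the relation, `Q = 1 (mod 3)`. As `DCKU_thm` with `DX1`, …, `DX4`. -/
def Stmt_DXL : Prop := ∀ (N : ℕ) (b x p q p' q' : Eis), HypX N b x p q p' q' →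
  ∃ f₀ : ℕ, 0 < f₀ ∧ ∀ f : ℕ, 0 < f → f₀ ∣ f →
  ∃ (C : ZMod 3) (Φ : (ZMod f)ˣ →* Multiplicative (ZMod 3)) (N₀ : ℕ),
    ∀ (E Q : ℕ) (hQ : Q.Coprime f) (ρ : PP), (E = 1 ∨ E = 2) → Q.Prime → N₀ < Q → Q % 3 = 1 →
      (Q : Eis) = ρ.1 * conj ρ.1 →
      (∀ σ : PP, tm σ.1 b ((N : Eis) * (Q : Eis) ^ E) = 0) →
      (∀ σ : PP, tm σ.1 x ((N : Eis) * (Q : Eis) ^ E) = 0) →
      ∀ X Y ξ ξ' : Eis, PtE ((N : Eis) * (Q : Eis) ^ E) x X Y →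
        GoodPt ((N : ℤ) * (Q : ℤ) ^ E) x X Y → ρ.1 ∣ ξ ^ 3 - x → conj ρ.1 ∣ ξ' ^ 3 - x →
        C + E * ((Φ (ZMod.unitOfCoprime Q hQ)).toAdd - TAUP ρ.1 p q p' q' ξ -
          TAUP (conj ρ.1) p q p' q' ξ') = 0

/-! ### Systems with several base classes -/

/-- Classes `z i`, pairs `(α r, β r)` with base class `z (α r)` and norm `z (β r)`. -/
structure SysZ {M N : ℕ} (z : Fin M → Eis) (α β : Fin N → Fin M) (P Q P' Q' : Fin N → Eis) :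
    Prop where
  ind : ∀ c : Fin M → ℕ, (∃ i, ¬ 3 ∣ c i) → ¬ ∃ t : Eis, t ^ 3 = ∏ i, z i ^ c i
  cz : ∀ i, ∃ t : Eis, z i * conj (z i) = t ^ 3
  lt : ∀ r, α r < β r
  inj : ∀ r r', α r = α r' → β r = β r' → r = r'
  sol : ∀ r, SolE (z (α r)) (z (β r)) (P r) (Q r) (P' r) (Q' r)

/-- one pair of a system is a system of stage 1 -/
theorem SysZ.one {M N : ℕ} {z : Fin M → Eis} {α β : Fin N → Fin M} {P Q P' Q' : Fin N → Eis}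
    (hS : SysZ z α β P Q P' Q') (r : Fin N) :
    SysK (z (α r)) (fun _ : Fin 1 => z (β r)) (fun _ => P r) (fun _ => Q r) (fun _ => P' r)
      (fun _ => Q' r) := by
  refine ⟨fun c₀ c h hc => ?_, fun _ => hS.sol r, hS.cz _, fun _ => hS.cz _⟩
  have hne : α r ≠ β r := ne_of_lt (hS.lt r)
  refine hS.ind (Function.update (Function.update 0 (α r) c₀) (β r) (c 0)) ?_ ?_
  · rcases h with h | ⟨i, h⟩
    · exact ⟨α r, by rwa [Function.update_of_ne hne, Function.update_self]⟩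
    · exact ⟨β r, by rwa [Function.update_self, Subsingleton.elim 0 i]⟩
  · obtain ⟨t, ht⟩ := hc
    refine ⟨t, ht.trans ?_⟩
    have e1 : ∏ i : Fin 1, z (β r) ^ c i = z (β r) ^ c 0 := Fin.prod_univ_one _
    have e2 : ∏ i ∈ (Finset.univ.erase (α r)).erase (β r),
        z i ^ (Function.update (Function.update 0 (α r) c₀) (β r) (c 0) : Fin M → ℕ) i = 1 := by
      refine Finset.prod_eq_one fun i hi => ?_
      rw [Finset.mem_erase, Finset.mem_erase] at hi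
      rw [Function.update_of_ne hi.1, Function.update_of_ne hi.2.1, Pi.zero_apply, pow_zero]
    rw [e1, ← Finset.mul_prod_erase _ _ (Finset.mem_univ (α r)),
      ← Finset.mul_prod_erase _ _ (Finset.mem_erase.2 ⟨hne.symm, Finset.mem_univ (β r)⟩), e2,
      Function.update_of_ne hne, Function.update_self, Function.update_self, mul_one]

/-- The governing field of the minus part. -/
structure GovZ {M N : ℕ} (z : Fin M → Eis) (α : Fin N → Fin M) (P Q P' Q' : Fin N → Eis) (f : ℕ)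
    (L : Type) [Field L] [NumberField L] (ζ : L) (ι : Eis →+* L) : Prop where
  gal : IsGalois ℚ L
  prim : IsPrimitiveRoot ζ f
  nine : 9 ∣ f
  hω : ι w = ζ ^ (f / 3)
  rz : ∀ i, ∃ θ : L, θ ^ 3 = ι (z i)
  A : ∀ (r : Fin N) (ρ : L), ρ ^ 3 = ι (z (α r)) → ∃ A : L,
    A ^ 3 * aDE ι (P r) (Q r) (P' r) (Q' r) ρ = aNE ι (P r) (Q r) (P' r) (Q' r) ρ
  D : ∀ (r : Fin N) (ρ : L), ρ ^ 3 = ι (z (α r)) →
    aDE ι (P r) (Q r) (P' r) (Q' r) ρ ≠ 0 ∧ aNE ι (P r) (Q r) (P' r) (Q' r) ρ ≠ 0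

/-- the governing field for one pair -/
theorem GovZ.one {M N : ℕ} {z : Fin M → Eis} {α β : Fin N → Fin M} {P Q P' Q' : Fin N → Eis}
    {f : ℕ} {L : Type} [Field L] [NumberField L] {ζ : L} {ι : Eis →+* L}
    (hG : GovZ z α P Q P' Q' f L ζ ι) (r : Fin N) :
    GovK (z (α r)) (fun _ : Fin 1 => z (β r)) (fun _ => P r) (fun _ => Q r) (fun _ => P' r)
      (fun _ => Q' r) f L ζ ι :=
  ⟨hG.gal, hG.prim, hG.nine, hG.hω, hG.rz _, fun _ => hG.rz _, fun _ => hG.A r, fun _ => hG.D r⟩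

/-- The joint governing field. -/
structure GovW {s M N : ℕ} (b : Fin s → ℤ) (p q p' q' : Fin s → Fin s → ℤ)
    (z : Fin M → Eis) (α : Fin N → Fin M) (P Q P' Q' : Fin N → Eis) (f : ℕ)
    (L : Type) [Field L] [NumberField L] (ζ : L) (ι : Eis →+* L) : Prop where
  plus : GovF b p q p' q' f L ζ (ι w)
  minus : GovZ z α P Q P' Q' f L ζ ι

/-- `A` belongs to the pair `r` of the minus part (`PrM` for one pair) -/
def PrW {M N : ℕ} (z : Fin M → Eis) (α : Fin N → Fin M) (P Q P' Q' : Fin N → Eis) {L : Type}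
    [Field L] (ι : Eis →+* L) (r : Fin N) (ρ A : L) : Prop :=
  ρ ^ 3 = ι (z (α r)) ∧ A ^ 3 * aDE ι (P r) (Q r) (P' r) (Q' r) ρ = aNE ι (P r) (Q r) (P' r) (Q' r) ρ

/-- `g` fixes `ζ` and the cube roots of all classes -/
structure FxW {s M : ℕ} (b : Fin s → ℤ) (z : Fin M → Eis) {L : Type} [Field L]
    [NumberField L] (ζ : L) (ι : Eis →+* L) (g : L ≃ₐ[ℚ] L) : Prop where
  ze : g ζ = ζ
  rz : ∀ (i : Fin M) (ρ : L), ρ ^ 3 = ι (z i) → g ρ = ρ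
  rb : ∀ (i : Fin s) (ρ : L), ρ ^ 3 = (b i : L) → g ρ = ρ

/-- PTK_MZF: existence of the joint governing field. As `JZ_thm` (PTK/JZ.lean). -/
def Stmt_MZF : Prop := ∀ (s M N : ℕ) (b : Fin s → ℤ) (p q p' q' : Fin s → Fin s → ℤ)
  (z : Fin M → Eis) (α β : Fin N → Fin M) (P Q P' Q' : Fin N → Eis) (f : ℕ), SysG b p q p' q' →
  SysZ z α β P Q P' Q' → 0 < f → 9 ∣ f →
  ∃ (L : Type) (_ : Field L) (_ : NumberField L) (ζ : L) (ι : Eis →+* L),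
    GovW b p q p' q' z α P Q P' Q' f L ζ ι

/-- PTK_MKU: Kummer theory over `K = Q(w)` for all classes together. As `JKU_thm` (PTK/JKU.lean), `Z = ∏ z_i^(c i)`. -/
def Stmt_MKU : Prop := ∀ (s M N : ℕ) (b : Fin s → ℤ) (p q p' q' : Fin s → Fin s → ℤ)
  (z : Fin M → Eis) (α β : Fin N → Fin M) (P Q P' Q' : Fin N → Eis) (f : ℕ)
  (L : Type) [Field L] [NumberField L] (ζ : L) (ι : Eis →+* L),
  SysG b p q p' q' → SysZ z α β P Q P' Q' → GovW b p q p' q' z α P Q P' Q' f L ζ ι →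
  ∀ (a : Fin M → ZMod 3) (v : Fin s → ZMod 3), ∃ g : L ≃ₐ[ℚ] L, g (ι w) = ι w ∧
    (∀ (i : Fin M) (ρ : L), ρ ^ 3 = ι (z i) → g ρ = ι w ^ (a i).val * ρ) ∧
    ∀ (i : Fin s) (ρ : L), ρ ^ 3 = (b i : L) → g ρ = ι w ^ (v i).val * ρ

/-- PTK_MC1: commutators for the minus part which are trivial on the plus part.
Proof. As `JC1_thm`, `GCK_thm` and `GC.all` (PT/GC.lean). For a pair `(ρ, A)` of index `r` and `σ`, `τ` which fix `ω` and multiply the roots of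
`z i` by `ω^(a i)`, `ω^(c i)`: `(σ τ)⁻¹ (τ σ) A = ω^(a (α r) c (β r) - c (α r) a (β r)) A` (`GC.mv`, `GC.fx`, `GC.comm_apply`; it is enough to have the two cases
below). For every `r` let `σ_r` move only the roots of `z (α r)`, by `ω`, and `τ_r` only those of `z (β r)`, by `ω^(v r)` (`MKU`, with `v = 0` on the plus
part): `c_r = (σ_r τ_r)⁻¹ (τ_r σ_r)` multiplies `A` of index `r` by `ω^(v r)` and fixes `A` of every other index `r'`: if both fix `ρ` then they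
act on `A` by powers of `ω` and commute; if `σ_r` moves `ρ` then `α r' = α r`, so `β r' ≠ β r` (`inj`), `β r' ≠ α r` (`lt`), and both fix the roots of
`z (β r')`; if `τ_r` moves `ρ` then `α r' = β r`, `β r' > α r' = β r > α r`, and both fix the roots of `z (β r')`: in these cases they commute on `A` too
(the formula with exponent `0`). `g` is the product of the `c_r` over all `r` (they are in the group of elements fixing `ζ` and all roots).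
Plus part: as in `JC1_thm` (`σ_r`, `τ_r` fix the roots of the `b i`). Last clause: as in `GCK_thm` for every `c_r`: `τ⁻¹ σ_r τ` acts on the roots as
`σ_r` (`z i conj (z i) = t³`). -/
def Stmt_MC1 : Prop := ∀ (s M N : ℕ) (b : Fin s → ℤ) (p q p' q' : Fin s → Fin s → ℤ)
  (z : Fin M → Eis) (α β : Fin N → Fin M) (P Q P' Q' : Fin N → Eis) (f : ℕ)
  (L : Type) [Field L] [NumberField L] (ζ : L) (ι : Eis →+* L),
  SysG b p q p' q' → SysZ z α β P Q P' Q' → GovW b p q p' q' z α P Q P' Q' f L ζ ι →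
  ∀ v : Fin N → ZMod 3, ∃ g : L ≃ₐ[ℚ] L, FxW b z ζ ι g ∧
    (∀ (j i : Fin s) (ρ A : L), j ≠ i → PrP b p q p' q' ι j i ρ A → g A = A) ∧
    ∀ (r : Fin N) (ρ A : L), PrW z α P Q P' Q' ι r ρ A → g A = ι w ^ (v r).val * A ∧
      ∀ τ : L ≃ₐ[ℚ] L, τ (ι w) = ι w ^ 2 → g (τ A) = ι w ^ (- v r).val * τ A

/-- PTK_MC2: commutators for the plus part which are trivial on the minus part. As `JC2_thm` (PTK/JC2.lean). -/
def Stmt_MC2 : Prop := ∀ (s M N : ℕ) (b : Fin s → ℤ) (p q p' q' : Fin s → Fin s → ℤ)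
  (z : Fin M → Eis) (α β : Fin N → Fin M) (P Q P' Q' : Fin N → Eis) (f : ℕ)
  (L : Type) [Field L] [NumberField L] (ζ : L) (ι : Eis →+* L),
  SysG b p q p' q' → SysZ z α β P Q P' Q' → GovW b p q p' q' z α P Q P' Q' f L ζ ι →
  ∀ v : Fin s → Fin s → ZMod 3, ∃ g : L ≃ₐ[ℚ] L, FxW b z ζ ι g ∧
    (∀ (j i : Fin s) (ρ A : L), j < i → PrP b p q p' q' ι j i ρ A → g A = ι w ^ (v j i).val * A) ∧
    ∀ (r : Fin N) (ρ A : L), PrW z α P Q P' Q' ι r ρ A → g A = A ∧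
      ∀ τ : L ≃ₐ[ℚ] L, τ (ι w) = ι w ^ 2 → g (τ A) = τ A

/-- PTK_MAL: summary of the joint governing field, `Q = 2 (mod 3)`.
Proof. As `JAL_thm` (PTK/JAL.lean), with `MZF`, `MC1`, `MC2`; `F g : g (ι w) = ι w ^ 2 ∧ ∀ i ρ, ρ ^ 3 = ι (z i) → g (g ρ) = ρ`, `t g r` from `GTK`, `GFK` for
the system of the pair `r` (`SysZ.one`, `GovZ.one`; `FxK` for one pair follows from `F`; every class `z i` is used in `F`, for the Frobenius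
element see the proof of `GFK_thm`, part (a), or apply `GFK` to `x = z i`: `GFK` with `s = 0`). -/
def Stmt_MAL : Prop := ∀ (s : ℕ) (b : Fin s → ℤ) (p q p' q' : Fin s → Fin s → ℤ)
  (M N : ℕ) (z : Fin M → Eis) (α β : Fin N → Fin M) (P Q P' Q' : Fin N → Eis) (f : ℕ),
  SysG b p q p' q' → SysZ z α β P Q P' Q' → 0 < f → 9 ∣ f →
  ∃ (L : Type) (_ : Field L) (_ : NumberField L) (_ : IsGalois ℚ L)
    (χ : (L ≃ₐ[ℚ] L) →* (ZMod f)ˣ) (tt : (L ≃ₐ[ℚ] L) → Fin s → Fin s → ZMod 3)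
    (F : (L ≃ₐ[ℚ] L) → Prop) (t : (L ≃ₐ[ℚ] L) → Fin N → ZMod 3) (N₀ : ℕ),
    Function.Surjective χ ∧
    (∀ g τ : L ≃ₐ[ℚ] L, M2 (χ g) → ∀ j i, j ≠ i → tt (τ * g * τ⁻¹) j i = tt g j i) ∧
    (∀ (g : L ≃ₐ[ℚ] L) (l : ℕ), M2 (χ g) → Odd l → ∀ j i, j ≠ i → tt (g ^ l) j i = l * tt g j i) ∧
    (∀ g τ : L ≃ₐ[ℚ] L, M2 (χ g) → F g → F (τ * g * τ⁻¹) ∧ t (τ * g * τ⁻¹) = t g) ∧
    (∀ (g : L ≃ₐ[ℚ] L) (l : ℕ), M2 (χ g) → F g → Odd l → F (g ^ l) ∧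
      t (g ^ l) = (l : ZMod 3) • t g) ∧
    (∀ (a : (ZMod f)ˣ) (v v' : Fin s → Fin s → ZMod 3) (y y' : Fin N → ZMod 3), M2 a →
      Nat.card {g : L ≃ₐ[ℚ] L // χ g = a ∧ F g ∧ t g = y ∧ ∀ j i, j < i → tt g j i = v j i} =
        Nat.card {g : L ≃ₐ[ℚ] L //
          χ g = a ∧ F g ∧ t g = y' ∧ ∀ j i, j < i → tt g j i = v' j i}) ∧
    ∀ (q₀ : ℕ) (hq : q₀.Coprime f), q₀.Prime → N₀ < q₀ →
      ∀ (I : Ideal (𝓞 L)) (g : L ≃ₐ[ℚ] L), I.IsPrime → (q₀ : 𝓞 L) ∈ I →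
      MulAction.stabilizer (L ≃ₐ[ℚ] L) I = Subgroup.zpowers g →
      ∃ l : ℕ, l.Coprime (orderOf g) ∧ χ (g ^ l) = ZMod.unitOfCoprime q₀ hq ∧
        (q₀ % 3 = 2 →
          (∀ j i, j ≠ i → ∀ r : ℤ, (q₀ : ℤ) ∣ r ^ 3 - b j →
            tt (g ^ l) j i = TAUV q₀ (p j i) (q j i) (p' j i) (q' j i) r) ∧
          ((∀ i, sym (q₀ : Eis) (z i) = 0) → F (g ^ l) ∧
            ∀ (r : Fin N) (ξ : Eis), (q₀ : Eis) ∣ ξ ^ 3 - z (α r) →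
              t (g ^ l) r = TAUE q₀ (P r) (Q r) (P' r) (Q' r) ξ))

/-- PTK_MAU: summary of the joint governing field, `Q = 1 (mod 3)`, generic pattern.
Proof. As `JAU_thm` (PTK/JAU.lean); `F₂ g : g (ι w) = ι w ∧ ∀ i ρ, ρ ^ 3 = ι (z i) → g ρ = ρ`; `T g r` from `GTU`, `GFKU` for the pair `r` (`SysZ.one`,
`GovZ.one`). -/
def Stmt_MAU : Prop := ∀ (s : ℕ) (b : Fin (s + 1) → ℤ)
  (p q p' q' : Fin (s + 1) → Fin (s + 1) → ℤ)
  (M N : ℕ) (z : Fin M → Eis) (α β : Fin N → Fin M) (P Q P' Q' : Fin N → Eis) (f : ℕ),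
  SysG b p q p' q' → SysZ z α β P Q P' Q' → 0 < f → 9 ∣ f →
  ∃ (L : Type) (_ : Field L) (_ : NumberField L) (_ : IsGalois ℚ L)
    (χ : (L ≃ₐ[ℚ] L) →* (ZMod f)ˣ) (F : (L ≃ₐ[ℚ] L) → Prop)
    (tt : (L ≃ₐ[ℚ] L) → Fin s → Fin s → ZMod 3)
    (F₂ : (L ≃ₐ[ℚ] L) → Prop) (T : (L ≃ₐ[ℚ] L) → Fin N → ZMod 3) (N₀ : ℕ),
    Function.Surjective χ ∧
    (∀ g τ : L ≃ₐ[ℚ] L, M1 (χ g) → F g →
      F (τ * g * τ⁻¹) ∧ ∀ j i, j ≠ i → tt (τ * g * τ⁻¹) j i = tt g j i) ∧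
    (∀ (g : L ≃ₐ[ℚ] L) (l : ℕ), M1 (χ g) → F g → ¬ 3 ∣ l →
      F (g ^ l) ∧ ∀ j i, j ≠ i → tt (g ^ l) j i = l * tt g j i) ∧
    (∀ g τ : L ≃ₐ[ℚ] L, M1 (χ g) → F₂ g → F₂ (τ * g * τ⁻¹) ∧ T (τ * g * τ⁻¹) = T g) ∧
    (∀ (g : L ≃ₐ[ℚ] L) (l : ℕ), M1 (χ g) → F₂ g → F₂ (g ^ l) ∧
      T (g ^ l) = (l : ZMod 3) • T g) ∧
    (∀ (a : (ZMod f)ˣ) (v v' : Fin s → Fin s → ZMod 3) (y y' : Fin N → ZMod 3), M1 a →
      Nat.card {g : L ≃ₐ[ℚ] L //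
          χ g = a ∧ F g ∧ F₂ g ∧ T g = y ∧ ∀ j i, j < i → tt g j i = v j i} =
        Nat.card {g : L ≃ₐ[ℚ] L //
          χ g = a ∧ F g ∧ F₂ g ∧ T g = y' ∧ ∀ j i, j < i → tt g j i = v' j i}) ∧
    (∀ a : (ZMod f)ˣ, M1 a → 3 ^ (s + 1) * Nat.card {g : L ≃ₐ[ℚ] L // χ g = a ∧ F g} =
      2 * Nat.card {g : L ≃ₐ[ℚ] L // χ g = a}) ∧
    ∀ (q₀ : ℕ) (hq : q₀.Coprime f), q₀.Prime → N₀ < q₀ →
      ∀ (I : Ideal (𝓞 L)) (g : L ≃ₐ[ℚ] L), I.IsPrime → (q₀ : 𝓞 L) ∈ I →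
      MulAction.stabilizer (L ≃ₐ[ℚ] L) I = Subgroup.zpowers g →
      ∃ l : ℕ, l.Coprime (orderOf g) ∧ χ (g ^ l) = ZMod.unitOfCoprime q₀ hq ∧
        (q₀ % 3 = 1 → ∀ ρ : PP, (q₀ : Eis) = ρ.1 * conj ρ.1 →
          (F (g ^ l) ↔ (∀ j : Fin s, sym ρ.1 (b j.castSucc : Eis) = 0) ∧
            sym ρ.1 (b (Fin.last s) : Eis) ≠ 0) ∧
          (F (g ^ l) → ∀ j i : Fin s, j ≠ i → ∀ r : ℤ, (q₀ : ℤ) ∣ r ^ 3 - b j.castSucc →
            tt (g ^ l) j i = TAUVS ρ.1 (rs p j i) (rs q j i) (rs p' j i) (rs q' j i) r) ∧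
          ((∀ i, sym ρ.1 (z i) = 0) → F₂ (g ^ l) ∧
            ∀ (r : Fin N) (ξ ξ' : Eis), ρ.1 ∣ ξ ^ 3 - z (α r) → conj ρ.1 ∣ ξ' ^ 3 - z (α r) →
              T (g ^ l) r = TAUP ρ.1 (P r) (Q r) (P' r) (Q' r) ξ +
                TAUP (conj ρ.1) (P r) (Q r) (P' r) (Q' r) ξ'))

/-- PTK_GTZ: existence, uniqueness and properties of `t` on the elements fixing all roots of the `b j`, `Q = 1 (mod 3)`.
Proof. As `GTS_thm` (PTE; there the roots of the last class are moved, this is used only in the first part). -/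
def Stmt_GTZ : Prop := ∀ (s : ℕ) (b : Fin s → ℤ) (p q p' q' : Fin s → Fin s → ℤ)
  (f : ℕ) (L : Type) [Field L] [NumberField L] (ζ ω : L), SysG b p q p' q' →
  GovF b p q p' q' f L ζ ω →
  (∀ g τ : L ≃ₐ[ℚ] L, g ω = ω → (∀ (j : Fin s) (ρ : L), ρ ^ 3 = (b j : L) → g ρ = ρ) →
    (τ * g * τ⁻¹) ω = ω ∧ ∀ (j : Fin s) (ρ : L), ρ ^ 3 = (b j : L) → (τ * g * τ⁻¹) ρ = ρ) ∧
  ∀ j i : Fin s, j ≠ i →
  (∀ g : L ≃ₐ[ℚ] L, g ω = ω → (∀ (j : Fin s) (ρ : L), ρ ^ 3 = (b j : L) → g ρ = ρ) →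
    ∃! t : ZMod 3, IsTS b p q p' q' ω g j i t) ∧
  (∀ (g τ : L ≃ₐ[ℚ] L) (t : ZMod 3), g ω = ω →
    (∀ (j : Fin s) (ρ : L), ρ ^ 3 = (b j : L) → g ρ = ρ) →
    IsTS b p q p' q' ω g j i t → IsTS b p q p' q' ω (τ * g * τ⁻¹) j i t) ∧
  (∀ (g : L ≃ₐ[ℚ] L) (t : ZMod 3) (k : ℕ), g ω = ω →
    IsTS b p q p' q' ω g j i t → IsTS b p q p' q' ω (g ^ k) j i (k * t))

/-- PTK_GFZ: Frobenius elements when all the `b j` are cubes modulo `Q`, `Q = 1 (mod 3)`.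
Proof. As `GFRU_thm` (PTN/GFRU.lean). -/
def Stmt_GFZ : Prop := ∀ (s : ℕ) (b : Fin s → ℤ)
  (p q p' q' : Fin s → Fin s → ℤ) (f : ℕ)
  (L : Type) [Field L] [NumberField L] (ζ ω : L), SysG b p q p' q' →
  GovF b p q p' q' f L ζ ω →
  ∃ N₀ : ℕ, ∀ Q : ℕ, Q.Prime → N₀ < Q → Q % 3 = 1 → ∀ (P : Ideal (𝓞 L)), P.IsPrime →
    (Q : 𝓞 L) ∈ P → ∀ φ : L ≃ₐ[ℚ] L, IsArithFrobAt ℤ φ P → ∀ ρ : PP,
    (Q : Eis) = ρ.1 * conj ρ.1 → (∀ j : Fin s, sym ρ.1 (b j : Eis) = 0) →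
    φ ω = ω ∧ (∀ (j : Fin s) (θ : L), θ ^ 3 = (b j : L) → φ θ = θ) ∧
    ∀ j i : Fin s, j ≠ i → ∀ (r : ℤ) (t : ZMod 3), (Q : ℤ) ∣ r ^ 3 - b j →
      IsTS b p q p' q' ω φ j i t →
      t = TAUVS ρ.1 (p j i) (q j i) (p' j i) (q' j i) r

/-- PTK_MAZ: summary of the joint governing field, `Q = 1 (mod 3)`, all `b j` cubes modulo `Q`, with the matrix.
Proof. As `JAZ_thm` (PTK/JAZ.lean), with `GTZ`, `GFZ` for `tt`, and the equidistribution as in `JAU_thm` (`MC1`, `MC2`). -/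
def Stmt_MAZ : Prop := ∀ (s : ℕ) (b : Fin s → ℤ) (p q p' q' : Fin s → Fin s → ℤ)
  (M N : ℕ) (z : Fin M → Eis) (α β : Fin N → Fin M) (P Q P' Q' : Fin N → Eis) (f : ℕ),
  SysG b p q p' q' → SysZ z α β P Q P' Q' → 0 < f → 9 ∣ f →
  ∃ (L : Type) (_ : Field L) (_ : NumberField L) (_ : IsGalois ℚ L)
    (χ : (L ≃ₐ[ℚ] L) →* (ZMod f)ˣ) (F₀ : (L ≃ₐ[ℚ] L) → Prop)
    (tt : (L ≃ₐ[ℚ] L) → Fin s → Fin s → ZMod 3)
    (F₂ : (L ≃ₐ[ℚ] L) → Prop) (T : (L ≃ₐ[ℚ] L) → Fin N → ZMod 3) (N₀ : ℕ),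
    Function.Surjective χ ∧
    (∀ g τ : L ≃ₐ[ℚ] L, M1 (χ g) → F₀ g →
      F₀ (τ * g * τ⁻¹) ∧ ∀ j i, j ≠ i → tt (τ * g * τ⁻¹) j i = tt g j i) ∧
    (∀ (g : L ≃ₐ[ℚ] L) (l : ℕ), M1 (χ g) → F₀ g →
      F₀ (g ^ l) ∧ ∀ j i, j ≠ i → tt (g ^ l) j i = l * tt g j i) ∧
    (∀ g τ : L ≃ₐ[ℚ] L, M1 (χ g) → F₂ g → F₂ (τ * g * τ⁻¹) ∧ T (τ * g * τ⁻¹) = T g) ∧
    (∀ (g : L ≃ₐ[ℚ] L) (l : ℕ), M1 (χ g) → F₂ g → F₂ (g ^ l) ∧
      T (g ^ l) = (l : ZMod 3) • T g) ∧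
    (∀ (a : (ZMod f)ˣ) (v v' : Fin s → Fin s → ZMod 3) (y y' : Fin N → ZMod 3), M1 a →
      Nat.card {g : L ≃ₐ[ℚ] L //
          χ g = a ∧ F₀ g ∧ F₂ g ∧ T g = y ∧ ∀ j i, j < i → tt g j i = v j i} =
        Nat.card {g : L ≃ₐ[ℚ] L //
          χ g = a ∧ F₀ g ∧ F₂ g ∧ T g = y' ∧ ∀ j i, j < i → tt g j i = v' j i}) ∧
    (∀ a : (ZMod f)ˣ, M1 a → 3 ^ s * Nat.card {g : L ≃ₐ[ℚ] L // χ g = a ∧ F₀ g} =
      Nat.card {g : L ≃ₐ[ℚ] L // χ g = a}) ∧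
    ∀ (q₀ : ℕ) (hq : q₀.Coprime f), q₀.Prime → N₀ < q₀ →
      ∀ (I : Ideal (𝓞 L)) (g : L ≃ₐ[ℚ] L), I.IsPrime → (q₀ : 𝓞 L) ∈ I →
      MulAction.stabilizer (L ≃ₐ[ℚ] L) I = Subgroup.zpowers g →
      ∃ l : ℕ, l.Coprime (orderOf g) ∧ χ (g ^ l) = ZMod.unitOfCoprime q₀ hq ∧
        (q₀ % 3 = 1 → ∀ ρ : PP, (q₀ : Eis) = ρ.1 * conj ρ.1 →
          ((∀ j : Fin s, sym ρ.1 (b j : Eis) = 0) → F₀ (g ^ l) ∧
            ∀ j i : Fin s, j ≠ i → ∀ r : ℤ, (q₀ : ℤ) ∣ r ^ 3 - b j →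
              tt (g ^ l) j i = TAUVS ρ.1 (p j i) (q j i) (p' j i) (q' j i) r) ∧
          ((∀ i, sym ρ.1 (z i) = 0) → F₂ (g ^ l) ∧
            ∀ (r : Fin N) (ξ ξ' : Eis), ρ.1 ∣ ξ ^ 3 - z (α r) → conj ρ.1 ∣ ξ' ^ 3 - z (α r) →
              T (g ^ l) r = TAUP ρ.1 (P r) (Q r) (P' r) (Q' r) ξ +
                TAUP (conj ρ.1) (P r) (Q r) (P' r) (Q' r) ξ'))

/-! ### Densities -/

/-- the primes `= 2 (mod 3)` with prescribed `TAUE`, exponent `1`, class `c` -/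
def SPZ {M N f m : ℕ} (z : Fin M → Eis) (α : Fin N → Fin M) (P Q P' Q' : Fin N → Eis)
    (κ : (ZMod f)ˣ →* Multiplicative (Fin (m + 1) → ZMod 3)) (c : Fin (m + 1) → ZMod 3)
    (C : Fin N → ZMod 3) (Φ : (ZMod f)ˣ →* Multiplicative (Fin N → ZMod 3)) : Set ℕ :=
  {q₀ : ℕ | ∃ hq : q₀.Coprime f, q₀ % 3 = 2 ∧ (κ (ZMod.unitOfCoprime q₀ hq)).toAdd = c ∧
    (∀ i, sym (q₀ : Eis) (z i) = 0) ∧
    ∀ (r : Fin N) (ξ : Eis), (q₀ : Eis) ∣ ξ ^ 3 - z (α r) →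
      TAUE q₀ (P r) (Q r) (P' r) (Q' r) ξ = C r + (Φ (ZMod.unitOfCoprime q₀ hq)).toAdd r}

/-- the primes `= 2 (mod 3)` with prescribed `TAUE`, exponent `2`, class `-c` -/
def SMZ {M N f m : ℕ} (z : Fin M → Eis) (α : Fin N → Fin M) (P Q P' Q' : Fin N → Eis)
    (κ : (ZMod f)ˣ →* Multiplicative (Fin (m + 1) → ZMod 3)) (c : Fin (m + 1) → ZMod 3)
    (C : Fin N → ZMod 3) (Φ : (ZMod f)ˣ →* Multiplicative (Fin N → ZMod 3)) : Set ℕ :=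
  {q₀ : ℕ | ∃ hq : q₀.Coprime f, q₀ % 3 = 2 ∧ (κ (ZMod.unitOfCoprime q₀ hq)).toAdd = -c ∧
    (∀ i, sym (q₀ : Eis) (z i) = 0) ∧
    ∀ (r : Fin N) (ξ : Eis), (q₀ : Eis) ∣ ξ ^ 3 - z (α r) →
      TAUE q₀ (P r) (Q r) (P' r) (Q' r) ξ = - C r + (Φ (ZMod.unitOfCoprime q₀ hq)).toAdd r}

/-- the primes `= 1 (mod 3)` with prescribed `TAUP`, exponent `1`, class `c` -/
def SPZU {M N f m : ℕ} (z : Fin M → Eis) (α : Fin N → Fin M) (P Q P' Q' : Fin N → Eis)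
    (κ : (ZMod f)ˣ →* Multiplicative (Fin (m + 1) → ZMod 3)) (c : Fin (m + 1) → ZMod 3)
    (C : Fin N → ZMod 3) (Φ : (ZMod f)ˣ →* Multiplicative (Fin N → ZMod 3)) : Set ℕ :=
  {q₀ : ℕ | ∃ hq : q₀.Coprime f, q₀ % 3 = 1 ∧ (κ (ZMod.unitOfCoprime q₀ hq)).toAdd = c ∧
    ∀ ρ : PP, (q₀ : Eis) = ρ.1 * conj ρ.1 → (∀ i, sym ρ.1 (z i) = 0) ∧
      ∀ (r : Fin N) (ξ ξ' : Eis), ρ.1 ∣ ξ ^ 3 - z (α r) → conj ρ.1 ∣ ξ' ^ 3 - z (α r) →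
        TAUP ρ.1 (P r) (Q r) (P' r) (Q' r) ξ + TAUP (conj ρ.1) (P r) (Q r) (P' r) (Q' r) ξ' =
          C r + (Φ (ZMod.unitOfCoprime q₀ hq)).toAdd r}

/-- the primes `= 1 (mod 3)` with prescribed `TAUP`, exponent `2`, class `-c` -/
def SMZU {M N f m : ℕ} (z : Fin M → Eis) (α : Fin N → Fin M) (P Q P' Q' : Fin N → Eis)
    (κ : (ZMod f)ˣ →* Multiplicative (Fin (m + 1) → ZMod 3)) (c : Fin (m + 1) → ZMod 3)
    (C : Fin N → ZMod 3) (Φ : (ZMod f)ˣ →* Multiplicative (Fin N → ZMod 3)) : Set ℕ :=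
  {q₀ : ℕ | ∃ hq : q₀.Coprime f, q₀ % 3 = 1 ∧ (κ (ZMod.unitOfCoprime q₀ hq)).toAdd = -c ∧
    ∀ ρ : PP, (q₀ : Eis) = ρ.1 * conj ρ.1 → (∀ i, sym ρ.1 (z i) = 0) ∧
      ∀ (r : Fin N) (ξ ξ' : Eis), ρ.1 ∣ ξ ^ 3 - z (α r) → conj ρ.1 ∣ ξ' ^ 3 - z (α r) →
        TAUP ρ.1 (P r) (Q r) (P' r) (Q' r) ξ + TAUP (conj ρ.1) (P r) (Q r) (P' r) (Q' r) ξ' =
          - C r + (Φ (ZMod.unitOfCoprime q₀ hq)).toAdd r}

/-- the primes `= 1 (mod 3)` of the class `c` modulo which all `b j` are cubes, with large kernel, exponent `1` -/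
def SPF {s f m : ℕ} (b : Fin s → ℤ) (p q p' q' : Fin s → Fin s → ℤ) (t : ℕ)
    (κ : (ZMod f)ˣ →* Multiplicative (Fin (m + 1) → ZMod 3)) (c : Fin (m + 1) → ZMod 3)
    (C : Fin s → Fin s → ZMod 3) (Φ : (ZMod f)ˣ →* Multiplicative (Fin s → Fin s → ZMod 3)) :
    Set ℕ :=
  {Q : ℕ | ∃ (hQ : Q.Coprime f) (ρ : PP), (Q % 3 = 1 ∧
    (κ (ZMod.unitOfCoprime Q hQ)).toAdd = c ∧ (Q : Eis) = ρ.1 * conj ρ.1 ∧
    ∀ j : Fin s, sym ρ.1 (b j : Eis) = 0) ∧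
    ∀ τ : Fin s → Fin s → ZMod 3,
      (∀ j i, j ≠ i → ∀ r : ℤ, (Q : ℤ) ∣ r ^ 3 - b j →
        τ j i = TAUVS ρ.1 (p j i) (q j i) (p' j i) (q' j i) r) →
      t ≤ s - (alt (C + (Φ (ZMod.unitOfCoprime Q hQ)).toAdd + τ)).rank}

/-- the primes `= 1 (mod 3)` of the class `-c` modulo which all `b j` are cubes, with large kernel, exponent `2` -/
def SMF {s f m : ℕ} (b : Fin s → ℤ) (p q p' q' : Fin s → Fin s → ℤ) (t : ℕ)
    (κ : (ZMod f)ˣ →* Multiplicative (Fin (m + 1) → ZMod 3)) (c : Fin (m + 1) → ZMod 3)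
    (C : Fin s → Fin s → ZMod 3) (Φ : (ZMod f)ˣ →* Multiplicative (Fin s → Fin s → ZMod 3)) :
    Set ℕ :=
  {Q : ℕ | ∃ (hQ : Q.Coprime f) (ρ : PP), (Q % 3 = 1 ∧
    (κ (ZMod.unitOfCoprime Q hQ)).toAdd = -c ∧ (Q : Eis) = ρ.1 * conj ρ.1 ∧
    ∀ j : Fin s, sym ρ.1 (b j : Eis) = 0) ∧
    ∀ τ : Fin s → Fin s → ZMod 3,
      (∀ j i, j ≠ i → ∀ r : ℤ, (Q : ℤ) ∣ r ^ 3 - b j →
        τ j i = TAUVS ρ.1 (p j i) (q j i) (p' j i) (q' j i) r) →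
      t ≤ s - (alt (C - (Φ (ZMod.unitOfCoprime Q hQ)).toAdd - τ)).rank}

/-- PTK_BM2: the bound for the density, `Q = 2 (mod 3)`. As `BDJ_thm` (PTK/BDJ.lean) with `MAL`, `DNS`. (A root `ξ` of `z (α r)` exists because
the symbol is `0`.) -/
def Stmt_BM2 : Prop := ∀ (s : ℕ) (b : Fin s → ℤ) (p q p' q' : Fin s → Fin s → ℤ)
  (M N : ℕ) (z : Fin M → Eis) (α β : Fin N → Fin M) (P Q P' Q' : Fin N → Eis) (f m tn : ℕ)
  (κ : (ZMod f)ˣ →* Multiplicative (Fin (m + 1) → ZMod 3)) (c : Fin (m + 1) → ZMod 3)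
  (C : Fin s → Fin s → ZMod 3) (Φ : (ZMod f)ˣ →* Multiplicative (Fin s → Fin s → ZMod 3))
  (C' : Fin N → ZMod 3) (Φ' : (ZMod f)ˣ →* Multiplicative (Fin N → ZMod 3)),
  SysG b p q p' q' → SysZ z α β P Q P' Q' → 0 < f → 9 ∣ f →
  (∀ c : Fin (m + 1) → ZMod 3,
    Nat.card {a : (ZMod f)ˣ // M2 a ∧ (κ a).toAdd = c} * (2 * 3 ^ (m + 1)) = f.totient) →
  ∃ K : ℝ, ∀ σ : ℝ, 1 < σ → σ ≤ 2 →
    BDENS.sm (SP b p q p' q' tn κ c C Φ ∩ SPZ z α P Q P' Q' κ c C' Φ') σ +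
      BDENS.sm (SM b p q p' q' tn κ c C Φ ∩ SMZ z α P Q P' Q' κ c C' Φ') σ ≤
      LI s tn / 3 ^ N / 3 ^ (m + 1) * Real.log (1 / (σ - 1)) + K

/-- PTK_BMU: the bound for the density, `Q = 1 (mod 3)`, generic pattern. As `BDJU_thm` (PTK/BDJU.lean) with `MAU`, `DNS1`. -/
def Stmt_BMU : Prop := ∀ (s : ℕ) (b : Fin (s + 1) → ℤ)
  (p q p' q' : Fin (s + 1) → Fin (s + 1) → ℤ)
  (M N : ℕ) (z : Fin M → Eis) (α β : Fin N → Fin M) (P Q P' Q' : Fin N → Eis) (f m tn : ℕ)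
  (κ : (ZMod f)ˣ →* Multiplicative (Fin (m + 1) → ZMod 3)) (c : Fin (m + 1) → ZMod 3)
  (C : Fin s → Fin s → ZMod 3) (Φ : (ZMod f)ˣ →* Multiplicative (Fin s → Fin s → ZMod 3))
  (C' : Fin N → ZMod 3) (Φ' : (ZMod f)ˣ →* Multiplicative (Fin N → ZMod 3)),
  SysG b p q p' q' → SysZ z α β P Q P' Q' → 0 < f → 9 ∣ f →
  (∀ c : Fin (m + 1) → ZMod 3,
    Nat.card {a : (ZMod f)ˣ // M1 a ∧ (κ a).toAdd = c} * (2 * 3 ^ (m + 1)) = f.totient) →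
  ∃ K : ℝ, ∀ σ : ℝ, 1 < σ → σ ≤ 2 →
    BDENS.sm (SPU b p q p' q' tn κ c C Φ ∩ SPZU z α P Q P' Q' κ c C' Φ') σ +
      BDENS.sm (SMU b p q p' q' tn κ c C Φ ∩ SMZU z α P Q P' Q' κ c C' Φ') σ ≤
      2 / 3 ^ (s + 1) * LI s tn / 3 ^ N / 3 ^ (m + 1) * Real.log (1 / (σ - 1)) + K

/-- PTK_BMZ: the bound for the density, `Q = 1 (mod 3)`, all `b j` cubes modulo `Q`, with the matrix. As `BMU` and `BDJZ_thm`, with `MAZ`;
`#{χ g = a ∧ F₀ g} = #{χ g = a} / 3^s`. -/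
def Stmt_BMZ : Prop := ∀ (s : ℕ) (b : Fin s → ℤ) (p q p' q' : Fin s → Fin s → ℤ)
  (M N : ℕ) (z : Fin M → Eis) (α β : Fin N → Fin M) (P Q P' Q' : Fin N → Eis) (f m tn : ℕ)
  (κ : (ZMod f)ˣ →* Multiplicative (Fin (m + 1) → ZMod 3)) (c : Fin (m + 1) → ZMod 3)
  (C : Fin s → Fin s → ZMod 3) (Φ : (ZMod f)ˣ →* Multiplicative (Fin s → Fin s → ZMod 3))
  (C' : Fin N → ZMod 3) (Φ' : (ZMod f)ˣ →* Multiplicative (Fin N → ZMod 3)),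
  SysG b p q p' q' → SysZ z α β P Q P' Q' → 0 < f → 9 ∣ f →
  (∀ c : Fin (m + 1) → ZMod 3,
    Nat.card {a : (ZMod f)ˣ // M1 a ∧ (κ a).toAdd = c} * (2 * 3 ^ (m + 1)) = f.totient) →
  ∃ K : ℝ, ∀ σ : ℝ, 1 < σ → σ ≤ 2 →
    BDENS.sm (SPF b p q p' q' tn κ c C Φ ∩ SPZU z α P Q P' Q' κ c C' Φ') σ +
      BDENS.sm (SMF b p q p' q' tn κ c C Φ ∩ SMZU z α P Q P' Q' κ c C' Φ') σ ≤
      1 / 3 ^ s * LI s tn / 3 ^ N / 3 ^ (m + 1) * Real.log (1 / (σ - 1)) + K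

end Pool.Agent.PTK


end

section

/-!
# All moments of `3^r` for prime twists: classes, linear algebra, averages

Stage 3 of the project PTK, part 2 (part 1: `StM.lean`). Everything of `StL`, `StN`, `StG`, `StC`, `StJ`, `StK` (all proved:
`X_thm` in `PTK/X.lean`) and of `PT`, `PTE`, `PT3`, `PTL`, `PTN` may be imported or taken as a hypothesis.
-/

set_option autoImplicit false

open NumberField IsDedekindDomain Finset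
open scoped nonZeroDivisors Pointwise

namespace Pool.Agent.PTK

open Pool.Agent.Lib_helper18 Pool.Agent.Lib_helper18.Eis Pool.Agent.Lib_helper84.Cub
open Pool.Agent.PT Pool.Agent.PTE Pool.Agent.PT3 Pool.Agent.PTL Pool.Agent.PTN

/-! ### Test configurations -/

/-- A test configuration: independent vectors of `V`, pairs `(α j, β j)`, one of the two vectors of a pair is in `V₀`. -/
structure TeC {M' : ℕ} (V V₀ : Submodule (ZMod 3) (Fin M' → ZMod 3)) {M N : ℕ}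
    (y : Fin M → Fin M' → ZMod 3) (α β : Fin N → Fin M) : Prop where
  ind : LinearIndependent (ZMod 3) y
  mem : ∀ i, y i ∈ V
  lt : ∀ j, α j < β j
  inj : ∀ j j', α j = α j' → β j = β j' → j = j'
  wl : ∀ j, y (α j) ∈ V₀ ∨ y (β j) ∈ V₀

/-- PTK_MSY: the system of a test configuration.
Proof. `SysZ.ind`: `ZI` and `TeC.ind` (as in `SYK_thm`); `cz`: `ZA`. Pair `j`: (a) if `y (β j) ∈ V0`: as in `SYK_thm` (PTK/SYK.lean):
`HNE` for the base `z (β j)` and the norm `z (α j)`, `SolE (z (β j)) (z (α j)) P Q P' Q'`, so `SolE (z (α j)) (z (β j)) P (-P') (-Q) Q'`, and `HypD`. (b) otherwise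
`y (α j) ∈ V0`: `HNE` for the base `x = z (α j)` (`λ⁴ ∣ x² - 1`: `ZL`) and the norm `b = z (β j)` (`ZT`): `SolE x b P Q P' Q'`. `HypX`: `LCE lam x` by `ZL` and the
second part of `Stmt_LCI` (`c = 1`, `a = ± 1`), `ZA`. `h ≠ 1`: for `h = 1`, `dN = 0`, and `VDIM` gives `V0 = VS`, against `y (β j) ∉ V0`. -/
def Stmt_MSY : Prop := ∀ (h n m k : ℕ) (π : Fin m → PP) (p e : Fin m → ℕ) (r f : Fin k → ℕ)
  (w0 : ZMod 3) (c : Fin m → ZMod 3), NF n π p e r f → h ≤ 2 →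
  ∀ (M N : ℕ) (y : Fin M → Fin (m + 1) → ZMod 3) (α β : Fin N → Fin M),
  TeC (VS h n π p e r w0 c) (V0 h n π p e r w0 c) y α β →
  ∃ P Q P' Q' : Fin N → Eis, SysZ (fun i => zN π e (y i)) α β P Q P' Q' ∧
    ∀ j, HypD (3 ^ h * n) (zN π e (y (β j))) (zN π e (y (α j))) (P j) (Q j) (P' j) (Q' j) ∨
      (h ≠ 1 ∧ HypX (3 ^ h * n) (zN π e (y (β j))) (zN π e (y (α j))) (P j) (Q j) (P' j) (Q' j))

/-- the primes `q = a (mod 3)` such that the base classes of the configuration are classes of points -/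
def QM (h n : ℕ) {m : ℕ} (π : Fin m → PP) (e : Fin m → ℕ) (w0 : ZMod 3) (c : Fin m → ZMod 3)
    {M N : ℕ} (y : Fin M → Fin (m + 1) → ZMod 3) (α : Fin N → Fin M) (a E : ℕ) : Set ℕ :=
  {q : ℕ | q % 3 = a ∧ InCT E π w0 c q ∧ ∀ j, Occ (BB h n E q) (zN π e (y (α j)))}

/-- PTK_MS2: the primes of `QM` are in `SPZ`, `SMZ`.
Proof. As `MSK_thm` (PTK/MSK.lean), for every pair `j`: `HypD`: `DCK` and the point from `PT`; `HypX` (`h ≠ 1`): `DXK` and the point from `PTX` for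
`B = BB h n E q` (`lv B = h ≠ 1` for a prime `q > 3`, see `HYPT.lvw`; `((3 ^ h * n : ℕ) : ℤ) * q ^ E = BB h n E q`). `f₀` is the product of those of the pairs. -/
def Stmt_MS2 : Prop := ∀ (h n m k : ℕ) (π : Fin m → PP) (p e : Fin m → ℕ) (r f : Fin k → ℕ)
  (w0 : ZMod 3) (c : Fin m → ZMod 3), NF n π p e r f → h ≤ 2 →
  ∀ (M N : ℕ) (y : Fin M → Fin (m + 1) → ZMod 3) (α β : Fin N → Fin M),
  TeC (VS h n π p e r w0 c) (V0 h n π p e r w0 c) y α β → ∀ P Q P' Q' : Fin N → Eis,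
  SysZ (fun i => zN π e (y i)) α β P Q P' Q' →
  (∀ j, HypD (3 ^ h * n) (zN π e (y (β j))) (zN π e (y (α j))) (P j) (Q j) (P' j) (Q' j) ∨
    (h ≠ 1 ∧ HypX (3 ^ h * n) (zN π e (y (β j))) (zN π e (y (α j))) (P j) (Q j) (P' j) (Q' j))) →
  ∃ f₀ : ℕ, 0 < f₀ ∧ ∀ f' : ℕ, 0 < f' → f₀ ∣ f' →
  ∀ κ : (ZMod f')ˣ →* Multiplicative (Fin (m + 1) → ZMod 3), IsK π κ →
  ∃ (C : Fin N → ZMod 3) (Φ : (ZMod f')ˣ →* Multiplicative (Fin N → ZMod 3)) (N₀ : ℕ),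
    ∀ q : ℕ, q.Prime → N₀ < q →
      (q ∈ QM h n π e w0 c y α 2 1 →
        q ∈ SPZ (fun i => zN π e (y i)) α P Q P' Q' κ (Fin.cons w0 c) C Φ) ∧
      (q ∈ QM h n π e w0 c y α 2 2 →
        q ∈ SMZ (fun i => zN π e (y i)) α P Q P' Q' κ (Fin.cons w0 c) C Φ)

/-- PTK_MS1: the primes of `QM` are in `SPZU`, `SMZU`. As `MSKU_thm` (PTK/MSKU.lean) and `MS2`, with `DCKU`, `DXL`, `ZSU`. -/
def Stmt_MS1 : Prop := ∀ (h n m k : ℕ) (π : Fin m → PP) (p e : Fin m → ℕ) (r f : Fin k → ℕ)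
  (w0 : ZMod 3) (c : Fin m → ZMod 3), NF n π p e r f → h ≤ 2 →
  ∀ (M N : ℕ) (y : Fin M → Fin (m + 1) → ZMod 3) (α β : Fin N → Fin M),
  TeC (VS h n π p e r w0 c) (V0 h n π p e r w0 c) y α β → ∀ P Q P' Q' : Fin N → Eis,
  SysZ (fun i => zN π e (y i)) α β P Q P' Q' →
  (∀ j, HypD (3 ^ h * n) (zN π e (y (β j))) (zN π e (y (α j))) (P j) (Q j) (P' j) (Q' j) ∨
    (h ≠ 1 ∧ HypX (3 ^ h * n) (zN π e (y (β j))) (zN π e (y (α j))) (P j) (Q j) (P' j) (Q' j))) →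
  ∃ f₀ : ℕ, 0 < f₀ ∧ ∀ f' : ℕ, 0 < f' → f₀ ∣ f' →
  ∀ κ : (ZMod f')ˣ →* Multiplicative (Fin (m + 1) → ZMod 3), IsK π κ →
  ∃ (C : Fin N → ZMod 3) (Φ : (ZMod f')ˣ →* Multiplicative (Fin N → ZMod 3)) (N₀ : ℕ),
    ∀ q : ℕ, q.Prime → N₀ < q →
      (q ∈ QM h n π e w0 c y α 1 1 →
        q ∈ SPZU (fun i => zN π e (y i)) α P Q P' Q' κ (Fin.cons w0 c) C Φ) ∧
      (q ∈ QM h n π e w0 c y α 1 2 →
        q ∈ SMZU (fun i => zN π e (y i)) α P Q P' Q' κ (Fin.cons w0 c) C Φ)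

/-- PTK_MT2: the joint density, `q = 2 (mod 3)`. As `CTJ_thm` (PTK/CTJ.lean) with `MSY`, `MSP`, `MS2`, `CLSC`, `BM2`. -/
def Stmt_MT2 : Prop := ∀ (h n m k : ℕ) (π : Fin m → PP) (p e : Fin m → ℕ) (r f : Fin k → ℕ)
  (w0 : ZMod 3) (c : Fin m → ZMod 3) (s : ℕ) (τ : Fin s → Fin 3) (b X Y : Fin s → ℤ)
  (P Q P' Q' : Fin s → Fin s → ℤ), NF n π p e r f → h ≤ 2 → PlS h n π w0 c τ b X Y P Q P' Q' →
  ∀ (M N : ℕ) (y : Fin M → Fin (m + 1) → ZMod 3) (α β : Fin N → Fin M),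
  TeC (VS h n π p e r w0 c) (V0 h n π p e r w0 c) y α β →
  ∀ t : ℕ, ∃ K : ℝ, ∀ σ : ℝ, 1 < σ → σ ≤ 2 →
    BDENS.sm {q | q ∈ QM h n π e w0 c y α 2 1 ∧ t ≤ kS h n b X Y P Q P' Q' 1 q} σ +
      BDENS.sm {q | q ∈ QM h n π e w0 c y α 2 2 ∧ t ≤ kS h n b X Y P Q P' Q' 2 q} σ ≤
      1 / 3 ^ N / 3 ^ (m + 1) * LI s t * Real.log (1 / (σ - 1)) + K

/-- PTK_MTU: the joint density, `q = 1 (mod 3)`, generic pattern. As `CTU_thm` (PTK/CTU.lean) with `MSY`, `MSPU`, `MS1`, `CLSC`, `CLSCS`, `BMU`. -/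
def Stmt_MTU : Prop := ∀ (h n m k : ℕ) (π : Fin m → PP) (p e : Fin m → ℕ) (r f : Fin k → ℕ)
  (w0 : ZMod 3) (c : Fin m → ZMod 3) (d : ℕ) (v : Fin d → ℤ) (δ : Fin d → ZMod 3)
  (s : ℕ) (τ : Fin s → Fin 3) (b : Fin (s + 1) → ℤ) (X Y : Fin s → ℤ)
  (P Q P' Q' : Fin (s + 1) → Fin (s + 1) → ℤ), NF n π p e r f → h ≤ 2 → δ ≠ 0 →
  PlU h n π w0 c v δ τ b X Y P Q P' Q' →
  ∀ (M N : ℕ) (y : Fin M → Fin (m + 1) → ZMod 3) (α β : Fin N → Fin M),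
  TeC (VS h n π p e r w0 c) (V0 h n π p e r w0 c) y α β →
  ∀ t : ℕ, ∃ K : ℝ, ∀ σ : ℝ, 1 < σ → σ ≤ 2 →
    BDENS.sm {q | (q ∈ QM h n π e w0 c y α 1 1 ∧ q ∈ Pat v δ) ∧
        t ≤ kU h n b X Y P Q P' Q' 1 q} σ +
      BDENS.sm {q | (q ∈ QM h n π e w0 c y α 1 2 ∧ q ∈ Pat v δ) ∧
        t ≤ kU h n b X Y P Q P' Q' 2 q} σ ≤
      2 / 3 ^ d / 3 ^ N / 3 ^ (m + 1) * LI s t * Real.log (1 / (σ - 1)) + K

/-! ### The zero pattern -/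

/-- PTK_MPZ: as `MSPU`, when all the `b i` are cubes modulo `q = 1 (mod 3)`.
Proof. As `MSPU_thm` (PTK/MSPU.lean) for the system `b` of `PlS` in place of `rv b`, `DCOU` for all pairs; a `ρ` with `q = ρ conj ρ` exists
(`SPLT`), `NADU` for this `ρ` (`AdN ∧ sym ρ = 0` gives `AG`), `TENT`. -/
def Stmt_MPZ : Prop := ∀ (h n m k : ℕ) (π : Fin m → PP) (p e : Fin m → ℕ) (r f : Fin k → ℕ)
  (w0 : ZMod 3) (c : Fin m → ZMod 3) (s : ℕ) (τ : Fin s → Fin 3) (b X Y : Fin s → ℤ)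
  (P Q P' Q' : Fin s → Fin s → ℤ), NF n π p e r f → h ≤ 2 → PlS h n π w0 c τ b X Y P Q P' Q' →
  ∃ f₀ : ℕ, 0 < f₀ ∧ ∀ f' : ℕ, 0 < f' → f₀ ∣ f' →
  ∀ κ : (ZMod f')ˣ →* Multiplicative (Fin (m + 1) → ZMod 3), IsK π κ →
  ∃ (C : Fin s → Fin s → ZMod 3) (Φ : (ZMod f')ˣ →* Multiplicative (Fin s → Fin s → ZMod 3)) (N₀ : ℕ),
    ∀ q t : ℕ, q.Prime → N₀ < q → q % 3 = 1 → q ∈ ZP b →
      (InCT 1 π w0 c q → t ≤ kS h n b X Y P Q P' Q' 1 q →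
        q ∈ SPF b P Q P' Q' t κ (Fin.cons w0 c) C Φ) ∧
      (InCT 2 π w0 c q → t ≤ kS h n b X Y P Q P' Q' 2 q →
        q ∈ SMF b P Q P' Q' t κ (Fin.cons w0 c) C Φ)

/-- PTK_MTZ: the joint density, `q = 1 (mod 3)`, all rational classes cubes modulo `q`. As `MTU`, with `MSY`, `MPZ`, `MS1`, `CLSC`, `CLSCS`, `BMZ`. -/
def Stmt_MTZ : Prop := ∀ (h n m k : ℕ) (π : Fin m → PP) (p e : Fin m → ℕ) (r f : Fin k → ℕ)
  (w0 : ZMod 3) (c : Fin m → ZMod 3) (s : ℕ) (τ : Fin s → Fin 3) (b X Y : Fin s → ℤ)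
  (P Q P' Q' : Fin s → Fin s → ℤ), NF n π p e r f → h ≤ 2 → PlS h n π w0 c τ b X Y P Q P' Q' →
  ∀ (M N : ℕ) (y : Fin M → Fin (m + 1) → ZMod 3) (α β : Fin N → Fin M),
  TeC (VS h n π p e r w0 c) (V0 h n π p e r w0 c) y α β →
  ∀ t : ℕ, ∃ K : ℝ, ∀ σ : ℝ, 1 < σ → σ ≤ 2 →
    BDENS.sm {q | (q ∈ QM h n π e w0 c y α 1 1 ∧ q ∈ ZP b) ∧
        t ≤ kS h n b X Y P Q P' Q' 1 q} σ +
      BDENS.sm {q | (q ∈ QM h n π e w0 c y α 1 2 ∧ q ∈ ZP b) ∧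
        t ≤ kS h n b X Y P Q P' Q' 2 q} σ ≤
      1 / 3 ^ s / 3 ^ N / 3 ^ (m + 1) * LI s t * Real.log (1 / (σ - 1)) + K

/-- PTK_NBX: the bound for the rank, `q = 1 (mod 3)`, all rational classes cubes modulo `q`, with the matrix.
Proof. As `NBU_thm` (PTK/NBU.lean) with `b` in place of `rv b` and the first bound of `WGU` for `Nat.card W`: the classes of the plus part
(`NPLU`, `NADU` for a `ρ` from `SPLT`) are products of the `b i` up to cubes (`PlS.gen`), in the kernel of the matrix (`TENT`). -/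
def Stmt_NBX : Prop := ∀ (h n m k : ℕ) (π : Fin m → PP) (p e : Fin m → ℕ) (r f : Fin k → ℕ)
  (w0 : ZMod 3) (c : Fin m → ZMod 3) (s : ℕ) (τ : Fin s → Fin 3) (b X Y : Fin s → ℤ)
  (P Q P' Q' : Fin s → Fin s → ℤ) (E q : ℕ), NF n π p e r f → h ≤ 2 →
  PlS h n π w0 c τ b X Y P Q P' Q' →
  (E = 1 ∨ E = 2) → q.Prime → 3 < q → q % 3 = 1 → InCT E π w0 c q → ¬ q ∣ n → q ∈ ZP b →
  CubeRank.GenBy (BB h n E q) (Nat.log 3 (Nat.card (WqS h n π p e r w0 c (BB h n E q))) + 1 +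
    kS h n b X Y P Q P' Q' E q)

/-- PTK_ZPV: the zero pattern does not depend on the basis.
Proof. The part of `CTZ_thm` (PTK/CTZ.lean): every `b i` is a product of the `v j` up to cubes (`HB`). -/
def Stmt_ZPV : Prop := ∀ (h n m k : ℕ) (π : Fin m → PP) (p e : Fin m → ℕ) (r f : Fin k → ℕ)
  (w0 : ZMod 3) (c : Fin m → ZMod 3) (s : ℕ) (τ : Fin s → Fin 3) (b X Y : Fin s → ℤ)
  (P Q P' Q' : Fin s → Fin s → ℤ) (d : ℕ) (v : Fin d → ℤ), NF n π p e r f → h ≤ 2 →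
  PlS h n π w0 c τ b X Y P Q P' Q' → HB h n π w0 c v →
  ∃ M : ℕ, ∀ q : ℕ, q.Prime → M < q → q ∈ ZP v → q ∈ ZP b

/-! ### Linear algebra -/

/-- PTK_WSB: the vectors of the classes of points form a subspace. Proof: in `WGR_thm` (PTK/WGR.lean). -/
def Stmt_WSB : Prop := ∀ (h n m k : ℕ) (π : Fin m → PP) (p e : Fin m → ℕ) (r f : Fin k → ℕ)
  (w0 : ZMod 3) (c : Fin m → ZMod 3) (E q : ℕ), NF n π p e r f → h ≤ 2 →
  (E = 1 ∨ E = 2) → q.Prime → 3 < q → ¬ q ∣ n →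
  ∃ W : Submodule (ZMod 3) (Fin (m + 1) → ZMod 3),
    ∀ y, y ∈ W ↔ y ∈ WqS h n π p e r w0 c (BB h n E q)

/-- the number of the pairs, in terms of dimensions -/
def nTe (a₀ δ v v₀ : ℕ) : ℕ := δ * v₀ + ∑ i ∈ range a₀, (v - δ - 1 - i)

/-- the number of the pairs for the subspace `U` -/
noncomputable def nUe {M' : ℕ} (V V₀ U : Submodule (ZMod 3) (Fin M' → ZMod 3)) : ℕ :=
  nTe (Module.finrank (ZMod 3) ↥(U ⊓ V₀))
    (Module.finrank (ZMod 3) U - Module.finrank (ZMod 3) ↥(U ⊓ V₀))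
    (Module.finrank (ZMod 3) V) (Module.finrank (ZMod 3) V₀)

/-- PTK_LTE: a test configuration for a subspace `U`.
Proof. Let `v = dim V`, `v₀ = dim V₀`, `a₀ = dim (U ⊓ V₀)`, `δ = dim U - a₀`. A basis of `V` in the order: `δ` vectors of `U` which together with a basis of
`U ⊓ V₀` are a basis of `U` (they are independent modulo `V₀`), a basis of `U ⊓ V₀` (`a₀` vectors), its completion to a basis of `V₀`
(`v₀ - a₀` vectors), completion to a basis of `V` (`M = v`). Pairs `(i, i')`, `i < i'`: for `i < δ` all `i'` with `δ ≤ i' < δ + v₀`; for `δ ≤ i < δ + a₀` all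
`i' > i`: `δ v₀ + ∑_{i < a₀} (v - 1 - δ - i)` pairs. Enumerate them by `Fin N`. -/
def Stmt_LTE : Prop := ∀ (M' : ℕ) (V V₀ U : Submodule (ZMod 3) (Fin M' → ZMod 3)), V₀ ≤ V → U ≤ V →
  ∃ (M N : ℕ) (y : Fin M → Fin M' → ZMod 3) (α β : Fin N → Fin M),
    TeC V V₀ y α β ∧ (∀ j, y (α j) ∈ U) ∧ N = nUe V V₀ U

/-- the bound for the moment of order `k` of the number of the classes, `j` the codimension of `V₀` -/
noncomputable def gM : ℕ → ℕ → ℝ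
  | 0, _ => 1
  | k + 1, j => (1 + 3 ^ (k + 1) / 3 ^ j) * gM k j + (3 ^ j - 1) * 3 ^ k * gM k (j - 1)

/-- PTK_LSM: the sum over the tuples.
Proof. Let `v = dim V`, `v₀ = dim V₀`, `d = v - v₀`; for a subspace `U ≤ V` let `a = dim U`, `a₀ = dim (U ⊓ V₀)`, `δ = a - a₀`, `j = d - δ`
(`dim (U + V₀) = v₀ + δ ≤ v`). Claim: `∑_{Y : Fin k → V} 1 / 3^(nUe (U + span Y)) ≤ 3^(a k) gM k j / 3^(nUe U)`. Induction on `k`, `k = 0` clear. `Y = cons y Y'`: sum over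
`y ∈ V` of the claim for `U' = U + ⟨y⟩`. (1) `y ∈ U`: `U' = U`, `3^a` vectors: total `3^a 3^(a k) gM k j / 3^(nUe U)`. (2) `y ∈ (U + V₀) \ U`: `U' = U + ⟨x⟩` with
`x ∈ V₀ \ U`, so `a₀' = a₀ + 1`, `δ' = δ`, `nUe U' = nUe U + (v - δ - 1 - a₀)` (`sum_range_succ`), at most `3^(v₀ + δ)` vectors; `v₀ + δ - (v - δ - 1 - a₀) = a + 1 - j`,
total at most `3^(a + 1) / 3^j · 3^((a + 1) k) gM k j / 3^(nUe U) = 3^(a (k + 1)) (3^(k + 1) / 3^j) gM k j / 3^(nUe U)`. (3) `y ∈ V \ (U + V₀)`: `a₀' = a₀`, `δ' = δ + 1`,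
`nUe U' = nUe U + v₀ - a₀` (every term `v - δ - 1 - i`, `i < a₀`, decreases by one; `δ + 1 + a₀ ≤ v`), `3^(v₀ + δ) (3^j - 1)` vectors: total
`3^(v₀ + δ - v₀ + a₀) (3^j - 1) 3^((a + 1) k) gM k (j - 1) / 3^(nUe U) = 3^(a (k + 1)) 3^k (3^j - 1) gM k (j - 1) / 3^(nUe U)`. Take `U = ⊥` (`nUe ⊥ = 0`). -/
def Stmt_LSM : Prop := ∀ (M' : ℕ) (V V₀ : Submodule (ZMod 3) (Fin M' → ZMod 3)), V₀ ≤ V →
  ∀ k : ℕ, ∑ᶠ Y : Fin k → V, (1 : ℝ) /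
      3 ^ nUe V V₀ (Submodule.span (ZMod 3) (Set.range fun i => (Y i : Fin M' → ZMod 3))) ≤
    gM k (Module.finrank (ZMod 3) V - Module.finrank (ZMod 3) V₀)

/-- `(1 + 3)(1 + 9) ... (1 + 3^k)`: the moment of order `k` of the size of the kernel of a large random skew-symmetric matrix -/
noncomputable def MoB (k : ℕ) : ℝ := ∏ i ∈ range k, (1 + 3 ^ (i + 1))

/-- PTK_GMB: the values of `gM`.
Proof. Induction on `k`. `gM (k + 1) 1 = (1 + 3^k) MoB k + 2 · 3^k MoB k = (1 + 3^(k + 1)) MoB k`. `gM (k + 1) 2 ≤ (1 + 3^k / 3) 3 MoB k + 8 · 3^k MoB k =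
(3 + 9 · 3^k) MoB k = 3 MoB (k + 1)`, and `gM (k + 1) 2 ≥ 8 · 3^k MoB k + MoB k ≥ MoB (k + 1)`. -/
def Stmt_GMB : Prop := (∀ k, gM k 0 = MoB k) ∧ (∀ k, gM k 1 = MoB k) ∧
  (∀ k, MoB k ≤ gM k 2) ∧ (∀ k, gM k 2 ≤ 3 * MoB k) ∧ gM 1 2 = 28 / 3 ∧ (∀ k, 1 ≤ MoB k) ∧
  MoB 1 = 4 ∧ ∀ k, MoB k ^ 2 ≤ 64 / 25 * 3 ^ (k * (k + 1))

/-- PTK_WSM: sums weighted by powers of the number of the classes.
Proof. `ι = (Fin k₀ → VS)`; for `Y : ι` let `U = span (range Y) ≤ VS`, `(y, α, β)` from `LTE` for `V = VS`, `V₀ = V0` (`V0 ≤ VS`), `T Y E = {q | q ∈ S E ∧ ∀ j, Occ ..}`,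
`x Y = x₀ / 3^(nUe U)`. For a prime `q ∈ S E`, `q > max 3 n`: `WSB` gives the subspace `W ≤ VS` with the elements `WqS`,
`(card WqS)^k₀ = #(Fin k₀ → W) = ∑_Y [∀ i, Y i ∈ W] ≤ ∑_Y [q ∈ T Y E]` (if all `Y i ∈ W` then `U ≤ W`, `y (α j) ∈ U`). `UPS` (1) with `c = 1`, then `LSM` and `UPS` (2). -/
def Stmt_WSM : Prop := ∀ (h n m k : ℕ) (π : Fin m → PP) (p e : Fin m → ℕ) (r f : Fin k → ℕ)
  (w0 : ZMod 3) (c : Fin m → ZMod 3), NF n π p e r f → h ≤ 2 →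
  ∀ (k₀ : ℕ) (S : ℕ → Set ℕ) (G : ℕ → ℕ → ℝ) (x₀ : ℝ), 0 ≤ x₀ → (∀ E q, 0 ≤ G E q) →
  (∀ (M N : ℕ) (y : Fin M → Fin (m + 1) → ZMod 3) (α β : Fin N → Fin M),
    TeC (VS h n π p e r w0 c) (V0 h n π p e r w0 c) y α β →
    UpS (fun E => {q | q ∈ S E ∧ ∀ j, Occ (BB h n E q) (zN π e (y (α j)))}) G (x₀ / 3 ^ N)) →
  UpS S (fun E q => (Nat.card (WqS h n π p e r w0 c (BB h n E q)) : ℝ) ^ k₀ * G E q)
    (gM k₀ (vN h n π p e r w0 c - v0N h n π p e r w0 c) * x₀)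

/-! ### The law of the corank of a skew-symmetric matrix -/

/-- PTK_ESR: the recursion.
Proof. A skew-symmetric matrix of size `s + 1` is `[[A, x], [-xᵀ, 0]]` with `A` skew-symmetric of size `s` and a vector `x` (bijection; the diagonal is `0` since
`2 ≠ 0`). If `x` is in the column space of `A` (`3^(rank A)` vectors) then the rank is `rank A`: subtract `A`-combinations (congruence
`[[1, 0], [yᵀ, 1]]` with `x = A y`; `yᵀ A y = 0`). Otherwise it is `rank A + 2`. With `c = s - rank A`: the corank of the large matrix is `c + 1` with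
probability `3^(rank A - s) = 1 / 3^c`, and `c - 1` otherwise (then `c ≥ 1`; for `c = 0` the factor `1 - 1 / 3^c` is `0`). (Ranks: `AL.even_rank` or
`LinearMap.finrank_range_add_finrank_ker`; kernel of the large matrix: `{(y, t) : A y + t x = 0, xᵀ y = 0}`.) -/
def Stmt_ESR : Prop := ∀ (s : ℕ) (F : ℕ → ℝ), Esk (s + 1) F =
  Esk s (fun c => (1 - 1 / 3 ^ c) * F (c - 1) + 1 / 3 ^ c * F (c + 1))

/-- PTK_ESB: the moments.
Proof. `M s k = Esk s (3^(k c))`: by `ESR` (pointwise, also for `c = 0`): `M (s + 1) (k + 1) = 3^-(k+1) M s (k + 1) + (3^(k+1) - 3^-(k+1)) M s k`. Induction on `k` and `s`: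
`≤ MoB k (3^-(k+1) (1 + 3^(k+1)) + 3^(k+1) - 3^-(k+1)) = MoB k (1 + 3^(k+1))`. `M 0 k = 1`, `M s 0 = 1`. -/
def Stmt_ESB : Prop := ∀ s k : ℕ, Esk s (fun c => (3 : ℝ) ^ (k * c)) ≤ MoB k

/-- PTK_ESZ: the law for `q = 1 (mod 3)`.
Proof. Induction on `d` with `ESR`, for all `F`. `d = 0`: both sides are `F 1`. Step: let `T F c = (1 - 3^-c) F (c - 1) + 3^-c F (c + 1)`, `Esk (s + 1) F = Esk s (T F)`. `Esk (d + 2) F =
Esk (d + 1) (T F) = (1 - 3^-d) Esk (d - 1) (T F) + 3^-d Esk d (fun c => T F (c + 1))`; the first term is `(1 - 3^-d) Esk d F` (for `d = 0` both are `0`), and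
pointwise `3 T F (c + 1) = 2 F c + T (fun c => F (c + 1)) c` (both are `(3 - 3^-c) F c + 3^-c F (c + 2)`), so the second one is
`3^-d (2/3 Esk d F + 1/3 Esk (d + 1) (fun c => F (c + 1)))`. -/
def Stmt_ESZ : Prop := ∀ (d : ℕ) (F : ℕ → ℝ),
  (1 - 1 / 3 ^ d) * Esk (d - 1) F + 1 / 3 ^ d * Esk d (fun c => F (c + 1)) = Esk (d + 1) F

/-- PTK_KUM: from tails to averages, for every monotone function. As `KUP_thm` (PTK/KUP.lean): `DOMG`, `LAW` (first part, `v = 0`). -/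
def Stmt_KUM : Prop := ∀ (S : ℕ → Set ℕ) (R : ℕ → ℕ → ℕ) (s M : ℕ) (x : ℝ), 0 ≤ x →
  (∀ E q, (E = 1 ∨ E = 2) → q.Prime → M < q → q ∈ S E → R E q ≤ s) →
  (∀ t, ∃ K : ℝ, ∀ σ : ℝ, 1 < σ → σ ≤ 2 →
    BDENS.sm {q | q ∈ S 1 ∧ t ≤ R 1 q} σ + BDENS.sm {q | q ∈ S 2 ∧ t ≤ R 2 q} σ ≤
      x * LI s t * Real.log (1 / (σ - 1)) + K) →
  ∀ F : ℕ → ℝ, Monotone F → 0 ≤ F 0 → UpS S (fun E q => F (R E q)) (Esk s F * x)

/-! ### Joint averages -/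

/-- PTK_JP2: `q = 2 (mod 3)`.
Proof. `WSM` with `S E = {q | q % 3 = 2 ∧ InCT E π w0 c q}`, `G E q = F (kS ..)`, `x₀ = Esk s F / 3^(m+1) ≥ 0`; the hypothesis for a configuration: `KUM` for
`S' E = {q | q ∈ S E ∧ ∀ j, Occ ..} = QM .. 2 E`, `R = kS`, `x = 1 / 3^N / 3^(m+1)`, with `MT2`. -/
def Stmt_JP2 : Prop := ∀ (h n m k : ℕ) (π : Fin m → PP) (p e : Fin m → ℕ) (r f : Fin k → ℕ)
  (w0 : ZMod 3) (c : Fin m → ZMod 3) (s : ℕ) (τ : Fin s → Fin 3) (b X Y : Fin s → ℤ)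
  (P Q P' Q' : Fin s → Fin s → ℤ), NF n π p e r f → h ≤ 2 → PlS h n π w0 c τ b X Y P Q P' Q' →
  ∀ (k₀ : ℕ) (F : ℕ → ℝ), Monotone F → 0 ≤ F 0 →
  UpS (fun E => {q | q % 3 = 2 ∧ InCT E π w0 c q})
    (fun E q => (Nat.card (WqS h n π p e r w0 c (BB h n E q)) : ℝ) ^ k₀ *
      F (kS h n b X Y P Q P' Q' E q))
    (gM k₀ (vN h n π p e r w0 c - v0N h n π p e r w0 c) * (Esk s F / 3 ^ (m + 1)))

/-- PTK_JPG: `q = 1 (mod 3)`, one pattern. As `JP2`, with `MTU` (`s = d - 1`: `PlU.dim`). -/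
def Stmt_JPG : Prop := ∀ (h n m k : ℕ) (π : Fin m → PP) (p e : Fin m → ℕ) (r f : Fin k → ℕ)
  (w0 : ZMod 3) (c : Fin m → ZMod 3) (d : ℕ) (v : Fin d → ℤ) (δ : Fin d → ZMod 3)
  (s : ℕ) (τ : Fin s → Fin 3) (b : Fin (s + 1) → ℤ) (X Y : Fin s → ℤ)
  (P Q P' Q' : Fin (s + 1) → Fin (s + 1) → ℤ), NF n π p e r f → h ≤ 2 → δ ≠ 0 →
  PlU h n π w0 c v δ τ b X Y P Q P' Q' →
  ∀ (k₀ : ℕ) (F : ℕ → ℝ), Monotone F → 0 ≤ F 0 →
  UpS (fun E => {q | q % 3 = 1 ∧ InCT E π w0 c q ∧ q ∈ Pat v δ})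
    (fun E q => (Nat.card (WqS h n π p e r w0 c (BB h n E q)) : ℝ) ^ k₀ *
      F (kU h n b X Y P Q P' Q' E q))
    (gM k₀ (vN h n π p e r w0 c - v0N h n π p e r w0 c) *
      (Esk (d - 1) F * (2 / 3 ^ d / 3 ^ (m + 1))))

/-- PTK_JPZ: `q = 1 (mod 3)`, zero pattern. As `JP2`, with `MTZ`. -/
def Stmt_JPZ : Prop := ∀ (h n m k : ℕ) (π : Fin m → PP) (p e : Fin m → ℕ) (r f : Fin k → ℕ)
  (w0 : ZMod 3) (c : Fin m → ZMod 3) (s : ℕ) (τ : Fin s → Fin 3) (b X Y : Fin s → ℤ)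
  (P Q P' Q' : Fin s → Fin s → ℤ), NF n π p e r f → h ≤ 2 → PlS h n π w0 c τ b X Y P Q P' Q' →
  ∀ (k₀ : ℕ) (F : ℕ → ℝ), Monotone F → 0 ≤ F 0 →
  UpS (fun E => {q | q % 3 = 1 ∧ InCT E π w0 c q ∧ q ∈ ZP b})
    (fun E q => (Nat.card (WqS h n π p e r w0 c (BB h n E q)) : ℝ) ^ k₀ *
      F (kS h n b X Y P Q P' Q' E q))
    (gM k₀ (vN h n π p e r w0 c - v0N h n π p e r w0 c) *
      (Esk s F * (1 / 3 ^ s / 3 ^ (m + 1))))

/-! ### Averages in a class -/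

/-- the bound for the average of the rank in a class -/
noncomputable def aW (d : ℕ) : ℝ := if d ≤ 1 then 9 / 4 else 335 / 108

/-- the bound for the moments of the number of the classes -/
noncomputable def cM (k d : ℕ) : ℝ := if d ≤ 1 then MoB k else gM k 2

/-- PTK_AM2: the averages in a class, `q = 2 (mod 3)`.
Proof. As `AV2_thm` (PTK/AV2.lean). System from `PLE`. For large `q`: `rr B ≤ w + κ`, `card WqS = 3^w` (`NBW`, `WGR`). Moments: `3^(k₀ rr B) ≤ (card WqS)^k₀ 3^(k₀ κ)`: `JP2` with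
`F c = 3^(k₀ c)`, `ESB`, and `gM k₀ (v - v₀) ≤ cM k₀ dN` (`v - v₀ ≤ dN ≤ 2`: `VDIM`; `GMB`). Rank: `rr B ≤ 1/2 + card WqS / 6 + κ` (`dN ≤ 1`), `rr B ≤ 3/2 + card WqS / 18 + κ`
(`dN = 2`; see `AVR_thm`); `JP2` with `(k₀, F) = (1, 1)`, `(0, id)`, `(0, 1)` (`gM 0 _ = 1`), `LAM` (`Esk s id ≤ 13/12`), `gM 1 0 = gM 1 1 = 4`, `gM 1 2 = 28/3` (`gM 1 (v - v₀) ≤ 28/3`):
`1/2 + 4/6 + 13/12 = 9/4`, `3/2 + 28/54 + 13/12 = 335/108`. `UPS`, `UPA`. -/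
def Stmt_AM2 : Prop := ∀ (h n m k : ℕ) (π : Fin m → PP) (p e : Fin m → ℕ) (r f : Fin k → ℕ)
  (w0 : ZMod 3) (c : Fin m → ZMod 3), NF n π p e r f → h ≤ 2 →
  AboveA ((3 ^ h * n : ℕ) : ℤ) 2 (Kl π w0 c) (fun A => (CubeRank.rr A : ℝ))
    (aW (dN h n w0) / 3 ^ (m + 1)) ∧
  ∀ k₀ : ℕ, AboveA ((3 ^ h * n : ℕ) : ℤ) 2 (Kl π w0 c) (fun A => 3 ^ (k₀ * CubeRank.rr A))
    (cM k₀ (dN h n w0) * MoB k₀ / 3 ^ (m + 1))

/-- PTK_AM1: the averages in a class, `q = 1 (mod 3)`.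
Proof. As `AV1_thm` (PTK/AV1.lean). `v` from `NHPT` (`d = sN`, `HB`); for every `δ ≠ 0` a system (`PLU`), and the system `b : Fin sN → ℤ` of `PLE`. For large `q` of the class:
if `q ∈ ZP v` then `q ∈ ZP b` (`ZPV`) and `rr B ≤ w + 1 + κ` (`NBX`), otherwise `rr B ≤ w + κ_δ` for at least two `δ ≠ 0` with `q ∈ Pat v δ` (`PAT`, `NBU`). Let `N = card WqS = 3^w`, `g = gM k₀ (v - v₀)`.
Moments: `2 · 3^(k₀ rr B) ≤ ∑_δ [q ∈ Pat v δ] N^k₀ 3^(k₀ κ_δ) + [q ∈ ZP b] 2 N^k₀ 3^(k₀ (κ + 1))`; `UPS` (1) with `c = 2`, `JPG` (`F c = 3^(k₀ c)`), `JPZ` (`F c = 3^(k₀ (c + 1))`):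
`(1/2) ((3^d - 1)(2 / 3^d) Esk (d - 1) F + 2 (1 / 3^d) Esk d (F (· + 1))) g / 3^(m+1) = g Esk (d + 1) F / 3^(m+1)` (`ESZ`) `≤ g MoB k₀ / 3^(m+1)` (`ESB`). Rank: with
`l = 1/2 + N/6` or `3/2 + N/18`: `2 rr B ≤ ∑_δ [q ∈ Pat v δ] (l + κ_δ) + [q ∈ ZP b] 2 (l + κ + 1)`; `JPG`, `JPZ` with `k₀ = 0, 1`: the total is
`l-part + Esk (d + 1) id ≤ l-part + 13/12` (`ESZ` for `F = id` and for `F = 1`, `LAM`). -/
def Stmt_AM1 : Prop := ∀ (h n m k : ℕ) (π : Fin m → PP) (p e : Fin m → ℕ) (r f : Fin k → ℕ)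
  (w0 : ZMod 3) (c : Fin m → ZMod 3), NF n π p e r f → h ≤ 2 →
  AboveA ((3 ^ h * n : ℕ) : ℤ) 1 (Kl π w0 c) (fun A => (CubeRank.rr A : ℝ))
    (aW (dN h n w0) / 3 ^ (m + 1)) ∧
  ∀ k₀ : ℕ, AboveA ((3 ^ h * n : ℕ) : ℤ) 1 (Kl π w0 c) (fun A => 3 ^ (k₀ * CubeRank.rr A))
    (cM k₀ (dN h n w0) * MoB k₀ / 3 ^ (m + 1))

/-! ### The theorem -/

/-- PTK_AMF: the averages over all `A`.
Proof. As `AVF_thm` (PTK/AVF.lean): `SUMA`, `AM2`, `AM1`. `h = 1, 2`: `dN ≤ 1`. `h = 0`: one of the three `w0` has `dN = 2`, the others `dN = 1`: `(2 · 9/4 + 335/108)/3 = 821/324`,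
`(2 MoB k + gM k 2) MoB k / 3 ≤ (5/3) (MoB k)²`, for `k = 1`: `(8 + 28/3) 4 / 3 = 208/9`. -/
def Stmt_AMF : Prop := ∀ (h n m k : ℕ) (π : Fin m → PP) (p e : Fin m → ℕ) (r f : Fin k → ℕ),
  NF n π p e r f → h ≤ 2 → ∀ a : ℕ, (a = 1 ∨ a = 2) →
  AboveA ((3 ^ h * n : ℕ) : ℤ) a (fun _ => True) (fun A => (CubeRank.rr A : ℝ)) (821 / 324) ∧
  AboveA ((3 ^ h * n : ℕ) : ℤ) a (fun _ => True) (fun A => 3 ^ CubeRank.rr A) (208 / 9) ∧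
  (∀ k₀ : ℕ, AboveA ((3 ^ h * n : ℕ) : ℤ) a (fun _ => True)
    (fun A => 3 ^ (k₀ * CubeRank.rr A)) (5 / 3 * MoB k₀ ^ 2)) ∧
  (h ≠ 0 →
    AboveA ((3 ^ h * n : ℕ) : ℤ) a (fun _ => True) (fun A => (CubeRank.rr A : ℝ)) (9 / 4) ∧
    ∀ k₀ : ℕ, AboveA ((3 ^ h * n : ℕ) : ℤ) a (fun _ => True)
      (fun A => 3 ^ (k₀ * CubeRank.rr A)) (MoB k₀ ^ 2))

/-- PTK_MTL: from moments to tails. Proof: `tf (t ≤ r) ≤ 3^(k r) / 3^(k t)` pointwise. -/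
def Stmt_MTL : Prop := ∀ (n : ℤ) (a : ℕ) (W : ℤ → Prop) (k t : ℕ) (x : ℝ),
  AboveA n a W (fun A => 3 ^ (k * CubeRank.rr A)) x →
  AboveA n a W (fun A => tf (t ≤ CubeRank.rr A)) (x / 3 ^ (k * t))

/-- PTK_MAM: the theorem.
Proof. As `MAJ_thm` (PTK/MAJ.lean): `NFE`, `AMF`, `AM2`, `AM1`, `TRU`. `3 ∣ N` iff `h ≠ 0`. Tails: `MTL` with `t = 2 k + 1` and `GMB` (last part):
`(5/3)(64/25) 3^(k (k + 1)) / 3^(k (2 k + 1)) = (64/15) / 3^(k²)`. Classes of units `u`: `w0 = wt (U²)`, `aW ≤ 335/108`, `cM k dN ≤ 3 MoB k`; if `3 ∣ N` or `N u ≠ ± 1 (mod 9)` then `dN ≤ 1`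
(for `h = 0`: `wt (n²) + w0 = wt ((n U)²) = 0` iff `n U = ± 1 (mod 9)`: `FIN.wt_res`, `FIN.cls_iff` in PTL/FIN.lean, see PTN/MAINN.lean). -/
def Stmt_MAM : Prop := ∀ N : ℕ, 0 < N → (∀ p : ℕ, p.Prime → ¬ p ^ 3 ∣ N) →
  ∀ m : ℕ, m = (N.primeFactors.filter (fun p => p % 3 = 1)).card → ∀ a : ℕ, (a = 1 ∨ a = 2) →
  AboveA N a (fun _ => True) (fun A => (CubeRank.rr A : ℝ)) (821 / 324) ∧
  AboveA N a (fun _ => True) (fun A => 3 ^ CubeRank.rr A) (208 / 9) ∧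
  (∀ k : ℕ, AboveA N a (fun _ => True) (fun A => 3 ^ (k * CubeRank.rr A)) (5 / 3 * MoB k ^ 2)) ∧
  (∀ k : ℕ, AboveA N a (fun _ => True) (fun A => tf (2 * k + 1 ≤ CubeRank.rr A))
    (64 / 15 / 3 ^ k ^ 2)) ∧
  (3 ∣ N →
    AboveA N a (fun _ => True) (fun A => (CubeRank.rr A : ℝ)) (9 / 4) ∧
    (∀ k : ℕ, AboveA N a (fun _ => True) (fun A => 3 ^ (k * CubeRank.rr A)) (MoB k ^ 2)) ∧
    ∀ k : ℕ, AboveA N a (fun _ => True) (fun A => tf (2 * k + 1 ≤ CubeRank.rr A))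
      (64 / 25 / 3 ^ k ^ 2)) ∧
  ∀ u : (ZMod (9 * N))ˣ,
    AboveA N a (fun y => ∃ x : ℤ, ((9 * N : ℕ) : ℤ) ∣ y - ((u : ZMod (9 * N)).val : ℤ) * x ^ 3)
      (fun A => (CubeRank.rr A : ℝ)) (335 / 108 / 3 ^ (m + 1)) ∧
    (∀ k : ℕ, AboveA N a
      (fun y => ∃ x : ℤ, ((9 * N : ℕ) : ℤ) ∣ y - ((u : ZMod (9 * N)).val : ℤ) * x ^ 3)
      (fun A => 3 ^ (k * CubeRank.rr A)) (3 * MoB k ^ 2 / 3 ^ (m + 1))) ∧
    (3 ∣ N ∨ ((N * (u : ZMod (9 * N)).val) % 9 ≠ 1 ∧ (N * (u : ZMod (9 * N)).val) % 9 ≠ 8) →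
      AboveA N a (fun y => ∃ x : ℤ, ((9 * N : ℕ) : ℤ) ∣ y - ((u : ZMod (9 * N)).val : ℤ) * x ^ 3)
        (fun A => (CubeRank.rr A : ℝ)) (9 / 4 / 3 ^ (m + 1)) ∧
      ∀ k : ℕ, AboveA N a
        (fun y => ∃ x : ℤ, ((9 * N : ℕ) : ℤ) ∣ y - ((u : ZMod (9 * N)).val : ℤ) * x ^ 3)
        (fun A => 3 ^ (k * CubeRank.rr A)) (MoB k ^ 2 / 3 ^ (m + 1)))

end Pool.Agent.PTK


end

section

/-!
# The law of the ranks of prime twists for `q = 1 (mod 3)`: a skew-symmetric matrix of size `s + 1`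

Upgrade of the law of `PTN` (hand-in PrimeTwistDistribution): for `q = 1 (mod 3)` the law is that of `v + (s + 1 - rank M)`, `M` a random
skew-symmetric matrix of size `s + 1` (before: size `s - 1`, except with probability `3^-s`, when only `v + s + 1` was known). The new input is the matrix
for the zero pattern (`NBX`, `MTZ` of StW). Everything of the other statement files may be imported or taken as a hypothesis.
-/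

set_option autoImplicit false

open NumberField IsDedekindDomain Finset
open scoped nonZeroDivisors Pointwise

namespace Pool.Agent.PTK

open Pool.Agent.Lib_helper18 Pool.Agent.Lib_helper18.Eis Pool.Agent.Lib_helper84.Cub
open Pool.Agent.PT Pool.Agent.PTE Pool.Agent.PT3 Pool.Agent.PTL Pool.Agent.PTN

/-- PTK_CLV: the distribution of the rank in a class, `q = 1 (mod 3)`.
Proof. `d = sN`, `v` from `NHPT`, the system `b : Fin sN → ℤ` from `PLE`; `τ = t - vN`. (1) Primes not in `ZP v`: as in `CLU_thm` (PTN/CLU.lean; `DLU`, `SMT`, every such prime is in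
`Pat v δ` for two `δ ≠ 0`: `PAT`): `≤ (1 - 1 / 3^d) LI (d - 1) τ / 3^(m+1) log + K`. (2) Primes in `ZP v`, large: `q ∈ ZP b` (`ZPV`), `rr B ≤ vN + 1 + kS` (`NBX`; `WqS ⊆ VS` gives
`Nat.log 3 (card WqS) ≤ vN`; `CubeRank.rr_le`), so `t ≤ rr B` implies `τ - 1 ≤ kS`; `MTZ` for the empty configuration (`M = N = 0`; `QM .. 1 E` is then `q % 3 = 1 ∧ InCT`):
`≤ (1 / 3^d) LI d (τ - 1) / 3^(m+1) log + K`. (3) The sum of the two bounds is `LI (d + 1) τ / 3^(m+1)`: `ESZ` for `F c = [τ ≤ c]` (`Esk_ind` in PTN/LAW.lean;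
`[τ ≤ c + 1] = [τ - 1 ≤ c]`). -/
def Stmt_CLV : Prop := ∀ (h n m k : ℕ) (π : Fin m → PP) (p e : Fin m → ℕ) (r f : Fin k → ℕ)
  (w0 : ZMod 3) (c : Fin m → ZMod 3), NF n π p e r f → h ≤ 2 →
  ∀ t : ℕ, ∃ K : ℝ, ∀ σ : ℝ, 1 < σ → σ ≤ 2 →
    BDENS.sm (WR h n π w0 c 1 1 t) σ + BDENS.sm (WR h n π w0 c 1 2 t) σ ≤
      LI (sN h n π p e r w0 c + 1) (t - vN h n π p e r w0 c) / 3 ^ (m + 1) *
        Real.log (1 / (σ - 1)) + K

/-- PTK_CAV: averages in a class, `q = 1 (mod 3)`. As `CAB_thm` (PTN/CAB.lean), first part, with `CLV` in place of `CLN` (and the first part of `CLU`); `LAW` (first part) for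
`s = sN + 1`. -/
def Stmt_CAV : Prop := ∀ (h n m k : ℕ) (π : Fin m → PP) (p e : Fin m → ℕ) (r f : Fin k → ℕ)
  (w0 : ZMod 3) (c : Fin m → ZMod 3), NF n π p e r f → h ≤ 2 →
  ∀ F : ℕ → ℝ, Monotone F → 0 ≤ F 0 →
  AboveA ((3 ^ h * n : ℕ) : ℤ) 1 (Kl π w0 c) (fun A => F (CubeRank.rr A))
    (Esk (sN h n π p e r w0 c + 1) (fun x => F (vN h n π p e r w0 c + x)) / 3 ^ (m + 1))

/-- PTK_CBV: lower bounds in a class, `q = 1 (mod 3)`. As `CBE_thm` (PTN/CBE.lean), first part, with `CLV`. -/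
def Stmt_CBV : Prop := ∀ (h n m k : ℕ) (π : Fin m → PP) (p e : Fin m → ℕ) (r f : Fin k → ℕ)
  (w0 : ZMod 3) (c : Fin m → ZMod 3), NF n π p e r f → h ≤ 2 → ∀ (t : ℕ) (R : ℤ → Prop),
  (∀ A : ℤ, A ≠ 0 → CubeRank.GenBy A (CubeRank.rr A) → CubeRank.rr A < t → R A) →
  BelowA ((3 ^ h * n : ℕ) : ℤ) 1 (Kl π w0 c) (fun A => tf (R A))
    ((1 - LI (sN h n π p e r w0 c + 1) (t - vN h n π p e r w0 c)) / 3 ^ (m + 1))

open Classical in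
/-- PTK_ALV: the averages over all `A`, `q = 1 (mod 3)`. As `ALLQ_thm` (PTN/ALLQ.lean), the parts for `a = 2`, with `CAV`, `CBV`; `LAW` for the size `sN + 1`. -/
def Stmt_ALV : Prop := ∀ (h n m k : ℕ) (π : Fin m → PP) (p e : Fin m → ℕ) (r f : Fin k → ℕ),
  NF n π p e r f → h ≤ 2 → ∀ μ : ℕ, μ = m + (if h = 1 then 0 else 1) →
  AboveA ((3 ^ h * n : ℕ) : ℤ) 1 (fun _ => True) (fun A => 3 ^ CubeRank.rr A)
    (4 * (5 / 3) ^ μ) ∧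
  (Even (k + if h = 1 then 1 else 0) →
    BelowA ((3 ^ h * n : ℕ) : ℤ) 1 (fun _ => True) (fun A => tf (CubeRank.rr A ≤ 1))
      (23 / 24 * (2 / 3) ^ μ)) ∧
  (Odd (k + if h = 1 then 1 else 0) →
    BelowA ((3 ^ h * n : ℕ) : ℤ) 1 (fun _ => True)
      (fun A => tf (¬ ∃ X Y : ℚ, X ^ 3 + Y ^ 3 = (A : ℚ))) (5 / 8 * (2 / 3) ^ μ))

open Classical in
/-- PTK_MAV: the theorem.
Proof. As `MAINQ_thm` (PTN/MAINQ.lean) with `CAV`, `CBV`, `ALV` for `q = 1 (mod 3)`. (`Stmt_MAINQ` alone does not suffice because the functions `v`, `s` are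
existentially quantified: repeat the proof with the new inputs.) -/
def Stmt_MAV : Prop := ∀ N : ℕ, 0 < N → (∀ p : ℕ, p.Prime → ¬ p ^ 3 ∣ N) →
  ∀ m k δ μ : ℕ, m = (N.primeFactors.filter (fun p => p % 3 = 1)).card →
  k = (N.primeFactors.filter (fun p => p % 3 = 2)).card →
  δ = (if 3 ∣ N ∧ ¬ 9 ∣ N then 1 else 0) → μ + δ = m + 1 →
  (∃ v s : (ZMod (9 * N))ˣ → ℕ,
    (∀ u : (ZMod (9 * N))ˣ, s u + (if Nu1 N u then 1 else 0) = v u + k + δ) ∧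
    (∑ᶠ u : (ZMod (9 * N))ˣ, (3 : ℝ) ^ v u ≤ (5 / 3) ^ μ * (9 * N).totient) ∧
    ((2 / 3 : ℝ) ^ μ * (9 * N).totient ≤
      Nat.card {u : (ZMod (9 * N))ˣ // v u = 0 ∧ ¬ Nu1 N u}) ∧
    (¬ 3 ∣ N → (∃ p : ℕ, p.Prime ∧ p ∣ N ∧ (p % 9 = 2 ∨ p % 9 = 5)) →
      1 / 3 * (2 / 3 : ℝ) ^ m * (9 * N).totient ≤
        Nat.card {u : (ZMod (9 * N))ˣ // v u = 0 ∧ Nu1 N u}) ∧
    (∀ (u : (ZMod (9 * N))ˣ) (F : ℕ → ℝ), Monotone F → 0 ≤ F 0 →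
      AboveA N 2 (Cu N u) (fun A => F (CubeRank.rr A))
        (Esk (s u) (fun x => F (v u + x)) / 3 ^ (m + 1)) ∧
      AboveA N 1 (Cu N u) (fun A => F (CubeRank.rr A))
        (Esk (s u + 1) (fun x => F (v u + x)) / 3 ^ (m + 1))) ∧
    ∀ u : (ZMod (9 * N))ˣ, v u = 0 →
      (Even (s u) →
        BelowA N 2 (Cu N u) (fun A => tf (¬ ∃ X Y : ℚ, X ^ 3 + Y ^ 3 = (A : ℚ)))
          (5 / 8 / 3 ^ (m + 1)) ∧
        BelowA N 1 (Cu N u) (fun A => tf (CubeRank.rr A ≤ 1)) (23 / 24 / 3 ^ (m + 1))) ∧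
      (Odd (s u) →
        BelowA N 2 (Cu N u) (fun A => tf (CubeRank.rr A ≤ 1)) (23 / 24 / 3 ^ (m + 1)) ∧
        BelowA N 1 (Cu N u) (fun A => tf (¬ ∃ X Y : ℚ, X ^ 3 + Y ^ 3 = (A : ℚ)))
          (5 / 8 / 3 ^ (m + 1)))) ∧
  (∃ M : ℕ, ∀ q e : ℕ, q.Prime → M < q → (e = 1 ∨ e = 2) →
    CubeRank.GenBy (N * q ^ e) (CubeRank.rr (N * q ^ e))) ∧
  AboveA N 2 (fun _ => True) (fun A => 3 ^ CubeRank.rr A) (4 * (5 / 3) ^ μ) ∧
  AboveA N 1 (fun _ => True) (fun A => 3 ^ CubeRank.rr A) (4 * (5 / 3) ^ μ) ∧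
  (Even (k + δ) →
    BelowA N 2 (fun _ => True)
      (fun A => tf (¬ ∃ X Y : ℚ, X ^ 3 + Y ^ 3 = (A : ℚ))) (5 / 8 * (2 / 3) ^ μ) ∧
    BelowA N 1 (fun _ => True) (fun A => tf (CubeRank.rr A ≤ 1)) (23 / 24 * (2 / 3) ^ μ)) ∧
  (Odd (k + δ) →
    BelowA N 2 (fun _ => True) (fun A => tf (CubeRank.rr A ≤ 1)) (23 / 24 * (2 / 3) ^ μ) ∧
    BelowA N 1 (fun _ => True)
      (fun A => tf (¬ ∃ X Y : ℚ, X ^ 3 + Y ^ 3 = (A : ℚ))) (5 / 8 * (2 / 3) ^ μ))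

end Pool.Agent.PTK


end

section

/-!
# Full law of the ranks of prime twists: the pairing of the minus part

Stage 4 of the project PTK, part 1. The classes of the minus part (elements `z` of `Z[w]` with `z conj z` a cube) get an
alternating matrix too, as the rational classes in `PT3/Stmts.lean` (`OT`, `TADT`, `TALT`, `TPT`, `TENT`). Everything of
`StL`, …, `StX` (stages 1, 2, 3; all proved: `X_thm` in `PTK/X.lean`) and of `PT`, `PTE`, `PT3`, `PTL`, `PTN` may be imported or taken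
as a hypothesis; other statements of this file may be hypotheses if your docstring says so.

`SolE b x p q p' q'`: base `b`, norm `x`; then `SolE x b p (-p') (-q) q'`: base `x`, norm `b`. The identities at the
tame places were checked numerically (41283 random cases).
-/

set_option autoImplicit false

open NumberField IsDedekindDomain Finset
open scoped nonZeroDivisors Pointwise

namespace Pool.Agent.PTK

open Pool.Agent.Lib_helper18 Pool.Agent.Lib_helper18.Eis Pool.Agent.Lib_helper84.Cub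
open Pool.Agent.PT Pool.Agent.PTE Pool.Agent.PT3 Pool.Agent.PTL Pool.Agent.PTN

/-! ### Definitions -/

/-- The sum of the local terms `U_v = (B, G_1/G_2) + (w, B x b)`. -/
def UVE (s : Eis → Eis → ZMod 3) (B b x p q p' q' : Eis) : ZMod 3 :=
  s B (GfE p q p' q' 1) - s B (GfE p q p' q' 2) + s w (B * x * b)

open Classical in
/-- the value of `ASE` at all good approximations of a cube root of `b` -/
noncomputable def AVE (v : Pl) (B b p q p' q' : Eis) : ZMod 3 :=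
  if h : ∃ c : ZMod 3, ∃ N0 : ℕ, ∀ r : Eis, uni v ^ N0 ∣ r ^ 3 - b →
      ASE (sy v) B p q p' q' r = c then h.choose else 0

open Classical in
/-- the local term of the pair `(b, η)`, `η = (p + q T)/(p' + q' T)` of norm `x` from `K(b^(1/3))`, at a tame place -/
noncomputable def TTE (π : PP) (B b x p q p' q' : Eis) : ZMod 3 :=
  if LCE π.1 b then AVE (some π) B b p q p' q' + tm π.1 w x
  else if 3 ∣ V π.1 b + V π.1 B ∧ ¬ 3 ∣ V π.1 b then - tm π.1 w x else 0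

/-- the alternating form of two local classes at `λ` -/
noncomputable def lfE (b x : Eis) : ZMod 3 := sl b 4 * sl x 3 - sl b 3 * sl x 4

open Classical in
/-- the local term at `λ` -/
noncomputable def LTE (B b x p q p' q' : Eis) : ZMod 3 :=
  if LCE lam b then AVE none B b p q p' q' + sl w x
  else if LCE lam x then
    UVE sl B b x p q p' q' - (AVE none B x p (-p') (-q) q' + sl w b)
  else lfE b x

/-- The pairing. -/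
noncomputable def OZE (B b x p q p' q' : Eis) : ZMod 3 :=
  LTE B b x p q p' q' + ∑ᶠ π : PP, TTE π B b x p q p' q'

/-- conditions on `B` -/
structure BGE (B : Eis) : Prop where
  ne : B ≠ 0
  cf : ∀ π : PP, V π.1 B ≤ 2

/-- the conditions on the class `b` outside `3` -/
structure AGE (B b : Eis) : Prop where
  ne : b ≠ 0
  sym : ∀ π : PP, tm π.1 b B = 0
  unr : ∀ π : PP, ¬ π.1 ∣ B → ¬ π.1 ∣ b

/-- a class of the minus part, prime to `λ` -/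
structure MCl (b : Eis) : Prop where
  nl : ¬ lam ∣ b
  cb : ∃ t : Eis, b * conj b = t ^ 3

/-- `(p + qT)/(p' + q'T)` is the product of two elements, `T^3 = b` -/
structure PRelE (b p₁ q₁ p₁' q₁' p₂ q₂ p₂' q₂' p q p' q' : Eis) : Prop where
  e0 : p₁ * p₂ * p' + b * (q₁ * q₂ * q') = p₁' * p₂' * p + b * (q₁' * q₂' * q)
  e1 : (p₁ * q₂ + q₁ * p₂) * p' + p₁ * p₂ * q' = (p₁' * q₂' + q₁' * p₂') * p + p₁' * p₂' * q
  e2 : q₁ * q₂ * p' + (p₁ * q₂ + q₁ * p₂) * q' = q₁' * q₂' * p + (p₁' * q₂' + q₁' * p₂') * q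

/-! ### Tame places -/

/-- PTK_AVE: the value `AVE` is attained. Copy of `PT/ROOT.lean` and `PT/AVV.lean` (`STM`, `SPP`, `SLC`, `Stmt_LCI`). -/
def Stmt_AVE : Prop := ∀ (v : Pl) (B b x p q p' q' : Eis), B ≠ 0 → b ≠ 0 → x ≠ 0 →
  SolWE b x p q p' q' → sy v B x = 0 → LCE (uni v) b →
  (∃ N0 : ℕ, ∀ r : Eis, uni v ^ N0 ∣ r ^ 3 - b →
    ASE (sy v) B p q p' q' r = AVE v B b p q p' q') ∧
  (∀ (c : ZMod 3) (N0 : ℕ), (∀ r : Eis, uni v ^ N0 ∣ r ^ 3 - b →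
    ASE (sy v) B p q p' q' r = c) → AVE v B b p q p' q' = c)

/-- PTK_F2E: `(B, α_b) = (B, k_0) + (w, B)` when `b` is a local cube and `x` is not. As `f2bg` in `PT3/TAMG.lean` (`Stmt_IF2`). -/
def Stmt_F2E : Prop := ∀ (π : PP) (B b x p q p' q' : Eis), BGE B → AGE B b → AGE B x →
  SolE b x p q p' q' → LCE π.1 b → ¬ LCE π.1 x →
  ∃ N0 : ℕ, ∀ r : Eis, π.1 ^ N0 ∣ r ^ 3 - b →
    ASE (tm π.1) B p q p' q' r =
      tm π.1 B (GfE p q p' q' 1) - tm π.1 B (GfE p q p' q' 2) + tm π.1 w B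

/-- PTK_F3E: two noncubes at a place dividing `B`. As `f3rg` in `PT3/TAMG.lean` and `PT/F3R.lean`. -/
def Stmt_F3E : Prop := ∀ (π : PP) (B b x p q p' q' : Eis), BGE B → AGE B b → AGE B x →
  SolE b x p q p' q' → π.1 ∣ B → ¬ 3 ∣ V π.1 b → ¬ 3 ∣ V π.1 x →
    UVE (tm π.1) B b x p q p' q' =
      (if 3 ∣ V π.1 b + V π.1 B then - tm π.1 w x else 0) +
      (if 3 ∣ V π.1 x + V π.1 B then - tm π.1 w b else 0)

/-- PTK_F4E: two noncubes at a place not dividing `B`. As `f3ug` in `PT3/TAMG.lean` and `PT/F3U.lean`. -/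
def Stmt_F4E : Prop := ∀ (π : PP) (B b x p q p' q' : Eis), BGE B → AGE B b → AGE B x →
  SolE b x p q p' q' → ¬ π.1 ∣ B → ch π.1 b ≠ 0 → ch π.1 x ≠ 0 →
    UVE (tm π.1) B b x p q p' q' = 0

/-- PTK_LEE: the local evaluation at the tame places. Copy of `PT3/LEVG.lean` and the lemmas of `PT/LEV.lean` (hypotheses `Stmt_AVE`,
`Stmt_F2E`, `Stmt_F3E`, `Stmt_F4E`, `Stmt_IF1`, `Stmt_IF2`, `Stmt_IF4`, `Stmt_IF4B`, `Stmt_F6R`, `Stmt_F7U`, `Stmt_LFV`, `Stmt_LCI`). -/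
def Stmt_LEE : Prop := ∀ (π : PP) (B b x p q p' q' X Y : Eis), BGE B → AGE B b → AGE B x →
  SolE b x p q p' q' → PtE B x X Y → DNE X Y p q p' q' →
    TTE π B b x p q p' q' = UVE (tm π.1) B b x p q p' q' - SVE (tm π.1) x p q p' q' X Y

/-- PTK_LAE: the local form of the antisymmetry at the tame places. Copy of `PT3/LAMG.lean` (hypotheses `Stmt_AVE`, `Stmt_F2E`, `Stmt_F3E`,
`Stmt_F4E`, `Stmt_IF1`, `Stmt_LCI`). -/
def Stmt_LAE : Prop := ∀ (π : PP) (B b x p q p' q' : Eis), BGE B → AGE B b → AGE B x →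
  SolE b x p q p' q' →
    TTE π B b x p q p' q' + TTE π B x b p (-p') (-q) q' = UVE (tm π.1) B b x p q p' q'

/-- PTK_LFE: finiteness of the supports. Copies of `PT3/LFIG.lean` and of the second part of `PT/LFIN.lean` (product formula `SSL`). -/
def Stmt_LFE : Prop :=
  (∀ B b x p q p' q' : Eis, BGE B → AGE B b → AGE B x → SolWE b x p q p' q' →
    (Function.support fun π : PP => TTE π B b x p q p' q').Finite) ∧
  (∀ B b x p q p' q' : Eis, B ≠ 0 → b ≠ 0 → x ≠ 0 → SolE b x p q p' q' →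
    (Function.support fun π : PP => UVE (tm π.1) B b x p q p' q').Finite ∧
    UVE sl B b x p q p' q' + ∑ᶠ π : PP, UVE (tm π.1) B b x p q p' q' = 0)

/-- PTK_SAE: additivity of the local term of a point of class `b` at `λ`. Copy of `PT3/SVAD.lean` and the lemmas of `PT/TADD.lean` used there (hypotheses
`Stmt_IF4`, `Stmt_F6R`, `Stmt_F7U`, `Stmt_SVF`, `Stmt_LCI`). -/
def Stmt_SAE : Prop := ∀ b x₁ x₂ p₁ q₁ p₁' q₁' p₂ q₂ p₂' q₂' p q p' q' X Y : Eis, b ≠ 0 →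
  x₁ ≠ 0 → x₂ ≠ 0 → SolE b x₁ p₁ q₁ p₁' q₁' → SolE b x₂ p₂ q₂ p₂' q₂' →
  SolE b (x₁ * x₂) p q p' q' → PRelE b p₁ q₁ p₁' q₁' p₂ q₂ p₂' q₂' p q p' q' → X ≠ 0 → Y ≠ 0 →
  X ^ 3 + b * Y ^ 3 ≠ 0 → DNE X Y p₁ (-p₁') (-q₁) q₁' → DNE X Y p₂ (-p₂') (-q₂) q₂' →
  DNE X Y p (-p') (-q) q' →
  SVE sl b p (-p') (-q) q' X Y =
    SVE sl b p₁ (-p₁') (-q₁) q₁' X Y + SVE sl b p₂ (-p₂') (-q₂) q₂' X Y

/-! ### The place above `3` -/

/-- PTK_LMC: the classes of the minus part at `λ`.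
Proof. First part: `SCJ`: `sl (conj w) (conj b) = - sl w b`, `conj w = w²`, `conj b = t³ / b` (`PTK_PTX.sl_w_zero`). Second part: `→`: `Stmt_LCI`, third
part. `←`: up to sign `b = w^j b'` with `b' = c + d w`, `3 ∣ d`, `c = 1 (mod 3)` (`Prim`; `λ ∤ b`), `sl w 4 = 1` (`LCL`, `HYPT.lw_four`), `sl b' 4 = 0` (`SREC`, first part), so
`j = 0`; then as in `ZL`: `0 = sl b 3 = 2 sl b w + 2 sl b λ` (`3 = - w² λ²`), `sl b w = 0`, so `sl b λ = 0`, `SREC`: `wt (c²) = 0`, `c = ± 1 (mod 9)`; `N b` is a cube of a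
rational integer prime to `3` (`b conj b = t³`; `N b = c² - c d + d²`), so `N b = ± 1 (mod 9)`, `c² - c d = ± 1 (mod 9)` and `9 ∣ d`; `λ⁴ ∣ b² - 1`, `LCI` (second part). Third
part: `HYPT.sl_int`. -/
def Stmt_LMC : Prop := ∀ b : Eis, b ≠ 0 → MCl b →
  sl w b = 0 ∧ (LCE lam b ↔ sl b 3 = 0 ∧ sl b 4 = 0) ∧
  ∀ m : ℤ, m ≠ 0 → sl b (m : Eis) = lv m * sl b 3 - lw m * sl b 4

/-- PTK_RAE: additivity of the local term at `λ` when `b` is not a local cube and the norms are.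
Proof. Hypotheses: `Stmt_AVE`, `Stmt_IIA`, `Stmt_IF2`, `Stmt_SAE`, `Stmt_LMC`, `Stmt_LCI`, `SSL`, `SLC`, `SCJ`, `LCL`. For a solution of norm `x` (`x = x₁, x₂, x₁ x₂`, all local cubes at `λ`)
and a good root `ξ` of `x` let `ρ_x a = sl a G_1 - sl a G_2 + sl w a - ASE sl a p (-p') (-q) q' ξ` (`G_i = GfE p q p' q' i`). `ρ_x` is additive in `a ≠ 0` and `0` on cubes. (1) By `AVE`
(for `SolE x b p (-p') (-q) q'`; `sl B b = 0`) and `sl w x = 0` (`x` a local cube): `LTE B b x .. = ρ_x B`. (2) `IIA` with `(b, x, p, q, p', q') := (x, b, p, -p', -q, q')`: for `n = X³ + b Y³ ≠ 0`,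
`X, Y ≠ 0`, `DNE X Y p (-p') (-q) q'`: `SVE sl b p (-p') (-q) q' X Y = ρ_x n`. (3) `IF2` for the same solution: `ρ_x b = 0`. (4) Let `ε = ± 1`, `ε b = 1 (mod λ)`; `T = b + conj b`, `N = b conj b`
(rational integers), `N = 1 (mod 9)` (a cube of a rational integer, positive, prime to `3`, and `= 1 (mod 3)`). With `b = u + v w`: `T² = 4 N - 3 v²`, `ε T = 2 (mod 3)`. If `3 ∣ v` then `ε T = 2 (mod 9)` and
`(1 + ε b)(1 + ε conj b) = 1 + ε T + N = 4 (mod 9)`; if `3 ∤ v` then `ε T = - 1 (mod 9)` and `(1 - ε b)(1 - ε conj b) = 1 - ε T + N = 3 (mod 9)`. So with `X = 1 + 9 k`, `Y = ε`, resp. `Y = - ε`, and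
`n = X³ + b Y³` the rational integer `n₁ = n conj n` has `(lv n₁, lw n₁) ≠ (0, 0)`, for all `k`. (5) `sl b n = 0` (third part of `SSL` for `n + (- X³) + (- b Y³) = 0`), `sl b (conj n) = 0` (`SCJ`,
`conj b = t³ / b`), so `sl b n₁ = 0`; also `sl b B = 0`. By `LMC` the vectors `(lv n₁, lw n₁)` and `(lv B, lw B)` are orthogonal to `(sl b 3, - sl b 4) ≠ (0, 0)`, so `lv B = κ lv n₁`,
`lw B = κ lw n₁`, and `sl a B = κ sl a n₁` for all `a ≠ 0` (`HYPT.sl_int`): `ρ_x B = κ (ρ_x n + ρ_x (conj n))`. (6) `b conj n = X'³ + b Y'³` with `X' = t conj Y`, `Y' = conj X`, so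
`ρ_x (conj n) = ρ_x (X'³ + b Y'³)` (by (3)). (7) Choose `k` such that the three solutions satisfy `DNE` at `(X, Y)` and at `(X', Y')` (every form `D_i` vanishes for at most one `k`: it is
`X u + w^i v Y` with `(u, v) ≠ (0, 0)` by `SolE.n1`). Then (2) and `SAE` at the two points. -/
def Stmt_RAE : Prop := ∀ (B : ℤ) (b x₁ x₂ p₁ q₁ p₁' q₁' p₂ q₂ p₂' q₂' p q p' q' : Eis),
  B ≠ 0 → b ≠ 0 → MCl b → sl b (B : Eis) = 0 → ¬ LCE lam b → x₁ ≠ 0 → x₂ ≠ 0 → LCE lam x₁ →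
  LCE lam x₂ → SolE b x₁ p₁ q₁ p₁' q₁' → SolE b x₂ p₂ q₂ p₂' q₂' →
  SolE b (x₁ * x₂) p q p' q' → PRelE b p₁ q₁ p₁' q₁' p₂ q₂ p₂' q₂' p q p' q' →
  LTE B b (x₁ * x₂) p q p' q' = LTE B b x₁ p₁ q₁ p₁' q₁' + LTE B b x₂ p₂ q₂ p₂' q₂'

/-- the linear forms of the point at `λ`, when `B` is a local cube -/
def GoodW (x X Y : Eis) : Prop := ∀ b p q p' q' : Eis, b ≠ 0 → MCl b → SolE b x p q p' q' →
  DNE X Y p q p' q' → SVE sl x p q p' q' X Y = sl x 4 * sl b 3 - sl x 3 * sl b 4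

/-! ### Global statements -/

/-- PTK_TAE: additivity of the pairing.
Proof. As `PT3/TADT.lean`, `PT/TADD.lean` (`TADD.exists_prod` for the product; it is not `0`, since `b` is not a cube; `g1`, `g2`, `n2` as in `HNE`: `x₁ x₂` is not a cube). Tame places:
`b` a local cube: `TADD.AS_add` with `AVE`; otherwise `tm w (x₁ x₂) = tm w x₁ + tm w x₂`. The place `λ`: `sl b B = sl x_i B = 0` by the product formula. `b` a local cube: the same.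
`b` not a local cube and `B` a local cube: `LTE B b x .. = lfE b x` in all cases (if `x` is a local cube: both are `0`, as `sl B _ = 0`, `sl w x = 0` (`LCI`)), and `lfE` is
additive. `b`, `B` not local cubes: `RAE`. Supports: `LFE`. -/
def Stmt_TAE : Prop := ∀ b x₁ x₂ p₁ q₁ p₁' q₁' p₂ q₂ p₂' q₂' : Eis, (¬ ∃ c : Eis, c ^ 3 = b) →
  (¬ ∃ c : Eis, c ^ 3 = x₁ * x₂) → b ≠ 0 → x₁ ≠ 0 → x₂ ≠ 0 → MCl b → MCl x₁ → MCl x₂ →
  SolE b x₁ p₁ q₁ p₁' q₁' → SolE b x₂ p₂ q₂ p₂' q₂' →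
  ∃ p q p' q' : Eis, SolE b (x₁ * x₂) p q p' q' ∧ ∀ B : ℤ, BGE B → AGE B b → AGE B x₁ →
    AGE B x₂ → (LCE lam b ∨ LCE lam (B : Eis) ∨ (LCE lam x₁ ∧ LCE lam x₂)) →
    OZE B b (x₁ * x₂) p q p' q' = OZE B b x₁ p₁ q₁ p₁' q₁' + OZE B b x₂ p₂ q₂ p₂' q₂'

/-- PTK_THE: the pair `(b, b^(1/3))`.
Proof. As `PT3/TTHT.lean`: `TTE π B b b 0 1 1 0 = tm w b - tm w B` at every tame place (`LEE`-like cases: `b` a local cube: `ASE s B 0 1 1 0 r = s B w`; `3 ∤ V b`: `b` is `B` or `B²` up to local cubes; `V b = 0`,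
`ch b ≠ 0`: `π ∤ B`), and at `λ` too: `b` a local cube: the same; otherwise `B` is a local cube, `LTE = lfE b b = 0` and `sl w b = 0` (`LMC`), `sl w B = 0`. Product formula for
`(w, b)` and `(w, B)`. -/
def Stmt_THE : Prop := ∀ (B : ℤ) (b : Eis), BGE B → AGE B b → MCl b →
  (LCE lam b ∨ LCE lam (B : Eis)) → OZE B b b 0 1 1 0 = 0

/-- PTK_TLE: antisymmetry.
Proof. `LAE`, `LFE`, and at `λ`: `LTE B b x .. + LTE B x b .. = UVE sl B b x ..`: both local cubes: `IF1` and `AVE` (`sl B x = sl B b = 0`); one local cube: by the definition of `LTE`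
(`GfE p (-p') (-q) q' i = GfE p q p' q' i`); no local cube, `B` a local cube: `lfE b x + lfE x b = 0`, and `UVE sl .. = 0` (`sl B _ = 0`, `sl w b = sl w x = 0`: `LMC`). -/
def Stmt_TLE : Prop := ∀ (B : ℤ) (b x p q p' q' : Eis), BGE B → AGE B b → AGE B x → MCl b →
  MCl x → SolE b x p q p' q' → (LCE lam b ∨ LCE lam x ∨ LCE lam (B : Eis)) →
  OZE B b x p q p' q' + OZE B x b p (-p') (-q) q' = 0

/-- PTK_TPE: the pairing vanishes on the class of a point.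
Proof. `LEE` at the tame places, `SVF` and `LFE`: it is enough that `LTE B b x .. = UVE sl B b x .. - SVE sl x p q p' q' X Y`. Let `n₀ = X³ + x Y³`, `x n₀ = B c³`. (1) `b` a local cube: `IIA`:
`SVE = R n₀`, `R a = sl a G_1 - sl a G_2 + sl w a - ASE sl a p q p' q' r` additive in `a`, `R x = 0` (`IF2`), so `SVE = R B`; `LTE = ASE sl B .. r + sl w x` (`AVE`), `sl w b = 0`. (2) `x` a
local cube, `b` not, `GoodPt`: `IF4` and `GoodPt`: `SVE = ASE sl n₀ p (-p') (-q) q' ξ = ASE sl B .. ξ` (`sl n₀ a = sl B a`, `x` is a local cube: `LCI`) `= AVE none B x p (-p') (-q) q'`; `sl w b = 0`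
(`LMC`). (3) `b`, `x` not local cubes, `B` a local cube: `GoodW`, `UVE sl = 0` (`LMC`), and `lfE b x = - (sl x 4 sl b 3 - sl x 3 sl b 4)`. -/
def Stmt_TPE : Prop := ∀ (B : ℤ) (b x p q p' q' X Y : Eis), BGE B → AGE B b → AGE B x → MCl b →
  MCl x → SolE b x p q p' q' → PtE (B : Eis) x X Y → DNE X Y p q p' q' →
  (LCE lam b ∨ (LCE lam x ∧ GoodPt B x X Y) ∨
    (¬ LCE lam b ∧ ¬ LCE lam x ∧ LCE lam (B : Eis) ∧ GoodW x X Y)) →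
  OZE B b x p q p' q' = 0

/-! ### Points of a class when `B` is a local cube at `λ` -/

/-- PTK_KN1: a Steinberg identity (checked numerically).
Proof. Let `a₀ = x₀ + y₀`, `a₁ = w x₀ + w² y₀`, `a₂ = w² x₀ + w y₀` (`a₀ + a₁ + a₂ = 0`, `a₀ a₁ a₂ = B`), `ζ = a₁ a₂²`, `s³ = B + δ`, `3 ^ M₀ ∣ δ`, `M₀` large. `L₁ = P - w a₂ Q`, `L₂ = P - w² a₂ Q`,
`N = P³ + ζ Q³`, `n₀ = a₀ a₂²`, `K = w² λ (s - y₀) a₀ a₁² a₂²`,
`α = a₁ (w² a₀ a₂ + w² s² + a₂ s) Q - w² (a₀ a₁ + w² a₁ s + s²) P`, `β = a₂ (a₁ - w² s) Q + (a₂ - w s) w² P`, `H = (a₂ + s) P - a₂ (a₁ + s) Q`.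
(1) Identities: `U - W = Z + δ G` with a polynomial `G`, `U = a₂ L₁ α³`, `W = w² λ (s - y₀) a₀ a₁² L₂ β³`, `Z = N · 3 λ a₀ a₁² a₂ (y₀ - s)² H`: this is `KN_id` (PROVED in PTK/KNI.lean, with
`(w - w²)(s - y₀) = (w - w²) s - w² a₁ + w a₂` and `(w - w²)² = -3`: it is the identity multiplied by `-3`); `H = w (y₀ - s) L₁ + w² (x₀ - s) L₂`; `(x₀ + y₀ - s)³ = 3 a₀ (x₀ - s)(y₀ - s) - δ`.
(2) Bounded valuations: let `g = g₀ + g₁ s + g₂ s²`, `g_i ∈ Z[w]` not all `0`. `ν = g₀³ + g₁³ B + g₂³ B² - 3 g₀ g₁ g₂ B ≠ 0` (`B` is not a cube; see `TADD.ne_of_not_cube`, `N3_mul` in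
PT/TADD.lean) and `ν = g (s) h (s) + (s³ - B) k (s)`; so if `2 M₀ > V λ ν` then `g (s) ≠ 0` and `V λ (g s) ≤ V λ ν`. This applies to `α` (if its coefficients vanish then
`P = a₁ Q`, `a₂ Q = w P = P`, so `P = Q = 0`), `β` (`P = - w² a₂ Q`, `a₁ Q = - w² P = w a₂ Q`, and `a₁ - w a₂ = (w - 1) x₀ ≠ 0`), `H` (`P = a₂ Q = a₁ Q`, `a₁ - a₂ = (w - w²)(x₀ - y₀) ≠ 0`),
`x₀ - s`, `y₀ - s`, `s`; `x₀, y₀, a₀ ≠ 0`.
(3) For `M₀` large, by continuity (`SLC`): `sl (U - W) c = sl Z c`, `sl s⁶ c = sl (a₀ a₁ a₂)² c`, i.e. `(a₀ a₁ a₂)² ~ 1`, and `3 a₀ (x₀ - s)(y₀ - s) ~ 1` (`~`: equal up to cubes in the first variable of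
`sl _ c`, for all `c ≠ 0`); `-1 ~ 1`; `3 λ ~ w²` (`3 = - w² λ²`). So `K ~ w (x₀ - s) / (y₀ - s)` and `3 w λ a₀ a₁² (y₀ - s)³ n₀ ~ 1`.
(4) `SSL`, third part, for `U - W - (U - W) = 0`: `(W / U, Z / U) = 0`, i.e. `(K L₂ / L₁, N · 3 λ a₀ a₁² (y₀ - s)² H / L₁) = 0`; for `H - w (y₀ - s) L₁ - w² (x₀ - s) L₂ = 0`:
`(w (x₀ - s) L₂ / ((y₀ - s) L₁), H / (w (y₀ - s) L₁)) = 0`, i.e. `(K L₂ / L₁, H / (w (y₀ - s) L₁)) = 0`. The difference: `(K L₂ / L₁, N · 3 w λ a₀ a₁² (y₀ - s)³) = 0`, i.e. `(K L₂ / L₁, N / n₀) = 0`. -/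
def Stmt_KN1 : Prop := ∀ (x₀ y₀ B : ℤ) (a₀ a₁ a₂ : Eis), x₀ ^ 3 + y₀ ^ 3 = B → B ≠ 0 →
  (¬ ∃ n : ℤ, n ^ 3 = B) → x₀ ≠ y₀ → a₀ = x₀ + y₀ → a₁ = w * x₀ + w ^ 2 * y₀ →
  a₂ = w ^ 2 * x₀ + w * y₀ → ∀ P Q : Eis, P ^ 3 + a₁ * a₂ ^ 2 * Q ^ 3 ≠ 0 → P - w * a₂ * Q ≠ 0 →
  P - w ^ 2 * a₂ * Q ≠ 0 → ∃ M₀ : ℕ, ∀ s : ℤ, (3 : ℤ) ^ M₀ ∣ s ^ 3 - B → s ≠ y₀ ∧
    (sl (w ^ 2 * lam * (s - y₀) * a₀ * a₁ ^ 2 * a₂ ^ 2) (P ^ 3 + a₁ * a₂ ^ 2 * Q ^ 3) +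
      sl (P - w ^ 2 * a₂ * Q) (P ^ 3 + a₁ * a₂ ^ 2 * Q ^ 3) -
      sl (P - w * a₂ * Q) (P ^ 3 + a₁ * a₂ ^ 2 * Q ^ 3)) -
    (sl (w ^ 2 * lam * (s - y₀) * a₀ * a₁ ^ 2 * a₂ ^ 2) (a₀ * a₂ ^ 2) +
      sl (P - w ^ 2 * a₂ * Q) (a₀ * a₂ ^ 2) - sl (P - w * a₂ * Q) (a₀ * a₂ ^ 2)) = 0

/-- PTK_LKN: the class of `9 (s - y₀)(x₀ + y₀)(x₀² - x₀ y₀ + y₀²)²` at `3` (checked numerically, 3000 cases).
Proof. `B = x₀³ + y₀³`, `lv B = lw B = 0` (`LCL`), `s³ = B` modulo a high power of `3`. `lw` is additive, `lw (1 + 3 j) = - j` (`wt (1 + 3 j) = j`), `lw (± 1) = 0`. `ζ = w² (x₀ + w y₀)(x₀ + w² y₀)²`.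
`sl w 4 = 1`, `sl w 3 = 0`. Let `k` be the number. Modulo `3`, `x₀` and `y₀` are not both prime to `3` unless `3 ∣ x₀ + y₀` (`B = ± 2 (mod 9)` otherwise is not a cube).
(A) `3 ∣ y₀`, `τ = y₀ / (3 x₀)` modulo `3`: `s = x₀ (mod 9)`, `s - y₀ = x₀ (1 - 3 τ)`, `x₀ + y₀ = x₀ (1 + 3 τ)`, `x₀² - x₀ y₀ + y₀² = x₀² (1 - 3 τ)` modulo `9`: `lv k = 2`, `lw k = lw (x₀⁶ (1 - 3 τ)³ (1 + 3 τ)) = - τ`;
`ζ = w² x₀³ (1 + 3 τ (w + 2 w²)) (mod 9)`: `sl ζ 4 = 2`, `sl ζ 3 = - τ`. (B) `3 ∣ x₀`, `τ = x₀ / (3 y₀)`: `s = y₀ (mod 9)`, `(s - y₀)(s² + s y₀ + y₀²) = x₀³ + …`, `s² + s y₀ + y₀² = 3 y₀² (1 + 9 ..)`: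
`lv (s - y₀) = 2`, `lw (s - y₀) = lw y₀`; `lv k = 4 = 1`, `lw k = 6 lw y₀ + lw (1 + 3 τ) + 2 lw (1 - 3 τ) = τ`; `ζ = w y₀³ (1 + 3 τ (w² + 2 w)) (mod 9)`: `sl ζ 4 = 1`, `sl ζ 3 = τ`. (C) `3 ∣ a₀ = x₀ + y₀`:
`x₀² - x₀ y₀ + y₀² = a₀² - 3 x₀ y₀`, `v(B) = v(a₀) + 1` is divisible by `3`, so `v(a₀) = 2 (mod 3)`, `9 ∣ a₀`, `3 ∣ s`; `lv k = 2 + 0 + 2 + 2 = 0`; `lw k = lw (s - y₀) + lw (a₀² - 3 x₀ y₀)` (as
`lw B = 0`) `= lw x₀ - s' / x₀ - lw x₀ = - s' / x₀`, `s = 3 s'` (`y₀ = - x₀ (mod 9)`), and `s'³ = (a₀ / 9) x₀² = a₀ / 9 (mod 3)`: `lw k = - α`, `α = a₀ / (9 x₀)`. `ζ = (x₀ (w - w²))³ (1 - ε)`, `ε = a₀ / (x₀ (w - w²)) = - 3 (w - w²) α`,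
modulo `λ⁴` relative to the first factor: `sl ζ 4 = 0`, `sl ζ 3 = - α`. (For `sl ζ 3` of a unit `ζ = ± w^j (1 + 3 u) (mod 9)`: continuity `SLC` and `sl (1 + 3 (a + b w)) 3`
from `SREC` (`Prim`; `3 = - w² λ²`), or `PT/SLE.lean`.) -/
def Stmt_LKN : Prop := ∀ x₀ y₀ : ℤ, IsCoprime x₀ y₀ → x₀ ≠ 0 → y₀ ≠ 0 → x₀ + y₀ ≠ 0 →
  lv (x₀ ^ 3 + y₀ ^ 3) = 0 → lw (x₀ ^ 3 + y₀ ^ 3) = 0 →
  ∃ M₀ : ℕ, ∀ s : ℤ, (3 : ℤ) ^ M₀ ∣ s ^ 3 - (x₀ ^ 3 + y₀ ^ 3) → s ≠ y₀ →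
    lv (9 * (s - y₀) * (x₀ + y₀) * (x₀ ^ 2 - x₀ * y₀ + y₀ ^ 2) ^ 2) =
      sl (w ^ 2 * (((x₀ : Eis) + w * y₀) * ((x₀ : Eis) + w ^ 2 * y₀) ^ 2)) 4 ∧
    lw (9 * (s - y₀) * (x₀ + y₀) * (x₀ ^ 2 - x₀ * y₀ + y₀ ^ 2) ^ 2) =
      sl (w ^ 2 * (((x₀ : Eis) + w * y₀) * ((x₀ : Eis) + w ^ 2 * y₀) ^ 2)) 3

/-- PTK_PTY: as `PTX`, with the property `GoodW` when `B` is a local cube.
Proof. Hypotheses: `Stmt_KN1`, `Stmt_LKN`, `Stmt_LMC`, and those of `PTX`. The point of `PTX_thm` (PTK/PTX.lean): `ζ = a₁ a₂²`, `ζ g³ = x g'³`, `X = g'² g a₂`, `Y = g'³`; it satisfies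
`PtE` and `GoodPt` (`lv B = 0`: `LCL`). `GoodW`: let `SolE b x p q p' q'`. The forms are `X p' + w^i p Y = g'² (g a₂ p' + w^i p g')`; with `(P, Q) = (p g', - g p')`: `D_i = g'² (w^i P - a₂ Q)`, i.e.
`D_1 = g'² w L₂`, `D_2 = g'² w² L₁`; `(p³ - x p'³) g'³ = P³ + ζ Q³ =: N`; the second pair in the same way with `(P, Q) = (q g', - g q')`, `(q³ - x q'³) g'³ = N₂`; `N = b (- N₂)`.
`X³ + x Y³ = (g'² g)³ a₂² (a₁ + a₂) = - (g'² g)³ a₀ a₂²`. So (`-1` and cubes are irrelevant) the first bracket of `SVE` is `- sl w N + sl w n₀ + [sl L₂ N - sl L₁ N - sl L₂ n₀ + sl L₁ n₀]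
= - sl w N + sl w n₀ - sl K N + sl K n₀` (`KN1` for `B z₀³ = x₀³ + y₀³` in place of `B`; choose `s` for both pairs, `3 ^ M ∣ s³ - B z₀³`: it exists since `B` is a local cube; `x₀ ≠ y₀`: otherwise
`B z₀³ = 2 x₀³`, `x₀ = ± 1` is not a local cube), and `SVE = - sl w b - sl K b = sl b K` (`sl w b = 0`). `K = w² λ (s - y₀) a₀ (a₁ a₂)²`, `sl b λ = sl b 9` (`9 = w λ⁴`, `sl b w = 0`), so
`sl b K = sl b k`, `k = 9 (s - y₀)(x₀ + y₀)(x₀² - x₀ y₀ + y₀²)²` (`a₁ a₂ = x₀² - x₀ y₀ + y₀²`), and `sl b k = lv k sl b 3 - lw k sl b 4 = sl ζ 4 sl b 3 - sl ζ 3 sl b 4` (`LMC`, `LKN`);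
`sl ζ _ = sl x _`. -/
def Stmt_PTY : Prop := ∀ (B : ℤ) (x : Eis), B ≠ 0 → (¬ ∃ n : ℤ, n ^ 3 = B) →
  LCE lam (B : Eis) → x ≠ 0 → (¬ ∃ t : Eis, t ^ 3 = x) → Occ B x →
  ∃ X Y : Eis, PtE (B : Eis) x X Y ∧ GoodPt B x X Y ∧ GoodW x X Y

/-! ### The norm theorem when the base is not a local cube at `λ` -/

open Classical in
/-- PTK_NG2: a set of places and sufficiently many units with independent symbols, `x` primary, not a local cube at `λ`.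
Proof. As `NGN_thm` (PTK/NGN.lean) with the additional element `d_0 = λ` (`none ∈ S`). `x = ± ∏ π_i^(V_i)` (`Prim x`, `V_i = 1, 2`), `t` primes; the places of `S` where `x` is not a
local cube are the `π_i` and `none` (`sl x λ ≠ 0`, `LCI` third part): `t + 1`, so `e = t`. `d = λ, ρ_1, …, ρ_(t-1)` (`NAUX` as in NGN). Symbols: at `π_i`: `tm ρ_j x = V_i sym ρ_j π_i`, sum over
`i` zero, at `none`: `sl ρ_j x = 0`; the sum over the `π_i` of `tm λ x` is `- sl λ x ≠ 0` (product formula, `tm π λ x = 0` at the other `π`). So a relation has coefficient `0` at `λ`, and the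
`ρ_j` are independent as in `NGN`. Multiplicative independence: valuations at `ρ_j` and `λ`. -/
def Stmt_NG2 : Prop := ∀ (x : Eis) (S₀ : Finset Pl), x ≠ 0 → Prim x → sl x lam ≠ 0 →
  (∀ π : PP, V π.1 x ≤ 2) → (¬ ∃ c : Eis, c ^ 3 = x) → none ∈ S₀ →
  (∀ π : PP, π.1 ∣ x → some π ∈ S₀) →
  (∀ π : PP, some π ∈ S₀ → ¬ LCE π.1 x → π.1 ∣ x) →
  ∃ (S : Finset Pl) (e : ℕ) (d : Fin e → Eis), S₀ ⊆ S ∧ (∀ v ∈ S, v ∉ S₀ → LCE (uni v) x) ∧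
    (S.filter fun v => ¬ LCE (uni v) x).card = e + 1 ∧
    (∀ i, d i ≠ 0) ∧ (∀ i (v : Pl), uni v ∣ d i → v ∈ S) ∧
    (∀ n m : Fin e → ℕ, ∏ i, d i ^ n i = ∏ i, d i ^ m i → n = m) ∧
    (∀ n : Fin e → ZMod 3, (∀ v : Pl, ∑ i, n i * sy v (d i) x = 0) → n = 0)

/-- PTK_NM2: the norm theorem. As `NMN_thm` (PTK/NMN.lean) with `NG2` in place of `NGN` (`sl x y = 0` by the product formula). -/
def Stmt_NM2 : Prop := ∀ (x : Eis) (L : Type) [Field L] [NumberField L] (ι : Eis →+* L) (θ : L)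
  (σ : L ≃ₐ[ℚ] L), x ≠ 0 → Prim x → sl x lam ≠ 0 → (∀ π : PP, V π.1 x ≤ 2) →
  (¬ ∃ c : Eis, c ^ 3 = x) → CubE x L ι θ σ →
  ∀ y : Eis, y ≠ 0 → (∀ π : PP, tm π.1 x y = 0) →
    (∀ π : PP, π.1 ∣ y → ¬ LCE π.1 x → π.1 ∣ x) →
    ∃ z : L, z ≠ 0 ∧ z * σ z * σ (σ z) = ι y

/-- PTK_HN2: the Hasse norm theorem for such a base. As `HNE_thm` (PTK/HNE.lean) with `NM2`. -/
def Stmt_HN2 : Prop := ∀ x y : Eis, x ≠ 0 → Prim x → sl x lam ≠ 0 → (¬ ∃ c : Eis, c ^ 3 = x) →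
  (∀ π : PP, V π.1 x ≤ 2) → y ≠ 0 → (¬ ∃ c : Eis, c ^ 3 = y) → (∀ π : PP, tm π.1 x y = 0) →
  (∀ π : PP, π.1 ∣ y → ¬ LCE π.1 x → π.1 ∣ x) →
  ∃ p q p' q' : Eis, SolE x y p q p' q'

end Pool.Agent.PTK


end

section

/-!
# Small ranks of prime twists: at least one third (one half if `3 ∣ N`) of the ranks is at most `2`

Stage 3 of the project PTK, part 3. Everything of the other statement files may be imported or taken as a hypothesis.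
-/

set_option autoImplicit false

open NumberField IsDedekindDomain Finset
open scoped nonZeroDivisors Pointwise

namespace Pool.Agent.PTK

open Pool.Agent.Lib_helper18 Pool.Agent.Lib_helper18.Eis Pool.Agent.Lib_helper84.Cub
open Pool.Agent.PT Pool.Agent.PTE Pool.Agent.PT3 Pool.Agent.PTL Pool.Agent.PTN

/-- PTK_UPL: from upper bounds to a lower bound.
Proof. For `σ` take a finite set `T` of primes for which the partial sums of the two series `BDENS.sm (S E) σ` are at least the series minus `1`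
(`DOM.approx` in PTL/DOM.lean). For a prime `q > M` in `S E` (`E = 1, 2`): `tf (R A) ≥ c₀ - G E q`; the primes `≤ M` contribute a constant; the sum of the
`tf (R A) q^(-σ)` over all `q ∈ T` with `q % 3 = a ∧ W (q ^ E)` is at least that over the large `q ∈ S E` (the terms are `≥ 0`), so at least
`c₀ (y log - K - 2 - const) - (x log + K')`. See `CBE_thm` (PTN/CBE.lean), which is the case of tails. -/
def Stmt_UPL : Prop := ∀ (n : ℤ) (a M : ℕ) (W R : ℤ → Prop) (S : ℕ → Set ℕ) (G : ℕ → ℕ → ℝ) (x y c₀ : ℝ),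
  0 ≤ c₀ →
  (∀ E q : ℕ, (E = 1 ∨ E = 2) → q.Prime → M < q → q ∈ S E → q % 3 = a ∧ W ((q : ℤ) ^ E)) →
  (∀ E q : ℕ, (E = 1 ∨ E = 2) → q.Prime → M < q → q ∈ S E → c₀ - G E q ≤ tf (R (n * (q : ℤ) ^ E))) →
  (∃ K : ℝ, ∀ σ : ℝ, 1 < σ → σ ≤ 2 →
    y * Real.log (1 / (σ - 1)) - K ≤ BDENS.sm (S 1) σ + BDENS.sm (S 2) σ) →
  UpS S G x → BelowA n a W (fun A => tf (R A)) (c₀ * y - x)

/-- PTK_PR2: small ranks in a class, `q = 2 (mod 3)`.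
Proof. `S E = {q | q % 3 = 2 ∧ InCT E π w0 c q}`, system from `PLE` (`s = sN`), `κ = kS`, `card WqS = 3^w`, `rr B ≤ w + κ` for large `q` (`NBW`, `WGR`, as in `AM2`). If `s` is even:
`rr B ≥ 3` implies `κ ≥ 1` or `w ≥ 3`, so `1 - tf (rr B ≤ 2) ≤ [1 ≤ κ] + (3^w - 1) / 26`; if `s` is odd: `rr B ≥ 3` implies `κ ≥ 2` or `w ≥ 2`, so
`1 - tf ≤ [2 ≤ κ] + (3^w - 1) / 8`. `JP2` with `(k₀, F) = (0, [t ≤ ·])` (`Esk s F = LI s t`: `Esk_ind` in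
PTN/LAW.lean; `LAW`: `LI s 1 ≤ 3/8`, `LI s 2 ≤ 1/24`) and `(1, 1)`: `gM 1 (v - v₀) = 4` (`GMB`, `VDIM`, `dN ≤ 1`). `UPL` with `c₀ = 27/26`, `G = [1 ≤ κ] + 3^w / 26`, resp. `c₀ = 9/8`,
`G = [2 ≤ κ] + 3^w / 8` (the sum of two functions: `UPS` (1) with `ι = Bool`), the lower bound of the total from `CLT` (`a = 2`): `27/26 - 3/8 - 4/26 ≥ 1/2`,
`9/8 - 1/24 - 4/8 ≥ 1/2`, times `1 / 3^(m+1)`; `SUMA` (4). -/
def Stmt_PR2 : Prop := ∀ (h n m k : ℕ) (π : Fin m → PP) (p e : Fin m → ℕ) (r f : Fin k → ℕ)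
  (w0 : ZMod 3) (c : Fin m → ZMod 3), NF n π p e r f → h ≤ 2 → dN h n w0 ≤ 1 →
  BelowA ((3 ^ h * n : ℕ) : ℤ) 2 (Kl π w0 c) (fun A => tf (CubeRank.rr A ≤ 2))
    (1 / 2 / 3 ^ (m + 1))

/-- PTK_PR1: small ranks in a class, `q = 1 (mod 3)`.
Proof. As `PR2` and `AM1`: for large `q`, with `κ' = κ_δ` (`q ∈ Pat v δ`), resp. `κ' = κ + 1` (`q ∈ ZP b`), `rr B ≤ w + κ'`. `2 (1 - tf) ≤ ∑_δ [q ∈ Pat v δ] ([t ≤ κ_δ] + (3^w - 1)/D) +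
[q ∈ ZP b] 2 ([t ≤ κ + 1] + (3^w - 1)/D)` with `(t, D) = (1, 26)` if `d + 1` is even, `(2, 8)` if `d + 1` is odd; `JPG`, `JPZ`, `ESZ` (`Esk (d + 1) [t ≤ ·] = LI (d + 1) t`), `LAW`, `CLT` (`a = 1`). -/
def Stmt_PR1 : Prop := ∀ (h n m k : ℕ) (π : Fin m → PP) (p e : Fin m → ℕ) (r f : Fin k → ℕ)
  (w0 : ZMod 3) (c : Fin m → ZMod 3), NF n π p e r f → h ≤ 2 → dN h n w0 ≤ 1 →
  BelowA ((3 ^ h * n : ℕ) : ℤ) 1 (Kl π w0 c) (fun A => tf (CubeRank.rr A ≤ 2))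
    (1 / 2 / 3 ^ (m + 1))

/-- PTK_PRB: small ranks, all classes.
Proof. `NFE`, `SUMA` (2) and (4), `PR2`, `PR1`: `h ≠ 0`: `dN ≤ 1` for all classes: `1/2`. `h = 0`: `dN ≤ 1` for two of the three `w0`: `1/3` (lower bound `0` for the others). -/
def Stmt_PRB : Prop := ∀ N : ℕ, 0 < N → (∀ p : ℕ, p.Prime → ¬ p ^ 3 ∣ N) → ∀ a : ℕ, (a = 1 ∨ a = 2) →
  BelowA N a (fun _ => True) (fun A => tf (CubeRank.rr A ≤ 2)) (1 / 3) ∧
  (3 ∣ N → BelowA N a (fun _ => True) (fun A => tf (CubeRank.rr A ≤ 2)) (1 / 2))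

end Pool.Agent.PTK


end

section

/-!
# Full law of the ranks of prime twists: the matrix of the minus part, joint densities, the theorem

Stage 4 of the project PTK, part 2 (part 1: `StZ.lean`). Everything of `StL`, …, `StX`, `StZ` and of `PT`, `PTE`, `PT3`, `PTL`, `PTN` may be
imported or taken as a hypothesis; other statements of this file may be hypotheses if your docstring says so.

The law: in every class the rank of `X³ + Y³ = N q^e` is dominated by the sum of the coranks of two independent random alternating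
matrices over `F_3`, of sizes `v` (minus part) and `s` (plus part; `s + 1` if `q = 1 (mod 3)`).
-/

set_option autoImplicit false

open NumberField IsDedekindDomain Finset
open scoped nonZeroDivisors Pointwise

namespace Pool.Agent.PTK

open Pool.Agent.Lib_helper18 Pool.Agent.Lib_helper18.Eis Pool.Agent.Lib_helper84.Cub
open Pool.Agent.PT Pool.Agent.PTE Pool.Agent.PT3 Pool.Agent.PTL Pool.Agent.PTN

/-! ### The matrix of the minus part -/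

/-- Classes of the minus part with solutions for all pairs: base `z j`, norm `z i`. -/
structure SysF {l : ℕ} (z : Fin l → Eis) (P Q P' Q' : Fin l → Fin l → Eis) : Prop where
  ind : ∀ c : Fin l → ℕ, (∃ i, ¬ 3 ∣ c i) → ¬ ∃ t : Eis, t ^ 3 = ∏ i, z i ^ c i
  mc : ∀ i, MCl (z i)
  sol : ∀ j i, j ≠ i → SolE (z j) (z i) (P j i) (Q j i) (P' j i) (Q' j i)
  sw : ∀ j i, j ≠ i → P i j = P j i ∧ Q i j = - P' j i ∧ P' i j = - Q j i ∧ Q' i j = Q' j i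

/-- the matrix of the minus part -/
noncomputable def MaZ {l : ℕ} (z : Fin l → Eis) (P Q P' Q' : Fin l → Fin l → Eis) (B : ℤ) :
    Matrix (Fin l) (Fin l) (ZMod 3) := fun j i =>
  if j = i then 0 else OZE B (z j) (z i) (P j i) (Q j i) (P' j i) (Q' j i)

/-- `B` is a local cube at `λ`, or at most one of the `z i` is not -/
def TyZ {l : ℕ} (z : Fin l → Eis) (B : ℤ) : Prop :=
  LCE lam (B : Eis) ∨ ∀ i j, i ≠ j → LCE lam (z i) ∨ LCE lam (z j)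

/-- PTK_CHE: the pairing of `z j` with a product.
Proof. Hypotheses: `Stmt_TAE`, `Stmt_THE`. Induction on `∑ c i`. `∑ c i = 1`: the product is `z i`; `i ≠ j`: the solution `(P j i, ..)`; `i = j`: the solution `(0, 1, 1, 0)` of
`SolE (z j) (z j)` (`n2`, `g1`, `g2` are clear, `z j ≠ 0`), `THE` (its condition `LCE lam (z j) ∨ LCE lam B` follows from each of the three conditions, as `c j ≠ 0`). Step: choose `i` with
`c i ≠ 0`, `c = c' + e_i`, `c' ≠ 0`; `TAE` for `x₁ = ∏ z^(c')`, `x₂ = z i` (`i = j`: the solution `(0, 1, 1, 0)`); `x₁ x₂ = ∏ z^c` is not a cube (`ind`; `c i = 1, 2` is not divisible by `3`);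
`MCl` of a product (`lam` is prime; `t` is a product); `AGE B (∏ ..)`: `tm` is additive in the first variable (`STM`), a prime dividing the product divides a `z i`; a product of local
cubes is a local cube. -/
def Stmt_CHE : Prop := ∀ (l : ℕ) (z : Fin l → Eis) (P Q P' Q' : Fin l → Fin l → Eis),
  SysF z P Q P' Q' → ∀ (j : Fin l) (c : Fin l → ℕ), (∀ i, c i ≤ 2) → (∃ i, c i ≠ 0) →
  ∃ p q p' q' : Eis, SolE (z j) (∏ i, z i ^ c i) p q p' q' ∧ ∀ B : ℤ, BGE B →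
    (∀ i, AGE B (z i)) → (LCE lam (z j) ∨ LCE lam (B : Eis) ∨ ∀ i, c i ≠ 0 → LCE lam (z i)) →
    OZE B (z j) (∏ i, z i ^ c i) p q p' q' = ∑ i, MaZ z P Q P' Q' B j i * (c i : ZMod 3)

/-- PTK_ZKE: the matrix is alternating, and the classes of points are in the kernel.
Proof. Hypotheses: `Stmt_CHE`, `Stmt_TLE`, `Stmt_TPE`, `Stmt_LCI`. For `q > N₀` (`N₀ ≥ N`, `N₀ ≥ 3`): `BGE B`, `AGE B (z i)` (a place over `q` does not divide `N`, `V B = E` there). Antisymmetry: `TLE` with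
`sw` (`i ≠ j`; its condition is `TyZ`). Kernel: let `x = ∏ z^c` (not a cube, `MCl x`, `AGE B x`, as in `CHE`). For `j` let `(p, q, p', q')` be the solution of `CHE`; it does not depend on
`B`; `DNE X Y p q p' q'` for `q > N₀` (as in `Stmt_DCK`: if `D_i = X p' + w^i p Y = 0` then `p' ≠ 0` by `n2` and `p'³ (X³ + x Y³) = - Y³ (p³ - x p'³)`; with `x (X³ + x Y³) = B c₀³`:
`B (c₀ p')³ = - x Y³ (p³ - x p'³)`, and the valuations at a place over `q` are `E` and `0` modulo `3` if `q` does not divide `x (p³ - x p'³) ≠ 0`; the same for `D'_i` with `x q'³ - q³`).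
`N₀` is the maximum over all `j` and `c`. (A) `z j` is a local cube: `CHE`, and `TPE` (first case): `OZE = 0`. (B) `B` is a local cube, `z j` is not: `CHE`; `TPE`: if `x` is a local cube, second case
(`GoodPt`: not all `z i` are local cubes); otherwise the third case. (C) neither: by `TyZ` all `z i`, `i ≠ j`, are local cubes. If `c j = 0`: `CHE` (third condition), `x` is a local cube, `TPE`,
second case. If `c j ≠ 0`: `∑_{k, i} c_k M_{k i} c_i = 0` (`M` antisymmetric, `2 ≠ 0`), and `∑_i M_{k i} c_i = 0` for `k ≠ j` by (A), so `c_j ∑_i M_{j i} c_i = 0`, `c_j = ± 1`. -/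
def Stmt_ZKE : Prop := ∀ (l N : ℕ) (z : Fin l → Eis) (P Q P' Q' : Fin l → Fin l → Eis),
  SysF z P Q P' Q' → 0 < N → (∀ π : PP, V π.1 (N : Eis) ≤ 2) →
  (∀ (π : PP) (i : Fin l), ¬ π.1 ∣ (N : Eis) → ¬ π.1 ∣ z i) →
  ∃ N₀ : ℕ, ∀ (E q : ℕ) (B : ℤ), (E = 1 ∨ E = 2) → q.Prime → N₀ < q →
    B = (N : ℤ) * (q : ℤ) ^ E → (∀ (σ : PP) (i : Fin l), tm σ.1 (z i) (B : Eis) = 0) →
    TyZ z B →
    (∀ i j, MaZ z P Q P' Q' B i j = - MaZ z P Q P' Q' B j i) ∧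
    ∀ c : Fin l → ℕ, (∀ i, c i ≤ 2) → (∃ i, c i ≠ 0) → ∀ X Y : Eis,
      PtE (B : Eis) (∏ i, z i ^ c i) X Y →
      ((∀ i, LCE lam (z i)) ∨ GoodPt B (∏ i, z i ^ c i) X Y) →
      (LCE lam (B : Eis) → GoodW (∏ i, z i ^ c i) X Y) →
      ∀ j, ∑ i, MaZ z P Q P' Q' B j i * (c i : ZMod 3) = 0

/-! ### Dependence of the pairing on the prime -/

/-- the hypotheses on a pair: base `b`, norm `x` -/
structure HypE (N : ℕ) (b x p q p' q' : Eis) : Prop where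
  N0 : 0 < N
  sol : SolE b x p q p' q'
  hb : b ≠ 0
  hx : x ≠ 0
  unr : ∀ π : PP, ¬ π.1 ∣ (N : Eis) → ¬ π.1 ∣ b ∧ ¬ π.1 ∣ x
  cf : ∀ π : PP, V π.1 (N : Eis) ≤ 2

/-- PTK_DE2: the pairing as a function of the prime `Q = 2 (mod 3)` and of `E`.
Proof. As `DCOT_thm` (PT3/DCOT.lean) and `DCK_thm` (PTK/DCK.lean). `B = N Q^E`, `M` a rational integer divisible by `N` and by the norms of `p³ + b q³`, `p'³ + b q'³`, `p³ - x p'³`,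
`x q'³ - q³` and of the `GfE`; `f₀ = 9 |M|`, `Q > N₀`. (a) `π ∣ M`, `b` a local cube at `π`: the term is `AVE (some π) B b + tm w x`; `ASE s B .. r` is the same for all good `r` (`AVE`; `sy (some π) B x = 0`);
fix a good `r₀` as in `DP1_thm` (PTK/DP1.lean; `PTL/DC.lean: place_LC`): `ASE s B r₀ = ASE s N r₀ + E ASE s Q r₀`, and `ASE s Q r₀` is a multiple of `ch Q`, a character of `Q` modulo `f`.
(b) `π ∣ M`, `b` not a local cube: `TTE` depends only on `V π B = V π N`: a constant. (c) `π ∤ M`, `π ∤ Q`: `b`, `x`, `B` are units, the `LfE` at a good `r` are units: `TTE = 0`. (d) `π = Q`: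
`tm b B = 0` and `V b = 0` give `ch b = 0`: `b` is a local cube, `TTE = AVE = - E TAUE Q p q p' q' ξ` (as `DP4_thm`), `tm w x = 0`. (e) `λ`: `b` a local cube: `AVE none B b + sl w x`, as (a)
(`sl B x = 0`: product formula; `sl Q a` depends only on `Q` modulo `9`: `SLC`); `b` not, `x` a local cube: `UVE sl B b x` is additive in `B` up to the constant `sl w (x b)` and `AVE none B x p (-p') (-q) q'` as
before (`SolE x b p (-p') (-q) q'`, `sl B b = 0`); otherwise `lfE b x` is a constant. -/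
def Stmt_DE2 : Prop := ∀ (N : ℕ) (b x p q p' q' : Eis), HypE N b x p q p' q' →
  ∃ f₀ : ℕ, 0 < f₀ ∧ ∀ f : ℕ, 0 < f → f₀ ∣ f →
  ∃ (C : ZMod 3) (Φ : (ZMod f)ˣ →* Multiplicative (ZMod 3)) (N₀ : ℕ),
    ∀ (E Q : ℕ) (hQ : Q.Coprime f), (E = 1 ∨ E = 2) → Q.Prime → N₀ < Q → Q % 3 = 2 →
      (∀ σ : PP, tm σ.1 b ((N : Eis) * (Q : Eis) ^ E) = 0) →
      (∀ σ : PP, tm σ.1 x ((N : Eis) * (Q : Eis) ^ E) = 0) →
      ∀ ξ : Eis, (Q : Eis) ∣ ξ ^ 3 - b → OZE ((N : Eis) * (Q : Eis) ^ E) b x p q p' q' =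
        C + E * ((Φ (ZMod.unitOfCoprime Q hQ)).toAdd - TAUE Q p q p' q' ξ)

/-- PTK_DE1: the pairing as a function of the prime `Q = 1 (mod 3)` and of `E`.
Proof. As `DE2` and `DCKU_thm` (PTK/DCKU.lean); the places over `Q` are `ρ` and `conj ρ`: `- E TAUP ρ .. ξ - E TAUP (conj ρ) .. ξ'`. -/
def Stmt_DE1 : Prop := ∀ (N : ℕ) (b x p q p' q' : Eis), HypE N b x p q p' q' →
  ∃ f₀ : ℕ, 0 < f₀ ∧ ∀ f : ℕ, 0 < f → f₀ ∣ f →
  ∃ (C : ZMod 3) (Φ : (ZMod f)ˣ →* Multiplicative (ZMod 3)) (N₀ : ℕ),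
    ∀ (E Q : ℕ) (hQ : Q.Coprime f) (ρ : PP), (E = 1 ∨ E = 2) → Q.Prime → N₀ < Q → Q % 3 = 1 →
      (Q : Eis) = ρ.1 * conj ρ.1 →
      (∀ σ : PP, tm σ.1 b ((N : Eis) * (Q : Eis) ^ E) = 0) →
      (∀ σ : PP, tm σ.1 x ((N : Eis) * (Q : Eis) ^ E) = 0) →
      ∀ ξ ξ' : Eis, ρ.1 ∣ ξ ^ 3 - b → conj ρ.1 ∣ ξ' ^ 3 - b →
        OZE ((N : Eis) * (Q : Eis) ^ E) b x p q p' q' =
        C + E * ((Φ (ZMod.unitOfCoprime Q hQ)).toAdd - TAUP ρ.1 p q p' q' ξ -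
          TAUP (conj ρ.1) p q p' q' ξ')

/-! ### The system of the minus part -/

/-- A basis of `VS` adapted to the place `λ`. -/
structure BasZ (h n : ℕ) {m k : ℕ} (π : Fin m → PP) (p e : Fin m → ℕ) (r : Fin k → ℕ)
    (w0 : ZMod 3) (c : Fin m → ZMod 3) {l : ℕ} (y : Fin l → Fin (m + 1) → ZMod 3) : Prop where
  ind : LinearIndependent (ZMod 3) y
  mem : ∀ i, y i ∈ VS h n π p e r w0 c
  card : l = vN h n π p e r w0 c
  ty : (h = 0 ∧ wt ((n : ℤ) ^ 2) + w0 = 0) ∨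
    ∀ i j, i ≠ j → y i ∈ V0 h n π p e r w0 c ∨ y j ∈ V0 h n π p e r w0 c
  wd : ∀ i j, i < j → y i ∈ V0 h n π p e r w0 c ∨ y j ∈ V0 h n π p e r w0 c ∨ y i 0 = 0

/-- PTK_ZBA: existence of the basis (linear algebra).
Proof. `V1 = {y ∈ VS | y 0 = 0}`; `V0 ≤ V1 ≤ VS`, each of codimension at most `1` in the next (kernel of a linear functional). Basis: a basis of `V0`, then, if `V0 ≠ V1`, a vector of `V1` outside `V0`, then,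
if `V1 ≠ VS`, a vector of `VS` outside `V1`. `wd`: if `i < j` are both outside `V0` they are the last two vectors, and `y i ∈ V1`. `ty`: if not `(h = 0 ∧ wt (n²) + w0 = 0)` then `dN ≤ 1`, so
`vN ≤ v0N + 1` (`VDIM`): at most one vector is outside `V0`. -/
def Stmt_ZBA : Prop := ∀ (h n m k : ℕ) (π : Fin m → PP) (p e : Fin m → ℕ) (r : Fin k → ℕ)
  (w0 : ZMod 3) (c : Fin m → ZMod 3), h ≤ 2 →
  ∃ (l : ℕ) (y : Fin l → Fin (m + 1) → ZMod 3), BasZ h n π p e r w0 c y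

/-- PTK_MSF: existence of the solutions.
Proof. `ind`, `mc`: `ZI`, `ZA` (as in `MSY_thm`, PTK/MSY.lean). For `i < j` (`z i = zN π e (y i)`; the symbols and the divisibilities from `ZT`, `V ≤ 2` from `ZA`): (a) `y i ∈ V0`: `HNE` for the base `z i`
(`λ⁴ ∣ (z i)² - 1`: `ZL`) and the norm `z j`; (b) `y j ∈ V0`: `HNE` for the base `z j` and the norm `z i`: `SolE (z j) (z i) P Q P' Q'`, so `SolE (z i) (z j) P (-P') (-Q) Q'`; (c) otherwise `y i 0 = 0`: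
`HN2` for the base `z i`: it is `Prim` (no factor `w`; products and powers of primary elements), and `sl (z i) lam ≠ 0`: `sl z 3 = - ∑ y i.succ (e i sym (π i) 3) ≠ 0` as `y i ∉ V0` (see the proof of `ZL_thm`,
PTK/ZL.lean), `sl z 3 = 2 sl z w + 2 sl z lam`, `sl z w = 0` (`3 = - w² λ²`). Define the entries for `j > i` by `sw`. -/
def Stmt_MSF : Prop := ∀ (h n m k : ℕ) (π : Fin m → PP) (p e : Fin m → ℕ) (r f : Fin k → ℕ)
  (w0 : ZMod 3) (c : Fin m → ZMod 3), NF n π p e r f → h ≤ 2 →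
  ∀ (l : ℕ) (y : Fin l → Fin (m + 1) → ZMod 3), BasZ h n π p e r w0 c y →
  ∃ P Q P' Q' : Fin l → Fin l → Eis, SysF (fun i => zN π e (y i)) P Q P' Q'

/-- an enumeration of the pairs `i < j` -/
structure Prs {l N : ℕ} (α β : Fin N → Fin l) : Prop where
  lt : ∀ r, α r < β r
  inj : ∀ r r', α r = α r' → β r = β r' → r = r'
  sur : ∀ i j : Fin l, i < j → ∃ r, α r = i ∧ β r = j

/-- A system of the minus part. -/
structure MnS (h n : ℕ) {m k : ℕ} (π : Fin m → PP) (p e : Fin m → ℕ) (r : Fin k → ℕ)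
    (w0 : ZMod 3) (c : Fin m → ZMod 3) {l N : ℕ} (y : Fin l → Fin (m + 1) → ZMod 3)
    (U R U' R' : Fin l → Fin l → Eis) (α β : Fin N → Fin l) : Prop where
  bas : BasZ h n π p e r w0 c y
  sys : SysF (fun i => zN π e (y i)) U R U' R'
  prs : Prs α β

/-- the matrix of the minus part of a class, as a function of the prime -/
noncomputable def MY (h n : ℕ) {m : ℕ} (π : Fin m → PP) (e : Fin m → ℕ) {l : ℕ}
    (y : Fin l → Fin (m + 1) → ZMod 3) (U R U' R' : Fin l → Fin l → Eis) (E q : ℕ) :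
    Matrix (Fin l) (Fin l) (ZMod 3) := MaZ (fun i => zN π e (y i)) U R U' R' (BB h n E q)

/-- the corank of the matrix of the minus part -/
noncomputable def kY (h n : ℕ) {m : ℕ} (π : Fin m → PP) (e : Fin m → ℕ) {l : ℕ}
    (y : Fin l → Fin (m + 1) → ZMod 3) (U R U' R' : Fin l → Fin l → Eis) (E q : ℕ) : ℕ :=
  l - (MY h n π e y U R U' R' E q).rank

/-- PTK_ZKQ: the number of the classes of points is bounded by the corank of the matrix.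
Proof. `ZKE` for `N = 3^h n` (`BB h n E q = N q^E`; `NF`, `ZA`), `tm σ (z i) B = 0` by `ZS`, `ZSU`. `TyZ`: if `h = 0` and `wt (n²) + w0 = 0` then `B² = 1 (mod 9)` (`wt (B²) = wt (n²) + w0`, see `HYPT.lvw`), so `B` is a
local cube (`LCI`, second part); otherwise `BasZ.ty` with `ZL` and `LCI`. Let `W` be the subspace of `VS` of `WSB` (elements `WqS`). For `0 ≠ u ∈ W` let `u = ∑ c_i y_i` (`y` is a basis of `VS`), `c_i ≤ 2` natural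
numbers; `zN u` is `∏ (zN (y i))^(c i)` up to cubes (`ZA`), so `Occ B (∏ ..)`; if `h = 1` all `y i ∈ V0` (`dN = 0`, `VDIM`) and the point is that of `PT`; if `h ≠ 1` (`lv B ≠ 1`): the point of `PTX`, and if `B` is a
local cube that of `PTY`. By `ZKE` the coordinate vector of `u` is in the kernel of the matrix: `card W ≤ 3^(l - rank)`. -/
def Stmt_ZKQ : Prop := ∀ (h n m k : ℕ) (π : Fin m → PP) (p e : Fin m → ℕ) (r f : Fin k → ℕ)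
  (w0 : ZMod 3) (c : Fin m → ZMod 3), NF n π p e r f → h ≤ 2 →
  ∀ (l : ℕ) (y : Fin l → Fin (m + 1) → ZMod 3) (U R U' R' : Fin l → Fin l → Eis),
  BasZ h n π p e r w0 c y → SysF (fun i => zN π e (y i)) U R U' R' →
  ∃ N₀ : ℕ, ∀ E q : ℕ, (E = 1 ∨ E = 2) → q.Prime → N₀ < q → (q % 3 = 1 ∨ q % 3 = 2) →
    InCT E π w0 c q →
    (∀ i j, MY h n π e y U R U' R' E q i j = - MY h n π e y U R U' R' E q j i) ∧
    Nat.log 3 (Nat.card (WqS h n π p e r w0 c (BB h n E q))) ≤ kY h n π e y U R U' R' E q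

open Classical in
/-- the alternating matrix with the entries `M` at the pairs -/
noncomputable def altZ {l N : ℕ} (α β : Fin N → Fin l) (M : Fin N → ZMod 3) :
    Matrix (Fin l) (Fin l) (ZMod 3) := fun i j =>
  (∑ r, if α r = i ∧ β r = j then M r else 0) - ∑ r, if α r = j ∧ β r = i then M r else 0

/-- PTK_CNM: the pairs and the law.
Proof. `M ↦ altZ α β M` is a bijection of `Fin N → ZMod 3` onto the matrices with `Aᵀ = - A` (the diagonal of such a matrix is `0`, as `2 ≠ 0`); so their number is `3^N`. -/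
def Stmt_CNM : Prop := (∀ l : ℕ, ∃ (N : ℕ) (α β : Fin N → Fin l), Prs α β) ∧
  ∀ (l N : ℕ) (α β : Fin N → Fin l), Prs α β →
    (∀ A : Matrix (Fin l) (Fin l) (ZMod 3), (∀ i j, A i j = - A j i) →
      altZ α β (fun r => A (α r) (β r)) = A) ∧
    ∀ g : ℕ → ℝ, (∑ M : Fin N → ZMod 3, g (l - (altZ α β M).rank)) / 3 ^ N = Esk l g

/-! ### Joint densities -/

/-- the primes `q = a (mod 3)` of the class with the entries `M` of the matrix of the minus part -/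
def QMM (h n : ℕ) {m : ℕ} (π : Fin m → PP) (e : Fin m → ℕ) (w0 : ZMod 3) (c : Fin m → ZMod 3)
    {l N : ℕ} (y : Fin l → Fin (m + 1) → ZMod 3) (U R U' R' : Fin l → Fin l → Eis)
    (α β : Fin N → Fin l) (M : Fin N → ZMod 3) (a E : ℕ) : Set ℕ :=
  {q : ℕ | q % 3 = a ∧ InCT E π w0 c q ∧
    ∀ r, MY h n π e y U R U' R' E q (α r) (β r) = M r}

/-- PTK_ZS2: the primes of `QMM` are in `SPZ`, `SMZ`.
Proof. As `MS2_thm` (PTK/MS2.lean), with `DE2` for every pair (`HypE` for `N = 3^h n`, base `z (α r)`, norm `z (β r)`: `SysF.sol`, `ZA`, `NF`; `tm σ z B = 0`: `ZS`). `M r = C r + E (Φ r - TAUE)`: `E = 1`: `TAUE = (C r - M r) + Φ r`;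
`E = 2`: `TAUE = - (C r - M r) + Φ r`. -/
def Stmt_ZS2 : Prop := ∀ (h n m k : ℕ) (π : Fin m → PP) (p e : Fin m → ℕ) (r f : Fin k → ℕ)
  (w0 : ZMod 3) (c : Fin m → ZMod 3), NF n π p e r f → h ≤ 2 →
  ∀ (l N : ℕ) (y : Fin l → Fin (m + 1) → ZMod 3) (U R U' R' : Fin l → Fin l → Eis)
    (α β : Fin N → Fin l), MnS h n π p e r w0 c y U R U' R' α β →
  ∃ f₀ : ℕ, 0 < f₀ ∧ ∀ f' : ℕ, 0 < f' → f₀ ∣ f' →
  ∀ κ : (ZMod f')ˣ →* Multiplicative (Fin (m + 1) → ZMod 3), IsK π κ →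
  ∃ (C : Fin N → ZMod 3) (Φ : (ZMod f')ˣ →* Multiplicative (Fin N → ZMod 3)) (N₀ : ℕ),
    ∀ (q : ℕ) (M : Fin N → ZMod 3), q.Prime → N₀ < q →
      (q ∈ QMM h n π e w0 c y U R U' R' α β M 2 1 →
        q ∈ SPZ (fun i => zN π e (y i)) α (fun r => U (α r) (β r)) (fun r => R (α r) (β r))
          (fun r => U' (α r) (β r)) (fun r => R' (α r) (β r)) κ (Fin.cons w0 c) (C - M) Φ) ∧
      (q ∈ QMM h n π e w0 c y U R U' R' α β M 2 2 →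
        q ∈ SMZ (fun i => zN π e (y i)) α (fun r => U (α r) (β r)) (fun r => R (α r) (β r))
          (fun r => U' (α r) (β r)) (fun r => R' (α r) (β r)) κ (Fin.cons w0 c) (C - M) Φ)

/-- PTK_ZS1: the primes of `QMM` are in `SPZU`, `SMZU`. As `MS1_thm` (PTK/MS1.lean) and `ZS2`, with `DE1`, `ZSU`. -/
def Stmt_ZS1 : Prop := ∀ (h n m k : ℕ) (π : Fin m → PP) (p e : Fin m → ℕ) (r f : Fin k → ℕ)
  (w0 : ZMod 3) (c : Fin m → ZMod 3), NF n π p e r f → h ≤ 2 →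
  ∀ (l N : ℕ) (y : Fin l → Fin (m + 1) → ZMod 3) (U R U' R' : Fin l → Fin l → Eis)
    (α β : Fin N → Fin l), MnS h n π p e r w0 c y U R U' R' α β →
  ∃ f₀ : ℕ, 0 < f₀ ∧ ∀ f' : ℕ, 0 < f' → f₀ ∣ f' →
  ∀ κ : (ZMod f')ˣ →* Multiplicative (Fin (m + 1) → ZMod 3), IsK π κ →
  ∃ (C : Fin N → ZMod 3) (Φ : (ZMod f')ˣ →* Multiplicative (Fin N → ZMod 3)) (N₀ : ℕ),
    ∀ (q : ℕ) (M : Fin N → ZMod 3), q.Prime → N₀ < q →
      (q ∈ QMM h n π e w0 c y U R U' R' α β M 1 1 →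
        q ∈ SPZU (fun i => zN π e (y i)) α (fun r => U (α r) (β r)) (fun r => R (α r) (β r))
          (fun r => U' (α r) (β r)) (fun r => R' (α r) (β r)) κ (Fin.cons w0 c) (C - M) Φ) ∧
      (q ∈ QMM h n π e w0 c y U R U' R' α β M 1 2 →
        q ∈ SMZU (fun i => zN π e (y i)) α (fun r => U (α r) (β r)) (fun r => R (α r) (β r))
          (fun r => U' (α r) (β r)) (fun r => R' (α r) (β r)) κ (Fin.cons w0 c) (C - M) Φ)

/-- PTK_MD2: the joint density, `q = 2 (mod 3)`. As `MT2_thm` (PTK/MT2.lean) with `ZS2` in place of `MS2`; the `SysZ` for `BM2`: `ind`, `cz`, `sol` from `SysF`, `lt`, `inj` from `Prs`. -/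
def Stmt_MD2 : Prop := ∀ (h n m k : ℕ) (π : Fin m → PP) (p e : Fin m → ℕ) (r f : Fin k → ℕ)
  (w0 : ZMod 3) (c : Fin m → ZMod 3) (s : ℕ) (τ : Fin s → Fin 3) (b X Y : Fin s → ℤ)
  (P Q P' Q' : Fin s → Fin s → ℤ), NF n π p e r f → h ≤ 2 → PlS h n π w0 c τ b X Y P Q P' Q' →
  ∀ (l N : ℕ) (y : Fin l → Fin (m + 1) → ZMod 3) (U R U' R' : Fin l → Fin l → Eis)
    (α β : Fin N → Fin l), MnS h n π p e r w0 c y U R U' R' α β →
  ∀ (M : Fin N → ZMod 3) (t : ℕ), ∃ K : ℝ, ∀ σ : ℝ, 1 < σ → σ ≤ 2 →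
    BDENS.sm {q | q ∈ QMM h n π e w0 c y U R U' R' α β M 2 1 ∧
        t ≤ kS h n b X Y P Q P' Q' 1 q} σ +
      BDENS.sm {q | q ∈ QMM h n π e w0 c y U R U' R' α β M 2 2 ∧
        t ≤ kS h n b X Y P Q P' Q' 2 q} σ ≤
      1 / 3 ^ N / 3 ^ (m + 1) * LI s t * Real.log (1 / (σ - 1)) + K

/-- PTK_MDU: the joint density, `q = 1 (mod 3)`, generic pattern. As `MTU_thm` (PTK/MTU.lean) with `ZS1` in place of `MS1`. -/
def Stmt_MDU : Prop := ∀ (h n m k : ℕ) (π : Fin m → PP) (p e : Fin m → ℕ) (r f : Fin k → ℕ)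
  (w0 : ZMod 3) (c : Fin m → ZMod 3) (d : ℕ) (v : Fin d → ℤ) (δ : Fin d → ZMod 3)
  (s : ℕ) (τ : Fin s → Fin 3) (b : Fin (s + 1) → ℤ) (X Y : Fin s → ℤ)
  (P Q P' Q' : Fin (s + 1) → Fin (s + 1) → ℤ), NF n π p e r f → h ≤ 2 → δ ≠ 0 →
  PlU h n π w0 c v δ τ b X Y P Q P' Q' →
  ∀ (l N : ℕ) (y : Fin l → Fin (m + 1) → ZMod 3) (U R U' R' : Fin l → Fin l → Eis)
    (α β : Fin N → Fin l), MnS h n π p e r w0 c y U R U' R' α β →
  ∀ (M : Fin N → ZMod 3) (t : ℕ), ∃ K : ℝ, ∀ σ : ℝ, 1 < σ → σ ≤ 2 →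
    BDENS.sm {q | (q ∈ QMM h n π e w0 c y U R U' R' α β M 1 1 ∧ q ∈ Pat v δ) ∧
        t ≤ kU h n b X Y P Q P' Q' 1 q} σ +
      BDENS.sm {q | (q ∈ QMM h n π e w0 c y U R U' R' α β M 1 2 ∧ q ∈ Pat v δ) ∧
        t ≤ kU h n b X Y P Q P' Q' 2 q} σ ≤
      2 / 3 ^ d / 3 ^ N / 3 ^ (m + 1) * LI s t * Real.log (1 / (σ - 1)) + K

/-- PTK_MDZ: the joint density, `q = 1 (mod 3)`, zero pattern. As `MTZ_thm` (PTK/MTZ.lean) with `ZS1` in place of `MS1`. -/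
def Stmt_MDZ : Prop := ∀ (h n m k : ℕ) (π : Fin m → PP) (p e : Fin m → ℕ) (r f : Fin k → ℕ)
  (w0 : ZMod 3) (c : Fin m → ZMod 3) (s : ℕ) (τ : Fin s → Fin 3) (b X Y : Fin s → ℤ)
  (P Q P' Q' : Fin s → Fin s → ℤ), NF n π p e r f → h ≤ 2 → PlS h n π w0 c τ b X Y P Q P' Q' →
  ∀ (l N : ℕ) (y : Fin l → Fin (m + 1) → ZMod 3) (U R U' R' : Fin l → Fin l → Eis)
    (α β : Fin N → Fin l), MnS h n π p e r w0 c y U R U' R' α β →
  ∀ (M : Fin N → ZMod 3) (t : ℕ), ∃ K : ℝ, ∀ σ : ℝ, 1 < σ → σ ≤ 2 →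
    BDENS.sm {q | (q ∈ QMM h n π e w0 c y U R U' R' α β M 1 1 ∧ q ∈ ZP b) ∧
        t ≤ kS h n b X Y P Q P' Q' 1 q} σ +
      BDENS.sm {q | (q ∈ QMM h n π e w0 c y U R U' R' α β M 1 2 ∧ q ∈ ZP b) ∧
        t ≤ kS h n b X Y P Q P' Q' 2 q} σ ≤
      1 / 3 ^ s / 3 ^ N / 3 ^ (m + 1) * LI s t * Real.log (1 / (σ - 1)) + K

/-! ### Joint averages -/

/-- PTK_JD2: `q = 2 (mod 3)`.
Proof. For large `q` of the class with the entries `M` of the matrix (`ZKQ`, `CNM`): `MY = altZ α β M`, `F (kY) (kS) = F (l - rank (altZ α β M)) (kS)`. `UPS` (1) with `ι = (Fin N → ZMod 3)`, `c = 1`,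
`T M E = QMM .. M 2 E`, `G' M E q = F (l - rank (altZ α β M)) (kS .. E q)`; the hypothesis for `M`: `KUM` with `x = 1 / 3^N / 3^(m+1)` and `MD2`: `Esk s (F (l - rank ..)) x`. The sum over `M` by `CNM`. -/
def Stmt_JD2 : Prop := ∀ (h n m k : ℕ) (π : Fin m → PP) (p e : Fin m → ℕ) (r f : Fin k → ℕ)
  (w0 : ZMod 3) (c : Fin m → ZMod 3) (s : ℕ) (τ : Fin s → Fin 3) (b X Y : Fin s → ℤ)
  (P Q P' Q' : Fin s → Fin s → ℤ), NF n π p e r f → h ≤ 2 → PlS h n π w0 c τ b X Y P Q P' Q' →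
  ∀ (l N : ℕ) (y : Fin l → Fin (m + 1) → ZMod 3) (U R U' R' : Fin l → Fin l → Eis)
    (α β : Fin N → Fin l), MnS h n π p e r w0 c y U R U' R' α β →
  ∀ F : ℕ → ℕ → ℝ, (∀ a, Monotone (F a)) → (∀ a, 0 ≤ F a 0) →
  UpS (fun E => {q | q % 3 = 2 ∧ InCT E π w0 c q})
    (fun E q => F (kY h n π e y U R U' R' E q) (kS h n b X Y P Q P' Q' E q))
    (Esk l (fun a => Esk s (F a)) / 3 ^ (m + 1))

/-- PTK_JDG: `q = 1 (mod 3)`, one pattern. As `JD2`, with `MDU` (`s = d - 1`: `PlU.dim`). -/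
def Stmt_JDG : Prop := ∀ (h n m k : ℕ) (π : Fin m → PP) (p e : Fin m → ℕ) (r f : Fin k → ℕ)
  (w0 : ZMod 3) (c : Fin m → ZMod 3) (d : ℕ) (v : Fin d → ℤ) (δ : Fin d → ZMod 3)
  (s : ℕ) (τ : Fin s → Fin 3) (b : Fin (s + 1) → ℤ) (X Y : Fin s → ℤ)
  (P Q P' Q' : Fin (s + 1) → Fin (s + 1) → ℤ), NF n π p e r f → h ≤ 2 → δ ≠ 0 →
  PlU h n π w0 c v δ τ b X Y P Q P' Q' →
  ∀ (l N : ℕ) (y : Fin l → Fin (m + 1) → ZMod 3) (U R U' R' : Fin l → Fin l → Eis)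
    (α β : Fin N → Fin l), MnS h n π p e r w0 c y U R U' R' α β →
  ∀ F : ℕ → ℕ → ℝ, (∀ a, Monotone (F a)) → (∀ a, 0 ≤ F a 0) →
  UpS (fun E => {q | q % 3 = 1 ∧ InCT E π w0 c q ∧ q ∈ Pat v δ})
    (fun E q => F (kY h n π e y U R U' R' E q) (kU h n b X Y P Q P' Q' E q))
    (Esk l (fun a => Esk (d - 1) (F a)) * (2 / 3 ^ d / 3 ^ (m + 1)))

/-- PTK_JDZ: `q = 1 (mod 3)`, zero pattern. As `JD2`, with `MDZ`. -/
def Stmt_JDZ : Prop := ∀ (h n m k : ℕ) (π : Fin m → PP) (p e : Fin m → ℕ) (r f : Fin k → ℕ)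
  (w0 : ZMod 3) (c : Fin m → ZMod 3) (s : ℕ) (τ : Fin s → Fin 3) (b X Y : Fin s → ℤ)
  (P Q P' Q' : Fin s → Fin s → ℤ), NF n π p e r f → h ≤ 2 → PlS h n π w0 c τ b X Y P Q P' Q' →
  ∀ (l N : ℕ) (y : Fin l → Fin (m + 1) → ZMod 3) (U R U' R' : Fin l → Fin l → Eis)
    (α β : Fin N → Fin l), MnS h n π p e r w0 c y U R U' R' α β →
  ∀ F : ℕ → ℕ → ℝ, (∀ a, Monotone (F a)) → (∀ a, 0 ≤ F a 0) →
  UpS (fun E => {q | q % 3 = 1 ∧ InCT E π w0 c q ∧ q ∈ ZP b})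
    (fun E q => F (kY h n π e y U R U' R' E q) (kS h n b X Y P Q P' Q' E q))
    (Esk l (fun a => Esk s (F a)) * (1 / 3 ^ s / 3 ^ (m + 1)))

/-- The average of `F(v - rank M + s - rank M')`, `M`, `M'` independent random skew-symmetric matrices of sizes `v`, `s`. -/
noncomputable def EsD (v s : ℕ) (F : ℕ → ℝ) : ℝ := Esk v (fun x => Esk s (fun y => F (x + y)))

/-- PTK_FL2: the law in a class, `q = 2 (mod 3)`.
Proof. Systems from `PLE`, `ZBA`, `MSF`, `CNM` (`l = vN`, `s = sN`). For large `q`: `rr B ≤ w + kS`, `w = Nat.log 3 (card WqS)` (`NBW`, `CubeRank.rr_le`), `w ≤ kY` (`ZKQ`), so `F (rr B) ≤ F (kY + kS)`. `UPS` (1)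
with one set and `JD2` for `F a b = F (a + b)`. -/
def Stmt_FL2 : Prop := ∀ (h n m k : ℕ) (π : Fin m → PP) (p e : Fin m → ℕ) (r f : Fin k → ℕ)
  (w0 : ZMod 3) (c : Fin m → ZMod 3), NF n π p e r f → h ≤ 2 →
  ∀ F : ℕ → ℝ, Monotone F → 0 ≤ F 0 →
  UpS (fun E => {q | q % 3 = 2 ∧ InCT E π w0 c q}) (fun E q => F (CubeRank.rr (BB h n E q)))
    (EsD (vN h n π p e r w0 c) (sN h n π p e r w0 c) F / 3 ^ (m + 1))

/-- PTK_FL1: the law in a class, `q = 1 (mod 3)`.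
Proof. As `AM1_thm` (PTK/AM1.lean): `v` from `NHPT` (`d = sN`, `HB`), for every `δ ≠ 0` a system (`PLU`), the system `b` of `PLE`, one system of the minus part (`ZBA`, `MSF`, `CNM`). For large `q` of the class: if `q ∈ ZP v` then
`q ∈ ZP b` (`ZPV`) and `rr B ≤ w + 1 + kS` (`NBX`), otherwise `rr B ≤ w + kU_δ` for at least two `δ ≠ 0` with `q ∈ Pat v δ` (`PAT`, `NBU`); `w ≤ kY` (`ZKQ`). So `2 F (rr B) ≤ ∑_δ [q ∈ Pat v δ] F (kY + kU_δ) +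
[q ∈ ZP b] 2 F (kY + kS + 1)`; `UPS` (1) with `c = 2`, `JDG`, `JDZ`: `(1/2) ((3^d - 1)(2 / 3^d) Esk l (Esk (d - 1) ..) + 2 / 3^d Esk l (Esk d ..)) / 3^(m+1)`, and `ESZ` for `F (a + ·)` and every `a` (`Esk l` is linear). -/
def Stmt_FL1 : Prop := ∀ (h n m k : ℕ) (π : Fin m → PP) (p e : Fin m → ℕ) (r f : Fin k → ℕ)
  (w0 : ZMod 3) (c : Fin m → ZMod 3), NF n π p e r f → h ≤ 2 →
  ∀ F : ℕ → ℝ, Monotone F → 0 ≤ F 0 →
  UpS (fun E => {q | q % 3 = 1 ∧ InCT E π w0 c q}) (fun E q => F (CubeRank.rr (BB h n E q)))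
    (EsD (vN h n π p e r w0 c) (sN h n π p e r w0 c + 1) F / 3 ^ (m + 1))

/-! ### The theorem -/

/-- PTK_FB: the law in a class, both residue classes, upper and lower bounds.
Proof. First part: `FL2`, `FL1`, `UPA`. Second part: `UPL` with `c₀ = 1`, `G E q = [t ≤ rr (BB h n E q)]` (for large `q` the group is generated by `rr B` points: `CLN`, `CLU`, `CubeRank.gen_rr`; so `1 - G ≤ tf (R ..)`),
the total number from `CLT`, the bound for `G` from `FL2`, `FL1` with `F x = [t ≤ x]`; `1 - EsD (t ≤ ·) = EsD (· < t)` (`Esk s 1 = 1`). See `PR2_thm` (PTK/PR2.lean) and `CBE_thm` (PTN/CBE.lean). -/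
def Stmt_FB : Prop := ∀ (h n m k : ℕ) (π : Fin m → PP) (p e : Fin m → ℕ) (r f : Fin k → ℕ)
  (w0 : ZMod 3) (c : Fin m → ZMod 3), NF n π p e r f → h ≤ 2 → ∀ a : ℕ, (a = 1 ∨ a = 2) →
  (∀ F : ℕ → ℝ, Monotone F → 0 ≤ F 0 →
    AboveA ((3 ^ h * n : ℕ) : ℤ) a (Kl π w0 c) (fun A => F (CubeRank.rr A))
      (EsD (vN h n π p e r w0 c) (sN h n π p e r w0 c + if a = 1 then 1 else 0) F /
        3 ^ (m + 1))) ∧
  ∀ (t : ℕ) (R : ℤ → Prop),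
    (∀ A : ℤ, A ≠ 0 → CubeRank.GenBy A (CubeRank.rr A) → CubeRank.rr A < t → R A) →
    BelowA ((3 ^ h * n : ℕ) : ℤ) a (Kl π w0 c) (fun A => tf (R A))
      (EsD (vN h n π p e r w0 c) (sN h n π p e r w0 c + if a = 1 then 1 else 0)
        (fun x => if x < t then 1 else 0) / 3 ^ (m + 1))

/-- PTK_EKN: the numbers.
Proof. `Esk s F` is an average of `F (s - rank M)`: linear, monotone, `Esk s 1 = 1`, and it depends only on the values `F c` with `c = s (mod 2)` (`AL.cr_parity`, `AL.even_rank` in PTL/AL.lean). (1) `EsD v s id = Esk v id + Esk s id`, `LAM`.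
(2) `EsD v s (3^(k ·)) = Esk v (3^(k ·)) Esk s (3^(k ·))`, `ESB`. (3) one of `v`, `s` is odd: `[x + y < 2] ≥ [x < 2] [y < 1]` or `≥ [x < 1] [y < 2]`, `Esk v [· < 2] ≥ 23/24` (`v` odd), `Esk s [· < 1] ≥ 5/8` (`s` even): `LAW` (3), (4),
`Esk_ind`; `(23/24)(5/8) = 115/192`. (5) both odd: `[x + y < 3] ≥ [x < 2] [y < 2]`, `(23/24)² ≥ 17/20`; both even: for even `x`, `y`: `1 - [x + y < 3] ≤ [4 ≤ x] + [4 ≤ y] + [1 ≤ x] [1 ≤ y]`, `[4 ≤ x] ≤ 3^(4 x) / 3^16`, `ESB`: `MoB 4 / 3^16 = 91840 / 43046721 ≤ 11/5000`,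
`9/64 + 22/5000 ≤ 3/20`. (4) from (3) and (5). (6) `[x + y < 1] = [x < 1] [y < 1]`, `(5/8)²`. (7) `Esk 0 G = G 0`. (8), (9): `LAW`. -/
def Stmt_EKN : Prop :=
  (∀ v s, EsD v s (fun c => (c : ℝ)) ≤ 13 / 6) ∧
  (∀ v s k : ℕ, EsD v s (fun c => (3 : ℝ) ^ (k * c)) ≤ MoB k ^ 2) ∧
  (∀ v s, Odd (v + s) → 115 / 192 ≤ EsD v s (fun x => if x < 2 then 1 else 0)) ∧
  (∀ v s, 115 / 192 ≤ EsD v s (fun x => if x < 3 then 1 else 0)) ∧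
  (∀ v s, Even (v + s) → 17 / 20 ≤ EsD v s (fun x => if x < 3 then 1 else 0)) ∧
  (∀ v s, Even v → Even s → 25 / 64 ≤ EsD v s (fun x => if x < 1 then 1 else 0)) ∧
  (∀ s F, EsD 0 s F = Esk s F) ∧
  (∀ s, Even s → 5 / 8 ≤ EsD 0 s (fun x => if x < 1 then 1 else 0)) ∧
  (∀ s, Odd s → 23 / 24 ≤ EsD 0 s (fun x => if x < 2 then 1 else 0)) ∧
  ∀ v s t, 0 ≤ EsD v s (fun x => if x < t then 1 else 0)

/-- PTK_AWF: the averages over all `A`.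
Proof. `SUMA`, `FB`, `EKN`; there are `3^(m+1)` classes. Lower bounds: `x_a = ∑_y g_a y / 3^(m+1)`; for `r ≤ 1`: `g_a y = 115/192` if `vN + sN + [a = 1]` is odd, otherwise `0`; for `r ≤ 2`: `115/192` or `17/20`; for every class `y` exactly one of
`a = 1, 2` has odd `vN + sN + [a = 1]`. -/
def Stmt_AWF : Prop := ∀ (h n m k : ℕ) (π : Fin m → PP) (p e : Fin m → ℕ) (r f : Fin k → ℕ),
  NF n π p e r f → h ≤ 2 →
  (∀ a : ℕ, (a = 1 ∨ a = 2) →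
    AboveA ((3 ^ h * n : ℕ) : ℤ) a (fun _ => True) (fun A => (CubeRank.rr A : ℝ)) (13 / 6) ∧
    (∀ k₀ : ℕ, AboveA ((3 ^ h * n : ℕ) : ℤ) a (fun _ => True)
      (fun A => 3 ^ (k₀ * CubeRank.rr A)) (MoB k₀ ^ 2)) ∧
    BelowA ((3 ^ h * n : ℕ) : ℤ) a (fun _ => True) (fun A => tf (CubeRank.rr A ≤ 2))
      (115 / 192)) ∧
  (∃ x₁ x₂ : ℝ, 0 ≤ x₁ ∧ 0 ≤ x₂ ∧ x₁ + x₂ = 115 / 192 ∧
    BelowA ((3 ^ h * n : ℕ) : ℤ) 1 (fun _ => True) (fun A => tf (CubeRank.rr A ≤ 1)) x₁ ∧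
    BelowA ((3 ^ h * n : ℕ) : ℤ) 2 (fun _ => True) (fun A => tf (CubeRank.rr A ≤ 1)) x₂) ∧
  ∃ x₁ x₂ : ℝ, 0 ≤ x₁ ∧ 0 ≤ x₂ ∧ x₁ + x₂ = 115 / 192 + 17 / 20 ∧
    BelowA ((3 ^ h * n : ℕ) : ℤ) 1 (fun _ => True) (fun A => tf (CubeRank.rr A ≤ 2)) x₁ ∧
    BelowA ((3 ^ h * n : ℕ) : ℤ) 2 (fun _ => True) (fun A => tf (CubeRank.rr A ≤ 2)) x₂

open Classical in
/-- PTK_MAW: the theorem.
Proof. As `MAV_thm` (PTK/MAV.lean: `NFE`, `NDIM`, `NSUM`, `NZER`, `TRU`, `TRC`, …; repeat it with the new inputs), with `FB` and `EKN` for the classes: `R A = (rr A ≤ t)` with `t + 1`, `R A` the negation of solvability with `t = 1`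
(`DOM.no_sol`); all `A`: `AWF`, and `MTL`, `GMB` (last part) for the tails: `MoB k² / 3^(k (2 k + 1)) ≤ (64/25) / 3^(k²)`; the last three lines are those of `MAV`. -/
def Stmt_MAW : Prop := ∀ N : ℕ, 0 < N → (∀ p : ℕ, p.Prime → ¬ p ^ 3 ∣ N) →
  ∀ m k δ μ : ℕ, m = (N.primeFactors.filter (fun p => p % 3 = 1)).card →
  k = (N.primeFactors.filter (fun p => p % 3 = 2)).card →
  δ = (if 3 ∣ N ∧ ¬ 9 ∣ N then 1 else 0) → μ + δ = m + 1 →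
  (∃ v s : (ZMod (9 * N))ˣ → ℕ,
    (∀ u : (ZMod (9 * N))ˣ, s u + (if Nu1 N u then 1 else 0) = v u + k + δ) ∧
    (∑ᶠ u : (ZMod (9 * N))ˣ, (3 : ℝ) ^ v u ≤ (5 / 3) ^ μ * (9 * N).totient) ∧
    ((2 / 3 : ℝ) ^ μ * (9 * N).totient ≤
      Nat.card {u : (ZMod (9 * N))ˣ // v u = 0 ∧ ¬ Nu1 N u}) ∧
    (¬ 3 ∣ N → (∃ p : ℕ, p.Prime ∧ p ∣ N ∧ (p % 9 = 2 ∨ p % 9 = 5)) →
      1 / 3 * (2 / 3 : ℝ) ^ m * (9 * N).totient ≤
        Nat.card {u : (ZMod (9 * N))ˣ // v u = 0 ∧ Nu1 N u}) ∧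
    (∀ (u : (ZMod (9 * N))ˣ) (F : ℕ → ℝ), Monotone F → 0 ≤ F 0 →
      AboveA N 2 (Cu N u) (fun A => F (CubeRank.rr A)) (EsD (v u) (s u) F / 3 ^ (m + 1)) ∧
      AboveA N 1 (Cu N u) (fun A => F (CubeRank.rr A))
        (EsD (v u) (s u + 1) F / 3 ^ (m + 1))) ∧
    (∀ (u : (ZMod (9 * N))ˣ) (t : ℕ),
      BelowA N 2 (Cu N u) (fun A => tf (CubeRank.rr A < t))
        (EsD (v u) (s u) (fun x => if x < t then 1 else 0) / 3 ^ (m + 1)) ∧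
      BelowA N 1 (Cu N u) (fun A => tf (CubeRank.rr A < t))
        (EsD (v u) (s u + 1) (fun x => if x < t then 1 else 0) / 3 ^ (m + 1))) ∧
    (∀ u : (ZMod (9 * N))ˣ,
      BelowA N 2 (Cu N u) (fun A => tf (¬ ∃ X Y : ℚ, X ^ 3 + Y ^ 3 = (A : ℚ)))
        (EsD (v u) (s u) (fun x => if x < 1 then 1 else 0) / 3 ^ (m + 1)) ∧
      BelowA N 1 (Cu N u) (fun A => tf (¬ ∃ X Y : ℚ, X ^ 3 + Y ^ 3 = (A : ℚ)))
        (EsD (v u) (s u + 1) (fun x => if x < 1 then 1 else 0) / 3 ^ (m + 1))) ∧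
    ∀ u : (ZMod (9 * N))ˣ,
      (Odd (v u + s u) →
        BelowA N 2 (Cu N u) (fun A => tf (CubeRank.rr A ≤ 1)) (115 / 192 / 3 ^ (m + 1)) ∧
        BelowA N 1 (Cu N u) (fun A => tf (CubeRank.rr A ≤ 2)) (17 / 20 / 3 ^ (m + 1))) ∧
      (Even (v u + s u) →
        BelowA N 2 (Cu N u) (fun A => tf (CubeRank.rr A ≤ 2)) (17 / 20 / 3 ^ (m + 1)) ∧
        BelowA N 1 (Cu N u) (fun A => tf (CubeRank.rr A ≤ 1)) (115 / 192 / 3 ^ (m + 1))) ∧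
      (Even (v u) → Even (s u) →
        BelowA N 2 (Cu N u) (fun A => tf (¬ ∃ X Y : ℚ, X ^ 3 + Y ^ 3 = (A : ℚ)))
          (25 / 64 / 3 ^ (m + 1))) ∧
      (Even (v u) → Odd (s u) →
        BelowA N 1 (Cu N u) (fun A => tf (¬ ∃ X Y : ℚ, X ^ 3 + Y ^ 3 = (A : ℚ)))
          (25 / 64 / 3 ^ (m + 1))) ∧
      (v u = 0 → Even (s u) →
        BelowA N 2 (Cu N u) (fun A => tf (¬ ∃ X Y : ℚ, X ^ 3 + Y ^ 3 = (A : ℚ)))
          (5 / 8 / 3 ^ (m + 1)) ∧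
        BelowA N 1 (Cu N u) (fun A => tf (CubeRank.rr A ≤ 1)) (23 / 24 / 3 ^ (m + 1))) ∧
      (v u = 0 → Odd (s u) →
        BelowA N 2 (Cu N u) (fun A => tf (CubeRank.rr A ≤ 1)) (23 / 24 / 3 ^ (m + 1)) ∧
        BelowA N 1 (Cu N u) (fun A => tf (¬ ∃ X Y : ℚ, X ^ 3 + Y ^ 3 = (A : ℚ)))
          (5 / 8 / 3 ^ (m + 1)))) ∧
  (∃ M : ℕ, ∀ q e : ℕ, q.Prime → M < q → (e = 1 ∨ e = 2) →
    CubeRank.GenBy (N * q ^ e) (CubeRank.rr (N * q ^ e))) ∧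
  (∀ a : ℕ, (a = 1 ∨ a = 2) →
    AboveA N a (fun _ => True) (fun A => (CubeRank.rr A : ℝ)) (13 / 6) ∧
    (∀ k : ℕ, AboveA N a (fun _ => True) (fun A => 3 ^ (k * CubeRank.rr A)) (MoB k ^ 2)) ∧
    (∀ k : ℕ, AboveA N a (fun _ => True) (fun A => tf (2 * k + 1 ≤ CubeRank.rr A))
      (64 / 25 / 3 ^ k ^ 2)) ∧
    BelowA N a (fun _ => True) (fun A => tf (CubeRank.rr A ≤ 2)) (115 / 192)) ∧
  (∃ x₁ x₂ : ℝ, 0 ≤ x₁ ∧ 0 ≤ x₂ ∧ x₁ + x₂ = 115 / 192 ∧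
    BelowA N 1 (fun _ => True) (fun A => tf (CubeRank.rr A ≤ 1)) x₁ ∧
    BelowA N 2 (fun _ => True) (fun A => tf (CubeRank.rr A ≤ 1)) x₂) ∧
  (∃ x₁ x₂ : ℝ, 0 ≤ x₁ ∧ 0 ≤ x₂ ∧ x₁ + x₂ = 115 / 192 + 17 / 20 ∧
    BelowA N 1 (fun _ => True) (fun A => tf (CubeRank.rr A ≤ 2)) x₁ ∧
    BelowA N 2 (fun _ => True) (fun A => tf (CubeRank.rr A ≤ 2)) x₂) ∧
  AboveA N 2 (fun _ => True) (fun A => 3 ^ CubeRank.rr A) (4 * (5 / 3) ^ μ) ∧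
  AboveA N 1 (fun _ => True) (fun A => 3 ^ CubeRank.rr A) (4 * (5 / 3) ^ μ) ∧
  (Even (k + δ) →
    BelowA N 2 (fun _ => True)
      (fun A => tf (¬ ∃ X Y : ℚ, X ^ 3 + Y ^ 3 = (A : ℚ))) (5 / 8 * (2 / 3) ^ μ) ∧
    BelowA N 1 (fun _ => True) (fun A => tf (CubeRank.rr A ≤ 1)) (23 / 24 * (2 / 3) ^ μ)) ∧
  (Odd (k + δ) →
    BelowA N 2 (fun _ => True) (fun A => tf (CubeRank.rr A ≤ 1)) (23 / 24 * (2 / 3) ^ μ) ∧
    BelowA N 1 (fun _ => True)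
      (fun A => tf (¬ ∃ X Y : ℚ, X ^ 3 + Y ^ 3 = (A : ℚ))) (5 / 8 * (2 / 3) ^ μ))

end Pool.Agent.PTK


end

section

/-!
# PTK_SYK: the system for a vector `y` and independent vectors of `V0`
-/

set_option autoImplicit false

open NumberField IsDedekindDomain Finset
open scoped nonZeroDivisors Pointwise

namespace Pool.Agent.PTK

open Pool.Agent.Lib_helper18 Pool.Agent.Lib_helper18.Eis Pool.Agent.Lib_helper84.Cub
open Pool.Agent.PT Pool.Agent.PTE Pool.Agent.PT3 Pool.Agent.PTL Pool.Agent.PTN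

namespace SYK

variable {n m k : ℕ} {π : Fin m → PP} {p e : Fin m → ℕ} {r f : Fin k → ℕ}

/-- exchange of the base and the norm -/
theorem swap {b x P Q P' Q' : Eis} (h : SolE b x P Q P' Q') :
    SolE x b P (-P') (-Q) Q' where
  eq := by
    have := h.eq
    linear_combination this
  n1 := by
    intro h0
    exact h.n2 (by linear_combination h0)
  n2 := by
    intro h0
    exact h.n1 (by linear_combination h0)
  g1 := by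
    intro h0
    apply h.g1
    unfold GfE at h0 ⊢
    linear_combination h0
  g2 := by
    intro h0
    apply h.g2
    unfold GfE at h0 ⊢
    linear_combination h0

theorem natEis_ne {a : ℕ} (ha : a ≠ 0) : (a : Eis) ≠ 0 := by
  intro h0
  have := congrArg Eis.re h0
  simp only [natCast_re, zero_re] at this
  exact ha (by exact_mod_cast this)

theorem lam_two : ¬ lam ∣ (2 : Eis) := by
  rintro ⟨t, ht⟩
  have h1 := congrArg Eis.norm ht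
  rw [norm_mul] at h1
  have h2 : (2 : Eis).norm = 4 := by
    have : (2 : Eis) = ((2 : ℕ) : Eis) := by push_cast; rfl
    rw [this, norm_natCast]
    norm_num
  have h3 : lam.norm = 3 := by
    simp [Eis.norm, lam]
  rw [h2, h3] at h1
  omega

/-- `b` is a local cube at `λ` -/
theorem lc (hLCI : Stmt_LCI) {b : Eis} (h : lam ^ 4 ∣ b ^ 2 - 1) : LCE lam b := by
  have h1 : lam ^ 4 ∣ (b - 1) * (b + 1) := by
    have : b ^ 2 - 1 = (b - 1) * (b + 1) := by ring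
    rwa [this] at h
  have h0 : ¬ lam ∣ (1 : Eis) := fun h2 => prime_lam.not_isUnit (isUnit_of_dvd_one h2)
  by_cases h2 : lam ∣ b - 1
  · have h3 : ¬ lam ∣ b + 1 := fun h3 => lam_two (by
      have h4 := dvd_sub h3 h2
      have h5 : b + 1 - (b - 1) = 2 := by ring
      rwa [h5] at h4)
    have h4 : lam ^ 4 ∣ b - 1 := prime_lam.pow_dvd_of_dvd_mul_right 4 h3 h1
    refine hLCI.2.1 b 1 1 h0 h0 ?_
    have h5 : b * 1 ^ 3 - 1 ^ 3 = b - 1 := by ring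
    rw [h5]
    exact h4
  · have h4 : lam ^ 4 ∣ b + 1 := prime_lam.pow_dvd_of_dvd_mul_left 4 h2 h1
    refine hLCI.2.1 b (-1) 1 (fun h5 => h0 (by simpa using h5)) h0 ?_
    have h5 : b * 1 ^ 3 - (-1) ^ 3 = b + 1 := by ring
    rw [h5]
    exact h4

/-- the valuations of `n` -/
theorem Vn_le (hSPP : SPP) (hn : NF n π p e r f) (σ : PP) : V σ.1 (n : Eis) ≤ 2 := by
  by_cases hd : σ.1 ∣ (n : Eis)
  · rcases HYPS.cls hSPP hn σ.2.1 hd with ⟨i, h1 | h1⟩ | ⟨j, h1⟩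
    · rw [EHYP.V_assoc h1, EHYP.V_n_i hSPP hn i]
      have := hn.pe i
      omega
    · have h2 := EHYP.V_conj (π i).2.1 (HYPS.n_ne0 hn)
      rw [conj_natCast] at h2
      rw [EHYP.V_assoc h1, h2, EHYP.V_n_i hSPP hn i]
      have := hn.pe i
      omega
    · rw [EHYP.V_assoc h1, EHYP.V_n_j hSPP hn j]
      have := hn.rf j
      omega
  · rw [V_eq_zero hd]
    exact Nat.zero_le _

theorem VN_le (hSPP : SPP) (hn : NF n π p e r f) (h : ℕ) (σ : PP) :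
    V σ.1 ((3 ^ h * n : ℕ) : Eis) ≤ 2 := by
  have h3 : (3 : Eis) ≠ 0 := HYPT.three_ne
  push_cast
  rw [V_mul σ.2.1 (pow_ne_zero _ h3) (HYPS.n_ne0 hn), V_pow σ.2.1 h3,
    V_eq_zero (hSPP.2.2.2.1 σ).1, mul_zero, zero_add]
  exact Vn_le hSPP hn σ

end SYK

open _root_.Pool.Agent.PTK.SYK in
theorem SYK_thm (hSPP : SPP) (hLCI : Stmt_LCI) (hHNE : Stmt_HNE) (hZA : Stmt_ZA) (hZI : Stmt_ZI)
    (hZL : Stmt_ZL) (hZT : Stmt_ZT) : Stmt_SYK := by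
  intro h n m k π p e r f w0 c hn hh y hy s u hu hli
  have hy0 : y ≠ 0 := by
    have := hli.ne_zero 0
    simpa using this
  have hu0 : ∀ j, u j ≠ 0 := fun j => by
    have := hli.ne_zero j.succ
    simpa using this
  have hAy := hZA n m k π p e r f hn y
  have hAu := fun j => hZA n m k π p e r f hn (u j)
  have hL : ∀ j, lam ^ 4 ∣ zN π e (u j) ^ 2 - 1 := fun j =>
    hZL n m k π p e r f hn (u j) (hu j).2.1 (hu j).2.2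
  have hcy : ¬ ∃ c : Eis, c ^ 3 = zN π e y := fun h1 => hy0 (hAy.2.2.2.2.2.2.2.2.2 h1)
  have hcu : ∀ j, ¬ ∃ c : Eis, c ^ 3 = zN π e (u j) := fun j h1 =>
    hu0 j ((hAu j).2.2.2.2.2.2.2.2.2 h1)
  have hT := fun j => hZT h n m k π p e r f w0 c hn hh (u j) (hu j).1 y hy
  have hsol : ∀ j, ∃ P Q P' Q' : Eis, SolE (zN π e (u j)) (zN π e y) P Q P' Q' := fun j =>
    hHNE (zN π e (u j)) (zN π e y) (hAu j).1 (hL j) (hcu j) (hAu j).2.2.2.2.1 hAy.1 hcy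
      (hT j).1 (hT j).2
  choose P Q P' Q' hS using hsol
  refine ⟨P, fun j => - P' j, fun j => - Q j, Q', ⟨?_, fun j => swap (hS j), hAy.2.2.1,
    fun j => (hAu j).2.2.1⟩, fun j => ⟨?_, swap (hS j), (hAu j).1, hAy.1, lc hLCI (hL j), ?_,
    VN_le hSPP hn h⟩⟩
  · rintro c₀ d hcd ⟨t, ht⟩
    have h1 : ∑ i, ((Fin.cons c₀ d : Fin (s + 1) → ℕ) i : ZMod 3) •
        (Fin.cons y u : Fin (s + 1) → Fin (m + 1) → ZMod 3) i = 0 := by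
      refine hZI n m k π p e r f hn (s + 1) _ _ ⟨t, ?_⟩
      rw [Fin.prod_univ_succ]
      simpa using ht
    have h2 := Fintype.linearIndependent_iff.1 hli _ h1
    rcases hcd with h3 | ⟨i, h3⟩
    · exact h3 ((ZMod.natCast_eq_zero_iff _ 3).1 (by simpa using h2 0))
    · exact h3 ((ZMod.natCast_eq_zero_iff _ 3).1 (by simpa using h2 i.succ))
  · have := EHYP.n_ne hn
    positivity
  · intro σ hσ
    have h1 : ¬ σ.1 ∣ (n : Eis) := fun h2 => hσ (by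
      push_cast
      exact Dvd.dvd.mul_left h2 _)
    exact ⟨(hAu j).2.2.2.1 σ h1, hAy.2.2.2.1 σ h1⟩

end Pool.Agent.PTK


end

section

/-!
# PTK_MTZ: the joint density, `q = 1 (mod 3)`, all rational classes cubes modulo `q`
-/

set_option autoImplicit false

open NumberField IsDedekindDomain Finset
open scoped nonZeroDivisors Pointwise

namespace Pool.Agent.PTK

open Pool.Agent.Lib_helper18 Pool.Agent.Lib_helper18.Eis Pool.Agent.Lib_helper84.Cub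
open Pool.Agent.PT Pool.Agent.PTE Pool.Agent.PT3 Pool.Agent.PTL Pool.Agent.PTN

/-- PTK_MTZ. -/
theorem MTZ_thm (hCLSC : CLSC) (hCLSCS : CLSCS) (hMSY : Stmt_MSY) (hMPZ : Stmt_MPZ)
    (hMS1 : Stmt_MS1) (hBMZ : Stmt_BMZ) : Stmt_MTZ := by
  classical
  intro h n m k π p e r f w0 c s τ b X Y P Q P' Q' hNF hh hPl Mm N y α β hT t
  obtain ⟨P1, Q1, P1', Q1', hSys, hHyp⟩ := hMSY h n m k π p e r f w0 c hNF hh Mm N y α β hT
  obtain ⟨f0, hf0, hf1⟩ := hMPZ h n m k π p e r f w0 c s τ b X Y P Q P' Q' hNF hh hPl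
  obtain ⟨g0, hg0, hg1⟩ := hMS1 h n m k π p e r f w0 c hNF hh Mm N y α β hT P1 Q1 P1' Q1' hSys hHyp
  obtain ⟨F, hF, hF9, hpF, hfF, hgF⟩ : ∃ F : ℕ, 0 < F ∧ 9 ∣ F ∧ (∀ i, p i ∣ F) ∧
      f0 ∣ F ∧ g0 ∣ F := by
    refine ⟨9 * (∏ i, p i) * (f0 * g0), ?_, ?_, ?_, ?_, ?_⟩
    · have h1 : 0 < ∏ i, p i := Finset.prod_pos fun i _ => (hNF.pp i).pos
      positivity
    · exact Dvd.dvd.mul_right (Dvd.intro _ rfl) _
    · intro i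
      exact Dvd.dvd.mul_right (Dvd.dvd.mul_left (Finset.dvd_prod_of_mem p (mem_univ i)) _) _
    · exact Dvd.dvd.mul_left (Dvd.intro _ rfl) _
    · exact Dvd.dvd.mul_left (Dvd.intro_left _ rfl) _
  obtain ⟨κ, hκ1, hκ2⟩ := hCLSC m π p hNF.pp hNF.p1 hNF.pπ hNF.pinj F hF hF9 hpF
  have hκ3 := hCLSCS F m κ hF hF9 hκ2
  obtain ⟨C, Φ, N1, hN1⟩ := hf1 F hF hfF κ hκ1
  obtain ⟨C', Φ', N2, hN2⟩ := hg1 F hF hgF κ hκ1
  obtain ⟨K, hK⟩ := hBMZ s b P Q P' Q' Mm N (fun i => zN π e (y i)) α β P1 Q1 P1' Q1' F m t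
    κ (Fin.cons w0 c) C Φ C' Φ' hPl.sys hSys hF hF9 hκ3
  obtain ⟨M, hM⟩ : ∃ M, M = N1 + N2 := ⟨_, rfl⟩
  refine ⟨K + 2 * (2 * ((Finset.range (M + 1)).card : ℝ)), fun σ h1 hσ2 => ?_⟩
  have hB := hK σ h1 hσ2
  have hsub1 : ∀ q : ℕ, q.Prime → M < q →
      q ∈ {q : ℕ | (q ∈ QM h n π e w0 c y α 1 1 ∧ q ∈ ZP b) ∧
        t ≤ kS h n b X Y P Q P' Q' 1 q} →
      q ∈ SPF b P Q P' Q' t κ (Fin.cons w0 c) C Φ ∩
        SPZU (fun i => zN π e (y i)) α P1 Q1 P1' Q1' κ (Fin.cons w0 c) C' Φ' := by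
    intro q hq hqM ⟨⟨hqY, hqP⟩, hqt⟩
    exact ⟨((hN1 q t hq (by omega) hqY.1 hqP).1 hqY.2.1 hqt),
      (hN2 q hq (by omega)).1 hqY⟩
  have hsub2 : ∀ q : ℕ, q.Prime → M < q →
      q ∈ {q : ℕ | (q ∈ QM h n π e w0 c y α 1 2 ∧ q ∈ ZP b) ∧
        t ≤ kS h n b X Y P Q P' Q' 2 q} →
      q ∈ SMF b P Q P' Q' t κ (Fin.cons w0 c) C Φ ∩
        SMZU (fun i => zN π e (y i)) α P1 Q1 P1' Q1' κ (Fin.cons w0 c) C' Φ' := by
    intro q hq hqM ⟨⟨hqY, hqP⟩, hqt⟩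
    exact ⟨((hN1 q t hq (by omega) hqY.1 hqP).2 hqY.2.1 hqt),
      (hN2 q hq (by omega)).2 hqY⟩
  have i1 := CL.sm_le_add _ _ M hsub1 h1
  have i2 := CL.sm_le_add _ _ M hsub2 h1
  have e2 : (1 / 3 ^ s / 3 ^ N / 3 ^ (m + 1) * LI s t : ℝ) =
      1 / 3 ^ s * LI s t / 3 ^ N / 3 ^ (m + 1) := by
    ring
  rw [e2]
  linarith

end Pool.Agent.PTK


end
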