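import Mathlib
import Pool.Agent.PTDM.C22
import Pool.Agent.PTDM.C26
import Pool.Agent.PTDM.C30
import Pool.Agent.PTDM.C41
import Pool.Agent.PTDM.C42
import Pool.Agent.PTDM.C45
import Pool.Agent.PTKW.C01
import Pool.Agent.PTKW.C02

/-! Parts: PTKX.F7U, PTKX.IF1, PTKX.LAM, PTKX.MDU, PTKX.MDZ, PTKX.MPZ, PTKX.ZA, PTKX.ZAUX, PTKX.ZC, PTKX.ZI, PTKX.ZS, PTKX.ZSU, PTKX.ZT -/

section

/-!
# PTK_F7U: the local term of a point at a tame place where `x` has valuation divisible by `3` and is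
not a cube.
-/

set_option autoImplicit false

namespace Pool.Agent.PTK

open Pool.Agent.Lib_helper18 Pool.Agent.Lib_helper18.Eis Pool.Agent.Lib_helper84.Cub
open Pool.Agent.PT

theorem F7U_thm (hSTM : STM) : Stmt_F7U := by
  intro π b x p q p' q' X Y hb hx hs hX hY hD hV hc
  have h3 := Pool.Agent.PT.F7U.pp_not_dvd_three π
  have hπ := π.2.1
  have S := hSTM π.1 hπ h3
  have hN2 : x * q' ^ 3 - q ^ 3 ≠ 0 := by
    intro h
    apply hs.n2
    have e : p ^ 3 - x * p' ^ 3 = b * (x * q' ^ 3 - q ^ 3) := by linear_combination hs.eq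
    rw [e, h, mul_zero]
  have h1 := Pool.Agent.PT.F7U.half hπ h3 S x X Y p p' hx hV hc hX hY hs.n2 hD.d1 hD.d2
  have hqE : q ^ 3 - x * q' ^ 3 ≠ 0 := by
    intro h
    apply hN2
    linear_combination -h
  have h2 := Pool.Agent.PT.F7U.half hπ h3 S x X Y q q' hx hV hc hX hY hqE hD.d3 hD.d4
  have hneg : ∀ D : Eis, tm π.1 D (x * q' ^ 3 - q ^ 3) = tm π.1 D (q ^ 3 - x * q' ^ 3) := by
    intro D
    have e : x * q' ^ 3 - q ^ 3 = -(q ^ 3 - x * q' ^ 3) := by ring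
    rw [e]
    unfold tm
    rw [V_neg, Pool.Agent.PT.F7U.ch_neg hπ h3 S hqE]
  unfold SVE DfE
  rw [hneg, hneg, h1, h2, sub_zero]

end Pool.Agent.PTK


end

section

/-!
# PTK_IF1: the identity of the two norm residue symbols over `Z[w]`
-/

set_option autoImplicit false

namespace Pool.Agent.PTK

open Pool.Agent.Lib_helper18 Pool.Agent.Lib_helper18.Eis Pool.Agent.Lib_helper84.Cub
open Pool.Agent.PT

namespace IF1

open Pool.Agent.PT.IF1 (key degen le_V dvd_V V_le dvd_cancel two_mul_eq_zero three_mul_eq s_one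
  s_neg s_cube w_ne dvd_sub3 dvd_add3 w2_cube w_sub_ne)

theorem cast_ne {n : Eis} (h : n ≠ 0) : n ≠ 0 := h

/-- The numbers attached to a solution. -/
theorem consts {b x p q p' q' : Eis} (_hb : b ≠ 0) (hS : SolE b x p q p' q') :
    p' ^ 3 + b * q' ^ 3 ≠ 0 ∧ x * q' ^ 3 - q ^ 3 ≠ 0 ∧ GfE p q p' q' 1 ≠ 0 ∧
      GfE p q p' q' 2 ≠ 0 := by
  refine ⟨?_, ?_, hS.g1, hS.g2⟩
  · intro h
    apply hS.n1
    rw [hS.eq, h, mul_zero]
  · intro h
    apply hS.n2
    have h3 := hS.eq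
    linear_combination h3 + b * h

/-- The linear forms do not vanish, and their valuations are bounded. -/
theorem forms {π : Eis} (hπ : Prime π) {b x p q p' q' : Eis} (hb : b ≠ 0)
    (hS : SolE b x p q p' q') {N : ℕ}
    (hN1 : V π ((p ^ 3 + b * q ^ 3 : Eis) : Eis) < N)
    (hN2 : V π ((p' ^ 3 + b * q' ^ 3 : Eis) : Eis) < N)
    (hN3 : V π ((p ^ 3 - x * p' ^ 3 : Eis) : Eis) < N)
    (hN4 : V π ((q ^ 3 - x * q' ^ 3 : Eis) : Eis) < N) {r z : Eis}
    (hr : π ^ N ∣ r ^ 3 - (b : Eis)) (hz : π ^ N ∣ z ^ 3 - (x : Eis)) {t : Eis}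
    (ht : t ^ 3 = 1) :
    ((p + t * r * q ≠ 0 ∧ V π (p + t * r * q) ≤ V π ((p ^ 3 + b * q ^ 3 : Eis) : Eis)) ∧
    (p' + t * r * q' ≠ 0 ∧ V π (p' + t * r * q') ≤ V π ((p' ^ 3 + b * q' ^ 3 : Eis) : Eis))) ∧
    ((p - t * z * p' ≠ 0 ∧ V π (p - t * z * p') ≤ V π ((p ^ 3 - x * p' ^ 3 : Eis) : Eis)) ∧
    (q - t * z * q' ≠ 0 ∧ V π (q - t * z * q') ≤ V π ((q ^ 3 - x * q' ^ 3 : Eis) : Eis))) := by
  obtain ⟨c1, c2, -, -⟩ := consts hb hS
  have c3 : q ^ 3 - x * q' ^ 3 ≠ 0 := by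
    intro h
    apply c2
    linear_combination -h
  have e1 : ∀ u v : Eis, (u : Eis) + t * r * v = u + t * (r * v) := fun u v => by ring
  have e2 : ∀ u v : Eis, (u : Eis) - t * z * v = u - t * (z * v) := fun u v => by ring
  refine ⟨⟨?_, ?_⟩, ?_, ?_⟩
  · rw [e1]
    refine V_le (c' := (p : Eis) ^ 3 + (r * q) ^ 3) hπ (cast_ne hS.n1) hN1 ?_ (dvd_add3 ht)
    have e3 : (p : Eis) ^ 3 + (r * q) ^ 3 - ((p ^ 3 + b * q ^ 3 : Eis) : Eis) =
        (r ^ 3 - b) * q ^ 3 := by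
      ring
    rw [e3]
    exact Dvd.dvd.mul_right hr _
  · rw [e1]
    refine V_le (c' := (p' : Eis) ^ 3 + (r * q') ^ 3) hπ (cast_ne c1) hN2 ?_ (dvd_add3 ht)
    have e3 : (p' : Eis) ^ 3 + (r * q') ^ 3 - ((p' ^ 3 + b * q' ^ 3 : Eis) : Eis) =
        (r ^ 3 - b) * q' ^ 3 := by
      ring
    rw [e3]
    exact Dvd.dvd.mul_right hr _
  · rw [e2]
    refine V_le (c' := (p : Eis) ^ 3 - (z * p') ^ 3) hπ (cast_ne hS.n2) hN3 ?_ (dvd_sub3 ht)
    have e3 : (p : Eis) ^ 3 - (z * p') ^ 3 - ((p ^ 3 - x * p' ^ 3 : Eis) : Eis) =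
        (z ^ 3 - x) * (-p' ^ 3) := by
      ring
    rw [e3]
    exact Dvd.dvd.mul_right hz _
  · rw [e2]
    refine V_le (c' := (q : Eis) ^ 3 - (z * q') ^ 3) hπ (cast_ne c3) hN4 ?_ (dvd_sub3 ht)
    have e3 : (q : Eis) ^ 3 - (z * q') ^ 3 - ((q ^ 3 - x * q' ^ 3 : Eis) : Eis) =
        (z ^ 3 - x) * (-q' ^ 3) := by
      ring
    rw [e3]
    exact Dvd.dvd.mul_right hz _

theorem sum_dvd {π : Eis} {b x p q p' q' : Eis} (hS : SolE b x p q p' q') {N : ℕ} {r z : Eis}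
    (hr : π ^ N ∣ r ^ 3 - (b : Eis)) (hz : π ^ N ∣ z ^ 3 - (x : Eis)) :
    π ^ N ∣ (p : Eis) ^ 3 + (-(z * p')) ^ 3 + (r * q) ^ 3 + (-(z * (r * q'))) ^ 3 := by
  obtain ⟨u, hu⟩ := hr
  obtain ⟨v, hv⟩ := hz
  have h1 : (p : Eis) ^ 3 + b * q ^ 3 = x * (p' ^ 3 + b * q' ^ 3) := by
    exact hS.eq
  refine ⟨u * (q ^ 3 - z ^ 3 * q' ^ 3) - v * (p' ^ 3 + b * q' ^ 3), ?_⟩
  linear_combination ((q : Eis) ^ 3 - z ^ 3 * q' ^ 3) * hu -
    ((p' : Eis) ^ 3 + b * q' ^ 3) * hv + h1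

/-- The identity for one cube root `z` of `x`, in the nondegenerate case. -/
theorem core {π : Eis} {s : Eis → Eis → ZMod 3} {e : ℕ} (hs : LSym π s e)
    (b x p q p' q' : Eis) (hb : b ≠ 0) (hx : x ≠ 0) (hS : SolE b x p q p' q') :
    ∃ K : ℕ, ∀ (M N : ℕ), K + 3 * M ≤ N → ∀ r z : Eis, π ^ N ∣ r ^ 3 - (b : Eis) →
      π ^ N ∣ z ^ 3 - (x : Eis) →
      ¬ π ^ M ∣ (p + w * (-(z * p')) + w * (r * q) + -(z * (r * q'))) → ∀ B : Eis, B ≠ 0 →
      s (p - w ^ 2 * z * p') B + s (q - w * z * q') B + s (p + w ^ 2 * r * q) B +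
        s (p' + w * r * q') B + s (GfE p q p' q' 2) B =
      s (w ^ 2) B + s (p - w * z * p') B + s (q - w ^ 2 * z * q') B + s (p + w * r * q) B +
        s (p' + w ^ 2 * r * q') B + s (GfE p q p' q' 1) B := by
  have hπ := hs.prime
  have he := hs.pos
  obtain ⟨c1, c2, cG1, cG2⟩ := consts hb hS
  refine ⟨2 * V π (b : Eis) + 2 * V π (x : Eis) + V π ((p ^ 3 + b * q ^ 3 : Eis) : Eis) +
    V π ((p' ^ 3 + b * q' ^ 3 : Eis) : Eis) + V π ((p ^ 3 - x * p' ^ 3 : Eis) : Eis) +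
    V π ((q ^ 3 - x * q' ^ 3 : Eis) : Eis) + V π (GfE p q p' q' 2) + e + 1, ?_⟩
  intro M N hN r z hr hz hE B hB
  obtain ⟨⟨-, vQ1⟩, -, vH1⟩ := forms hπ hb hS (by omega) (by omega) (by omega) (by omega) hr hz
    w_cube
  obtain ⟨⟨vP2, -⟩, vF2, -⟩ := forms hπ hb hS (by omega) (by omega) (by omega) (by omega) hr hz
    w2_cube
  have vr : r ≠ 0 ∧ V π r ≤ V π (b : Eis) := V_le (c' := r ^ 3) hπ (cast_ne hb)
    (by omega : V π (b : Eis) < N) hr (dvd_pow_self r three_ne_zero)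
  have vz : z ≠ 0 ∧ V π z ≤ V π (x : Eis) := V_le (c' := z ^ 3) hπ (cast_ne hx)
    (by omega : V π (x : Eis) < N) hz (dvd_pow_self z three_ne_zero)
  obtain ⟨E1, hE1⟩ : ∃ E1 : Eis, E1 = p + w * (-(z * p')) + w * (r * q) + -(z * (r * q')) :=
    ⟨_, rfl⟩
  obtain ⟨E2, hE2⟩ : ∃ E2 : Eis,
      E2 = p + w ^ 2 * (-(z * p')) + w ^ 2 * (r * q) + -(z * (r * q')) := ⟨_, rfl⟩
  rw [← hE1] at hE
  have hE0 : E1 ≠ 0 := by
    rintro h
    rw [h] at hE
    exact hE (dvd_zero _)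
  have hEV : V π E1 < M := by
    by_contra hcon
    exact hE (dvd_V (not_lt.mp hcon))
  have hkey := (sum_dvd hS hr hz).trans
    (key w_rel (p : Eis) (-(z * p')) (r * q) (-(z * (r * q'))))
  rw [← hE1, ← hE2] at hkey
  obtain ⟨F2, hF2⟩ : ∃ F2 : Eis, F2 = p - w ^ 2 * z * p' := ⟨_, rfl⟩
  obtain ⟨H1, hH1⟩ : ∃ H1 : Eis, H1 = q - w * z * q' := ⟨_, rfl⟩
  obtain ⟨P2, hP2⟩ : ∃ P2 : Eis, P2 = p + w ^ 2 * r * q := ⟨_, rfl⟩
  obtain ⟨Q1, hQ1⟩ : ∃ Q1 : Eis, Q1 = p' + w * r * q' := ⟨_, rfl⟩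
  obtain ⟨F1, hF1⟩ : ∃ F1 : Eis, F1 = p - w * z * p' := ⟨_, rfl⟩
  obtain ⟨H2, hH2⟩ : ∃ H2 : Eis, H2 = q - w ^ 2 * z * q' := ⟨_, rfl⟩
  obtain ⟨P1, hP1⟩ : ∃ P1 : Eis, P1 = p + w * r * q := ⟨_, rfl⟩
  obtain ⟨Q2, hQ2⟩ : ∃ Q2 : Eis, Q2 = p' + w ^ 2 * r * q' := ⟨_, rfl⟩
  obtain ⟨G1, hG1⟩ : ∃ G1 : Eis, G1 = GfE p q p' q' 1 := ⟨_, rfl⟩
  obtain ⟨G2, hG2⟩ : ∃ G2 : Eis, G2 = GfE p q p' q' 2 := ⟨_, rfl⟩
  have eL : ((p : Eis) + w ^ 2 * (-(z * p'))) * (r * q + w * (-(z * (r * q')))) *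
      (((p : Eis) + w ^ 2 * (r * q)) * (-(z * p') + w * (-(z * (r * q'))))) *
      (-(z * p') * (r * q) - w ^ 2 * ((p : Eis) * (-(z * (r * q'))))) * E1 ^ 3 =
      F2 * (r * H1) * (P2 * (-(z * Q1))) * (-(z * (r * G2))) * E1 ^ 3 := by
    rw [hF2, hH1, hP2, hQ1, hG2]
    unfold GfE
    ring
  have eR : w ^ 2 * (((p : Eis) + w * (-(z * p'))) * (r * q + w ^ 2 * (-(z * (r * q')))) *
      (((p : Eis) + w * (r * q)) * (-(z * p') + w ^ 2 * (-(z * (r * q'))))) *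
      (-(z * p') * (r * q) - w * ((p : Eis) * (-(z * (r * q'))))) * E2 ^ 3) =
      w ^ 2 * (F1 * (r * H2) * (P1 * (-(z * Q2))) * (-(z * (r * G1))) * E2 ^ 3) := by
    rw [hF1, hH2, hP1, hQ2, hG1]
    unfold GfE
    ring
  rw [eL, eR] at hkey
  rw [← hF2, ← hH1, ← hP2, ← hQ1, ← hF1, ← hH2, ← hP1, ← hQ2, ← hG1, ← hG2]
  rw [← hF2] at vF2
  rw [← hH1] at vH1
  rw [← hP2] at vP2
  rw [← hQ1] at vQ1
  rw [← hG2] at hN cG2
  obtain ⟨hr0, hrV⟩ := vr
  obtain ⟨hz0, hzV⟩ := vz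
  obtain ⟨hF0, hFV⟩ := vF2
  obtain ⟨hH0, hHV⟩ := vH1
  obtain ⟨hP0, hPV⟩ := vP2
  obtain ⟨hQ0, hQV⟩ := vQ1
  have n1 := mul_ne_zero hr0 hH0
  have n2 := mul_ne_zero hF0 n1
  have n3 := mul_ne_zero hz0 hQ0
  have n3' := neg_ne_zero.mpr n3
  have n4 := mul_ne_zero hP0 n3'
  have n5 := mul_ne_zero n2 n4
  have n6 := mul_ne_zero hr0 cG2
  have n7 := mul_ne_zero hz0 n6
  have n7' := neg_ne_zero.mpr n7
  have n8 := mul_ne_zero n5 n7'
  have n9 := pow_ne_zero 3 hE0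
  have n10 := mul_ne_zero n8 n9
  obtain ⟨L, hL⟩ : ∃ L : Eis, L = F2 * (r * H1) * (P2 * (-(z * Q1))) * (-(z * (r * G2))) *
      E1 ^ 3 := ⟨_, rfl⟩
  have hLV : V π L + e ≤ N := by
    rw [hL, V_mul hπ n8 n9, V_mul hπ n5 n7', V_mul hπ n2 n4, V_mul hπ hF0 n1, V_mul hπ hr0 hH0,
      V_mul hπ hP0 n3', V_neg, V_mul hπ hz0 hQ0, V_neg, V_mul hπ hz0 n6, V_mul hπ hr0 cG2,
      V_pow hπ hE0]
    omega
  rw [← hL] at hkey n10
  obtain ⟨R, hR⟩ : ∃ R : Eis, R = w ^ 2 * (F1 * (r * H2) * (P1 * (-(z * Q2))) *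
      (-(z * (r * G1))) * E2 ^ 3) := ⟨_, rfl⟩
  rw [← hR] at hkey
  have hd : π ^ (V π L + e) ∣ R - L := (pow_dvd_pow π hLV).trans hkey
  have hR0 : R ≠ 0 := (V_le hπ n10 (by omega) hd (dvd_refl R)).1
  have hcont := hs.cont L R B n10 hB hd
  rw [hR] at hR0
  have m1 := right_ne_zero_of_mul hR0
  have m0 := left_ne_zero_of_mul hR0
  have m2 := right_ne_zero_of_mul m1
  have m3 := left_ne_zero_of_mul m1
  have m4 := right_ne_zero_of_mul m3
  have m5 := left_ne_zero_of_mul m3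
  have m6 := right_ne_zero_of_mul m5
  have m7 := left_ne_zero_of_mul m5
  have m8 := right_ne_zero_of_mul m7
  have m9 := left_ne_zero_of_mul m7
  have m10 := right_ne_zero_of_mul m8
  have m11 := left_ne_zero_of_mul m6
  have m12 := right_ne_zero_of_mul m6
  have m13 := neg_ne_zero.mp m12
  have m14 := right_ne_zero_of_mul m13
  have m15 := neg_ne_zero.mp m4
  have m16 := right_ne_zero_of_mul m15
  have m17 := right_ne_zero_of_mul m16
  have hE20 : E2 ≠ 0 := by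
    intro h
    rw [h] at m2
    exact m2 (zero_pow three_ne_zero)
  have hsL : s L B = s F2 B + (s r B + s H1 B) + (s P2 B + (s z B + s Q1 B)) +
      (s z B + (s r B + s G2 B)) := by
    rw [hL, hs.mul _ _ _ n8 n9 hB, hs.mul _ _ _ n5 n7' hB, hs.mul _ _ _ n2 n4 hB,
      hs.mul _ _ _ hF0 n1 hB, hs.mul _ _ _ hr0 hH0 hB, hs.mul _ _ _ hP0 n3' hB,
      s_neg hs hB n3, hs.mul _ _ _ hz0 hQ0 hB, s_neg hs hB n7, hs.mul _ _ _ hz0 n6 hB,
      hs.mul _ _ _ hr0 cG2 hB, s_cube hs hB hE0, add_zero]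
  have hsR : s R B = s (w ^ 2) B + (s F1 B + (s r B + s H2 B) + (s P1 B + (s z B + s Q2 B)) +
      (s z B + (s r B + s G1 B))) := by
    rw [hR, hs.mul _ _ _ m0 m1 hB, hs.mul _ _ _ m3 m2 hB, hs.mul _ _ _ m5 m4 hB,
      hs.mul _ _ _ m7 m6 hB, hs.mul _ _ _ m9 m8 hB, hs.mul _ _ _ hr0 m10 hB,
      hs.mul _ _ _ m11 m12 hB, s_neg hs hB m13, hs.mul _ _ _ hz0 m14 hB, s_neg hs hB m15,
      hs.mul _ _ _ hz0 m16 hB, hs.mul _ _ _ hr0 m17 hB, s_cube hs hB hE20, add_zero]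
  rw [hsL, hsR] at hcont
  linear_combination -hcont

/-- Both roots `z`, `w z` cannot be degenerate. -/
theorem not_both {π : Eis} (hπ : Prime π)
    (b x p q p' q' : Eis) (hb : b ≠ 0) (hx : x ≠ 0) (hS : SolE b x p q p' q') :
    ∃ M0 : ℕ, ∀ N : ℕ, M0 ≤ N → ∀ r z : Eis, π ^ N ∣ r ^ 3 - (b : Eis) →
      π ^ N ∣ z ^ 3 - (x : Eis) →
      π ^ M0 ∣ (p + w * (-(z * p')) + w * (r * q) + -(z * (r * q'))) →
      π ^ M0 ∣ (p + w * (-((w * z) * p')) + w * (r * q) + -((w * z) * (r * q'))) → False := by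
  obtain ⟨c1, c2, cG1, cG2⟩ := consts hb hS
  have h30 : (3 : Eis) ≠ 0 := by
    have h := Pool.Agent.PT.IF1.cast_ne (n := 3) (by norm_num)
    rwa [Int.cast_ofNat] at h
  refine ⟨(V π (3 : Eis) + V π (x : Eis) + V π (b : Eis) + V π (GfE p q p' q' 1)) +
    (V π (w - 1 : Eis) + V π (x : Eis) + V π (b : Eis) + V π (p' : Eis) + V π (q' : Eis) + 1),
    ?_⟩
  intro N hN r z hr hz h1 h2
  obtain ⟨hr0, hrV⟩ : r ≠ 0 ∧ V π r ≤ V π (b : Eis) := V_le (c' := r ^ 3) hπ (cast_ne hb)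
    (by omega : V π (b : Eis) < N) hr (dvd_pow_self r three_ne_zero)
  obtain ⟨hz0, hzV⟩ : z ≠ 0 ∧ V π z ≤ V π (x : Eis) := V_le (c' := z ^ 3) hπ (cast_ne hx)
    (by omega : V π (x : Eis) < N) hz (dvd_pow_self z three_ne_zero)
  have hw0 : (w : Eis) ≠ 0 := w_ne
  have hVw : V π (w : Eis) = 0 := by
    apply V_eq_zero
    intro h
    have h3 : π ∣ 1 := by
      rw [← w_cube]
      exact h.trans (dvd_pow_self w three_ne_zero)
    exact hπ.not_isUnit (isUnit_of_dvd_one h3)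
  have hwz : π ^ N ∣ (w * z) ^ 3 - (x : Eis) := by
    have e1 : (w * z) ^ 3 = z ^ 3 := by
      rw [mul_pow, w_cube, one_mul]
    rw [e1]
    exact hz
  -- one degenerate root
  have key1 : ∀ y : Eis, y ≠ 0 → V π y ≤ V π (x : Eis) → π ^ N ∣ y ^ 3 - (x : Eis) →
      ∀ M : ℕ, M ≤ N → π ^ M ∣ (p + w * (-(y * p')) + w * (r * q) + -(y * (r * q'))) →
      π ^ (M - (V π (3 : Eis) + V π (x : Eis) + V π (b : Eis) + V π (GfE p q p' q' 1))) ∣
        (-(y * p') + r * q) ∧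
      π ^ (M - (V π (3 : Eis) + V π (x : Eis) + V π (b : Eis) + V π (GfE p q p' q' 1))) ∣
        ((p : Eis) - y * (r * q')) := by
    intro y hy hyV hyx M hM hE
    have e1 := degen w_cube (p : Eis) (-(y * p')) (r * q) (-(y * (r * q')))
    have e2 : π ^ M ∣ 3 * (-(y * p') + r * q) *
        (-(y * p') * (r * q) - w * ((p : Eis) * (-(y * (r * q'))))) := by
      rw [e1]
      exact dvd_sub (Dvd.dvd.mul_right hE _) ((pow_dvd_pow π hM).trans (sum_dvd hS hr hyx))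
    have e3 : 3 * (-(y * p') + r * q) *
        (-(y * p') * (r * q) - w * ((p : Eis) * (-(y * (r * q'))))) =
        (-(3 * (y * (r * GfE p q p' q' 1)))) * (-(y * p') + r * q) := by
      unfold GfE
      ring
    rw [e3] at e2
    have f1 := mul_ne_zero hr0 cG1
    have f2 := mul_ne_zero hy f1
    have f3 := mul_ne_zero h30 f2
    have e4 := dvd_cancel hπ (neg_ne_zero.mpr f3) (K := V π (3 : Eis) + V π (x : Eis) +
      V π (b : Eis) + V π (GfE p q p' q' 1)) (by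
        rw [V_neg, V_mul hπ h30 f2, V_mul hπ hy f1, V_mul hπ hr0 cG1]
        omega) e2
    refine ⟨e4, ?_⟩
    have e5 : (p : Eis) - y * (r * q') =
        (p + w * (-(y * p')) + w * (r * q) + -(y * (r * q'))) -
          w * (-(y * p') + r * q) := by ring
    rw [e5]
    exact dvd_sub ((pow_dvd_pow π (by omega)).trans hE) (Dvd.dvd.mul_left e4 _)
  obtain ⟨a1, a2⟩ := key1 z hz0 hzV hz _ hN h1
  obtain ⟨a3, a4⟩ := key1 (w * z) (mul_ne_zero hw0 hz0)
    (by rw [V_mul hπ hw0 hz0, hVw, zero_add]; exact hzV) hwz _ hN h2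
  rw [Nat.add_sub_cancel_left] at a1 a2 a3 a4
  have b1 : π ^ (V π (w - 1 : Eis) + V π (x : Eis) + V π (b : Eis) + V π (p' : Eis) +
      V π (q' : Eis) + 1) ∣ (w - 1) * (z * p') := by
    have := dvd_sub a1 a3
    have e1 : -(z * (p' : Eis)) + r * q - (-(w * z * p') + r * q) = (w - 1) * (z * p') := by ring
    rwa [e1] at this
  have b2 : π ^ (V π (w - 1 : Eis) + V π (x : Eis) + V π (b : Eis) + V π (p' : Eis) +
      V π (q' : Eis) + 1) ∣ (w - 1) * (z * (r * q')) := by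
    have := dvd_sub a2 a4
    have e1 : (p : Eis) - z * (r * q') - (p - w * z * (r * q')) = (w - 1) * (z * (r * q')) := by
      ring
    rwa [e1] at this
  by_cases hp : p' = 0
  · have hq : q' ≠ 0 := by
      rintro rfl
      apply c1
      rw [hp]
      ring
    have hqE := cast_ne hq
    have f1 := mul_ne_zero hr0 hqE
    have f2 := mul_ne_zero hz0 f1
    have h3 := le_V hπ (mul_ne_zero w_sub_ne f2) b2
    rw [V_mul hπ w_sub_ne f2, V_mul hπ hz0 f1, V_mul hπ hr0 hqE] at h3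
    omega
  · have hpE := cast_ne hp
    have f2 := mul_ne_zero hz0 hpE
    have h3 := le_V hπ (mul_ne_zero w_sub_ne f2) b1
    rw [V_mul hπ w_sub_ne f2, V_mul hπ hz0 hpE] at h3
    omega

end IF1

open Pool.Agent.PTK.IF1 (consts core not_both forms sum_dvd cast_ne) in
open Pool.Agent.PT.IF1 (key degen le_V dvd_V V_le dvd_cancel two_mul_eq_zero three_mul_eq s_one
  s_neg s_cube w_ne dvd_sub3 dvd_add3 w2_cube w_sub_ne) in
/-- IF1: `α_b α_x = w⁻¹ k_0` modulo cubes. -/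
theorem IF1_thm : Stmt_IF1 := by
  intro π s e hs b x p q p' q' hb hx hS
  have hπ := hs.prime
  have he := hs.pos
  obtain ⟨c1, c2, cG1, cG2⟩ := consts hb hS
  obtain ⟨K, hK⟩ := core hs b x p q p' q' hb hx hS
  obtain ⟨M0, hM0⟩ := not_both hπ b x p q p' q' hb hx hS
  refine ⟨K + 3 * M0 + M0 + V π (b : Eis) + V π ((p ^ 3 + b * q ^ 3 : Eis) : Eis) +
    V π ((p' ^ 3 + b * q' ^ 3 : Eis) : Eis) + V π ((p ^ 3 - x * p' ^ 3 : Eis) : Eis) +
    V π ((q ^ 3 - x * q' ^ 3 : Eis) : Eis) + e + 1, ?_⟩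
  intro r ξ hr hξ B hB
  obtain ⟨N, hN⟩ : ∃ N : ℕ, N = K + 3 * M0 + M0 + V π (b : Eis) +
    V π ((p ^ 3 + b * q ^ 3 : Eis) : Eis) +
    V π ((p' ^ 3 + b * q' ^ 3 : Eis) : Eis) + V π ((p ^ 3 - x * p' ^ 3 : Eis) : Eis) +
    V π ((q ^ 3 - x * q' ^ 3 : Eis) : Eis) + e + 1 := ⟨_, rfl⟩
  rw [← hN] at hr hξ
  have hw1 := w_cube
  have forms1 := fun (t : Eis) (ht : t ^ 3 = 1) => forms hπ hb hS (N := N) (by omega) (by omega)
    (by omega) (by omega) hr hξ ht
  obtain ⟨⟨⟨nP0, -⟩, nQ0, -⟩, ⟨nF0, -⟩, nH0, -⟩ := forms1 1 (one_pow 3)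
  obtain ⟨⟨⟨nP1, -⟩, nQ1, -⟩, ⟨nF1, -⟩, nH1, -⟩ := forms1 w w_cube
  obtain ⟨⟨⟨nP2, -⟩, nQ2, -⟩, ⟨nF2, -⟩, nH2, -⟩ := forms1 (w ^ 2) w2_cube
  -- the main equation
  have hmain : s (p - w ^ 2 * ξ * p') B + s (q - w * ξ * q') B + s (p + w ^ 2 * r * q) B +
        s (p' + w * r * q') B + s (GfE p q p' q' 2) B =
      s (w ^ 2) B + s (p - w * ξ * p') B + s (q - w ^ 2 * ξ * q') B + s (p + w * r * q) B +
        s (p' + w ^ 2 * r * q') B + s (GfE p q p' q' 1) B := by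
    by_cases h1 : π ^ M0 ∣ ((p : Eis) + w * (-((ξ : Eis) * p')) + w * ((r : Eis) * q) +
        -((ξ : Eis) * (r * q')))
    swap
    · exact hK M0 N (by omega) r ξ hr hξ h1 B hB
    by_cases h2 : π ^ M0 ∣ ((p : Eis) + w * (-((w * (ξ : Eis)) * p')) + w * ((r : Eis) * q) +
        -((w * (ξ : Eis)) * (r * q')))
    · exact absurd (hM0 N (by omega) r ξ hr hξ h1 h2) id
    have hwz : π ^ N ∣ (w * (ξ : Eis)) ^ 3 - (x : Eis) := by
      have e1 : (w * (ξ : Eis)) ^ 3 = (ξ : Eis) ^ 3 := by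
        rw [mul_pow, w_cube, one_mul]
      rw [e1]
      exact hξ
    have h3 := hK M0 N (by omega) r (w * ξ) hr hwz h2 B hB
    have e1 : (p : Eis) - w ^ 2 * (w * ξ) * p' = p - 1 * ξ * p' := by
      linear_combination (-(ξ : Eis) * p') * hw1
    have e2 : (q : Eis) - w * (w * ξ) * q' = q - w ^ 2 * ξ * q' := by ring
    have e3 : (p : Eis) - w * (w * ξ) * p' = p - w ^ 2 * ξ * p' := by ring
    have e4 : (q : Eis) - w ^ 2 * (w * ξ) * q' = q - 1 * ξ * q' := by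
      linear_combination (-(ξ : Eis) * q') * hw1
    rw [e1, e2, e3, e4] at h3
    -- the sums
    have hrel := w_rel
    have g1 : s (p - 1 * ξ * p') B + s (p - w * ξ * p') B + s (p - w ^ 2 * ξ * p') B =
        s ((p ^ 3 - x * p' ^ 3 : Eis) : Eis) B := by
      rw [← hs.mul _ _ _ nF0 nF1 hB, ← hs.mul _ _ _ (mul_ne_zero nF0 nF1) nF2 hB]
      apply hs.cont _ _ _ (cast_ne hS.n2) hB
      have e5 : ((p : Eis) - 1 * ξ * p') * (p - w * ξ * p') * (p - w ^ 2 * ξ * p') -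
          ((p ^ 3 - x * p' ^ 3 : Eis) : Eis) = ((ξ : Eis) ^ 3 - x) * (-p' ^ 3) := by
        linear_combination (-(p : Eis) ^ 2 * (ξ * p') + w * p * (ξ * p') ^ 2 -
          (w - 1) * ((ξ : Eis) * p') ^ 3) * hrel
      rw [e5]
      exact Dvd.dvd.mul_right ((pow_dvd_pow π (by omega)).trans hξ) _
    have c3 : q ^ 3 - x * q' ^ 3 ≠ 0 := by
      intro h
      apply c2
      linear_combination -h
    have g2 : s (q - 1 * ξ * q') B + s (q - w * ξ * q') B + s (q - w ^ 2 * ξ * q') B =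
        s ((q ^ 3 - x * q' ^ 3 : Eis) : Eis) B := by
      rw [← hs.mul _ _ _ nH0 nH1 hB, ← hs.mul _ _ _ (mul_ne_zero nH0 nH1) nH2 hB]
      apply hs.cont _ _ _ (cast_ne c3) hB
      have e5 : ((q : Eis) - 1 * ξ * q') * (q - w * ξ * q') * (q - w ^ 2 * ξ * q') -
          ((q ^ 3 - x * q' ^ 3 : Eis) : Eis) = ((ξ : Eis) ^ 3 - x) * (-q' ^ 3) := by
        linear_combination (-(q : Eis) ^ 2 * (ξ * q') + w * q * (ξ * q') ^ 2 -
          (w - 1) * ((ξ : Eis) * q') ^ 3) * hrel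
      rw [e5]
      exact Dvd.dvd.mul_right ((pow_dvd_pow π (by omega)).trans hξ) _
    have g3 : s ((p ^ 3 - x * p' ^ 3 : Eis) : Eis) B = s ((q ^ 3 - x * q' ^ 3 : Eis) : Eis) B := by
      have e5 : ((p ^ 3 - x * p' ^ 3 : Eis) : Eis) = -((b : Eis) *
          ((q ^ 3 - x * q' ^ 3 : Eis) : Eis)) := by
        have e6 : (p ^ 3 - x * p' ^ 3 : Eis) = -(b * (q ^ 3 - x * q' ^ 3)) := by
          have h6 := hS.eq
          linear_combination h6
        rw [e6]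
      have hbE := cast_ne hb
      have hcE := cast_ne c3
      rw [e5, s_neg hs hB (mul_ne_zero hbE hcE), hs.mul _ _ _ hbE hcE hB]
      have e7 : s (b : Eis) B = 0 := by
        have hr0 : (r : Eis) ≠ 0 := (V_le (c' := (r : Eis) ^ 3) hπ hbE
          (by omega : V π (b : Eis) < N) hr (dvd_pow_self (r : Eis) three_ne_zero)).1
        rw [← hs.cont (b : Eis) ((r : Eis) ^ 3) B hbE hB ((pow_dvd_pow π (by omega)).trans hr),
          s_cube hs hB hr0]
      rw [e7, zero_add]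
    have t1 := three_mul_eq (s ((p : Eis) - w ^ 2 * ξ * p') B)
    have t2 := three_mul_eq (s ((q : Eis) - w ^ 2 * ξ * q') B)
    linear_combination h3 + t1 - t2 - g1 + g2 - g3
  -- conclusion
  have f1 : LfE p q 2 r = p + w ^ 2 * r * q := by
    unfold LfE
    ring
  have f2 : LfE p' q' 1 r = p' + w * r * q' := by
    unfold LfE
    ring
  have f3 : LfE p q 1 r = p + w * r * q := by
    unfold LfE
    ring
  have f4 : LfE p' q' 2 r = p' + w ^ 2 * r * q' := by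
    unfold LfE
    ring
  have f5 : LfE p (-p') 2 ξ = p - w ^ 2 * ξ * p' := by
    unfold LfE
    ring
  have f6 : LfE (-q) q' 1 ξ = -(q - w * ξ * q') := by
    unfold LfE
    ring
  have f7 : LfE p (-p') 1 ξ = p - w * ξ * p' := by
    unfold LfE
    ring
  have f8 : LfE (-q) q' 2 ξ = -(q - w ^ 2 * ξ * q') := by
    unfold LfE
    ring
  unfold ASE
  rw [f1, f2, f3, f4, f5, f6, f7, f8, hs.skew _ _ nP2 hB, hs.skew _ _ nQ1 hB,
    hs.skew _ _ nP1 hB, hs.skew _ _ nQ2 hB, hs.skew _ _ nF2 hB,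
    hs.skew _ _ (neg_ne_zero.mpr nH1) hB, hs.skew _ _ nF1 hB,
    hs.skew _ _ (neg_ne_zero.mpr nH2) hB, s_neg hs hB nH1, s_neg hs hB nH2,
    hs.skew _ _ cG1 hB, hs.skew _ _ cG2 hB]
  have hw2 : s (w ^ 2) B = s w B + s w B := by
    rw [pow_two, hs.mul _ _ _ w_ne w_ne hB]
  rw [hw2] at hmain
  have t3 := three_mul_eq (s w B)
  linear_combination -hmain - t3

end Pool.Agent.PTK


end

section

/-!
# LAM: the mean corank
-/

set_option autoImplicit false

namespace Pool.Agent.PTK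

open Pool.Agent.PTL

namespace LAM

theorem even_le {s : ℕ} (hs : s % 2 = 0) :
    Esk s (fun c => (c : ℝ)) ≤ 1 / 4 * (4 - 3 / 3 ^ s) + -(1 / 4) := by
  refine AL.Esk_le s (fun c => (c : ℝ)) (1 / 4) (-(1 / 4)) (by norm_num) fun c hc => ?_
  have h2 := AL.pow_even (c := c) (by
    rintro rfl
    omega)
  have h4 : (4 * c + 1 : ℝ) ≤ 3 ^ c := by exact_mod_cast h2
  linarith

theorem odd_le {s : ℕ} (hs : s % 2 = 1) :
    Esk s (fun c => (c : ℝ)) ≤ 1 / 12 * (4 - 3 / 3 ^ s) + 3 / 4 := by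
  refine AL.Esk_le s (fun c => (c : ℝ)) (1 / 12) (3 / 4) (by norm_num) fun c hc => ?_
  have h2 := AL.pow_odd (c := c) (by omega)
  have h4 : (12 * c : ℝ) ≤ 3 ^ c + 9 := by exact_mod_cast h2
  linarith

theorem pow_ge (d : ℕ) (hd : 4 ≤ d) : 81 * (d + 1) ≤ 5 * 3 ^ d := by
  induction d, hd using Nat.le_induction with
  | base => norm_num
  | succ d hd ih =>
    rw [pow_succ]
    omega

theorem le_all (s : ℕ) : Esk s (fun c => (c : ℝ)) ≤ 13 / 12 := by
  refine (AL.Esk_id s).trans ?_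
  split_ifs <;> norm_num

end LAM

open _root_.Pool.Agent.PTK.LAM in
theorem LAM_thm : Stmt_LAM := by
  refine ⟨le_all, ?_⟩
  intro d
  rcases Nat.lt_or_ge d 4 with h | h
  · interval_cases d
    · norm_num
    · have h1 := even_le (s := 0) rfl
      norm_num at h1 ⊢
      linarith
    · have h1 := odd_le (s := 1) rfl
      norm_num at h1 ⊢
      linarith
    · have h1 := even_le (s := 2) rfl
      norm_num at h1 ⊢
      linarith
  · have h1 := le_all (d - 1)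
    have h2 : (0 : ℝ) < 3 ^ d := by positivity
    have h3 : (81 * (d + 1) : ℝ) ≤ 5 * 3 ^ d := by exact_mod_cast pow_ge d h
    have h4 : ((d : ℝ) + 1) / 3 ^ d ≤ 5 / 81 := by
      rw [div_le_div_iff₀ h2 (by norm_num)]
      linarith
    have h5 : (1 : ℝ) / 3 ^ d ≤ 1 := by
      rw [div_le_one h2]
      exact one_le_pow₀ (by norm_num)
    have h6 : (0 : ℝ) < 1 / 3 ^ d := by positivity
    have h7 : (1 - 1 / 3 ^ d) * Esk (d - 1) (fun c => (c : ℝ)) ≤ (1 - 1 / 3 ^ d) * (13 / 12) :=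
      mul_le_mul_of_nonneg_left h1 (by linarith)
    nlinarith

end Pool.Agent.PTK


end

section

/-!
# PTK_MDU: the joint density with the matrix of the minus part, `q = 1 (mod 3)`, generic pattern (helper32)
-/

set_option autoImplicit false

open NumberField IsDedekindDomain Finset
open scoped nonZeroDivisors Pointwise

namespace Pool.Agent.PTK

open Pool.Agent.Lib_helper18 Pool.Agent.Lib_helper18.Eis Pool.Agent.Lib_helper84.Cub
open Pool.Agent.PT Pool.Agent.PTE Pool.Agent.PT3 Pool.Agent.PTL Pool.Agent.PTN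

/-- a system of the minus part is a system with several base classes -/
theorem MDU.sysZ {h n m k : ℕ} {π : Fin m → PP} {p e : Fin m → ℕ} {r : Fin k → ℕ}
    {w0 : ZMod 3} {c : Fin m → ZMod 3} {l N : ℕ} {y : Fin l → Fin (m + 1) → ZMod 3}
    {U R U' R' : Fin l → Fin l → Eis} {α β : Fin N → Fin l}
    (hS : MnS h n π p e r w0 c y U R U' R' α β) :
    SysZ (fun i => zN π e (y i)) α β (fun r => U (α r) (β r)) (fun r => R (α r) (β r))
      (fun r => U' (α r) (β r)) (fun r => R' (α r) (β r)) :=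
  ⟨hS.sys.ind, fun i => (hS.sys.mc i).cb, hS.prs.lt, hS.prs.inj,
    fun r => hS.sys.sol (α r) (β r) (hS.prs.lt r).ne⟩

/-- PTK_MDU. -/
theorem MDU_thm (hCLSC : CLSC) (hCLSCS : CLSCS) (hMSPU : Stmt_MSPU) (hZS1 : Stmt_ZS1)
    (hBMU : Stmt_BMU) : Stmt_MDU := by
  classical
  intro h n m k π p e r f w0 c d v δ s τ b X Y P Q P' Q' hNF hh hδ hPl l N y U R U' R' α β hS M t
  obtain ⟨f0, hf0, hf1⟩ := hMSPU h n m k π p e r f w0 c d v δ s τ b X Y P Q P' Q' hNF hh hδ hPl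
  obtain ⟨g0, hg0, hg1⟩ := hZS1 h n m k π p e r f w0 c hNF hh l N y U R U' R' α β hS
  obtain ⟨F, hF, hF9, hpF, hfF, hgF⟩ : ∃ F : ℕ, 0 < F ∧ 9 ∣ F ∧ (∀ i, p i ∣ F) ∧
      f0 ∣ F ∧ g0 ∣ F := by
    refine ⟨9 * (∏ i, p i) * (f0 * g0), ?_, ?_, ?_, ?_, ?_⟩
    · have h1 : 0 < ∏ i, p i := Finset.prod_pos fun i _ => (hNF.pp i).pos
      positivity
    · exact Dvd.dvd.mul_right (Dvd.intro _ rfl) _
    · intro i
      exact Dvd.dvd.mul_right (Dvd.dvd.mul_left (Finset.dvd_prod_of_mem p (mem_univ i)) _) _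
    · exact Dvd.dvd.mul_left (Dvd.intro _ rfl) _
    · exact Dvd.dvd.mul_left (Dvd.intro_left _ rfl) _
  obtain ⟨κ, hκ1, hκ2⟩ := hCLSC m π p hNF.pp hNF.p1 hNF.pπ hNF.pinj F hF hF9 hpF
  have hκ3 := hCLSCS F m κ hF hF9 hκ2
  obtain ⟨C, Φ, N1, hN1⟩ := hf1 F hF hfF κ hκ1
  obtain ⟨C', Φ', N2, hN2⟩ := hg1 F hF hgF κ hκ1
  obtain ⟨K, hK⟩ := hBMU s b P Q P' Q' l N (fun i => zN π e (y i)) α β
    (fun r => U (α r) (β r)) (fun r => R (α r) (β r)) (fun r => U' (α r) (β r))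
    (fun r => R' (α r) (β r)) F m t κ (Fin.cons w0 c) C Φ (C' - M) Φ' hPl.sys (MDU.sysZ hS)
    hF hF9 hκ3
  obtain ⟨M', hM⟩ : ∃ M', M' = N1 + N2 := ⟨_, rfl⟩
  refine ⟨K + 2 * (2 * ((Finset.range (M' + 1)).card : ℝ)), fun σ h1 hσ2 => ?_⟩
  have hB := hK σ h1 hσ2
  have hsub1 : ∀ q : ℕ, q.Prime → M' < q →
      q ∈ {q : ℕ | (q ∈ QMM h n π e w0 c y U R U' R' α β M 1 1 ∧ q ∈ Pat v δ) ∧
        t ≤ kU h n b X Y P Q P' Q' 1 q} →
      q ∈ SPU b P Q P' Q' t κ (Fin.cons w0 c) C Φ ∩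
        SPZU (fun i => zN π e (y i)) α (fun r => U (α r) (β r)) (fun r => R (α r) (β r))
          (fun r => U' (α r) (β r)) (fun r => R' (α r) (β r)) κ (Fin.cons w0 c) (C' - M) Φ' := by
    intro q hq hqM ⟨⟨hqY, hqP⟩, hqt⟩
    exact ⟨((hN1 q t hq (by omega) hqY.1 hqP).1 hqY.2.1 hqt),
      (hN2 q M hq (by omega)).1 hqY⟩
  have hsub2 : ∀ q : ℕ, q.Prime → M' < q →
      q ∈ {q : ℕ | (q ∈ QMM h n π e w0 c y U R U' R' α β M 1 2 ∧ q ∈ Pat v δ) ∧
        t ≤ kU h n b X Y P Q P' Q' 2 q} →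
      q ∈ SMU b P Q P' Q' t κ (Fin.cons w0 c) C Φ ∩
        SMZU (fun i => zN π e (y i)) α (fun r => U (α r) (β r)) (fun r => R (α r) (β r))
          (fun r => U' (α r) (β r)) (fun r => R' (α r) (β r)) κ (Fin.cons w0 c) (C' - M) Φ' := by
    intro q hq hqM ⟨⟨hqY, hqP⟩, hqt⟩
    exact ⟨((hN1 q t hq (by omega) hqY.1 hqP).2 hqY.2.1 hqt),
      (hN2 q M hq (by omega)).2 hqY⟩
  have i1 := CL.sm_le_add _ _ M' hsub1 h1
  have i2 := CL.sm_le_add _ _ M' hsub2 h1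
  have e2 : (2 / 3 ^ d / 3 ^ N / 3 ^ (m + 1) * LI s t : ℝ) =
      2 / 3 ^ (s + 1) * LI s t / 3 ^ N / 3 ^ (m + 1) := by
    rw [← hPl.dim]
    ring
  rw [e2]
  linarith

end Pool.Agent.PTK


end

section

/-!
# PTK_MDZ: the joint density, `q = 1 (mod 3)`, zero pattern
-/

set_option autoImplicit false

open NumberField IsDedekindDomain Finset
open scoped nonZeroDivisors Pointwise

namespace Pool.Agent.PTK

open Pool.Agent.Lib_helper18 Pool.Agent.Lib_helper18.Eis Pool.Agent.Lib_helper84.Cub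
open Pool.Agent.PT Pool.Agent.PTE Pool.Agent.PT3 Pool.Agent.PTL Pool.Agent.PTN

/-- PTK_MDZ. -/
theorem MDZ_thm (hCLSC : CLSC) (hCLSCS : CLSCS) (hMPZ : Stmt_MPZ) (hZS1 : Stmt_ZS1)
    (hBMZ : Stmt_BMZ) : Stmt_MDZ := by
  classical
  intro h n m k π p e r f w0 c s τ b X Y P Q P' Q' hNF hh hPl l N y U R U' R' α β hT M t
  have hSys : SysZ (fun i => zN π e (y i)) α β (fun r => U (α r) (β r)) (fun r => R (α r) (β r))
      (fun r => U' (α r) (β r)) (fun r => R' (α r) (β r)) :=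
    ⟨hT.sys.ind, fun i => (hT.sys.mc i).cb, hT.prs.lt, hT.prs.inj,
      fun r => hT.sys.sol (α r) (β r) (hT.prs.lt r).ne⟩
  obtain ⟨f0, hf0, hf1⟩ := hMPZ h n m k π p e r f w0 c s τ b X Y P Q P' Q' hNF hh hPl
  obtain ⟨g0, hg0, hg1⟩ := hZS1 h n m k π p e r f w0 c hNF hh l N y U R U' R' α β hT
  obtain ⟨F, hF, hF9, hpF, hfF, hgF⟩ : ∃ F : ℕ, 0 < F ∧ 9 ∣ F ∧ (∀ i, p i ∣ F) ∧
      f0 ∣ F ∧ g0 ∣ F := by
    refine ⟨9 * (∏ i, p i) * (f0 * g0), ?_, ?_, ?_, ?_, ?_⟩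
    · have h1 : 0 < ∏ i, p i := Finset.prod_pos fun i _ => (hNF.pp i).pos
      positivity
    · exact Dvd.dvd.mul_right (Dvd.intro _ rfl) _
    · intro i
      exact Dvd.dvd.mul_right (Dvd.dvd.mul_left (Finset.dvd_prod_of_mem p (mem_univ i)) _) _
    · exact Dvd.dvd.mul_left (Dvd.intro _ rfl) _
    · exact Dvd.dvd.mul_left (Dvd.intro_left _ rfl) _
  obtain ⟨κ, hκ1, hκ2⟩ := hCLSC m π p hNF.pp hNF.p1 hNF.pπ hNF.pinj F hF hF9 hpF
  have hκ3 := hCLSCS F m κ hF hF9 hκ2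
  obtain ⟨C, Φ, N1, hN1⟩ := hf1 F hF hfF κ hκ1
  obtain ⟨C', Φ', N2, hN2⟩ := hg1 F hF hgF κ hκ1
  obtain ⟨K, hK⟩ := hBMZ s b P Q P' Q' l N (fun i => zN π e (y i)) α β
    (fun r => U (α r) (β r)) (fun r => R (α r) (β r)) (fun r => U' (α r) (β r))
    (fun r => R' (α r) (β r)) F m t
    κ (Fin.cons w0 c) C Φ (C' - M) Φ' hPl.sys hSys hF hF9 hκ3
  obtain ⟨L, hL⟩ : ∃ L, L = N1 + N2 := ⟨_, rfl⟩
  refine ⟨K + 2 * (2 * ((Finset.range (L + 1)).card : ℝ)), fun σ h1 hσ2 => ?_⟩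
  have hB := hK σ h1 hσ2
  have hsub1 : ∀ q : ℕ, q.Prime → L < q →
      q ∈ {q : ℕ | (q ∈ QMM h n π e w0 c y U R U' R' α β M 1 1 ∧ q ∈ ZP b) ∧
        t ≤ kS h n b X Y P Q P' Q' 1 q} →
      q ∈ SPF b P Q P' Q' t κ (Fin.cons w0 c) C Φ ∩
        SPZU (fun i => zN π e (y i)) α (fun r => U (α r) (β r)) (fun r => R (α r) (β r))
          (fun r => U' (α r) (β r)) (fun r => R' (α r) (β r)) κ (Fin.cons w0 c) (C' - M) Φ' := by
    intro q hq hqM ⟨⟨hqY, hqP⟩, hqt⟩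
    exact ⟨((hN1 q t hq (by omega) hqY.1 hqP).1 hqY.2.1 hqt),
      (hN2 q M hq (by omega)).1 hqY⟩
  have hsub2 : ∀ q : ℕ, q.Prime → L < q →
      q ∈ {q : ℕ | (q ∈ QMM h n π e w0 c y U R U' R' α β M 1 2 ∧ q ∈ ZP b) ∧
        t ≤ kS h n b X Y P Q P' Q' 2 q} →
      q ∈ SMF b P Q P' Q' t κ (Fin.cons w0 c) C Φ ∩
        SMZU (fun i => zN π e (y i)) α (fun r => U (α r) (β r)) (fun r => R (α r) (β r))
          (fun r => U' (α r) (β r)) (fun r => R' (α r) (β r)) κ (Fin.cons w0 c) (C' - M) Φ' := by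
    intro q hq hqM ⟨⟨hqY, hqP⟩, hqt⟩
    exact ⟨((hN1 q t hq (by omega) hqY.1 hqP).2 hqY.2.1 hqt),
      (hN2 q M hq (by omega)).2 hqY⟩
  have i1 := CL.sm_le_add _ _ L hsub1 h1
  have i2 := CL.sm_le_add _ _ L hsub2 h1
  have e2 : (1 / 3 ^ s / 3 ^ N / 3 ^ (m + 1) * LI s t : ℝ) =
      1 / 3 ^ s * LI s t / 3 ^ N / 3 ^ (m + 1) := by
    ring
  rw [e2]
  linarith

end Pool.Agent.PTK


end

section

/-!
# PTK: the primes with large corank, `q = 1 (mod 3)`, all the classes cubes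
-/

set_option autoImplicit false

open NumberField IsDedekindDomain Finset
open scoped nonZeroDivisors Pointwise

namespace Pool.Agent.PTK

open Pool.Agent.Lib_helper18 Pool.Agent.Lib_helper18.Eis Pool.Agent.Lib_helper84.Cub
open Pool.Agent.PT Pool.Agent.PTE Pool.Agent.PT3 Pool.Agent.PTL Pool.Agent.PTN

namespace MPZ

theorem BB_eq (h n E q : ℕ) : BB h n E q = ((3 ^ h * n : ℕ) : ℤ) * (q : ℤ) ^ E := by
  unfold BB
  push_cast
  rfl

theorem cons_eq {m : ℕ} {x y : Fin (m + 1) → ZMod 3} (h0 : x 0 = y 0)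
    (h1 : ∀ i : Fin m, x i.succ = y i.succ) : x = y := by
  funext i
  exact Fin.cases h0 h1 i

theorem neg_of_two {x y : ZMod 3} (h : 2 * x = y) : x = -y := by
  revert x y
  decide

end MPZ

open _root_.Pool.Agent.PTK.MPZ in
/-- PTK_MPZ: the primes with large corank are in `SPF`, `SMF`, `q = 1 (mod 3)`. -/
theorem MPZ_thm (hDCOU : DCOU) (hTENT : TENT) (hNADU : Stmt_NADU) (hSPLT : SPLT) :
    Stmt_MPZ := by
  intro h n m k π p e r f w0 c s τ b X Y P Q P' Q' hNF hh hPl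
  have hSys := hPl.sys
  have hSw := hPl.sw
  have hAdN := hPl.adm
  have hn : 0 < n := FINAS.pos_of_nf hNF
  have hN0 : 0 < 3 ^ h * n := Nat.mul_pos (pow_pos (by norm_num) _) hn
  have hb : ∀ i, b i ≠ 0 := fun i => (hAdN i).1.ne
  have hD : ∀ j i : Fin s, ∃ f₀ : ℕ, 0 < f₀ ∧ ∀ F : ℕ, 0 < F → f₀ ∣ F →
      ∃ (C : ZMod 3) (Φ : (ZMod F)ˣ →* Multiplicative (ZMod 3)) (N₀ : ℕ), j ≠ i →
        ∀ (E q : ℕ) (hQ : q.Coprime F) (ρ : PP), (E = 1 ∨ E = 2) → q.Prime → N₀ < q →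
          q % 3 = 1 → (q : Eis) = ρ.1 * conj ρ.1 →
          AG (BB h n E q) (b j) → AG (BB h n E q) (b i) →
          ∀ t : ℤ, (q : ℤ) ∣ t ^ 3 - b j →
          OT (BB h n E q) (b j) (X j) (Y j) (b i) (P j i) (Q j i)
            (P' j i) (Q' j i) = C + E * ((Φ (ZMod.unitOfCoprime q hQ)).toAdd +
              TAUVS ρ.1 (P j i) (Q j i) (P' j i) (Q' j i) t) := by
    intro j i
    by_cases hji : j = i
    · exact ⟨1, one_pos, fun F _ _ => ⟨0, 1, 0, fun h => absurd hji h⟩⟩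
    · obtain ⟨f₀, hf₀, hf⟩ := hDCOU (3 ^ h * n) (b j) (X j) (Y j) (b i)
        (P j i) (Q j i) (P' j i) (Q' j i) hN0
        (hSys.sol j i hji) (hb _) (hb _)
      refine ⟨f₀, hf₀, fun F hF hd => ?_⟩
      obtain ⟨C, Φ, N₀, h'⟩ := hf F hF hd
      refine ⟨C, Φ, N₀, fun _ E q hQ ρ hE hqp hqN hq3 hqρ hAj hAi t ht => ?_⟩
      rw [BB_eq] at hAj hAi ⊢
      exact h' E q hQ ρ hE hqp hqN hq3 hqρ hAj hAi t ht
  choose f₀ hf₀ hD1 using hD
  refine ⟨∏ j, ∏ i, f₀ j i, Finset.prod_pos fun j _ => Finset.prod_pos fun i _ => hf₀ j i,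
    fun F hF hdF κ hκ => ?_⟩
  have hfF : ∀ j i, f₀ j i ∣ F := fun j i =>
    ((Finset.dvd_prod_of_mem (fun i => f₀ j i) (mem_univ i)).trans
      (Finset.dvd_prod_of_mem (fun j => ∏ i, f₀ j i) (mem_univ j))).trans hdF
  choose C Φ N₀ hD2 using fun j i => hD1 j i F hF (hfF j i)
  have hN : ∀ j i, N₀ j i ≤ ∑ j, ∑ i, N₀ j i := by
    intro j i
    exact (Finset.single_le_sum (f := fun i => N₀ j i) (fun i _ => Nat.zero_le _)
      (mem_univ i)).trans (Finset.single_le_sum (f := fun j => ∑ i, N₀ j i)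
        (fun j _ => Nat.zero_le _) (mem_univ j))
  obtain ⟨M, hM⟩ : ∃ M, M = n + F + 3 + ∑ j, ∑ i, N₀ j i := ⟨_, rfl⟩
  -- the matrix
  have hmat : ∀ (E q t : ℕ), (E = 1 ∨ E = 2) → q.Prime → M < q → q % 3 = 1 → q ∈ ZP b →
      InCT E π w0 c q → t ≤ kS h n b X Y P Q P' Q' E q →
      ∃ (hQ : q.Coprime F) (ρ : PP), (q : Eis) = ρ.1 * conj ρ.1 ∧
        (∀ j : Fin s, sym ρ.1 (b j : Eis) = 0) ∧
        ∀ τ' : Fin s → Fin s → ZMod 3,
        (∀ j i, j ≠ i → ∀ r : ℤ, (q : ℤ) ∣ r ^ 3 - b j →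
          τ' j i = TAUVS ρ.1 (P j i) (Q j i) (P' j i) (Q' j i) r) →
        t ≤ s - (alt fun j i =>
          C j i + E * ((Φ j i (ZMod.unitOfCoprime q hQ)).toAdd + τ' j i)).rank := by
    intro E q t hE hq hqM hq3 hqP hIn htk
    obtain ⟨ρ, hqρ⟩ := hSPLT.1 q hq hq3
    have hb0 : ∀ j : Fin s, sym ρ.1 (b j : Eis) = 0 := hqP ρ hqρ
    have hqn : ¬ q ∣ n := fun h => by
      have := Nat.le_of_dvd hn h
      omega
    have hQ : q.Coprime F := by
      rw [Nat.Prime.coprime_iff_not_dvd hq]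
      intro h
      have := Nat.le_of_dvd hF h
      omega
    have h3q : 3 < q := by omega
    obtain ⟨hBG, hTy, hA⟩ := hNADU h n m k π p e r f w0 c E q ρ hNF hh hE hq hq3 hIn hqn hqρ
    have hAG : ∀ i : Fin s, AG (BB h n E q) (b i) := fun i =>
      ((hA _ (hAdN i).1.supp).1 ⟨hAdN i, hb0 i⟩).1
    have hskew := (hTENT s τ b X Y _ _ _ _ _ hSys hSw hBG
      hAG (hPl.lam _ hTy) (fun i => hb _)).1
    refine ⟨hQ, ρ, hqρ, hb0, fun τ' hτ' => ?_⟩
    have hent : ∀ j i, j ≠ i →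
        MaT b X Y P Q P' Q' (BB h n E q) j i =
        C j i + E * ((Φ j i (ZMod.unitOfCoprime q hQ)).toAdd + τ' j i) := by
      intro j i hji
      have hqb : ¬ (q : ℤ) ∣ b j := fun h => by
        rcases (hq.dvd_mul).1 ((hAdN j).1.supp q hq h) with h1 | h1
        · have := Nat.le_of_dvd (by norm_num) h1
          omega
        · exact hqn h1
      obtain ⟨x, hx⟩ := (hSPLT.2 q ρ hq hq3 hqρ).2.2.2.2.2 _ hqb (hb0 j)
      unfold MaT
      rw [if_neg hji]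
      refine (hD2 j i hji E q hQ ρ hE hq (by have := hN j i; omega) hq3 hqρ (hAG j) (hAG i) x
        hx).trans ?_
      rw [← hτ' j i hji x hx]
    have hMa : MaT b X Y P Q P' Q' (BB h n E q) = alt fun j i =>
        C j i + E * ((Φ j i (ZMod.unitOfCoprime q hQ)).toAdd + τ' j i) := by
      ext j i
      rw [alt]
      rcases lt_trichotomy j i with h | h | h
      · rw [if_pos h, hent j i h.ne]
      · subst h
        rw [if_neg (lt_irrefl _), if_neg (lt_irrefl _), MaT, if_pos rfl]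
      · rw [if_neg (not_lt.2 h.le), if_pos h, hskew j i, hent i j h.ne]
    rw [← hMa]
    exact htk
  refine ⟨C, FINAS.assemble Φ, M, fun q t hq hqM hq3 hqP => ⟨fun hIn htk => ?_,
    fun hIn htk => ?_⟩⟩
  · obtain ⟨hQ, ρ, hqρ, hb0, hm⟩ := hmat 1 q t (Or.inl rfl) hq hqM hq3 hqP hIn htk
    obtain ⟨hw, hc⟩ := hIn
    refine ⟨hQ, ρ, ⟨hq3, ?_, hqρ, hb0⟩, fun τ' hτ' => ?_⟩
    · rw [hκ]
      refine cons_eq ?_ fun i => ?_
      · rw [Fin.cons_zero, Fin.cons_zero]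
        rw [pow_one] at hw
        exact hw
      · rw [Fin.cons_succ, Fin.cons_succ, ← hc i, Nat.cast_one, one_mul]
    · have e1 : (fun j i => C j i + ((1 : ℕ) : ZMod 3) *
          ((Φ j i (ZMod.unitOfCoprime q hQ)).toAdd + τ' j i)) =
          C + (FINAS.assemble Φ (ZMod.unitOfCoprime q hQ)).toAdd + τ' := by
        funext j i
        show C j i + ((1 : ℕ) : ZMod 3) * ((Φ j i (ZMod.unitOfCoprime q hQ)).toAdd + τ' j i) =
          C j i + (Φ j i (ZMod.unitOfCoprime q hQ)).toAdd + τ' j i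
        rw [Nat.cast_one]
        ring
      rw [← e1]
      exact hm τ' hτ'
  · obtain ⟨hQ, ρ, hqρ, hb0, hm⟩ := hmat 2 q t (Or.inr rfl) hq hqM hq3 hqP hIn htk
    obtain ⟨hw, hc⟩ := hIn
    refine ⟨hQ, ρ, ⟨hq3, ?_, hqρ, hb0⟩, fun τ' hτ' => ?_⟩
    · rw [hκ]
      refine cons_eq ?_ fun i => ?_
      · rw [Fin.cons_zero, Pi.neg_apply, Fin.cons_zero]
        have h3 : ¬ (3 : ℤ) ∣ (q : ℤ) := by omega
        have h4 := sq_mod_three h3
        have h5 : ((q : ℤ) ^ 2) ^ 2 = (q : ℤ) ^ 2 * (q : ℤ) ^ 2 := by ring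
        rw [h5, wt_mul h4 h4] at hw
        exact neg_of_two (by rw [two_mul]; exact hw)
      · rw [Fin.cons_succ, Pi.neg_apply, Fin.cons_succ]
        exact neg_of_two (hc i)
    · have e1 : (fun j i => C j i + ((2 : ℕ) : ZMod 3) *
          ((Φ j i (ZMod.unitOfCoprime q hQ)).toAdd + τ' j i)) =
          C - (FINAS.assemble Φ (ZMod.unitOfCoprime q hQ)).toAdd - τ' := by
        funext j i
        show C j i + ((2 : ℕ) : ZMod 3) * ((Φ j i (ZMod.unitOfCoprime q hQ)).toAdd + τ' j i) =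
          C j i - (Φ j i (ZMod.unitOfCoprime q hQ)).toAdd - τ' j i
        rw [show ((2 : ℕ) : ZMod 3) = -1 from by decide]
        ring
      rw [← e1]
      exact hm τ' hτ'

end Pool.Agent.PTK


end

section

/-!
# The average rank of prime twists, ZA: general properties of `zN`
-/

set_option autoImplicit false

open NumberField IsDedekindDomain Finset
open scoped nonZeroDivisors Pointwise

namespace Pool.Agent.PTK

open Pool.Agent.Lib_helper18 Pool.Agent.Lib_helper18.Eis Pool.Agent.Lib_helper84.Cub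
open Pool.Agent.PT Pool.Agent.PTE Pool.Agent.PT3 Pool.Agent.PTL Pool.Agent.PTN

namespace ZA

open Pool.Agent.PT.EHYP Pool.Agent.PT3.HYPT

variable {n m k : ℕ} {π : Fin m → PP} {p e : Fin m → ℕ} {r f : Fin k → ℕ}

/-- products of powers of the primes -/
noncomputable def pr (π : Fin m → PP) (c : ℕ) (g h : Fin m → ℕ) : Eis :=
  w ^ c * ∏ i, ((π i).1 ^ g i * conj (π i).1 ^ h i)

theorem f_ne (π : Fin m → PP) (g h : Fin m → ℕ) (i : Fin m) :
    (π i).1 ^ g i * conj (π i).1 ^ h i ≠ 0 :=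
  mul_ne_zero (pow_ne_zero _ (π i).2.1.ne_zero) (pow_ne_zero _ (prime_conj (π i).2.1).ne_zero)

theorem pr_ne (π : Fin m → PP) (c : ℕ) (g h : Fin m → ℕ) : pr π c g h ≠ 0 :=
  mul_ne_zero (pow_ne_zero _ w_ne) (Finset.prod_ne_zero_iff.2 fun i _ => f_ne π g h i)

theorem prim_i (π : Fin m → PP) (i : Fin m) : Prim (π i).1 := by
  have h := (π i).2.2
  exact ⟨h.2, by omega⟩

theorem prim_c (π : Fin m → PP) (i : Fin m) : Prim (conj (π i).1) := by
  obtain ⟨h1, h2⟩ := (π i).2.2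
  refine ⟨?_, ?_⟩
  · rw [conj_im]
    omega
  · rw [conj_re]
    omega

theorem lam_ndvd (π : Fin m → PP) (c : ℕ) (g h : Fin m → ℕ) : ¬ lam ∣ pr π c g h := by
  have hl : Prime lam := prime_lam
  intro hd
  rcases hl.dvd_or_dvd hd with h1 | h1
  · exact not_dvd_of_isUnit hl (isUnit_w.pow c) h1
  · obtain ⟨i, -, hi⟩ := hl.exists_mem_finset_dvd h1
    rcases hl.dvd_or_dvd hi with h2 | h2
    · exact (prim_i π i).not_lam_dvd (hl.dvd_of_dvd_pow h2)
    · exact (prim_c π i).not_lam_dvd (hl.dvd_of_dvd_pow h2)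

theorem pr_mul (π : Fin m → PP) (c c' : ℕ) (g h g' h' : Fin m → ℕ) :
    pr π c g h * pr π c' g' h' = pr π (c + c') (fun i => g i + g' i) (fun i => h i + h' i) := by
  unfold pr
  rw [pow_add, mul_mul_mul_comm, ← Finset.prod_mul_distrib]
  congr 1
  refine Finset.prod_congr rfl fun i _ => ?_
  rw [pow_add, pow_add]
  ring

theorem pr_cube (π : Fin m → PP) (c : ℕ) (g h : Fin m → ℕ) :
    pr π (3 * c) (fun i => 3 * g i) (fun i => 3 * h i) = pr π c g h ^ 3 := by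
  unfold pr
  rw [mul_pow, ← Finset.prod_pow, ← pow_mul, mul_comm 3 c]
  congr 1
  refine Finset.prod_congr rfl fun i _ => ?_
  change (π i).1 ^ (3 * g i) * conj (π i).1 ^ (3 * h i) = _
  rw [mul_pow, ← pow_mul, ← pow_mul, mul_comm 3 (g i), mul_comm 3 (h i)]

theorem pr_conj (π : Fin m → PP) (c : ℕ) (g h : Fin m → ℕ) :
    conj (pr π c g h) = pr π (2 * c) h g := by
  unfold pr
  rw [map_mul, map_pow, conj_w, map_prod, ← pow_mul]
  congr 1
  refine Finset.prod_congr rfl fun i _ => ?_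
  rw [map_mul, map_pow, map_pow, conj_conj, mul_comm]

theorem sl_pr (hSSL : SSL) (hSREC : SREC) (hLCL : LCL) (π : Fin m → PP) (c : ℕ)
    (g h : Fin m → ℕ) : sl (pr π c g h) 4 = c := by
  have h4 : (4 : Eis) ≠ 0 := by
    intro h
    have := congrArg Eis.re h
    rw [ofNat_re, zero_re] at this
    norm_num at this
  have hp4 : Prim 4 := ⟨by rw [ofNat_im]; exact dvd_zero _, by rw [ofNat_re]; norm_num⟩
  have hF := add3_sl hSSL h4
  have hw : sl w 4 = 1 := by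
    have h1 := hLCL.2.2.2.2.1 4 (by norm_num)
    push_cast at h1
    rw [h1, (lw_four hLCL).2, neg_neg]
  have k1 := hF _ _ (pow_ne_zero c w_ne) (Finset.prod_ne_zero_iff.2 fun i _ => f_ne π g h i :
    (∏ i, ((π i).1 ^ g i * conj (π i).1 ^ h i)) ≠ 0)
  have k2 := hF.pow w_ne c
  have k3 := hF.prod Finset.univ _ fun i _ => f_ne π g h i
  simp only at k1 k2 k3
  unfold pr
  rw [k1, k2, k3, hw, mul_one, Finset.sum_eq_zero, add_zero]
  intro i _
  have k4 := hF _ _ (pow_ne_zero (g i) (π i).2.1.ne_zero)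
    (pow_ne_zero (h i) (prime_conj (π i).2.1).ne_zero)
  have k5 := hF.pow (π i).2.1.ne_zero (g i)
  have k6 := hF.pow (prime_conj (π i).2.1).ne_zero (h i)
  simp only at k4 k5 k6
  rw [k4, k5, k6, hSREC.1 _ _ (prim_i π i) hp4, hSREC.1 _ _ (prim_c π i) hp4, mul_zero, mul_zero,
    add_zero]

theorem V_pr {l : Eis} (hl : Prime l) (π : Fin m → PP) (c : ℕ) (g h : Fin m → ℕ) :
    V l (pr π c g h) = ∑ i, (g i * V l (π i).1 + h i * V l (conj (π i).1)) := by
  unfold pr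
  rw [V_mul hl (pow_ne_zero _ w_ne) (Finset.prod_ne_zero_iff.2 fun i _ => f_ne π g h i),
    V_eq_zero (not_dvd_of_isUnit hl (isUnit_w.pow c)), zero_add,
    V_prod hl _ _ fun i _ => f_ne π g h i]
  refine Finset.sum_congr rfl fun i _ => ?_
  rw [V_mul hl (pow_ne_zero _ (π i).2.1.ne_zero)
    (pow_ne_zero _ (prime_conj (π i).2.1).ne_zero), V_pow hl (π i).2.1.ne_zero,
    V_pow hl (prime_conj (π i).2.1).ne_zero]

theorem V_i (hn : NF n π p e r f) (c : ℕ) (g h : Fin m → ℕ) (i : Fin m) :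
    V (π i).1 (pr π c g h) = g i := by
  rw [V_pr (π i).2.1, Finset.sum_eq_single i]
  · rw [V_self_i hn, V_conj_i hn, if_pos rfl, mul_one, mul_zero, add_zero]
  · intro j _ hj
    rw [V_self_i hn, V_conj_i hn, if_neg hj, mul_zero, mul_zero, add_zero]
  · intro h
    exact absurd (Finset.mem_univ i) h

theorem V_ci (hn : NF n π p e r f) (c : ℕ) (g h : Fin m → ℕ) (i : Fin m) :
    V (conj (π i).1) (pr π c g h) = h i := by
  rw [V_pr (prime_conj (π i).2.1), Finset.sum_eq_single i]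
  · rw [V_conj_self hn, V_conj_conj hn, if_pos rfl, mul_one, mul_zero, zero_add]
  · intro j _ hj
    rw [V_conj_self hn, V_conj_conj hn, if_neg hj, mul_zero, mul_zero, add_zero]
  · intro h
    exact absurd (Finset.mem_univ i) h

theorem dvd_pr (hSPP : SPP) (π : Fin m → PP) (c : ℕ) (g h : Fin m → ℕ) (σ : PP)
    (hd : σ.1 ∣ pr π c g h) : ∃ i, (g i ≠ 0 ∧ σ = π i) ∨ (h i ≠ 0 ∧ σ.1 = conj (π i).1) := by
  have hl := σ.2.1
  rcases hl.dvd_or_dvd hd with h1 | h1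
  · exact absurd h1 (not_dvd_of_isUnit hl (isUnit_w.pow c))
  · obtain ⟨i, -, hi⟩ := hl.exists_mem_finset_dvd h1
    refine ⟨i, ?_⟩
    rcases hl.dvd_or_dvd hi with h2 | h2
    · left
      refine ⟨fun h0 => ?_, ?_⟩
      · rw [h0, pow_zero] at h2
        exact not_dvd_of_isUnit hl isUnit_one h2
      · exact hSPP.2.1 _ _ (hl.associated_of_dvd (π i).2.1 (hl.dvd_of_dvd_pow h2))
    · right
      refine ⟨fun h0 => ?_, ?_⟩
      · rw [h0, pow_zero] at h2
        exact not_dvd_of_isUnit hl isUnit_one h2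
      · obtain ⟨π', hπ'⟩ := (hSPP.2.2.2.1 (π i)).2
        rw [← hπ']
        have h3 : Associated σ.1 π'.1 := by
          rw [hπ']
          exact hl.associated_of_dvd (prime_conj (π i).2.1) (hl.dvd_of_dvd_pow h2)
        rw [hSPP.2.1 _ _ h3]

theorem zN_eq (π : Fin m → PP) (e : Fin m → ℕ) (y : Fin (m + 1) → ZMod 3) :
    zN π e y = pr π (- y 0).val (fun i => ((e i : ZMod 3) * y i.succ).val)
      (fun i => (2 * ((e i : ZMod 3) * y i.succ)).val) := rfl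

theorem three_dvd (a : ZMod 3) : 3 ∣ a.val + (2 * a).val := by
  revert a
  decide

theorem carry (a b : ZMod 3) : ∃ c : ℕ, a.val + b.val = (a + b).val + 3 * c := by
  refine ⟨(a.val + b.val) / 3, ?_⟩
  revert a b
  decide

theorem val_le (a : ZMod 3) : a.val ≤ 2 := by
  revert a
  decide

theorem e_sq' (hn : NF n π p e r f) (i : Fin m) : (e i : ZMod 3) * (e i : ZMod 3) = 1 := by
  rcases hn.pe i with h | h
  · rw [h]
    decide
  · rw [h]
    decide

theorem pd_n (hn : NF n π p e r f) (i : Fin m) : (p i : Eis) ∣ (n : Eis) := by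
  have h1 : p i ∣ n := by
    rw [hn.eq]
    refine Dvd.dvd.mul_right ?_ _
    have h1 : p i ^ e i ∣ ∏ i, p i ^ e i := Finset.dvd_prod_of_mem _ (Finset.mem_univ i)
    refine (dvd_pow_self _ ?_).trans h1
    have := hn.pe i
    omega
  obtain ⟨d, hd⟩ := h1
  exact ⟨(d : Eis), by rw [hd]; push_cast; rfl⟩

end ZA

theorem ZA_thm (hSPP : SPP) (hSSL : SSL) (hSREC : SREC) (hLCL : LCL) : Stmt_ZA := by
  intro n m k π p e r f hn y
  have hyv : NPSI.yv π e (zN π e y) = y := by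
    funext j
    refine Fin.cases ?_ (fun i => ?_) j
    · change - sl (zN π e y) 4 = y 0
      rw [ZA.zN_eq, ZA.sl_pr hSSL hSREC hLCL, ZMod.natCast_zmod_val, neg_neg]
    · change (e i : ZMod 3) * (V (π i).1 (zN π e y) : ZMod 3) = y i.succ
      rw [ZA.zN_eq, ZA.V_i hn, ZMod.natCast_zmod_val, ← mul_assoc, ZA.e_sq' hn, one_mul]
  refine ⟨?_, ?_, ?_, ?_, ?_, ?_, ?_, hyv, ?_, ?_⟩
  · rw [ZA.zN_eq]
    exact ZA.pr_ne _ _ _ _
  · rw [ZA.zN_eq]
    exact ZA.lam_ndvd _ _ _ _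
  · rw [ZA.zN_eq, ZA.pr_conj, ZA.pr_mul]
    have h1 := fun i : Fin m => ZA.three_dvd ((e i : ZMod 3) * y i.succ)
    choose c hc using h1
    refine ⟨ZA.pr π (- y 0).val c c, ?_⟩
    rw [← ZA.pr_cube]
    congr 1
    · omega
    · funext i
      exact hc i
    · funext i
      rw [add_comm]
      exact hc i
  · intro σ hσ hd
    rw [ZA.zN_eq] at hd
    obtain ⟨i, hi⟩ := ZA.dvd_pr hSPP _ _ _ _ _ hd
    apply hσ
    refine Dvd.dvd.trans ?_ (ZA.pd_n hn i)
    rw [hn.pπ i]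
    rcases hi with ⟨-, hi⟩ | ⟨-, hi⟩
    · rw [hi]
      exact dvd_mul_right _ _
    · rw [hi]
      exact dvd_mul_left _ _
  · intro σ
    rw [ZA.zN_eq]
    by_cases hd : σ.1 ∣ ZA.pr π (- y 0).val (fun i => ((e i : ZMod 3) * y i.succ).val)
      (fun i => (2 * ((e i : ZMod 3) * y i.succ)).val)
    · obtain ⟨i, hi⟩ := ZA.dvd_pr hSPP _ _ _ _ _ hd
      rcases hi with ⟨-, hi⟩ | ⟨-, hi⟩
      · rw [hi, ZA.V_i hn]
        exact ZA.val_le _
      · rw [hi, ZA.V_ci hn]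
        exact ZA.val_le _
    · rw [V_eq_zero hd]
      exact Nat.zero_le _
  · intro σ hd
    rw [ZA.zN_eq] at hd
    obtain ⟨i, hi⟩ := ZA.dvd_pr hSPP _ _ _ _ _ hd
    refine ⟨i, ?_⟩
    rcases hi with ⟨h0, hi⟩ | ⟨h0, hi⟩
    · refine ⟨fun h1 => h0 ?_, Or.inl hi⟩
      rw [h1, mul_zero]
      rfl
    · refine ⟨fun h1 => h0 ?_, Or.inr hi⟩
      rw [h1, mul_zero, mul_zero]
      rfl
  · intro i hi
    have h1 : (e i : ZMod 3) * y i.succ ≠ 0 := by
      intro h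
      apply hi
      have := congrArg (fun t => (e i : ZMod 3) * t) h
      simp only [← mul_assoc, ZA.e_sq' hn, one_mul, mul_zero] at this
      exact this
    have h2 : 2 * ((e i : ZMod 3) * y i.succ) ≠ 0 := by
      generalize (e i : ZMod 3) * y i.succ = a at h1
      revert a
      decide
    have k1 : ((e i : ZMod 3) * y i.succ).val ≠ 0 := fun h => h1 ((ZMod.val_eq_zero _).1 h)
    have k2 : (2 * ((e i : ZMod 3) * y i.succ)).val ≠ 0 := fun h => h2 ((ZMod.val_eq_zero _).1 h)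
    have h3 : (π i).1 ^ ((e i : ZMod 3) * y i.succ).val *
        conj (π i).1 ^ (2 * ((e i : ZMod 3) * y i.succ)).val ∣ zN π e y := by
      unfold zN
      exact Dvd.dvd.mul_left (Finset.dvd_prod_of_mem _ (Finset.mem_univ i)) _
    exact ⟨((dvd_pow_self _ k1).trans (dvd_mul_right _ _)).trans h3,
      ((dvd_pow_self _ k2).trans (dvd_mul_left _ _)).trans h3⟩
  · intro y'
    have h1 := fun i : Fin m => ZA.carry ((e i : ZMod 3) * y i.succ) ((e i : ZMod 3) * y' i.succ)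
    have h2 := fun i : Fin m => ZA.carry (2 * ((e i : ZMod 3) * y i.succ))
      (2 * ((e i : ZMod 3) * y' i.succ))
    obtain ⟨c0, hc0⟩ := ZA.carry (- y 0) (- y' 0)
    choose c hc using h1
    choose d hd using h2
    refine ⟨1, ZA.pr π c0 c d, one_ne_zero, ZA.pr_ne _ _ _ _, ?_⟩
    rw [one_pow, mul_one, ZA.zN_eq, ZA.zN_eq, ZA.zN_eq, ← ZA.pr_cube, ZA.pr_mul, ZA.pr_mul]
    congr 1
    · rw [hc0]
      congr 2
      rw [Pi.add_apply, neg_add]
    · funext i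
      rw [hc i]
      congr 2
      rw [Pi.add_apply, mul_add]
    · funext i
      rw [hd i]
      congr 2
      rw [Pi.add_apply, mul_add, mul_add]
  · rintro ⟨t, ht⟩
    rw [← hyv, ← ht]
    have ht0 : t ≠ 0 := by
      rintro rfl
      have : zN π e y ≠ 0 := by
        rw [ZA.zN_eq]
        exact ZA.pr_ne _ _ _ _
      apply this
      rw [← ht]
      ring
    funext j
    refine Fin.cases ?_ (fun i => ?_) j
    · change - sl (t ^ 3) 4 = 0
      have h4 : (4 : Eis) ≠ 0 := by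
        intro h
        have := congrArg Eis.re h
        rw [ofNat_re, zero_re] at this
        norm_num at this
      have h5 : sl (t ^ 3) 4 = ((3 : ℕ) : ZMod 3) * sl t 4 := (EHYP.add3_sl hSSL h4).pow ht0 3
      rw [h5]
      push_cast
      rw [EHYP.three_zero, neg_zero]
    · change (e i : ZMod 3) * (V (π i).1 (t ^ 3) : ZMod 3) = 0
      rw [V_pow (π i).2.1 ht0]
      push_cast
      rw [EHYP.three_zero, mul_zero]

end Pool.Agent.PTK


end

section

/-!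
# The average rank of prime twists: tools for the symbols of the classes (`ZC`, `ZS`, `ZT`)
-/

set_option autoImplicit false

namespace Pool.Agent.PTK

open Pool.Agent.Lib_helper18 Pool.Agent.Lib_helper18.Eis Pool.Agent.Lib_helper84.Cub
open Pool.Agent.PT Pool.Agent.PTE Pool.Agent.PT3 Pool.Agent.PT.EHYP Pool.Agent.PT3.HYPT

namespace ZAUX

/-- the conjugate place -/
lemma tm_conj_int (hSTM : STM) (hSPP : SPP) (hSCJ : SCJ) {σ κ : PP} (hκ : κ.1 = conj σ.1)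
    {z t : Eis} (hz : z ≠ 0) (hzt : z * conj z = t ^ 3) {x : ℤ} (hx : x ≠ 0) :
    tm κ.1 z (x : Eis) = tm σ.1 z (x : Eis) := by
  have hx0 : (x : Eis) ≠ 0 := int_ne hx
  have h3 := (hSPP.2.2.2.1 σ).1
  have h3' := (hSPP.2.2.2.1 κ).1
  have hcz : conj z ≠ 0 := by
    intro h0
    apply hz
    have h1 := congrArg conj h0
    rwa [conj_conj, map_zero] at h1
  have ht : t ≠ 0 := by
    rintro rfl
    rw [zero_pow (by norm_num)] at hzt
    exact mul_ne_zero hz hcz hzt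
  have hc := hSCJ.1 σ.1 z (x : Eis) σ.2.1 h3 hz hx0
  rw [conj_intCast, ← hκ] at hc
  have hA := add3_tm hSTM κ.2.1 h3' hx0
  have h1 := hA z (conj z) hz hcz
  have h2 := hA.pow ht 3
  simp only at h1 h2
  rw [hzt, h2] at h1
  have h4 := three_zero (tm κ.1 t (x : Eis))
  push_cast at h1
  linear_combination h4 - h1 - hc

/-- the conjugate place, two elements -/
lemma tm_conj_two (hSTM : STM) (hSPP : SPP) (hSCJ : SCJ) {σ κ : PP} (hκ : κ.1 = conj σ.1)
    {z t z' t' : Eis} (hz : z ≠ 0) (hzt : z * conj z = t ^ 3) (hz' : z' ≠ 0)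
    (hzt' : z' * conj z' = t' ^ 3) : tm κ.1 z z' = - tm σ.1 z z' := by
  have h3 := (hSPP.2.2.2.1 σ).1
  have h3' := (hSPP.2.2.2.1 κ).1
  have hne : ∀ a : Eis, a ≠ 0 → conj a ≠ 0 := by
    intro a ha h0
    apply ha
    have h1 := congrArg conj h0
    rwa [conj_conj, map_zero] at h1
  have ht : ∀ a s : Eis, a ≠ 0 → a * conj a = s ^ 3 → s ≠ 0 := by
    rintro a s ha h rfl
    rw [zero_pow (by norm_num)] at h
    exact mul_ne_zero ha (hne a ha) h
  have hc := hSCJ.1 σ.1 z z' σ.2.1 h3 hz hz'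
  rw [← hκ] at hc
  have hs := hSTM κ.1 κ.2.1 h3'
  have hA : ∀ a s b : Eis, a ≠ 0 → a * conj a = s ^ 3 → b ≠ 0 →
      tm κ.1 (conj a) b = - tm κ.1 a b := by
    intro a s b ha has hb
    have hA := add3_tm hSTM κ.2.1 h3' hb
    have h1 := hA a (conj a) ha (hne a ha)
    have h2 := hA.pow (ht a s ha has) 3
    simp only at h1 h2
    rw [has, h2] at h1
    have h4 := three_zero (tm κ.1 s b)
    push_cast at h1
    linear_combination h4 - h1
  rw [hA z t _ hz hzt (hne z' hz'), hs.skew (conj z') z (hne z' hz') hz,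
    hA z' t' z hz' hzt' hz, hs.skew z z' hz hz'] at hc
  linear_combination hc

/-- a sum over the places -/
lemma sum_places (hSPP : SPP) {n m k : ℕ} {π : Fin m → PP} {p e : Fin m → ℕ} {r f : Fin k → ℕ}
    (hn : NF n π p e r f) (T : Finset PP) (F : PP → ZMod 3)
    (hT : ∀ ρ ∈ T, (∀ i, ρ ≠ π i) ∧ ∀ i, ρ.1 ≠ conj (π i).1)
    (hF : ∀ i (κ : PP), κ.1 = conj (π i).1 → F κ = F (π i))
    (h0 : ∀ σ : PP, σ ∉ T → (∀ i, σ ≠ π i) → (∀ i, σ.1 ≠ conj (π i).1) → F σ = 0) :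
    ∑ᶠ σ : PP, F σ = - ∑ i, F (π i) + ∑ ρ ∈ T, F ρ := by
  classical
  choose κ hκ using fun i => (hSPP.2.2.2.1 (π i)).2
  have hg : Function.Injective (Sum.elim π κ) := by
    rintro (i | i) (j | j) hij
    · have h1 : π i = π j := hij
      rw [assoc_iff hn i j (by rw [h1])]
    · have h1 : π i = κ j := hij
      exact absurd (by rw [h1, hκ j]) (not_assoc hn i j)
    · have h1 : κ i = π j := hij
      exact absurd (by rw [← h1, hκ i]) (not_assoc hn j i)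
    · have h1 : κ i = κ j := hij
      have h2 : conj (π i).1 = conj (π j).1 := by rw [← hκ i, ← hκ j, h1]
      have h3 : (π i).1 = (π j).1 := by rw [← conj_conj (π i).1, h2, conj_conj]
      rw [assoc_iff hn i j (by rw [h3])]
  have hdis : Disjoint (Finset.univ.image (Sum.elim π κ)) T := by
    rw [Finset.disjoint_left]
    intro σ hσ hσT
    obtain ⟨y, -, hy⟩ := Finset.mem_image.1 hσ
    obtain ⟨g1, g2⟩ := hT σ hσT
    rcases y with i | i
    · exact g1 i hy.symm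
    · apply g2 i
      have h1 : κ i = σ := hy
      rw [← h1, hκ i]
  have hsup : Function.support F ⊆
      (((Finset.univ.image (Sum.elim π κ)) ∪ T : Finset PP) : Set PP) := by
    intro σ hσ
    by_contra hnm
    apply hσ
    rw [Finset.mem_coe, Finset.mem_union, not_or] at hnm
    have hn' : ∀ y, Sum.elim π κ y ≠ σ := by
      intro y hy
      apply hnm.1
      rw [Finset.mem_image]
      exact ⟨y, Finset.mem_univ _, hy⟩
    refine h0 σ hnm.2 (fun i hi => hn' (Sum.inl i) hi.symm) fun i hi => hn' (Sum.inr i) ?_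
    refine hSPP.2.1 _ _ ?_
    change Associated (κ i).1 σ.1
    rw [hκ i, ← hi]
  rw [finsum_eq_sum_of_support_subset _ hsup, Finset.sum_union hdis,
    Finset.sum_image fun a _ b _ hab => hg hab, Fintype.sum_sum_type]
  have h1 : ∑ i, F (Sum.elim π κ (Sum.inr i)) = ∑ i, F (Sum.elim π κ (Sum.inl i)) :=
    Finset.sum_congr rfl fun i _ => hF i (κ i) (hκ i)
  rw [h1]
  change ∑ i, F (π i) + ∑ i, F (π i) + _ = _
  have h2 := three_zero (∑ i, F (π i))
  linear_combination h2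

/-- The product formula for a class and a rational integer. -/
lemma prodz (hSTM : STM) (hSPP : SPP) (hSCJ : SCJ) {n m k : ℕ} {π : Fin m → PP}
    {p e : Fin m → ℕ} {r f : Fin k → ℕ} (hn : NF n π p e r f) (T : Finset PP)
    (hT : ∀ ρ ∈ T, (∀ i, ρ ≠ π i) ∧ ∀ i, ρ.1 ≠ conj (π i).1)
    {z t : Eis} (hz : z ≠ 0) (hzt : z * conj z = t ^ 3)
    (hsupp : ∀ σ : PP, σ.1 ∣ z → ∃ i, σ = π i ∨ σ.1 = conj (π i).1) {x : ℤ} (hx : x ≠ 0)
    (hxT : ∀ σ : PP, σ.1 ∣ (x : Eis) → σ ∈ T ∨ ∃ i, σ = π i ∨ σ.1 = conj (π i).1) :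
    sl z (x : Eis) = ∑ i, tm (π i).1 z (x : Eis) - ∑ ρ ∈ T, tm ρ.1 z (x : Eis) := by
  unfold sl
  rw [sum_places hSPP hn T (fun σ => tm σ.1 z (x : Eis)) hT
    (fun i κ hκ => tm_conj_int hSTM hSPP hSCJ hκ hz hzt hx) (by
      intro σ hσT h1 h2
      have hno : ¬ ∃ i, σ = π i ∨ σ.1 = conj (π i).1 := by
        rintro ⟨i, h | h⟩
        · exact h1 i h
        · exact h2 i h
      exact DCONST.tm_zero (fun h => hno (hsupp σ h)) (fun h => by
        rcases hxT σ h with h3 | h3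
        · exact hσT h3
        · exact hno h3))]
  ring

/-- the classes `zN` -/
structure Cls {m : ℕ} (π : Fin m → PP) (e : Fin m → ℕ) (y : Fin (m + 1) → ZMod 3) : Prop where
  ne : zN π e y ≠ 0
  nrm : ∃ t : Eis, zN π e y * conj (zN π e y) = t ^ 3
  supp : ∀ σ : PP, σ.1 ∣ zN π e y → ∃ i, σ = π i ∨ σ.1 = conj (π i).1
  val : ∀ i, (V (π i).1 (zN π e y) : ZMod 3) = (e i : ZMod 3) * y i.succ
  four : - sl (zN π e y) 4 = y 0

lemma cls (hZA : Stmt_ZA) {n m k : ℕ} {π : Fin m → PP} {p e : Fin m → ℕ} {r f : Fin k → ℕ}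
    (hn : NF n π p e r f) (y : Fin (m + 1) → ZMod 3) : Cls π e y := by
  obtain ⟨h1, -, h3, -, -, h6, -, h8, -, -⟩ := hZA n m k π p e r f hn y
  refine ⟨h1, h3, fun σ hσ => ?_, fun i => ?_, ?_⟩
  · obtain ⟨i, -, h⟩ := h6 σ hσ
    exact ⟨i, h⟩
  · have h9 := congrFun h8 i.succ
    unfold PTN.NPSI.yv at h9
    rw [Fin.cons_succ] at h9
    have h10 : (e i : ZMod 3) * (e i : ZMod 3) = 1 := by
      rcases hn.pe i with h1 | h1 <;> rw [h1] <;> decide
    rw [← h9]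
    linear_combination (-(V (π i).1 (zN π e y) : ZMod 3)) * h10
  · have h9 := congrFun h8 0
    unfold PTN.NPSI.yv at h9
    rwa [Fin.cons_zero] at h9

end ZAUX

end Pool.Agent.PTK


end

section

/-!
# PTK_ZC: the symbols of the classes of `VS`
-/

set_option autoImplicit false

namespace Pool.Agent.PTK

open Pool.Agent.Lib_helper18 Pool.Agent.Lib_helper18.Eis Pool.Agent.Lib_helper84.Cub
open Pool.Agent.PT Pool.Agent.PTE Pool.Agent.PT3 Pool.Agent.PTN Pool.Agent.PT.EHYP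
open Pool.Agent.PT3.HYPT

open ZAUX in
/-- PTK_ZC. -/
theorem ZC_thm (hSTM : STM) (hSPP : SPP) (hSSL : SSL) (hSCJ : SCJ) (hLCL : LCL)
    (hZA : Stmt_ZA) : Stmt_ZC := by
  classical
  intro h n m k π p e r f w0 c hn hh y hy
  obtain ⟨hz, ⟨t, hzt⟩, hsupp, hval, hfour⟩ := cls hZA hn y
  have hi : ∀ i, Prime (π i).1 := fun i => (π i).2.1
  have h3 : ∀ i, ¬ (π i).1 ∣ 3 := fun i => (hSPP.2.2.2.1 (π i)).1
  have hsl := sl_int hSSL hLCL hz
  -- the value of the symbol at `lam`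
  have hslx : ∀ x : ℤ, x ≠ 0 → ¬ (3 : ℤ) ∣ x → sl (zN π e y) (x : Eis) = wt (x ^ 2) * y 0 := by
    intro x hx hx3
    obtain ⟨h1, h2⟩ := hLCL.2.2.2.1 x hx3
    rw [hsl x hx, h1, h2, ← hfour]
    ring
  -- elements prime to `π i`
  have htm : ∀ i (x : Eis), ¬ (π i).1 ∣ x →
      tm (π i).1 (zN π e y) x = - ((e i : ZMod 3) * y i.succ * sym (π i).1 x) := by
    intro i x hx
    unfold tm
    rw [V_eq_zero hx, ch_of_not_dvd (hi i) hx, hval i]
    simp
  obtain ⟨-, hcol⟩ := hy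
  constructor
  · intro i'
    have hcol' := hcol (Sum.inl i'.succ) (fun _ h => by
      rw [Sum.inl.injEq] at h
      exact Fin.succ_ne_zero i' h)
    have h1 : Matrix.vecMul y (PTN.Nm h n π p e r w0 c) (Sum.inl i'.succ) =
        y 0 * wt ((p i' : ℤ) ^ 2) +
          ∑ i, y i.succ *
          (if i' = i then (e i : ZMod 3) * sym (π i).1 (conj (π i).1) -
            ch (π i).1 ((3 ^ h * n : ℕ) : Eis) - c i
          else (e i : ZMod 3) * sym (π i).1 (p i' : Eis)) := by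
      simp [Matrix.vecMul, dotProduct, PTN.Nm, Fin.sum_univ_succ]
    rw [h1] at hcol'
    have hp0 : (p i' : ℤ) ≠ 0 := by exact_mod_cast (hn.pp i').ne_zero
    have hp3 : ¬ (3 : ℤ) ∣ (p i' : ℤ) := fun h5 => by
      have h6 : 3 ∣ p i' := by exact_mod_cast h5
      have := hn.p1 i'
      omega
    have h2 := prodz hSTM hSPP hSCJ hn ∅ (by simp) hz hzt hsupp hp0 (by
      intro σ hσ
      right
      rw [Int.cast_natCast, hn.pπ i'] at hσ
      refine ⟨i', ?_⟩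
      rcases σ.2.1.dvd_or_dvd hσ with h4 | h4
      · left
        exact hSPP.2.1 _ _ (σ.2.1.associated_of_dvd (π i').2.1 h4)
      · right
        obtain ⟨κ, hκ⟩ := (hSPP.2.2.2.1 (π i')).2
        rw [← hκ] at h4 ⊢
        rw [hSPP.2.1 _ _ (σ.2.1.associated_of_dvd κ.2.1 h4)])
    rw [hslx _ hp0 hp3, Finset.sum_empty, sub_zero] at h2
    have h4 : ∀ i, tm (π i).1 (zN π e y) ((p i' : ℤ) : Eis) =
        (if i' = i then ch (π i).1 (zN π e y) -
          (e i : ZMod 3) * y i.succ * sym (π i).1 (conj (π i).1) else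
          - ((e i : ZMod 3) * y i.succ * sym (π i).1 (p i' : Eis))) := by
      intro i
      rw [Int.cast_natCast]
      split_ifs with hii
      · subst hii
        have hcj : ¬ (π i').1 ∣ conj (π i').1 := fun h5 =>
          not_assoc hn i' i' ((hi i').associated_of_dvd (prime_conj (π i').2.1) h5)
        unfold tm
        rw [hn.pπ i', V_mul (hi i') (hi i').ne_zero (prime_conj (π i').2.1).ne_zero, V_self,
          V_eq_zero hcj, ch_mul (hi i') (h3 i') (hi i').ne_zero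
            (prime_conj (π i').2.1).ne_zero, ch_self (hi i') (h3 i'),
          ch_of_not_dvd (hi i') hcj, hval i']
        push_cast
        ring
      · have hnd : ¬ (π i).1 ∣ (p i' : Eis) := by
          rw [hn.pπ i']
          intro h5
          rcases (hi i).dvd_or_dvd h5 with h5 | h5
          · exact hii (assoc_iff hn i i' ((hi i).associated_of_dvd (π i').2.1 h5)).symm
          · exact not_assoc hn i i' ((hi i).associated_of_dvd (prime_conj (π i').2.1) h5)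
        exact htm i _ hnd
    rw [Finset.sum_congr rfl fun i _ => h4 i] at h2
    rw [← Finset.add_sum_erase _ _ (Finset.mem_univ i'), if_pos rfl] at h2 hcol'
    have h5 : ∑ i ∈ Finset.univ.erase i', (if i' = i then ch (π i).1 (zN π e y) -
          (e i : ZMod 3) * y i.succ * sym (π i).1 (conj (π i).1) else
          - ((e i : ZMod 3) * y i.succ * sym (π i).1 (p i' : Eis))) =
        - ∑ i ∈ Finset.univ.erase i', y i.succ *
          (if i' = i then (e i : ZMod 3) * sym (π i).1 (conj (π i).1) -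
            ch (π i).1 ((3 ^ h * n : ℕ) : Eis) - c i
          else (e i : ZMod 3) * sym (π i).1 (p i' : Eis)) := by
      rw [← Finset.sum_neg_distrib]
      refine Finset.sum_congr rfl fun i hi' => ?_
      have h6 : ¬ i' = i := fun h => (Finset.mem_erase.1 hi').1 h.symm
      rw [if_neg h6, if_neg h6]
      ring
    rw [h5] at h2
    linear_combination hcol' - h2
  · intro j ρ hρ
    have hcol' := hcol (Sum.inr j) (fun _ h => by cases h)
    have h1 : Matrix.vecMul y (PTN.Nm h n π p e r w0 c) (Sum.inr j) =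
        y 0 * wt ((r j : ℤ) ^ 2) +
          ∑ i, y i.succ * ((e i : ZMod 3) * sym (π i).1 (r j : Eis)) := by
      simp [Matrix.vecMul, dotProduct, PTN.Nm, Fin.sum_univ_succ]
    rw [h1] at hcol'
    have hr0 : (r j : ℤ) ≠ 0 := by exact_mod_cast (hn.rp j).ne_zero
    have hr3 : ¬ (3 : ℤ) ∣ (r j : ℤ) := fun h5 => by
      have h6 : 3 ∣ r j := by exact_mod_cast h5
      have := hn.r2 j
      omega
    have hjI := inert hSPP (hn.rp j) (hn.r2 j)
    have hρ1 : ∀ i, ρ ≠ π i := by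
      rintro i rfl
      exact not_assoc_nat hn i (r j) (by rw [hρ])
    have hρ2 : ∀ i, ρ.1 ≠ conj (π i).1 := by
      intro i h4
      apply not_assoc_nat hn i (r j)
      have h5 := congrArg conj h4
      rw [conj_conj, hρ, conj_natCast] at h5
      rw [h5]
    have h2 := prodz hSTM hSPP hSCJ hn {ρ} (by
      intro ρ' hρ'
      rw [Finset.mem_singleton] at hρ'
      subst hρ'
      exact ⟨hρ1, hρ2⟩) hz hzt hsupp hr0 (by
      intro σ hσ
      left
      rw [Finset.mem_singleton]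
      rw [Int.cast_natCast, ← hρ] at hσ
      exact hSPP.2.1 _ _ (σ.2.1.associated_of_dvd ρ.2.1 hσ))
    rw [hslx _ hr0 hr3, Finset.sum_singleton] at h2
    have hρz : ¬ ρ.1 ∣ zN π e y := by
      intro h4
      obtain ⟨i, h5 | h5⟩ := hsupp ρ h4
      · exact hρ1 i h5
      · exact hρ2 i h5
    have h4 : tm ρ.1 (zN π e y) ((r j : ℤ) : Eis) = ch ρ.1 (zN π e y) := by
      unfold tm
      rw [Int.cast_natCast, V_eq_zero hρz, ← hρ, V_self]
      simp
    have h5 : ∀ i, tm (π i).1 (zN π e y) ((r j : ℤ) : Eis) =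
        - (y i.succ * ((e i : ZMod 3) * sym (π i).1 (r j : Eis))) := by
      intro i
      rw [Int.cast_natCast, htm i _ (fun h5 =>
        not_assoc_nat hn i (r j) ((hi i).associated_of_dvd hjI.1 h5))]
      ring
    rw [h4, Finset.sum_congr rfl fun i _ => h5 i, Finset.sum_neg_distrib] at h2
    linear_combination h2 - hcol'

end Pool.Agent.PTK


end

section

/-!
# Module PTK_ZI: independence of the classes `zN` (MP_8e0b0b_nt, by helper30)
-/

set_option autoImplicit false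

open NumberField IsDedekindDomain Finset
open scoped nonZeroDivisors Pointwise

namespace Pool.Agent.PTK

open Pool.Agent.Lib_helper18 Pool.Agent.Lib_helper18.Eis Pool.Agent.Lib_helper84.Cub
open Pool.Agent.PT Pool.Agent.PTE Pool.Agent.PT3 Pool.Agent.PTL Pool.Agent.PTN

namespace ZI

/-- equality up to cubes -/
def R (a b : Eis) : Prop := ∃ g g' : Eis, g ≠ 0 ∧ g' ≠ 0 ∧ a * g ^ 3 = b * g' ^ 3

lemma R_refl (a : Eis) : R a a := ⟨1, 1, one_ne_zero, one_ne_zero, rfl⟩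

lemma R_trans {a b c : Eis} (h : R a b) (h' : R b c) : R a c := by
  obtain ⟨g, g', h1, h2, h3⟩ := h
  obtain ⟨k, k', h4, h5, h6⟩ := h'
  refine ⟨g * k, g' * k', mul_ne_zero h1 h4, mul_ne_zero h2 h5, ?_⟩
  linear_combination k ^ 3 * h3 + g' ^ 3 * h6

lemma R_mul {a b a' b' : Eis} (h : R a b) (h' : R a' b') : R (a * a') (b * b') := by
  obtain ⟨g, g', h1, h2, h3⟩ := h
  obtain ⟨k, k', h4, h5, h6⟩ := h'
  refine ⟨g * k, g' * k', mul_ne_zero h1 h4, mul_ne_zero h2 h5, ?_⟩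
  linear_combination (a' * k ^ 3) * h3 + (b * g' ^ 3) * h6

lemma zN_zero {m : ℕ} (π : Fin m → PP) (e : Fin m → ℕ) : zN π e 0 = 1 := by
  unfold zN
  simp

lemma cube_of {t a : Eis} (h : R (t ^ 3) a) : ∃ u : Eis, u ^ 3 = a := by
  obtain ⟨g, g', h1, h2, h3⟩ := h
  have h4 : g' ^ 3 ∣ (t * g) ^ 3 := ⟨a, by rw [mul_pow, h3, mul_comm]⟩
  have h5 : g' ∣ t * g := (IsIntegrallyClosed.pow_dvd_pow_iff (three_ne_zero)).1 h4
  obtain ⟨u, hu⟩ := h5
  refine ⟨u, ?_⟩
  have h6 : g' ^ 3 * u ^ 3 = g' ^ 3 * a := by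
    rw [← mul_pow, ← hu, mul_pow, h3, mul_comm]
  exact mul_left_cancel₀ (pow_ne_zero 3 h2) h6

end ZI

theorem ZI_thm (hZA : Stmt_ZA) : Stmt_ZI := by
  classical
  intro n m k π p e r f hNF s Y c ht
  have hadd : ∀ y y' : Fin (m + 1) → ZMod 3, ZI.R (zN π e y * zN π e y') (zN π e (y + y')) := by
    intro y y'
    obtain ⟨-, -, -, -, -, -, -, -, h1, -⟩ := hZA n m k π p e r f hNF y
    exact h1 y'
  have hpow : ∀ (y : Fin (m + 1) → ZMod 3) (a : ℕ), ZI.R (zN π e y ^ a)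
      (zN π e ((a : ZMod 3) • y)) := by
    intro y a
    induction a with
    | zero =>
      rw [pow_zero, Nat.cast_zero, zero_smul, ZI.zN_zero]
      exact ZI.R_refl 1
    | succ a ih =>
      rw [pow_succ, Nat.cast_add, Nat.cast_one, add_smul, one_smul]
      exact ZI.R_trans (ZI.R_mul ih (ZI.R_refl _)) (hadd _ _)
  have hprod : ∀ S : Finset (Fin s), ZI.R (∏ i ∈ S, zN π e (Y i) ^ c i)
      (zN π e (∑ i ∈ S, (c i : ZMod 3) • Y i)) := by
    intro S
    induction S using Finset.induction_on with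
    | empty =>
      rw [Finset.prod_empty, Finset.sum_empty, ZI.zN_zero]
      exact ZI.R_refl 1
    | insert a S ha ih =>
      rw [Finset.prod_insert ha, Finset.sum_insert ha]
      exact ZI.R_trans (ZI.R_mul (hpow _ _) ih) (hadd _ _)
  obtain ⟨t, ht⟩ := ht
  have h1 := hprod Finset.univ
  rw [← ht] at h1
  obtain ⟨-, -, -, -, -, -, -, -, -, h2⟩ := hZA n m k π p e r f hNF (∑ i, (c i : ZMod 3) • Y i)
  exact h2 (ZI.cube_of h1)

end Pool.Agent.PTK


end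

section

/-!
# PTK_ZS: the classes of `VS` are in the minus part of the Selmer group
-/

set_option autoImplicit false

namespace Pool.Agent.PTK

open Pool.Agent.Lib_helper18 Pool.Agent.Lib_helper18.Eis Pool.Agent.Lib_helper84.Cub
open Pool.Agent.PT Pool.Agent.PTE Pool.Agent.PT3 Pool.Agent.PTN Pool.Agent.PT.EHYP
open Pool.Agent.PT3.HYPT

open ZAUX in
/-- PTK_ZS. -/
theorem ZS_thm (hSTM : STM) (hSPP : SPP) (hSSL : SSL) (hSCJ : SCJ) (hLCL : LCL)
    (hZA : Stmt_ZA) (hZC : Stmt_ZC) : Stmt_ZS := by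
  classical
  intro h n m k π p e r f w0 c E q hn hh hE hq hq2 hcl hqn y hy
  obtain ⟨hz, ⟨t, hzt⟩, hsupp, hval, hfour⟩ := cls hZA hn y
  obtain ⟨hZ1, hZ2⟩ := hZC h n m k π p e r f w0 c hn hh y hy
  obtain ⟨hw, hqs⟩ := hcl
  have hD := dat hSPP hn (h := h) hE hq hq2 hqn
  have hq3 : ¬ 3 ∣ q := by omega
  have hqI := inert hSPP hq hq2
  have hn0 := HYPS.n_ne0 hn
  obtain ⟨hlv, hlw⟩ := lvw hLCL hn (h := h) hq hq3 hw
  have hi : ∀ i, Prime (π i).1 := fun i => (π i).2.1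
  have h3 : ∀ i, ¬ (π i).1 ∣ 3 := fun i => (hSPP.2.2.2.1 (π i)).1
  have hB0 := int_ne hD.ne
  have : Fact (Nat.Prime 3) := ⟨Nat.prime_three⟩
  have hqi : ∀ i, ¬ (π i).1 ∣ (q : Eis) := fun i h5 =>
    not_assoc_nat hn i q ((hi i).associated_of_dvd hqI.1 h5)
  have hcB : ∀ i, ch (π i).1 ((BB h n E q : ℤ) : Eis) =
      ch (π i).1 ((3 ^ h * n : ℕ) : Eis) + c i := fun i => by
    have h1 : ((3 ^ h * n : ℕ) : Eis) = 3 ^ h * (n : Eis) := by push_cast; rfl
    have h2 := (add3_ch (hi i) (h3 i)).pow hqI.1.ne_zero E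
    rw [BB_cast, h1, ch_mul (hi i) (h3 i) (mul_ne_zero (pow_ne_zero _ three_ne) hn0)
      (pow_ne_zero _ hqI.1.ne_zero), h2, ch_of_not_dvd (hi i) (hqi i), hqs i]
  -- the place `q`
  obtain ⟨ρ, hρ⟩ := hSPP.2.2.2.2.1 q hq hq2
  -- the symbol at `π i`
  have hpi : ∀ i, tm (π i).1 (zN π e y) ((BB h n E q : ℤ) : Eis) = 0 := by
    intro i
    unfold tm
    rw [hD.vB i, hcB i, hZ1 i, hval i]
    ring
  have hcj : ∀ i (κ : PP), κ.1 = conj (π i).1 →
      tm κ.1 (zN π e y) ((BB h n E q : ℤ) : Eis) = 0 := by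
    intro i κ hκ
    rw [tm_conj_int hSTM hSPP hSCJ hκ hz hzt hD.ne, hpi i]
  -- the symbol at the other places except `q`
  have hoth : ∀ σ : PP, σ ≠ ρ → tm σ.1 (zN π e y) ((BB h n E q : ℤ) : Eis) = 0 := by
    intro σ hσρ
    by_cases hπ : ∃ i, σ = π i ∨ σ.1 = conj (π i).1
    · obtain ⟨i, rfl | h4⟩ := hπ
      · exact hpi i
      · exact hcj i σ h4
    · have hσz : ¬ σ.1 ∣ zN π e y := fun h4 => hπ (hsupp σ h4)
      by_cases hσB : σ.1 ∣ ((BB h n E q : ℤ) : Eis)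
      · rcases (dvd_iff hSPP hE σ).1 hσB with h5 | h5
        · rcases HYPS.cls hSPP hn σ.2.1 h5 with ⟨i, h6 | h6⟩ | ⟨j, h6⟩
          · exact absurd ⟨i, Or.inl (hSPP.2.1 _ _ h6)⟩ hπ
          · exfalso
            apply hπ
            obtain ⟨κ, hκ⟩ := (hSPP.2.2.2.1 (π i)).2
            refine ⟨i, Or.inr ?_⟩
            rw [← hκ] at h6 ⊢
            rw [hSPP.2.1 _ _ h6]
          · obtain ⟨ρj, hρj⟩ := hSPP.2.2.2.2.1 (r j) (hn.rp j) (hn.r2 j)
            have h7 : σ = ρj := hSPP.2.1 _ _ (by rw [hρj]; exact h6)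
            have h8 := hZ2 j σ (by rw [h7, hρj])
            unfold tm
            rw [h8, V_eq_zero hσz]
            simp
        · exfalso
          apply hσρ
          rw [← hρ] at h5
          exact hSPP.2.1 _ _ (σ.2.1.associated_of_dvd ρ.2.1 h5)
      · exact DCONST.tm_zero hσz hσB
  -- the symbol at `lam` with `3`
  have hρ1 : ∀ i, ρ ≠ π i := by
    rintro i rfl
    exact not_assoc_nat hn i q (by rw [hρ])
  have hρ2 : ∀ i, ρ.1 ≠ conj (π i).1 := by
    intro i h4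
    apply not_assoc_nat hn i q
    have h5 := congrArg conj h4
    rw [conj_conj, hρ, conj_natCast] at h5
    rw [h5]
  have hsl3 : sl (zN π e y) 3 = - ∑ i, y i.succ * ((e i : ZMod 3) * sym (π i).1 3) := by
    have h2 := prodz hSTM hSPP hSCJ hn ∅ (by simp) hz hzt hsupp (x := 3) (by norm_num) (by
      intro σ hσ
      exfalso
      push_cast at hσ
      exact (hSPP.2.2.2.1 σ).1 hσ)
    rw [Finset.sum_empty, sub_zero] at h2
    push_cast at h2
    rw [h2, ← Finset.sum_neg_distrib]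
    refine Finset.sum_congr rfl fun i _ => ?_
    unfold tm
    rw [V_eq_zero (h3 i), ch_of_not_dvd (hi i) (h3 i), hval i]
    push_cast
    ring
  have hsl4 : sl (zN π e y) 4 = - y 0 := by rw [← hfour, neg_neg]
  have hcol0 : h ≠ 0 → y 0 * (wt ((n : ℤ) ^ 2) + w0) +
      ∑ i, y i.succ * ((e i : ZMod 3) * sym (π i).1 3) = 0 := by
    intro h0
    have h1 := hy.2 (Sum.inl 0) (fun h4 => absurd h4 h0)
    rw [← h1]
    simp [Matrix.vecMul, dotProduct, PTN.Nm, Fin.sum_univ_succ]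
  have hact : ¬ actR h n w0 → y 0 = 0 := hy.1
  have hslB : sl (zN π e y) ((BB h n E q : ℤ) : Eis) = 0 := by
    rw [sl_int hSSL hLCL hz _ hD.ne, hlv, hlw, hsl3, hsl4]
    obtain rfl | rfl | rfl : h = 0 ∨ h = 1 ∨ h = 2 := by omega
    · by_cases h4 : wt ((n : ℤ) ^ 2) + w0 = 0
      · rw [h4]
        simp
      · have h5 : y 0 = 0 := hact (by
          rintro (h6 | h6)
          · omega
          · exact h4 h6.2)
        rw [h5]
        simp
    · have h5 : y 0 = 0 := hact (by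
        rintro (h6 | h6)
        · omega
        · omega)
      have h6 := hcol0 (by omega)
      rw [h5, zero_mul, zero_add] at h6
      rw [h5, h6]
      simp
    · have h6 := hcol0 (by omega)
      have h7 := three_zero (∑ i, y i.succ * ((e i : ZMod 3) * sym (π i).1 3))
      push_cast
      linear_combination h6 - h7
  have hρB : tm ρ.1 (zN π e y) ((BB h n E q : ℤ) : Eis) = 0 := by
    have h4 : sl (zN π e y) ((BB h n E q : ℤ) : Eis) =
        - tm ρ.1 (zN π e y) ((BB h n E q : ℤ) : Eis) := by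
      unfold sl
      rw [finsum_eq_single _ ρ fun σ hσ => hoth σ hσ]
    rw [hslB] at h4
    exact neg_eq_zero.1 h4.symm
  have hall : ∀ σ : PP, tm σ.1 (zN π e y) ((BB h n E q : ℤ) : Eis) = 0 := by
    intro σ
    by_cases h4 : σ = ρ
    · rw [h4]
      exact hρB
    · exact hoth σ h4
  refine ⟨hz, ⟨t, hzt⟩, hall, ?_, ?_⟩
  · intro σ hσB
    have hσz : ¬ σ.1 ∣ zN π e y := by
      intro h4
      apply hσB
      obtain ⟨i, h5⟩ := hsupp σ h4
      have hVB : (π i).1 ∣ ((BB h n E q : ℤ) : Eis) := by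
        by_contra h6
        have h7 := hD.vB i
        rw [V_eq_zero h6] at h7
        have := hD.e12 i
        omega
      rcases h5 with rfl | h5
      · exact hVB
      · rw [h5]
        have h6 := conj_dvd hVB
        rwa [conj_intCast] at h6
    rw [V_eq_zero hσz]
    exact dvd_zero 3
  · intro hlv1
    rw [hlv] at hlv1
    have h1 : h = 1 := by
      obtain rfl | rfl | rfl : h = 0 ∨ h = 1 ∨ h = 2 := by omega
      · exact absurd hlv1 (by decide)
      · rfl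
      · exact absurd hlv1 (by decide)
    subst h1
    have h5 : y 0 = 0 := hact (by
      rintro (h6 | h6)
      · omega
      · omega)
    have h6 := hcol0 (by omega)
    rw [h5, zero_mul, zero_add] at h6
    exact ⟨by rw [hsl3, h6, neg_zero], by rw [hsl4, h5, neg_zero]⟩

end Pool.Agent.PTK


end

section

/-!
# PTK_ZSU: the classes of `VS` are in the minus part of the Selmer group, `q = 1 (mod 3)`
-/

set_option autoImplicit false

namespace Pool.Agent.PTK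

open Pool.Agent.Lib_helper18 Pool.Agent.Lib_helper18.Eis Pool.Agent.Lib_helper84.Cub
open Pool.Agent.PT Pool.Agent.PTE Pool.Agent.PT3 Pool.Agent.PTN Pool.Agent.PT.EHYP
open Pool.Agent.PT3.HYPT

open ZAUX in
/-- PTK_ZSU. -/
theorem ZSU_thm (hSTM : STM) (hSPP : SPP) (hSSL : SSL) (hSCJ : SCJ) (hLCL : LCL)
    (hZA : Stmt_ZA) (hZC : Stmt_ZC) : Stmt_ZSU := by
  classical
  intro h n m k π p e r f w0 c E q hn hh hE hq hq1 hcl hqn y hy
  obtain ⟨hz, ⟨t, hzt⟩, hsupp, hval, hfour⟩ := cls hZA hn y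
  obtain ⟨hZ1, hZ2⟩ := hZC h n m k π p e r f w0 c hn hh y hy
  -- the place `q`
  obtain ⟨ρ, hρ⟩ := ENF.exists_pi hSPP hq hq1
  obtain ⟨κρ, hκρ⟩ := (hSPP.2.2.2.1 ρ).2
  have hD := NPSU.dat hSPP hLCL hn (h := h) hE hq hq1 hcl hqn hρ
  have h' := HYPU.ext hn hE ρ hq hq1 hqn hρ
  have hlv := hD.bv
  have hlw := hD.bw
  have hi : ∀ i, Prime (π i).1 := fun i => (π i).2.1
  have h3 : ∀ i, ¬ (π i).1 ∣ 3 := fun i => (hSPP.2.2.2.1 (π i)).1
  have hB0 := int_ne hD.ne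
  have : Fact (Nat.Prime 3) := ⟨Nat.prime_three⟩
  have hρκ : ρ ≠ κρ := by
    intro h4
    have h6 := not_assoc h' 0 0
    simp only [Fin.cons_zero] at h6
    apply h6
    rw [← hκρ, ← h4]
  -- the symbol at `π i`
  have hpi : ∀ i, tm (π i).1 (zN π e y) ((BB h n E q : ℤ) : Eis) = 0 := by
    intro i
    unfold tm
    rw [hD.vi i, hD.ci i, hZ1 i, hval i]
    ring
  have hcj : ∀ i (κ : PP), κ.1 = conj (π i).1 →
      tm κ.1 (zN π e y) ((BB h n E q : ℤ) : Eis) = 0 := by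
    intro i κ hκ
    rw [tm_conj_int hSTM hSPP hSCJ hκ hz hzt hD.ne, hpi i]
  -- the symbol at the other places except `q`
  have hoth : ∀ σ : PP, σ ≠ ρ → σ ≠ κρ → tm σ.1 (zN π e y) ((BB h n E q : ℤ) : Eis) = 0 := by
    intro σ hσρ hσκ
    by_cases hπ : ∃ i, σ = π i ∨ σ.1 = conj (π i).1
    · obtain ⟨i, rfl | h4⟩ := hπ
      · exact hpi i
      · exact hcj i σ h4
    · have hσz : ¬ σ.1 ∣ zN π e y := fun h4 => hπ (hsupp σ h4)
      by_cases hσB : σ.1 ∣ ((BB h n E q : ℤ) : Eis)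
      · rcases (dvd_iff hSPP hE σ).1 hσB with h5 | h5
        · rcases HYPS.cls hSPP hn σ.2.1 h5 with ⟨i, h6 | h6⟩ | ⟨j, h6⟩
          · exact absurd ⟨i, Or.inl (hSPP.2.1 _ _ h6)⟩ hπ
          · exfalso
            apply hπ
            obtain ⟨κ, hκ⟩ := (hSPP.2.2.2.1 (π i)).2
            refine ⟨i, Or.inr ?_⟩
            rw [← hκ] at h6 ⊢
            rw [hSPP.2.1 _ _ h6]
          · obtain ⟨ρj, hρj⟩ := hSPP.2.2.2.2.1 (r j) (hn.rp j) (hn.r2 j)
            have h7 : σ = ρj := hSPP.2.1 _ _ (by rw [hρj]; exact h6)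
            have h8 := hZ2 j σ (by rw [h7, hρj])
            unfold tm
            rw [h8, V_eq_zero hσz]
            simp
        · exfalso
          rw [hρ] at h5
          rcases σ.2.1.dvd_or_dvd h5 with h5 | h5
          · exact hσρ (hSPP.2.1 _ _ (σ.2.1.associated_of_dvd ρ.2.1 h5))
          · apply hσκ
            rw [← hκρ] at h5
            exact hSPP.2.1 _ _ (σ.2.1.associated_of_dvd κρ.2.1 h5)
      · exact DCONST.tm_zero hσz hσB
  -- the symbol at `lam` with `3`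
  have hsl3 : sl (zN π e y) 3 = - ∑ i, y i.succ * ((e i : ZMod 3) * sym (π i).1 3) := by
    have h2 := prodz hSTM hSPP hSCJ hn ∅ (by simp) hz hzt hsupp (x := 3) (by norm_num) (by
      intro σ hσ
      exfalso
      push_cast at hσ
      exact (hSPP.2.2.2.1 σ).1 hσ)
    rw [Finset.sum_empty, sub_zero] at h2
    push_cast at h2
    rw [h2, ← Finset.sum_neg_distrib]
    refine Finset.sum_congr rfl fun i _ => ?_
    unfold tm
    rw [V_eq_zero (h3 i), ch_of_not_dvd (hi i) (h3 i), hval i]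
    push_cast
    ring
  have hsl4 : sl (zN π e y) 4 = - y 0 := by rw [← hfour, neg_neg]
  have hcol0 : h ≠ 0 → y 0 * (wt ((n : ℤ) ^ 2) + w0) +
      ∑ i, y i.succ * ((e i : ZMod 3) * sym (π i).1 3) = 0 := by
    intro h0
    have h1 := hy.2 (Sum.inl 0) (fun h4 => absurd h4 h0)
    rw [← h1]
    simp [Matrix.vecMul, dotProduct, PTN.Nm, Fin.sum_univ_succ]
  have hact : ¬ actR h n w0 → y 0 = 0 := hy.1
  have hslB : sl (zN π e y) ((BB h n E q : ℤ) : Eis) = 0 := by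
    rw [sl_int hSSL hLCL hz _ hD.ne, hlv, hlw, hsl3, hsl4]
    obtain rfl | rfl | rfl : h = 0 ∨ h = 1 ∨ h = 2 := by omega
    · by_cases h4 : wt ((n : ℤ) ^ 2) + w0 = 0
      · rw [h4]
        simp
      · have h5 : y 0 = 0 := hact (by
          rintro (h6 | h6)
          · omega
          · exact h4 h6.2)
        rw [h5]
        simp
    · have h5 : y 0 = 0 := hact (by
        rintro (h6 | h6)
        · omega
        · omega)
      have h6 := hcol0 (by omega)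
      rw [h5, zero_mul, zero_add] at h6
      rw [h5, h6]
      simp
    · have h6 := hcol0 (by omega)
      have h7 := three_zero (∑ i, y i.succ * ((e i : ZMod 3) * sym (π i).1 3))
      push_cast
      linear_combination h6 - h7
  have hκB : tm κρ.1 (zN π e y) ((BB h n E q : ℤ) : Eis) =
      tm ρ.1 (zN π e y) ((BB h n E q : ℤ) : Eis) :=
    tm_conj_int hSTM hSPP hSCJ hκρ hz hzt hD.ne
  have hρB : tm ρ.1 (zN π e y) ((BB h n E q : ℤ) : Eis) = 0 := by
    have h4 : sl (zN π e y) ((BB h n E q : ℤ) : Eis) =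
        - (tm ρ.1 (zN π e y) ((BB h n E q : ℤ) : Eis) +
          tm κρ.1 (zN π e y) ((BB h n E q : ℤ) : Eis)) := by
      unfold sl
      have hsup : Function.support (fun σ : PP => tm σ.1 (zN π e y) ((BB h n E q : ℤ) : Eis)) ⊆
          (({ρ, κρ} : Finset PP) : Set PP) := by
        intro σ hσ
        by_contra hnm
        apply hσ
        rw [Finset.mem_coe, Finset.mem_insert, Finset.mem_singleton, not_or] at hnm
        exact hoth σ hnm.1 hnm.2
      rw [finsum_eq_sum_of_support_subset _ hsup, Finset.sum_pair hρκ]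
    rw [hslB, hκB] at h4
    have h5 := three_zero (tm ρ.1 (zN π e y) ((BB h n E q : ℤ) : Eis))
    linear_combination h5 - h4
  have hall : ∀ σ : PP, tm σ.1 (zN π e y) ((BB h n E q : ℤ) : Eis) = 0 := by
    intro σ
    by_cases h4 : σ = ρ
    · rw [h4]
      exact hρB
    · by_cases h5 : σ = κρ
      · rw [h5, hκB]
        exact hρB
      · exact hoth σ h4 h5
  refine ⟨hz, ⟨t, hzt⟩, hall, ?_, ?_⟩
  · intro σ hσB
    have hσz : ¬ σ.1 ∣ zN π e y := by
      intro h4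
      apply hσB
      obtain ⟨i, h5⟩ := hsupp σ h4
      have hVB : (π i).1 ∣ ((BB h n E q : ℤ) : Eis) := by
        by_contra h6
        have h7 := hD.vi i
        rw [V_eq_zero h6] at h7
        have := hn.pe i
        omega
      rcases h5 with rfl | h5
      · exact hVB
      · rw [h5]
        have h6 := conj_dvd hVB
        rwa [conj_intCast] at h6
    rw [V_eq_zero hσz]
    exact dvd_zero 3
  · intro hlv1
    rw [hlv] at hlv1
    have h1 : h = 1 := by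
      obtain rfl | rfl | rfl : h = 0 ∨ h = 1 ∨ h = 2 := by omega
      · exact absurd hlv1 (by decide)
      · rfl
      · exact absurd hlv1 (by decide)
    subst h1
    have h5 : y 0 = 0 := hact (by
      rintro (h6 | h6)
      · omega
      · omega)
    have h6 := hcol0 (by omega)
    rw [h5, zero_mul, zero_add] at h6
    exact ⟨by rw [hsl3, h6, neg_zero], by rw [hsl4, h5, neg_zero]⟩

end Pool.Agent.PTK


end

section

/-!
# PTK_ZT: the symbols of two classes of `VS`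
-/

set_option autoImplicit false

namespace Pool.Agent.PTK

open Pool.Agent.Lib_helper18 Pool.Agent.Lib_helper18.Eis Pool.Agent.Lib_helper84.Cub
open Pool.Agent.PT Pool.Agent.PTE Pool.Agent.PT3 Pool.Agent.PTN Pool.Agent.PT.EHYP
open Pool.Agent.PT3.HYPT

open ZAUX in
/-- PTK_ZT. -/
theorem ZT_thm (hSTM : STM) (hSPP : SPP) (hSCJ : SCJ) (hLCI : Stmt_LCI)
    (hZA : Stmt_ZA) (hZC : Stmt_ZC) : Stmt_ZT := by
  classical
  intro h n m k π p e r f w0 c hn hh y hy y' hy'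
  obtain ⟨hz, ⟨t, hzt⟩, hsupp, hval, -⟩ := cls hZA hn y
  obtain ⟨hz', ⟨t', hzt'⟩, hsupp', hval', -⟩ := cls hZA hn y'
  obtain ⟨hZ1, -⟩ := hZC h n m k π p e r f w0 c hn hh y hy
  obtain ⟨hZ1', -⟩ := hZC h n m k π p e r f w0 c hn hh y' hy'
  have hpi : ∀ i, tm (π i).1 (zN π e y) (zN π e y') = 0 := by
    intro i
    unfold tm
    rw [hval i, hval' i, hZ1 i, hZ1' i]
    ring
  constructor
  · intro σ
    by_cases hπ : ∃ i, σ = π i ∨ σ.1 = conj (π i).1
    · obtain ⟨i, rfl | h4⟩ := hπ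
      · exact hpi i
      · rw [tm_conj_two hSTM hSPP hSCJ h4 hz hzt hz' hzt', hpi i, neg_zero]
    · exact DCONST.tm_zero (fun h4 => hπ (hsupp σ h4)) fun h4 => hπ (hsupp' σ h4)
  · intro σ hσ' hσ
    obtain ⟨-, -, -, -, -, h6, -, -, -, -⟩ := hZA n m k π p e r f hn y'
    obtain ⟨-, -, -, -, -, -, h7, -, -, -⟩ := hZA n m k π p e r f hn y
    obtain ⟨i, -, hi⟩ := h6 σ hσ'
    by_cases hyi : y i.succ = 0
    · exfalso
      apply hσ
      have hV0 : 3 ∣ V (π i).1 (zN π e y) := by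
        rw [← ZMod.natCast_eq_zero_iff, hval i, hyi, mul_zero]
      have hc0 : ch (π i).1 (zN π e y) = 0 := by rw [hZ1 i, hyi, zero_mul]
      rcases hi with rfl | hi
      · exact (hLCI.1 (π i) _ hz).2 ⟨hV0, hc0⟩
      · have hp0 : (p i : ℤ) ≠ 0 := by exact_mod_cast (hn.pp i).ne_zero
        have hV1 : 3 ∣ V σ.1 (zN π e y) := by
          have h8 := V_add_conj (π i).2.1 hz hzt
          rw [hi]
          omega
        refine (hLCI.1 σ _ hz).2 ⟨hV1, ?_⟩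
        have h9 := tm_conj_int hSTM hSPP hSCJ hi hz hzt hp0
        have hcj : ¬ (π i).1 ∣ conj (π i).1 := fun h5 =>
          not_assoc hn i i ((π i).2.1.associated_of_dvd (prime_conj (π i).2.1) h5)
        have hVp : V (π i).1 (p i : Eis) = 1 := by
          rw [hn.pπ i, V_mul (π i).2.1 (π i).2.1.ne_zero (prime_conj (π i).2.1).ne_zero, V_self,
            V_eq_zero hcj]
        have hVσ : V σ.1 (p i : Eis) = 1 := by
          have h10 := V_conj (a := (p i : Eis)) (π i).2.1 (by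
            rw [hn.pπ i]
            exact mul_ne_zero (π i).2.1.ne_zero (prime_conj (π i).2.1).ne_zero)
          rw [conj_natCast, ← hi, hVp] at h10
          exact h10
        rw [Int.cast_natCast] at h9
        unfold tm at h9
        rw [hVp, hVσ, hc0, (ZMod.natCast_eq_zero_iff _ 3).2 hV0,
          (ZMod.natCast_eq_zero_iff _ 3).2 hV1] at h9
        simpa using h9
    · obtain ⟨g1, g2⟩ := h7 i hyi
      rcases hi with rfl | hi
      · exact g1
      · rw [hi]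
        exact g2

end Pool.Agent.PTK


end
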