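import Mathlib
import Pool.Agent.PTDM.C22
import Pool.Agent.PTDM.C23
import Pool.Agent.PTKW.C01

/-! Parts: PTKX.DPA, PTKX.DCK, PTKX.DP4, PTKX.DP1, PTKX.DP2, PTKX.DP3, PTKX.GCK, PTKX.NHO -/

section

/-!
# The average rank of prime twists: tools for the local terms (`DP1` to `DP4`)

The lemmas of `PT/DCONST.lean` and `PTL/DC.lean` with `Eis` in place of `ℤ`.
-/

set_option autoImplicit false

namespace Pool.Agent.PTK

open Pool.Agent.Lib_helper18 Pool.Agent.Lib_helper18.Eis Pool.Agent.Lib_helper84.Cub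
open Pool.Agent.PT

namespace DPA

open DCONST

lemma w_pow3 (i : ℕ) : (w ^ i) ^ 3 = 1 := by
  rw [← pow_mul, mul_comm, pow_mul, w_cube, one_pow]

lemma LfE_mul (p q r : Eis) (i : ℕ) :
    LfE p q i r * (p ^ 2 - p * (q * w ^ i * r) + (q * w ^ i * r) ^ 2) =
      p ^ 3 + q ^ 3 * r ^ 3 := by
  have h2 := w_pow3 i
  unfold LfE
  linear_combination (q ^ 3 * r ^ 3) * h2

/-- The linear forms at good approximations have bounded valuation. -/
lemma LfE_ndvd {u b p q r : Eis} (hr : u ∣ r ^ 3 - b) (h : ¬ u ∣ p ^ 3 + b * q ^ 3) (i : ℕ) :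
    ¬ u ∣ LfE p q i r := by
  intro hd
  apply h
  have h1 : p ^ 3 + b * q ^ 3 =
      LfE p q i r * (p ^ 2 - p * (q * w ^ i * r) + (q * w ^ i * r) ^ 2) -
        q ^ 3 * (r ^ 3 - b) := by
    rw [LfE_mul]
    ring
  rw [h1]
  exact dvd_sub (dvd_mul_of_dvd_left hd _) (dvd_mul_of_dvd_right hr _)

lemma LfE_cont {u : Eis} {s : Eis → Eis → ZMod 3} {e : ℕ} (h : LSym u s e) {b p q r r' : Eis}
    {K : ℕ} (hn : ¬ u ^ (K + 1) ∣ p ^ 3 + b * q ^ 3)
    (hr : u ^ (K + 1) ∣ r ^ 3 - b) (hr' : u ^ (K + 1) ∣ r' ^ 3 - b)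
    (hrr : u ^ (K + e) ∣ r' - r) {B : Eis} (hB : B ≠ 0) (i : ℕ) :
    s B (LfE p q i r') = s B (LfE p q i r) := by
  have h1 := LfE_ndvd hr hn i
  have h2 := LfE_ndvd hr' hn i
  refine LSym.cont' h hB (ne_of_ndvd h1) (ne_of_ndvd h2) ?_
  have h3 : LfE p q i r' - LfE p q i r = (q * w ^ i) * (r' - r) := by
    unfold LfE
    ring
  rw [h3]
  refine dvd_mul_of_dvd_right ((pow_dvd_pow u ?_).trans hrr) _
  have := V_le_of_ndvd h.prime h1
  omega

/-- a fixed good approximation of a cube root -/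
lemma exists_root {u : Eis} {s : Eis → Eis → ZMod 3} {e : ℕ} (h : LSym u s e)
    {b p q p' q' : Eis} (hn : p ^ 3 + b * q ^ 3 ≠ 0) (hn' : p' ^ 3 + b * q' ^ 3 ≠ 0)
    (hLC : LCE u b) : ∃ r : Eis, (∀ i, LfE p q i r ≠ 0) ∧ (∀ i, LfE p' q' i r ≠ 0) ∧
      ∀ (B : Eis) (c : ZMod 3) (N0 : ℕ), B ≠ 0 → (∀ r : Eis, u ^ N0 ∣ r ^ 3 - b →
        ASE s B p q p' q' r = c) → ASE s B p q p' q' r = c := by
  have hu := h.prime
  set K := V u (p ^ 3 + b * q ^ 3) + V u (p' ^ 3 + b * q' ^ 3) with hK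
  have k1 : ¬ u ^ (K + 1) ∣ p ^ 3 + b * q ^ 3 :=
    ndvd_pow hu hn (Nat.le_add_right _ _)
  have k2 : ¬ u ^ (K + 1) ∣ p' ^ 3 + b * q' ^ 3 :=
    ndvd_pow hu hn' (Nat.le_add_left _ _)
  choose ρ hρ using hLC
  have hNu : 1 < N u := N_prime hu
  set m := (N u) ^ (K + e) with hm
  have hm0 : m ≠ 0 := pow_ne_zero _ (by omega)
  have : NeZero m := ⟨hm0⟩
  have hum : u ^ (K + e) ∣ ((m : ℤ) : Eis) := by
    have h1 : u ∣ ((N u : ℤ) : Eis) := by
      rw [N_cast, ← mul_conj]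
      exact Dvd.intro _ rfl
    have h2 := pow_dvd_pow_of_dvd h1 (K + e)
    rw [hm]
    push_cast
    push_cast at h2
    exact h2
  obtain ⟨y, hy⟩ := Finite.exists_infinite_fiber
    (fun N : ℕ => (((ρ N).re : ZMod m), ((ρ N).im : ZMod m)))
  have hinf : ((fun N : ℕ => (((ρ N).re : ZMod m), ((ρ N).im : ZMod m))) ⁻¹' {y}).Infinite :=
    Set.infinite_coe_iff.1 hy
  obtain ⟨N1, hN1, hN1'⟩ := hinf.exists_gt K
  have lev : ∀ N, K < N → u ^ (K + 1) ∣ (ρ N) ^ 3 - b :=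
    fun N hN => (pow_dvd_pow u hN).trans (hρ N)
  refine ⟨ρ N1, fun i => ne_of_ndvd (LfE_ndvd (lev N1 hN1') k1 i),
    fun i => ne_of_ndvd (LfE_ndvd (lev N1 hN1') k2 i), ?_⟩
  intro B c N0 hB hc
  obtain ⟨N2, hN2, hN2'⟩ := hinf.exists_gt (max K N0)
  have h2 := hc (ρ N2) ((pow_dvd_pow u ((le_max_right K N0).trans hN2'.le)).trans (hρ N2))
  have hrr : u ^ (K + e) ∣ ρ N1 - ρ N2 := by
    have h3 : (((ρ N2).re : ZMod m), ((ρ N2).im : ZMod m)) =
        (((ρ N1).re : ZMod m), ((ρ N1).im : ZMod m)) := by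
      rw [Set.mem_preimage, Set.mem_singleton_iff] at hN1 hN2
      rw [hN1, hN2]
    rw [Prod.mk.injEq] at h3
    have h4 : (m : ℤ) ∣ (ρ N1).re - (ρ N2).re := (ZMod.intCast_eq_intCast_iff_dvd_sub _ _ _).1 h3.1
    have h5 : (m : ℤ) ∣ (ρ N1).im - (ρ N2).im := (ZMod.intCast_eq_intCast_iff_dvd_sub _ _ _).1 h3.2
    have h6 : ((m : ℤ) : Eis) ∣ ρ N1 - ρ N2 := intCast_dvd_iff.2 ⟨by simpa using h4, by simpa using h5⟩
    exact hum.trans h6
  have l2 := lev N2 ((le_max_left K N0).trans_lt hN2')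
  have l1 := lev N1 hN1'
  rw [← h2]
  unfold ASE
  rw [LfE_cont h k1 l2 l1 hrr hB 2, LfE_cont h k2 l2 l1 hrr hB 1, LfE_cont h k1 l2 l1 hrr hB 1,
    LfE_cont h k2 l2 l1 hrr hB 2]

lemma ASE_mul {u : Eis} {s : Eis → Eis → ZMod 3} {e : ℕ} (h : LSym u s e) {p q p' q' r : Eis}
    (hr : ∀ i, LfE p q i r ≠ 0) (hr' : ∀ i, LfE p' q' i r ≠ 0) {A B : Eis} (hA : A ≠ 0)
    (hB : B ≠ 0) : ASE s (A * B) p q p' q' r = ASE s A p q p' q' r + ASE s B p q p' q' r := by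
  unfold ASE
  rw [h.mul A B _ hA hB (hr 2), h.mul A B _ hA hB (hr' 1), h.mul A B _ hA hB (hr 1),
    h.mul A B _ hA hB (hr' 2)]
  ring

lemma ASE_pow {u : Eis} {s : Eis → Eis → ZMod 3} {e : ℕ} (h : LSym u s e) {p q p' q' r : Eis}
    (hr : ∀ i, LfE p q i r ≠ 0) (hr' : ∀ i, LfE p' q' i r ≠ 0) {B : Eis}
    (hB : B ≠ 0) (E : ℕ) : ASE s (B ^ E) p q p' q' r = E * ASE s B p q p' q' r := by
  induction E with
  | zero =>
    have h1 := ASE_mul h hr hr' (A := 1) (B := 1) one_ne_zero one_ne_zero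
    rw [mul_one] at h1
    rw [pow_zero, Nat.cast_zero, zero_mul]
    exact left_eq_add.1 h1
  | succ E ih =>
    rw [pow_succ, ASE_mul h hr hr' (pow_ne_zero _ hB) hB, ih]
    push_cast
    ring

lemma ASE_cont {u : Eis} {s : Eis → Eis → ZMod 3} {e : ℕ} (h : LSym u s e) {p q p' q' r : Eis}
    (hr : ∀ i, LfE p q i r ≠ 0) (hr' : ∀ i, LfE p' q' i r ≠ 0) {A B : Eis} (hA : A ≠ 0)
    (hd : u ^ (V u A + e) ∣ B - A) : ASE s B p q p' q' r = ASE s A p q p' q' r := by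
  unfold ASE
  rw [h.cont _ _ _ hA (hr 2) hd, h.cont _ _ _ hA (hr' 1) hd,
    h.cont _ _ _ hA (hr 1) hd, h.cont _ _ _ hA (hr' 2) hd]

/-- powers in the first variable -/
lemma s_pow {u : Eis} {s : Eis → Eis → ZMod 3} {e : ℕ} (h : LSym u s e) {a B : Eis}
    (ha : a ≠ 0) (hB : B ≠ 0) (E : ℕ) : s (B ^ E) a = E * s B a := by
  induction E with
  | zero =>
    have h1 := h.mul 1 1 a one_ne_zero one_ne_zero ha
    rw [mul_one] at h1
    rw [pow_zero, Nat.cast_zero, zero_mul]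
    exact left_eq_add.1 h1
  | succ E ih =>
    rw [pow_succ, h.mul _ _ a (pow_ne_zero _ hB) hB ha, ih]
    push_cast
    ring

lemma three_zero (a : ZMod 3) : 3 * a = 0 := by
  have h : (3 : ZMod 3) = 0 := rfl
  rw [h, zero_mul]

lemma s_cube {u : Eis} {s : Eis → Eis → ZMod 3} {e : ℕ} (h : LSym u s e) {a c : Eis}
    (ha : a ≠ 0) (hc : c ≠ 0) : s (c ^ 3) a = 0 := by
  rw [s_pow h ha hc 3]
  exact three_zero _

/-- the symbol does not see cubes and the relation `x n = B c³` -/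
lemma s_rel {u : Eis} {s : Eis → Eis → ZMod 3} {e : ℕ} (h : LSym u s e) {x n B c a : Eis}
    (hx : x ≠ 0) (hn : n ≠ 0) (hB : B ≠ 0) (hc : c ≠ 0) (ha : a ≠ 0)
    (hE : x * n = B * c ^ 3) : s x a + s n a = s B a := by
  rw [← h.mul x n a hx hn ha, hE, h.mul B (c ^ 3) a hB (pow_ne_zero _ hc) ha, s_cube h ha hc,
    add_zero]

lemma ASE_rel {u : Eis} {s : Eis → Eis → ZMod 3} {e : ℕ} (h : LSym u s e) {p q p' q' r : Eis}
    (hr : ∀ i, LfE p q i r ≠ 0) (hr' : ∀ i, LfE p' q' i r ≠ 0) {x n B c : Eis}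
    (hx : x ≠ 0) (hn : n ≠ 0) (hB : B ≠ 0) (hc : c ≠ 0)
    (hE : x * n = B * c ^ 3) :
    ASE s x p q p' q' r + ASE s n p q p' q' r = ASE s B p q p' q' r := by
  unfold ASE
  rw [← s_rel h hx hn hB hc (hr 2) hE, ← s_rel h hx hn hB hc (hr' 1) hE,
    ← s_rel h hx hn hB hc (hr 1) hE, ← s_rel h hx hn hB hc (hr' 2) hE]
  ring

/-- the linear forms do not vanish at good approximations -/
lemma exists_ne {u : Eis} (hu : Prime u) {b p q : Eis} (hn : p ^ 3 + b * q ^ 3 ≠ 0) :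
    ∃ N0 : ℕ, ∀ r : Eis, u ^ N0 ∣ r ^ 3 - b → ∀ i, LfE p q i r ≠ 0 := by
  refine ⟨V u (p ^ 3 + b * q ^ 3) + 1, fun r hr i => ?_⟩
  exact ne_of_ndvd (LfE_ndvd hr (ndvd_pow hu hn le_rfl) i)

/-- numbers prime to `f` -/
lemma V_cop {u : Eis} (hu : Prime u) {f : ℕ} (huf : u ∣ (f : Eis)) {a : ℤ}
    (ha : IsCoprime a (f : ℤ)) : V u (a : Eis) = 0 := by
  apply V_eq_zero
  intro hd
  obtain ⟨x, y, hxy⟩ := ha
  apply hu.not_isUnit
  apply isUnit_of_dvd_one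
  have h1 : (1 : Eis) = (x : Eis) * (a : Eis) + (y : Eis) * (f : Eis) := by
    have h2 := congrArg (fun t : ℤ => (t : Eis)) hxy
    simp only [Int.cast_add, Int.cast_mul, Int.cast_one, Int.cast_natCast] at h2
    exact h2.symm
  rw [h1]
  exact dvd_add (dvd_mul_of_dvd_right hd _) (dvd_mul_of_dvd_right huf _)

lemma ne_cop {f : ℕ} (hf : 1 < f) {a : ℤ} (ha : IsCoprime a (f : ℤ)) : (a : Eis) ≠ 0 := by
  apply DCONST.cast_ne
  rintro rfl
  have h1 := isCoprime_zero_left.1 ha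
  have h2 := Int.isUnit_iff.1 h1
  omega

/-- A function of the first variable `B` which is additive and continuous is, for `B = N Q^E`,
a constant plus `E` times a character of `Q`. -/
lemma exists_char {u : Eis} (hu : Prime u) {e f : ℕ} (he : 1 ≤ e) (hf : 1 < f)
    (huf : u ^ e ∣ (f : Eis)) (R : Eis → ZMod 3)
    (hmul : ∀ A B : Eis, A ≠ 0 → B ≠ 0 → R (A * B) = R A + R B)
    (hcont : ∀ A B : Eis, A ≠ 0 → B ≠ 0 → u ^ (V u A + e) ∣ B - A → R B = R A)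
    {n : Eis} (hn : n ≠ 0) :
    ∃ (C : ZMod 3) (Φ : (ZMod f)ˣ →* Multiplicative (ZMod 3)),
      ∀ (E Q : ℕ) (hQ : Q.Coprime f),
      R (n * (Q : Eis) ^ E) = C + E * (Φ (ZMod.unitOfCoprime Q hQ)).toAdd := by
  have huf1 : u ∣ (f : Eis) := by
    have h1 : u ^ 1 ∣ u ^ e := pow_dvd_pow u he
    rw [pow_one] at h1
    exact h1.trans huf
  have hpow : ∀ (B : Eis), B ≠ 0 → ∀ E : ℕ, R (B ^ E) = E * R B := by
    intro B hB E
    induction E with
    | zero =>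
      have h1 := hmul 1 1 one_ne_zero one_ne_zero
      rw [mul_one] at h1
      rw [pow_zero, Nat.cast_zero, zero_mul]
      exact left_eq_add.1 h1
    | succ E ih =>
      rw [pow_succ, hmul _ _ (pow_ne_zero _ hB) hB, ih]
      push_cast
      ring
  obtain ⟨Φ, hΦ⟩ := exists_hom hf (fun a : ℤ => R (a : Eis)) (by
    intro a c ha hc
    show R ((a * c : ℤ) : Eis) = _
    rw [Int.cast_mul]
    exact hmul _ _ (ne_cop hf ha) (ne_cop hf hc)) (by
    intro a c ha hc hd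
    refine hcont _ _ (ne_cop hf ha) (ne_cop hf hc) ?_
    rw [V_cop hu huf1 ha, zero_add, ← Int.cast_sub]
    have h2 : ((f : ℤ) : Eis) ∣ ((c - a : ℤ) : Eis) := intCast_dvd_intCast.2 hd
    rw [Int.cast_natCast] at h2
    exact huf.trans h2)
  refine ⟨R n, Φ, ?_⟩
  intro E Q hQ
  have hQ0 : ((Q : ℤ) : Eis) ≠ 0 := ne_cop hf (Nat.isCoprime_iff_coprime.2 hQ)
  rw [hΦ, Int.cast_natCast] at *
  rw [hmul _ _ hn (pow_ne_zero _ hQ0), hpow _ hQ0]

/-- places where `b` is a cube -/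
lemma place_LC {u : Eis} {s : Eis → Eis → ZMod 3} {e : ℕ} (h : LSym u s e)
    {b p q p' q' n : Eis} (hn0 : n ≠ 0) (hn : p ^ 3 + b * q ^ 3 ≠ 0)
    (hn' : p' ^ 3 + b * q' ^ 3 ≠ 0) (hLC : LCE u b) {f : ℕ} (hf : 1 < f)
    (huf : u ^ e ∣ (f : Eis)) :
    ∃ (C : ZMod 3) (Φ : (ZMod f)ˣ →* Multiplicative (ZMod 3)),
      ∀ (E Q : ℕ) (hQ : Q.Coprime f) (c : ZMod 3) (N0 : ℕ),
      (∀ r : Eis, u ^ N0 ∣ r ^ 3 - b →
        ASE s (n * (Q : Eis) ^ E) p q p' q' r = c) →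
      c = C + E * (Φ (ZMod.unitOfCoprime Q hQ)).toAdd := by
  obtain ⟨r, hr, hr', H⟩ := exists_root h hn hn' hLC
  obtain ⟨C, Φ, hΦ⟩ := exists_char h.prime h.pos hf huf (fun B => ASE s B p q p' q' r)
    (fun A B hA hB => ASE_mul h hr hr' hA hB) (fun A B hA _ hd => ASE_cont h hr hr' hA hd) hn0
  refine ⟨C, Φ, ?_⟩
  intro E Q hQ c N0 hc
  have hQ0 : (Q : Eis) ≠ 0 := by
    have h1 : ((Q : ℤ) : Eis) ≠ 0 := ne_cop hf (Nat.isCoprime_iff_coprime.2 hQ)
    rwa [Int.cast_natCast] at h1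
  rw [← hΦ E Q hQ]
  exact (H _ c N0 (mul_ne_zero hn0 (pow_ne_zero _ hQ0)) hc).symm

/-- the base and the norm are exchanged -/
lemma SolE_flip {b x p q p' q' : Eis} (h : SolE x b p q p' q') :
    SolE b x p (-p') (-q) q' := by
  refine ⟨⟨?_, ?_⟩, ?_, ?_, ?_⟩
  · linear_combination h.eq
  · intro h0
    apply h.n2
    linear_combination h0
  · intro h0
    apply h.n1
    linear_combination h0
  · intro h0
    apply h.g1
    rw [← h0]
    unfold GfE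
    ring
  · intro h0
    apply h.g2
    rw [← h0]
    unfold GfE
    ring

/-- the second norm -/
lemma SolE_n1' {x b p q p' q' : Eis} (h : SolE x b p q p' q') : p' ^ 3 + x * q' ^ 3 ≠ 0 := by
  intro h0
  apply h.n1
  rw [h.eq, h0, mul_zero]

lemma B_ne {N : ℕ} {b x p q p' q' : Eis} (HD : HypD N b x p q p' q') {E Q : ℕ} {X Y : Eis}
    (HP : HypP N b x p q p' q' E Q X Y) : (N : Eis) * (Q : Eis) ^ E ≠ 0 := by
  have h1 : (N : Eis) ≠ 0 := by
    have h2 : ((N : ℤ) : Eis) ≠ 0 := DCONST.cast_ne (by have := HD.N0; omega)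
    rwa [Int.cast_natCast] at h2
  have h3 : (Q : Eis) ≠ 0 := by
    have h2 : ((Q : ℤ) : Eis) ≠ 0 := DCONST.cast_ne (by have := HP.hQ.pos; omega)
    rwa [Int.cast_natCast] at h2
  exact mul_ne_zero h1 (pow_ne_zero _ h3)

lemma n0_ne {N : ℕ} {b x p q p' q' : Eis} (HD : HypD N b x p q p' q') {E Q : ℕ} {X Y : Eis}
    (HP : HypP N b x p q p' q' E Q X Y) : X ^ 3 + x * Y ^ 3 ≠ 0 := by
  obtain ⟨c, hc, h⟩ := HP.pt.eq
  intro h0
  rw [h0, mul_zero] at h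
  exact mul_ne_zero (B_ne HD HP) (pow_ne_zero _ hc) h.symm

/-- The local term at a tame place where `x` is a local cube. -/
lemma core (hIF4 : Stmt_IF4) (hLCI : Stmt_LCI) {π : PP} (hs : LSym π.1 (tm π.1) 1) {N : ℕ}
    {b x p q p' q' : Eis} (HD : HypD N b x p q p' q') {E Q : ℕ} {X Y : Eis}
    (HP : HypP N b x p q p' q' E Q X Y) (hL : LCE π.1 x) :
    ∃ N0 : ℕ, ∀ ξ : Eis, π.1 ^ N0 ∣ ξ ^ 3 - x →
      (∀ i, LfE X Y i ξ ≠ 0) ∧
      (∀ a : Eis, a ≠ 0 → tm π.1 a (X ^ 3 + x * Y ^ 3) = tm π.1 a ((N : Eis) * (Q : Eis) ^ E)) ∧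
      SVE (tm π.1) x p (-p') (-q) q' X Y =
        ASE (tm π.1) ((N : Eis) * (Q : Eis) ^ E) p q p' q' ξ +
          tm π.1 (LfE X Y 1 ξ) b - tm π.1 (LfE X Y 2 ξ) b := by
  have hB := B_ne HD HP
  have hn0 := n0_ne HD HP
  obtain ⟨c, hc, hE⟩ := HP.pt.eq
  obtain ⟨N1, H1⟩ := exists_ne hs.prime (b := x) HD.sol.n1
  obtain ⟨N2, H2⟩ := exists_ne hs.prime (b := x) (SolE_n1' HD.sol)
  obtain ⟨N3, H3⟩ := exists_ne hs.prime (b := x) (p := X) (q := Y) hn0
  obtain ⟨N4, H4⟩ := hIF4 π.1 (tm π.1) 1 hs b x p (-p') (-q) q' X Y HD.hb HD.hx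
    (SolE_flip HD.sol) HP.pt.hX HP.pt.hY hn0 HP.dn
  refine ⟨N1 + N2 + N3 + N4, fun ξ hξ => ?_⟩
  have g1 := H1 ξ ((pow_dvd_pow _ (by omega)).trans hξ)
  have g2 := H2 ξ ((pow_dvd_pow _ (by omega)).trans hξ)
  have g3 := H3 ξ ((pow_dvd_pow _ (by omega)).trans hξ)
  have g4 := H4 ξ ((pow_dvd_pow _ (by omega)).trans hξ)
  have hx0 : ∀ a : Eis, a ≠ 0 → tm π.1 x a = 0 := fun a ha =>
    hLCI.2.2 π.1 (tm π.1) 1 x a hs hL HD.hx ha
  have hrel : ∀ a : Eis, a ≠ 0 →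
      tm π.1 (X ^ 3 + x * Y ^ 3) a = tm π.1 ((N : Eis) * (Q : Eis) ^ E) a := by
    intro a ha
    have h1 := s_rel hs HD.hx hn0 hB hc ha hE
    rw [hx0 a ha, zero_add] at h1
    exact h1
  refine ⟨g3, ?_, ?_⟩
  · intro a ha
    rw [hs.skew (X ^ 3 + x * Y ^ 3) a hn0 ha, hs.skew ((N : Eis) * (Q : Eis) ^ E) a hB ha, hrel a ha]
  · rw [g4, neg_neg, neg_neg]
    unfold ASE
    rw [hrel _ (g1 2), hrel _ (g2 1), hrel _ (g1 1), hrel _ (g2 2)]

/-- the tame symbol with an element proportional to `B` -/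
lemma tm_prop {π a b B : Eis} (hb : tm π b B = 0) :
    (V π B : ZMod 3) * tm π a b = (V π b : ZMod 3) * tm π a B := by
  have h1 : (V π B : ZMod 3) * ch π b = (V π b : ZMod 3) * ch π B := by
    unfold tm at hb
    linear_combination hb
  unfold tm
  linear_combination (- (V π a : ZMod 3)) * h1

end DPA

end Pool.Agent.PTK


end

section

/-!
# PTK_DCK: the relation for the Frobenius invariant of `Q`
-/

set_option autoImplicit false

namespace Pool.Agent.PTK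

open Pool.Agent.Lib_helper18 Pool.Agent.Lib_helper18.Eis Pool.Agent.Lib_helper84.Cub
open Pool.Agent.PT

namespace DCK

open DPA

lemma nat_ne {n : ℕ} (h : n ≠ 0) : (n : Eis) ≠ 0 := by
  have h2 : ((n : ℤ) : Eis) ≠ 0 := DCONST.cast_ne (by omega)
  rwa [Int.cast_natCast] at h2

lemma dvd_natAbs_norm (a : Eis) : a ∣ ((a.norm.natAbs : ℕ) : Eis) := by
  have h1 : ((a.norm.natAbs : ℕ) : ℤ) = a.norm := Int.natAbs_of_nonneg (norm_nonneg a)
  have h2 : ((a.norm.natAbs : ℕ) : Eis) = ((a.norm : ℤ) : Eis) := by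
    rw [← h1, Int.cast_natCast]
    simp
  rw [h2, ← mul_conj]
  exact Dvd.intro _ rfl

/-- the forms of a point do not vanish -/
lemma dne_aux {π : PP} {E : ℕ} (hE : E = 1 ∨ E = 2) {B N c x X Y u v : Eis}
    (hB : B = N * π.1 ^ E) (hN : ¬ π.1 ∣ N) (hx : ¬ π.1 ∣ x) (hc : c ≠ 0) (hY : Y ≠ 0)
    (hpt : x * (X ^ 3 + x * Y ^ 3) = B * c ^ 3) (hM : ¬ π.1 ∣ v ^ 3 + x * u ^ 3)
    (i : ℕ) : X * u - w ^ i * v * Y ≠ 0 := by
  intro h0
  have hM0 : v ^ 3 + x * u ^ 3 ≠ 0 := DCONST.ne_of_ndvd hM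
  have hw := w_pow3 i
  have h1 : X ^ 3 * u ^ 3 = v ^ 3 * Y ^ 3 := by
    have h2 : (X * u) ^ 3 = (w ^ i * v * Y) ^ 3 := by rw [sub_eq_zero.1 h0]
    linear_combination h2 + (v ^ 3 * Y ^ 3) * hw
  have hu : u ≠ 0 := by
    rintro rfl
    have h3 : v ^ 3 * Y ^ 3 = 0 := by rw [← h1]; ring
    rcases mul_eq_zero.1 h3 with h4 | h4
    · apply hM0
      rw [h4]
      ring
    · exact hY (pow_eq_zero_iff (by norm_num) |>.1 h4)
  have h5 : B * (c * u) ^ 3 = x * Y ^ 3 * (v ^ 3 + x * u ^ 3) := by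
    linear_combination (- u ^ 3) * hpt + x * h1
  have hπ := π.2.1
  have hN0 : N ≠ 0 := DCONST.ne_of_ndvd hN
  have hx0 : x ≠ 0 := DCONST.ne_of_ndvd hx
  have hcu : c * u ≠ 0 := mul_ne_zero hc hu
  have hB0 : B ≠ 0 := by
    rw [hB]
    exact mul_ne_zero hN0 (pow_ne_zero _ hπ.ne_zero)
  have h6 := congrArg (V π.1) h5
  rw [V_mul hπ hB0 (pow_ne_zero _ hcu), V_pow hπ hcu,
    V_mul hπ (mul_ne_zero hx0 (pow_ne_zero _ hY)) hM0, V_mul hπ hx0 (pow_ne_zero _ hY),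
    V_pow hπ hY, V_eq_zero hx, V_eq_zero hM, hB,
    V_mul_not_dvd hπ hN (pow_ne_zero _ hπ.ne_zero), V_pow hπ hπ.ne_zero, V_self] at h6
  omega

end DCK

open DPA _root_.Pool.Agent.PTK.DCK in
/-- PTK_DCK. -/
theorem DCK_thm (hSPP : SPP) (hDP1 : Stmt_DP1) (hDP2 : Stmt_DP2) (hDP3 : Stmt_DP3)
    (hDP4 : Stmt_DP4) (hSVF : Stmt_SVF) : Stmt_DCK := by
  intro N b x p q p' q' HD
  have hn1 := HD.sol.n1
  have hn2 := SolE_n1' HD.sol
  obtain ⟨m1, hm1⟩ : ∃ m : ℕ, m = (p ^ 3 + x * q ^ 3).norm.natAbs := ⟨_, rfl⟩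
  obtain ⟨m2, hm2⟩ : ∃ m : ℕ, m = (p' ^ 3 + x * q' ^ 3).norm.natAbs := ⟨_, rfl⟩
  have hm1d : p ^ 3 + x * q ^ 3 ∣ (m1 : Eis) := by rw [hm1]; exact dvd_natAbs_norm _
  have hm2d : p' ^ 3 + x * q' ^ 3 ∣ (m2 : Eis) := by rw [hm2]; exact dvd_natAbs_norm _
  have hm1p : 0 < m1 := by
    rw [hm1]
    exact Int.natAbs_pos.2 (norm_pos hn1).ne'
  have hm2p : 0 < m2 := by
    rw [hm2]
    exact Int.natAbs_pos.2 (norm_pos hn2).ne'
  obtain ⟨M, hMdef⟩ : ∃ M : ℕ, M = N * m1 * m2 := ⟨_, rfl⟩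
  have hMp : 0 < M := by
    rw [hMdef]
    exact Nat.mul_pos (Nat.mul_pos HD.N0 hm1p) hm2p
  have hMe : (M : Eis) = (N : Eis) * (m1 : Eis) * (m2 : Eis) := by
    rw [hMdef]
    push_cast
    ring
  have hM0 : (M : Eis) ≠ 0 := nat_ne hMp.ne'
  have dN : (N : Eis) ∣ (M : Eis) := by
    rw [hMe, mul_assoc]
    exact Dvd.intro _ rfl
  have d1 : p ^ 3 + x * q ^ 3 ∣ (M : Eis) := by
    rw [hMe]
    exact dvd_mul_of_dvd_left (dvd_mul_of_dvd_right hm1d _) _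
  have d2 : p' ^ 3 + x * q' ^ 3 ∣ (M : Eis) := by
    rw [hMe]
    exact dvd_mul_of_dvd_right hm2d _
  have hfin := hSPP.2.2.1 (M : Eis) hM0
  refine ⟨9 * M, by omega, ?_⟩
  intro f hf0 hf
  have h9 : 9 ∣ f := (Dvd.intro _ rfl).trans hf
  have hf1 : 1 < f := by
    have := Nat.le_of_dvd hf0 h9
    omega
  have hMf : M ∣ f := (Dvd.intro_left 9 rfl).trans hf
  have hMfe : (M : Eis) ∣ (f : Eis) := by
    obtain ⟨k, hk⟩ := hMf
    rw [hk]
    push_cast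
    exact Dvd.intro _ rfl
  obtain ⟨C₀, Φ₀, H₀⟩ := hDP2 N b x p q p' q' HD f hf1 h9
  have hpl : ∀ π : PP, ∃ (c : ZMod 3) (Φ : (ZMod f)ˣ →* Multiplicative (ZMod 3)),
      π.1 ∣ (M : Eis) → ∀ (E Q : ℕ) (hQ : Q.Coprime f) (X Y : Eis),
        HypP N b x p q p' q' E Q X Y →
        SVE (tm π.1) x p (-p') (-q) q' X Y = c + E * (Φ (ZMod.unitOfCoprime Q hQ)).toAdd := by
    intro π
    by_cases hπM : π.1 ∣ (M : Eis)
    · obtain ⟨C, Φ, H⟩ := hDP1 N b x p q p' q' HD π f hf1 (hπM.trans hMfe)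
      exact ⟨C, Φ, fun _ => H⟩
    · exact ⟨0, 1, fun h => absurd h hπM⟩
  choose c Φ H using hpl
  refine ⟨C₀ + ∑ π ∈ hfin.toFinset, c π, Φ₀ * ∏ π ∈ hfin.toFinset, Φ π, 0, ?_⟩
  intro E Q hQ hE hQp _ hQ3 hsb hsx X Y ξ hpt hξ
  obtain ⟨πQ, hπQ⟩ := hSPP.2.2.2.2.1 Q hQp hQ3
  have hQM : ¬ πQ.1 ∣ (M : Eis) := by
    intro h
    rw [hπQ] at h
    have h1 : ((Q : ℤ) : Eis) ∣ ((M : ℤ) : Eis) := by
      rw [Int.cast_natCast, Int.cast_natCast]
      exact h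
    have h2 : Q ∣ M := Int.natCast_dvd_natCast.1 (intCast_dvd_intCast.1 h1)
    have h3 := Nat.Coprime.eq_one_of_dvd hQ (h2.trans hMf)
    exact hQp.one_lt.ne' h3
  have hQN : ¬ πQ.1 ∣ (N : Eis) := fun h => hQM (h.trans dN)
  obtain ⟨hQb, hQx⟩ := HD.unr πQ hQN
  obtain ⟨k, hk, hkE⟩ := hpt.eq
  have hBe : (N : Eis) * (Q : Eis) ^ E = (N : Eis) * πQ.1 ^ E := by rw [hπQ]
  have hdn : DNE X Y p (-p') (-q) q' := by
    have hA := fun i => dne_aux (π := πQ) hE (X := X) (Y := Y) (u := q) (v := p) hBe hQN hQx hk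
      hpt.hY hkE (fun h => hQM (h.trans d1)) i
    have hA' := fun i => dne_aux (π := πQ) hE (X := X) (Y := Y) (u := q') (v := p') hBe hQN hQx hk
      hpt.hY hkE (fun h => hQM (h.trans d2)) i
    refine ⟨?_, ?_, ?_, ?_⟩
    · intro h
      apply hA 1
      unfold DfE at h
      linear_combination - h
    · intro h
      apply hA 2
      unfold DfE at h
      linear_combination - h
    · intro h
      apply hA' 1
      unfold DfE at h
      linear_combination h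
    · intro h
      apply hA' 2
      unfold DfE at h
      linear_combination h
  have HP : HypP N b x p q p' q' E Q X Y := ⟨hE, hQp, hsb, hsx, hpt, hdn⟩
  have hn0 := n0_ne HD HP
  obtain ⟨-, hsum0⟩ := hSVF b x p (-p') (-q) q' X Y HD.hb HD.hx (SolE_flip HD.sol) hpt.hX hpt.hY
    hn0 hdn
  -- the place `Q`
  have hTQ : SVE (tm πQ.1) x p (-p') (-q) q' X Y = - (E * TAUE Q p q p' q' ξ) := by
    refine hDP4 N b x p q p' q' HD πQ E Q X Y ξ HP hQ3 hπQ hQN ?_ hξ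
    intro h
    rcases πQ.2.1.dvd_or_dvd h with h1 | h1
    · exact hQM (h1.trans d1)
    · exact hQM (h1.trans d2)
  -- the sum
  have hQS : πQ ∉ hfin.toFinset := by
    rw [Set.Finite.mem_toFinset]
    exact hQM
  classical
  have hsupp : (Function.support fun v : Pl => SVE (sy v) x p (-p') (-q) q' X Y) ⊆
      ((insert none (insert (some πQ) (hfin.toFinset.image some)) : Finset Pl) : Set Pl) := by
    intro v hv
    by_contra hnv
    apply hv
    rcases v with _ | π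
    · exact absurd (Finset.mem_coe.2 (Finset.mem_insert_self _ _)) hnv
    · have hnM : ¬ π.1 ∣ (M : Eis) := by
        intro h
        apply hnv
        rw [Finset.mem_coe]
        refine Finset.mem_insert_of_mem (Finset.mem_insert_of_mem (Finset.mem_image_of_mem _ ?_))
        rw [Set.Finite.mem_toFinset]
        exact h
      have hπne : π ≠ πQ := by
        rintro rfl
        apply hnv
        rw [Finset.mem_coe]
        exact Finset.mem_insert_of_mem (Finset.mem_insert_self _ _)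
      have hπQnd : ¬ π.1 ∣ (Q : Eis) := by
        rw [← hπQ]
        intro h
        exact hπne (hSPP.2.1 π πQ (π.2.1.associated_of_dvd πQ.2.1 h))
      refine hDP3 N b x p q p' q' HD π E Q X Y HP (fun h => hnM (h.trans dN)) hπQnd ?_
      intro h
      rcases π.2.1.dvd_or_dvd h with h1 | h1
      · exact hnM (h1.trans d1)
      · exact hnM (h1.trans d2)
  have hn_notin : (none : Pl) ∉ insert (some πQ) (hfin.toFinset.image some) := by
    simp
  have hQ_notin : (some πQ : Pl) ∉ hfin.toFinset.image some := by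
    intro h
    obtain ⟨y, hy, hy'⟩ := Finset.mem_image.1 h
    rw [Option.some.injEq] at hy'
    rw [hy'] at hy
    exact hQS hy
  have hsum : ∑ π ∈ hfin.toFinset, SVE (sy (some π)) x p (-p') (-q) q' X Y =
      ∑ π ∈ hfin.toFinset, (c π + E * (Φ π (ZMod.unitOfCoprime Q hQ)).toAdd) := by
    refine Finset.sum_congr rfl ?_
    intro π hπ
    rw [Set.Finite.mem_toFinset] at hπ
    exact H π hπ E Q hQ X Y HP
  rw [finsum_eq_sum_of_support_subset _ hsupp, Finset.sum_insert hn_notin,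
    Finset.sum_insert hQ_notin, Finset.sum_image (fun _ _ _ _ h => Option.some_injective _ h),
    hsum] at hsum0
  have e1 : SVE (sy none) x p (-p') (-q) q' X Y =
      C₀ + E * (Φ₀ (ZMod.unitOfCoprime Q hQ)).toAdd := H₀ E Q hQ X Y HP
  have e2 : SVE (sy (some πQ)) x p (-p') (-q) q' X Y = - (E * TAUE Q p q p' q' ξ) := hTQ
  rw [e1, e2, Finset.sum_add_distrib, ← Finset.mul_sum] at hsum0
  rw [MonoidHom.mul_apply, MonoidHom.finsetProd_apply, toAdd_mul, toAdd_prod]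
  linear_combination hsum0

end Pool.Agent.PTK


end

section

/-!
# PTK_DP4: the local term of a point at `Q`
-/

set_option autoImplicit false

namespace Pool.Agent.PTK

open Pool.Agent.Lib_helper18 Pool.Agent.Lib_helper18.Eis Pool.Agent.Lib_helper84.Cub
open Pool.Agent.PT

namespace DP4

open DPA

/-- the symbol at an inert prime -/
lemma tm_inert {Q : Eis} {n : Eis} (hQ : Prime Q) (hn : ¬ Q ∣ n) {L : Eis}
    (hL : ¬ Q ∣ L) (E : ℕ) : tm Q (n * Q ^ E) L = - (E * sym Q L) := by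
  have h1 : V Q (n * Q ^ E) = E := by
    rw [V_mul_not_dvd hQ hn (pow_ne_zero _ hQ.ne_zero), V_pow hQ hQ.ne_zero, V_self, mul_one]
  have h2 : up Q L = L := by
    unfold up
    rw [V_eq_zero hL, pow_zero, EuclideanDomain.div_one]
  unfold tm
  rw [V_eq_zero hL, h1]
  unfold ch
  rw [h2]
  simp

lemma LfE_per (p q r : Eis) (i : ℕ) : LfE p q (i + 3) r = LfE p q i r := by
  unfold LfE
  rw [pow_add, w_cube, mul_one]

lemma LfE_shift (p q r : Eis) (i : ℕ) : LfE p q i (w * r) = LfE p q (i + 1) r := by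
  unfold LfE
  ring

lemma LfE_prod (p q r : Eis) : LfE p q 0 r * LfE p q 1 r * LfE p q 2 r = p ^ 3 + q ^ 3 * r ^ 3 := by
  have h1 : w ^ 3 = 1 := w_cube
  have h2 : w ^ 2 + w + 1 = 0 := w_rel
  unfold LfE
  linear_combination (q ^ 3 * r ^ 3) * h1 + (p ^ 2 * q * r + p * q ^ 2 * r ^ 2 * w) * h2

end DP4

open DPA _root_.Pool.Agent.PTK.DP4 in
/-- PTK_DP4. -/
theorem DP4_thm (hSTM : STM) (hSPP : SPP) (hIF4 : Stmt_IF4) (hLCI : Stmt_LCI) : Stmt_DP4 := by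
  intro N b x p q p' q' HD π E Q X Y ξ HP hQ3 hπQ hπN hπM hξ
  have h3 : ¬ π.1 ∣ 3 := (hSPP.2.2.2.1 π).1
  have hs : LSym π.1 (tm π.1) 1 := hSTM π.1 π.2.1 h3
  obtain ⟨hπb, hπx⟩ := HD.unr π hπN
  have hVx0 : V π.1 x = 0 := V_eq_zero hπx
  have hVb0 : V π.1 b = 0 := V_eq_zero hπb
  have hB := B_ne HD HP
  have hn0 := n0_ne HD HP
  have hVB : V π.1 ((N : Eis) * (Q : Eis) ^ E) = E := by
    rw [← hπQ, V_mul_not_dvd π.2.1 hπN (pow_ne_zero _ π.2.1.ne_zero), V_pow π.2.1 π.2.1.ne_zero,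
      V_self, mul_one]
  have hE0 : (E : ZMod 3) ≠ 0 := by
    rcases HP.hE with h | h
    · rw [h]; decide
    · rw [h]; decide
  have hcub : ∀ a : Eis, V π.1 a = 0 → tm π.1 a ((N : Eis) * (Q : Eis) ^ E) = 0 →
      ch π.1 a = 0 := by
    intro a ha h
    unfold tm at h
    rw [hVB, ha] at h
    simp only [Nat.cast_zero, zero_mul, sub_zero] at h
    exact (mul_eq_zero.1 h).resolve_left hE0
  have hLx : LCE π.1 x := (hLCI.1 π x HD.hx).2 ⟨by rw [hVx0]; exact dvd_zero 3,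
    hcub x hVx0 (HP.sx π)⟩
  have hcb := hcub b hVb0 (HP.sb π)
  have hLb : LCE π.1 b := (hLCI.1 π b HD.hb).2 ⟨by rw [hVb0]; exact dvd_zero 3, hcb⟩
  obtain ⟨N1, H1⟩ := core hIF4 hLCI hs HD HP hLx
  obtain ⟨ξ', hξ'⟩ := hLx (N1 + 1)
  obtain ⟨hF, -, h1⟩ := H1 ξ' ((pow_dvd_pow _ (by omega)).trans hξ')
  have h4 : π.1 ∣ ξ' ^ 3 - x := by
    have h4 : π.1 ^ 1 ∣ ξ' ^ 3 - x := (pow_dvd_pow _ (by omega)).trans hξ'
    rwa [pow_one] at h4
  have hb0 : ∀ i, tm π.1 (LfE X Y i ξ') b = 0 := by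
    intro i
    rw [hs.skew b (LfE X Y i ξ') HD.hb (hF i),
      hLCI.2.2 π.1 (tm π.1) 1 b _ hs hLb HD.hb (hF i), neg_zero]
  have hM1 : ¬ π.1 ∣ p ^ 3 + x * q ^ 3 := fun h => hπM (dvd_mul_of_dvd_left h _)
  have hM2 : ¬ π.1 ∣ p' ^ 3 + x * q' ^ 3 := fun h => hπM (dvd_mul_of_dvd_right h _)
  have k1 := LfE_ndvd (p := p) (q := q) h4 hM1
  have k2 := LfE_ndvd (p := p') (q := q') h4 hM2
  have hQe : (Q : Eis) = π.1 := hπQ.symm
  rw [hQe] at hξ
  rw [h1, hb0, hb0, add_zero, sub_zero]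
  have h5 : ASE (tm π.1) ((N : Eis) * (Q : Eis) ^ E) p q p' q' ξ' = - (E * TAUE Q p q p' q' ξ') := by
    unfold ASE TAUE
    rw [hQe, tm_inert π.2.1 hπN (k1 2), tm_inert π.2.1 hπN (k2 1), tm_inert π.2.1 hπN (k1 1),
      tm_inert π.2.1 hπN (k2 2)]
    ring
  rw [h5]
  congr 2
  -- independence of the cube root
  have hcongr : ∀ r r' : Eis, π.1 ∣ r - r' → TAUE Q p q p' q' r = TAUE Q p q p' q' r' := by
    intro r r' hr
    have h6 : ∀ (g h : Eis) (i : ℕ), sym (Q : Eis) (LfE g h i r) = sym (Q : Eis) (LfE g h i r') := by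
      intro g h i
      apply sym_congr
      have h7 : LfE g h i r - LfE g h i r' = (h * w ^ i) * (r - r') := by
        unfold LfE
        ring
      rw [h7, hQe]
      exact dvd_mul_of_dvd_right hr _
    unfold TAUE
    rw [h6, h6, h6, h6]
  have hshift : ∀ r : Eis, π.1 ∣ r ^ 3 - x → TAUE Q p q p' q' (w * r) = TAUE Q p q p' q' r := by
    intro r hr
    have m1 := LfE_ndvd (p := p) (q := q) hr hM1
    have m2 := LfE_ndvd (p := p') (q := q') hr hM2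
    have h8 : sym π.1 (LfE p q 0 r) + sym π.1 (LfE p q 1 r) + sym π.1 (LfE p q 2 r) =
        sym π.1 b + (sym π.1 (LfE p' q' 0 r) + sym π.1 (LfE p' q' 1 r) +
          sym π.1 (LfE p' q' 2 r)) := by
      rw [← sym_mul π.2.1 h3 (m1 0) (m1 1), ← sym_mul π.2.1 h3 (π.2.1.not_dvd_mul (m1 0) (m1 1)) (m1 2),
        ← sym_mul π.2.1 h3 (m2 0) (m2 1), ← sym_mul π.2.1 h3 (π.2.1.not_dvd_mul (m2 0) (m2 1)) (m2 2),
        ← sym_mul π.2.1 h3 hπb (π.2.1.not_dvd_mul (π.2.1.not_dvd_mul (m2 0) (m2 1)) (m2 2))]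
      apply sym_congr
      rw [LfE_prod, LfE_prod]
      have h9 : p ^ 3 + q ^ 3 * r ^ 3 - b * (p' ^ 3 + q' ^ 3 * r ^ 3) =
          (q ^ 3 - b * q' ^ 3) * (r ^ 3 - x) := by
        linear_combination HD.sol.eq
      rw [h9]
      exact dvd_mul_of_dvd_right hr _
    have h10 : sym π.1 b = 0 := by
      have h11 := hcb
      unfold ch up at h11
      rwa [hVb0, pow_zero, EuclideanDomain.div_one] at h11
    unfold TAUE
    rw [LfE_shift, LfE_shift, LfE_shift, LfE_shift, hQe]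
    have e1 : LfE p q (2 + 1) r = LfE p q 0 r := LfE_per p q r 0
    have e2 : LfE p' q' (2 + 1) r = LfE p' q' 0 r := LfE_per p' q' r 0
    rw [e1, e2]
    rw [h10] at h8
    have h12 : (3 : ZMod 3) = 0 := rfl
    linear_combination h8 - (sym π.1 (LfE p q 2 r) - sym π.1 (LfE p' q' 2 r)) * h12
  have hdiv : π.1 ∣ (ξ' - ξ) * (ξ' - w * ξ) * (ξ' - w * (w * ξ)) := by
    have h13 : (ξ' - ξ) * (ξ' - w * ξ) * (ξ' - w * (w * ξ)) = (ξ' ^ 3 - x) - (ξ ^ 3 - x) := by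
      have h1 : w ^ 3 = 1 := w_cube
      have h2 : w ^ 2 + w + 1 = 0 := w_rel
      linear_combination (- ξ ^ 3) * h1 + (- ξ' ^ 2 * ξ + ξ' * ξ ^ 2 * w) * h2
    rw [h13]
    exact dvd_sub h4 hξ
  have hw3 : ∀ r : Eis, π.1 ∣ r ^ 3 - x → π.1 ∣ (w * r) ^ 3 - x := by
    intro r hr
    rwa [mul_pow, w_cube, one_mul]
  rcases π.2.1.dvd_or_dvd hdiv with h | h
  · rcases π.2.1.dvd_or_dvd h with h | h
    · exact hcongr _ _ h
    · rw [hcongr _ _ h, hshift ξ hξ]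
  · rw [hcongr _ _ h, hshift (w * ξ) (hw3 ξ hξ), hshift ξ hξ]

end Pool.Agent.PTK


end

section

/-!
# PTK_DP1: the local terms of a point at a place dividing `f`
-/

set_option autoImplicit false

namespace Pool.Agent.PTK

open Pool.Agent.Lib_helper18 Pool.Agent.Lib_helper18.Eis Pool.Agent.Lib_helper84.Cub
open Pool.Agent.PT

namespace DP1

open DPA

lemma dvd3_iff (n : ℕ) : 3 ∣ n ↔ (n : ZMod 3) = 0 := (ZMod.natCast_eq_zero_iff n 3).symm

lemma V_B {π : PP} {f : ℕ} (hπf : π.1 ∣ (f : Eis)) {N : ℕ} {b x p q p' q' : Eis}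
    (HD : HypD N b x p q p' q') {E Q : ℕ} {X Y : Eis} (HP : HypP N b x p q p' q' E Q X Y)
    (hQ : Q.Coprime f) : V π.1 ((N : Eis) * (Q : Eis) ^ E) = V π.1 (N : Eis) := by
  have hB := B_ne HD HP
  have hN : (N : Eis) ≠ 0 := left_ne_zero_of_mul hB
  have hQE := right_ne_zero_of_mul hB
  have hQ0 : (Q : Eis) ≠ 0 := by
    have h2 : ((Q : ℤ) : Eis) ≠ 0 := DCONST.cast_ne (by have := HP.hQ.pos; omega)
    rwa [Int.cast_natCast] at h2
  have h1 := V_cop π.2.1 hπf (Nat.isCoprime_iff_coprime.2 hQ)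
  rw [Int.cast_natCast] at h1
  rw [V_mul π.2.1 hN hQE, V_pow π.2.1 hQ0, h1, mul_zero, add_zero]

end DP1

open DPA _root_.Pool.Agent.PTK.DP1 in
/-- PTK_DP1. -/
theorem DP1_thm (hSTM : STM) (hSPP : SPP) (hIF4 : Stmt_IF4) (hIF4B : Stmt_IF4B)
    (hF6R : Stmt_F6R) (hF7U : Stmt_F7U) (hLFV : Stmt_LFV) (hLCI : Stmt_LCI) : Stmt_DP1 := by
  intro N b x p q p' q' HD π f hf hπf
  have hs : LSym π.1 (tm π.1) 1 := hSTM π.1 π.2.1 (hSPP.2.2.2.1 π).1
  have hN : (N : Eis) ≠ 0 := by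
    have h2 : ((N : ℤ) : Eis) ≠ 0 := DCONST.cast_ne (by have := HD.N0; omega)
    rwa [Int.cast_natCast] at h2
  by_cases hVx : 3 ∣ V π.1 x
  · by_cases hcx : ch π.1 x = 0
    · -- `x` is a local cube
      have hL : LCE π.1 x := (hLCI.1 π x HD.hx).2 ⟨hVx, hcx⟩
      obtain ⟨C, Φ, H⟩ := place_LC hs hN HD.sol.n1 (SolE_n1' HD.sol) hL hf (by rwa [pow_one])
      classical
      refine ⟨C + (if π.1 ∣ (N : Eis) ∧ ¬ 3 ∣ V π.1 b then (V π.1 b : ZMod 3) * ch π.1 w else 0),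
        Φ, ?_⟩
      intro E Q hQ X Y HP
      have hB := B_ne HD HP
      have hn0 := n0_ne HD HP
      have hVB := V_B hπf HD HP hQ
      obtain ⟨N0, H0⟩ := core hIF4 hLCI hs HD HP hL
      -- the terms with `b`
      have hterm : ∃ N1 : ℕ, ∀ ξ : Eis, π.1 ^ N1 ∣ ξ ^ 3 - x →
          tm π.1 (LfE X Y 1 ξ) b - tm π.1 (LfE X Y 2 ξ) b =
            if π.1 ∣ (N : Eis) ∧ ¬ 3 ∣ V π.1 b then (V π.1 b : ZMod 3) * ch π.1 w else 0 := by
        by_cases hπN : π.1 ∣ (N : Eis)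
        · have hVN : (V π.1 ((N : Eis) * (Q : Eis) ^ E) : ZMod 3) ≠ 0 := by
            rw [hVB]
            have h1 := HD.cf π
            have h2 : V π.1 (N : Eis) ≠ 0 := fun h => (V_eq_zero_iff.1 h) hπN
            rw [Ne, ← dvd3_iff]
            omega
          by_cases hVb : 3 ∣ V π.1 b
          · -- `b` is a local cube
            have hcb : ch π.1 b = 0 := by
              have h1 := HP.sb π
              unfold tm at h1
              rw [(dvd3_iff _).1 hVb, zero_mul, sub_zero] at h1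
              exact (mul_eq_zero.1 h1).resolve_left hVN
            have hLb : LCE π.1 b := (hLCI.1 π b HD.hb).2 ⟨hVb, hcb⟩
            refine ⟨N0, fun ξ hξ => ?_⟩
            obtain ⟨hF, -, -⟩ := H0 ξ hξ
            have h0 : ∀ i, tm π.1 (LfE X Y i ξ) b = 0 := by
              intro i
              rw [hs.skew b (LfE X Y i ξ) HD.hb (hF i),
                hLCI.2.2 π.1 (tm π.1) 1 b _ hs hLb HD.hb (hF i), neg_zero]
            rw [h0, h0, if_neg (by tauto), sub_zero]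
          · obtain ⟨N2, H2⟩ := hIF4B π.1 (tm π.1) 1 hs x X Y HD.hx HP.pt.hX HP.pt.hY hn0
            refine ⟨N0 + N2, fun ξ hξ => ?_⟩
            obtain ⟨hF, hrel, -⟩ := H0 ξ ((pow_dvd_pow _ (by omega)).trans hξ)
            have h2 := H2 ξ ((pow_dvd_pow _ (by omega)).trans hξ)
            rw [if_pos ⟨hπN, hVb⟩]
            have hw0 : w ≠ 0 := by
              intro h
              have := congrArg Eis.im h
              simp at this
            rw [hrel _ (hF 1), hrel _ (hF 2), hrel _ hw0] at h2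
            have hw : tm π.1 w ((N : Eis) * (Q : Eis) ^ E) =
                (V π.1 ((N : Eis) * (Q : Eis) ^ E) : ZMod 3) * ch π.1 w := by
              unfold tm
              rw [V_eq_zero (not_dvd_w π.2.1)]
              simp
            rw [hw] at h2
            refine mul_left_cancel₀ hVN ?_
            rw [mul_sub, tm_prop (HP.sb π), tm_prop (HP.sb π), ← mul_sub, h2]
            ring
        · -- `π` does not divide `N`
          obtain ⟨hπb, hπx⟩ := HD.unr π hπN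
          have hVx0 : V π.1 x = 0 := V_eq_zero hπx
          have hVb0 : V π.1 b = 0 := V_eq_zero hπb
          have hVB0 : V π.1 ((N : Eis) * (Q : Eis) ^ E) = 0 := by
            rw [hVB]
            exact V_eq_zero hπN
          obtain ⟨c, hc, hE⟩ := HP.pt.eq
          have hVn : 3 ∣ V π.1 (X ^ 3 + x * Y ^ 3) := by
            have h1 := congrArg (V π.1) hE
            rw [V_mul π.2.1 HD.hx hn0, V_mul π.2.1 hB (pow_ne_zero _ hc), V_pow π.2.1 hc, hVx0,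
              hVB0] at h1
            omega
          obtain ⟨N2, H2⟩ := hLFV π x X Y HD.hx HP.pt.hX HP.pt.hY hn0 hVx hVn
          refine ⟨N2, fun ξ hξ => ?_⟩
          rw [if_neg (by tauto)]
          unfold tm
          rw [H2 ξ hξ, hVb0]
          simp
      obtain ⟨N1, H1⟩ := hterm
      have h3 := H E Q hQ (SVE (tm π.1) x p (-p') (-q) q' X Y -
        (if π.1 ∣ (N : Eis) ∧ ¬ 3 ∣ V π.1 b then (V π.1 b : ZMod 3) * ch π.1 w else 0))
        (N0 + N1) (fun ξ hξ => by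
          obtain ⟨-, -, h4⟩ := H0 ξ ((pow_dvd_pow _ (by omega)).trans hξ)
          rw [h4, ← H1 ξ ((pow_dvd_pow _ (by omega)).trans hξ)]
          ring)
      linear_combination h3
    · -- `x` is not a local cube
      refine ⟨0, 1, ?_⟩
      intro E Q hQ X Y HP
      rw [hF7U π b x p (-p') (-q) q' X Y HD.hb HD.hx (SolE_flip HD.sol) HP.pt.hX HP.pt.hY HP.dn
        hVx hcx]
      simp
  · -- the valuation of `x` is prime to `3`
    classical
    refine ⟨if (V π.1 (N : Eis) : ZMod 3) = (V π.1 x : ZMod 3) then 0 else - tm π.1 w b, 1, ?_⟩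
    intro E Q hQ X Y HP
    have hB := B_ne HD HP
    have hn0 := n0_ne HD HP
    have hVB := V_B hπf HD HP hQ
    obtain ⟨c, hc, hE⟩ := HP.pt.eq
    have h1 := congrArg (V π.1) hE
    rw [V_mul π.2.1 HD.hx hn0, V_mul π.2.1 hB (pow_ne_zero _ hc), V_pow π.2.1 hc, hVB] at h1
    have h2 : (V π.1 x : ZMod 3) + (V π.1 (X ^ 3 + x * Y ^ 3) : ZMod 3) =
        (V π.1 (N : Eis) : ZMod 3) := by
      have h3 := congrArg (fun n : ℕ => (n : ZMod 3)) h1
      simp only [Nat.cast_add, Nat.cast_mul] at h3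
      rw [h3]
      have h4 : ((3 : ℕ) : ZMod 3) = 0 := rfl
      rw [h4, zero_mul, add_zero]
    obtain ⟨k1, k2⟩ := hF6R π b x p (-p') (-q) q' X Y HD.hb HD.hx (SolE_flip HD.sol) HP.pt.hX
      HP.pt.hY HP.dn hVx
    by_cases hv : (V π.1 (N : Eis) : ZMod 3) = (V π.1 x : ZMod 3)
    · rw [if_pos hv, k1 ((dvd3_iff _).2 (by linear_combination h2 + hv))]
      simp
    · rw [if_neg hv, k2 (fun h => hv (by
        rw [dvd3_iff] at h
        rw [h] at h2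
        linear_combination - h2))]
      simp

end Pool.Agent.PTK


end

section

/-!
# PTK_DP2: the local term of a point at the place above `3`
-/

set_option autoImplicit false

namespace Pool.Agent.PTK

open Pool.Agent.Lib_helper18 Pool.Agent.Lib_helper18.Eis Pool.Agent.Lib_helper84.Cub
open Pool.Agent.PT

open DPA in
/-- PTK_DP2. -/
theorem DP2_thm (hSLC : SLC) (hIF2 : Stmt_IF2) (hIIA : Stmt_IIA) : Stmt_DP2 := by
  intro N b x p q p' q' HD f hf h9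
  have hs : LSym lam sl 4 := hSLC
  have hlamf : lam ^ 4 ∣ (f : Eis) := by
    have h1 : ((9 : ℤ) : Eis) ∣ ((f : ℤ) : Eis) :=
      intCast_dvd_intCast.2 (by exact_mod_cast h9)
    rw [Int.cast_natCast] at h1
    refine Dvd.dvd.trans ⟨w ^ 4, ?_⟩ h1
    have h2 : ((9 : ℤ) : Eis) = (3 : Eis) ^ 2 := by norm_num
    rw [h2, three_eq]
    ring
  have hN : (N : Eis) ≠ 0 := by
    have h2 : ((N : ℤ) : Eis) ≠ 0 := DCONST.cast_ne (by have := HD.N0; omega)
    rwa [Int.cast_natCast] at h2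
  have hfl := SolE_flip HD.sol
  have hw0 : w ≠ 0 := by
    intro h
    have := congrArg Eis.im h
    simp at this
  -- a fixed approximation of the cube root of `b`
  obtain ⟨r₀, hr, hr', H⟩ := exists_root (p := p) (q := -p') (p' := -q) (q' := q') hs hfl.n1
    (SolE_n1' (b := x) (x := b) (p := p) (q := -p') (p' := -q) (q' := q') hfl) HD.lc
  have hg1 := hfl.g1
  have hg2 := hfl.g2
  obtain ⟨C, Φ, hΦ⟩ := exists_char hs.prime hs.pos hf hlamf
    (fun B => sl B (GfE p (-p') (-q) q' 1) - sl B (GfE p (-p') (-q) q' 2) - sl B w -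
      ASE sl B p (-p') (-q) q' r₀)
    (by
      intro A B hA hB
      show _ = (_ : ZMod 3)
      rw [hs.mul A B _ hA hB hg1, hs.mul A B _ hA hB hg2, hs.mul A B _ hA hB hw0,
        ASE_mul hs hr hr' hA hB]
      ring)
    (by
      intro A B hA hB hd
      show _ = (_ : ZMod 3)
      rw [hs.cont A B _ hA hg1 hd, hs.cont A B _ hA hg2 hd, hs.cont A B _ hA hw0 hd,
        ASE_cont hs hr hr' hA hd]) hN
  refine ⟨C, Φ, ?_⟩
  intro E Q hQ X Y HP
  have hB := B_ne HD HP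
  have hn0 := n0_ne HD HP
  obtain ⟨c, hc, hE⟩ := HP.pt.eq
  rw [← hΦ E Q hQ]
  obtain ⟨N1, H1⟩ := hIIA b x p (-p') (-q) q' X Y HD.hb HD.hx HD.lc hfl HP.pt.hX HP.pt.hY hn0 HP.dn
  obtain ⟨N2, H2⟩ := hIF2 lam sl 4 hs b x p (-p') (-q) q' HD.hb HD.hx hfl
  obtain ⟨N3, H3⟩ := exists_ne hs.prime (b := b) (p := p) (q := -p') hfl.n1
  obtain ⟨N4, H4⟩ := exists_ne hs.prime (b := b) (p := -q) (q := q')
    (SolE_n1' (b := x) (x := b) (p := p) (q := -p') (p' := -q) (q' := q') hfl)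
  have h5 := H ((N : Eis) * (Q : Eis) ^ E)
    (sl ((N : Eis) * (Q : Eis) ^ E) (GfE p (-p') (-q) q' 1) -
      sl ((N : Eis) * (Q : Eis) ^ E) (GfE p (-p') (-q) q' 2) - sl ((N : Eis) * (Q : Eis) ^ E) w -
      SVE sl x p (-p') (-q) q' X Y) (N1 + N2 + N3 + N4) hB (by
    intro r hr
    have e1 := H1 r ((pow_dvd_pow _ (by omega)).trans hr)
    have e2 := H2 r ((pow_dvd_pow _ (by omega)).trans hr)
    have e3 := H3 r ((pow_dvd_pow _ (by omega)).trans hr)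
    have e4 := H4 r ((pow_dvd_pow _ (by omega)).trans hr)
    have e5 := ASE_rel hs e3 e4 HD.hx hn0 hB hc hE
    have e6 := s_rel hs HD.hx hn0 hB hc hg1 hE
    have e7 := s_rel hs HD.hx hn0 hB hc hg2 hE
    have e8 := s_rel hs HD.hx hn0 hB hc hw0 hE
    rw [e1, hs.skew (X ^ 3 + x * Y ^ 3) w hn0 hw0, ← e5, ← e6, ← e7, ← e8, e2,
      hs.skew x w HD.hx hw0]
    ring)
  show _ = sl ((N : Eis) * (Q : Eis) ^ E) (GfE p (-p') (-q) q' 1) -
    sl ((N : Eis) * (Q : Eis) ^ E) (GfE p (-p') (-q) q' 2) - sl ((N : Eis) * (Q : Eis) ^ E) w -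
      ASE sl ((N : Eis) * (Q : Eis) ^ E) p (-p') (-q) q' r₀
  rw [h5]
  ring

end Pool.Agent.PTK


end

section

/-!
# PTK_DP3: the local terms of a point vanish outside
-/

set_option autoImplicit false

namespace Pool.Agent.PTK

open Pool.Agent.Lib_helper18 Pool.Agent.Lib_helper18.Eis Pool.Agent.Lib_helper84.Cub
open Pool.Agent.PT

open DPA in
/-- PTK_DP3. -/
theorem DP3_thm (hSTM : STM) (hSPP : SPP) (hIF4 : Stmt_IF4) (hF7U : Stmt_F7U)
    (hLFV : Stmt_LFV) (hLCI : Stmt_LCI) : Stmt_DP3 := by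
  intro N b x p q p' q' HD π E Q X Y HP hπN hπQ hπM
  have hs : LSym π.1 (tm π.1) 1 := hSTM π.1 π.2.1 (hSPP.2.2.2.1 π).1
  obtain ⟨hπb, hπx⟩ := HD.unr π hπN
  have hVx0 : V π.1 x = 0 := V_eq_zero hπx
  have hVb0 : V π.1 b = 0 := V_eq_zero hπb
  have hVx : 3 ∣ V π.1 x := by rw [hVx0]; exact dvd_zero 3
  by_cases hcx : ch π.1 x = 0
  · have hL : LCE π.1 x := (hLCI.1 π x HD.hx).2 ⟨hVx, hcx⟩
    have hB := B_ne HD HP
    have hn0 := n0_ne HD HP
    have hπB : ¬ π.1 ∣ (N : Eis) * (Q : Eis) ^ E := by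
      intro h
      rcases π.2.1.dvd_or_dvd h with h1 | h1
      · exact hπN h1
      · exact hπQ (π.2.1.dvd_of_dvd_pow h1)
    have hVB0 : V π.1 ((N : Eis) * (Q : Eis) ^ E) = 0 := V_eq_zero hπB
    obtain ⟨c, hc, hE⟩ := HP.pt.eq
    have hVn : 3 ∣ V π.1 (X ^ 3 + x * Y ^ 3) := by
      have h1 := congrArg (V π.1) hE
      rw [V_mul π.2.1 HD.hx hn0, V_mul π.2.1 hB (pow_ne_zero _ hc), V_pow π.2.1 hc, hVx0,
        hVB0] at h1
      omega
    obtain ⟨N1, H1⟩ := core hIF4 hLCI hs HD HP hL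
    obtain ⟨N2, H2⟩ := hLFV π x X Y HD.hx HP.pt.hX HP.pt.hY hn0 hVx hVn
    obtain ⟨ξ, hξ⟩ := hL (N1 + N2 + 1)
    obtain ⟨-, -, h1⟩ := H1 ξ ((pow_dvd_pow _ (by omega)).trans hξ)
    have h2 := H2 ξ ((pow_dvd_pow _ (by omega)).trans hξ)
    have h3 : π.1 ∣ ξ ^ 3 - x := by
      have h4 : π.1 ^ 1 ∣ ξ ^ 3 - x := (pow_dvd_pow _ (by omega)).trans hξ
      rwa [pow_one] at h4
    have k1 := LfE_ndvd (p := p) (q := q) h3 (fun h => hπM (dvd_mul_of_dvd_left h _))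
    have k2 := LfE_ndvd (p := p') (q := q') h3 (fun h => hπM (dvd_mul_of_dvd_right h _))
    have h5 : tm π.1 (LfE X Y 1 ξ) b - tm π.1 (LfE X Y 2 ξ) b = 0 := by
      unfold tm
      rw [h2, hVb0]
      simp
    rw [h1, add_sub_assoc, h5, add_zero]
    unfold ASE
    rw [DCONST.tm_zero hπB (k1 2), DCONST.tm_zero hπB (k2 1), DCONST.tm_zero hπB (k1 1),
      DCONST.tm_zero hπB (k2 2)]
    simp
  · exact hF7U π b x p (-p') (-q) q' X Y HD.hb HD.hx (SolE_flip HD.sol) HP.pt.hX HP.pt.hY HP.dn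
      hVx hcx

end Pool.Agent.PTK


end

section

/-!
# The average rank of prime twists: the commutators in the governing field over `K`
-/

set_option autoImplicit false

open NumberField IsDedekindDomain Finset
open scoped nonZeroDivisors Pointwise

namespace Pool.Agent.PTK

open Pool.Agent.Lib_helper18 Pool.Agent.Lib_helper18.Eis Pool.Agent.Lib_helper84.Cub
open Pool.Agent.PT Pool.Agent.PTL

namespace GCK

section alg

variable {L : Type} [Field L]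

theorem om (ι : Eis →+* L) : ι w ^ 2 + ι w + 1 = 0 := by
  have h := congrArg ι w_rel
  rwa [map_add, map_add, map_pow, map_one, map_zero] at h

/-- the norm form -/
theorem nrm (ι : Eis →+* L) {ρ : L} {x : Eis} (hρ : ρ ^ 3 = ι x) (p q : Eis) :
    (ι p + ι q * ρ) * ((ι p + ι q * ι w * ρ) * (ι p + ι q * ι w ^ 2 * ρ)) =
      ι (p ^ 3 + x * q ^ 3) := by
  rw [map_add, map_mul, map_pow, map_pow, ← hρ]
  linear_combination (ι p ^ 2 * ι q * ρ + ι p * ι q ^ 2 * ρ ^ 2 * ι w +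
    ι q ^ 3 * ρ ^ 3 * (ι w - 1)) * om ι

end alg

section aut

variable {L : Type} [Field L] [NumberField L]

theorem fix {ι : Eis →+* L} {g : L ≃ₐ[ℚ] L} (hg : g (ι w) = ι w) (a : Eis) : g (ι a) = ι a := by
  rw [eq_re_add_im a, map_add, map_mul, map_add, map_mul, hg]
  simp only [map_intCast]

theorem cj {ι : Eis →+* L} {g : L ≃ₐ[ℚ] L} (hg : g (ι w) = ι w ^ 2) (a : Eis) :
    g (ι a) = ι (conj a) := by
  conv_lhs => rw [eq_re_add_im a, map_add, map_mul, map_add, map_mul, hg]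
  conv_rhs => rw [eq_re_add_im a, map_add, map_mul, map_add, map_mul, conj_w, map_pow]
  simp only [map_intCast]

/-- the nonvanishing of the linear forms -/
def Nz (ι : Eis →+* L) (x p q p' q' : Eis) : Prop := ∀ ρ : L, ρ ^ 3 = ι x →
  aDE ι p q p' q' ρ ≠ 0 ∧ aNE ι p q p' q' ρ ≠ 0

theorem root_mul (ι : Eis →+* L) {ρ : L} {x : Eis} (hρ : ρ ^ 3 = ι x) : (ι w * ρ) ^ 3 = ι x := by
  rw [mul_pow, GC.om3 (om ι), one_mul, hρ]

theorem ne3 {ι : Eis →+* L} {x p q p' q' : Eis} (h : Nz ι x p q p' q') {ρ : L}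
    (hρ : ρ ^ 3 = ι x) :
    (ι p + ι q * ρ) ≠ 0 ∧ (ι p + ι q * ι w * ρ) ≠ 0 ∧ (ι p + ι q * ι w ^ 2 * ρ) ≠ 0 ∧
      (ι p' + ι q' * ρ) ≠ 0 ∧ (ι p' + ι q' * ι w * ρ) ≠ 0 ∧
      (ι p' + ι q' * ι w ^ 2 * ρ) ≠ 0 := by
  have hc := GC.om3 (om ι)
  obtain ⟨h1, h2⟩ := h ρ hρ
  obtain ⟨h3, h4⟩ := h (ι w * ρ) (root_mul ι hρ)
  unfold aDE at h1 h3
  unfold aNE at h2 h4
  refine ⟨?_, left_ne_zero_of_mul h1, left_ne_zero_of_mul h2, ?_, right_ne_zero_of_mul h2,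
    right_ne_zero_of_mul h1⟩
  · have h5 := left_ne_zero_of_mul h4
    have e : ι p + ι q * ι w ^ 2 * (ι w * ρ) = ι p + ι q * ρ := by
      linear_combination (ι q * ρ) * hc
    rwa [e] at h5
  · have h5 := right_ne_zero_of_mul h3
    have e : ι p' + ι q' * ι w ^ 2 * (ι w * ρ) = ι p' + ι q' * ρ := by
      linear_combination (ι q' * ρ) * hc
    rwa [e] at h5

/-- an automorphism fixing `ω` and `ρ` acts by a root of unity on `A` -/
theorem fixA {ι : Eis →+* L} {x p q p' q' : Eis} (hnz : Nz ι x p q p' q') {ρ A : L}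
    (h : L ≃ₐ[ℚ] L) (hρ : ρ ^ 3 = ι x) (hhω : h (ι w) = ι w) (hhρ : h ρ = ρ)
    (hA : A ^ 3 * aDE ι p q p' q' ρ = aNE ι p q p' q' ρ) : ∃ e : ℕ, h A = ι w ^ e * A := by
  have hD := (hnz ρ hρ).1
  have h1 : h (aDE ι p q p' q' ρ) = aDE ι p q p' q' ρ := by
    unfold aDE
    simp only [map_mul, map_add, map_pow, fix hhω, hhρ]
  have h2 : h (aNE ι p q p' q' ρ) = aNE ι p q p' q' ρ := by
    unfold aNE
    simp only [map_mul, map_add, map_pow, fix hhω, hhρ]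
  have h3 := congrArg h hA
  rw [map_mul, map_pow, h1, h2, ← hA] at h3
  exact GC.cube_eq (om ι) (mul_right_cancel₀ hD h3)

/-- an automorphism fixing `ω` and mapping `ρ` to `ωρ` -/
theorem movA {ι : Eis →+* L} {x b p q p' q' : Eis} (hnz : Nz ι x p q p' q') {ρ t A : L}
    (g : L ≃ₐ[ℚ] L) (hρ : ρ ^ 3 = ι x) (ht : t ^ 3 = ι b) (hs : SolE x b p q p' q')
    (hgω : g (ι w) = ι w) (hgρ : g ρ = ι w * ρ)
    (hA : A ^ 3 * aDE ι p q p' q' ρ = aNE ι p q p' q' ρ) :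
    ∃ e : ℕ, g A * (ι p + ι q * ι w ^ 2 * ρ) =
      ι w ^ e * (A * t * (ι p' + ι q' * ι w ^ 2 * ρ)) := by
  have h3 := congrArg g hA
  have hN := nrm ι hρ p q
  have hN' := nrm ι hρ p' q'
  obtain ⟨n1, n2, n3, n4, n5, n6⟩ := ne3 hnz hρ
  have hnz' := mul_ne_zero n4 n2
  unfold aDE aNE at h3 hA
  simp only [map_mul, map_pow, map_add, fix hgω, hgρ] at h3
  have hc := GC.om3 (om ι)
  have h4 : g A ^ 3 * ((ι p + ι q * ι w ^ 2 * ρ) * (ι p' + ι q' * ρ)) =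
      (ι p + ι q * ρ) * (ι p' + ι q' * ι w ^ 2 * ρ) := by
    have e1 : ι p + ι q * ι w * (ι w * ρ) = ι p + ι q * ι w ^ 2 * ρ := by ring
    have e2 : ι p' + ι q' * ι w ^ 2 * (ι w * ρ) = ι p' + ι q' * ρ := by
      linear_combination (ι q' * ρ) * hc
    have e3 : ι p + ι q * ι w ^ 2 * (ι w * ρ) = ι p + ι q * ρ := by
      linear_combination (ι q * ρ) * hc
    have e4 : ι p' + ι q' * ι w * (ι w * ρ) = ι p' + ι q' * ι w ^ 2 * ρ := by ring
    rw [e1, e2, e3, e4] at h3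
    exact h3
  have heq : ι (p ^ 3 + x * q ^ 3) = ι b * ι (p' ^ 3 + x * q' ^ 3) := by
    rw [hs.eq, map_mul]
  rw [← hN, ← hN'] at heq
  apply GC.cube_eq (om ι)
  apply mul_right_cancel₀ hnz'
  rw [mul_pow, mul_pow, mul_pow, ht]
  calc g A ^ 3 * (ι p + ι q * ι w ^ 2 * ρ) ^ 3 * ((ι p' + ι q' * ρ) * (ι p + ι q * ι w * ρ))
      = (g A ^ 3 * ((ι p + ι q * ι w ^ 2 * ρ) * (ι p' + ι q' * ρ))) *
          ((ι p + ι q * ι w ^ 2 * ρ) ^ 2 * (ι p + ι q * ι w * ρ)) := by ring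
    _ = (ι p + ι q * ρ) * ((ι p + ι q * ι w * ρ) * (ι p + ι q * ι w ^ 2 * ρ)) *
          ((ι p' + ι q' * ι w ^ 2 * ρ) * (ι p + ι q * ι w ^ 2 * ρ)) := by rw [h4]; ring
    _ = (A ^ 3 * ((ι p + ι q * ι w * ρ) * (ι p' + ι q' * ι w ^ 2 * ρ))) *
          (ι b * ((ι p' + ι q' * ι w ^ 2 * ρ) ^ 2 * (ι p' + ι q' * ρ))) := by rw [heq, hA]; ring
    _ = A ^ 3 * ι b * (ι p' + ι q' * ι w ^ 2 * ρ) ^ 3 * ((ι p' + ι q' * ρ) *
          (ι p + ι q * ι w * ρ)) := by ring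

theorem mv {ι : Eis →+* L} {x b p q p' q' : Eis} (hnz : Nz ι x p q p' q') {ρ t A : L}
    (g h : L ≃ₐ[ℚ] L) (c : ℕ) (hρ : ρ ^ 3 = ι x) (ht : t ^ 3 = ι b) (hs : SolE x b p q p' q')
    (hgω : g (ι w) = ι w) (hhω : h (ι w) = ι w) (hgρ : g ρ = ι w * ρ)
    (hhρ : h ρ = ρ) (hht : h t = ι w ^ c * t)
    (hA : A ^ 3 * aDE ι p q p' q' ρ = aNE ι p q p' q' ρ) :
    h (g A) = ι w ^ c * g (h A) := by
  obtain ⟨e, he⟩ := movA hnz g hρ ht hs hgω hgρ hA
  obtain ⟨e', he'⟩ := fixA hnz h hρ hhω hhρ hA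
  have hnz' := (ne3 hnz hρ).2.2.1
  apply mul_right_cancel₀ hnz'
  have h1 := congrArg h he
  simp only [map_mul, map_pow, map_add, fix hhω, hhρ, hht, he'] at h1
  rw [h1, he']
  simp only [map_mul, map_pow, hgω]
  linear_combination (- ι w ^ c * ι w ^ e') * he

/-- the action of an automorphism on the roots -/
def Act {s : ℕ} (ι : Eis →+* L) (x : Eis) (b : Fin s → Eis) (a₀ : ZMod 3) (a : Fin s → ZMod 3)
    (g : L ≃ₐ[ℚ] L) : Prop :=
  g (ι w) = ι w ∧ (∀ ρ : L, ρ ^ 3 = ι x → g ρ = ι w ^ a₀.val * ρ) ∧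
    ∀ (j : Fin s) (ρ : L), ρ ^ 3 = ι (b j) → g ρ = ι w ^ (a j).val * ρ

/-- the action of the conjugate on a root -/
theorem cjr {ι : Eis →+* L} {g σ : L ≃ₐ[ℚ] L} (hg : g (ι w) = ι w ^ 2) (hσ : σ (ι w) = ι w)
    {y t : Eis} (hy : y * conj y = t ^ 3) {ρ : L} (hρ : ρ ^ 3 = ι y) {a : ℕ}
    (ha : σ ρ = ι w ^ a * ρ) : (g⁻¹ * σ * g) ρ = ι w ^ a * ρ := by
  rcases eq_or_ne ρ 0 with rfl | h0
  · rw [map_zero, mul_zero]
  have h1 : (g ρ * ρ) ^ 3 = (ι t) ^ 3 := by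
    rw [mul_pow, ← map_pow, hρ, cj hg, ← map_mul, mul_comm (conj y), hy, map_pow]
  obtain ⟨k, hk⟩ := GC.cube_eq (om ι) h1
  have hk' : g ρ * ρ = ι (w ^ k * t) := by rw [hk, map_mul, map_pow]
  have h2 : σ (g ρ) * (ι w ^ a * ρ) = g ρ * ρ := by
    rw [← ha, ← map_mul, hk', fix hσ]
  have h3 : σ (g ρ) * ι w ^ a = g ρ := by
    apply mul_right_cancel₀ h0
    rw [← h2]
    ring
  have hc := GC.om3 (om ι)
  have h4 : σ (g ρ) = g (ι w ^ a * ρ) := by
    rw [map_mul, map_pow, hg, ← h3]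
    have h5 : (ι w ^ 2) ^ a * (σ (g ρ) * ι w ^ a) = (ι w ^ 3) ^ a * σ (g ρ) := by ring
    rw [h3] at h5 ⊢
    rw [h5, hc, one_pow, one_mul]
  rw [AlgEquiv.mul_apply, AlgEquiv.mul_apply, h4, ← AlgEquiv.mul_apply, inv_mul_cancel]
  rfl

theorem cjAct {s : ℕ} {ι : Eis →+* L} {x : Eis} {b : Fin s → Eis} {a₀ : ZMod 3}
    {a : Fin s → ZMod 3} {g σ : L ≃ₐ[ℚ] L} (hg : g (ι w) = ι w ^ 2)
    (hx : ∃ t : Eis, x * conj x = t ^ 3) (hb : ∀ j, ∃ t : Eis, b j * conj (b j) = t ^ 3)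
    (h : Act ι x b a₀ a σ) : Act ι x b a₀ a (g⁻¹ * σ * g) := by
  refine ⟨?_, fun ρ hρ => ?_, fun j ρ hρ => ?_⟩
  · have h1 : σ (ι w ^ 2) = ι w ^ 2 := by rw [map_pow, h.1]
    rw [AlgEquiv.mul_apply, AlgEquiv.mul_apply, hg, h1, ← hg, ← AlgEquiv.mul_apply,
      inv_mul_cancel]
    rfl
  · obtain ⟨t, ht⟩ := hx
    exact cjr hg h.1 ht hρ (h.2.1 ρ hρ)
  · obtain ⟨t, ht⟩ := hb j
    exact cjr hg h.1 ht hρ (h.2.2 j ρ hρ)

/-- the commutator -/
theorem com {s : ℕ} {ι : Eis →+* L} {x : Eis} {b p q p' q' : Fin s → Eis}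
    {v : Fin s → ZMod 3} (hsol : ∀ j, SolE x (b j) (p j) (q j) (p' j) (q' j))
    (hnz : ∀ j, Nz ι x (p j) (q j) (p' j) (q' j)) (hr : ∀ j, ∃ θ : L, θ ^ 3 = ι (b j))
    {σ τ : L ≃ₐ[ℚ] L} (hσ : Act ι x b 1 0 σ) (hτ : Act ι x b 0 v τ) (j : Fin s) (ρ A : L)
    (hρ : ρ ^ 3 = ι x)
    (hA : A ^ 3 * aDE ι (p j) (q j) (p' j) (q' j) ρ = aNE ι (p j) (q j) (p' j) (q' j) ρ) :
    ((σ * τ)⁻¹ * (τ * σ)) A = ι w ^ (v j).val * A := by
  obtain ⟨θ, hθ⟩ := hr j
  apply GC.comm_apply σ τ _ hσ.1 hτ.1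
  refine mv (hnz j) σ τ _ hρ hθ (hsol j) hσ.1 hτ.1 ?_ ?_ (hτ.2.2 j θ hθ) hA
  · rw [hσ.2.1 ρ hρ, show (1 : ZMod 3).val = 1 from rfl, pow_one]
  · rw [hτ.2.1 ρ hρ, ZMod.val_zero, pow_zero, one_mul]

end aut

theorem val_neg : ∀ v : ZMod 3, (2 * v.val) % 3 = (-v).val % 3 := by decide

end GCK

/-- the commutators in the governing field over `K` -/
theorem GCK_thm (hGKK : Stmt_GKK) : Stmt_GCK := by
  intro s x b p q p' q' f L _ _ ζ ι hS hG v
  have hω := GCK.om ι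
  have hf : 0 < f := by
    rcases Nat.eq_zero_or_pos f with h | h
    · exfalso
      have h1 := hG.hω
      rw [h, Nat.zero_div, pow_zero] at h1
      rw [h1] at hω
      norm_num at hω
    · exact h
  obtain ⟨σ, hσ⟩ := hGKK s x b p q p' q' f L ζ ι hS hG 1 0
  obtain ⟨τ, hτ⟩ := hGKK s x b p q p' q' f L ζ ι hS hG 0 v
  have hσ' : GCK.Act ι x b 1 0 σ := hσ
  have hτ' : GCK.Act ι x b 0 v τ := hτ
  have hnz : ∀ j, GCK.Nz ι x (p j) (q j) (p' j) (q' j) := fun j ρ hρ => hG.D j ρ hρ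
  refine ⟨(σ * τ)⁻¹ * (τ * σ), ?_, fun ρ hρ => ?_, fun j ρ hρ => ?_, fun j ρ A hρ hA => ⟨?_, ?_⟩⟩
  · have hz : ∀ g : L ≃ₐ[ℚ] L, ∃ i : ℕ, g ζ = ζ ^ i := by
      intro g
      have h1 : (g ζ) ^ f = 1 := by rw [← map_pow, hG.prim.pow_eq_one, map_one]
      haveI : NeZero f := ⟨hf.ne'⟩
      obtain ⟨i, _, hi⟩ := hG.prim.eq_pow_of_pow_eq_one h1
      exact ⟨i, hi.symm⟩
    obtain ⟨i, hi⟩ := hz σ
    obtain ⟨j, hj⟩ := hz τ
    have h1 : τ (σ ζ) = ι w ^ 0 * σ (τ ζ) := by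
      rw [hi, hj, map_pow, map_pow, hi, hj, pow_zero, one_mul, ← pow_mul, ← pow_mul, mul_comm]
    rw [GC.comm_apply σ τ 0 hσ'.1 hτ'.1 ζ h1, pow_zero, one_mul]
  · have h1 : τ (σ ρ) = ι w ^ 0 * σ (τ ρ) := by
      rw [hσ'.2.1 ρ hρ, hτ'.2.1 ρ hρ, map_mul, map_mul, map_pow, map_pow, hσ'.1, hτ'.1,
        hσ'.2.1 ρ hρ, hτ'.2.1 ρ hρ]
      ring
    rw [GC.comm_apply σ τ 0 hσ'.1 hτ'.1 ρ h1, pow_zero, one_mul]
  · have h1 : τ (σ ρ) = ι w ^ 0 * σ (τ ρ) := by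
      rw [hσ'.2.2 j ρ hρ, hτ'.2.2 j ρ hρ, map_mul, map_mul, map_pow, map_pow, hσ'.1, hτ'.1,
        hσ'.2.2 j ρ hρ, hτ'.2.2 j ρ hρ]
      ring
    rw [GC.comm_apply σ τ 0 hσ'.1 hτ'.1 ρ h1, pow_zero, one_mul]
  · exact GCK.com hS.sol hnz hG.rb hσ' hτ' j ρ A hρ hA
  · intro g hg
    have h1 := GCK.com hS.sol hnz hG.rb (GCK.cjAct hg hS.cx hS.cb hσ')
      (GCK.cjAct hg hS.cx hS.cb hτ') j ρ A hρ hA
    have h2 : ((g⁻¹ * σ * g) * (g⁻¹ * τ * g))⁻¹ * ((g⁻¹ * τ * g) * (g⁻¹ * σ * g)) =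
        g⁻¹ * ((σ * τ)⁻¹ * (τ * σ)) * g := by group
    rw [h2] at h1
    have h3 := congrArg g h1
    rw [← AlgEquiv.mul_apply, ← mul_assoc, ← mul_assoc, mul_inv_cancel, one_mul,
      AlgEquiv.mul_apply, map_mul, map_pow, hg, ← pow_mul] at h3
    rw [h3, pow_eq_pow_mod _ (GC.om3 hω), GCK.val_neg, ← pow_eq_pow_mod _ (GC.om3 hω)]

end Pool.Agent.PTK


end

section

/-!
# PTK_NHO: the first cohomology of the `S`-units
-/

set_option autoImplicit false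

open NumberField IsDedekindDomain Finset
open scoped nonZeroDivisors Pointwise

namespace Pool.Agent.PTK

open Pool.Agent.Lib_helper18 Pool.Agent.Lib_helper18.Eis Pool.Agent.Lib_helper84.Cub
open Pool.Agent.PT hiding NHO

namespace NHO

variable {L : Type} [Field L] [NumberField L]

lemma mem_SU (ι : Eis →+* L) (S : Finset Pl) (u : Lˣ) :
    u ∈ SU ι S ↔ ∀ P : HeightOneSpectrum (𝓞 L), (∀ v ∈ S, P ∉ Abv ι v) →
      P.valuation L (u : L) = 1 := by
  constructor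
  · intro h P hP
    exact h P (by
      intro hmem
      simp only [Set.mem_iUnion] at hmem
      obtain ⟨v, hv, hPv⟩ := hmem
      exact hP v hv hPv)
  · intro h P hP
    refine h P ?_
    intro v hv hPv
    apply hP
    simp only [Set.mem_iUnion]
    exact ⟨v, hv, hPv⟩

lemma supp_fin (y : L) (hy : y ≠ 0) :
    {P : HeightOneSpectrum (𝓞 L) | P.valuation L y ≠ 1}.Finite := by
  have h1 := HeightOneSpectrum.Support.finite (𝓞 L) y
  have h2 := HeightOneSpectrum.Support.finite (𝓞 L) y⁻¹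
  refine (h1.union h2).subset ?_
  intro P hP
  have hP' : P.valuation L y ≠ 1 := hP
  rcases lt_or_gt_of_ne hP' with h | h
  · right
    change 1 < P.valuation L y⁻¹
    rw [map_inv₀]
    have hne : P.valuation L y ≠ 0 := (Valuation.ne_zero_iff _).2 hy
    exact (one_lt_inv₀ (zero_lt_iff.2 hne)).2 h
  · left
    exact h

end NHO

open _root_.Pool.Agent.PTK.NHO in
theorem NHO_thm (hSPP : SPP) (hNHN : Stmt_NHN) (hNTR : Stmt_NTR) : Stmt_NHO := by
  intro x L _ _ ι θ σ hx h3x hC S hnone hS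
  obtain ⟨hN1, hN2, hN3⟩ := hNHN x L ι θ σ hx hC
  obtain ⟨hT1, hT2, hT3, hT4, hT5, hT6⟩ := hNTR x L ι θ σ hx h3x hC
  obtain ⟨-, hP2, -, hP4, -, -⟩ := hSPP
  -- the prime `P2` with `P2 z = P (σ z)`
  have hpull : ∀ P : HeightOneSpectrum (𝓞 L), ∃ P₂ : HeightOneSpectrum (𝓞 L),
      ∀ z : L, P₂.valuation L z = P.valuation L (σ z) := by
    intro P
    obtain ⟨P₁, h₁⟩ := hT3 P
    obtain ⟨P₂, h₂⟩ := hT3 P₁
    refine ⟨P₂, fun z => ?_⟩
    rw [← h₁ (σ z), ← h₂ (σ (σ z)), hN1]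
  have hAbv : ∀ (P P₂ : HeightOneSpectrum (𝓞 L)),
      (∀ z : L, P₂.valuation L z = P.valuation L (σ z)) → ∀ v, P₂ ∈ Abv ι v ↔ P ∈ Abv ι v := by
    intro P P₂ h v
    change P₂.valuation L (ι (uni v)) < 1 ↔ P.valuation L (ι (uni v)) < 1
    rw [h, hC.sι]
  have hsm : ∀ u : Lˣ, ((σ • u : Lˣ) : L) = σ (u : L) := fun u => rfl
  constructor
  · intro u hu
    rw [mem_SU] at hu ⊢
    intro P hP
    obtain ⟨P₂, h₂⟩ := hpull P
    rw [hsm, ← h₂]
    refine hu P₂ ?_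
    intro v hv hmem
    exact hP v hv ((hAbv P P₂ h₂ v).1 hmem)
  · intro u hu hprod
    rw [mem_SU] at hu
    obtain ⟨y, hy⟩ := hN3 u hprod
    -- uniqueness of the place below
    have hlam : ∀ π : PP, ¬ π.1 ∣ lam := by
      intro π h
      exact (hP4 π).1 (h.trans lam_dvd_three)
    have huniq : ∀ (π : PP) (v : Pl) (P : HeightOneSpectrum (𝓞 L)), P ∈ Abv ι (some π) →
        P ∈ Abv ι v → v = some π := by
      intro π v P hP hPv
      obtain ⟨v₀, -, hv₀⟩ := hT2 P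
      have h1 := hv₀ _ hP
      have h2 := hv₀ _ hPv
      have key : ∀ w' : Pl, uni v₀ ∣ uni w' → w' = v₀ := by
        intro w' hd
        cases v₀ with
        | none =>
          cases w' with
          | none => rfl
          | some π' =>
            exfalso
            have : Associated lam π'.1 := prime_lam.associated_of_dvd π'.2.1 hd
            exact hlam π' this.symm.dvd
        | some π₀ =>
          cases w' with
          | none => exact absurd hd (hlam π₀)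
          | some π' =>
            have : Associated π₀.1 π'.1 := π₀.2.1.associated_of_dvd π'.2.1 hd
            rw [hP2 _ _ this]
      exact (key v h2).trans (key (some π) h1).symm
    -- valuations of `y` at the primes above a place outside `S`
    have hval : ∀ P : HeightOneSpectrum (𝓞 L), (∀ v ∈ S, P ∉ Abv ι v) →
        P.valuation L (σ (y : L)) = P.valuation L (y : L) := by
      intro P hP
      have h1 := hu P hP
      rw [hy, Units.val_div_eq_div_val, map_div₀, hsm] at h1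
      have hne : P.valuation L (σ (y : L)) ≠ 0 :=
        (Valuation.ne_zero_iff _).2 (by simp)
      exact ((div_eq_one_iff_eq hne).1 h1).symm
    have hout : ∀ (π : PP), some π ∉ S → ∀ P ∈ Abv ι (some π), ∀ v ∈ S, P ∉ Abv ι v := by
      intro π hπ P hP v hv hPv
      exact hπ (huniq π v P hP hPv ▸ hv)
    have hconst : ∀ (π : PP), some π ∉ S → ∀ i : ℕ, ∀ P ∈ Abv ι (some π),
        P.valuation L ((σ ^ i) (y : L)) = P.valuation L (y : L) := by
      intro π hπ i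
      induction i with
      | zero => intro P _; simp
      | succ i ih =>
        intro P hP
        obtain ⟨P₂, h₂⟩ := hpull P
        have hP₂ : P₂ ∈ Abv ι (some π) := (hAbv P P₂ h₂ _).2 hP
        have e : (σ ^ (i + 1)) (y : L) = σ ((σ ^ i) (y : L)) := by
          rw [pow_succ']; rfl
        rw [e, ← h₂, ih P₂ hP₂, h₂, hval P (hout π hπ P hP)]
    have hsame : ∀ (π : PP), some π ∉ S → ∀ P ∈ Abv ι (some π), ∀ P' ∈ Abv ι (some π),
        P'.valuation L (y : L) = P.valuation L (y : L) := by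
      intro π hπ P hP P' hP'
      obtain ⟨i, hi⟩ := hT5 (some π) P P' hP hP'
      rw [← hi, hconst π hπ i P' hP']
    -- the finite set of places
    have hfin : {π : PP | ∃ P ∈ Abv ι (some π), P.valuation L (y : L) ≠ 1}.Finite := by
      have h1 := supp_fin (y : L) (by simp)
      have h2 : (⋃ P ∈ {P : HeightOneSpectrum (𝓞 L) | P.valuation L (y : L) ≠ 1},
          {π : PP | P ∈ Abv ι (some π)}).Finite := by
        refine h1.biUnion fun P _ => ?_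
        refine Set.Subsingleton.finite ?_
        intro π hπ π' hπ'
        have := huniq π (some π') P hπ hπ'
        exact (Option.some_injective _ this).symm
      refine h2.subset ?_
      rintro π ⟨P, hP, hne⟩
      simp only [Set.mem_iUnion]
      exact ⟨P, hne, hP⟩
    -- the exponents
    have hexp : ∀ π : PP, ∃ n : ℤ, some π ∉ S → ∀ P ∈ Abv ι (some π),
        P.valuation L (y : L) = WithZero.exp n := by
      intro π
      by_cases hπ : some π ∈ S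
      · exact ⟨0, fun h => absurd hπ h⟩
      · obtain ⟨P, hP⟩ := (hT4 (some π)).2
        have hne : P.valuation L (y : L) ≠ 0 := (Valuation.ne_zero_iff _).2 (by simp)
        refine ⟨WithZero.log (P.valuation L (y : L)), fun _ P' hP' => ?_⟩
        rw [hsame π hπ P hP P' hP', WithZero.exp_log hne]
    choose n hn using hexp
    have hι : ∀ π : PP, ι π.1 ≠ 0 := by
      intro π h
      exact π.2.1.ne_zero (hC.inj (h.trans (map_zero ι).symm))
    set T : Finset PP := hfin.toFinset with hT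
    set g : Lˣ := ∏ π ∈ T, (Units.mk0 (ι π.1) (hι π)) ^ n π with hg
    have hσg : σ • g = g := by
      rw [hg, Finset.smul_prod']
      refine Finset.prod_congr rfl fun π _ => ?_
      rw [smul_zpow']
      congr 1
      ext
      rw [hsm]
      exact hC.sι _
    have hvg : ∀ P : HeightOneSpectrum (𝓞 L), P.valuation L (g : L) =
        ∏ π ∈ T, (P.valuation L (ι π.1)) ^ n π := by
      intro P
      rw [hg, Units.coe_prod, map_prod]
      refine Finset.prod_congr rfl fun π _ => ?_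
      rw [Units.val_zpow_eq_zpow_val, map_zpow₀]
      rfl
    refine ⟨y * g, ?_, ?_⟩
    · rw [mem_SU]
      intro P hP
      obtain ⟨v₀, hv₀, -⟩ := hT2 P
      have hv₀S : v₀ ∉ S := fun h => hP v₀ h hv₀
      cases v₀ with
      | none => exact absurd hnone hv₀S
      | some π₀ =>
        have hother : ∀ π : PP, π ≠ π₀ → P.valuation L (ι π.1) = 1 := by
          intro π hπ
          refine le_antisymm (hT1 P π.1) ?_
          by_contra hlt
          have : P ∈ Abv ι (some π) := not_le.1 hlt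
          exact hπ (Option.some_injective _ (huniq π₀ (some π) P hv₀ this))
        have hself : P.valuation L (ι π₀.1) = WithZero.exp (-1 : ℤ) := by
          refine hT6 π₀ P ?_ hv₀
          intro hd
          exact hv₀S (hS π₀ hd)
        rw [Units.val_mul, map_mul, hvg, hn π₀ hv₀S P hv₀]
        by_cases hmem : π₀ ∈ T
        · rw [Finset.prod_eq_single π₀ (fun π _ hπ => by rw [hother π hπ, one_zpow])
            (fun h => absurd hmem h), hself, ← WithZero.exp_zsmul, ← WithZero.exp_add]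
          simp
        · rw [Finset.prod_eq_one (fun π hπ => by
            rw [hother π (fun h => hmem (h ▸ hπ)), one_zpow]), mul_one]
          have h1 : P.valuation L (y : L) = 1 := by
            by_contra hne
            exact hmem (hfin.mem_toFinset.2 ⟨P, hv₀, hne⟩)
          rw [← hn π₀ hv₀S P hv₀, h1]
    · rw [hy, smul_mul', hσg, mul_div_mul_right_eq_div]

end Pool.Agent.PTK


end
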