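import Mathlib
import Pool.Agent.PTDM.C21
import Pool.Agent.PTDM.C24
import Pool.Agent.PTDM.C26
import Pool.Agent.PTDM.C27
import Pool.Agent.PTDM.C29
import Pool.Agent.PTDM.C42
import Pool.Agent.PTDM.C45
import Pool.Agent.PTDM.C46
import Pool.Agent.PTKW.C01
import Pool.Agent.PTKW.C02
import Pool.Agent.PTKW.C04

/-! Parts: PTKX.F3E, PTKX.GFZ, PTKX.GMB, PTKX.IIA, PTKX.JC1, PTKX.MC1, PTKX.CTK, PTKX.MSKU, PTKX.MS1, PTKX.NBU, PTKX.NBX, PTKX.NFL, PTKX.ZS1, PTKX.ZS2 -/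

section

/-!
# PTK_F3E: two noncubes at a place dividing `B`

Copy of `PT/F3R.lean` with variables in `Z[w]` instead of `ℤ`.
-/

set_option autoImplicit false

open NumberField IsDedekindDomain Finset
open scoped nonZeroDivisors Pointwise

namespace Pool.Agent.PTK

open Pool.Agent.Lib_helper18 Pool.Agent.Lib_helper18.Eis Pool.Agent.Lib_helper84.Cub
open Pool.Agent.PT Pool.Agent.PTE Pool.Agent.PT3 Pool.Agent.PTL Pool.Agent.PTN

namespace F3E

/-- the main computation, over `Z[w]` -/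
theorem main (hSTM : STM) (π : PP) (B b x p q p' q' : Eis) (hBne : B ≠ 0)
    (hBcf : V π.1 B ≤ 2) (b0 : b ≠ 0) (x0 : x ≠ 0)
    (heq : p ^ 3 + b * q ^ 3 = x * (p' ^ 3 + b * q' ^ 3)) (hn1 : p ^ 3 + b * q ^ 3 ≠ 0)
    (hdvd : π.1 ∣ B) (hVb : ¬ 3 ∣ V π.1 b) (hVx : ¬ 3 ∣ V π.1 x) :
    UVE (tm π.1) B b x p q p' q' =
      (if 3 ∣ V π.1 b + V π.1 B then - tm π.1 w x else 0) +
      (if 3 ∣ V π.1 x + V π.1 B then - tm π.1 w b else 0) := by
  have hπ : Prime π.1 := π.2.1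
  have h3 := PT.F3R.not_dvd_three π
  have S := hSTM π.1 hπ h3
  have B0 : B ≠ 0 := hBne
  have w0 : w ≠ 0 := isUnit_w.ne_zero
  have Vw : V π.1 w = 0 := V_eq_zero (not_dvd_of_isUnit hπ isUnit_w)
  have tw : ∀ y : Eis, tm π.1 w y = (V π.1 y : ZMod 3) * ch π.1 w := by
    intro y
    unfold tm
    rw [Vw]
    push_cast
    ring
  have hv : (V π.1 B : ZMod 3) ≠ 0 := by
    rw [Ne, ← PT.F3R.three_dvd_iff']
    have h1 : V π.1 B ≠ 0 := fun h => V_eq_zero_iff.1 h hdvd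
    have h2 := hBcf
    omega
  have hβ : (V π.1 b : ZMod 3) ≠ 0 := by rwa [Ne, ← PT.F3R.three_dvd_iff']
  have hξ : (V π.1 x : ZMod 3) ≠ 0 := by rwa [Ne, ← PT.F3R.three_dvd_iff']
  have skw : ∀ a c : Eis, tm π.1 a c = - tm π.1 c a := by
    intro a c
    unfold tm
    ring
  have e3 : ∀ n : ℕ, ((3 * n : ℕ) : ZMod 3) = 0 := fun n => (PT.F3R.three_dvd_iff' _).1 ⟨n, rfl⟩
  -- the valuations of the four terms
  have c1 : p ^ 3 ≠ 0 → (V π.1 (p ^ 3) : ZMod 3) = 0 := by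
    intro h
    have h1 : p ≠ 0 := fun h' => h (by rw [h']; ring)
    rw [V_pow hπ h1, e3]
  have c2 : b * q ^ 3 ≠ 0 → (V π.1 (b * q ^ 3) : ZMod 3) = V π.1 b := by
    intro h
    have h1 : q ≠ 0 := fun h' => h (by rw [h']; ring)
    rw [V_mul hπ b0 (pow_ne_zero _ h1), V_pow hπ h1, Nat.cast_add, e3, add_zero]
  have c3 : -(x * p' ^ 3) ≠ 0 → (V π.1 (-(x * p' ^ 3)) : ZMod 3) = V π.1 x := by
    intro h
    have h1 : p' ≠ 0 := fun h' => h (by rw [h']; ring)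
    rw [V_neg, V_mul hπ x0 (pow_ne_zero _ h1), V_pow hπ h1, Nat.cast_add, e3, add_zero]
  have c4 : -(x * b * q' ^ 3) ≠ 0 →
      (V π.1 (-(x * b * q' ^ 3)) : ZMod 3) = V π.1 x + V π.1 b := by
    intro h
    have h1 : q' ≠ 0 := fun h' => h (by rw [h']; ring)
    rw [V_neg, V_mul hπ (mul_ne_zero x0 b0) (pow_ne_zero _ h1), V_mul hπ x0 b0, V_pow hπ h1,
      Nat.cast_add, e3, add_zero, Nat.cast_add]
  have hG : ∀ i, GfE p q p' q' i = q * p' - w ^ i * p * q' := fun i => rfl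
  have hsum : tm π.1 w (B * x * b) = ((V π.1 B : ZMod 3) +
      V π.1 x + V π.1 b) * ch π.1 w := by
    rw [tw, V_mul hπ (mul_ne_zero B0 x0) b0, V_mul hπ B0 x0]
    push_cast
    ring
  unfold UVE
  rw [hsum, tw, tw, PT.F3R.ite3, PT.F3R.ite3, Nat.cast_add, Nat.cast_add]
  by_cases hj : (V π.1 b : ZMod 3) = V π.1 x
  · obtain ⟨f1, f2, f3, f4, f5⟩ := PT.F3R.four hπ (a := p ^ 3) (b := b * q ^ 3)
      (c := -(x * p' ^ 3)) (d := -(x * b * q' ^ 3))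
      (by linear_combination heq) c1 c2 c3 c4 hβ.symm hξ.symm
      (by
        rw [← hj]
        intro h
        apply hβ
        linear_combination h + (V π.1 b : ZMod 3) * three_zmod)
      (by
        intro h
        apply hξ
        linear_combination -h)
      (by
        intro h
        apply hβ
        linear_combination -h)
      (fun h => hn1 (by rw [h.1, h.2.1, add_zero]))
    obtain ⟨g1, g2⟩ := PT.F3R.cmp hπ (A := -(x * b)) (y := q * p') (z := p * q')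
      (neg_ne_zero.2 (mul_ne_zero x0 b0)) f1 f2 f3 f4 f5 (by ring) (by ring)
    have hc : ∀ i, tm π.1 B (GfE p q p' q' i) = tm π.1 B (q * p') := by
      intro i
      rw [skw, skw B, S.cont (q * p') (GfE p q p' q' i) B g1 B0]
      have e : GfE p q p' q' i - q * p' = p * q' * (-w ^ i) := by
        rw [hG]
        ring
      rw [e]
      exact Dvd.dvd.mul_right g2 _
    rw [hc, hc, sub_self, zero_add, ← hj]
    exact PT.F3R.fin1 _ _ _ hv hβ
  · obtain ⟨f1, f2, f3, f4, f5⟩ := PT.F3R.four hπ (a := b * q ^ 3) (b := p ^ 3)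
      (c := -(x * b * q' ^ 3)) (d := -(x * p' ^ 3))
      (by linear_combination heq) c2 c1 c4 c3 hβ
      (by
        intro h
        apply hξ
        linear_combination -h)
      hj hξ.symm
      (by
        intro h
        apply hβ
        linear_combination h)
      (fun h => hn1 (by rw [h.1, h.2.1, add_zero]))
    obtain ⟨g1, g2⟩ := PT.F3R.cmp hπ (A := -(x * b)) (y := p * q') (z := q * p')
      (neg_ne_zero.2 (mul_ne_zero x0 b0)) f1 f2 f3 f4 f5 (by ring) (by ring)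
    have hc : ∀ i, tm π.1 B (GfE p q p' q' i) =
        -(tm π.1 (w ^ i) B + tm π.1 (-(p * q')) B) := by
      intro i
      have gn : -(p * q') ≠ 0 := neg_ne_zero.2 g1
      have wi : w ^ i ≠ 0 := pow_ne_zero _ w0
      have hVi : V π.1 (w ^ i * -(p * q')) = V π.1 (p * q') := by
        rw [V_mul hπ wi gn, V_neg, V_eq_zero (not_dvd_of_isUnit hπ (isUnit_w.pow i)), zero_add]
      rw [skw, ← S.mul _ _ _ wi gn B0,
        S.cont (w ^ i * -(p * q')) (GfE p q p' q' i) B (mul_ne_zero wi gn) B0]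
      have e : GfE p q p' q' i - w ^ i * -(p * q') = q * p' := by
        rw [hG]
        ring
      rw [e, hVi]
      exact g2
    have hw2 : tm π.1 (w ^ 2) B = tm π.1 w B + tm π.1 w B := by
      rw [pow_two, S.mul _ _ _ w0 w0 B0]
    rw [hc, hc, hw2, pow_one, tw]
    have h6 := PT.F3R.fin2 _ _ _ (ch π.1 w) hv hβ hξ hj
    rw [← h6]
    ring

end F3E

theorem F3E_thm (hSTM : STM) : Stmt_F3E := by
  intro π B b x p q p' q' hB hb hx hs hdvd hVb hVx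
  exact F3E.main hSTM π B b x p q p' q' hB.ne (hB.cf π) hb.ne hx.ne hs.eq hs.n1 hdvd hVb hVx

end Pool.Agent.PTK


end

section

/-!
# Frobenius elements when all the `b j` are cubes modulo `Q`, for both prime factors
-/

set_option autoImplicit false

open NumberField IsDedekindDomain Finset
open scoped nonZeroDivisors Pointwise

namespace Pool.Agent.PTK

open Pool.Agent.Lib_helper18 Pool.Agent.Lib_helper18.Eis Pool.Agent.Lib_helper84.Cub
open Pool.Agent.PT Pool.Agent.PTE Pool.Agent.PT3 Pool.Agent.PTL Pool.Agent.PTN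

/-- GFZ: Frobenius elements when all the `b j` are cubes modulo `Q`, `Q = 1 (mod 3)`. -/
theorem GFZ_thm (hSPLT : SPLT) : Stmt_GFZ := by
  classical
  intro s b p q p' q' f L _ _ ζ ω hS hG
  let B : Fin s → Fin s → ℕ := fun j i => (b j).natAbs +
    (p j i ^ 3 + b j * q j i ^ 3).natAbs + (p' j i ^ 3 + b j * q' j i ^ 3).natAbs
  refine ⟨∑ j, ∑ i, B j i, fun Q hQ hQN hQ3 P hP hQP φ hφ ρ hρQ hsym => ?_⟩
  have hB : ∀ j i, B j i < Q := by
    intro j i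
    refine lt_of_le_of_lt ?_ hQN
    have h1 : B j i ≤ ∑ i, B j i :=
      Finset.single_le_sum (f := fun i => B j i) (fun _ _ => Nat.zero_le _) (Finset.mem_univ i)
    refine h1.trans ?_
    exact Finset.single_le_sum (f := fun j => ∑ i, B j i) (fun _ _ => Nat.zero_le _)
      (Finset.mem_univ j)
  have hb : ∀ j, ¬ (Q : ℤ) ∣ b j := fun j =>
    GFR.not_dvd_of_lt (PTE.GFRS.ne_zero hS j)
      (by have := hB j j; simp only [B] at this; omega)
  have hd1 : ∀ j i : Fin s, j ≠ i →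
      ¬ (Q : ℤ) ∣ p j i ^ 3 + b j * q j i ^ 3 ∧
      ¬ (Q : ℤ) ∣ p' j i ^ 3 + b j * q' j i ^ 3 := by
    intro j i hji
    have hsol := hS.sol j i hji
    have h2 : p' j i ^ 3 + b j * q' j i ^ 3 ≠ 0 := by
      intro h0
      refine hsol.n1 ?_
      rw [hsol.eq, h0, mul_zero]
    have hBji := hB j i
    simp only [B] at hBji
    have e1 := GFR.not_dvd_of_lt (Q := Q) hsol.n1 (by omega)
    have e2 := GFR.not_dvd_of_lt (Q := Q) h2 (by omega)
    exact ⟨e1, e2⟩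
  obtain ⟨ωB, ρ₀, F, _, mk, z, ψ, rfl, hρ₀, D⟩ :=
    PTE.GFRS.exists_dat hSPLT SPP_thm hQ hP hQP hQ3 hφ hG.rel
  -- the statement for the prime factor compatible with `P`
  have key1 : (∀ j : Fin s, sym ρ₀.1 (b j : Eis) = 0) →
      ∀ (j : Fin s) (θ : L), θ ^ 3 = (b j : L) → φ θ = θ := by
    intro h1 j θ hθ
    obtain ⟨θB, rfl, hθB⟩ := PTE.GFRS.exists_int hθ
    by_contra h3
    exact D.sym_ne hθB (hb _)
      (fun h => h3 (congrArg (fun x : 𝓞 L => (x : L)) h)) (h1 j)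
  have key2 : (∀ (j : Fin s) (θ : L), θ ^ 3 = (b j : L) → φ θ = θ) →
      ∀ j i : Fin s, j ≠ i → ∀ (r : ℤ) (t : ZMod 3), (Q : ℤ) ∣ r ^ 3 - b j →
      IsTS b p q p' q' (ωB : L) φ j i t →
      t = TAUVS ρ₀.1 (p j i) (q j i) (p' j i) (q' j i) r := by
    intro hF j i hji r t hr ht
    obtain ⟨e1, e2⟩ := hd1 j i hji
    obtain ⟨θ₀, hθ₀⟩ := hG.root j
    obtain ⟨θ₁, rfl, hθ₁⟩ := PTE.GFRS.exists_int hθ₀
    obtain ⟨θ, hθ, hrθ⟩ := D.exists_root hr hθ₁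
    have hθL : (θ : L) ^ 3 = (b j : L) := by
      rw [← map_pow, hθ, map_intCast]
    obtain ⟨A, hA⟩ := hG.A j i hji θ hθL
    exact D.core e1 e2 hr hrθ (hF j θ hθL) hA (ht θ A hθL hA)
  -- the other prime factor
  obtain ⟨-, -, h3, h4, h5, -⟩ := hSPLT.2 Q ρ₀ hQ hQ3 hρ₀
  have hC : GFRU.CJ ρ₀.1 Q := ⟨h4, h5⟩
  rcases h3 ρ ⟨conj ρ.1, hρQ⟩ with h6 | h6
  · rw [h6] at hsym ⊢
    have hF := key1 hsym
    exact ⟨D.fω, hF, key2 hF⟩
  · rw [h6] at hsym ⊢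
    have hF := key1 fun j => by
      have h7 := hsym j
      rwa [hC.int (hb _), neg_eq_zero] at h7
    refine ⟨D.fω, hF, fun j i hji r t hr ht => ?_⟩
    rw [hC.tauvs (hd1 j i hji).1 (hd1 j i hji).2 hr]
    exact key2 hF j i hji r t hr ht

end Pool.Agent.PTK


end

section

/-!
# PTK_GMB: the values of `gM`
-/

set_option autoImplicit false

namespace Pool.Agent.PTK

namespace GMB

theorem gM_succ (k j : ℕ) : gM (k + 1) j =
    (1 + 3 ^ (k + 1) / 3 ^ j) * gM k j + (3 ^ j - 1) * 3 ^ k * gM k (j - 1) := rfl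

theorem MoB_succ (k : ℕ) : MoB (k + 1) = MoB k * (1 + 3 ^ (k + 1)) := by
  unfold MoB
  rw [Finset.prod_range_succ]

theorem MoB_zero : MoB 0 = 1 := by
  unfold MoB
  rw [Finset.range_zero, Finset.prod_empty]

theorem one_le (k : ℕ) : 1 ≤ MoB k := by
  induction k with
  | zero => rw [MoB_zero]
  | succ k ih =>
    rw [MoB_succ]
    have h : (1 : ℝ) ≤ 1 + 3 ^ (k + 1) := by
      have : (0 : ℝ) < 3 ^ (k + 1) := by positivity
      linarith
    exact one_le_mul_of_one_le_of_one_le ih h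

theorem z0 (k : ℕ) : gM k 0 = MoB k := by
  induction k with
  | zero => rw [MoB_zero]; rfl
  | succ k ih =>
    rw [gM_succ, MoB_succ, ih, pow_zero, sub_self, zero_mul, zero_mul, div_one]
    ring

theorem z1 (k : ℕ) : gM k 1 = MoB k := by
  induction k with
  | zero => rw [MoB_zero]; rfl
  | succ k ih =>
    rw [gM_succ, MoB_succ, ih, Nat.sub_self, z0]
    ring

theorem z2 (k : ℕ) : gM (k + 1) 2 = (1 + 3 ^ k / 3) * gM k 2 + 8 * 3 ^ k * MoB k := by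
  rw [gM_succ, show (2 - 1 : ℕ) = 1 from rfl, z1]
  ring

theorem lo (k : ℕ) : MoB k ≤ gM k 2 := by
  induction k with
  | zero => rw [MoB_zero]; exact le_refl _
  | succ k ih =>
    rw [z2, MoB_succ]
    have h1 : (0 : ℝ) < 3 ^ k := by positivity
    have h2 := one_le k
    have h3 : 0 ≤ 3 ^ k / 3 * gM k 2 := by
      apply mul_nonneg
      · positivity
      · linarith
    have h4 : 0 ≤ 3 ^ k * MoB k := by
      apply mul_nonneg h1.le
      linarith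
    calc MoB k * (1 + 3 ^ (k + 1)) = MoB k + 3 * (3 ^ k * MoB k) := by ring
      _ ≤ gM k 2 + 3 ^ k / 3 * gM k 2 + 8 * (3 ^ k * MoB k) := by linarith
      _ = (1 + 3 ^ k / 3) * gM k 2 + 8 * 3 ^ k * MoB k := by ring

theorem hi (k : ℕ) : gM k 2 ≤ 3 * MoB k := by
  induction k with
  | zero =>
    rw [MoB_zero]
    show (1 : ℝ) ≤ 3 * 1
    norm_num
  | succ k ih =>
    rw [z2, MoB_succ]
    have h1 : (0 : ℝ) ≤ 1 + 3 ^ k / 3 := by positivity
    have h2 := mul_le_mul_of_nonneg_left ih h1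
    calc (1 + 3 ^ k / 3) * gM k 2 + 8 * 3 ^ k * MoB k
        ≤ (1 + 3 ^ k / 3) * (3 * MoB k) + 8 * 3 ^ k * MoB k := by linarith
      _ = 3 * (MoB k * (1 + 3 ^ (k + 1))) := by ring

theorem sq1 (k : ℕ) : MoB (k + 1) ^ 2 ≤
    64 / 25 * (1 - 1 / (2 * 3 ^ (k + 1))) ^ 2 * 3 ^ ((k + 1) * (k + 2)) := by
  induction k with
  | zero =>
    rw [MoB_succ, MoB_zero]
    norm_num
  | succ k ih =>
    rw [MoB_succ, mul_pow]
    obtain ⟨y, hy⟩ : ∃ y : ℝ, y = 3 ^ (k + 1) := ⟨_, rfl⟩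
    have hy1 : 1 ≤ y := by
      rw [hy]
      exact one_le_pow₀ (by norm_num)
    have e1 : (3 : ℝ) ^ (k + 1 + 1) = 3 * y := by rw [pow_succ, hy]; ring
    have e2 : (3 : ℝ) ^ ((k + 1 + 1) * (k + 1 + 2)) = 3 ^ ((k + 1) * (k + 2)) * (3 * y) ^ 2 := by
      rw [hy, mul_pow, ← pow_mul, ← mul_assoc, ← pow_add, ← pow_add]
      congr 1
      ring
    rw [e2, e1]
    rw [← hy] at ih
    have h3 : (0 : ℝ) ≤ (1 + 3 * y) ^ 2 := sq_nonneg _
    have h4 := mul_le_mul_of_nonneg_right ih h3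
    refine h4.trans ?_
    have h5 : (0 : ℝ) ≤ 3 ^ ((k + 1) * (k + 2)) := by positivity
    have h6 : (1 - 1 / (2 * y)) * (1 + 3 * y) ≤ (1 - 1 / (2 * (3 * y))) * (3 * y) := by
      have e3 : (1 - 1 / (2 * y)) * (1 + 3 * y) = 3 * y - 1 / 2 - 1 / (2 * y) := by
        field_simp
        ring
      have e4 : (1 - 1 / (2 * (3 * y))) * (3 * y) = 3 * y - 1 / 2 := by
        field_simp
      rw [e3, e4]
      have : 0 ≤ 1 / (2 * y) := by positivity
      linarith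
    have h7 : 0 ≤ (1 - 1 / (2 * y)) * (1 + 3 * y) := by
      apply mul_nonneg
      · have : 1 / (2 * y) ≤ 1 := by
          rw [div_le_one (by positivity)]
          linarith
        linarith
      · positivity
    have h8 := pow_le_pow_left₀ h7 h6 2
    have h9 := mul_le_mul_of_nonneg_left h8 h5
    calc 64 / 25 * (1 - 1 / (2 * y)) ^ 2 * 3 ^ ((k + 1) * (k + 2)) * (1 + 3 * y) ^ 2
        = 64 / 25 * (3 ^ ((k + 1) * (k + 2)) * ((1 - 1 / (2 * y)) * (1 + 3 * y)) ^ 2) := by ring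
      _ ≤ 64 / 25 * (3 ^ ((k + 1) * (k + 2)) * ((1 - 1 / (2 * (3 * y))) * (3 * y)) ^ 2) := by
          linarith
      _ = 64 / 25 * (1 - 1 / (2 * (3 * y))) ^ 2 * (3 ^ ((k + 1) * (k + 2)) * (3 * y) ^ 2) := by
          ring

theorem sq (k : ℕ) : MoB k ^ 2 ≤ 64 / 25 * 3 ^ (k * (k + 1)) := by
  cases k with
  | zero =>
    rw [MoB_zero]
    norm_num
  | succ k =>
    refine (sq1 k).trans ?_
    have h1 : (0 : ℝ) ≤ 3 ^ ((k + 1) * (k + 2)) := by positivity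
    have h2 : (0 : ℝ) < 1 / (2 * 3 ^ (k + 1)) := by positivity
    have h3 : (1 : ℝ) / (2 * 3 ^ (k + 1)) ≤ 1 := by
      rw [div_le_one (by positivity)]
      have : (1 : ℝ) ≤ 3 ^ (k + 1) := one_le_pow₀ (by norm_num)
      linarith
    have h4 : (1 - 1 / (2 * 3 ^ (k + 1)) : ℝ) ^ 2 ≤ 1 := by
      apply pow_le_one₀
      · linarith
      · linarith
    have h5 := mul_le_mul_of_nonneg_right h4 h1
    calc (64 : ℝ) / 25 * (1 - 1 / (2 * 3 ^ (k + 1))) ^ 2 * 3 ^ ((k + 1) * (k + 2))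
        = 64 / 25 * ((1 - 1 / (2 * 3 ^ (k + 1))) ^ 2 * 3 ^ ((k + 1) * (k + 2))) := by ring
      _ ≤ 64 / 25 * (1 * 3 ^ ((k + 1) * (k + 2))) := by linarith
      _ = 64 / 25 * 3 ^ ((k + 1) * (k + 1 + 1)) := by ring

end GMB

open _root_.Pool.Agent.PTK.GMB in
theorem GMB_thm : Stmt_GMB := by
  refine ⟨z0, z1, lo, hi, ?_, one_le, ?_, sq⟩
  · rw [gM_succ]
    show (1 + 3 ^ (0 + 1) / 3 ^ 2) * (1 : ℝ) + (3 ^ 2 - 1) * 3 ^ 0 * 1 = 28 / 3
    norm_num
  · rw [MoB_succ, MoB_zero]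
    norm_num

end Pool.Agent.PTK


end

section

/-!
# The average rank of prime twists: the local term of a point at `lam` when `b` is a local cube
(classes in `Z[w]`)
-/

set_option autoImplicit false

namespace Pool.Agent.PTK

open Pool.Agent.Lib_helper18 Pool.Agent.Lib_helper18.Eis Pool.Agent.Lib_helper84.Cub
open Pool.Agent.PT

namespace IIA

/-- close elements have the same symbols -/
theorem close (hL : LSym lam sl 4) {a a0 : Eis} {N : ℕ} (h0 : a0 ≠ 0)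
    (hN : V lam a0 + 4 ≤ N) (h : lam ^ N ∣ a - a0) :
    a ≠ 0 ∧ ∀ y : Eis, y ≠ 0 → sl a y = sl a0 y := by
  refine ⟨?_, fun y hy => hL.cont _ _ y h0 hy ((pow_dvd_pow lam hN).trans h)⟩
  rintro rfl
  have h1 : lam ^ N ∣ a0 := by
    have := (dvd_neg (a := lam ^ N)).2 h
    simpa using this
  have h2 := (fin prime_lam h0).le_multiplicity_of_pow_dvd h1
  unfold V at hN
  omega

theorem cube_close (hL : LSym lam sl 4) {a h0 m : Eis} {N : ℕ} (hh : h0 ≠ 0) (hm : m ≠ 0)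
    (hN : V lam (h0 ^ 3 * m) + 4 ≤ N) (h : lam ^ N ∣ a - h0 ^ 3 * m) :
    a ≠ 0 ∧ ∀ y : Eis, y ≠ 0 → sl a y = sl m y := by
  obtain ⟨h1, h2⟩ := close hL (mul_ne_zero (pow_ne_zero 3 hh) hm) hN h
  refine ⟨h1, fun y hy => ?_⟩
  rw [h2 y hy, hL.mul _ _ _ (pow_ne_zero 3 hh) hm hy, LEV.cube_left hL hh hy, zero_add]

/-- linear forms at good approximations of a cube root do not vanish -/
theorem lf_ne {π : Eis} (hπ : Prime π) {p q r b : Eis} {N : ℕ} (hn : p ^ 3 + b * q ^ 3 ≠ 0)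
    (hN : V π (p ^ 3 + b * q ^ 3) < N) (hr : π ^ N ∣ r ^ 3 - b) (i : ℕ) : LfE p q i r ≠ 0 := by
  intro h0
  unfold LfE at h0
  have h1 : q * w ^ i * r = -p := by linear_combination h0
  have h2 : (q * w ^ i * r) ^ 3 = (-p) ^ 3 := by rw [h1]
  have h3 : (w ^ i) ^ 3 = 1 := by rw [← pow_mul, mul_comm, pow_mul, w_cube, one_pow]
  have h4 : p ^ 3 + b * q ^ 3 = (-q ^ 3) * (r ^ 3 - b) := by
    linear_combination h2 - q ^ 3 * r ^ 3 * h3
  have h5 : π ^ N ∣ p ^ 3 + b * q ^ 3 := by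
    rw [h4]
    exact Dvd.dvd.mul_left hr _
  have h6 := (fin hπ hn).le_multiplicity_of_pow_dvd h5
  exact absurd h6 (not_le.2 hN)

end IIA

theorem IIA_thm (hSLC : SLC) (hIIAG : Stmt_IIAG) : Stmt_IIA := by
  intro b x p q p' q' X Y hb hx hLC hS hX hY hn hD
  have hL : LSym lam sl 4 := hSLC
  have heq := hS.eq
  have hn1 := hS.n1
  have hn2 := hS.n2
  have hH0 : p' ^ 3 + b * q' ^ 3 ≠ 0 := by
    intro h0
    apply hn1
    rw [heq, h0, mul_zero]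
  have hn3 : x * q' ^ 3 - q ^ 3 ≠ 0 := by
    intro h0
    apply hn2
    linear_combination heq + b * h0
  obtain ⟨H0, hH0d⟩ : ∃ H0, H0 = p' ^ 3 + b * q' ^ 3 := ⟨_, rfl⟩
  rw [← hH0d] at hH0
  set N0 := V lam (H0 ^ 3 * (X ^ 3 + x * Y ^ 3)) + V lam (H0 ^ 3 * (p ^ 3 - x * p' ^ 3)) +
    V lam (H0 ^ 3 * (x * q' ^ 3 - q ^ 3)) + V lam (p ^ 3 + b * q ^ 3) +
    V lam (p' ^ 3 + b * q' ^ 3) + V lam b + 5 with hN0
  refine ⟨N0, fun r hr => ?_⟩
  obtain ⟨δ, hδ⟩ : ∃ δ : Eis, δ = r ^ 3 - b := ⟨_, rfl⟩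
  have hδd : lam ^ N0 ∣ δ := by
    rw [hδ]
    exact hr
  have cls : ∀ {a a0 c : Eis}, a = a0 + δ * c → lam ^ N0 ∣ a - a0 := by
    intro a a0 c h
    have : a - a0 = δ * c := by
      rw [h]
      ring
    rw [this]
    exact Dvd.dvd.mul_right hδd _
  -- nonvanishing
  have hr0 : r ≠ 0 := by
    have h1 := IIA.close hL (a := r ^ 3) (a0 := b) (N := N0) hb (by omega)
      (cls (c := 1) (by rw [hδ]; ring))
    intro h0
    apply h1.1
    rw [h0]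
    ring
  obtain ⟨F, hF⟩ : ∃ F, F = p ^ 3 + r ^ 3 * q ^ 3 := ⟨_, rfl⟩
  obtain ⟨H, hH⟩ : ∃ H, H = p' ^ 3 + r ^ 3 * q' ^ 3 := ⟨_, rfl⟩
  have hFne : F ≠ 0 := (IIA.close hL (a := F) (a0 := p ^ 3 + b * q ^ 3) (N := N0) hn1 (by omega)
    (cls (c := q ^ 3) (by rw [hδ, hF]; ring))).1
  have hHne : H ≠ 0 := (IIA.close hL (a := H) (a0 := p' ^ 3 + b * q' ^ 3) (N := N0)
    (by rw [← hH0d]; exact hH0) (by omega) (cls (c := q' ^ 3) (by rw [hδ, hH]; ring))).1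
  have hHe : H = H0 + δ * q' ^ 3 := by rw [hH, hδ, hH0d]; ring
  have hFe : F = x * H0 + δ * q ^ 3 := by
    rw [hF, hδ, hH0d]
    linear_combination heq
  -- close numbers
  obtain ⟨k1, k1'⟩ := IIA.cube_close hL (a := (X * H) ^ 3 + F * H ^ 2 * Y ^ 3) (h0 := H0)
    (m := X ^ 3 + x * Y ^ 3) (N := N0) hH0 hn (by omega)
    (cls (c := X ^ 3 * (3 * H0 ^ 2 * q' ^ 3 + 3 * H0 * δ * q' ^ 6 + δ ^ 2 * q' ^ 9) +
      Y ^ 3 * (x * H0 * (2 * H0 * q' ^ 3 + δ * q' ^ 6) +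
        q ^ 3 * (H0 + δ * q' ^ 3) ^ 2)) (by rw [hHe, hFe]; ring))
  obtain ⟨k2, k2'⟩ := IIA.cube_close hL (a := (p * H) ^ 3 - F * H ^ 2 * p' ^ 3) (h0 := H0)
    (m := p ^ 3 - x * p' ^ 3) (N := N0) hH0 hn2 (by omega)
    (cls (c := p ^ 3 * (3 * H0 ^ 2 * q' ^ 3 + 3 * H0 * δ * q' ^ 6 + δ ^ 2 * q' ^ 9) -
      p' ^ 3 * (x * H0 * (2 * H0 * q' ^ 3 + δ * q' ^ 6) +
        q ^ 3 * (H0 + δ * q' ^ 3) ^ 2)) (by rw [hHe, hFe]; ring))
  obtain ⟨k3, k3'⟩ := IIA.cube_close hL (a := F * H ^ 2 * q' ^ 3 - (q * H) ^ 3) (h0 := H0)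
    (m := x * q' ^ 3 - q ^ 3) (N := N0) hH0 hn3 (by omega)
    (cls (c := q' ^ 3 * (x * H0 * (2 * H0 * q' ^ 3 + δ * q' ^ 6) +
        q ^ 3 * (H0 + δ * q' ^ 3) ^ 2) -
      q ^ 3 * (3 * H0 ^ 2 * q' ^ 3 + 3 * H0 * δ * q' ^ 6 + δ ^ 2 * q' ^ 9))
      (by rw [hHe, hFe]; ring))
  have eD : ∀ i, DfE (X * H) Y p' (p * H) i = H * DfE X Y p' p i := by
    intro i
    unfold DfE
    ring
  have eD' : ∀ i, DfE (X * H) Y q' (q * H) i = H * DfE X Y q' q i := by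
    intro i
    unfold DfE
    ring
  have eG : ∀ i, GfE (p * H) (q * H) p' q' i = H * GfE p q p' q' i := by
    intro i
    unfold GfE
    ring
  have eL : ∀ i, LfE (p * H) (q * H) i r = H * LfE p q i r := by
    intro i
    unfold LfE
    ring
  -- the global identity
  have hSt : SolE (r ^ 3) (F * H ^ 2) (p * H) (q * H) p' q' := by
    refine ⟨⟨?_, ?_⟩, k2, ?_, ?_⟩
    · rw [← hH]
      linear_combination (-(H ^ 3)) * hF
    · have : (p * H) ^ 3 + r ^ 3 * (q * H) ^ 3 = F * H ^ 3 := by rw [hF]; ring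
      rw [this]
      exact mul_ne_zero hFne (pow_ne_zero 3 hHne)
    · rw [eG]
      exact mul_ne_zero hHne hS.g1
    · rw [eG]
      exact mul_ne_zero hHne hS.g2
  have hDt : DNE (X * H) Y (p * H) (q * H) p' q' := by
    refine ⟨?_, ?_, ?_, ?_⟩
    · rw [eD]
      exact mul_ne_zero hHne hD.d1
    · rw [eD]
      exact mul_ne_zero hHne hD.d2
    · rw [eD']
      exact mul_ne_zero hHne hD.d3
    · rw [eD']
      exact mul_ne_zero hHne hD.d4
  have key := hIIAG r (F * H ^ 2) (p * H) (q * H) p' q' (X * H) Y hr0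
    (mul_ne_zero hFne (pow_ne_zero 2 hHne)) hSt (mul_ne_zero hX hHne) hY k1 hDt
  -- the forms
  have hLf : ∀ i, LfE p q i r ≠ 0 :=
    IIA.lf_ne prime_lam (N := N0) hn1 (by omega) hr
  have hLf' : ∀ i, LfE p' q' i r ≠ 0 :=
    IIA.lf_ne prime_lam (N := N0) (b := b) (by rw [← hH0d]; exact hH0) (by omega) hr
  -- symbols
  have skl : ∀ {m a : Eis}, a ≠ 0 → m ≠ 0 → (∀ y : Eis, y ≠ 0 → sl a y = sl m y) →
      ∀ y : Eis, y ≠ 0 → sl y a = sl y m := by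
    intro m a ha hm h y hy
    rw [hL.skew _ _ ha hy, hL.skew _ _ hm hy, h y hy]
  have j1 := skl k1 hn k1'
  have j2 := skl k2 hn2 k2'
  have j3 := skl k3 hn3 k3'
  have c1 : ∀ {m : Eis} (hm : m ≠ 0) {u v : Eis} (hu : u ≠ 0) (hv : v ≠ 0),
      sl (H * u) m - sl (H * v) m = sl u m - sl v m := by
    intro m hm u v hu hv
    rw [hL.mul _ _ _ hHne hu hm, hL.mul _ _ _ hHne hv hm]
    ring
  have c2 : ∀ {m : Eis} (hm : m ≠ 0) {u v : Eis} (hu : u ≠ 0) (hv : v ≠ 0),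
      sl m (H * u) - sl m (H * v) = sl m u - sl m v := by
    intro m hm u v hu hv
    rw [LEV.mul_right hL hHne hu hm, LEV.mul_right hL hHne hv hm]
    ring
  unfold SVE ASE at key
  unfold SVE ASE
  rw [eD, eD, eD', eD', eG, eG, eL, eL] at key
  have f1 := hD.d1
  have f2 := hD.d2
  have f3 := hD.d3
  have f4 := hD.d4
  have f5 := hS.g1
  have f6 := hS.g2
  have g1 := c1 k2 f1 f2
  have g2 := c1 k1 f1 f2
  have g3 := c1 k3 f3 f4
  have g4 := c1 k1 f3 f4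
  have g5 := c2 k1 f5 f6
  have g6 := c2 k1 (hLf 2) (hLf 1)
  rw [j2 _ f1, j2 _ f2] at g1
  rw [j1 _ f1, j1 _ f2] at g2
  rw [j3 _ f3, j3 _ f4] at g3
  rw [j1 _ f3, j1 _ f4] at g4
  rw [k1' _ f5, k1' _ f6] at g5
  rw [k1' _ (hLf 2), k1' _ (hLf 1)] at g6
  have g7 := k1' _ (hLf' 1)
  have g8 := k1' _ (hLf' 2)
  have g9 := j1 _ LEV.w_ne
  linear_combination key - g1 + g2 + g3 - g4 + g5 + g9 - g6 - g7 + g8

end Pool.Agent.PTK


end

section

/-!
# The average of `3^r`: commutators for the minus part which are trivial on the plus part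
-/

set_option autoImplicit false

open NumberField IsDedekindDomain Finset
open scoped nonZeroDivisors Pointwise

namespace Pool.Agent.PTK

open Pool.Agent.Lib_helper18 Pool.Agent.Lib_helper18.Eis Pool.Agent.Lib_helper84.Cub
open Pool.Agent.PT Pool.Agent.PTE Pool.Agent.PT3 Pool.Agent.PTL Pool.Agent.PTN

namespace JC1

variable {L : Type} [Field L] [NumberField L]

/-- two automorphisms which fix `ω` and multiply `A` by powers of `ω` commute on `A` -/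
theorem rot {ι : Eis →+* L} (σ τ : L ≃ₐ[ℚ] L) (hσ : σ (ι w) = ι w) (hτ : τ (ι w) = ι w) {A : L}
    {m n : ℕ} (h1 : σ A = ι w ^ m * A) (h2 : τ A = ι w ^ n * A) :
    ((σ * τ)⁻¹ * (τ * σ)) A = A := by
  have h : τ (σ A) = ι w ^ 0 * σ (τ A) := by
    rw [h1, h2, map_mul, map_mul, map_pow, map_pow, hσ, hτ, h1, h2]
    ring
  rw [GC.comm_apply σ τ 0 hσ hτ A h, pow_zero, one_mul]

/-- an automorphism which fixes `ω` and `ρ` acts by a root of unity on `A` -/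
theorem fixP {ω ρ A : L} {p q p' q' : ℤ} (h : L ≃ₐ[ℚ] L) (hω : ω ^ 2 + ω + 1 = 0)
    (hhω : h ω = ω) (hhρ : h ρ = ρ) (hD : aD ω p q p' q' ρ ≠ 0)
    (hA : A ^ 3 * aD ω p q p' q' ρ = aN ω p q p' q' ρ) : ∃ e : ℕ, h A = ω ^ e * A := by
  have h1 : h (aD ω p q p' q' ρ) = aD ω p q p' q' ρ := by
    unfold aD
    simp only [map_mul, map_add, map_pow, map_intCast, hhω, hhρ]
  have h2 : h (aN ω p q p' q' ρ) = aN ω p q p' q' ρ := by
    unfold aN
    simp only [map_mul, map_add, map_pow, map_intCast, hhω, hhρ]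
  have h3 := congrArg h hA
  rw [map_mul, map_pow, h1, h2, ← hA] at h3
  exact GC.cube_eq hω (mul_right_cancel₀ hD h3)

end JC1

/-- the commutators for the minus part -/
theorem JC1_thm (hJKU : Stmt_JKU) : Stmt_JC1 := by
  intro s k b p q p' q' x u P Q P' Q' f L _ _ ζ ι hSG hS hJ v
  have hG := hJ.minus
  have hGP := hJ.plus
  have hω := GCK.om ι
  have hf : 0 < f := by
    rcases Nat.eq_zero_or_pos f with h | h
    · exfalso
      have h1 := hG.hω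
      rw [h, Nat.zero_div, pow_zero] at h1
      rw [h1] at hω
      norm_num at hω
    · exact h
  obtain ⟨σ, s1, s2, s3, s4⟩ :=
    hJKU s k b p q p' q' x u P Q P' Q' f L ζ ι hSG hS hJ 1 0 0
  obtain ⟨τ, t1, t2, t3, t4⟩ :=
    hJKU s k b p q p' q' x u P Q P' Q' f L ζ ι hSG hS hJ 0 v 0
  have hσ' : GCK.Act ι x u 1 0 σ := ⟨s1, s2, s3⟩
  have hτ' : GCK.Act ι x u 0 v τ := ⟨t1, t2, t3⟩
  have hnz : ∀ j, GCK.Nz ι x (P j) (Q j) (P' j) (Q' j) := fun j ρ hρ => hG.D j ρ hρ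
  have hσb : ∀ (i : Fin s) (ρ : L), ρ ^ 3 = (b i : L) → σ ρ = ρ := fun i ρ hρ => by
    rw [s4 i ρ hρ, Pi.zero_apply, ZMod.val_zero, pow_zero, one_mul]
  have hτb : ∀ (i : Fin s) (ρ : L), ρ ^ 3 = (b i : L) → τ ρ = ρ := fun i ρ hρ => by
    rw [t4 i ρ hρ, Pi.zero_apply, ZMod.val_zero, pow_zero, one_mul]
  refine ⟨(σ * τ)⁻¹ * (τ * σ), ⟨?_, fun ρ hρ => ?_, fun j ρ hρ => ?_, fun i ρ hρ => ?_⟩,
    fun j i ρ A hji hA => ?_, fun j ρ A hA => ⟨?_, ?_⟩⟩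
  · have hz : ∀ g : L ≃ₐ[ℚ] L, ∃ i : ℕ, g ζ = ζ ^ i := by
      intro g
      have h1 : (g ζ) ^ f = 1 := by rw [← map_pow, hG.prim.pow_eq_one, map_one]
      haveI : NeZero f := ⟨hf.ne'⟩
      obtain ⟨i, _, hi⟩ := hG.prim.eq_pow_of_pow_eq_one h1
      exact ⟨i, hi.symm⟩
    obtain ⟨i, hi⟩ := hz σ
    obtain ⟨j, hj⟩ := hz τ
    have h1 : τ (σ ζ) = ι w ^ 0 * σ (τ ζ) := by
      rw [hi, hj, map_pow, map_pow, hi, hj, pow_zero, one_mul, ← pow_mul, ← pow_mul, mul_comm]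
    rw [GC.comm_apply σ τ 0 hσ'.1 hτ'.1 ζ h1, pow_zero, one_mul]
  · exact JC1.rot σ τ hσ'.1 hτ'.1 (hσ'.2.1 ρ hρ) (hτ'.2.1 ρ hρ)
  · exact JC1.rot σ τ hσ'.1 hτ'.1 (hσ'.2.2 j ρ hρ) (hτ'.2.2 j ρ hρ)
  · exact JC1.rot σ τ hσ'.1 hτ'.1 (s4 i ρ hρ) (t4 i ρ hρ)
  · obtain ⟨hρ, hA⟩ := hA
    have hD := (hGP.D j i hji ρ hρ).1
    obtain ⟨m, hm⟩ := JC1.fixP σ hω s1 (hσb j ρ hρ) hD hA
    obtain ⟨n, hn⟩ := JC1.fixP τ hω t1 (hτb j ρ hρ) hD hA
    exact JC1.rot σ τ s1 t1 hm hn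
  · exact GCK.com hS.sol hnz hG.rb hσ' hτ' j ρ A hA.1 hA.2
  · intro g hg
    have h1 := GCK.com hS.sol hnz hG.rb (GCK.cjAct hg hS.cx hS.cb hσ')
      (GCK.cjAct hg hS.cx hS.cb hτ') j ρ A hA.1 hA.2
    have h2 : ((g⁻¹ * σ * g) * (g⁻¹ * τ * g))⁻¹ * ((g⁻¹ * τ * g) * (g⁻¹ * σ * g)) =
        g⁻¹ * ((σ * τ)⁻¹ * (τ * σ)) * g := by group
    rw [h2] at h1
    have h3 := congrArg g h1
    rw [← AlgEquiv.mul_apply, ← mul_assoc, ← mul_assoc, mul_inv_cancel, one_mul,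
      AlgEquiv.mul_apply, map_mul, map_pow, hg, ← pow_mul] at h3
    rw [h3, pow_eq_pow_mod _ (GC.om3 hω), GCK.val_neg, ← pow_eq_pow_mod _ (GC.om3 hω)]

end Pool.Agent.PTK


end

section

/-!
# All moments of `3^r`: commutators for the minus part which are trivial on the plus part
-/

set_option autoImplicit false

open NumberField IsDedekindDomain Finset
open scoped nonZeroDivisors Pointwise

namespace Pool.Agent.PTK

open Pool.Agent.Lib_helper18 Pool.Agent.Lib_helper18.Eis Pool.Agent.Lib_helper84.Cub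
open Pool.Agent.PT Pool.Agent.PTE Pool.Agent.PT3 Pool.Agent.PTL Pool.Agent.PTN

namespace MC1

variable {L : Type} [Field L] [NumberField L]

/-- the action of an automorphism on the roots of all classes -/
def Act {M : ℕ} (ι : Eis →+* L) (z : Fin M → Eis) (a : Fin M → ZMod 3) (g : L ≃ₐ[ℚ] L) : Prop :=
  g (ι w) = ι w ∧ ∀ (i : Fin M) (ρ : L), ρ ^ 3 = ι (z i) → g ρ = ι w ^ (a i).val * ρ

theorem cjAct {M : ℕ} {ι : Eis →+* L} {z : Fin M → Eis} {a : Fin M → ZMod 3}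
    {g σ : L ≃ₐ[ℚ] L} (hg : g (ι w) = ι w ^ 2) (hz : ∀ i, ∃ t : Eis, z i * conj (z i) = t ^ 3)
    (h : Act ι z a σ) : Act ι z a (g⁻¹ * σ * g) := by
  refine ⟨?_, fun i ρ hρ => ?_⟩
  · have h1 : σ (ι w ^ 2) = ι w ^ 2 := by rw [map_pow, h.1]
    rw [AlgEquiv.mul_apply, AlgEquiv.mul_apply, hg, h1, ← hg, ← AlgEquiv.mul_apply,
      inv_mul_cancel]
    rfl
  · obtain ⟨t, ht⟩ := hz i
    exact GCK.cjr hg h.1 ht hρ (h.2 i ρ hρ)

theorem Act.fix {M : ℕ} {ι : Eis →+* L} {z : Fin M → Eis} {k : Fin M} {c : ZMod 3}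
    {g : L ≃ₐ[ℚ] L} (h : Act ι z (Pi.single k c) g) {i : Fin M} (hi : i ≠ k) {ρ : L}
    (hρ : ρ ^ 3 = ι (z i)) : g ρ = ρ := by
  rw [h.2 i ρ hρ, Pi.single_eq_of_ne hi, ZMod.val_zero, pow_zero, one_mul]

theorem Act.mov {M : ℕ} {ι : Eis →+* L} {z : Fin M → Eis} {k : Fin M}
    {g : L ≃ₐ[ℚ] L} (h : Act ι z (Pi.single k 1) g) {ρ : L}
    (hρ : ρ ^ 3 = ι (z k)) : g ρ = ι w * ρ := by
  rw [h.2 k ρ hρ, Pi.single_eq_same, show (1 : ZMod 3).val = 1 from rfl, pow_one]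

/-- the commutator of the index `r` -/
theorem com {M N : ℕ} {ι : Eis →+* L} {z : Fin M → Eis} {α β : Fin N → Fin M}
    {P Q P' Q' : Fin N → Eis} (hS : SysZ z α β P Q P' Q')
    (hnz : ∀ r, GCK.Nz ι (z (α r)) (P r) (Q r) (P' r) (Q' r))
    (hr : ∀ i, ∃ θ : L, θ ^ 3 = ι (z i)) {σ τ : L ≃ₐ[ℚ] L} (r : Fin N)
    (hσ : Act ι z (Pi.single (α r) 1) σ) (hτ : Act ι z (Pi.single (β r) 1) τ)
    (r' : Fin N) (ρ A : L) (hA : PrW z α P Q P' Q' ι r' ρ A) :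
    ((σ * τ)⁻¹ * (τ * σ)) A = ι w ^ ((Pi.single r 1 : Fin N → ZMod 3) r').val * A := by
  obtain ⟨hρ, hA⟩ := hA
  obtain ⟨θ, hθ⟩ := hr (β r')
  have hlt := hS.lt r
  have hlt' := hS.lt r'
  by_cases hrr : r' = r
  · subst hrr
    rw [Pi.single_eq_same, show (1 : ZMod 3).val = 1 from rfl]
    apply GC.comm_apply σ τ _ hσ.1 hτ.1
    refine GCK.mv (hnz r') σ τ _ hρ hθ (hS.sol r') hσ.1 hτ.1 (hσ.mov hρ)
      (hτ.fix (ne_of_lt hlt) hρ) ?_ hA
    rw [hτ.mov hθ, pow_one]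
  · rw [Pi.single_eq_of_ne hrr, ZMod.val_zero]
    apply GC.comm_apply σ τ _ hσ.1 hτ.1
    by_cases h1 : α r' = α r
    · have h2 : β r' ≠ β r := fun h => hrr (hS.inj r' r h1 h)
      refine GCK.mv (hnz r') σ τ _ hρ hθ (hS.sol r') hσ.1 hτ.1 ?_
        (hτ.fix (by rw [h1]; exact ne_of_lt hlt) hρ) ?_ hA
      · rw [h1] at hρ
        exact hσ.mov hρ
      · rw [hτ.fix h2 hθ, pow_zero, one_mul]
    · by_cases h3 : α r' = β r
      · have h4 : β r' ≠ α r := by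
          intro h
          rw [h, h3] at hlt'
          exact absurd (hlt.trans hlt') (lt_irrefl _)
        have h5 := GCK.mv (hnz r') τ σ 0 hρ hθ (hS.sol r') hτ.1 hσ.1
          (by rw [h3] at hρ; exact hτ.mov hρ) (hσ.fix h1 hρ)
          (by rw [hσ.fix h4 hθ, pow_zero, one_mul]) hA
        rw [pow_zero, one_mul] at h5 ⊢
        exact h5.symm
      · obtain ⟨e, he⟩ := GCK.fixA (hnz r') σ hρ hσ.1 (hσ.fix h1 hρ) hA
        obtain ⟨e', he'⟩ := GCK.fixA (hnz r') τ hρ hτ.1 (hτ.fix h3 hρ) hA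
        rw [he, he', map_mul, map_mul, map_pow, map_pow, hσ.1, hτ.1, he, he']
        ring

/-- the relation between the automorphism and the vector -/
def R {s M N : ℕ} (b : Fin s → ℤ) (p q p' q' : Fin s → Fin s → ℤ)
    (z : Fin M → Eis) (α : Fin N → Fin M) (P Q P' Q' : Fin N → Eis) (ζ : L) (ι : Eis →+* L)
    (v : Fin N → ZMod 3) (g : L ≃ₐ[ℚ] L) : Prop :=
  FxW b z ζ ι g ∧
    (∀ (j i : Fin s) (ρ A : L), j ≠ i → PrP b p q p' q' ι j i ρ A → g A = A) ∧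
    ∀ (r : Fin N) (ρ A : L), PrW z α P Q P' Q' ι r ρ A → g A = ι w ^ (v r).val * A ∧
      ∀ τ : L ≃ₐ[ℚ] L, τ (ι w) = ι w ^ 2 → g (τ A) = ι w ^ (- v r).val * τ A

section rel

variable {s M N : ℕ} {b : Fin s → ℤ} {p q p' q' : Fin s → Fin s → ℤ}
    {z : Fin M → Eis} {α : Fin N → Fin M} {P Q P' Q' : Fin N → Eis} {ζ : L} {ι : Eis →+* L}

theorem R_zero : R b p q p' q' z α P Q P' Q' ζ ι 0 (1 : L ≃ₐ[ℚ] L) := by
  refine ⟨⟨rfl, fun _ _ _ => rfl, fun _ _ _ => rfl⟩, fun _ _ _ _ _ _ => rfl,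
    fun r ρ A _ => ⟨?_, fun τ _ => ?_⟩⟩
  · rw [Pi.zero_apply, ZMod.val_zero, pow_zero, one_mul]
    rfl
  · rw [Pi.zero_apply, neg_zero, ZMod.val_zero, pow_zero, one_mul]
    rfl

theorem R_add (hζ : ∀ g : L ≃ₐ[ℚ] L, g ζ = ζ → g (ι w) = ι w)
    {v v' : Fin N → ZMod 3} {g g' : L ≃ₐ[ℚ] L}
    (h : R b p q p' q' z α P Q P' Q' ζ ι v g) (h' : R b p q p' q' z α P Q P' Q' ζ ι v' g') :
    R b p q p' q' z α P Q P' Q' ζ ι (v + v') (g * g') := by
  have hω := GC.om3 (GCK.om ι)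
  refine ⟨⟨?_, fun i ρ hρ => ?_, fun i ρ hρ => ?_⟩, fun j i ρ A hji hA => ?_,
    fun r ρ A hA => ⟨?_, fun τ hτ => ?_⟩⟩
  · rw [AlgEquiv.mul_apply, h'.1.ze, h.1.ze]
  · rw [AlgEquiv.mul_apply, h'.1.rz i ρ hρ, h.1.rz i ρ hρ]
  · rw [AlgEquiv.mul_apply, h'.1.rb i ρ hρ, h.1.rb i ρ hρ]
  · rw [AlgEquiv.mul_apply, h'.2.1 j i ρ A hji hA, h.2.1 j i ρ A hji hA]
  · rw [AlgEquiv.mul_apply, (h'.2.2 r ρ A hA).1, map_mul, map_pow, hζ g h.1.ze,
      (h.2.2 r ρ A hA).1, Pi.add_apply, GC.pow_val_add hω]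
    ring
  · rw [AlgEquiv.mul_apply, (h'.2.2 r ρ A hA).2 τ hτ, map_mul, map_pow, hζ g h.1.ze,
      (h.2.2 r ρ A hA).2 τ hτ, Pi.add_apply, neg_add, GC.pow_val_add hω]
    ring

theorem all (hζ : ∀ g : L ≃ₐ[ℚ] L, g ζ = ζ → g (ι w) = ι w)
    (hel : ∀ r : Fin N, ∃ g : L ≃ₐ[ℚ] L,
      R b p q p' q' z α P Q P' Q' ζ ι (Pi.single r 1) g)
    (v : Fin N → ZMod 3) : ∃ g : L ≃ₐ[ℚ] L, R b p q p' q' z α P Q P' Q' ζ ι v g := by
  let S : AddSubmonoid (Fin N → ZMod 3) :=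
    { carrier := {v | ∃ g : L ≃ₐ[ℚ] L, R b p q p' q' z α P Q P' Q' ζ ι v g}
      zero_mem' := ⟨1, R_zero⟩
      add_mem' := by
        rintro v v' ⟨g, hg⟩ ⟨g', hg'⟩
        exact ⟨g * g', R_add hζ hg hg'⟩ }
  have h1 : ∀ r : Fin N, (Pi.single r (v r) : Fin N → ZMod 3) ∈ S := by
    intro r
    have h2 : (Pi.single r (v r) : Fin N → ZMod 3) =
        (v r).val • (Pi.single r 1 : Fin N → ZMod 3) := by
      rw [← Pi.single_smul, nsmul_one, ZMod.natCast_val, ZMod.cast_id', id]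
    rw [h2]
    exact S.nsmul_mem (hel r) _
  have h3 : v = ∑ r, (Pi.single r (v r) : Fin N → ZMod 3) :=
    (Finset.univ_sum_single v).symm
  have h4 : v ∈ S := by
    rw [h3]
    exact S.sum_mem (fun r _ => h1 r)
  exact h4

end rel

end MC1

/-- the commutators for the minus part -/
theorem MC1_thm (hMKU : Stmt_MKU) : Stmt_MC1 := by
  intro s M N b p q p' q' z α β P Q P' Q' f L _ _ ζ ι hSG hS hW v
  have hG := hW.minus
  have hGP := hW.plus
  have hω := GCK.om ι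
  have hf : 0 < f := by
    rcases Nat.eq_zero_or_pos f with h | h
    · exfalso
      have h1 := hG.hω
      rw [h, Nat.zero_div, pow_zero] at h1
      rw [h1] at hω
      norm_num at hω
    · exact h
  have hζ : ∀ g : L ≃ₐ[ℚ] L, g ζ = ζ → g (ι w) = ι w := by
    intro g hg
    rw [hG.hω, map_pow, hg]
  have hnz : ∀ r, GCK.Nz ι (z (α r)) (P r) (Q r) (P' r) (Q' r) := fun r ρ hρ => hG.D r ρ hρ
  apply MC1.all hζ
  intro r
  obtain ⟨σ, s1, s2, s3⟩ := hMKU s M N b p q p' q' z α β P Q P' Q' f L ζ ι hSG hS hW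
    (Pi.single (α r) 1) 0
  obtain ⟨τ, t1, t2, t3⟩ := hMKU s M N b p q p' q' z α β P Q P' Q' f L ζ ι hSG hS hW
    (Pi.single (β r) 1) 0
  have hσ' : MC1.Act ι z (Pi.single (α r) 1) σ := ⟨s1, s2⟩
  have hτ' : MC1.Act ι z (Pi.single (β r) 1) τ := ⟨t1, t2⟩
  have hσb : ∀ (i : Fin s) (ρ : L), ρ ^ 3 = (b i : L) → σ ρ = ρ := fun i ρ hρ => by
    rw [s3 i ρ hρ, Pi.zero_apply, ZMod.val_zero, pow_zero, one_mul]
  have hτb : ∀ (i : Fin s) (ρ : L), ρ ^ 3 = (b i : L) → τ ρ = ρ := fun i ρ hρ => by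
    rw [t3 i ρ hρ, Pi.zero_apply, ZMod.val_zero, pow_zero, one_mul]
  refine ⟨(σ * τ)⁻¹ * (τ * σ), ⟨?_, fun i ρ hρ => ?_, fun i ρ hρ => ?_⟩,
    fun j i ρ A hji hA => ?_, fun r' ρ A hA => ⟨?_, ?_⟩⟩
  · have hz : ∀ g : L ≃ₐ[ℚ] L, ∃ i : ℕ, g ζ = ζ ^ i := by
      intro g
      have h1 : (g ζ) ^ f = 1 := by rw [← map_pow, hG.prim.pow_eq_one, map_one]
      haveI : NeZero f := ⟨hf.ne'⟩
      obtain ⟨i, _, hi⟩ := hG.prim.eq_pow_of_pow_eq_one h1
      exact ⟨i, hi.symm⟩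
    obtain ⟨i, hi⟩ := hz σ
    obtain ⟨j, hj⟩ := hz τ
    have h1 : τ (σ ζ) = ι w ^ 0 * σ (τ ζ) := by
      rw [hi, hj, map_pow, map_pow, hi, hj, pow_zero, one_mul, ← pow_mul, ← pow_mul, mul_comm]
    rw [GC.comm_apply σ τ 0 s1 t1 ζ h1, pow_zero, one_mul]
  · exact JC1.rot σ τ s1 t1 (s2 i ρ hρ) (t2 i ρ hρ)
  · exact JC1.rot σ τ s1 t1 (s3 i ρ hρ) (t3 i ρ hρ)
  · obtain ⟨hρ, hA⟩ := hA
    have hD := (hGP.D j i hji ρ hρ).1
    obtain ⟨m, hm⟩ := JC1.fixP σ hω s1 (hσb j ρ hρ) hD hA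
    obtain ⟨n, hn⟩ := JC1.fixP τ hω t1 (hτb j ρ hρ) hD hA
    exact JC1.rot σ τ s1 t1 hm hn
  · exact MC1.com hS hnz hG.rz r hσ' hτ' r' ρ A hA
  · intro g hg
    have h1 := MC1.com hS hnz hG.rz r (MC1.cjAct hg hS.cz hσ') (MC1.cjAct hg hS.cz hτ') r' ρ A hA
    have h2 : ((g⁻¹ * σ * g) * (g⁻¹ * τ * g))⁻¹ * ((g⁻¹ * τ * g) * (g⁻¹ * σ * g)) =
        g⁻¹ * ((σ * τ)⁻¹ * (τ * σ)) * g := by group
    rw [h2] at h1
    have h3 := congrArg g h1
    rw [← AlgEquiv.mul_apply, ← mul_assoc, ← mul_assoc, mul_inv_cancel, one_mul,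
      AlgEquiv.mul_apply, map_mul, map_pow, hg, ← pow_mul] at h3
    rw [h3, pow_eq_pow_mod _ (GC.om3 hω), GCK.val_neg, ← pow_eq_pow_mod _ (GC.om3 hω)]

end Pool.Agent.PTK


end

section

/-!
# PTK_CTK: the number of the primes with a given class
-/

set_option autoImplicit false

open NumberField IsDedekindDomain Finset
open scoped nonZeroDivisors Pointwise

namespace Pool.Agent.PTK

open Pool.Agent.Lib_helper18 Pool.Agent.Lib_helper18.Eis Pool.Agent.Lib_helper84.Cub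
open Pool.Agent.PT Pool.Agent.PTE Pool.Agent.PT3 Pool.Agent.PTL Pool.Agent.PTN

namespace CTK

theorem neg_of_two {x y : ZMod 3} (h : ((2 : ℕ) : ZMod 3) * x = y) : x = -y := by
  rw [← h]
  clear h y
  revert x
  decide

theorem zero_of_mul {E : ℕ} (hE : E = 1 ∨ E = 2) {x : ZMod 3} (h : (E : ZMod 3) * x = 0) :
    x = 0 := by
  rcases hE with rfl | rfl
  · rwa [Nat.cast_one, one_mul] at h
  · rw [neg_of_two h, neg_zero]

/-- The homomorphism with given components. -/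
def assemble {s F : ℕ} (Φ : Fin s → ((ZMod F)ˣ →* Multiplicative (ZMod 3))) :
    (ZMod F)ˣ →* Multiplicative (Fin s → ZMod 3) where
  toFun := fun a => Multiplicative.ofAdd fun j => (Φ j a).toAdd
  map_one' := by
    apply Multiplicative.toAdd.injective
    funext j
    simp
  map_mul' := fun a a' => by
    apply Multiplicative.toAdd.injective
    funext j
    simp

theorem assemble_apply {s F : ℕ} (Φ : Fin s → ((ZMod F)ˣ →* Multiplicative (ZMod 3)))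
    (a : (ZMod F)ˣ) (j : Fin s) : (assemble Φ a).toAdd j = (Φ j a).toAdd := rfl

theorem nat_dvd {a b : ℕ} (h : (a : Eis) ∣ (b : Eis)) : a ∣ b := by
  have h1 : ((a : ℤ) : Eis) ∣ ((b : ℤ) : Eis) := by
    rw [Int.cast_natCast, Int.cast_natCast]
    exact h
  exact Int.natCast_dvd_natCast.1 (intCast_dvd_intCast.1 h1)

/-- the symbol at `q` vanishes -/
theorem sym_zero (hSPP : SPP) {q : ℕ} (hq : q.Prime) (hq3 : q % 3 = 2) {E N : ℕ}
    (hE : E = 1 ∨ E = 2) (hqN : ¬ q ∣ N) {z : Eis} (hz : ¬ (q : Eis) ∣ z)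
    (htm : ∀ σ : PP, tm σ.1 z ((N : Eis) * (q : Eis) ^ E) = 0) : sym (q : Eis) z = 0 := by
  obtain ⟨σ, hσ⟩ := hSPP.2.2.2.2.1 q hq hq3
  have hp : Prime (q : Eis) := hσ ▸ σ.2.1
  have hN : ¬ (q : Eis) ∣ (N : Eis) := fun h => hqN (nat_dvd h)
  have h1 := htm σ
  rw [hσ] at h1
  unfold tm at h1
  rw [V_mul_not_dvd hp hN (pow_ne_zero _ hp.ne_zero), V_pow hp hp.ne_zero, V_self,
    V_eq_zero hz, EHYP.ch_of_not_dvd hp hz, Nat.cast_zero, zero_mul, sub_zero, mul_one] at h1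
  exact zero_of_mul hE h1

end CTK

open _root_.Pool.Agent.PTK.CTK in
/-- PTK_CTK. -/
theorem CTK_thm (hSPP : SPP) (hCLSC : CLSC) (hSYK : Stmt_SYK) (hDCK : Stmt_DCK) (hZS : Stmt_ZS)
    (hPT : Stmt_PT) (hBDK : Stmt_BDK) (hZA : Stmt_ZA) : Stmt_CTK := by
  classical
  intro h n m k π p e r f w0 c hNF hh y hy s u hu hind
  have hn0 : 0 < n := PT.FINA.pos_of_nf hNF
  have hN0 : 0 < 3 ^ h * n := Nat.mul_pos (pow_pos (by norm_num) _) hn0
  have hBB : ∀ E q : ℕ, ((BB h n E q : ℤ) : Eis) = ((3 ^ h * n : ℕ) : Eis) * (q : Eis) ^ E := by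
    intro E q
    unfold BB
    push_cast
    ring
  obtain ⟨P, Q, P', Q', hSys, hHyp⟩ := hSYK h n m k π p e r f w0 c hNF hh y hy s u hu hind
  have hy0 : y ≠ 0 := by
    have h1 := hind.ne_zero 0
    rwa [Fin.cons_zero] at h1
  obtain ⟨hx0, -, -, -, -, -, -, -, -, hxc⟩ := hZA n m k π p e r f hNF y
  have hxnc : ¬ ∃ t : Eis, t ^ 3 = zN π e y := fun ht => hy0 (hxc ht)
  have hnd : ∀ (v : Fin (m + 1) → ZMod 3) (q : ℕ), q.Prime → q % 3 = 2 → ¬ q ∣ n →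
      ¬ (q : Eis) ∣ zN π e v := by
    intro v q hq hq3 hqn
    obtain ⟨-, -, -, h4, -⟩ := hZA n m k π p e r f hNF v
    obtain ⟨σ, hσ⟩ := hSPP.2.2.2.2.1 q hq hq3
    have h5 := h4 σ
    rw [hσ] at h5
    exact h5 fun h6 => hqn (nat_dvd h6)
  -- the conductor
  choose F0 hF0 hF1 using fun j => hDCK (3 ^ h * n) (zN π e (u j)) (zN π e y) (P j) (Q j) (P' j)
    (Q' j) (hHyp j)
  obtain ⟨F, hFpos, hF9, hpF, hFd⟩ : ∃ F : ℕ, 0 < F ∧ 9 ∣ F ∧ (∀ i, p i ∣ F) ∧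
      ∀ j, F0 j ∣ F := by
    refine ⟨9 * (∏ i, p i) * ∏ j, F0 j, ?_, ?_, ?_, ?_⟩
    · have h1 : 0 < ∏ i, p i := Finset.prod_pos fun i _ => (hNF.pp i).pos
      have h2 : 0 < ∏ j, F0 j := Finset.prod_pos fun j _ => hF0 j
      positivity
    · exact Dvd.dvd.mul_right (Dvd.intro _ rfl) _
    · intro i
      exact Dvd.dvd.mul_right (Dvd.dvd.mul_left (Finset.dvd_prod_of_mem p (mem_univ i)) _) _
    · intro j
      exact Dvd.dvd.mul_left (Finset.dvd_prod_of_mem F0 (mem_univ j)) _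
  choose C Φ N₀ hC using fun j => hF1 j F hFpos (hFd j)
  obtain ⟨κ, hκ1, hκ2⟩ := hCLSC m π p hNF.pp hNF.p1 hNF.pπ hNF.pinj F hFpos hF9 hpF
  obtain ⟨M, hM⟩ : ∃ M, M = 3 ^ h * n + F + ∑ j, N₀ j := ⟨_, rfl⟩
  have hMN : ∀ j, N₀ j ≤ ∑ j, N₀ j := fun j =>
    Finset.single_le_sum (f := N₀) (fun i _ => Nat.zero_le _) (mem_univ j)
  have hmain : ∀ (E q : ℕ), (E = 1 ∨ E = 2) → q.Prime → M < q → q ∈ QY h n π e w0 c y E →
      ∃ hQ : q.Coprime F, sym (q : Eis) (zN π e y) = 0 ∧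
        (∀ j, sym (q : Eis) (zN π e (u j)) = 0) ∧
        ∀ (j : Fin s) (ξ : Eis), (q : Eis) ∣ ξ ^ 3 - zN π e y →
          C j + E * ((Φ j (ZMod.unitOfCoprime q hQ)).toAdd -
            TAUE q (P j) (Q j) (P' j) (Q' j) ξ) = 0 := by
    intro E q hE hq hqM ⟨hq3, hIn, hOcc⟩
    have hqN : ¬ q ∣ 3 ^ h * n := fun h => by
      have := Nat.le_of_dvd hN0 h
      omega
    have hqn : ¬ q ∣ n := fun h => hqN (Dvd.dvd.mul_left h _)
    have hQ : q.Coprime F := by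
      rw [Nat.Prime.coprime_iff_not_dvd hq]
      intro h
      have := Nat.le_of_dvd hFpos h
      omega
    have hSel : ∀ v ∈ VS h n π p e r w0 c, ∀ σ : PP,
        tm σ.1 (zN π e v) (((3 ^ h * n : ℕ) : Eis) * (q : Eis) ^ E) = 0 := by
      intro v hv σ
      have h1 := (hZS h n m k π p e r f w0 c E q hNF hh hE hq hq3 hIn hqn v hv).sym σ
      rwa [hBB] at h1
    have hB0 : BB h n E q ≠ 0 := by
      unfold BB
      have h3 : (3 : ℤ) ^ h ≠ 0 := pow_ne_zero _ (by norm_num)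
      have h4 : (n : ℤ) ≠ 0 := by exact_mod_cast hn0.ne'
      have h5 : (q : ℤ) ^ E ≠ 0 := pow_ne_zero _ (by exact_mod_cast hq.ne_zero)
      exact mul_ne_zero (mul_ne_zero h3 h4) h5
    obtain ⟨X, Y, hpt⟩ := hPT (BB h n E q) (zN π e y) hB0 hx0 hxnc hOcc
    rw [hBB] at hpt
    refine ⟨hQ, sym_zero hSPP hq hq3 hE hqN (hnd y q hq hq3 hqn) (hSel y hy),
      fun j => sym_zero hSPP hq hq3 hE hqN (hnd (u j) q hq hq3 hqn) (hSel (u j) (hu j).1), ?_⟩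
    intro j ξ hξ
    exact hC j E q hQ hE hq (by have := hMN j; omega) hq3 (hSel (u j) (hu j).1) (hSel y hy)
      X Y ξ hpt hξ
  obtain ⟨K, hK⟩ := hBDK s (zN π e y) (fun j => zN π e (u j)) P Q P' Q' F m κ (Fin.cons w0 c) C
    (assemble Φ) hSys hFpos hF9 hκ2
  refine ⟨K + 2 * (2 * ((Finset.range (M + 1)).card : ℝ)), fun σ h1 hσ2 => ?_⟩
  have hB := hK σ h1 hσ2
  have hsub1 : ∀ q : ℕ, q.Prime → M < q → q ∈ QY h n π e w0 c y 1 →
      q ∈ SPK (zN π e y) (fun j => zN π e (u j)) P Q P' Q' κ (Fin.cons w0 c) C (assemble Φ) := by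
    intro q hq hqM hqY
    obtain ⟨hQ, h2, h3, h4⟩ := hmain 1 q (Or.inl rfl) hq hqM hqY
    obtain ⟨hq3, hIn, -⟩ := hqY
    refine ⟨hQ, hq3, ?_, h2, h3, ?_⟩
    · rw [hκ1]
      funext i
      refine Fin.cases ?_ (fun i => ?_) i
      · rw [Fin.cons_zero, Fin.cons_zero]
        have h5 := hIn.1
        rw [pow_one] at h5
        exact h5
      · rw [Fin.cons_succ, Fin.cons_succ]
        have h5 := hIn.2 i
        rw [Nat.cast_one, one_mul] at h5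
        exact h5
    · intro j ξ hξ
      have h5 := h4 j ξ hξ
      rw [assemble_apply]
      rw [Nat.cast_one, one_mul] at h5
      linear_combination -h5
  have hsub2 : ∀ q : ℕ, q.Prime → M < q → q ∈ QY h n π e w0 c y 2 →
      q ∈ SMK (zN π e y) (fun j => zN π e (u j)) P Q P' Q' κ (Fin.cons w0 c) C (assemble Φ) := by
    intro q hq hqM hqY
    obtain ⟨hQ, h2, h3, h4⟩ := hmain 2 q (Or.inr rfl) hq hqM hqY
    obtain ⟨hq3, hIn, -⟩ := hqY
    refine ⟨hQ, hq3, ?_, h2, h3, ?_⟩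
    · rw [hκ1]
      funext i
      refine Fin.cases ?_ (fun i => ?_) i
      · rw [Fin.cons_zero, Pi.neg_apply, Fin.cons_zero]
        have h5 := hIn.1
        rw [CL.wt_sq2 hq3] at h5
        exact neg_of_two h5
      · rw [Fin.cons_succ, Pi.neg_apply, Fin.cons_succ]
        exact neg_of_two (hIn.2 i)
    · intro j ξ hξ
      have h5 := h4 j ξ hξ
      rw [assemble_apply]
      rw [show ((2 : ℕ) : ZMod 3) = -1 from by decide] at h5
      linear_combination h5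
  have i1 := CL.sm_le_add _ _ M hsub1 h1
  have i2 := CL.sm_le_add _ _ M hsub2 h1
  linarith

end Pool.Agent.PTK


end

section

/-!
# PTK_MSKU: the primes for which a class is the class of a point, `q = 1 (mod 3)`
-/

set_option autoImplicit false

open NumberField IsDedekindDomain Finset
open scoped nonZeroDivisors Pointwise

namespace Pool.Agent.PTK

open Pool.Agent.Lib_helper18 Pool.Agent.Lib_helper18.Eis Pool.Agent.Lib_helper84.Cub
open Pool.Agent.PT Pool.Agent.PTE Pool.Agent.PT3 Pool.Agent.PTL Pool.Agent.PTN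

namespace MSKU

/-- a prime factor of a prime `q = 1 (mod 3)` divides no number prime to `q` -/
theorem not_dvd {ρ : PP} {q : ℕ} (hq : q.Prime) (hρ : (q : Eis) = ρ.1 * conj ρ.1) {N : ℕ}
    (hqN : ¬ q ∣ N) : ¬ ρ.1 ∣ (N : Eis) := by
  have : Fact q.Prime := ⟨hq⟩
  rw [dvd_natCast_iff (CLSC.norm_of _ _ hρ)]
  exact hqN

/-- the symbol at a prime factor of `q` vanishes -/
theorem sym_zero {ρ : PP} {q : ℕ} (hq : q.Prime) (hq3 : q % 3 = 1)
    (hρ : (q : Eis) = ρ.1 * conj ρ.1) {E N : ℕ}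
    (hE : E = 1 ∨ E = 2) (hqN : ¬ q ∣ N) {z : Eis} (hz : ¬ ρ.1 ∣ z)
    (htm : ∀ σ : PP, tm σ.1 z ((N : Eis) * (q : Eis) ^ E) = 0) : sym ρ.1 z = 0 := by
  have : Fact q.Prime := ⟨hq⟩
  have hn := CLSC.norm_of _ _ hρ
  have hp : Prime ρ.1 := ρ.2.1
  have hN : ¬ ρ.1 ∣ (N : Eis) := not_dvd hq hρ hqN
  have hcp : conj ρ.1 ≠ 0 := fun h => hp.ne_zero (by
    have h1 := congrArg conj h
    rwa [conj_conj, map_zero] at h1)
  have hq0 : (q : Eis) ≠ 0 := by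
    rw [hρ]
    exact mul_ne_zero hp.ne_zero hcp
  have hc : ¬ ρ.1 ∣ conj ρ.1 := not_dvd_conj hq3 hn
  have hV : V ρ.1 (q : Eis) = 1 := by
    rw [hρ, mul_comm, V_mul_not_dvd hp hc hp.ne_zero, V_self]
  have h1 := htm ρ
  unfold tm at h1
  rw [V_mul_not_dvd hp hN (pow_ne_zero _ hq0), V_pow hp hq0, hV,
    V_eq_zero hz, EHYP.ch_of_not_dvd hp hz, Nat.cast_zero, zero_mul, sub_zero, mul_one] at h1
  exact CTK.zero_of_mul hE h1

theorem wt_sq {q : ℕ} (hq : q % 3 = 1) : wt (((q : ℤ) ^ 2) ^ 2) = 2 * wt ((q : ℤ) ^ 2) := by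
  have h : ¬ (3 : ℤ) ∣ (q : ℤ) := by omega
  have h1 := sq_mod_three h
  have h2 : ((q : ℤ) ^ 2) ^ 2 = (q : ℤ) ^ 2 * (q : ℤ) ^ 2 := by ring
  rw [h2, wt_mul h1 h1]
  ring

end MSKU

open _root_.Pool.Agent.PTK.MSKU in
/-- PTK_MSKU. -/
theorem MSKU_thm (hDCKU : Stmt_DCKU) (hZSU : Stmt_ZSU)
    (hPT : Stmt_PT) (hZA : Stmt_ZA) : Stmt_MSKU := by
  classical
  intro h n m k π p e r f w0 c hNF hh y hy s u P Q P' Q' hu hSys hHyp
  have hn0 : 0 < n := PT.FINA.pos_of_nf hNF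
  have hN0 : 0 < 3 ^ h * n := Nat.mul_pos (pow_pos (by norm_num) _) hn0
  have hBB : ∀ E q : ℕ, ((BB h n E q : ℤ) : Eis) = ((3 ^ h * n : ℕ) : Eis) * (q : Eis) ^ E := by
    intro E q
    unfold BB
    push_cast
    ring
  have hxnc : ¬ ∃ t : Eis, t ^ 3 = zN π e y := by
    rintro ⟨t, ht⟩
    exact hSys.ind 1 0 (Or.inl (by norm_num)) ⟨t, by simpa using ht⟩
  obtain ⟨hx0, -⟩ := hZA n m k π p e r f hNF y
  have hnd : ∀ (v : Fin (m + 1) → ZMod 3) (q : ℕ) (ρ : PP), q.Prime →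
      (q : Eis) = ρ.1 * conj ρ.1 → ¬ q ∣ n → ¬ ρ.1 ∣ zN π e v := by
    intro v q ρ hq hρ hqn
    obtain ⟨-, -, -, h4, -⟩ := hZA n m k π p e r f hNF v
    exact h4 ρ (not_dvd hq hρ hqn)
  -- the conductor
  choose F0 hF0 hF1 using fun j => hDCKU (3 ^ h * n) (zN π e (u j)) (zN π e y) (P j) (Q j) (P' j)
    (Q' j) (hHyp j)
  refine ⟨∏ j, F0 j, Finset.prod_pos fun j _ => hF0 j, fun F hFpos hFd κ hκ1 => ?_⟩
  choose C Φ N₀ hC using fun j => hF1 j F hFpos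
    ((Finset.dvd_prod_of_mem F0 (mem_univ j)).trans hFd)
  have hMN : ∀ j, N₀ j ≤ ∑ j, N₀ j := fun j =>
    Finset.single_le_sum (f := N₀) (fun i _ => Nat.zero_le _) (mem_univ j)
  have hmain : ∀ (E q : ℕ), (E = 1 ∨ E = 2) → q.Prime → 3 ^ h * n + F + ∑ j, N₀ j < q →
      q ∈ QYU h n π e w0 c y E →
      ∃ hQ : q.Coprime F, ∀ ρ : PP, (q : Eis) = ρ.1 * conj ρ.1 → sym ρ.1 (zN π e y) = 0 ∧
        (∀ j, sym ρ.1 (zN π e (u j)) = 0) ∧
        ∀ (j : Fin s) (ξ ξ' : Eis), ρ.1 ∣ ξ ^ 3 - zN π e y → conj ρ.1 ∣ ξ' ^ 3 - zN π e y →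
          C j + E * ((Φ j (ZMod.unitOfCoprime q hQ)).toAdd -
            TAUP ρ.1 (P j) (Q j) (P' j) (Q' j) ξ -
            TAUP (conj ρ.1) (P j) (Q j) (P' j) (Q' j) ξ') = 0 := by
    intro E q hE hq hqM ⟨hq3, hIn, hOcc⟩
    have hqN : ¬ q ∣ 3 ^ h * n := fun h => by
      have := Nat.le_of_dvd hN0 h
      omega
    have hqn : ¬ q ∣ n := fun h => hqN (Dvd.dvd.mul_left h _)
    have hQ : q.Coprime F := by
      rw [Nat.Prime.coprime_iff_not_dvd hq]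
      intro h
      have := Nat.le_of_dvd hFpos h
      omega
    have hSel : ∀ v ∈ VS h n π p e r w0 c, ∀ σ : PP,
        tm σ.1 (zN π e v) (((3 ^ h * n : ℕ) : Eis) * (q : Eis) ^ E) = 0 := by
      intro v hv σ
      have h1 := (hZSU h n m k π p e r f w0 c E q hNF hh hE hq hq3 hIn hqn v hv).sym σ
      rwa [hBB] at h1
    have hB0 : BB h n E q ≠ 0 := by
      unfold BB
      have h3 : (3 : ℤ) ^ h ≠ 0 := pow_ne_zero _ (by norm_num)
      have h4 : (n : ℤ) ≠ 0 := by exact_mod_cast hn0.ne'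
      have h5 : (q : ℤ) ^ E ≠ 0 := pow_ne_zero _ (by exact_mod_cast hq.ne_zero)
      exact mul_ne_zero (mul_ne_zero h3 h4) h5
    obtain ⟨X, Y, hpt⟩ := hPT (BB h n E q) (zN π e y) hB0 hx0 hxnc hOcc
    rw [hBB] at hpt
    refine ⟨hQ, fun ρ hρ => ⟨sym_zero hq hq3 hρ hE hqN (hnd y q ρ hq hρ hqn) (hSel y hy),
      fun j => sym_zero hq hq3 hρ hE hqN (hnd (u j) q ρ hq hρ hqn) (hSel (u j) (hu j).1), ?_⟩⟩
    intro j ξ ξ' hξ hξ'
    exact hC j E q hQ ρ hE hq (by have := hMN j; omega) hq3 hρ (hSel (u j) (hu j).1) (hSel y hy)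
      X Y ξ ξ' hpt hξ hξ'
  refine ⟨C, CTK.assemble Φ, 3 ^ h * n + F + ∑ j, N₀ j, fun q hq hqM => ⟨fun hqY => ?_,
    fun hqY => ?_⟩⟩
  · obtain ⟨hQ, h2⟩ := hmain 1 q (Or.inl rfl) hq hqM hqY
    obtain ⟨hq3, hIn, -⟩ := hqY
    refine ⟨hQ, hq3, ?_, fun ρ hρ => ⟨(h2 ρ hρ).1, (h2 ρ hρ).2.1, fun j ξ ξ' hξ hξ' => ?_⟩⟩
    · rw [hκ1]
      funext i
      refine Fin.cases ?_ (fun i => ?_) i
      · rw [Fin.cons_zero, Fin.cons_zero]
        have h5 := hIn.1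
        rw [pow_one] at h5
        exact h5
      · rw [Fin.cons_succ, Fin.cons_succ]
        have h5 := hIn.2 i
        rw [Nat.cast_one, one_mul] at h5
        exact h5
    · have h5 := (h2 ρ hρ).2.2 j ξ ξ' hξ hξ'
      rw [CTK.assemble_apply]
      rw [Nat.cast_one, one_mul] at h5
      linear_combination -h5
  · obtain ⟨hQ, h2⟩ := hmain 2 q (Or.inr rfl) hq hqM hqY
    obtain ⟨hq3, hIn, -⟩ := hqY
    refine ⟨hQ, hq3, ?_, fun ρ hρ => ⟨(h2 ρ hρ).1, (h2 ρ hρ).2.1, fun j ξ ξ' hξ hξ' => ?_⟩⟩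
    · rw [hκ1]
      funext i
      refine Fin.cases ?_ (fun i => ?_) i
      · rw [Fin.cons_zero, Pi.neg_apply, Fin.cons_zero]
        have h5 := hIn.1
        rw [wt_sq hq3] at h5
        exact CTK.neg_of_two h5
      · rw [Fin.cons_succ, Pi.neg_apply, Fin.cons_succ]
        exact CTK.neg_of_two (hIn.2 i)
    · have h5 := (h2 ρ hρ).2.2 j ξ ξ' hξ hξ'
      rw [CTK.assemble_apply]
      rw [show ((2 : ℕ) : ZMod 3) = -1 from by decide] at h5
      linear_combination h5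

end Pool.Agent.PTK


end

section

/-!
# PTK_MS1: the primes of `QM` are in `SPZU`, `SMZU` (`q = 1 (mod 3)`, several base classes)
-/

set_option autoImplicit false

open NumberField IsDedekindDomain Finset
open scoped nonZeroDivisors Pointwise

namespace Pool.Agent.PTK

open Pool.Agent.Lib_helper18 Pool.Agent.Lib_helper18.Eis Pool.Agent.Lib_helper84.Cub
open Pool.Agent.PT Pool.Agent.PTE Pool.Agent.PT3 Pool.Agent.PTL Pool.Agent.PTN

namespace MS1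

/-- a class of a system is no cube -/
theorem not_cube {M N : ℕ} {z : Fin M → Eis} {α β : Fin N → Fin M} {P Q P' Q' : Fin N → Eis}
    (hS : SysZ z α β P Q P' Q') (i : Fin M) : ¬ ∃ t : Eis, t ^ 3 = z i := by
  rintro ⟨t, ht⟩
  refine hS.ind (Pi.single i 1) ⟨i, by rw [Pi.single_eq_same]; norm_num⟩ ⟨t, ?_⟩
  rw [Fintype.prod_eq_single i, Pi.single_eq_same, pow_one, ht]
  intro l hl
  rw [Pi.single_eq_of_ne hl, pow_zero]

/-- `lv B ≠ 1` for `h ≠ 1` -/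
theorem lv_ne (hLCL : LCL) {n m k : ℕ} {π : Fin m → PP} {p e : Fin m → ℕ} {r f : Fin k → ℕ}
    (hNF : NF n π p e r f) {h E q : ℕ} {w0 : ZMod 3} {c : Fin m → ZMod 3} (hh : h ≤ 2)
    (h1 : h ≠ 1) (hq : q.Prime) (hq3 : ¬ 3 ∣ q) (hIn : InCT E π w0 c q) : lv (BB h n E q) ≠ 1 := by
  rw [(HYPT.lvw hLCL hNF hq hq3 hIn.1).1]
  interval_cases h
  · decide
  · exact absurd rfl h1
  · decide

end MS1

open MSKU in
/-- PTK_MS1. -/
theorem MS1_thm (hDCKU : Stmt_DCKU) (hDXL : Stmt_DXL) (hPT : Stmt_PT) (hPTX : Stmt_PTX)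
    (hZSU : Stmt_ZSU) (hZA : Stmt_ZA) (hLCL : LCL) : Stmt_MS1 := by
  classical
  intro h n m k π p e r f w0 c hNF hh M N y α β hT P Q P' Q' hSys hHyp
  have hn0 : 0 < n := PT.FINA.pos_of_nf hNF
  have hN0 : 0 < 3 ^ h * n := Nat.mul_pos (pow_pos (by norm_num) _) hn0
  have hBB : ∀ E q : ℕ, ((BB h n E q : ℤ) : Eis) = ((3 ^ h * n : ℕ) : Eis) * (q : Eis) ^ E := by
    intro E q
    unfold BB
    push_cast
    ring
  have hBZ : ∀ E q : ℕ, BB h n E q = ((3 ^ h * n : ℕ) : ℤ) * (q : ℤ) ^ E := by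
    intro E q
    unfold BB
    push_cast
    ring
  have hxnc : ∀ i, ¬ ∃ t : Eis, t ^ 3 = zN π e (y i) := fun i => MS1.not_cube hSys i
  have hx0 : ∀ i, zN π e (y i) ≠ 0 := fun i => (hZA n m k π p e r f hNF (y i)).1
  have hB0 : ∀ E q : ℕ, q.Prime → BB h n E q ≠ 0 := by
    intro E q hq
    unfold BB
    have h3 : (3 : ℤ) ^ h ≠ 0 := pow_ne_zero _ (by norm_num)
    have h4 : (n : ℤ) ≠ 0 := by exact_mod_cast hn0.ne'
    have h5 : (q : ℤ) ^ E ≠ 0 := pow_ne_zero _ (by exact_mod_cast hq.ne_zero)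
    exact mul_ne_zero (mul_ne_zero h3 h4) h5
  have hnd : ∀ (v : Fin (m + 1) → ZMod 3) (q : ℕ) (ρ : PP), q.Prime →
      (q : Eis) = ρ.1 * conj ρ.1 → ¬ q ∣ n → ¬ ρ.1 ∣ zN π e v := by
    intro v q ρ hq hρ hqn
    obtain ⟨-, -, -, h4, -⟩ := hZA n m k π p e r f hNF v
    exact h4 ρ (not_dvd hq hρ hqn)
  -- the relation for one pair
  have hrel : ∀ j, ∃ f₀ : ℕ, 0 < f₀ ∧ ∀ F : ℕ, 0 < F → f₀ ∣ F →
      ∃ (C : ZMod 3) (Φ : (ZMod F)ˣ →* Multiplicative (ZMod 3)) (N₀ : ℕ),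
      ∀ (E q : ℕ) (hQ : q.Coprime F) (ρ : PP), (E = 1 ∨ E = 2) → q.Prime → N₀ < q → q % 3 = 1 →
        (q : Eis) = ρ.1 * conj ρ.1 → InCT E π w0 c q →
        (∀ σ : PP, tm σ.1 (zN π e (y (β j))) (((3 ^ h * n : ℕ) : Eis) * (q : Eis) ^ E) = 0) →
        (∀ σ : PP, tm σ.1 (zN π e (y (α j))) (((3 ^ h * n : ℕ) : Eis) * (q : Eis) ^ E) = 0) →
        Occ (BB h n E q) (zN π e (y (α j))) →
        ∀ ξ ξ' : Eis, ρ.1 ∣ ξ ^ 3 - zN π e (y (α j)) → conj ρ.1 ∣ ξ' ^ 3 - zN π e (y (α j)) →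
          C + E * ((Φ (ZMod.unitOfCoprime q hQ)).toAdd -
            TAUP ρ.1 (P j) (Q j) (P' j) (Q' j) ξ -
            TAUP (conj ρ.1) (P j) (Q j) (P' j) (Q' j) ξ') = 0 := by
    intro j
    rcases hHyp j with hD | ⟨h1, hX⟩
    · obtain ⟨F0, hF0, hF1⟩ := hDCKU (3 ^ h * n) (zN π e (y (β j))) (zN π e (y (α j))) (P j) (Q j)
        (P' j) (Q' j) hD
      refine ⟨F0, hF0, fun F hF hd => ?_⟩
      obtain ⟨C, Φ, N₀, hC⟩ := hF1 F hF hd
      refine ⟨C, Φ, N₀, fun E q hQ ρ hE hq hN hq3 hρ hIn hb hx hocc ξ ξ' hξ hξ' => ?_⟩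
      obtain ⟨X, Y, hpt⟩ := hPT (BB h n E q) (zN π e (y (α j))) (hB0 E q hq) (hx0 _) (hxnc _) hocc
      rw [hBB] at hpt
      exact hC E q hQ ρ hE hq hN hq3 hρ hb hx X Y ξ ξ' hpt hξ hξ'
    · obtain ⟨F0, hF0, hF1⟩ := hDXL (3 ^ h * n) (zN π e (y (β j))) (zN π e (y (α j))) (P j) (Q j)
        (P' j) (Q' j) hX
      refine ⟨F0, hF0, fun F hF hd => ?_⟩
      obtain ⟨C, Φ, N₀, hC⟩ := hF1 F hF hd
      refine ⟨C, Φ, N₀, fun E q hQ ρ hE hq hN hq3 hρ hIn hb hx hocc ξ ξ' hξ hξ' => ?_⟩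
      obtain ⟨X, Y, hpt, hgp⟩ := hPTX (BB h n E q) (zN π e (y (α j))) (hB0 E q hq)
        (MS1.lv_ne hLCL hNF hh h1 hq (by omega) hIn) (hx0 _) (hxnc _) hocc
      rw [hBB] at hpt
      rw [hBZ] at hgp
      exact hC E q hQ ρ hE hq hN hq3 hρ hb hx X Y ξ ξ' hpt hgp hξ hξ'
  choose F0 hF0 hF1 using hrel
  refine ⟨∏ j, F0 j, Finset.prod_pos fun j _ => hF0 j, fun F hFpos hFd κ hκ1 => ?_⟩
  choose C Φ N₀ hC using fun j => hF1 j F hFpos
    ((Finset.dvd_prod_of_mem F0 (mem_univ j)).trans hFd)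
  have hMN : ∀ j, N₀ j ≤ ∑ j, N₀ j := fun j =>
    Finset.single_le_sum (f := N₀) (fun i _ => Nat.zero_le _) (mem_univ j)
  have hmain : ∀ (E q : ℕ), (E = 1 ∨ E = 2) → q.Prime → 3 ^ h * n + F + ∑ j, N₀ j < q →
      q ∈ QM h n π e w0 c y α 1 E →
      ∃ hQ : q.Coprime F, ∀ ρ : PP, (q : Eis) = ρ.1 * conj ρ.1 →
        (∀ i, sym ρ.1 (zN π e (y i)) = 0) ∧
        ∀ (j : Fin N) (ξ ξ' : Eis), ρ.1 ∣ ξ ^ 3 - zN π e (y (α j)) →
          conj ρ.1 ∣ ξ' ^ 3 - zN π e (y (α j)) →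
          C j + E * ((Φ j (ZMod.unitOfCoprime q hQ)).toAdd -
            TAUP ρ.1 (P j) (Q j) (P' j) (Q' j) ξ -
            TAUP (conj ρ.1) (P j) (Q j) (P' j) (Q' j) ξ') = 0 := by
    intro E q hE hq hqM ⟨hq3, hIn, hOcc⟩
    have hqN : ¬ q ∣ 3 ^ h * n := fun h => by
      have := Nat.le_of_dvd hN0 h
      omega
    have hqn : ¬ q ∣ n := fun h => hqN (Dvd.dvd.mul_left h _)
    have hQ : q.Coprime F := by
      rw [Nat.Prime.coprime_iff_not_dvd hq]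
      intro h
      have := Nat.le_of_dvd hFpos h
      omega
    have hSel : ∀ v ∈ VS h n π p e r w0 c, ∀ σ : PP,
        tm σ.1 (zN π e v) (((3 ^ h * n : ℕ) : Eis) * (q : Eis) ^ E) = 0 := by
      intro v hv σ
      have h1 := (hZSU h n m k π p e r f w0 c E q hNF hh hE hq hq3 hIn hqn v hv).sym σ
      rwa [hBB] at h1
    refine ⟨hQ, fun ρ hρ => ⟨fun i => sym_zero hq hq3 hρ hE hqN (hnd (y i) q ρ hq hρ hqn)
      (hSel (y i) (hT.mem i)), ?_⟩⟩
    intro j ξ ξ' hξ hξ'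
    exact hC j E q hQ ρ hE hq (by have := hMN j; omega) hq3 hρ hIn (hSel _ (hT.mem _))
      (hSel _ (hT.mem _)) (hOcc j) ξ ξ' hξ hξ'
  refine ⟨C, CTK.assemble Φ, 3 ^ h * n + F + ∑ j, N₀ j, fun q hq hqM => ⟨fun hqY => ?_,
    fun hqY => ?_⟩⟩
  · obtain ⟨hQ, h2⟩ := hmain 1 q (Or.inl rfl) hq hqM hqY
    obtain ⟨hq3, hIn, -⟩ := hqY
    refine ⟨hQ, hq3, ?_, fun ρ hρ => ⟨(h2 ρ hρ).1, fun j ξ ξ' hξ hξ' => ?_⟩⟩
    · rw [hκ1]
      funext i
      refine Fin.cases ?_ (fun i => ?_) i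
      · rw [Fin.cons_zero, Fin.cons_zero]
        have h5 := hIn.1
        rw [pow_one] at h5
        exact h5
      · rw [Fin.cons_succ, Fin.cons_succ]
        have h5 := hIn.2 i
        rw [Nat.cast_one, one_mul] at h5
        exact h5
    · have h5 := (h2 ρ hρ).2 j ξ ξ' hξ hξ'
      rw [CTK.assemble_apply]
      rw [Nat.cast_one, one_mul] at h5
      linear_combination -h5
  · obtain ⟨hQ, h2⟩ := hmain 2 q (Or.inr rfl) hq hqM hqY
    obtain ⟨hq3, hIn, -⟩ := hqY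
    refine ⟨hQ, hq3, ?_, fun ρ hρ => ⟨(h2 ρ hρ).1, fun j ξ ξ' hξ hξ' => ?_⟩⟩
    · rw [hκ1]
      funext i
      refine Fin.cases ?_ (fun i => ?_) i
      · rw [Fin.cons_zero, Pi.neg_apply, Fin.cons_zero]
        have h5 := hIn.1
        rw [wt_sq hq3] at h5
        exact CTK.neg_of_two h5
      · rw [Fin.cons_succ, Pi.neg_apply, Fin.cons_succ]
        exact CTK.neg_of_two (hIn.2 i)
    · have h5 := (h2 ρ hρ).2 j ξ ξ' hξ hξ'
      rw [CTK.assemble_apply]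
      rw [show ((2 : ℕ) : ZMod 3) = -1 from by decide] at h5
      linear_combination h5

end Pool.Agent.PTK


end

section

/-!
# PTK_NBU: the bound for the rank, `q = 1 (mod 3)`, generic pattern
-/

set_option autoImplicit false

namespace Pool.Agent.PTK

open Pool.Agent.Lib_helper18 Pool.Agent.Lib_helper18.Eis Pool.Agent.Lib_helper84.Cub
open Pool.Agent.PT Pool.Agent.PTE Pool.Agent.PT3 Pool.Agent.PTL Pool.Agent.PTN

open Pool.Agent.PTN.NBKU in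
/-- PTK_NBU: the bound for the rank, `q = 1 (mod 3)`, generic pattern.
Proof. As `NBKU_thm` (PTN/NBKU.lean) with `WGU` in place of `NPSU`: the index of the points is at most
the product of the numbers of the classes in the minus part, at most `Nat.card WqS` by the second
bound of `WGU` (`b (Fin.last s)` is admissible and has a nonzero symbol at the `ρ` of `Pat v δ`), and in
the plus part, at most the number of the elements of the kernel of the matrix (`TENT`). -/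
theorem NBU_thm (hK : Stmt_KID) (_hI : Stmt_NKIN) (hA : Stmt_NADU) (hL : Stmt_NPLU)
    (hTENT : TENT) (_hSPP : SPP) (hSPLT : SPLT) (hWGU : Stmt_WGU) : Stmt_NBU := by
  classical
  intro h n m k π p e r f w0 c d v₀ δ s τ b X Y P Q P' Q' E q hN hh _ hPl hE hq hq3 hq1 hIn hqn
    hPat
  obtain ⟨ρ, hqρ, hpat⟩ := hPat
  have hρn : ¬ ρ.1 ∣ (n : Eis) := by
    intro h2
    have h4 := (hSPLT.2 q ρ hq hq1 hqρ).2.2.2.1 (n : ℤ)
    rw [Int.cast_natCast] at h4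
    exact hqn (Int.natCast_dvd_natCast.1 (h4.1 h2))
  obtain ⟨hiff, hsp⟩ := hPl.pat ρ hρn
  obtain ⟨h0, h1⟩ := hiff.2 hpat
  have hgen := hsp h0 h1
  have hAd := hPl.adm
  have hSys := hPl.sys
  have hSw := hPl.sw
  have hT := hPl.lam
  have hq3' : q ≠ 3 := by omega
  have hB0 : BB h n E q ≠ 0 := BB_ne hN hq
  have hcf := cubeFree (h := h) hN hh hE hq hq3' hqn
  have habs := abs_ge (h := h) hN hE hq hq3
  have hnc : ¬ ∃ t : ℤ, t ^ 3 = BB h n E q := by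
    apply CubeRank.GenPf.not_cube hcf
    have h2 : ((BB h n E q).natAbs : ℤ) = |BB h n E q| := Int.natCast_natAbs _
    rw [← h2]
    exact_mod_cast habs
  obtain ⟨hBG, hTy, hAdm⟩ := hA h n m k π p e r f w0 c E q ρ hN hh hE hq hq1 hIn hqn hqρ
  obtain ⟨⟨dd, hdd⟩, W, _, Ψ₁, -, hW, hΨ₁⟩ := hWGU h n m k π p e r f w0 c E q ρ hN hh hE hq hq3 hq1
    hIn hqn hqρ
  replace hW := hW ⟨_, hAd (Fin.last s), h1⟩
  unfold kU
  rw [hdd] at hW ⊢
  rw [Nat.log_pow (by norm_num : 1 < 3)]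
  set B := BB h n E q with hBdef
  set M := MaT (rv b) X Y (rs P) (rs Q) (rs P') (rs Q') B with hM
  have hsupp : ∀ i : Fin (s + 1), ∀ l : ℕ, l.Prime → (l : ℤ) ∣ b i → l ∣ 3 * n := fun i =>
    (hAd i).1.supp
  have hAG : ∀ i : Fin s, AG B (rv b i) := fun i =>
    ((hAdm (b i.castSucc) (hsupp _)).1 ⟨hAd _, h0 i⟩).1
  have hne : ∀ i : Fin s, rv b i ≠ 0 := fun i => (hAd i.castSucc).1.ne
  have hker := (hTENT s τ (rv b) X Y _ _ _ _ B (ECLU.sysG_restr hSys) (ECLU.sw_restr hSw) hBG hAG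
    (hT B hTy) hne).2
  -- the class of a point of the isogenous curve
  have hz : ∀ z : ℤ, S2 B z → ∃ (g : Fin s → ℕ) (u v : ℤ) (j : ℕ), u ≠ 0 ∧ v ≠ 0 ∧
      z * B ^ j * u ^ 3 = (∏ i, rv b i ^ g i) * v ^ 3 ∧
      ∀ j, ∑ i, M j i * (g i : ZMod 3) = 0 := by
    rintro z (rfl | ⟨A, m', hA0, hsum, hprod, hcop, rfl⟩)
    · exact ⟨fun _ => 0, 1, 1, 0, one_ne_zero, one_ne_zero, by simp, fun j => by simp⟩
    · obtain ⟨z', X1, Y1, u, v, j, hu, hv, hz', hPt, hAGz, hLoc, hs⟩ :=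
        hL h n m k π p e r f E q A m' hN hh hE hq hq3' hqn hA0 hsum hprod hcop
      obtain ⟨g1, g2⟩ := (hAdm z' hs).2 ⟨hAGz, hLoc⟩
      obtain ⟨g, u', v', hu', hv', hg⟩ := hgen z' g1 g2
      change z' * u' ^ 3 = (∏ i, rv b i ^ g i) * v' ^ 3 at hg
      refine ⟨g, v * u', v' * u, j, mul_ne_zero hv hu', mul_ne_zero hv' hu, ?_, ?_⟩
      · have e1 : A 0 ^ 2 * A 1 * B ^ j * (v * u') ^ 3 =
            (A 0 ^ 2 * A 1 * B ^ j * v ^ 3) * u' ^ 3 := by ring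
        rw [e1, ← hz']
        linear_combination (u ^ 3) * hg
      · by_cases hex : ∃ i, ¬ 3 ∣ g i
        · exact hker g _ _ hex (pt_transport hPt hu' hv' hg)
        · push Not at hex
          intro j
          refine Finset.sum_eq_zero (fun i _ => ?_)
          rw [(ZMod.natCast_eq_zero_iff (g i) 3).2 (hex i), mul_zero]
  choose! g u v j hu hv hzg hzM using hz
  let Ψ₂ : ℤ → LinearMap.ker M.mulVecLin := fun z =>
    if hS : S2 B z then ⟨fun i => (g z i : ZMod 3), by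
      rw [LinearMap.mem_ker]
      funext j'
      exact hzM z hS j'⟩ else 0
  have hΨ₂ : ∀ z z', S2 B z → S2 B z' → Ψ₂ z = Ψ₂ z' →
      ∃ (u v : ℤ) (j : ℕ), u ≠ 0 ∧ v ≠ 0 ∧ z * u ^ 3 = z' * B ^ j * v ^ 3 := by
    intro z z' hS hS' hΨ
    have h2 : ∀ i, (g z i : ZMod 3) = g z' i := by
      intro i
      have h3 := congrArg (fun x : LinearMap.ker M.mulVecLin => (x : Fin s → ZMod 3) i) hΨ
      simp only [Ψ₂, dif_pos hS, dif_pos hS'] at h3
      exact h3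
    obtain ⟨A, A', hA0, hA0', hAA⟩ := BKER.prod_cube (rv b) hne (g z) (g z') h2
    refine ⟨B ^ j z * (u z * A * v z'), u z' * A' * v z, j z' + 2 * j z,
      mul_ne_zero (pow_ne_zero _ hB0) (mul_ne_zero (mul_ne_zero (hu z hS) hA0) (hv z' hS')),
      mul_ne_zero (mul_ne_zero (hu z' hS') hA0') (hv z hS), ?_⟩
    have e1 := hzg z hS
    have e2 := hzg z' hS'
    generalize (∏ i, rv b i ^ g z i) = w1 at *
    generalize (∏ i, rv b i ^ g z' i) = w2 at *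
    rw [pow_add, mul_comm 2 (j z), pow_mul]
    generalize B ^ j z = β at *
    generalize B ^ j z' = β' at *
    linear_combination (β ^ 2 * A ^ 3 * v z' ^ 3) * e1 - (β ^ 2 * A' ^ 3 * v z ^ 3) * e2 +
      (β ^ 2 * v z ^ 3 * v z' ^ 3) * hAA
  obtain ⟨hfin, hidx⟩ := hK B hB0 hcf hnc W (LinearMap.ker M.mulVecLin) Ψ₁ Ψ₂ hΨ₁ hΨ₂
  have hkerd : Module.finrank (ZMod 3) (LinearMap.ker M.mulVecLin) = s - M.rank := by
    have h2 := LinearMap.finrank_range_add_finrank_ker M.mulVecLin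
    rw [Module.finrank_fintype_fun_eq_card, Fintype.card_fin] at h2
    have h3 : Module.finrank (ZMod 3) (LinearMap.range M.mulVecLin) = M.rank := rfl
    omega
  rw [Module.natCard_eq_pow_finrank (K := ZMod 3) (V := LinearMap.ker M.mulVecLin), Nat.card_zmod,
    hkerd] at hidx
  refine CubeRank.gen' B hcf habs _ hfin (hidx.trans ?_)
  rw [pow_add]
  exact Nat.mul_le_mul_right _ hW

end Pool.Agent.PTK


end

section

/-!
# PTK_NBX: the bound for the rank, `q = 1 (mod 3)`, all rational classes cubes modulo `q`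
-/

set_option autoImplicit false

namespace Pool.Agent.PTK

open Pool.Agent.Lib_helper18 Pool.Agent.Lib_helper18.Eis Pool.Agent.Lib_helper84.Cub
open Pool.Agent.PT Pool.Agent.PTE Pool.Agent.PT3 Pool.Agent.PTL Pool.Agent.PTN

open Pool.Agent.PTN.NBKU in
/-- PTK_NBX: the bound for the rank, `q = 1 (mod 3)`, all rational classes cubes modulo `q`, with
the matrix.
Proof. As `NBU_thm` (PTK/NBU.lean) with `b` in place of `rv b` and the first bound of `WGU` for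
`Nat.card W`. -/
theorem NBX_thm (hK : Stmt_KID) (_hI : Stmt_NKIN) (hA : Stmt_NADU) (hL : Stmt_NPLU)
    (hTENT : TENT) (_hSPP : SPP) (hSPLT : SPLT) (hWGU : Stmt_WGU) : Stmt_NBX := by
  classical
  intro h n m k π p e r f w0 c s τ b X Y P Q P' Q' E q hN hh hPl hE hq hq3 hq1 hIn hqn hZP
  obtain ⟨ρ, hqρ⟩ := hSPLT.1 q hq hq1
  have h0 : ∀ i, sym ρ.1 (b i : Eis) = 0 := hZP ρ hqρ
  have hgen := hPl.gen
  have hAd := hPl.adm
  have hSys := hPl.sys
  have hSw := hPl.sw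
  have hT := hPl.lam
  have hq3' : q ≠ 3 := by omega
  have hB0 : BB h n E q ≠ 0 := BB_ne hN hq
  have hcf := cubeFree (h := h) hN hh hE hq hq3' hqn
  have habs := abs_ge (h := h) hN hE hq hq3
  have hnc : ¬ ∃ t : ℤ, t ^ 3 = BB h n E q := by
    apply CubeRank.GenPf.not_cube hcf
    have h2 : ((BB h n E q).natAbs : ℤ) = |BB h n E q| := Int.natCast_natAbs _
    rw [← h2]
    exact_mod_cast habs
  obtain ⟨hBG, hTy, hAdm⟩ := hA h n m k π p e r f w0 c E q ρ hN hh hE hq hq1 hIn hqn hqρ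
  obtain ⟨⟨dd, hdd⟩, W, _, Ψ₁, hW, -, hΨ₁⟩ := hWGU h n m k π p e r f w0 c E q ρ hN hh hE hq hq3 hq1
    hIn hqn hqρ
  unfold kS
  rw [hdd] at hW ⊢
  rw [Nat.log_pow (by norm_num : 1 < 3)]
  set B := BB h n E q with hBdef
  set M := MaT b X Y P Q P' Q' B with hM
  have hsupp : ∀ i : Fin s, ∀ l : ℕ, l.Prime → (l : ℤ) ∣ b i → l ∣ 3 * n := fun i =>
    (hAd i).1.supp
  have hAG : ∀ i : Fin s, AG B (b i) := fun i =>
    ((hAdm (b i) (hsupp _)).1 ⟨hAd _, h0 i⟩).1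
  have hne : ∀ i : Fin s, b i ≠ 0 := fun i => (hAd i).1.ne
  have hker := (hTENT s τ b X Y _ _ _ _ B hSys hSw hBG hAG (hT B hTy) hne).2
  -- the class of a point of the isogenous curve
  have hz : ∀ z : ℤ, S2 B z → ∃ (g : Fin s → ℕ) (u v : ℤ) (j : ℕ), u ≠ 0 ∧ v ≠ 0 ∧
      z * B ^ j * u ^ 3 = (∏ i, b i ^ g i) * v ^ 3 ∧
      ∀ j, ∑ i, M j i * (g i : ZMod 3) = 0 := by
    rintro z (rfl | ⟨A, m', hA0, hsum, hprod, hcop, rfl⟩)
    · exact ⟨fun _ => 0, 1, 1, 0, one_ne_zero, one_ne_zero, by simp, fun j => by simp⟩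
    · obtain ⟨z', X1, Y1, u, v, j, hu, hv, hz', hPt, hAGz, hLoc, hs⟩ :=
        hL h n m k π p e r f E q A m' hN hh hE hq hq3' hqn hA0 hsum hprod hcop
      obtain ⟨g1, -⟩ := (hAdm z' hs).2 ⟨hAGz, hLoc⟩
      obtain ⟨g, u', v', hu', hv', hg⟩ := hgen z' g1
      refine ⟨g, v * u', v' * u, j, mul_ne_zero hv hu', mul_ne_zero hv' hu, ?_, ?_⟩
      · have e1 : A 0 ^ 2 * A 1 * B ^ j * (v * u') ^ 3 =
            (A 0 ^ 2 * A 1 * B ^ j * v ^ 3) * u' ^ 3 := by ring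
        rw [e1, ← hz']
        linear_combination (u ^ 3) * hg
      · by_cases hex : ∃ i, ¬ 3 ∣ g i
        · exact hker g _ _ hex (pt_transport hPt hu' hv' hg)
        · push Not at hex
          intro j
          refine Finset.sum_eq_zero (fun i _ => ?_)
          rw [(ZMod.natCast_eq_zero_iff (g i) 3).2 (hex i), mul_zero]
  choose! g u v j hu hv hzg hzM using hz
  let Ψ₂ : ℤ → LinearMap.ker M.mulVecLin := fun z =>
    if hS : S2 B z then ⟨fun i => (g z i : ZMod 3), by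
      rw [LinearMap.mem_ker]
      funext j'
      exact hzM z hS j'⟩ else 0
  have hΨ₂ : ∀ z z', S2 B z → S2 B z' → Ψ₂ z = Ψ₂ z' →
      ∃ (u v : ℤ) (j : ℕ), u ≠ 0 ∧ v ≠ 0 ∧ z * u ^ 3 = z' * B ^ j * v ^ 3 := by
    intro z z' hS hS' hΨ
    have h2 : ∀ i, (g z i : ZMod 3) = g z' i := by
      intro i
      have h3 := congrArg (fun x : LinearMap.ker M.mulVecLin => (x : Fin s → ZMod 3) i) hΨ
      simp only [Ψ₂, dif_pos hS, dif_pos hS'] at h3
      exact h3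
    obtain ⟨A, A', hA0, hA0', hAA⟩ := BKER.prod_cube b hne (g z) (g z') h2
    refine ⟨B ^ j z * (u z * A * v z'), u z' * A' * v z, j z' + 2 * j z,
      mul_ne_zero (pow_ne_zero _ hB0) (mul_ne_zero (mul_ne_zero (hu z hS) hA0) (hv z' hS')),
      mul_ne_zero (mul_ne_zero (hu z' hS') hA0') (hv z hS), ?_⟩
    have e1 := hzg z hS
    have e2 := hzg z' hS'
    generalize (∏ i, b i ^ g z i) = w1 at *
    generalize (∏ i, b i ^ g z' i) = w2 at *
    rw [pow_add, mul_comm 2 (j z), pow_mul]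
    generalize B ^ j z = β at *
    generalize B ^ j z' = β' at *
    linear_combination (β ^ 2 * A ^ 3 * v z' ^ 3) * e1 - (β ^ 2 * A' ^ 3 * v z ^ 3) * e2 +
      (β ^ 2 * v z ^ 3 * v z' ^ 3) * hAA
  obtain ⟨hfin, hidx⟩ := hK B hB0 hcf hnc W (LinearMap.ker M.mulVecLin) Ψ₁ Ψ₂ hΨ₁ hΨ₂
  have hkerd : Module.finrank (ZMod 3) (LinearMap.ker M.mulVecLin) = s - M.rank := by
    have h2 := LinearMap.finrank_range_add_finrank_ker M.mulVecLin
    rw [Module.finrank_fintype_fun_eq_card, Fintype.card_fin] at h2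
    have h3 : Module.finrank (ZMod 3) (LinearMap.range M.mulVecLin) = M.rank := rfl
    omega
  rw [Module.natCard_eq_pow_finrank (K := ZMod 3) (V := LinearMap.ker M.mulVecLin), Nat.card_zmod,
    hkerd] at hidx
  refine CubeRank.gen' B hcf habs _ hfin (hidx.trans ?_)
  rw [pow_add, pow_succ, mul_comm (3 ^ dd) 3]
  exact Nat.mul_le_mul_right _ hW

end Pool.Agent.PTK


end

section

/-!
# PTK_NFL: existence of the field `K(x^(1/3))`
-/

set_option autoImplicit false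

open Polynomial

namespace Pool.Agent.PTK

open Pool.Agent.Lib_helper18 Pool.Agent.Lib_helper18.Eis Pool.Agent.Lib_helper84.Cub
open Pool.Agent.PT

namespace NFL

/-- the field `Q(w)` -/
abbrev F : Type := FractionRing Eis

theorem no_root {x : Eis} (hx : ¬ ∃ c : Eis, c ^ 3 = x) (b : F) : b ^ 3 ≠ algebraMap Eis F x := by
  intro hb
  have h1 : IsIntegral Eis b := IsIntegral.of_pow (n := 3) (by norm_num)
    (by rw [hb]; exact isIntegral_algebraMap)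
  obtain ⟨c, hc⟩ := IsIntegrallyClosed.isIntegral_iff.mp h1
  exact hx ⟨c, IsFractionRing.injective Eis F (by rw [map_pow, hc, hb])⟩

/-- From ring endomorphisms to the final statement. -/
theorem build (x : Eis) (L : Type) [Field L] [CharZero L] (ι : Eis →+* L) (θ : L)
    (σ0 : L →+* L) (inj : Function.Injective ι) (cube : θ ^ 3 = ι x)
    (sθ : σ0 θ = ι w * θ) (sι : ∀ a : Eis, σ0 (ι a) = ι a)
    (rep : ∀ z : L, ∃ (m : ℤ) (a b d : Eis), m ≠ 0 ∧ (m : L) * z = ι a + ι b * θ + ι d * θ ^ 2)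
    (lin : ∀ a b d : Eis, ι a + ι b * θ + ι d * θ ^ 2 = 0 → a = 0 ∧ b = 0 ∧ d = 0) :
    ∃ (L : Type) (_ : Field L) (_ : NumberField L) (ι : Eis →+* L) (θ : L) (σ : L ≃ₐ[ℚ] L),
      CubE x L ι θ σ := by
  classical
  have hfin : FiniteDimensional ℚ L := by
    refine Module.finite_def.mpr ⟨(Finset.range 2 ×ˢ Finset.range 3).image
      (fun ij : ℕ × ℕ => ι w ^ ij.1 * θ ^ ij.2), ?_⟩
    rw [eq_top_iff]
    rintro z -
    obtain ⟨m, a, b, d, hm, h⟩ := rep z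
    have hmL : (m : L) ≠ 0 := Int.cast_ne_zero.mpr hm
    have hs : ∀ i < 2, ∀ j < 3, ι w ^ i * θ ^ j ∈ Submodule.span ℚ
        (((Finset.range 2 ×ˢ Finset.range 3).image
          (fun ij : ℕ × ℕ => ι w ^ ij.1 * θ ^ ij.2) : Finset L) : Set L) := by
      intro i hi j hj
      apply Submodule.subset_span
      rw [Finset.mem_coe, Finset.mem_image]
      exact ⟨(i, j), by simp [hi, hj], rfl⟩
    have he : ∀ a : Eis, ι a = (a.re : L) + (a.im : L) * ι w := by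
      intro a
      conv_lhs => rw [eq_re_add_im a]
      simp
    have hz : z = ((a.re : ℚ) / m) • (ι w ^ 0 * θ ^ 0) + ((a.im : ℚ) / m) • (ι w ^ 1 * θ ^ 0) +
        ((b.re : ℚ) / m) • (ι w ^ 0 * θ ^ 1) + ((b.im : ℚ) / m) • (ι w ^ 1 * θ ^ 1) +
        ((d.re : ℚ) / m) • (ι w ^ 0 * θ ^ 2) + ((d.im : ℚ) / m) • (ι w ^ 1 * θ ^ 2) := by
      apply mul_left_cancel₀ hmL
      rw [h, he a, he b, he d]
      simp only [Rat.smul_def]
      push_cast
      field_simp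
      ring
    rw [hz]
    refine Submodule.add_mem _ (Submodule.add_mem _ (Submodule.add_mem _ (Submodule.add_mem _
      (Submodule.add_mem _ ?_ ?_) ?_) ?_) ?_) ?_ <;>
    exact Submodule.smul_mem _ _ (hs _ (by norm_num) _ (by norm_num))
  have hNF : NumberField L := { to_charZero := inferInstance, to_finiteDimensional := hfin }
  have key : ∀ g : L →+* L, ∃ g' : L ≃ₐ[ℚ] L, ∀ z, g' z = g z := by
    intro g
    have hb : Function.Bijective g.toRatAlgHom :=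
      Algebra.IsAlgebraic.algHom_bijective _
    exact ⟨AlgEquiv.ofBijective g.toRatAlgHom hb, fun z => rfl⟩
  obtain ⟨σ, hσ⟩ := key σ0
  exact ⟨L, inferInstance, hNF, ι, θ, σ, inj, cube, by rw [hσ, sθ], fun a => by rw [hσ, sι],
    rep, lin⟩

end NFL

open Pool.Agent.PTK.NFL in
theorem NFL_thm : Stmt_NFL := by
  intro x hx0 hx
  let f : F[X] := X ^ 3 - C (algebraMap Eis F x)
  have hf : Irreducible f :=
    X_pow_sub_C_irreducible_of_prime Nat.prime_three (fun b => no_root hx b)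
  have : Fact (Irreducible f) := ⟨hf⟩
  have hdeg : f.natDegree = 3 := natDegree_X_pow_sub_C
  have hmonic : f.Monic := monic_X_pow_sub_C _ (by norm_num)
  let L := AdjoinRoot f
  let θ : L := AdjoinRoot.root f
  let ι : Eis →+* L := (AdjoinRoot.of f).comp (algebraMap Eis F)
  have hinj : Function.Injective ι :=
    (AdjoinRoot.of f).injective.comp (IsFractionRing.injective Eis F)
  have hchar : CharZero Eis := ⟨fun a b h => by
    have := congrArg Eis.re h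
    simpa using this⟩
  have hcL : CharZero L := charZero_of_injective_ringHom hinj
  have hcube : θ ^ 3 = ι x := by
    have h := AdjoinRoot.eval₂_root f
    simp only [f, eval₂_sub, eval₂_pow, eval₂_X, eval₂_C] at h
    exact sub_eq_zero.mp h
  -- lin
  have hlin : ∀ a b d : Eis, ι a + ι b * θ + ι d * θ ^ 2 = 0 → a = 0 ∧ b = 0 ∧ d = 0 := by
    intro a b d h
    let g : F[X] := C (algebraMap Eis F a) + C (algebraMap Eis F b) * X +
      C (algebraMap Eis F d) * X ^ 2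
    have hg : AdjoinRoot.mk f g = 0 := by
      simp only [g, map_add, map_mul, map_pow, AdjoinRoot.mk_C, AdjoinRoot.mk_X]
      exact h
    rw [AdjoinRoot.mk_eq_zero] at hg
    have hg0 : g = 0 := by
      by_contra hne
      have h1 := natDegree_le_of_dvd hg hne
      have h2 : g.natDegree ≤ 2 := by
        simp only [g]
        compute_degree
      omega
    have c0 := congrArg (fun q => coeff q 0) hg0
    have c1 := congrArg (fun q => coeff q 1) hg0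
    have c2 := congrArg (fun q => coeff q 2) hg0
    simp [g, coeff_X, coeff_C] at c0 c1 c2
    exact ⟨c0, c1, c2⟩
  -- rep
  have hF : ∀ z : F, ∃ (m : ℤ) (a : Eis), m ≠ 0 ∧ (m : F) * z = algebraMap Eis F a := by
    intro z
    obtain ⟨⟨u, v⟩, huv⟩ := IsLocalization.surj (nonZeroDivisors Eis) z
    have hv : (v : Eis) ≠ 0 := nonZeroDivisors.coe_ne_zero v
    simp only at huv
    refine ⟨(v : Eis).norm, u * conj v, fun h => hv (norm_eq_zero.mp h), ?_⟩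
    have h1 : (((v : Eis).norm : ℤ) : F) = algebraMap Eis F ((v : Eis) * conj v) := by
      rw [mul_conj]; simp
    rw [h1, map_mul, map_mul, ← huv]
    ring
  have hrep : ∀ z : L, ∃ (m : ℤ) (a b d : Eis), m ≠ 0 ∧
      (m : L) * z = ι a + ι b * θ + ι d * θ ^ 2 := by
    intro z
    obtain ⟨g0, rfl⟩ := AdjoinRoot.mk_surjective z
    obtain ⟨g, hgd, hgz⟩ : ∃ g : F[X], g.natDegree < 3 ∧ AdjoinRoot.mk f g0 = AdjoinRoot.mk f g := by
      refine ⟨g0 %ₘ f, ?_, ?_⟩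
      · have := natDegree_modByMonic_lt g0 hmonic (fun h => by
          rw [h] at hdeg; simp at hdeg)
        rwa [hdeg] at this
      · rw [AdjoinRoot.mk_eq_mk]
        exact ⟨g0 /ₘ f, by
          have := modByMonic_add_div g0 f
          linear_combination (-1 : F[X]) * this⟩
    obtain ⟨m0, a, hm0, ha⟩ := hF (g.coeff 0)
    obtain ⟨m1, b, hm1, hb⟩ := hF (g.coeff 1)
    obtain ⟨m2, d, hm2, hd⟩ := hF (g.coeff 2)
    refine ⟨m0 * m1 * m2, ((m1 * m2 : ℤ) : Eis) * a, ((m0 * m2 : ℤ) : Eis) * b, ((m0 * m1 : ℤ) : Eis) * d,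
      by simp [hm0, hm1, hm2], ?_⟩
    have hg3 : g = C (g.coeff 0) + C (g.coeff 1) * X + C (g.coeff 2) * X ^ 2 := by
      conv_lhs => rw [g.as_sum_range' 3 hgd]
      simp [Finset.sum_range_succ, ← C_mul_X_pow_eq_monomial]
    have e : AdjoinRoot.mk f g0 = AdjoinRoot.of f (g.coeff 0) + AdjoinRoot.of f (g.coeff 1) * θ +
        AdjoinRoot.of f (g.coeff 2) * θ ^ 2 := by
      rw [hgz]
      conv_lhs => rw [hg3]
      simp only [map_add, map_mul, map_pow, AdjoinRoot.mk_C, AdjoinRoot.mk_X]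
      rfl
    have ha' : (m0 : L) * AdjoinRoot.of f (g.coeff 0) = ι a := by
      have := congrArg (AdjoinRoot.of f) ha
      rw [map_mul, map_intCast] at this
      exact this
    have hb' : (m1 : L) * AdjoinRoot.of f (g.coeff 1) = ι b := by
      have := congrArg (AdjoinRoot.of f) hb
      rw [map_mul, map_intCast] at this
      exact this
    have hd' : (m2 : L) * AdjoinRoot.of f (g.coeff 2) = ι d := by
      have := congrArg (AdjoinRoot.of f) hd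
      rw [map_mul, map_intCast] at this
      exact this
    rw [e, map_mul, map_mul, map_mul, ← ha', ← hb', ← hd']
    have hm : ((m0 * m1 * m2 : ℤ) : L) = (m0 : L) * m1 * m2 := by
      rw [Int.cast_mul, Int.cast_mul]
    have hi : ∀ k l : ℤ, ι ((k * l : ℤ) : Eis) = (k : L) * l := fun k l => by
      rw [map_intCast, Int.cast_mul]
    rw [hm, hi, hi, hi]
    ring
  have hw3 : ι w ^ 3 = 1 := by rw [← map_pow, w_cube, map_one]
  -- sigma
  let σ0 : L →+* L := AdjoinRoot.lift (AdjoinRoot.of f) (ι w * θ) (by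
    simp only [f, eval₂_sub, eval₂_pow, eval₂_X, eval₂_C]
    rw [mul_pow, hw3, hcube, one_mul]
    exact sub_self _)
  exact build x L ι θ σ0 hinj hcube (AdjoinRoot.lift_root _) (fun a => AdjoinRoot.lift_of _)
    hrep hlin

end Pool.Agent.PTK


end

section

/-!
# PTK_ZS1: the primes of `QMM` are in `SPZU`, `SMZU` (`q = 1 (mod 3)`)
-/

set_option autoImplicit false

open NumberField IsDedekindDomain Finset
open scoped nonZeroDivisors Pointwise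

namespace Pool.Agent.PTK

open Pool.Agent.Lib_helper18 Pool.Agent.Lib_helper18.Eis Pool.Agent.Lib_helper84.Cub
open Pool.Agent.PT Pool.Agent.PTE Pool.Agent.PT3 Pool.Agent.PTL Pool.Agent.PTN

namespace ZS1

/-- the entry of the matrix outside the diagonal -/
theorem MaZ_ne {l : ℕ} {z : Fin l → Eis} {P Q P' Q' : Fin l → Fin l → Eis} {B : ℤ} {j i : Fin l}
    (h : j ≠ i) : MaZ z P Q P' Q' B j i =
      OZE B (z j) (z i) (P j i) (Q j i) (P' j i) (Q' j i) := by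
  unfold MaZ
  rw [if_neg h]

end ZS1

open MSKU in
/-- PTK_ZS1. -/
theorem ZS1_thm (hDE1 : Stmt_DE1) (hZSU : Stmt_ZSU) (hZA : Stmt_ZA) (hSPP : SPP) :
    Stmt_ZS1 := by
  classical
  intro h n m k π p e r f w0 c hNF hh l N y U R U' R' α β hM
  have hn0 : 0 < n := PT.FINA.pos_of_nf hNF
  have hN0 : 0 < 3 ^ h * n := Nat.mul_pos (pow_pos (by norm_num) _) hn0
  have hBB : ∀ E q : ℕ, ((BB h n E q : ℤ) : Eis) = ((3 ^ h * n : ℕ) : Eis) * (q : Eis) ^ E := by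
    intro E q
    unfold BB
    push_cast
    ring
  have hA := fun i => hZA n m k π p e r f hNF (y i)
  have hunr : ∀ (i : Fin l) (σ : PP), ¬ σ.1 ∣ ((3 ^ h * n : ℕ) : Eis) → ¬ σ.1 ∣ zN π e (y i) := by
    intro i σ hσ
    refine (hA i).2.2.2.1 σ fun h2 => hσ ?_
    push_cast
    exact Dvd.dvd.mul_left h2 _
  have hnd : ∀ (v : Fin (m + 1) → ZMod 3) (q : ℕ) (ρ : PP), q.Prime →
      (q : Eis) = ρ.1 * conj ρ.1 → ¬ q ∣ n → ¬ ρ.1 ∣ zN π e v := by
    intro v q ρ hq hρ hqn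
    obtain ⟨-, -, -, h4, -⟩ := hZA n m k π p e r f hNF v
    exact h4 ρ (not_dvd hq hρ hqn)
  have hne : ∀ j, α j ≠ β j := fun j => (hM.prs.lt j).ne
  have hHyp : ∀ j, HypE (3 ^ h * n) (zN π e (y (α j))) (zN π e (y (β j))) (U (α j) (β j))
      (R (α j) (β j)) (U' (α j) (β j)) (R' (α j) (β j)) := fun j =>
    ⟨hN0, hM.sys.sol (α j) (β j) (hne j), (hA _).1, (hA _).1,
      fun σ hσ => ⟨hunr _ σ hσ, hunr _ σ hσ⟩, SYK.VN_le hSPP hNF h⟩
  choose F0 hF0 hF1 using fun j => hDE1 (3 ^ h * n) _ _ _ _ _ _ (hHyp j)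
  refine ⟨∏ j, F0 j, Finset.prod_pos fun j _ => hF0 j, fun F hFpos hFd κ hκ1 => ?_⟩
  choose C Φ N₀ hC using fun j => hF1 j F hFpos
    ((Finset.dvd_prod_of_mem F0 (mem_univ j)).trans hFd)
  have hMN : ∀ j, N₀ j ≤ ∑ j, N₀ j := fun j =>
    Finset.single_le_sum (f := N₀) (fun i _ => Nat.zero_le _) (mem_univ j)
  have hmain : ∀ (E q : ℕ) (M : Fin N → ZMod 3), (E = 1 ∨ E = 2) → q.Prime →
      3 ^ h * n + F + ∑ j, N₀ j < q → q ∈ QMM h n π e w0 c y U R U' R' α β M 1 E →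
      ∃ hQ : q.Coprime F, ∀ ρ : PP, (q : Eis) = ρ.1 * conj ρ.1 →
        (∀ i, sym ρ.1 (zN π e (y i)) = 0) ∧
        ∀ (j : Fin N) (ξ ξ' : Eis), ρ.1 ∣ ξ ^ 3 - zN π e (y (α j)) →
          conj ρ.1 ∣ ξ' ^ 3 - zN π e (y (α j)) →
          M j = C j + E * ((Φ j (ZMod.unitOfCoprime q hQ)).toAdd -
            TAUP ρ.1 (U (α j) (β j)) (R (α j) (β j)) (U' (α j) (β j)) (R' (α j) (β j)) ξ -
            TAUP (conj ρ.1) (U (α j) (β j)) (R (α j) (β j)) (U' (α j) (β j))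
              (R' (α j) (β j)) ξ') := by
    intro E q M hE hq hqM ⟨hq3, hIn, hMY⟩
    have hqN : ¬ q ∣ 3 ^ h * n := fun h => by
      have := Nat.le_of_dvd hN0 h
      omega
    have hqn : ¬ q ∣ n := fun h => hqN (Dvd.dvd.mul_left h _)
    have hQ : q.Coprime F := by
      rw [Nat.Prime.coprime_iff_not_dvd hq]
      intro h
      have := Nat.le_of_dvd hFpos h
      omega
    have hSel : ∀ v ∈ VS h n π p e r w0 c, ∀ σ : PP,
        tm σ.1 (zN π e v) (((3 ^ h * n : ℕ) : Eis) * (q : Eis) ^ E) = 0 := by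
      intro v hv σ
      have h1 := (hZSU h n m k π p e r f w0 c E q hNF hh hE hq hq3 hIn hqn v hv).sym σ
      rwa [hBB] at h1
    refine ⟨hQ, fun ρ hρ => ⟨fun i => sym_zero hq hq3 hρ hE hqN (hnd (y i) q ρ hq hρ hqn)
      (hSel (y i) (hM.bas.mem i)), ?_⟩⟩
    intro j ξ ξ' hξ hξ'
    have h1 := hC j E q hQ ρ hE hq (by have := hMN j; omega) hq3 hρ (hSel _ (hM.bas.mem _))
      (hSel _ (hM.bas.mem _)) ξ ξ' hξ hξ'
    have h2 := hMY j
    unfold MY at h2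
    rw [ZS1.MaZ_ne (hne j), hBB] at h2
    rw [← h2]
    exact h1
  refine ⟨C, CTK.assemble Φ, 3 ^ h * n + F + ∑ j, N₀ j, fun q M hq hqM => ⟨fun hqY => ?_,
    fun hqY => ?_⟩⟩
  · obtain ⟨hQ, h2⟩ := hmain 1 q M (Or.inl rfl) hq hqM hqY
    obtain ⟨hq3, hIn, -⟩ := hqY
    refine ⟨hQ, hq3, ?_, fun ρ hρ => ⟨(h2 ρ hρ).1, fun j ξ ξ' hξ hξ' => ?_⟩⟩
    · rw [hκ1]
      funext i
      refine Fin.cases ?_ (fun i => ?_) i
      · rw [Fin.cons_zero, Fin.cons_zero]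
        have h5 := hIn.1
        rw [pow_one] at h5
        exact h5
      · rw [Fin.cons_succ, Fin.cons_succ]
        have h5 := hIn.2 i
        rw [Nat.cast_one, one_mul] at h5
        exact h5
    · have h5 := (h2 ρ hρ).2 j ξ ξ' hξ hξ'
      rw [CTK.assemble_apply, Pi.sub_apply]
      rw [Nat.cast_one, one_mul] at h5
      linear_combination h5
  · obtain ⟨hQ, h2⟩ := hmain 2 q M (Or.inr rfl) hq hqM hqY
    obtain ⟨hq3, hIn, -⟩ := hqY
    refine ⟨hQ, hq3, ?_, fun ρ hρ => ⟨(h2 ρ hρ).1, fun j ξ ξ' hξ hξ' => ?_⟩⟩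
    · rw [hκ1]
      funext i
      refine Fin.cases ?_ (fun i => ?_) i
      · rw [Fin.cons_zero, Pi.neg_apply, Fin.cons_zero]
        have h5 := hIn.1
        rw [wt_sq hq3] at h5
        exact CTK.neg_of_two h5
      · rw [Fin.cons_succ, Pi.neg_apply, Fin.cons_succ]
        exact CTK.neg_of_two (hIn.2 i)
    · have h5 := (h2 ρ hρ).2 j ξ ξ' hξ hξ'
      rw [CTK.assemble_apply, Pi.sub_apply]
      rw [show ((2 : ℕ) : ZMod 3) = -1 from by decide] at h5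
      linear_combination -h5

end Pool.Agent.PTK


end

section

/-!
# PTK_ZS2: the primes of `QMM` are in `SPZ`, `SMZ`
-/

set_option autoImplicit false

open NumberField IsDedekindDomain Finset
open scoped nonZeroDivisors Pointwise

namespace Pool.Agent.PTK

open Pool.Agent.Lib_helper18 Pool.Agent.Lib_helper18.Eis Pool.Agent.Lib_helper84.Cub
open Pool.Agent.PT Pool.Agent.PTE Pool.Agent.PT3 Pool.Agent.PTL Pool.Agent.PTN

namespace ZS2

theorem BB_eis (h n E q : ℕ) :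
    ((BB h n E q : ℤ) : Eis) = ((3 ^ h * n : ℕ) : Eis) * (q : Eis) ^ E := by
  unfold BB
  push_cast
  ring

end ZS2

open CTK _root_.Pool.Agent.PTK.ZS2 in
/-- PTK_ZS2. -/
theorem ZS2_thm (hDE2 : Stmt_DE2) (hZS : Stmt_ZS) (hZA : Stmt_ZA) (_hSTM : STM) (hSPP : SPP) :
    Stmt_ZS2 := by
  classical
  intro h n m k π p e r f w0 c hNF hh l N y U R U' R' α β hMn
  have hn0 : 0 < n := PT.FINA.pos_of_nf hNF
  have hN0 : 0 < 3 ^ h * n := Nat.mul_pos (pow_pos (by norm_num) _) hn0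
  have hx0 : ∀ i, zN π e (y i) ≠ 0 := fun i => (hZA n m k π p e r f hNF (y i)).1
  have hnd : ∀ (v : Fin (m + 1) → ZMod 3) (q : ℕ), q.Prime → q % 3 = 2 → ¬ q ∣ n →
      ¬ (q : Eis) ∣ zN π e v := by
    intro v q hq hq3 hqn
    obtain ⟨-, -, -, h4, -⟩ := hZA n m k π p e r f hNF v
    obtain ⟨σ, hσ⟩ := hSPP.2.2.2.2.1 q hq hq3
    have h5 := h4 σ
    rw [hσ] at h5
    exact h5 fun h6 => hqn (nat_dvd h6)
  have hunr : ∀ (i : Fin l) (σ : PP), ¬ σ.1 ∣ ((3 ^ h * n : ℕ) : Eis) →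
      ¬ σ.1 ∣ zN π e (y i) := by
    intro i σ hσ
    refine (hZA n m k π p e r f hNF (y i)).2.2.2.1 σ fun h2 => hσ ?_
    push_cast
    exact Dvd.dvd.mul_left h2 _
  have hne : ∀ j : Fin N, α j ≠ β j := fun j => ne_of_lt (hMn.prs.lt j)
  have hHyp : ∀ j : Fin N, HypE (3 ^ h * n) (zN π e (y (α j))) (zN π e (y (β j)))
      (U (α j) (β j)) (R (α j) (β j)) (U' (α j) (β j)) (R' (α j) (β j)) := fun j =>
    ⟨hN0, hMn.sys.sol (α j) (β j) (hne j), hx0 _, hx0 _,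
      fun σ hσ => ⟨hunr _ σ hσ, hunr _ σ hσ⟩, SYK.VN_le hSPP hNF h⟩
  -- the conductor
  choose F0 hF0 hF1 using fun j => hDE2 _ _ _ _ _ _ _ (hHyp j)
  refine ⟨∏ j, F0 j, Finset.prod_pos fun j _ => hF0 j, ?_⟩
  intro F hFpos hFdvd κ hκ1
  have hFd : ∀ j, F0 j ∣ F := fun j => (Finset.dvd_prod_of_mem F0 (mem_univ j)).trans hFdvd
  choose C Φ N₀ hC using fun j => hF1 j F hFpos (hFd j)
  have hMN : ∀ j, N₀ j ≤ ∑ j, N₀ j := fun j =>
    Finset.single_le_sum (f := N₀) (fun i _ => Nat.zero_le _) (mem_univ j)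
  have hmain : ∀ (E q : ℕ) (M : Fin N → ZMod 3), (E = 1 ∨ E = 2) → q.Prime →
      3 ^ h * n + F + ∑ j, N₀ j < q →
      q ∈ QMM h n π e w0 c y U R U' R' α β M 2 E →
      ∃ hQ : q.Coprime F, (∀ i, sym (q : Eis) (zN π e (y i)) = 0) ∧
        ∀ (j : Fin N) (ξ : Eis), (q : Eis) ∣ ξ ^ 3 - zN π e (y (α j)) →
          M j = C j + E * ((Φ j (ZMod.unitOfCoprime q hQ)).toAdd -
            TAUE q (U (α j) (β j)) (R (α j) (β j)) (U' (α j) (β j)) (R' (α j) (β j)) ξ) := by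
    intro E q M hE hq hqM ⟨hq3, hIn, hMY⟩
    have hqN : ¬ q ∣ 3 ^ h * n := fun h => by
      have := Nat.le_of_dvd hN0 h
      omega
    have hqn : ¬ q ∣ n := fun h => hqN (Dvd.dvd.mul_left h _)
    have hQ : q.Coprime F := by
      rw [Nat.Prime.coprime_iff_not_dvd hq]
      intro h
      have := Nat.le_of_dvd hFpos h
      omega
    have hSel : ∀ i, ∀ σ : PP,
        tm σ.1 (zN π e (y i)) (((3 ^ h * n : ℕ) : Eis) * (q : Eis) ^ E) = 0 := by
      intro i σ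
      have h1 := (hZS h n m k π p e r f w0 c E q hNF hh hE hq hq3 hIn hqn (y i)
        (hMn.bas.mem i)).sym σ
      rwa [BB_eis] at h1
    refine ⟨hQ, fun i => sym_zero hSPP hq hq3 hE hqN (hnd (y i) q hq hq3 hqn) (hSel i), ?_⟩
    intro j ξ hξ
    have h2 := hC j E q hQ hE hq (by have := hMN j; omega) hq3 (hSel (α j)) (hSel (β j)) ξ hξ
    have h3 := hMY j
    unfold MY MaZ at h3
    rw [if_neg (hne j), BB_eis] at h3
    rw [← h3]
    exact h2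
  refine ⟨C, assemble Φ, 3 ^ h * n + F + ∑ j, N₀ j, ?_⟩
  intro q M hq hqM
  constructor
  · intro hqY
    obtain ⟨hQ, h2, h4⟩ := hmain 1 q M (Or.inl rfl) hq hqM hqY
    obtain ⟨hq3, hIn, -⟩ := hqY
    refine ⟨hQ, hq3, ?_, h2, ?_⟩
    · rw [hκ1]
      funext i
      refine Fin.cases ?_ (fun i => ?_) i
      · rw [Fin.cons_zero, Fin.cons_zero]
        have h5 := hIn.1
        rw [pow_one] at h5
        exact h5
      · rw [Fin.cons_succ, Fin.cons_succ]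
        have h5 := hIn.2 i
        rw [Nat.cast_one, one_mul] at h5
        exact h5
    · intro j ξ hξ
      have h5 := h4 j ξ hξ
      rw [assemble_apply, Pi.sub_apply]
      rw [Nat.cast_one, one_mul] at h5
      linear_combination h5
  · intro hqY
    obtain ⟨hQ, h2, h4⟩ := hmain 2 q M (Or.inr rfl) hq hqM hqY
    obtain ⟨hq3, hIn, -⟩ := hqY
    refine ⟨hQ, hq3, ?_, h2, ?_⟩
    · rw [hκ1]
      funext i
      refine Fin.cases ?_ (fun i => ?_) i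
      · rw [Fin.cons_zero, Pi.neg_apply, Fin.cons_zero]
        have h5 := hIn.1
        rw [CL.wt_sq2 hq3] at h5
        exact neg_of_two h5
      · rw [Fin.cons_succ, Pi.neg_apply, Fin.cons_succ]
        exact neg_of_two (hIn.2 i)
    · intro j ξ hξ
      have h5 := h4 j ξ hξ
      rw [assemble_apply, Pi.sub_apply]
      rw [show ((2 : ℕ) : ZMod 3) = -1 from by decide] at h5
      linear_combination -h5

end Pool.Agent.PTK


end
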