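import Mathlib
import Pool.Agent.PTDM.C24
import Pool.Agent.PTDM.C27
import Pool.Agent.PTDM.C35
import Pool.Agent.PTDM.C45
import Pool.Agent.PTKW.C01
import Pool.Agent.PTKW.C02

/-! Parts: PTKX.CAV, PTKX.F6R, PTKX.GTZ, PTKX.ZL, PTKX.PT, PTKX.PTX, PTKX.LMC, PTKX.MSY, PTKX.MSF, PTKX.PTY -/

section

/-!
# CAV: averages in a class, primes of the first residue class
-/

set_option autoImplicit false

open NumberField IsDedekindDomain Finset
open scoped nonZeroDivisors Pointwise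

namespace Pool.Agent.PTK

open Pool.Agent.Lib_helper18 Pool.Agent.Lib_helper18.Eis Pool.Agent.Lib_helper84.Cub
open Pool.Agent.PT Pool.Agent.PTE Pool.Agent.PT3 Pool.Agent.PTL Pool.Agent.PTN

theorem CAV_thm (hSPP : SPP) (hCLV : Stmt_CLV) (hCLU : Stmt_CLU) (hDOMG : Stmt_DOMG)
    (hLAW : Stmt_LAW) : Stmt_CAV := by
  classical
  intro h n m k π p e r f w0 c hN hh F hF h0
  obtain ⟨hL1, -⟩ := hLAW
  have hT := hCLV h n m k π p e r f w0 c hN hh
  obtain ⟨⟨M, hM⟩, -⟩ := hCLU h n m k π p e r f w0 c hN hh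
  set s := sN h n π p e r w0 c with hs
  set v := vN h n π p e r w0 c with hv
  refine CAB.above_of hSPP hN w0 c 1 hF h0
    (fun E => {q : ℕ | q % 3 = 1 ∧ InCT E π w0 c q}) (fun E q => Iff.rfl) ?_
  obtain ⟨K, hK⟩ := hDOMG (fun E => {q : ℕ | q % 3 = 1 ∧ InCT E π w0 c q})
    (fun E q => CubeRank.rr (BB h n E q)) (fun t => LI (s + 1) (t - v) / 3 ^ (m + 1)) M
    (v + (s + 1)) F
    (fun E q hE hq hMq hqS =>
      (CubeRank.rr_le (hM E q hE hq hMq hqS.1 hqS.2)).trans (by omega))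
    (fun t => by
      obtain ⟨K, hK⟩ := hT t
      refine ⟨K, fun σ h1 h2 => ?_⟩
      have e1 := hK σ h1 h2
      have e2 : ∀ E : ℕ, {q : ℕ | q ∈ {q : ℕ | q % 3 = 1 ∧ InCT E π w0 c q} ∧
          t ≤ CubeRank.rr (BB h n E q)} = WR h n π w0 c 1 E t := by
        intro E
        ext q
        exact and_assoc
      rw [e2, e2]
      exact e1) hF h0
  refine ⟨K, fun σ h1 h2 T => (hK σ h1 h2 T).trans_eq ?_⟩
  rw [← hL1 (s + 1) v F, add_div, Finset.sum_div]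
  simp only [mul_div_assoc]

end Pool.Agent.PTK


end

section

/-!
# PTK_F6R: the local term of a point at a tame place where `x` has valuation prime to `3`
-/

set_option autoImplicit false

namespace Pool.Agent.PTK

open Pool.Agent.Lib_helper18 Pool.Agent.Lib_helper18.Eis Pool.Agent.Lib_helper84.Cub
open Pool.Agent.PT

namespace F6R

open Pool.Agent.PT.F6R

variable {π : Eis} {s : Eis → Eis → ZMod 3}

/-- `v ^ 3` dominates in `v ^ 3 - x u ^ 3`. -/
def DAE (π : Eis) (x u v : Eis) : Prop :=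
  v ≠ 0 ∧ (u = 0 ∨ 3 * V π v < V π x + 3 * V π u)

/-- `x u ^ 3` dominates in `v ^ 3 - x u ^ 3`. -/
def DBE (π : Eis) (x u v : Eis) : Prop :=
  u ≠ 0 ∧ (v = 0 ∨ V π x + 3 * V π u < 3 * V π v)

theorem cases_uvE {x u v : Eis} (h3 : ¬ 3 ∣ V π x) (huv : ¬ (u = 0 ∧ v = 0)) :
    DAE π x u v ∨ DBE π x u v := by
  by_cases hu : u = 0
  · left
    exact ⟨fun hv => huv ⟨hu, hv⟩, Or.inl hu⟩
  · by_cases hv : v = 0
    · right
      exact ⟨hu, Or.inl hv⟩
    · rcases lt_trichotomy (3 * V π v) (V π x + 3 * V π u) with h | h | h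
      · left
        exact ⟨hv, Or.inr h⟩
      · exfalso
        apply h3
        omega
      · right
        exact ⟨hu, Or.inr h⟩

theorem V_xuE (hπ : Prime π) {x u : Eis} (hx : x ≠ 0) (hu : u ≠ 0) :
    V π (x * u ^ 3) = V π x + 3 * V π u := by
  rw [V_mul hπ hx (pow_ne_zero _ hu), V_pow hπ hu]

/-- the symbol when `v ^ 3` dominates -/
theorem sym_DAE (L : LSym π s 1) {x u v : Eis} (hx : x ≠ 0) (h : DAE π x u v) {D : Eis}
    (hD : D ≠ 0) (hM : v ^ 3 - x * u ^ 3 ≠ 0) : s D (v ^ 3 - x * u ^ 3) = 0 := by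
  have h1 : v ^ 3 - x * u ^ 3 = v ^ 3 + -(x * u ^ 3) := by ring
  have hv := h.1
  rw [L.skew _ _ hM hD, h1, dom L (pow_ne_zero _ hv) hD, cube_left L hv hD, neg_zero]
  rcases h.2 with rfl | h2
  · left
    ring
  · by_cases hu : u = 0
    · left
      rw [hu]
      ring
    · right
      rw [V_neg, V_xuE L.prime hx hu, V_pow L.prime hv]
      exact h2

/-- the symbol when `x u ^ 3` dominates -/
theorem sym_DBE (L : LSym π s 1) {x u v : Eis} (hx : x ≠ 0) (h : DBE π x u v) {D : Eis}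
    (hD : D ≠ 0) (hM : v ^ 3 - x * u ^ 3 ≠ 0) :
    s D (v ^ 3 - x * u ^ 3) = s D x := by
  have h1 : v ^ 3 - x * u ^ 3 = -(x * u ^ 3) + v ^ 3 := by ring
  have hu := h.1
  have hxu : x * u ^ 3 ≠ 0 := mul_ne_zero hx (pow_ne_zero _ hu)
  rw [L.skew _ _ hM hD, h1, dom L (neg_ne_zero.mpr hxu) hD, neg_left L hxu hD,
    L.mul _ _ _ hx (pow_ne_zero _ hu) hD, cube_left L hu hD, add_zero, ← L.skew _ _ hx hD]
  rcases h.2 with hv | h2
  · left
    rw [hv]
    ring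
  · by_cases hv : v = 0
    · left
      rw [hv]
      ring
    · right
      rw [V_neg, V_xuE L.prime hx h.1, V_pow L.prime hv]
      exact h2

/-- one half of `SVE` -/
def halfE (s : Eis → Eis → ZMod 3) (X Y u v M n : Eis) : ZMod 3 :=
  s (DfE X Y u v 1) M - s (DfE X Y u v 2) M - s (DfE X Y u v 1) n + s (DfE X Y u v 2) n

/-- Case A: `X ^ 3` dominates in `n₀`. -/
theorem half_caseAE (L : LSym π s 1) {x X Y u v M : Eis} (hx : x ≠ 0) (hX : X ≠ 0) (hY : Y ≠ 0)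
    (h3 : ¬ 3 ∣ V π x) (hM : v ^ 3 - x * u ^ 3 ≠ 0) (hD1 : DfE X Y u v 1 ≠ 0)
    (hD2 : DfE X Y u v 2 ≠ 0)
    (hMs : M = v ^ 3 - x * u ^ 3 ∨ M = -(v ^ 3 - x * u ^ 3))
    (hA : 3 * V π X < V π x + 3 * V π Y)
    (hn : X ^ 3 + x * Y ^ 3 ≠ 0) : halfE s X Y u v M (X ^ 3 + x * Y ^ 3) = 0 := by
  have huv : ¬ (u = 0 ∧ v = 0) := by
    rintro ⟨rfl, rfl⟩
    apply hM
    ring
  have hMM : ∀ D : Eis, D ≠ 0 → s D M = s D (v ^ 3 - x * u ^ 3) := by
    intro D hD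
    rcases hMs with rfl | rfl
    · rfl
    · exact neg_right L hM hD
  have hn0 : ∀ D : Eis, D ≠ 0 → s D (X ^ 3 + x * Y ^ 3) = 0 := by
    intro D hD
    rw [L.skew _ _ hn hD, dom L (pow_ne_zero _ hX) hD, cube_left L hX hD, neg_zero]
    right
    rw [V_pow L.prime hX, V_xuE L.prime hx hY]
    exact hA
  unfold halfE
  rw [hn0 _ hD1, hn0 _ hD2, hMM _ hD1, hMM _ hD2]
  rcases cases_uvE h3 huv with h | h
  · rw [sym_DAE L hx h hD1 hM, sym_DAE L hx h hD2 hM]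
    ring
  · rw [sym_DBE L hx h hD1 hM, sym_DBE L hx h hD2 hM]
    have hu := h.1
    have hXu : X * u ≠ 0 := mul_ne_zero hX hu
    have hs : ∀ i : ℕ, s (DfE X Y u v i) x = s (X * u) x := by
      intro i
      unfold DfE
      apply dom L hXu hx
      rcases h.2 with hv | h2
      · left
        rw [hv]
        ring
      · by_cases hv : v = 0
        · left
          rw [hv]
          ring
        · right
          rw [mul_assoc, V_w L.prime i (mul_ne_zero hv hY),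
            V_mul L.prime hX hu, V_mul L.prime hv hY]
          omega
    rw [hs 1, hs 2]
    ring

/-- Case B: `x Y ^ 3` dominates in `n₀`. -/
theorem half_caseBE (L : LSym π s 1) {x X Y u v M : Eis} (hx : x ≠ 0) (hX : X ≠ 0) (hY : Y ≠ 0)
    (hM : v ^ 3 - x * u ^ 3 ≠ 0) (hD1 : DfE X Y u v 1 ≠ 0) (hD2 : DfE X Y u v 2 ≠ 0)
    (hMs : M = v ^ 3 - x * u ^ 3 ∨ M = -(v ^ 3 - x * u ^ 3))
    (hB : V π x + 3 * V π Y < 3 * V π X)
    (hn : X ^ 3 + x * Y ^ 3 ≠ 0) :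
    (DAE π x u v → halfE s X Y u v M (X ^ 3 + x * Y ^ 3) = s w x) ∧
    (DBE π x u v → halfE s X Y u v M (X ^ 3 + x * Y ^ 3) = 0) := by
  have hMM : ∀ D : Eis, D ≠ 0 → s D M = s D (v ^ 3 - x * u ^ 3) := by
    intro D hD
    rcases hMs with rfl | rfl
    · rfl
    · exact neg_right L hM hD
  have hn0 : ∀ D : Eis, D ≠ 0 → s D (X ^ 3 + x * Y ^ 3) = s D x := by
    intro D hD
    have hxY : x * Y ^ 3 ≠ 0 := mul_ne_zero hx (pow_ne_zero _ hY)
    have e : X ^ 3 + x * Y ^ 3 = x * Y ^ 3 + X ^ 3 := by ring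
    rw [L.skew _ _ hn hD, e, dom L hxY hD, L.mul _ _ _ hx (pow_ne_zero _ hY) hD,
      cube_left L hY hD, add_zero, ← L.skew _ _ hx hD]
    right
    rw [V_pow L.prime hX, V_xuE L.prime hx hY]
    exact hB
  unfold halfE
  rw [hn0 _ hD1, hn0 _ hD2, hMM _ hD1, hMM _ hD2]
  constructor
  · intro h
    rw [sym_DAE L hx h hD1 hM, sym_DAE L hx h hD2 hM]
    have hv := h.1
    have hw : ∀ i : ℕ, (w : Eis) ^ i ≠ 0 := fun i => pow_ne_zero _ w_ne
    have hs : ∀ i : ℕ, s (DfE X Y u v i) x = s (w ^ i) x + s v x + s Y x := by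
      intro i
      have h1 : DfE X Y u v i = w ^ i * v * Y + X * u := by
        unfold DfE
        ring
      rw [h1, dom L (mul_ne_zero (mul_ne_zero (hw i) hv) hY) hx,
        L.mul _ _ _ (mul_ne_zero (hw i) hv) hY hx, L.mul _ _ _ (hw i) hv hx]
      rcases h.2 with hu | h2
      · left
        rw [hu]
        ring
      · by_cases hu : u = 0
        · left
          rw [hu]
          ring
        · right
          rw [mul_assoc, V_w L.prime i (mul_ne_zero hv hY),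
            V_mul L.prime hX hu, V_mul L.prime hv hY]
          omega
    have hw1 : s ((w : Eis) ^ 1) x = s w x := by rw [pow_one]
    have hw2 : s ((w : Eis) ^ 2) x = s w x + s w x := by
      rw [pow_two, L.mul _ _ _ w_ne w_ne hx]
    rw [hs 1, hs 2, hw1, hw2]
    ring
  · intro h
    rw [sym_DBE L hx h hD1 hM, sym_DBE L hx h hD2 hM]
    ring

end F6R

open Pool.Agent.PT.F6R _root_.Pool.Agent.PTK.F6R in
theorem F6R_thm (hSTM : STM) : Stmt_F6R := by
  intro π b x p q p' q' X Y hb hx hSol hX hY hD h3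
  have hSPPp : Prime π.1 := π.2.1
  have hπ3 : ¬ π.1 ∣ 3 := not_dvd_three π
  have L : LSym π.1 (tm π.1) 1 := hSTM π.1 hSPPp hπ3
  set s := tm π.1 with hs
  have hN1 := hSol.n2
  have hbN : b * (x * q' ^ 3 - q ^ 3) = p ^ 3 - x * p' ^ 3 := by
    have h1 := hSol.eq
    linear_combination -h1
  have hN2 : x * q' ^ 3 - q ^ 3 ≠ 0 := by
    intro h
    apply hN1
    rw [← hbN, h, mul_zero]
  have hN2' : q ^ 3 - x * q' ^ 3 ≠ 0 := by
    intro h
    apply hN2
    linear_combination -h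
  have hn : X ^ 3 + x * Y ^ 3 ≠ 0 := by
    intro h
    apply h3
    have h1 : X ^ 3 = -(x * Y ^ 3) := by
      linear_combination h
    have h2 := congrArg (V π.1) h1
    rw [V_neg, V_pow L.prime hX, V_xuE L.prime hx hY] at h2
    omega
  have hSV : SVE s x p q p' q' X Y =
      halfE s X Y p' p (p ^ 3 - x * p' ^ 3) (X ^ 3 + x * Y ^ 3) -
        halfE s X Y q' q (x * q' ^ 3 - q ^ 3) (X ^ 3 + x * Y ^ 3) := rfl
  have hxY : x * Y ^ 3 ≠ 0 := mul_ne_zero hx (pow_ne_zero _ hY)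
  rcases lt_trichotomy (3 * V π.1 X) (V π.1 x + 3 * V π.1 Y) with hA | hE | hB
  · -- case A
    have hV : V π.1 (X ^ 3 + x * Y ^ 3) = 3 * V π.1 X := by
      rw [V_dom L (pow_ne_zero _ hX), V_pow L.prime hX]
      right
      rw [V_pow L.prime hX, V_xuE L.prime hx hY]
      exact hA
    refine ⟨fun _ => ?_, fun h => absurd (by rw [hV]; exact dvd_mul_right 3 _) h⟩
    rw [hSV, half_caseAE L hx hX hY h3 hN1 hD.d1 hD.d2 (Or.inl rfl) hA hn,
      half_caseAE L hx hX hY h3 hN2' hD.d3 hD.d4 (Or.inr (by ring)) hA hn, sub_zero]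
  · exfalso
    apply h3
    omega
  · -- case B
    have hV : V π.1 (X ^ 3 + x * Y ^ 3) = V π.1 x + 3 * V π.1 Y := by
      have e : X ^ 3 + x * Y ^ 3 = x * Y ^ 3 + X ^ 3 := by ring
      rw [e, V_dom L hxY, V_xuE L.prime hx hY]
      right
      rw [V_pow L.prime hX, V_xuE L.prime hx hY]
      exact hB
    refine ⟨fun h => absurd ?_ h3, fun _ => ?_⟩
    · rw [hV] at h
      exact (Nat.dvd_add_left (dvd_mul_right 3 _)).mp h
    · have huv1 : ¬ (p' = 0 ∧ p = 0) := by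
        rintro ⟨rfl, rfl⟩
        apply hN1
        ring
      have huv2 : ¬ (q' = 0 ∧ q = 0) := by
        rintro ⟨rfl, rfl⟩
        apply hN2
        ring
      obtain ⟨a1, a2⟩ := half_caseBE L hx hX hY hN1 hD.d1 hD.d2 (Or.inl rfl) hB hn
      obtain ⟨b1, b2⟩ := half_caseBE L hx hX hY hN2' hD.d3 hD.d4
        (M := x * q' ^ 3 - q ^ 3) (Or.inr (by ring)) hB hn
      have hwb : s w b = s w (p ^ 3 - x * p' ^ 3) - s w (q ^ 3 - x * q' ^ 3) := by
        have h1 : p ^ 3 - x * p' ^ 3 = -(b * (q ^ 3 - x * q' ^ 3)) := by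
          rw [← hbN]
          ring
        rw [h1, neg_right L (mul_ne_zero hb hN2') w_ne,
          L.skew _ _ (mul_ne_zero hb hN2') w_ne, L.mul _ _ _ hb hN2' w_ne,
          L.skew w _ w_ne hb, L.skew w _ w_ne hN2']
        ring
      rw [hSV, hwb]
      rcases cases_uvE h3 huv1 with h | h
      · rcases cases_uvE h3 huv2 with h' | h'
        · rw [a1 h, b1 h', sym_DAE L hx h w_ne hN1, sym_DAE L hx h' w_ne hN2']
          ring
        · rw [a1 h, b2 h', sym_DAE L hx h w_ne hN1, sym_DBE L hx h' w_ne hN2']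
          ring
      · rcases cases_uvE h3 huv2 with h' | h'
        · rw [a2 h, b1 h', sym_DBE L hx h w_ne hN1, sym_DAE L hx h' w_ne hN2']
          ring
        · rw [a2 h, b2 h', sym_DBE L hx h w_ne hN1, sym_DBE L hx h' w_ne hN2']
          ring

end Pool.Agent.PTK


end

section

/-!
# GTZ (helper44): existence, uniqueness and properties of `t` on the elements fixing all roots of
the `b j`, `Q = 1 (mod 3)`
-/

set_option autoImplicit false
set_option linter.unusedSectionVars false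

open NumberField IsDedekindDomain Finset
open scoped nonZeroDivisors Pointwise

namespace Pool.Agent.PTK

open Pool.Agent.Lib_helper18 Pool.Agent.Lib_helper18.Eis Pool.Agent.Lib_helper84.Cub
open Pool.Agent.PT Pool.Agent.PTE Pool.Agent.PT3 Pool.Agent.PTL Pool.Agent.PTN

open Pool.Agent.PT.GT in
/-- GTZ: existence, uniqueness and properties of `t` on the elements fixing all roots. -/
theorem GTZ_thm : Stmt_GTZ := by
  intro s b p q p' q' f L _ _ ζ ω hS hG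
  have rel := hG.rel
  have h3 := cube_one rel
  have hω0 := ω_ne_zero rel
  refine ⟨?_, ?_⟩
  · intro g τ hg hF
    have hinv : ∀ (j : Fin s) (ρ : L), ρ ^ 3 = (b j : L) → (τ⁻¹ ρ) ^ 3 = (b j : L) := by
      intro j ρ hρ
      rw [← map_pow, hρ, map_intCast]
    refine ⟨?_, ?_⟩
    · rw [GTS.conj_apply]
      have h1 : g (τ⁻¹ ω) = τ⁻¹ ω := by
        rcases map_ω rel (τ⁻¹ : L ≃ₐ[ℚ] L) with h | h
        · rw [h, hg]
        · rw [h, map_pow, hg]
      rw [h1, GTS.apply_inv]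
    · intro j ρ hρ
      rw [GTS.conj_apply, hF j _ (hinv _ ρ hρ), GTS.apply_inv]
  · intro j i hji
    have hsol := hS.sol _ _ hji
    have hAne : ∀ ρ A : L, ρ ^ 3 = (b j : L) →
        A ^ 3 * aD ω (p j i) (q j i)
          (p' j i) (q' j i) ρ =
        aN ω (p j i) (q j i)
          (p' j i) (q' j i) ρ → A ≠ 0 := by
      rintro ρ A hρ hA rfl
      apply (hG.D _ _ hji ρ hρ).2
      rw [← hA]
      ring
    refine ⟨?_, ?_, ?_⟩
    · intro g hg hF
      obtain ⟨ρ, hρ⟩ := hG.root j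
      obtain ⟨θ, hθ⟩ := hG.root i
      obtain ⟨A, hA⟩ := hG.A _ _ hji ρ hρ
      have hA0 := hAne ρ A hρ hA
      obtain ⟨hD, hN⟩ := hG.D _ _ hji ρ hρ
      have hgρ := hF j ρ hρ
      have e1 : (g A) ^ 3 = A ^ 3 := by
        have h1 := congrArg g hA
        rw [map_mul, map_pow, map_aD' hg, map_aN' hg, hgρ, ← hA] at h1
        exact mul_right_cancel₀ hD h1
      obtain ⟨t, ht⟩ := of_cube rel e1
      have hW : GTS.W ω (p j i) (q j i)
          (p' j i) (q' j i) g t ρ := by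
        intro A' hA'
        have e2 : A' ^ 3 = A ^ 3 := mul_right_cancel₀ hD (hA'.trans hA.symm)
        obtain ⟨m, hm⟩ := of_cube rel e2
        rw [hm, map_mul, map_E' hg, ht]
        ring
      refine ⟨t, ?_, ?_⟩
      · intro ρ' A' hρ' hA'
        exact GTS.W_all rel hρ hρ' hθ hsol.toSolW hg (hF j) (hF i θ hθ)
          (hG.A _ _ hji) hW A' hA'
      · intro t' ht'
        have h1 : g A = E ω t' * A := ht' ρ A hρ hA
        rw [ht] at h1
        exact (E_inj rel (mul_right_cancel₀ hA0 h1)).symm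
    · intro g τ t hg hF ht ρ A hρ hA
      have hρ' : (τ⁻¹ ρ) ^ 3 = (b j : L) := by rw [← map_pow, hρ, map_intCast]
      have hA0 := hAne ρ A hρ hA
      have e1 := congrArg (τ⁻¹ : L ≃ₐ[ℚ] L) hA
      rw [map_mul, map_pow] at e1
      rw [GTS.conj_apply]
      change τ (g (τ⁻¹ A)) = E ω t * A
      rcases map_ω rel (τ⁻¹ : L ≃ₐ[ℚ] L) with hτ | hτ
      · rw [map_aD' hτ, map_aN' hτ] at e1
        have h1 : g (τ⁻¹ A) = E ω t * τ⁻¹ A := ht _ _ hρ' e1
        have hτω : τ ω = ω := by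
          have := congrArg τ hτ
          rw [GTS.apply_inv] at this
          exact this.symm
        rw [h1, map_mul, map_E' hτω, GTS.apply_inv]
      · rw [map_aD rel hτ, map_aN rel hτ] at e1
        have hA1 : τ⁻¹ A ≠ 0 := by
          rw [Ne, EmbeddingLike.map_eq_zero_iff]
          exact hA0
        have h1 : g ((τ⁻¹ A)⁻¹) = E ω t * (τ⁻¹ A)⁻¹ := by
          apply ht _ _ hρ'
          rw [inv_pow, ← e1]
          field_simp
        have hτω : τ ω = ω ^ 2 := by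
          have h4 := congrArg τ hτ
          rw [GTS.apply_inv, map_pow] at h4
          rcases map_ω rel τ with h5 | h5
          · exfalso
            rw [h5] at h4
            apply ω_ne_one rel
            have h6 : ω * (ω - 1) = 0 := by linear_combination -h4
            rcases mul_eq_zero.1 h6 with h7 | h7
            · exact absurd h7 hω0
            · exact sub_eq_zero.1 h7
          · exact h5
        have h2 : g (τ⁻¹ A) = E ω (-t) * τ⁻¹ A := by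
          rw [map_inv₀] at h1
          rw [E_neg rel]
          have h4 := congrArg (fun x => x⁻¹) h1
          simp only [inv_inv, mul_inv] at h4
          exact h4
        rw [h2, map_mul, map_E rel hτω, neg_neg, GTS.apply_inv]
    · intro g t k hg ht ρ A hρ hA
      have h1 : g A = E ω t * A := ht ρ A hρ hA
      exact GTS.pow_E rel hg h1 k

end Pool.Agent.PTK


end

section

/-!
# Module PTK_ZL: the classes of `V0` are local cubes at `lam` (MP_8e0b0b_nt, by helper62)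
-/

set_option autoImplicit false

open NumberField IsDedekindDomain Finset
open scoped nonZeroDivisors Pointwise

namespace Pool.Agent.PTK

open Pool.Agent.Lib_helper18 Pool.Agent.Lib_helper18.Eis Pool.Agent.Lib_helper84.Cub
open Pool.Agent.PT Pool.Agent.PTE Pool.Agent.PT3 Pool.Agent.PTL Pool.Agent.PTN
open Pool.Agent.PT.EHYP

namespace ZL

theorem three_re : (3 : Eis).re = 3 := by
  rw [three_eq_cast]
  exact intCast_re 3

theorem three_im : (3 : Eis).im = 0 := by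
  rw [three_eq_cast]
  exact intCast_im 3

theorem three_ne : (3 : Eis) ≠ 0 := by
  intro h
  have := congrArg Eis.re h
  rw [three_re] at this
  simp at this

theorem prim_PP (σ : PP) : Prim σ.1 := by
  refine ⟨σ.2.2.2, ?_⟩
  have := σ.2.2.1
  omega

theorem wt_zero {n : ℤ} (h : n % 9 = 1) : wt n = 0 := by
  obtain ⟨k, hk⟩ : ∃ k, n = 1 + 3 * (3 * k) := ⟨n / 9, by omega⟩
  rw [wt_eq hk]
  push_cast
  exact three_zero _

theorem of_wt {n : ℤ} (h3 : n % 3 = 1) (h : wt n = 0) : n % 9 = 1 := by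
  obtain ⟨k, hk⟩ : ∃ k, n = 1 + 3 * k := ⟨n / 3, by omega⟩
  rw [wt_eq hk, ZMod.intCast_zmod_eq_zero_iff_dvd] at h
  push_cast at h
  omega

/-- `sl π 3 = sym π 3` -/
theorem sl_three (hSPP : SPP) (σ : PP) : sl σ.1 3 = sym σ.1 3 := by
  have h3 := (hSPP.2.2.2.1 σ).1
  unfold sl
  rw [finsum_eq_single _ σ]
  · unfold tm
    rw [V_eq_zero h3, V_self, ch_of_not_dvd σ.2.1 h3]
    simp
  · intro τ hτ
    have h4 : ¬ τ.1 ∣ σ.1 := by
      intro h
      exact hτ (hSPP.2.1 τ σ (τ.2.1.associated_of_dvd σ.2.1 h))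
    unfold tm
    rw [V_eq_zero (hSPP.2.2.2.1 τ).1, V_eq_zero h4]
    simp

theorem sl_conj_three (hSPP : SPP) (hSCJ : SCJ) (σ : PP) : sl (conj σ.1) 3 = - sym σ.1 3 := by
  have h := hSCJ.2.1 σ.1 3 σ.2.1.ne_zero three_ne
  have e : conj 3 = 3 := conj_natCast 3
  rw [e] at h
  rw [h, sl_three hSPP]

/-- `sl z 3 = wt (re²)` if the norm is `1` modulo `9` -/
theorem sl_prim (hSSL : SSL) (hSREC : SREC) {z : Eis} (hz : Prim z) (hn : z.norm % 9 = 1) :
    sl z 3 = wt (z.re ^ 2) := by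
  have hz0 : z ≠ 0 := by
    rintro rfl
    exact hz.2 (by simp)
  have hF := add3_sl hSSL hz0
  have hlam : lam ≠ 0 := by
    intro h
    have := congrArg Eis.re h
    simp at this
  have e : (3 : Eis) = -1 * (w ^ 2 * lam ^ 2) := by
    ext
    · rw [three_re]
      simp [pow_two]
    · rw [three_im]
      simp [pow_two]
  have h1 : sl 3 z = 2 * sl w z + 2 * sl lam z := by
    have h2 := hF (-1) (w ^ 2 * lam ^ 2) (by simp)
      (mul_ne_zero (pow_ne_zero _ w_ne) (pow_ne_zero _ hlam))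
    have h3 := hF (w ^ 2) (lam ^ 2) (pow_ne_zero _ w_ne) (pow_ne_zero _ hlam)
    have h4 := hF.pow w_ne 2
    have h5 := hF.pow hlam 2
    have h6 := hF.neg_one
    simp only at h2 h3 h4 h5 h6
    rw [e, h2, h3, h4, h5, h6]
    push_cast
    ring
  have h2 := hSSL.2.1 3 z three_ne hz0
  have h3 := hSSL.2.1 w z w_ne hz0
  have h4 := hSSL.2.1 lam z hlam hz0
  rw [hSREC.2.1 z hz, wt_zero hn] at h3
  rw [hSREC.2.2.1 z hz] at h4
  rw [h2, h1]
  have h5 := three_zero (wt (z.re ^ 2))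
  linear_combination (-2) * h3 + (-2) * h4 + h5

theorem final {z : Eis} (hz : Prim z) (hn : z.norm % 9 = 1) (hr : z.re ^ 2 % 9 = 1) :
    lam ^ 4 ∣ z ^ 2 - 1 := by
  obtain ⟨b, hb⟩ := hz.1
  have h3 := hz.2
  have h1 : (9 : ℤ) ∣ z.im := by
    have e1 : z.norm = z.re ^ 2 - 3 * (z.re * b) + 9 * b ^ 2 := by
      rw [norm_def, hb]
      ring
    have e2 : (3 : ℤ) ∣ z.re * b := by omega
    have e3 : (3 : ℤ) ∣ b := (Int.prime_three.dvd_or_dvd e2).resolve_left h3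
    rw [hb]
    obtain ⟨c, rfl⟩ := e3
    exact ⟨c, by ring⟩
  have h9 : ((9 : ℤ) : Eis) ∣ z ^ 2 - 1 := by
    rw [intCast_dvd_iff]
    obtain ⟨c, hc⟩ := h1
    constructor
    · have e1 : (z ^ 2 - 1).re = z.re ^ 2 - 1 - 9 * (z.im * c) := by
        simp [pow_two]
        rw [hc]
        ring
      rw [e1]
      omega
    · have e1 : (z ^ 2 - 1).im = 9 * (c * (2 * z.re - z.im)) := by
        simp [pow_two]
        rw [hc]
        ring
      rw [e1]
      exact dvd_mul_right _ _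
  refine dvd_trans ⟨w, ?_⟩ h9
  have e4 : lam ^ 2 = -3 * w := by
    ext
    · simp [pow_two, three_im]
    · simp [pow_two, three_im, three_re]
  have e5 : lam ^ 4 = 9 * w ^ 2 := by
    have : lam ^ 4 = (lam ^ 2) ^ 2 := by ring
    rw [this, e4]
    ring
  rw [e5]
  have e6 : w ^ 2 * w = 1 := by
    have := w_cube
    rw [← this]
    ring
  have e7 : ((9 : ℤ) : Eis) = 9 := by push_cast; rfl
  rw [e7, mul_assoc, e6, mul_one]

end ZL

theorem ZL_thm (hSPP : SPP) (hSSL : SSL) (hSREC : SREC) (hSCJ : SCJ) : Stmt_ZL := by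
  classical
  intro n m k π p e r f hn y hy0 hsum
  obtain ⟨g, hg⟩ : ∃ g : Fin m → ZMod 3, g = fun i => (e i : ZMod 3) * y i.succ := ⟨_, rfl⟩
  have hz : zN π e y = ∏ i, ((π i).1 ^ (g i).val * conj (π i).1 ^ (2 * g i).val) := by
    unfold zN
    rw [hy0, neg_zero, ZMod.val_zero, pow_zero, one_mul, hg]
  have hexp : ∀ a : ZMod 3, (a.val = 0 ∧ (2 * a).val = 0) ∨ a.val + (2 * a).val = 3 := by
    decide
  have hcn : ∀ i, (conj (π i).1) ≠ 0 := fun i => (prime_conj (π i).2.1).ne_zero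
  have hP : Prim (zN π e y) ∧ (zN π e y).norm % 9 = 1 := by
    rw [hz]
    refine Finset.prod_induction _ (fun x => Prim x ∧ x.norm % 9 = 1) ?_ ?_ ?_
    · rintro a b ⟨ha, ha'⟩ ⟨hb, hb'⟩
      refine ⟨ha.mul hb, ?_⟩
      rw [Eis.norm_mul, Int.mul_emod, ha', hb']
      norm_num
    · exact ⟨Eis.prim_one, by simp [norm_def]⟩
    · intro i _
      refine ⟨((ZL.prim_PP (π i)).pow _).mul ((ZL.prim_PP (π i)).conj.pow _), ?_⟩
      have h1 : (conj (π i).1).norm = p i := by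
        rw [norm_conj, norm_eq hn]
      have hpw : ∀ (x : Eis) (k : ℕ), (x ^ k).norm = x.norm ^ k := by
        intro x k
        induction k with
        | zero => simp [norm_def]
        | succ k ih => rw [pow_succ, Eis.norm_mul, ih, pow_succ]
      rw [Eis.norm_mul, hpw, hpw, h1, norm_eq hn, ← pow_add]
      rcases hexp (g i) with ⟨h2, h3⟩ | h2
      · rw [h2, h3]
        norm_num
      · rw [h2]
        have h4 := hn.p1 i
        obtain ⟨c, hc⟩ : ∃ c : ℤ, (p i : ℤ) = 1 + 3 * c := ⟨(p i : ℤ) / 3, by omega⟩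
        have h5 : (p i : ℤ) ^ 3 = 1 + 9 * (c + 3 * c ^ 2 + 3 * c ^ 3) := by
          rw [hc]
          ring
        rw [h5]
        omega
  have hsl : sl (zN π e y) 3 = 0 := by
    have hF := add3_sl hSSL ZL.three_ne
    rw [hz]
    have h1 : sl (∏ i, ((π i).1 ^ (g i).val * conj (π i).1 ^ (2 * g i).val)) 3 =
        ∑ i, sl ((π i).1 ^ (g i).val * conj (π i).1 ^ (2 * g i).val) 3 :=
      hF.prod Finset.univ
        (fun i => (π i).1 ^ (g i).val * conj (π i).1 ^ (2 * g i).val) (fun i _ =>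
          mul_ne_zero (pow_ne_zero _ (π i).2.1.ne_zero) (pow_ne_zero _ (hcn i)))
    rw [h1]
    have h2 : ∀ i, sl ((π i).1 ^ (g i).val * conj (π i).1 ^ (2 * g i).val) 3 =
        - (g i * sym (π i).1 3) := by
      intro i
      have h3 : sl ((π i).1 ^ (g i).val * conj (π i).1 ^ (2 * g i).val) 3 =
          sl ((π i).1 ^ (g i).val) 3 + sl (conj (π i).1 ^ (2 * g i).val) 3 :=
        hF ((π i).1 ^ (g i).val) (conj (π i).1 ^ (2 * g i).val)
          (pow_ne_zero _ (π i).2.1.ne_zero) (pow_ne_zero _ (hcn i))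
      have h4 : sl ((π i).1 ^ (g i).val) 3 = ((g i).val : ZMod 3) * sl (π i).1 3 :=
        hF.pow (π i).2.1.ne_zero (g i).val
      have h5 : sl (conj (π i).1 ^ (2 * g i).val) 3 =
          ((2 * g i).val : ZMod 3) * sl (conj (π i).1) 3 := hF.pow (hcn i) (2 * g i).val
      rw [h3, h4, h5, ZL.sl_three hSPP, ZL.sl_conj_three hSPP hSCJ, ZMod.natCast_zmod_val,
        ZMod.natCast_zmod_val]
      ring
    rw [Finset.sum_congr rfl fun i _ => h2 i, Finset.sum_neg_distrib, neg_eq_zero, ← hsum]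
    refine Finset.sum_congr rfl fun i _ => ?_
    rw [hg]
    ring
  rw [ZL.sl_prim hSSL hSREC hP.1 hP.2] at hsl
  exact ZL.final hP.1 hP.2 (ZL.of_wt (sq_mod_three hP.1.2) hsl)

end Pool.Agent.PTK


end

section

/-!
# The average rank of prime twists, PT: a class of a point that is not a cube gives a point of this class over `K`
-/

set_option autoImplicit false

open NumberField IsDedekindDomain Finset
open scoped nonZeroDivisors Pointwise

namespace Pool.Agent.PTK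

open Pool.Agent.Lib_helper18 Pool.Agent.Lib_helper18.Eis Pool.Agent.Lib_helper84.Cub
open Pool.Agent.PT Pool.Agent.PTE Pool.Agent.PT3 Pool.Agent.PTL Pool.Agent.PTN

namespace PTK_PT

theorem int_ne {n : ℤ} (h : n ≠ 0) : ((n : ℤ) : Eis) ≠ 0 := by
  intro e
  apply h
  have := congrArg Eis.re e
  rwa [intCast_re, zero_re] at this

end PTK_PT

theorem PT_thm : Stmt_PT := by
  intro B x hB _ hc h
  obtain ⟨ζ, g, g', hS, hg, hg', e⟩ := h
  rcases hS with rfl | ⟨x0, y0, z0, _, hz, e0, hζ⟩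
  · exfalso
    rw [one_mul] at e
    obtain ⟨t, ht⟩ := (IsIntegrallyClosed.pow_dvd_pow_iff (three_ne_zero)).1
      (Dvd.intro_left x e.symm : g' ^ 3 ∣ g ^ 3)
    rw [ht, mul_pow, mul_comm] at e
    exact hc ⟨t, mul_right_cancel₀ (pow_ne_zero 3 hg') e⟩
  · have hB' := PTK_PT.int_ne hB
    have hz' := PTK_PT.int_ne hz
    have e1 : (x0 : Eis) ^ 3 + (y0 : Eis) ^ 3 = (B : Eis) * (z0 : Eis) ^ 3 := by
      exact_mod_cast congrArg (fun n : ℤ => (n : Eis)) e0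
    have hw := w_rel
    -- the three factors
    have e2 : ((x0 : Eis) + y0) * ((x0 : Eis) + w * y0) * ((x0 : Eis) + w ^ 2 * y0) =
        (B : Eis) * (z0 : Eis) ^ 3 := by
      rw [← e1]
      linear_combination ((x0 : Eis) ^ 2 * y0 + w * (x0 : Eis) * y0 ^ 2 +
        (w - 1) * (y0 : Eis) ^ 3) * hw
    have n1 : ((x0 : Eis) + y0) * ((x0 : Eis) + w * y0) * ((x0 : Eis) + w ^ 2 * y0) ≠ 0 := by
      rw [e2]
      exact mul_ne_zero hB' (pow_ne_zero 3 hz')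
    have n2 : (x0 : Eis) + w ^ 2 * y0 ≠ 0 := right_ne_zero_of_mul n1
    have n3 : w ≠ (0 : Eis) := by
      intro h
      have := w_cube
      rw [h] at this
      norm_num at this
    have hw3 := w_cube
    generalize ha : w ^ 2 * ((x0 : Eis) + w ^ 2 * y0) = a2
    have na : a2 ≠ 0 := by
      rw [← ha]
      exact mul_ne_zero (pow_ne_zero 2 n3) n2
    refine ⟨g' ^ 2 * g * a2, g' ^ 3, ⟨mul_ne_zero (mul_ne_zero (pow_ne_zero 2 hg') hg) na,
      pow_ne_zero 3 hg', g' * g ^ 2 * (-(z0 : Eis) * a2),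
      mul_ne_zero (mul_ne_zero hg' (pow_ne_zero 2 hg)) (mul_ne_zero (neg_ne_zero.2 hz') na), ?_⟩⟩
    have e3 : ζ * (a2 ^ 3 + ζ) = (B : Eis) * (-(z0 : Eis) * a2) ^ 3 := by
      have k1 : ζ = w * ((x0 : Eis) + w * y0) * a2 ^ 2 := by
        rw [hζ, ← ha]
        linear_combination (-(w ^ 2) * ((x0 : Eis) + w * y0) * ((x0 : Eis) + w ^ 2 * y0) ^ 2) * hw3
      have k2 : a2 + w * ((x0 : Eis) + w * y0) = -((x0 : Eis) + y0) := by
        rw [← ha]
        linear_combination ((x0 : Eis) + (w ^ 2 - w + 1) * y0) * hw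
      have k3 : w * ((x0 : Eis) + w * y0) * a2 * ((x0 : Eis) + y0) =
          (B : Eis) * (z0 : Eis) ^ 3 := by
        rw [← ha, ← e2]
        linear_combination (((x0 : Eis) + y0) * ((x0 : Eis) + w * y0) *
          ((x0 : Eis) + w ^ 2 * y0)) * hw3
      calc ζ * (a2 ^ 3 + ζ) = (w * ((x0 : Eis) + w * y0) * a2 ^ 4) *
            (a2 + w * ((x0 : Eis) + w * y0)) := by
            rw [k1]
            ring
        _ = -(w * ((x0 : Eis) + w * y0) * a2 * ((x0 : Eis) + y0)) * a2 ^ 3 := by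
            rw [k2]
            ring
        _ = _ := by
            rw [k3]
            ring
    linear_combination (g' ^ 3 * g ^ 6) * e3 -
      (g' ^ 3 * g ^ 3 * a2 ^ 3 + g' ^ 3 * (x * g' ^ 3 + ζ * g ^ 3)) * e

end Pool.Agent.PTK


end

section

/-!
# All moments for prime twists, PTX: a point with the same symbols of the linear forms at `λ` (helper8)
-/

set_option autoImplicit false

open NumberField IsDedekindDomain Finset
open scoped nonZeroDivisors Pointwise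

namespace Pool.Agent.PTK

open Pool.Agent.Lib_helper18 Pool.Agent.Lib_helper18.Eis Pool.Agent.Lib_helper84.Cub
open Pool.Agent.PT Pool.Agent.PTE Pool.Agent.PT3 Pool.Agent.PTL Pool.Agent.PTN

namespace PTK_PTX

/-! ### Rational integers -/

theorem cube_close {ν m ν' : ℤ} {e K : ℕ} (hν : ν = 3 ^ e * ν') (h3 : ¬ (3 : ℤ) ∣ ν') (hK : 1 ≤ K)
    (h : (3 : ℤ) ^ (3 * e + 1 + K) ∣ m ^ 3 - ν ^ 3) : (3 : ℤ) ^ (e + K) ∣ m - ν := by
  have h1 : ((3 : ℤ) ^ e) ^ 3 ∣ m ^ 3 := by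
    have h2 : ((3 : ℤ) ^ e) ^ 3 ∣ m ^ 3 - ν ^ 3 := by
      refine dvd_trans ?_ h
      rw [← pow_mul]
      exact pow_dvd_pow _ (by omega)
    have h4 : ((3 : ℤ) ^ e) ^ 3 ∣ ν ^ 3 := by
      rw [hν, mul_pow]
      exact dvd_mul_right _ _
    exact (dvd_sub_left h4).1 h2
  obtain ⟨m', hm'⟩ := (Int.pow_dvd_pow_iff (by norm_num)).1 h1
  have h5 : m ^ 3 - ν ^ 3 = (3 : ℤ) ^ (3 * e) * (m' ^ 3 - ν' ^ 3) := by
    rw [hm', hν, pow_mul']
    ring
  have h6 : (3 : ℤ) ^ (1 + K) ∣ m' ^ 3 - ν' ^ 3 := by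
    rw [h5, show 3 * e + 1 + K = 3 * e + (1 + K) by ring, pow_add] at h
    exact (mul_dvd_mul_iff_left (pow_ne_zero _ (by norm_num))).1 h
  have h7 : (3 : ℤ) ∣ m' - ν' := by
    have h8 : (3 : ℤ) ∣ m' ^ 3 - ν' ^ 3 := dvd_trans (dvd_pow_self _ (by omega)) h6
    have h9 : (3 : ℤ) ∣ m' ^ 3 - m' := by
      obtain ⟨k, r, hk, hr⟩ : ∃ k r : ℤ, m' = 3 * k + r ∧ (r = 0 ∨ r = 1 ∨ r = 2) :=
        ⟨m' / 3, m' % 3, by omega, by omega⟩
      rcases hr with rfl | rfl | rfl <;> rw [hk]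
      · exact ⟨9 * k ^ 3 - k, by ring⟩
      · exact ⟨9 * k ^ 3 + 9 * k ^ 2 + 2 * k, by ring⟩
      · exact ⟨9 * k ^ 3 + 18 * k ^ 2 + 11 * k + 2, by ring⟩
    have h10 : (3 : ℤ) ∣ ν' ^ 3 - ν' := by
      obtain ⟨k, r, hk, hr⟩ : ∃ k r : ℤ, ν' = 3 * k + r ∧ (r = 0 ∨ r = 1 ∨ r = 2) :=
        ⟨ν' / 3, ν' % 3, by omega, by omega⟩
      rcases hr with rfl | rfl | rfl <;> rw [hk]
      · exact ⟨9 * k ^ 3 - k, by ring⟩
      · exact ⟨9 * k ^ 3 + 9 * k ^ 2 + 2 * k, by ring⟩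
      · exact ⟨9 * k ^ 3 + 18 * k ^ 2 + 11 * k + 2, by ring⟩
    omega
  obtain ⟨t, ht⟩ := h7
  obtain ⟨K', rfl⟩ : ∃ K', K = K' + 1 := ⟨K - 1, by omega⟩
  have e1 : m' ^ 3 - ν' ^ 3 = 3 ^ 2 * (t * (ν' ^ 2 + 3 * (ν' * t + t ^ 2))) := by
    have e2 : m' = ν' + 3 * t := by linarith
    rw [e2]
    ring
  have e3 : (3 : ℤ) ^ K' ∣ t * (ν' ^ 2 + 3 * (ν' * t + t ^ 2)) := by
    rw [e1, show 1 + (K' + 1) = 2 + K' by ring, pow_add] at h6
    exact (mul_dvd_mul_iff_left (by norm_num)).1 h6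
  have e4 : IsCoprime ((3 : ℤ) ^ K') (ν' ^ 2 + 3 * (ν' * t + t ^ 2)) := by
    apply IsCoprime.pow_left
    rw [Prime.coprime_iff_not_dvd Int.prime_three]
    intro h11
    have h12 : (3 : ℤ) ∣ ν' ^ 2 := (dvd_add_left (dvd_mul_right _ _)).1 h11
    exact h3 (Int.prime_three.dvd_of_dvd_pow h12)
  have e5 : (3 : ℤ) ^ K' ∣ t := e4.dvd_of_dvd_mul_right e3
  have e6 : m - ν = 3 ^ (e + 1) * t := by
    rw [hm', hν, pow_add]
    linear_combination (3 ^ e : ℤ) * ht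
  rw [e6, show e + (K' + 1) = (e + 1) + K' by ring, pow_add]
  exact mul_dvd_mul_left _ e5

theorem three_dvd_of_lam {k : ℕ} {n : ℤ} (h : lam ^ (2 * k) ∣ (n : Eis)) : (3 : ℤ) ^ k ∣ n := by
  have h1 : lam ^ 2 = 3 * (-w) := by decide
  have h2 : (3 : Eis) ^ k ∣ lam ^ (2 * k) := by
    rw [pow_mul, h1, mul_pow]
    exact dvd_mul_right _ _
  have h3 : (((3 : ℤ) ^ k : ℤ) : Eis) ∣ (n : Eis) := by
    push_cast
    exact h2.trans h
  exact intCast_dvd_intCast.1 h3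

theorem lam_dvd_of_three {k : ℕ} {n : ℤ} (h : (3 : ℤ) ^ k ∣ n) : lam ^ (2 * k) ∣ (n : Eis) := by
  obtain ⟨c, rfl⟩ := h
  push_cast
  rw [three_eq, mul_pow, ← pow_mul]
  exact Dvd.dvd.mul_right (dvd_mul_left _ _) _

theorem V_lam_int {n : ℤ} (hn : n ≠ 0) : V lam (n : Eis) = 2 * padicValInt 3 n := by
  obtain ⟨k, c, h1, h2⟩ := LCL.split hn
  have h3 : padicValInt 3 n = k := by rw [h1]; exact LCL.val_eq h2
  rw [h3]
  have h4 : (n : Eis) = lam ^ (2 * k) * ((-w ^ 2) ^ k * (c : Eis)) := by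
    rw [h1]
    push_cast
    rw [three_eq, mul_pow, ← pow_mul]
    ring
  rw [h4]
  apply V_pow_mul prime_lam
  intro h5
  rcases prime_lam.dvd_or_dvd h5 with h6 | h6
  · have h7 := prime_lam.dvd_of_dvd_pow h6
    rw [dvd_neg] at h7
    exact not_dvd_of_isUnit prime_lam isUnit_w (prime_lam.dvd_of_dvd_pow h7)
  · rw [lam_dvd_iff] at h6
    simp at h6
    exact h2 h6

/-! ### Approximation at `λ` -/

theorem conj_lam : conj lam = lam * (1 + w) := by decide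

theorem dvd_conj {N : ℕ} {z : Eis} (h : lam ^ N ∣ z) : lam ^ N ∣ conj z := by
  obtain ⟨c, rfl⟩ := h
  rw [map_mul, map_pow, conj_lam, mul_pow]
  exact Dvd.dvd.mul_right (dvd_mul_right _ _) _

theorem V_conj_lam {z : Eis} (hz : z ≠ 0) : V lam (conj z) = V lam z := by
  obtain ⟨c, hc, hlc⟩ := V_split prime_lam hz
  have h1 : conj z = lam ^ (V lam z) * ((1 + w) ^ (V lam z) * conj c) := by
    conv_lhs => rw [hc]
    rw [map_mul, map_pow, conj_lam, mul_pow]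
    ring
  conv_lhs => rw [h1]
  apply V_pow_mul prime_lam
  intro h5
  rcases prime_lam.dvd_or_dvd h5 with h6 | h6
  · have h7 := prime_lam.dvd_of_dvd_pow h6
    have h8 : IsUnit (1 + w) := isUnit_iff_norm.2 (by decide)
    exact not_dvd_of_isUnit prime_lam h8 h7
  · apply hlc
    have h7 := dvd_conj (N := 1) (z := conj c) (by rwa [pow_one])
    rwa [conj_conj, pow_one] at h7

theorem V_close {a a' : Eis} (ha : a ≠ 0) (h : lam ^ (V lam a + 1) ∣ a' - a) :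
    a' ≠ 0 ∧ V lam a' = V lam a := by
  obtain ⟨c, hc, hlc⟩ := V_split prime_lam ha
  obtain ⟨d, hd⟩ := h
  have h1 : a' = lam ^ (V lam a) * (c + lam * d) := by
    have h2 : a' = a + lam ^ (V lam a + 1) * d := by rw [← hd]; ring
    rw [h2, pow_succ]
    nth_rewrite 1 [hc]
    ring
  have h3 : ¬ lam ∣ c + lam * d := fun h4 => hlc ((dvd_add_left (dvd_mul_right _ _)).1 h4)
  refine ⟨?_, ?_⟩
  · rw [h1]
    refine mul_ne_zero (pow_ne_zero _ prime_lam.ne_zero) ?_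
    intro h4
    rw [h4] at h3
    exact h3 (dvd_zero _)
  · rw [h1]
    exact V_pow_mul prime_lam _ h3

/-! ### The rational integers `R i` -/

/-- the rational integers, `n` the norm of `γ`, `z = γ conj η` -/
def RR (n : ℤ) (z : Eis) : Fin 3 → ℤ :=
  ![n + n + (z.re + z.re - z.im), -n - z.re - z.im, -n - z.re + (z.im + z.im)]

theorem RR_sum (n : ℤ) (z : Eis) : RR n z 0 + RR n z 1 + RR n z 2 = 0 := by
  change (n + n + (z.re + z.re - z.im)) + (-n - z.re - z.im) + (-n - z.re + (z.im + z.im)) = 0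
  ring

theorem RR_0 (n : ℤ) (z : Eis) : ((RR n z 0 : ℤ) : Eis) = n + n + (z + conj z) := by
  change ((n + n + (z.re + z.re - z.im) : ℤ) : Eis) = _
  ext
  · rw [intCast_re]
    simp only [add_re, intCast_re, conj_re]
    ring
  · rw [intCast_im]
    simp only [add_im, intCast_im, conj_im]
    ring

theorem RR_1 (n : ℤ) (z : Eis) : ((RR n z 1 : ℤ) : Eis) = -n + (w * z + w ^ 2 * conj z) := by
  change ((-n - z.re - z.im : ℤ) : Eis) = _
  rw [w_sq]
  ext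
  · rw [intCast_re]
    simp only [add_re, sub_re, neg_re, mul_re, intCast_re, conj_re, conj_im, w_re, w_im, one_re, neg_im,
      sub_im, one_im]
    ring
  · rw [intCast_im]
    simp only [add_im, sub_re, neg_re, mul_im, intCast_im, conj_re, conj_im, w_re, w_im, one_re, neg_im,
      sub_im, one_im]
    ring

theorem RR_2 (n : ℤ) (z : Eis) : ((RR n z 2 : ℤ) : Eis) = -n + (w ^ 2 * z + w * conj z) := by
  change ((-n - z.re + (z.im + z.im) : ℤ) : Eis) = _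
  rw [w_sq]
  ext
  · rw [intCast_re]
    simp only [add_re, sub_re, neg_re, mul_re, intCast_re, conj_re, conj_im, w_re, w_im, one_re, neg_im,
      sub_im, one_im]
    ring
  · rw [intCast_im]
    simp only [add_im, sub_re, neg_re, mul_im, intCast_im, conj_re, conj_im, w_re, w_im, one_re, neg_im,
      sub_im, one_im]
    ring

section

variable (γ η : Eis)

theorem rho_0 : (γ + η) * conj (γ + η) =
    ((RR γ.norm (γ * conj η) 0 : ℤ) : Eis) + ((η.norm - γ.norm : ℤ) : Eis) := by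
  rw [RR_0]
  push_cast
  rw [← mul_conj γ, ← mul_conj η, map_mul, map_add, conj_conj]
  ring

theorem rho_1 : w * ((γ + w * η) * conj (γ + η)) =
    ((RR γ.norm (γ * conj η) 1 : ℤ) : Eis) + w ^ 2 * ((η.norm - γ.norm : ℤ) : Eis) := by
  rw [RR_1]
  push_cast
  rw [← mul_conj γ, ← mul_conj η, map_mul, map_add, conj_conj]
  linear_combination (γ * conj γ) * w_rel

theorem rho_2 : w ^ 2 * ((γ + w ^ 2 * η) * conj (γ + η)) =
    ((RR γ.norm (γ * conj η) 2 : ℤ) : Eis) + w * ((η.norm - γ.norm : ℤ) : Eis) := by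
  rw [RR_2]
  push_cast
  rw [← mul_conj γ, ← mul_conj η, map_mul, map_add, conj_conj]
  linear_combination (γ * conj γ) * w_rel + (w * η * (conj γ + conj η)) * w_cube

theorem cube_prod : (γ + η) * (γ + w * η) * (γ + w ^ 2 * η) = γ ^ 3 + η ^ 3 := by
  linear_combination (γ ^ 2 * η + w * γ * η ^ 2) * w_rel + η ^ 3 * w_cube

end

theorem w_ne0 : w ≠ (0 : Eis) := isUnit_w.ne_zero

theorem conj_ne {z : Eis} (hz : z ≠ 0) : conj z ≠ 0 := by
  intro h0
  apply hz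
  have := congrArg conj h0
  rwa [conj_conj, map_zero] at this

/-- the symbol with `w` of a class of norm a cube -/
theorem sl_w_zero (hSSL : SSL) (hSCJ : SCJ) {b : Eis} (hb : b ≠ 0)
    (hcb : ∃ t : Eis, b * conj b = t ^ 3) : sl w b = 0 := by
  obtain ⟨t, ht⟩ := hcb
  have hb' := conj_ne hb
  have ht0 : t ≠ 0 := by
    rintro rfl
    rw [zero_pow (by norm_num)] at ht
    exact mul_ne_zero hb hb' ht
  have h1 := hSCJ.2.1 w b w_ne0 hb
  rw [conj_w] at h1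
  have h2 := (EHYP.add3_sl hSSL hb').pow w_ne0 2
  rw [h2] at h1
  have hA := EHYP.add3_sl hSSL w_ne0
  have h3 := hA b (conj b) hb hb'
  have h4 := hA.pow ht0 3
  simp only at h3 h4
  rw [ht, h4] at h3
  have h5 := hSSL.2.1 w b w_ne0 hb
  have h6 := hSSL.2.1 w (conj b) w_ne0 hb'
  have h7 := EHYP.three_zero (sl t w)
  have h8 := EHYP.three_zero (sl w b)
  push_cast at h1 h3
  rw [h7, h5, h6] at h3
  linear_combination 2 * h3 - h1

/-- the valuation and the class of the product -/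
theorem key (hLRR : Stmt_LRR) (hSSL : SSL) (hSLC : SLC) (hSCJ : SCJ) (hLCL : LCL) {B : ℤ}
    (hB : B ≠ 0) (hlv : lv B ≠ 1) {a0 a1 a2 g : Eis} {z0 : ℤ} (hz : z0 ≠ 0)
    (hc : conj a2 = a1) (hs : a0 + a1 + a2 = 0) (hp : a0 * a1 * a2 = (B : Eis) * (z0 : Eis) ^ 3)
    (hg : g ≠ 0) {b : Eis} (hb : b ≠ 0) (hcb : ∃ t : Eis, b * conj b = t ^ 3)
    (hbB : sl b (B : Eis) = 0) :
    ∃ N0 : ℕ, ∀ η : Eis, lam ^ N0 ∣ η ^ 3 - a1 * a2 ^ 2 * g ^ 3 →
      g * a2 + w * η ≠ 0 ∧ g * a2 + w ^ 2 * η ≠ 0 ∧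
        sl (g * a2 + w * η) b = sl (g * a2 + w ^ 2 * η) b := by
  have hB' := PTK_PT.int_ne hB
  have hz' := PTK_PT.int_ne hz
  have hn : a0 * a1 * a2 ≠ 0 := by
    rw [hp]
    exact mul_ne_zero hB' (pow_ne_zero 3 hz')
  have ha2 : a2 ≠ 0 := right_ne_zero_of_mul hn
  have ha1 : a1 ≠ 0 := right_ne_zero_of_mul (left_ne_zero_of_mul hn)
  have ha0 : a0 ≠ 0 := left_ne_zero_of_mul (left_ne_zero_of_mul hn)
  have hc' : conj a1 = a2 := by rw [← hc, conj_conj]
  -- the constants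
  obtain ⟨γ, hγ⟩ : ∃ γ, γ = g * a2 := ⟨_, rfl⟩
  obtain ⟨E, hE⟩ : ∃ E, E = a1 * a2 ^ 2 * g ^ 3 := ⟨_, rfl⟩
  obtain ⟨D, hD⟩ : ∃ D, D = g ^ 3 * a2 ^ 2 * a0 := ⟨_, rfl⟩
  have hγ0 : γ ≠ 0 := by rw [hγ]; exact mul_ne_zero hg ha2
  have hE0 : E ≠ 0 := by
    rw [hE]
    exact mul_ne_zero (mul_ne_zero ha1 (pow_ne_zero _ ha2)) (pow_ne_zero _ hg)
  have hD0 : D ≠ 0 := by
    rw [hD]
    exact mul_ne_zero (mul_ne_zero (pow_ne_zero _ hg) (pow_ne_zero _ ha2)) ha0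
  obtain ⟨e, ν', hν, h3ν⟩ := LCL.split (norm_pos hγ0).ne'
  obtain ⟨K, hK⟩ : ∃ K, K = V lam D + V lam E + 5 := ⟨_, rfl⟩
  refine ⟨2 * (3 * e + 1 + K), fun η hη => ?_⟩
  rw [← hγ]
  rw [← hE] at hη
  -- the sum of the cubes
  have h1 : lam ^ (2 * (3 * e + 1 + K)) ∣ (γ ^ 3 + η ^ 3) - (-D) := by
    have e1 : (γ ^ 3 + η ^ 3) - (-D) = η ^ 3 - E := by
      rw [hγ, hE, hD]
      linear_combination (g ^ 3 * a2 ^ 2) * hs
    rwa [e1]
  have hVD : V lam (-D) = V lam D := V_neg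
  obtain ⟨h2, h2'⟩ := V_close (neg_ne_zero.2 hD0) ((pow_dvd_pow lam (by rw [hVD]; omega)).trans h1)
  rw [hVD] at h2'
  have h3 := cube_prod γ η
  have n012 : (γ + η) * (γ + w * η) * (γ + w ^ 2 * η) ≠ 0 := by rw [h3]; exact h2
  have n2 : γ + w ^ 2 * η ≠ 0 := right_ne_zero_of_mul n012
  have n1 : γ + w * η ≠ 0 := right_ne_zero_of_mul (left_ne_zero_of_mul n012)
  have n0 : γ + η ≠ 0 := left_ne_zero_of_mul (left_ne_zero_of_mul n012)
  refine ⟨n1, n2, ?_⟩
  have hVsum : V lam (γ + η) + V lam (γ + w * η) + V lam (γ + w ^ 2 * η) = V lam D := by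
    rw [← h2', ← h3, V_mul prime_lam (mul_ne_zero n0 n1) n2, V_mul prime_lam n0 n1]
  -- `η` and its cube
  obtain ⟨h4, h4'⟩ := V_close hE0 ((pow_dvd_pow lam (by omega)).trans hη)
  have hη0 : η ≠ 0 := by
    rintro rfl
    exact h4 (by rw [zero_pow (by norm_num)])
  -- the norms
  have h5 : lam ^ (2 * (3 * e + 1 + K)) ∣ ((η.norm ^ 3 - γ.norm ^ 3 : ℤ) : Eis) := by
    have e1 : ((η.norm ^ 3 - γ.norm ^ 3 : ℤ) : Eis) = (η ^ 3 - E) * conj (η ^ 3) + E * conj (η ^ 3 - E) := by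
      have e2 : E * conj E = (γ * conj γ) ^ 3 := by
        rw [hE, hγ]
        simp only [map_mul, map_pow, hc, hc']
        ring
      push_cast
      rw [← mul_conj γ, ← mul_conj η, ← e2, map_sub, map_pow]
      ring
    rw [e1]
    exact dvd_add (Dvd.dvd.mul_right hη _) (Dvd.dvd.mul_left (dvd_conj hη) _)
  have h6 := cube_close hν h3ν (by omega) (three_dvd_of_lam h5)
  have h7 := lam_dvd_of_three h6
  -- the symbols and valuations of the `R i`
  have hcn : conj (γ + η) ≠ 0 := conj_ne n0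
  have hVc : V lam (conj (γ + η)) = V lam (γ + η) := V_conj_lam n0
  have hVw : V lam w = 0 := V_eq_zero (not_dvd_of_isUnit prime_lam isUnit_w)
  have hVw2 : V lam (w ^ 2) = 0 := by rw [V_pow prime_lam w_ne0, hVw, mul_zero]
  have close : ∀ {ρ : Eis} {R : ℤ} {u : Eis}, ρ ≠ 0 → ρ = (R : Eis) + u * ((η.norm - γ.norm : ℤ) : Eis) →
      V lam ρ ≤ 2 * V lam D → R ≠ 0 ∧ V lam (R : Eis) = V lam ρ ∧ ∀ c : Eis, c ≠ 0 → sl (R : Eis) c = sl ρ c := by
    intro ρ R u hρ e1 hV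
    have e2 : lam ^ (V lam ρ + 4) ∣ (R : Eis) - ρ := by
      have e3 : (R : Eis) - ρ = -(u * ((η.norm - γ.norm : ℤ) : Eis)) := by rw [e1]; ring
      rw [e3, dvd_neg]
      refine Dvd.dvd.mul_left ((pow_dvd_pow lam ?_).trans h7) _
      omega
    obtain ⟨e4, e5⟩ := V_close hρ ((pow_dvd_pow lam (by omega)).trans e2)
    refine ⟨?_, e5, fun c hc0 => LSym.cont hSLC _ _ _ hρ hc0 e2⟩
    rintro rfl
    exact e4 (by push_cast; rfl)
  obtain ⟨r0, v0, s0⟩ := close (ρ := (γ + η) * conj (γ + η)) (u := 1) (mul_ne_zero n0 hcn)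
    (by rw [one_mul]; exact rho_0 γ η) (by rw [V_mul prime_lam n0 hcn, hVc]; omega)
  obtain ⟨r1, v1, s1⟩ := close (ρ := w * ((γ + w * η) * conj (γ + η)))
    (mul_ne_zero w_ne0 (mul_ne_zero n1 hcn)) (rho_1 γ η)
    (by rw [V_mul prime_lam w_ne0 (mul_ne_zero n1 hcn), V_mul prime_lam n1 hcn, hVc, hVw]; omega)
  obtain ⟨r2, v2, s2⟩ := close (ρ := w ^ 2 * ((γ + w ^ 2 * η) * conj (γ + η)))
    (mul_ne_zero (pow_ne_zero _ w_ne0) (mul_ne_zero n2 hcn)) (rho_2 γ η)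
    (by rw [V_mul prime_lam (pow_ne_zero _ w_ne0) (mul_ne_zero n2 hcn), V_mul prime_lam n2 hcn, hVc,
      hVw2]; omega)
  rw [V_mul prime_lam n0 hcn, hVc] at v0
  rw [V_mul prime_lam w_ne0 (mul_ne_zero n1 hcn), V_mul prime_lam n1 hcn, hVc, hVw] at v1
  rw [V_mul prime_lam (pow_ne_zero _ w_ne0) (mul_ne_zero n2 hcn), V_mul prime_lam n2 hcn, hVc,
    hVw2] at v2
  have t0 : ∀ c : Eis, c ≠ 0 → sl ((RR γ.norm (γ * conj η) 0 : ℤ) : Eis) c =
      sl (γ + η) c + sl (conj (γ + η)) c := fun c hc0 => by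
    rw [s0 c hc0, hSSL.1 _ _ _ n0 hcn hc0]
  have t1 : ∀ c : Eis, c ≠ 0 → sl ((RR γ.norm (γ * conj η) 1 : ℤ) : Eis) c =
      sl w c + (sl (γ + w * η) c + sl (conj (γ + η)) c) := fun c hc0 => by
    rw [s1 c hc0, hSSL.1 _ _ _ w_ne0 (mul_ne_zero n1 hcn) hc0, hSSL.1 _ _ _ n1 hcn hc0]
  have t2 : ∀ c : Eis, c ≠ 0 → sl ((RR γ.norm (γ * conj η) 2 : ℤ) : Eis) c =
      2 * sl w c + (sl (γ + w ^ 2 * η) c + sl (conj (γ + η)) c) := fun c hc0 => by
    rw [s2 c hc0, hSSL.1 _ _ _ (pow_ne_zero _ w_ne0) (mul_ne_zero n2 hcn) hc0,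
      hSSL.1 _ _ _ n2 hcn hc0]
    have := (EHYP.add3_sl hSSL hc0).pow w_ne0 2
    rw [this]
    push_cast
    rfl
  -- the product
  obtain ⟨R, hR⟩ : ∃ R : Fin 3 → ℤ, R = RR γ.norm (γ * conj η) := ⟨_, rfl⟩
  rw [← hR] at r0 r1 r2 v0 v1 v2 t0 t1 t2
  have hRne : ∀ i, R i ≠ 0 := by
    intro i
    fin_cases i
    · exact r0
    · exact r1
    · exact r2
  have hRsum : R 0 + R 1 + R 2 = 0 := by rw [hR]; exact RR_sum _ _
  have q0 := PTK_PT.int_ne r0
  have q1 := PTK_PT.int_ne r1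
  have q2 := PTK_PT.int_ne r2
  have hP0 : R 0 * R 1 * R 2 ≠ 0 := mul_ne_zero (mul_ne_zero r0 r1) r2
  have hDE : D * E = (B : Eis) * (g ^ 2 * (z0 : Eis) * a2) ^ 3 := by
    rw [hD, hE]
    linear_combination (g ^ 6 * a2 ^ 3) * hp
  have hu : g ^ 2 * (z0 : Eis) * a2 ≠ 0 := mul_ne_zero (mul_ne_zero (pow_ne_zero _ hg) hz') ha2
  -- valuations
  have hlvP : lv (R 0 * R 1 * R 2) = lv B := by
    have e1 : V lam ((R 0 * R 1 * R 2 : ℤ) : Eis) = V lam D + 3 * V lam (γ + η) := by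
      push_cast
      rw [V_mul prime_lam (mul_ne_zero q0 q1) q2, V_mul prime_lam q0 q1]
      omega
    have e2 : V lam D + V lam E = V lam (B : Eis) + 3 * V lam (g ^ 2 * (z0 : Eis) * a2) := by
      rw [← V_mul prime_lam hD0 hE0, hDE, V_mul prime_lam hB' (pow_ne_zero _ hu), V_pow prime_lam hu]
    have e3 : V lam E = 3 * V lam η := by rw [← h4', V_pow prime_lam hη0]
    rw [V_lam_int hP0] at e1
    rw [V_lam_int hB] at e2
    unfold lv
    have e4 : (padicValInt 3 (R 0 * R 1 * R 2) + 3 * (V lam η + 2 * V lam (g ^ 2 * (z0 : Eis) * a2) + V lam (γ + η))) % 3 =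
        (padicValInt 3 B) % 3 := by omega
    have e5 := (ZMod.natCast_eq_natCast_iff' _ _ 3).2 e4
    push_cast at e5
    rw [← e5, EHYP.three_zero, add_zero]
  have hlwP : lw (R 0 * R 1 * R 2) = lw B := by
    have e1 := hLCL.2.2.2.2.1 _ hP0
    have e2 := hLCL.2.2.2.2.1 B hB
    have e3 := hSSL.2.1 _ _ (PTK_PT.int_ne hP0) w_ne0
    have e4 := hSSL.2.1 _ _ hB' w_ne0
    have e5 : sl ((R 0 * R 1 * R 2 : ℤ) : Eis) w = sl (γ ^ 3 + η ^ 3) w := by
      push_cast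
      rw [hSSL.1 _ _ _ (mul_ne_zero q0 q1) q2 w_ne0, hSSL.1 _ _ _ q0 q1 w_ne0, t0 w w_ne0, t1 w w_ne0,
        t2 w w_ne0, ← h3, hSSL.1 _ _ _ (mul_ne_zero n0 n1) n2 w_ne0, hSSL.1 _ _ _ n0 n1 w_ne0]
      linear_combination EHYP.three_zero (sl w w) + EHYP.three_zero (sl (conj (γ + η)) w)
    have e6 : sl (γ ^ 3 + η ^ 3) w = sl (-D) w :=
      LSym.cont hSLC _ _ _ (neg_ne_zero.2 hD0) w_ne0 ((pow_dvd_pow lam (by rw [hVD]; omega)).trans h1)
    have hA := EHYP.add3_sl hSSL w_ne0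
    have e7 : sl (-D) w = sl D w := by
      have := hA (-1) D (by simp) hD0
      simp only at this
      rw [neg_one_mul] at this
      rw [this]
      have h8 := hA.neg_one
      rw [h8, zero_add]
    have e8 : sl (η ^ 3) w = sl E w :=
      LSym.cont hSLC _ _ _ hE0 w_ne0 ((pow_dvd_pow lam (by omega)).trans hη)
    have e9 := hA.pow hη0 3
    have e10 := hA _ _ hD0 hE0
    have e11 := hA _ _ hB' (pow_ne_zero 3 hu)
    have e12 := hA.pow hu 3
    simp only at e9 e10 e11 e12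
    rw [hDE, e11, e12] at e10
    push_cast at e9 e10
    have e13 := EHYP.three_zero (sl η w)
    have e14 := EHYP.three_zero (sl (g ^ 2 * (z0 : Eis) * a2) w)
    have e15 : lw (R 0 * R 1 * R 2) = sl ((R 0 * R 1 * R 2 : ℤ) : Eis) w := by
      linear_combination e1 - e3
    have e16 : lw B = sl (B : Eis) w := by
      linear_combination e2 - e4
    rw [e15, e16, e5, e6, e7]
    linear_combination e14 - e10 - e13 - e9 + e8
  obtain ⟨κ, k1, k2⟩ := hLRR R B hRne hB hRsum hlvP hlwP hlv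
  have f1 := HYPT.sl_int hSSL hLCL hb (R 1) r1
  have f2 := HYPT.sl_int hSSL hLCL hb (R 2) r2
  have f3 := HYPT.sl_int hSSL hLCL hb B hB
  rw [hbB] at f3
  have g1 := hSSL.2.1 _ _ hb q1
  have g2 := hSSL.2.1 _ _ hb q2
  have hw := sl_w_zero hSSL hSCJ hb hcb
  have u1 := t1 b hb
  have u2 := t2 b hb
  linear_combination u2 - u1 + g1 - g2 - f1 + f2 - k1 * sl b 3 + k2 * sl b 4 + κ * f3 + hw

end PTK_PTX

theorem PTX_thm (hLRR : Stmt_LRR) (hSSL : SSL) (hSLC : SLC) (hSCJ : SCJ) (hLCL : LCL) :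
    Stmt_PTX := by
  intro B x hB hlv hx hcube h
  obtain ⟨ζ, g, g', hS, hg, hg', e⟩ := h
  rcases hS with rfl | ⟨x0, y0, z0, _, hz, e0, hζ⟩
  · exfalso
    rw [one_mul] at e
    obtain ⟨t, ht⟩ := (IsIntegrallyClosed.pow_dvd_pow_iff (three_ne_zero)).1
      (Dvd.intro_left x e.symm : g' ^ 3 ∣ g ^ 3)
    rw [ht, mul_pow, mul_comm] at e
    exact hcube ⟨t, mul_right_cancel₀ (pow_ne_zero 3 hg') e⟩
  · have hB' := PTK_PT.int_ne hB
    have hz' := PTK_PT.int_ne hz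
    have e1 : (x0 : Eis) ^ 3 + (y0 : Eis) ^ 3 = (B : Eis) * (z0 : Eis) ^ 3 := by
      exact_mod_cast congrArg (fun n : ℤ => (n : Eis)) e0
    have hw := w_rel
    have hw3 := w_cube
    have n3 := PTK_PTX.w_ne0
    obtain ⟨a0, ha0⟩ : ∃ a0 : Eis, a0 = x0 + y0 := ⟨_, rfl⟩
    obtain ⟨a1, ha1⟩ : ∃ a1 : Eis, a1 = w * (x0 + w * y0) := ⟨_, rfl⟩
    obtain ⟨a2, ha2⟩ : ∃ a2 : Eis, a2 = w ^ 2 * (x0 + w ^ 2 * y0) := ⟨_, rfl⟩
    have hc : conj a2 = a1 := by
      rw [ha2, ha1]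
      simp only [map_mul, map_add, map_pow, conj_intCast, conj_w]
      linear_combination (w * (x0 : Eis) + (w ^ 5 + w ^ 2) * (y0 : Eis)) * hw3
    have hs : a0 + a1 + a2 = 0 := by
      rw [ha0, ha1, ha2]
      linear_combination ((x0 : Eis) + (w ^ 2 - w + 1) * y0) * hw
    have hp : a0 * a1 * a2 = (B : Eis) * (z0 : Eis) ^ 3 := by
      rw [ha0, ha1, ha2, ← e1]
      linear_combination (((x0 : Eis) + y0) * ((x0 : Eis) + w * y0) * ((x0 : Eis) + w ^ 2 * y0)) * hw3 +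
        ((x0 : Eis) ^ 2 * y0 + w * (x0 : Eis) * y0 ^ 2 + (w - 1) * (y0 : Eis) ^ 3) * hw
    have hζ' : ζ = a1 * a2 ^ 2 := by
      rw [hζ, ha1, ha2]
      linear_combination (-(w ^ 2) * ((x0 : Eis) + w * y0) * ((x0 : Eis) + w ^ 2 * y0) ^ 2) * hw3
    have hn : a0 * a1 * a2 ≠ 0 := by
      rw [hp]
      exact mul_ne_zero hB' (pow_ne_zero 3 hz')
    have na : a2 ≠ 0 := right_ne_zero_of_mul hn
    have ng : g' ^ 2 ≠ 0 := pow_ne_zero 2 hg'
    refine ⟨g' ^ 2 * g * a2, g' ^ 3, ⟨mul_ne_zero (mul_ne_zero ng hg) na,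
      pow_ne_zero 3 hg', g' * g ^ 2 * (-(z0 : Eis) * a2),
      mul_ne_zero (mul_ne_zero hg' (pow_ne_zero 2 hg)) (mul_ne_zero (neg_ne_zero.2 hz') na), ?_⟩, ?_⟩
    · have e3 : ζ * (a2 ^ 3 + ζ) = (B : Eis) * (-(z0 : Eis) * a2) ^ 3 := by
        rw [hζ']
        linear_combination (a1 * a2 ^ 4) * hs - a2 ^ 3 * hp
      linear_combination (g' ^ 3 * g ^ 6) * e3 -
        (g' ^ 3 * g ^ 3 * a2 ^ 3 + g' ^ 3 * (x * g' ^ 3 + ζ * g ^ 3)) * e
    · intro b hb _ hcb hbB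
      obtain ⟨N0, hN⟩ := PTK_PTX.key hLRR hSSL hSLC hSCJ hLCL hB hlv hz hc hs hp hg hb hcb hbB
      refine ⟨N0, fun ξ hξ => ?_⟩
      obtain ⟨m1, m2, m3⟩ := hN (g' * ξ) (by
        have e4 : (g' * ξ) ^ 3 - a1 * a2 ^ 2 * g ^ 3 = g' ^ 3 * (ξ ^ 3 - x) := by
          rw [← hζ', e]
          ring
        rw [e4]
        exact Dvd.dvd.mul_left hξ _)
      have f : ∀ i : ℕ, LfE (g' ^ 2 * g * a2) (g' ^ 3) i ξ = g' ^ 2 * (g * a2 + w ^ i * (g' * ξ)) := by
        intro i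
        unfold LfE
        ring
      rw [f, f, pow_one, hSSL.1 _ _ _ ng m1 hb, hSSL.1 _ _ _ ng m2 hb, m3]

end Pool.Agent.PTK


end

section

/-!
# Module PTK_LMC: the classes of the minus part at `lam` (MP_8e0b0b_nt)
-/

set_option autoImplicit false

open NumberField IsDedekindDomain Finset
open scoped nonZeroDivisors Pointwise

namespace Pool.Agent.PTK

open Pool.Agent.Lib_helper18 Pool.Agent.Lib_helper18.Eis Pool.Agent.Lib_helper84.Cub
open Pool.Agent.PT Pool.Agent.PTE Pool.Agent.PT3 Pool.Agent.PTL Pool.Agent.PTN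
open Pool.Agent.PT.EHYP

namespace LMC

/-- `N ^ 2 = M ^ 3` and `3 ∤ N`, `N = 1 (mod 3)` give `N = 1 (mod 9)` -/
theorem mod_nine {N M : ℤ} (h : N ^ 2 = M ^ 3) (hN : N % 3 = 1) : N % 9 = 1 := by
  obtain ⟨n, hn⟩ : ∃ n : ℤ, N = 1 + 3 * n := ⟨N / 3, by omega⟩
  have h0 : M % 3 = 0 ∨ M % 3 = 1 ∨ M % 3 = 2 := by omega
  subst hn
  rcases h0 with h0 | h0 | h0
  · obtain ⟨m, rfl⟩ : ∃ m : ℤ, M = 3 * m := ⟨M / 3, by omega⟩
    exfalso
    have e1 : (1 + 3 * n) ^ 2 = 1 + 3 * (2 * n + 3 * n ^ 2) := by ring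
    have e2 : (3 * m) ^ 3 = 3 * (9 * m ^ 3) := by ring
    omega
  · obtain ⟨m, rfl⟩ : ∃ m : ℤ, M = 1 + 3 * m := ⟨M / 3, by omega⟩
    have e1 : (1 + 3 * n) ^ 2 = 1 + 6 * n + 9 * n ^ 2 := by ring
    have e2 : (1 + 3 * m) ^ 3 = 1 + 9 * (m + 3 * m ^ 2 + 3 * m ^ 3) := by ring
    omega
  · obtain ⟨m, rfl⟩ : ∃ m : ℤ, M = 2 + 3 * m := ⟨M / 3, by omega⟩
    exfalso
    have e1 : (1 + 3 * n) ^ 2 = 1 + 3 * (2 * n + 3 * n ^ 2) := by ring
    have e2 : (2 + 3 * m) ^ 3 = 2 + 3 * (2 + 12 * m + 18 * m ^ 2 + 9 * m ^ 3) := by ring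
    omega

theorem norm_nine {b : Eis} (hb : Prim b) (hcb : ∃ t : Eis, b * conj b = t ^ 3) :
    b.norm % 9 = 1 := by
  obtain ⟨t, ht⟩ := hcb
  have h1 : b.norm ^ 2 = t.norm ^ 3 := by
    have h2 := congrArg Eis.norm ht
    have e : (t ^ 3).norm = t.norm ^ 3 := by
      rw [pow_succ, pow_two, Eis.norm_mul, Eis.norm_mul]
      ring
    rw [Eis.norm_mul, norm_conj, e] at h2
    rw [← h2]
    ring
  refine mod_nine h1 ?_
  obtain ⟨c, hc⟩ := hb.1
  have h3 := hb.2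
  have e : b.norm = b.re ^ 2 + 3 * (3 * c ^ 2 - b.re * c) := by
    rw [norm_def, hc]
    ring
  have h4 : b.re ^ 2 % 3 = 1 := by
    have h5 : b.re % 3 = 1 ∨ b.re % 3 = 2 := by omega
    rcases h5 with h5 | h5
    · obtain ⟨m, hm⟩ : ∃ m : ℤ, b.re = 1 + 3 * m := ⟨b.re / 3, by omega⟩
      have e1 : b.re ^ 2 = 1 + 3 * (2 * m + 3 * m ^ 2) := by rw [hm]; ring
      omega
    · obtain ⟨m, hm⟩ : ∃ m : ℤ, b.re = 2 + 3 * m := ⟨b.re / 3, by omega⟩
      have e1 : b.re ^ 2 = 1 + 3 * (1 + 4 * m + 3 * m ^ 2) := by rw [hm]; ring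
      omega
  omega

theorem sq_mod_three {b : Eis} (hb : Prim b) : b.re ^ 2 % 3 = 1 := by
  have h3 := hb.2
  have h5 : b.re % 3 = 1 ∨ b.re % 3 = 2 := by omega
  rcases h5 with h5 | h5
  · obtain ⟨m, hm⟩ : ∃ m : ℤ, b.re = 1 + 3 * m := ⟨b.re / 3, by omega⟩
    have e1 : b.re ^ 2 = 1 + 3 * (2 * m + 3 * m ^ 2) := by rw [hm]; ring
    omega
  · obtain ⟨m, hm⟩ : ∃ m : ℤ, b.re = 2 + 3 * m := ⟨b.re / 3, by omega⟩
    have e1 : b.re ^ 2 = 1 + 3 * (1 + 4 * m + 3 * m ^ 2) := by rw [hm]; ring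
    omega

theorem prim_four : Prim (4 : Eis) := by
  have := prim_natCast (n := 4) (by norm_num)
  simpa using this

end LMC

theorem LMC_thm (hSSL : SSL) (hSLC : SLC) (hSREC : SREC) (hSCJ : SCJ) (hLCL : LCL)
    (hLCI : Stmt_LCI) : Stmt_LMC := by
  intro b hb hM
  have h4e : (4 : Eis) ≠ 0 := by
    intro h
    have := congrArg Eis.re h
    rw [show (4 : Eis) = ((4 : ℤ) : Eis) by push_cast; rfl, intCast_re] at this
    simp at this
  refine ⟨PTK_PTX.sl_w_zero hSSL hSCJ hb hM.cb, ⟨fun h => ?_, fun h => ?_⟩, fun m hm =>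
    HYPT.sl_int hSSL hLCL hb m hm⟩
  · exact ⟨hLCI.2.2 lam sl 4 b 3 hSLC h hb ZL.three_ne,
      hLCI.2.2 lam sl 4 b 4 hSLC h hb h4e⟩
  · obtain ⟨h3, h4⟩ := h
    obtain ⟨i, hi⟩ := exists_prim hM.nl
    have hF := add3_sl hSSL h4e
    have hw4 : sl w 4 = 1 := by
      have h5 := hLCL.2.2.2.2.1 4 (by norm_num)
      rw [(HYPT.lw_four hLCL).2] at h5
      have e : ((4 : ℤ) : Eis) = 4 := by push_cast; rfl
      rw [e] at h5
      rw [h5]
      ring
    have h5 : sl (b * w ^ i) 4 = 0 := hSREC.1 _ _ hi LMC.prim_four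
    have h6 := hF b (w ^ i) hb (pow_ne_zero i w_ne)
    have h7 := hF.pow w_ne i
    simp only at h6 h7
    rw [h5, h4, h7, hw4, zero_add, mul_one] at h6
    have h8 : 3 ∣ i := by
      have h9 : ((i : ℕ) : ZMod 3) = 0 := h6.symm
      exact (ZMod.natCast_eq_zero_iff i 3).mp h9
    have h10 : w ^ i = 1 := by
      obtain ⟨k, rfl⟩ := h8
      rw [pow_mul, w_cube, one_pow]
    rw [h10, mul_one] at hi
    have hn := LMC.norm_nine hi hM.cb
    have h11 := ZL.sl_prim hSSL hSREC hi hn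
    rw [h3] at h11
    have h12 := ZL.of_wt (LMC.sq_mod_three hi) h11.symm
    have h13 := ZL.final hi hn h12
    refine hLCI.2.1 b 1 b ?_ hM.nl ?_
    · intro h
      exact hM.nl (h.trans (one_dvd b))
    · have e : b * b ^ 3 - 1 ^ 3 = (b ^ 2 - 1) * (b ^ 2 + 1) := by ring
      rw [e]
      exact Dvd.dvd.mul_right h13 _

end Pool.Agent.PTK


end

section

/-!
# PTK_MSY: the system of a test configuration
-/

set_option autoImplicit false

open NumberField IsDedekindDomain Finset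
open scoped nonZeroDivisors Pointwise

namespace Pool.Agent.PTK

open Pool.Agent.Lib_helper18 Pool.Agent.Lib_helper18.Eis Pool.Agent.Lib_helper84.Cub
open Pool.Agent.PT Pool.Agent.PTE Pool.Agent.PT3 Pool.Agent.PTL Pool.Agent.PTN

namespace MSY

variable {h n m k : ℕ} {π : Fin m → PP} {p e : Fin m → ℕ} {r f : Fin k → ℕ}
  {w0 : ZMod 3} {c : Fin m → ZMod 3}

/-- the solution with the base in `V0` -/
theorem sol (hHNE : Stmt_HNE) (hZA : Stmt_ZA) (hZL : Stmt_ZL) (hZT : Stmt_ZT)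
    (hn : NF n π p e r f) (hh : h ≤ 2) {u y : Fin (m + 1) → ZMod 3}
    (hu : u ∈ V0 h n π p e r w0 c) (hy : y ∈ VS h n π p e r w0 c) (hu0 : u ≠ 0) (hy0 : y ≠ 0) :
    ∃ P Q P' Q' : Eis, SolE (zN π e u) (zN π e y) P Q P' Q' := by
  have hAy := hZA n m k π p e r f hn y
  have hAu := hZA n m k π p e r f hn u
  have hL := hZL n m k π p e r f hn u hu.2.1 hu.2.2
  have hcy : ¬ ∃ c : Eis, c ^ 3 = zN π e y := fun h1 => hy0 (hAy.2.2.2.2.2.2.2.2.2 h1)
  have hcu : ¬ ∃ c : Eis, c ^ 3 = zN π e u := fun h1 => hu0 (hAu.2.2.2.2.2.2.2.2.2 h1)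
  have hT := hZT h n m k π p e r f w0 c hn hh u hu.1 y hy
  exact hHNE (zN π e u) (zN π e y) hAu.1 hL hcu hAu.2.2.2.2.1 hAy.1 hcy hT.1 hT.2

/-- `V0 = VS` for `h = 1` -/
theorem V0_eq (hVDIM : Stmt_VDIM) {y : Fin (m + 1) → ZMod 3} (h1 : h = 1)
    (hy : y ∈ VS h n π p e r w0 c) : y ∈ V0 h n π p e r w0 c := by
  have h2 := hVDIM h n m k π p e r w0 c (by omega)
  have h3 : dN h n w0 = 0 := by simp [dN, h1]
  rw [h3, add_zero] at h2
  have hle : V0 h n π p e r w0 c ≤ VS h n π p e r w0 c := fun x hx => hx.1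
  have h4 : V0 h n π p e r w0 c = VS h n π p e r w0 c :=
    Submodule.eq_of_le_of_finrank_le hle h2
  rw [h4]
  exact hy

end MSY

open _root_.Pool.Agent.PTK.MSY in
theorem MSY_thm (hSPP : SPP) (hLCI : Stmt_LCI) (hHNE : Stmt_HNE) (hZA : Stmt_ZA) (hZI : Stmt_ZI)
    (hZL : Stmt_ZL) (hZT : Stmt_ZT) (hVDIM : Stmt_VDIM) : Stmt_MSY := by
  intro h n m k π p e r f w0 c hn hh M N y α β hT
  have hy0 : ∀ i, y i ≠ 0 := fun i => hT.ind.ne_zero i
  have hA := fun i => hZA n m k π p e r f hn (y i)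
  have hN0 : 0 < 3 ^ h * n := by
    have := EHYP.n_ne hn
    positivity
  have hunr : ∀ (i : Fin M) (σ : PP), ¬ σ.1 ∣ ((3 ^ h * n : ℕ) : Eis) → ¬ σ.1 ∣ zN π e (y i) := by
    intro i σ hσ
    refine (hA i).2.2.2.1 σ fun h2 => hσ ?_
    push_cast
    exact Dvd.dvd.mul_left h2 _
  have hL : ∀ i, y i ∈ V0 h n π p e r w0 c → LCE lam (zN π e (y i)) := fun i hi =>
    SYK.lc hLCI (hZL n m k π p e r f hn (y i) hi.2.1 hi.2.2)
  have hpair : ∀ j : Fin N, ∃ P Q P' Q' : Eis,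
      SolE (zN π e (y (α j))) (zN π e (y (β j))) P Q P' Q' ∧
      (HypD (3 ^ h * n) (zN π e (y (β j))) (zN π e (y (α j))) P Q P' Q' ∨
        (h ≠ 1 ∧ HypX (3 ^ h * n) (zN π e (y (β j))) (zN π e (y (α j))) P Q P' Q')) := by
    intro j
    by_cases hβ : y (β j) ∈ V0 h n π p e r w0 c
    · obtain ⟨P, Q, P', Q', hs⟩ := sol hHNE hZA hZL hZT hn hh hβ (hT.mem (α j)) (hy0 _) (hy0 _)
      have hs' := SYK.swap hs
      exact ⟨P, -P', -Q, Q', hs', Or.inl ⟨hN0, hs', (hA _).1, (hA _).1, hL _ hβ,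
        fun σ hσ => ⟨hunr _ σ hσ, hunr _ σ hσ⟩, SYK.VN_le hSPP hn h⟩⟩
    · have hα : y (α j) ∈ V0 h n π p e r w0 c := (hT.wl j).resolve_right hβ
      obtain ⟨P, Q, P', Q', hs⟩ := sol hHNE hZA hZL hZT hn hh hα (hT.mem (β j)) (hy0 _) (hy0 _)
      exact ⟨P, Q, P', Q', hs, Or.inr ⟨fun h1 => hβ (V0_eq hVDIM h1 (hT.mem _)),
        ⟨hN0, hs, (hA _).1, (hA _).1, hL _ hα, (hA _).2.1, (hA _).2.2.1,
          fun σ hσ => ⟨hunr _ σ hσ, hunr _ σ hσ⟩, SYK.VN_le hSPP hn h⟩⟩⟩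
  choose P Q P' Q' hs hH using hpair
  refine ⟨P, Q, P', Q', ⟨?_, fun i => (hA i).2.2.1, hT.lt, hT.inj, hs⟩, hH⟩
  rintro d ⟨i, hi⟩ hd
  have h1 := hZI n m k π p e r f hn M y d hd
  have h2 := Fintype.linearIndependent_iff.1 hT.ind (fun i => (d i : ZMod 3)) h1 i
  exact hi ((ZMod.natCast_eq_zero_iff _ 3).1 h2)

end Pool.Agent.PTK


end

section

/-!
# PTK_MSF: existence of the solutions for the matrix of the minus part
-/

set_option autoImplicit false

open NumberField IsDedekindDomain Finset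
open scoped nonZeroDivisors Pointwise

namespace Pool.Agent.PTK

open Pool.Agent.Lib_helper18 Pool.Agent.Lib_helper18.Eis Pool.Agent.Lib_helper84.Cub
open Pool.Agent.PT Pool.Agent.PTE Pool.Agent.PT3 Pool.Agent.PTL Pool.Agent.PTN
open Pool.Agent.PT.EHYP

namespace MSF

variable {h n m k : ℕ} {π : Fin m → PP} {p e : Fin m → ℕ} {r f : Fin k → ℕ}
  {w0 : ZMod 3} {c : Fin m → ZMod 3}

/-- `zN π e y` as a product of primary elements if `y 0 = 0` -/
theorem zN_eq {y : Fin (m + 1) → ZMod 3} (hy0 : y 0 = 0) :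
    zN π e y = ∏ i, ((π i).1 ^ ((e i : ZMod 3) * y i.succ).val *
      conj (π i).1 ^ (2 * ((e i : ZMod 3) * y i.succ)).val) := by
  unfold zN
  rw [hy0, neg_zero, ZMod.val_zero, pow_zero, one_mul]

theorem prim (hn : NF n π p e r f) {y : Fin (m + 1) → ZMod 3} (hy0 : y 0 = 0) :
    Prim (zN π e y) ∧ (zN π e y).norm % 9 = 1 := by
  have hexp : ∀ a : ZMod 3, (a.val = 0 ∧ (2 * a).val = 0) ∨ a.val + (2 * a).val = 3 := by
    decide
  rw [zN_eq hy0]
  refine Finset.prod_induction _ (fun x => Prim x ∧ x.norm % 9 = 1) ?_ ?_ ?_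
  · rintro a b ⟨ha, ha'⟩ ⟨hb, hb'⟩
    refine ⟨ha.mul hb, ?_⟩
    rw [Eis.norm_mul, Int.mul_emod, ha', hb']
    norm_num
  · exact ⟨Eis.prim_one, by simp [norm_def]⟩
  · intro i _
    refine ⟨((ZL.prim_PP (π i)).pow _).mul ((ZL.prim_PP (π i)).conj.pow _), ?_⟩
    have h1 : (conj (π i).1).norm = p i := by
      rw [norm_conj, norm_eq hn]
    have hpw : ∀ (x : Eis) (k : ℕ), (x ^ k).norm = x.norm ^ k := by
      intro x k
      induction k with
      | zero => simp [norm_def]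
      | succ k ih => rw [pow_succ, Eis.norm_mul, ih, pow_succ]
    rw [Eis.norm_mul, hpw, hpw, h1, norm_eq hn, ← pow_add]
    rcases hexp ((e i : ZMod 3) * y i.succ) with ⟨h2, h3⟩ | h2
    · rw [h2, h3]
      norm_num
    · rw [h2]
      have h4 := hn.p1 i
      obtain ⟨c, hc⟩ : ∃ c : ℤ, (p i : ℤ) = 1 + 3 * c := ⟨(p i : ℤ) / 3, by omega⟩
      have h5 : (p i : ℤ) ^ 3 = 1 + 9 * (c + 3 * c ^ 2 + 3 * c ^ 3) := by
        rw [hc]
        ring
      rw [h5]
      omega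

theorem sl3 (hSPP : SPP) (hSSL : SSL) (hSCJ : SCJ) {y : Fin (m + 1) → ZMod 3} (hy0 : y 0 = 0) :
    sl (zN π e y) 3 = - ∑ i : Fin m, y i.succ * ((e i : ZMod 3) * sym (π i).1 3) := by
  have hcn : ∀ i, (conj (π i).1) ≠ 0 := fun i => (prime_conj (π i).2.1).ne_zero
  have hF := add3_sl hSSL ZL.three_ne
  rw [zN_eq hy0]
  obtain ⟨g, hg⟩ : ∃ g : Fin m → ZMod 3, g = fun i => (e i : ZMod 3) * y i.succ := ⟨_, rfl⟩
  have hgi : ∀ i, (e i : ZMod 3) * y i.succ = g i := fun i => by rw [hg]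
  simp only [hgi]
  have h1 : sl (∏ i, ((π i).1 ^ (g i).val * conj (π i).1 ^ (2 * g i).val)) 3 =
      ∑ i, sl ((π i).1 ^ (g i).val * conj (π i).1 ^ (2 * g i).val) 3 :=
    hF.prod Finset.univ
      (fun i => (π i).1 ^ (g i).val * conj (π i).1 ^ (2 * g i).val) (fun i _ =>
        mul_ne_zero (pow_ne_zero _ (π i).2.1.ne_zero) (pow_ne_zero _ (hcn i)))
  rw [h1]
  have h2 : ∀ i, sl ((π i).1 ^ (g i).val * conj (π i).1 ^ (2 * g i).val) 3 =
      - (g i * sym (π i).1 3) := by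
    intro i
    have h3 : sl ((π i).1 ^ (g i).val * conj (π i).1 ^ (2 * g i).val) 3 =
        sl ((π i).1 ^ (g i).val) 3 + sl (conj (π i).1 ^ (2 * g i).val) 3 :=
      hF ((π i).1 ^ (g i).val) (conj (π i).1 ^ (2 * g i).val)
        (pow_ne_zero _ (π i).2.1.ne_zero) (pow_ne_zero _ (hcn i))
    have h4 : sl ((π i).1 ^ (g i).val) 3 = ((g i).val : ZMod 3) * sl (π i).1 3 :=
      hF.pow (π i).2.1.ne_zero (g i).val
    have h5 : sl (conj (π i).1 ^ (2 * g i).val) 3 =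
        ((2 * g i).val : ZMod 3) * sl (conj (π i).1) 3 := hF.pow (hcn i) (2 * g i).val
    rw [h3, h4, h5, ZL.sl_three hSPP, ZL.sl_conj_three hSPP hSCJ, ZMod.natCast_zmod_val,
      ZMod.natCast_zmod_val]
    ring
  rw [Finset.sum_congr rfl fun i _ => h2 i, Finset.sum_neg_distrib]
  congr 1
  refine Finset.sum_congr rfl fun i _ => ?_
  rw [hg]
  ring

/-- the solution with a base prime to `w` outside `V0` -/
theorem sol2 (hHN2 : Stmt_HN2) (hZA : Stmt_ZA) (hZT : Stmt_ZT) (hSPP : SPP) (hSSL : SSL)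
    (hSREC : SREC) (hSCJ : SCJ) (hn : NF n π p e r f) (hh : h ≤ 2)
    {u y : Fin (m + 1) → ZMod 3} (hu : u ∈ VS h n π p e r w0 c)
    (hu1 : u ∉ V0 h n π p e r w0 c) (hu2 : u 0 = 0) (hy : y ∈ VS h n π p e r w0 c)
    (hu0 : u ≠ 0) (hy0 : y ≠ 0) :
    ∃ P Q P' Q' : Eis, SolE (zN π e u) (zN π e y) P Q P' Q' := by
  have hAy := hZA n m k π p e r f hn y
  have hAu := hZA n m k π p e r f hn u
  have hcy : ¬ ∃ c : Eis, c ^ 3 = zN π e y := fun h1 => hy0 (hAy.2.2.2.2.2.2.2.2.2 h1)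
  have hcu : ¬ ∃ c : Eis, c ^ 3 = zN π e u := fun h1 => hu0 (hAu.2.2.2.2.2.2.2.2.2 h1)
  have hT := hZT h n m k π p e r f w0 c hn hh u hu y hy
  have hP := prim hn hu2
  have hne : sl (zN π e u) lam ≠ 0 := by
    intro h0
    have h1 := ZL.sl_prim hSSL hSREC hP.1 hP.2
    rw [sl3 hSPP hSSL hSCJ hu2] at h1
    rw [hSREC.2.2.1 _ hP.1, ← h1] at h0
    apply hu1
    refine ⟨hu, hu2, ?_⟩
    have h3 := three_zero (∑ i : Fin m, u i.succ * ((e i : ZMod 3) * sym (π i).1 3))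
    linear_combination h0 + h3
  exact hHN2 (zN π e u) (zN π e y) hAu.1 hP.1 hne hcu hAu.2.2.2.2.1 hAy.1 hcy hT.1 hT.2

end MSF

open _root_.Pool.Agent.PTK.MSF in
theorem MSF_thm (hHNE : Stmt_HNE) (hHN2 : Stmt_HN2) (hZA : Stmt_ZA) (hZI : Stmt_ZI)
    (hZL : Stmt_ZL) (hZT : Stmt_ZT) (hSSL : SSL) (hSREC : SREC) (hSCJ : SCJ)
    (hSPP : SPP) : Stmt_MSF := by
  intro h n m k π p e r f w0 c hn hh l y hy
  have hy0 : ∀ i, y i ≠ 0 := fun i => hy.ind.ne_zero i
  have hA := fun i => hZA n m k π p e r f hn (y i)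
  have hpair : ∀ i j : Fin l, ∃ P Q P' Q' : Eis,
      i < j → SolE (zN π e (y i)) (zN π e (y j)) P Q P' Q' := by
    intro i j
    by_cases hij : i < j
    · by_cases hi : y i ∈ V0 h n π p e r w0 c
      · obtain ⟨P, Q, P', Q', hs⟩ :=
          MSY.sol hHNE hZA hZL hZT hn hh hi (hy.mem j) (hy0 _) (hy0 _)
        exact ⟨P, Q, P', Q', fun _ => hs⟩
      · by_cases hj : y j ∈ V0 h n π p e r w0 c
        · obtain ⟨P, Q, P', Q', hs⟩ :=
            MSY.sol hHNE hZA hZL hZT hn hh hj (hy.mem i) (hy0 _) (hy0 _)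
          exact ⟨P, -P', -Q, Q', fun _ => SYK.swap hs⟩
        · have h0 : y i 0 = 0 := by
            rcases hy.wd i j hij with h1 | h1 | h1
            · exact absurd h1 hi
            · exact absurd h1 hj
            · exact h1
          obtain ⟨P, Q, P', Q', hs⟩ := sol2 hHN2 hZA hZT hSPP hSSL hSREC hSCJ hn hh
            (hy.mem i) hi h0 (hy.mem j) (hy0 _) (hy0 _)
          exact ⟨P, Q, P', Q', fun _ => hs⟩
    · exact ⟨0, 0, 0, 0, fun h1 => absurd h1 hij⟩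
  choose P Q P' Q' hs using hpair
  refine ⟨fun a b => if a < b then P a b else P b a,
    fun a b => if a < b then Q a b else - P' b a,
    fun a b => if a < b then P' a b else - Q b a,
    fun a b => if a < b then Q' a b else Q' b a, ⟨?_, ?_, ?_, ?_⟩⟩
  · rintro d ⟨i, hi⟩ hd
    have h1 := hZI n m k π p e r f hn l y d hd
    have h2 := Fintype.linearIndependent_iff.1 hy.ind (fun i => (d i : ZMod 3)) h1 i
    exact hi ((ZMod.natCast_eq_zero_iff _ 3).1 h2)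
  · exact fun i => ⟨(hA i).2.1, (hA i).2.2.1⟩
  · intro j i hji
    by_cases h1 : j < i
    · simp only [h1, if_true]
      exact hs j i h1
    · have h2 : i < j := lt_of_le_of_ne (not_lt.1 h1) (Ne.symm hji)
      simp only [h1, if_false]
      exact SYK.swap (hs i j h2)
  · intro j i hji
    by_cases h1 : j < i
    · have h2 : ¬ i < j := not_lt.2 h1.le
      refine ⟨?_, ?_, ?_, ?_⟩ <;> simp [h1, h2]
    · have h2 : i < j := lt_of_le_of_ne (not_lt.1 h1) (Ne.symm hji)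
      refine ⟨?_, ?_, ?_, ?_⟩ <;> simp [h1, h2]

end Pool.Agent.PTK


end

section

/-!
# Full law for prime twists, PTY: the point of `PTX` has the property `GoodW` when `B` is a local cube
-/

set_option autoImplicit false

open NumberField IsDedekindDomain Finset
open scoped nonZeroDivisors Pointwise

namespace Pool.Agent.PTK

open Pool.Agent.Lib_helper18 Pool.Agent.Lib_helper18.Eis Pool.Agent.Lib_helper84.Cub
open Pool.Agent.PT Pool.Agent.PTE Pool.Agent.PT3 Pool.Agent.PTL Pool.Agent.PTN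

namespace PTY

/-! ### Local cubes -/

/-- a rational integer which is a local cube in `Z[w]` -/
theorem lvw (hSSL : SSL) (hSLC : SLC) (hLCL : LCL) (hLCI : Stmt_LCI) {B : ℤ} (hB : B ≠ 0)
    (h : LCE lam (B : Eis)) : lv B = 0 ∧ lw B = 0 := by
  have hB' := PTK_PT.int_ne hB
  constructor
  · obtain ⟨r, hr⟩ := h (V lam (B : Eis) + 1)
    obtain ⟨h1, h2⟩ := PTK_PTX.V_close hB' hr
    have hr0 : r ≠ 0 := by
      rintro rfl
      exact h1 (by rw [zero_pow (by norm_num)])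
    rw [V_pow prime_lam hr0, PTK_PTX.V_lam_int hB] at h2
    have h3 : 3 ∣ padicValInt 3 B := by omega
    unfold lv
    exact (ZMod.natCast_eq_zero_iff _ _).2 h3
  · have h1 := hLCI.2.2 lam sl 4 (B : Eis) w hSLC h hB' PTK_PTX.w_ne0
    have h2 := hLCL.2.2.2.2.1 B hB
    have h3 := hSSL.2.1 (B : Eis) w hB' PTK_PTX.w_ne0
    rw [h1, neg_zero] at h3
    rw [h3] at h2
    exact neg_eq_zero.1 h2.symm

/-- a cube times a cube -/
theorem cube_of {B z t : ℤ} (hz : z ≠ 0) (h : t ^ 3 = B * z ^ 3) : ∃ n : ℤ, n ^ 3 = B := by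
  have h1 : z ^ 3 ∣ t ^ 3 := ⟨B, by rw [h]; ring⟩
  obtain ⟨n, hn⟩ := (Int.pow_dvd_pow_iff (by norm_num)).1 h1
  refine ⟨n, ?_⟩
  have h2 : z ^ 3 * n ^ 3 = z ^ 3 * B := by
    rw [← mul_pow, ← hn, h]
    ring
  exact mul_left_cancel₀ (pow_ne_zero 3 hz) h2

theorem unit_of_coprime {x : ℤ} (h : IsCoprime x x) : x = 1 ∨ x = -1 :=
  Int.isUnit_iff.1 (isCoprime_self.1 h)

/-- `± 2` is not a cube modulo `9` -/
theorem no_two {s c : ℤ} (hc : c = 2 ∨ c = -2) : ¬ (9 : ℤ) ∣ s ^ 3 - c := by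
  intro h
  have h1 : ((s ^ 3 - c : ℤ) : ZMod 9) = 0 := (ZMod.intCast_zmod_eq_zero_iff_dvd _ 9).2 h
  push_cast at h1
  generalize (s : ZMod 9) = t at h1
  rcases hc with rfl | rfl
  · revert t
    decide
  · revert t
    decide

/-! ### Symbols -/

theorem addr (hSSL : SSL) {z : Eis} (hz : z ≠ 0) : EHYP.Add3 fun b => sl z b := by
  intro a b ha hb
  have h1 := hSSL.1 a b z ha hb hz
  simp only
  rw [hSSL.2.1 z (a * b) hz (mul_ne_zero ha hb), hSSL.2.1 z a hz ha, hSSL.2.1 z b hz hb] at h1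
  linear_combination (-1 : ZMod 3) * h1

/-- cubes and signs do not matter in the second variable -/
theorem cube_r (hSSL : SSL) {z a c : Eis} (hz : z ≠ 0) (ha : a ≠ 0) (hc : c ≠ 0) :
    sl z (c ^ 3 * a) = sl z a ∧ sl z (-(c ^ 3 * a)) = sl z a := by
  have hA := addr hSSL hz
  have h1 := hA _ _ (pow_ne_zero 3 hc) ha
  have h2 := hA.pow hc 3
  have h3 := EHYP.three_zero (sl z c)
  have h4 := hA (-1) (c ^ 3 * a) (by simp) (mul_ne_zero (pow_ne_zero 3 hc) ha)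
  have h5 := hA.neg_one
  simp only at h1 h2 h4 h5
  push_cast at h2
  rw [h2, h3, zero_add] at h1
  rw [neg_one_mul, h5, zero_add, h1] at h4
  exact ⟨h1, h4⟩

/-- cubes do not matter in the first variable -/
theorem cube_l (hSSL : SSL) {z a c : Eis} (hz : z ≠ 0) (ha : a ≠ 0) (hc : c ≠ 0) :
    sl (a * c ^ 3) z = sl a z := by
  have hA := EHYP.add3_sl hSSL hz
  have h1 := hA _ _ ha (pow_ne_zero 3 hc)
  have h2 := hA.pow hc 3
  have h3 := EHYP.three_zero (sl c z)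
  simp only at h1 h2
  push_cast at h2
  rw [h2, h3, add_zero] at h1
  exact h1

/-- the bracket of the local term of the point -/
theorem bracket (hSSL : SSL) {g' K L1 L2 D1 D2 n m N n0 : Eis}
    (hg' : g' ≠ 0) (hK : K ≠ 0) (hL1 : L1 ≠ 0) (hL2 : L2 ≠ 0) (hn : n ≠ 0) (hm : m ≠ 0)
    (e1 : D1 = g' ^ 2 * (w * L2)) (e2 : D2 = g' ^ 2 * (w ^ 2 * L1))
    (eN : ∀ c : Eis, c ≠ 0 → sl c n = sl c N) (em : ∀ c : Eis, c ≠ 0 → sl c m = sl c n0)
    (h : (sl K N + sl L2 N - sl L1 N) - (sl K n0 + sl L2 n0 - sl L1 n0) = 0) :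
    sl D1 n - sl D2 n - sl D1 m + sl D2 m =
      sl w n0 + sl K n0 - sl w n - sl K n := by
  have hw := PTK_PTX.w_ne0
  have hgg : g' ^ 2 ≠ 0 := pow_ne_zero 2 hg'
  have key : ∀ c : Eis, c ≠ 0 → sl D1 c - sl D2 c = sl L2 c - sl L1 c - sl w c := by
    intro c hc
    have hA := EHYP.add3_sl hSSL hc
    have f1 := hA _ _ hgg (mul_ne_zero hw hL2)
    have f2 := hA _ _ hw hL2
    have f3 := hA _ _ hgg (mul_ne_zero (pow_ne_zero 2 hw) hL1)
    have f4 := hA _ _ (pow_ne_zero 2 hw) hL1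
    have f5 := hA.pow hw 2
    simp only at f1 f2 f3 f4 f5
    push_cast at f5
    rw [e1, e2, f1, f2, f3, f4, f5]
    ring
  have k1 := key n hn
  have k2 := key m hm
  have q1 := eN _ hK
  have q2 := eN _ hL1
  have q3 := eN _ hL2
  have q4 := em _ hw
  have q5 := em _ hL1
  have q6 := em _ hL2
  linear_combination k1 - k2 + h - q2 + q3 + q4 + q5 - q6 + q1

end PTY

open _root_.Pool.Agent.PTK.PTY in
theorem PTY_thm (hKN1 : Stmt_KN1) (hLKN : Stmt_LKN) (hLMC : Stmt_LMC) (hLCI : Stmt_LCI)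
    (hLRR : Stmt_LRR) (hSSL : SSL) (hSLC : SLC) (hSCJ : SCJ) (hLCL : LCL) : Stmt_PTY := by
  intro B x hB hBc hBL hx hcube h
  obtain ⟨hlv, hlw⟩ := lvw hSSL hSLC hLCL hLCI hB hBL
  have hlv1 : lv B ≠ 1 := by rw [hlv]; decide
  obtain ⟨ζ, g, g', hS, hg, hg', e⟩ := h
  rcases hS with rfl | ⟨x0, y0, z0, hco, hz, e0, hζ⟩
  · exfalso
    rw [one_mul] at e
    obtain ⟨t, ht⟩ := (IsIntegrallyClosed.pow_dvd_pow_iff (three_ne_zero)).1
      (Dvd.intro_left x e.symm : g' ^ 3 ∣ g ^ 3)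
    rw [ht, mul_pow, mul_comm] at e
    exact hcube ⟨t, mul_right_cancel₀ (pow_ne_zero 3 hg') e⟩
  · have hB' := PTK_PT.int_ne hB
    have hz' := PTK_PT.int_ne hz
    have e1 : (x0 : Eis) ^ 3 + (y0 : Eis) ^ 3 = (B : Eis) * (z0 : Eis) ^ 3 := by
      exact_mod_cast congrArg (fun n : ℤ => (n : Eis)) e0
    have hw := w_rel
    have hw3 := w_cube
    have n3 := PTK_PTX.w_ne0
    obtain ⟨a0, ha0⟩ : ∃ a0 : Eis, a0 = x0 + y0 := ⟨_, rfl⟩
    obtain ⟨a1, ha1⟩ : ∃ a1 : Eis, a1 = w * (x0 + w * y0) := ⟨_, rfl⟩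
    obtain ⟨a2, ha2⟩ : ∃ a2 : Eis, a2 = w ^ 2 * (x0 + w ^ 2 * y0) := ⟨_, rfl⟩
    have hc : conj a2 = a1 := by
      rw [ha2, ha1]
      simp only [map_mul, map_add, map_pow, conj_intCast, conj_w]
      linear_combination (w * (x0 : Eis) + (w ^ 5 + w ^ 2) * (y0 : Eis)) * hw3
    have hs : a0 + a1 + a2 = 0 := by
      rw [ha0, ha1, ha2]
      linear_combination ((x0 : Eis) + (w ^ 2 - w + 1) * y0) * hw
    have hp : a0 * a1 * a2 = (B : Eis) * (z0 : Eis) ^ 3 := by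
      rw [ha0, ha1, ha2, ← e1]
      linear_combination (((x0 : Eis) + y0) * ((x0 : Eis) + w * y0) * ((x0 : Eis) + w ^ 2 * y0)) * hw3 +
        ((x0 : Eis) ^ 2 * y0 + w * (x0 : Eis) * y0 ^ 2 + (w - 1) * (y0 : Eis) ^ 3) * hw
    have hζ' : ζ = a1 * a2 ^ 2 := by
      rw [hζ, ha1, ha2]
      linear_combination (-(w ^ 2) * ((x0 : Eis) + w * y0) * ((x0 : Eis) + w ^ 2 * y0) ^ 2) * hw3
    have hn : a0 * a1 * a2 ≠ 0 := by
      rw [hp]
      exact mul_ne_zero hB' (pow_ne_zero 3 hz')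
    have na : a2 ≠ 0 := right_ne_zero_of_mul hn
    have na1 : a1 ≠ 0 := right_ne_zero_of_mul (left_ne_zero_of_mul hn)
    have na0 : a0 ≠ 0 := left_ne_zero_of_mul (left_ne_zero_of_mul hn)
    have ng : g' ^ 2 ≠ 0 := pow_ne_zero 2 hg'
    have hX0 : g' ^ 2 * g * a2 ≠ 0 := mul_ne_zero (mul_ne_zero ng hg) na
    have hY0 : g' ^ 3 ≠ 0 := pow_ne_zero 3 hg'
    refine ⟨g' ^ 2 * g * a2, g' ^ 3, ⟨hX0,
      hY0, g' * g ^ 2 * (-(z0 : Eis) * a2),
      mul_ne_zero (mul_ne_zero hg' (pow_ne_zero 2 hg)) (mul_ne_zero (neg_ne_zero.2 hz') na), ?_⟩, ?_, ?_⟩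
    · have e3 : ζ * (a2 ^ 3 + ζ) = (B : Eis) * (-(z0 : Eis) * a2) ^ 3 := by
        rw [hζ']
        linear_combination (a1 * a2 ^ 4) * hs - a2 ^ 3 * hp
      linear_combination (g' ^ 3 * g ^ 6) * e3 -
        (g' ^ 3 * g ^ 3 * a2 ^ 3 + g' ^ 3 * (x * g' ^ 3 + ζ * g ^ 3)) * e
    · intro b hb _ hcb hbB
      obtain ⟨N0, hN⟩ := PTK_PTX.key hLRR hSSL hSLC hSCJ hLCL hB hlv1 hz hc hs hp hg hb hcb hbB
      refine ⟨N0, fun ξ hξ => ?_⟩
      obtain ⟨m1, m2, m3⟩ := hN (g' * ξ) (by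
        have e4 : (g' * ξ) ^ 3 - a1 * a2 ^ 2 * g ^ 3 = g' ^ 3 * (ξ ^ 3 - x) := by
          rw [← hζ', e]
          ring
        rw [e4]
        exact Dvd.dvd.mul_left hξ _)
      have f : ∀ i : ℕ, LfE (g' ^ 2 * g * a2) (g' ^ 3) i ξ = g' ^ 2 * (g * a2 + w ^ i * (g' * ξ)) := by
        intro i
        unfold LfE
        ring
      rw [f, f, pow_one, hSSL.1 _ _ _ ng m1 hb, hSSL.1 _ _ _ ng m2 hb, m3]
    · intro b p q p' q' hb hMC hSol hD
      -- integers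
      have hBz : B * z0 ^ 3 ≠ 0 := mul_ne_zero hB (pow_ne_zero 3 hz)
      have hnc : ¬ ∃ n : ℤ, n ^ 3 = B * z0 ^ 3 := by
        rintro ⟨t, ht⟩
        exact hBc (cube_of hz ht)
      have hx0 : x0 ≠ 0 := by
        rintro rfl
        exact hBc (cube_of hz (t := y0) (by rw [← e0]; ring))
      have hy0 : y0 ≠ 0 := by
        rintro rfl
        exact hBc (cube_of hz (t := x0) (by rw [← e0]; ring))
      have hs0 : x0 + y0 ≠ 0 := by
        intro h0
        apply hBz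
        rw [← e0]
        linear_combination (x0 ^ 2 - x0 * y0 + y0 ^ 2) * h0
      have hlvz : lv (x0 ^ 3 + y0 ^ 3) = 0 := by
        rw [e0, (hLCL.2.1 _ _ hB (pow_ne_zero 3 hz)).1, (HYPT.lv_pow hLCL hz 3).1, hlv, zero_add]
        exact EHYP.three_zero _
      have hlwz : lw (x0 ^ 3 + y0 ^ 3) = 0 := by
        rw [e0, (hLCL.2.1 _ _ hB (pow_ne_zero 3 hz)).2, (HYPT.lv_pow hLCL hz 3).2, hlw, zero_add]
        exact EHYP.three_zero _
      have hLCz : LC lam (x0 ^ 3 + y0 ^ 3) :=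
        (hLCL.1 _ (by rw [e0]; exact hBz)).2 ⟨hlvz, hlwz⟩
      have hroot : ∀ k : ℕ, ∃ s : ℤ, (3 : ℤ) ^ k ∣ s ^ 3 - (x0 ^ 3 + y0 ^ 3) := by
        intro k
        obtain ⟨s, hs'⟩ := hLCz (2 * k)
        refine ⟨s, PTK_PTX.three_dvd_of_lam ?_⟩
        push_cast at hs' ⊢
        exact hs'
      have hxy : x0 ≠ y0 := by
        rintro rfl
        obtain ⟨s, hs'⟩ := hroot 2
        rcases unit_of_coprime hco with rfl | rfl
        · exact no_two (s := s) (c := 2) (Or.inl rfl) (by norm_num at hs' ⊢; exact hs')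
        · exact no_two (s := s) (c := -2) (Or.inr rfl) (by norm_num at hs' ⊢; exact hs')
      -- the forms
      have ha1' : a1 = w * (x0 : Eis) + w ^ 2 * (y0 : Eis) := by rw [ha1]; ring
      have ha2' : a2 = w ^ 2 * (x0 : Eis) + w * (y0 : Eis) := by
        rw [ha2]
        linear_combination (w * (y0 : Eis)) * hw3
      have hn1 : p ^ 3 - x * p' ^ 3 ≠ 0 := hSol.n2
      have hrel : p ^ 3 - x * p' ^ 3 = b * (x * q' ^ 3 - q ^ 3) := by
        linear_combination hSol.eq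
      have hn2 : x * q' ^ 3 - q ^ 3 ≠ 0 := by
        intro h0
        rw [h0, mul_zero] at hrel
        exact hn1 hrel
      have hm : (g' ^ 2 * g * a2) ^ 3 + x * (g' ^ 3) ^ 3 = -((g' ^ 2 * g) ^ 3 * (a0 * a2 ^ 2)) := by
        rw [hζ'] at e
        linear_combination (-(g' ^ 6)) * e + (g' ^ 6 * g ^ 3 * a2 ^ 2) * hs
      have hn0 : a0 * a2 ^ 2 ≠ 0 := mul_ne_zero na0 (pow_ne_zero 2 na)
      have hgg : g' ^ 2 * g ≠ 0 := mul_ne_zero ng hg
      have hm0 : (g' ^ 2 * g * a2) ^ 3 + x * (g' ^ 3) ^ 3 ≠ 0 := by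
        rw [hm]
        exact neg_ne_zero.2 (mul_ne_zero (pow_ne_zero 3 hgg) hn0)
      have em : ∀ c : Eis, c ≠ 0 → sl c ((g' ^ 2 * g * a2) ^ 3 + x * (g' ^ 3) ^ 3) =
          sl c (a0 * a2 ^ 2) := by
        intro c hc0
        rw [hm]
        exact (cube_r hSSL hc0 hn0 hgg).2
      have fD1 : ∀ u v : Eis, DfE (g' ^ 2 * g * a2) (g' ^ 3) u v 1 =
          g' ^ 2 * (w * (v * g' - w ^ 2 * a2 * (-(g * u)))) := by
        intro u v
        unfold DfE
        linear_combination (-(g' ^ 2 * a2 * g * u)) * hw3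
      have fD2 : ∀ u v : Eis, DfE (g' ^ 2 * g * a2) (g' ^ 3) u v 2 =
          g' ^ 2 * (w ^ 2 * (v * g' - w * a2 * (-(g * u)))) := by
        intro u v
        unfold DfE
        linear_combination (-(g' ^ 2 * a2 * g * u)) * hw3
      have fN : ∀ u v : Eis, (v * g') ^ 3 + a1 * a2 ^ 2 * (-(g * u)) ^ 3 =
          g' ^ 3 * (v ^ 3 - x * u ^ 3) := by
        intro u v
        rw [hζ'] at e
        linear_combination (-(u ^ 3)) * e
      -- the first pair
      have l2 : p * g' - w ^ 2 * a2 * (-(g * p')) ≠ 0 := by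
        intro h0
        apply hD.d1
        rw [fD1, h0, mul_zero, mul_zero]
      have l1 : p * g' - w * a2 * (-(g * p')) ≠ 0 := by
        intro h0
        apply hD.d2
        rw [fD2, h0, mul_zero, mul_zero]
      have l4 : q * g' - w ^ 2 * a2 * (-(g * q')) ≠ 0 := by
        intro h0
        apply hD.d3
        rw [fD1, h0, mul_zero, mul_zero]
      have l3 : q * g' - w * a2 * (-(g * q')) ≠ 0 := by
        intro h0
        apply hD.d4
        rw [fD2, h0, mul_zero, mul_zero]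
      have hN1 : (p * g') ^ 3 + a1 * a2 ^ 2 * (-(g * p')) ^ 3 ≠ 0 := by
        rw [fN]
        exact mul_ne_zero (pow_ne_zero 3 hg') hn1
      have hn2' : q ^ 3 - x * q' ^ 3 ≠ 0 := by
        intro h0
        apply hn2
        linear_combination -h0
      have hN2 : (q * g') ^ 3 + a1 * a2 ^ 2 * (-(g * q')) ^ 3 ≠ 0 := by
        rw [fN]
        exact mul_ne_zero (pow_ne_zero 3 hg') hn2'
      -- the approximation of the cube root
      obtain ⟨M1, hM1⟩ := hKN1 x0 y0 (B * z0 ^ 3) a0 a1 a2 e0 hBz hnc hxy ha0 ha1' ha2'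
        (p * g') (-(g * p')) hN1 l1 l2
      obtain ⟨M2, hM2⟩ := hKN1 x0 y0 (B * z0 ^ 3) a0 a1 a2 e0 hBz hnc hxy ha0 ha1' ha2'
        (q * g') (-(g * q')) hN2 l3 l4
      obtain ⟨M3, hM3⟩ := hLKN x0 y0 hco hx0 hy0 hs0 hlvz hlwz
      obtain ⟨s, hs'⟩ := hroot (M1 + M2 + M3)
      have hs1 : (3 : ℤ) ^ M1 ∣ s ^ 3 - B * z0 ^ 3 := by
        rw [← e0]
        exact (pow_dvd_pow _ (by omega)).trans hs'
      have hs2 : (3 : ℤ) ^ M2 ∣ s ^ 3 - B * z0 ^ 3 := by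
        rw [← e0]
        exact (pow_dvd_pow _ (by omega)).trans hs'
      have hs3 : (3 : ℤ) ^ M3 ∣ s ^ 3 - (x0 ^ 3 + y0 ^ 3) :=
        (pow_dvd_pow _ (by omega)).trans hs'
      obtain ⟨hsy, k1⟩ := hM1 s hs1
      obtain ⟨-, k2⟩ := hM2 s hs2
      obtain ⟨j1, j2⟩ := hM3 s hs3 hsy
      have hsy' : ((s : Eis) - (y0 : Eis)) ≠ 0 := by
        have := PTK_PT.int_ne (sub_ne_zero.2 hsy)
        push_cast at this
        exact this
      obtain ⟨K, hK⟩ : ∃ K : Eis, K = w ^ 2 * lam * ((s : Eis) - y0) * a0 * a1 ^ 2 * a2 ^ 2 := ⟨_, rfl⟩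
      rw [← hK] at k1 k2
      have hK0 : K ≠ 0 := by
        rw [hK]
        exact mul_ne_zero (mul_ne_zero (mul_ne_zero (mul_ne_zero (mul_ne_zero
          (pow_ne_zero 2 n3) prime_lam.ne_zero) hsy') na0) (pow_ne_zero 2 na1)) (pow_ne_zero 2 na)
      have b1 := bracket hSSL hg' hK0 l1 l2 hn1 hm0
        (fD1 p' p) (fD2 p' p) (fun c hc0 => by
          rw [fN]
          exact ((cube_r hSSL hc0 hn1 hg').1).symm) em k1
      have b2 := bracket hSSL hg' hK0 l3 l4 hn2 hm0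
        (fD1 q' q) (fD2 q' q) (fun c hc0 => by
          rw [fN]
          have h1 := (cube_r hSSL hc0 hn2 hg').2
          have h2 : -(g' ^ 3 * (x * q' ^ 3 - q ^ 3)) = g' ^ 3 * (q ^ 3 - x * q' ^ 3) := by ring
          rw [h2] at h1
          exact h1.symm) em k2
      -- the value
      obtain ⟨wb, -, hint⟩ := hLMC b hb hMC
      have c1 := addr hSSL n3 b (x * q' ^ 3 - q ^ 3) hb hn2
      have c2 := addr hSSL hK0 b (x * q' ^ 3 - q ^ 3) hb hn2
      simp only at c1 c2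
      rw [← hrel] at c1 c2
      have c3 := hSSL.2.1 K b hK0 hb
      have hSVE : SVE sl x p q p' q' (g' ^ 2 * g * a2) (g' ^ 3) = sl b K := by
        unfold SVE
        rw [b1, b2]
        linear_combination (-1 : ZMod 3) * c1 - c2 - c3 - wb
      -- the rational integer
      obtain ⟨k, hk⟩ : ∃ k : ℤ, k = 9 * (s - y0) * (x0 + y0) * (x0 ^ 2 - x0 * y0 + y0 ^ 2) ^ 2 := ⟨_, rfl⟩
      rw [← hk] at j1 j2
      have h12 : a1 * a2 = (x0 : Eis) ^ 2 - x0 * y0 + (y0 : Eis) ^ 2 := by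
        rw [ha1, ha2]
        linear_combination (((x0 : Eis) + w * y0) * ((x0 : Eis) + w ^ 2 * y0) + (y0 : Eis) ^ 2) * hw3 +
          ((x0 : Eis) * y0) * hw
      have hkK : (k : Eis) = K * (w * (w * lam ^ 3)) := by
        have h9 : (9 : Eis) = w * lam ^ 4 := by decide
        rw [hk, hK]
        push_cast
        rw [h9, ← h12, ← ha0]
        linear_combination (-(w * lam ^ 4 * ((s : Eis) - y0) * a0 * (a1 * a2) ^ 2)) * hw3
      have hk0 : k ≠ 0 := by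
        intro h0
        rw [h0] at hkK
        have h1 : K * (w * (w * lam ^ 3)) ≠ 0 := mul_ne_zero hK0 (mul_ne_zero n3
          (mul_ne_zero n3 (pow_ne_zero 3 prime_lam.ne_zero)))
        apply h1
        rw [← hkK]
        push_cast
        rfl
      have hA := addr hSSL hb
      have d1 := hA K (w * (w * lam ^ 3)) hK0 (mul_ne_zero n3
        (mul_ne_zero n3 (pow_ne_zero 3 prime_lam.ne_zero)))
      have d2 := hA w (w * lam ^ 3) n3 (mul_ne_zero n3 (pow_ne_zero 3 prime_lam.ne_zero))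
      have d3 := hA w (lam ^ 3) n3 (pow_ne_zero 3 prime_lam.ne_zero)
      have d4 := hA.pow prime_lam.ne_zero 3
      have d5 := hSSL.2.1 w b n3 hb
      have d6 := EHYP.three_zero (sl b lam)
      simp only at d1 d2 d3 d4
      push_cast at d4
      rw [wb, neg_zero] at d5
      have d7 : sl b K = sl b (k : Eis) := by
        rw [hkK, d1, d2, d3, d4, d5, d6]
        ring
      -- the class of `x`
      have hζ0 : ζ ≠ 0 := by
        rw [hζ']
        exact mul_ne_zero na1 (pow_ne_zero 2 na)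
      have hζx : ∀ c : Eis, c ≠ 0 → sl ζ c = sl x c := by
        intro c hc0
        rw [← cube_l hSSL hc0 hζ0 hg, e, cube_l hSSL hc0 hx hg']
      have k3 : (3 : Eis) ≠ 0 := by
        have := PTK_PT.int_ne (n := 3) (by norm_num)
        push_cast at this
        exact this
      have k4 : (4 : Eis) ≠ 0 := by
        have := PTK_PT.int_ne (n := 4) (by norm_num)
        push_cast at this
        exact this
      rw [← hζ] at j1 j2
      rw [hSVE, d7, hint k hk0, j1, j2, hζx 4 k4, hζx 3 k3]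

end Pool.Agent.PTK


end
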