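import Mathlib
import Pool.Agent.PTDM.C27
import Pool.Agent.PTDM.C28
import Pool.Agent.PTDM.C29
import Pool.Agent.PTDM.C40
import Pool.Agent.PTDM.C42
import Pool.Agent.PTDM.C45
import Pool.Agent.PTDM.C46
import Pool.Agent.PTKW.C01
import Pool.Agent.PTKW.C02
import Pool.Agent.PTKW.C04

/-! Parts: PTKX.DCKU, PTKX.DP4U, PTKX.DE1, PTKX.DNS, PTKX.DNS1, PTKX.DX4, PTKX.DXL, PTKX.IIAG, PTKX.MD2, PTKX.MTL, PTKX.NM2, PTKX.PLE, PTKX.S1G, PTKX.UPA, PTKX.WGR, PTKX.WGU -/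

section

/-!
# PTK_DCKU: the relation for the Frobenius invariant of `Q`, `Q = 1 (mod 3)`
-/

set_option autoImplicit false

namespace Pool.Agent.PTK

open Pool.Agent.Lib_helper18 Pool.Agent.Lib_helper18.Eis Pool.Agent.Lib_helper84.Cub
open Pool.Agent.PT

namespace DCKU

/-- a place above a split prime is not associated to its conjugate -/
lemma not_assoc (hSPP : SPP) {ρ : PP} {Q : ℕ} (hQ : Q.Prime)
    (hρ : (Q : Eis) = ρ.1 * conj ρ.1) : ¬ Associated ρ.1 (conj ρ.1) := by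
  obtain ⟨l, hl, ⟨-, h2⟩ | ⟨-, -, -, h3⟩⟩ := hSPP.2.2.2.2.2 ρ
  · exfalso
    rw [mul_conj, h2, norm_natCast] at hρ
    have h4 : ((Q : ℤ) : Eis) = (((l : ℤ) ^ 2 : ℤ) : Eis) := by
      rw [Int.cast_natCast]
      exact hρ
    have h5 := congrArg Eis.re h4
    rw [intCast_re, intCast_re] at h5
    have h6 : Q = l ^ 2 := by exact_mod_cast h5
    rw [h6] at hQ
    exact Nat.Prime.not_prime_pow (le_refl 2) hQ
  · exact h3

end DCKU

open DPA DCK _root_.Pool.Agent.PTK.DCKU in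
/-- PTK_DCKU. -/
theorem DCKU_thm (hSPP : SPP) (hDP1 : Stmt_DP1) (hDP2 : Stmt_DP2) (hDP3 : Stmt_DP3)
    (hDP4U : Stmt_DP4U) (hSVF : Stmt_SVF) : Stmt_DCKU := by
  intro N b x p q p' q' HD
  have hn1 := HD.sol.n1
  have hn2 := SolE_n1' HD.sol
  obtain ⟨m1, hm1⟩ : ∃ m : ℕ, m = (p ^ 3 + x * q ^ 3).norm.natAbs := ⟨_, rfl⟩
  obtain ⟨m2, hm2⟩ : ∃ m : ℕ, m = (p' ^ 3 + x * q' ^ 3).norm.natAbs := ⟨_, rfl⟩
  have hm1d : p ^ 3 + x * q ^ 3 ∣ (m1 : Eis) := by rw [hm1]; exact dvd_natAbs_norm _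
  have hm2d : p' ^ 3 + x * q' ^ 3 ∣ (m2 : Eis) := by rw [hm2]; exact dvd_natAbs_norm _
  have hm1p : 0 < m1 := by
    rw [hm1]
    exact Int.natAbs_pos.2 (norm_pos hn1).ne'
  have hm2p : 0 < m2 := by
    rw [hm2]
    exact Int.natAbs_pos.2 (norm_pos hn2).ne'
  obtain ⟨M, hMdef⟩ : ∃ M : ℕ, M = N * m1 * m2 := ⟨_, rfl⟩
  have hMp : 0 < M := by
    rw [hMdef]
    exact Nat.mul_pos (Nat.mul_pos HD.N0 hm1p) hm2p
  have hMe : (M : Eis) = (N : Eis) * (m1 : Eis) * (m2 : Eis) := by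
    rw [hMdef]
    push_cast
    ring
  have hM0 : (M : Eis) ≠ 0 := nat_ne hMp.ne'
  have dN : (N : Eis) ∣ (M : Eis) := by
    rw [hMe, mul_assoc]
    exact Dvd.intro _ rfl
  have d1 : p ^ 3 + x * q ^ 3 ∣ (M : Eis) := by
    rw [hMe]
    exact dvd_mul_of_dvd_left (dvd_mul_of_dvd_right hm1d _) _
  have d2 : p' ^ 3 + x * q' ^ 3 ∣ (M : Eis) := by
    rw [hMe]
    exact dvd_mul_of_dvd_right hm2d _
  have hfin := hSPP.2.2.1 (M : Eis) hM0
  refine ⟨9 * M, by omega, ?_⟩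
  intro f hf0 hf
  have h9 : 9 ∣ f := (Dvd.intro _ rfl).trans hf
  have hf1 : 1 < f := by
    have := Nat.le_of_dvd hf0 h9
    omega
  have hMf : M ∣ f := (Dvd.intro_left 9 rfl).trans hf
  have hMfe : (M : Eis) ∣ (f : Eis) := by
    obtain ⟨k, hk⟩ := hMf
    rw [hk]
    push_cast
    exact Dvd.intro _ rfl
  obtain ⟨C₀, Φ₀, H₀⟩ := hDP2 N b x p q p' q' HD f hf1 h9
  have hpl : ∀ π : PP, ∃ (c : ZMod 3) (Φ : (ZMod f)ˣ →* Multiplicative (ZMod 3)),
      π.1 ∣ (M : Eis) → ∀ (E Q : ℕ) (hQ : Q.Coprime f) (X Y : Eis),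
        HypP N b x p q p' q' E Q X Y →
        SVE (tm π.1) x p (-p') (-q) q' X Y = c + E * (Φ (ZMod.unitOfCoprime Q hQ)).toAdd := by
    intro π
    by_cases hπM : π.1 ∣ (M : Eis)
    · obtain ⟨C, Φ, H⟩ := hDP1 N b x p q p' q' HD π f hf1 (hπM.trans hMfe)
      exact ⟨C, Φ, fun _ => H⟩
    · exact ⟨0, 1, fun h => absurd h hπM⟩
  choose c Φ H using hpl
  refine ⟨C₀ + ∑ π ∈ hfin.toFinset, c π, Φ₀ * ∏ π ∈ hfin.toFinset, Φ π, 0, ?_⟩
  intro E Q hQ πQ hE hQp _ hQ3 hπQ hsb hsx X Y ξ ξ' hpt hξ hξ'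
  obtain ⟨πR, hπR⟩ := (hSPP.2.2.2.1 πQ).2
  have hna : ¬ Associated πQ.1 (conj πQ.1) := not_assoc hSPP hQp hπQ
  have hdQ : πQ.1 ∣ (Q : Eis) := by
    rw [hπQ]
    exact Dvd.intro _ rfl
  have hdR : πR.1 ∣ (Q : Eis) := by
    rw [hπQ, hπR]
    exact Dvd.intro_left _ rfl
  have hQRne : πQ ≠ πR := by
    intro h
    apply hna
    rw [← hπR, ← h]
  have hcop : IsCoprime (Q : Eis) (M : Eis) := by
    have h1 : Nat.Coprime Q M := Nat.Coprime.coprime_dvd_right hMf hQ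
    have h2 : IsCoprime (Q : ℤ) (M : ℤ) := Nat.isCoprime_iff_coprime.2 h1
    have h3 := h2.map (Int.castRingHom Eis)
    simpa using h3
  have hnd : ∀ π : PP, π.1 ∣ (Q : Eis) → ¬ π.1 ∣ (M : Eis) := fun π h1 h2 =>
    π.2.1.not_unit (hcop.isUnit_of_dvd' h1 h2)
  have hQM : ¬ πQ.1 ∣ (M : Eis) := hnd πQ hdQ
  have hRM : ¬ πR.1 ∣ (M : Eis) := hnd πR hdR
  have hQN : ¬ πQ.1 ∣ (N : Eis) := fun h => hQM (h.trans dN)
  have hRN : ¬ πR.1 ∣ (N : Eis) := fun h => hRM (h.trans dN)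
  have hQN' : ¬ πQ.1 ∣ (N : Eis) * (conj πQ.1) ^ E := by
    intro h
    rcases πQ.2.1.dvd_or_dvd h with h1 | h1
    · exact hQN h1
    · have h2 := πQ.2.1.dvd_of_dvd_pow h1
      rw [← hπR] at h2
      exact hQRne (hSPP.2.1 πQ πR (πQ.2.1.associated_of_dvd πR.2.1 h2))
  obtain ⟨hQb, hQx⟩ := HD.unr πQ hQN
  obtain ⟨k, hk, hkE⟩ := hpt.eq
  have hBe : (N : Eis) * (Q : Eis) ^ E = ((N : Eis) * (conj πQ.1) ^ E) * πQ.1 ^ E := by
    rw [hπQ, mul_pow]
    ring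
  have hdn : DNE X Y p (-p') (-q) q' := by
    have hA := fun i => dne_aux (π := πQ) hE (X := X) (Y := Y) (u := q) (v := p) hBe hQN' hQx hk
      hpt.hY hkE (fun h => hQM (h.trans d1)) i
    have hA' := fun i => dne_aux (π := πQ) hE (X := X) (Y := Y) (u := q') (v := p') hBe hQN' hQx hk
      hpt.hY hkE (fun h => hQM (h.trans d2)) i
    refine ⟨?_, ?_, ?_, ?_⟩
    · intro h
      apply hA 1
      unfold DfE at h
      linear_combination - h
    · intro h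
      apply hA 2
      unfold DfE at h
      linear_combination - h
    · intro h
      apply hA' 1
      unfold DfE at h
      linear_combination h
    · intro h
      apply hA' 2
      unfold DfE at h
      linear_combination h
  have HP : HypP N b x p q p' q' E Q X Y := ⟨hE, hQp, hsb, hsx, hpt, hdn⟩
  have hn0 := n0_ne HD HP
  obtain ⟨-, hsum0⟩ := hSVF b x p (-p') (-q) q' X Y HD.hb HD.hx (SolE_flip HD.sol) hpt.hX hpt.hY
    hn0 hdn
  -- the places above `Q`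
  have hTQ : SVE (tm πQ.1) x p (-p') (-q) q' X Y = - (E * TAUP πQ.1 p q p' q' ξ) := by
    refine hDP4U N b x p q p' q' HD πQ E Q X Y ξ HP hQ3 hdQ hQN ?_ hξ
    intro h
    rcases πQ.2.1.dvd_or_dvd h with h1 | h1
    · exact hQM (h1.trans d1)
    · exact hQM (h1.trans d2)
  have hTR : SVE (tm πR.1) x p (-p') (-q) q' X Y = - (E * TAUP πR.1 p q p' q' ξ') := by
    refine hDP4U N b x p q p' q' HD πR E Q X Y ξ' HP hQ3 hdR hRN ?_ ?_
    · intro h
      rcases πR.2.1.dvd_or_dvd h with h1 | h1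
      · exact hRM (h1.trans d1)
      · exact hRM (h1.trans d2)
    · rw [hπR]
      exact hξ'
  -- the sum
  have hQS : πQ ∉ hfin.toFinset := by
    rw [Set.Finite.mem_toFinset]
    exact hQM
  have hRS : πR ∉ hfin.toFinset := by
    rw [Set.Finite.mem_toFinset]
    exact hRM
  classical
  have hsupp : (Function.support fun v : Pl => SVE (sy v) x p (-p') (-q) q' X Y) ⊆
      ((insert none (insert (some πQ) (insert (some πR) (hfin.toFinset.image some))) :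
        Finset Pl) : Set Pl) := by
    intro v hv
    by_contra hnv
    apply hv
    rcases v with _ | π
    · exact absurd (Finset.mem_coe.2 (Finset.mem_insert_self _ _)) hnv
    · have hnM : ¬ π.1 ∣ (M : Eis) := by
        intro h
        apply hnv
        rw [Finset.mem_coe]
        refine Finset.mem_insert_of_mem (Finset.mem_insert_of_mem (Finset.mem_insert_of_mem
          (Finset.mem_image_of_mem _ ?_)))
        rw [Set.Finite.mem_toFinset]
        exact h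
      have hπne : π ≠ πQ := by
        rintro rfl
        apply hnv
        rw [Finset.mem_coe]
        exact Finset.mem_insert_of_mem (Finset.mem_insert_self _ _)
      have hπne' : π ≠ πR := by
        rintro rfl
        apply hnv
        rw [Finset.mem_coe]
        exact Finset.mem_insert_of_mem (Finset.mem_insert_of_mem (Finset.mem_insert_self _ _))
      have hπQnd : ¬ π.1 ∣ (Q : Eis) := by
        rw [hπQ]
        intro h
        rcases π.2.1.dvd_or_dvd h with h1 | h1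
        · exact hπne (hSPP.2.1 π πQ (π.2.1.associated_of_dvd πQ.2.1 h1))
        · rw [← hπR] at h1
          exact hπne' (hSPP.2.1 π πR (π.2.1.associated_of_dvd πR.2.1 h1))
      refine hDP3 N b x p q p' q' HD π E Q X Y HP (fun h => hnM (h.trans dN)) hπQnd ?_
      intro h
      rcases π.2.1.dvd_or_dvd h with h1 | h1
      · exact hnM (h1.trans d1)
      · exact hnM (h1.trans d2)
  have hn_notin : (none : Pl) ∉ insert (some πQ) (insert (some πR) (hfin.toFinset.image some)) := by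
    simp
  have hR_notin : (some πR : Pl) ∉ hfin.toFinset.image some := by
    intro h
    obtain ⟨y, hy, hy'⟩ := Finset.mem_image.1 h
    rw [Option.some.injEq] at hy'
    rw [hy'] at hy
    exact hRS hy
  have hQ_notin : (some πQ : Pl) ∉ insert (some πR) (hfin.toFinset.image some) := by
    intro h
    rcases Finset.mem_insert.1 h with h | h
    · rw [Option.some.injEq] at h
      exact hQRne h
    · obtain ⟨y, hy, hy'⟩ := Finset.mem_image.1 h
      rw [Option.some.injEq] at hy'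
      rw [hy'] at hy
      exact hQS hy
  have hsum : ∑ π ∈ hfin.toFinset, SVE (sy (some π)) x p (-p') (-q) q' X Y =
      ∑ π ∈ hfin.toFinset, (c π + E * (Φ π (ZMod.unitOfCoprime Q hQ)).toAdd) := by
    refine Finset.sum_congr rfl ?_
    intro π hπ
    rw [Set.Finite.mem_toFinset] at hπ
    exact H π hπ E Q hQ X Y HP
  rw [finsum_eq_sum_of_support_subset _ hsupp, Finset.sum_insert hn_notin,
    Finset.sum_insert hQ_notin, Finset.sum_insert hR_notin,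
    Finset.sum_image (fun _ _ _ _ h => Option.some_injective _ h), hsum] at hsum0
  have e1 : SVE (sy none) x p (-p') (-q) q' X Y =
      C₀ + E * (Φ₀ (ZMod.unitOfCoprime Q hQ)).toAdd := H₀ E Q hQ X Y HP
  have e2 : SVE (sy (some πQ)) x p (-p') (-q) q' X Y = - (E * TAUP πQ.1 p q p' q' ξ) := hTQ
  have e3 : SVE (sy (some πR)) x p (-p') (-q) q' X Y = - (E * TAUP πR.1 p q p' q' ξ') := hTR
  rw [e1, e2, e3, Finset.sum_add_distrib, ← Finset.mul_sum] at hsum0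
  rw [MonoidHom.mul_apply, MonoidHom.finsetProd_apply, toAdd_mul, toAdd_prod, ← hπR]
  linear_combination hsum0

end Pool.Agent.PTK


end

section

/-!
# PTK_DP4U: the local term of a point at a prime factor of `Q`, `Q = 1 (mod 3)`
-/

set_option autoImplicit false

namespace Pool.Agent.PTK

open Pool.Agent.Lib_helper18 Pool.Agent.Lib_helper18.Eis Pool.Agent.Lib_helper84.Cub
open Pool.Agent.PT

namespace DP4U

open DPA

/-- the symbol at a prime factor of `B` -/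
lemma tm_val {π B L : Eis} {E : ℕ} (h1 : V π B = E) (hL : ¬ π ∣ L) :
    tm π B L = - (E * sym π L) := by
  have h2 : up π L = L := by
    unfold up
    rw [V_eq_zero hL, pow_zero, EuclideanDomain.div_one]
  unfold tm
  rw [V_eq_zero hL, h1]
  unfold ch
  rw [h2]
  simp

/-- a rational prime divisible by `π` has valuation `1` -/
lemma V_one (hSPP : SPP) {π : PP} {Q : ℕ} (hQ : Q.Prime) (h : π.1 ∣ (Q : Eis)) :
    V π.1 (Q : Eis) = 1 := by
  obtain ⟨r, hr, hc⟩ := hSPP.2.2.2.2.2 π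
  have hb : EADM.Below π r := ⟨hr, hc⟩
  have h1 : r = Q := (Nat.prime_dvd_prime_iff_eq hr hQ).1 ((hb.dvd_nat Q).1 h)
  rw [← h1]
  exact hb.V_self

end DP4U

open DPA DP4 _root_.Pool.Agent.PTK.DP4U in
/-- PTK_DP4U. -/
theorem DP4U_thm (hSTM : STM) (hSPP : SPP) (hIF4 : Stmt_IF4) (hLCI : Stmt_LCI) : Stmt_DP4U := by
  intro N b x p q p' q' HD π E Q X Y ξ HP hQ3 hπQ hπN hπM hξ
  have h3 : ¬ π.1 ∣ 3 := (hSPP.2.2.2.1 π).1
  have hs : LSym π.1 (tm π.1) 1 := hSTM π.1 π.2.1 h3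
  obtain ⟨hπb, hπx⟩ := HD.unr π hπN
  have hVx0 : V π.1 x = 0 := V_eq_zero hπx
  have hVb0 : V π.1 b = 0 := V_eq_zero hπb
  have hB := B_ne HD HP
  have hn0 := n0_ne HD HP
  have hQ1 := V_one hSPP HP.hQ hπQ
  have hQ0 : (Q : Eis) ≠ 0 := EADM.natCast_ne HP.hQ.ne_zero
  have hVB : V π.1 ((N : Eis) * (Q : Eis) ^ E) = E := by
    rw [V_mul_not_dvd π.2.1 hπN (pow_ne_zero _ hQ0), V_pow π.2.1 hQ0, hQ1, mul_one]
  have hE0 : (E : ZMod 3) ≠ 0 := by
    rcases HP.hE with h | h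
    · rw [h]; decide
    · rw [h]; decide
  have hcub : ∀ a : Eis, V π.1 a = 0 → tm π.1 a ((N : Eis) * (Q : Eis) ^ E) = 0 →
      ch π.1 a = 0 := by
    intro a ha h
    unfold tm at h
    rw [hVB, ha] at h
    simp only [Nat.cast_zero, zero_mul, sub_zero] at h
    exact (mul_eq_zero.1 h).resolve_left hE0
  have hLx : LCE π.1 x := (hLCI.1 π x HD.hx).2 ⟨by rw [hVx0]; exact dvd_zero 3,
    hcub x hVx0 (HP.sx π)⟩
  have hcb := hcub b hVb0 (HP.sb π)
  have hLb : LCE π.1 b := (hLCI.1 π b HD.hb).2 ⟨by rw [hVb0]; exact dvd_zero 3, hcb⟩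
  obtain ⟨N1, H1⟩ := core hIF4 hLCI hs HD HP hLx
  obtain ⟨ξ', hξ'⟩ := hLx (N1 + 1)
  obtain ⟨hF, -, h1⟩ := H1 ξ' ((pow_dvd_pow _ (by omega)).trans hξ')
  have h4 : π.1 ∣ ξ' ^ 3 - x := by
    have h4 : π.1 ^ 1 ∣ ξ' ^ 3 - x := (pow_dvd_pow _ (by omega)).trans hξ'
    rwa [pow_one] at h4
  have hb0 : ∀ i, tm π.1 (LfE X Y i ξ') b = 0 := by
    intro i
    rw [hs.skew b (LfE X Y i ξ') HD.hb (hF i),
      hLCI.2.2 π.1 (tm π.1) 1 b _ hs hLb HD.hb (hF i), neg_zero]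
  have hM1 : ¬ π.1 ∣ p ^ 3 + x * q ^ 3 := fun h => hπM (dvd_mul_of_dvd_left h _)
  have hM2 : ¬ π.1 ∣ p' ^ 3 + x * q' ^ 3 := fun h => hπM (dvd_mul_of_dvd_right h _)
  have k1 := LfE_ndvd (p := p) (q := q) h4 hM1
  have k2 := LfE_ndvd (p := p') (q := q') h4 hM2
  rw [h1, hb0, hb0, add_zero, sub_zero]
  have h5 : ASE (tm π.1) ((N : Eis) * (Q : Eis) ^ E) p q p' q' ξ' =
      - (E * TAUP π.1 p q p' q' ξ') := by
    unfold ASE TAUP
    rw [tm_val hVB (k1 2), tm_val hVB (k2 1), tm_val hVB (k1 1), tm_val hVB (k2 2)]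
    ring
  rw [h5]
  congr 2
  -- independence of the cube root
  have hcongr : ∀ r r' : Eis, π.1 ∣ r - r' → TAUP π.1 p q p' q' r = TAUP π.1 p q p' q' r' := by
    intro r r' hr
    have h6 : ∀ (g h : Eis) (i : ℕ), sym π.1 (LfE g h i r) = sym π.1 (LfE g h i r') := by
      intro g h i
      apply sym_congr
      have h7 : LfE g h i r - LfE g h i r' = (h * w ^ i) * (r - r') := by
        unfold LfE
        ring
      rw [h7]
      exact dvd_mul_of_dvd_right hr _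
    unfold TAUP
    rw [h6, h6, h6, h6]
  have hshift : ∀ r : Eis, π.1 ∣ r ^ 3 - x →
      TAUP π.1 p q p' q' (w * r) = TAUP π.1 p q p' q' r := by
    intro r hr
    have m1 := LfE_ndvd (p := p) (q := q) hr hM1
    have m2 := LfE_ndvd (p := p') (q := q') hr hM2
    have h8 : sym π.1 (LfE p q 0 r) + sym π.1 (LfE p q 1 r) + sym π.1 (LfE p q 2 r) =
        sym π.1 b + (sym π.1 (LfE p' q' 0 r) + sym π.1 (LfE p' q' 1 r) +
          sym π.1 (LfE p' q' 2 r)) := by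
      rw [← sym_mul π.2.1 h3 (m1 0) (m1 1), ← sym_mul π.2.1 h3 (π.2.1.not_dvd_mul (m1 0) (m1 1)) (m1 2),
        ← sym_mul π.2.1 h3 (m2 0) (m2 1), ← sym_mul π.2.1 h3 (π.2.1.not_dvd_mul (m2 0) (m2 1)) (m2 2),
        ← sym_mul π.2.1 h3 hπb (π.2.1.not_dvd_mul (π.2.1.not_dvd_mul (m2 0) (m2 1)) (m2 2))]
      apply sym_congr
      rw [LfE_prod, LfE_prod]
      have h9 : p ^ 3 + q ^ 3 * r ^ 3 - b * (p' ^ 3 + q' ^ 3 * r ^ 3) =
          (q ^ 3 - b * q' ^ 3) * (r ^ 3 - x) := by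
        linear_combination HD.sol.eq
      rw [h9]
      exact dvd_mul_of_dvd_right hr _
    have h10 : sym π.1 b = 0 := by
      have h11 := hcb
      unfold ch up at h11
      rwa [hVb0, pow_zero, EuclideanDomain.div_one] at h11
    unfold TAUP
    rw [LfE_shift, LfE_shift, LfE_shift, LfE_shift]
    have e1 : LfE p q (2 + 1) r = LfE p q 0 r := LfE_per p q r 0
    have e2 : LfE p' q' (2 + 1) r = LfE p' q' 0 r := LfE_per p' q' r 0
    rw [e1, e2]
    rw [h10] at h8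
    have h12 : (3 : ZMod 3) = 0 := rfl
    linear_combination h8 - (sym π.1 (LfE p q 2 r) - sym π.1 (LfE p' q' 2 r)) * h12
  have hdiv : π.1 ∣ (ξ' - ξ) * (ξ' - w * ξ) * (ξ' - w * (w * ξ)) := by
    have h13 : (ξ' - ξ) * (ξ' - w * ξ) * (ξ' - w * (w * ξ)) = (ξ' ^ 3 - x) - (ξ ^ 3 - x) := by
      have h1 : w ^ 3 = 1 := w_cube
      have h2 : w ^ 2 + w + 1 = 0 := w_rel
      linear_combination (- ξ ^ 3) * h1 + (- ξ' ^ 2 * ξ + ξ' * ξ ^ 2 * w) * h2
    rw [h13]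
    exact dvd_sub h4 hξ
  have hw3 : ∀ r : Eis, π.1 ∣ r ^ 3 - x → π.1 ∣ (w * r) ^ 3 - x := by
    intro r hr
    rwa [mul_pow, w_cube, one_mul]
  rcases π.2.1.dvd_or_dvd hdiv with h | h
  · rcases π.2.1.dvd_or_dvd h with h | h
    · exact hcongr _ _ h
    · rw [hcongr _ _ h, hshift ξ hξ]
  · rw [hcongr _ _ h, hshift (w * ξ) (hw3 ξ hξ), hshift ξ hξ]

end Pool.Agent.PTK


end

section

/-!
# PTK_DE1: the pairing as a function of the prime `Q = 1 (mod 3)` and of `E`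
-/

set_option autoImplicit false

namespace Pool.Agent.PTK

open Pool.Agent.Lib_helper18 Pool.Agent.Lib_helper18.Eis Pool.Agent.Lib_helper84.Cub
open Pool.Agent.PT

namespace DE1

open DPA

lemma B_ne {N Q : ℕ} (hN : 0 < N) (hQ : Q.Prime) (E : ℕ) : (N : Eis) * (Q : Eis) ^ E ≠ 0 :=
  mul_ne_zero (DCK.nat_ne hN.ne') (pow_ne_zero _ (DCK.nat_ne hQ.ne_zero))

lemma w_ne : w ≠ 0 := by
  intro h
  have := congrArg Eis.im h
  simp at this

/-- the symbol at `λ` from the tame symbols -/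
lemma sl_zero {a B : Eis} (h : ∀ σ : PP, tm σ.1 a B = 0) : sl a B = 0 := by
  unfold sl
  rw [finsum_congr h]
  simp

lemma sl_zero' (hSLC : SLC) {a B : Eis} (ha : a ≠ 0) (hB : B ≠ 0)
    (h : ∀ σ : PP, tm σ.1 a B = 0) : sl B a = 0 := by
  rw [hSLC.skew a B ha hB, sl_zero h, neg_zero]

lemma lam_dvd {f : ℕ} (h9 : 9 ∣ f) : lam ^ 4 ∣ (f : Eis) := by
  have h1 : ((9 : ℤ) : Eis) ∣ ((f : ℤ) : Eis) :=
    intCast_dvd_intCast.2 (by exact_mod_cast h9)
  rw [Int.cast_natCast] at h1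
  refine Dvd.dvd.trans ⟨w ^ 4, ?_⟩ h1
  have h2 : ((9 : ℤ) : Eis) = (3 : Eis) ^ 2 := by norm_num
  rw [h2, three_eq]
  ring

/-- The local term at `λ`. -/
lemma place_lam (hAVE : Stmt_AVE) (hSLC : SLC) {N : ℕ} {b x p q p' q' : Eis}
    (HD : HypE N b x p q p' q') {f : ℕ} (hf : 1 < f) (h9 : 9 ∣ f) :
    ∃ (C : ZMod 3) (Φ : (ZMod f)ˣ →* Multiplicative (ZMod 3)),
      ∀ (E Q : ℕ) (hQ : Q.Coprime f), Q.Prime →
      (∀ σ : PP, tm σ.1 b ((N : Eis) * (Q : Eis) ^ E) = 0) →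
      (∀ σ : PP, tm σ.1 x ((N : Eis) * (Q : Eis) ^ E) = 0) →
      LTE ((N : Eis) * (Q : Eis) ^ E) b x p q p' q' =
        C + E * (Φ (ZMod.unitOfCoprime Q hQ)).toAdd := by
  have hs : LSym lam sl 4 := hSLC
  have hlamf := lam_dvd h9
  have hN : (N : Eis) ≠ 0 := DCK.nat_ne HD.N0.ne'
  by_cases hLb : LCE lam b
  · obtain ⟨C, Φ, H⟩ := place_LC hs hN HD.sol.n1 (SolE_n1' HD.sol) hLb hf hlamf
    refine ⟨C + sl w x, Φ, ?_⟩
    intro E Q hQ hQp hsb hsx
    have hB := B_ne HD.N0 hQp E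
    obtain ⟨N0, H0⟩ := (hAVE none _ b x p q p' q' hB HD.hb HD.hx HD.sol.toSolWE
      (sl_zero' hSLC HD.hx hB hsx) hLb).1
    have h1 := H E Q hQ _ N0 H0
    unfold LTE
    rw [if_pos hLb, h1]
    ring
  · by_cases hLx : LCE lam x
    · have hfl : SolE x b p (-p') (-q) q' := SolE_flip HD.sol
      obtain ⟨C, Φ, H⟩ := place_LC hs hN hfl.n1 (SolE_n1' hfl) hLx hf hlamf
      have hg1 := HD.sol.g1
      have hg2 := HD.sol.g2
      obtain ⟨C', Φ', hΦ'⟩ := exists_char hs.prime hs.pos hf hlamf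
        (fun B => sl B (GfE p q p' q' 1) - sl B (GfE p q p' q' 2) - sl B w)
        (by
          intro A B hA hB
          show _ = (_ : ZMod 3)
          rw [hs.mul A B _ hA hB hg1, hs.mul A B _ hA hB hg2, hs.mul A B _ hA hB w_ne]
          ring)
        (by
          intro A B hA hB hd
          show _ = (_ : ZMod 3)
          rw [hs.cont A B _ hA hg1 hd, hs.cont A B _ hA hg2 hd, hs.cont A B _ hA w_ne hd]) hN
      refine ⟨C' - C + sl w x, Φ' * Φ⁻¹, ?_⟩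
      intro E Q hQ hQp hsb hsx
      have hB := B_ne HD.N0 hQp E
      obtain ⟨N0, H0⟩ := (hAVE none _ x b p (-p') (-q) q' hB HD.hx HD.hb hfl.toSolWE
        (sl_zero' hSLC HD.hb hB hsb) hLx).1
      have h1 := H E Q hQ _ N0 H0
      have h2 := hΦ' E Q hQ
      have h3 : sl w ((N : Eis) * (Q : Eis) ^ E * x * b) =
          - sl ((N : Eis) * (Q : Eis) ^ E) w + sl w x + sl w b := by
        rw [hs.skew _ w (mul_ne_zero (mul_ne_zero hB HD.hx) HD.hb) w_ne,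
          hs.mul _ _ w (mul_ne_zero hB HD.hx) HD.hb w_ne, hs.mul _ _ w hB HD.hx w_ne,
          hs.skew x w HD.hx w_ne, hs.skew b w HD.hb w_ne]
        ring
      unfold LTE
      rw [if_neg hLb, if_pos hLx, h1]
      unfold UVE
      rw [h3, MonoidHom.mul_apply, MonoidHom.inv_apply, toAdd_mul, toAdd_inv]
      linear_combination h2
    · refine ⟨lfE b x, 1, ?_⟩
      intro E Q hQ hQp hsb hsx
      unfold LTE
      rw [if_neg hLb, if_neg hLx]
      simp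

/-- The local terms at the places dividing `f`. -/
lemma place_tame (hAVE : Stmt_AVE) (hSTM : STM) (hSPP : SPP) {N : ℕ} {b x p q p' q' : Eis}
    (HD : HypE N b x p q p' q') {f : ℕ} (hf : 1 < f) (π : PP) (hπf : π.1 ∣ (f : Eis)) :
    ∃ (C : ZMod 3) (Φ : (ZMod f)ˣ →* Multiplicative (ZMod 3)),
      ∀ (E Q : ℕ) (hQ : Q.Coprime f), Q.Prime →
      (∀ σ : PP, tm σ.1 x ((N : Eis) * (Q : Eis) ^ E) = 0) →
      TTE π ((N : Eis) * (Q : Eis) ^ E) b x p q p' q' =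
        C + E * (Φ (ZMod.unitOfCoprime Q hQ)).toAdd := by
  have hs : LSym π.1 (tm π.1) 1 := hSTM π.1 π.2.1 (hSPP.2.2.2.1 π).1
  have hN : (N : Eis) ≠ 0 := DCK.nat_ne HD.N0.ne'
  by_cases hLb : LCE π.1 b
  · obtain ⟨C, Φ, H⟩ := place_LC hs hN HD.sol.n1 (SolE_n1' HD.sol) hLb hf (by rwa [pow_one])
    refine ⟨C + tm π.1 w x, Φ, ?_⟩
    intro E Q hQ hQp hsx
    have hB := B_ne HD.N0 hQp E
    have hBx : tm π.1 ((N : Eis) * (Q : Eis) ^ E) x = 0 := by
      rw [hs.skew x _ HD.hx hB, hsx π, neg_zero]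
    obtain ⟨N0, H0⟩ := (hAVE (some π) _ b x p q p' q' hB HD.hb HD.hx HD.sol.toSolWE
      hBx hLb).1
    have h1 := H E Q hQ _ N0 H0
    unfold TTE
    rw [if_pos hLb, h1]
    ring
  · classical
    refine ⟨if 3 ∣ V π.1 b + V π.1 (N : Eis) ∧ ¬ 3 ∣ V π.1 b then - tm π.1 w x else 0, 1, ?_⟩
    intro E Q hQ hQp hsx
    have hVB : V π.1 ((N : Eis) * (Q : Eis) ^ E) = V π.1 (N : Eis) := by
      have hQ0 : (Q : Eis) ≠ 0 := DCK.nat_ne hQp.ne_zero
      have h1 := V_cop π.2.1 hπf (Nat.isCoprime_iff_coprime.2 hQ)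
      rw [Int.cast_natCast] at h1
      rw [V_mul π.2.1 hN (pow_ne_zero _ hQ0), V_pow π.2.1 hQ0, h1, mul_zero, add_zero]
    unfold TTE
    rw [if_neg hLb, hVB]
    simp

/-- The local terms vanish outside. -/
lemma place_out (hAVE : Stmt_AVE) (hSTM : STM) (hSPP : SPP) {N : ℕ} {b x p q p' q' : Eis}
    (HD : HypE N b x p q p' q') (π : PP) (hπN : ¬ π.1 ∣ (N : Eis))
    (h1 : ¬ π.1 ∣ p ^ 3 + b * q ^ 3) (h2 : ¬ π.1 ∣ p' ^ 3 + b * q' ^ 3) {E Q : ℕ}
    (hQp : Q.Prime) (hπQ : ¬ π.1 ∣ (Q : Eis))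
    (hsx : ∀ σ : PP, tm σ.1 x ((N : Eis) * (Q : Eis) ^ E) = 0) :
    TTE π ((N : Eis) * (Q : Eis) ^ E) b x p q p' q' = 0 := by
  have hs : LSym π.1 (tm π.1) 1 := hSTM π.1 π.2.1 (hSPP.2.2.2.1 π).1
  obtain ⟨hπb, hπx⟩ := HD.unr π hπN
  have hVb0 : V π.1 b = 0 := V_eq_zero hπb
  have hB := B_ne HD.N0 hQp E
  have hπB : ¬ π.1 ∣ (N : Eis) * (Q : Eis) ^ E := by
    intro h
    rcases π.2.1.dvd_or_dvd h with h1 | h1
    · exact hπN h1
    · exact hπQ (π.2.1.dvd_of_dvd_pow h1)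
  by_cases hLb : LCE π.1 b
  · have hBx : tm π.1 ((N : Eis) * (Q : Eis) ^ E) x = 0 := by
      rw [hs.skew x _ HD.hx hB, hsx π, neg_zero]
    obtain ⟨N0, H0⟩ := (hAVE (some π) _ b x p q p' q' hB HD.hb HD.hx HD.sol.toSolWE
      hBx hLb).1
    obtain ⟨ξ, hξ⟩ := hLb (N0 + 1)
    have h3 : π.1 ∣ ξ ^ 3 - b := by
      have h4 : π.1 ^ 1 ∣ ξ ^ 3 - b := (pow_dvd_pow _ (by omega)).trans hξ
      rwa [pow_one] at h4
    have k1 := LfE_ndvd (p := p) (q := q) h3 h1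
    have k2 := LfE_ndvd (p := p') (q := q') h3 h2
    have h5 := H0 ξ ((pow_dvd_pow _ (by omega)).trans hξ)
    unfold TTE
    rw [if_pos hLb, ← h5, DCONST.tm_zero (not_dvd_w π.2.1) hπx]
    show ASE (tm π.1) _ _ _ _ _ _ + 0 = 0
    unfold ASE
    rw [DCONST.tm_zero hπB (k1 2), DCONST.tm_zero hπB (k2 1), DCONST.tm_zero hπB (k1 1),
      DCONST.tm_zero hπB (k2 2)]
    simp
  · unfold TTE
    rw [if_neg hLb, if_neg (fun h => h.2 (by rw [hVb0]; exact dvd_zero 3))]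

/-- the invariant does not depend on the cube root -/
lemma taup_indep {π b x p q p' q' ξ ξ' : Eis} (hπ : Prime π) (h3 : ¬ π ∣ 3)
    (heq : p ^ 3 + b * q ^ 3 = x * (p' ^ 3 + b * q' ^ 3)) (hπx : ¬ π ∣ x)
    (hsx : sym π x = 0) (hM1 : ¬ π ∣ p ^ 3 + b * q ^ 3) (hM2 : ¬ π ∣ p' ^ 3 + b * q' ^ 3)
    (h4 : π ∣ ξ' ^ 3 - b) (hξ : π ∣ ξ ^ 3 - b) :
    TAUP π p q p' q' ξ' = TAUP π p q p' q' ξ := by
  have hcongr : ∀ r r' : Eis, π ∣ r - r' → TAUP π p q p' q' r = TAUP π p q p' q' r' := by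
    intro r r' hr
    have h6 : ∀ (g h : Eis) (i : ℕ), sym π (LfE g h i r) = sym π (LfE g h i r') := by
      intro g h i
      apply sym_congr
      have h7 : LfE g h i r - LfE g h i r' = (h * w ^ i) * (r - r') := by
        unfold LfE
        ring
      rw [h7]
      exact dvd_mul_of_dvd_right hr _
    unfold TAUP
    rw [h6, h6, h6, h6]
  have hshift : ∀ r : Eis, π ∣ r ^ 3 - b →
      TAUP π p q p' q' (w * r) = TAUP π p q p' q' r := by
    intro r hr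
    have m1 := LfE_ndvd (p := p) (q := q) hr hM1
    have m2 := LfE_ndvd (p := p') (q := q') hr hM2
    have h8 : sym π (LfE p q 0 r) + sym π (LfE p q 1 r) + sym π (LfE p q 2 r) =
        sym π x + (sym π (LfE p' q' 0 r) + sym π (LfE p' q' 1 r) +
          sym π (LfE p' q' 2 r)) := by
      rw [← sym_mul hπ h3 (m1 0) (m1 1), ← sym_mul hπ h3 (hπ.not_dvd_mul (m1 0) (m1 1)) (m1 2),
        ← sym_mul hπ h3 (m2 0) (m2 1), ← sym_mul hπ h3 (hπ.not_dvd_mul (m2 0) (m2 1)) (m2 2),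
        ← sym_mul hπ h3 hπx (hπ.not_dvd_mul (hπ.not_dvd_mul (m2 0) (m2 1)) (m2 2))]
      apply sym_congr
      rw [DP4.LfE_prod, DP4.LfE_prod]
      have h9 : p ^ 3 + q ^ 3 * r ^ 3 - x * (p' ^ 3 + q' ^ 3 * r ^ 3) =
          (q ^ 3 - x * q' ^ 3) * (r ^ 3 - b) := by
        linear_combination heq
      rw [h9]
      exact dvd_mul_of_dvd_right hr _
    unfold TAUP
    rw [DP4.LfE_shift, DP4.LfE_shift, DP4.LfE_shift, DP4.LfE_shift]
    have e1 : LfE p q (2 + 1) r = LfE p q 0 r := DP4.LfE_per p q r 0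
    have e2 : LfE p' q' (2 + 1) r = LfE p' q' 0 r := DP4.LfE_per p' q' r 0
    rw [e1, e2]
    rw [hsx] at h8
    have h12 : (3 : ZMod 3) = 0 := rfl
    linear_combination h8 - (sym π (LfE p q 2 r) - sym π (LfE p' q' 2 r)) * h12
  have hdiv : π ∣ (ξ' - ξ) * (ξ' - w * ξ) * (ξ' - w * (w * ξ)) := by
    have h13 : (ξ' - ξ) * (ξ' - w * ξ) * (ξ' - w * (w * ξ)) = (ξ' ^ 3 - b) - (ξ ^ 3 - b) := by
      have h1 : w ^ 3 = 1 := w_cube
      have h2 : w ^ 2 + w + 1 = 0 := w_rel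
      linear_combination (- ξ ^ 3) * h1 + (- ξ' ^ 2 * ξ + ξ' * ξ ^ 2 * w) * h2
    rw [h13]
    exact dvd_sub h4 hξ
  have hw3 : ∀ r : Eis, π ∣ r ^ 3 - b → π ∣ (w * r) ^ 3 - b := by
    intro r hr
    rwa [mul_pow, w_cube, one_mul]
  rcases hπ.dvd_or_dvd hdiv with h | h
  · rcases hπ.dvd_or_dvd h with h | h
    · exact hcongr _ _ h
    · rw [hcongr _ _ h, hshift ξ hξ]
  · rw [hcongr _ _ h, hshift (w * ξ) (hw3 ξ hξ), hshift ξ hξ]

/-- The local term at a place above `Q`. -/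
lemma place_Q (hAVE : Stmt_AVE) (hLCI : Stmt_LCI) (hSTM : STM) (hSPP : SPP) {N : ℕ}
    {b x p q p' q' : Eis} (HD : HypE N b x p q p' q') (π : PP) (hπN : ¬ π.1 ∣ (N : Eis))
    (hM1 : ¬ π.1 ∣ p ^ 3 + b * q ^ 3) (hM2 : ¬ π.1 ∣ p' ^ 3 + b * q' ^ 3) {E Q : ℕ}
    (hE : E = 1 ∨ E = 2) (hQp : Q.Prime) (hVQ : V π.1 (Q : Eis) = 1)
    (hsb : ∀ σ : PP, tm σ.1 b ((N : Eis) * (Q : Eis) ^ E) = 0)
    (hsx : ∀ σ : PP, tm σ.1 x ((N : Eis) * (Q : Eis) ^ E) = 0)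
    (ξ : Eis) (hξ : π.1 ∣ ξ ^ 3 - b) :
    TTE π ((N : Eis) * (Q : Eis) ^ E) b x p q p' q' = - (E * TAUP π.1 p q p' q' ξ) := by
  have h3 : ¬ π.1 ∣ 3 := (hSPP.2.2.2.1 π).1
  have hs : LSym π.1 (tm π.1) 1 := hSTM π.1 π.2.1 h3
  obtain ⟨hπb, hπx⟩ := HD.unr π hπN
  have hVx0 : V π.1 x = 0 := V_eq_zero hπx
  have hVb0 : V π.1 b = 0 := V_eq_zero hπb
  have hB := B_ne HD.N0 hQp E
  have hQ0 : (Q : Eis) ≠ 0 := DCK.nat_ne hQp.ne_zero
  have hVB : V π.1 ((N : Eis) * (Q : Eis) ^ E) = E := by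
    rw [V_mul_not_dvd π.2.1 hπN (pow_ne_zero _ hQ0), V_pow π.2.1 hQ0, hVQ, mul_one]
  have hE0 : (E : ZMod 3) ≠ 0 := by
    rcases hE with h | h
    · rw [h]; decide
    · rw [h]; decide
  have hcub : ∀ a : Eis, V π.1 a = 0 → tm π.1 a ((N : Eis) * (Q : Eis) ^ E) = 0 →
      ch π.1 a = 0 := by
    intro a ha h
    unfold tm at h
    rw [hVB, ha] at h
    simp only [Nat.cast_zero, zero_mul, sub_zero] at h
    exact (mul_eq_zero.1 h).resolve_left hE0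
  have hcx := hcub x hVx0 (hsx π)
  have hcb := hcub b hVb0 (hsb π)
  have hLb : LCE π.1 b := (hLCI.1 π b HD.hb).2 ⟨by rw [hVb0]; exact dvd_zero 3, hcb⟩
  have hBx : tm π.1 ((N : Eis) * (Q : Eis) ^ E) x = 0 := by
    rw [hs.skew x _ HD.hx hB, hsx π, neg_zero]
  obtain ⟨N0, H0⟩ := (hAVE (some π) _ b x p q p' q' hB HD.hb HD.hx HD.sol.toSolWE
    hBx hLb).1
  obtain ⟨ξ', hξ'⟩ := hLb (N0 + 1)
  have h4 : π.1 ∣ ξ' ^ 3 - b := by
    have h4 : π.1 ^ 1 ∣ ξ' ^ 3 - b := (pow_dvd_pow _ (by omega)).trans hξ'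
    rwa [pow_one] at h4
  have k1 := LfE_ndvd (p := p) (q := q) h4 hM1
  have k2 := LfE_ndvd (p := p') (q := q') h4 hM2
  have h5 := H0 ξ' ((pow_dvd_pow _ (by omega)).trans hξ')
  have hsymx : sym π.1 x = 0 := by
    have h11 := hcx
    unfold ch up at h11
    rwa [hVx0, pow_zero, EuclideanDomain.div_one] at h11
  unfold TTE
  rw [if_pos hLb, ← h5, DCONST.tm_zero (not_dvd_w π.2.1) hπx,
    ← taup_indep π.2.1 h3 HD.sol.eq hπx hsymx hM1 hM2 h4 hξ]
  show ASE (tm π.1) _ _ _ _ _ _ + 0 = _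
  unfold ASE TAUP
  rw [DP4U.tm_val hVB (k1 2), DP4U.tm_val hVB (k2 1), DP4U.tm_val hVB (k1 1),
    DP4U.tm_val hVB (k2 2)]
  ring

end DE1

open DPA _root_.Pool.Agent.PTK.DE1 in
/-- PTK_DE1. -/
theorem DE1_thm (hAVE : Stmt_AVE) (hLCI : Stmt_LCI) (hSTM : STM) (hSPP : SPP) (hSLC : SLC) :
    Stmt_DE1 := by
  intro N b x p q p' q' HD
  have hn1 := HD.sol.n1
  have hn2 := SolE_n1' HD.sol
  obtain ⟨m1, hm1⟩ : ∃ m : ℕ, m = (p ^ 3 + b * q ^ 3).norm.natAbs := ⟨_, rfl⟩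
  obtain ⟨m2, hm2⟩ : ∃ m : ℕ, m = (p' ^ 3 + b * q' ^ 3).norm.natAbs := ⟨_, rfl⟩
  have hm1d : p ^ 3 + b * q ^ 3 ∣ (m1 : Eis) := by rw [hm1]; exact DCK.dvd_natAbs_norm _
  have hm2d : p' ^ 3 + b * q' ^ 3 ∣ (m2 : Eis) := by rw [hm2]; exact DCK.dvd_natAbs_norm _
  have hm1p : 0 < m1 := by
    rw [hm1]
    exact Int.natAbs_pos.2 (norm_pos hn1).ne'
  have hm2p : 0 < m2 := by
    rw [hm2]
    exact Int.natAbs_pos.2 (norm_pos hn2).ne'
  obtain ⟨M, hMdef⟩ : ∃ M : ℕ, M = N * m1 * m2 := ⟨_, rfl⟩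
  have hMp : 0 < M := by
    rw [hMdef]
    exact Nat.mul_pos (Nat.mul_pos HD.N0 hm1p) hm2p
  have hMe : (M : Eis) = (N : Eis) * (m1 : Eis) * (m2 : Eis) := by
    rw [hMdef]
    push_cast
    ring
  have hM0 : (M : Eis) ≠ 0 := DCK.nat_ne hMp.ne'
  have dN : (N : Eis) ∣ (M : Eis) := by
    rw [hMe, mul_assoc]
    exact Dvd.intro _ rfl
  have d1 : p ^ 3 + b * q ^ 3 ∣ (M : Eis) := by
    rw [hMe]
    exact dvd_mul_of_dvd_left (dvd_mul_of_dvd_right hm1d _) _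
  have d2 : p' ^ 3 + b * q' ^ 3 ∣ (M : Eis) := by
    rw [hMe]
    exact dvd_mul_of_dvd_right hm2d _
  have hfin := hSPP.2.2.1 (M : Eis) hM0
  refine ⟨9 * M, by omega, ?_⟩
  intro f hf0 hf
  have h9 : 9 ∣ f := (Dvd.intro _ rfl).trans hf
  have hf1 : 1 < f := by
    have := Nat.le_of_dvd hf0 h9
    omega
  have hMf : M ∣ f := (Dvd.intro_left 9 rfl).trans hf
  have hMfe : (M : Eis) ∣ (f : Eis) := by
    obtain ⟨k, hk⟩ := hMf
    rw [hk]
    push_cast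
    exact Dvd.intro _ rfl
  obtain ⟨C₀, Φ₀, H₀⟩ := place_lam hAVE hSLC HD hf1 h9
  have hpl : ∀ π : PP, ∃ (c : ZMod 3) (Φ : (ZMod f)ˣ →* Multiplicative (ZMod 3)),
      π.1 ∣ (M : Eis) → ∀ (E Q : ℕ) (hQ : Q.Coprime f), Q.Prime →
        (∀ σ : PP, tm σ.1 x ((N : Eis) * (Q : Eis) ^ E) = 0) →
        TTE π ((N : Eis) * (Q : Eis) ^ E) b x p q p' q' =
          c + E * (Φ (ZMod.unitOfCoprime Q hQ)).toAdd := by
    intro π
    by_cases hπM : π.1 ∣ (M : Eis)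
    · obtain ⟨C, Φ, H⟩ := place_tame hAVE hSTM hSPP HD hf1 π (hπM.trans hMfe)
      exact ⟨C, Φ, fun _ => H⟩
    · exact ⟨0, 1, fun h => absurd h hπM⟩
  choose c Φ H using hpl
  refine ⟨C₀ + ∑ π ∈ hfin.toFinset, c π, Φ₀ * ∏ π ∈ hfin.toFinset, Φ π, 0, ?_⟩
  intro E Q hQ πQ hE hQp _ hQ3 hπQ hsb hsx ξ ξ' hξ hξ'
  obtain ⟨πR, hπR⟩ := (hSPP.2.2.2.1 πQ).2
  have hna : ¬ Associated πQ.1 (conj πQ.1) := DCKU.not_assoc hSPP hQp hπQ
  have hdQ : πQ.1 ∣ (Q : Eis) := by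
    rw [hπQ]
    exact Dvd.intro _ rfl
  have hdR : πR.1 ∣ (Q : Eis) := by
    rw [hπQ, hπR]
    exact Dvd.intro_left _ rfl
  have hQRne : πQ ≠ πR := by
    intro h
    apply hna
    rw [← hπR, ← h]
  have hcop : IsCoprime (Q : Eis) (M : Eis) := by
    have h1 : Nat.Coprime Q M := Nat.Coprime.coprime_dvd_right hMf hQ
    have h2 : IsCoprime (Q : ℤ) (M : ℤ) := Nat.isCoprime_iff_coprime.2 h1
    have h3 := h2.map (Int.castRingHom Eis)
    simpa using h3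
  have hnd : ∀ π : PP, π.1 ∣ (Q : Eis) → ¬ π.1 ∣ (M : Eis) := fun π h1 h2 =>
    π.2.1.not_isUnit (hcop.isUnit_of_dvd' h1 h2)
  have hQM : ¬ πQ.1 ∣ (M : Eis) := hnd πQ hdQ
  have hRM : ¬ πR.1 ∣ (M : Eis) := hnd πR hdR
  -- the places above `Q`
  have hTQ : TTE πQ ((N : Eis) * (Q : Eis) ^ E) b x p q p' q' =
      - (E * TAUP πQ.1 p q p' q' ξ) :=
    place_Q hAVE hLCI hSTM hSPP HD πQ (fun h => hQM (h.trans dN)) (fun h => hQM (h.trans d1))
      (fun h => hQM (h.trans d2)) hE hQp (DP4U.V_one hSPP hQp hdQ) hsb hsx ξ hξ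
  have hTR : TTE πR ((N : Eis) * (Q : Eis) ^ E) b x p q p' q' =
      - (E * TAUP πR.1 p q p' q' ξ') :=
    place_Q hAVE hLCI hSTM hSPP HD πR (fun h => hRM (h.trans dN)) (fun h => hRM (h.trans d1))
      (fun h => hRM (h.trans d2)) hE hQp (DP4U.V_one hSPP hQp hdR) hsb hsx ξ' (by
        rw [hπR]
        exact hξ')
  -- the sum
  have hQS : πQ ∉ hfin.toFinset := by
    rw [Set.Finite.mem_toFinset]
    exact hQM
  have hRS : πR ∉ hfin.toFinset := by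
    rw [Set.Finite.mem_toFinset]
    exact hRM
  classical
  have hsupp : (Function.support fun π : PP =>
      TTE π ((N : Eis) * (Q : Eis) ^ E) b x p q p' q') ⊆
      ((insert πQ (insert πR hfin.toFinset) : Finset PP) : Set PP) := by
    intro π hv
    by_contra hnv
    apply hv
    have hnM : ¬ π.1 ∣ (M : Eis) := by
      intro h
      apply hnv
      rw [Finset.mem_coe]
      refine Finset.mem_insert_of_mem (Finset.mem_insert_of_mem ?_)
      rw [Set.Finite.mem_toFinset]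
      exact h
    have hπne : π ≠ πQ := by
      rintro rfl
      apply hnv
      rw [Finset.mem_coe]
      exact Finset.mem_insert_self _ _
    have hπne' : π ≠ πR := by
      rintro rfl
      apply hnv
      rw [Finset.mem_coe]
      exact Finset.mem_insert_of_mem (Finset.mem_insert_self _ _)
    have hπQnd : ¬ π.1 ∣ (Q : Eis) := by
      rw [hπQ]
      intro h
      rcases π.2.1.dvd_or_dvd h with h1 | h1
      · exact hπne (hSPP.2.1 π πQ (π.2.1.associated_of_dvd πQ.2.1 h1))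
      · rw [← hπR] at h1
        exact hπne' (hSPP.2.1 π πR (π.2.1.associated_of_dvd πR.2.1 h1))
    exact place_out hAVE hSTM hSPP HD π (fun h => hnM (h.trans dN)) (fun h => hnM (h.trans d1))
      (fun h => hnM (h.trans d2)) hQp hπQnd hsx
  have hQ_notin : πQ ∉ insert πR hfin.toFinset := by
    intro h
    rcases Finset.mem_insert.1 h with h | h
    · exact hQRne h
    · exact hQS h
  have hsum : ∑ π ∈ hfin.toFinset, TTE π ((N : Eis) * (Q : Eis) ^ E) b x p q p' q' =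
      ∑ π ∈ hfin.toFinset, (c π + E * (Φ π (ZMod.unitOfCoprime Q hQ)).toAdd) := by
    refine Finset.sum_congr rfl ?_
    intro π hπ
    rw [Set.Finite.mem_toFinset] at hπ
    exact H π hπ E Q hQ hQp hsx
  unfold OZE
  rw [finsum_eq_sum_of_support_subset _ hsupp, Finset.sum_insert hQ_notin,
    Finset.sum_insert hRS, hsum, hTQ, hTR, H₀ E Q hQ hQp hsb hsx, Finset.sum_add_distrib,
    ← Finset.mul_sum, MonoidHom.mul_apply, MonoidHom.finsetProd_apply, toAdd_mul, toAdd_prod,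
    ← hπR]
  ring

end Pool.Agent.PTK


end

section

/-!
# PTK_DNS: upper bound for the density of a set of primes (helper71)
-/

set_option autoImplicit false

open NumberField IsDedekindDomain Finset
open scoped nonZeroDivisors Pointwise

namespace Pool.Agent.PTK

open Pool.Agent.Lib_helper18 Pool.Agent.Lib_helper18.Eis Pool.Agent.Lib_helper84.Cub
open Pool.Agent.PT Pool.Agent.PTL

namespace DNS

open BDENS BD

/-- the set of the classes is stable under conjugation and change of generator -/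
theorem inU_stable {G : Type} [Group G] [Finite G] {f m : ℕ} (χ : G →* (ZMod f)ˣ)
    (κ : (ZMod f)ˣ →* Multiplicative (Fin (m + 1) → ZMod 3)) (c : Fin (m + 1) → ZMod 3)
    (hf : 0 < f) (h3 : 3 ∣ f) {g h τ : G} (hg : InU χ κ c g)
    (hz : Subgroup.zpowers h = Subgroup.zpowers (τ * g * τ⁻¹)) : InU χ κ c h := by
  have hM := hg.1
  have hχg : χ (τ * g * τ⁻¹) = χ g := by
    rw [map_mul, map_mul, map_inv, mul_comm (χ τ), mul_inv_cancel_right]
  have hM' : M2 (χ (τ * g * τ⁻¹)) := by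
    rw [hχg]
    exact hM
  have he : Even (orderOf (τ * g * τ⁻¹)) := by
    apply M2_even hf h3 hM'
    rw [← map_pow, pow_orderOf_eq_one, map_one]
  obtain ⟨k, hk, hk3, hh⟩ := exists_pow hz he
  have h1 : χ h = χ g ^ k := by
    rw [hh, map_pow, hχg]
  exact (BD.transfer (s := 0) χ κ c (fun _ _ => 0) 1 0 (fun _ _ _ => 0) hf h3 hk hk3 h1 hM
    (fun j => j.elim0)).1 hg

/-- the conjugate cyclic subgroups, from the other side -/
theorem zpowers_symm {G : Type} [Group G] {g h τ : G}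
    (hz : Subgroup.zpowers h = Subgroup.zpowers (τ * g * τ⁻¹)) :
    Subgroup.zpowers g = Subgroup.zpowers (τ⁻¹ * h * τ⁻¹⁻¹) := by
  have h1 := congrArg (Subgroup.map (MulAut.conj τ⁻¹).toMonoidHom) hz
  rw [MonoidHom.map_zpowers, MonoidHom.map_zpowers] at h1
  have e1 : (MulAut.conj τ⁻¹).toMonoidHom h = τ⁻¹ * h * τ⁻¹⁻¹ := rfl
  have e2 : (MulAut.conj τ⁻¹).toMonoidHom (τ * g * τ⁻¹) = g := by
    show τ⁻¹ * (τ * g * τ⁻¹) * τ⁻¹⁻¹ = g
    group
  rw [e1, e2] at h1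
  exact h1.symm

end DNS

open BDENS BD _root_.Pool.Agent.PTK.DNS in
/-- PTK_DNS: upper bound for the density of a set of primes whose Frobenius elements are in a
subset stable under passing to another generator of a conjugate cyclic subgroup. -/
theorem DNS_thm (hDIR : DIR) : Stmt_DNS := by
  classical
  intro f m κ c L _ _ _ χ B S N₀ hf h9 hχ hB hBU hfrob hS
  have : NeZero f := ⟨hf.ne'⟩
  have h3 : 3 ∣ f := Dvd.dvd.trans (by norm_num) h9
  have hst : ∀ g h τ : L ≃ₐ[ℚ] L, g ∈ {g | InU χ κ c g ∧ ¬ B g} →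
      Subgroup.zpowers h = Subgroup.zpowers (τ * g * τ⁻¹) →
      h ∈ {g | InU χ κ c g ∧ ¬ B g} := fun g h τ hg hz =>
    ⟨inU_stable χ κ c hf h3 hg.1 hz, fun hb => hg.2 (hB h g τ⁻¹ hb (zpowers_symm hz))⟩
  obtain ⟨C1, hC1⟩ := RI.FROBD_thm L _ hst
  choose DC hDC using fun a : (ZMod f)ˣ => hDIR f a hf
  have hT := BD.card_T χ κ c hf hχ B
  obtain ⟨ST, hST⟩ : ∃ ST : Set ℕ, ST = {Q : ℕ | ∃ g ∈ {g | InU χ κ c g ∧
      ¬ B g}, ∃ P : Ideal (𝓞 L), P.IsPrime ∧ (Q : 𝓞 L) ∈ P ∧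
      MulAction.stabilizer (L ≃ₐ[ℚ] L) P = Subgroup.zpowers g} := ⟨_, rfl⟩
  obtain ⟨V, hV⟩ : ∃ V : Finset (ZMod f)ˣ, V = Finset.univ.filter fun a =>
      M2 a ∧ ((κ a).toAdd = c ∨ (κ a).toAdd = -c) := ⟨_, rfl⟩
  have hVc : V.card =
      Nat.card {a : (ZMod f)ˣ // M2 a ∧ ((κ a).toAdd = c ∨ (κ a).toAdd = -c)} := by
    rw [Nat.card_eq_fintype_card, Fintype.card_subtype, hV]
  have hM : ∀ (Q : ℕ) (hQ : Q.Coprime f), M2 (ZMod.unitOfCoprime Q hQ) ↔ Q % 3 = 2 := by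
    intro Q hQ
    unfold M2
    rw [ZMod.coe_unitOfCoprime, ZMod.val_natCast, Nat.mod_mod_of_dvd _ h3]
  have hcop : ∀ n : ℕ, n.Prime → n ∉ Finset.range (max N₀ f + 1) → n.Coprime f ∧ N₀ < n := by
    intro n hn hA
    rw [Finset.mem_range, not_lt] at hA
    refine ⟨(Nat.Prime.coprime_iff_not_dvd hn).2 fun h => ?_, ?_⟩
    · have h1 := Nat.le_of_dvd hf h
      have h2 := le_max_right N₀ f
      omega
    · have h2 := le_max_left N₀ f
      omega
  have hSTe : ∀ n : ℕ, n.Prime → n ∉ Finset.range (max N₀ f + 1) → n ∈ ST →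
      n ∉ S ∧ ∃ (hQ : n.Coprime f) (g : L ≃ₐ[ℚ] L), InU χ κ c g ∧
        χ g = ZMod.unitOfCoprime n hQ := by
    intro n hn hA hnST
    rw [hST] at hnST
    obtain ⟨g, hg, P, hP, hnP, hstab⟩ := hnST
    obtain ⟨hQ, hN⟩ := hcop n hn hA
    obtain ⟨⟨k, hk, hχk⟩, hkB⟩ := hfrob n hQ hn hN P g hP hnP hstab
    refine ⟨fun hnS => hg.2 (hkB hnS), hQ, g ^ k, ?_, hχk⟩
    refine (hst g (g ^ k) 1 hg ?_).1
    rw [one_mul, inv_one, mul_one]
    exact zpowers_pow_eq hk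
  refine ⟨2 * (Finset.range (max N₀ f + 1)).card + ∑ a ∈ V, DC a + C1, fun σ h1 h2 => ?_⟩
  have key := sm_add_le S ST {Q : ℕ | ∃ a ∈ V, (Q : ZMod f) = a}
    (Finset.range (max N₀ f + 1)) ?_ ?_ h1
  · have cov := sm_cover {Q : ℕ | ∃ a ∈ V, (Q : ZMod f) = a} V (fun n _ hn => hn) h1
    have hfr := hC1 σ h1 h2
    have hfr' : ((Nat.card {g : L ≃ₐ[ℚ] L // InU χ κ c g ∧ ¬ B g} : ℝ) /
        Nat.card (L ≃ₐ[ℚ] L)) * Real.log (1 / (σ - 1)) - C1 ≤ sm ST σ := by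
      rw [hST]
      exact hfr
    have hsum : ∑ a ∈ V, ∑' q : {q : ℕ // q.Prime ∧ (q : ZMod f) = a}, (q : ℝ) ^ (-σ) ≤
        ∑ a ∈ V, ((1 / (f.totient : ℝ)) * Real.log (1 / (σ - 1)) + DC a) :=
      Finset.sum_le_sum fun a _ => hDC a σ h1 h2
    rw [Finset.sum_add_distrib, Finset.sum_const, nsmul_eq_mul, hVc] at hsum
    have hlog : 0 ≤ Real.log (1 / (σ - 1)) := by
      apply Real.log_nonneg
      rw [le_div_iff₀ (by linarith)]
      linarith
    have hmul := mul_le_mul_of_nonneg_right hT hlog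
    rw [sub_mul, mul_assoc] at hmul
    linarith
  · intro n hn hA hnB
    obtain ⟨hQ, hN⟩ := hcop n hn hA
    obtain ⟨hn3, hnc⟩ := hS n hQ hn hN hnB
    constructor
    · refine ⟨ZMod.unitOfCoprime n hQ, ?_, ZMod.coe_unitOfCoprime n hQ⟩
      rw [hV]
      exact Finset.mem_filter.2 ⟨Finset.mem_univ _, (hM n hQ).2 hn3, hnc⟩
    · intro hnST
      exact (hSTe n hn hA hnST).1 hnB
  · intro n hn hA hnST
    obtain ⟨-, hQ', g, hgU, hχg⟩ := hSTe n hn hA hnST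
    refine ⟨ZMod.unitOfCoprime n hQ', ?_, ZMod.coe_unitOfCoprime n hQ'⟩
    rw [hV]
    have h5 := hgU
    unfold InU at h5
    rw [hχg] at h5
    exact Finset.mem_filter.2 ⟨Finset.mem_univ _, h5⟩

end Pool.Agent.PTK


end

section

/-!
# PTK_DNS1: upper bound for the density of a set of primes `Q = 1 (mod 3)` (helper67)

As `PTK/DNS.lean`, with `M1` in place of `M2`.
-/

set_option autoImplicit false

open NumberField IsDedekindDomain Finset
open scoped nonZeroDivisors Pointwise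

namespace Pool.Agent.PTK

open Pool.Agent.Lib_helper18 Pool.Agent.Lib_helper18.Eis Pool.Agent.Lib_helper84.Cub
open Pool.Agent.PT Pool.Agent.PTE Pool.Agent.PTL Pool.Agent.PTN

namespace DNS1

open BDENS BDU

/-- the set of the classes is stable under conjugation and change of generator -/
theorem inU_stable {G : Type} [Group G] [Finite G] {f m : ℕ} (χ : G →* (ZMod f)ˣ)
    (κ : (ZMod f)ˣ →* Multiplicative (Fin (m + 1) → ZMod 3)) (c : Fin (m + 1) → ZMod 3)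
    (hf : 0 < f) (h3 : 3 ∣ f) {g h τ : G} (hg : BDU.InU χ κ c g)
    (hz : Subgroup.zpowers h = Subgroup.zpowers (τ * g * τ⁻¹)) : BDU.InU χ κ c h := by
  have hM := hg.1
  have hχg : χ (τ * g * τ⁻¹) = χ g := by
    rw [map_mul, map_mul, map_inv, mul_comm (χ τ), mul_inv_cancel_right]
  obtain ⟨k, hk3, hh⟩ := exists_pow3 hz
  have h1 : χ h = χ g ^ k := by
    rw [hh, map_pow, hχg]
  exact (BDU.transfer (s := 0) χ κ c (fun _ _ => 0) 1 0 (fun _ => True) (fun _ _ _ => 0) hf h3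
    hk3 h1 hM (fun _ => trivial) (fun _ j => j.elim0)).1 hg

end DNS1

open BDENS BDU _root_.Pool.Agent.PTK.DNS1 in
/-- PTK_DNS1: upper bound for the density of a set of primes `Q = 1 (mod 3)` whose Frobenius elements are in a
subset stable under passing to another generator of a conjugate cyclic subgroup. -/
theorem DNS1_thm (hDIR : DIR) : Stmt_DNS1 := by
  classical
  intro f m κ c L _ _ _ χ B S N₀ hf h9 hχ hB hBU hfrob hS
  have : NeZero f := ⟨hf.ne'⟩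
  have h3 : 3 ∣ f := Dvd.dvd.trans (by norm_num) h9
  have hst : ∀ g h τ : L ≃ₐ[ℚ] L, g ∈ {g | BDU.InU χ κ c g ∧ ¬ B g} →
      Subgroup.zpowers h = Subgroup.zpowers (τ * g * τ⁻¹) →
      h ∈ {g | BDU.InU χ κ c g ∧ ¬ B g} := fun g h τ hg hz =>
    ⟨inU_stable χ κ c hf h3 hg.1 hz, fun hb => hg.2 (hB h g τ⁻¹ hb (DNS.zpowers_symm hz))⟩
  obtain ⟨C1, hC1⟩ := RI.FROBD_thm L _ hst
  choose DC hDC using fun a : (ZMod f)ˣ => hDIR f a hf
  have hT := BDU.card_T χ κ c hf hχ B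
  obtain ⟨ST, hST⟩ : ∃ ST : Set ℕ, ST = {Q : ℕ | ∃ g ∈ {g | BDU.InU χ κ c g ∧
      ¬ B g}, ∃ P : Ideal (𝓞 L), P.IsPrime ∧ (Q : 𝓞 L) ∈ P ∧
      MulAction.stabilizer (L ≃ₐ[ℚ] L) P = Subgroup.zpowers g} := ⟨_, rfl⟩
  obtain ⟨V, hV⟩ : ∃ V : Finset (ZMod f)ˣ, V = Finset.univ.filter fun a =>
      M1 a ∧ ((κ a).toAdd = c ∨ (κ a).toAdd = -c) := ⟨_, rfl⟩
  have hVc : V.card =
      Nat.card {a : (ZMod f)ˣ // M1 a ∧ ((κ a).toAdd = c ∨ (κ a).toAdd = -c)} := by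
    rw [Nat.card_eq_fintype_card, Fintype.card_subtype, hV]
  have hM : ∀ (Q : ℕ) (hQ : Q.Coprime f), M1 (ZMod.unitOfCoprime Q hQ) ↔ Q % 3 = 1 := by
    intro Q hQ
    unfold M1
    rw [ZMod.coe_unitOfCoprime, ZMod.val_natCast, Nat.mod_mod_of_dvd _ h3]
  have hcop : ∀ n : ℕ, n.Prime → n ∉ Finset.range (max N₀ f + 1) → n.Coprime f ∧ N₀ < n := by
    intro n hn hA
    rw [Finset.mem_range, not_lt] at hA
    refine ⟨(Nat.Prime.coprime_iff_not_dvd hn).2 fun h => ?_, ?_⟩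
    · have h1 := Nat.le_of_dvd hf h
      have h2 := le_max_right N₀ f
      omega
    · have h2 := le_max_left N₀ f
      omega
  have hSTe : ∀ n : ℕ, n.Prime → n ∉ Finset.range (max N₀ f + 1) → n ∈ ST →
      n ∉ S ∧ ∃ (hQ : n.Coprime f) (g : L ≃ₐ[ℚ] L), BDU.InU χ κ c g ∧
        χ g = ZMod.unitOfCoprime n hQ := by
    intro n hn hA hnST
    rw [hST] at hnST
    obtain ⟨g, hg, P, hP, hnP, hstab⟩ := hnST
    obtain ⟨hQ, hN⟩ := hcop n hn hA
    obtain ⟨⟨k, hk, hχk⟩, hkB⟩ := hfrob n hQ hn hN P g hP hnP hstab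
    refine ⟨fun hnS => hg.2 (hkB hnS), hQ, g ^ k, ?_, hχk⟩
    refine (hst g (g ^ k) 1 hg ?_).1
    rw [one_mul, inv_one, mul_one]
    exact zpowers_pow_eq hk
  refine ⟨2 * (Finset.range (max N₀ f + 1)).card + ∑ a ∈ V, DC a + C1, fun σ h1 h2 => ?_⟩
  have key := sm_add_le S ST {Q : ℕ | ∃ a ∈ V, (Q : ZMod f) = a}
    (Finset.range (max N₀ f + 1)) ?_ ?_ h1
  · have cov := sm_cover {Q : ℕ | ∃ a ∈ V, (Q : ZMod f) = a} V (fun n _ hn => hn) h1
    have hfr := hC1 σ h1 h2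
    have hfr' : ((Nat.card {g : L ≃ₐ[ℚ] L // BDU.InU χ κ c g ∧ ¬ B g} : ℝ) /
        Nat.card (L ≃ₐ[ℚ] L)) * Real.log (1 / (σ - 1)) - C1 ≤ sm ST σ := by
      rw [hST]
      exact hfr
    have hsum : ∑ a ∈ V, ∑' q : {q : ℕ // q.Prime ∧ (q : ZMod f) = a}, (q : ℝ) ^ (-σ) ≤
        ∑ a ∈ V, ((1 / (f.totient : ℝ)) * Real.log (1 / (σ - 1)) + DC a) :=
      Finset.sum_le_sum fun a _ => hDC a σ h1 h2
    rw [Finset.sum_add_distrib, Finset.sum_const, nsmul_eq_mul, hVc] at hsum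
    have hlog : 0 ≤ Real.log (1 / (σ - 1)) := by
      apply Real.log_nonneg
      rw [le_div_iff₀ (by linarith)]
      linarith
    have hmul := mul_le_mul_of_nonneg_right hT hlog
    rw [sub_mul, mul_assoc] at hmul
    linarith
  · intro n hn hA hnB
    obtain ⟨hQ, hN⟩ := hcop n hn hA
    obtain ⟨hn3, hnc⟩ := hS n hQ hn hN hnB
    constructor
    · refine ⟨ZMod.unitOfCoprime n hQ, ?_, ZMod.coe_unitOfCoprime n hQ⟩
      rw [hV]
      exact Finset.mem_filter.2 ⟨Finset.mem_univ _, (hM n hQ).2 hn3, hnc⟩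
    · intro hnST
      exact (hSTe n hn hA hnST).1 hnB
  · intro n hn hA hnST
    obtain ⟨-, hQ', g, hgU, hχg⟩ := hSTe n hn hA hnST
    refine ⟨ZMod.unitOfCoprime n hQ', ?_, ZMod.coe_unitOfCoprime n hQ'⟩
    rw [hV]
    have h5 := hgU
    unfold BDU.InU at h5
    rw [hχg] at h5
    exact Finset.mem_filter.2 ⟨Finset.mem_univ _, h5⟩

end Pool.Agent.PTK


end

section

/-!
# PTK_DX4: the local term of a point at a prime factor of `Q`, for `HypX`
-/

set_option autoImplicit false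

namespace Pool.Agent.PTK

open Pool.Agent.Lib_helper18 Pool.Agent.Lib_helper18.Eis Pool.Agent.Lib_helper84.Cub
open Pool.Agent.PT

namespace DX4

open DPA hiding B_ne n0_ne core
open DP4 DP4U

lemma B_ne {N : ℕ} {b x p q p' q' : Eis} (HD : HypX N b x p q p' q') {E Q : ℕ} {X Y : Eis}
    (HP : HypP N b x p q p' q' E Q X Y) : (N : Eis) * (Q : Eis) ^ E ≠ 0 := by
  have h1 : (N : Eis) ≠ 0 := by
    have h2 : ((N : ℤ) : Eis) ≠ 0 := DCONST.cast_ne (by have := HD.N0; omega)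
    rwa [Int.cast_natCast] at h2
  have h3 : (Q : Eis) ≠ 0 := by
    have h2 : ((Q : ℤ) : Eis) ≠ 0 := DCONST.cast_ne (by have := HP.hQ.pos; omega)
    rwa [Int.cast_natCast] at h2
  exact mul_ne_zero h1 (pow_ne_zero _ h3)

lemma n0_ne {N : ℕ} {b x p q p' q' : Eis} (HD : HypX N b x p q p' q') {E Q : ℕ} {X Y : Eis}
    (HP : HypP N b x p q p' q' E Q X Y) : X ^ 3 + x * Y ^ 3 ≠ 0 := by
  obtain ⟨c, hc, h⟩ := HP.pt.eq
  intro h0
  rw [h0, mul_zero] at h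
  exact mul_ne_zero (B_ne HD HP) (pow_ne_zero _ hc) h.symm

/-- The local term at a tame place where `x` is a local cube. -/
lemma core (hIF4 : Stmt_IF4) (hLCI : Stmt_LCI) {π : PP} (hs : LSym π.1 (tm π.1) 1) {N : ℕ}
    {b x p q p' q' : Eis} (HD : HypX N b x p q p' q') {E Q : ℕ} {X Y : Eis}
    (HP : HypP N b x p q p' q' E Q X Y) (hL : LCE π.1 x) :
    ∃ N0 : ℕ, ∀ ξ : Eis, π.1 ^ N0 ∣ ξ ^ 3 - x →
      (∀ i, LfE X Y i ξ ≠ 0) ∧
      (∀ a : Eis, a ≠ 0 → tm π.1 a (X ^ 3 + x * Y ^ 3) = tm π.1 a ((N : Eis) * (Q : Eis) ^ E)) ∧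
      SVE (tm π.1) x p (-p') (-q) q' X Y =
        ASE (tm π.1) ((N : Eis) * (Q : Eis) ^ E) p q p' q' ξ +
          tm π.1 (LfE X Y 1 ξ) b - tm π.1 (LfE X Y 2 ξ) b := by
  have hB := B_ne HD HP
  have hn0 := n0_ne HD HP
  obtain ⟨c, hc, hE⟩ := HP.pt.eq
  obtain ⟨N1, H1⟩ := exists_ne hs.prime (b := x) HD.sol.n1
  obtain ⟨N2, H2⟩ := exists_ne hs.prime (b := x) (SolE_n1' HD.sol)
  obtain ⟨N3, H3⟩ := exists_ne hs.prime (b := x) (p := X) (q := Y) hn0
  obtain ⟨N4, H4⟩ := hIF4 π.1 (tm π.1) 1 hs b x p (-p') (-q) q' X Y HD.hb HD.hx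
    (SolE_flip HD.sol) HP.pt.hX HP.pt.hY hn0 HP.dn
  refine ⟨N1 + N2 + N3 + N4, fun ξ hξ => ?_⟩
  have g1 := H1 ξ ((pow_dvd_pow _ (by omega)).trans hξ)
  have g2 := H2 ξ ((pow_dvd_pow _ (by omega)).trans hξ)
  have g3 := H3 ξ ((pow_dvd_pow _ (by omega)).trans hξ)
  have g4 := H4 ξ ((pow_dvd_pow _ (by omega)).trans hξ)
  have hx0 : ∀ a : Eis, a ≠ 0 → tm π.1 x a = 0 := fun a ha =>
    hLCI.2.2 π.1 (tm π.1) 1 x a hs hL HD.hx ha
  have hrel : ∀ a : Eis, a ≠ 0 →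
      tm π.1 (X ^ 3 + x * Y ^ 3) a = tm π.1 ((N : Eis) * (Q : Eis) ^ E) a := by
    intro a ha
    have h1 := s_rel hs HD.hx hn0 hB hc ha hE
    rw [hx0 a ha, zero_add] at h1
    exact h1
  refine ⟨g3, ?_, ?_⟩
  · intro a ha
    rw [hs.skew (X ^ 3 + x * Y ^ 3) a hn0 ha, hs.skew ((N : Eis) * (Q : Eis) ^ E) a hB ha, hrel a ha]
  · rw [g4, neg_neg, neg_neg]
    unfold ASE
    rw [hrel _ (g1 2), hrel _ (g2 1), hrel _ (g1 1), hrel _ (g2 2)]

lemma half (hSTM : STM) (hSPP : SPP) (hIF4 : Stmt_IF4) (hLCI : Stmt_LCI) {N : ℕ}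
    {b x p q p' q' : Eis} (HD : HypX N b x p q p' q') (π : PP) {E Q : ℕ} {X Y ξ : Eis}
    (HP : HypP N b x p q p' q' E Q X Y) (hπQ : π.1 ∣ (Q : Eis)) (hπN : ¬ π.1 ∣ (N : Eis))
    (hπM : ¬ π.1 ∣ (p ^ 3 + x * q ^ 3) * (p' ^ 3 + x * q' ^ 3)) (hξ : π.1 ∣ ξ ^ 3 - x) :
    SVE (tm π.1) x p (-p') (-q) q' X Y = - (E * TAUP π.1 p q p' q' ξ) := by
  have h3 : ¬ π.1 ∣ 3 := (hSPP.2.2.2.1 π).1
  have hs : LSym π.1 (tm π.1) 1 := hSTM π.1 π.2.1 h3
  obtain ⟨hπb, hπx⟩ := HD.unr π hπN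
  have hVx0 : V π.1 x = 0 := V_eq_zero hπx
  have hVb0 : V π.1 b = 0 := V_eq_zero hπb
  have hB := B_ne HD HP
  have hn0 := n0_ne HD HP
  have hQ1 := V_one hSPP HP.hQ hπQ
  have hQ0 : (Q : Eis) ≠ 0 := EADM.natCast_ne HP.hQ.ne_zero
  have hVB : V π.1 ((N : Eis) * (Q : Eis) ^ E) = E := by
    rw [V_mul_not_dvd π.2.1 hπN (pow_ne_zero _ hQ0), V_pow π.2.1 hQ0, hQ1, mul_one]
  have hE0 : (E : ZMod 3) ≠ 0 := by
    rcases HP.hE with h | h
    · rw [h]; decide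
    · rw [h]; decide
  have hcub : ∀ a : Eis, V π.1 a = 0 → tm π.1 a ((N : Eis) * (Q : Eis) ^ E) = 0 →
      ch π.1 a = 0 := by
    intro a ha h
    unfold tm at h
    rw [hVB, ha] at h
    simp only [Nat.cast_zero, zero_mul, sub_zero] at h
    exact (mul_eq_zero.1 h).resolve_left hE0
  have hLx : LCE π.1 x := (hLCI.1 π x HD.hx).2 ⟨by rw [hVx0]; exact dvd_zero 3,
    hcub x hVx0 (HP.sx π)⟩
  have hcb := hcub b hVb0 (HP.sb π)
  have hLb : LCE π.1 b := (hLCI.1 π b HD.hb).2 ⟨by rw [hVb0]; exact dvd_zero 3, hcb⟩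
  obtain ⟨N1, H1⟩ := core hIF4 hLCI hs HD HP hLx
  obtain ⟨ξ', hξ'⟩ := hLx (N1 + 1)
  obtain ⟨hF, -, h1⟩ := H1 ξ' ((pow_dvd_pow _ (by omega)).trans hξ')
  have h4 : π.1 ∣ ξ' ^ 3 - x := by
    have h4 : π.1 ^ 1 ∣ ξ' ^ 3 - x := (pow_dvd_pow _ (by omega)).trans hξ'
    rwa [pow_one] at h4
  have hb0 : ∀ i, tm π.1 (LfE X Y i ξ') b = 0 := by
    intro i
    rw [hs.skew b (LfE X Y i ξ') HD.hb (hF i),
      hLCI.2.2 π.1 (tm π.1) 1 b _ hs hLb HD.hb (hF i), neg_zero]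
  have hM1 : ¬ π.1 ∣ p ^ 3 + x * q ^ 3 := fun h => hπM (dvd_mul_of_dvd_left h _)
  have hM2 : ¬ π.1 ∣ p' ^ 3 + x * q' ^ 3 := fun h => hπM (dvd_mul_of_dvd_right h _)
  have k1 := LfE_ndvd (p := p) (q := q) h4 hM1
  have k2 := LfE_ndvd (p := p') (q := q') h4 hM2
  rw [h1, hb0, hb0, add_zero, sub_zero]
  have h5 : ASE (tm π.1) ((N : Eis) * (Q : Eis) ^ E) p q p' q' ξ' =
      - (E * TAUP π.1 p q p' q' ξ') := by
    unfold ASE TAUP
    rw [tm_val hVB (k1 2), tm_val hVB (k2 1), tm_val hVB (k1 1), tm_val hVB (k2 2)]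
    ring
  rw [h5]
  congr 2
  -- independence of the cube root
  have hcongr : ∀ r r' : Eis, π.1 ∣ r - r' → TAUP π.1 p q p' q' r = TAUP π.1 p q p' q' r' := by
    intro r r' hr
    have h6 : ∀ (g h : Eis) (i : ℕ), sym π.1 (LfE g h i r) = sym π.1 (LfE g h i r') := by
      intro g h i
      apply sym_congr
      have h7 : LfE g h i r - LfE g h i r' = (h * w ^ i) * (r - r') := by
        unfold LfE
        ring
      rw [h7]
      exact dvd_mul_of_dvd_right hr _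
    unfold TAUP
    rw [h6, h6, h6, h6]
  have hshift : ∀ r : Eis, π.1 ∣ r ^ 3 - x →
      TAUP π.1 p q p' q' (w * r) = TAUP π.1 p q p' q' r := by
    intro r hr
    have m1 := LfE_ndvd (p := p) (q := q) hr hM1
    have m2 := LfE_ndvd (p := p') (q := q') hr hM2
    have h8 : sym π.1 (LfE p q 0 r) + sym π.1 (LfE p q 1 r) + sym π.1 (LfE p q 2 r) =
        sym π.1 b + (sym π.1 (LfE p' q' 0 r) + sym π.1 (LfE p' q' 1 r) +
          sym π.1 (LfE p' q' 2 r)) := by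
      rw [← sym_mul π.2.1 h3 (m1 0) (m1 1), ← sym_mul π.2.1 h3 (π.2.1.not_dvd_mul (m1 0) (m1 1)) (m1 2),
        ← sym_mul π.2.1 h3 (m2 0) (m2 1), ← sym_mul π.2.1 h3 (π.2.1.not_dvd_mul (m2 0) (m2 1)) (m2 2),
        ← sym_mul π.2.1 h3 hπb (π.2.1.not_dvd_mul (π.2.1.not_dvd_mul (m2 0) (m2 1)) (m2 2))]
      apply sym_congr
      rw [LfE_prod, LfE_prod]
      have h9 : p ^ 3 + q ^ 3 * r ^ 3 - b * (p' ^ 3 + q' ^ 3 * r ^ 3) =
          (q ^ 3 - b * q' ^ 3) * (r ^ 3 - x) := by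
        linear_combination HD.sol.eq
      rw [h9]
      exact dvd_mul_of_dvd_right hr _
    have h10 : sym π.1 b = 0 := by
      have h11 := hcb
      unfold ch up at h11
      rwa [hVb0, pow_zero, EuclideanDomain.div_one] at h11
    unfold TAUP
    rw [LfE_shift, LfE_shift, LfE_shift, LfE_shift]
    have e1 : LfE p q (2 + 1) r = LfE p q 0 r := LfE_per p q r 0
    have e2 : LfE p' q' (2 + 1) r = LfE p' q' 0 r := LfE_per p' q' r 0
    rw [e1, e2]
    rw [h10] at h8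
    have h12 : (3 : ZMod 3) = 0 := rfl
    linear_combination h8 - (sym π.1 (LfE p q 2 r) - sym π.1 (LfE p' q' 2 r)) * h12
  have hdiv : π.1 ∣ (ξ' - ξ) * (ξ' - w * ξ) * (ξ' - w * (w * ξ)) := by
    have h13 : (ξ' - ξ) * (ξ' - w * ξ) * (ξ' - w * (w * ξ)) = (ξ' ^ 3 - x) - (ξ ^ 3 - x) := by
      have h1 : w ^ 3 = 1 := w_cube
      have h2 : w ^ 2 + w + 1 = 0 := w_rel
      linear_combination (- ξ ^ 3) * h1 + (- ξ' ^ 2 * ξ + ξ' * ξ ^ 2 * w) * h2
    rw [h13]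
    exact dvd_sub h4 hξ
  have hw3 : ∀ r : Eis, π.1 ∣ r ^ 3 - x → π.1 ∣ (w * r) ^ 3 - x := by
    intro r hr
    rwa [mul_pow, w_cube, one_mul]
  rcases π.2.1.dvd_or_dvd hdiv with h | h
  · rcases π.2.1.dvd_or_dvd h with h | h
    · exact hcongr _ _ h
    · rw [hcongr _ _ h, hshift ξ hξ]
  · rw [hcongr _ _ h, hshift (w * ξ) (hw3 ξ hξ), hshift ξ hξ]


end DX4

/-- PTK_DX4. -/
theorem DX4_thm (hSTM : STM) (hSPP : SPP) (hIF4 : Stmt_IF4) (hLCI : Stmt_LCI) : Stmt_DX4 := by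
  intro N b x p q p' q' HD π E Q X Y ξ HP hπN hπM
  refine ⟨?_, ?_⟩
  · intro _ hπQ hξ
    have h := DX4.half hSTM hSPP hIF4 hLCI HD π (ξ := ξ) HP (by rw [hπQ]) hπN hπM
      (by rw [hπQ]; exact hξ)
    rw [h]
    unfold TAUE TAUP
    rw [hπQ]
  · intro _ hπQ hξ
    exact DX4.half hSTM hSPP hIF4 hLCI HD π HP hπQ hπN hπM hξ

end Pool.Agent.PTK


end

section

/-!
# PTK_DXL: the relation for the Frobenius invariant of `Q`, `Q = 1 (mod 3)`, base class a local cube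
-/

set_option autoImplicit false

namespace Pool.Agent.PTK

open Pool.Agent.Lib_helper18 Pool.Agent.Lib_helper18.Eis Pool.Agent.Lib_helper84.Cub
open Pool.Agent.PT

namespace DXL

lemma x_n0_ne {N : ℕ} {b x p q p' q' : Eis} (HD : HypX N b x p q p' q') {E Q : ℕ} {X Y : Eis}
    (HP : HypP N b x p q p' q' E Q X Y) : X ^ 3 + x * Y ^ 3 ≠ 0 := by
  obtain ⟨c, hc, h⟩ := HP.pt.eq
  intro h0
  rw [h0, mul_zero] at h
  have h1 : (N : Eis) ≠ 0 := DCK.nat_ne HD.N0.ne'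
  have h3 : (Q : Eis) ≠ 0 := DCK.nat_ne HP.hQ.ne_zero
  exact mul_ne_zero (mul_ne_zero h1 (pow_ne_zero _ h3)) (pow_ne_zero _ hc) h.symm

end DXL

open DPA DCK DCKU _root_.Pool.Agent.PTK.DXL in
/-- PTK_DXL. -/
theorem DXL_thm (hSPP : SPP) (hSVF : Stmt_SVF) (hDX1 : Stmt_DX1) (hDX2 : Stmt_DX2)
    (hDX3 : Stmt_DX3) (hDX4 : Stmt_DX4) : Stmt_DXL := by
  intro N b x p q p' q' HD
  have hn1 := HD.sol.n1
  have hn2 := SolE_n1' HD.sol
  obtain ⟨m1, hm1⟩ : ∃ m : ℕ, m = (p ^ 3 + x * q ^ 3).norm.natAbs := ⟨_, rfl⟩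
  obtain ⟨m2, hm2⟩ : ∃ m : ℕ, m = (p' ^ 3 + x * q' ^ 3).norm.natAbs := ⟨_, rfl⟩
  have hm1d : p ^ 3 + x * q ^ 3 ∣ (m1 : Eis) := by rw [hm1]; exact dvd_natAbs_norm _
  have hm2d : p' ^ 3 + x * q' ^ 3 ∣ (m2 : Eis) := by rw [hm2]; exact dvd_natAbs_norm _
  have hm1p : 0 < m1 := by
    rw [hm1]
    exact Int.natAbs_pos.2 (norm_pos hn1).ne'
  have hm2p : 0 < m2 := by
    rw [hm2]
    exact Int.natAbs_pos.2 (norm_pos hn2).ne'
  obtain ⟨M, hMdef⟩ : ∃ M : ℕ, M = N * m1 * m2 := ⟨_, rfl⟩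
  have hMp : 0 < M := by
    rw [hMdef]
    exact Nat.mul_pos (Nat.mul_pos HD.N0 hm1p) hm2p
  have hMe : (M : Eis) = (N : Eis) * (m1 : Eis) * (m2 : Eis) := by
    rw [hMdef]
    push_cast
    ring
  have hM0 : (M : Eis) ≠ 0 := nat_ne hMp.ne'
  have dN : (N : Eis) ∣ (M : Eis) := by
    rw [hMe, mul_assoc]
    exact Dvd.intro _ rfl
  have d1 : p ^ 3 + x * q ^ 3 ∣ (M : Eis) := by
    rw [hMe]
    exact dvd_mul_of_dvd_left (dvd_mul_of_dvd_right hm1d _) _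
  have d2 : p' ^ 3 + x * q' ^ 3 ∣ (M : Eis) := by
    rw [hMe]
    exact dvd_mul_of_dvd_right hm2d _
  have hfin := hSPP.2.2.1 (M : Eis) hM0
  refine ⟨9 * M, by omega, ?_⟩
  intro f hf0 hf
  have h9 : 9 ∣ f := (Dvd.intro _ rfl).trans hf
  have hf1 : 1 < f := by
    have := Nat.le_of_dvd hf0 h9
    omega
  have hMf : M ∣ f := (Dvd.intro_left 9 rfl).trans hf
  have hMfe : (M : Eis) ∣ (f : Eis) := by
    obtain ⟨k, hk⟩ := hMf
    rw [hk]
    push_cast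
    exact Dvd.intro _ rfl
  obtain ⟨C₀, Φ₀, H₀⟩ := hDX2 N b x p q p' q' HD f hf1 h9
  have hpl : ∀ π : PP, ∃ (c : ZMod 3) (Φ : (ZMod f)ˣ →* Multiplicative (ZMod 3)),
      π.1 ∣ (M : Eis) → ∀ (E Q : ℕ) (hQ : Q.Coprime f) (X Y : Eis),
        HypP N b x p q p' q' E Q X Y →
        SVE (tm π.1) x p (-p') (-q) q' X Y = c + E * (Φ (ZMod.unitOfCoprime Q hQ)).toAdd := by
    intro π
    by_cases hπM : π.1 ∣ (M : Eis)
    · obtain ⟨C, Φ, H⟩ := hDX1 N b x p q p' q' HD π f hf1 (hπM.trans hMfe)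
      exact ⟨C, Φ, fun _ => H⟩
    · exact ⟨0, 1, fun h => absurd h hπM⟩
  choose c Φ H using hpl
  refine ⟨C₀ + ∑ π ∈ hfin.toFinset, c π, Φ₀ * ∏ π ∈ hfin.toFinset, Φ π, 0, ?_⟩
  intro E Q hQ πQ hE hQp _ hQ3 hπQ hsb hsx X Y ξ ξ' hpt hgp hξ hξ'
  obtain ⟨πR, hπR⟩ := (hSPP.2.2.2.1 πQ).2
  have hna : ¬ Associated πQ.1 (conj πQ.1) := not_assoc hSPP hQp hπQ
  have hdQ : πQ.1 ∣ (Q : Eis) := by
    rw [hπQ]
    exact Dvd.intro _ rfl
  have hdR : πR.1 ∣ (Q : Eis) := by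
    rw [hπQ, hπR]
    exact Dvd.intro_left _ rfl
  have hQRne : πQ ≠ πR := by
    intro h
    apply hna
    rw [← hπR, ← h]
  have hcop : IsCoprime (Q : Eis) (M : Eis) := by
    have h1 : Nat.Coprime Q M := Nat.Coprime.coprime_dvd_right hMf hQ
    have h2 : IsCoprime (Q : ℤ) (M : ℤ) := Nat.isCoprime_iff_coprime.2 h1
    have h3 := h2.map (Int.castRingHom Eis)
    simpa using h3
  have hnd : ∀ π : PP, π.1 ∣ (Q : Eis) → ¬ π.1 ∣ (M : Eis) := fun π h1 h2 =>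
    π.2.1.not_isUnit (hcop.isUnit_of_dvd' h1 h2)
  have hQM : ¬ πQ.1 ∣ (M : Eis) := hnd πQ hdQ
  have hRM : ¬ πR.1 ∣ (M : Eis) := hnd πR hdR
  have hQN : ¬ πQ.1 ∣ (N : Eis) := fun h => hQM (h.trans dN)
  have hRN : ¬ πR.1 ∣ (N : Eis) := fun h => hRM (h.trans dN)
  have hQN' : ¬ πQ.1 ∣ (N : Eis) * (conj πQ.1) ^ E := by
    intro h
    rcases πQ.2.1.dvd_or_dvd h with h1 | h1
    · exact hQN h1
    · have h2 := πQ.2.1.dvd_of_dvd_pow h1
      rw [← hπR] at h2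
      exact hQRne (hSPP.2.1 πQ πR (πQ.2.1.associated_of_dvd πR.2.1 h2))
  obtain ⟨hQb, hQx⟩ := HD.unr πQ hQN
  obtain ⟨k, hk, hkE⟩ := hpt.eq
  have hBe : (N : Eis) * (Q : Eis) ^ E = ((N : Eis) * (conj πQ.1) ^ E) * πQ.1 ^ E := by
    rw [hπQ, mul_pow]
    ring
  have hdn : DNE X Y p (-p') (-q) q' := by
    have hA := fun i => dne_aux (π := πQ) hE (X := X) (Y := Y) (u := q) (v := p) hBe hQN' hQx hk
      hpt.hY hkE (fun h => hQM (h.trans d1)) i
    have hA' := fun i => dne_aux (π := πQ) hE (X := X) (Y := Y) (u := q') (v := p') hBe hQN' hQx hk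
      hpt.hY hkE (fun h => hQM (h.trans d2)) i
    refine ⟨?_, ?_, ?_, ?_⟩
    · intro h
      apply hA 1
      unfold DfE at h
      linear_combination - h
    · intro h
      apply hA 2
      unfold DfE at h
      linear_combination - h
    · intro h
      apply hA' 1
      unfold DfE at h
      linear_combination h
    · intro h
      apply hA' 2
      unfold DfE at h
      linear_combination h
  have HP : HypP N b x p q p' q' E Q X Y := ⟨hE, hQp, hsb, hsx, hpt, hdn⟩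
  have hn0 := x_n0_ne HD HP
  obtain ⟨-, hsum0⟩ := hSVF b x p (-p') (-q) q' X Y HD.hb HD.hx (SolE_flip HD.sol) hpt.hX hpt.hY
    hn0 hdn
  -- the places above `Q`
  have hTQ : SVE (tm πQ.1) x p (-p') (-q) q' X Y = - (E * TAUP πQ.1 p q p' q' ξ) := by
    refine (hDX4 N b x p q p' q' HD πQ E Q X Y ξ HP hQN ?_).2 hQ3 hdQ hξ
    intro h
    rcases πQ.2.1.dvd_or_dvd h with h1 | h1
    · exact hQM (h1.trans d1)
    · exact hQM (h1.trans d2)
  have hTR : SVE (tm πR.1) x p (-p') (-q) q' X Y = - (E * TAUP πR.1 p q p' q' ξ') := by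
    refine (hDX4 N b x p q p' q' HD πR E Q X Y ξ' HP hRN ?_).2 hQ3 hdR ?_
    · intro h
      rcases πR.2.1.dvd_or_dvd h with h1 | h1
      · exact hRM (h1.trans d1)
      · exact hRM (h1.trans d2)
    · rw [hπR]
      exact hξ'
  -- the sum
  have hQS : πQ ∉ hfin.toFinset := by
    rw [Set.Finite.mem_toFinset]
    exact hQM
  have hRS : πR ∉ hfin.toFinset := by
    rw [Set.Finite.mem_toFinset]
    exact hRM
  classical
  have hsupp : (Function.support fun v : Pl => SVE (sy v) x p (-p') (-q) q' X Y) ⊆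
      ((insert none (insert (some πQ) (insert (some πR) (hfin.toFinset.image some))) :
        Finset Pl) : Set Pl) := by
    intro v hv
    by_contra hnv
    apply hv
    rcases v with _ | π
    · exact absurd (Finset.mem_coe.2 (Finset.mem_insert_self _ _)) hnv
    · have hnM : ¬ π.1 ∣ (M : Eis) := by
        intro h
        apply hnv
        rw [Finset.mem_coe]
        refine Finset.mem_insert_of_mem (Finset.mem_insert_of_mem (Finset.mem_insert_of_mem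
          (Finset.mem_image_of_mem _ ?_)))
        rw [Set.Finite.mem_toFinset]
        exact h
      have hπne : π ≠ πQ := by
        rintro rfl
        apply hnv
        rw [Finset.mem_coe]
        exact Finset.mem_insert_of_mem (Finset.mem_insert_self _ _)
      have hπne' : π ≠ πR := by
        rintro rfl
        apply hnv
        rw [Finset.mem_coe]
        exact Finset.mem_insert_of_mem (Finset.mem_insert_of_mem (Finset.mem_insert_self _ _))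
      have hπQnd : ¬ π.1 ∣ (Q : Eis) := by
        rw [hπQ]
        intro h
        rcases π.2.1.dvd_or_dvd h with h1 | h1
        · exact hπne (hSPP.2.1 π πQ (π.2.1.associated_of_dvd πQ.2.1 h1))
        · rw [← hπR] at h1
          exact hπne' (hSPP.2.1 π πR (π.2.1.associated_of_dvd πR.2.1 h1))
      refine hDX3 N b x p q p' q' HD π E Q X Y HP (fun h => hnM (h.trans dN)) hπQnd ?_
      intro h
      rcases π.2.1.dvd_or_dvd h with h1 | h1
      · exact hnM (h1.trans d1)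
      · exact hnM (h1.trans d2)
  have hn_notin : (none : Pl) ∉ insert (some πQ) (insert (some πR) (hfin.toFinset.image some)) := by
    simp
  have hR_notin : (some πR : Pl) ∉ hfin.toFinset.image some := by
    intro h
    obtain ⟨y, hy, hy'⟩ := Finset.mem_image.1 h
    rw [Option.some.injEq] at hy'
    rw [hy'] at hy
    exact hRS hy
  have hQ_notin : (some πQ : Pl) ∉ insert (some πR) (hfin.toFinset.image some) := by
    intro h
    rcases Finset.mem_insert.1 h with h | h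
    · rw [Option.some.injEq] at h
      exact hQRne h
    · obtain ⟨y, hy, hy'⟩ := Finset.mem_image.1 h
      rw [Option.some.injEq] at hy'
      rw [hy'] at hy
      exact hQS hy
  have hsum : ∑ π ∈ hfin.toFinset, SVE (sy (some π)) x p (-p') (-q) q' X Y =
      ∑ π ∈ hfin.toFinset, (c π + E * (Φ π (ZMod.unitOfCoprime Q hQ)).toAdd) := by
    refine Finset.sum_congr rfl ?_
    intro π hπ
    rw [Set.Finite.mem_toFinset] at hπ
    exact H π hπ E Q hQ X Y HP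
  rw [finsum_eq_sum_of_support_subset _ hsupp, Finset.sum_insert hn_notin,
    Finset.sum_insert hQ_notin, Finset.sum_insert hR_notin,
    Finset.sum_image (fun _ _ _ _ h => Option.some_injective _ h), hsum] at hsum0
  have e1 : SVE (sy none) x p (-p') (-q) q' X Y =
      C₀ + E * (Φ₀ (ZMod.unitOfCoprime Q hQ)).toAdd := H₀ E Q hQ X Y HP hgp
  have e2 : SVE (sy (some πQ)) x p (-p') (-q) q' X Y = - (E * TAUP πQ.1 p q p' q' ξ) := hTQ
  have e3 : SVE (sy (some πR)) x p (-p') (-q) q' X Y = - (E * TAUP πR.1 p q p' q' ξ') := hTR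
  rw [e1, e2, e3, Finset.sum_add_distrib, ← Finset.mul_sum] at hsum0
  rw [MonoidHom.mul_apply, MonoidHom.finsetProd_apply, toAdd_mul, toAdd_prod, ← hπR]
  linear_combination hsum0

end Pool.Agent.PTK


end

section

/-!
# The average rank of prime twists: the local term of a point at `λ` when `b` is a cube

Copy of `PT3/IIAG.lean` with `Eis` in place of `ℤ`.
-/

set_option autoImplicit false

namespace Pool.Agent.PTK

open Pool.Agent.Lib_helper18 Pool.Agent.Lib_helper18.Eis Pool.Agent.Lib_helper84.Cub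
open Pool.Agent.PT

namespace IIAG

/-- the right side of the identity -/
noncomputable def RS (s : Eis → Eis → ZMod 3) (n : Eis) (p q p' q' r : Eis) : ZMod 3 :=
  s n (GfE p q p' q' 1) - s n (GfE p q p' q' 2) + s w n - ASE s n p q p' q' r

/-- Linear forms at good approximations of a cube root do not vanish. -/
theorem lf_ne {π : Eis} (hπ : Prime π) {p q r b : Eis} {N : ℕ} (hn : p ^ 3 + b * q ^ 3 ≠ 0)
    (hN : V π (p ^ 3 + b * q ^ 3) < N) (hr : π ^ N ∣ r ^ 3 - b)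
    (i : ℕ) : LfE p q i r ≠ 0 := by
  intro h0
  unfold LfE at h0
  have h1 : q * w ^ i * r = -p := by linear_combination h0
  have h2 : (q * w ^ i * r) ^ 3 = (-p) ^ 3 := by rw [h1]
  have h3 : (w ^ i) ^ 3 = 1 := by rw [← pow_mul, mul_comm, pow_mul, w_cube, one_pow]
  have h4 : p ^ 3 + b * q ^ 3 = (-q ^ 3) * (r ^ 3 - b) := by
    linear_combination h2 - q ^ 3 * r ^ 3 * h3
  have h5 : π ^ N ∣ p ^ 3 + b * q ^ 3 := by
    rw [h4]
    exact Dvd.dvd.mul_left hr _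
  have h6 := (fin hπ hn).le_multiplicity_of_pow_dvd h5
  exact absurd h6 (not_le.2 hN)

/-- the linear forms do not vanish -/
theorem lf_ne' {π : Eis} (hπ : Prime π) {p q r : Eis} (hn : p ^ 3 + r ^ 3 * q ^ 3 ≠ 0) (i : ℕ) :
    LfE p q i r ≠ 0 := by
  refine lf_ne hπ (b := r ^ 3) hn (Nat.lt_succ_self _) ?_ i
  rw [sub_self]
  exact dvd_zero _

theorem sol_n {b x p q p' q' : Eis} (h : SolE b x p q p' q') : p' ^ 3 + b * q' ^ 3 ≠ 0 := by
  intro h0
  apply h.n1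
  rw [h.eq, h0, mul_zero]

section Sym

variable {π : Eis} {s : Eis → Eis → ZMod 3} {e : ℕ} {p q p' q' r x : Eis}

theorem RS_congr (h : LSym π s e) (hS : SolE (r ^ 3) x p q p' q') {n m : Eis} (hn : n ≠ 0)
    (hm : m ≠ 0) (hnm : ∀ A : Eis, A ≠ 0 → s n A = s m A) :
    RS s n p q p' q' r = RS s m p q p' q' r := by
  have l1 := lf_ne' h.prime hS.n1
  have l2 := lf_ne' h.prime (sol_n hS)
  unfold RS ASE
  rw [hnm _ hS.g1, hnm _ hS.g2,
    h.skew n w hn LEV.w_ne, h.skew m w hm LEV.w_ne, hnm _ LEV.w_ne, hnm _ (l1 2), hnm _ (l2 1),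
    hnm _ (l1 1), hnm _ (l2 2)]

theorem RS_zero (h : LSym π s e) (hS : SolE (r ^ 3) x p q p' q') {n : Eis} (hn : n ≠ 0)
    (h0 : ∀ A : Eis, A ≠ 0 → s n A = 0) : RS s n p q p' q' r = 0 := by
  have l1 := lf_ne' h.prime hS.n1
  have l2 := lf_ne' h.prime (sol_n hS)
  unfold RS ASE
  rw [h0 _ hS.g1, h0 _ hS.g2,
    h.skew n w hn LEV.w_ne, h0 _ LEV.w_ne, h0 _ (l1 2), h0 _ (l2 1), h0 _ (l1 1), h0 _ (l2 2)]
  ring

/-- IF2 -/
theorem RS_x (h : LSym π s e) (hIF2 : Stmt_IF2) (hr : r ≠ 0) (hx : x ≠ 0)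
    (hS : SolE (r ^ 3) x p q p' q') : RS s x p q p' q' r = 0 := by
  obtain ⟨N0, h1⟩ := hIF2 π s e h (r ^ 3) x p q p' q' (pow_ne_zero 3 hr) hx hS
  have h2 := h1 r (by rw [sub_self]; exact dvd_zero _)
  unfold RS
  rw [h2, sub_self]

/-- a symbol of a cube on the right -/
theorem cube_right (h : LSym π s e) {c y : Eis} (hc : c ≠ 0) (hy : y ≠ 0) : s y (c ^ 3) = 0 := by
  rw [h.skew (c ^ 3) y (pow_ne_zero 3 hc) hy, LEV.cube_left h hc hy, neg_zero]

/-- the case where `x` is a local cube -/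
theorem case_cube (h : LSym π s e) (hIF1 : Stmt_IF1) (hIF4 : Stmt_IF4) (hr : r ≠ 0) (hx : x ≠ 0)
    (hS : SolE (r ^ 3) x p q p' q') {X Y : Eis} (hX : X ≠ 0) (hY : Y ≠ 0)
    (hn : X ^ 3 + x * Y ^ 3 ≠ 0) (hD : DNE X Y p q p' q') (hL : LCE π x) :
    SVE s x p q p' q' X Y = RS s (X ^ 3 + x * Y ^ 3) p q p' q' r := by
  have hr3 : r ^ 3 ≠ 0 := pow_ne_zero 3 hr
  obtain ⟨N1, h1⟩ := hIF4 π s e h (r ^ 3) x p q p' q' X Y hr3 hx hS hX hY hn hD
  obtain ⟨N2, h2⟩ := hIF1 π s e h (r ^ 3) x p q p' q' hr3 hx hS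
  obtain ⟨ξ, hξ⟩ := hL (N1 + N2 + V π (X ^ 3 + x * Y ^ 3) + 1)
  have a1 := h1 ξ ((pow_dvd_pow _ (by omega)).trans hξ)
  have a2 := h2 r ξ (by rw [sub_self]; exact dvd_zero _)
    ((pow_dvd_pow _ (by omega)).trans hξ) (X ^ 3 + x * Y ^ 3) hn
  have hF := lf_ne h.prime hn (N := N1 + N2 + V π (X ^ 3 + x * Y ^ 3) + 1)
    (by omega) hξ
  rw [cube_right h hr (hF 1), cube_right h hr (hF 2)] at a1
  unfold RS
  rw [a1]
  linear_combination a2

end Sym

/-- the continuity of the symbol, in terms of valuations -/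
theorem s_close {π : Eis} {s : Eis → Eis → ZMod 3} (h : LSym π s 1) {a c : Eis} (ha : a ≠ 0)
    (hc : c ≠ 0) (hV : V π a < V π c) {A : Eis} (hA : A ≠ 0) : s (a + c) A = s a A := by
  refine h.cont a (a + c) A ha hA ?_
  rw [add_sub_cancel_left]
  exact (pow_dvd_pow _ hV).trans (pow_multiplicity_dvd _ _)

/-- the tame places -/
theorem tame (hSTM : STM) (hSPP : SPP) (hLCI : Stmt_LCI) (hIF1 : Stmt_IF1) (hIF2 : Stmt_IF2)
    (hIF4 : Stmt_IF4) (hF6R : Stmt_F6R) (hF7U : Stmt_F7U) (π : PP) {r x p q p' q' X Y : Eis}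
    (hr : r ≠ 0) (hx : x ≠ 0) (hS : SolE (r ^ 3) x p q p' q') (hX : X ≠ 0) (hY : Y ≠ 0)
    (hn : X ^ 3 + x * Y ^ 3 ≠ 0) (hD : DNE X Y p q p' q') :
    SVE (tm π.1) x p q p' q' X Y = RS (tm π.1) (X ^ 3 + x * Y ^ 3) p q p' q' r := by
  have h3 := (hSPP.2.2.2.1 π).1
  have h : LSym π.1 (tm π.1) 1 := hSTM π.1 π.2.1 h3
  have hπ := π.2.1
  have hr3 : r ^ 3 ≠ 0 := pow_ne_zero 3 hr
  have hX3 : X ^ 3 ≠ 0 := pow_ne_zero 3 hX
  have hY3 : Y ^ 3 ≠ 0 := pow_ne_zero 3 hY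
  have hxY : x * Y ^ 3 ≠ 0 := mul_ne_zero hx hY3
  have hsX : ∀ A : Eis, A ≠ 0 → tm π.1 (X ^ 3) A = 0 := fun A hA =>
    LEV.cube_left h hX hA
  have hsx : ∀ A : Eis, A ≠ 0 → tm π.1 (x * Y ^ 3) A = tm π.1 x A :=
    fun A hA => by rw [h.mul _ _ _ hx hY3 hA, LEV.cube_left h hY hA, add_zero]
  have vX : V π.1 (X ^ 3) = 3 * V π.1 X := V_pow hπ hX 3
  have vx : V π.1 (x * Y ^ 3) = V π.1 x + 3 * V π.1 Y := by
    rw [V_mul hπ hx hY3, V_pow hπ hY]
  by_cases hVx : 3 ∣ V π.1 x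
  · by_cases hcx : ch π.1 x = 0
    · exact case_cube h hIF1 hIF4 hr hx hS hX hY hn hD ((hLCI.1 π x hx).2 ⟨hVx, hcx⟩)
    · -- valuation divisible by three, not a cube
      rw [hF7U π (r ^ 3) x p q p' q' X Y hr3 hx hS hX hY hD hVx hcx]
      have hVx0 : (V π.1 x : ZMod 3) = 0 := LEV.cast3.2 hVx
      have hVw : (V π.1 w : ZMod 3) = 0 := by
        rw [V_eq_zero (not_dvd_w hπ)]; rfl
      -- the valuation of `n0`
      have hVn : 3 ∣ V π.1 (X ^ 3 + x * Y ^ 3) := by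
        rcases lt_trichotomy (V π.1 (X ^ 3)) (V π.1 (x * Y ^ 3)) with
          hlt | heq | hlt
        · have e1 : V π.1 (X ^ 3 + x * Y ^ 3) = V π.1 (X ^ 3) := by
            rw [add_comm]
            exact (fin hπ hX3).multiplicity_add_of_gt hlt
          rw [e1, vX]
          exact dvd_mul_right _ _
        · by_cases hgt : V π.1 (X ^ 3) < V π.1 (X ^ 3 + x * Y ^ 3)
          · exfalso
            apply hcx
            have e1 : tm π.1 (x * Y ^ 3) π.1 = 0 := by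
              have e2 := s_close h (a := -(X ^ 3))
                (c := X ^ 3 + x * Y ^ 3) (neg_ne_zero.2 hX3) hn
                (by rw [V_neg]; exact hgt) hπ.ne_zero
              rw [neg_add_cancel_left, LEV.neg_left h hX3 hπ.ne_zero,
                hsX _ hπ.ne_zero] at e2
              exact e2
            rw [hsx _ hπ.ne_zero] at e1
            unfold tm at e1
            rw [V_self, hVx0] at e1
            simpa using e1
          · have hle : V π.1 (X ^ 3) ≤ V π.1 (X ^ 3 + x * Y ^ 3) := by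
              apply (fin hπ hn).le_multiplicity_of_pow_dvd
              refine dvd_add (pow_multiplicity_dvd _ _) ?_
              change π.1 ^ (V π.1 (X ^ 3)) ∣ _
              rw [heq]
              exact pow_multiplicity_dvd _ _
            have e1 : V π.1 (X ^ 3 + x * Y ^ 3) = V π.1 (X ^ 3) := by omega
            rw [e1, vX]
            exact dvd_mul_right _ _
        · have e1 : V π.1 (X ^ 3 + x * Y ^ 3) = V π.1 (x * Y ^ 3) :=
            (fin hπ hxY).multiplicity_add_of_gt hlt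
          rw [e1, vx]
          exact (Nat.dvd_add_right hVx).2 (dvd_mul_right _ _)
      have hVn0 : (V π.1 (X ^ 3 + x * Y ^ 3) : ZMod 3) = 0 := LEV.cast3.2 hVn
      have h2 := RS_x h hIF2 hr hx hS
      unfold RS ASE tm at h2 ⊢
      rw [hVx0, hVw] at h2
      rw [hVn0, hVw]
      have e1 : ∀ c d t : ZMod 3, c ≠ 0 → c * t = 0 → d * t = 0 := by decide
      have e2 := e1 (ch π.1 x) (ch π.1 (X ^ 3 + x * Y ^ 3))
        ((V π.1 (GfE p q p' q' 1) : ZMod 3) - (V π.1 (GfE p q p' q' 2) : ZMod 3) -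
          ((V π.1 (LfE p q 2 r) : ZMod 3) + (V π.1 (LfE p' q' 1 r) : ZMod 3) -
            (V π.1 (LfE p q 1 r) : ZMod 3) - (V π.1 (LfE p' q' 2 r) : ZMod 3))) hcx
        (by linear_combination h2)
      linear_combination -e2
  · -- valuation not divisible by three
    have hSV : SVE (tm π.1) x p q p' q' X Y = 0 := by
      have h6 := hF6R π (r ^ 3) x p q p' q' X Y hr3 hx hS hX hY hD hVx
      by_cases hVn : 3 ∣ V π.1 (X ^ 3 + x * Y ^ 3)
      · exact h6.1 hVn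
      · rw [h6.2 hVn, cube_right h hr LEV.w_ne, neg_zero]
    rw [hSV]
    rcases lt_trichotomy (V π.1 (X ^ 3)) (V π.1 (x * Y ^ 3)) with
      hlt | heq | hlt
    · refine (RS_zero h hS hn fun A hA => ?_).symm
      rw [s_close h hX3 hxY hlt hA, hsX A hA]
    · exfalso
      omega
    · rw [RS_congr h hS hn hx, RS_x h hIF2 hr hx hS]
      intro A hA
      rw [add_comm, s_close h hxY hX3 hlt hA, hsx A hA]

end IIAG

open _root_.Pool.Agent.PTK.IIAG in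
/-- PTK_IIAG: the local term of a point at `λ` when `b` is the cube of an element of `Z[w]`.
Proof (copy of `PT3/IIAG.lean`). Both sides are sums of terms of a symbol at the place `λ`; the sums
of the same terms over all places are `0` (`Stmt_SVF` for the left side, the product formula `SSL`
for the right side), so it suffices to prove the equality at the tame places `π`. If `x` is a local
cube: `Stmt_IF4` and `Stmt_IF1` (`case_cube`). If `3 ∣ V x` and `ch x ≠ 0`: the left side is `0`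
(`Stmt_F7U`), `3 ∣ V n₀` for `n₀ = X³ + x Y³`, so the right side is `ch n₀` times a number which times `ch x` is
`0` by `Stmt_IF2`. If `3 ∤ V x`: the left side is `0` (`Stmt_F6R`, `b` is a cube); `n₀` is close to a
cube or to `x` times a cube, and the right side is `0` (`Stmt_IF2` in the second case). -/
theorem IIAG_thm (hSTM : STM) (hSPP : SPP) (hSSL : SSL) (hLCI : Stmt_LCI) (hIF1 : Stmt_IF1)
    (hIF2 : Stmt_IF2) (hIF4 : Stmt_IF4) (hF6R : Stmt_F6R) (hF7U : Stmt_F7U)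
    (hSVF : Stmt_SVF) : Stmt_IIAG := by
  intro r x p q p' q' X Y hr hx hS hX hY hn hD
  have hr3 : r ^ 3 ≠ 0 := pow_ne_zero 3 hr
  obtain ⟨π0, -⟩ := hSPP.2.2.2.2.1 2 Nat.prime_two (by norm_num)
  have l1 := lf_ne' π0.2.1 hS.n1
  have l2 := lf_ne' π0.2.1 (sol_n hS)
  have key : ∀ a b : Eis, a ≠ 0 → b ≠ 0 → LFIN.FZ (fun v : Pl => sy v a b) :=
    fun a b ha hb => hSSL.2.2.2 a b ha hb
  have hSV : LFIN.FZ (fun v : Pl => SVE (sy v) x p q p' q' X Y) :=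
    hSVF (r ^ 3) x p q p' q' X Y hr3 hx hS hX hY hn hD
  have hG1 := hS.g1
  have hG2 := hS.g2
  have hRS : LFIN.FZ (fun v : Pl => RS (sy v) (X ^ 3 + x * Y ^ 3) p q p' q' r) := by
    unfold RS ASE
    exact (((key _ _ hn hG1).sub (key _ _ hn hG2)).add (key _ _ LEV.w_ne hn)).sub
      ((((key _ _ hn (l1 2)).add (key _ _ hn (l2 1))).sub (key _ _ hn (l1 1))).sub
        (key _ _ hn (l2 2)))
  have hE := (hSV.sub hRS).2
  have h0 : ∀ v : Pl, v ≠ none → SVE (sy v) x p q p' q' X Y -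
      RS (sy v) (X ^ 3 + x * Y ^ 3) p q p' q' r = 0 := by
    intro v hv
    cases v with
    | none => exact absurd rfl hv
    | some π =>
      exact sub_eq_zero.2 (tame hSTM hSPP hLCI hIF1 hIF2 hIF4 hF6R hF7U π hr hx hS hX hY hn hD)
  rw [finsum_eq_single _ none h0] at hE
  exact sub_eq_zero.1 hE

end Pool.Agent.PTK


end

section

/-!
# PTK_MD2: the joint density of the entries of the minus part and the corank of the plus part
(helper64)
-/

set_option autoImplicit false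

open NumberField IsDedekindDomain Finset
open scoped nonZeroDivisors Pointwise

namespace Pool.Agent.PTK

open Pool.Agent.Lib_helper18 Pool.Agent.Lib_helper18.Eis Pool.Agent.Lib_helper84.Cub
open Pool.Agent.PT Pool.Agent.PTE Pool.Agent.PT3 Pool.Agent.PTL Pool.Agent.PTN

/-- a system of the minus part is a system for the densities -/
theorem MD2.sysZ {l N : ℕ} {z : Fin l → Eis} {U R U' R' : Fin l → Fin l → Eis}
    {α β : Fin N → Fin l} (h : SysF z U R U' R') (hp : Prs α β) :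
    SysZ z α β (fun r => U (α r) (β r)) (fun r => R (α r) (β r)) (fun r => U' (α r) (β r))
      (fun r => R' (α r) (β r)) :=
  ⟨h.ind, fun i => (h.mc i).cb, hp.lt, hp.inj, fun r => h.sol _ _ (hp.lt r).ne⟩

/-- PTK_MD2. -/
theorem MD2_thm (hCLSC : CLSC) (hMSP : Stmt_MSP) (hZS2 : Stmt_ZS2) (hBM2 : Stmt_BM2) :
    Stmt_MD2 := by
  classical
  intro h n m k π p e r f w0 c s τ b X Y P Q P' Q' hNF hh hPl l N y U R U' R' α β hMn M t
  obtain ⟨f₁, hf1, h1⟩ := hMSP h n m k π p e r f w0 c s τ b X Y P Q P' Q' hNF hh hPl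
  obtain ⟨f₂, hf2, h2⟩ := hZS2 h n m k π p e r f w0 c hNF hh l N y U R U' R' α β hMn
  obtain ⟨F, hFpos, hF9, hpF, hd1, hd2⟩ : ∃ F : ℕ, 0 < F ∧ 9 ∣ F ∧ (∀ i, p i ∣ F) ∧
      f₁ ∣ F ∧ f₂ ∣ F := by
    refine ⟨9 * (∏ i, p i) * (f₁ * f₂), ?_, ?_, ?_, ?_, ?_⟩
    · have h3 : 0 < ∏ i, p i := Finset.prod_pos fun i _ => (hNF.pp i).pos
      positivity
    · exact Dvd.dvd.mul_right (Dvd.intro _ rfl) _
    · intro i
      exact Dvd.dvd.mul_right (Dvd.dvd.mul_left (Finset.dvd_prod_of_mem p (mem_univ i)) _) _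
    · exact Dvd.dvd.mul_left (Dvd.intro _ rfl) _
    · exact Dvd.dvd.mul_left (Dvd.intro_left _ rfl) _
  obtain ⟨κ, hκ1, hκ2⟩ := hCLSC m π p hNF.pp hNF.p1 hNF.pπ hNF.pinj F hFpos hF9 hpF
  have hκ : IsK π κ := hκ1
  obtain ⟨C, Φ, N₁, h3⟩ := h1 F hFpos hd1 κ hκ
  obtain ⟨C', Φ', N₂, h4⟩ := h2 F hFpos hd2 κ hκ
  obtain ⟨K, hK⟩ := hBM2 s b P Q P' Q' l N (fun i => zN π e (y i)) α β
    (fun r => U (α r) (β r)) (fun r => R (α r) (β r)) (fun r => U' (α r) (β r))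
    (fun r => R' (α r) (β r)) F m t κ
    (Fin.cons w0 c) C Φ (C' - M) Φ' hPl.sys (MD2.sysZ hMn.sys hMn.prs) hFpos hF9 hκ2
  obtain ⟨M', hM⟩ : ∃ M', M' = N₁ + N₂ := ⟨_, rfl⟩
  refine ⟨K + 2 * (2 * ((Finset.range (M' + 1)).card : ℝ)), fun σ hσ1 hσ2 => ?_⟩
  have hB := hK σ hσ1 hσ2
  have i1 := CL.sm_le_add
    {q | q ∈ QMM h n π e w0 c y U R U' R' α β M 2 1 ∧ t ≤ kS h n b X Y P Q P' Q' 1 q}
    (SP b P Q P' Q' t κ (Fin.cons w0 c) C Φ ∩
      SPZ (fun i => zN π e (y i)) α (fun r => U (α r) (β r)) (fun r => R (α r) (β r))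
        (fun r => U' (α r) (β r)) (fun r => R' (α r) (β r)) κ (Fin.cons w0 c) (C' - M) Φ') M'
    (fun q hq hqM hqS => ⟨((h3 q t hq (by omega) hqS.1.1).1 hqS.1.2.1 hqS.2),
      (h4 q M hq (by omega)).1 hqS.1⟩) hσ1
  have i2 := CL.sm_le_add
    {q | q ∈ QMM h n π e w0 c y U R U' R' α β M 2 2 ∧ t ≤ kS h n b X Y P Q P' Q' 2 q}
    (SM b P Q P' Q' t κ (Fin.cons w0 c) C Φ ∩
      SMZ (fun i => zN π e (y i)) α (fun r => U (α r) (β r)) (fun r => R (α r) (β r))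
        (fun r => U' (α r) (β r)) (fun r => R' (α r) (β r)) κ (Fin.cons w0 c) (C' - M) Φ') M'
    (fun q hq hqM hqS => ⟨((h3 q t hq (by omega) hqS.1.1).2 hqS.1.2.1 hqS.2),
      (h4 q M hq (by omega)).2 hqS.1⟩) hσ1
  have e1 : (1 : ℝ) / 3 ^ N / 3 ^ (m + 1) * LI s t * Real.log (1 / (σ - 1)) =
      LI s t / 3 ^ N / 3 ^ (m + 1) * Real.log (1 / (σ - 1)) := by ring
  rw [e1]
  linarith

end Pool.Agent.PTK


end

section

/-!
# PTK_MTL: from moments to tails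
-/

set_option autoImplicit false

open NumberField IsDedekindDomain Finset
open scoped nonZeroDivisors Pointwise

namespace Pool.Agent.PTK

open Pool.Agent.Lib_helper18 Pool.Agent.Lib_helper18.Eis Pool.Agent.Lib_helper84.Cub
open Pool.Agent.PT Pool.Agent.PTE Pool.Agent.PT3 Pool.Agent.PTL Pool.Agent.PTN

namespace MTL

theorem tf_le (k t r : ℕ) : tf (t ≤ r) ≤ (1 / 3 ^ (k * t)) * (3 : ℝ) ^ (k * r) := by
  unfold tf
  split_ifs with h
  · rw [one_div, inv_mul_eq_div, le_div_iff₀ (by positivity), one_mul]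
    exact pow_le_pow_right₀ (by norm_num) (Nat.mul_le_mul_left k h)
  · positivity

end MTL

/-- PTK_MTL -/
theorem MTL_thm : Stmt_MTL := by
  classical
  rintro n a W k t x ⟨K, hK⟩
  refine ⟨K / 3 ^ (k * t), fun σ h1 h2 T => ?_⟩
  have h3 := hK σ h1 h2 T
  have h4 : SumA n a W (fun A => tf (t ≤ CubeRank.rr A)) σ T ≤
      (1 / 3 ^ (k * t)) * SumA n a W (fun A => (3 : ℝ) ^ (k * CubeRank.rr A)) σ T := by
    unfold SumA
    rw [Finset.mul_sum]
    refine Finset.sum_le_sum fun e _ => ?_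
    rw [Finset.mul_sum]
    refine Finset.sum_le_sum fun q _ => ?_
    split_ifs with hc
    · rw [← mul_assoc]
      exact mul_le_mul_of_nonneg_right (MTL.tf_le k t _) (Real.rpow_nonneg (Nat.cast_nonneg q) _)
    · rw [mul_zero]
  refine h4.trans ((mul_le_mul_of_nonneg_left h3 (by positivity)).trans (le_of_eq ?_))
  ring

end Pool.Agent.PTK


end

section

/-!
# PTK, module NM2: the norm theorem for `K(x^(1/3)) / K`, base not a local cube at `λ`

As `PTK/NMN.lean` (helper54), with `NG2` in place of `NGN` (helper62).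
-/

set_option autoImplicit false

open NumberField IsDedekindDomain Finset
open scoped nonZeroDivisors Pointwise

namespace Pool.Agent.PTK

open Pool.Agent.Lib_helper18 Pool.Agent.Lib_helper18.Eis Pool.Agent.Lib_helper84.Cub
open Pool.Agent.PT

open Pool.Agent.PT.NMAIN

/-- NM2. -/
theorem NM2_thm (hSTM : STM) (hSPP : SPP) (hSSL : SSL) (hSLC : SLC)
    (hHERBQ : HERBQ) (hSUN : SUN) (hNRK : Stmt_NRK) (hNHN : Stmt_NHN) (hNTR : Stmt_NTR)
    (hNCN : Stmt_NCN) (hNFX : Stmt_NFX) (hNHO : Stmt_NHO) (hNNS : Stmt_NNS)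
    (hNG2 : Stmt_NG2) : Stmt_NM2 := by
  classical
  intro x L _ _ ι θ σ hxE hxP hxl hV hcube hF y hyE htm hyLC
  have hx3 : ¬ lam ∣ x := hxP.not_lam_dvd
  have hι := hF.inj
  have hι0 : ∀ a : Eis, a ≠ 0 → ι a ≠ 0 := fun a ha h => ha (hι (by rw [h, map_zero]))
  -- the set of places
  obtain ⟨S₀, hS₀⟩ : ∃ S₀ : Finset Pl, ∀ v, v ∈ S₀ ↔ v = none ∨
      ∃ π : PP, v = some π ∧ (π.1 ∣ x ∨ π.1 ∣ y) := by
    have hfin : ({v : Pl | v = none ∨ ∃ π : PP, v = some π ∧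
        (π.1 ∣ x ∨ π.1 ∣ y)}).Finite := by
      have h1 := (hSPP.2.2.1 x hxE).union (hSPP.2.2.1 y hyE)
      refine ((h1.image some).insert none).subset ?_
      rintro v (rfl | ⟨π, rfl, h⟩)
      · exact Set.mem_insert _ _
      · exact Set.mem_insert_of_mem _ ⟨π, h, rfl⟩
    exact ⟨hfin.toFinset, fun v => hfin.mem_toFinset⟩
  obtain ⟨S, e, d, hSS, hSLC', hcard, hd0, hdS, hdind, hdsym⟩ := hNG2 x S₀ hxE hxP hxl hV hcube
    ((hS₀ none).2 (Or.inl rfl)) (fun π h => (hS₀ _).2 (Or.inr ⟨π, rfl, Or.inl h⟩)) (by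
      intro π h hLC
      rcases (hS₀ _).1 h with h1 | ⟨π', h1, h2⟩
      · exact absurd h1 (by simp)
      · have h3 : π = π' := Option.some.inj h1
        subst h3
        rcases h2 with h2 | h2
        · exact h2
        · exact hyLC π h2 hLC)
  have hnone : none ∈ S := hSS ((hS₀ none).2 (Or.inl rfl))
  have hxS : ∀ π : PP, π.1 ∣ x → some π ∈ S := fun π h =>
    hSS ((hS₀ _).2 (Or.inr ⟨π, rfl, Or.inl h⟩))
  have hyS : ∀ v : Pl, uni v ∣ y → v ∈ S := by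
    intro v hv
    cases v with
    | none => exact hnone
    | some π => exact hSS ((hS₀ _).2 (Or.inr ⟨π, rfl, Or.inr hv⟩))
  obtain ⟨H1, H2, -⟩ := hNHN x L ι θ σ hxE hF
  obtain ⟨-, T2, -, T4, -, -⟩ := hNTR x L ι θ σ hxE hx3 hF
  obtain ⟨X1, X2, X3⟩ := hNFX x L ι θ σ hxE hx3 hF S
  obtain ⟨O1, O2⟩ := hNHO x L ι θ σ hxE hx3 hF S hnone hxS
  have hNC := hNCN x L ι θ σ hxE hx3 hV hF
  have hσ3 : σ ^ 3 = 1 := by
    ext z
    change σ (σ (σ z)) = z
    exact H1 z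
  -- norms
  have hNval : ∀ u : Lˣ, ((∏ i ∈ range 3, σ ^ i • u : Lˣ) : L) = u * σ u * σ (σ u) := by
    intro u
    rw [prod_range_succ, prod_range_succ, prod_range_succ, prod_range_zero, one_mul]
    rfl
  have hN : ∀ u : Lˣ, ∃ a b : Eis, a ≠ 0 ∧ b ≠ 0 ∧
      ((∏ i ∈ range 3, σ ^ i • u : Lˣ) : L) * ι b = ι a := by
    intro u
    have h1 : σ ((∏ i ∈ range 3, σ ^ i • u : Lˣ) : L) = ((∏ i ∈ range 3, σ ^ i • u : Lˣ) : L) := by
      rw [hNval, map_mul, map_mul, H1]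
      ring
    obtain ⟨a, b, hb, hab⟩ := H2 _ h1
    refine ⟨a, b, ?_, hb, hab⟩
    rintro rfl
    rw [map_zero] at hab
    exact (mul_ne_zero (Units.ne_zero _) (hι0 b hb)) hab
  -- the units
  have hd' : ∀ i, ∃ u : Lˣ, (u : L) = ι (d i) := fun i => ⟨Units.mk0 _ (hι0 _ (hd0 i)), rfl⟩
  choose d' hd' using hd'
  have hpsi := fun {u : Lˣ} {a b : Eis} (ha : a ≠ 0) (hb : b ≠ 0) (h : (u : L) * ι b = ι a) v =>
    psi_eq (L := L) (ι := ι) hSTM hSPP hSSL hι hxE ha hb h v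
  have hpsi1 : ∀ (u : Lˣ) (a : Eis), a ≠ 0 → (u : L) = ι a → ∀ v, psi ι x u v = sy v a x := by
    intro u a ha h v
    rw [hpsi (u := u) ha one_ne_zero (by rw [map_one, mul_one, h]),
      sy_one hSTM hSPP hSSL v _ hxE, sub_zero]
  -- the set of primes
  obtain ⟨A, hA⟩ : ∃ A : Finset (HeightOneSpectrum (𝓞 L)),
      (A : Set (HeightOneSpectrum (𝓞 L))) = ⋃ v ∈ S, Abv ι v := by
    have hfin : (⋃ v ∈ S, Abv ι v).Finite := S.finite_toSet.biUnion fun v _ => (T4 v).1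
    exact ⟨hfin.toFinset, hfin.coe_toFinset⟩
  obtain ⟨U1, U2⟩ := hSUN L A
  rw [hA] at U1 U2
  have hAcard : A.card + 2 * (e + 1) = 3 * S.card := by
    have h1 : A = S.biUnion fun v => (T4 v).1.toFinset := by
      ext P
      rw [Finset.mem_biUnion, ← Finset.mem_coe, hA, Set.mem_iUnion₂]
      constructor
      · rintro ⟨v, hv, hP⟩
        exact ⟨v, hv, (T4 v).1.mem_toFinset.2 hP⟩
      · rintro ⟨v, hv, hP⟩
        exact ⟨v, hv, (T4 v).1.mem_toFinset.1 hP⟩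
    rw [h1, Finset.card_biUnion]
    · have h2 : ∀ v ∈ S, (T4 v).1.toFinset.card = if LCE (uni v) x then 3 else 1 := by
        intro v _
        rw [← hNC v, Nat.card_coe_set_eq, Set.ncard_eq_toFinset_card _ (T4 v).1]
      rw [Finset.sum_congr rfl h2, ← hcard, Finset.card_filter, Finset.mul_sum,
        ← Finset.sum_add_distrib, Finset.card_eq_sum_ones, Finset.mul_sum]
      refine Finset.sum_congr rfl fun v _ => ?_
      by_cases h : LCE (uni v) x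
      · rw [if_pos h, if_neg (not_not.2 h)]
        rfl
      · rw [if_neg h, if_pos h]
        rfl
    · intro v _ v' _ hne
      rw [Function.onFun, Finset.disjoint_left]
      intro P hP hP'
      rw [(T4 v).1.mem_toFinset] at hP
      rw [(T4 v').1.mem_toFinset] at hP'
      obtain ⟨v0, -, h0⟩ := T2 P
      have e1 := uni_inj hSPP (h0 _ hP)
      have e2 := uni_inj hSPP (h0 _ hP')
      exact hne (e1.symm.trans e2)
  obtain ⟨y', hy'⟩ : ∃ u : Lˣ, (u : L) = ι y := ⟨Units.mk0 _ (hι0 _ hyE), rfl⟩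
  have : Fact (Nat.Prime 3) := ⟨Nat.prime_three⟩
  have key := hHERBQ 3 Lˣ (L ≃ₐ[ℚ] L) σ (SU ι S) (SF ι σ S) Pl (psi ι x) e d' hσ3 U1 O1
    (fun u => Iff.rfl) O2 ?_ ?_ ?_ ?_ ?_ ?_ y' (X1 y' _ hy' hyS) ?_
  · obtain ⟨η, -, hη⟩ := key
    refine ⟨(η : L), η.ne_zero, ?_⟩
    rw [← hNval, ← hη, hy']
  · -- multiplicativity
    intro u hu u' hu'
    obtain ⟨a, b, ha, hb, hab⟩ := X2 u hu
    obtain ⟨a', b', ha', hb', hab'⟩ := X2 u' hu'
    funext v
    rw [Pi.add_apply, hpsi ha hb hab, hpsi ha' hb' hab',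
      hpsi (u := u * u') (mul_ne_zero ha ha') (mul_ne_zero hb hb') (by
        rw [Units.val_mul, map_mul, map_mul, ← hab, ← hab']
        ring),
      sy_mul hSTM hSPP hSSL v _ _ _ ha ha' hxE, sy_mul hSTM hSPP hSSL v _ _ _ hb hb' hxE]
    ring
  · -- norms have trivial symbols
    intro u _
    obtain ⟨a, b, ha, hb, hab⟩ := hN u
    funext v
    rw [hpsi ha hb hab]
    obtain ⟨e', he'⟩ := sy_lsym hSTM hSPP hSLC v
    rw [Pi.zero_apply, sub_eq_zero]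
    exact hNNS x L ι θ σ hxE hF (uni v) (sy v) e' he' (u : L) a b u.ne_zero ha hb
      (by rw [← hNval]; exact hab)
  · -- the units are in `E'`
    intro i
    exact X1 (d' i) (d i) (hd' i) (hdS i)
  · -- multiplicative independence
    intro n hn
    have h1 : (fun i => (n i).toNat) = fun i => (-n i).toNat := by
      apply hdind
      apply hι
      have h2 : ∏ i, (d' i) ^ ((n i).toNat) = ∏ i, (d' i) ^ ((-n i).toNat) := by
        rw [← div_eq_one, ← Finset.prod_div_distrib, ← hn]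
        refine Finset.prod_congr rfl fun i _ => ?_
        rw [← zpow_natCast, ← zpow_natCast, div_eq_mul_inv, ← zpow_sub]
        congr 1
        omega
      have h3 := congrArg (fun u : Lˣ => (u : L)) h2
      simp only [Units.coe_prod, Units.val_pow_eq_pow_val, hd'] at h3
      rw [map_prod, map_prod]
      simp only [map_pow]
      exact h3
    funext i
    have h2 : (n i).toNat = (-n i).toNat := congrFun h1 i
    rw [Pi.zero_apply]
    omega
  · -- independence of the symbols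
    intro n hn
    apply hdsym n
    intro v
    have h1 := congrFun hn v
    rw [Finset.sum_apply] at h1
    rw [← Pi.zero_apply (M := fun _ : Pl => ZMod 3) v, ← h1]
    refine Finset.sum_congr rfl fun i _ => ?_
    rw [Pi.smul_apply, smul_eq_mul, hpsi1 (d' i) (d i) (hd0 i) (hd' i)]
  · -- ranks
    change Module.finrank ℤ (Additive (SU ι S)) + 3 * e = 3 * Module.finrank ℤ (Additive (SF ι σ S)) + e
    have h1 : Module.finrank ℤ (Additive (SU ι S)) = 2 + A.card := by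
      rw [← hNRK x L ι θ σ hF]
      exact U2
    rw [h1, X3]
    omega
  · -- the symbols of `y`
    funext v
    rw [hpsi1 y' _ hyE hy', Pi.zero_apply]
    have h1 : ∀ π : PP, tm π.1 y x = 0 := by
      intro π
      have h2 := htm π
      rw [tm] at h2 ⊢
      linear_combination -h2
    cases v with
    | none =>
      change -∑ᶠ π : PP, tm π.1 y x = 0
      rw [finsum_eq_zero_of_forall_eq_zero h1, neg_zero]
    | some π => exact h1 π

end Pool.Agent.PTK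


end

section

/-!
# PTK_PLE: existence of a system for the plus part
-/

set_option autoImplicit false

open NumberField IsDedekindDomain Finset
open scoped nonZeroDivisors Pointwise

namespace Pool.Agent.PTK

open Pool.Agent.Lib_helper18 Pool.Agent.Lib_helper18.Eis Pool.Agent.Lib_helper84.Cub
open Pool.Agent.PT Pool.Agent.PTE Pool.Agent.PT3 Pool.Agent.PTL Pool.Agent.PTN

theorem PLE_thm (hNBAS : Stmt_NBAS) (hESYT : ESYT) : Stmt_PLE := by
  intro h n m k π p e r f w0 c hNF hh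
  obtain ⟨s, τ, b, X, Y, hs, hadm, hV, hind, h3, hlam, hgen⟩ :=
    hNBAS h n m k π p e r f w0 c hNF hh
  obtain ⟨P, Q, P', Q', hSys, hSw⟩ := hESYT h n m k π p e r f w0 c s b hNF
    (fun i => (hadm i).1) hV hind h3
  exact ⟨s, τ, b, X, Y, P, Q, P', Q', hs, ⟨hadm, hSys, hSw, hlam, hgen⟩⟩

end Pool.Agent.PTK


end

section

/-!
# The average rank of prime twists: the classes of the points form a group
-/

set_option autoImplicit false

namespace Pool.Agent.PTK.S1G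

open Pool.Agent.Lib_helper18 Pool.Agent.Lib_helper18.Eis Pool.Agent.Lib_helper84.Cub
open Pool.Agent.PT Pool.Agent.PTN WeierstrassCurve.Affine

variable {K : Type} [Field K] [CharZero K] {ι : Eis →+* K} {c : K →ₐ[ℚ] K}

/-- an identity up to cubes in the field gives one in the ring -/
theorem descend (hK : KF K ι c) {a b : Eis} {u v : K} (hu : u ≠ 0) (hv : v ≠ 0)
    (h : ι a * u ^ 3 = ι b * v ^ 3) :
    ∃ g g' : Eis, g ≠ 0 ∧ g' ≠ 0 ∧ a * g ^ 3 = b * g' ^ 3 := by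
  obtain ⟨e1, d1, hd1, h1⟩ := hK.frac u
  obtain ⟨e2, d2, hd2, h2⟩ := hK.frac v
  have hd1K : (d1 : K) ≠ 0 := by exact_mod_cast hd1
  have hd2K : (d2 : K) ≠ 0 := by exact_mod_cast hd2
  have hg : ι (e1 * (d2 : Eis)) = u * d1 * d2 := by rw [map_mul, map_intCast, h1]
  have hg' : ι (e2 * (d1 : Eis)) = v * d2 * d1 := by rw [map_mul, map_intCast, h2]
  refine ⟨e1 * (d2 : Eis), e2 * (d1 : Eis), fun h0 => ?_, fun h0 => ?_, hK.inj ?_⟩
  · rw [h0, map_zero] at hg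
    exact mul_ne_zero (mul_ne_zero hu hd1K) hd2K hg.symm
  · rw [h0, map_zero] at hg'
    exact mul_ne_zero (mul_ne_zero hv hd2K) hd1K hg'.symm
  · rw [map_mul, map_mul, map_pow, map_pow, hg, hg']
    linear_combination (d1 : K) ^ 3 * (d2 : K) ^ 3 * h

end Pool.Agent.PTK.S1G

namespace Pool.Agent.PTK

open Pool.Agent.Lib_helper18 Pool.Agent.Lib_helper18.Eis Pool.Agent.Lib_helper84.Cub
open Pool.Agent.PT Pool.Agent.PTE Pool.Agent.PT3 Pool.Agent.PTL Pool.Agent.PTN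
open WeierstrassCurve.Affine

theorem S1G_thm (h0 : Stmt_KEX) (h2 : Stmt_KEMB) (h4 : Stmt_KAD) (h7 : Stmt_KMI) : Stmt_S1G := by
  classical
  intro B hB hcf hnc ζ ζ' hζ hζ'
  obtain ⟨K, fK, cK, dK, ι, c, hK⟩ := h0
  obtain ⟨cc, j, hcc, hj, -, -, -⟩ := h2 K ι c B hK hB
  obtain ⟨hk0, hadd⟩ := h4 K ι c B hK hB
  -- a point with the given class
  have hpt : ∀ ζ, S1 B ζ → ∃ (P : CubeRank.GA B) (g : K), g ≠ 0 ∧
      kap ι (j P) = ι ζ * g ^ 3 := by
    rintro ζ (rfl | ⟨x, y, z, hco, hz, he, rfl⟩)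
    · exact ⟨0, 1, one_ne_zero, by rw [map_zero, KID.kap_zero, map_one]; ring⟩
    · obtain ⟨P, hP⟩ := (CubeRank.basics B hB).2.1 x y z hz hco he
      obtain ⟨g, hg, e⟩ := h7 K ι c B hK hB j hj P x y z hP
      exact ⟨P, g, hg, e⟩
  -- the class of a point
  have hcl : ∀ P : CubeRank.GA B, ∃ ζ : Eis, S1 B ζ ∧ ∃ g : K, g ≠ 0 ∧
      kap ι (j P) = ι ζ * g ^ 3 := by
    intro P
    by_cases hP : P = 0
    · refine ⟨1, Or.inl rfl, 1, one_ne_zero, ?_⟩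
      rw [hP, map_zero, KID.kap_zero, map_one]; ring
    · obtain ⟨a, b, z, hC⟩ := (CubeRank.basics B hB).1 hcf P hP
      obtain ⟨g, hg, e⟩ := h7 K ι c B hK hB j hj P a b z hC
      exact ⟨_, Or.inr ⟨a, b, z, hC.2.1, hC.1, hC.2.2.1, rfl⟩, g, hg, e⟩
  obtain ⟨P, g1, hg1, e1⟩ := hpt ζ hζ
  obtain ⟨P', g2, hg2, e2⟩ := hpt ζ' hζ'
  obtain ⟨ζ'', hS, g3, hg3, e3⟩ := hcl (P - P')
  have hp' := hk0 (j P')
  obtain ⟨k, hk, ek⟩ := KID.kap_sub hk0 hadd (j P) (j P')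
  have hζ0 : ι ζ' ≠ 0 := by
    intro h
    rw [e2, h, zero_mul] at hp'
    exact hp' rfl
  rw [map_sub, ek, e1, e2] at e3
  have e4 : ι (ζ'' * ζ') * (g3 * g2) ^ 3 = ι ζ * (g1 * k) ^ 3 := by
    rw [map_mul]
    field_simp at e3
    linear_combination -e3
  obtain ⟨g, g', hg, hg', e5⟩ := S1G.descend hK (mul_ne_zero hg3 hg2) (mul_ne_zero hg1 hk) e4
  exact ⟨ζ'', g, g', hS, hg, hg', e5⟩

end Pool.Agent.PTK


end

section

/-!
# The average of `3^r`: from `UpS` to `AboveA`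
-/

set_option autoImplicit false

open NumberField IsDedekindDomain Finset
open scoped nonZeroDivisors Pointwise

namespace Pool.Agent.PTK

open Pool.Agent.Lib_helper18 Pool.Agent.Lib_helper18.Eis Pool.Agent.Lib_helper84.Cub
open Pool.Agent.PT Pool.Agent.PTE Pool.Agent.PT3 Pool.Agent.PTL Pool.Agent.PTN

namespace UPA

/-- a term with a weight in `[0, 1]` -/
theorem term_le (P : Prop) [Decidable P] (a b : ℝ) (h0 : 0 ≤ b) (h1 : b ≤ 1) :
    |if P then a * b else 0| ≤ |a| := by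
  split_ifs
  · rw [abs_mul, abs_of_nonneg h0]
    exact mul_le_of_le_one_right (abs_nonneg a) h1
  · rw [abs_zero]
    exact abs_nonneg a

end UPA

open Classical in
/-- from `UpS` to `AboveA` -/
theorem UPA_thm (hSPP : SPP) : Stmt_UPA := by
  intro h n m k π p e r f w0 c a F x hN hU
  obtain ⟨S, hS⟩ : ∃ S : ℕ → Set ℕ, S = fun E => {q : ℕ | q % 3 = a ∧ InCT E π w0 c q} :=
    ⟨_, rfl⟩
  rw [← hS] at hU
  obtain ⟨K, hK⟩ := hU
  refine ⟨K + ∑ E ∈ ({1, 2} : Finset ℕ), ∑ q ∈ univ.image p, 2 * |F (BB h n E q)|,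
    fun σ h1 h2 T => ?_⟩
  have e1 := hK σ h1 h2 T
  have e2 : SumA ((3 ^ h * n : ℕ) : ℤ) a (Kl π w0 c) F σ T ≤
      ∑ E ∈ ({1, 2} : Finset ℕ), ∑ q ∈ T,
        (if q.Prime ∧ q ∈ S E then
          F (BB h n E q) * (q : ℝ) ^ (-σ) else 0) +
      ∑ E ∈ ({1, 2} : Finset ℕ), ∑ q ∈ univ.image p, 2 * |F (BB h n E q)| := by
    unfold SumA
    rw [← Finset.sum_add_distrib]
    refine Finset.sum_le_sum fun E _ => ?_
    have hB : ∀ q : ℕ, ((3 ^ h * n : ℕ) : ℤ) * (q : ℤ) ^ E = BB h n E q := by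
      intro q
      unfold BB
      push_cast
      ring
    have e3 : ∑ q ∈ T, (if q ∈ univ.image p then 2 * |F (BB h n E q)| else 0) ≤
        ∑ q ∈ univ.image p, 2 * |F (BB h n E q)| := by
      rw [← Finset.sum_filter]
      refine Finset.sum_le_sum_of_subset_of_nonneg ?_ fun q _ _ =>
        mul_nonneg zero_le_two (abs_nonneg _)
      intro q hq
      exact (Finset.mem_filter.1 hq).2
    refine le_trans ?_ (add_le_add_right e3 _)
    rw [← Finset.sum_add_distrib]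
    refine Finset.sum_le_sum fun q _ => ?_
    rw [hB]
    by_cases hqp : q ∈ univ.image p
    · rw [if_pos hqp]
      obtain ⟨i, _, hi⟩ := Finset.mem_image.1 hqp
      have hq : q.Prime := hi ▸ hN.pp i
      have hq0 : 0 ≤ (q : ℝ) ^ (-σ) := Real.rpow_nonneg (Nat.cast_nonneg q) _
      have hq1 : (q : ℝ) ^ (-σ) ≤ 1 :=
        Real.rpow_le_one_of_one_le_of_nonpos (by exact_mod_cast hq.one_lt.le) (by linarith)
      have t1 := UPA.term_le (q.Prime ∧ q % 3 = a ∧ Kl π w0 c ((q : ℤ) ^ E)) (F (BB h n E q))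
        ((q : ℝ) ^ (-σ)) hq0 hq1
      have t2 := UPA.term_le
        (q.Prime ∧ q ∈ S E) (F (BB h n E q))
        ((q : ℝ) ^ (-σ)) hq0 hq1
      have t3 := (abs_le.1 t1).2
      have t4 := (abs_le.1 t2).1
      linarith
    · rw [if_neg hqp, add_zero]
      by_cases hq : q.Prime
      · have hqi : ∀ i, q ≠ p i := fun i hi =>
          hqp (Finset.mem_image.2 ⟨i, mem_univ _, hi.symm⟩)
        have hiff := CAB.kl_iff hSPP hN w0 c hq hqi E
        refine le_of_eq ?_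
        refine if_congr ?_ rfl rfl
        rw [hiff, hS]
        rfl
      · rw [if_neg fun hc => hq hc.1, if_neg fun hc => hq hc.1]
  rw [← add_assoc]
  exact e2.trans (add_le_add e1 (le_refl _))

end Pool.Agent.PTK


end

section

/-!
# The average rank of prime twists: the number of the vectors is a power of `3` (module WGR)
-/

set_option autoImplicit false

open NumberField IsDedekindDomain Finset
open scoped nonZeroDivisors Pointwise

namespace Pool.Agent.PTK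

open Pool.Agent.Lib_helper18 Pool.Agent.Lib_helper18.Eis Pool.Agent.Lib_helper84.Cub
open Pool.Agent.PT Pool.Agent.PTE Pool.Agent.PT3 Pool.Agent.PTL Pool.Agent.PTN

namespace WGR

theorem zN_zero {m : ℕ} (π : Fin m → PP) (e : Fin m → ℕ) : zN π e 0 = 1 := by
  unfold zN
  simp

theorem occ_one (B : ℤ) : Occ B 1 :=
  ⟨1, 1, 1, Or.inl rfl, one_ne_zero, one_ne_zero, rfl⟩

end WGR

theorem WGR_thm (hSPP : SPP) (hSSL : SSL) (hSCJ : SCJ) (hLCL : LCL) (hNKIN : Stmt_NKIN)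
    (hZA : Stmt_ZA) (hZS : Stmt_ZS) (hS1G : Stmt_S1G) : Stmt_WGR := by
  intro h n m k π p e r f w0 c E q hNF hh hE hq hq3 hq2 hcl hqn
  have : Fact (Nat.Prime 3) := ⟨Nat.prime_three⟩
  have hB0 : BB h n E q ≠ 0 := NBK0.BB_ne hNF hq
  have hcf := NBK0.cubeFree_BB hNF hh hE hq hq3 hqn
  have h3le : 3 ≤ (BB h n E q).natAbs := NBK0.three_le hNF hE hq hq3
  have hnc : ¬ ∃ t : ℤ, t ^ 3 = BB h n E q :=
    CubeRank.GenPf.not_cube hcf (by rw [Int.abs_eq_natAbs]; exact_mod_cast h3le)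
  have h27 := NBK0.not_27 hNF hh hE hq hq3 hqn
  have hA := hZA n m k π p e r f hNF
  have hsub : ∀ y ∈ WqS h n π p e r w0 c (BB h n E q), ∀ y' ∈ WqS h n π p e r w0 c (BB h n E q),
      y + -y' ∈ WqS h n π p e r w0 c (BB h n E q) := by
    rintro y ⟨hy, ζ, g, g', hζ, hg, hg', e1⟩ y' ⟨hy', ζ', g2, g2', hζ', hg2, hg2', e2⟩
    obtain ⟨ζ'', a, b, hζ'', ha, hb, e3⟩ := hS1G _ hB0 hcf hnc ζ ζ' hζ hζ'
    obtain ⟨-, -, -, -, -, -, -, -, hadd, -⟩ := hA (y + -y')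
    obtain ⟨u, v, hu, hv, e4⟩ := hadd y'
    rw [neg_add_cancel_right] at e4
    refine ⟨add_mem hy (neg_mem hy'), ζ'', g2' * a * g * v, u * g' * b * g2, hζ'',
      mul_ne_zero (mul_ne_zero (mul_ne_zero hg2' ha) hg) hv,
      mul_ne_zero (mul_ne_zero (mul_ne_zero hu hg') hb) hg2, ?_⟩
    have hz' : zN π e y' ≠ 0 := (hA y').1
    apply mul_right_cancel₀ hz'
    linear_combination (a ^ 3 * g ^ 3 * v ^ 3 * ζ'') * (-e2) + (g ^ 3 * g2 ^ 3 * v ^ 3) * e3 +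
      (b ^ 3 * g2 ^ 3 * v ^ 3) * e1 - (g' ^ 3 * b ^ 3 * g2 ^ 3) * e4
  have hne : (WqS h n π p e r w0 c (BB h n E q)).Nonempty :=
    ⟨0, zero_mem _, by rw [WGR.zN_zero]; exact WGR.occ_one _⟩
  refine ⟨?_, ?_⟩
  · let W : AddSubgroup (Fin (m + 1) → ZMod 3) :=
      AddSubgroup.ofSub (WqS h n π p e r w0 c (BB h n E q)) hne hsub
    let W' : Submodule (ZMod 3) (Fin (m + 1) → ZMod 3) := AddSubgroup.toZModSubmodule 3 W
    refine ⟨Module.finrank (ZMod 3) W', ?_⟩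
    have h1 := Module.natCard_eq_pow_finrank (K := ZMod 3) (V := W')
    rw [Nat.card_zmod] at h1
    exact h1
  · intro ζ hζ
    have hSel : SelM (BB h n E q) ζ := NBK0.selM_of_S1 hSPP hNKIN hB0 h27 hζ
    have hy := NPSI.yv_mem hSPP hSSL hSCJ hLCL hNF hh hE hq hq2 hcl hqn hSel
    have hSelz := hZS h n m k π p e r f w0 c E q hNF hh hE hq hq2 hcl hqn _ hy
    obtain ⟨-, -, -, -, -, -, -, hyv, -, -⟩ := hA (NPSI.yv π e ζ)
    obtain ⟨g, g', hg, hg', heq⟩ := NPSI.yv_inj hSPP hSSL hLCL hNF hE hq hq2 hqn hSel hSelz hyv.symm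
    exact ⟨_, ⟨hy, ζ, g, g', hζ, hg, hg', heq⟩, g, g', hg, hg', heq⟩

end Pool.Agent.PTK


end

section

/-!
# PTK_WGU: the classes of the rational points, `q = 1 (mod 3)` (helper85)
-/

set_option autoImplicit false

open NumberField IsDedekindDomain Finset
open scoped nonZeroDivisors Pointwise

namespace Pool.Agent.PTK

open Pool.Agent.Lib_helper18 Pool.Agent.Lib_helper18.Eis Pool.Agent.Lib_helper84.Cub
open Pool.Agent.PT Pool.Agent.PTE Pool.Agent.PT3 Pool.Agent.PTL Pool.Agent.PTN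
open Pool.Agent.PT.EHYP

namespace WGU

section
variable {h n m k : ℕ} {π : Fin m → PP} {p e : Fin m → ℕ} {r f : Fin k → ℕ} {w0 : ZMod 3}
  {c : Fin m → ZMod 3} {E q : ℕ} {ρ : PP}

/-- a class of the minus part with valuation divisible by `3` at `ρ` has a vector in `VS` -/
theorem vec (hSTM : STM) (hSPP : SPP) (hSSL : SSL) (hSCJ : SCJ) (hLCL : LCL) (hZA : Stmt_ZA)
    (hZSU : Stmt_ZSU) (hN : NF n π p e r f) (hh : h ≤ 2) (hE : E = 1 ∨ E = 2) (hq : q.Prime)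
    (hq1 : q % 3 = 1) (hcl : InCT E π w0 c q) (hqn : ¬ q ∣ n)
    (hρ : (q : Eis) = ρ.1 * conj ρ.1) (hD : NPSU.Dat h n E q π e w0 c ρ) {z : Eis}
    (hz : SelM (BB h n E q) z) (hV : (V ρ.1 z : ZMod 3) = 0) :
    ∃ y ∈ VS h n π p e r w0 c, ∃ g g' : Eis, g ≠ 0 ∧ g' ≠ 0 ∧
      z * g ^ 3 = zN π e y * g' ^ 3 := by
  have hA := hZA n m k π p e r f hN
  have hy := NPSU.fst_mem (NPSU.mem_YY hSPP hSSL hSCJ hLCL hN hh hE hq hq1 hqn hρ hD hz) hV
  obtain ⟨y, hyd⟩ : ∃ y, y = (NPSU.YY π e ρ z).1 := ⟨_, rfl⟩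
  rw [← hyd] at hy
  obtain ⟨a1, -, -, a4, -, -, -, a8, -, -⟩ := hA y
  have hz' := hZSU h n m k π p e r f w0 c E q hN hh hE hq hq1 hcl hqn y hy
  have hz2 := NPSU.SelM_mul hSTM hSPP hSSL hD.ne hz hz'
  have hne := hz.ne
  have h40 : (4 : Eis) ≠ 0 := by
    have := HYPU.cast_ne (x := 4) (by norm_num)
    exact_mod_cast this
  have h0 : NPSI.yv π e (zN π e y) = (NPSU.YY π e ρ z).1 := a8.trans hyd
  have h3 : -sl (zN π e y) 4 = -sl z 4 := congrFun h0 0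
  have h4 : ∀ i : Fin m, (e i : ZMod 3) * (V (π i).1 (zN π e y) : ZMod 3) =
      (e i : ZMod 3) * (V (π i).1 z : ZMod 3) := fun i => congrFun h0 i.succ
  have h5 : ∀ i : Fin m, (V (π i).1 z : ZMod 3) = (V (π i).1 (zN π e y) : ZMod 3) := by
    intro i
    have h6 := HYPS.e_sq hN i
    linear_combination -(e i : ZMod 3) * h4 i - ((V (π i).1 z : ZMod 3) -
      (V (π i).1 (zN π e y) : ZMod 3)) * h6
  have h2 : (V ρ.1 z : ZMod 3) = (V ρ.1 (zN π e y) : ZMod 3) := by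
    rw [hV, V_eq_zero (a4 ρ hD.rn)]
    rfl
  have hVz : ∀ τ : PP, (V τ.1 z : ZMod 3) = (V τ.1 (zN π e y) : ZMod 3) →
      (V τ.1 (z * zN π e y ^ 2) : ZMod 3) = 0 := by
    intro τ hτ
    rw [V_mul τ.2.1 hne (pow_ne_zero _ a1), V_pow τ.2.1 a1]
    push_cast
    rw [hτ]
    linear_combination three_zero (V τ.1 (zN π e y) : ZMod 3)
  have h6 : sl (z * zN π e y ^ 2) 4 = 0 := by
    have h7 := add3_sl hSSL h40
    have h8 := h7 z (zN π e y ^ 2) hne (pow_ne_zero _ a1)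
    have h9 := h7.pow a1 2
    simp only at h8 h9
    rw [h8, h9]
    push_cast
    linear_combination three_zero (sl (zN π e y) 4) + h3
  obtain ⟨γ, hγ⟩ := NPSU.cube hSPP hSSL hLCL hN hE hq hq1 hqn hρ hD hz2 h6
    (fun i => hVz _ (h5 i)) (hVz _ h2)
  refine ⟨y, hy, zN π e y, γ, a1, ?_, ?_⟩
  · rintro rfl
    rw [zero_pow (by norm_num)] at hγ
    exact mul_ne_zero hne (pow_ne_zero _ a1) hγ
  · rw [← hγ]
    ring

/-- if there is an admissible class with nonzero symbol at `ρ`, the valuations at `ρ` of the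
minus part are divisible by `3` -/
theorem val (hSPP : SPP) (hSSL : SSL) (hSCJ : SCJ) (hLCL : LCL) (hV : Stmt_NVEC)
    (hN : NF n π p e r f) (hh : h ≤ 2) (hE : E = 1 ∨ E = 2) (hq : q.Prime)
    (hq1 : q % 3 = 1) (hqn : ¬ q ∣ n)
    (hρ : (q : Eis) = ρ.1 * conj ρ.1) (hD : NPSU.Dat h n E q π e w0 c ρ)
    (hx : ∃ x : ℤ, AdN h n π w0 c x ∧ sym ρ.1 (x : Eis) ≠ 0) {z : Eis}
    (hz : SelM (BB h n E q) z) : (V ρ.1 z : ZMod 3) = 0 := by
  obtain ⟨hV1, -, -⟩ := hV h n m k π p e r f w0 c hN hh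
  obtain ⟨x, hx1, hx2⟩ := hx
  have h1 := (hV1 x hx1.1.ne hx1.1.supp).1 hx1
  have h2 := NPSU.sum_col hSPP hN ρ hD.rn hx1.1.ne hx1.1.supp
  have h3 := NPSU.mem_YY hSPP hSSL hSCJ hLCL hN hh hE hq hq1 hqn hρ hD hz
  exact NPSU.snd_zero h1 (by rw [h2]; exact hx2) _ h3

end

end WGU

open _root_.Pool.Agent.PTK.WGU in
theorem WGU_thm (hSTM : STM) (hSPP : SPP) (hSSL : SSL) (hSCJ : SCJ) (hLCL : LCL)
    (hNVEC : Stmt_NVEC) (hNKIN : Stmt_NKIN) (hZA : Stmt_ZA) (hZSU : Stmt_ZSU)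
    (hS1G : Stmt_S1G) : Stmt_WGU := by
  classical
  intro h n m k π p e r f w0 c E q ρ hNF hh hE hq hq3 hq1 hcl hqn hρ
  have : Fact (Nat.Prime 3) := ⟨Nat.prime_three⟩
  have hD : NPSU.Dat h n E q π e w0 c ρ := NPSU.dat hSPP hLCL hNF hE hq hq1 hcl hqn hρ
  have hB0 : BB h n E q ≠ 0 := NBK0.BB_ne hNF hq
  have hcf := NBK0.cubeFree_BB hNF hh hE hq hq3 hqn
  have h3le : 3 ≤ (BB h n E q).natAbs := NBK0.three_le hNF hE hq hq3
  have hnc : ¬ ∃ t : ℤ, t ^ 3 = BB h n E q :=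
    CubeRank.GenPf.not_cube hcf (by rw [Int.abs_eq_natAbs]; exact_mod_cast h3le)
  have h27 := NBK0.not_27 hNF hh hE hq hq3 hqn
  have hA := hZA n m k π p e r f hNF
  have hsub : ∀ y ∈ WqS h n π p e r w0 c (BB h n E q), ∀ y' ∈ WqS h n π p e r w0 c (BB h n E q),
      y + -y' ∈ WqS h n π p e r w0 c (BB h n E q) := by
    rintro y ⟨hy, ζ, g, g', hζ, hg, hg', e1⟩ y' ⟨hy', ζ', g2, g2', hζ', hg2, hg2', e2⟩
    obtain ⟨ζ'', a, b, hζ'', ha, hb, e3⟩ := hS1G _ hB0 hcf hnc ζ ζ' hζ hζ'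
    obtain ⟨-, -, -, -, -, -, -, -, hadd, -⟩ := hA (y + -y')
    obtain ⟨u, v, hu, hv, e4⟩ := hadd y'
    rw [neg_add_cancel_right] at e4
    refine ⟨add_mem hy (neg_mem hy'), ζ'', g2' * a * g * v, u * g' * b * g2, hζ'',
      mul_ne_zero (mul_ne_zero (mul_ne_zero hg2' ha) hg) hv,
      mul_ne_zero (mul_ne_zero (mul_ne_zero hu hg') hb) hg2, ?_⟩
    have hz' : zN π e y' ≠ 0 := (hA y').1
    apply mul_right_cancel₀ hz'
    linear_combination (a ^ 3 * g ^ 3 * v ^ 3 * ζ'') * (-e2) + (g ^ 3 * g2 ^ 3 * v ^ 3) * e3 +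
      (b ^ 3 * g2 ^ 3 * v ^ 3) * e1 - (g' ^ 3 * b ^ 3 * g2 ^ 3) * e4
  have hne : (WqS h n π p e r w0 c (BB h n E q)).Nonempty :=
    ⟨0, zero_mem _, by rw [WGR.zN_zero]; exact WGR.occ_one _⟩
  have hsel : ∀ z, S1 (BB h n E q) z → SelM (BB h n E q) z := fun z hz =>
    NBK0.selM_of_S1 hSPP hNKIN hB0 h27 hz
  -- two classes with the same valuation at `ρ`
  have hrel : ∀ z z' : Eis, S1 (BB h n E q) z → S1 (BB h n E q) z' →
      (V ρ.1 z : ZMod 3) = (V ρ.1 z' : ZMod 3) →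
      ∃ y ∈ WqS h n π p e r w0 c (BB h n E q), ∃ g g' : Eis, g ≠ 0 ∧ g' ≠ 0 ∧
        z * g ^ 3 = zN π e y * z' * g' ^ 3 := by
    intro z z' hz hz' ht
    obtain ⟨z'', g, g', hz'', hg, hg', e1⟩ := hS1G _ hB0 hcf hnc z z' hz hz'
    have n1 := (hsel z hz).ne
    have n2 := (hsel z' hz').ne
    have n3 := (hsel z'' hz'').ne
    have hV0 : (V ρ.1 z'' : ZMod 3) = 0 := by
      have h1 := congrArg (V ρ.1) e1
      rw [V_mul ρ.2.1 (mul_ne_zero n3 n2) (pow_ne_zero _ hg), V_mul ρ.2.1 n3 n2,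
        V_mul ρ.2.1 n1 (pow_ne_zero _ hg'), V_pow ρ.2.1 hg, V_pow ρ.2.1 hg'] at h1
      have h2 : ((V ρ.1 z'' + V ρ.1 z' + 3 * V ρ.1 g : ℕ) : ZMod 3) =
          ((V ρ.1 z + 3 * V ρ.1 g' : ℕ) : ZMod 3) := by rw [h1]
      push_cast at h2
      linear_combination h2 + ht - three_zero (V ρ.1 g : ZMod 3) +
        three_zero (V ρ.1 g' : ZMod 3)
    obtain ⟨y, hy, a, b, ha, hb, e2⟩ := vec hSTM hSPP hSSL hSCJ hLCL hZA hZSU hNF hh hE hq hq1
      hcl hqn hρ hD (hsel z'' hz'') hV0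
    refine ⟨y, ⟨hy, z'', a, b, hz'', ha, hb, e2⟩, g' * a, b * g, mul_ne_zero hg' ha,
      mul_ne_zero hb hg, ?_⟩
    linear_combination (-(a ^ 3)) * e1 + z' * g ^ 3 * e2
  refine ⟨?_, ?_⟩
  · let W : AddSubgroup (Fin (m + 1) → ZMod 3) :=
      AddSubgroup.ofSub (WqS h n π p e r w0 c (BB h n E q)) hne hsub
    let W' : Submodule (ZMod 3) (Fin (m + 1) → ZMod 3) := AddSubgroup.toZModSubmodule 3 W
    refine ⟨Module.finrank (ZMod 3) W', ?_⟩
    have h1 := Module.natCard_eq_pow_finrank (K := ZMod 3) (V := W')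
    rw [Nat.card_zmod] at h1
    exact h1
  -- representatives
  have hrep : ∀ t : ZMod 3, ∃ zt : Eis, ∀ z, S1 (BB h n E q) z → (V ρ.1 z : ZMod 3) = t →
      ∃ y ∈ WqS h n π p e r w0 c (BB h n E q), ∃ g g' : Eis, g ≠ 0 ∧ g' ≠ 0 ∧
        z * g ^ 3 = zN π e y * zt * g' ^ 3 := by
    intro t
    by_cases ht : ∃ z, S1 (BB h n E q) z ∧ (V ρ.1 z : ZMod 3) = t
    · obtain ⟨z', hz', ht'⟩ := ht
      exact ⟨z', fun z hz hzt => hrel z z' hz hz' (hzt.trans ht'.symm)⟩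
    · exact ⟨1, fun z hz hzt => absurd ⟨z, hz, hzt⟩ ht⟩
  choose zt hzt using hrep
  obtain ⟨y0, hy0⟩ := hne
  have hYex : ∀ z, ∃ y : WqS h n π p e r w0 c (BB h n E q), S1 (BB h n E q) z →
      ∃ g g' : Eis, g ≠ 0 ∧ g' ≠ 0 ∧
        z * g ^ 3 = zN π e y.1 * zt (V ρ.1 z : ZMod 3) * g' ^ 3 := by
    intro z
    by_cases hz : S1 (BB h n E q) z
    · obtain ⟨y, hy, h1⟩ := hzt _ z hz rfl
      exact ⟨⟨y, hy⟩, fun _ => h1⟩
    · exact ⟨⟨y0, hy0⟩, fun h1 => absurd h1 hz⟩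
  choose Y hY using hYex
  have hinj : ∀ z z' : Eis, S1 (BB h n E q) z → S1 (BB h n E q) z' → Y z = Y z' →
      (V ρ.1 z : ZMod 3) = (V ρ.1 z' : ZMod 3) →
      ∃ g g' : Eis, g ≠ 0 ∧ g' ≠ 0 ∧ z * g ^ 3 = z' * g' ^ 3 := by
    intro z z' hz hz' hyy ht
    obtain ⟨g1, g2, hg1, hg2, e1⟩ := hY z hz
    obtain ⟨g1', g2', hg1', hg2', e2⟩ := hY z' hz'
    rw [← hyy, ← ht] at e2
    refine ⟨g1 * g2', g1' * g2, mul_ne_zero hg1 hg2', mul_ne_zero hg1' hg2, ?_⟩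
    linear_combination g2' ^ 3 * e1 - g2 ^ 3 * e2
  have hfin : Finite (WqS h n π p e r w0 c (BB h n E q)) := inferInstance
  by_cases hx : ∃ x : ℤ, AdN h n π w0 c x ∧ sym ρ.1 (x : Eis) ≠ 0
  · refine ⟨WqS h n π p e r w0 c (BB h n E q), hfin, Y, by omega, fun _ => le_refl _, ?_⟩
    intro z z' hz hz' hyy
    refine hinj z z' hz hz' hyy ?_
    rw [val hSPP hSSL hSCJ hLCL hNVEC hNF hh hE hq hq1 hqn hρ hD hx (hsel z hz),
      val hSPP hSSL hSCJ hLCL hNVEC hNF hh hE hq hq1 hqn hρ hD hx (hsel z' hz')]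
  · refine ⟨WqS h n π p e r w0 c (BB h n E q) × ZMod 3, inferInstance,
      fun z => (Y z, (V ρ.1 z : ZMod 3)), ?_, fun h1 => absurd h1 hx, ?_⟩
    · rw [Nat.card_prod, Nat.card_zmod, mul_comm]
    · intro z z' hz hz' hyy
      have h1 := congrArg Prod.fst hyy
      have h2 := congrArg Prod.snd hyy
      exact hinj z z' hz hz' h1 h2

end Pool.Agent.PTK


end
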