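import Mathlib
import Pool.Agent.PTDM.C27
import Pool.Agent.PTDM.C46
import Pool.Agent.PTKW.C02
import Pool.Agent.PTKW.C05
import Pool.Agent.PTKW.C07
import Pool.Agent.PTKW.C08

/-! Parts: PTKX.MS2, PTKX.ZKQ -/

section

/-!
# PTK_MS2: the primes of `QM` are in `SPZ`, `SMZ`
-/

set_option autoImplicit false

open NumberField IsDedekindDomain Finset
open scoped nonZeroDivisors Pointwise

namespace Pool.Agent.PTK

open Pool.Agent.Lib_helper18 Pool.Agent.Lib_helper18.Eis Pool.Agent.Lib_helper84.Cub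
open Pool.Agent.PT Pool.Agent.PTE Pool.Agent.PT3 Pool.Agent.PTL Pool.Agent.PTN

namespace MS2

theorem BB_eis (h n E q : ℕ) :
    ((BB h n E q : ℤ) : Eis) = ((3 ^ h * n : ℕ) : Eis) * (q : Eis) ^ E := by
  unfold BB
  push_cast
  ring

theorem BB_int (h n E q : ℕ) : ((3 ^ h * n : ℕ) : ℤ) * (q : ℤ) ^ E = BB h n E q := by
  unfold BB
  push_cast
  ring

theorem BB_ne {h n E q : ℕ} (hn : 0 < n) (hq : q.Prime) : BB h n E q ≠ 0 := by
  unfold BB
  have h3 : (3 : ℤ) ^ h ≠ 0 := pow_ne_zero _ (by norm_num)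
  have h4 : (n : ℤ) ≠ 0 := by exact_mod_cast hn.ne'
  have h5 : (q : ℤ) ^ E ≠ 0 := pow_ne_zero _ (by exact_mod_cast hq.ne_zero)
  exact mul_ne_zero (mul_ne_zero h3 h4) h5

theorem lv_BB_ne {n m k : ℕ} {π : Fin m → PP} {p e : Fin m → ℕ} {r f : Fin k → ℕ}
    (hLCL : LCL) (hn : NF n π p e r f) {h E q : ℕ} (hq : q.Prime) (hq3 : ¬ 3 ∣ q)
    (hh : h ≤ 2) (h1 : h ≠ 1) : lv (BB h n E q) ≠ 1 := by
  rw [(HYPT.lvw hLCL hn (h := h) (E := E) hq hq3 rfl).1]
  have h2 : h = 0 ∨ h = 2 := by omega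
  rcases h2 with rfl | rfl
  · rw [Nat.cast_zero]
    decide
  · decide

/-- the relation for one pair -/
theorem pair (hDCK : Stmt_DCK) (hDXK : Stmt_DXK) (hPT : Stmt_PT) (hPTX : Stmt_PTX)
    (hLCL : LCL) {n m k : ℕ} {π : Fin m → PP} {p e : Fin m → ℕ} {r f : Fin k → ℕ}
    (hn : NF n π p e r f) {h : ℕ} (hh : h ≤ 2) {b x P Q P' Q' : Eis} (hx0 : x ≠ 0)
    (hxnc : ¬ ∃ t : Eis, t ^ 3 = x)
    (H : HypD (3 ^ h * n) b x P Q P' Q' ∨ (h ≠ 1 ∧ HypX (3 ^ h * n) b x P Q P' Q')) :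
    ∃ f₀ : ℕ, 0 < f₀ ∧ ∀ f : ℕ, 0 < f → f₀ ∣ f →
    ∃ (C : ZMod 3) (Φ : (ZMod f)ˣ →* Multiplicative (ZMod 3)) (N₀ : ℕ),
    ∀ (E q : ℕ) (hQ : q.Coprime f), (E = 1 ∨ E = 2) → q.Prime → N₀ < q → q % 3 = 2 →
      (∀ σ : PP, tm σ.1 b (((3 ^ h * n : ℕ) : Eis) * (q : Eis) ^ E) = 0) →
      (∀ σ : PP, tm σ.1 x (((3 ^ h * n : ℕ) : Eis) * (q : Eis) ^ E) = 0) →
      Occ (BB h n E q) x → ∀ ξ : Eis, (q : Eis) ∣ ξ ^ 3 - x →
        C + E * ((Φ (ZMod.unitOfCoprime q hQ)).toAdd - TAUE q P Q P' Q' ξ) = 0 := by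
  have hn0 : 0 < n := PT.FINA.pos_of_nf hn
  rcases H with H | ⟨h1, H⟩
  · obtain ⟨f₀, hf₀, hf⟩ := hDCK _ _ _ _ _ _ _ H
    refine ⟨f₀, hf₀, fun f hf1 hf2 => ?_⟩
    obtain ⟨C, Φ, N₀, hC⟩ := hf f hf1 hf2
    refine ⟨C, Φ, N₀, ?_⟩
    intro E q hQ hE hq hqN hq3 hb hx hOcc ξ hξ
    obtain ⟨X, Y, hpt⟩ := hPT (BB h n E q) x (BB_ne hn0 hq) hx0 hxnc hOcc
    rw [BB_eis] at hpt
    exact hC E q hQ hE hq hqN hq3 hb hx X Y ξ hpt hξ
  · obtain ⟨f₀, hf₀, hf⟩ := hDXK _ _ _ _ _ _ _ H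
    refine ⟨f₀, hf₀, fun f hf1 hf2 => ?_⟩
    obtain ⟨C, Φ, N₀, hC⟩ := hf f hf1 hf2
    refine ⟨C, Φ, N₀, ?_⟩
    intro E q hQ hE hq hqN hq3 hb hx hOcc ξ hξ
    obtain ⟨X, Y, hpt, hg⟩ := hPTX (BB h n E q) x (BB_ne hn0 hq)
      (lv_BB_ne hLCL hn hq (by omega) hh h1) hx0 hxnc hOcc
    rw [BB_eis] at hpt
    rw [← BB_int] at hg
    exact hC E q hQ hE hq hqN hq3 hb hx X Y ξ hpt hg hξ

/-- the classes of a system are not cubes -/
theorem SysZ_nc {M N : ℕ} {z : Fin M → Eis} {α β : Fin N → Fin M} {P Q P' Q' : Fin N → Eis}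
    (hS : SysZ z α β P Q P' Q') (i : Fin M) : ¬ ∃ t : Eis, t ^ 3 = z i := by
  rintro ⟨t, ht⟩
  refine hS.ind (Pi.single i 1) ⟨i, ?_⟩ ⟨t, ?_⟩
  · rw [Pi.single_eq_same]
    norm_num
  · have h1 : ∏ j, z j ^ (Pi.single i 1 : Fin M → ℕ) j = z i := by
      rw [Finset.prod_eq_single i]
      · rw [Pi.single_eq_same, pow_one]
      · intro j _ hj
        rw [Pi.single_eq_of_ne hj, pow_zero]
      · intro hi
        exact absurd (mem_univ i) hi
    rw [ht, h1]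

end MS2

open CTK _root_.Pool.Agent.PTK.MS2 in
/-- PTK_MS2. -/
theorem MS2_thm (hSPP : SPP) (hLCL : LCL) (hDCK : Stmt_DCK) (hDXK : Stmt_DXK) (hPT : Stmt_PT)
    (hPTX : Stmt_PTX) (hZS : Stmt_ZS) (hZA : Stmt_ZA) : Stmt_MS2 := by
  classical
  intro h n m k π p e r f w0 c hNF hh M N y α β hT P Q P' Q' hSys hHyp
  have hn0 : 0 < n := PT.FINA.pos_of_nf hNF
  have hN0 : 0 < 3 ^ h * n := Nat.mul_pos (pow_pos (by norm_num) _) hn0
  have hx0 : ∀ i, zN π e (y i) ≠ 0 := fun i => (hZA n m k π p e r f hNF (y i)).1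
  have hnd : ∀ (v : Fin (m + 1) → ZMod 3) (q : ℕ), q.Prime → q % 3 = 2 → ¬ q ∣ n →
      ¬ (q : Eis) ∣ zN π e v := by
    intro v q hq hq3 hqn
    obtain ⟨-, -, -, h4, -⟩ := hZA n m k π p e r f hNF v
    obtain ⟨σ, hσ⟩ := hSPP.2.2.2.2.1 q hq hq3
    have h5 := h4 σ
    rw [hσ] at h5
    exact h5 fun h6 => hqn (nat_dvd h6)
  -- the conductor
  choose F0 hF0 hF1 using fun j => pair hDCK hDXK hPT hPTX hLCL hNF hh (hx0 (α j))
    (SysZ_nc hSys (α j)) (hHyp j)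
  refine ⟨∏ j, F0 j, Finset.prod_pos fun j _ => hF0 j, ?_⟩
  intro F hFpos hFdvd κ hκ1
  have hFd : ∀ j, F0 j ∣ F := fun j => (Finset.dvd_prod_of_mem F0 (mem_univ j)).trans hFdvd
  choose C Φ N₀ hC using fun j => hF1 j F hFpos (hFd j)
  have hMN : ∀ j, N₀ j ≤ ∑ j, N₀ j := fun j =>
    Finset.single_le_sum (f := N₀) (fun i _ => Nat.zero_le _) (mem_univ j)
  have hmain : ∀ (E q : ℕ), (E = 1 ∨ E = 2) → q.Prime → 3 ^ h * n + F + ∑ j, N₀ j < q →
      q ∈ QM h n π e w0 c y α 2 E →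
      ∃ hQ : q.Coprime F, (∀ i, sym (q : Eis) (zN π e (y i)) = 0) ∧
        ∀ (j : Fin N) (ξ : Eis), (q : Eis) ∣ ξ ^ 3 - zN π e (y (α j)) →
          C j + E * ((Φ j (ZMod.unitOfCoprime q hQ)).toAdd -
            TAUE q (P j) (Q j) (P' j) (Q' j) ξ) = 0 := by
    intro E q hE hq hqM ⟨hq3, hIn, hOcc⟩
    have hqN : ¬ q ∣ 3 ^ h * n := fun h => by
      have := Nat.le_of_dvd hN0 h
      omega
    have hqn : ¬ q ∣ n := fun h => hqN (Dvd.dvd.mul_left h _)
    have hQ : q.Coprime F := by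
      rw [Nat.Prime.coprime_iff_not_dvd hq]
      intro h
      have := Nat.le_of_dvd hFpos h
      omega
    have hSel : ∀ i, ∀ σ : PP,
        tm σ.1 (zN π e (y i)) (((3 ^ h * n : ℕ) : Eis) * (q : Eis) ^ E) = 0 := by
      intro i σ
      have h1 := (hZS h n m k π p e r f w0 c E q hNF hh hE hq hq3 hIn hqn (y i)
        (hT.mem i)).sym σ
      rwa [BB_eis] at h1
    refine ⟨hQ, fun i => sym_zero hSPP hq hq3 hE hqN (hnd (y i) q hq hq3 hqn) (hSel i), ?_⟩
    intro j ξ hξ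
    exact hC j E q hQ hE hq (by have := hMN j; omega) hq3 (hSel (β j)) (hSel (α j)) (hOcc j)
      ξ hξ
  refine ⟨C, assemble Φ, 3 ^ h * n + F + ∑ j, N₀ j, ?_⟩
  intro q hq hqM
  constructor
  · intro hqY
    obtain ⟨hQ, h2, h4⟩ := hmain 1 q (Or.inl rfl) hq hqM hqY
    obtain ⟨hq3, hIn, -⟩ := hqY
    refine ⟨hQ, hq3, ?_, h2, ?_⟩
    · rw [hκ1]
      funext i
      refine Fin.cases ?_ (fun i => ?_) i
      · rw [Fin.cons_zero, Fin.cons_zero]
        have h5 := hIn.1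
        rw [pow_one] at h5
        exact h5
      · rw [Fin.cons_succ, Fin.cons_succ]
        have h5 := hIn.2 i
        rw [Nat.cast_one, one_mul] at h5
        exact h5
    · intro j ξ hξ
      have h5 := h4 j ξ hξ
      rw [assemble_apply]
      rw [Nat.cast_one, one_mul] at h5
      linear_combination -h5
  · intro hqY
    obtain ⟨hQ, h2, h4⟩ := hmain 2 q (Or.inr rfl) hq hqM hqY
    obtain ⟨hq3, hIn, -⟩ := hqY
    refine ⟨hQ, hq3, ?_, h2, ?_⟩
    · rw [hκ1]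
      funext i
      refine Fin.cases ?_ (fun i => ?_) i
      · rw [Fin.cons_zero, Pi.neg_apply, Fin.cons_zero]
        have h5 := hIn.1
        rw [CL.wt_sq2 hq3] at h5
        exact neg_of_two h5
      · rw [Fin.cons_succ, Pi.neg_apply, Fin.cons_succ]
        exact neg_of_two (hIn.2 i)
    · intro j ξ hξ
      have h5 := h4 j ξ hξ
      rw [assemble_apply]
      rw [show ((2 : ℕ) : ZMod 3) = -1 from by decide] at h5
      linear_combination h5

end Pool.Agent.PTK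


end

section

/-!
# PTK_ZKQ: the number of the classes of points is bounded by the corank of the matrix
-/

set_option autoImplicit false

open NumberField IsDedekindDomain Finset
open scoped nonZeroDivisors Pointwise

namespace Pool.Agent.PTK

open Pool.Agent.Lib_helper18 Pool.Agent.Lib_helper18.Eis Pool.Agent.Lib_helper84.Cub
open Pool.Agent.PT Pool.Agent.PTE Pool.Agent.PT3 Pool.Agent.PTL Pool.Agent.PTN

namespace ZKQ

/-! ### Equality up to cubes -/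

/-- equality up to cubes -/
def CE (x y : Eis) : Prop := ∃ g g' : Eis, g ≠ 0 ∧ g' ≠ 0 ∧ x * g ^ 3 = y * g' ^ 3

theorem CE.refl (x : Eis) : CE x x := ⟨1, 1, one_ne_zero, one_ne_zero, rfl⟩

theorem CE.symm {x y : Eis} (h : CE x y) : CE y x := by
  obtain ⟨g, g', hg, hg', e⟩ := h
  exact ⟨g', g, hg', hg, e.symm⟩

theorem CE.trans {x y z : Eis} (h : CE x y) (h' : CE y z) : CE x z := by
  obtain ⟨g, g', hg, hg', e⟩ := h
  obtain ⟨u, v, hu, hv, e'⟩ := h'
  refine ⟨g * u, v * g', mul_ne_zero hg hu, mul_ne_zero hv hg', ?_⟩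
  linear_combination (u ^ 3) * e + (g' ^ 3) * e'

theorem CE.mul {x y x' y' : Eis} (h : CE x y) (h' : CE x' y') : CE (x * x') (y * y') := by
  obtain ⟨g, g', hg, hg', e⟩ := h
  obtain ⟨u, v, hu, hv, e'⟩ := h'
  refine ⟨g * u, g' * v, mul_ne_zero hg hu, mul_ne_zero hg' hv, ?_⟩
  linear_combination (x' * u ^ 3) * e + (y * g' ^ 3) * e'

theorem occ_ce {B : ℤ} {x y : Eis} (h : Occ B x) (h' : CE x y) : Occ B y := by
  obtain ⟨ζ, g, g', hζ, hg, hg', e⟩ := h
  obtain ⟨u, v, hu, hv, e'⟩ := h'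
  refine ⟨ζ, g * u, v * g', hζ, mul_ne_zero hg hu, mul_ne_zero hv hg', ?_⟩
  linear_combination (u ^ 3) * e + (g' ^ 3) * e'

section

variable {n m k : ℕ} {π : Fin m → PP} {p e : Fin m → ℕ} {r f : Fin k → ℕ}

theorem ce_add (hZA : Stmt_ZA) (hn : NF n π p e r f) (y y' : Fin (m + 1) → ZMod 3) :
    CE (zN π e (y + y')) (zN π e y * zN π e y') := by
  obtain ⟨g, g', hg, hg', h⟩ := (hZA n m k π p e r f hn y).2.2.2.2.2.2.2.2.1 y'
  exact ⟨g', g, hg', hg, h.symm⟩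

theorem ce_smul (hZA : Stmt_ZA) (hn : NF n π p e r f) (y : Fin (m + 1) → ZMod 3) (c : ℕ) :
    CE (zN π e (c • y)) (zN π e y ^ c) := by
  induction c with
  | zero =>
    rw [zero_smul, WGR.zN_zero, pow_zero]
    exact CE.refl 1
  | succ c ih =>
    rw [succ_nsmul, pow_succ]
    exact (ce_add hZA hn _ _).trans (ih.mul (CE.refl _))

theorem ce_sum (hZA : Stmt_ZA) (hn : NF n π p e r f) {l : ℕ} (y : Fin l → Fin (m + 1) → ZMod 3)
    (c : Fin l → ℕ) (s : Finset (Fin l)) :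
    CE (zN π e (∑ i ∈ s, c i • y i)) (∏ i ∈ s, zN π e (y i) ^ c i) := by
  classical
  induction s using Finset.induction_on with
  | empty =>
    rw [Finset.sum_empty, Finset.prod_empty, WGR.zN_zero]
    exact CE.refl 1
  | insert a s ha ih =>
    rw [Finset.sum_insert ha, Finset.prod_insert ha]
    exact (ce_add hZA hn _ _).trans ((ce_smul hZA hn _ _).mul ih)

end

/-! ### Linear algebra -/

/-- the dimension of `W` is at most the dimension of the kernel -/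
theorem dim_le {M l : ℕ} (W V : Submodule (ZMod 3) (Fin M → ZMod 3)) (hWV : W ≤ V)
    (y : Fin l → Fin M → ZMod 3) (hind : LinearIndependent (ZMod 3) y) (hmem : ∀ i, y i ∈ V)
    (hcard : l = Module.finrank (ZMod 3) V) (A : Matrix (Fin l) (Fin l) (ZMod 3))
    (hA : ∀ c : Fin l → ZMod 3, c ≠ 0 → ∑ i, c i • y i ∈ W → A.mulVec c = 0) :
    Module.finrank (ZMod 3) W ≤ l - A.rank := by
  haveI : Fact (Nat.Prime 3) := ⟨Nat.prime_three⟩
  have hT : ∀ c, Fintype.linearCombination (ZMod 3) y c = ∑ i, c i • y i := fun c => by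
    rw [Fintype.linearCombination_apply]
  have hr : LinearMap.range (Fintype.linearCombination (ZMod 3) y) =
      Submodule.span (ZMod 3) (Set.range y) := Fintype.range_linearCombination (ZMod 3) y
  have hspan : Submodule.span (ZMod 3) (Set.range y) = V := by
    apply Submodule.eq_of_le_of_finrank_le
    · rw [Submodule.span_le]
      rintro _ ⟨i, rfl⟩
      exact hmem i
    · rw [finrank_span_eq_card hind, Fintype.card_fin]
      exact hcard.symm.le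
  have h1 : W ≤ LinearMap.range (Fintype.linearCombination (ZMod 3) y) := by
    rw [hr, hspan]
    exact hWV
  have h2 : (W.comap (Fintype.linearCombination (ZMod 3) y)).map
      (Fintype.linearCombination (ZMod 3) y) = W := Submodule.map_comap_eq_of_le h1
  have h3 : Module.finrank (ZMod 3) W ≤
      Module.finrank (ZMod 3) (W.comap (Fintype.linearCombination (ZMod 3) y)) := by
    conv_lhs => rw [← h2]
    exact Submodule.finrank_map_le _ _
  have h4 : W.comap (Fintype.linearCombination (ZMod 3) y) ≤ LinearMap.ker A.mulVecLin := by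
    intro c hc
    rw [Submodule.mem_comap, hT] at hc
    rw [LinearMap.mem_ker, Matrix.mulVecLin_apply]
    by_cases h0 : c = 0
    · rw [h0, Matrix.mulVec_zero]
    · exact hA c h0 hc
  have h5 := Submodule.finrank_mono h4
  have h6 := LinearMap.finrank_range_add_finrank_ker A.mulVecLin
  rw [Module.finrank_fin_fun] at h6
  have h7 : A.rank = Module.finrank (ZMod 3) (LinearMap.range A.mulVecLin) := rfl
  omega

end ZKQ

open _root_.Pool.Agent.PTK.ZKQ in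
/-- PTK_ZKQ. -/
theorem ZKQ_thm (hSPP : SPP) (hSSL : SSL) (hSLC : SLC) (hLCL : LCL) (hZKE : Stmt_ZKE)
    (hZS : Stmt_ZS) (hZSU : Stmt_ZSU) (hZA : Stmt_ZA) (hZL : Stmt_ZL) (hWSB : Stmt_WSB)
    (hVDIM : Stmt_VDIM) (hPT : Stmt_PT) (hPTX : Stmt_PTX) (hPTY : Stmt_PTY)
    (hLCI : Stmt_LCI) : Stmt_ZKQ := by
  classical
  haveI : Fact (Nat.Prime 3) := ⟨Nat.prime_three⟩
  intro h n m k π p e r f w0 c hNF hh l y U R U' R' hBas hSys
  have hn0 : 0 < n := PT.FINA.pos_of_nf hNF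
  have hN0 : 0 < 3 ^ h * n := Nat.mul_pos (pow_pos (by norm_num) _) hn0
  have hA := fun i => hZA n m k π p e r f hNF (y i)
  have hunr : ∀ (σ : PP) (i : Fin l), ¬ σ.1 ∣ ((3 ^ h * n : ℕ) : Eis) →
      ¬ σ.1 ∣ (fun i => zN π e (y i)) i := by
    intro σ i hσ
    refine (hA i).2.2.2.1 σ fun h2 => hσ ?_
    push_cast
    exact Dvd.dvd.mul_left h2 _
  obtain ⟨N₁, hN₁⟩ := hZKE l (3 ^ h * n) (fun i => zN π e (y i)) U R U' R' hSys hN0
    (fun σ => SYK.VN_le hSPP hNF h σ) hunr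
  refine ⟨N₁ + 3 + n, ?_⟩
  intro E q hE hq hqN hq12 hIn
  have hq3 : 3 < q := by omega
  have hqn : ¬ q ∣ n := fun hd => absurd (Nat.le_of_dvd hn0 hd) (by omega)
  have h3q : ¬ 3 ∣ q := by omega
  have hSel : ∀ v ∈ VS h n π p e r w0 c, SelM (BB h n E q) (zN π e v) := by
    intro v hv
    rcases hq12 with h1 | h1
    · exact hZSU h n m k π p e r f w0 c E q hNF hh hE hq h1 hIn hqn v hv
    · exact hZS h n m k π p e r f w0 c E q hNF hh hE hq h1 hIn hqn v hv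
  have hB0 : BB h n E q ≠ 0 := MS2.BB_ne hn0 hq
  have hlvw := HYPT.lvw hLCL hNF (h := h) (E := E) hq h3q hIn.1
  have hL : ∀ v, v ∈ V0 h n π p e r w0 c → LCE lam (zN π e v) := fun v hv =>
    SYK.lc hLCI (hZL n m k π p e r f hNF v hv.2.1 hv.2.2)
  have hcf := NBK0.cubeFree_BB hNF hh hE hq hq3 hqn
  have h3le : 3 ≤ (BB h n E q).natAbs := NBK0.three_le hNF hE hq hq3
  have hnc : ¬ ∃ t : ℤ, t ^ 3 = BB h n E q :=
    CubeRank.GenPf.not_cube hcf (by rw [Int.abs_eq_natAbs]; exact_mod_cast h3le)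
  have hTy : TyZ (fun i => zN π e (y i)) (BB h n E q) := by
    rcases hBas.ty with ⟨h0, h1⟩ | h1
    · left
      have hlw : lw (BB h n E q) = 0 := by rw [hlvw.2]; exact h1
      have h3B : ¬ (3 : ℤ) ∣ BB h n E q := by
        intro h4
        unfold BB at h4
        rw [h0, pow_zero, one_mul] at h4
        rcases Int.prime_three.dvd_or_dvd h4 with h5 | h5
        · exact PT.FINA.three_of_nf hNF (by exact_mod_cast h5)
        · have h6 := Int.prime_three.dvd_of_dvd_pow h5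
          exact h3q (by exact_mod_cast h6)
      rw [(hLCL.2.2.2.1 _ h3B).2] at hlw
      have h9 : (9 : ℤ) ∣ (BB h n E q) ^ 2 - 1 := by
        have h5 : (3 : ℤ) ∣ (BB h n E q) ^ 2 - 1 := by
          have : (BB h n E q) % 3 = 1 ∨ (BB h n E q) % 3 = 2 := by omega
          rcases this with h6 | h6
          · have : (BB h n E q) ^ 2 - 1 = (BB h n E q - 1) * (BB h n E q + 1) := by ring
            rw [this]
            exact Dvd.dvd.mul_right (by omega) _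
          · have : (BB h n E q) ^ 2 - 1 = (BB h n E q - 1) * (BB h n E q + 1) := by ring
            rw [this]
            exact Dvd.dvd.mul_left (by omega) _
        obtain ⟨t, ht⟩ := h5
        have h7 : ((BB h n E q) ^ 2 - 1) / 3 = t := by rw [ht]; simp
        unfold wt at hlw
        rw [h7, ZMod.intCast_zmod_eq_zero_iff_dvd _ 3] at hlw
        obtain ⟨u, hu⟩ := hlw
        refine ⟨u, ?_⟩
        rw [ht, hu]
        push_cast
        ring
      refine SYK.lc hLCI ?_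
      obtain ⟨t, ht⟩ := h9
      have h10 : ((BB h n E q : ℤ) : Eis) ^ 2 - 1 = 9 * ((t : ℤ) : Eis) := by
        have := congrArg (fun x : ℤ => (x : Eis)) ht
        push_cast at this
        exact this
      rw [h10]
      exact Dvd.dvd.mul_right ⟨w, by decide⟩ _
    · right
      intro i j hij
      rcases h1 i j hij with h2 | h2
      · exact Or.inl (hL _ h2)
      · exact Or.inr (hL _ h2)
  have hmain := hN₁ E q (BB h n E q) hE hq (by omega) (MS2.BB_int h n E q).symm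
    (fun σ i => (hSel _ (hBas.mem i)).sym σ) hTy
  refine ⟨hmain.1, ?_⟩
  obtain ⟨W, hW⟩ := hWSB h n m k π p e r f w0 c E q hNF hh hE hq hq3 hqn
  have hWV : W ≤ VS h n π p e r w0 c := fun z hz => ((hW z).1 hz).1
  have hcard : Nat.card (WqS h n π p e r w0 c (BB h n E q)) = Nat.card W :=
    Nat.card_congr (Equiv.subtypeEquivRight fun z => (hW z).symm)
  have hcardW : Nat.card W = 3 ^ Module.finrank (ZMod 3) W := by
    have h1 := Module.natCard_eq_pow_finrank (K := ZMod 3) (V := W)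
    rwa [Nat.card_zmod] at h1
  rw [hcard, hcardW, Nat.log_pow (by norm_num)]
  refine dim_le W (VS h n π p e r w0 c) hWV y hBas.ind hBas.mem hBas.card _ ?_
  intro d hd0 hdW
  obtain ⟨i₀, hi₀⟩ : ∃ i, d i ≠ 0 := by
    by_contra hcon
    push Not at hcon
    exact hd0 (funext hcon)
  have hval : ∀ i, ((d i).val : ZMod 3) = d i := fun i => ZMod.natCast_zmod_val (d i)
  have hv2 : ∀ i, (d i).val ≤ 2 := fun i => by
    have := ZMod.val_lt (d i)
    omega
  have hv0 : (d i₀).val ≠ 0 := fun h1 => hi₀ ((ZMod.val_eq_zero _).1 h1)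
  have hsum : ∑ i, (d i).val • y i = ∑ i, d i • y i := by
    refine Finset.sum_congr rfl fun i _ => ?_
    rw [← Nat.cast_smul_eq_nsmul (ZMod 3), hval]
  have hOcc : Occ (BB h n E q) (∏ i, zN π e (y i) ^ (d i).val) := by
    have h1 := ((hW _).1 hdW).2
    rw [← hsum] at h1
    exact occ_ce h1 (ce_sum hZA hNF y (fun i => (d i).val) Finset.univ)
  have hxnc : ¬ ∃ t : Eis, t ^ 3 = ∏ i, zN π e (y i) ^ (d i).val := by
    refine hSys.ind (fun i => (d i).val) ⟨i₀, fun h1 => hv0 ?_⟩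
    have := hv2 i₀
    omega
  have hx0 : ∏ i, zN π e (y i) ^ (d i).val ≠ 0 :=
    Finset.prod_ne_zero_iff.2 fun i _ => pow_ne_zero _ (hA i).1
  have hpt : ∃ X Y : Eis, PtE (BB h n E q : Eis) (∏ i, zN π e (y i) ^ (d i).val) X Y ∧
      ((∀ i, LCE lam (zN π e (y i))) ∨
        GoodPt (BB h n E q) (∏ i, zN π e (y i) ^ (d i).val) X Y) ∧
      (LCE lam ((BB h n E q : ℤ) : Eis) → GoodW (∏ i, zN π e (y i) ^ (d i).val) X Y) := by
    by_cases h1 : h = 1
    · obtain ⟨X, Y, hXY⟩ := hPT _ _ hB0 hx0 hxnc hOcc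
      refine ⟨X, Y, hXY, Or.inl fun i => hL _ (MSY.V0_eq hVDIM h1 (hBas.mem i)), ?_⟩
      intro hc
      have h2 := (PTY.lvw hSSL hSLC hLCL hLCI hB0 hc).1
      rw [hlvw.1, h1] at h2
      exact absurd h2 (by decide)
    · by_cases hc : LCE lam ((BB h n E q : ℤ) : Eis)
      · obtain ⟨X, Y, h2, h3, h4⟩ := hPTY _ _ hB0 hnc hc hx0 hxnc hOcc
        exact ⟨X, Y, h2, Or.inr h3, fun _ => h4⟩
      · obtain ⟨X, Y, h2, h3⟩ := hPTX _ _ hB0
          (MS2.lv_BB_ne hLCL hNF hq h3q hh h1) hx0 hxnc hOcc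
        exact ⟨X, Y, h2, Or.inr h3, fun h4 => absurd h4 hc⟩
  obtain ⟨X, Y, hXY, hg, hw⟩ := hpt
  have hker := hmain.2 (fun i => (d i).val) hv2 ⟨i₀, hv0⟩ X Y hXY hg hw
  funext j
  have h1 := hker j
  rw [Pi.zero_apply]
  rw [← h1]
  unfold Matrix.mulVec dotProduct
  refine Finset.sum_congr rfl fun i _ => ?_
  rw [hval]
  rfl

end Pool.Agent.PTK


end
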