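import Mathlib
import Pool.Agent.PTDM.C21
import Pool.Agent.PTDM.C23
import Pool.Agent.PTDM.C26
import Pool.Agent.PTDM.C27
import Pool.Agent.PTDM.C28
import Pool.Agent.PTDM.C35
import Pool.Agent.PTDM.C43
import Pool.Agent.PTDM.C44
import Pool.Agent.PTDM.C45
import Pool.Agent.PTKW.C01
import Pool.Agent.PTKW.C02
import Pool.Agent.PTKW.C04

/-! Parts: PTKX.CHE, PTKX.F2E, PTKX.AVR, PTKX.AV2, PTKX.FL2, PTKX.IF2, PTKX.IF4, PTKX.JDG, PTKX.LKN, PTKX.MAW, PTKX.JC2, PTKX.MC2, PTKX.NMN, PTKX.PLU, PTKX.ZKE -/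

section

/-!
# PTK_CHE: the pairing of `z j` with a product
-/

set_option autoImplicit false

open NumberField IsDedekindDomain Finset
open scoped nonZeroDivisors Pointwise

namespace Pool.Agent.PTK

open Pool.Agent.Lib_helper18 Pool.Agent.Lib_helper18.Eis Pool.Agent.Lib_helper84.Cub
open Pool.Agent.PT Pool.Agent.PTE Pool.Agent.PT3 Pool.Agent.PTL Pool.Agent.PTN

namespace CHE

/-! ### Admissible classes -/

theorem age_mul (hSTM : STM) (hSPP : SPP) {B x y : Eis} (hB : B ≠ 0) (hx : AGE B x)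
    (hy : AGE B y) : AGE B (x * y) where
  ne := mul_ne_zero hx.ne hy.ne
  sym := fun π => by
    have hs := hSTM π.1 π.2.1 (hSPP.2.2.2.1 π).1
    rw [hs.mul _ _ _ hx.ne hy.ne hB, hx.sym π, hy.sym π, add_zero]
  unr := fun π h1 h2 => by
    rcases π.2.1.dvd_or_dvd h2 with h | h
    · exact hx.unr π h1 h
    · exact hy.unr π h1 h

theorem age_one (hSTM : STM) (hSPP : SPP) {B : Eis} (hB : B ≠ 0) : AGE B 1 where
  ne := one_ne_zero
  sym := fun π => by
    have hs := hSTM π.1 π.2.1 (hSPP.2.2.2.1 π).1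
    have h1 : (1 : Eis) ≠ 0 := one_ne_zero
    have h := hs.mul 1 1 _ h1 h1 hB
    rw [one_mul] at h
    have h2 : tm π.1 1 B + 0 = tm π.1 1 B + tm π.1 1 B := by
      rw [add_zero]
      exact h
    exact (add_left_cancel h2).symm
  unr := fun π _ h2 => π.2.1.not_isUnit (isUnit_of_dvd_one h2)

theorem age_pow (hSTM : STM) (hSPP : SPP) {B x : Eis} (hB : B ≠ 0) (hx : AGE B x) (n : ℕ) :
    AGE B (x ^ n) := by
  induction n with
  | zero =>
    rw [pow_zero]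
    exact age_one hSTM hSPP hB
  | succ n ih =>
    rw [pow_succ]
    exact age_mul hSTM hSPP hB ih hx

theorem age_prod (hSTM : STM) (hSPP : SPP) {B : Eis} (hB : B ≠ 0) {l : ℕ} {z : Fin l → Eis}
    (hz : ∀ i, AGE B (z i)) (c : Fin l → ℕ) (t : Finset (Fin l)) :
    AGE B (∏ i ∈ t, z i ^ c i) := by
  classical
  induction t using Finset.induction_on with
  | empty =>
    rw [Finset.prod_empty]
    exact age_one hSTM hSPP hB
  | insert i t hi ih =>
    rw [Finset.prod_insert hi]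
    exact age_mul hSTM hSPP hB (age_pow hSTM hSPP hB (hz i) _) ih

/-! ### Classes of the minus part -/

theorem mcl_ne {b : Eis} (hb : MCl b) : b ≠ 0 := by
  rintro rfl
  exact hb.nl (dvd_zero _)

theorem mcl_mul {x y : Eis} (hx : MCl x) (hy : MCl y) : MCl (x * y) where
  nl := fun h => (prime_lam.dvd_or_dvd h).elim hx.nl hy.nl
  cb := by
    obtain ⟨s, hs⟩ := hx.cb
    obtain ⟨t, ht⟩ := hy.cb
    refine ⟨s * t, ?_⟩
    rw [map_mul, mul_pow, ← hs, ← ht]
    ring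

theorem mcl_one : MCl 1 where
  nl := fun h => prime_lam.not_isUnit (isUnit_of_dvd_one h)
  cb := ⟨1, by rw [map_one]; ring⟩

theorem mcl_pow {x : Eis} (hx : MCl x) (n : ℕ) : MCl (x ^ n) := by
  induction n with
  | zero =>
    rw [pow_zero]
    exact mcl_one
  | succ n ih =>
    rw [pow_succ]
    exact mcl_mul ih hx

theorem mcl_prod {l : ℕ} {z : Fin l → Eis} (hz : ∀ i, MCl (z i)) (c : Fin l → ℕ)
    (t : Finset (Fin l)) : MCl (∏ i ∈ t, z i ^ c i) := by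
  classical
  induction t using Finset.induction_on with
  | empty =>
    rw [Finset.prod_empty]
    exact mcl_one
  | insert i t hi ih =>
    rw [Finset.prod_insert hi]
    exact mcl_mul (mcl_pow (hz i) _) ih

/-! ### Local cubes -/

theorem lce_mul {π x y : Eis} (hx : LCE π x) (hy : LCE π y) : LCE π (x * y) := by
  intro N
  obtain ⟨r, hr⟩ := hx N
  obtain ⟨s, hs⟩ := hy N
  refine ⟨r * s, ?_⟩
  have h : (r * s) ^ 3 - x * y = (r ^ 3 - x) * s ^ 3 + x * (s ^ 3 - y) := by ring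
  rw [h]
  exact dvd_add (Dvd.dvd.mul_right hr _) (Dvd.dvd.mul_left hs _)

theorem lce_one {π : Eis} : LCE π 1 := fun N => ⟨1, by simp⟩

theorem lce_pow {π x : Eis} (hx : LCE π x) (n : ℕ) : LCE π (x ^ n) := by
  induction n with
  | zero =>
    rw [pow_zero]
    exact lce_one
  | succ n ih =>
    rw [pow_succ]
    exact lce_mul ih hx

theorem lce_prod {π : Eis} {l : ℕ} {z : Fin l → Eis} (c : Fin l → ℕ)
    (hz : ∀ i, c i ≠ 0 → LCE π (z i)) (t : Finset (Fin l)) : LCE π (∏ i ∈ t, z i ^ c i) := by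
  classical
  induction t using Finset.induction_on with
  | empty =>
    rw [Finset.prod_empty]
    exact lce_one
  | insert i t hi ih =>
    rw [Finset.prod_insert hi]
    refine lce_mul ?_ ih
    by_cases h : c i = 0
    · rw [h, pow_zero]
      exact lce_one
    · exact lce_pow (hz i h) _

/-! ### Splitting off a factor -/

theorem prod_split {l : ℕ} (b : Fin l → Eis) (g g' : Fin l → ℕ) (i0 : Fin l)
    (h : ∀ i, g i = g' i + if i = i0 then 1 else 0) :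
    ∏ i, b i ^ g i = (∏ i, b i ^ g' i) * b i0 := by
  have h1 : ∏ i, b i ^ (if i = i0 then 1 else 0) = b i0 := by
    rw [Finset.prod_eq_single i0]
    · simp
    · intro i _ hi
      simp [hi]
    · intro hi
      exact absurd (Finset.mem_univ _) hi
  conv_rhs => rw [← h1]
  rw [← Finset.prod_mul_distrib]
  refine Finset.prod_congr rfl fun i _ => ?_
  rw [← pow_add, h i]

theorem sum_split {l : ℕ} (m : Fin l → ZMod 3) (g g' : Fin l → ℕ) (i0 : Fin l)
    (h : ∀ i, g i = g' i + if i = i0 then 1 else 0) :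
    ∑ i, m i * (g i : ZMod 3) = (∑ i, m i * (g' i : ZMod 3)) + m i0 := by
  have h1 : ∑ i, (if i = i0 then m i else 0) = m i0 := by
    rw [Finset.sum_ite_eq']
    simp
  conv_rhs => rw [← h1]
  rw [← Finset.sum_add_distrib]
  refine Finset.sum_congr rfl fun i _ => ?_
  rw [h i]
  split_ifs <;> push_cast <;> ring

theorem sol_self {b : Eis} (hb : b ≠ 0) : SolE b b 0 1 1 0 where
  eq := by ring
  n1 := by simpa using hb
  n2 := by simpa using hb
  g1 := by simp [GfE]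
  g2 := by simp [GfE]

section Row

variable {l : ℕ} {z : Fin l → Eis} {P Q P' Q' : Fin l → Fin l → Eis}

/-- the solution for one factor -/
theorem one (hTHE : Stmt_THE) (hS : SysF z P Q P' Q') (j i : Fin l) :
    ∃ p q p' q' : Eis, SolE (z j) (z i) p q p' q' ∧ ∀ B : ℤ, BGE B → (∀ i, AGE B (z i)) →
      (LCE lam (z j) ∨ LCE lam (B : Eis) ∨ LCE lam (z i)) →
      OZE B (z j) (z i) p q p' q' = MaZ z P Q P' Q' B j i := by
  by_cases hij : i = j
  · subst hij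
    refine ⟨0, 1, 1, 0, sol_self (mcl_ne (hS.mc i)), fun B hB hA h => ?_⟩
    have hM : MaZ z P Q P' Q' B i i = 0 := by simp [MaZ]
    rw [hM]
    refine hTHE B (z i) hB (hA i) (hS.mc i) ?_
    rcases h with h | h | h
    · exact Or.inl h
    · exact Or.inr h
    · exact Or.inl h
  · have hji : j ≠ i := fun h => hij h.symm
    refine ⟨_, _, _, _, hS.sol j i hji, fun B _ _ _ => ?_⟩
    unfold MaZ
    rw [if_neg hji]

theorem key (hTAE : Stmt_TAE) (hTHE : Stmt_THE) (hSTM : STM) (hSPP : SPP)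
    (hS : SysF z P Q P' Q') (j : Fin l) (n : ℕ) :
    ∀ g : Fin l → ℕ, ∑ i, g i = n + 1 → (∀ i, g i ≤ 2) →
    ∃ p q p' q' : Eis, SolE (z j) (∏ i, z i ^ g i) p q p' q' ∧ ∀ B : ℤ, BGE B →
      (∀ i, AGE B (z i)) →
      (LCE lam (z j) ∨ LCE lam (B : Eis) ∨ ∀ i, g i ≠ 0 → LCE lam (z i)) →
      OZE B (z j) (∏ i, z i ^ g i) p q p' q' = ∑ i, MaZ z P Q P' Q' B j i * (g i : ZMod 3) := by
  have hbj : ¬ ∃ t : Eis, t ^ 3 = z j := by
    have h1 := hS.ind (fun i => if i = j then 1 else 0) ⟨j, by simp⟩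
    have h2 : ∏ i, z i ^ (if i = j then 1 else 0) = z j := by
      rw [Finset.prod_eq_single j]
      · simp
      · intro i _ hij
        simp [hij]
      · intro h
        exact absurd (Finset.mem_univ _) h
    rw [h2] at h1
    exact h1
  induction n with
  | zero =>
    intro g hg hg2
    obtain ⟨i0, hi0⟩ : ∃ i, g i ≠ 0 := by
      by_contra hcon
      push Not at hcon
      rw [Finset.sum_eq_zero fun i _ => hcon i] at hg
      omega
    have hsp : ∀ i, g i = (g i - if i = i0 then 1 else 0) + if i = i0 then 1 else 0 := by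
      intro i
      split_ifs with h
      · rw [h]; omega
      · omega
    have hsum : ∑ i, g i = (∑ i, (g i - if i = i0 then 1 else 0)) + 1 := by
      have h1 : ∑ i : Fin l, (if i = i0 then 1 else 0) = 1 := by
        rw [Finset.sum_ite_eq']
        simp
      calc ∑ i, g i = ∑ i, ((g i - if i = i0 then 1 else 0) + if i = i0 then 1 else 0) :=
            Finset.sum_congr rfl fun i _ => hsp i
        _ = (∑ i, (g i - if i = i0 then 1 else 0)) + ∑ i : Fin l, (if i = i0 then 1 else 0) :=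
            Finset.sum_add_distrib
        _ = _ := by rw [h1]
    have h0 : ∀ i, (g i - if i = i0 then 1 else 0) = 0 := by
      have h2 : ∑ i, (g i - if i = i0 then 1 else 0) = 0 := by omega
      intro i
      exact (Finset.sum_eq_zero_iff.1 h2) i (Finset.mem_univ i)
    obtain ⟨p, q, p', q', h1, h2⟩ := one hTHE hS j i0
    have h3 : ∏ i, z i ^ (g i - if i = i0 then 1 else 0) = 1 :=
      Finset.prod_eq_one fun i _ => by rw [h0 i, pow_zero]
    have h5 : ∏ i, z i ^ g i = z i0 := by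
      rw [prod_split z g _ i0 hsp, h3, one_mul]
    rw [h5]
    refine ⟨p, q, p', q', h1, fun B hB hA hc => ?_⟩
    have h4 : ∑ i, MaZ z P Q P' Q' B j i *
        (((g i - if i = i0 then 1 else 0 : ℕ)) : ZMod 3) = 0 :=
      Finset.sum_eq_zero fun i _ => by rw [h0 i, Nat.cast_zero, mul_zero]
    rw [sum_split _ g _ i0 hsp, h4, zero_add]
    exact h2 B hB hA (hc.imp id fun h => h.imp id fun h => h i0 hi0)
  | succ n ih =>
    intro g hg hg2
    obtain ⟨i0, hi0⟩ : ∃ i, g i ≠ 0 := by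
      by_contra hcon
      push Not at hcon
      rw [Finset.sum_eq_zero fun i _ => hcon i] at hg
      omega
    have hsp : ∀ i, g i = (g i - if i = i0 then 1 else 0) + if i = i0 then 1 else 0 := by
      intro i
      split_ifs with h
      · rw [h]; omega
      · omega
    have hsum : ∑ i, g i = (∑ i, (g i - if i = i0 then 1 else 0)) + 1 := by
      have h1 : ∑ i : Fin l, (if i = i0 then 1 else 0) = 1 := by
        rw [Finset.sum_ite_eq']
        simp
      calc ∑ i, g i = ∑ i, ((g i - if i = i0 then 1 else 0) + if i = i0 then 1 else 0) :=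
            Finset.sum_congr rfl fun i _ => hsp i
        _ = (∑ i, (g i - if i = i0 then 1 else 0)) + ∑ i : Fin l, (if i = i0 then 1 else 0) :=
            Finset.sum_add_distrib
        _ = _ := by rw [h1]
    obtain ⟨p, q, p', q', h1, h2⟩ := one hTHE hS j i0
    obtain ⟨p₁, q₁, p₁', q₁', h3, h4⟩ := ih (fun i => g i - if i = i0 then 1 else 0)
      (by
        show ∑ i, (g i - if i = i0 then 1 else 0) = n + 1
        omega)
      (fun i => (Nat.sub_le _ _).trans (hg2 i))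
    have hnc : ¬ ∃ c : Eis, c ^ 3 =
        (∏ i, z i ^ (g i - if i = i0 then 1 else 0)) * z i0 := by
      rw [← prod_split z g _ i0 hsp]
      refine hS.ind g ⟨i0, ?_⟩
      intro h
      have := hg2 i0
      omega
    have hm := mcl_prod hS.mc (fun i => g i - if i = i0 then 1 else 0) Finset.univ
    obtain ⟨p₂, q₂, p₂', q₂', h5, h6⟩ := hTAE (z j)
      (∏ i, z i ^ (g i - if i = i0 then 1 else 0)) (z i0) p₁ q₁ p₁' q₁' p q p' q' hbj hnc
      (mcl_ne (hS.mc j)) (mcl_ne hm) (mcl_ne (hS.mc i0)) (hS.mc j) hm (hS.mc i0) h3 h1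
    rw [prod_split z g _ i0 hsp]
    refine ⟨p₂, q₂, p₂', q₂', h5, fun B hB hA hc => ?_⟩
    have hgi : ∀ i, g i - (if i = i0 then 1 else 0) ≠ 0 → g i ≠ 0 := by
      intro i h h'
      apply h
      rw [h']
      exact Nat.zero_sub _
    rw [sum_split _ g _ i0 hsp, h6 B hB (hA j) (age_prod hSTM hSPP hB.ne hA _ Finset.univ)
      (hA i0) (hc.imp id fun h => h.imp id fun h =>
        ⟨lce_prod _ (fun i hi => h i (hgi i hi)) Finset.univ, h i0 hi0⟩),
      h4 B hB hA (hc.imp id fun h => h.imp id fun h i hi => h i (hgi i hi)),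
      h2 B hB hA (hc.imp id fun h => h.imp id fun h => h i0 hi0)]

end Row

end CHE

open _root_.Pool.Agent.PTK.CHE in
theorem CHE_thm (hTAE : Stmt_TAE) (hTHE : Stmt_THE) (hSTM : STM) (hSPP : SPP) : Stmt_CHE := by
  intro l z P Q P' Q' hS j c hc2 hc
  obtain ⟨i1, hi1⟩ := hc
  have hpos : 0 < ∑ i, c i := by
    have h1 : c i1 ≤ ∑ i, c i :=
      Finset.single_le_sum (f := fun i => c i) (fun i _ => Nat.zero_le _)
        (Finset.mem_univ i1)
    omega
  exact key hTAE hTHE hSTM hSPP hS j ((∑ i, c i) - 1) c (by omega) hc2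

end Pool.Agent.PTK


end

section

/-!
# PTK_F2E: `b` a local cube and `x` not, tame places
-/

set_option autoImplicit false

open NumberField IsDedekindDomain Finset
open scoped nonZeroDivisors Pointwise

namespace Pool.Agent.PTK

open Pool.Agent.Lib_helper18 Pool.Agent.Lib_helper18.Eis Pool.Agent.Lib_helper84.Cub
open Pool.Agent.PT Pool.Agent.PTE Pool.Agent.PT3 Pool.Agent.PTL Pool.Agent.PTN

theorem F2E_thm (hSTM : STM) (hSPP : SPP) (hLCI : Stmt_LCI) (hIF2 : Stmt_IF2) : Stmt_F2E := by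
  intro π B b x p q p' q' hB hb hx hsol hLb hLx
  have hLSym : LSym π.1 (tm π.1) 1 := hSTM π.1 π.2.1 (hSPP.2.2.2.1 π).1
  have h1 : ¬ (3 ∣ V π.1 x ∧ ch π.1 x = 0) :=
    fun h => hLx ((hLCI.1 π x hx.ne).2 h)
  obtain ⟨j, hj, hj'⟩ := PT.F2B.tm_smul (hx.sym π) h1
  obtain ⟨N0, hN0⟩ := hIF2 π.1 (tm π.1) 1 hLSym b x p q p' q' hb.ne hx.ne hsol
  refine ⟨N0, fun r hr => ?_⟩
  have h2 := hN0 r hr
  have h3 : ASE (tm π.1) B p q p' q' r = j * ASE (tm π.1) x p q p' q' r := by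
    unfold ASE
    rw [hj, hj, hj, hj]
    ring
  rw [h3, h2, hj, hj, hj']
  ring

end Pool.Agent.PTK


end

section

/-! PTK_AVR (helper87): the average of the rank in a class. -/

set_option autoImplicit false

open Finset

namespace Pool.Agent.PTK

open Pool.Agent.Lib_helper18 Pool.Agent.Lib_helper18.Eis Pool.Agent.Lib_helper84.Cub
open Pool.Agent.PT Pool.Agent.PTE Pool.Agent.PT3 Pool.Agent.PTL Pool.Agent.PTN

namespace AVR

/-! ### scalar inequalities -/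

lemma nat1 (w : ℕ) : (w : ℝ) ≤ 1 / 2 + 3 ^ w / 6 := by
  induction w with
  | zero => norm_num
  | succ w ih =>
    rcases Nat.eq_zero_or_pos w with rfl | hw
    · norm_num
    · have h1 : (3 : ℝ) ≤ 3 ^ w := by
        calc (3 : ℝ) = 3 ^ 1 := by norm_num
          _ ≤ 3 ^ w := pow_le_pow_right₀ (by norm_num) hw
      rw [pow_succ]; push_cast; linarith

lemma nat2 (w : ℕ) : (w : ℝ) ≤ 3 / 2 + 3 ^ w / 18 := by
  induction w with
  | zero => norm_num
  | succ w ih =>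
    rcases Nat.lt_or_ge w 2 with hw | hw
    · interval_cases w <;> norm_num
    · have h1 : (9 : ℝ) ≤ 3 ^ w := by
        calc (9 : ℝ) = 3 ^ 2 := by norm_num
          _ ≤ 3 ^ w := pow_le_pow_right₀ (by norm_num) hw
      rw [pow_succ]; push_cast; linarith

lemma sqrt3 (t : ℝ) (ht : 0 < t) (w κ : ℕ) :
    √3 ^ (w + κ) ≤ t / 2 * 3 ^ w + 1 / (2 * t) * 3 ^ κ := by
  have h3 : √3 ^ 2 = (3 : ℝ) := Real.sq_sqrt (by norm_num)
  have hw : (3 : ℝ) ^ w = (√3 ^ w) ^ 2 := by rw [← pow_mul, mul_comm, pow_mul, h3]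
  have hk : (3 : ℝ) ^ κ = (√3 ^ κ) ^ 2 := by rw [← pow_mul, mul_comm, pow_mul, h3]
  rw [pow_add, hw, hk]
  set a := √3 ^ w
  set b := √3 ^ κ
  have h : 0 ≤ (t * a - b) ^ 2 := sq_nonneg _
  have e : t / 2 * a ^ 2 + 1 / (2 * t) * b ^ 2 - a * b = (t * a - b) ^ 2 / (2 * t) := by
    field_simp
    ring
  have : 0 ≤ (t * a - b) ^ 2 / (2 * t) := by positivity
  linarith

/-! ### the general average -/

open Classical in
theorem gen (hSPP : SPP) (hAVW : Stmt_AVW) (hAVC : Stmt_AVC) (hCLT : Stmt_CLT)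
    {h n m k : ℕ} {π : Fin m → PP} {p e : Fin m → ℕ} {r f : Fin k → ℕ}
    {w0 : ZMod 3} {c : Fin m → ZMod 3} (hN : NF n π p e r f) (hh : h ≤ 2)
    {F : ℕ → ℝ} (hF : Monotone F) (h0 : 0 ≤ F 0) {α β γ x : ℝ} (hα : 0 ≤ α) (hβ : 0 ≤ β)
    (hγ : 0 ≤ γ) (hb : ∀ w κ : ℕ, F (w + κ) ≤ α + β * 3 ^ w + γ * 3 ^ κ)
    (hx : α + β * (3 + 3 ^ dN h n w0) + γ * 4 = x) :
    AboveA ((3 ^ h * n : ℕ) : ℤ) 2 (Kl π w0 c) (fun A => F (CubeRank.rr A))
      (x / 3 ^ (m + 1)) := by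
  refine CAB.above_of hSPP hN w0 c 2 hF h0
    (fun E => {q : ℕ | q % 3 = 2 ∧ InCT E π w0 c q}) (fun E q => Iff.rfl) ?_
  obtain ⟨K1, hK1⟩ := hAVW h n m k π p e r f w0 c hN hh
  obtain ⟨κ₀, ⟨M, hM⟩, K2, hK2⟩ := hAVC h n m k π p e r f w0 c hN hh
  obtain ⟨K3, hK3⟩ := hCLT m π p hN.pp hN.p1 hN.pπ hN.pinj w0 c 2 (Or.inr rfl)
  have hFn : ∀ n, 0 ≤ F n := fun n => h0.trans (hF (Nat.zero_le n))
  refine ⟨α * K3 + β * K1 + γ * K2 + ∑ E ∈ ({1, 2} : Finset ℕ), ∑ q ∈ range (M + 1),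
    F (CubeRank.rr (BB h n E q)), fun σ h1 h2 T => ?_⟩
  have a1 := hK1 σ h1 h2 T
  have a2 := hK2 σ h1 h2 T
  have a3 := (hK3 σ h1 h2).2
  set S : ℕ → Set ℕ := fun E => {q : ℕ | q % 3 = 2 ∧ InCT E π w0 c q} with hS
  -- pointwise
  have key : ∀ E ∈ ({1, 2} : Finset ℕ), ∀ q ∈ T,
      (if q.Prime ∧ q ∈ S E then F (CubeRank.rr (BB h n E q)) * (q : ℝ) ^ (-σ) else 0) ≤
      α * BDENS.ind (S E) σ q +
      β * (if q.Prime ∧ q % 3 = 2 ∧ InCT E π w0 c q then
        (Nat.card (WqS h n π p e r w0 c (BB h n E q)) : ℝ) * (q : ℝ) ^ (-σ) else 0) +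
      γ * (if q.Prime ∧ q % 3 = 2 ∧ InCT E π w0 c q then
        (3 : ℝ) ^ κ₀ (BB h n E q) * (q : ℝ) ^ (-σ) else 0) +
      (if q ≤ M then F (CubeRank.rr (BB h n E q)) else 0) := by
    intro E hE q _
    have hE' : E = 1 ∨ E = 2 := by simpa using hE
    have hq0 : 0 ≤ (q : ℝ) ^ (-σ) := Real.rpow_nonneg (Nat.cast_nonneg q) _
    by_cases hq : q.Prime ∧ q ∈ S E
    · have hq' : q.Prime ∧ q % 3 = 2 ∧ InCT E π w0 c q := hq
      rw [if_pos hq, if_pos hq', if_pos hq', BDENS.ind_mem hq.1 hq.2]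
      by_cases hqM : q ≤ M
      · rw [if_pos hqM]
        have g1 : (q : ℝ) ^ (-σ) ≤ 1 :=
          Real.rpow_le_one_of_one_le_of_nonpos (by exact_mod_cast hq.1.one_lt.le) (by linarith)
        have g2 := mul_le_mul_of_nonneg_left g1 (hFn (CubeRank.rr (BB h n E q)))
        rw [mul_one] at g2
        have g3 : 0 ≤ α * (q : ℝ) ^ (-σ) + β * ((Nat.card (WqS h n π p e r w0 c (BB h n E q)) : ℝ) *
          (q : ℝ) ^ (-σ)) + γ * ((3 : ℝ) ^ κ₀ (BB h n E q) * (q : ℝ) ^ (-σ)) := by positivity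
        linarith
      · rw [if_neg hqM, add_zero]
        push Not at hqM
        obtain ⟨hgen, d, hd⟩ := hM E q hE' hq'.1 hqM hq'.2.1 hq'.2.2
        rw [hd, Nat.log_pow (by norm_num)] at hgen
        have g1 := hF (CubeRank.rr_le hgen)
        have g2 := g1.trans (hb d (κ₀ (BB h n E q)))
        have g3 := mul_le_mul_of_nonneg_right g2 hq0
        rw [hd]
        push_cast
        refine g3.trans (le_of_eq ?_)
        ring
    · have hq' : ¬ (q.Prime ∧ q % 3 = 2 ∧ InCT E π w0 c q) := hq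
      rw [if_neg hq, if_neg hq', if_neg hq', BDENS.ind_not hq]
      have : 0 ≤ (if q ≤ M then F (CubeRank.rr (BB h n E q)) else 0) := by
        split_ifs
        · exact hFn _
        · exact le_rfl
      linarith
  have s1 := Finset.sum_le_sum fun E hE => Finset.sum_le_sum fun q hq => key E hE q hq
  refine le_trans (le_of_eq ?_) (s1.trans ?_)
  · refine Finset.sum_congr rfl fun E _ => Finset.sum_congr rfl fun q _ => ?_
    congr
  simp only [Finset.sum_add_distrib, ← Finset.mul_sum]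
  -- the four sums
  have b1 : ∑ E ∈ ({1, 2} : Finset ℕ), ∑ q ∈ T, BDENS.ind (S E) σ q ≤
      1 / 3 ^ (m + 1) * Real.log (1 / (σ - 1)) + K3 := by
    rw [Finset.sum_pair (by norm_num : (1 : ℕ) ≠ 2)]
    exact (add_le_add (DOMG.sum_ind_le _ h1 T) (DOMG.sum_ind_le _ h1 T)).trans a3
  have b4 : ∑ E ∈ ({1, 2} : Finset ℕ), ∑ q ∈ T,
      (if q ≤ M then F (CubeRank.rr (BB h n E q)) else 0) ≤
      ∑ E ∈ ({1, 2} : Finset ℕ), ∑ q ∈ range (M + 1), F (CubeRank.rr (BB h n E q)) := by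
    refine Finset.sum_le_sum fun E _ => ?_
    rw [← Finset.sum_filter]
    refine Finset.sum_le_sum_of_subset_of_nonneg ?_ fun q _ _ => hFn _
    intro q hq
    rw [Finset.mem_range]
    have := (Finset.mem_filter.1 hq).2
    omega
  have c1 := mul_le_mul_of_nonneg_left b1 hα
  have c2 := mul_le_mul_of_nonneg_left a1 hβ
  have c3 := mul_le_mul_of_nonneg_left a2 hγ
  have e1 : x / 3 ^ (m + 1) * Real.log (1 / (σ - 1)) =
      α * (1 / 3 ^ (m + 1) * Real.log (1 / (σ - 1))) +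
      β * ((3 + 3 ^ dN h n w0) / 3 ^ (m + 1) * Real.log (1 / (σ - 1))) +
      γ * (4 / 3 ^ (m + 1) * Real.log (1 / (σ - 1))) := by
    rw [← hx]; ring
  rw [e1]
  linarith

end AVR

open _root_.Pool.Agent.PTK.AVR in
theorem AVR_thm (hSPP : SPP) (hAVW : Stmt_AVW) (hAVC : Stmt_AVC) (hCLT : Stmt_CLT) :
    Stmt_AVR := by
  classical
  intro h n m k π p e r f w0 c hN hh
  have hd : dN h n w0 = 0 ∨ dN h n w0 = 1 ∨ dN h n w0 = 2 := by
    unfold dN
    split_ifs <;> simp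
  have m1 : Monotone (fun x : ℕ => (x : ℝ)) := Nat.mono_cast
  have m2 : Monotone (fun x : ℕ => √3 ^ x) := by
    refine pow_right_mono₀ ?_
    rw [show (1 : ℝ) = √1 by simp]
    exact Real.sqrt_le_sqrt (by norm_num)
  constructor
  · rcases hd with hd | hd | hd
    · refine gen hSPP hAVW hAVC hCLT hN hh (F := fun x => (x : ℝ)) m1 (by simp) (α := 1)
        (β := 1 / 6) (γ := 1 / 6) (by norm_num) (by norm_num) (by norm_num) (fun w κ => ?_) ?_
      · have := nat1 w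
        have := nat1 κ
        push_cast; linarith
      · rw [hd]; unfold aD'; norm_num
    · refine gen hSPP hAVW hAVC hCLT hN hh (F := fun x => (x : ℝ)) m1 (by simp) (α := 1)
        (β := 1 / 6) (γ := 1 / 6) (by norm_num) (by norm_num) (by norm_num) (fun w κ => ?_) ?_
      · have := nat1 w
        have := nat1 κ
        push_cast; linarith
      · rw [hd]; unfold aD'; norm_num
    · refine gen hSPP hAVW hAVC hCLT hN hh (F := fun x => (x : ℝ)) m1 (by simp) (α := 2)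
        (β := 1 / 18) (γ := 1 / 6) (by norm_num) (by norm_num) (by norm_num) (fun w κ => ?_) ?_
      · have := nat2 w
        have := nat1 κ
        push_cast; linarith
      · rw [hd]; unfold aD'; norm_num
  · rcases hd with hd | hd | hd
    · refine gen hSPP hAVW hAVC hCLT hN hh (F := fun x => √3 ^ x) m2 (by simp) (α := 0)
        (β := 1 / 2) (γ := 1 / 2) (by norm_num) (by norm_num) (by norm_num) (fun w κ => ?_) ?_
      · have := sqrt3 1 (by norm_num) w κ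
        norm_num at this ⊢; linarith
      · rw [hd]; unfold bD'; norm_num
    · refine gen hSPP hAVW hAVC hCLT hN hh (F := fun x => √3 ^ x) m2 (by simp) (α := 0)
        (β := 2 / 5) (γ := 5 / 8) (by norm_num) (by norm_num) (by norm_num) (fun w κ => ?_) ?_
      · have := sqrt3 (4 / 5) (by norm_num) w κ
        norm_num at this ⊢; linarith
      · rw [hd]; unfold bD'; norm_num
    · refine gen hSPP hAVW hAVC hCLT hN hh (F := fun x => √3 ^ x) m2 (by simp) (α := 0)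
        (β := 3 / 10) (γ := 5 / 6) (by norm_num) (by norm_num) (by norm_num) (fun w κ => ?_) ?_
      · have := sqrt3 (3 / 5) (by norm_num) w κ
        norm_num at this ⊢; linarith
      · rw [hd]; unfold bD'; norm_num

end Pool.Agent.PTK


end

section

/-! PTK_AV2 (helper69): the averages in a class, `q = 2 (mod 3)`. -/

set_option autoImplicit false

open Finset

namespace Pool.Agent.PTK

open Pool.Agent.Lib_helper18 Pool.Agent.Lib_helper18.Eis Pool.Agent.Lib_helper84.Cub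
open Pool.Agent.PT Pool.Agent.PTE Pool.Agent.PT3 Pool.Agent.PTL Pool.Agent.PTN

namespace AV2

/-- the three bounds without the classes of points -/
theorem base (hUPS : Stmt_UPS) (hKUP : Stmt_KUP) (hLAM : Stmt_LAM) (hCT0 : Stmt_CT0)
    {h n m k : ℕ} {π : Fin m → PP} {p e : Fin m → ℕ} {r f : Fin k → ℕ}
    {w0 : ZMod 3} {c : Fin m → ZMod 3} {s : ℕ} {τ : Fin s → Fin 3} {b X Y : Fin s → ℤ}
    {P Q P' Q' : Fin s → Fin s → ℤ} (hN : NF n π p e r f) (hh : h ≤ 2)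
    (hS : PlS h n π w0 c τ b X Y P Q P' Q') :
    UpS (fun E => {q | q % 3 = 2 ∧ InCT E π w0 c q})
      (fun E q => 3 ^ kS h n b X Y P Q P' Q' E q) (4 * (1 / 3 ^ (m + 1))) ∧
    UpS (fun E => {q | q % 3 = 2 ∧ InCT E π w0 c q})
      (fun E q => (kS h n b X Y P Q P' Q' E q : ℝ)) (13 / 12 * (1 / 3 ^ (m + 1))) ∧
    UpS (fun E => {q | q % 3 = 2 ∧ InCT E π w0 c q}) (fun _ _ => 1) (1 / 3 ^ (m + 1)) := by
  obtain ⟨a1, a2, a3⟩ := hKUP (fun E => {q | q % 3 = 2 ∧ InCT E π w0 c q})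
    (fun E q => kS h n b X Y P Q P' Q' E q) s 0 (1 / 3 ^ (m + 1)) (by positivity)
    (fun E q _ _ _ _ => Nat.sub_le _ _)
    (hCT0 h n m k π p e r f w0 c s τ b X Y P Q P' Q' hN hh hS)
  refine ⟨a1, hUPS.2.1 _ _ _ _ ?_ a2, a3⟩
  exact mul_le_mul_of_nonneg_right (hLAM.1 s) (by positivity)

/-- the bounds for the primes with a given class of points -/
theorem withy (hKUP : Stmt_KUP) (hCTJ : Stmt_CTJ)
    {h n m k : ℕ} {π : Fin m → PP} {p e : Fin m → ℕ} {r f : Fin k → ℕ}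
    {w0 : ZMod 3} {c : Fin m → ZMod 3} {s : ℕ} {τ : Fin s → Fin 3} {b X Y : Fin s → ℤ}
    {P Q P' Q' : Fin s → Fin s → ℤ} (hN : NF n π p e r f) (hh : h ≤ 2)
    (hS : PlS h n π w0 c τ b X Y P Q P' Q')
    {y : Fin (m + 1) → ZMod 3} (hy : y ∈ VS h n π p e r w0 c) {l : ℕ}
    {u : Fin l → Fin (m + 1) → ZMod 3} (hu : ∀ j, u j ∈ V0 h n π p e r w0 c)
    (hli : LinearIndependent (ZMod 3) (Fin.cons y u : Fin (l + 1) → Fin (m + 1) → ZMod 3)) :
    UpS (fun E => {q | q ∈ {q | q % 3 = 2 ∧ InCT E π w0 c q} ∧ Occ (BB h n E q) (zN π e y)})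
      (fun E q => 3 ^ kS h n b X Y P Q P' Q' E q) (4 * (1 / 3 ^ (m + 1)) / 3 ^ l) ∧
    UpS (fun E => {q | q ∈ {q | q % 3 = 2 ∧ InCT E π w0 c q} ∧ Occ (BB h n E q) (zN π e y)})
      (fun _ _ => 1) (1 / 3 ^ (m + 1) / 3 ^ l) := by
  have hset : ∀ E t : ℕ, {q | q ∈ {q | q ∈ {q | q % 3 = 2 ∧ InCT E π w0 c q} ∧
      Occ (BB h n E q) (zN π e y)} ∧ t ≤ kS h n b X Y P Q P' Q' E q} =
      {q | q ∈ QY h n π e w0 c y E ∧ t ≤ kS h n b X Y P Q P' Q' E q} := by
    intro E t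
    ext q
    refine and_congr_left fun _ => ?_
    exact and_assoc
  obtain ⟨a1, a2, a3⟩ := hKUP
    (fun E => {q | q ∈ {q | q % 3 = 2 ∧ InCT E π w0 c q} ∧ Occ (BB h n E q) (zN π e y)})
    (fun E q => kS h n b X Y P Q P' Q' E q) s 0 (1 / 3 ^ l / 3 ^ (m + 1)) (by positivity)
    (fun E q _ _ _ _ => Nat.sub_le _ _)
    (fun t => by
      obtain ⟨K, hK⟩ := hCTJ h n m k π p e r f w0 c s τ b X Y P Q P' Q' hN hh hS y hy l u hu hli t
      refine ⟨K, fun σ h1 h2 => ?_⟩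
      have e1 := hK σ h1 h2
      rw [← hset, ← hset] at e1
      exact e1)
  have e1 : 4 * ((1 : ℝ) / 3 ^ l / 3 ^ (m + 1)) = 4 * (1 / 3 ^ (m + 1)) / 3 ^ l := by
    field_simp
  have e2 : ((1 : ℝ) / 3 ^ l / 3 ^ (m + 1)) = 1 / 3 ^ (m + 1) / 3 ^ l := by
    field_simp
  rw [e1] at a1
  rw [e2] at a3
  exact ⟨a1, a3⟩

/-- the two bounds with the number of the classes of points -/
theorem wq (hUPS : Stmt_UPS) (hKUP : Stmt_KUP) (hLAM : Stmt_LAM) (hWSUM : Stmt_WSUM)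
    (hCTJ : Stmt_CTJ) (hCT0 : Stmt_CT0)
    {h n m k : ℕ} {π : Fin m → PP} {p e : Fin m → ℕ} {r f : Fin k → ℕ}
    {w0 : ZMod 3} {c : Fin m → ZMod 3} {s : ℕ} {τ : Fin s → Fin 3} {b X Y : Fin s → ℤ}
    {P Q P' Q' : Fin s → Fin s → ℤ} (hN : NF n π p e r f) (hh : h ≤ 2)
    (hS : PlS h n π w0 c τ b X Y P Q P' Q') :
    UpS (fun E => {q | q % 3 = 2 ∧ InCT E π w0 c q})
      (fun E q => (Nat.card (WqS h n π p e r w0 c (BB h n E q)) : ℝ) *
        3 ^ kS h n b X Y P Q P' Q' E q)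
      ((3 + 3 ^ dN h n w0) * (4 * (1 / 3 ^ (m + 1)))) ∧
    UpS (fun E => {q | q % 3 = 2 ∧ InCT E π w0 c q})
      (fun E q => (Nat.card (WqS h n π p e r w0 c (BB h n E q)) : ℝ) * 1)
      ((3 + 3 ^ dN h n w0) * (1 / 3 ^ (m + 1))) := by
  obtain ⟨b1, b2, b3⟩ := base hUPS hKUP hLAM hCT0 hN hh hS
  constructor
  · exact hWSUM h n m k π p e r f w0 c hN hh (fun E => {q | q % 3 = 2 ∧ InCT E π w0 c q})
      (fun E q => 3 ^ kS h n b X Y P Q P' Q' E q) (4 * (1 / 3 ^ (m + 1))) (by positivity)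
      (fun E q => by positivity) b1
      (fun y hy l u hu hli => (withy hKUP hCTJ hN hh hS hy hu hli).1)
  · exact hWSUM h n m k π p e r f w0 c hN hh (fun E => {q | q % 3 = 2 ∧ InCT E π w0 c q})
      (fun _ _ => 1) (1 / 3 ^ (m + 1)) (by positivity)
      (fun E q => by positivity) b3
      (fun y hy l u hu hli => (withy hKUP hCTJ hN hh hS hy hu hli).2)

theorem nf_pos {n m k : ℕ} {π : Fin m → PP} {p e : Fin m → ℕ} {r f : Fin k → ℕ}
    (hN : NF n π p e r f) : 0 < n := by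
  rw [hN.eq]
  exact Nat.mul_pos (Finset.prod_pos fun i _ => pow_pos (hN.pp i).pos _)
    (Finset.prod_pos fun j _ => pow_pos (hN.rp j).pos _)

/-- the rank for large `q` -/
theorem rk (hNBW : Stmt_NBW) (hWGR : Stmt_WGR)
    {h n m k : ℕ} {π : Fin m → PP} {p e : Fin m → ℕ} {r f : Fin k → ℕ}
    {w0 : ZMod 3} {c : Fin m → ZMod 3} {s : ℕ} {τ : Fin s → Fin 3} {b X Y : Fin s → ℤ}
    {P Q P' Q' : Fin s → Fin s → ℤ} (hN : NF n π p e r f) (hh : h ≤ 2)
    (hS : PlS h n π w0 c τ b X Y P Q P' Q') {E q : ℕ} (hE : E = 1 ∨ E = 2) (hq : q.Prime)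
    (hM : max 3 n < q) (hqS : q % 3 = 2 ∧ InCT E π w0 c q) :
    ∃ d : ℕ, Nat.card (WqS h n π p e r w0 c (BB h n E q)) = 3 ^ d ∧
      CubeRank.rr (BB h n E q) ≤ d + kS h n b X Y P Q P' Q' E q := by
  have h3 : 3 < q := lt_of_le_of_lt (le_max_left _ _) hM
  have hnq : n < q := lt_of_le_of_lt (le_max_right _ _) hM
  have hdv : ¬ q ∣ n := fun hd => absurd (Nat.le_of_dvd (nf_pos hN) hd) (by omega)
  obtain ⟨⟨d, hd⟩, -⟩ := hWGR h n m k π p e r f w0 c E q hN hh hE hq h3 hqS.1 hqS.2 hdv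
  have hg := hNBW h n m k π p e r f w0 c s τ b X Y P Q P' Q' E q hN hh hS.adm hS.sys hS.sw
    hS.lam hS.gen hE hq h3 hqS.1 hqS.2 hdv
  rw [hd, Nat.log_pow (by norm_num)] at hg
  exact ⟨d, hd, CubeRank.rr_le hg⟩

/-- the average of the rank from a bound `w ≤ α + β 3 ^ w` -/
theorem rank_avg (hUPS : Stmt_UPS) (hKUP : Stmt_KUP) (hLAM : Stmt_LAM)
    (hWSUM : Stmt_WSUM) (hCTJ : Stmt_CTJ) (hCT0 : Stmt_CT0) (hNBW : Stmt_NBW) (hWGR : Stmt_WGR)
    {h n m k : ℕ} {π : Fin m → PP} {p e : Fin m → ℕ} {r f : Fin k → ℕ}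
    {w0 : ZMod 3} {c : Fin m → ZMod 3} {s : ℕ} {τ : Fin s → Fin 3} {b X Y : Fin s → ℤ}
    {P Q P' Q' : Fin s → Fin s → ℤ} (hN : NF n π p e r f) (hh : h ≤ 2)
    (hS : PlS h n π w0 c τ b X Y P Q P' Q') {α β : ℝ} (hα : 0 ≤ α) (hβ : 0 ≤ β)
    (hw : ∀ w : ℕ, (w : ℝ) ≤ α + β * 3 ^ w) :
    UpS (fun E => {q | q % 3 = 2 ∧ InCT E π w0 c q})
      (fun E q => (CubeRank.rr (BB h n E q) : ℝ))
      ((α + β * (3 + 3 ^ dN h n w0) + 13 / 12) / 3 ^ (m + 1)) := by
  obtain ⟨b1, b2, b3⟩ := base hUPS hKUP hLAM hCT0 hN hh hS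
  obtain ⟨c1, c2⟩ := wq hUPS hKUP hLAM hWSUM hCTJ hCT0 hN hh hS
  have d3 := hUPS.2.2 _ _ _ α hα b3
  have d2 := hUPS.2.2 _ _ _ β hβ c2
  set S : ℕ → Set ℕ := fun E => {q | q % 3 = 2 ∧ InCT E π w0 c q} with hSdef
  have key := hUPS.1 (Fin 3) S (fun E q => (CubeRank.rr (BB h n E q) : ℝ)) (fun _ => S)
    ![fun _ _ => α * 1,
      fun E q => β * ((Nat.card (WqS h n π p e r w0 c (BB h n E q)) : ℝ) * 1),
      fun E q => (kS h n b X Y P Q P' Q' E q : ℝ)]
    ![α * (1 / 3 ^ (m + 1)), β * ((3 + 3 ^ dN h n w0) * (1 / 3 ^ (m + 1))),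
      13 / 12 * (1 / 3 ^ (m + 1))] 1 (max 3 n) one_pos
    (fun i E q => by
      fin_cases i
      · show (0 : ℝ) ≤ α * 1
        linarith
      · show (0 : ℝ) ≤ β * ((Nat.card (WqS h n π p e r w0 c (BB h n E q)) : ℝ) * 1)
        positivity
      · show (0 : ℝ) ≤ (kS h n b X Y P Q P' Q' E q : ℝ)
        positivity)
    (fun E q hE hq hM hqS => by
      obtain ⟨d, hd, hr⟩ := rk hNBW hWGR hN hh hS hE hq hM hqS
      rw [Fin.sum_univ_three]
      rw [if_pos hqS, if_pos hqS, if_pos hqS]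
      show 1 * (CubeRank.rr (BB h n E q) : ℝ) ≤ α * 1 +
        β * ((Nat.card (WqS h n π p e r w0 c (BB h n E q)) : ℝ) * 1) +
        (kS h n b X Y P Q P' Q' E q : ℝ)
      rw [hd]
      have h1 : (CubeRank.rr (BB h n E q) : ℝ) ≤ (d : ℝ) + (kS h n b X Y P Q P' Q' E q : ℝ) := by
        exact_mod_cast hr
      have h2 := hw d
      push_cast
      linarith)
    (fun i => by
      fin_cases i
      · exact d3
      · exact d2
      · exact b2)
  have e1 : (∑ i : Fin 3, (![α * (1 / 3 ^ (m + 1)),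
      β * ((3 + 3 ^ dN h n w0) * (1 / 3 ^ (m + 1))), 13 / 12 * (1 / 3 ^ (m + 1))] : Fin 3 → ℝ) i) / 1
      = (α + β * (3 + 3 ^ dN h n w0) + 13 / 12) / 3 ^ (m + 1) := by
    rw [Fin.sum_univ_three]
    simp only [Matrix.cons_val_zero, Matrix.cons_val_one, Matrix.cons_val]
    ring
  rw [e1] at key
  exact key

/-- the average of `3 ^ r` -/
theorem pow_avg (hUPS : Stmt_UPS) (hKUP : Stmt_KUP) (hLAM : Stmt_LAM)
    (hWSUM : Stmt_WSUM) (hCTJ : Stmt_CTJ) (hCT0 : Stmt_CT0) (hNBW : Stmt_NBW) (hWGR : Stmt_WGR)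
    {h n m k : ℕ} {π : Fin m → PP} {p e : Fin m → ℕ} {r f : Fin k → ℕ}
    {w0 : ZMod 3} {c : Fin m → ZMod 3} {s : ℕ} {τ : Fin s → Fin 3} {b X Y : Fin s → ℤ}
    {P Q P' Q' : Fin s → Fin s → ℤ} (hN : NF n π p e r f) (hh : h ≤ 2)
    (hS : PlS h n π w0 c τ b X Y P Q P' Q') :
    UpS (fun E => {q | q % 3 = 2 ∧ InCT E π w0 c q})
      (fun E q => (3 : ℝ) ^ CubeRank.rr (BB h n E q))
      (4 * (3 + 3 ^ dN h n w0) / 3 ^ (m + 1)) := by
  obtain ⟨c1, c2⟩ := wq hUPS hKUP hLAM hWSUM hCTJ hCT0 hN hh hS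
  set S : ℕ → Set ℕ := fun E => {q | q % 3 = 2 ∧ InCT E π w0 c q} with hSdef
  have key := hUPS.1 Unit S (fun E q => (3 : ℝ) ^ CubeRank.rr (BB h n E q)) (fun _ => S)
    (fun _ E q => (Nat.card (WqS h n π p e r w0 c (BB h n E q)) : ℝ) *
        3 ^ kS h n b X Y P Q P' Q' E q)
    (fun _ => (3 + 3 ^ dN h n w0) * (4 * (1 / 3 ^ (m + 1)))) 1 (max 3 n) one_pos
    (fun i E q => by positivity)
    (fun E q hE hq hM hqS => by
      obtain ⟨d, hd, hr⟩ := rk hNBW hWGR hN hh hS hE hq hM hqS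
      rw [Fintype.sum_unique, if_pos hqS, hd]
      push_cast
      rw [one_mul, ← pow_add]
      exact pow_le_pow_right₀ (by norm_num) hr)
    (fun i => c1)
  have e1 : (∑ _i : Unit, ((3 + 3 ^ dN h n w0) * (4 * (1 / 3 ^ (m + 1))) : ℝ)) / 1
      = 4 * (3 + 3 ^ dN h n w0) / 3 ^ (m + 1) := by
    rw [Fintype.sum_unique]
    ring
  rw [e1] at key
  exact key

end AV2

open _root_.Pool.Agent.PTK.AV2 in
theorem AV2_thm (hUPS : Stmt_UPS) (hUPA : Stmt_UPA) (hKUP : Stmt_KUP)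
    (hLAM : Stmt_LAM) (hWSUM : Stmt_WSUM) (hPLE : Stmt_PLE) (hCTJ : Stmt_CTJ) (hCT0 : Stmt_CT0)
    (hNBW : Stmt_NBW) (hWGR : Stmt_WGR) : Stmt_AV2 := by
  intro h n m k π p e r f w0 c hN hh
  obtain ⟨s, τ, b, X, Y, P, Q, P', Q', -, hS⟩ := hPLE h n m k π p e r f w0 c hN hh
  have hd : dN h n w0 = 0 ∨ dN h n w0 = 1 ∨ dN h n w0 = 2 := by
    unfold dN
    split_ifs <;> simp
  constructor
  · refine hUPA h n m k π p e r f w0 c 2 (fun A => (CubeRank.rr A : ℝ)) _ hN ?_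
    rcases hd with hd | hd | hd
    · have h1 := rank_avg hUPS hKUP hLAM hWSUM hCTJ hCT0 hNBW hWGR hN hh hS (α := 1 / 2)
        (β := 1 / 6) (by norm_num) (by norm_num) (fun w => (AVR.nat1 w).trans (le_of_eq (by ring)))
      rw [hd] at h1 ⊢
      have e : ((1 : ℝ) / 2 + 1 / 6 * (3 + 3 ^ 0) + 13 / 12) = aQ 0 := by
        unfold aQ; norm_num
      rw [e] at h1
      exact h1
    · have h1 := rank_avg hUPS hKUP hLAM hWSUM hCTJ hCT0 hNBW hWGR hN hh hS (α := 1 / 2)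
        (β := 1 / 6) (by norm_num) (by norm_num) (fun w => (AVR.nat1 w).trans (le_of_eq (by ring)))
      rw [hd] at h1 ⊢
      have e : ((1 : ℝ) / 2 + 1 / 6 * (3 + 3 ^ 1) + 13 / 12) = aQ 1 := by
        unfold aQ; norm_num
      rw [e] at h1
      exact h1
    · have h1 := rank_avg hUPS hKUP hLAM hWSUM hCTJ hCT0 hNBW hWGR hN hh hS (α := 3 / 2)
        (β := 1 / 18) (by norm_num) (by norm_num) (fun w => (AVR.nat2 w).trans (le_of_eq (by ring)))
      rw [hd] at h1 ⊢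
      have e : ((3 : ℝ) / 2 + 1 / 18 * (3 + 3 ^ 2) + 13 / 12) = aQ 2 := by
        unfold aQ; norm_num
      rw [e] at h1
      exact h1
  · refine hUPA h n m k π p e r f w0 c 2 (fun A => (3 : ℝ) ^ CubeRank.rr A) _ hN ?_
    exact pow_avg hUPS hKUP hLAM hWSUM hCTJ hCT0 hNBW hWGR hN hh hS

end Pool.Agent.PTK


end

section

/-! PTK_FL2 (helper33): the law in a class, `q = 2 (mod 3)`. -/

set_option autoImplicit false

open Finset

namespace Pool.Agent.PTK

open Pool.Agent.Lib_helper18 Pool.Agent.Lib_helper18.Eis Pool.Agent.Lib_helper84.Cub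
open Pool.Agent.PT Pool.Agent.PTE Pool.Agent.PT3 Pool.Agent.PTL Pool.Agent.PTN

theorem FL2_thm (hUPS : Stmt_UPS) (hPLE : Stmt_PLE) (hZBA : Stmt_ZBA) (hMSF : Stmt_MSF)
    (hCNM : Stmt_CNM) (hNBW : Stmt_NBW) (hZKQ : Stmt_ZKQ) (hJD2 : Stmt_JD2) : Stmt_FL2 := by
  intro h n m k π p e r f w0 c hN hh F hF hF0
  obtain ⟨s, τ, b, X, Y, P, Q, P', Q', hs, hS⟩ := hPLE h n m k π p e r f w0 c hN hh
  obtain ⟨l, y, hy⟩ := hZBA h n m k π p e r w0 c hh
  obtain ⟨U, R, U', R', hU⟩ := hMSF h n m k π p e r f w0 c hN hh l y hy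
  obtain ⟨N, α, β, hαβ⟩ := hCNM.1 l
  obtain ⟨N₀, hN₀⟩ := hZKQ h n m k π p e r f w0 c hN hh l y U R U' R' hy hU
  have hJ := hJD2 h n m k π p e r f w0 c s τ b X Y P Q P' Q' hN hh hS l N y U R U' R' α β
    ⟨hy, hU, hαβ⟩ (fun a b => F (a + b)) (fun a x x' hx => hF (by omega))
    (fun a => hF0.trans (hF (Nat.zero_le _)))
  have key := hUPS.1 Unit (fun E => {q | q % 3 = 2 ∧ InCT E π w0 c q})
    (fun E q => F (CubeRank.rr (BB h n E q)))
    (fun _ => fun E => {q | q % 3 = 2 ∧ InCT E π w0 c q})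
    (fun _ E q => F (kY h n π e y U R U' R' E q + kS h n b X Y P Q P' Q' E q))
    (fun _ => Esk l (fun a => Esk s (fun b => F (a + b))) / 3 ^ (m + 1)) 1
    (max (max 3 n) N₀) one_pos
    (fun i E q => hF0.trans (hF (Nat.zero_le _)))
    (fun E q hE hq hM hqS => by
      rw [Fintype.sum_unique, if_pos hqS, one_mul]
      have h3 : 3 < q := lt_of_le_of_lt ((le_max_left _ _).trans (le_max_left _ _)) hM
      have hnq : n < q := lt_of_le_of_lt ((le_max_right _ _).trans (le_max_left _ _)) hM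
      have hN0q : N₀ < q := lt_of_le_of_lt (le_max_right _ _) hM
      have hdv : ¬ q ∣ n := fun hd => absurd (Nat.le_of_dvd (AV2.nf_pos hN) hd) (by omega)
      have hg := CubeRank.rr_le (hNBW h n m k π p e r f w0 c s τ b X Y P Q P' Q' E q hN hh hS.adm
        hS.sys hS.sw hS.lam hS.gen hE hq h3 hqS.1 hqS.2 hdv)
      have hk := (hN₀ E q hE hq hN0q (Or.inr hqS.1) hqS.2).2
      refine hF (hg.trans ?_)
      exact Nat.add_le_add_right hk _)
    (fun i => hJ)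
  rw [Fintype.sum_unique, div_one] at key
  rw [← hs, ← hy.card]
  exact key

end Pool.Agent.PTK


end

section

/-!
# PTK_IF2: `(x, α_b) = (x, k_0) + (w, x)`
-/

set_option autoImplicit false

namespace Pool.Agent.PTK

open Pool.Agent.Lib_helper18 Pool.Agent.Lib_helper18.Eis Pool.Agent.Lib_helper84.Cub
open Pool.Agent.PT hiding IF2

namespace IF2

theorem not_dvd {π a : Eis} (hπ : Prime π) (ha : a ≠ 0) {N : ℕ} (hN : V π a < N) :
    ¬ π ^ N ∣ a := by
  intro h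
  have h1 := (fin hπ ha).le_multiplicity_of_pow_dvd h
  unfold V at hN
  omega

theorem near_ne {π a a' : Eis} (hπ : Prime π) (ha : a ≠ 0) {N : ℕ} (hN : V π a < N)
    (h : π ^ N ∣ a' - a) : a' ≠ 0 := by
  rintro rfl
  rw [zero_sub, dvd_neg] at h
  exact not_dvd hπ ha hN h

theorem wi_cube (i : ℕ) : (w ^ i) ^ 3 = 1 := by
  rw [← pow_mul, mul_comm, pow_mul, w_cube, one_pow]

theorem w_ne : w ≠ 0 := by
  intro h
  have := congrArg Eis.im h
  simp at this

/-- each linear form divides the norm form -/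
theorem form_dvd (X Y ξ : Eis) (i : ℕ) : X + w ^ i * ξ * Y ∣ X ^ 3 + ξ ^ 3 * Y ^ 3 := by
  refine ⟨X ^ 2 - X * (w ^ i * ξ * Y) + (w ^ i * ξ * Y) ^ 2, ?_⟩
  have h := wi_cube i
  have : (X + w ^ i * ξ * Y) * (X ^ 2 - X * (w ^ i * ξ * Y) + (w ^ i * ξ * Y) ^ 2) =
      X ^ 3 + (w ^ i) ^ 3 * ξ ^ 3 * Y ^ 3 := by ring
  rw [this, h, one_mul]

theorem form_prod (X Y ξ : Eis) : (X + w ^ 0 * ξ * Y) * (X + w ^ 1 * ξ * Y) *
    (X + w ^ 2 * ξ * Y) = X ^ 3 + ξ ^ 3 * Y ^ 3 := by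
  linear_combination (X ^ 2 * ξ * Y + X * ξ ^ 2 * Y ^ 2 * w) * w_rel +
    (ξ ^ 3 * Y ^ 3) * w_cube

section

variable {π : Eis} {s : Eis → Eis → ZMod 3} {e : ℕ}

theorem mul_right (hS : LSym π s e) {a b c : Eis} (ha : a ≠ 0) (hb : b ≠ 0) (hc : c ≠ 0) :
    s c (a * b) = s c a + s c b := by
  rw [hS.skew (a * b) c (mul_ne_zero ha hb) hc, hS.mul a b c ha hb hc, hS.skew c a hc ha,
    hS.skew c b hc hb]
  ring

theorem cont_right (hS : LSym π s e) {a a' b : Eis} (ha : a ≠ 0) (ha' : a' ≠ 0) (hb : b ≠ 0)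
    (h : π ^ (V π a + e) ∣ a' - a) : s b a' = s b a := by
  rw [hS.skew a' b ha' hb, hS.cont a a' b ha hb h, hS.skew b a hb ha]
  ring

end

end IF2

open _root_.Pool.Agent.PTK.IF2 in
theorem IF2_thm (hSTAR : STAR) : Stmt_IF2 := by
  intro π s e hS b x p q p' q' hb hx hsol
  set n0 : Eis := p' ^ 3 + b * q' ^ 3 with hn0def
  set g0 : Eis := p ^ 3 + b * q ^ 3 with hg0def
  have hg0 : g0 = x * n0 := by
    rw [hn0def, hg0def]
    exact hsol.eq
  have hg0ne : g0 ≠ 0 := by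
    rw [hg0def]
    exact hsol.n1
  have hn0ne : n0 ≠ 0 := by
    intro h
    apply hg0ne
    rw [hg0, h, mul_zero]
  have hxe : x ≠ 0 := hx
  have hbe : b ≠ 0 := hb
  have hD1 := hsol.g1
  have hD2 := hsol.g2
  refine ⟨V π b + V π n0 + V π g0 + e + 1, ?_⟩
  intro r hr
  set N0 := V π b + V π n0 + V π g0 + e + 1 with hN0
  have hr0 : r ≠ 0 := by
    rintro h
    have : r ^ 3 ≠ 0 := near_ne hS.prime hbe (by omega) hr
    exact this (by rw [h]; ring)
  have hFdvd : π ^ N0 ∣ (p' ^ 3 + r ^ 3 * q' ^ 3) - n0 := by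
    have : (p' ^ 3 + r ^ 3 * q' ^ 3) - n0 =
        (r ^ 3 - b) * q' ^ 3 := by rw [hn0def]; ring
    rw [this]
    exact hr.mul_right _
  have hGdvd : π ^ N0 ∣ (p ^ 3 + r ^ 3 * q ^ 3) - g0 := by
    have : (p ^ 3 + r ^ 3 * q ^ 3) - g0 =
        (r ^ 3 - b) * q ^ 3 := by rw [hg0def]; ring
    rw [this]
    exact hr.mul_right _
  set n1 : Eis := p' ^ 3 + r ^ 3 * q' ^ 3 with hn1
  set g1 : Eis := p ^ 3 + r ^ 3 * q ^ 3 with hg1
  have hn1ne : n1 ≠ 0 := near_ne hS.prime hn0ne (by omega) hFdvd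
  have hg1ne : g1 ≠ 0 := near_ne hS.prime hg0ne (by omega) hGdvd
  let F : ℕ → Eis := fun i => p' + w ^ i * r * q'
  let G : ℕ → Eis := fun i => p + w ^ i * r * q
  have hF : ∀ i, F i ≠ 0 := fun i => ne_zero_of_dvd_ne_zero hn1ne (form_dvd _ _ _ i)
  have hG : ∀ i, G i ≠ 0 := fun i => ne_zero_of_dvd_ne_zero hg1ne (form_dvd _ _ _ i)
  have hFL : ∀ i, LfE p' q' i r = F i := fun i => by unfold LfE; ring
  have hGL : ∀ i, LfE p q i r = G i := fun i => by unfold LfE; ring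
  have hFp : F 0 * F 1 * F 2 = n1 := form_prod _ _ _
  have hGp : G 0 * G 1 * G 2 = g1 := form_prod _ _ _
  -- replace `n1`, `g1` by the integers `n0`, `g0`
  have cn : ∀ c : Eis, c ≠ 0 → s c n1 = s c n0 := fun c hc =>
    cont_right hS hn0ne hn1ne hc ((pow_dvd_pow π (by omega)).trans hFdvd)
  have cn' : ∀ c : Eis, c ≠ 0 → s n1 c = s n0 c := fun c hc =>
    hS.cont _ _ _ hn0ne hc ((pow_dvd_pow π (by omega)).trans hFdvd)
  have cg : ∀ c : Eis, c ≠ 0 → s c g1 = s c x + s c n0 := fun c hc => by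
    rw [cont_right hS hg0ne hg1ne hc ((pow_dvd_pow π (by omega)).trans hGdvd), hg0,
      mul_right hS hxe hn0ne hc]
  obtain ⟨s1, s2⟩ := hSTAR π s e hS p' q' p q r F G
    (GfE p q p' q') (fun i => rfl) (fun i => rfl) (fun i => by unfold GfE; ring) hr0 hF
  obtain ⟨t1, _⟩ := hSTAR π s e hS p q p q r G G
    (fun i => p * q - w ^ i * p * q) (fun i => rfl) (fun i => rfl) (fun i => rfl) hr0 hG
  have s3 := s2 hG hD1 hD2
  rw [hFp, cn _ (hF 1), cn _ (hF 2), cn _ w_ne] at s1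
  rw [hGp, cg _ (hG 1), cg _ (hG 2), cg _ w_ne] at t1
  rw [hFp, hGp, cg _ hD1, cg _ hD2, cn _ hD1, cn _ hD2, cn _ w_ne, cn' _ (hG 2), cn' _ (hG 1),
    cg _ (hF 1), cg _ (hF 2), hS.skew _ _ (hG 2) hn0ne, hS.skew _ _ (hG 1) hn0ne] at s3
  unfold ASE
  rw [hFL, hFL, hGL, hGL, hS.skew _ _ (hG 2) hxe, hS.skew _ _ (hF 1) hxe, hS.skew _ _ (hG 1) hxe,
    hS.skew _ _ (hF 2) hxe, hS.skew _ _ hD1 hxe, hS.skew _ _ hD2 hxe]
  have h3 : (3 : ZMod 3) = 0 := rfl
  linear_combination s3 + s1 + t1 + s w n0 * h3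

end Pool.Agent.PTK


end

section

/-!
# IF4: the local term of a point over `K` when `x` is a local cube
-/

set_option autoImplicit false

namespace Pool.Agent.PTK

open Pool.Agent.Lib_helper18 Pool.Agent.Lib_helper18.Eis Pool.Agent.Lib_helper84.Cub
open Pool.Agent.PT Pool.Agent.PT.IF4

theorem IF4_thm (hSTAR : STAR) : Stmt_IF4 := by
  intro π s e hs b x p q p' q' X Y cb cx hsol hX hY cn0 hD
  have hN12 : p ^ 3 - x * p' ^ 3 = b * (x * q' ^ 3 - q ^ 3) := by linear_combination hsol.eq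
  have cN1 : p ^ 3 - x * p' ^ 3 ≠ 0 := hsol.n2
  have cN2 : x * q' ^ 3 - q ^ 3 ≠ 0 := by
    intro h
    rw [h, mul_zero] at hN12
    exact cN1 hN12
  refine ⟨V π (X ^ 3 + x * Y ^ 3) + V π (p ^ 3 - x * p' ^ 3) +
    V π (x * q' ^ 3 - q ^ 3) + V π x + e + 1, ?_⟩
  intro ξ hξ
  set N : ℕ := V π (X ^ 3 + x * Y ^ 3) + V π (p ^ 3 - x * p' ^ 3) +
    V π (x * q' ^ 3 - q ^ 3) + V π x + e + 1 with hN
  have hξ0 : ξ ≠ 0 := by
    intro h
    have := (approx hs cx (N := N) (by omega) hξ).1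
    apply this
    rw [h]
    ring
  -- the products
  have eF : LfE X Y 0 ξ * LfE X Y 1 ξ * LfE X Y 2 ξ = X ^ 3 + (ξ * Y) ^ 3 := by
    rw [← prod3]
    simp only [LfE]
    ring
  have eG : LfE p (-p') 0 ξ * LfE p (-p') 1 ξ * LfE p (-p') 2 ξ
      = p ^ 3 + (ξ * (-p')) ^ 3 := by
    rw [← prod3]
    simp only [LfE]
    ring
  have eG' : LfE (-q) q' 0 ξ * LfE (-q) q' 1 ξ * LfE (-q) q' 2 ξ
      = (-q) ^ 3 + (ξ * q') ^ 3 := by
    rw [← prod3]
    simp only [LfE]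
    ring
  obtain ⟨hF0, hF⟩ := approx hs cn0 (a' := X ^ 3 + (ξ * Y) ^ 3) (N := N)
    (by omega) (by
      have e1 : X ^ 3 + (ξ * Y) ^ 3 - (X ^ 3 + x * Y ^ 3)
          = (ξ ^ 3 - x) * Y ^ 3 := by ring
      rw [e1]
      exact Dvd.dvd.mul_right hξ _)
  obtain ⟨hG0, hG⟩ := approx hs cN1 (a' := p ^ 3 + (ξ * (-p')) ^ 3) (N := N)
    (by omega) (by
      have e1 : p ^ 3 + (ξ * (-p')) ^ 3 - (p ^ 3 - x * p' ^ 3)
          = (ξ ^ 3 - x) * (-p' ^ 3) := by ring
      rw [e1]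
      exact Dvd.dvd.mul_right hξ _)
  obtain ⟨hG0', hG'⟩ := approx hs cN2 (a' := (-q) ^ 3 + (ξ * q') ^ 3) (N := N)
    (by omega) (by
      have e1 : (-q) ^ 3 + (ξ * q') ^ 3 - (x * q' ^ 3 - q ^ 3)
          = (ξ ^ 3 - x) * (q' ^ 3) := by ring
      rw [e1]
      exact Dvd.dvd.mul_right hξ _)
  have nF : ∀ i, LfE X Y i ξ ≠ 0 := by
    intro i
    have := lin_ne _ _ hF0 i
    intro h
    apply this
    rw [← h]
    simp only [LfE]
    ring
  have nG : ∀ i, LfE p (-p') i ξ ≠ 0 := by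
    intro i
    have := lin_ne _ _ hG0 i
    intro h
    apply this
    rw [← h]
    simp only [LfE]
    ring
  have nG' : ∀ i, LfE (-q) q' i ξ ≠ 0 := by
    intro i
    have := lin_ne _ _ hG0' i
    intro h
    apply this
    rw [← h]
    simp only [LfE]
    ring
  obtain ⟨nD1, nD2, nD1', nD2'⟩ := hD
  have S1 := (hSTAR π s e hs X Y p (-p') ξ (fun i => LfE X Y i ξ) (fun i => LfE p (-p') i ξ)
    (fun i => -DfE X Y p' p i) (fun i => by simp only [LfE]; ring)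
    (fun i => by simp only [LfE]; ring)
    (fun i => by simp only [DfE]; ring) hξ0 nF).2 nG (neg_ne_zero.2 nD1)
    (neg_ne_zero.2 nD2)
  have S2 := (hSTAR π s e hs X Y (-q) q' ξ (fun i => LfE X Y i ξ) (fun i => LfE (-q) q' i ξ)
    (fun i => DfE X Y q' q i) (fun i => by simp only [LfE]; ring)
    (fun i => by simp only [LfE]; ring)
    (fun i => by simp only [DfE]; ring) hξ0 nF).2 nG' nD1' nD2'
  simp only [eF, eG, eG'] at S1 S2
  have hw : w ≠ 0 := by
    intro h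
    have := congrArg Eis.im h
    simp at this
  rw [s_neg hs nD1 hG0, s_neg hs nD2 hG0, s_neg hs nD1 hF0, s_neg hs nD2 hF0,
    (hG _ nD1).2, (hG _ nD2).2, (hF _ nD1).2, (hF _ nD2).2, (hF _ hw).2, (hF _ (nG 2)).1,
    (hF _ (nG 1)).1, (hG _ (nF 1)).2, (hG _ (nF 2)).2] at S1
  rw [(hG' _ nD1').2, (hG' _ nD2').2, (hF _ nD1').2, (hF _ nD2').2, (hF _ hw).2,
    (hF _ (nG' 2)).1, (hF _ (nG' 1)).1, (hG' _ (nF 1)).2, (hG' _ (nF 2)).2] at S2
  have hb1 : ∀ i, s (LfE X Y i ξ) (p ^ 3 - x * p' ^ 3)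
      = s (LfE X Y i ξ) b + s (LfE X Y i ξ) (x * q' ^ 3 - q ^ 3) := by
    intro i
    rw [← mul_right hs (nF i) cb cN2, hN12]
  rw [hb1 1, hb1 2] at S1
  unfold SVE ASE
  linear_combination S1 - S2

end Pool.Agent.PTK


end

section

/-!
# PTK_JDG: joint averages with the matrix of the minus part, `q = 1 (mod 3)`, one pattern
-/

set_option autoImplicit false

open NumberField IsDedekindDomain Finset
open scoped nonZeroDivisors Pointwise

namespace Pool.Agent.PTK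

open Pool.Agent.Lib_helper18 Pool.Agent.Lib_helper18.Eis Pool.Agent.Lib_helper84.Cub
open Pool.Agent.PT Pool.Agent.PTE Pool.Agent.PT3 Pool.Agent.PTL Pool.Agent.PTN

/-- PTK_JDG -/
theorem JDG_thm (hUPS : Stmt_UPS) (hKUM : Stmt_KUM) (hMDU : Stmt_MDU) (hZKQ : Stmt_ZKQ)
    (hCNM : Stmt_CNM) : Stmt_JDG := by
  classical
  intro h n m k π p e r f w0 c d v δ s τ b X Y P Q P' Q' hNF hh hδ hPl l N y U R U' R' α β hM
    F hF hF0
  have hd : d - 1 = s := by
    have := hPl.dim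
    omega
  have hFn : ∀ a c, 0 ≤ F a c := fun a c => (hF0 a).trans (hF a (Nat.zero_le c))
  obtain ⟨N₀, hN₀⟩ := hZKQ h n m k π p e r f w0 c hNF hh l y U R U' R' hM.bas hM.sys
  obtain ⟨hAlt, hSum⟩ := hCNM.2 l N α β hM.prs
  obtain ⟨T, hT⟩ : ∃ T : (Fin N → ZMod 3) → ℕ → Set ℕ, ∀ M E, T M E =
      {q | q ∈ QMM h n π e w0 c y U R U' R' α β M 1 E ∧ q ∈ Pat v δ} := ⟨_, fun _ _ => rfl⟩
  have h1 := hUPS.1 (Fin N → ZMod 3)
    (fun E => {q | q % 3 = 1 ∧ InCT E π w0 c q ∧ q ∈ Pat v δ})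
    (fun E q => F (kY h n π e y U R U' R' E q) (kU h n b X Y P Q P' Q' E q))
    T
    (fun M E q => F (l - (altZ α β M).rank) (kU h n b X Y P Q P' Q' E q))
    (fun M => Esk s (F (l - (altZ α β M).rank)) * (2 / 3 ^ d / 3 ^ N / 3 ^ (m + 1))) 1 N₀ one_pos
    (fun M E q => hFn _ _) ?_ ?_
  · have e1 : (∑ M : Fin N → ZMod 3, Esk s (F (l - (altZ α β M).rank)) *
        (2 / 3 ^ d / 3 ^ N / 3 ^ (m + 1))) / 1 =
        Esk l (fun a => Esk (d - 1) (F a)) * (2 / 3 ^ d / 3 ^ (m + 1)) := by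
      rw [hd, ← hSum (fun a => Esk s (F a)), ← Finset.sum_mul]
      field_simp
    rw [e1] at h1
    exact h1
  · intro E q hE hq hqN hqS
    obtain ⟨hq1, hqC, hqP⟩ := hqS
    obtain ⟨hanti, -⟩ := hN₀ E q hE hq hqN (Or.inl hq1) hqC
    rw [one_mul]
    refine le_trans (b := if q ∈ T
        (fun r => MY h n π e y U R U' R' E q (α r) (β r)) E then
        F (l - (altZ α β (fun r => MY h n π e y U R U' R' E q (α r) (β r))).rank)
          (kU h n b X Y P Q P' Q' E q) else 0) ?_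
      (Finset.single_le_sum (f := fun M : Fin N → ZMod 3 =>
        if q ∈ T M E then
        F (l - (altZ α β M).rank) (kU h n b X Y P Q P' Q' E q) else 0) (fun M _ => ?_)
        (Finset.mem_univ _))
    · have hqT : q ∈ T (fun r => MY h n π e y U R U' R' E q (α r) (β r)) E := by
        rw [hT]
        exact ⟨⟨hq1, hqC, fun r => rfl⟩, hqP⟩
      rw [if_pos hqT, hAlt _ hanti]
      exact le_refl _
    · split_ifs
      · exact hFn _ _
      · exact le_refl _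
  · intro M
    refine hKUM (T M)
      (fun E q => kU h n b X Y P Q P' Q' E q) s 0 (2 / 3 ^ d / 3 ^ N / 3 ^ (m + 1))
      (by positivity) (fun E q _ _ _ _ => Nat.sub_le _ _) ?_ (F (l - (altZ α β M).rank)) (hF _)
      (hF0 _)
    intro t
    rw [hT, hT]
    exact hMDU h n m k π p e r f w0 c d v δ s τ b X Y P Q P' Q' hNF hh hδ hPl l N y U R U' R'
      α β hM M t

end Pool.Agent.PTK


end

section

/-!
# PTK_LKN: the class of `9 (s - y₀)(x₀ + y₀)(x₀² - x₀ y₀ + y₀²)²` at `3`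
-/

set_option autoImplicit false

namespace Pool.Agent.PTK

open Pool.Agent.Lib_helper18 Pool.Agent.Lib_helper18.Eis Pool.Agent.Lib_helper84.Cub
open Pool.Agent.PT Pool.Agent.PTE Pool.Agent.PT3

namespace LKN

theorem three0 : (3 : ZMod 3) = 0 := by decide

theorem ne_zero_of {b : ℤ} (hb : ¬ (3 : ℤ) ∣ b) : b ≠ 0 := by
  rintro rfl
  exact hb (dvd_zero _)

theorem unit {b : ℤ} (hb : ¬ (3 : ℤ) ∣ b) : lv b = 0 ∧ lw b = wt (b ^ 2) := by
  have h := PT3.LCL.spec (b := b) (k := 0) (c := b) (by ring) hb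
  simpa using h

theorem mul {a b : ℤ} (ha : a ≠ 0) (hb : b ≠ 0) :
    lv (a * b) = lv a + lv b ∧ lw (a * b) = lw a + lw b := PT3.LCL.mul_spec ha hb

theorem lw_add {x : ℤ} (j : ℤ) (hx : ¬ (3 : ℤ) ∣ x) :
    lv (x + 3 * j) = 0 ∧ lw (x + 3 * j) = lw x + 2 * (x : ZMod 3) * (j : ZMod 3) := by
  have h1 : ¬ (3 : ℤ) ∣ x + 3 * j := by omega
  obtain ⟨a, b⟩ := unit h1
  refine ⟨a, ?_⟩
  rw [b, (unit hx).2]
  obtain ⟨k, hk⟩ : ∃ k, x ^ 2 = 1 + 3 * k := ⟨x ^ 2 / 3, by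
    have := sq_mod_three hx
    omega⟩
  rw [wt_eq hk, wt_eq (k := k + 2 * x * j + 3 * j ^ 2) (by linear_combination hk)]
  push_cast
  rw [three0]
  ring

theorem lw_neg {x : ℤ} (hx : ¬ (3 : ℤ) ∣ x) : lv (-x) = 0 ∧ lw (-x) = lw x := by
  have h1 : ¬ (3 : ℤ) ∣ -x := by omega
  obtain ⟨a, b⟩ := unit h1
  refine ⟨a, ?_⟩
  rw [b, (unit hx).2, neg_sq]

theorem cont {b : ℤ} (hb : b ≠ 0) : ∃ N : ℕ, ∀ c : ℤ, (3 : ℤ) ^ N ∣ c - b →
    c ≠ 0 ∧ lv c = lv b ∧ lw c = lw b := by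
  obtain ⟨k, u, hu, hu3⟩ := PT3.LCL.split hb
  refine ⟨k + 2, fun c hc => ?_⟩
  obtain ⟨d, hd⟩ := hc
  have h1 : c = 3 ^ k * (u + 3 * (3 * d)) := by
    have h0 : c = b + 3 ^ (k + 2) * d := by linear_combination hd
    rw [h0, hu]
    ring
  have h2 : ¬ (3 : ℤ) ∣ u + 3 * (3 * d) := by omega
  obtain ⟨a1, a2⟩ := PT3.LCL.spec h1 h2
  obtain ⟨b1, b2⟩ := PT3.LCL.spec hu hu3
  refine ⟨?_, by rw [a1, b1], ?_⟩
  · rw [h1]
    exact mul_ne_zero (pow_ne_zero _ (by norm_num)) (ne_zero_of h2)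
  · rw [a2, b2, ← (unit h2).2, (lw_add _ hu3).2, (unit hu3).2]
    push_cast
    rw [three0]
    ring

theorem l_three : lv 3 = 1 ∧ lw 3 = 0 := by
  have h := PT3.LCL.spec (b := 3) (k := 1) (c := 1) (by ring) (by norm_num)
  refine ⟨by simpa using h.1, ?_⟩
  rw [h.2, one_pow]
  exact wt_one

theorem l_nine : lv 9 = 2 ∧ lw 9 = 0 := by
  have h := PT3.LCL.spec (b := 9) (k := 2) (c := 1) (by ring) (by norm_num)
  refine ⟨by simpa using h.1, ?_⟩
  rw [h.2, one_pow]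
  exact wt_one

/-- the class of the number -/
theorem num {a b c : ℤ} (ha : a ≠ 0) (hb : b ≠ 0) (hc : c ≠ 0) :
    lv (9 * a * b * c ^ 2) = 2 + lv a + lv b + 2 * lv c ∧
      lw (9 * a * b * c ^ 2) = lw a + lw b + 2 * lw c := by
  obtain ⟨e1, e2⟩ := mul (a := 9) (by norm_num) ha
  have h9a : 9 * a ≠ 0 := mul_ne_zero (by norm_num) ha
  obtain ⟨e3, e4⟩ := mul h9a hb
  obtain ⟨e5, e6⟩ := mul hc hc
  obtain ⟨e7, e8⟩ := mul (mul_ne_zero h9a hb) (mul_ne_zero hc hc)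
  rw [pow_two, e7, e8, e3, e4, e1, e2, e5, e6, l_nine.1, l_nine.2]
  constructor <;> ring

theorem wt16 : wt (4 ^ 2) = 2 := by
  unfold wt
  norm_num
  decide

section
variable (hSLE : SLE)
include hSLE

theorem s1 {g h : ℤ} (hg : ¬ (3 : ℤ) ∣ g) (hh : (3 : ℤ) ∣ h) :
    sl ((g : Eis) + h * w) 4 = 0 ∧ sl ((g : Eis) + h * w) 3 = ((g * (h / 3) : ℤ) : ZMod 3) := by
  have h4 := (hSLE g h 4 0 (by norm_num)).1 hg hh
  have h3 := (hSLE g h 1 1 (by norm_num)).1 hg hh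
  constructor
  · simpa using h4
  · simpa using h3

theorem s2 {g h : ℤ} (hg : (3 : ℤ) ∣ g) (hh : ¬ (3 : ℤ) ∣ h) :
    sl ((g : Eis) + h * w) 4 = 1 ∧ sl ((g : Eis) + h * w) 3 = - ((h * (g / 3) : ℤ) : ZMod 3) := by
  have h4 := (hSLE g h 4 0 (by norm_num)).2.1 hg hh
  have h3 := (hSLE g h 1 1 (by norm_num)).2.1 hg hh
  constructor
  · rw [wt16] at h4
    have e : ((3 ^ 0 * 4 : ℤ) : Eis) = 4 := by norm_num
    rw [e] at h4
    rw [h4]
    simp
    decide
  · have e : ((3 ^ 1 * 1 : ℤ) : Eis) = 3 := by norm_num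
    rw [e, one_pow, wt_one] at h3
    rw [h3]
    simp

theorem s3 {g h : ℤ} (hh : ¬ (3 : ℤ) ∣ h) (hg : (3 : ℤ) ∣ g - h) :
    sl ((g : Eis) + h * w) 4 = 2 ∧
      sl ((g : Eis) + h * w) 3 = - ((h * ((g - h) / 3) : ℤ) : ZMod 3) := by
  have h4 := (hSLE g h 4 0 (by norm_num)).2.2 hh hg
  have h3 := (hSLE g h 1 1 (by norm_num)).2.2 hh hg
  constructor
  · rw [wt16] at h4
    have e : ((3 ^ 0 * 4 : ℤ) : Eis) = 4 := by norm_num
    rw [e] at h4
    rw [h4]
    simp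
  · have e : ((3 ^ 1 * 1 : ℤ) : Eis) = 3 := by norm_num
    rw [e, one_pow, wt_one] at h3
    rw [h3]
    simp

end

theorem zeta (x y : ℤ) : w ^ 2 * (((x : Eis) + w * y) * ((x : Eis) + w ^ 2 * y) ^ 2) =
    ((-((x ^ 2 - x * y + y ^ 2) * x) : ℤ) : Eis) + (((x ^ 2 - x * y + y ^ 2) * (y - x) : ℤ) : Eis) * w := by
  rw [w_sq, pow_two (((x : Eis) + (-1 - w) * y))]
  ext
  · simp only [mul_re, mul_im, add_re, add_im, sub_re, sub_im, neg_re, neg_im, one_re, one_im,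
      w_re, w_im, intCast_re, intCast_im]
    ring
  · simp only [mul_re, mul_im, add_re, add_im, sub_re, sub_im, neg_re, neg_im, one_re, one_im,
      w_re, w_im, intCast_re, intCast_im]
    ring

theorem lam_eq : lam = 1 - w := by decide

theorem zetaC (x a : ℤ) : w ^ 2 * (((x : Eis) + w * ((9 * a - x : ℤ) : Eis)) *
      ((x : Eis) + w ^ 2 * ((9 * a - x : ℤ) : Eis)) ^ 2) =
    lam ^ 3 * (((x ^ 3 - 15 * a * x ^ 2 + 81 * a ^ 2 * x - 162 * a ^ 3 : ℤ) : Eis) +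
      ((3 * (-(a * x ^ 2) + 9 * a ^ 2 * x - 27 * a ^ 3) : ℤ) : Eis) * w) := by
  have e3 : ∀ z : Eis, z ^ 3 = z * z * z := fun z => by ring
  rw [w_sq, lam_eq, pow_two ((x : Eis) + (-1 - w) * ((9 * a - x : ℤ) : Eis)), e3 (1 - w)]
  ext
  · simp only [mul_re, mul_im, add_re, add_im, sub_re, sub_im, neg_re, neg_im, one_re, one_im,
      w_re, w_im, intCast_re, intCast_im]
    ring
  · simp only [mul_re, mul_im, add_re, add_im, sub_re, sub_im, neg_re, neg_im, one_re, one_im,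
      w_re, w_im, intCast_re, intCast_im]
    ring

theorem sq_one {x : ℤ} (hx : ¬ (3 : ℤ) ∣ x) : (x : ZMod 3) ^ 2 = 1 := by
  have h : (x : ZMod 3) ≠ 0 := by
    rw [Ne, ZMod.intCast_zmod_eq_zero_iff_dvd]
    exact hx
  revert h
  generalize (x : ZMod 3) = X
  revert X
  decide

/-- cube roots of units modulo `27` -/
theorem root {x s : ℤ} (hx : ¬ (3 : ℤ) ∣ x) (h : (27 : ℤ) ∣ s ^ 3 - x ^ 3) :
    ∃ e : ℤ, s = x + 9 * e := by
  have h1 : (3 : ℤ) ∣ s - x := by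
    have h2 : ((s ^ 3 - x ^ 3 : ℤ) : ZMod 3) = 0 :=
      (ZMod.intCast_zmod_eq_zero_iff_dvd _ 3).2 ((by norm_num : (3 : ℤ) ∣ 27).trans h)
    have h3 : ((s - x : ℤ) : ZMod 3) = 0 := by
      push_cast at h2 ⊢
      revert h2
      generalize (s : ZMod 3) = S
      generalize (x : ZMod 3) = X
      revert S X
      decide
    exact (ZMod.intCast_zmod_eq_zero_iff_dvd _ 3).1 h3
  obtain ⟨e, he⟩ := h1
  obtain ⟨f, hf⟩ := h
  have h4 : s = x + 3 * e := by linear_combination he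
  have h5 : (3 : ℤ) ∣ x ^ 2 * e := by
    refine ⟨f - x * e ^ 2 - e ^ 3, ?_⟩
    rw [h4] at hf
    have h6 : 9 * (x ^ 2 * e) = 9 * (3 * (f - x * e ^ 2 - e ^ 3)) := by linear_combination hf
    exact mul_left_cancel₀ (by norm_num) h6
  have h6 : (3 : ℤ) ∣ e := by
    rcases Int.prime_three.dvd_or_dvd h5 with h7 | h7
    · exact absurd (Int.prime_three.dvd_of_dvd_pow h7) hx
    · exact h7
  obtain ⟨e', he'⟩ := h6
  exact ⟨e', by rw [h4, he']; ring⟩

end LKN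

open _root_.Pool.Agent.PTK.LKN

theorem LKN_thm (hSSL : SSL) (hSREC : SREC) : Stmt_LKN := by
  have hSLE : SLE := SLE_thm hSSL hSREC
  intro x y hco hx0 hy0 hxy0 hB1 hB2
  obtain ⟨N, hN⟩ := cont (pow_ne_zero 3 hx0)
  refine ⟨N + 4, fun s hs hsy => ?_⟩
  have hsy' : s - y ≠ 0 := sub_ne_zero.2 hsy
  have hs81 : (81 : ℤ) ∣ s ^ 3 - (x ^ 3 + y ^ 3) := by
    have h1 : (81 : ℤ) = 3 ^ 4 := by norm_num
    rw [h1]
    exact (pow_dvd_pow 3 (by omega)).trans hs
  have hsN : (3 : ℤ) ^ N ∣ s ^ 3 - (x ^ 3 + y ^ 3) := (pow_dvd_pow 3 (by omega)).trans hs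
  have hcube : ∀ a : ZMod 3, 3 * a = 0 := fun a => by rw [three0, zero_mul]
  by_cases hy3 : (3 : ℤ) ∣ y
  · -- case A
    obtain ⟨t, rfl⟩ := hy3
    have hx3 : ¬ (3 : ℤ) ∣ x := by
      intro h
      have h1 := hco.isUnit_of_dvd' h (dvd_mul_right 3 t)
      revert h1
      decide
    obtain ⟨e, rfl⟩ : ∃ e : ℤ, s = x + 9 * e := by
      apply root hx3
      have h1 : s ^ 3 - x ^ 3 = (s ^ 3 - (x ^ 3 + (3 * t) ^ 3)) + 27 * t ^ 3 := by ring
      rw [h1]
      exact dvd_add ((by norm_num : (27 : ℤ) ∣ 81).trans hs81) (dvd_mul_right _ _)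
    set n : ℤ := x ^ 2 - x * (3 * t) + (3 * t) ^ 2 with hn
    have hxx : ¬ (3 : ℤ) ∣ x * x := PT3.LCL.not_dvd_mul hx3 hx3
    have hn' : n = x * x + 3 * (-(x * t) + 3 * t ^ 2) := by
      rw [hn]
      ring
    have hn3 : ¬ (3 : ℤ) ∣ n := by
      rw [hn']
      omega
    obtain ⟨a1, a2⟩ := num hsy' hxy0 (ne_zero_of hn3)
    obtain ⟨b1, b2⟩ := lw_add (3 * e - t) hx3
    obtain ⟨c1, c2⟩ := lw_add t hx3
    obtain ⟨d1, d2⟩ := lw_add (-(x * t) + 3 * t ^ 2) hxx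
    have e1 : x + 9 * e - 3 * t = x + 3 * (3 * e - t) := by ring
    obtain ⟨f1, f2⟩ := mul (ne_zero_of hx3) (ne_zero_of hx3)
    have hh3 : ¬ (3 : ℤ) ∣ n * (3 * t - x) := PT3.LCL.not_dvd_mul hn3 (by omega)
    have hgh : -(n * x) - n * (3 * t - x) = 3 * (-(n * t)) := by ring
    obtain ⟨g1, g2⟩ := s3 hSLE (g := -(n * x)) hh3 ⟨_, hgh⟩
    rw [hgh, Int.mul_ediv_cancel_left _ (by norm_num)] at g2
    rw [zeta x (3 * t), ← hn, g1, g2, a1, a2, e1, b1, b2, c1, c2, hn', d1, d2, f2]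
    have hX := sq_one hx3
    constructor
    · ring
    · push_cast
      rw [three0]
      generalize (x : ZMod 3) = X at hX ⊢
      generalize (t : ZMod 3) = T
      generalize (e : ZMod 3) = E
      generalize lw x = L
      revert hX
      revert X T E L
      decide
  · by_cases hx3 : (3 : ℤ) ∣ x
    · -- case B
      obtain ⟨t, rfl⟩ := hx3
      obtain ⟨e, rfl⟩ : ∃ e : ℤ, s = y + 9 * e := by
        apply root hy3
        have h1 : s ^ 3 - y ^ 3 = (s ^ 3 - ((3 * t) ^ 3 + y ^ 3)) + 27 * t ^ 3 := by ring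
        rw [h1]
        exact dvd_add ((by norm_num : (27 : ℤ) ∣ 81).trans hs81) (dvd_mul_right _ _)
      set n : ℤ := (3 * t) ^ 2 - (3 * t) * y + y ^ 2 with hn
      have hyy : ¬ (3 : ℤ) ∣ y * y := PT3.LCL.not_dvd_mul hy3 hy3
      have hn' : n = y * y + 3 * (-(t * y) + 3 * t ^ 2) := by
        rw [hn]
        ring
      have hn3 : ¬ (3 : ℤ) ∣ n := by
        rw [hn']
        omega
      obtain ⟨a1, a2⟩ := num hsy' hxy0 (ne_zero_of hn3)
      obtain ⟨c1, c2⟩ := lw_add t hy3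
      obtain ⟨d1, d2⟩ := lw_add (-(t * y) + 3 * t ^ 2) hyy
      obtain ⟨f1, f2⟩ := mul (ne_zero_of hy3) (ne_zero_of hy3)
      have e1 : 3 * t + y = y + 3 * t := by ring
      -- the difference
      obtain ⟨k0, k1, k2⟩ := hN ((y + 9 * e - y) * (3 * (y * y + 3 * (3 * e * y + 9 * e ^ 2)))) (by
        have h1 : (y + 9 * e - y) * (3 * (y * y + 3 * (3 * e * y + 9 * e ^ 2))) - (3 * t) ^ 3 =
            (y + 9 * e) ^ 3 - ((3 * t) ^ 3 + y ^ 3) := by ring
        rw [h1]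
        exact hsN)
      have hu : ¬ (3 : ℤ) ∣ y * y + 3 * (3 * e * y + 9 * e ^ 2) := by omega
      obtain ⟨m1, m2⟩ := mul hsy' (mul_ne_zero (by norm_num : (3 : ℤ) ≠ 0) (ne_zero_of hu))
      obtain ⟨m3, m4⟩ := mul (by norm_num : (3 : ℤ) ≠ 0) (ne_zero_of hu)
      obtain ⟨m5, m6⟩ := lw_add (3 * e * y + 9 * e ^ 2) hyy
      obtain ⟨m7, m8⟩ := mul hx0 hx0
      obtain ⟨m9, m10⟩ := mul hx0 (mul_ne_zero hx0 hx0)
      have e3 : (3 * t) ^ 3 = 3 * t * (3 * t * (3 * t)) := by ring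
      rw [m1, m3, l_three.1, m5, e3, m9, m7] at k1
      rw [m2, m4, l_three.2, m6, e3, m10, m8, f2] at k2
      have hgh : -(n * (3 * t)) = 3 * (-(n * t)) := by ring
      have hh3 : ¬ (3 : ℤ) ∣ n * (y - 3 * t) := PT3.LCL.not_dvd_mul hn3 (by omega)
      obtain ⟨g1, g2⟩ := s2 hSLE (g := -(n * (3 * t))) ⟨_, hgh⟩ hh3
      rw [hgh, Int.mul_ediv_cancel_left _ (by norm_num)] at g2
      rw [hgh] at g1
      rw [zeta (3 * t) y, ← hn, hgh, g1, g2, a1, a2, e1, c1, c2, hn', d1, d2, f2]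
      have hX := sq_one hy3
      generalize lv (y + 9 * e - y) = U at k1 ⊢
      generalize lw (y + 9 * e - y) = W at k2 ⊢
      generalize lv (3 * t) = U' at k1
      generalize lw (3 * t) = W' at k2
      constructor
      · revert k1
        revert U U'
        decide
      · push_cast at k2 ⊢
        rw [three0] at k2 ⊢
        generalize (y : ZMod 3) = Y at hX k2 ⊢
        generalize (t : ZMod 3) = T
        generalize (e : ZMod 3) = E at k2
        generalize lw y = L at k2 ⊢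
        have k3 : W = L := by
          revert k2
          revert W L E Y W'
          decide
        clear k2
        subst k3
        revert hX
        revert Y T W
        decide
    · -- case C
      -- `3` divides `x + y`
      have hxy3 : (3 : ℤ) ∣ x + y := by
        by_contra hc
        have h1 : (3 : ℤ) ∣ y - x := by
          have h2 : x % 3 = 1 ∨ x % 3 = 2 := by omega
          have h3 : y % 3 = 1 ∨ y % 3 = 2 := by omega
          rcases h2 with h2 | h2 <;> rcases h3 with h3 | h3 <;> omega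
        obtain ⟨j, hj⟩ := h1
        have hxxx : ¬ (3 : ℤ) ∣ 2 * (x * (x * x)) := by
          have h2 := PT3.LCL.not_dvd_mul hx3 (PT3.LCL.not_dvd_mul hx3 hx3)
          exact PT3.LCL.not_dvd_mul (by norm_num) h2
        have h2 : x ^ 3 + y ^ 3 = 2 * (x * (x * x)) + 3 * (3 * (x ^ 2 * j + 3 * x * j ^ 2 + 3 * j ^ 3)) := by
          have h3 : y = x + 3 * j := by linear_combination hj
          rw [h3]
          ring
        have hx1 := ne_zero_of hx3
        obtain ⟨p1, p2⟩ := lw_add (3 * (x ^ 2 * j + 3 * x * j ^ 2 + 3 * j ^ 3)) hxxx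
        obtain ⟨q1, q2⟩ := mul (by norm_num : (2 : ℤ) ≠ 0) (mul_ne_zero hx1 (mul_ne_zero hx1 hx1))
        obtain ⟨q3, q4⟩ := mul hx1 (mul_ne_zero hx1 hx1)
        obtain ⟨q5, q6⟩ := mul hx1 hx1
        have q7 : lw 2 = 1 := by
          rw [(unit (by norm_num : ¬ (3 : ℤ) ∣ 2)).2]
          unfold wt
          norm_num
        rw [h2, p2, q2, q4, q6, q7] at hB2
        push_cast at hB2
        rw [three0] at hB2
        generalize lw x = L at hB2
        generalize (x : ZMod 3) = X at hB2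
        generalize (j : ZMod 3) = J at hB2
        revert hB2
        revert L X J
        decide
      obtain ⟨a₂, ha₂⟩ := hxy3
      obtain rfl : y = 3 * a₂ - x := by linear_combination ha₂
      have hm3 : ¬ (3 : ℤ) ∣ x * x := PT3.LCL.not_dvd_mul hx3 hx3
      -- `9` divides `x + y`
      have hnn : x ^ 2 - x * (3 * a₂ - x) + (3 * a₂ - x) ^ 2 =
          3 * (x * x + 3 * (a₂ ^ 2 - a₂ * x)) := by ring
      have hu3 : ¬ (3 : ℤ) ∣ x * x + 3 * (a₂ ^ 2 - a₂ * x) := by omega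
      have hx1 := ne_zero_of hx3
      have ha0 : a₂ ≠ 0 := by
        rintro rfl
        apply hxy0
        ring
      have hBn : x ^ 3 + (3 * a₂ - x) ^ 3 = (3 * a₂) * (3 * (x * x + 3 * (a₂ ^ 2 - a₂ * x))) := by
        ring
      have h3a : 3 * a₂ ≠ 0 := mul_ne_zero (by norm_num) ha0
      obtain ⟨p1, p2⟩ := mul h3a (mul_ne_zero (by norm_num : (3 : ℤ) ≠ 0) (ne_zero_of hu3))
      obtain ⟨p3, p4⟩ := mul (by norm_num : (3 : ℤ) ≠ 0) ha0
      obtain ⟨p5, p6⟩ := mul (by norm_num : (3 : ℤ) ≠ 0) (ne_zero_of hu3)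
      obtain ⟨p7, p8⟩ := lw_add (a₂ ^ 2 - a₂ * x) hm3
      have hlv : lv a₂ = 1 := by
        rw [hBn, p1, p3, p5, p7, l_three.1] at hB1
        generalize lv a₂ = U at hB1
        revert hB1
        revert U
        decide
      have h3a₂ : (3 : ℤ) ∣ a₂ := by
        by_contra hc
        rw [(unit hc).1] at hlv
        revert hlv
        decide
      obtain ⟨a, rfl⟩ := h3a₂
      -- the cube root
      obtain ⟨d, hd⟩ := hs81
      have hs3 : (3 : ℤ) ∣ s := by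
        apply Int.prime_three.dvd_of_dvd_pow (n := 3)
        refine ⟨27 * d + 9 * a * (x * x + 3 * ((3 * a) ^ 2 - 3 * a * x)), ?_⟩
        linear_combination hd
      obtain ⟨s', rfl⟩ := hs3
      have hs' : (s' : ZMod 3) = (a : ZMod 3) * (x : ZMod 3) ^ 2 := by
        have h1 : s' ^ 3 = a * (x * x + 3 * ((3 * a) ^ 2 - 3 * a * x)) + 3 * d := by
          have h2 : 27 * s' ^ 3 = 27 * (a * (x * x + 3 * ((3 * a) ^ 2 - 3 * a * x)) + 3 * d) := by
            linear_combination hd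
          exact mul_left_cancel₀ (by norm_num) h2
        have h2 := congrArg (Int.cast : ℤ → ZMod 3) h1
        push_cast at h2
        rw [three0] at h2
        generalize (s' : ZMod 3) = S at h2 ⊢
        generalize (x : ZMod 3) = X at h2 ⊢
        generalize (a : ZMod 3) = A at h2 ⊢
        generalize (d : ZMod 3) = D at h2
        revert h2
        revert S X A D
        decide
      have hxn := sq_one hx3
      -- the numbers
      obtain ⟨a1, a2⟩ := num hsy' hxy0 (c := x ^ 2 - x * (3 * (3 * a) - x) + (3 * (3 * a) - x) ^ 2)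
        (by rw [hnn]; exact mul_ne_zero (by norm_num) (ne_zero_of hu3))
      have e1 : 3 * s' - (3 * (3 * a) - x) = x + 3 * (s' - 3 * a) := by ring
      have e2 : x + (3 * (3 * a) - x) = 3 * (3 * a) := by ring
      obtain ⟨b1, b2⟩ := lw_add (s' - 3 * a) hx3
      obtain ⟨f1, f2⟩ := mul hx1 hx1
      have hlw : lw (3 * (3 * a)) = lw x := by
        rw [hBn, p2, p6, p8, l_three.2, f2] at hB2
        push_cast at hB2
        rw [three0] at hB2
        generalize lw (3 * (3 * a)) = U at hB2 ⊢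
        generalize lw x = L at hB2 ⊢
        generalize (x : ZMod 3) = X at hB2
        generalize (a : ZMod 3) = A at hB2
        revert hB2
        revert U L X A
        decide
      have hlv2 : lv (3 * (3 * a)) = 2 := by
        rw [p3, hlv, l_three.1]
        decide
      have hg3 : ¬ (3 : ℤ) ∣ x ^ 3 - 15 * a * x ^ 2 + 81 * a ^ 2 * x - 162 * a ^ 3 := by
        have h1 : x ^ 3 - 15 * a * x ^ 2 + 81 * a ^ 2 * x - 162 * a ^ 3 =
            x * (x * x) + 3 * (-5 * a * x ^ 2 + 27 * a ^ 2 * x - 54 * a ^ 3) := by ring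
        rw [h1]
        have h2 := PT3.LCL.not_dvd_mul hx3 hm3
        omega
      obtain ⟨g1, g2⟩ := s1 hSLE hg3 (dvd_mul_right (3 : ℤ) (-(a * x ^ 2) + 9 * a ^ 2 * x - 27 * a ^ 3))
      rw [Int.mul_ediv_cancel_left _ (by norm_num)] at g2
      have hz0 : ((x ^ 3 - 15 * a * x ^ 2 + 81 * a ^ 2 * x - 162 * a ^ 3 : ℤ) : Eis) +
          ((3 * (-(a * x ^ 2) + 9 * a ^ 2 * x - 27 * a ^ 3) : ℤ) : Eis) * w ≠ 0 := by
        intro h
        have h1 := congrArg Eis.re h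
        simp only [add_re, mul_re, intCast_re, intCast_im, w_re, w_im, zero_re] at h1
        apply ne_zero_of hg3
        linear_combination h1
      have hl0 : lam ≠ 0 := by decide
      have hsl : ∀ (z c : Eis), z ≠ 0 → c ≠ 0 → sl (lam ^ 3 * z) c = sl z c := by
        intro z c hz hc
        have h3 : lam ^ 3 = lam * (lam * lam) := by ring
        rw [h3, hSSL.1 _ _ _ (mul_ne_zero hl0 (mul_ne_zero hl0 hl0)) hz hc,
          hSSL.1 _ _ _ hl0 (mul_ne_zero hl0 hl0) hc, hSSL.1 _ _ _ hl0 hl0 hc]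
        generalize sl lam c = A
        generalize sl z c = B
        revert A B
        decide
      have e3 : (3 * (3 * a) - x : ℤ) = 9 * a - x := by ring
      rw [a1, a2, e1, e2, b1, b2, hlv2, hlw, hnn, p5, p6, p7, p8, l_three.1, l_three.2, f2, e3,
        zetaC, hsl _ _ hz0 (by decide), hsl _ _ hz0 (by decide), g1, g2]
      constructor
      · decide
      · push_cast
        rw [three0, hs']
        generalize (x : ZMod 3) = X at hxn ⊢
        generalize (a : ZMod 3) = A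
        generalize lw x = L
        revert hxn
        revert X A L
        decide

end Pool.Agent.PTK


end

section

/-!
# PTK_MAW: the full law of the ranks of prime twists, the theorem
-/

set_option autoImplicit false

open NumberField IsDedekindDomain Finset
open scoped nonZeroDivisors Pointwise

namespace Pool.Agent.PTK

open Pool.Agent.Lib_helper18 Pool.Agent.Lib_helper18.Eis Pool.Agent.Lib_helper84.Cub
open Pool.Agent.PT Pool.Agent.PTE Pool.Agent.PT3 Pool.Agent.PTL Pool.Agent.PTN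

namespace MAW

/-- the tails -/
theorem tail_le (hGMB : Stmt_GMB) (k : ℕ) :
    MoB k ^ 2 / 3 ^ (k * (2 * k + 1)) ≤ 64 / 25 / (3 : ℝ) ^ k ^ 2 := by
  have h1 := hGMB.2.2.2.2.2.2.2 k
  rw [div_le_div_iff₀ (by positivity) (by positivity)]
  have h2 : (3 : ℝ) ^ (k * (2 * k + 1)) = 3 ^ (k * (k + 1)) * 3 ^ k ^ 2 := by
    rw [← pow_add]
    congr 1
    ring
  rw [h2, ← mul_assoc]
  exact mul_le_mul_of_nonneg_right h1 (by positivity)

theorem le_one' : ∀ A : ℤ, A ≠ 0 → CubeRank.GenBy A (CubeRank.rr A) → CubeRank.rr A < 2 →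
    CubeRank.rr A ≤ 1 := by
  intro A _ _ h2
  omega

theorem le_two : ∀ A : ℤ, A ≠ 0 → CubeRank.GenBy A (CubeRank.rr A) → CubeRank.rr A < 3 →
    CubeRank.rr A ≤ 2 := by
  intro A _ _ h2
  omega

end MAW

open MAINQ in
/-- PTK_MAW -/
theorem MAW_thm (hFB : Stmt_FB) (hEKN : Stmt_EKN) (hAWF : Stmt_AWF) (hMTL : Stmt_MTL)
    (hGMB : Stmt_GMB) (hALV : Stmt_ALV) (hNFE : Stmt_NFE) (hNDIM : Stmt_NDIM)
    (hNSUM : Stmt_NSUM) (hNZER : Stmt_NZER) (hNSU1 : Stmt_NSU1) (hNZE1 : Stmt_NZE1)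
    (hNZE0 : Stmt_NZE0) (hALLQ : Stmt_ALLQ) (hTRU : Stmt_TRU) (hTRC : Stmt_TRC)
    (hCLN : Stmt_CLN) (hCLU : Stmt_CLU) (hSUMA : Stmt_SUMA) : Stmt_MAW := by
  classical
  intro N hN0 hcf m k δ μ hm hk hδ hμ
  obtain ⟨h, n, m', k', π, p, e, r, f, hNF, hh, -, hNe, hm', hk'⟩ := hNFE N hN0 hcf
  have em : m' = m := hm'.trans hm.symm
  have ek : k' = k := hk'.trans hk.symm
  subst em ek
  clear hm hk hm' hk'
  subst hNe
  have hδ' : δ = if h = 1 then 1 else 0 := by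
    rw [hδ]
    by_cases h1 : h = 1
    · rw [if_pos ((delta_eq hNF hh).2 h1), if_pos h1]
    · rw [if_neg fun h2 => h1 ((delta_eq hNF hh).1 h2), if_neg h1]
  clear hδ
  subst hδ'
  have hμ' : μ = m' + (if h = 1 then 0 else 1) := by
    split_ifs at hμ ⊢ <;> omega
  have hf0 : 9 * (3 ^ h * n) ≠ 0 := by
    have := hN0
    omega
  have : NeZero (9 * (3 ^ h * n)) := ⟨hf0⟩
  obtain ⟨hT1, hT2⟩ := hTRU h n m' k' π p e r f hNF
  have hcopq : ∀ q e' : ℕ, q.Prime → 9 * (3 ^ h * n) < q →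
      IsCoprime ((q : ℤ) ^ e') ((9 * (3 ^ h * n) : ℕ) : ℤ) := by
    intro q e' hq hlt
    apply IsCoprime.pow_left
    rw [Nat.isCoprime_iff_coprime]
    exact (Nat.Prime.coprime_iff_not_dvd hq).2 fun hd =>
      absurd (Nat.le_of_dvd (Nat.pos_of_ne_zero hf0) hd) (by omega)
  have hCK : ∀ u : (ZMod (9 * (3 ^ h * n)))ˣ, ∀ e' q : ℕ, (e' = 1 ∨ e' = 2) → q.Prime →
      9 * (3 ^ h * n) < q → Cu (3 ^ h * n) u ((q : ℤ) ^ e') →
      Kl π (clu (9 * (3 ^ h * n)) π u).1 (clu (9 * (3 ^ h * n)) π u).2 ((q : ℤ) ^ e') := by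
    rintro u e' q - hq hlt ⟨x, hx⟩
    exact hT2 u _ _ _ x (kl_clu _ π u) (hcopq q e' hq hlt) hx
  have hKC : ∀ u : (ZMod (9 * (3 ^ h * n)))ˣ, ∀ e' q : ℕ, (e' = 1 ∨ e' = 2) → q.Prime →
      9 * (3 ^ h * n) < q →
      Kl π (clu (9 * (3 ^ h * n)) π u).1 (clu (9 * (3 ^ h * n)) π u).2 ((q : ℤ) ^ e') →
      Cu (3 ^ h * n) u ((q : ℤ) ^ e') := by
    rintro u e' q - hq hlt hy
    exact hTRC h n m' k' π p e r f hNF u _ _ _ (kl_clu _ π u) hy (hcopq q e' hq hlt)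
  have hφ : (0 : ℝ) ≤ ((9 * (3 ^ h * n)).totient : ℝ) := Nat.cast_nonneg _
  have hFB2 : ∀ u : (ZMod (9 * (3 ^ h * n)))ˣ,
      (∀ F : ℕ → ℝ, Monotone F → 0 ≤ F 0 →
        AboveA ((3 ^ h * n : ℕ) : ℤ) 2 (Cu (3 ^ h * n) u) (fun A => F (CubeRank.rr A))
          (EsD (vN h n π p e r (clu (9 * (3 ^ h * n)) π u).1 (clu (9 * (3 ^ h * n)) π u).2)
            (sN h n π p e r (clu (9 * (3 ^ h * n)) π u).1 (clu (9 * (3 ^ h * n)) π u).2) F /
            3 ^ (m' + 1))) ∧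
      ∀ (t : ℕ) (R : ℤ → Prop),
        (∀ A : ℤ, A ≠ 0 → CubeRank.GenBy A (CubeRank.rr A) → CubeRank.rr A < t → R A) →
        BelowA ((3 ^ h * n : ℕ) : ℤ) 2 (Cu (3 ^ h * n) u) (fun A => tf (R A))
          (EsD (vN h n π p e r (clu (9 * (3 ^ h * n)) π u).1 (clu (9 * (3 ^ h * n)) π u).2)
            (sN h n π p e r (clu (9 * (3 ^ h * n)) π u).1 (clu (9 * (3 ^ h * n)) π u).2)
            (fun x => if x < t then 1 else 0) / 3 ^ (m' + 1)) := by
    intro u
    obtain ⟨g1, g2⟩ := hFB h n m' k' π p e r f (clu (9 * (3 ^ h * n)) π u).1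
      (clu (9 * (3 ^ h * n)) π u).2 hNF hh 2 (Or.inr rfl)
    rw [if_neg (by norm_num : ¬ (2 : ℕ) = 1), add_zero] at g1 g2
    refine ⟨fun F hF h0 => ?_, fun t R hR => ?_⟩
    · exact above_of (fun A => h0.trans (hF (Nat.zero_le _))) (hCK u) (g1 F hF h0)
    · exact below_of (fun A => tf_nn _) (hKC u) (g2 t R hR)
  have hFB1 : ∀ u : (ZMod (9 * (3 ^ h * n)))ˣ,
      (∀ F : ℕ → ℝ, Monotone F → 0 ≤ F 0 →
        AboveA ((3 ^ h * n : ℕ) : ℤ) 1 (Cu (3 ^ h * n) u) (fun A => F (CubeRank.rr A))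
          (EsD (vN h n π p e r (clu (9 * (3 ^ h * n)) π u).1 (clu (9 * (3 ^ h * n)) π u).2)
            (sN h n π p e r (clu (9 * (3 ^ h * n)) π u).1 (clu (9 * (3 ^ h * n)) π u).2 + 1) F /
            3 ^ (m' + 1))) ∧
      ∀ (t : ℕ) (R : ℤ → Prop),
        (∀ A : ℤ, A ≠ 0 → CubeRank.GenBy A (CubeRank.rr A) → CubeRank.rr A < t → R A) →
        BelowA ((3 ^ h * n : ℕ) : ℤ) 1 (Cu (3 ^ h * n) u) (fun A => tf (R A))
          (EsD (vN h n π p e r (clu (9 * (3 ^ h * n)) π u).1 (clu (9 * (3 ^ h * n)) π u).2)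
            (sN h n π p e r (clu (9 * (3 ^ h * n)) π u).1 (clu (9 * (3 ^ h * n)) π u).2 + 1)
            (fun x => if x < t then 1 else 0) / 3 ^ (m' + 1)) := by
    intro u
    obtain ⟨g1, g2⟩ := hFB h n m' k' π p e r f (clu (9 * (3 ^ h * n)) π u).1
      (clu (9 * (3 ^ h * n)) π u).2 hNF hh 1 (Or.inl rfl)
    rw [if_pos rfl] at g1 g2
    refine ⟨fun F hF h0 => ?_, fun t R hR => ?_⟩
    · exact above_of (fun A => h0.trans (hF (Nat.zero_le _))) (hCK u) (g1 F hF h0)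
    · exact below_of (fun A => tf_nn _) (hKC u) (g2 t R hR)
  refine ⟨⟨fun u => vN h n π p e r (clu (9 * (3 ^ h * n)) π u).1 (clu (9 * (3 ^ h * n)) π u).2,
    fun u => sN h n π p e r (clu (9 * (3 ^ h * n)) π u).1 (clu (9 * (3 ^ h * n)) π u).2,
    ?_, ?_, ?_, ?_, ?_, ?_, ?_, ?_⟩, ?_, ?_, ?_, ?_, ?_⟩
  · -- the relation of the dimensions
    intro u
    have h1 := dims (π := π) (p := p) (e := e) (r := r) (n := n) hNDIM hh
      (clu (9 * (3 ^ h * n)) π u).1 (clu (9 * (3 ^ h * n)) π u).2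
    by_cases h2 : Nu1 (3 ^ h * n) u
    · rw [if_pos h2]
      rw [if_pos ((nu1_iff hNF u).1 h2)] at h1
      exact h1
    · rw [if_neg h2]
      rw [if_neg fun h3 => h2 ((nu1_iff hNF u).2 h3)] at h1
      exact h1
  · -- the average of `3 ^ v`
    rw [finsum_eq_sum_of_fintype,
      sum_clu π hT1 (fun x => (3 : ℝ) ^ vN h n π p e r x.1 x.2)]
    have hS : ∑ x : ZMod 3 × (Fin m' → ZMod 3), (3 : ℝ) ^ vN h n π p e r x.1 x.2 ≤
        (5 / 3) ^ μ * 3 ^ (m' + 1) := by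
      by_cases h1 : h = 1
      · subst h1
        have h2 := hNSU1 n m' k' π p e r f hNF
        have h3 : ∑ x : ZMod 3 × (Fin m' → ZMod 3), (3 : ℝ) ^ vN 1 n π p e r x.1 x.2 ≤
            3 * 5 ^ m' := by exact_mod_cast h2
        rw [hμ', if_pos rfl, add_zero, div_pow, pow_succ]
        refine h3.trans (le_of_eq ?_)
        field_simp
      · have h2 := hNSUM h n m' k' π p e r f hNF
        have h3 : ∑ x : ZMod 3 × (Fin m' → ZMod 3), (3 : ℝ) ^ vN h n π p e r x.1 x.2 ≤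
            5 ^ (m' + 1) := by exact_mod_cast h2
        rw [hμ', if_neg h1, div_pow]
        refine h3.trans (le_of_eq ?_)
        field_simp
    calc _ ≤ ((5 / 3) ^ μ * 3 ^ (m' + 1)) * (((9 * (3 ^ h * n)).totient : ℝ) / 3 ^ (m' + 1)) :=
          mul_le_mul_of_nonneg_right hS (by positivity)
      _ = (5 / 3) ^ μ * (9 * (3 ^ h * n)).totient := by field_simp
  · -- the units with `v = 0`
    have hC := count π hT1 (fun x => vN h n π p e r x.1 x.2 = 0 ∧
      ¬ (h = 0 ∧ wt ((n : ℤ) ^ 2) + x.1 = 0))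
    have e1 : Nat.card {u : (ZMod (9 * (3 ^ h * n)))ˣ //
        vN h n π p e r (clu (9 * (3 ^ h * n)) π u).1 (clu (9 * (3 ^ h * n)) π u).2 = 0 ∧
          ¬ Nu1 (3 ^ h * n) u} =
        Nat.card {u : (ZMod (9 * (3 ^ h * n)))ˣ //
          vN h n π p e r (clu (9 * (3 ^ h * n)) π u).1 (clu (9 * (3 ^ h * n)) π u).2 = 0 ∧
            ¬ (h = 0 ∧ wt ((n : ℤ) ^ 2) + (clu (9 * (3 ^ h * n)) π u).1 = 0)} :=
      Nat.card_congr (Equiv.subtypeEquivRight fun u => by rw [nu1_iff hNF u])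
    rw [e1, hC]
    have hS : (2 / 3 : ℝ) ^ μ * 3 ^ (m' + 1) ≤
        Nat.card {x : ZMod 3 × (Fin m' → ZMod 3) // vN h n π p e r x.1 x.2 = 0 ∧
          ¬ (h = 0 ∧ wt ((n : ℤ) ^ 2) + x.1 = 0)} := by
      by_cases h1 : h = 1
      · subst h1
        have h2 := hNZE1 n m' k' π p e r f hNF
        have e2 : Nat.card {x : ZMod 3 × (Fin m' → ZMod 3) // vN 1 n π p e r x.1 x.2 = 0 ∧
            ¬ (1 = 0 ∧ wt ((n : ℤ) ^ 2) + x.1 = 0)} =
            Nat.card {x : ZMod 3 × (Fin m' → ZMod 3) // vN 1 n π p e r x.1 x.2 = 0} :=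
          Nat.card_congr (Equiv.subtypeEquivRight fun x =>
            ⟨fun h3 => h3.1, fun h3 => ⟨h3, fun h4 => absurd h4.1 one_ne_zero⟩⟩)
        rw [e2, hμ', if_pos rfl, add_zero, div_pow, pow_succ]
        have h3 : (3 : ℝ) * 2 ^ m' ≤
            Nat.card {x : ZMod 3 × (Fin m' → ZMod 3) // vN 1 n π p e r x.1 x.2 = 0} := by
          exact_mod_cast h2
        refine le_trans (le_of_eq ?_) h3
        field_simp
      · have h2 := hNZER h n m' k' π p e r f hNF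
        have h3 : (2 : ℝ) ^ (m' + 1) ≤
            Nat.card {x : ZMod 3 × (Fin m' → ZMod 3) // vN h n π p e r x.1 x.2 = 0 ∧
              ¬ (h = 0 ∧ wt ((n : ℤ) ^ 2) + x.1 = 0)} := by exact_mod_cast h2
        rw [hμ', if_neg h1, div_pow]
        refine le_trans (le_of_eq ?_) h3
        field_simp
    calc (2 / 3 : ℝ) ^ μ * (9 * (3 ^ h * n)).totient =
        ((2 / 3 : ℝ) ^ μ * 3 ^ (m' + 1)) * (((9 * (3 ^ h * n)).totient : ℝ) / 3 ^ (m' + 1)) := by
          field_simp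
      _ ≤ _ := mul_le_mul_of_nonneg_right hS (by positivity)
  · -- the units with `v = 0`, `N u = ± 1`
    rintro h3N ⟨l, hl, hlN, hl9⟩
    have hh0 : h = 0 := by
      by_contra h0
      exact h3N ((dvd_pow_self 3 h0).mul_right _)
    subst hh0
    have hj : ∃ j, wt ((r j : ℤ) ^ 2) ≠ 0 := by
      rw [pow_zero, one_mul] at hlN
      rcases EADM.prime_dvd hNF hl hlN with ⟨i, hi⟩ | ⟨j, hj⟩
      · have := hNF.p1 i
        omega
      · refine ⟨j, (FIN.p_wt (hNF.r2 j)).2 ?_⟩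
        omega
    have h2 := hNZE0 n m' k' π p e r f hNF hj
    have hC := count π hT1 (fun x => vN 0 n π p e r x.1 x.2 = 0 ∧ wt ((n : ℤ) ^ 2) + x.1 = 0)
    have e1 : Nat.card {u : (ZMod (9 * (3 ^ 0 * n)))ˣ //
        vN 0 n π p e r (clu (9 * (3 ^ 0 * n)) π u).1 (clu (9 * (3 ^ 0 * n)) π u).2 = 0 ∧
          Nu1 (3 ^ 0 * n) u} =
        Nat.card {u : (ZMod (9 * (3 ^ 0 * n)))ˣ //
          vN 0 n π p e r (clu (9 * (3 ^ 0 * n)) π u).1 (clu (9 * (3 ^ 0 * n)) π u).2 = 0 ∧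
            wt ((n : ℤ) ^ 2) + (clu (9 * (3 ^ 0 * n)) π u).1 = 0} :=
      Nat.card_congr (Equiv.subtypeEquivRight fun u => by
        rw [nu1_iff hNF u]
        exact ⟨fun h3 => ⟨h3.1, h3.2.2⟩, fun h3 => ⟨h3.1, rfl, h3.2⟩⟩)
    rw [e1, hC]
    have h3 : (2 : ℝ) ^ m' ≤
        Nat.card {x : ZMod 3 × (Fin m' → ZMod 3) // vN 0 n π p e r x.1 x.2 = 0 ∧
          wt ((n : ℤ) ^ 2) + x.1 = 0} := by exact_mod_cast h2
    calc 1 / 3 * (2 / 3 : ℝ) ^ m' * (9 * (3 ^ 0 * n)).totient =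
        2 ^ m' * (((9 * (3 ^ 0 * n)).totient : ℝ) / 3 ^ (m' + 1)) := by
          rw [div_pow, pow_succ]
          field_simp
      _ ≤ _ := mul_le_mul_of_nonneg_right h3 (by positivity)
  · -- averages
    intro u F hF h0
    exact ⟨(hFB2 u).1 F hF h0, (hFB1 u).1 F hF h0⟩
  · -- lower bounds for the ranks in a class
    intro u t
    exact ⟨(hFB2 u).2 t _ fun A _ _ h1 => h1, (hFB1 u).2 t _ fun A _ _ h1 => h1⟩
  · -- no solution
    intro u
    exact ⟨(hFB2 u).2 1 _ no_sol', (hFB1 u).2 1 _ no_sol'⟩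
  · -- the numbers
    obtain ⟨-, -, e3, -, e5, e6, -, e8, e9, -⟩ := hEKN
    intro u
    have key : ∀ (a : ℕ) (R : ℤ → Prop) (x d : ℝ),
        BelowA ((3 ^ h * n : ℕ) : ℤ) a (Cu (3 ^ h * n) u) (fun A => tf (R A))
          (x / 3 ^ (m' + 1)) → d ≤ x →
        BelowA ((3 ^ h * n : ℕ) : ℤ) a (Cu (3 ^ h * n) u) (fun A => tf (R A))
          (d / 3 ^ (m' + 1)) := fun a R x d h1 h2 =>
      (hSUMA _ a m' π _).2.2.2 _ _ _ (div_le_div_of_nonneg_right h2 (by positivity)) h1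
    refine ⟨fun ho => ⟨?_, ?_⟩, fun he => ⟨?_, ?_⟩, fun hv hs => ?_, fun hv hs => ?_,
      fun hv hs => ⟨?_, ?_⟩, fun hv hs => ⟨?_, ?_⟩⟩
    · exact key 2 _ _ _ ((hFB2 u).2 2 _ MAW.le_one') (e3 _ _ ho)
    · exact key 1 _ _ _ ((hFB1 u).2 3 _ MAW.le_two) (e5 _ _ ho.add_one)
    · exact key 2 _ _ _ ((hFB2 u).2 3 _ MAW.le_two) (e5 _ _ he)
    · exact key 1 _ _ _ ((hFB1 u).2 2 _ MAW.le_one') (e3 _ _ he.add_one)
    · exact key 2 _ _ _ ((hFB2 u).2 1 _ no_sol') (e6 _ _ hv hs)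
    · exact key 1 _ _ _ ((hFB1 u).2 1 _ no_sol') (e6 _ _ hv hs.add_one)
    · have h2 := (hFB2 u).2 1 _ no_sol'
      have hv' : vN h n π p e r (clu (9 * (3 ^ h * n)) π u).1 (clu (9 * (3 ^ h * n)) π u).2 = 0 :=
        hv
      rw [hv'] at h2
      exact key 2 _ _ _ h2 (e8 _ hs)
    · have h2 := (hFB1 u).2 2 _ MAW.le_one'
      have hv' : vN h n π p e r (clu (9 * (3 ^ h * n)) π u).1 (clu (9 * (3 ^ h * n)) π u).2 = 0 :=
        hv
      rw [hv'] at h2
      exact key 1 _ _ _ h2 (e9 _ hs.add_one)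
    · have h2 := (hFB2 u).2 2 _ MAW.le_one'
      have hv' : vN h n π p e r (clu (9 * (3 ^ h * n)) π u).1 (clu (9 * (3 ^ h * n)) π u).2 = 0 :=
        hv
      rw [hv'] at h2
      exact key 2 _ _ _ h2 (e9 _ hs)
    · have h2 := (hFB1 u).2 1 _ no_sol'
      have hv' : vN h n π p e r (clu (9 * (3 ^ h * n)) π u).1 (clu (9 * (3 ^ h * n)) π u).2 = 0 :=
        hv
      rw [hv'] at h2
      exact key 1 _ _ _ h2 (e8 _ hs.add_one)
  · -- finite generation
    choose M1 hM1 using fun x : ZMod 3 × (Fin m' → ZMod 3) =>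
      (hCLN h n m' k' π p e r f x.1 x.2 hNF hh).1
    choose M2 hM2 using fun x : ZMod 3 × (Fin m' → ZMod 3) =>
      (hCLU h n m' k' π p e r f x.1 x.2 hNF hh).1
    refine ⟨3 + ∑ x, (M1 x + M2 x), fun q E hq hM hE => ?_⟩
    have hBB : ((3 ^ h * n : ℕ) : ℤ) * (q : ℤ) ^ E = BB h n E q := by
      unfold BB
      push_cast
      ring
    rw [hBB]
    let x : ZMod 3 × (Fin m' → ZMod 3) :=
      (wt (((q : ℤ) ^ E) ^ 2), fun i => (E : ZMod 3) * sym (π i).1 (q : Eis))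
    have hcl : InCT E π x.1 x.2 q := ⟨rfl, fun _ => rfl⟩
    have hx : M1 x + M2 x ≤ ∑ x, (M1 x + M2 x) :=
      Finset.single_le_sum (f := fun x => M1 x + M2 x) (fun _ _ => Nat.zero_le _)
        (Finset.mem_univ x)
    have hq3 : q % 3 = 1 ∨ q % 3 = 2 := by
      have h1 : ¬ 3 ∣ q := by
        intro h3
        have := (Nat.prime_dvd_prime_iff_eq Nat.prime_three hq).1 h3
        omega
      omega
    rcases hq3 with h1 | h2
    · exact CubeRank.gen_rr (hM2 x E q hE hq (by omega) h1 hcl)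
    · exact CubeRank.gen_rr (hM1 x E q hE hq (by omega) h2 hcl)
  · -- the averages over all `A`: the rank, the moments and the tails
    intro a ha
    obtain ⟨a1, a2, a3⟩ := (hAWF h n m' k' π p e r f hNF hh).1 a ha
    refine ⟨a1, a2, fun k₀ => ?_, a3⟩
    exact (hSUMA _ a m' π _).2.2.1 _ _ _ (MAW.tail_le hGMB k₀)
      (hMTL _ _ _ k₀ (2 * k₀ + 1) _ (a2 k₀))
  · exact (hAWF h n m' k' π p e r f hNF hh).2.1
  · exact (hAWF h n m' k' π p e r f hNF hh).2.2
  · -- the averages over all `A`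
    obtain ⟨a1, -, a3, a4⟩ := hALLQ h n m' k' π p e r f hNF hh μ hμ'
    obtain ⟨b1, b2, b3⟩ := hALV h n m' k' π p e r f hNF hh μ hμ'
    exact ⟨a1, b1, fun hk => ⟨(a3 hk).1, b2 hk⟩, fun hk => ⟨(a4 hk).1, b3 hk⟩⟩

end Pool.Agent.PTK


end

section

/-!
# The joint governing field: commutators for the plus part which are trivial on the minus part
-/

set_option autoImplicit false

open NumberField IsDedekindDomain Finset
open scoped nonZeroDivisors Pointwise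

namespace Pool.Agent.PTK

open Pool.Agent.Lib_helper18 Pool.Agent.Lib_helper18.Eis Pool.Agent.Lib_helper84.Cub
open Pool.Agent.PT Pool.Agent.PTE Pool.Agent.PT3 Pool.Agent.PTL Pool.Agent.PTN

namespace JC2

section rel

variable {s : ℕ} {b : Fin s → ℤ} {p q p' q' : Fin s → Fin s → ℤ} {L : Type} [Field L]
    [NumberField L] {ζ ω : L}

/-- `GC.all` with a property `H` of the automorphisms which is closed under products -/
theorem all (hω : ω ^ 2 + ω + 1 = 0) (hζ : ∀ z : L ≃ₐ[ℚ] L, z ζ = ζ → z ω = ω)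
    (H : (L ≃ₐ[ℚ] L) → Prop) (H1 : H 1) (Hm : ∀ z z', H z → H z' → H (z * z'))
    (hel : ∀ j₀ i₀ : Fin s, j₀ < i₀ → ∃ z : L ≃ₐ[ℚ] L,
      GC.R b p q p' q' ζ ω (fun j i => if (j, i) = (j₀, i₀) then 1 else 0) z ∧ H z)
    (v : Fin s → Fin s → ZMod 3) : ∃ z : L ≃ₐ[ℚ] L, GC.R b p q p' q' ζ ω v z ∧ H z := by
  let S : AddSubmonoid (Fin s → Fin s → ZMod 3) :=
    { carrier := {v | ∃ z : L ≃ₐ[ℚ] L, GC.R b p q p' q' ζ ω v z ∧ H z}
      zero_mem' := ⟨1, GC.R_zero (fun _ _ _ => rfl), H1⟩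
      add_mem' := by
        rintro v v' ⟨z, hz, hz1⟩ ⟨z', hz', hz1'⟩
        exact ⟨z * z', GC.R_add hω hζ hz hz', Hm _ _ hz1 hz1'⟩ }
  have h1 : ∀ x : Fin s × Fin s,
      (fun j i => if (j, i) = x then v x.1 x.2 else 0 : Fin s → Fin s → ZMod 3) ∈ S := by
    rintro ⟨j₀, i₀⟩
    by_cases hji : j₀ < i₀
    · have h2 : (fun j i => if (j, i) = (j₀, i₀) then v j₀ i₀ else 0 : Fin s → Fin s → ZMod 3) =
          (v j₀ i₀).val • (fun j i => if (j, i) = (j₀, i₀) then 1 else 0 :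
            Fin s → Fin s → ZMod 3) := by
        funext j i
        rw [Pi.smul_apply, Pi.smul_apply]
        split_ifs with h
        · rw [nsmul_one, ZMod.natCast_val, ZMod.cast_id', id]
        · rw [smul_zero]
      change (fun j i => if (j, i) = (j₀, i₀) then v j₀ i₀ else 0 : Fin s → Fin s → ZMod 3) ∈ S
      rw [h2]
      exact S.nsmul_mem (hel j₀ i₀ hji) _
    · refine ⟨1, GC.R_zero (fun j i hji' => ?_), H1⟩
      rw [if_neg]
      intro h
      rw [Prod.mk.injEq] at h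
      rw [h.1, h.2] at hji'
      exact hji hji'
  have h3 : v = ∑ x : Fin s × Fin s,
      (fun j i => if (j, i) = x then v x.1 x.2 else 0 : Fin s → Fin s → ZMod 3) := by
    funext j i
    rw [Finset.sum_apply, Finset.sum_apply, Finset.sum_ite_eq, if_pos (Finset.mem_univ _)]
  have h4 : v ∈ S := by
    rw [h3]
    exact S.sum_mem (fun x _ => h1 x)
  exact h4

end rel

section com

variable {k : ℕ} {L : Type} [Field L] [NumberField L] {ι : Eis →+* L} {x : Eis}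
  {u P Q P' Q' : Fin k → Eis}

/-- commutators of automorphisms which fix `ω` and the roots of `x` are trivial on `A` -/
theorem comA (hnz : ∀ j, GCK.Nz ι x (P j) (Q j) (P' j) (Q' j)) {σ τ : L ≃ₐ[ℚ] L}
    (hσ : GCK.Act ι x u 0 0 σ) (hτ : GCK.Act ι x u 0 0 τ) (j : Fin k) (ρ A : L)
    (hA : PrM x P Q P' Q' ι j ρ A) : ((σ * τ)⁻¹ * (τ * σ)) A = A := by
  have f0 : ∀ g : L ≃ₐ[ℚ] L, GCK.Act ι x u 0 0 g → g ρ = ρ := by
    intro g hg
    rw [hg.2.1 ρ hA.1, ZMod.val_zero, pow_zero, one_mul]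
  obtain ⟨e, he⟩ := GCK.fixA (hnz j) σ hA.1 hσ.1 (f0 σ hσ) hA.2
  obtain ⟨e', he'⟩ := GCK.fixA (hnz j) τ hA.1 hτ.1 (f0 τ hτ) hA.2
  have h1 : τ (σ A) = ι w ^ 0 * σ (τ A) := by
    rw [he, he', map_mul, map_mul, map_pow, map_pow, hσ.1, hτ.1, he, he', pow_zero, one_mul]
    ring
  rw [GC.comm_apply σ τ 0 hσ.1 hτ.1 A h1, pow_zero, one_mul]

/-- the same for the conjugates of `A` -/
theorem comgA (hnz : ∀ j, GCK.Nz ι x (P j) (Q j) (P' j) (Q' j))
    (hx : ∃ t : Eis, x * conj x = t ^ 3) (hu : ∀ j, ∃ t : Eis, u j * conj (u j) = t ^ 3)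
    {σ τ : L ≃ₐ[ℚ] L} (hσ : GCK.Act ι x u 0 0 σ) (hτ : GCK.Act ι x u 0 0 τ) (j : Fin k)
    (ρ A : L) (hA : PrM x P Q P' Q' ι j ρ A) (g : L ≃ₐ[ℚ] L) (hg : g (ι w) = ι w ^ 2) :
    ((σ * τ)⁻¹ * (τ * σ)) (g A) = g A := by
  have h1 := comA hnz (GCK.cjAct hg hx hu hσ) (GCK.cjAct hg hx hu hτ) j ρ A hA
  have h2 : ((g⁻¹ * σ * g) * (g⁻¹ * τ * g))⁻¹ * ((g⁻¹ * τ * g) * (g⁻¹ * σ * g)) =
      g⁻¹ * ((σ * τ)⁻¹ * (τ * σ)) * g := by group
  rw [h2] at h1
  have h3 := congrArg g h1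
  rw [← AlgEquiv.mul_apply, ← mul_assoc, ← mul_assoc, mul_inv_cancel, one_mul,
    AlgEquiv.mul_apply] at h3
  exact h3

end com

end JC2

/-- commutators for the plus part which are trivial on the minus part -/
theorem JC2_thm (hJKU : Stmt_JKU) : Stmt_JC2 := by
  intro s k b p q p' q' x u P Q P' Q' f L _ _ ζ ι hS hSK hG v
  have hω := GCK.om ι
  have hf : 0 < f := by
    rcases Nat.eq_zero_or_pos f with h | h
    · exfalso
      have h1 := hG.minus.hω
      rw [h, Nat.zero_div, pow_zero] at h1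
      rw [h1] at hω
      norm_num at hω
    · exact h
  have hζ : ∀ z : L ≃ₐ[ℚ] L, z ζ = ζ → z (ι w) = ι w := by
    intro z hz
    rw [hG.minus.hω, map_pow, hz]
  have hnz : ∀ j, GCK.Nz ι x (P j) (Q j) (P' j) (Q' j) := fun j ρ hρ => hG.minus.D j ρ hρ
  choose θ hθ using hG.plus.root
  have hg1 : ∀ i : Fin s, ∃ g : L ≃ₐ[ℚ] L, GCK.Act ι x u 0 0 g ∧
      ∀ (l : Fin s) (ρ : L), ρ ^ 3 = (b l : L) →
        g ρ = ι w ^ ((Pi.single i 1 : Fin s → ZMod 3) l).val * ρ := by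
    intro i
    obtain ⟨g, h0, h1, h2, h3⟩ := hJKU s k b p q p' q' x u P Q P' Q' f L ζ ι hS hSK hG 0 0
      (Pi.single i 1)
    exact ⟨g, ⟨h0, h1, h2⟩, h3⟩
  choose g hgK hgv using hg1
  have hgω : ∀ i, g i (ι w) = ι w := fun i => (hgK i).1
  have hgρ : ∀ (j : Fin s) (ρ : L), ρ ^ 3 = (b j : L) → g j ρ = ι w * ρ := by
    intro j ρ hρ
    rw [hgv j j ρ hρ, Pi.single_eq_same, show (1 : ZMod 3).val = 1 from rfl, pow_one]
  have hgρ' : ∀ (i j : Fin s) (ρ : L), ρ ^ 3 = (b j : L) → j ≠ i → g i ρ = ρ := by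
    intro i j ρ hρ hji
    rw [hgv i j ρ hρ, Pi.single_eq_of_ne hji, ZMod.val_zero, pow_zero, one_mul]
  have hz : ∀ g : L ≃ₐ[ℚ] L, ∃ i : ℕ, g ζ = ζ ^ i := by
    intro g
    have h1 : (g ζ) ^ f = 1 := by rw [← map_pow, hG.minus.prim.pow_eq_one, map_one]
    haveI : NeZero f := ⟨hf.ne'⟩
    obtain ⟨i, _, hi⟩ := hG.minus.prim.eq_pow_of_pow_eq_one h1
    exact ⟨i, hi.symm⟩
  obtain ⟨z, hzR, hz1, hz2, hz3⟩ := JC2.all (b := b) (p := p) (q := q) (p' := p') (q' := q')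
    (ζ := ζ) hω hζ
    (fun z => (∀ ρ : L, ρ ^ 3 = ι x → z ρ = ρ) ∧
      (∀ (j : Fin k) (ρ : L), ρ ^ 3 = ι (u j) → z ρ = ρ) ∧
      ∀ (j : Fin k) (ρ A : L), PrM x P Q P' Q' ι j ρ A → z A = A ∧
        ∀ g : L ≃ₐ[ℚ] L, g (ι w) = ι w ^ 2 → z (g A) = g A)
    ⟨fun _ _ => rfl, fun _ _ _ => rfl, fun _ _ _ _ => ⟨rfl, fun _ _ => rfl⟩⟩
    (by
      rintro z z' ⟨h1, h2, h3⟩ ⟨h1', h2', h3'⟩
      refine ⟨fun ρ hρ => ?_, fun j ρ hρ => ?_, fun j ρ A hA => ⟨?_, fun g hg => ?_⟩⟩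
      · rw [AlgEquiv.mul_apply, h1' ρ hρ, h1 ρ hρ]
      · rw [AlgEquiv.mul_apply, h2' j ρ hρ, h2 j ρ hρ]
      · rw [AlgEquiv.mul_apply, (h3' j ρ A hA).1, (h3 j ρ A hA).1]
      · rw [AlgEquiv.mul_apply, (h3' j ρ A hA).2 g hg, (h3 j ρ A hA).2 g hg])
    (by
      intro j i hji
      refine ⟨(g j * g i)⁻¹ * (g i * g j), ⟨?_, fun l ρ hρ => ?_, fun l k hlk ρ A hρ hA => ?_⟩,
        fun ρ hρ => ?_, fun l ρ hρ => ?_, fun l ρ A hA => ⟨?_, fun τ hτ => ?_⟩⟩
      · obtain ⟨m, hm⟩ := hz (g j)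
        obtain ⟨n, hn⟩ := hz (g i)
        have h1 : g i (g j ζ) = ι w ^ 0 * g j (g i ζ) := by
          rw [hm, hn, map_pow, map_pow, hm, hn, pow_zero, one_mul, ← pow_mul, ← pow_mul, mul_comm]
        rw [GC.comm_apply (g j) (g i) 0 (hgω j) (hgω i) ζ h1, pow_zero, one_mul]
      · have h1 : g i (g j ρ) = ι w ^ 0 * g j (g i ρ) := by
          rw [pow_zero, one_mul]
          by_cases h2 : l = i
          · subst h2
            rw [hgρ l ρ hρ, hgρ' j l ρ hρ (ne_of_gt hji), hgρ l ρ hρ, map_mul, hgω j,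
              hgρ' j l ρ hρ (ne_of_gt hji)]
          · by_cases h3 : l = j
            · subst h3
              rw [hgρ l ρ hρ, hgρ' i l ρ hρ h2, hgρ l ρ hρ, map_mul, hgω i, hgρ' i l ρ hρ h2]
            · rw [hgρ' i l ρ hρ h2, hgρ' j l ρ hρ h3, hgρ' i l ρ hρ h2]
        rw [GC.comm_apply (g j) (g i) 0 (hgω j) (hgω i) ρ h1, pow_zero, one_mul]
      · have hsol := (hS.sol l k hlk.ne).toSolW
        by_cases h2 : (l, k) = (j, i)
        · rw [Prod.mk.injEq] at h2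
          obtain ⟨rfl, rfl⟩ := h2
          simp only [if_true]
          have h1 : g k (g l A) = ι w ^ 1 * g l (g k A) :=
            GC.mv (g l) (g k) 1 hω hρ (hθ k) hsol (hgω l) (hgω k) (hgρ l ρ hρ)
              (hgρ' k l ρ hρ hlk.ne) (by rw [pow_one]; exact hgρ k _ (hθ k)) hA
          exact GC.comm_apply (g l) (g k) 1 (hgω l) (hgω k) A h1
        · simp only [if_neg h2]
          have h1 : g i (g j A) = ι w ^ 0 * g j (g i A) := by
            by_cases h3 : l = j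
            · subst h3
              have h4 : k ≠ i := fun h => h2 (by rw [h])
              exact GC.mv (g l) (g i) 0 hω hρ (hθ k) hsol (hgω l) (hgω i) (hgρ l ρ hρ)
                (hgρ' i l ρ hρ hji.ne)
                (by rw [pow_zero, one_mul]; exact hgρ' i k _ (hθ k) h4) hA
            · by_cases h4 : l = i
              · subst h4
                have h5 : k ≠ j := (hji.trans hlk).ne'
                have h6 := GC.mv (g l) (g j) 0 hω hρ (hθ k) hsol (hgω l) (hgω j) (hgρ l ρ hρ)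
                  (hgρ' j l ρ hρ hji.ne')
                  (by rw [pow_zero, one_mul]; exact hgρ' j k _ (hθ k) h5) hA
                rw [pow_zero, one_mul] at h6 ⊢
                exact h6.symm
              · rw [pow_zero, one_mul]
                exact GC.fx (g j) (g i) hω hρ hsol (hgω j) (hgω i) (hgρ' j l ρ hρ h3)
                  (hgρ' i l ρ hρ h4) hA
          have h5 := GC.comm_apply (g j) (g i) 0 (hgω j) (hgω i) A h1
          rw [ZMod.val_zero]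
          exact h5
      · have f0 : ∀ i, g i ρ = ρ := fun i => by
          rw [(hgK i).2.1 ρ hρ, ZMod.val_zero, pow_zero, one_mul]
        have h1 : g i (g j ρ) = ι w ^ 0 * g j (g i ρ) := by
          rw [f0 i, f0 j, f0 i, pow_zero, one_mul]
        rw [GC.comm_apply (g j) (g i) 0 (hgω j) (hgω i) ρ h1, pow_zero, one_mul]
      · have f0 : ∀ i, g i ρ = ρ := fun i => by
          rw [(hgK i).2.2 l ρ hρ, Pi.zero_apply, ZMod.val_zero, pow_zero, one_mul]
        have h1 : g i (g j ρ) = ι w ^ 0 * g j (g i ρ) := by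
          rw [f0 i, f0 j, f0 i, pow_zero, one_mul]
        rw [GC.comm_apply (g j) (g i) 0 (hgω j) (hgω i) ρ h1, pow_zero, one_mul]
      · exact JC2.comA hnz (hgK j) (hgK i) l ρ A hA
      · exact JC2.comgA hnz hSK.cx hSK.cb (hgK j) (hgK i) l ρ A hA τ hτ)
    v
  exact ⟨z, ⟨hzR.1, hz1, hz2, fun i ρ hρ => hzR.2.1 i ρ hρ⟩,
    fun j i ρ A hji hA => hzR.2.2 j i hji ρ A hA.1 hA.2, hz3⟩

end Pool.Agent.PTK


end

section

/-!
# The joint governing field with several base classes: commutators for the plus part which are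
trivial on the minus part
-/

set_option autoImplicit false

open NumberField IsDedekindDomain Finset
open scoped nonZeroDivisors Pointwise

namespace Pool.Agent.PTK

open Pool.Agent.Lib_helper18 Pool.Agent.Lib_helper18.Eis Pool.Agent.Lib_helper84.Cub
open Pool.Agent.PT Pool.Agent.PTE Pool.Agent.PT3 Pool.Agent.PTL Pool.Agent.PTN

namespace MC2

variable {M N : ℕ} {L : Type} [Field L] [NumberField L] {ι : Eis →+* L} {z : Fin M → Eis}
  {α β : Fin N → Fin M} {P Q P' Q' : Fin N → Eis}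

/-- `g` fixes `ω` and the roots of the classes -/
def Fz (ι : Eis →+* L) (z : Fin M → Eis) (g : L ≃ₐ[ℚ] L) : Prop :=
  g (ι w) = ι w ∧ ∀ (i : Fin M) (ρ : L), ρ ^ 3 = ι (z i) → g ρ = ρ

theorem act {g : L ≃ₐ[ℚ] L} (hg : Fz ι z g) (i j : Fin M) :
    GCK.Act ι (z i) (fun _ : Fin 1 => z j) 0 0 g := by
  refine ⟨hg.1, fun ρ hρ => ?_, fun _ ρ hρ => ?_⟩
  · rw [hg.2 i ρ hρ, ZMod.val_zero, pow_zero, one_mul]
  · rw [hg.2 j ρ hρ, Pi.zero_apply, ZMod.val_zero, pow_zero, one_mul]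

/-- commutators are trivial on the minus part -/
theorem com (hD : ∀ (r : Fin N) (ρ : L), ρ ^ 3 = ι (z (α r)) →
      aDE ι (P r) (Q r) (P' r) (Q' r) ρ ≠ 0 ∧ aNE ι (P r) (Q r) (P' r) (Q' r) ρ ≠ 0)
    (hz : ∀ i, ∃ t : Eis, z i * conj (z i) = t ^ 3)
    {σ τ : L ≃ₐ[ℚ] L} (hσ : Fz ι z σ) (hτ : Fz ι z τ) (r : Fin N) (ρ A : L)
    (hA : PrW z α P Q P' Q' ι r ρ A) : ((σ * τ)⁻¹ * (τ * σ)) A = A ∧
      ∀ g : L ≃ₐ[ℚ] L, g (ι w) = ι w ^ 2 → ((σ * τ)⁻¹ * (τ * σ)) (g A) = g A := by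
  have hnz : ∀ j : Fin 1, GCK.Nz ι (z (α r)) ((fun _ : Fin 1 => P r) j)
      ((fun _ : Fin 1 => Q r) j) ((fun _ : Fin 1 => P' r) j) ((fun _ : Fin 1 => Q' r) j) :=
    fun _ ρ hρ => hD r ρ hρ
  have hA' : PrM (z (α r)) (fun _ : Fin 1 => P r) (fun _ : Fin 1 => Q r)
      (fun _ : Fin 1 => P' r) (fun _ : Fin 1 => Q' r) ι 0 ρ A := hA
  exact ⟨JC2.comA hnz (act hσ (α r) (α r)) (act hτ (α r) (α r)) 0 ρ A hA',
    fun g hg => JC2.comgA hnz (hz _) (fun _ => hz _) (act hσ (α r) (α r)) (act hτ (α r) (α r))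
      0 ρ A hA' g hg⟩

end MC2

/-- commutators for the plus part which are trivial on the minus part -/
theorem MC2_thm (hMKU : Stmt_MKU) : Stmt_MC2 := by
  intro s M N b p q p' q' z α β P Q P' Q' f L _ _ ζ ι hS hSZ hG v
  have hω := GCK.om ι
  have hf : 0 < f := by
    rcases Nat.eq_zero_or_pos f with h | h
    · exfalso
      have h1 := hG.minus.hω
      rw [h, Nat.zero_div, pow_zero] at h1
      rw [h1] at hω
      norm_num at hω
    · exact h
  have hζ : ∀ z : L ≃ₐ[ℚ] L, z ζ = ζ → z (ι w) = ι w := by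
    intro z hz
    rw [hG.minus.hω, map_pow, hz]
  choose θ hθ using hG.plus.root
  have hg1 : ∀ i : Fin s, ∃ g : L ≃ₐ[ℚ] L, MC2.Fz ι z g ∧
      ∀ (l : Fin s) (ρ : L), ρ ^ 3 = (b l : L) →
        g ρ = ι w ^ ((Pi.single i 1 : Fin s → ZMod 3) l).val * ρ := by
    intro i
    obtain ⟨g, h0, h1, h3⟩ := hMKU s M N b p q p' q' z α β P Q P' Q' f L ζ ι hS hSZ hG 0
      (Pi.single i 1)
    refine ⟨g, ⟨h0, fun l ρ hρ => ?_⟩, h3⟩
    rw [h1 l ρ hρ, Pi.zero_apply, ZMod.val_zero, pow_zero, one_mul]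
  choose g hgK hgv using hg1
  have hgω : ∀ i, g i (ι w) = ι w := fun i => (hgK i).1
  have hgρ : ∀ (j : Fin s) (ρ : L), ρ ^ 3 = (b j : L) → g j ρ = ι w * ρ := by
    intro j ρ hρ
    rw [hgv j j ρ hρ, Pi.single_eq_same, show (1 : ZMod 3).val = 1 from rfl, pow_one]
  have hgρ' : ∀ (i j : Fin s) (ρ : L), ρ ^ 3 = (b j : L) → j ≠ i → g i ρ = ρ := by
    intro i j ρ hρ hji
    rw [hgv i j ρ hρ, Pi.single_eq_of_ne hji, ZMod.val_zero, pow_zero, one_mul]
  have hzi : ∀ g : L ≃ₐ[ℚ] L, ∃ i : ℕ, g ζ = ζ ^ i := by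
    intro g
    have h1 : (g ζ) ^ f = 1 := by rw [← map_pow, hG.minus.prim.pow_eq_one, map_one]
    have : NeZero f := ⟨hf.ne'⟩
    obtain ⟨i, _, hi⟩ := hG.minus.prim.eq_pow_of_pow_eq_one h1
    exact ⟨i, hi.symm⟩
  obtain ⟨g₀, hzR, hz2, hz3⟩ := JC2.all (b := b) (p := p) (q := q) (p' := p') (q' := q')
    (ζ := ζ) hω hζ
    (fun g₀ => (∀ (j : Fin M) (ρ : L), ρ ^ 3 = ι (z j) → g₀ ρ = ρ) ∧
      ∀ (j : Fin N) (ρ A : L), PrW z α P Q P' Q' ι j ρ A → g₀ A = A ∧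
        ∀ g : L ≃ₐ[ℚ] L, g (ι w) = ι w ^ 2 → g₀ (g A) = g A)
    ⟨fun _ _ _ => rfl, fun _ _ _ _ => ⟨rfl, fun _ _ => rfl⟩⟩
    (by
      rintro z z' ⟨h2, h3⟩ ⟨h2', h3'⟩
      refine ⟨fun j ρ hρ => ?_, fun j ρ A hA => ⟨?_, fun g hg => ?_⟩⟩
      · rw [AlgEquiv.mul_apply, h2' j ρ hρ, h2 j ρ hρ]
      · rw [AlgEquiv.mul_apply, (h3' j ρ A hA).1, (h3 j ρ A hA).1]
      · rw [AlgEquiv.mul_apply, (h3' j ρ A hA).2 g hg, (h3 j ρ A hA).2 g hg])
    (by
      intro j i hji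
      refine ⟨(g j * g i)⁻¹ * (g i * g j), ⟨?_, fun l ρ hρ => ?_, fun l k hlk ρ A hρ hA => ?_⟩,
        fun l ρ hρ => ?_, fun l ρ A hA => ?_⟩
      · obtain ⟨m, hm⟩ := hzi (g j)
        obtain ⟨n, hn⟩ := hzi (g i)
        have h1 : g i (g j ζ) = ι w ^ 0 * g j (g i ζ) := by
          rw [hm, hn, map_pow, map_pow, hm, hn, pow_zero, one_mul, ← pow_mul, ← pow_mul, mul_comm]
        rw [GC.comm_apply (g j) (g i) 0 (hgω j) (hgω i) ζ h1, pow_zero, one_mul]
      · have h1 : g i (g j ρ) = ι w ^ 0 * g j (g i ρ) := by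
          rw [pow_zero, one_mul]
          by_cases h2 : l = i
          · subst h2
            rw [hgρ l ρ hρ, hgρ' j l ρ hρ (ne_of_gt hji), hgρ l ρ hρ, map_mul, hgω j,
              hgρ' j l ρ hρ (ne_of_gt hji)]
          · by_cases h3 : l = j
            · subst h3
              rw [hgρ l ρ hρ, hgρ' i l ρ hρ h2, hgρ l ρ hρ, map_mul, hgω i, hgρ' i l ρ hρ h2]
            · rw [hgρ' i l ρ hρ h2, hgρ' j l ρ hρ h3, hgρ' i l ρ hρ h2]
        rw [GC.comm_apply (g j) (g i) 0 (hgω j) (hgω i) ρ h1, pow_zero, one_mul]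
      · have hsol := (hS.sol l k hlk.ne).toSolW
        by_cases h2 : (l, k) = (j, i)
        · rw [Prod.mk.injEq] at h2
          obtain ⟨rfl, rfl⟩ := h2
          simp only [if_true]
          have h1 : g k (g l A) = ι w ^ 1 * g l (g k A) :=
            GC.mv (g l) (g k) 1 hω hρ (hθ k) hsol (hgω l) (hgω k) (hgρ l ρ hρ)
              (hgρ' k l ρ hρ hlk.ne) (by rw [pow_one]; exact hgρ k _ (hθ k)) hA
          exact GC.comm_apply (g l) (g k) 1 (hgω l) (hgω k) A h1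
        · simp only [if_neg h2]
          have h1 : g i (g j A) = ι w ^ 0 * g j (g i A) := by
            by_cases h3 : l = j
            · subst h3
              have h4 : k ≠ i := fun h => h2 (by rw [h])
              exact GC.mv (g l) (g i) 0 hω hρ (hθ k) hsol (hgω l) (hgω i) (hgρ l ρ hρ)
                (hgρ' i l ρ hρ hji.ne)
                (by rw [pow_zero, one_mul]; exact hgρ' i k _ (hθ k) h4) hA
            · by_cases h4 : l = i
              · subst h4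
                have h5 : k ≠ j := (hji.trans hlk).ne'
                have h6 := GC.mv (g l) (g j) 0 hω hρ (hθ k) hsol (hgω l) (hgω j) (hgρ l ρ hρ)
                  (hgρ' j l ρ hρ hji.ne')
                  (by rw [pow_zero, one_mul]; exact hgρ' j k _ (hθ k) h5) hA
                rw [pow_zero, one_mul] at h6 ⊢
                exact h6.symm
              · rw [pow_zero, one_mul]
                exact GC.fx (g j) (g i) hω hρ hsol (hgω j) (hgω i) (hgρ' j l ρ hρ h3)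
                  (hgρ' i l ρ hρ h4) hA
          have h5 := GC.comm_apply (g j) (g i) 0 (hgω j) (hgω i) A h1
          rw [ZMod.val_zero]
          exact h5
      · have f0 : ∀ i, g i ρ = ρ := fun i => (hgK i).2 l ρ hρ
        have h1 : g i (g j ρ) = ι w ^ 0 * g j (g i ρ) := by
          rw [f0 i, f0 j, f0 i, pow_zero, one_mul]
        rw [GC.comm_apply (g j) (g i) 0 (hgω j) (hgω i) ρ h1, pow_zero, one_mul]
      · exact MC2.com hG.minus.D hSZ.cz (hgK j) (hgK i) l ρ A hA)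
    v
  exact ⟨g₀, ⟨hzR.1, hz2, fun i ρ hρ => hzR.2.1 i ρ hρ⟩,
    fun j i ρ A hji hA => hzR.2.2 j i hji ρ A hA.1 hA.2, hz3⟩

end Pool.Agent.PTK


end

section

/-!
# PTK, module NMN: the norm theorem for `K(x^(1/3)) / K`, `K = Q(w)` (helper54)

Copy of `PT/NMAIN.lean`.
-/

set_option autoImplicit false

open NumberField IsDedekindDomain Finset
open scoped nonZeroDivisors Pointwise

namespace Pool.Agent.PTK

open Pool.Agent.Lib_helper18 Pool.Agent.Lib_helper18.Eis Pool.Agent.Lib_helper84.Cub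
open Pool.Agent.PT

open Pool.Agent.PT.NMAIN

/-- NMN. -/
theorem NMN_thm (hSTM : STM) (hSPP : SPP) (hSSL : SSL) (hSLC : SLC)
    (hHERBQ : HERBQ) (hSUN : SUN) (hNRK : Stmt_NRK) (hNHN : Stmt_NHN) (hNTR : Stmt_NTR)
    (hNCN : Stmt_NCN) (hNFX : Stmt_NFX) (hNHO : Stmt_NHO) (hNNS : Stmt_NNS)
    (hNGN : Stmt_NGN) : Stmt_NMN := by
  classical
  intro x L _ _ ι θ σ hxE hx4 hV hcube hF y hyE htm hyLC
  have hx3 : ¬ lam ∣ x := by
    intro h
    have h1 : lam ∣ x ^ 2 - 1 := (dvd_pow_self lam (by norm_num)).trans hx4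
    have h2 : lam ∣ x ^ 2 := h.trans (dvd_pow_self x (by norm_num))
    have h3 : lam ∣ 1 := by
      have h4 := dvd_sub h2 h1
      have h5 : x ^ 2 - (x ^ 2 - 1) = 1 := by ring
      rwa [h5] at h4
    exact prime_lam.not_isUnit (isUnit_of_dvd_one h3)
  have hι := hF.inj
  have hι0 : ∀ a : Eis, a ≠ 0 → ι a ≠ 0 := fun a ha h => ha (hι (by rw [h, map_zero]))
  -- the set of places
  obtain ⟨S₀, hS₀⟩ : ∃ S₀ : Finset Pl, ∀ v, v ∈ S₀ ↔ v = none ∨
      ∃ π : PP, v = some π ∧ (π.1 ∣ x ∨ π.1 ∣ y) := by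
    have hfin : ({v : Pl | v = none ∨ ∃ π : PP, v = some π ∧
        (π.1 ∣ x ∨ π.1 ∣ y)}).Finite := by
      have h1 := (hSPP.2.2.1 x hxE).union (hSPP.2.2.1 y hyE)
      refine ((h1.image some).insert none).subset ?_
      rintro v (rfl | ⟨π, rfl, h⟩)
      · exact Set.mem_insert _ _
      · exact Set.mem_insert_of_mem _ ⟨π, h, rfl⟩
    exact ⟨hfin.toFinset, fun v => hfin.mem_toFinset⟩
  obtain ⟨S, e, d, hSS, hSLC', hcard, hd0, hdS, hdind, hdsym⟩ := hNGN x S₀ hxE hx4 hV hcube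
    ((hS₀ none).2 (Or.inl rfl)) (fun π h => (hS₀ _).2 (Or.inr ⟨π, rfl, Or.inl h⟩)) (by
      intro π h hLC
      rcases (hS₀ _).1 h with h1 | ⟨π', h1, h2⟩
      · exact absurd h1 (by simp)
      · have h3 : π = π' := Option.some.inj h1
        subst h3
        rcases h2 with h2 | h2
        · exact h2
        · exact hyLC π h2 hLC)
  have hnone : none ∈ S := hSS ((hS₀ none).2 (Or.inl rfl))
  have hxS : ∀ π : PP, π.1 ∣ x → some π ∈ S := fun π h =>
    hSS ((hS₀ _).2 (Or.inr ⟨π, rfl, Or.inl h⟩))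
  have hyS : ∀ v : Pl, uni v ∣ y → v ∈ S := by
    intro v hv
    cases v with
    | none => exact hnone
    | some π => exact hSS ((hS₀ _).2 (Or.inr ⟨π, rfl, Or.inr hv⟩))
  obtain ⟨H1, H2, -⟩ := hNHN x L ι θ σ hxE hF
  obtain ⟨-, T2, -, T4, -, -⟩ := hNTR x L ι θ σ hxE hx3 hF
  obtain ⟨X1, X2, X3⟩ := hNFX x L ι θ σ hxE hx3 hF S
  obtain ⟨O1, O2⟩ := hNHO x L ι θ σ hxE hx3 hF S hnone hxS
  have hNC := hNCN x L ι θ σ hxE hx3 hV hF
  have hσ3 : σ ^ 3 = 1 := by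
    ext z
    change σ (σ (σ z)) = z
    exact H1 z
  -- norms
  have hNval : ∀ u : Lˣ, ((∏ i ∈ range 3, σ ^ i • u : Lˣ) : L) = u * σ u * σ (σ u) := by
    intro u
    rw [prod_range_succ, prod_range_succ, prod_range_succ, prod_range_zero, one_mul]
    rfl
  have hN : ∀ u : Lˣ, ∃ a b : Eis, a ≠ 0 ∧ b ≠ 0 ∧
      ((∏ i ∈ range 3, σ ^ i • u : Lˣ) : L) * ι b = ι a := by
    intro u
    have h1 : σ ((∏ i ∈ range 3, σ ^ i • u : Lˣ) : L) = ((∏ i ∈ range 3, σ ^ i • u : Lˣ) : L) := by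
      rw [hNval, map_mul, map_mul, H1]
      ring
    obtain ⟨a, b, hb, hab⟩ := H2 _ h1
    refine ⟨a, b, ?_, hb, hab⟩
    rintro rfl
    rw [map_zero] at hab
    exact (mul_ne_zero (Units.ne_zero _) (hι0 b hb)) hab
  -- the units
  have hd' : ∀ i, ∃ u : Lˣ, (u : L) = ι (d i) := fun i => ⟨Units.mk0 _ (hι0 _ (hd0 i)), rfl⟩
  choose d' hd' using hd'
  have hpsi := fun {u : Lˣ} {a b : Eis} (ha : a ≠ 0) (hb : b ≠ 0) (h : (u : L) * ι b = ι a) v =>
    psi_eq (L := L) (ι := ι) hSTM hSPP hSSL hι hxE ha hb h v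
  have hpsi1 : ∀ (u : Lˣ) (a : Eis), a ≠ 0 → (u : L) = ι a → ∀ v, psi ι x u v = sy v a x := by
    intro u a ha h v
    rw [hpsi (u := u) ha one_ne_zero (by rw [map_one, mul_one, h]),
      sy_one hSTM hSPP hSSL v _ hxE, sub_zero]
  -- the set of primes
  obtain ⟨A, hA⟩ : ∃ A : Finset (HeightOneSpectrum (𝓞 L)),
      (A : Set (HeightOneSpectrum (𝓞 L))) = ⋃ v ∈ S, Abv ι v := by
    have hfin : (⋃ v ∈ S, Abv ι v).Finite := S.finite_toSet.biUnion fun v _ => (T4 v).1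
    exact ⟨hfin.toFinset, hfin.coe_toFinset⟩
  obtain ⟨U1, U2⟩ := hSUN L A
  rw [hA] at U1 U2
  have hAcard : A.card + 2 * (e + 1) = 3 * S.card := by
    have h1 : A = S.biUnion fun v => (T4 v).1.toFinset := by
      ext P
      rw [Finset.mem_biUnion, ← Finset.mem_coe, hA, Set.mem_iUnion₂]
      constructor
      · rintro ⟨v, hv, hP⟩
        exact ⟨v, hv, (T4 v).1.mem_toFinset.2 hP⟩
      · rintro ⟨v, hv, hP⟩
        exact ⟨v, hv, (T4 v).1.mem_toFinset.1 hP⟩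
    rw [h1, Finset.card_biUnion]
    · have h2 : ∀ v ∈ S, (T4 v).1.toFinset.card = if LCE (uni v) x then 3 else 1 := by
        intro v _
        rw [← hNC v, Nat.card_coe_set_eq, Set.ncard_eq_toFinset_card _ (T4 v).1]
      rw [Finset.sum_congr rfl h2, ← hcard, Finset.card_filter, Finset.mul_sum,
        ← Finset.sum_add_distrib, Finset.card_eq_sum_ones, Finset.mul_sum]
      refine Finset.sum_congr rfl fun v _ => ?_
      by_cases h : LCE (uni v) x
      · rw [if_pos h, if_neg (not_not.2 h)]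
        rfl
      · rw [if_neg h, if_pos h]
        rfl
    · intro v _ v' _ hne
      rw [Function.onFun, Finset.disjoint_left]
      intro P hP hP'
      rw [(T4 v).1.mem_toFinset] at hP
      rw [(T4 v').1.mem_toFinset] at hP'
      obtain ⟨v0, -, h0⟩ := T2 P
      have e1 := uni_inj hSPP (h0 _ hP)
      have e2 := uni_inj hSPP (h0 _ hP')
      exact hne (e1.symm.trans e2)
  obtain ⟨y', hy'⟩ : ∃ u : Lˣ, (u : L) = ι y := ⟨Units.mk0 _ (hι0 _ hyE), rfl⟩
  have : Fact (Nat.Prime 3) := ⟨Nat.prime_three⟩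
  have key := hHERBQ 3 Lˣ (L ≃ₐ[ℚ] L) σ (SU ι S) (SF ι σ S) Pl (psi ι x) e d' hσ3 U1 O1
    (fun u => Iff.rfl) O2 ?_ ?_ ?_ ?_ ?_ ?_ y' (X1 y' _ hy' hyS) ?_
  · obtain ⟨η, -, hη⟩ := key
    refine ⟨(η : L), η.ne_zero, ?_⟩
    rw [← hNval, ← hη, hy']
  · -- multiplicativity
    intro u hu u' hu'
    obtain ⟨a, b, ha, hb, hab⟩ := X2 u hu
    obtain ⟨a', b', ha', hb', hab'⟩ := X2 u' hu'
    funext v
    rw [Pi.add_apply, hpsi ha hb hab, hpsi ha' hb' hab',
      hpsi (u := u * u') (mul_ne_zero ha ha') (mul_ne_zero hb hb') (by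
        rw [Units.val_mul, map_mul, map_mul, ← hab, ← hab']
        ring),
      sy_mul hSTM hSPP hSSL v _ _ _ ha ha' hxE, sy_mul hSTM hSPP hSSL v _ _ _ hb hb' hxE]
    ring
  · -- norms have trivial symbols
    intro u _
    obtain ⟨a, b, ha, hb, hab⟩ := hN u
    funext v
    rw [hpsi ha hb hab]
    obtain ⟨e', he'⟩ := sy_lsym hSTM hSPP hSLC v
    rw [Pi.zero_apply, sub_eq_zero]
    exact hNNS x L ι θ σ hxE hF (uni v) (sy v) e' he' (u : L) a b u.ne_zero ha hb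
      (by rw [← hNval]; exact hab)
  · -- the units are in `E'`
    intro i
    exact X1 (d' i) (d i) (hd' i) (hdS i)
  · -- multiplicative independence
    intro n hn
    have h1 : (fun i => (n i).toNat) = fun i => (-n i).toNat := by
      apply hdind
      apply hι
      have h2 : ∏ i, (d' i) ^ ((n i).toNat) = ∏ i, (d' i) ^ ((-n i).toNat) := by
        rw [← div_eq_one, ← Finset.prod_div_distrib, ← hn]
        refine Finset.prod_congr rfl fun i _ => ?_
        rw [← zpow_natCast, ← zpow_natCast, div_eq_mul_inv, ← zpow_sub]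
        congr 1
        omega
      have h3 := congrArg (fun u : Lˣ => (u : L)) h2
      simp only [Units.coe_prod, Units.val_pow_eq_pow_val, hd'] at h3
      rw [map_prod, map_prod]
      simp only [map_pow]
      exact h3
    funext i
    have h2 : (n i).toNat = (-n i).toNat := congrFun h1 i
    rw [Pi.zero_apply]
    omega
  · -- independence of the symbols
    intro n hn
    apply hdsym n
    intro v
    have h1 := congrFun hn v
    rw [Finset.sum_apply] at h1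
    rw [← Pi.zero_apply (M := fun _ : Pl => ZMod 3) v, ← h1]
    refine Finset.sum_congr rfl fun i _ => ?_
    rw [Pi.smul_apply, smul_eq_mul, hpsi1 (d' i) (d i) (hd0 i) (hd' i)]
  · -- ranks
    change Module.finrank ℤ (Additive (SU ι S)) + 3 * e = 3 * Module.finrank ℤ (Additive (SF ι σ S)) + e
    have h1 : Module.finrank ℤ (Additive (SU ι S)) = 2 + A.card := by
      rw [← hNRK x L ι θ σ hF]
      exact U2
    rw [h1, X3]
    omega
  · -- the symbols of `y`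
    funext v
    rw [hpsi1 y' _ hyE hy', Pi.zero_apply]
    have h1 : ∀ π : PP, tm π.1 y x = 0 := by
      intro π
      have h2 := htm π
      rw [tm] at h2 ⊢
      linear_combination -h2
    cases v with
    | none =>
      change -∑ᶠ π : PP, tm π.1 y x = 0
      rw [finsum_eq_zero_of_forall_eq_zero h1, neg_zero]
    | some π => exact h1 π

end Pool.Agent.PTK


end

section

/-!
# Existence of the systems, `q = 1 (mod 3)`
-/

set_option autoImplicit false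

open NumberField IsDedekindDomain Finset
open scoped nonZeroDivisors Pointwise

namespace Pool.Agent.PTK

open Pool.Agent.Lib_helper18 Pool.Agent.Lib_helper18.Eis Pool.Agent.Lib_helper84.Cub
open Pool.Agent.PT Pool.Agent.PTE Pool.Agent.PT3 Pool.Agent.PTL Pool.Agent.PTN

/-- PTK_PLU: existence of the systems. -/
theorem PLU_thm (hESYT : ESYT) : Stmt_PLU := by
  intro h n m k π p e r f w0 c d v hNF hh hHB δ hδ
  obtain ⟨hv, hspan, hδ'⟩ := hHB
  obtain ⟨s, τ, b, X, Y, hs, hAdN, hV, hind, h3, hLam, hρ⟩ := hδ' δ hδ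
  obtain ⟨P, Q, P', Q', hSys, hSw⟩ := hESYT h n m k π p e r f w0 c (s + 1) b hNF
    (fun i => (hAdN i).1) hV hind h3
  exact ⟨s, τ, b, X, Y, P, Q, P', Q', ⟨hs, hAdN, hSys, hSw, hLam, hρ⟩⟩

end Pool.Agent.PTK


end

section

/-!
# PTK_ZKE: the matrix of the minus part is alternating, and the classes of points are in the kernel
-/

set_option autoImplicit false

open NumberField IsDedekindDomain Finset
open scoped nonZeroDivisors Pointwise

namespace Pool.Agent.PTK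

open Pool.Agent.Lib_helper18 Pool.Agent.Lib_helper18.Eis Pool.Agent.Lib_helper84.Cub
open Pool.Agent.PT Pool.Agent.PTE Pool.Agent.PT3 Pool.Agent.PTL Pool.Agent.PTN

namespace ZKE

/-! ### Admissible classes -/

theorem age_mul (hSTM : STM) (hSPP : SPP) {B x y : Eis} (hB : B ≠ 0) (hx : AGE B x)
    (hy : AGE B y) : AGE B (x * y) where
  ne := mul_ne_zero hx.ne hy.ne
  sym := fun π => by
    have hs := hSTM π.1 π.2.1 (hSPP.2.2.2.1 π).1
    rw [hs.mul _ _ _ hx.ne hy.ne hB, hx.sym π, hy.sym π, add_zero]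
  unr := fun π h1 h2 => by
    rcases π.2.1.dvd_or_dvd h2 with h | h
    · exact hx.unr π h1 h
    · exact hy.unr π h1 h

theorem age_one (hSTM : STM) (hSPP : SPP) {B : Eis} (hB : B ≠ 0) : AGE B 1 where
  ne := one_ne_zero
  sym := fun π => by
    have hs := hSTM π.1 π.2.1 (hSPP.2.2.2.1 π).1
    have h1 : (1 : Eis) ≠ 0 := one_ne_zero
    have h := hs.mul 1 1 _ h1 h1 hB
    rw [one_mul] at h
    have h2 : tm π.1 1 B + 0 = tm π.1 1 B + tm π.1 1 B := by
      rw [add_zero]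
      exact h
    exact (add_left_cancel h2).symm
  unr := fun π _ h2 => π.2.1.not_isUnit (isUnit_of_dvd_one h2)

theorem age_pow (hSTM : STM) (hSPP : SPP) {B x : Eis} (hB : B ≠ 0) (hx : AGE B x) (n : ℕ) :
    AGE B (x ^ n) := by
  induction n with
  | zero =>
    rw [pow_zero]
    exact age_one hSTM hSPP hB
  | succ n ih =>
    rw [pow_succ]
    exact age_mul hSTM hSPP hB ih hx

theorem age_prod (hSTM : STM) (hSPP : SPP) {B : Eis} (hB : B ≠ 0) {s : ℕ} {b : Fin s → Eis}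
    (hb : ∀ i, AGE B (b i)) (c : Fin s → ℕ) (t : Finset (Fin s)) :
    AGE B (∏ i ∈ t, b i ^ c i) := by
  classical
  induction t using Finset.induction_on with
  | empty =>
    rw [Finset.prod_empty]
    exact age_one hSTM hSPP hB
  | insert i t hi ih =>
    rw [Finset.prod_insert hi]
    exact age_mul hSTM hSPP hB (age_pow hSTM hSPP hB (hb i) _) ih

/-! ### Classes of the minus part -/

theorem mcl_mul {x y : Eis} (hx : MCl x) (hy : MCl y) : MCl (x * y) := by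
  obtain ⟨h1, t, ht⟩ := hx
  obtain ⟨h2, u, hu⟩ := hy
  refine ⟨fun h => ?_, t * u, ?_⟩
  · rcases prime_lam.dvd_or_dvd h with h | h
    · exact h1 h
    · exact h2 h
  · rw [map_mul]
    linear_combination (y * conj y) * ht + t ^ 3 * hu

theorem mcl_one : MCl 1 := by
  refine ⟨fun h => prime_lam.not_isUnit (isUnit_of_dvd_one h), 1, ?_⟩
  rw [map_one]
  ring

theorem mcl_pow {x : Eis} (hx : MCl x) (n : ℕ) : MCl (x ^ n) := by
  induction n with
  | zero =>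
    rw [pow_zero]
    exact mcl_one
  | succ n ih =>
    rw [pow_succ]
    exact mcl_mul ih hx

theorem mcl_prod {s : ℕ} {b : Fin s → Eis} (hb : ∀ i, MCl (b i)) (c : Fin s → ℕ)
    (t : Finset (Fin s)) : MCl (∏ i ∈ t, b i ^ c i) := by
  classical
  induction t using Finset.induction_on with
  | empty =>
    rw [Finset.prod_empty]
    exact mcl_one
  | insert i t hi ih =>
    rw [Finset.prod_insert hi]
    exact mcl_mul (mcl_pow (hb i) _) ih

/-! ### Local cubes -/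

theorem lce_mul {π a b : Eis} (ha : LCE π a) (hb : LCE π b) : LCE π (a * b) := by
  intro N
  obtain ⟨r, hr⟩ := ha N
  obtain ⟨s, hs⟩ := hb N
  refine ⟨r * s, ?_⟩
  have h : (r * s) ^ 3 - a * b = r ^ 3 * (s ^ 3 - b) + b * (r ^ 3 - a) := by ring
  rw [h]
  exact dvd_add (Dvd.dvd.mul_left hs _) (Dvd.dvd.mul_left hr _)

theorem lce_one (π : Eis) : LCE π 1 := by
  intro N
  refine ⟨1, ?_⟩
  have h : (1 : Eis) ^ 3 - 1 = 0 := by ring
  rw [h]
  exact dvd_zero _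

theorem lce_pow {π a : Eis} (ha : LCE π a) (n : ℕ) : LCE π (a ^ n) := by
  induction n with
  | zero =>
    rw [pow_zero]
    exact lce_one π
  | succ n ih =>
    rw [pow_succ]
    exact lce_mul ih ha

theorem lce_prod {π : Eis} {s : ℕ} {b : Fin s → Eis} {c : Fin s → ℕ}
    (hb : ∀ i, c i ≠ 0 → LCE π (b i)) (t : Finset (Fin s)) :
    LCE π (∏ i ∈ t, b i ^ c i) := by
  classical
  induction t using Finset.induction_on with
  | empty =>
    rw [Finset.prod_empty]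
    exact lce_one π
  | insert i t hi ih =>
    rw [Finset.prod_insert hi]
    refine lce_mul ?_ ih
    by_cases h : c i = 0
    · rw [h, pow_zero]
      exact lce_one π
    · exact lce_pow (hb i h) _

/-! ### The places over a large prime -/

/-- a place over `q` does not divide a number of small norm -/
theorem not_dvd_small {ϖ : PP} {q : ℕ} (hl : EADM.Below ϖ q) {M : Eis} (hM : M ≠ 0)
    (h : M.norm.natAbs < q) : ¬ ϖ.1 ∣ M := by
  intro h1
  have h2 := (hl.dvd_nat _).1 (h1.trans (DCK.dvd_natAbs_norm M))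
  have h3 : 0 < M.norm.natAbs := Int.natAbs_pos.2 (norm_pos hM).ne'
  have h4 := Nat.le_of_dvd h3 h2
  omega

/-- there is a place over every prime `q > 3` -/
theorem exists_below (hSPP : SPP) {q : ℕ} (hq : q.Prime) (h3 : 3 < q) :
    ∃ ϖ : PP, EADM.Below ϖ q := by
  have hq0 : (q : Eis) ≠ 0 := EADM.natCast_ne hq.ne_zero
  have hu : ¬ IsUnit (q : Eis) := by
    intro h
    have h5 : ((q : ℤ) : Eis) ∣ ((1 : ℤ) : Eis) := by
      rw [Int.cast_natCast, Int.cast_one]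
      exact isUnit_iff_dvd_one.1 h
    have h6 := Int.eq_one_of_dvd_one (by positivity) (intCast_dvd_intCast.1 h5)
    have := hq.one_lt
    omega
  obtain ⟨l, hl, hlq⟩ := WfDvdMonoid.exists_irreducible_factor hu hq0
  have hlp : Prime l := hl.prime
  have hl3 : ¬ l ∣ 3 := by
    intro h
    have hc : Nat.Coprime q 3 := by
      rw [Nat.coprime_primes hq Nat.prime_three]
      omega
    have hc2 : IsCoprime (q : ℤ) (3 : ℤ) := by exact_mod_cast Nat.isCoprime_iff_coprime.2 hc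
    obtain ⟨u, v, huv⟩ := hc2
    have h7 : (u : Eis) * (q : Eis) + (v : Eis) * 3 = 1 := by
      have := congrArg (Int.cast : ℤ → Eis) huv
      push_cast at this
      exact this
    apply hlp.not_isUnit
    apply isUnit_of_dvd_one
    rw [← h7]
    exact dvd_add (Dvd.dvd.mul_left hlq _) (Dvd.dvd.mul_left h _)
  obtain ⟨ϖ, hϖ⟩ := hSPP.1 l hlp hl3
  obtain ⟨p, hp⟩ := EADT.below hSPP ϖ
  have h8 : ϖ.1 ∣ (q : Eis) := hϖ.symm.dvd.trans hlq
  have h9 := (Nat.prime_dvd_prime_iff_eq hp.pr hq).1 ((hp.dvd_nat q).1 h8)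
  rw [h9] at hp
  exact ⟨ϖ, hp⟩

/-- the factor of `B` prime to the place -/
theorem split_off {ϖ : PP} {B : Eis} {E : ℕ} (hB : B ≠ 0) (hV : V ϖ.1 B = E) :
    ∃ N' : Eis, B = N' * ϖ.1 ^ E ∧ ¬ ϖ.1 ∣ N' := by
  have h1 : ϖ.1 ^ E ∣ B := (PT.F3R.pow_dvd_iff ϖ.2.1 hB E).2 hV.ge
  obtain ⟨m, hm⟩ := h1
  refine ⟨m, by rw [hm]; ring, fun h => ?_⟩
  have h2 : ϖ.1 ^ (E + 1) ∣ B := by
    rw [hm, pow_succ]
    exact mul_dvd_mul_left _ h
  have h3 := (PT.F3R.pow_dvd_iff ϖ.2.1 hB (E + 1)).1 h2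
  omega

/-- the point is not degenerate with respect to the solution -/
theorem dne_of {ϖ : PP} {E : ℕ} (hE : E = 1 ∨ E = 2) {B b x X Y p q p' q' : Eis} (hB : B ≠ 0)
    (hV : V ϖ.1 B = E) (hx : ¬ ϖ.1 ∣ x) (hs : SolE b x p q p' q') (hP : PtE B x X Y)
    (hM : ¬ ϖ.1 ∣ p ^ 3 - x * p' ^ 3) : DNE X Y p q p' q' := by
  obtain ⟨N', hN', hN'2⟩ := split_off hB hV
  obtain ⟨c₀, hc, hpt⟩ := hP.eq
  have hM2 : ¬ ϖ.1 ∣ x * q' ^ 3 - q ^ 3 := by
    intro h
    apply hM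
    have h1 : p ^ 3 - x * p' ^ 3 = b * (x * q' ^ 3 - q ^ 3) := by
      linear_combination hs.eq
    rw [h1]
    exact Dvd.dvd.mul_left h _
  have hA := fun i => DCK.dne_aux (π := ϖ) hE (X := X) (Y := Y) (u := p') (v := -p) hN' hN'2 hx
    hc hP.hY hpt (fun h => hM (by
      have h1 : p ^ 3 - x * p' ^ 3 = -((-p) ^ 3 + x * p' ^ 3) := by ring
      rw [h1]
      exact h.neg_right)) i
  have hA' := fun i => DCK.dne_aux (π := ϖ) hE (X := X) (Y := Y) (u := q') (v := -q) hN' hN'2 hx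
    hc hP.hY hpt (fun h => hM2 (by
      have h1 : x * q' ^ 3 - q ^ 3 = (-q) ^ 3 + x * q' ^ 3 := by ring
      rw [h1]
      exact h)) i
  refine ⟨?_, ?_, ?_, ?_⟩
  · intro h
    apply hA 1
    unfold DfE at h
    linear_combination h
  · intro h
    apply hA 2
    unfold DfE at h
    linear_combination h
  · intro h
    apply hA' 1
    unfold DfE at h
    linear_combination h
  · intro h
    apply hA' 2
    unfold DfE at h
    linear_combination h

/-- the conditions on `B` -/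
theorem bge {N E q : ℕ} {B : ℤ} (hSPP : SPP) (hN : 0 < N)
    (hcf : ∀ π : PP, V π.1 (N : Eis) ≤ 2) (hE : E = 1 ∨ E = 2) (hq : q.Prime) (hNq : N < q)
    (hB : B = (N : ℤ) * (q : ℤ) ^ E) : BGE (B : Eis) ∧ (N : Eis) ∣ (B : Eis) ∧
      ∀ ϖ : PP, EADM.Below ϖ q → V ϖ.1 (B : Eis) = E := by
  have hqE : q ^ E ≠ 0 := pow_ne_zero _ hq.ne_zero
  have hm : N * q ^ E ≠ 0 := mul_ne_zero hN.ne' hqE
  have hBe : (B : Eis) = ((N * q ^ E : ℕ) : Eis) := by
    rw [hB]
    push_cast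
    ring
  have hqN : N.factorization q = 0 := by
    apply Nat.factorization_eq_zero_of_not_dvd
    intro h
    have := Nat.le_of_dvd hN h
    omega
  refine ⟨⟨?_, fun ϖ => ?_⟩, ?_, fun ϖ hl => ?_⟩
  · rw [hBe]
    exact EADM.natCast_ne hm
  · obtain ⟨l, hl⟩ := EADT.below hSPP ϖ
    rw [hBe, hl.V_nat hm, Nat.factorization_mul hN.ne' hqE, Finsupp.add_apply]
    by_cases hlq : l = q
    · have h3 : (q ^ E).factorization l = E := by
        rw [hlq, hq.factorization_pow, Finsupp.single_eq_same]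
      rw [h3, hlq, hqN]
      omega
    · have h3 : (q ^ E).factorization l = 0 := by
        apply Nat.factorization_eq_zero_of_not_dvd
        intro h
        exact hlq ((Nat.prime_dvd_prime_iff_eq hl.pr hq).1 (hl.pr.dvd_of_dvd_pow h))
      have h4 := hcf ϖ
      rw [hl.V_nat hN.ne'] at h4
      omega
  · rw [hBe]
    push_cast
    exact Dvd.intro _ rfl
  · rw [hBe, hl.V_nat hm, Nat.factorization_mul hN.ne' hqE, Finsupp.add_apply, hqN,
      hq.factorization_pow, Finsupp.single_eq_same, zero_add]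

/-- the remaining row of an alternating matrix -/
theorem skew {l : ℕ} {M : Matrix (Fin l) (Fin l) (ZMod 3)} (hanti : ∀ i j, M i j = - M j i)
    (c : Fin l → ZMod 3) (j : Fin l) (hcj : c j ≠ 0)
    (hrow : ∀ i, i ≠ j → ∑ k, M i k * c k = 0) : ∑ i, M j i * c i = 0 := by
  have h1 : ∑ i, c i * ∑ k, M i k * c k = c j * ∑ k, M j k * c k := by
    rw [Finset.sum_eq_single j]
    · intro i _ hi
      rw [hrow i hi, mul_zero]
    · intro h
      exact absurd (Finset.mem_univ _) h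
  have h2 : ∑ i, c i * ∑ k, M i k * c k = - ∑ i, c i * ∑ k, M i k * c k := by
    conv_lhs =>
      simp only [Finset.mul_sum]
      rw [Finset.sum_comm]
    rw [← Finset.sum_neg_distrib]
    apply Finset.sum_congr rfl
    intro i _
    rw [Finset.mul_sum, ← Finset.sum_neg_distrib]
    apply Finset.sum_congr rfl
    intro k _
    rw [hanti k i]
    ring
  have h3 : ∑ i, c i * ∑ k, M i k * c k = 0 := by
    generalize ∑ i, c i * ∑ k, M i k * c k = z at h2
    revert h2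
    revert z
    decide
  rw [h1] at h3
  have : Fact (Nat.Prime 3) := ⟨Nat.prime_three⟩
  exact (mul_eq_zero.1 h3).resolve_left hcj

theorem cast_ne3 {n : ℕ} (h : n ≤ 2) (h0 : n ≠ 0) : (n : ZMod 3) ≠ 0 := by
  have h1 : n = 1 ∨ n = 2 := by omega
  rcases h1 with rfl | rfl <;> decide

end ZKE

open _root_.Pool.Agent.PTK.ZKE in
/-- PTK_ZKE. -/
theorem ZKE_thm (hCHE : Stmt_CHE) (hTLE : Stmt_TLE) (hTPE : Stmt_TPE) (hSTM : STM)
    (hSPP : SPP) : Stmt_ZKE := by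
  classical
  intro l N z P Q P' Q' hS hN hcf hunr
  have hz0 : ∀ i, z i ≠ 0 := by
    intro i h0
    apply hS.ind (fun k => if k = i then 1 else 0) ⟨i, by simp⟩
    refine ⟨0, ?_⟩
    rw [Finset.prod_eq_single i]
    · simp [h0]
    · intro k _ hk
      simp [hk]
    · intro h
      exact absurd (Finset.mem_univ _) h
  -- the solutions
  have hch : ∀ (j : Fin l) (d : Fin l → Fin 3), ∃ M : ℕ, (∃ i, (d i : ℕ) ≠ 0) →
      ∃ p q p' q' : Eis, SolE (z j) (∏ i, z i ^ (d i : ℕ)) p q p' q' ∧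
        (p ^ 3 - (∏ i, z i ^ (d i : ℕ)) * p' ^ 3).norm.natAbs ≤ M ∧ ∀ B : ℤ, BGE B →
        (∀ i, AGE B (z i)) →
        (LCE lam (z j) ∨ LCE lam (B : Eis) ∨ ∀ i, (d i : ℕ) ≠ 0 → LCE lam (z i)) →
        OZE B (z j) (∏ i, z i ^ (d i : ℕ)) p q p' q' =
          ∑ i, MaZ z P Q P' Q' B j i * ((d i : ℕ) : ZMod 3) := by
    intro j d
    by_cases hd : ∃ i, (d i : ℕ) ≠ 0
    · obtain ⟨p, q, p', q', h1, h2⟩ := hCHE l z P Q P' Q' hS j (fun i => (d i : ℕ))
        (fun i => by have := (d i).isLt; show (d i : ℕ) ≤ 2; omega) hd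
      exact ⟨_, fun _ => ⟨p, q, p', q', h1, le_rfl, h2⟩⟩
    · exact ⟨0, fun h => absurd h hd⟩
  choose M hM using hch
  refine ⟨N + 3 + ∑ j, ∑ d, M j d, ?_⟩
  intro E q B hE hq hqN hB hsym hTy
  have hNq : N < q := by omega
  have h3q : 3 < q := by omega
  obtain ⟨hBG, hNB, hVB⟩ := bge hSPP hN hcf hE hq hNq hB
  have hA : ∀ i, AGE (B : Eis) (z i) := fun i =>
    ⟨hz0 i, fun π => hsym π i, fun π h => hunr π i fun h' => h (h'.trans hNB)⟩
  obtain ⟨ϖ, hϖ⟩ := exists_below hSPP hq h3q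
  have hϖN : ¬ ϖ.1 ∣ (N : Eis) := by
    intro h
    have h1 := Nat.le_of_dvd hN ((hϖ.dvd_nat N).1 h)
    omega
  -- antisymmetry
  have hanti : ∀ i j, MaZ z P Q P' Q' B i j = - MaZ z P Q P' Q' B j i := by
    intro i j
    by_cases hij : i = j
    · subst hij
      simp [MaZ]
    · have hji : j ≠ i := fun h => hij h.symm
      obtain ⟨e1, e2, e3, e4⟩ := hS.sw j i hji
      have h := hTLE B (z j) (z i) (P j i) (Q j i) (P' j i) (Q' j i) hBG (hA j) (hA i) (hS.mc j)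
        (hS.mc i) (hS.sol j i hji) (by
          rcases hTy with h | h
          · exact Or.inr (Or.inr h)
          · rcases h j i hji with h | h
            · exact Or.inl h
            · exact Or.inr (Or.inl h))
      unfold MaZ
      rw [if_neg hji, if_neg hij, e1, e2, e3, e4]
      exact eq_neg_of_add_eq_zero_right h
  refine ⟨hanti, ?_⟩
  intro c hc2 hc0 X Y hP hG hW
  have hprod0 : AGE (B : Eis) (∏ i, z i ^ c i) := age_prod hSTM hSPP hBG.ne hA c Finset.univ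
  have hmx : MCl (∏ i, z i ^ c i) := mcl_prod hS.mc c Finset.univ
  have hϖx : ¬ ϖ.1 ∣ ∏ i, z i ^ c i := by
    intro h
    obtain ⟨i, -, hi⟩ := (ϖ.2.1.dvd_finsetProd_iff _).1 h
    exact hunr ϖ i hϖN (ϖ.2.1.dvd_of_dvd_pow hi)
  -- the value of a row
  have row : ∀ j, (LCE lam (z j) ∨ LCE lam (B : Eis) ∨ ∀ i, c i ≠ 0 → LCE lam (z i)) →
      (LCE lam (z j) ∨ (LCE lam (∏ i, z i ^ c i) ∧ GoodPt B (∏ i, z i ^ c i) X Y) ∨
        (¬ LCE lam (z j) ∧ ¬ LCE lam (∏ i, z i ^ c i) ∧ LCE lam (B : Eis) ∧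
          GoodW (∏ i, z i ^ c i) X Y)) →
      ∑ i, MaZ z P Q P' Q' B j i * (c i : ZMod 3) = 0 := by
    intro j h1 h2
    obtain ⟨d, hd⟩ : ∃ d : Fin l → Fin 3, ∀ i, (d i : ℕ) = c i :=
      ⟨fun i => ⟨c i, by have := hc2 i; omega⟩, fun i => rfl⟩
    have hd' : (fun i => (d i : ℕ)) = c := funext hd
    have hpr : ∏ i, z i ^ (d i : ℕ) = ∏ i, z i ^ c i :=
      Finset.prod_congr rfl fun i _ => by rw [hd i]
    obtain ⟨p₁, q₁, p₁', q₁', k1, k2, k3⟩ := hM j d (by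
      obtain ⟨i, hi⟩ := hc0
      exact ⟨i, by rw [hd i]; exact hi⟩)
    rw [hpr] at k1 k2
    have k3' := k3 B hBG hA (by
      rcases h1 with h | h | h
      · exact Or.inl h
      · exact Or.inr (Or.inl h)
      · refine Or.inr (Or.inr fun i hi => h i ?_)
        rw [← hd i]
        exact hi)
    rw [hpr] at k3'
    have hsum : ∑ i, MaZ z P Q P' Q' B j i * ((d i : ℕ) : ZMod 3) =
        ∑ i, MaZ z P Q P' Q' B j i * (c i : ZMod 3) :=
      Finset.sum_congr rfl fun i _ => by rw [hd i]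
    rw [hsum] at k3'
    rw [← k3']
    have hle : M j d ≤ ∑ j, ∑ d, M j d :=
      (Finset.single_le_sum (f := fun d => M j d) (fun _ _ => Nat.zero_le _)
        (Finset.mem_univ d)).trans (Finset.single_le_sum (f := fun j => ∑ d, M j d)
        (fun _ _ => Nat.zero_le _) (Finset.mem_univ j))
    have hMd : ¬ ϖ.1 ∣ p₁ ^ 3 - (∏ i, z i ^ c i) * p₁' ^ 3 :=
      not_dvd_small hϖ k1.n2 (by omega)
    exact hTPE B (z j) (∏ i, z i ^ c i) p₁ q₁ p₁' q₁' X Y hBG (hA j) hprod0 (hS.mc j) hmx k1 hP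
      (dne_of hE hBG.ne (hVB ϖ hϖ) hϖx k1 hP hMd) h2
  have hGood : ∀ j, ¬ LCE lam (z j) → GoodPt B (∏ i, z i ^ c i) X Y := by
    intro j hj
    rcases hG with h | h
    · exact absurd (h j) hj
    · exact h
  have rowA : ∀ j, LCE lam (z j) → ∑ i, MaZ z P Q P' Q' B j i * (c i : ZMod 3) = 0 :=
    fun j hj => row j (Or.inl hj) (Or.inl hj)
  intro j
  by_cases hj : LCE lam (z j)
  · exact rowA j hj
  by_cases hBl : LCE lam (B : Eis)
  · refine row j (Or.inr (Or.inl hBl)) ?_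
    by_cases hx : LCE lam (∏ i, z i ^ c i)
    · exact Or.inr (Or.inl ⟨hx, hGood j hj⟩)
    · exact Or.inr (Or.inr ⟨hj, hx, hBl, hW hBl⟩)
  · have hoth : ∀ i, i ≠ j → LCE lam (z i) := by
      intro i hi
      rcases hTy with h | h
      · exact absurd h hBl
      · rcases h i j hi with h | h
        · exact h
        · exact absurd h hj
    by_cases hcj : c j = 0
    · have h1 : ∀ i, c i ≠ 0 → LCE lam (z i) := by
        intro i hi
        apply hoth
        rintro rfl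
        exact hi hcj
      exact row j (Or.inr (Or.inr h1))
        (Or.inr (Or.inl ⟨lce_prod h1 Finset.univ, hGood j hj⟩))
    · exact skew hanti (fun i => (c i : ZMod 3)) j (cast_ne3 (hc2 j) hcj)
        fun i hi => rowA i (hoth i hi)

end Pool.Agent.PTK


end
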