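import Mathlib.FieldTheory.Finiteness
import Mathlib.LinearAlgebra.Dual.Lemmas
import Mathlib.LinearAlgebra.Matrix.DotProduct
import Mathlib.LinearAlgebra.Matrix.Dual
import Mathlib.LinearAlgebra.Matrix.ToLin
import Pool.Agent.PTDM.C24
import Pool.Agent.PTDM.C28
import Pool.Agent.PTDM.C29
import Pool.Agent.PTDM.C41
import Pool.Agent.PTDM.C42
import Pool.Agent.PTKW.C01
import Pool.Agent.PTKW.C02

/-! Parts: PTKX.ESB, PTKX.EKN, PTKX.ESR, PTKX.AV1, PTKX.KUP, PTKX.AM1, PTKX.FL1, PTKX.HN2, PTKX.LAE, PTKX.LFE, PTKX.MSP, PTKX.NFX, PTKX.UPS, PTKX.VDIM, PTKX.ZBA -/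

section

/-!
# PTK_ESB: the moments of the corank
-/

set_option autoImplicit false

namespace Pool.Agent.PTK

open Pool.Agent.PTL

namespace ESB

theorem lin (s : ℕ) (a b : ℝ) (F G : ℕ → ℝ) :
    Esk s (fun c => a * F c + b * G c) = a * Esk s F + b * Esk s G := by
  unfold Esk
  haveI := Fintype.ofFinite {M : Matrix (Fin s) (Fin s) (ZMod 3) // M.transpose = -M}
  rw [finsum_eq_sum_of_fintype, finsum_eq_sum_of_fintype, finsum_eq_sum_of_fintype,
    Finset.sum_add_distrib, ← Finset.mul_sum, ← Finset.mul_sum]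
  ring

theorem zero (F : ℕ → ℝ) : Esk 0 F = F 0 := by
  unfold Esk
  haveI := Fintype.ofFinite {M : Matrix (Fin 0) (Fin 0) (ZMod 3) // M.transpose = -M}
  haveI : Unique {M : Matrix (Fin 0) (Fin 0) (ZMod 3) // M.transpose = -M} :=
    ⟨⟨⟨0, by simp⟩⟩, fun M => Subtype.ext (by ext i; exact i.elim0)⟩
  rw [finsum_eq_sum_of_fintype, Nat.card_unique, Nat.cast_one, div_one, Fintype.sum_unique,
    Nat.zero_sub]

theorem one (s : ℕ) : Esk s (fun _ => (1 : ℝ)) = 1 := by
  unfold Esk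
  haveI := Fintype.ofFinite {M : Matrix (Fin s) (Fin s) (ZMod 3) // M.transpose = -M}
  haveI : Nonempty {M : Matrix (Fin s) (Fin s) (ZMod 3) // M.transpose = -M} :=
    ⟨⟨0, by simp⟩⟩
  rw [finsum_eq_sum_of_fintype]
  simp only [Finset.sum_const, Finset.card_univ, Nat.card_eq_fintype_card, nsmul_eq_mul, mul_one]
  have : (Fintype.card {M : Matrix (Fin s) (Fin s) (ZMod 3) // M.transpose = -M} : ℝ) ≠ 0 := by
    exact_mod_cast Fintype.card_ne_zero
  exact div_self this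

theorem MoB_succ (k : ℕ) : MoB (k + 1) = MoB k * (1 + 3 ^ (k + 1)) := by
  unfold MoB
  rw [Finset.prod_range_succ]

theorem MoB_zero : MoB 0 = 1 := by
  unfold MoB
  rw [Finset.range_zero, Finset.prod_empty]

theorem one_le (k : ℕ) : 1 ≤ MoB k := by
  induction k with
  | zero => rw [MoB_zero]
  | succ k ih =>
    rw [MoB_succ]
    have h : (1 : ℝ) ≤ 1 + 3 ^ (k + 1) := by
      have : (0 : ℝ) < 3 ^ (k + 1) := by positivity
      linarith
    exact one_le_mul_of_one_le_of_one_le ih h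

theorem step (hESR : Stmt_ESR) (s k : ℕ) :
    Esk (s + 1) (fun c => (3 : ℝ) ^ ((k + 1) * c)) =
      1 / 3 ^ (k + 1) * Esk s (fun c => (3 : ℝ) ^ ((k + 1) * c)) +
        (3 ^ (k + 1) - 1 / 3 ^ (k + 1)) * Esk s (fun c => (3 : ℝ) ^ (k * c)) := by
  rw [hESR, ← lin]
  congr 1
  funext c
  have h0 : (3 : ℝ) ^ (k + 1) ≠ 0 := by positivity
  rcases c with _ | c
  · simp
  · have h1 : (3 : ℝ) ^ c ≠ 0 := by positivity
    have h2 : (3 : ℝ) ^ k ≠ 0 := by positivity
    have e1 : (3 : ℝ) ^ ((k + 1) * (c + 1 - 1)) = 3 ^ (k * c) * 3 ^ c := by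
      rw [Nat.add_sub_cancel, ← pow_add]
      congr 1
      ring
    have e2 : (3 : ℝ) ^ ((k + 1) * (c + 1 + 1)) =
        3 ^ (k * c) * 3 ^ c * (3 ^ k) ^ 2 * 9 := by
      rw [show (9 : ℝ) = 3 ^ 2 by norm_num, ← pow_mul, ← pow_add, ← pow_add, ← pow_add]
      congr 1
      ring
    have e3 : (3 : ℝ) ^ ((k + 1) * (c + 1)) = 3 ^ (k * c) * 3 ^ c * 3 ^ k * 3 := by
      rw [← pow_add, ← pow_add, ← pow_succ]
      congr 1
      ring
    have e4 : (3 : ℝ) ^ (k * (c + 1)) = 3 ^ (k * c) * 3 ^ k := by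
      rw [← pow_add]
      congr 1
    have e5 : (3 : ℝ) ^ (c + 1) = 3 ^ c * 3 := pow_succ _ _
    have e6 : (3 : ℝ) ^ (k + 1) = 3 ^ k * 3 := pow_succ _ _
    rw [e1, e2, e3, e4, e5, e6]
    field_simp
    ring

end ESB

open _root_.Pool.Agent.PTK.ESB in
theorem ESB_thm (hESR : Stmt_ESR) : Stmt_ESB := by
  have key : ∀ k s : ℕ, Esk s (fun c => (3 : ℝ) ^ (k * c)) ≤ MoB k := by
    intro k
    induction k with
    | zero =>
      intro s
      have e : (fun c : ℕ => (3 : ℝ) ^ (0 * c)) = fun _ => (1 : ℝ) := by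
        funext c
        rw [zero_mul, pow_zero]
      rw [e, one, MoB_zero]
    | succ k ihk =>
      intro s
      induction s with
      | zero =>
        rw [zero, mul_zero, pow_zero]
        exact one_le _
      | succ s ihs =>
        rw [step hESR]
        have h1 : (1 : ℝ) ≤ 3 ^ (k + 1) := one_le_pow₀ (by norm_num)
        have h2 : (0 : ℝ) ≤ 1 / 3 ^ (k + 1) := by positivity
        have h3 : (1 : ℝ) / 3 ^ (k + 1) ≤ 1 := by
          rw [div_le_one (by positivity)]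
          exact h1
        have h4 := mul_le_mul_of_nonneg_left ihs h2
        have h5 := mul_le_mul_of_nonneg_left (ihk s)
          (show (0 : ℝ) ≤ 3 ^ (k + 1) - 1 / 3 ^ (k + 1) by linarith)
        refine (add_le_add h4 h5).trans (le_of_eq ?_)
        rw [MoB_succ]
        have h6 : (3 : ℝ) ^ (k + 1) ≠ 0 := by positivity
        field_simp
        ring
  intro s k
  exact key k s

end Pool.Agent.PTK


end

section

/-!
# PTK_EKN: the numbers
-/

set_option autoImplicit false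

namespace Pool.Agent.PTK

open Pool.Agent.PTL Pool.Agent.PTN

namespace EKN

theorem mono (s : ℕ) (F G : ℕ → ℝ) (h : ∀ c, c % 2 = s % 2 → F c ≤ G c) :
    Esk s F ≤ Esk s G := by
  rw [AL.Esk_eq, AL.Esk_eq]
  exact div_le_div_of_nonneg_right
    (Finset.sum_le_sum fun v _ => h _ (AL.cr_parity v)) (Nat.cast_nonneg _)

theorem smul (s : ℕ) (a : ℝ) (F : ℕ → ℝ) : Esk s (fun c => a * F c) = a * Esk s F := by
  have h := ESB.lin s a 0 F F
  simpa using h

theorem add (s : ℕ) (F G : ℕ → ℝ) : Esk s (fun c => F c + G c) = Esk s F + Esk s G := by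
  have h := ESB.lin s 1 1 F G
  simpa using h

theorem const (s : ℕ) (a : ℝ) : Esk s (fun _ => a) = a := by
  have h := smul s a (fun _ => 1)
  rw [ESB.one] at h
  simpa using h

theorem nonneg (s : ℕ) (F : ℕ → ℝ) (h : ∀ c, 0 ≤ F c) : 0 ≤ Esk s F := by
  have h1 := mono s (fun _ => 0) F fun c _ => h c
  rwa [const] at h1

theorem prod (v s : ℕ) (a b : ℕ → ℝ) :
    Esk v (fun x => Esk s (fun y => a x * b y)) = Esk v a * Esk s b := by
  have e : (fun x => Esk s (fun y => a x * b y)) = fun x => Esk s b * a x := by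
    funext x
    rw [smul, mul_comm]
  rw [e, smul, mul_comm]

theorem dmono (v s : ℕ) (F : ℕ → ℝ) (G : ℕ → ℕ → ℝ)
    (h : ∀ x y, x % 2 = v % 2 → y % 2 = s % 2 → G x y ≤ F (x + y)) :
    Esk v (fun x => Esk s (fun y => G x y)) ≤ EsD v s F :=
  mono v _ _ fun x hx => mono s _ _ fun y hy => h x y hx hy

theorem dmono' (v s : ℕ) (F : ℕ → ℝ) (a b : ℕ → ℝ)
    (h : ∀ x y, x % 2 = v % 2 → y % 2 = s % 2 → a x * b y ≤ F (x + y)) :
    Esk v a * Esk s b ≤ EsD v s F := by
  rw [← prod]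
  exact dmono v s F (fun x y => a x * b y) h

theorem compl (s t : ℕ) : Esk s (fun c => if c < t then 1 else 0) =
    1 - Esk s (fun c => if t ≤ c then 1 else 0) := by
  have h := add s (fun c => if c < t then 1 else 0) (fun c => if t ≤ c then 1 else 0)
  have e : (fun c : ℕ => (if c < t then (1 : ℝ) else 0) + (if t ≤ c then 1 else 0)) =
      fun _ => (1 : ℝ) := by
    funext c
    by_cases hc : c < t
    · rw [if_pos hc, if_neg (by omega), add_zero]
    · rw [if_neg hc, if_pos (by omega), zero_add]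
  rw [e, ESB.one] at h
  linarith

theorem lt_one {s : ℕ} (hs : Even s) : 5 / 8 ≤ Esk s (fun c => if c < 1 then 1 else 0) := by
  rw [compl]
  have h := AL.Esk_pos hs
  linarith

theorem lt_two {s : ℕ} (hs : Odd s) : 23 / 24 ≤ Esk s (fun c => if c < 2 then 1 else 0) := by
  rw [compl]
  have h := AL.Esk_two hs
  linarith

theorem swap (v s : ℕ) (F : ℕ → ℝ) (a b : ℕ → ℝ)
    (h : ∀ x y, x % 2 = v % 2 → y % 2 = s % 2 → a x * b y ≤ F (x + y)) (p q : ℝ) (hp : 0 ≤ p)
    (hq : 0 ≤ q) (ha : p ≤ Esk v a) (hb : q ≤ Esk s b) : p * q ≤ EsD v s F :=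
  (mul_le_mul ha hb hq (hp.trans ha)).trans (dmono' v s F a b h)

theorem ind_mul (x y a b t : ℕ) (h : x < a → y < b → x + y < t) :
    (if x < a then (1 : ℝ) else 0) * (if y < b then 1 else 0) ≤
      (if x + y < t then 1 else 0) := by
  by_cases hx : x < a
  · by_cases hy : y < b
    · rw [if_pos hx, if_pos hy, if_pos (h hx hy), one_mul]
    · rw [if_neg hy, mul_zero]
      split_ifs <;> norm_num
  · rw [if_neg hx, zero_mul]
    split_ifs <;> norm_num

theorem odd_sum (v s : ℕ) (h : Odd (v + s)) :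
    115 / 192 ≤ EsD v s (fun x => if x < 2 then 1 else 0) := by
  rcases Nat.even_or_odd v with hv | hv
  · have hs : Odd s := by
      rw [Nat.odd_add] at h
      by_contra hc
      rw [Nat.not_odd_iff_even] at hc
      exact Nat.not_odd_iff_even.2 hv (h.2 hc)
    refine le_trans (le_of_eq (by norm_num)) (swap v s _ (fun x => if x < 1 then 1 else 0)
      (fun y => if y < 2 then 1 else 0) (fun x y _ _ => ind_mul x y 1 2 2 (by omega)) (5 / 8)
      (23 / 24) (by norm_num) (by norm_num) (lt_one hv) (lt_two hs))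
  · have hs : Even s := (Nat.odd_add.1 h).1 hv
    refine le_trans (le_of_eq (by norm_num)) (swap v s _ (fun x => if x < 2 then 1 else 0)
      (fun y => if y < 1 then 1 else 0) (fun x y _ _ => ind_mul x y 2 1 2 (by omega)) (23 / 24)
      (5 / 8) (by norm_num) (by norm_num) (lt_two hv) (lt_one hs))

theorem big (hESB : Stmt_ESB) (s : ℕ) :
    Esk s (fun c => if 4 ≤ c then 1 else 0) ≤ 11 / 5000 := by
  have h1 := mono s (fun c => if 4 ≤ c then 1 else 0)
    (fun c => 1 / 3 ^ 16 * (3 : ℝ) ^ (4 * c)) fun c _ => by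
      show (if 4 ≤ c then (1 : ℝ) else 0) ≤ 1 / 3 ^ 16 * (3 : ℝ) ^ (4 * c)
      by_cases hc : 4 ≤ c
      · rw [if_pos hc]
        have h2 : (3 : ℝ) ^ 16 ≤ 3 ^ (4 * c) := pow_le_pow_right₀ (by norm_num) (by omega)
        rw [one_div, ← div_eq_inv_mul, le_div_iff₀ (by positivity), one_mul]
        exact h2
      · rw [if_neg hc]
        positivity
  rw [smul] at h1
  have h2 := hESB s 4
  have h3 : MoB 4 = 91840 := by
    rw [ESB.MoB_succ, ESB.MoB_succ, ESB.MoB_succ, ESB.MoB_succ, ESB.MoB_zero]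
    norm_num
  rw [h3] at h2
  have h4 : (1 : ℝ) / 3 ^ 16 * Esk s (fun c => (3 : ℝ) ^ (4 * c)) ≤ 1 / 3 ^ 16 * 91840 :=
    mul_le_mul_of_nonneg_left h2 (by positivity)
  have h5 : (1 : ℝ) / 3 ^ 16 * 91840 ≤ 11 / 5000 := by norm_num
  linarith

theorem even_even (hESB : Stmt_ESB) (v s : ℕ) (hv : Even v) (hs : Even s) :
    17 / 20 ≤ EsD v s (fun x => if x < 3 then 1 else 0) := by
  have h1 := dmono v s (fun x => if x < 3 then 1 else 0)
    (fun x y => (1 + (-1) * (if 4 ≤ x then (1 : ℝ) else 0)) +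
      ((-1) * (if 4 ≤ y then (1 : ℝ) else 0) +
        (-1) * ((if 1 ≤ x then (1 : ℝ) else 0) * (if 1 ≤ y then (1 : ℝ) else 0))))
    fun x y hx hy => by
      show (1 + (-1) * (if 4 ≤ x then (1 : ℝ) else 0)) +
        ((-1) * (if 4 ≤ y then (1 : ℝ) else 0) +
          (-1) * ((if 1 ≤ x then (1 : ℝ) else 0) * (if 1 ≤ y then (1 : ℝ) else 0))) ≤
        (if x + y < 3 then 1 else 0)
      rw [Nat.even_iff] at hv hs
      by_cases h3 : x + y < 3
      · rw [if_pos h3]
        have e1 : (0 : ℝ) ≤ if 4 ≤ x then 1 else 0 := by split_ifs <;> norm_num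
        have e2 : (0 : ℝ) ≤ if 4 ≤ y then 1 else 0 := by split_ifs <;> norm_num
        have e3 : (0 : ℝ) ≤ (if 1 ≤ x then (1 : ℝ) else 0) * (if 1 ≤ y then (1 : ℝ) else 0) := by
          split_ifs <;> norm_num
        linarith
      · rw [if_neg h3]
        by_cases hx4 : 4 ≤ x
        · rw [if_pos hx4]
          have e2 : (0 : ℝ) ≤ if 4 ≤ y then 1 else 0 := by split_ifs <;> norm_num
          have e3 : (0 : ℝ) ≤
              (if 1 ≤ x then (1 : ℝ) else 0) * (if 1 ≤ y then (1 : ℝ) else 0) := by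
            split_ifs <;> norm_num
          linarith
        · by_cases hy4 : 4 ≤ y
          · rw [if_pos hy4, if_neg hx4]
            have e3 : (0 : ℝ) ≤
                (if 1 ≤ x then (1 : ℝ) else 0) * (if 1 ≤ y then (1 : ℝ) else 0) := by
              split_ifs <;> norm_num
            linarith
          · rw [if_neg hx4, if_neg hy4, if_pos (by omega), if_pos (by omega)]
            norm_num
  have e : Esk v (fun x => Esk s (fun y => (1 + (-1) * (if 4 ≤ x then (1 : ℝ) else 0)) +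
      ((-1) * (if 4 ≤ y then (1 : ℝ) else 0) +
        (-1) * ((if 1 ≤ x then (1 : ℝ) else 0) * (if 1 ≤ y then (1 : ℝ) else 0))))) =
      1 - Esk v (fun x => if 4 ≤ x then 1 else 0) - Esk s (fun y => if 4 ≤ y then 1 else 0) -
        Esk v (fun x => if 1 ≤ x then 1 else 0) * Esk s (fun y => if 1 ≤ y then 1 else 0) := by
    have e1 : (fun x => Esk s (fun y => (1 + (-1) * (if 4 ≤ x then (1 : ℝ) else 0)) +
      ((-1) * (if 4 ≤ y then (1 : ℝ) else 0) +
        (-1) * ((if 1 ≤ x then (1 : ℝ) else 0) * (if 1 ≤ y then (1 : ℝ) else 0))))) =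
        fun x => (1 + (-1) * (if 4 ≤ x then (1 : ℝ) else 0)) +
          ((-1) * Esk s (fun y => if 4 ≤ y then 1 else 0) +
            (-1) * (Esk s (fun y => if 1 ≤ y then 1 else 0) *
              (if 1 ≤ x then (1 : ℝ) else 0))) := by
      funext x
      rw [add, const, add, smul, smul, smul, mul_comm (if 1 ≤ x then (1 : ℝ) else 0)]
    rw [e1, add, add, const, smul, add, const, smul, smul]
    ring
  rw [e] at h1
  have h2 := big hESB v
  have h3 := big hESB s
  have h4 := AL.Esk_pos hv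
  have h5 := AL.Esk_pos hs
  have h6 : 0 ≤ Esk s (fun y => if 1 ≤ y then 1 else 0) :=
    nonneg s _ fun c => by split_ifs <;> norm_num
  have h7 := mul_le_mul h4 h5 h6 (by norm_num)
  refine le_trans ?_ h1
  linarith

theorem odd_odd (v s : ℕ) (hv : Odd v) (hs : Odd s) :
    17 / 20 ≤ EsD v s (fun x => if x < 3 then 1 else 0) := by
  refine le_trans (by norm_num) (swap v s _ (fun x => if x < 2 then 1 else 0)
      (fun y => if y < 2 then 1 else 0) (fun x y _ _ => ind_mul x y 2 2 3 (by omega)) (23 / 24)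
      (23 / 24) (by norm_num) (by norm_num) (lt_two hv) (lt_two hs))

theorem even_sum (hESB : Stmt_ESB) (v s : ℕ) (h : Even (v + s)) :
    17 / 20 ≤ EsD v s (fun x => if x < 3 then 1 else 0) := by
  rcases Nat.even_or_odd v with hv | hv
  · exact even_even hESB v s hv ((Nat.even_add.1 h).1 hv)
  · refine odd_odd v s hv ?_
    rw [Nat.even_add] at h
    by_contra hc
    rw [Nat.not_odd_iff_even] at hc
    exact Nat.not_even_iff_odd.2 hv (h.2 hc)

theorem zero_left (s : ℕ) (F : ℕ → ℝ) : EsD 0 s F = Esk s F := by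
  unfold EsD
  rw [ESB.zero]
  congr 1
  funext y
  rw [zero_add]

end EKN

open _root_.Pool.Agent.PTK.EKN in
theorem EKN_thm (hLAM : Stmt_LAM) (hESB : Stmt_ESB) (_hLAW : Stmt_LAW) : Stmt_EKN := by
  refine ⟨?_, ?_, odd_sum, ?_, even_sum hESB, ?_, zero_left, ?_, ?_, ?_⟩
  · intro v s
    unfold EsD
    have e : (fun x : ℕ => Esk s (fun y => ((x + y : ℕ) : ℝ))) =
        fun x : ℕ => (x : ℝ) + Esk s (fun y => (y : ℝ)) := by
      funext x
      have e1 : (fun y : ℕ => ((x + y : ℕ) : ℝ)) = fun y : ℕ => (x : ℝ) + (y : ℝ) := by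
        funext y
        push_cast
        rfl
      rw [e1, add, const]
    rw [e, add, const]
    have h1 := hLAM.1 v
    have h2 := hLAM.1 s
    linarith
  · intro v s k
    unfold EsD
    have e : (fun x : ℕ => Esk s (fun y => (3 : ℝ) ^ (k * (x + y)))) =
        fun x : ℕ => Esk s (fun y => (3 : ℝ) ^ (k * x) * (3 : ℝ) ^ (k * y)) := by
      funext x
      congr 1
      funext y
      rw [mul_add, pow_add]
    rw [e, prod v s (fun x => (3 : ℝ) ^ (k * x)) (fun y => (3 : ℝ) ^ (k * y)), sq]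
    have h0 := ESB.one_le k
    exact mul_le_mul (hESB v k) (hESB s k) (nonneg s _ fun c => by positivity) (by linarith)
  · intro v s
    rcases Nat.even_or_odd (v + s) with h | h
    · exact le_trans (by norm_num) (even_sum hESB v s h)
    · refine (odd_sum v s h).trans (dmono v s (fun x => if x < 3 then 1 else 0)
        (fun x y => if x + y < 2 then 1 else 0) fun x y _ _ => ?_)
      show (if x + y < 2 then (1 : ℝ) else 0) ≤ if x + y < 3 then 1 else 0
      by_cases hc : x + y < 2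
      · rw [if_pos hc, if_pos (by omega)]
      · rw [if_neg hc]
        split_ifs <;> norm_num
  · intro v s hv hs
    refine le_trans (le_of_eq (by norm_num)) (swap v s _ (fun x => if x < 1 then 1 else 0)
      (fun y => if y < 1 then 1 else 0) (fun x y _ _ => ind_mul x y 1 1 1 (by omega)) (5 / 8)
      (5 / 8) (by norm_num) (by norm_num) (lt_one hv) (lt_one hs))
  · intro s hs
    rw [zero_left]
    exact lt_one hs
  · intro s hs
    rw [zero_left]
    exact lt_two hs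
  · intro v s t
    unfold EsD
    refine nonneg v _ fun x => nonneg s _ fun y => ?_
    show (0 : ℝ) ≤ if x + y < t then 1 else 0
    split_ifs <;> norm_num

end Pool.Agent.PTK


end

section

/-!
# ESR: the recursion for the corank of a random skew-symmetric matrix
-/

set_option autoImplicit false

namespace Pool.Agent.PTK

open Pool.Agent.PTL

namespace ESR

open Matrix

instance : Fact (Nat.Prime 3) := ⟨Nat.prime_three⟩

variable {s : ℕ}

/-- the large matrix -/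
def big (A : Matrix (Fin s) (Fin s) (ZMod 3)) (x : Fin s → ZMod 3) :
    Matrix (Fin (s + 1)) (Fin (s + 1)) (ZMod 3) :=
  Matrix.of (Fin.cons (Fin.cons 0 (-x)) fun i => Fin.cons (x i) (A i))

theorem big_mulVec (A : Matrix (Fin s) (Fin s) (ZMod 3)) (x y : Fin s → ZMod 3) (t : ZMod 3) :
    (big A x).mulVec (Fin.cons t y) = Fin.cons (-(x ⬝ᵥ y)) fun i => x i * t + A.mulVec y i := by
  funext i
  refine Fin.cases ?_ (fun i => ?_) i
  · simp [big, Matrix.mulVec, dotProduct, Fin.sum_univ_succ]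
  · simp [big, Matrix.mulVec, dotProduct, Fin.sum_univ_succ]

theorem big_ker (A : Matrix (Fin s) (Fin s) (ZMod 3)) (x y : Fin s → ZMod 3) (t : ZMod 3) :
    (big A x).mulVec (Fin.cons t y) = 0 ↔ x ⬝ᵥ y = 0 ∧ t • x + A.mulVec y = 0 := by
  rw [big_mulVec]
  constructor
  · intro h
    refine ⟨?_, ?_⟩
    · have h1 := congrFun h 0
      simpa using h1
    · funext i
      have h1 := congrFun h i.succ
      simp only [Fin.cons_succ, Pi.zero_apply] at h1
      simp only [Pi.add_apply, Pi.smul_apply, smul_eq_mul, Pi.zero_apply]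
      rw [mul_comm]
      exact h1
  · rintro ⟨h1, h2⟩
    funext i
    refine Fin.cases ?_ (fun i => ?_) i
    · simp [h1]
    · have h3 := congrFun h2 i
      simp only [Pi.add_apply, Pi.smul_apply, smul_eq_mul, Pi.zero_apply] at h3
      simp only [Fin.cons_succ, Pi.zero_apply]
      rw [mul_comm]
      exact h3

/-- the number of the vectors in the kernel -/
theorem card_ker (n : ℕ) (A : Matrix (Fin n) (Fin n) (ZMod 3)) :
    Nat.card {x : Fin n → ZMod 3 // A.mulVec x = 0} = 3 ^ (n - A.rank) := by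
  have hker : Module.finrank (ZMod 3) (LinearMap.ker A.mulVecLin) = n - A.rank := by
    have h1 := LinearMap.finrank_range_add_finrank_ker A.mulVecLin
    rw [Module.finrank_fintype_fun_eq_card, Fintype.card_fin] at h1
    have h2 : Module.finrank (ZMod 3) (LinearMap.range A.mulVecLin) = A.rank := rfl
    omega
  have h1 := Module.natCard_eq_pow_finrank (K := ZMod 3) (V := LinearMap.ker A.mulVecLin)
  rw [Nat.card_zmod, hker] at h1
  exact h1

theorem skew_dot {A : Matrix (Fin s) (Fin s) (ZMod 3)} (hA : A.transpose = -A)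
    (y z : Fin s → ZMod 3) : A.mulVec z ⬝ᵥ y = -(z ⬝ᵥ A.mulVec y) := by
  rw [dotProduct_comm, dotProduct_mulVec, ← mulVec_transpose, hA, neg_mulVec, neg_dotProduct,
    dotProduct_comm]

theorem alt_dot {A : Matrix (Fin s) (Fin s) (ZMod 3)} (hA : A.transpose = -A)
    (z : Fin s → ZMod 3) : z ⬝ᵥ A.mulVec z = 0 := by
  have h1 := skew_dot hA z z
  rw [dotProduct_comm] at h1
  revert h1
  generalize z ⬝ᵥ A.mulVec z = d
  revert d
  decide

/-- the column is in the range -/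
theorem case1 {A : Matrix (Fin s) (Fin s) (ZMod 3)} (hA : A.transpose = -A)
    (z : Fin s → ZMod 3) :
    s + 1 - (big A (A.mulVec z)).rank = s - A.rank + 1 := by
  have h1 : Nat.card {v : Fin (s + 1) → ZMod 3 // (big A (A.mulVec z)).mulVec v = 0} =
      Nat.card (ZMod 3 × {y : Fin s → ZMod 3 // A.mulVec y = 0}) := by
    refine Nat.card_congr
      { toFun := fun v => (v.1 0, ⟨Fin.tail v.1 + v.1 0 • z, ?_⟩)
        invFun := fun w => ⟨Fin.cons w.1 (w.2.1 - w.1 • z), ?_⟩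
        left_inv := ?_
        right_inv := ?_ }
    · have h2 := v.2
      rw [← Fin.cons_self_tail v.1, big_ker] at h2
      rw [mulVec_add, mulVec_smul, add_comm]
      simpa using h2.2
    · rw [big_ker, skew_dot hA, mulVec_sub, mulVec_smul, w.2.2, zero_sub, dotProduct_neg,
        dotProduct_smul, alt_dot hA]
      simp
    · intro v
      refine Subtype.ext ?_
      simp only [add_sub_cancel_right]
      exact Fin.cons_self_tail v.1
    · intro w
      refine Prod.ext (by simp) (Subtype.ext ?_)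
      simp
  rw [card_ker, Nat.card_prod, card_ker, Nat.card_zmod, mul_comm, ← pow_succ] at h1
  exact Nat.pow_right_injective (by norm_num : 2 ≤ 3) h1

/-- the dot product with `x` on the kernel -/
def phi (A : Matrix (Fin s) (Fin s) (ZMod 3)) (x : Fin s → ZMod 3) :
    Module.Dual (ZMod 3) (LinearMap.ker A.mulVecLin) :=
  (dotProductBilin (ZMod 3) (ZMod 3) x).comp (Submodule.subtype _)

theorem phi_ne {A : Matrix (Fin s) (Fin s) (ZMod 3)} (hA : A.transpose = -A)
    {x : Fin s → ZMod 3} (hx : ∀ z, A.mulVec z ≠ x) : phi A x ≠ 0 := by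
  intro h
  have h1 : (dotProductBilin (ZMod 3) (ZMod 3) x : Module.Dual (ZMod 3) (Fin s → ZMod 3)) ∈
      (LinearMap.ker A.mulVecLin).dualAnnihilator := by
    rw [Submodule.mem_dualAnnihilator]
    intro y hy
    exact LinearMap.congr_fun h ⟨y, hy⟩
  rw [← LinearMap.range_dualMap_eq_dualAnnihilator_ker] at h1
  obtain ⟨ψ, hψ⟩ := h1
  obtain ⟨w, rfl⟩ := (dotProductEquiv (ZMod 3) (Fin s)).surjective ψ
  refine hx (-w) ?_
  have h2 : ∀ y, x ⬝ᵥ y = (A.mulVec (-w)) ⬝ᵥ y := by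
    intro y
    have h3 := LinearMap.congr_fun hψ y
    have h4 : w ⬝ᵥ A.mulVec y = x ⬝ᵥ y := by simpa using h3
    rw [skew_dot hA, neg_dotProduct, neg_neg, h4]
  exact (dotProduct_eq _ _ h2).symm

/-- the column is not in the range -/
theorem case2 {A : Matrix (Fin s) (Fin s) (ZMod 3)} (hA : A.transpose = -A)
    {x : Fin s → ZMod 3} (hx : ∀ z, A.mulVec z ≠ x) :
    s + 1 - (big A x).rank = s - A.rank - 1 := by
  have h1 : Nat.card {v : Fin (s + 1) → ZMod 3 // (big A x).mulVec v = 0} =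
      Nat.card (LinearMap.ker (phi A x)) := by
    have ht : ∀ v : {v : Fin (s + 1) → ZMod 3 // (big A x).mulVec v = 0},
        v.1 0 = 0 ∧ A.mulVec (Fin.tail v.1) = 0 ∧ x ⬝ᵥ Fin.tail v.1 = 0 := by
      intro v
      have h2 := v.2
      rw [← Fin.cons_self_tail v.1, big_ker] at h2
      have h3 : v.1 0 = 0 := by
        by_contra h0
        refine hx (-(v.1 0)⁻¹ • Fin.tail v.1) ?_
        have h4 : A.mulVec (Fin.tail v.1) = -(v.1 0 • x) := by
          rw [eq_neg_iff_add_eq_zero, add_comm]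
          exact h2.2
        rw [mulVec_smul, h4, smul_neg, neg_smul, neg_neg, smul_smul, inv_mul_cancel₀ h0,
          one_smul]
      refine ⟨h3, ?_, h2.1⟩
      have h4 := h2.2
      rwa [h3, zero_smul, zero_add] at h4
    refine Nat.card_congr
      { toFun := fun v => ⟨⟨Fin.tail v.1, (ht v).2.1⟩, (ht v).2.2⟩
        invFun := fun w => ⟨Fin.cons 0 w.1.1, ?_⟩
        left_inv := ?_
        right_inv := ?_ }
    · rw [big_ker, zero_smul, zero_add]
      exact ⟨w.2, w.1.2⟩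
    · intro v
      refine Subtype.ext ?_
      have h3 := Fin.cons_self_tail v.1
      rw [(ht v).1] at h3
      exact h3
    · intro w
      refine Subtype.ext (Subtype.ext ?_)
      simp
  have h2 := Module.Dual.finrank_ker_add_one_of_ne_zero (phi_ne hA hx)
  have h3 : Module.finrank (ZMod 3) (LinearMap.ker A.mulVecLin) = s - A.rank := by
    have h1 := LinearMap.finrank_range_add_finrank_ker A.mulVecLin
    rw [Module.finrank_fintype_fun_eq_card, Fintype.card_fin] at h1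
    have h2 : Module.finrank (ZMod 3) (LinearMap.range A.mulVecLin) = A.rank := rfl
    omega
  have h4 := Module.natCard_eq_pow_finrank (K := ZMod 3) (V := LinearMap.ker (phi A x))
  rw [Nat.card_zmod] at h4
  rw [card_ker, h4] at h1
  have h5 := Nat.pow_right_injective (by norm_num : 2 ≤ 3) h1
  omega

/-- the number of the columns in the range -/
theorem card_range (A : Matrix (Fin s) (Fin s) (ZMod 3)) :
    Nat.card {x : Fin s → ZMod 3 // ∃ z, A.mulVec z = x} = 3 ^ A.rank := by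
  have h1 := Module.natCard_eq_pow_finrank (K := ZMod 3) (V := LinearMap.range A.mulVecLin)
  rw [Nat.card_zmod] at h1
  exact h1

/-- the skew-symmetric matrices -/
abbrev Sk (s : ℕ) := {M : Matrix (Fin s) (Fin s) (ZMod 3) // M.transpose = -M}

/-- the sum over the columns -/
theorem sum_col {A : Matrix (Fin s) (Fin s) (ZMod 3)} (hA : A.transpose = -A) (F : ℕ → ℝ) :
    ∑ x : Fin s → ZMod 3, F (s + 1 - (big A x).rank) =
      3 ^ s * ((1 - 1 / 3 ^ (s - A.rank)) * F (s - A.rank - 1) +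
        1 / 3 ^ (s - A.rank) * F (s - A.rank + 1)) := by
  classical
  have h1 : ∀ x : Fin s → ZMod 3, F (s + 1 - (big A x).rank) =
      F (s - A.rank - 1) + if ∃ z, A.mulVec z = x then
        F (s - A.rank + 1) - F (s - A.rank - 1) else 0 := by
    intro x
    split_ifs with h
    · obtain ⟨z, rfl⟩ := h
      rw [case1 hA]
      ring
    · rw [case2 hA fun z hz => h ⟨z, hz⟩, add_zero]
  rw [Finset.sum_congr rfl fun x _ => h1 x, Finset.sum_add_distrib, Finset.sum_const,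
    Finset.sum_ite, Finset.sum_const_zero, add_zero, Finset.sum_const]
  have h2 := card_range A
  rw [Nat.card_eq_fintype_card, Fintype.card_subtype] at h2
  rw [h2]
  have h3 : A.rank ≤ s := by
    have h4 := A.rank_le_card_height
    rwa [Fintype.card_fin] at h4
  have h5 : (3 : ℝ) ^ s = 3 ^ (s - A.rank) * 3 ^ A.rank := by
    rw [← pow_add]
    congr 1
    omega
  rw [Finset.card_univ, Fintype.card_fun, Fintype.card_fin, ZMod.card, nsmul_eq_mul, nsmul_eq_mul]
  push_cast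
  rw [h5]
  field_simp
  ring

theorem big_skew {A : Matrix (Fin s) (Fin s) (ZMod 3)} (hA : A.transpose = -A)
    (x : Fin s → ZMod 3) : (big A x).transpose = -(big A x) := by
  have hsk : ∀ i j, A j i = - A i j := fun i j => by
    have h1 := congrFun (congrFun hA i) j
    rw [transpose_apply, neg_apply] at h1
    exact h1
  ext i j
  refine Fin.cases ?_ (fun i => ?_) i <;> refine Fin.cases ?_ (fun j => ?_) j
  · simp [big]
  · simp [big]
  · simp [big]
  · simp [big, hsk i j]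

/-- a matrix of size `s + 1` -/
def eqv (s : ℕ) : Sk (s + 1) ≃ Sk s × (Fin s → ZMod 3) where
  toFun M := (⟨fun i j => M.1 i.succ j.succ, by
    ext i j
    have h1 := congrFun (congrFun M.2 i.succ) j.succ
    rw [transpose_apply, neg_apply] at h1
    exact h1⟩, fun i => M.1 i.succ 0)
  invFun z := ⟨big z.1.1 z.2, big_skew z.1.2 z.2⟩
  left_inv M := by
    have hsk : ∀ i j, M.1 j i = - M.1 i j := fun i j => by
      have h1 := congrFun (congrFun M.2 i) j
      rw [transpose_apply, neg_apply] at h1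
      exact h1
    have hd : ∀ j, M.1 j j = 0 := fun j => by
      have h1 := hsk j j
      revert h1
      generalize M.1 j j = d
      revert d
      decide
    refine Subtype.ext ?_
    ext i j
    refine Fin.cases ?_ (fun i => ?_) i <;> refine Fin.cases ?_ (fun j => ?_) j
    · simp [big, hd]
    · simp [big, hsk j.succ 0]
    · simp [big]
    · simp [big]
  right_inv z := by
    refine Prod.ext (Subtype.ext ?_) ?_
    · ext i j
      simp [big]
    · funext i
      simp [big]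

end ESR

open _root_.Pool.Agent.PTK.ESR in
theorem ESR_thm : Stmt_ESR := by
  classical
  intro s F
  unfold Esk
  have : Fintype (Sk s) := Fintype.ofFinite _
  have : Fintype (Sk (s + 1)) := Fintype.ofFinite _
  rw [finsum_eq_sum_of_fintype, finsum_eq_sum_of_fintype, Nat.card_congr (eqv s), Nat.card_prod,
    ← (eqv s).symm.sum_comp, Fintype.sum_prod_type]
  have h1 : ∀ A : Sk s, ∑ x : Fin s → ZMod 3, F (s + 1 - ((eqv s).symm (A, x)).1.rank) =
      3 ^ s * ((1 - 1 / 3 ^ (s - A.1.rank)) * F (s - A.1.rank - 1) +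
        1 / 3 ^ (s - A.1.rank) * F (s - A.1.rank + 1)) := fun A => sum_col A.2 F
  rw [Finset.sum_congr rfl fun A _ => h1 A, ← Finset.mul_sum]
  have h2 : (Nat.card (Fin s → ZMod 3) : ℝ) = 3 ^ s := by
    rw [Nat.card_eq_fintype_card, Fintype.card_fun, Fintype.card_fin, ZMod.card]
    push_cast
    rfl
  rw [Nat.cast_mul, h2, mul_comm (Nat.card (Sk s) : ℝ), mul_div_mul_left _ _ (by positivity)]

end Pool.Agent.PTK


end

section

/-! PTK_AV1 (helper13): the averages in a class, `q = 1 (mod 3)`. -/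

set_option autoImplicit false

open Finset

namespace Pool.Agent.PTK

open Pool.Agent.Lib_helper18 Pool.Agent.Lib_helper18.Eis Pool.Agent.Lib_helper84.Cub
open Pool.Agent.PT Pool.Agent.PTE Pool.Agent.PT3 Pool.Agent.PTL Pool.Agent.PTN

namespace AV1

/-! ### scalar inequalities -/

lemma nat1 (w : ℕ) : (w : ℝ) ≤ 1 / 2 + 1 / 6 * 3 ^ w := by
  induction w with
  | zero => norm_num
  | succ w ih =>
    rcases Nat.eq_zero_or_pos w with rfl | hw
    · norm_num
    · have h1 : (3 : ℝ) ≤ 3 ^ w := by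
        calc (3 : ℝ) = 3 ^ 1 := by norm_num
          _ ≤ 3 ^ w := pow_le_pow_right₀ (by norm_num) hw
      rw [pow_succ]; push_cast; linarith

lemma nat2 (w : ℕ) : (w : ℝ) ≤ 3 / 2 + 1 / 18 * 3 ^ w := by
  induction w with
  | zero => norm_num
  | succ w ih =>
    rcases Nat.lt_or_ge w 2 with hw | hw
    · interval_cases w <;> norm_num
    · have h1 : (9 : ℝ) ≤ 3 ^ w := by
        calc (9 : ℝ) = 3 ^ 2 := by norm_num
          _ ≤ 3 ^ w := pow_le_pow_right₀ (by norm_num) hw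
      rw [pow_succ]; push_cast; linarith

/-- the sum of two bounds -/
lemma up_add {S : ℕ → Set ℕ} {G G' : ℕ → ℕ → ℝ} {x y : ℝ} (h1 : UpS S G x) (h2 : UpS S G' y) :
    UpS S (fun E q => G E q + G' E q) (x + y) := by
  obtain ⟨K, hK⟩ := h1
  obtain ⟨K', hK'⟩ := h2
  refine ⟨K + K', fun σ g1 g2 T => ?_⟩
  have a := add_le_add (hK σ g1 g2 T) (hK' σ g1 g2 T)
  refine le_trans (le_of_eq ?_) (a.trans (le_of_eq (by ring)))
  rw [← Finset.sum_add_distrib]
  refine Finset.sum_congr rfl fun E _ => ?_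
  rw [← Finset.sum_add_distrib]
  refine Finset.sum_congr rfl fun q _ => ?_
  split_ifs
  · ring
  · ring

lemma dN_cases (h n : ℕ) (w0 : ZMod 3) : dN h n w0 = 0 ∨ dN h n w0 = 1 ∨ dN h n w0 = 2 := by
  unfold dN
  split_ifs
  · exact Or.inl rfl
  · exact Or.inr (Or.inr rfl)
  · exact Or.inr (Or.inl rfl)

lemma alg1 (a b D L d x y : ℝ) (hx : x ≠ 0) (hy : y ≠ 0) :
    ((x - 1) * (a * (2 / x / y) + b * ((3 + D) * (2 / x / y)) + L * (2 / x / y)) +
      2 * ((a + 1 + d) * (1 / x / y) + b * ((3 + D) * (1 / x / y)))) / 2 =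
      (a + b * (3 + D) + ((1 - 1 / x) * L + (d + 1) / x)) / y := by
  field_simp
  ring

lemma alg2 (D x y : ℝ) (hx : x ≠ 0) (hy : y ≠ 0) :
    ((x - 1) * ((3 + D) * (4 * (2 / x / y))) + (2 * (3 * x)) * ((3 + D) * (1 / x / y))) / 2 =
      (7 - 4 / x) * (3 + D) / y := by
  field_simp
  ring

/-- the number of the patterns -/
lemma card_pat (d : ℕ) : ((Fintype.card {δ : Fin d → ZMod 3 // δ ≠ 0} : ℕ) : ℝ) = 3 ^ d - 1 := by
  have h1 : Fintype.card {δ : Fin d → ZMod 3 // δ ≠ 0} = 3 ^ d - 1 := by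
    rw [Fintype.card_subtype_compl, Fintype.card_subtype_eq, Fintype.card_fun, ZMod.card,
      Fintype.card_fin]
  rw [h1, Nat.cast_sub (Nat.one_le_pow _ _ (by norm_num))]
  push_cast
  ring

open Classical in
/-- The general bound. `N` is the number of the classes of points, `κ δ` the coranks, `R` the rank. -/
theorem gen (hUPS : Stmt_UPS) {d : ℕ} (S : ℕ → Set ℕ)
    (TP : {δ : Fin d → ZMod 3 // δ ≠ 0} → ℕ → Set ℕ) (TZ : ℕ → Set ℕ)
    (R N : ℕ → ℕ → ℕ) (κ : {δ : Fin d → ZMod 3 // δ ≠ 0} → ℕ → ℕ → ℕ) (M : ℕ)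
    (hN : ∀ E q, (E = 1 ∨ E = 2) → q.Prime → M < q → q ∈ S E → ∃ w, N E q = 3 ^ w ∧
      ((q ∈ TZ E ∧ R E q ≤ w + 1 + d) ∨ ∃ δ δ' : {δ : Fin d → ZMod 3 // δ ≠ 0}, δ ≠ δ' ∧
        q ∈ TP δ E ∧ q ∈ TP δ' E ∧ R E q ≤ w + κ δ E q ∧ R E q ≤ w + κ δ' E q))
    (F : ℕ → ℝ) (hF : Monotone F) (φ : ℕ → ℕ → ℝ) (ψ : ℕ → ℝ) (hφ : ∀ a b, 0 ≤ φ a b)
    (hψ : ∀ a, 0 ≤ ψ a) (h1 : ∀ w a, F (w + a) ≤ φ (3 ^ w) a)
    (h2 : ∀ w, 2 * F (w + 1 + d) ≤ ψ (3 ^ w)) {x y : ℝ}
    (hx : ∀ δ : {δ : Fin d → ZMod 3 // δ ≠ 0},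
      UpS (TP δ) (fun E q => φ (N E q) (κ δ E q)) x)
    (hy : UpS TZ (fun E q => ψ (N E q)) y) :
    UpS S (fun E q => F (R E q)) (((3 ^ d - 1) * x + y) / 2) := by
  have key := hUPS.1 (Option {δ : Fin d → ZMod 3 // δ ≠ 0}) S (fun E q => F (R E q))
    (fun i => Option.rec TZ TP i)
    (fun i => Option.rec (fun E q => ψ (N E q)) (fun δ E q => φ (N E q) (κ δ E q)) i)
    (fun i => Option.rec y (fun _ => x) i) 2 M (by norm_num) ?_ ?_ ?_
  · have e : ∑ i : Option {δ : Fin d → ZMod 3 // δ ≠ 0},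
        (Option.rec y (fun _ => x) i : ℝ) = (3 ^ d - 1) * x + y := by
      rw [Fintype.sum_option]
      simp only [Finset.sum_const, Finset.card_univ, nsmul_eq_mul]
      rw [card_pat, add_comm]
    rw [e] at key
    exact key
  · intro i E q
    cases i with
    | none => exact hψ _
    | some δ => exact hφ _ _
  · intro E q hE hq hM hS
    rw [Fintype.sum_option]
    obtain ⟨w, hw, h | ⟨δ, δ', hne, hP, hP', hR, hR'⟩⟩ := hN E q hE hq hM hS
    · have a1 : 2 * F (R E q) ≤ ψ (N E q) := by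
        rw [hw]
        refine le_trans ?_ (h2 w)
        have := hF h.2
        linarith
      have a2 : 0 ≤ ∑ i : {δ : Fin d → ZMod 3 // δ ≠ 0},
          (if q ∈ TP i E then φ (N E q) (κ i E q) else 0) := by
        refine Finset.sum_nonneg fun i _ => ?_
        split_ifs
        · exact hφ _ _
        · exact le_rfl
      have a3 : (if q ∈ TZ E then ψ (N E q) else 0) = ψ (N E q) := if_pos h.1
      show 2 * F (R E q) ≤ (if q ∈ TZ E then ψ (N E q) else 0) +
        ∑ i : {δ : Fin d → ZMod 3 // δ ≠ 0}, (if q ∈ TP i E then φ (N E q) (κ i E q) else 0)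
      rw [a3]
      linarith
    · have a3 : 0 ≤ (if q ∈ TZ E then ψ (N E q) else 0) := by
        split_ifs
        · exact hψ _
        · exact le_rfl
      have a4 : ∑ i ∈ ({δ, δ'} : Finset {δ : Fin d → ZMod 3 // δ ≠ 0}),
          (if q ∈ TP i E then φ (N E q) (κ i E q) else 0) ≤
          ∑ i : {δ : Fin d → ZMod 3 // δ ≠ 0},
          (if q ∈ TP i E then φ (N E q) (κ i E q) else 0) := by
        refine Finset.sum_le_sum_of_subset_of_nonneg (Finset.subset_univ _) fun i _ _ => ?_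
        split_ifs
        · exact hφ _ _
        · exact le_rfl
      rw [Finset.sum_pair hne] at a4
      have a5 : (if q ∈ TP δ E then φ (N E q) (κ δ E q) else 0) =
          φ (N E q) (κ δ E q) := if_pos hP
      have a6 : (if q ∈ TP δ' E then φ (N E q) (κ δ' E q) else 0) =
          φ (N E q) (κ δ' E q) := if_pos hP'
      rw [a5, a6] at a4
      have b1 := (hF hR).trans (h1 w (κ δ E q))
      have b2 := (hF hR').trans (h1 w (κ δ' E q))
      rw [← hw] at b1 b2
      show 2 * F (R E q) ≤ (if q ∈ TZ E then ψ (N E q) else 0) +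
        ∑ i : {δ : Fin d → ZMod 3 // δ ≠ 0}, (if q ∈ TP i E then φ (N E q) (κ i E q) else 0)
      linarith
  · intro i
    cases i with
    | none => exact hy
    | some δ => exact hx δ

end AV1

open _root_.Pool.Agent.PTK.AV1 in
theorem AV1_thm (hUPS : Stmt_UPS) (hUPA : Stmt_UPA) (hLAM : Stmt_LAM) (hNHPT : Stmt_NHPT)
    (hPLU : Stmt_PLU) (hNBU : Stmt_NBU) (hNBZ : Stmt_NBZ) (hWGU : Stmt_WGU) (hPAT : Stmt_PAT)
    (hAVG : Stmt_AVG) (hAVZ : Stmt_AVZ) (hSPLT : SPLT) : Stmt_AV1 := by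
  intro h n m k π p e r f w0 c hN hh
  obtain ⟨d, v, hd, hHB⟩ := hNHPT h n m k π p e r f w0 c hN hh
  have hHB' : HB h n π w0 c v := hHB
  have hn : 0 < n := by
    rw [hN.eq]
    refine Nat.mul_pos (Finset.prod_pos fun i _ => pow_pos (hN.pp i).pos _)
      (Finset.prod_pos fun j _ => pow_pos (hN.rp j).pos _)
  choose s τ b X Y P Q P' Q' hPl using fun δ : {δ : Fin d → ZMod 3 // δ ≠ 0} =>
    hPLU h n m k π p e r f w0 c d v hN hh hHB' δ.1 δ.2
  obtain ⟨M, hM⟩ := hPAT d v (fun i => (hHB.1 i).1.ne)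
  set S : ℕ → Set ℕ := fun E => {q | q % 3 = 1 ∧ InCT E π w0 c q} with hS
  set κ : {δ : Fin d → ZMod 3 // δ ≠ 0} → ℕ → ℕ → ℕ := fun δ E q =>
    kU h n (b δ) (X δ) (Y δ) (P δ) (Q δ) (P' δ) (Q' δ) E q with hκ
  set N : ℕ → ℕ → ℕ := fun E q => Nat.card (WqS h n π p e r w0 c (BB h n E q)) with hNdef
  set R : ℕ → ℕ → ℕ := fun E q => CubeRank.rr (BB h n E q) with hR
  set TP : {δ : Fin d → ZMod 3 // δ ≠ 0} → ℕ → Set ℕ := fun δ E =>
    {q | q % 3 = 1 ∧ InCT E π w0 c q ∧ q ∈ Pat v δ.1} with hTP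
  set TZ : ℕ → Set ℕ := fun E => {q | q % 3 = 1 ∧ InCT E π w0 c q ∧ q ∈ ZP v} with hTZ
  have main : ∀ E q, (E = 1 ∨ E = 2) → q.Prime → M + n + 3 < q → q ∈ S E → ∃ w, N E q = 3 ^ w ∧
      ((q ∈ TZ E ∧ R E q ≤ w + 1 + d) ∨ ∃ δ δ' : {δ : Fin d → ZMod 3 // δ ≠ 0}, δ ≠ δ' ∧
        q ∈ TP δ E ∧ q ∈ TP δ' E ∧ R E q ≤ w + κ δ E q ∧ R E q ≤ w + κ δ' E q) := by
    intro E q hE hq hMq hqS
    have hqn : ¬ q ∣ n := fun hdvd => by
      have := Nat.le_of_dvd hn hdvd
      omega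
    obtain ⟨ρ, hρ⟩ := hSPLT.1 q hq hqS.1
    obtain ⟨w, hw⟩ := (hWGU h n m k π p e r f w0 c E q ρ hN hh hE hq (by omega) hqS.1 hqS.2 hqn
      hρ).1
    refine ⟨w, hw, ?_⟩
    rcases hM q hq (by omega) hqS.1 with hZ | ⟨δ, δ', hδ, hδ', hne, hP, hP'⟩
    · left
      refine ⟨⟨hqS.1, hqS.2, hZ⟩, ?_⟩
      have g := hNBZ h n m k π p e r f w0 c E q hN hh hE hq (by omega) hqS.1 hqS.2 hqn
      rw [hw, Nat.log_pow (by norm_num), ← hd] at g
      exact CubeRank.rr_le g
    · right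
      refine ⟨⟨δ, hδ⟩, ⟨δ', hδ'⟩, fun hh => hne (congrArg Subtype.val hh), ⟨hqS.1, hqS.2, hP⟩,
        ⟨hqS.1, hqS.2, hP'⟩, ?_, ?_⟩
      · have g := hNBU h n m k π p e r f w0 c d v δ _ _ _ _ _ _ _ _ _ E q hN hh hδ (hPl ⟨δ, hδ⟩)
          hE hq (by omega) hqS.1 hqS.2 hqn hP
        rw [hw, Nat.log_pow (by norm_num)] at g
        exact CubeRank.rr_le g
      · have g := hNBU h n m k π p e r f w0 c d v δ' _ _ _ _ _ _ _ _ _ E q hN hh hδ'
          (hPl ⟨δ', hδ'⟩) hE hq (by omega) hqS.1 hqS.2 hqn hP'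
        rw [hw, Nat.log_pow (by norm_num)] at g
        exact CubeRank.rr_le g
  -- the averages for the patterns
  have hA := fun δ : {δ : Fin d → ZMod 3 // δ ≠ 0} =>
    hAVG h n m k π p e r f w0 c d v δ.1 _ _ _ _ _ _ _ _ _ hN hh δ.2 (hPl δ)
  have hZ := hAVZ h n m k π p e r f w0 c d v hN hh hHB' hd
  set D := dN h n w0 with hD
  have h3d : (0 : ℝ) < 3 ^ d := by positivity
  have h3m : (0 : ℝ) < 3 ^ (m + 1) := by positivity
  have h3D : (0 : ℝ) < 3 ^ D := by positivity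
  constructor
  · -- the rank
    have rank : ∀ α β z : ℝ, 0 ≤ α → 0 ≤ β → (∀ w : ℕ, (w : ℝ) ≤ α + β * 3 ^ w) →
        α + β * (3 + 3 ^ D) + 11 / 9 ≤ z → UpS S (fun E q => (R E q : ℝ)) (z / 3 ^ (m + 1)) := by
      intro α β z hα hβ hw hz
      have g := gen hUPS S TP TZ R N κ (M + n + 3) main (fun a => (a : ℝ)) Nat.mono_cast
        (fun a b => α * 1 + β * (a : ℝ) + (b : ℝ))
        (fun a => 2 * ((α + 1 + d) * 1 + β * (a : ℝ)))
        (fun a b => by positivity) (fun a => by positivity)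
        (fun w a => by
          have := hw w
          push_cast
          linarith)
        (fun w => by
          have := hw w
          push_cast
          linarith)
        (x := α * (2 / 3 ^ d / 3 ^ (m + 1)) + β * ((3 + 3 ^ D) * (2 / 3 ^ d / 3 ^ (m + 1))) +
          Esk (d - 1) (fun c => (c : ℝ)) * (2 / 3 ^ d / 3 ^ (m + 1)))
        (y := 2 * ((α + 1 + d) * (1 / 3 ^ d / 3 ^ (m + 1)) +
          β * ((3 + 3 ^ D) * (1 / 3 ^ d / 3 ^ (m + 1)))))
        (fun δ => by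
          exact up_add (up_add (hUPS.2.2 _ _ _ α hα (hA δ).2.2.2)
            (hUPS.2.2 _ _ _ β hβ (hA δ).2.1)) (hA δ).2.2.1)
        (by
          exact hUPS.2.2 _ _ _ 2 (by norm_num)
            (up_add (hUPS.2.2 _ _ _ (α + 1 + d) (by positivity) hZ.2)
              (hUPS.2.2 _ _ _ β hβ hZ.1)))
      refine hUPS.2.1 _ _ _ _ ?_ g
      have hL := hLAM.2 d
      have e1 := alg1 α β (3 ^ D) (Esk (d - 1) (fun c => (c : ℝ))) d (3 ^ d) (3 ^ (m + 1))
        h3d.ne' h3m.ne'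
      rw [e1]
      refine div_le_div_of_nonneg_right ?_ h3m.le
      linarith
    refine hUPA h n m k π p e r f w0 c 1 (fun A => (CubeRank.rr A : ℝ)) _ hN ?_
    show UpS S (fun E q => (R E q : ℝ)) (cQ D / 3 ^ (m + 1))
    rcases dN_cases h n w0 with hD0 | hD1 | hD2
    · rw [← hD] at hD0
      refine rank (1 / 2) (1 / 6) _ (by norm_num) (by norm_num) nat1 ?_
      rw [cQ, if_pos hD0, hD0]
      norm_num
    · rw [← hD] at hD1
      refine rank (1 / 2) (1 / 6) _ (by norm_num) (by norm_num) nat1 ?_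
      rw [cQ, if_neg (by omega), if_pos hD1, hD1]
      norm_num
    · rw [← hD] at hD2
      refine rank (3 / 2) (1 / 18) _ (by norm_num) (by norm_num) nat2 ?_
      rw [cQ, if_neg (by omega), if_neg (by omega), hD2]
      norm_num
  · -- the powers
    refine hUPA h n m k π p e r f w0 c 1 (fun A => 3 ^ CubeRank.rr A) _ hN ?_
    show UpS S (fun E q => (3 : ℝ) ^ (R E q)) (7 * (3 + 3 ^ D) / 3 ^ (m + 1))
    have g := gen hUPS S TP TZ R N κ (M + n + 3) main (fun a => (3 : ℝ) ^ a)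
      (fun a b hab => pow_le_pow_right₀ (by norm_num) hab)
      (fun a b => (a : ℝ) * 3 ^ b)
      (fun a => (2 * (3 * 3 ^ d)) * (a : ℝ))
      (fun a b => by positivity) (fun a => by positivity)
      (fun w a => by
        push_cast
        rw [pow_add])
      (fun w => by
        push_cast
        rw [pow_add, pow_add, pow_one]
        linarith)
      (x := (3 + 3 ^ D) * (4 * (2 / 3 ^ d / 3 ^ (m + 1))))
      (y := (2 * (3 * 3 ^ d)) * ((3 + 3 ^ D) * (1 / 3 ^ d / 3 ^ (m + 1))))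
      (fun δ => by
        exact (hA δ).1)
      (by
        exact hUPS.2.2 _ _ _ (2 * (3 * 3 ^ d)) (by positivity) hZ.1)
    refine hUPS.2.1 _ _ _ _ ?_ g
    have e1 := alg2 (3 ^ D) (3 ^ d) (3 ^ (m + 1)) h3d.ne' h3m.ne'
    rw [e1]
    refine div_le_div_of_nonneg_right ?_ h3m.le
    refine mul_le_mul_of_nonneg_right ?_ (by positivity)
    have : (0 : ℝ) ≤ 4 / 3 ^ d := by positivity
    linarith

end Pool.Agent.PTK


end

section

/-!
# PTK_KUP: from tails to averages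
-/

set_option autoImplicit false

namespace Pool.Agent.PTK

open Pool.Agent.PT Pool.Agent.PTL Pool.Agent.PTN

namespace KUP

theorem log_nn {σ : ℝ} (h1 : 1 < σ) (h2 : σ ≤ 2) : 0 ≤ Real.log (1 / (σ - 1)) := by
  apply Real.log_nonneg
  rw [le_div_iff₀ (by linarith)]
  linarith

theorem Esk_one (s : ℕ) : Esk s (fun _ => (1 : ℝ)) = 1 := by
  unfold Esk
  have hf : Finite {M : Matrix (Fin s) (Fin s) (ZMod 3) // M.transpose = -M} := inferInstance
  haveI := Fintype.ofFinite {M : Matrix (Fin s) (Fin s) (ZMod 3) // M.transpose = -M}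
  haveI : Nonempty {M : Matrix (Fin s) (Fin s) (ZMod 3) // M.transpose = -M} :=
    ⟨⟨0, by simp⟩⟩
  rw [finsum_eq_sum_of_fintype]
  simp only [Finset.sum_const, Finset.card_univ, Nat.card_eq_fintype_card, nsmul_eq_mul, mul_one]
  have : (Fintype.card {M : Matrix (Fin s) (Fin s) (ZMod 3) // M.transpose = -M} : ℝ) ≠ 0 := by
    exact_mod_cast Fintype.card_ne_zero
  exact div_self this

end KUP

open _root_.Pool.Agent.PTK.KUP in
theorem KUP_thm (hDOMG : Stmt_DOMG) (hLAW : Stmt_LAW) : Stmt_KUP := by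
  intro S R s M x hx hR hT
  have key : ∀ F : ℕ → ℝ, Monotone F → 0 ≤ F 0 →
      UpS S (fun E q => F (R E q)) (Esk s (fun c => F c) * x) := by
    intro F hF h0
    obtain ⟨K, hK⟩ := hDOMG S R (fun t => x * LI s t) M s F hR hT hF h0
    refine ⟨K, fun σ h1 h2 T => ?_⟩
    refine (hK σ h1 h2 T).trans (le_of_eq ?_)
    have e := hLAW.1 s 0 F
    simp only [Nat.sub_zero, zero_add] at e
    rw [← e]
    have : F 0 * (x * LI s 0) + ∑ t ∈ Finset.range s, (F (t + 1) - F t) * (x * LI s (t + 1)) =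
        (F 0 * LI s 0 + ∑ t ∈ Finset.range s, (F (t + 1) - F t) * LI s (t + 1)) * x := by
      rw [add_mul, Finset.sum_mul]
      congr 1
      · ring
      · exact Finset.sum_congr rfl fun t _ => by ring
    rw [this]
  refine ⟨?_, ?_, ?_⟩
  · obtain ⟨K, hK⟩ := key (fun c => (3 : ℝ) ^ c)
      (fun a b h => pow_le_pow_right₀ (by norm_num) h) (by norm_num)
    refine ⟨K, fun σ h1 h2 T => (hK σ h1 h2 T).trans ?_⟩
    have h4 := hLAW.2.2.2.2.2.2.1 s 0
    simp only [zero_add, pow_zero, mul_one] at h4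
    have := mul_le_mul_of_nonneg_right (mul_le_mul_of_nonneg_right h4 hx) (log_nn h1 h2)
    linarith
  · exact key (fun c => (c : ℝ)) (fun a b h => by show (a : ℝ) ≤ (b : ℝ); exact_mod_cast h) (by simp)
  · have := key (fun _ => (1 : ℝ)) monotone_const zero_le_one
    rwa [Esk_one, one_mul] at this

end Pool.Agent.PTK


end

section

/-!
# PTK_AM1: the averages in a class, `q = 1 (mod 3)`, all moments
-/

set_option autoImplicit false

open Finset

namespace Pool.Agent.PTK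

open Pool.Agent.Lib_helper18 Pool.Agent.Lib_helper18.Eis Pool.Agent.Lib_helper84.Cub
open Pool.Agent.PT Pool.Agent.PTE Pool.Agent.PT3 Pool.Agent.PTL Pool.Agent.PTN

namespace AM1

open AV1 in
open Classical in
/-- The general bound. `N` is the number of the classes of points, `κ δ` and `κ₀` the coranks, `R` the rank. -/
theorem gen (hUPS : Stmt_UPS) {d : ℕ} (S : ℕ → Set ℕ)
    (TP : {δ : Fin d → ZMod 3 // δ ≠ 0} → ℕ → Set ℕ) (TZ : ℕ → Set ℕ)
    (R N : ℕ → ℕ → ℕ) (κ : {δ : Fin d → ZMod 3 // δ ≠ 0} → ℕ → ℕ → ℕ) (κ₀ : ℕ → ℕ → ℕ) (M : ℕ)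
    (hN : ∀ E q, (E = 1 ∨ E = 2) → q.Prime → M < q → q ∈ S E → ∃ w, N E q = 3 ^ w ∧
      ((q ∈ TZ E ∧ R E q ≤ w + (κ₀ E q + 1)) ∨ ∃ δ δ' : {δ : Fin d → ZMod 3 // δ ≠ 0}, δ ≠ δ' ∧
        q ∈ TP δ E ∧ q ∈ TP δ' E ∧ R E q ≤ w + κ δ E q ∧ R E q ≤ w + κ δ' E q))
    (F : ℕ → ℝ) (hF : Monotone F) (φ : ℕ → ℕ → ℝ) (hφ : ∀ a b, 0 ≤ φ a b)
    (h1 : ∀ w a, F (w + a) ≤ φ (3 ^ w) a) {x y : ℝ}
    (hx : ∀ δ : {δ : Fin d → ZMod 3 // δ ≠ 0},
      UpS (TP δ) (fun E q => φ (N E q) (κ δ E q)) x)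
    (hy : UpS TZ (fun E q => φ (N E q) (κ₀ E q + 1)) y) :
    UpS S (fun E q => F (R E q)) (((3 ^ d - 1) * x + 2 * y) / 2) := by
  have hy2 := hUPS.2.2 _ _ _ 2 (by norm_num) hy
  have key := hUPS.1 (Option {δ : Fin d → ZMod 3 // δ ≠ 0}) S (fun E q => F (R E q))
    (fun i => Option.rec TZ TP i)
    (fun i => Option.rec (fun E q => 2 * φ (N E q) (κ₀ E q + 1))
      (fun δ E q => φ (N E q) (κ δ E q)) i)
    (fun i => Option.rec (2 * y) (fun _ => x) i) 2 M (by norm_num) ?_ ?_ ?_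
  · have e : ∑ i : Option {δ : Fin d → ZMod 3 // δ ≠ 0},
        (Option.rec (2 * y) (fun _ => x) i : ℝ) = (3 ^ d - 1) * x + 2 * y := by
      rw [Fintype.sum_option]
      simp only [Finset.sum_const, Finset.card_univ, nsmul_eq_mul]
      rw [card_pat, add_comm]
    rw [e] at key
    exact key
  · intro i E q
    cases i with
    | none => exact mul_nonneg (by norm_num) (hφ _ _)
    | some δ => exact hφ _ _
  · intro E q hE hq hM hS
    rw [Fintype.sum_option]
    obtain ⟨w, hw, h | ⟨δ, δ', hne, hP, hP', hR, hR'⟩⟩ := hN E q hE hq hM hS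
    · have a1 : F (R E q) ≤ φ (N E q) (κ₀ E q + 1) := by
        rw [hw]
        exact (hF h.2).trans (h1 w _)
      have a2 : 0 ≤ ∑ i : {δ : Fin d → ZMod 3 // δ ≠ 0},
          (if q ∈ TP i E then φ (N E q) (κ i E q) else 0) := by
        refine Finset.sum_nonneg fun i _ => ?_
        split_ifs
        · exact hφ _ _
        · exact le_rfl
      have a3 : (if q ∈ TZ E then 2 * φ (N E q) (κ₀ E q + 1) else 0) =
        2 * φ (N E q) (κ₀ E q + 1) := if_pos h.1
      show 2 * F (R E q) ≤ (if q ∈ TZ E then 2 * φ (N E q) (κ₀ E q + 1) else 0) +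
        ∑ i : {δ : Fin d → ZMod 3 // δ ≠ 0}, (if q ∈ TP i E then φ (N E q) (κ i E q) else 0)
      rw [a3]
      linarith
    · have a3 : 0 ≤ (if q ∈ TZ E then 2 * φ (N E q) (κ₀ E q + 1) else 0) := by
        split_ifs
        · exact mul_nonneg (by norm_num) (hφ _ _)
        · exact le_rfl
      have a4 : ∑ i ∈ ({δ, δ'} : Finset {δ : Fin d → ZMod 3 // δ ≠ 0}),
          (if q ∈ TP i E then φ (N E q) (κ i E q) else 0) ≤
          ∑ i : {δ : Fin d → ZMod 3 // δ ≠ 0},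
          (if q ∈ TP i E then φ (N E q) (κ i E q) else 0) := by
        refine Finset.sum_le_sum_of_subset_of_nonneg (Finset.subset_univ _) fun i _ _ => ?_
        split_ifs
        · exact hφ _ _
        · exact le_rfl
      rw [Finset.sum_pair hne] at a4
      have a5 : (if q ∈ TP δ E then φ (N E q) (κ δ E q) else 0) =
          φ (N E q) (κ δ E q) := if_pos hP
      have a6 : (if q ∈ TP δ' E then φ (N E q) (κ δ' E q) else 0) =
          φ (N E q) (κ δ' E q) := if_pos hP'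
      rw [a5, a6] at a4
      have b1 := (hF hR).trans (h1 w (κ δ E q))
      have b2 := (hF hR').trans (h1 w (κ δ' E q))
      rw [← hw] at b1 b2
      show 2 * F (R E q) ≤ (if q ∈ TZ E then 2 * φ (N E q) (κ₀ E q + 1) else 0) +
        ∑ i : {δ : Fin d → ZMod 3 // δ ≠ 0}, (if q ∈ TP i E then φ (N E q) (κ i E q) else 0)
      linarith
  · intro i
    cases i with
    | none => exact hy2
    | some δ => exact hx δ

lemma alg1 (a b G e1 e2 x y : ℝ) (hx : x ≠ 0) (hy : y ≠ 0) :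
    ((x - 1) * (a * (1 * (1 * (2 / x / y))) + b * (G * (1 * (2 / x / y))) +
        1 * (e1 * (2 / x / y))) +
      2 * (a * (1 * (1 * (1 / x / y))) + b * (G * (1 * (1 / x / y))) +
        1 * (e2 * (1 / x / y)))) / 2 =
      (a + b * G + ((1 - 1 / x) * e1 + 1 / x * e2)) / y := by
  field_simp
  ring

lemma alg2 (g e1 e2 x y : ℝ) (hx : x ≠ 0) (hy : y ≠ 0) :
    ((x - 1) * (g * (e1 * (2 / x / y))) + 2 * (g * (e2 * (1 / x / y)))) / 2 =
      g * ((1 - 1 / x) * e1 + 1 / x * e2) / y := by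
  field_simp

/-- the bound for the moments of the number of the classes -/
lemma gM_le (hGMB : Stmt_GMB) (k j D : ℕ) (hj : j ≤ D) (hD : D ≤ 2) : gM k j ≤ cM k D := by
  obtain ⟨g0, g1, g2, -, -, -, -, -⟩ := hGMB
  unfold cM
  split_ifs with h
  · have h3 : j = 0 ∨ j = 1 := by omega
    rcases h3 with rfl | rfl
    · rw [g0]
    · rw [g1]
  · have h3 : j = 0 ∨ j = 1 ∨ j = 2 := by omega
    rcases h3 with rfl | rfl | rfl
    · rw [g0]
      exact g2 k
    · rw [g1]
      exact g2 k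
    · exact le_rfl

end AM1

open _root_.Pool.Agent.PTK.AM1 AV1 in
theorem AM1_thm (hUPS : Stmt_UPS) (hUPA : Stmt_UPA) (hLAM : Stmt_LAM) (hNHPT : Stmt_NHPT)
    (hPLU : Stmt_PLU) (hPLE : Stmt_PLE) (hNBU : Stmt_NBU) (hNBX : Stmt_NBX) (hWGU : Stmt_WGU)
    (hPAT : Stmt_PAT) (hZPV : Stmt_ZPV) (hJPG : Stmt_JPG) (hJPZ : Stmt_JPZ) (hVDIM : Stmt_VDIM)
    (hGMB : Stmt_GMB) (hESZ : Stmt_ESZ) (hESB : Stmt_ESB) (hSPLT : SPLT) : Stmt_AM1 := by
  intro h n m k π p e r f w0 c hN hh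
  obtain ⟨d, v, hd, hHB⟩ := hNHPT h n m k π p e r f w0 c hN hh
  have hHB' : HB h n π w0 c v := hHB
  have hn : 0 < n := by
    rw [hN.eq]
    refine Nat.mul_pos (Finset.prod_pos fun i _ => pow_pos (hN.pp i).pos _)
      (Finset.prod_pos fun j _ => pow_pos (hN.rp j).pos _)
  choose s τ b X Y P Q P' Q' hPl using fun δ : {δ : Fin d → ZMod 3 // δ ≠ 0} =>
    hPLU h n m k π p e r f w0 c d v hN hh hHB' δ.1 δ.2
  obtain ⟨s₀, τ₀, b₀, X₀, Y₀, P₀, Q₀, P₀', Q₀', hs₀, hPl₀⟩ := hPLE h n m k π p e r f w0 c hN hh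
  have hsd : s₀ = d := hs₀.trans hd.symm
  subst hsd
  obtain ⟨M, hM⟩ := hPAT s₀ v (fun i => (hHB.1 i).1.ne)
  obtain ⟨M₁, hM₁⟩ := hZPV h n m k π p e r f w0 c s₀ τ₀ b₀ X₀ Y₀ P₀ Q₀ P₀' Q₀' s₀ v hN hh hPl₀ hHB'
  set S : ℕ → Set ℕ := fun E => {q | q % 3 = 1 ∧ InCT E π w0 c q} with hS
  set κ : {δ : Fin s₀ → ZMod 3 // δ ≠ 0} → ℕ → ℕ → ℕ := fun δ E q =>
    kU h n (b δ) (X δ) (Y δ) (P δ) (Q δ) (P' δ) (Q' δ) E q with hκ
  set κ₀ : ℕ → ℕ → ℕ := fun E q => kS h n b₀ X₀ Y₀ P₀ Q₀ P₀' Q₀' E q with hκ₀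
  set N : ℕ → ℕ → ℕ := fun E q => Nat.card (WqS h n π p e r w0 c (BB h n E q)) with hNdef
  set R : ℕ → ℕ → ℕ := fun E q => CubeRank.rr (BB h n E q) with hR
  set TP : {δ : Fin s₀ → ZMod 3 // δ ≠ 0} → ℕ → Set ℕ := fun δ E =>
    {q | q % 3 = 1 ∧ InCT E π w0 c q ∧ q ∈ Pat v δ.1} with hTP
  set TZ : ℕ → Set ℕ := fun E => {q | q % 3 = 1 ∧ InCT E π w0 c q ∧ q ∈ ZP b₀} with hTZ
  have main : ∀ E q, (E = 1 ∨ E = 2) → q.Prime → M + M₁ + n + 3 < q → q ∈ S E →
      ∃ w, N E q = 3 ^ w ∧ ((q ∈ TZ E ∧ R E q ≤ w + (κ₀ E q + 1)) ∨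
        ∃ δ δ' : {δ : Fin s₀ → ZMod 3 // δ ≠ 0}, δ ≠ δ' ∧
        q ∈ TP δ E ∧ q ∈ TP δ' E ∧ R E q ≤ w + κ δ E q ∧ R E q ≤ w + κ δ' E q) := by
    intro E q hE hq hMq hqS
    have hqn : ¬ q ∣ n := fun hdvd => by
      have := Nat.le_of_dvd hn hdvd
      omega
    obtain ⟨ρ, hρ⟩ := hSPLT.1 q hq hqS.1
    obtain ⟨w, hw⟩ := (hWGU h n m k π p e r f w0 c E q ρ hN hh hE hq (by omega) hqS.1 hqS.2 hqn
      hρ).1
    refine ⟨w, hw, ?_⟩
    rcases hM q hq (by omega) hqS.1 with hZ | ⟨δ, δ', hδ, hδ', hne, hP, hP'⟩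
    · left
      have hZ' : q ∈ ZP b₀ := hM₁ q hq (by omega) hZ
      refine ⟨⟨hqS.1, hqS.2, hZ'⟩, ?_⟩
      have g := hNBX h n m k π p e r f w0 c s₀ τ₀ b₀ X₀ Y₀ P₀ Q₀ P₀' Q₀' E q hN hh hPl₀ hE hq
        (by omega) hqS.1 hqS.2 hqn hZ'
      rw [hw, Nat.log_pow (by norm_num)] at g
      have g2 := CubeRank.rr_le g
      show CubeRank.rr (BB h n E q) ≤ w + (kS h n b₀ X₀ Y₀ P₀ Q₀ P₀' Q₀' E q + 1)
      omega
    · right
      refine ⟨⟨δ, hδ⟩, ⟨δ', hδ'⟩, fun hh => hne (congrArg Subtype.val hh), ⟨hqS.1, hqS.2, hP⟩,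
        ⟨hqS.1, hqS.2, hP'⟩, ?_, ?_⟩
      · have g := hNBU h n m k π p e r f w0 c s₀ v δ _ _ _ _ _ _ _ _ _ E q hN hh hδ (hPl ⟨δ, hδ⟩)
          hE hq (by omega) hqS.1 hqS.2 hqn hP
        rw [hw, Nat.log_pow (by norm_num)] at g
        exact CubeRank.rr_le g
      · have g := hNBU h n m k π p e r f w0 c s₀ v δ' _ _ _ _ _ _ _ _ _ E q hN hh hδ'
          (hPl ⟨δ', hδ'⟩) hE hq (by omega) hqS.1 hqS.2 hqn hP'
        rw [hw, Nat.log_pow (by norm_num)] at g
        exact CubeRank.rr_le g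
  -- the averages for the patterns
  have hA := fun δ : {δ : Fin s₀ → ZMod 3 // δ ≠ 0} =>
    hJPG h n m k π p e r f w0 c s₀ v δ.1 _ _ _ _ _ _ _ _ _ hN hh δ.2 (hPl δ)
  have hZ := hJPZ h n m k π p e r f w0 c s₀ τ₀ b₀ X₀ Y₀ P₀ Q₀ P₀' Q₀' hN hh hPl₀
  set D := dN h n w0 with hD
  set j := vN h n π p e r w0 c - v0N h n π p e r w0 c with hj
  have hjD : j ≤ D := by
    have := hVDIM h n m k π p e r w0 c hh
    omega
  have hDc := dN_cases h n w0
  rw [← hD] at hDc
  have hD2 : D ≤ 2 := by omega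
  have h3d : (0 : ℝ) < 3 ^ s₀ := by positivity
  have h3m : (0 : ℝ) < 3 ^ (m + 1) := by positivity
  have hmo : Monotone fun _ : ℕ => (1 : ℝ) := fun _ _ _ => le_rfl
  have hmid : Monotone fun c : ℕ => (c : ℝ) := Nat.mono_cast
  have hmid1 : Monotone fun c : ℕ => ((c + 1 : ℕ) : ℝ) := fun a b hab => by
    show ((a + 1 : ℕ) : ℝ) ≤ ((b + 1 : ℕ) : ℝ)
    exact_mod_cast Nat.succ_le_succ hab
  constructor
  · -- the rank
    have rank : ∀ α β z : ℝ, 0 ≤ α → 0 ≤ β → (∀ w : ℕ, (w : ℝ) ≤ α + β * 3 ^ w) →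
        α + β * gM 1 j + 13 / 12 ≤ z → UpS S (fun E q => (R E q : ℝ)) (z / 3 ^ (m + 1)) := by
      intro α β z hα hβ hw hz
      have g := gen hUPS S TP TZ R N κ κ₀ (M + M₁ + n + 3) main (fun a => (a : ℝ)) Nat.mono_cast
        (fun a b => α * ((a : ℝ) ^ 0 * 1) + β * ((a : ℝ) ^ 1 * 1) + 1 * ((a : ℝ) ^ 0 * (b : ℝ)))
        (fun a b => by positivity)
        (fun w a => by
          have := hw w
          push_cast
          linarith)
        (x := α * (1 * (1 * (2 / 3 ^ s₀ / 3 ^ (m + 1)))) +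
          β * (gM 1 j * (1 * (2 / 3 ^ s₀ / 3 ^ (m + 1)))) +
          1 * (Esk (s₀ - 1) (fun c => (c : ℝ)) * (2 / 3 ^ s₀ / 3 ^ (m + 1))))
        (y := α * (1 * (1 * (1 / 3 ^ s₀ / 3 ^ (m + 1)))) +
          β * (gM 1 j * (1 * (1 / 3 ^ s₀ / 3 ^ (m + 1)))) +
          1 * (Esk s₀ (fun c => ((c + 1 : ℕ) : ℝ)) * (1 / 3 ^ s₀ / 3 ^ (m + 1))))
        (fun δ => by
          have a1 := hA δ 0 _ hmo zero_le_one
          have a2 := hA δ 1 _ hmo zero_le_one
          have a3 := hA δ 0 _ hmid (by simp)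
          rw [KUP.Esk_one] at a1 a2
          refine up_add (up_add (hUPS.2.2 _ _ _ α hα a1) (hUPS.2.2 _ _ _ β hβ a2)) ?_
          exact a3.elim fun K hK => ⟨K, fun σ g1 g2 T => by
            refine le_trans (le_of_eq ?_) (hK σ g1 g2 T |>.trans (le_of_eq ?_))
            · refine Finset.sum_congr rfl fun E _ => Finset.sum_congr rfl fun q _ => ?_
              simp only [one_mul]
              rfl
            · simp only [gM, one_mul]⟩)
        (by
          have a1 := hZ 0 _ hmo zero_le_one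
          have a2 := hZ 1 _ hmo zero_le_one
          have a3 := hZ 0 _ hmid1 (by simp)
          rw [KUP.Esk_one] at a1 a2
          refine up_add (up_add (hUPS.2.2 _ _ _ α hα a1) (hUPS.2.2 _ _ _ β hβ a2)) ?_
          exact a3.elim fun K hK => ⟨K, fun σ g1 g2 T => by
            refine le_trans (le_of_eq ?_) (hK σ g1 g2 T |>.trans (le_of_eq ?_))
            · refine Finset.sum_congr rfl fun E _ => Finset.sum_congr rfl fun q _ => ?_
              simp only [one_mul]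
              rfl
            · simp only [gM, one_mul]⟩)
      refine hUPS.2.1 _ _ _ _ ?_ g
      have hL := hLAM.1 (s₀ + 1)
      have e1 := AM1.alg1 α β (gM 1 j) (Esk (s₀ - 1) (fun c => (c : ℝ)))
        (Esk s₀ (fun c => ((c + 1 : ℕ) : ℝ))) (3 ^ s₀) (3 ^ (m + 1)) h3d.ne' h3m.ne'
      rw [e1]
      refine div_le_div_of_nonneg_right ?_ h3m.le
      have e2 := hESZ s₀ (fun c => (c : ℝ))
      rw [e2]
      linarith
    refine hUPA h n m k π p e r f w0 c 1 (fun A => (CubeRank.rr A : ℝ)) _ hN ?_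
    show UpS S (fun E q => (R E q : ℝ)) (aW D / 3 ^ (m + 1))
    have hg1 := gM_le hGMB 1 j D hjD hD2
    obtain ⟨-, -, -, -, hg12, -, hM1, -⟩ := hGMB
    by_cases hD1 : D ≤ 1
    · refine rank (1 / 2) (1 / 6) _ (by norm_num) (by norm_num) nat1 ?_
      rw [cM, if_pos hD1, hM1] at hg1
      rw [aW, if_pos hD1]
      linarith
    · refine rank (3 / 2) (1 / 18) _ (by norm_num) (by norm_num) nat2 ?_
      rw [cM, if_neg hD1, hg12] at hg1
      rw [aW, if_neg hD1]
      linarith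
  · -- the powers
    intro k₀
    refine hUPA h n m k π p e r f w0 c 1 (fun A => 3 ^ (k₀ * CubeRank.rr A)) _ hN ?_
    show UpS S (fun E q => (3 : ℝ) ^ (k₀ * R E q)) (cM k₀ D * MoB k₀ / 3 ^ (m + 1))
    have hmp : Monotone fun c : ℕ => (3 : ℝ) ^ (k₀ * c) := fun a b hab =>
      pow_le_pow_right₀ (by norm_num) (Nat.mul_le_mul_left _ hab)
    have hmp1 : Monotone fun c : ℕ => (3 : ℝ) ^ (k₀ * (c + 1)) := fun a b hab =>
      pow_le_pow_right₀ (by norm_num) (Nat.mul_le_mul_left _ (Nat.succ_le_succ hab))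
    have hp0 : (0 : ℝ) ≤ 3 ^ (k₀ * 0) := by positivity
    have hp1 : (0 : ℝ) ≤ 3 ^ (k₀ * (0 + 1)) := by positivity
    have a1 := fun δ => hA δ k₀ (fun c => (3 : ℝ) ^ (k₀ * c)) hmp hp0
    have a2 := hZ k₀ (fun c => (3 : ℝ) ^ (k₀ * (c + 1))) hmp1 hp1
    have g := gen hUPS S TP TZ R N κ κ₀ (M + M₁ + n + 3) main (fun a => (3 : ℝ) ^ (k₀ * a))
      hmp (fun a b => (a : ℝ) ^ k₀ * 3 ^ (k₀ * b))
      (fun a b => by positivity)
      (fun w a => by
        push_cast
        rw [mul_add, pow_add, ← pow_mul, mul_comm w k₀])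
      (x := gM k₀ j * (Esk (s₀ - 1) (fun c => (3 : ℝ) ^ (k₀ * c)) * (2 / 3 ^ s₀ / 3 ^ (m + 1))))
      (y := gM k₀ j * (Esk s₀ (fun c => (3 : ℝ) ^ (k₀ * (c + 1))) * (1 / 3 ^ s₀ / 3 ^ (m + 1))))
      a1 a2
    refine hUPS.2.1 _ _ _ _ ?_ g
    have e1 := AM1.alg2 (gM k₀ j) (Esk (s₀ - 1) (fun c => (3 : ℝ) ^ (k₀ * c)))
      (Esk s₀ (fun c => (3 : ℝ) ^ (k₀ * (c + 1)))) (3 ^ s₀) (3 ^ (m + 1)) h3d.ne' h3m.ne'
    rw [e1]
    refine div_le_div_of_nonneg_right ?_ h3m.le
    have e2 := hESZ s₀ (fun c => (3 : ℝ) ^ (k₀ * c))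
    rw [e2]
    have e3 := hESB (s₀ + 1) k₀
    have hg1 := gM_le hGMB k₀ j D hjD hD2
    have hMB : 1 ≤ MoB k₀ := hGMB.2.2.2.2.2.1 k₀
    have hcM : 0 ≤ cM k₀ D := by
      unfold cM
      split_ifs
      · linarith
      · exact le_trans (by linarith) (hGMB.2.2.1 k₀)
    have hE0 : 0 ≤ Esk (s₀ + 1) (fun c => (3 : ℝ) ^ (k₀ * c)) := by
      unfold Esk
      exact div_nonneg (finsum_nonneg fun M => by positivity) (Nat.cast_nonneg _)
    exact mul_le_mul hg1 e3 hE0 hcM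

end Pool.Agent.PTK


end

section

/-! PTK_FL1 (helper25): the law in a class, `q = 1 (mod 3)`. -/

set_option autoImplicit false

open Finset

namespace Pool.Agent.PTK

open Pool.Agent.Lib_helper18 Pool.Agent.Lib_helper18.Eis Pool.Agent.Lib_helper84.Cub
open Pool.Agent.PT Pool.Agent.PTE Pool.Agent.PT3 Pool.Agent.PTL Pool.Agent.PTN

namespace FL1

lemma Esk_lin (s : ℕ) (A B : ℕ → ℝ) (a b : ℝ) :
    Esk s (fun x => a * A x + b * B x) = a * Esk s A + b * Esk s B := by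
  classical
  unfold Esk
  have : Fintype {M : Matrix (Fin s) (Fin s) (ZMod 3) // M.transpose = -M} :=
    Fintype.ofFinite _
  rw [finsum_eq_sum_of_fintype, finsum_eq_sum_of_fintype, finsum_eq_sum_of_fintype,
    Finset.sum_add_distrib, ← Finset.mul_sum, ← Finset.mul_sum]
  ring

lemma alg (e1 e2 x y : ℝ) (hx : x ≠ 0) (hy : y ≠ 0) :
    ((x - 1) * (e1 * (2 / x / y)) + 2 * (e2 * (1 / x / y))) / 2 =
      ((1 - 1 / x) * e1 + 1 / x * e2) / y := by
  field_simp

end FL1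

/-- PTK_FL1: the law in a class, `q = 1 (mod 3)`. -/
theorem FL1_thm (hUPS : Stmt_UPS) (hNHPT : Stmt_NHPT) (hPLU : Stmt_PLU) (hPLE : Stmt_PLE)
    (hNBU : Stmt_NBU) (hNBX : Stmt_NBX) (hPAT : Stmt_PAT) (hZPV : Stmt_ZPV) (hESZ : Stmt_ESZ)
    (hZBA : Stmt_ZBA) (hMSF : Stmt_MSF) (hCNM : Stmt_CNM) (hZKQ : Stmt_ZKQ)
    (hJDG : Stmt_JDG) (hJDZ : Stmt_JDZ) : Stmt_FL1 := by
  intro h n m k π p e r f w0 c hN hh F hF hF0
  obtain ⟨d, v, hd, hHB⟩ := hNHPT h n m k π p e r f w0 c hN hh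
  have hHB' : HB h n π w0 c v := hHB
  have hn : 0 < n := by
    rw [hN.eq]
    refine Nat.mul_pos (Finset.prod_pos fun i _ => pow_pos (hN.pp i).pos _)
      (Finset.prod_pos fun j _ => pow_pos (hN.rp j).pos _)
  choose s τ b X Y P Q P' Q' hPl using fun δ : {δ : Fin d → ZMod 3 // δ ≠ 0} =>
    hPLU h n m k π p e r f w0 c d v hN hh hHB' δ.1 δ.2
  obtain ⟨s₀, τ₀, b₀, X₀, Y₀, P₀, Q₀, P₀', Q₀', hs₀, hPl₀⟩ := hPLE h n m k π p e r f w0 c hN hh
  have hsd : s₀ = d := hs₀.trans hd.symm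
  subst hsd
  obtain ⟨M, hM⟩ := hPAT s₀ v (fun i => (hHB.1 i).1.ne)
  obtain ⟨M₁, hM₁⟩ := hZPV h n m k π p e r f w0 c s₀ τ₀ b₀ X₀ Y₀ P₀ Q₀ P₀' Q₀' s₀ v hN hh hPl₀ hHB'
  obtain ⟨l, y, hy⟩ := hZBA h n m k π p e r w0 c hh
  obtain ⟨U, V, U', V', hU⟩ := hMSF h n m k π p e r f w0 c hN hh l y hy
  obtain ⟨NN, α, β, hαβ⟩ := hCNM.1 l
  obtain ⟨N₀, hN₀⟩ := hZKQ h n m k π p e r f w0 c hN hh l y U V U' V' hy hU
  have hMn : MnS h n π p e r w0 c y U V U' V' α β := ⟨hy, hU, hαβ⟩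
  set S : ℕ → Set ℕ := fun E => {q | q % 3 = 1 ∧ InCT E π w0 c q} with hS
  set κ : {δ : Fin s₀ → ZMod 3 // δ ≠ 0} → ℕ → ℕ → ℕ := fun δ E q =>
    kU h n (b δ) (X δ) (Y δ) (P δ) (Q δ) (P' δ) (Q' δ) E q with hκ
  set κ₀ : ℕ → ℕ → ℕ := fun E q => kS h n b₀ X₀ Y₀ P₀ Q₀ P₀' Q₀' E q with hκ₀
  set ky : ℕ → ℕ → ℕ := fun E q => kY h n π e y U V U' V' E q with hky
  set R : ℕ → ℕ → ℕ := fun E q => CubeRank.rr (BB h n E q) with hR
  set TP : {δ : Fin s₀ → ZMod 3 // δ ≠ 0} → ℕ → Set ℕ := fun δ E =>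
    {q | q % 3 = 1 ∧ InCT E π w0 c q ∧ q ∈ Pat v δ.1} with hTP
  set TZ : ℕ → Set ℕ := fun E => {q | q % 3 = 1 ∧ InCT E π w0 c q ∧ q ∈ ZP b₀} with hTZ
  have main : ∀ E q, (E = 1 ∨ E = 2) → q.Prime → M + M₁ + n + 3 + N₀ < q → q ∈ S E →
      ∃ w, (fun E q => 3 ^ ky E q) E q = 3 ^ w ∧ ((q ∈ TZ E ∧ R E q ≤ w + (κ₀ E q + 1)) ∨
        ∃ δ δ' : {δ : Fin s₀ → ZMod 3 // δ ≠ 0}, δ ≠ δ' ∧
        q ∈ TP δ E ∧ q ∈ TP δ' E ∧ R E q ≤ w + κ δ E q ∧ R E q ≤ w + κ δ' E q) := by
    intro E q hE hq hMq hqS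
    have hqn : ¬ q ∣ n := fun hdvd => by
      have := Nat.le_of_dvd hn hdvd
      omega
    have hw : Nat.log 3 (Nat.card (WqS h n π p e r w0 c (BB h n E q))) ≤ ky E q :=
      (hN₀ E q hE hq (by omega) (Or.inl hqS.1) hqS.2).2
    refine ⟨ky E q, rfl, ?_⟩
    rcases hM q hq (by omega) hqS.1 with hZ | ⟨δ, δ', hδ, hδ', hne, hP, hP'⟩
    · left
      have hZ' : q ∈ ZP b₀ := hM₁ q hq (by omega) hZ
      refine ⟨⟨hqS.1, hqS.2, hZ'⟩, ?_⟩
      have g := hNBX h n m k π p e r f w0 c s₀ τ₀ b₀ X₀ Y₀ P₀ Q₀ P₀' Q₀' E q hN hh hPl₀ hE hq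
        (by omega) hqS.1 hqS.2 hqn hZ'
      have g2 := CubeRank.rr_le g
      show CubeRank.rr (BB h n E q) ≤ ky E q + (kS h n b₀ X₀ Y₀ P₀ Q₀ P₀' Q₀' E q + 1)
      omega
    · right
      refine ⟨⟨δ, hδ⟩, ⟨δ', hδ'⟩, fun hh => hne (congrArg Subtype.val hh), ⟨hqS.1, hqS.2, hP⟩,
        ⟨hqS.1, hqS.2, hP'⟩, ?_, ?_⟩
      · have g := hNBU h n m k π p e r f w0 c s₀ v δ _ _ _ _ _ _ _ _ _ E q hN hh hδ (hPl ⟨δ, hδ⟩)
          hE hq (by omega) hqS.1 hqS.2 hqn hP
        exact (CubeRank.rr_le g).trans (Nat.add_le_add_right hw _)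
      · have g := hNBU h n m k π p e r f w0 c s₀ v δ' _ _ _ _ _ _ _ _ _ E q hN hh hδ'
          (hPl ⟨δ', hδ'⟩) hE hq (by omega) hqS.1 hqS.2 hqn hP'
        exact (CubeRank.rr_le g).trans (Nat.add_le_add_right hw _)
  have hmo : ∀ i a : ℕ, Monotone fun b : ℕ => F (a + b + i) :=
    fun i a x x' hx => hF (by omega)
  have hnn : ∀ a, 0 ≤ F a := fun a => hF0.trans (hF (Nat.zero_le _))
  have hA := fun δ : {δ : Fin s₀ → ZMod 3 // δ ≠ 0} =>
    hJDG h n m k π p e r f w0 c s₀ v δ.1 _ _ _ _ _ _ _ _ _ hN hh δ.2 (hPl δ) l NN y U V U' V'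
      α β hMn (fun a b => F (a + b)) (hmo 0) (fun a => hnn _)
  have hZ := hJDZ h n m k π p e r f w0 c s₀ τ₀ b₀ X₀ Y₀ P₀ Q₀ P₀' Q₀' hN hh hPl₀ l NN y U V U' V'
      α β hMn (fun a b => F (a + b + 1)) (hmo 1) (fun a => hnn _)
  have h3d : (3 : ℝ) ^ s₀ ≠ 0 := by positivity
  have h3m : (3 : ℝ) ^ (m + 1) ≠ 0 := by positivity
  have hlog : ∀ a : ℕ, Nat.log 3 (3 ^ a) = a := fun a => Nat.log_pow (by norm_num) a
  have g := AM1.gen hUPS S TP TZ R (fun E q => 3 ^ ky E q) κ κ₀ (M + M₁ + n + 3 + N₀) main F hF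
    (fun a b => F (Nat.log 3 a + b)) (fun a b => hnn _)
    (fun w a => by
      show F (w + a) ≤ F (Nat.log 3 (3 ^ w) + a)
      rw [hlog])
    (x := Esk l (fun a => Esk (s₀ - 1) (fun b => F (a + b))) * (2 / 3 ^ s₀ / 3 ^ (m + 1)))
    (y := Esk l (fun a => Esk s₀ (fun b => F (a + b + 1))) * (1 / 3 ^ s₀ / 3 ^ (m + 1)))
    (fun δ => by
      have a1 := hA δ
      simp only [hlog]
      exact a1)
    (by
      simp only [hlog]
      exact hZ)
  rw [FL1.alg _ _ _ _ h3d h3m] at g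
  have e1 : (1 - 1 / (3 : ℝ) ^ s₀) * Esk l (fun a => Esk (s₀ - 1) (fun b => F (a + b))) +
      1 / 3 ^ s₀ * Esk l (fun a => Esk s₀ (fun b => F (a + b + 1))) =
      EsD (vN h n π p e r w0 c) (sN h n π p e r w0 c + 1) F := by
    rw [← FL1.Esk_lin, ← hy.card, ← hd]
    unfold EsD
    congr 1
    funext a
    exact hESZ s₀ (fun b => F (a + b))
  rw [e1] at g
  exact g

end Pool.Agent.PTK


end

section

/-!
# The full law of prime twists: the Hasse norm theorem for a base which is not a cube at `λ`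
-/

set_option autoImplicit false

open NumberField IsDedekindDomain Finset
open scoped nonZeroDivisors Pointwise

namespace Pool.Agent.PTK

open Pool.Agent.Lib_helper18 Pool.Agent.Lib_helper18.Eis Pool.Agent.Lib_helper84.Cub
open Pool.Agent.PT

namespace HN2

theorem cube_of {y a b : Eis} (hb : b ≠ 0) (h : a ^ 3 = y * b ^ 3) : ∃ c : Eis, c ^ 3 = y := by
  have h1 : b ^ 3 ∣ a ^ 3 := ⟨y, by rw [h, mul_comm]⟩
  have h2 : b ∣ a := (IsIntegrallyClosed.pow_dvd_pow_iff (by norm_num : (3 : ℕ) ≠ 0)).1 h1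
  obtain ⟨c, rfl⟩ := h2
  refine ⟨c, mul_right_cancel₀ (pow_ne_zero 3 hb) ?_⟩
  rw [← h]
  ring

theorem sol {x y p q p' q' : Eis} (hx : x ≠ 0) (hy : ¬ ∃ c : Eis, c ^ 3 = y)
    (h : SolWE x y p q p' q') : SolE x y p q p' q' := by
  have hn : p' ^ 3 + x * q' ^ 3 ≠ 0 := by
    intro h1
    apply h.n1
    rw [h.eq, h1, mul_zero]
  have n2 : p ^ 3 - y * p' ^ 3 ≠ 0 := by
    intro h1
    have h2 : p ^ 3 = y * p' ^ 3 := sub_eq_zero.1 h1
    rcases eq_or_ne p' 0 with h3 | h3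
    · have h4 : p = 0 := by
        apply pow_eq_zero_iff (n := 3) (by norm_num) |>.1
        rw [h2, h3]
        ring
      have h5 := h.eq
      have h6 : q ^ 3 = y * q' ^ 3 := by
        apply mul_left_cancel₀ hx
        rw [h3, h4] at h5
        linear_combination h5
      rcases eq_or_ne q' 0 with h7 | h7
      · apply hn
        rw [h3, h7]
        ring
      · exact hy (cube_of h7 h6)
    · exact hy (cube_of h3 h2)
  have g : ∀ i : ℕ, GfE p q p' q' i ≠ 0 := by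
    intro i h1
    unfold GfE at h1
    have h2 : q * p' = w ^ i * p * q' := sub_eq_zero.1 h1
    have h3 : q ^ 3 * p' ^ 3 = p ^ 3 * q' ^ 3 := by
      have h4 : (w ^ i) ^ 3 = 1 := by rw [← pow_mul, mul_comm, pow_mul, w_cube, one_pow]
      calc q ^ 3 * p' ^ 3 = (q * p') ^ 3 := by ring
        _ = (w ^ i) ^ 3 * (p ^ 3 * q' ^ 3) := by rw [h2]; ring
        _ = p ^ 3 * q' ^ 3 := by rw [h4, one_mul]
    have h5 : (p ^ 3 - y * p' ^ 3) * (p' ^ 3 + x * q' ^ 3) = 0 := by
      linear_combination (- x) * h3 - p' ^ 3 * (- h.eq)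
    rcases mul_eq_zero.1 h5 with h6 | h6
    · exact n2 h6
    · exact hn h6
  exact { toSolWE := h, n2 := n2, g1 := g 1, g2 := g 2 }

end HN2

/-- the Hasse norm theorem, with nondegenerate solutions, for a base which is not a cube at `λ` -/
theorem HN2_thm (hNFL : Stmt_NFL) (hNM2 : Stmt_NM2) (hNDS : Stmt_NDS) : Stmt_HN2 := by
  intro x y hx hp hsl hxc hV hy hyc htm hd
  obtain ⟨L, _, _, ι, θ, σ, hC⟩ := hNFL x hx hxc
  obtain ⟨z, hz, hN⟩ := hNM2 x L ι θ σ hx hp hsl hV hxc hC y hy htm hd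
  obtain ⟨p, q, p', q', hs⟩ := hNDS x L ι θ σ hx hC y z hy hz hN
  exact ⟨p, q, p', q', HN2.sol hx hyc hs⟩

end Pool.Agent.PTK


end

section

/-!
# PTK_LAE: the local form of the antisymmetry at the tame places
-/

set_option autoImplicit false

namespace Pool.Agent.PTK

open Pool.Agent.Lib_helper18 Pool.Agent.Lib_helper18.Eis Pool.Agent.Lib_helper84.Cub
open Pool.Agent.PT Pool.Agent.PTE Pool.Agent.PT3 Pool.Agent.PTL Pool.Agent.PTN

namespace LAE

theorem w_ne : (w : Eis) ≠ 0 := by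
  intro h0
  have := congrArg Eis.im h0
  simp at this

theorem GfE_swap (p q p' q' : Eis) (i : ℕ) : GfE p (-p') (-q) q' i = GfE p q p' q' i := by
  unfold GfE
  ring

/-- the swapped solution -/
theorem sol_swap {b x p q p' q' : Eis} (h : SolE b x p q p' q') : SolE x b p (-p') (-q) q' := by
  refine ⟨⟨?_, ?_⟩, ?_, ?_, ?_⟩
  · have := h.eq
    linear_combination this
  · have := h.n2
    intro h0
    apply this
    linear_combination h0
  · have := h.n1
    intro h0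
    apply this
    linear_combination h0
  · rw [GfE_swap]
    exact h.g1
  · rw [GfE_swap]
    exact h.g2

/-- the tame symbols are symbols -/
theorem lsym (hSTM : STM) (hSPP : SPP) (π : PP) : LSym π.1 (tm π.1) 1 :=
  hSTM π.1 π.2.1 (hSPP.2.2.2.1 π).1

theorem tm_swap (π a b : Eis) : tm π b a = - tm π a b := by
  unfold tm
  ring

/-- `(B, b) = 0` at the tame places -/
theorem sy_zero {B b : Eis} (h : AGE B b) (π : PP) : sy (some π) B b = 0 := by
  show tm π.1 B b = 0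
  rw [tm_swap π.1 b B, h.sym π, neg_zero]

/-- `(w, x) = 0` if `x` is a local cube -/
theorem w_lc (hLCI : Stmt_LCI) {π : Eis} {s : Eis → Eis → ZMod 3} {e : ℕ} (hs : LSym π s e)
    {x : Eis} (hx : x ≠ 0) (h : LCE π x) : s w x = 0 := by
  have h1 : s x w = 0 := hLCI.2.2 π s e x w hs h hx w_ne
  rw [hs.skew x w hx w_ne, h1, neg_zero]

/-- expansion of `(w, B x b)` -/
theorem w_mul {π : Eis} {s : Eis → Eis → ZMod 3} {e : ℕ} (hs : LSym π s e) {B x b : Eis}
    (hB : B ≠ 0) (hx : x ≠ 0) (hb : b ≠ 0) : s w (B * x * b) = s w B + s w x + s w b := by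
  rw [hs.skew (B * x * b) w (mul_ne_zero (mul_ne_zero hB hx) hb) w_ne,
    hs.mul _ _ _ (mul_ne_zero hB hx) hb w_ne, hs.mul _ _ _ hB hx w_ne,
    hs.skew B w hB w_ne, hs.skew x w hx w_ne, hs.skew b w hb w_ne]
  ring

theorem dvd_weak {π a : Eis} {M N : ℕ} (hMN : M ≤ N) (h : π ^ N ∣ a) : π ^ M ∣ a :=
  (pow_dvd_pow π hMN).trans h

theorem UVE_swap (s : Eis → Eis → ZMod 3) (B b x p q p' q' : Eis) :
    UVE s B x b p (-p') (-q) q' = UVE s B b x p q p' q' := by
  unfold UVE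
  rw [GfE_swap, GfE_swap]
  have : B * b * x = B * x * b := by ring
  rw [this]

/-- the case that `b` is a local cube and `x` is not -/
theorem half (hSTM : STM) (hSPP : SPP) (hLCI : Stmt_LCI) (hAVE : Stmt_AVE) (hF2E : Stmt_F2E)
    (π : PP) (B b x p q p' q' : Eis) (hB : BGE B) (hb : AGE B b) (hx : AGE B x)
    (hs : SolE b x p q p' q') (h1 : LCE π.1 b) (h2 : ¬ LCE π.1 x) :
    TTE π B b x p q p' q' = UVE (tm π.1) B b x p q p' q' ∧
      TTE π B x b p (-p') (-q) q' = 0 := by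
  have hL := lsym hSTM hSPP π
  have hwb : tm π.1 w b = 0 := w_lc hLCI hL hb.ne h1
  obtain ⟨N0, hN⟩ := hF2E π B b x p q p' q' hB hb hx hs h1 h2
  have hA := (hAVE (some π) B b x p q p' q' hB.ne hb.ne hx.ne hs.toSolWE (sy_zero hx π) h1).2
    _ N0 hN
  constructor
  · unfold TTE
    rw [if_pos h1, hA]
    unfold UVE
    rw [w_mul hL hB.ne hx.ne hb.ne, hwb]
    ring
  · unfold TTE
    rw [if_neg h2, hwb, neg_zero, ite_self]

/-- an admissible noncube at a place dividing `B` has valuation prime to `3` -/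
theorem val_nc (hLCI : Stmt_LCI) {B b : Eis} (hB : BGE B) (hb : AGE B b) (π : PP)
    (hd : π.1 ∣ B) (h : ¬ LCE π.1 b) : ¬ 3 ∣ V π.1 b := by
  intro h3
  apply h
  rw [hLCI.1 π b hb.ne]
  refine ⟨h3, ?_⟩
  have h1 : tm π.1 b B = 0 := hb.sym π
  have h2 : ((V π.1 b : ℕ) : ZMod 3) = 0 := by
    rw [ZMod.natCast_eq_zero_iff]
    exact h3
  unfold tm at h1
  rw [h2, zero_mul, sub_zero] at h1
  have h4 : V π.1 B ≤ 2 := hB.cf π
  have h5 : V π.1 B ≠ 0 := by
    intro h0
    exact (V_eq_zero_iff.1 h0) hd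
  have h6 : ((V π.1 B : ℕ) : ZMod 3) ≠ 0 := by
    intro h0
    rw [ZMod.natCast_eq_zero_iff] at h0
    omega
  have : Fact (Nat.Prime 3) := ⟨Nat.prime_three⟩
  rcases mul_eq_zero.1 h1 with h7 | h7
  · exact absurd h7 h6
  · exact h7

end LAE

open _root_.Pool.Agent.PTK.LAE in
theorem LAE_thm (hAVE : Stmt_AVE) (hF2E : Stmt_F2E) (hF3E : Stmt_F3E) (hF4E : Stmt_F4E)
    (hIF1 : Stmt_IF1) (hLCI : Stmt_LCI) (hSTM : STM) (hSPP : SPP) : Stmt_LAE := by
  intro π B b x p q p' q' hB hb hx hs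
  have hL := lsym hSTM hSPP π
  have hs' := LAE.sol_swap hs
  by_cases h1 : LCE π.1 b
  · by_cases h2 : LCE π.1 x
    · -- both are local cubes
      obtain ⟨N0, hN⟩ := hIF1 π.1 (tm π.1) 1 hL b x p q p' q' hb.ne hx.ne hs
      obtain ⟨N1, hN1⟩ := (hAVE (some π) B b x p q p' q' hB.ne hb.ne hx.ne hs.toSolWE
        (LAE.sy_zero hx π) h1).1
      obtain ⟨N2, hN2⟩ := (hAVE (some π) B x b p (-p') (-q) q' hB.ne hx.ne hb.ne hs'.toSolWE
        (LAE.sy_zero hb π) h2).1
      obtain ⟨r, hr⟩ := h1 (max N0 N1)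
      obtain ⟨ξ, hξ⟩ := h2 (max N0 N2)
      have hwb : tm π.1 w b = 0 := LAE.w_lc hLCI hL hb.ne h1
      have hwx : tm π.1 w x = 0 := LAE.w_lc hLCI hL hx.ne h2
      have e1 := hN r ξ (LAE.dvd_weak (le_max_left _ _) hr) (LAE.dvd_weak (le_max_left _ _) hξ)
        B hB.ne
      have e2 : ASE (tm π.1) B p q p' q' r = AVE (some π) B b p q p' q' :=
        hN1 r (LAE.dvd_weak (le_max_right _ _) hr)
      have e3 : ASE (tm π.1) B p (-p') (-q) q' ξ = AVE (some π) B x p (-p') (-q) q' :=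
        hN2 ξ (LAE.dvd_weak (le_max_right _ _) hξ)
      unfold TTE
      rw [if_pos h1, if_pos h2, hwb, hwx, ← e2, ← e3]
      unfold UVE
      rw [LAE.w_mul hL hB.ne hx.ne hb.ne, hwb, hwx]
      linear_combination e1
    · obtain ⟨h3, h4⟩ := LAE.half hSTM hSPP hLCI hAVE hF2E π B b x p q p' q' hB hb hx hs h1 h2
      rw [h3, h4, add_zero]
  · by_cases h2 : LCE π.1 x
    · obtain ⟨h3, h4⟩ := LAE.half hSTM hSPP hLCI hAVE hF2E π B x b p (-p') (-q) q' hB hx hb hs'
        h2 h1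
      rw [h3, LAE.UVE_swap]
      rw [neg_neg, neg_neg] at h4
      rw [h4, zero_add]
    · -- both are not local cubes
      have hT1 : TTE π B b x p q p' q' =
          if 3 ∣ V π.1 b + V π.1 B ∧ ¬ 3 ∣ V π.1 b then - tm π.1 w x else 0 := by
        unfold TTE
        rw [if_neg h1]
      have hT2 : TTE π B x b p (-p') (-q) q' =
          if 3 ∣ V π.1 x + V π.1 B ∧ ¬ 3 ∣ V π.1 x then - tm π.1 w b else 0 := by
        unfold TTE
        rw [if_neg h2]
      rw [hT1, hT2]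
      by_cases hd : π.1 ∣ B
      · have hvb := LAE.val_nc hLCI hB hb π hd h1
        have hvx := LAE.val_nc hLCI hB hx π hd h2
        rw [hF3E π B b x p q p' q' hB hb hx hs hd hvb hvx]
        simp only [hvb, hvx, not_false_eq_true, and_true]
      · have hvb : V π.1 b = 0 := V_eq_zero (hb.unr π hd)
        have hvx : V π.1 x = 0 := V_eq_zero (hx.unr π hd)
        have hcb : ch π.1 b ≠ 0 := by
          intro h0
          apply h1
          rw [hLCI.1 π b hb.ne]
          exact ⟨by rw [hvb]; exact dvd_zero 3, h0⟩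
        have hcx : ch π.1 x ≠ 0 := by
          intro h0
          apply h2
          rw [hLCI.1 π x hx.ne]
          exact ⟨by rw [hvx]; exact dvd_zero 3, h0⟩
        rw [hF4E π B b x p q p' q' hB hb hx hs hd hcb hcx, hvb, hvx]
        simp

end Pool.Agent.PTK


end

section

/-!
# PTK_LFE: finiteness of the supports, minus part
-/

set_option autoImplicit false

open NumberField IsDedekindDomain Finset
open scoped nonZeroDivisors Pointwise

namespace Pool.Agent.PTK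

open Pool.Agent.Lib_helper18 Pool.Agent.Lib_helper18.Eis Pool.Agent.Lib_helper84.Cub
open Pool.Agent.PT Pool.Agent.PTE Pool.Agent.PT3 Pool.Agent.PTL Pool.Agent.PTN

namespace LFE

/-- Finite support and total sum zero. -/
def FP (c : ZMod 3) (f : PP → ZMod 3) : Prop :=
  (Function.support f).Finite ∧ c + ∑ᶠ π : PP, f π = 0

lemma FP.add {c d : ZMod 3} {f g : PP → ZMod 3} (hf : FP c f) (hg : FP d g) :
    FP (c + d) (fun v => f v + g v) := by
  refine ⟨(hf.1.union hg.1).subset (Function.support_add f g), ?_⟩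
  rw [finsum_add_distrib hf.1 hg.1]
  have h1 := hf.2
  have h2 := hg.2
  linear_combination h1 + h2

lemma FP.sub {c d : ZMod 3} {f g : PP → ZMod 3} (hf : FP c f) (hg : FP d g) :
    FP (c - d) (fun v => f v - g v) := by
  refine ⟨(hf.1.union hg.1).subset (Function.support_sub f g), ?_⟩
  rw [finsum_sub_distrib hf.1 hg.1]
  have h1 := hf.2
  have h2 := hg.2
  linear_combination h1 - h2

lemma FP.sym (hSSL : SSL) {a b : Eis} (ha : a ≠ 0) (hb : b ≠ 0) :
    FP (sl a b) (fun π : PP => tm π.1 a b) := by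
  refine ⟨?_, neg_add_cancel _⟩
  have h1 := (hSSL.2.2.2 a b ha hb).1
  refine (h1.preimage (Option.some_injective PP).injOn).subset ?_
  intro π hπ
  exact hπ

/-- The linear forms at good approximations are prime to `π`. -/
lemma LfE_not_dvd {π b p q r : Eis} (hr : π ∣ r ^ 3 - b) (h : ¬ π ∣ p ^ 3 + b * q ^ 3) (i : ℕ) :
    ¬ π ∣ LfE p q i r := by
  intro hd
  apply h
  have h1 : p ^ 3 + b * q ^ 3 =
      LfE p q i r * (p ^ 2 - p * (q * w ^ i * r) + (q * w ^ i * r) ^ 2) -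
        q ^ 3 * (r ^ 3 - b) := by
    have h2 : (w ^ i) ^ 3 = 1 := by rw [← pow_mul, mul_comm, pow_mul, w_cube, one_pow]
    unfold LfE
    linear_combination (-(q ^ 3 * r ^ 3)) * h2
  rw [h1]
  exact dvd_sub (dvd_mul_of_dvd_left hd _) (dvd_mul_of_dvd_right hr _)

end LFE

open _root_.Pool.Agent.PTK.LFE Pool.Agent.PT.LFIN in
/-- PTK_LFE. -/
theorem LFE_thm (hAVE : Stmt_AVE) (hSTM : STM) (hSPP : SPP) (hSSL : SSL) : Stmt_LFE := by
  refine ⟨?_, ?_⟩
  · intro B b x p q p' q' hB hb hx hs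
    have hn2 : p' ^ 3 + b * q' ^ 3 ≠ 0 := by
      intro h
      apply hs.n1
      rw [hs.eq, h, mul_zero]
    set M : Eis := B * b * x * (p ^ 3 + b * q ^ 3) * (p' ^ 3 + b * q' ^ 3) with hMdef
    have hM : M ≠ 0 := mul_ne_zero (mul_ne_zero (mul_ne_zero (mul_ne_zero hB.ne hb.ne) hx.ne)
      hs.n1) hn2
    refine (hSPP.2.2.1 M hM).subset ?_
    intro π hπ
    by_contra hnd
    apply hπ
    have hd : ∀ n : Eis, n ∣ M → ¬ π.1 ∣ n := fun n hn h1 => hnd (h1.trans hn)
    have hnB := hd B ⟨b * x * (p ^ 3 + b * q ^ 3) * (p' ^ 3 + b * q' ^ 3), by rw [hMdef]; ring⟩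
    have hnb := hd b ⟨B * x * (p ^ 3 + b * q ^ 3) * (p' ^ 3 + b * q' ^ 3), by rw [hMdef]; ring⟩
    have hnx := hd x ⟨B * b * (p ^ 3 + b * q ^ 3) * (p' ^ 3 + b * q' ^ 3), by rw [hMdef]; ring⟩
    have hn1 := hd (p ^ 3 + b * q ^ 3) ⟨B * b * x * (p' ^ 3 + b * q' ^ 3), by rw [hMdef]; ring⟩
    have hn2 := hd (p' ^ 3 + b * q' ^ 3) ⟨B * b * x * (p ^ 3 + b * q ^ 3), by rw [hMdef]; ring⟩
    have hnw : ¬ π.1 ∣ w := fun h1 => π.2.1.not_isUnit (isUnit_of_dvd_unit h1 w_unit)
    show TTE π B b x p q p' q' = 0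
    by_cases hLC : LCE π.1 b
    · have hTT : TTE π B b x p q p' q' = AVE (some π) B b p q p' q' + tm π.1 w x := by
        unfold TTE
        rw [if_pos hLC]
      rw [hTT]
      have hw : tm π.1 w x = 0 := tm_zero hnw hnx
      have hsym : sy (some π) B x = 0 := by
        have h1 := (hSTM π.1 π.2.1 (hSPP.2.2.2.1 π).1).skew x B hx.ne hB.ne
        show tm π.1 B x = 0
        rw [h1, hx.sym π, neg_zero]
      obtain ⟨N0, hN0⟩ := (hAVE (some π) B b x p q p' q' hB.ne hb.ne hx.ne hs hsym hLC).1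
      obtain ⟨r, hr⟩ := hLC (max N0 1)
      have hr0 : uni (some π) ^ N0 ∣ r ^ 3 - b :=
        (pow_dvd_pow _ (le_max_left _ _)).trans hr
      have hr1 : π.1 ∣ r ^ 3 - b := by
        have h1 : π.1 ^ 1 ∣ r ^ 3 - b := (pow_dvd_pow π.1 (le_max_right N0 1)).trans hr
        rwa [pow_one] at h1
      rw [hw, ← hN0 r hr0]
      show tm π.1 B (LfE p q 2 r) + tm π.1 B (LfE p' q' 1 r) -
        tm π.1 B (LfE p q 1 r) - tm π.1 B (LfE p' q' 2 r) + 0 = 0
      rw [tm_zero hnB (LfE_not_dvd hr1 hn1 2), tm_zero hnB (LfE_not_dvd hr1 hn2 1),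
        tm_zero hnB (LfE_not_dvd hr1 hn1 1), tm_zero hnB (LfE_not_dvd hr1 hn2 2)]
      simp
    · unfold TTE
      rw [if_neg hLC, if_neg]
      rintro ⟨-, h1⟩
      apply h1
      rw [V_eq_zero hnb]
      exact dvd_zero 3
  · intro B b x p q p' q' hB hb hx hs
    have hBxb : B * x * b ≠ 0 := mul_ne_zero (mul_ne_zero hB hx) hb
    exact ((FP.sym hSSL hB hs.g1).sub (FP.sym hSSL hB hs.g2)).add (FP.sym hSSL w_ne hBxb)

end Pool.Agent.PTK


end

section

/-!
# PTK_MSP: the primes with large corank are in `SP`, `SM`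
-/

set_option autoImplicit false

open NumberField IsDedekindDomain Finset
open scoped nonZeroDivisors Pointwise

namespace Pool.Agent.PTK

open Pool.Agent.Lib_helper18 Pool.Agent.Lib_helper18.Eis Pool.Agent.Lib_helper84.Cub
open Pool.Agent.PT Pool.Agent.PTE Pool.Agent.PT3 Pool.Agent.PTL Pool.Agent.PTN

namespace MSP

theorem neg_of_two {x y : ZMod 3} (h : ((2 : ℕ) : ZMod 3) * x = y) : x = -y := by
  rw [← h]
  clear h y
  revert x
  decide

end MSP

open _root_.Pool.Agent.PTK.MSP in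
/-- PTK_MSP: the primes with large corank are in `SP`, `SM`. -/
theorem MSP_thm (hDCOT : DCOT) (hTENT : TENT) (hNADT : Stmt_NADT) : Stmt_MSP := by
  classical
  intro h n m k π p e r f w0 c s τ' b X Y P Q P' Q' hNF hh hPl
  have hn0 : 0 < n := PT.FINA.pos_of_nf hNF
  have hN0 : 0 < 3 ^ h * n := Nat.mul_pos (pow_pos (by norm_num) _) hn0
  have hBB : ∀ E q : ℕ, BB h n E q = ((3 ^ h * n : ℕ) : ℤ) * (q : ℤ) ^ E := by
    intro E q
    unfold BB
    push_cast
    ring
  have hAdN := hPl.adm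
  have hSys := hPl.sys
  have hSw := hPl.sw
  have hLam := hPl.lam
  have hAdC : ∀ i, AdC h n π w0 c (b i) := fun i => (hAdN i).1
  have hb0 : ∀ i, b i ≠ 0 := fun i => (hAdC i).ne
  -- the conductor
  have hD : ∀ j i : Fin s, ∃ f₀ : ℕ, 0 < f₀ ∧ (j ≠ i → ∀ f : ℕ, 0 < f → f₀ ∣ f →
      ∃ (C : ZMod 3) (Φ : (ZMod f)ˣ →* Multiplicative (ZMod 3)),
        ∀ (E q : ℕ) (hQ : q.Coprime f), q.Prime → q % 3 = 2 →
          AG (BB h n E q) (b i) →
          ∀ r : ℤ, (q : ℤ) ∣ r ^ 3 - b j →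
            OT (BB h n E q) (b j) (X j) (Y j) (b i) (P j i) (Q j i) (P' j i) (Q' j i) =
            C + E * ((Φ (ZMod.unitOfCoprime q hQ)).toAdd -
              TAUV q (P j i) (Q j i) (P' j i) (Q' j i) r)) := by
    intro j i
    by_cases hji : j = i
    · exact ⟨1, one_pos, fun h => absurd hji h⟩
    · obtain ⟨f₀, h0, h1⟩ := hDCOT (3 ^ h * n) (b j) (X j) (Y j) (b i) (P j i) (Q j i) (P' j i)
        (Q' j i) hN0 (hSys.sol j i hji) (hb0 j) (hb0 i)
      refine ⟨f₀, h0, fun _ f hf hd => ?_⟩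
      obtain ⟨C, Φ, h2⟩ := h1 f hf hd
      refine ⟨C, Φ, fun E q hQ hq hq3 hAG r hr => ?_⟩
      rw [hBB] at hAG ⊢
      exact h2 E q hQ hq hq3 hAG r hr
  choose F0 hF0 hF1 using hD
  refine ⟨∏ j, ∏ i, F0 j i, Finset.prod_pos fun j _ => Finset.prod_pos fun i _ => hF0 j i, ?_⟩
  intro F hFpos hdF κ hκ
  have hFd : ∀ j i, F0 j i ∣ F := fun j i =>
    ((Finset.dvd_prod_of_mem (fun i => F0 j i) (mem_univ i)).trans
      (Finset.dvd_prod_of_mem (fun j => ∏ i, F0 j i) (mem_univ j))).trans hdF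
  have hC : ∀ j i : Fin s, ∃ (C : ZMod 3) (Φ : (ZMod F)ˣ →* Multiplicative (ZMod 3)),
      j ≠ i → ∀ (E q : ℕ) (hQ : q.Coprime F), q.Prime → q % 3 = 2 →
          AG (BB h n E q) (b i) →
          ∀ r : ℤ, (q : ℤ) ∣ r ^ 3 - b j →
            OT (BB h n E q) (b j) (X j) (Y j) (b i) (P j i) (Q j i) (P' j i) (Q' j i) =
            C + E * ((Φ (ZMod.unitOfCoprime q hQ)).toAdd -
              TAUV q (P j i) (Q j i) (P' j i) (Q' j i) r) := by
    intro j i
    by_cases hji : j = i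
    · exact ⟨0, 1, fun h => absurd hji h⟩
    · obtain ⟨C, Φ, h⟩ := hF1 j i hji F hFpos (hFd j i)
      exact ⟨C, Φ, fun _ => h⟩
  choose C Φ hC using hC
  let Φ' : (ZMod F)ˣ →* Multiplicative (Fin s → Fin s → ZMod 3) := PT.FINA.assemble Φ
  obtain ⟨M, hM⟩ : ∃ M, M = n + F := ⟨_, rfl⟩
  -- the matrix
  have hmat : ∀ (E q : ℕ), (E = 1 ∨ E = 2) → q.Prime → M < q → q % 3 = 2 → InCT E π w0 c q →
      ∃ hQ : q.Coprime F, ∀ τ : Fin s → Fin s → ZMod 3,
        (∀ j i, j ≠ i → ∀ r : ℤ, (q : ℤ) ∣ r ^ 3 - b j →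
          τ j i = TAUV q (P j i) (Q j i) (P' j i) (Q' j i) r) →
        MaT b X Y P Q P' Q' (BB h n E q) = alt fun j i =>
          C j i + E * ((Φ j i (ZMod.unitOfCoprime q hQ)).toAdd - τ j i) := by
    intro E q hE hq hqM hq3 hIn
    have hqn : ¬ q ∣ n := fun h => by
      have := Nat.le_of_dvd hn0 h
      omega
    have hQ : q.Coprime F := by
      rw [Nat.Prime.coprime_iff_not_dvd hq]
      intro h
      have := Nat.le_of_dvd hFpos h
      omega
    obtain ⟨hBG, hTy, hiff⟩ := hNADT h n m k π p e r f w0 c E q hNF hh hE hq hq3 hIn hqn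
    have hAG : ∀ i, AG (BB h n E q) (b i) := fun i =>
      ((hiff (b i) (hAdC i).supp).1 (hAdN i)).1
    refine ⟨hQ, ?_⟩
    intro τ hτ
    have hent : ∀ j i, j ≠ i → MaT b X Y P Q P' Q' (BB h n E q) j i =
        C j i + E * ((Φ j i (ZMod.unitOfCoprime q hQ)).toAdd - τ j i) := by
      intro j i hji
      obtain ⟨ρ, hρ⟩ := BFINA.exists_root hq hq3 (b j)
      rw [MaT, if_neg hji, hC j i hji E q hQ hq hq3 (hAG i) ρ hρ, ← hτ j i hji ρ hρ]
    have hanti := (hTENT s τ' b X Y P Q P' Q' (BB h n E q) hSys hSw hBG hAG (hLam _ hTy) hb0).1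
    ext j i
    rw [alt]
    rcases lt_trichotomy j i with h | h | h
    · rw [if_pos h, hent j i h.ne]
    · subst h
      rw [if_neg (lt_irrefl _), if_neg (lt_irrefl _), MaT, if_pos rfl]
    · rw [if_neg (not_lt.2 h.le), if_pos h, hanti j i, hent i j h.ne]
  refine ⟨C, Φ', M, ?_⟩
  intro q t hq hqM hq3
  constructor
  · intro hIn hrr
    obtain ⟨hQ, hm⟩ := hmat 1 q (Or.inl rfl) hq hqM hq3 hIn
    refine ⟨hQ, hq3, ?_, ?_⟩
    · rw [hκ]
      funext i
      refine Fin.cases ?_ (fun i => ?_) i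
      · rw [Fin.cons_zero, Fin.cons_zero]
        have h5 := hIn.1
        rw [pow_one] at h5
        exact h5
      · rw [Fin.cons_succ, Fin.cons_succ]
        have h5 := hIn.2 i
        rw [Nat.cast_one, one_mul] at h5
        exact h5
    · intro τ hτ
      have e1 : (fun j i => C j i + ((1 : ℕ) : ZMod 3) *
          ((Φ j i (ZMod.unitOfCoprime q hQ)).toAdd - τ j i)) =
          C + (Φ' (ZMod.unitOfCoprime q hQ)).toAdd - τ := by
        funext j i
        show C j i + ((1 : ℕ) : ZMod 3) * ((Φ j i (ZMod.unitOfCoprime q hQ)).toAdd - τ j i) =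
          C j i + (Φ j i (ZMod.unitOfCoprime q hQ)).toAdd - τ j i
        rw [Nat.cast_one]
        ring
      rw [← e1, ← hm τ hτ]
      exact hrr
  · intro hIn hrr
    obtain ⟨hQ, hm⟩ := hmat 2 q (Or.inr rfl) hq hqM hq3 hIn
    refine ⟨hQ, hq3, ?_, ?_⟩
    · rw [hκ]
      funext i
      refine Fin.cases ?_ (fun i => ?_) i
      · rw [Fin.cons_zero, Pi.neg_apply, Fin.cons_zero]
        have h5 := hIn.1
        rw [CL.wt_sq2 hq3] at h5
        exact neg_of_two h5
      · rw [Fin.cons_succ, Pi.neg_apply, Fin.cons_succ]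
        exact neg_of_two (hIn.2 i)
    · intro τ hτ
      have e1 : (fun j i => C j i + ((2 : ℕ) : ZMod 3) *
          ((Φ j i (ZMod.unitOfCoprime q hQ)).toAdd - τ j i)) =
          C - (Φ' (ZMod.unitOfCoprime q hQ)).toAdd + τ := by
        funext j i
        show C j i + ((2 : ℕ) : ZMod 3) * ((Φ j i (ZMod.unitOfCoprime q hQ)).toAdd - τ j i) =
          C j i - (Φ j i (ZMod.unitOfCoprime q hQ)).toAdd + τ j i
        rw [show ((2 : ℕ) : ZMod 3) = -1 from by decide]
        ring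
      rw [← e1, ← hm τ hτ]
      exact hrr

end Pool.Agent.PTK


end

section

/-!
# PTK_NFX: the fixed `S`-units
-/

set_option autoImplicit false

namespace Pool.Agent.PTK

open Pool.Agent.Lib_helper18 Pool.Agent.Lib_helper18.Eis Pool.Agent.Lib_helper84.Cub
open Pool.Agent.PT
open IsDedekindDomain NumberField

namespace NFX

open Pool.Agent.PT.NFIX (uni_prime lam_dvd_three uni_assoc dvd_lam_of_dvd_three exists_place dvd_of_V
  unit_pow_six V_sub)

section

variable {x : Eis} {L : Type} [Field L] [NumberField L] {ι : Eis →+* L} {θ : L}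
  {σ : L ≃ₐ[ℚ] L}

/-- the valuations at the primes above a place -/
theorem val_lt_iff (hSPP : SPP) (hNTR : Stmt_NTR) (hx0 : x ≠ 0) (hx3 : ¬ lam ∣ x)
    (hC : CubE x L ι θ σ) {v : Pl} {P : HeightOneSpectrum (𝓞 L)} (hP : P ∈ Abv ι v) (a : Eis) :
    P.valuation L (ι a) < 1 ↔ uni v ∣ a := by
  have hN := hNTR x L ι θ σ hx0 hx3 hC
  obtain ⟨v', hP', h'⟩ := hN.2.1 P
  have hv : v' = v := uni_assoc hSPP
    ((uni_prime v').associated_of_dvd (uni_prime v) (h' _ hP))
  subst hv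
  refine ⟨h' a, ?_⟩
  rintro ⟨d, rfl⟩
  rw [map_mul, map_mul]
  exact lt_of_le_of_lt (mul_le_of_le_one_right' (hN.1 P d)) hP

theorem abv_unique (hSPP : SPP) (hNTR : Stmt_NTR) (hx0 : x ≠ 0) (hx3 : ¬ lam ∣ x)
    (hC : CubE x L ι θ σ) {v v' : Pl} {P : HeightOneSpectrum (𝓞 L)} (hP : P ∈ Abv ι v)
    (hP' : P ∈ Abv ι v') : v = v' :=
  uni_assoc hSPP ((uni_prime v).associated_of_dvd (uni_prime v')
    ((val_lt_iff hSPP hNTR hx0 hx3 hC hP _).1 hP'))

theorem val_eq (hSPP : SPP) (hNTR : Stmt_NTR) (hx0 : x ≠ 0) (hx3 : ¬ lam ∣ x)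
    (hC : CubE x L ι θ σ) {v : Pl} {P : HeightOneSpectrum (𝓞 L)} (hP : P ∈ Abv ι v) {a : Eis}
    (ha : a ≠ 0) : P.valuation L (ι a) = P.valuation L (ι (uni v)) ^ V (uni v) a := by
  have hN := hNTR x L ι θ σ hx0 hx3 hC
  obtain ⟨d, hd, hnd⟩ := V_split (uni_prime v) ha
  have h1 : P.valuation L (ι d) = 1 := by
    refine le_antisymm (hN.1 P d) (not_lt.1 fun h => hnd ?_)
    exact (val_lt_iff hSPP hNTR hx0 hx3 hC hP d).1 h
  conv_lhs => rw [hd]
  rw [map_mul, map_pow, map_mul, map_pow, h1, mul_one]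

/-- the valuations of an `S`-unit outside of `S` -/
theorem V_eq_of_unit (hSPP : SPP) (hNTR : Stmt_NTR) (hx0 : x ≠ 0) (hx3 : ¬ lam ∣ x)
    (hC : CubE x L ι θ σ) {S : Finset Pl} {u : Lˣ} (hu : u ∈ SU ι S) {a b : Eis} (ha : a ≠ 0)
    (hb : b ≠ 0) (h : (u : L) * ι b = ι a) {v : Pl} (hv : v ∉ S) :
    V (uni v) a = V (uni v) b := by
  have hN := hNTR x L ι θ σ hx0 hx3 hC
  obtain ⟨P, hP⟩ := (hN.2.2.2.1 v).2
  have hPS : P ∉ ⋃ v ∈ S, Abv ι v := by
    simp only [Set.mem_iUnion, not_exists]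
    intro v' hv' hP'
    have := abv_unique hSPP hNTR hx0 hx3 hC hP hP'
    subst this
    exact hv hv'
  have h1 : P.valuation L (u : L) = 1 := hu P hPS
  have h2 := congrArg (P.valuation L) h
  rw [map_mul, h1, one_mul, val_eq hSPP hNTR hx0 hx3 hC hP ha,
    val_eq hSPP hNTR hx0 hx3 hC hP hb] at h2
  have h0 : P.valuation L (ι (uni v)) ≠ 0 := by
    rw [Valuation.ne_zero_iff]
    intro h3
    exact (uni_prime v).ne_zero (hC.inj (h3.trans (map_zero ι).symm))
  have h3 : P.valuation L (ι (uni v)) < 1 := hP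
  exact (pow_right_injective₀ (zero_lt_iff.2 h0) h3.ne h2).symm

end

end NFX

open Pool.Agent.PTK.NFX in
open Pool.Agent.PT.NFIX (uni_prime lam_dvd_three uni_assoc dvd_lam_of_dvd_three exists_place dvd_of_V
  unit_pow_six V_sub) in
/-- the fixed `S`-units. -/
theorem NFX_thm (hSPP : SPP) (hNHN : Stmt_NHN) (hNTR : Stmt_NTR) : Stmt_NFX := by
  classical
  intro x L _ _ ι θ σ hx0 hx3 hC S
  have hN := hNTR x L ι θ σ hx0 hx3 hC
  have hinj := hC.inj
  -- elements of `Z[w]`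
  have h1 : ∀ (u : Lˣ) (a : Eis), (u : L) = ι a → (∀ v : Pl, uni v ∣ a → v ∈ S) →
      u ∈ SF ι σ S := by
    intro u a hu ha
    refine ⟨?_, ?_⟩
    · intro P hP
      change P.valuation L (u : L) = 1
      rw [hu]
      refine le_antisymm (hN.1 P a) (not_lt.1 fun hlt => hP ?_)
      obtain ⟨v, hPv, hv⟩ := hN.2.1 P
      exact Set.mem_iUnion₂.2 ⟨v, ha v (hv a hlt), hPv⟩
    · apply Units.ext
      change σ (u : L) = u
      rw [hu, hC.sι]
  have h2 : ∀ u ∈ SF ι σ S, ∃ a b : Eis, a ≠ 0 ∧ b ≠ 0 ∧ (u : L) * ι b = ι a := by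
    rintro u ⟨-, hu⟩
    have hσ : σ (u : L) = u := congrArg Units.val hu
    obtain ⟨a, b, hb, hab⟩ := (hNHN x L ι θ σ hx0 hC).2.1 u hσ
    refine ⟨a, b, ?_, hb, hab⟩
    rintro rfl
    rw [map_zero] at hab
    rcases mul_eq_zero.1 hab with h | h
    · exact u.ne_zero h
    · exact hb (hinj (h.trans (map_zero ι).symm))
  refine ⟨h1, h2, ?_⟩
  -- the valuation map
  choose! A B hA hB hAB using h2
  let F : Additive (SF ι σ S) →+ (S → ℤ) :=
    { toFun := fun u v => (V (uni v) (A u.toMul) : ℤ) - V (uni v) (B u.toMul)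
      map_zero' := by
        funext v
        have h3 : ((1 : SF ι σ S) : Lˣ) ∈ SF ι σ S := (1 : SF ι σ S).2
        have h4 : (((1 : SF ι σ S) : Lˣ) : L) * ι 1 = ι 1 := by
          rw [map_one, mul_one]
          rfl
        have := V_sub hinj (hA _ h3) (hB _ h3) one_ne_zero one_ne_zero (hAB _ h3) h4
          (uni_prime v)
        change (V (uni v) (A ((1 : SF ι σ S) : Lˣ)) : ℤ) - V (uni v) (B ((1 : SF ι σ S) : Lˣ)) = 0
        rw [this, sub_self]
      map_add' := by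
        intro u u'
        funext v
        have hu := u.toMul.2
        have hu' := u'.toMul.2
        have huu := (u.toMul * u'.toMul).2
        have h4 : (((u.toMul * u'.toMul : SF ι σ S) : Lˣ) : L) *
            ι (B u.toMul * B u'.toMul) = ι (A u.toMul * A u'.toMul) := by
          rw [map_mul, map_mul, ← hAB _ hu, ← hAB _ hu']
          change ((u.toMul : Lˣ) : L) * ((u'.toMul : Lˣ) : L) * _ = _
          ring
        have h5 := V_sub hinj (hA _ huu) (hB _ huu) (mul_ne_zero (hA _ hu) (hA _ hu'))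
          (mul_ne_zero (hB _ hu) (hB _ hu')) (hAB _ huu) h4 (uni_prime v)
        rw [V_mul (uni_prime v) (hA _ hu) (hA _ hu'), V_mul (uni_prime v) (hB _ hu) (hB _ hu')]
          at h5
        change (V (uni v) (A ((u.toMul * u'.toMul : SF ι σ S) : Lˣ)) : ℤ) -
          V (uni v) (B ((u.toMul * u'.toMul : SF ι σ S) : Lˣ)) =
          ((V (uni v) (A u.toMul) : ℤ) - V (uni v) (B u.toMul)) +
          ((V (uni v) (A u'.toMul) : ℤ) - V (uni v) (B u'.toMul))
        rw [h5]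
        push_cast
        ring }
  have hF : ∀ (u : SF ι σ S) (v : S), F (Additive.ofMul u) v =
      (V (uni v) (A (u : Lˣ)) : ℤ) - V (uni v) (B (u : Lˣ)) := fun _ _ => rfl
  let G : Additive (SF ι σ S) →ₗ[ℤ] (S → ℤ) := F.toIntLinearMap
  have hG : ∀ u, G u = F u := fun _ => rfl
  -- surjectivity
  have hsurj : Function.Surjective G := by
    rw [← LinearMap.range_eq_top, ← top_le_iff, ← (Pi.basisFun ℤ S).span_eq, Submodule.span_le]
    rintro _ ⟨v, rfl⟩
    rw [Pi.basisFun_apply]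
    have hne : ι (uni v) ≠ 0 := fun h => (uni_prime v).ne_zero (hinj (h.trans (map_zero ι).symm))
    have hmem : Units.mk0 (ι (uni v)) hne ∈ SF ι σ S := by
      refine h1 _ (uni v) rfl fun v' hv' => ?_
      have := uni_assoc hSPP ((uni_prime v').associated_of_dvd (uni_prime v) hv')
      rw [this]
      exact v.2
    refine ⟨Additive.ofMul ⟨_, hmem⟩, ?_⟩
    funext v'
    rw [hG, hF]
    have h3 : ((Units.mk0 (ι (uni v)) hne : Lˣ) : L) * ι 1 = ι (uni v) := by
      rw [map_one, mul_one]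
      rfl
    rw [V_sub hinj (hA _ hmem) (hB _ hmem) (uni_prime v).ne_zero one_ne_zero (hAB _ hmem) h3
      (uni_prime v'), V_eq_zero (fun h => (uni_prime v').not_isUnit (isUnit_of_dvd_one h))]
    by_cases hvv : v' = v
    · subst hvv
      rw [V_self, Pi.single_eq_same]
      norm_num
    · rw [Pi.single_eq_of_ne hvv, V_eq_zero]
      · norm_num
      · intro h
        exact hvv (Subtype.ext (uni_assoc hSPP
          ((uni_prime v').associated_of_dvd (uni_prime v) h)))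
  -- the kernel
  have hker : Module.rank ℤ (LinearMap.ker G) = 0 := by
    rw [rank_eq_zero_iff]
    rintro ⟨u, hu⟩
    refine ⟨6, by norm_num, ?_⟩
    apply Subtype.ext
    have hu0 : G u = 0 := hu
    have hmem := u.toMul.2
    have hVS : ∀ v : Pl, V (uni v) (A u.toMul) = V (uni v) (B u.toMul) := by
      intro v
      by_cases hv : v ∈ S
      · have h3 := congrFun hu0 ⟨v, hv⟩
        have h4 : (V (uni v) (A u.toMul) : ℤ) - V (uni v) (B u.toMul) = 0 := h3
        omega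
      · exact V_eq_of_unit hSPP hNTR hx0 hx3 hC hmem.1 (hA _ hmem) (hB _ hmem) (hAB _ hmem) hv
    obtain ⟨d, hd⟩ := dvd_of_V hSPP (hB _ hmem) (hA _ hmem) fun v => (hVS v).symm
    obtain ⟨d', hd'⟩ := dvd_of_V hSPP (hA _ hmem) (hB _ hmem) hVS
    have hdd : d * d' = 1 := by
      have h3 : B u.toMul * (d * d') = B u.toMul * 1 := by
        rw [← mul_assoc, ← hd, ← hd', mul_one]
      exact mul_left_cancel₀ (hB _ hmem) h3
    have hud : ((u.toMul : Lˣ) : L) = ι d := by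
      have h3 := hAB _ hmem
      have h4 : ι (B u.toMul) ≠ 0 := fun h => hB _ hmem (hinj (h.trans (map_zero ι).symm))
      rw [hd, map_mul, mul_comm (ι _)] at h3
      exact mul_right_cancel₀ h4 h3
    have h6 : u.toMul ^ 6 = 1 := by
      apply Subtype.ext
      apply Units.ext
      change ((u.toMul : Lˣ) : L) ^ 6 = 1
      rw [hud, ← map_pow, unit_pow_six (IsUnit.of_mul_eq_one _ hdd), map_one]
    change (6 : ℤ) • u = 0
    exact_mod_cast congrArg Additive.ofMul h6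
  have hrank : Module.rank ℤ (Additive (SF ι σ S)) = S.card := by
    rw [LinearMap.rank_eq_of_surjective hsurj, hker, add_zero, rank_fun']
    simp
  rw [Module.finrank, hrank]
  exact Cardinal.toNat_natCast _

end Pool.Agent.PTK


end

section

/-!
# Module UPS (helper57): the calculus of `UpS`
-/

set_option autoImplicit false

open Finset

namespace Pool.Agent.PTK

namespace UPS

theorem log_nn (σ : ℝ) (h1 : 1 < σ) (h2 : σ ≤ 2) : 0 ≤ Real.log (1 / (σ - 1)) := by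
  apply Real.log_nonneg
  rw [le_div_iff₀ (by linarith)]
  linarith

theorem rpow_le_one' (q : ℕ) (hq : q.Prime) (σ : ℝ) (h1 : 1 < σ) : (q : ℝ) ^ (-σ) ≤ 1 := by
  apply Real.rpow_le_one_of_one_le_of_nonpos
  · exact_mod_cast hq.one_lt.le
  · linarith

end UPS

open Classical in
theorem UPS_thm : Stmt_UPS := by
  refine ⟨?_, ?_, ?_⟩
  · intro ι _ S G T G' x c M hc hG' hyp hU
    choose K hK using hU
    refine ⟨(∑ i, K i) / c + ∑ E ∈ ({1, 2} : Finset ℕ), ∑ q ∈ range (M + 1), |G E q|, ?_⟩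
    intro σ h1 h2 U
    have term : ∀ E ∈ ({1, 2} : Finset ℕ), ∀ q ∈ U,
        (if q.Prime ∧ q ∈ S E then G E q * (q : ℝ) ^ (-σ) else 0) ≤
        (1 / c) * ∑ i, (if q.Prime ∧ q ∈ T i E then G' i E q * (q : ℝ) ^ (-σ) else 0) +
          (if q ∈ range (M + 1) then |G E q| else 0) := by
      intro E hE q _
      have hp : 0 ≤ (q : ℝ) ^ (-σ) := Real.rpow_nonneg (Nat.cast_nonneg _) _
      have n1 : 0 ≤ (1 / c) * ∑ i, (if q.Prime ∧ q ∈ T i E then G' i E q * (q : ℝ) ^ (-σ) else 0) := by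
        refine mul_nonneg (by positivity) (Finset.sum_nonneg fun i _ => ?_)
        split_ifs
        · exact mul_nonneg (hG' _ _ _) hp
        · exact le_rfl
      have n2 : 0 ≤ (if q ∈ range (M + 1) then |G E q| else 0) := by
        split_ifs
        · exact abs_nonneg _
        · exact le_rfl
      by_cases hq : q.Prime ∧ q ∈ S E
      · rw [if_pos hq]
        by_cases hM : M < q
        · have hE' : E = 1 ∨ E = 2 := by simpa using hE
          have h3 := hyp E q hE' hq.1 hM hq.2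
          have h4 : G E q * (q : ℝ) ^ (-σ) ≤ (1 / c) *
              ∑ i, (if q.Prime ∧ q ∈ T i E then G' i E q * (q : ℝ) ^ (-σ) else 0) := by
            have h5 : ∑ i, (if q.Prime ∧ q ∈ T i E then G' i E q * (q : ℝ) ^ (-σ) else 0) =
                (∑ i, (if q ∈ T i E then G' i E q else 0)) * (q : ℝ) ^ (-σ) := by
              rw [Finset.sum_mul]
              refine Finset.sum_congr rfl fun i _ => ?_
              by_cases h6 : q ∈ T i E
              · rw [if_pos ⟨hq.1, h6⟩, if_pos h6]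
              · rw [if_neg (fun h => h6 h.2), if_neg h6, zero_mul]
            rw [h5, ← mul_assoc]
            refine mul_le_mul_of_nonneg_right ?_ hp
            rw [one_div, ← div_eq_inv_mul, le_div_iff₀ hc, mul_comm]
            exact h3
          linarith
        · have hr : q ∈ range (M + 1) := by
            rw [mem_range]
            omega
          rw [if_pos hr]
          have h7 : G E q * (q : ℝ) ^ (-σ) ≤ |G E q| := by
            calc G E q * (q : ℝ) ^ (-σ) ≤ |G E q| * (q : ℝ) ^ (-σ) :=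
                  mul_le_mul_of_nonneg_right (le_abs_self _) hp
              _ ≤ |G E q| * 1 :=
                  mul_le_mul_of_nonneg_left (UPS.rpow_le_one' q hq.1 σ h1) (abs_nonneg _)
              _ = |G E q| := mul_one _
          linarith
      · rw [if_neg hq]
        linarith
    have s1 : ∑ E ∈ ({1, 2} : Finset ℕ), ∑ q ∈ U,
        (if q.Prime ∧ q ∈ S E then G E q * (q : ℝ) ^ (-σ) else 0) ≤
        ∑ E ∈ ({1, 2} : Finset ℕ), ∑ q ∈ U,
        ((1 / c) * ∑ i, (if q.Prime ∧ q ∈ T i E then G' i E q * (q : ℝ) ^ (-σ) else 0) +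
          (if q ∈ range (M + 1) then |G E q| else 0)) :=
      Finset.sum_le_sum fun E hE => Finset.sum_le_sum fun q hq => term E hE q hq
    have s2 : ∑ E ∈ ({1, 2} : Finset ℕ), ∑ q ∈ U,
        ((1 / c) * ∑ i, (if q.Prime ∧ q ∈ T i E then G' i E q * (q : ℝ) ^ (-σ) else 0) +
          (if q ∈ range (M + 1) then |G E q| else 0)) =
        (1 / c) * ∑ i, ∑ E ∈ ({1, 2} : Finset ℕ), ∑ q ∈ U,
          (if q.Prime ∧ q ∈ T i E then G' i E q * (q : ℝ) ^ (-σ) else 0) +
        ∑ E ∈ ({1, 2} : Finset ℕ), ∑ q ∈ U, (if q ∈ range (M + 1) then |G E q| else 0) := by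
      simp only [Finset.sum_add_distrib, ← Finset.mul_sum]
      congr 2
      have hcomm : ∀ g : ι → ℕ → ℕ → ℝ, ∑ E ∈ ({1, 2} : Finset ℕ), ∑ q ∈ U, ∑ i, g i E q =
          ∑ i, ∑ E ∈ ({1, 2} : Finset ℕ), ∑ q ∈ U, g i E q := by
        intro g
        have h8 : ∀ E ∈ ({1, 2} : Finset ℕ), ∑ q ∈ U, ∑ i, g i E q = ∑ i, ∑ q ∈ U, g i E q :=
          fun E _ => Finset.sum_comm
        rw [Finset.sum_congr rfl h8]
        exact Finset.sum_comm
      exact hcomm fun i E q => if q.Prime ∧ q ∈ T i E then G' i E q * (q : ℝ) ^ (-σ) else 0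
    have s3 : ∑ i, ∑ E ∈ ({1, 2} : Finset ℕ), ∑ q ∈ U,
          (if q.Prime ∧ q ∈ T i E then G' i E q * (q : ℝ) ^ (-σ) else 0) ≤
        ∑ i, (x i * Real.log (1 / (σ - 1)) + K i) :=
      Finset.sum_le_sum fun i _ => hK i σ h1 h2 U
    have s4 : ∑ E ∈ ({1, 2} : Finset ℕ), ∑ q ∈ U, (if q ∈ range (M + 1) then |G E q| else 0) ≤
        ∑ E ∈ ({1, 2} : Finset ℕ), ∑ q ∈ range (M + 1), |G E q| := by
      refine Finset.sum_le_sum fun E _ => ?_
      rw [← Finset.sum_filter]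
      refine Finset.sum_le_sum_of_subset_of_nonneg ?_ fun _ _ _ => abs_nonneg _
      intro q hq
      exact (Finset.mem_filter.1 hq).2
    have s5 : (1 / c) * ∑ i, ∑ E ∈ ({1, 2} : Finset ℕ), ∑ q ∈ U,
          (if q.Prime ∧ q ∈ T i E then G' i E q * (q : ℝ) ^ (-σ) else 0) ≤
        (1 / c) * ∑ i, (x i * Real.log (1 / (σ - 1)) + K i) :=
      mul_le_mul_of_nonneg_left s3 (by positivity)
    have s6 : (1 / c) * ∑ i, (x i * Real.log (1 / (σ - 1)) + K i) =
        (∑ i, x i) / c * Real.log (1 / (σ - 1)) + (∑ i, K i) / c := by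
      rw [Finset.sum_add_distrib, ← Finset.sum_mul]
      ring
    rw [s2] at s1
    linarith
  · rintro S G x y hxy ⟨K, hK⟩
    refine ⟨K, fun σ h1 h2 U => (hK σ h1 h2 U).trans ?_⟩
    have h3 := mul_le_mul_of_nonneg_right hxy (UPS.log_nn σ h1 h2)
    linarith
  · rintro S G x c hc ⟨K, hK⟩
    refine ⟨c * K, fun σ h1 h2 U => ?_⟩
    have h3 := mul_le_mul_of_nonneg_left (hK σ h1 h2 U) hc
    have h4 : ∑ E ∈ ({1, 2} : Finset ℕ), ∑ q ∈ U,
        (if q.Prime ∧ q ∈ S E then c * G E q * (q : ℝ) ^ (-σ) else 0) =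
        c * ∑ E ∈ ({1, 2} : Finset ℕ), ∑ q ∈ U,
        (if q.Prime ∧ q ∈ S E then G E q * (q : ℝ) ^ (-σ) else 0) := by
      rw [Finset.mul_sum]
      refine Finset.sum_congr rfl fun E _ => ?_
      rw [Finset.mul_sum]
      refine Finset.sum_congr rfl fun q _ => ?_
      split_ifs
      · ring
      · ring
    rw [h4]
    calc _ ≤ c * (x * Real.log (1 / (σ - 1)) + K) := h3
      _ = c * x * Real.log (1 / (σ - 1)) + c * K := by ring

end Pool.Agent.PTK


end

section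

/-! PTK_VDIM (helper87): the codimension of `V0`. -/

set_option autoImplicit false

namespace Pool.Agent.PTK

open Pool.Agent.Lib_helper18 Pool.Agent.Lib_helper18.Eis Pool.Agent.Lib_helper84.Cub
open Pool.Agent.PT Pool.Agent.PTE Pool.Agent.PT3 Pool.Agent.PTL Pool.Agent.PTN

namespace VDIM

/-- one linear condition lowers the dimension by at most one -/
lemma step {M : ℕ} (S : Submodule (ZMod 3) (Fin M → ZMod 3)) (l : (Fin M → ZMod 3) →ₗ[ZMod 3] ZMod 3) :
    Module.finrank (ZMod 3) S ≤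
      Module.finrank (ZMod 3) (S ⊓ LinearMap.ker l : Submodule (ZMod 3) (Fin M → ZMod 3)) + 1 := by
  have h1 := LinearMap.finrank_range_add_finrank_ker (l.comp S.subtype)
  have h2 : Module.finrank (ZMod 3) (LinearMap.range (l.comp S.subtype)) ≤ 1 := by
    have := Submodule.finrank_le (LinearMap.range (l.comp S.subtype))
    rwa [Module.finrank_self] at this
  have h3 : Module.finrank (ZMod 3) (LinearMap.ker (l.comp S.subtype)) =
      Module.finrank (ZMod 3) (S ⊓ LinearMap.ker l : Submodule (ZMod 3) (Fin M → ZMod 3)) := by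
    rw [LinearMap.ker_comp, ← Submodule.map_comap_subtype]
    exact (Submodule.finrank_map_subtype_eq _ _).symm
  omega

end VDIM

open _root_.Pool.Agent.PTK.VDIM

theorem VDIM_thm : Stmt_VDIM := by
  classical
  intro h n m k π p e r w0 c hh
  unfold vN v0N
  set VSS := VS h n π p e r w0 c with hVSS
  set l1 : (Fin (m + 1) → ZMod 3) →ₗ[ZMod 3] ZMod 3 := LinearMap.proj 0 with hl1
  set l2 : (Fin (m + 1) → ZMod 3) →ₗ[ZMod 3] ZMod 3 :=
    ∑ i : Fin m, ((e i : ZMod 3) * sym (π i).1 3) • LinearMap.proj i.succ with hl2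
  have e1 : ∀ y, l1 y = y 0 := fun y => rfl
  have e2 : ∀ y, l2 y = ∑ i : Fin m, y i.succ * ((e i : ZMod 3) * sym (π i).1 3) := by
    intro y
    rw [hl2, LinearMap.sum_apply]
    refine Finset.sum_congr rfl fun i _ => ?_
    rw [LinearMap.smul_apply, LinearMap.proj_apply, smul_eq_mul, mul_comm]
  have hmem : ∀ y, y ∈ V0 h n π p e r w0 c ↔ y ∈ VSS ∧ l1 y = 0 ∧ l2 y = 0 := by
    intro y
    rw [e1, e2]
    exact Iff.rfl
  -- the column `inl 0`
  have hcol : ∀ y ∈ VSS, h ≠ 0 → y 0 * (wt ((n : ℤ) ^ 2) + w0) + l2 y = 0 := by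
    intro y hy h0
    have h1 := hy.2 (Sum.inl 0) (fun h' => absurd h' h0)
    rw [Matrix.vecMul, dotProduct, Fin.sum_univ_succ] at h1
    rw [e2]
    exact h1
  have hact : ∀ y ∈ VSS, ¬ actR h n w0 → l1 y = 0 := fun y hy ha => hy.1 ha
  unfold dN
  by_cases h1 : h = 1
  · rw [if_pos h1, add_zero]
    apply Submodule.finrank_mono
    intro y hy
    have ha : ¬ actR h n w0 := by
      rintro (h2 | ⟨h2, -⟩) <;> omega
    have hy0 := hact y hy ha
    have hc := hcol y hy (by omega)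
    rw [e1] at hy0
    rw [hy0, zero_mul, zero_add] at hc
    exact (hmem y).mpr ⟨hy, hy0, hc⟩
  rw [if_neg h1]
  by_cases h2 : h = 0 ∧ wt ((n : ℤ) ^ 2) + w0 = 0
  · rw [if_pos h2]
    have s1 := step VSS l1
    have s2 := step (VSS ⊓ LinearMap.ker l1) l2
    have s3 : Module.finrank (ZMod 3) (VSS ⊓ LinearMap.ker l1 ⊓ LinearMap.ker l2 :
        Submodule (ZMod 3) (Fin (m + 1) → ZMod 3)) ≤
        Module.finrank (ZMod 3) (V0 h n π p e r w0 c) := by
      apply Submodule.finrank_mono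
      rintro y ⟨⟨hy, h3⟩, h4⟩
      exact (hmem y).mpr ⟨hy, h3, h4⟩
    omega
  rw [if_neg h2]
  by_cases h3 : h = 0
  · have ha : ¬ actR h n w0 := by
      rintro (h4 | h4)
      · omega
      · exact h2 h4
    have s1 := step VSS l2
    have s3 : Module.finrank (ZMod 3) (VSS ⊓ LinearMap.ker l2 :
        Submodule (ZMod 3) (Fin (m + 1) → ZMod 3)) ≤
        Module.finrank (ZMod 3) (V0 h n π p e r w0 c) := by
      apply Submodule.finrank_mono
      rintro y ⟨hy, h4⟩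
      exact (hmem y).mpr ⟨hy, hact y hy ha, h4⟩
    omega
  · have s1 := step VSS l1
    have s3 : Module.finrank (ZMod 3) (VSS ⊓ LinearMap.ker l1 :
        Submodule (ZMod 3) (Fin (m + 1) → ZMod 3)) ≤
        Module.finrank (ZMod 3) (V0 h n π p e r w0 c) := by
      apply Submodule.finrank_mono
      rintro y ⟨hy, h4⟩
      have hy0 : y 0 = 0 := h4
      have hc := hcol y hy h3
      rw [hy0, zero_mul, zero_add] at hc
      exact (hmem y).mpr ⟨hy, h4, hc⟩
    omega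

end Pool.Agent.PTK


end

section

/-!
# PTK_ZBA: a basis of `VS` adapted to the place above `3`
-/

set_option autoImplicit false

namespace Pool.Agent.PTK

open Pool.Agent.Lib_helper18 Pool.Agent.Lib_helper18.Eis Pool.Agent.Lib_helper84.Cub
open Pool.Agent.PT Pool.Agent.PTE Pool.Agent.PT3 Pool.Agent.PTL Pool.Agent.PTN

namespace ZBA

variable {K V : Type*} [Field K] [AddCommGroup V] [Module K V] [FiniteDimensional K V]

/-- extension of a linearly independent family by at most one vector -/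
lemma ext1 (B : Submodule K V) {a : ℕ} (y : Fin a → V) (hy : LinearIndependent K y)
    (hB : ∀ i, y i ∈ B) (hB1 : Module.finrank K B ≤ a + 1) :
    ∃ y' : Fin (Module.finrank K B) → V, LinearIndependent K y' ∧ (∀ i, y' i ∈ B) ∧
      ∀ (i : Fin (Module.finrank K B)) (h : i.val < a), y' i = y ⟨i.val, h⟩ := by
  obtain ⟨d, hd⟩ : ∃ d, d = Module.finrank K B := ⟨_, rfl⟩
  have hspan : Submodule.span K (Set.range y) ≤ B := by
    rw [Submodule.span_le]
    rintro _ ⟨i, rfl⟩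
    exact hB i
  have hfs : Module.finrank K (Submodule.span K (Set.range y)) = a := by
    rw [finrank_span_eq_card hy, Fintype.card_fin]
  have hle : a ≤ d := by
    rw [hd, ← hfs]
    exact Submodule.finrank_mono hspan
  rw [← hd] at hB1 ⊢
  rcases Nat.lt_or_ge a d with h1 | h1
  · have hda : d = a + 1 := by omega
    subst hda
    obtain ⟨v, hvB, hv⟩ : ∃ v ∈ B, v ∉ Submodule.span K (Set.range y) := by
      by_contra hcon
      push Not at hcon
      have h2 : B ≤ Submodule.span K (Set.range y) := hcon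
      have h3 := Submodule.finrank_mono h2
      rw [hfs, ← hd] at h3
      omega
    refine ⟨Fin.snoc y v, linearIndependent_finSnoc.2 ⟨hy, hv⟩, ?_, ?_⟩
    · intro i
      refine Fin.lastCases ?_ (fun j => ?_) i
      · rw [Fin.snoc_last]
        exact hvB
      · rw [Fin.snoc_castSucc]
        exact hB j
    · intro i h
      exact Fin.snoc_castSucc (α := fun _ => V) v y ⟨i.val, h⟩
  · have hda : d = a := by omega
    subst hda
    exact ⟨y, hy, hB, fun i h => rfl⟩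

/-- a basis adapted to a flag of three subspaces -/
lemma flag {A B C : Submodule K V} (hAB : A ≤ B) (hBC : B ≤ C)
    (h1 : Module.finrank K B ≤ Module.finrank K A + 1)
    (h2 : Module.finrank K C ≤ Module.finrank K B + 1) :
    ∃ y : Fin (Module.finrank K C) → V, LinearIndependent K y ∧ (∀ i, y i ∈ C) ∧
      (∀ i, i.val < Module.finrank K A → y i ∈ A) ∧
      ∀ i, i.val < Module.finrank K B → y i ∈ B := by
  set b := Module.finBasis K A with hb
  have ha : LinearIndependent K fun i => (b i : V) :=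
    b.linearIndependent.map' A.subtype (Submodule.ker_subtype A)
  obtain ⟨y, hy, hyB, hyA⟩ := ext1 B (fun i => (b i : V)) ha (fun i => hAB (b i).2) h1
  obtain ⟨z, hz, hzC, hzB⟩ := ext1 C y hy (fun i => hBC (hyB i)) h2
  refine ⟨z, hz, hzC, fun i hi => ?_, fun i hi => ?_⟩
  · have h3 : i.val < Module.finrank K B := lt_of_lt_of_le hi (Submodule.finrank_mono hAB)
    rw [hzB i h3, hyA _ hi]
    exact (b _).2
  · rw [hzB i hi]
    exact hyB _

end ZBA

open _root_.Pool.Agent.PTK.ZBA in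
/-- PTK_ZBA. -/
theorem ZBA_thm (hVDIM : Stmt_VDIM) : Stmt_ZBA := by
  classical
  intro h n m k π p e r w0 c hh
  obtain ⟨S, hS⟩ : ∃ S, S = VS h n π p e r w0 c := ⟨_, rfl⟩
  obtain ⟨A, hA⟩ : ∃ A, A = V0 h n π p e r w0 c := ⟨_, rfl⟩
  obtain ⟨l1, hl1⟩ : ∃ l1 : (Fin (m + 1) → ZMod 3) →ₗ[ZMod 3] ZMod 3, l1 = LinearMap.proj 0 :=
    ⟨_, rfl⟩
  obtain ⟨l2, hl2⟩ : ∃ l2 : (Fin (m + 1) → ZMod 3) →ₗ[ZMod 3] ZMod 3,
    l2 = ∑ i : Fin m, ((e i : ZMod 3) * sym (π i).1 3) • LinearMap.proj i.succ := ⟨_, rfl⟩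
  have e1 : ∀ y, l1 y = y 0 := fun y => by rw [hl1]; rfl
  have e2 : ∀ y, l2 y = ∑ i : Fin m, y i.succ * ((e i : ZMod 3) * sym (π i).1 3) := by
    intro y
    rw [hl2, LinearMap.sum_apply]
    refine Finset.sum_congr rfl fun i _ => ?_
    rw [LinearMap.smul_apply, LinearMap.proj_apply, smul_eq_mul, mul_comm]
  obtain ⟨B, hB⟩ : ∃ B, B = S ⊓ LinearMap.ker l1 := ⟨_, rfl⟩
  have hAeq : A = B ⊓ LinearMap.ker l2 := by
    ext y
    rw [hA, hB, Submodule.mem_inf, Submodule.mem_inf, LinearMap.mem_ker, LinearMap.mem_ker, e1, e2,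
      hS, and_assoc]
    exact Iff.rfl
  have hAB : A ≤ B := by rw [hAeq]; exact inf_le_left
  have hBS : B ≤ S := by rw [hB]; exact inf_le_left
  have f1 : Module.finrank (ZMod 3) B ≤ Module.finrank (ZMod 3) A + 1 := by
    rw [hAeq]; exact VDIM.step B l2
  have f2 : Module.finrank (ZMod 3) S ≤ Module.finrank (ZMod 3) B + 1 := by
    rw [hB]; exact VDIM.step S l1
  have f3 : Module.finrank (ZMod 3) S ≤ Module.finrank (ZMod 3) A + dN h n w0 := by
    rw [hS, hA]; exact hVDIM h n m k π p e r w0 c hh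
  obtain ⟨y, hy, hyS, hyA, hyB⟩ := flag hAB hBS f1 f2
  refine ⟨_, y, hy, fun i => by rw [← hS]; exact hyS i, by rw [hS]; rfl, ?_, ?_⟩
  · by_cases ht : h = 0 ∧ wt ((n : ℤ) ^ 2) + w0 = 0
    · exact Or.inl ht
    · right
      have hd : dN h n w0 ≤ 1 := by
        unfold dN
        split_ifs
        · exact Nat.zero_le _
        · exact le_rfl
      intro i j hij
      rw [← hA]
      by_contra hcon
      push Not at hcon
      have g1 : ¬ i.val < Module.finrank (ZMod 3) A := fun h' => hcon.1 (hyA i h')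
      have g2 : ¬ j.val < Module.finrank (ZMod 3) A := fun h' => hcon.2 (hyA j h')
      have g3 := i.2
      have g4 := j.2
      apply hij
      apply Fin.ext
      omega
  · intro i j hij
    rw [← hA]
    by_cases g1 : y i ∈ A
    · exact Or.inl g1
    · right
      by_cases g2 : y j ∈ A
      · exact Or.inl g2
      · right
        have g4 := j.2
        have g5 : i.val < j.val := hij
        have g6 : y i ∈ B := hyB i (by omega)
        rw [hB, Submodule.mem_inf, LinearMap.mem_ker, e1] at g6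
        exact g6.2

end Pool.Agent.PTK


end
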