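import Mathlib
import Pool.Agent.PTDM.C26
import Pool.Agent.PTDM.C27
import Pool.Agent.PTDM.C29
import Pool.Agent.PTDM.C32
import Pool.Agent.PTDM.C43
import Pool.Agent.PTDM.C44
import Pool.Agent.PTDM.C45
import Pool.Agent.PTDM.C46
import Pool.Agent.PTKW.C01
import Pool.Agent.PTKW.C02
import Pool.Agent.PTKW.C04

/-! Parts: PTKX.AWF, PTKX.CBV, PTKX.DX1, PTKX.ESZ, PTKX.KUM, PTKX.LEE, PTKX.GAK, PTKX.MAL, PTKX.JAU, PTKX.MAU, PTKX.JAZ, PTKX.MAZ, PTKX.MSPU, PTKX.NBW, PTKX.PAT, PTKX.SAE, PTKX.UPL -/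

section

/-!
# PTK_AWF: the averages over all `A`
-/

set_option autoImplicit false

open Finset

namespace Pool.Agent.PTK

open Pool.Agent.Lib_helper18 Pool.Agent.Lib_helper18.Eis Pool.Agent.Lib_helper84.Cub
open Pool.Agent.PT Pool.Agent.PTE Pool.Agent.PT3 Pool.Agent.PTL Pool.Agent.PTN

namespace AWF

/-- there are `3 ^ (m + 1)` classes -/
theorem const_sum (m : ℕ) (x : ℝ) :
    ∑ _y : ZMod 3 × (Fin m → ZMod 3), x / 3 ^ (m + 1) = x := by
  rw [Finset.sum_const, Finset.card_univ, Fintype.card_prod, Fintype.card_fun, Fintype.card_fin,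
    ZMod.card, nsmul_eq_mul]
  push_cast
  have h : (3 : ℝ) ^ (m + 1) ≠ 0 := by positivity
  rw [← pow_succ']
  field_simp

theorem div_mono (m : ℕ) {x y : ℝ} (h : x ≤ y) : x / 3 ^ (m + 1) ≤ y / 3 ^ (m + 1) :=
  div_le_div_of_nonneg_right h (by positivity)

theorem above_tot (hSUMA : Stmt_SUMA) (n : ℤ) (a m : ℕ) (π : Fin m → PP) (F : ℤ → ℝ)
    (x : ZMod 3 × (Fin m → ZMod 3) → ℝ) (M : ℝ)
    (h : ∀ y, AboveA n a (Kl π y.1 y.2) F (x y / 3 ^ (m + 1))) (hx : ∀ y, x y ≤ M) :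
    AboveA n a (fun _ => True) F M := by
  obtain ⟨s1, -, s3, -⟩ := hSUMA n a m π F
  have h1 := s1 (fun _ => M / 3 ^ (m + 1)) fun y => s3 _ _ _ (div_mono m (hx y)) (h y)
  rwa [const_sum] at h1

theorem below_tot (hSUMA : Stmt_SUMA) (n : ℤ) (a m : ℕ) (π : Fin m → PP) (F : ℤ → ℝ)
    (hF : ∀ A, 0 ≤ F A) (x g : ZMod 3 × (Fin m → ZMod 3) → ℝ)
    (h : ∀ y, BelowA n a (Kl π y.1 y.2) F (x y / 3 ^ (m + 1))) (hx : ∀ y, g y ≤ x y) :
    BelowA n a (fun _ => True) F (∑ y, g y / 3 ^ (m + 1)) := by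
  obtain ⟨-, s2, -, s4⟩ := hSUMA n a m π F
  exact s2 (fun y => g y / 3 ^ (m + 1)) hF fun y => s4 _ _ _ (div_mono m (hx y)) (h y)

theorem tf_nonneg (P : Prop) : 0 ≤ tf P := by
  unfold tf
  split_ifs <;> norm_num

/-- two lower bounds, one for each residue class -/
theorem pair (hSUMA : Stmt_SUMA) (n : ℤ) (m : ℕ) (π : Fin m → PP) (F : ℤ → ℝ)
    (hF : ∀ A, 0 ≤ F A) (x₁ x₂ : ZMod 3 × (Fin m → ZMod 3) → ℝ)
    (N : ZMod 3 × (Fin m → ZMod 3) → ℕ) (u w : ℝ) (hu : 0 ≤ u) (hw : 0 ≤ w)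
    (h₁ : ∀ y, BelowA n 1 (Kl π y.1 y.2) F (x₁ y / 3 ^ (m + 1)))
    (h₂ : ∀ y, BelowA n 2 (Kl π y.1 y.2) F (x₂ y / 3 ^ (m + 1)))
    (a₁ : ∀ y, Odd (N y + 1) → u ≤ x₁ y) (b₁ : ∀ y, Even (N y + 1) → w ≤ x₁ y)
    (a₂ : ∀ y, Odd (N y) → u ≤ x₂ y) (b₂ : ∀ y, Even (N y) → w ≤ x₂ y) :
    ∃ z₁ z₂ : ℝ, 0 ≤ z₁ ∧ 0 ≤ z₂ ∧ z₁ + z₂ = u + w ∧
      BelowA n 1 (fun _ => True) F z₁ ∧ BelowA n 2 (fun _ => True) F z₂ := by
  classical
  refine ⟨∑ y, (if Odd (N y + 1) then u else w) / 3 ^ (m + 1),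
    ∑ y, (if Odd (N y) then u else w) / 3 ^ (m + 1), ?_, ?_, ?_, ?_, ?_⟩
  · exact Finset.sum_nonneg fun y _ => by
      split_ifs <;> positivity
  · exact Finset.sum_nonneg fun y _ => by
      split_ifs <;> positivity
  · rw [← Finset.sum_add_distrib]
    refine Eq.trans (Finset.sum_congr rfl fun y _ => ?_) (const_sum m (u + w))
    rcases Nat.even_or_odd (N y) with h | h
    · rw [if_pos h.add_one, if_neg (Nat.not_odd_iff_even.2 h), ← add_div]
    · rw [if_neg (Nat.not_odd_iff_even.2 h.add_one), if_pos h, ← add_div, add_comm]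
  · refine below_tot hSUMA n 1 m π F hF x₁ _ h₁ fun y => ?_
    split_ifs with h
    · exact a₁ y h
    · exact b₁ y (Nat.not_odd_iff_even.1 h)
  · refine below_tot hSUMA n 2 m π F hF x₂ _ h₂ fun y => ?_
    split_ifs with h
    · exact a₂ y h
    · exact b₂ y (Nat.not_odd_iff_even.1 h)

end AWF

open _root_.Pool.Agent.PTK.AWF in
theorem AWF_thm (hSUMA : Stmt_SUMA) (hFB : Stmt_FB) (hEKN : Stmt_EKN) : Stmt_AWF := by
  intro h n m k π p e r f hN hh
  obtain ⟨e1, e2, e3, e4, e5, -, -, -, -, e10⟩ := hEKN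
  have hR : ∀ t : ℕ, ∀ A : ℤ, A ≠ 0 → CubeRank.GenBy A (CubeRank.rr A) →
      CubeRank.rr A < t + 1 → CubeRank.rr A ≤ t := fun t A _ _ h1 => Nat.lt_succ_iff.1 h1
  have hB : ∀ a : ℕ, (a = 1 ∨ a = 2) → ∀ t : ℕ, ∀ y : ZMod 3 × (Fin m → ZMod 3),
      BelowA ((3 ^ h * n : ℕ) : ℤ) a (Kl π y.1 y.2) (fun A => tf (CubeRank.rr A ≤ t))
        (EsD (vN h n π p e r y.1 y.2) (sN h n π p e r y.1 y.2 + if a = 1 then 1 else 0)
          (fun x => if x < t + 1 then 1 else 0) / 3 ^ (m + 1)) := fun a ha t y =>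
    (hFB h n m k π p e r f y.1 y.2 hN hh a ha).2 (t + 1) _ (hR t)
  refine ⟨?_, ?_, ?_⟩
  · intro a ha
    refine ⟨?_, ?_, ?_⟩
    · exact above_tot hSUMA _ a m π _ _ _
        (fun y => (hFB h n m k π p e r f y.1 y.2 hN hh a ha).1 (fun c => (c : ℝ))
          Nat.mono_cast (by simp)) fun y => e1 _ _
    · intro k₀
      refine above_tot hSUMA _ a m π _ _ _
        (fun y => (hFB h n m k π p e r f y.1 y.2 hN hh a ha).1 (fun c => (3 : ℝ) ^ (k₀ * c))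
          (fun b c hbc => ?_) (by positivity)) fun y => e2 _ _ k₀
      exact pow_le_pow_right₀ (by norm_num) (Nat.mul_le_mul_left _ hbc)
    · have h1 := below_tot hSUMA _ a m π _ (fun A => tf_nonneg _) _ (fun _ => 115 / 192)
        (hB a ha 2) fun y => e4 _ _
      rwa [const_sum] at h1
  · obtain ⟨z₁, z₂, hz₁, hz₂, hz, hb₁, hb₂⟩ := pair hSUMA ((3 ^ h * n : ℕ) : ℤ) m π
      (fun A => tf (CubeRank.rr A ≤ 1)) (fun A => tf_nonneg _) _ _
      (fun y => vN h n π p e r y.1 y.2 + sN h n π p e r y.1 y.2) (115 / 192) 0 (by norm_num)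
      le_rfl (hB 1 (Or.inl rfl) 1) (hB 2 (Or.inr rfl) 1)
      (fun y hy => e3 _ _ (by
        rw [if_pos rfl, ← add_assoc]
        exact hy)) (fun y _ => e10 _ _ _)
      (fun y hy => e3 _ _ (by
        rw [if_neg (by norm_num), add_zero]
        exact hy)) (fun y _ => e10 _ _ _)
    exact ⟨z₁, z₂, hz₁, hz₂, by rw [hz, add_zero], hb₁, hb₂⟩
  · obtain ⟨z₁, z₂, hz₁, hz₂, hz, hb₁, hb₂⟩ := pair hSUMA ((3 ^ h * n : ℕ) : ℤ) m π
      (fun A => tf (CubeRank.rr A ≤ 2)) (fun A => tf_nonneg _) _ _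
      (fun y => vN h n π p e r y.1 y.2 + sN h n π p e r y.1 y.2) (115 / 192) (17 / 20)
      (by norm_num) (by norm_num) (hB 1 (Or.inl rfl) 2) (hB 2 (Or.inr rfl) 2)
      (fun y _ => e4 _ _) (fun y hy => e5 _ _ (by
        rw [if_pos rfl, ← add_assoc]
        exact hy))
      (fun y _ => e4 _ _) (fun y hy => e5 _ _ (by
        rw [if_neg (by norm_num), add_zero]
        exact hy))
    exact ⟨z₁, z₂, hz₁, hz₂, hz, hb₁, hb₂⟩

end Pool.Agent.PTK


end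

section

/-!
# PTK_CBV: lower bounds in a class, `q = 1 (mod 3)`
-/

set_option autoImplicit false

open NumberField IsDedekindDomain Finset
open scoped nonZeroDivisors Pointwise

namespace Pool.Agent.PTK

open Pool.Agent.Lib_helper18 Pool.Agent.Lib_helper18.Eis Pool.Agent.Lib_helper84.Cub
open Pool.Agent.PT Pool.Agent.PTE Pool.Agent.PT3 Pool.Agent.PTL Pool.Agent.PTN

/-- PTK_CBV. -/
theorem CBV_thm (hCLV : Stmt_CLV) (hCLU : Stmt_CLU) (hCLT : Stmt_CLT) (hSPP : SPP) :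
    Stmt_CBV := by
  intro h n m k π p e r f w0 c hN hh t R hR
  obtain ⟨⟨M, hM⟩, -⟩ := hCLU h n m k π p e r f w0 c hN hh
  obtain ⟨K, hK⟩ := hCLT m π p hN.pp hN.p1 hN.pπ hN.pinj w0 c 1 (Or.inl rfl)
  have := CBE.below hSPP hN 1 t R hR
    ⟨M, fun E q hE hq hqM hq3 hqc => ⟨_, hM E q hE hq hqM hq3 hqc⟩⟩ (1 / 3 ^ (m + 1))
    (LI (sN h n π p e r w0 c + 1) (t - vN h n π p e r w0 c) / 3 ^ (m + 1))
    ⟨K, fun σ h1 h2 => (hK σ h1 h2).1⟩ (hCLV h n m k π p e r f w0 c hN hh t)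
  rwa [← sub_div] at this

end Pool.Agent.PTK


end

section

/-!
# PTK_DX1: the local terms of a point at a place dividing `f` (hypotheses `HypX`)
-/

set_option autoImplicit false

namespace Pool.Agent.PTK

open Pool.Agent.Lib_helper18 Pool.Agent.Lib_helper18.Eis Pool.Agent.Lib_helper84.Cub
open Pool.Agent.PT

namespace DX1

open DPA hiding B_ne n0_ne core

lemma B_ne {N : ℕ} {b x p q p' q' : Eis} (HD : HypX N b x p q p' q') {E Q : ℕ} {X Y : Eis}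
    (HP : HypP N b x p q p' q' E Q X Y) : (N : Eis) * (Q : Eis) ^ E ≠ 0 := by
  have h1 : (N : Eis) ≠ 0 := by
    have h2 : ((N : ℤ) : Eis) ≠ 0 := DCONST.cast_ne (by have := HD.N0; omega)
    rwa [Int.cast_natCast] at h2
  have h3 : (Q : Eis) ≠ 0 := by
    have h2 : ((Q : ℤ) : Eis) ≠ 0 := DCONST.cast_ne (by have := HP.hQ.pos; omega)
    rwa [Int.cast_natCast] at h2
  exact mul_ne_zero h1 (pow_ne_zero _ h3)

lemma n0_ne {N : ℕ} {b x p q p' q' : Eis} (HD : HypX N b x p q p' q') {E Q : ℕ} {X Y : Eis}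
    (HP : HypP N b x p q p' q' E Q X Y) : X ^ 3 + x * Y ^ 3 ≠ 0 := by
  obtain ⟨c, hc, h⟩ := HP.pt.eq
  intro h0
  rw [h0, mul_zero] at h
  exact mul_ne_zero (B_ne HD HP) (pow_ne_zero _ hc) h.symm

/-- The local term at a tame place where `x` is a local cube. -/
lemma core (hIF4 : Stmt_IF4) (hLCI : Stmt_LCI) {π : PP} (hs : LSym π.1 (tm π.1) 1) {N : ℕ}
    {b x p q p' q' : Eis} (HD : HypX N b x p q p' q') {E Q : ℕ} {X Y : Eis}
    (HP : HypP N b x p q p' q' E Q X Y) (hL : LCE π.1 x) :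
    ∃ N0 : ℕ, ∀ ξ : Eis, π.1 ^ N0 ∣ ξ ^ 3 - x →
      (∀ i, LfE X Y i ξ ≠ 0) ∧
      (∀ a : Eis, a ≠ 0 → tm π.1 a (X ^ 3 + x * Y ^ 3) = tm π.1 a ((N : Eis) * (Q : Eis) ^ E)) ∧
      SVE (tm π.1) x p (-p') (-q) q' X Y =
        ASE (tm π.1) ((N : Eis) * (Q : Eis) ^ E) p q p' q' ξ +
          tm π.1 (LfE X Y 1 ξ) b - tm π.1 (LfE X Y 2 ξ) b := by
  have hB := B_ne HD HP
  have hn0 := n0_ne HD HP
  obtain ⟨c, hc, hE⟩ := HP.pt.eq
  obtain ⟨N1, H1⟩ := exists_ne hs.prime (b := x) HD.sol.n1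
  obtain ⟨N2, H2⟩ := exists_ne hs.prime (b := x) (SolE_n1' HD.sol)
  obtain ⟨N3, H3⟩ := exists_ne hs.prime (b := x) (p := X) (q := Y) hn0
  obtain ⟨N4, H4⟩ := hIF4 π.1 (tm π.1) 1 hs b x p (-p') (-q) q' X Y HD.hb HD.hx
    (SolE_flip HD.sol) HP.pt.hX HP.pt.hY hn0 HP.dn
  refine ⟨N1 + N2 + N3 + N4, fun ξ hξ => ?_⟩
  have g1 := H1 ξ ((pow_dvd_pow _ (by omega)).trans hξ)
  have g2 := H2 ξ ((pow_dvd_pow _ (by omega)).trans hξ)
  have g3 := H3 ξ ((pow_dvd_pow _ (by omega)).trans hξ)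
  have g4 := H4 ξ ((pow_dvd_pow _ (by omega)).trans hξ)
  have hx0 : ∀ a : Eis, a ≠ 0 → tm π.1 x a = 0 := fun a ha =>
    hLCI.2.2 π.1 (tm π.1) 1 x a hs hL HD.hx ha
  have hrel : ∀ a : Eis, a ≠ 0 →
      tm π.1 (X ^ 3 + x * Y ^ 3) a = tm π.1 ((N : Eis) * (Q : Eis) ^ E) a := by
    intro a ha
    have h1 := s_rel hs HD.hx hn0 hB hc ha hE
    rw [hx0 a ha, zero_add] at h1
    exact h1
  refine ⟨g3, ?_, ?_⟩
  · intro a ha
    rw [hs.skew (X ^ 3 + x * Y ^ 3) a hn0 ha, hs.skew ((N : Eis) * (Q : Eis) ^ E) a hB ha, hrel a ha]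
  · rw [g4, neg_neg, neg_neg]
    unfold ASE
    rw [hrel _ (g1 2), hrel _ (g2 1), hrel _ (g1 1), hrel _ (g2 2)]

lemma dvd3_iff (n : ℕ) : 3 ∣ n ↔ (n : ZMod 3) = 0 := (ZMod.natCast_eq_zero_iff n 3).symm

lemma V_B {π : PP} {f : ℕ} (hπf : π.1 ∣ (f : Eis)) {N : ℕ} {b x p q p' q' : Eis}
    (HD : HypX N b x p q p' q') {E Q : ℕ} {X Y : Eis} (HP : HypP N b x p q p' q' E Q X Y)
    (hQ : Q.Coprime f) : V π.1 ((N : Eis) * (Q : Eis) ^ E) = V π.1 (N : Eis) := by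
  have hB := B_ne HD HP
  have hN : (N : Eis) ≠ 0 := left_ne_zero_of_mul hB
  have hQE := right_ne_zero_of_mul hB
  have hQ0 : (Q : Eis) ≠ 0 := by
    have h2 : ((Q : ℤ) : Eis) ≠ 0 := DCONST.cast_ne (by have := HP.hQ.pos; omega)
    rwa [Int.cast_natCast] at h2
  have h1 := V_cop π.2.1 hπf (Nat.isCoprime_iff_coprime.2 hQ)
  rw [Int.cast_natCast] at h1
  rw [V_mul π.2.1 hN hQE, V_pow π.2.1 hQ0, h1, mul_zero, add_zero]

end DX1

open DPA hiding B_ne n0_ne core in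
open _root_.Pool.Agent.PTK.DX1 in
/-- PTK_DX1. -/
theorem DX1_thm (hSTM : STM) (hSPP : SPP) (hIF4 : Stmt_IF4) (hIF4B : Stmt_IF4B)
    (hF6R : Stmt_F6R) (hF7U : Stmt_F7U) (hLFV : Stmt_LFV) (hLCI : Stmt_LCI) : Stmt_DX1 := by
  intro N b x p q p' q' HD π f hf hπf
  have hs : LSym π.1 (tm π.1) 1 := hSTM π.1 π.2.1 (hSPP.2.2.2.1 π).1
  have hN : (N : Eis) ≠ 0 := by
    have h2 : ((N : ℤ) : Eis) ≠ 0 := DCONST.cast_ne (by have := HD.N0; omega)
    rwa [Int.cast_natCast] at h2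
  by_cases hVx : 3 ∣ V π.1 x
  · by_cases hcx : ch π.1 x = 0
    · -- `x` is a local cube
      have hL : LCE π.1 x := (hLCI.1 π x HD.hx).2 ⟨hVx, hcx⟩
      obtain ⟨C, Φ, H⟩ := place_LC hs hN HD.sol.n1 (SolE_n1' HD.sol) hL hf (by rwa [pow_one])
      classical
      refine ⟨C + (if π.1 ∣ (N : Eis) ∧ ¬ 3 ∣ V π.1 b then (V π.1 b : ZMod 3) * ch π.1 w else 0),
        Φ, ?_⟩
      intro E Q hQ X Y HP
      have hB := B_ne HD HP
      have hn0 := n0_ne HD HP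
      have hVB := V_B hπf HD HP hQ
      obtain ⟨N0, H0⟩ := core hIF4 hLCI hs HD HP hL
      -- the terms with `b`
      have hterm : ∃ N1 : ℕ, ∀ ξ : Eis, π.1 ^ N1 ∣ ξ ^ 3 - x →
          tm π.1 (LfE X Y 1 ξ) b - tm π.1 (LfE X Y 2 ξ) b =
            if π.1 ∣ (N : Eis) ∧ ¬ 3 ∣ V π.1 b then (V π.1 b : ZMod 3) * ch π.1 w else 0 := by
        by_cases hπN : π.1 ∣ (N : Eis)
        · have hVN : (V π.1 ((N : Eis) * (Q : Eis) ^ E) : ZMod 3) ≠ 0 := by
            rw [hVB]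
            have h1 := HD.cf π
            have h2 : V π.1 (N : Eis) ≠ 0 := fun h => (V_eq_zero_iff.1 h) hπN
            rw [Ne, ← dvd3_iff]
            omega
          by_cases hVb : 3 ∣ V π.1 b
          · -- `b` is a local cube
            have hcb : ch π.1 b = 0 := by
              have h1 := HP.sb π
              unfold tm at h1
              rw [(dvd3_iff _).1 hVb, zero_mul, sub_zero] at h1
              exact (mul_eq_zero.1 h1).resolve_left hVN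
            have hLb : LCE π.1 b := (hLCI.1 π b HD.hb).2 ⟨hVb, hcb⟩
            refine ⟨N0, fun ξ hξ => ?_⟩
            obtain ⟨hF, -, -⟩ := H0 ξ hξ
            have h0 : ∀ i, tm π.1 (LfE X Y i ξ) b = 0 := by
              intro i
              rw [hs.skew b (LfE X Y i ξ) HD.hb (hF i),
                hLCI.2.2 π.1 (tm π.1) 1 b _ hs hLb HD.hb (hF i), neg_zero]
            rw [h0, h0, if_neg (by tauto), sub_zero]
          · obtain ⟨N2, H2⟩ := hIF4B π.1 (tm π.1) 1 hs x X Y HD.hx HP.pt.hX HP.pt.hY hn0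
            refine ⟨N0 + N2, fun ξ hξ => ?_⟩
            obtain ⟨hF, hrel, -⟩ := H0 ξ ((pow_dvd_pow _ (by omega)).trans hξ)
            have h2 := H2 ξ ((pow_dvd_pow _ (by omega)).trans hξ)
            rw [if_pos ⟨hπN, hVb⟩]
            have hw0 : w ≠ 0 := by
              intro h
              have := congrArg Eis.im h
              simp at this
            rw [hrel _ (hF 1), hrel _ (hF 2), hrel _ hw0] at h2
            have hw : tm π.1 w ((N : Eis) * (Q : Eis) ^ E) =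
                (V π.1 ((N : Eis) * (Q : Eis) ^ E) : ZMod 3) * ch π.1 w := by
              unfold tm
              rw [V_eq_zero (not_dvd_w π.2.1)]
              simp
            rw [hw] at h2
            refine mul_left_cancel₀ hVN ?_
            rw [mul_sub, tm_prop (HP.sb π), tm_prop (HP.sb π), ← mul_sub, h2]
            ring
        · -- `π` does not divide `N`
          obtain ⟨hπb, hπx⟩ := HD.unr π hπN
          have hVx0 : V π.1 x = 0 := V_eq_zero hπx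
          have hVb0 : V π.1 b = 0 := V_eq_zero hπb
          have hVB0 : V π.1 ((N : Eis) * (Q : Eis) ^ E) = 0 := by
            rw [hVB]
            exact V_eq_zero hπN
          obtain ⟨c, hc, hE⟩ := HP.pt.eq
          have hVn : 3 ∣ V π.1 (X ^ 3 + x * Y ^ 3) := by
            have h1 := congrArg (V π.1) hE
            rw [V_mul π.2.1 HD.hx hn0, V_mul π.2.1 hB (pow_ne_zero _ hc), V_pow π.2.1 hc, hVx0,
              hVB0] at h1
            omega
          obtain ⟨N2, H2⟩ := hLFV π x X Y HD.hx HP.pt.hX HP.pt.hY hn0 hVx hVn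
          refine ⟨N2, fun ξ hξ => ?_⟩
          rw [if_neg (by tauto)]
          unfold tm
          rw [H2 ξ hξ, hVb0]
          simp
      obtain ⟨N1, H1⟩ := hterm
      have h3 := H E Q hQ (SVE (tm π.1) x p (-p') (-q) q' X Y -
        (if π.1 ∣ (N : Eis) ∧ ¬ 3 ∣ V π.1 b then (V π.1 b : ZMod 3) * ch π.1 w else 0))
        (N0 + N1) (fun ξ hξ => by
          obtain ⟨-, -, h4⟩ := H0 ξ ((pow_dvd_pow _ (by omega)).trans hξ)
          rw [h4, ← H1 ξ ((pow_dvd_pow _ (by omega)).trans hξ)]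
          ring)
      linear_combination h3
    · -- `x` is not a local cube
      refine ⟨0, 1, ?_⟩
      intro E Q hQ X Y HP
      rw [hF7U π b x p (-p') (-q) q' X Y HD.hb HD.hx (SolE_flip HD.sol) HP.pt.hX HP.pt.hY HP.dn
        hVx hcx]
      simp
  · -- the valuation of `x` is prime to `3`
    classical
    refine ⟨if (V π.1 (N : Eis) : ZMod 3) = (V π.1 x : ZMod 3) then 0 else - tm π.1 w b, 1, ?_⟩
    intro E Q hQ X Y HP
    have hB := B_ne HD HP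
    have hn0 := n0_ne HD HP
    have hVB := V_B hπf HD HP hQ
    obtain ⟨c, hc, hE⟩ := HP.pt.eq
    have h1 := congrArg (V π.1) hE
    rw [V_mul π.2.1 HD.hx hn0, V_mul π.2.1 hB (pow_ne_zero _ hc), V_pow π.2.1 hc, hVB] at h1
    have h2 : (V π.1 x : ZMod 3) + (V π.1 (X ^ 3 + x * Y ^ 3) : ZMod 3) =
        (V π.1 (N : Eis) : ZMod 3) := by
      have h3 := congrArg (fun n : ℕ => (n : ZMod 3)) h1
      simp only [Nat.cast_add, Nat.cast_mul] at h3
      rw [h3]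
      have h4 : ((3 : ℕ) : ZMod 3) = 0 := rfl
      rw [h4, zero_mul, add_zero]
    obtain ⟨k1, k2⟩ := hF6R π b x p (-p') (-q) q' X Y HD.hb HD.hx (SolE_flip HD.sol) HP.pt.hX
      HP.pt.hY HP.dn hVx
    by_cases hv : (V π.1 (N : Eis) : ZMod 3) = (V π.1 x : ZMod 3)
    · rw [if_pos hv, k1 ((dvd3_iff _).2 (by linear_combination h2 + hv))]
      simp
    · rw [if_neg hv, k2 (fun h => hv (by
        rw [dvd3_iff] at h
        rw [h] at h2
        linear_combination - h2))]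
      simp

end Pool.Agent.PTK


end

section

/-!
# PTK_ESZ: the law of the corank, `q = 1 (mod 3)`
-/

set_option autoImplicit false

namespace Pool.Agent.PTK

open Pool.Agent.PTL

namespace ESZ

theorem lin (s : ℕ) (a b : ℝ) (F G : ℕ → ℝ) :
    Esk s (fun c => a * F c + b * G c) = a * Esk s F + b * Esk s G := by
  unfold Esk
  haveI := Fintype.ofFinite {M : Matrix (Fin s) (Fin s) (ZMod 3) // M.transpose = -M}
  rw [finsum_eq_sum_of_fintype, finsum_eq_sum_of_fintype, finsum_eq_sum_of_fintype,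
    Finset.sum_add_distrib, ← Finset.mul_sum, ← Finset.mul_sum]
  ring

theorem zero (F : ℕ → ℝ) : Esk 0 F = F 0 := by
  unfold Esk
  haveI := Fintype.ofFinite {M : Matrix (Fin 0) (Fin 0) (ZMod 3) // M.transpose = -M}
  haveI : Unique {M : Matrix (Fin 0) (Fin 0) (ZMod 3) // M.transpose = -M} :=
    ⟨⟨⟨0, by simp⟩⟩, fun M => Subtype.ext (by ext i; exact i.elim0)⟩
  rw [finsum_eq_sum_of_fintype, Nat.card_unique, Nat.cast_one, div_one, Fintype.sum_unique,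
    Nat.zero_sub]

end ESZ

open _root_.Pool.Agent.PTK.ESZ in
theorem ESZ_thm (hESR : Stmt_ESR) : Stmt_ESZ := by
  intro d
  induction d with
  | zero =>
    intro F
    rw [hESR 0 F]
    simp only [zero, pow_zero, div_one, sub_self, zero_mul]
  | succ d ih =>
    intro F
    have h1 : Esk (d + 1 + 1) F = (1 - 1 / 3 ^ d) * Esk d F +
        1 / 3 ^ d * (2 / 3 * Esk d F + 1 / 3 * Esk (d + 1) (fun c => F (c + 1))) := by
      rw [hESR (d + 1) F, ← ih]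
      congr 1
      · rcases Nat.eq_zero_or_pos d with rfl | hd
        · rw [pow_zero, div_one, sub_self, zero_mul, zero_mul]
        · have e : d - 1 + 1 = d := Nat.sub_add_cancel hd
          have e2 := hESR (d - 1) F
          rw [e] at e2
          rw [e2]
      · congr 1
        rw [hESR d (fun c => F (c + 1)), ← lin]
        congr 1
        funext c
        have h3 : (1 - 1 / 3 ^ c) * F (c - 1 + 1) = (1 - 1 / 3 ^ c) * F c := by
          rcases Nat.eq_zero_or_pos c with rfl | hc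
          · rw [pow_zero, div_one, sub_self, zero_mul, zero_mul]
          · rw [Nat.sub_add_cancel hc]
        rw [h3, Nat.add_sub_cancel, pow_succ]
        have h4 : (3 : ℝ) ^ c ≠ 0 := by positivity
        field_simp
        ring
    rw [h1, Nat.add_sub_cancel, pow_succ]
    have h4 : (3 : ℝ) ^ d ≠ 0 := by positivity
    field_simp
    ring

end Pool.Agent.PTK


end

section

/-!
# PTK_KUM: from tails to averages, for every monotone function
-/

set_option autoImplicit false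

namespace Pool.Agent.PTK

open Pool.Agent.PT Pool.Agent.PTL Pool.Agent.PTN

theorem KUM_thm (hDOMG : Stmt_DOMG) (hLAW : Stmt_LAW) : Stmt_KUM := by
  intro S R s M x hx hR hT F hF h0
  obtain ⟨K, hK⟩ := hDOMG S R (fun t => x * LI s t) M s F hR hT hF h0
  refine ⟨K, fun σ h1 h2 T => ?_⟩
  refine (hK σ h1 h2 T).trans (le_of_eq ?_)
  have e := hLAW.1 s 0 F
  simp only [Nat.sub_zero, zero_add] at e
  rw [← e]
  have : F 0 * (x * LI s 0) + ∑ t ∈ Finset.range s, (F (t + 1) - F t) * (x * LI s (t + 1)) =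
      (F 0 * LI s 0 + ∑ t ∈ Finset.range s, (F (t + 1) - F t) * LI s (t + 1)) * x := by
    rw [add_mul, Finset.sum_mul]
    congr 1
    · ring
    · exact Finset.sum_congr rfl fun t _ => by ring
  rw [this]

end Pool.Agent.PTK


end

section

/-!
# PTK_LEE: the local evaluation at the tame places
-/

set_option autoImplicit false

namespace Pool.Agent.PTK

open Pool.Agent.Lib_helper18 Pool.Agent.Lib_helper18.Eis Pool.Agent.Lib_helper84.Cub
open Pool.Agent.PT Pool.Agent.PTE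

namespace LEE

/-- The relation between `B`, `x` and `n_0`. -/
theorem rel {B x X Y : Eis} (hB : B ≠ 0) (hP : PtE B x X Y) :
    X ^ 3 + x * Y ^ 3 ≠ 0 ∧ ∃ c : Eis, c ≠ 0 ∧ x * (X ^ 3 + x * Y ^ 3) = B * c ^ 3 := by
  obtain ⟨c, hc, heq⟩ := hP.eq
  refine ⟨?_, c, hc, heq⟩
  intro h0
  rw [h0, mul_zero] at heq
  exact (mul_ne_zero hB (pow_ne_zero 3 hc)) heq.symm

/-- Linear forms at good approximations of a cube root do not vanish. -/
theorem lf_ne {π : Eis} (hπ : Prime π) {p q r b : Eis} {N : ℕ} (hn : p ^ 3 + b * q ^ 3 ≠ 0)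
    (hN : V π (p ^ 3 + b * q ^ 3) < N) (hr : π ^ N ∣ r ^ 3 - b) (i : ℕ) : LfE p q i r ≠ 0 := by
  intro h0
  unfold LfE at h0
  have h1 : q * w ^ i * r = -p := by linear_combination h0
  have h2 : (q * w ^ i * r) ^ 3 = (-p) ^ 3 := by rw [h1]
  have h3 : (w ^ i) ^ 3 = 1 := by rw [← pow_mul, mul_comm, pow_mul, w_cube, one_pow]
  have h4 : p ^ 3 + b * q ^ 3 = (-q ^ 3) * (r ^ 3 - b) := by
    linear_combination h2 - q ^ 3 * r ^ 3 * h3
  have h5 : π ^ N ∣ p ^ 3 + b * q ^ 3 := by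
    rw [h4]
    exact Dvd.dvd.mul_left hr _
  have h6 := (fin hπ hn).le_multiplicity_of_pow_dvd h5
  exact absurd h6 (not_le.2 hN)

/-- A symbol of a local cube. -/
theorem lc_right {π : Eis} {s : Eis → Eis → ZMod 3} {e : ℕ} (h : LSym π s e) (hLCI : Stmt_LCI)
    {b : Eis} (hb : b ≠ 0) (hL : LCE π b) {y : Eis} (hy : y ≠ 0) : s y b = 0 := by
  rw [h.skew b y hb hy, hLCI.2.2 π s e b y h hL hb hy, neg_zero]

/-- The swapped solution. -/
theorem swap {b x p q p' q' : Eis} (h : SolE b x p q p' q') : SolE x b p (-p') (-q) q' where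
  eq := by linear_combination h.eq
  n1 := by
    intro h0
    apply h.n2
    linear_combination h0
  n2 := by
    intro h0
    apply h.n1
    linear_combination h0
  g1 := by
    intro h0
    apply h.g1
    unfold GfE at h0 ⊢
    linear_combination h0
  g2 := by
    intro h0
    apply h.g2
    unfold GfE at h0 ⊢
    linear_combination h0

theorem nn {b x p q p' q' : Eis} (h : SolE b x p q p' q') : (-q) ^ 3 + x * q' ^ 3 ≠ 0 := by
  intro h0
  apply h.n2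
  linear_combination h.eq + b * h0

theorem gf_swap (p q p' q' : Eis) (i : ℕ) : GfE p (-p') (-q) q' i = GfE p q p' q' i := by
  unfold GfE
  ring

/-- The local term of a point when `x` is a local cube. -/
theorem SV_LC {π : Eis} {s : Eis → Eis → ZMod 3} {e : ℕ} (h : LSym π s e) (hLCI : Stmt_LCI)
    (hIF4 : Stmt_IF4) {B b x p q p' q' X Y : Eis} (hb : b ≠ 0) (hx : x ≠ 0)
    (hS : SolE b x p q p' q') (hX : X ≠ 0) (hY : Y ≠ 0) (hn : X ^ 3 + x * Y ^ 3 ≠ 0)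
    (hD : DNE X Y p q p' q') (hL : LCE π x) (hrel : LEV.Rel s B x (X ^ 3 + x * Y ^ 3)) :
    ∃ N0 : ℕ, V π (X ^ 3 + x * Y ^ 3) < N0 ∧
      ∀ ξ : Eis, π ^ N0 ∣ ξ ^ 3 - x → (∀ i, LfE X Y i ξ ≠ 0) ∧
        SVE s x p q p' q' X Y = ASE s B p (-p') (-q) q' ξ +
          s (LfE X Y 1 ξ) b - s (LfE X Y 2 ξ) b := by
  obtain ⟨N1, h1⟩ := hIF4 π s e h b x p q p' q' X Y hb hx hS hX hY hn hD
  have hn' : p ^ 3 + x * (-p') ^ 3 ≠ 0 := (swap hS).n1
  have hn'' := nn hS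
  set N0 := N1 + V π (X ^ 3 + x * Y ^ 3) + V π (p ^ 3 + x * (-p') ^ 3) +
    V π ((-q) ^ 3 + x * q' ^ 3) + 1 with hN0
  refine ⟨N0, by omega, fun ξ hξ => ?_⟩
  have hF := lf_ne h.prime hn (N := N0) (by omega) hξ
  have hG := lf_ne h.prime hn' (N := N0) (by omega) hξ
  have hG' := lf_ne h.prime hn'' (N := N0) (by omega) hξ
  refine ⟨hF, ?_⟩
  rw [h1 ξ ((pow_dvd_pow π (by omega)).trans hξ)]
  have key : ∀ y : Eis, y ≠ 0 → s B y = s (X ^ 3 + x * Y ^ 3) y := by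
    intro y hy
    rw [hrel y hy, hLCI.2.2 π s e x y h hL hx hy, zero_add]
  unfold ASE
  rw [key _ (hG 2), key _ (hG' 1), key _ (hG 1), key _ (hG' 2)]

/-- The case of a functional proportional to the one of `B`. -/
theorem prop_case {π : Eis} {s : Eis → Eis → ZMod 3} {e : ℕ} (h : LSym π s e)
    (hLCI : Stmt_LCI) (hIF4B : Stmt_IF4B) {B b x X Y : Eis} (hb : b ≠ 0) (hx : x ≠ 0)
    (hX : X ≠ 0) (hY : Y ≠ 0) (hn : X ^ 3 + x * Y ^ 3 ≠ 0) (hL : LCE π x)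
    (hrel : LEV.Rel s B x (X ^ 3 + x * Y ^ 3)) (j : ZMod 3)
    (hj : ∀ y : Eis, y ≠ 0 → s b y = j * s B y) :
    ∃ N0 : ℕ, ∀ ξ : Eis, π ^ N0 ∣ ξ ^ 3 - x → (∀ i, LfE X Y i ξ ≠ 0) →
      s (LfE X Y 1 ξ) b - s (LfE X Y 2 ξ) b = s w b := by
  obtain ⟨N1, h1⟩ := hIF4B π s e h x X Y hx hX hY hn
  refine ⟨N1, fun ξ hξ hF => ?_⟩
  have h2 := h1 ξ hξ
  have key : ∀ y : Eis, y ≠ 0 → s y b = j * s y (X ^ 3 + x * Y ^ 3) := by
    intro y hy
    rw [h.skew b y hb hy, hj y hy, hrel y hy,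
      hLCI.2.2 π s e x y h hL hx hy, h.skew y _ hy hn]
    ring
  rw [key _ (hF 1), key _ (hF 2), key _ LEV.w_ne]
  linear_combination j * h2

theorem tame_prop {π : Eis} {b B : Eis} (hB : ¬ (3 ∣ V π B ∧ ch π B = 0))
    (h0 : tm π b B = 0) : ∃ j : ZMod 3, ∀ y : Eis, y ≠ 0 → tm π b y = j * tm π B y := by
  unfold tm at h0
  obtain ⟨j, h1, h2⟩ := LEV.alg3 (V π B : ZMod 3) (ch π B) (V π b : ZMod 3)
    (ch π b) (by rwa [LEV.cast3]) h0
  refine ⟨j, fun y _ => ?_⟩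
  unfold tm
  rw [h1, h2]
  ring

/-- A class that is not a local cube and whose symbol with `B` vanishes has valuation prime to
`3` at a prime dividing `B`. -/
theorem nd {π : PP} {B t : Eis} (h1 : V π.1 B ≠ 0) (h2 : V π.1 B ≤ 2) (ht : tm π.1 t B = 0)
    (hL : ¬ (3 ∣ V π.1 t ∧ ch π.1 t = 0)) : ¬ 3 ∣ V π.1 t := by
  intro h3
  apply hL
  refine ⟨h3, ?_⟩
  unfold tm at ht
  rw [LEV.cast3.2 h3, zero_mul, sub_zero] at ht
  have h9 : (V π.1 B : ZMod 3) ≠ 0 := by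
    rw [Ne, LEV.cast3]
    omega
  have : ∀ u y : ZMod 3, u ≠ 0 → u * y = 0 → y = 0 := by decide
  exact this _ _ h9 ht

end LEE

/-- PTK_LEE: the local evaluation at the tame places. -/
theorem LEE_thm (hAVE : Stmt_AVE) (hF2E : Stmt_F2E) (hF3E : Stmt_F3E) (hF4E : Stmt_F4E)
    (hSTM : STM) (hSPP : SPP) (hLCI : Stmt_LCI) (hIF1 : Stmt_IF1) (hIF4 : Stmt_IF4)
    (hIF4B : Stmt_IF4B) (hF6R : Stmt_F6R) (hF7U : Stmt_F7U) (hLFV : Stmt_LFV) : Stmt_LEE := by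
  intro π B b x p q p' q' X Y hB hb hx hS hP hD
  have hs : LSym π.1 (tm π.1) 1 := hSTM π.1 π.2.1 (hSPP.2.2.2.1 π).1
  have hB0 := hB.ne
  have hb0 := hb.ne
  have hx0 := hx.ne
  obtain ⟨hn, c, hc, heq⟩ := LEE.rel hB0 hP
  have hrel : LEV.Rel (tm π.1) B x (X ^ 3 + x * Y ^ 3) := LEV.rel_sym hs hB0 hx0 hn hc heq
  have hsBx : tm π.1 B x = 0 := by
    have h1 := hx.sym π
    have h2 := hs.skew x B hx0 hB0
    rw [h2, h1, neg_zero]
  have hwprod : tm π.1 w (B * x * b) = tm π.1 w B + tm π.1 w x + tm π.1 w b := by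
    rw [LEV.mul_right hs (mul_ne_zero hB0 hx0) hb0 LEV.w_ne, LEV.mul_right hs hB0 hx0 LEV.w_ne]
  by_cases hLb : LCE π.1 b
  · have hTT : TTE π B b x p q p' q' = AVE (some π) B b p q p' q' + tm π.1 w x := by
      unfold TTE
      exact if_pos hLb
    have hA := hAVE (some π) B b x p q p' q' hB0 hb0 hx0 hS.toSolWE hsBx hLb
    by_cases hLx : LCE π.1 x
    · -- both cubes
      obtain ⟨N1, h1⟩ := hA.1
      obtain ⟨N2, h2⟩ := hIF1 π.1 (tm π.1) 1 hs b x p q p' q' hb0 hx0 hS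
      obtain ⟨N3, _, h3⟩ := LEE.SV_LC hs hLCI hIF4 hb0 hx0 hS hP.hX hP.hY hn hD hLx hrel
      obtain ⟨r, hr⟩ := hLb (N1 + N2)
      obtain ⟨ξ, hξ⟩ := hLx (N2 + N3)
      have a1 : ASE (tm π.1) B p q p' q' r = AVE (some π) B b p q p' q' :=
        h1 r ((pow_dvd_pow π.1 (by omega)).trans hr)
      have a2 := h2 r ξ ((pow_dvd_pow _ (by omega)).trans hr)
        ((pow_dvd_pow _ (by omega)).trans hξ) B hB0
      obtain ⟨hF, a3⟩ := h3 ξ ((pow_dvd_pow _ (by omega)).trans hξ)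
      rw [LEE.lc_right hs hLCI hb0 hLb (hF 1), LEE.lc_right hs hLCI hb0 hLb (hF 2)] at a3
      have a4 := LEE.lc_right hs hLCI hb0 hLb LEV.w_ne
      have a5 := LEE.lc_right hs hLCI hx0 hLx LEV.w_ne
      rw [hTT]
      unfold UVE
      rw [hwprod, a3, a4, a5, ← a1]
      linear_combination a2
    · -- `b` is a cube, `x` is not
      obtain ⟨N1, h1⟩ := hF2E π B b x p q p' q' hB hb hx hS hLb hLx
      have a1 := hA.2 _ N1 h1
      have a4 := LEE.lc_right hs hLCI hb0 hLb LEV.w_ne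
      have a2 : SVE (tm π.1) x p q p' q' X Y = 0 := by
        by_cases hVx : 3 ∣ V π.1 x
        · refine hF7U π b x p q p' q' X Y hb0 hx0 hS hP.hX hP.hY hD hVx fun h => hLx ?_
          exact (hLCI.1 π x hx0).2 ⟨hVx, h⟩
        · have h6 := hF6R π b x p q p' q' X Y hb0 hx0 hS hP.hX hP.hY hD hVx
          by_cases hVn : 3 ∣ V π.1 (X ^ 3 + x * Y ^ 3)
          · exact h6.1 hVn
          · rw [h6.2 hVn, a4, neg_zero]
      rw [hTT, a1, a2]
      unfold UVE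
      rw [hwprod, a4]
      ring
  · have hTT : TTE π B b x p q p' q' =
        if 3 ∣ V π.1 b + V π.1 B ∧ ¬ 3 ∣ V π.1 b then - tm π.1 w x else 0 := by
      unfold TTE
      exact if_neg hLb
    by_cases hLx : LCE π.1 x
    · -- `x` is a cube, `b` is not
      have a5 := LEE.lc_right hs hLCI hx0 hLx LEV.w_ne
      have hTT0 : TTE π B b x p q p' q' = 0 := by
        rw [hTT]
        split_ifs with hcond
        · rw [a5, neg_zero]
        · rfl
      obtain ⟨N1, h1⟩ := hF2E π B x b p (-p') (-q) q' hB hx hb (LEE.swap hS) hLx hLb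
      obtain ⟨N3, hN3, h3⟩ := LEE.SV_LC hs hLCI hIF4 hb0 hx0 hS hP.hX hP.hY hn hD hLx hrel
      have hmain : ∃ N4 : ℕ, ∀ ξ : Eis, π.1 ^ N4 ∣ ξ ^ 3 - x →
          (∀ i, LfE X Y i ξ ≠ 0) →
          tm π.1 (LfE X Y 1 ξ) b - tm π.1 (LfE X Y 2 ξ) b = tm π.1 w b := by
        by_cases hLB : LCE π.1 B
        · have hB' := (hLCI.1 π B hB0).1 hLB
          have hVB : V π.1 B = 0 := by
            have := hB.cf π
            omega
          have hπB : ¬ π.1 ∣ B := V_eq_zero_iff.1 hVB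
          have hπb := hb.unr π hπB
          have hπx := hx.unr π hπB
          have hVb : V π.1 b = 0 := V_eq_zero hπb
          have hVw : V π.1 w = 0 := V_eq_zero (not_dvd_w π.2.1)
          have hVn : 3 ∣ V π.1 (X ^ 3 + x * Y ^ 3) := by
            have h7 := congrArg (V π.1) heq
            rw [V_mul π.2.1 hx0 hn, V_mul π.2.1 hB0 (pow_ne_zero 3 hc),
              V_pow π.2.1 hc, hVB, V_eq_zero hπx] at h7
            omega
          obtain ⟨N5, h5⟩ := hLFV π x X Y hx0 hP.hX hP.hY hn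
            (by rw [V_eq_zero hπx]; exact dvd_zero _) hVn
          refine ⟨N5, fun ξ hξ hF => ?_⟩
          have h8 := h5 ξ hξ
          unfold tm
          rw [hVb, hVw, h8]
          push_cast
          ring
        · obtain ⟨j, hj⟩ := LEE.tame_prop (π := π.1) (b := b) (B := B)
            (fun h => hLB ((hLCI.1 π B hB0).2 h)) (hb.sym π)
          exact LEE.prop_case hs hLCI hIF4B hb0 hx0 hP.hX hP.hY hn hLx hrel j hj
      obtain ⟨N4, h4⟩ := hmain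
      obtain ⟨ξ, hξ⟩ := hLx (N1 + N3 + N4)
      obtain ⟨hF, a3⟩ := h3 ξ ((pow_dvd_pow _ (by omega)).trans hξ)
      have a1 := h1 ξ ((pow_dvd_pow _ (by omega)).trans hξ)
      have a6 := h4 ξ ((pow_dvd_pow _ (by omega)).trans hξ) hF
      rw [LEE.gf_swap, LEE.gf_swap] at a1
      rw [hTT0, a3]
      unfold UVE
      rw [hwprod, a5]
      linear_combination a1 + a6
    · -- no cubes
      have hLb' : ¬ (3 ∣ V π.1 b ∧ ch π.1 b = 0) :=
        fun h => hLb ((hLCI.1 π b hb0).2 h)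
      have hLx' : ¬ (3 ∣ V π.1 x ∧ ch π.1 x = 0) :=
        fun h => hLx ((hLCI.1 π x hx0).2 h)
      rw [hTT]
      by_cases hπB : π.1 ∣ B
      · have hVB1 : V π.1 B ≠ 0 := fun h => (V_eq_zero_iff.1 h) hπB
        have hVB2 := hB.cf π
        have hVb := LEE.nd hVB1 hVB2 (hb.sym π) hLb'
        have hVx := LEE.nd hVB1 hVB2 (hx.sym π) hLx'
        rw [hF3E π B b x p q p' q' hB hb hx hS hπB hVb hVx]
        have h6 := hF6R π b x p q p' q' X Y hb0 hx0 hS hP.hX hP.hY hD hVx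
        have h7 := congrArg (V π.1) heq
        rw [V_mul π.2.1 hx0 hn, V_mul π.2.1 hB0 (pow_ne_zero 3 hc),
          V_pow π.2.1 hc] at h7
        have hSV : SVE (tm π.1) x p q p' q' X Y =
            if 3 ∣ V π.1 x + V π.1 B then - tm π.1 w b else 0 := by
          split_ifs with hcond
          · exact h6.2 (by omega)
          · refine h6.1 ?_
            have c1 : V π.1 x % 3 = 1 ∨ V π.1 x % 3 = 2 := by omega
            have c2 : V π.1 B = 1 ∨ V π.1 B = 2 := by omega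
            rcases c1 with c1 | c1 <;> rcases c2 with c2 | c2 <;> omega
        rw [hSV]
        by_cases hcond : 3 ∣ V π.1 b + V π.1 B
        · rw [if_pos ⟨hcond, hVb⟩, if_pos hcond]
          ring
        · rw [if_neg (fun h => hcond h.1), if_neg hcond]
          ring
      · have hπb := hb.unr π hπB
        have hπx := hx.unr π hπB
        have hVb : V π.1 b = 0 := V_eq_zero hπb
        have hVx : V π.1 x = 0 := V_eq_zero hπx
        have hcb : ch π.1 b ≠ 0 := fun h => hLb' ⟨by rw [hVb]; exact dvd_zero _, h⟩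
        have hcx : ch π.1 x ≠ 0 := fun h => hLx' ⟨by rw [hVx]; exact dvd_zero _, h⟩
        rw [hF4E π B b x p q p' q' hB hb hx hS hπB hcb hcx,
          hF7U π b x p q p' q' X Y hb0 hx0 hS hP.hX hP.hY hD (by rw [hVx]; exact dvd_zero _) hcx,
          if_neg (fun h => h.2 (by rw [hVb]; exact dvd_zero _))]
        ring

end Pool.Agent.PTK


end

section

/-!
# The average rank of prime twists: summary of the governing field over `K`
-/

set_option autoImplicit false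

open NumberField IsDedekindDomain Finset
open scoped nonZeroDivisors Pointwise

namespace Pool.Agent.PTK

open Pool.Agent.Lib_helper18 Pool.Agent.Lib_helper18.Eis Pool.Agent.Lib_helper84.Cub
open Pool.Agent.PT Pool.Agent.PTL

namespace GAK

variable {L : Type} [Field L] [NumberField L]

/-- an automorphism fixes or squares `ω` -/
theorem cases_om (ι : Eis →+* L) (τ : L ≃ₐ[ℚ] L) : τ (ι w) = ι w ∨ τ (ι w) = ι w ^ 2 := by
  have h := GCK.om ι
  have h1 := congrArg τ h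
  rw [map_add, map_add, map_pow, map_one, map_zero] at h1
  have hc := GC.om3 h
  have h2 : (τ (ι w) - ι w) * (τ (ι w) - ι w ^ 2) = 0 := by
    linear_combination h1 + hc - τ (ι w) * h
  rcases mul_eq_zero.1 h2 with h3 | h3
  · exact Or.inl (sub_eq_zero.1 h3)
  · exact Or.inr (sub_eq_zero.1 h3)

theorem om4 (ι : Eis →+* L) : (ι w ^ 2) ^ 2 = ι w := by
  have hc := GC.om3 (GCK.om ι)
  linear_combination ι w * hc

theorem fxk_conj0 {s : ℕ} {x : Eis} {b : Fin s → Eis} {ι : Eis →+* L} {g τ : L ≃ₐ[ℚ] L}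
    (hτ : τ (ι w) = ι w) (h : FxK x b ι g) : FxK x b ι (τ * g * τ⁻¹) := by
  have hτ' : τ⁻¹ (ι w) = ι w := by
    conv_lhs => rw [← hτ]
    rw [← AlgEquiv.mul_apply, inv_mul_cancel]
    rfl
  have key : ∀ y : Eis, (∀ ρ : L, ρ ^ 3 = ι y → g (g ρ) = ρ) →
      ∀ ρ : L, ρ ^ 3 = ι y → (τ * g * τ⁻¹) ((τ * g * τ⁻¹) ρ) = ρ := by
    intro y hy ρ hρ
    have h1 : (τ⁻¹ ρ) ^ 3 = ι y := by rw [← map_pow, hρ, GCK.fix hτ']
    have h2 := hy _ h1
    have h3 : (τ * g * τ⁻¹) ((τ * g * τ⁻¹) ρ) = τ (g (g (τ⁻¹ ρ))) := by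
      rw [← AlgEquiv.mul_apply, show (τ * g * τ⁻¹) * (τ * g * τ⁻¹) = τ * (g * (g * τ⁻¹)) by group]
      rfl
    rw [h3, h2, ← AlgEquiv.mul_apply, mul_inv_cancel]
    rfl
  exact ⟨key x h.1, fun j => key (b j) (h.2 j)⟩

theorem fxk_conj {s : ℕ} {x : Eis} {b : Fin s → Eis} {ι : Eis →+* L} {g : L ≃ₐ[ℚ] L}
    (τ : L ≃ₐ[ℚ] L) (hg : g (ι w) = ι w ^ 2) (h : FxK x b ι g) :
    FxK x b ι (τ * g * τ⁻¹) := by
  rcases cases_om ι τ with hτ | hτ
  · exact fxk_conj0 hτ h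
  · have h1 : g (ι w ^ 2) = ι w := by rw [map_pow, hg, om4]
    have h2 : g⁻¹ (ι w) = ι w ^ 2 := by
      conv_lhs => rw [← h1]
      rw [← AlgEquiv.mul_apply, inv_mul_cancel]
      rfl
    have h3 : (τ * g⁻¹) (ι w) = ι w := by
      rw [AlgEquiv.mul_apply, h2, map_pow, hτ, om4]
    have h4 := fxk_conj0 h3 h
    rwa [show (τ * g⁻¹) * g * (τ * g⁻¹)⁻¹ = τ * g * τ⁻¹ by group] at h4

theorem pow_fix {g : L ≃ₐ[ℚ] L} {ρ : L} (h : (g * g) ρ = ρ) (k : ℕ) : ((g * g) ^ k) ρ = ρ := by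
  induction k with
  | zero => rfl
  | succ k ih => rw [pow_succ, AlgEquiv.mul_apply, h, ih]

theorem fxk_pow {s : ℕ} {x : Eis} {b : Fin s → Eis} {ι : Eis →+* L} {g : L ≃ₐ[ℚ] L}
    (h : FxK x b ι g) (k : ℕ) : FxK x b ι (g ^ k) := by
  have key : ∀ ρ : L, g (g ρ) = ρ → (g ^ k) ((g ^ k) ρ) = ρ := by
    intro ρ hρ
    rw [← AlgEquiv.mul_apply, ← (Commute.refl g).mul_pow k]
    exact pow_fix hρ k
  exact ⟨fun ρ hρ => key ρ (h.1 ρ hρ), fun j ρ hρ => key ρ (h.2 j ρ hρ)⟩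

/-- `z` fixes `ω` and the roots, `g² = 1` on the roots: then `z` fixes `g ρ` -/
theorem fix_g {ι : Eis →+* L} {g z : L ≃ₐ[ℚ] L} (hg : g (ι w) = ι w ^ 2) (hz : z (ι w) = ι w)
    {y t : Eis} (hy : y * conj y = t ^ 3) {ρ : L} (hρ : ρ ^ 3 = ι y) (hzρ : z ρ = ρ) :
    z (g ρ) = g ρ := by
  rcases eq_or_ne ρ 0 with rfl | h0
  · rw [map_zero, map_zero]
  have h1 : (g ρ * ρ) ^ 3 = (ι t) ^ 3 := by
    rw [mul_pow, ← map_pow, hρ, GCK.cj hg, ← map_mul, mul_comm (conj y), hy, map_pow]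
  obtain ⟨k, hk⟩ := GC.cube_eq (GCK.om ι) h1
  have hk' : g ρ * ρ = ι (w ^ k * t) := by rw [hk, map_mul, map_pow]
  apply mul_right_cancel₀ h0
  calc z (g ρ) * ρ = z (g ρ) * z ρ := by rw [hzρ]
    _ = g ρ * ρ := by rw [← map_mul, hk', GCK.fix hz]

theorem fxk_mul {s : ℕ} {x : Eis} {b : Fin s → Eis} {ι : Eis →+* L} {g z : L ≃ₐ[ℚ] L}
    (hx : ∃ t : Eis, x * conj x = t ^ 3) (hb : ∀ j, ∃ t : Eis, b j * conj (b j) = t ^ 3)
    (hg : g (ι w) = ι w ^ 2) (hz : z (ι w) = ι w) (hzx : ∀ ρ : L, ρ ^ 3 = ι x → z ρ = ρ)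
    (hzb : ∀ (j : Fin s) (ρ : L), ρ ^ 3 = ι (b j) → z ρ = ρ) (h : FxK x b ι g) :
    FxK x b ι (g * z) := by
  refine ⟨fun ρ hρ => ?_, fun j ρ hρ => ?_⟩
  · obtain ⟨t, ht⟩ := hx
    rw [AlgEquiv.mul_apply, AlgEquiv.mul_apply, hzx ρ hρ, fix_g hg hz ht hρ (hzx ρ hρ)]
    exact h.1 ρ hρ
  · obtain ⟨t, ht⟩ := hb j
    rw [AlgEquiv.mul_apply, AlgEquiv.mul_apply, hzb j ρ hρ, fix_g hg hz ht hρ (hzb j ρ hρ)]
    exact h.2 j ρ hρ

theorem inv_fix {z : L ≃ₐ[ℚ] L} {y : L} (h : z y = y) : z⁻¹ y = y := by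
  conv_lhs => rw [← h]
  rw [← AlgEquiv.mul_apply, inv_mul_cancel]
  rfl

theorem val_calc : ∀ c d : ZMod 3,
    (2 * (2 * c.val + (-c).val) + d.val) % 3 = (d - c).val % 3 := by decide

end GAK

theorem GAK_thm (hGZK : Stmt_GZK) (hGCHI : GCHI) (hGTK : Stmt_GTK) (hGCK : Stmt_GCK)
    (hGFK : Stmt_GFK) : Stmt_GAK := by
  classical
  intro s x b p q p' q' f hSys hf h9
  obtain ⟨L, hF, hN, ζ, ι, hG⟩ := hGZK s x b p q p' q' f hSys hf h9
  haveI := hG.gal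
  obtain ⟨χ, hχs, hχζ, hχF⟩ := hGCHI L f ζ hf hG.prim
  obtain ⟨N₀, hFr⟩ := hGFK s x b p q p' q' f L ζ ι hSys hG
  have hω3 : ι w ^ 3 = 1 := GC.om3 (GCK.om ι)
  have hf1 : 1 < f := by
    obtain ⟨c, hc⟩ := h9
    omega
  have hT := hGTK s x b p q p' q' f L ζ ι hSys hG
  -- action on ω
  have hM : ∀ g : L ≃ₐ[ℚ] L, M2 (χ g) → g (ι w) = ι w ^ 2 := by
    intro g hg
    rw [hG.hω, map_pow, hχζ g, ← pow_mul, mul_comm, pow_mul, ← hG.hω]
    apply GALD.om_congr hω3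
    unfold M2 at hg
    omega
  let F : (L ≃ₐ[ℚ] L) → Prop := fun g => g (ι w) = ι w ^ 2 ∧ FxK x b ι g
  let t : (L ≃ₐ[ℚ] L) → Fin s → ZMod 3 := fun g j =>
    if h : F g then ((hT j).1 g h.1 h.2).choose else 0
  have ht : ∀ (g : L ≃ₐ[ℚ] L) (j : Fin s), F g → IsTK x p q p' q' ι g j (t g j) := by
    intro g j h
    have e : t g j = ((hT j).1 g h.1 h.2).choose := dif_pos h
    rw [e]
    exact ((hT j).1 g h.1 h.2).choose_spec.1
  have htu : ∀ (g : L ≃ₐ[ℚ] L) (j : Fin s) (c : ZMod 3), F g →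
      IsTK x p q p' q' ι g j c → t g j = c := by
    intro g j c h hc
    exact ((hT j).1 g h.1 h.2).unique (ht g j h) hc
  have hconj : ∀ g τ : L ≃ₐ[ℚ] L, F g → (τ * g * τ⁻¹) (ι w) = ι w ^ 2 := by
    intro g τ hg
    rcases GAK.cases_om ι τ with hτ | hτ
    · rw [AlgEquiv.mul_apply, AlgEquiv.mul_apply, GAK.inv_fix hτ, hg.1, map_pow, hτ]
    · have h2 : τ⁻¹ (ι w) = ι w ^ 2 := by
        have h1 : τ (ι w ^ 2) = ι w := by rw [map_pow, hτ, GAK.om4]
        conv_lhs => rw [← h1]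
        rw [← AlgEquiv.mul_apply, inv_mul_cancel]
        rfl
      rw [AlgEquiv.mul_apply, AlgEquiv.mul_apply, h2, map_pow, hg.1, GAK.om4, hτ]
  refine ⟨L, hF, hN, hG.gal, χ, F, t, N₀, hχs, ?_, ?_, ?_, ?_⟩
  · intro g τ _ hg
    have hF' : F (τ * g * τ⁻¹) := ⟨hconj g τ hg, GAK.fxk_conj τ hg.1 hg.2⟩
    refine ⟨hF', funext fun j => ?_⟩
    exact htu _ _ _ hF' ((hT j).2.1 g τ _ hg.1 hg.2 (ht g j hg)).2
  · intro g k _ hg hk
    have hF' : F (g ^ k) := by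
      refine ⟨?_, GAK.fxk_pow hg.2 k⟩
      rw [GALD.pow_om hω3 g hg.1 k]
      apply GALD.om_congr hω3
      rw [GALD.two_pow_odd hk]
    refine ⟨hF', funext fun j => ?_⟩
    rw [Pi.smul_apply, smul_eq_mul]
    exact htu _ _ _ hF' ((hT j).2.2 g _ k hg.1 hg.2 hk (ht g j hg)).2
  · intro a v v' ha
    obtain ⟨z, hzζ, hzx, hzb, hzA⟩ := hGCK s x b p q p' q' f L ζ ι hSys hG
      (fun j => v j - v' j)
    have hzω : z (ι w) = ι w := by rw [hG.hω, map_pow, hzζ]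
    have hχz : χ z = 1 := by
      have h1 := hχζ z
      rw [hzζ] at h1
      haveI : NeZero f := ⟨hf.ne'⟩
      have h2 : ((χ z : ZMod f)).val = 1 := by
        apply hG.prim.pow_inj (ZMod.val_lt _) hf1
        rw [← h1, pow_one]
      apply Units.ext
      have h3 := ZMod.natCast_zmod_val (χ z : ZMod f)
      rw [h2] at h3
      rw [← h3]
      simp
    have hFz : ∀ g : L ≃ₐ[ℚ] L, F g → F (g * z) := by
      intro g hg
      refine ⟨?_, GAK.fxk_mul hSys.cx hSys.cb hg.1 hzω hzx hzb hg.2⟩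
      rw [AlgEquiv.mul_apply, hzω, hg.1]
    have hFz' : ∀ g : L ≃ₐ[ℚ] L, F (g * z) → F g := by
      intro g hg
      have h1 : F (g * z * z⁻¹) := by
        refine ⟨?_, GAK.fxk_mul hSys.cx hSys.cb hg.1 (GAK.inv_fix hzω)
          (fun ρ hρ => GAK.inv_fix (hzx ρ hρ)) (fun j ρ hρ => GAK.inv_fix (hzb j ρ hρ)) hg.2⟩
        rw [AlgEquiv.mul_apply, GAK.inv_fix hzω, hg.1]
      rwa [mul_inv_cancel_right] at h1
    have key : ∀ g : L ≃ₐ[ℚ] L, F g → ∀ j, t (g * z) j = t g j - (v j - v' j) := by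
      intro g hg j
      apply htu _ _ _ (hFz g hg)
      intro ρ A hρ hA
      obtain ⟨h1, h2⟩ := hzA j ρ A hρ hA
      have h3 := h2 g hg.1
      have h4 := ht g j hg ρ A hρ hA
      rw [AlgEquiv.mul_apply, AlgEquiv.mul_apply, h1, map_mul, map_pow, hg.1, map_mul, map_pow,
        map_pow, hzω, h3, map_mul, map_mul, map_pow, map_pow, map_pow, hg.1, h4]
      rw [← mul_assoc, ← mul_assoc, ← pow_mul, ← pow_mul, ← pow_mul, ← pow_add, ← pow_add]
      congr 1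
      apply GALD.om_congr hω3
      have h5 := GAK.val_calc (v j - v' j) (t g j)
      omega
    apply Nat.card_congr
    refine Equiv.subtypeEquiv (Equiv.mulRight z) ?_
    intro g
    have hχ : χ (g * z) = χ g := by rw [map_mul, hχz, mul_one]
    show (χ g = a ∧ F g ∧ t g = v) ↔ (χ (g * z) = a ∧ F (g * z) ∧ t (g * z) = v')
    rw [hχ]
    constructor
    · rintro ⟨h1, h2, h3⟩
      refine ⟨h1, hFz g h2, funext fun j => ?_⟩
      rw [key g h2 j, h3]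
      ring
    · rintro ⟨h1, h2, h3⟩
      refine ⟨h1, hFz' g h2, funext fun j => ?_⟩
      have h4 := congrFun h3 j
      rw [key g (hFz' g h2) j] at h4
      linear_combination h4
  · intro Q hQ hQp hN₀ P g hP hQP hst
    haveI := hP
    obtain ⟨h1, h2⟩ := hFr Q hQp hN₀ P hP hQP
    obtain ⟨k, hk, hfr⟩ := h1 g hst
    refine ⟨k, hk, hχF Q hQ hQp P (g ^ k) hP hQP hfr, ?_⟩
    intro hQ3 hx hb
    obtain ⟨h3, h4⟩ := h2 (g ^ k) hfr hQ3
    obtain ⟨h5, h6⟩ := h4 hx hb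
    refine ⟨⟨h3, h5⟩, fun j r hr => ?_⟩
    exact h6 j r _ hr (ht (g ^ k) j ⟨h3, h5⟩)

end Pool.Agent.PTK


end

section

/-!
# MAL: summary of the joint governing field with pairs of classes, `Q = 2 (mod 3)`
-/

set_option autoImplicit false

open NumberField IsDedekindDomain Finset
open scoped nonZeroDivisors Pointwise

namespace Pool.Agent.PTK

open Pool.Agent.Lib_helper18 Pool.Agent.Lib_helper18.Eis Pool.Agent.Lib_helper84.Cub
open Pool.Agent.PT Pool.Agent.PTE Pool.Agent.PT3 Pool.Agent.PTL Pool.Agent.PTN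

namespace MAL

/-- one class, with no norm, is a system of stage 1 -/
theorem sys1 {M N : ℕ} {z : Fin M → Eis} {α β : Fin N → Fin M} {P Q P' Q' : Fin N → Eis}
    (hS : SysZ z α β P Q P' Q') (i : Fin M) :
    SysK (z i) (Fin.elim0 : Fin 0 → Eis) Fin.elim0 Fin.elim0 Fin.elim0 Fin.elim0 := by
  refine ⟨fun c₀ c h hc => ?_, fun j => j.elim0, hS.cz i, fun j => j.elim0⟩
  refine hS.ind (Function.update 0 i c₀) ⟨i, ?_⟩ ?_
  · rw [Function.update_self]
    rcases h with h | ⟨j, _⟩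
    · exact h
    · exact j.elim0
  · obtain ⟨t, ht⟩ := hc
    refine ⟨t, ht.trans ?_⟩
    rw [Finset.univ_eq_empty, Finset.prod_empty, mul_one, Finset.prod_eq_single i,
      Function.update_self]
    · intro j _ hj
      rw [Function.update_of_ne hj, Pi.zero_apply, pow_zero]
    · intro h
      exact absurd (Finset.mem_univ _) h

/-- the governing field for one class -/
theorem gov1 {M N : ℕ} {z : Fin M → Eis} {α : Fin N → Fin M} {P Q P' Q' : Fin N → Eis}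
    {f : ℕ} {L : Type} [Field L] [NumberField L] {ζ : L} {ι : Eis →+* L}
    (hG : GovZ z α P Q P' Q' f L ζ ι) (i : Fin M) :
    GovK (z i) (Fin.elim0 : Fin 0 → Eis) Fin.elim0 Fin.elim0 Fin.elim0 Fin.elim0 f L ζ ι :=
  ⟨hG.gal, hG.prim, hG.nine, hG.hω, hG.rz i, fun j => j.elim0, fun j => j.elim0,
    fun j => j.elim0⟩

end MAL

theorem MAL_thm (hMZF : Stmt_MZF) (hGCHI : GCHI) (hGTG : GTG) (hGFRG : GFRG) (hGTK : Stmt_GTK)
    (hGFK : Stmt_GFK) (hMC1 : Stmt_MC1) (hMC2 : Stmt_MC2) : Stmt_MAL := by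
  classical
  intro s b p q p' q' M N z α β P Q P' Q' f hSG hSZ hf h9
  obtain ⟨L, hF, hN, ζ, ι, hJ⟩ := hMZF s M N b p q p' q' z α β P Q P' Q' f hSG hSZ hf h9
  have hG := hJ.minus
  have hGp := hJ.plus
  haveI := hG.gal
  obtain ⟨χ, hχs, hχζ, hχF⟩ := hGCHI L f ζ hf hG.prim
  obtain ⟨N₁, hFr1⟩ := hGFRG s b p q p' q' f L ζ (ι w) hSG hGp
  choose N₂ hFr2 using fun r : Fin N => hGFK 1 (z (α r)) (fun _ => z (β r)) (fun _ => P r)
    (fun _ => Q r) (fun _ => P' r) (fun _ => Q' r) f L ζ ι (hSZ.one r) (hG.one r)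
  choose N₃ hFr3 using fun i : Fin M => hGFK 0 (z i) Fin.elim0 Fin.elim0 Fin.elim0 Fin.elim0
    Fin.elim0 f L ζ ι (MAL.sys1 hSZ i) (MAL.gov1 hG i)
  have hω3 : ι w ^ 3 = 1 := GC.om3 (GCK.om ι)
  have hf1 : 1 < f := by
    obtain ⟨c, hc⟩ := h9
    omega
  have hTp := hGTG s b p q p' q' f L ζ (ι w) hSG hGp
  have hT := fun r : Fin N => hGTK 1 (z (α r)) (fun _ => z (β r)) (fun _ => P r)
    (fun _ => Q r) (fun _ => P' r) (fun _ => Q' r) f L ζ ι (hSZ.one r) (hG.one r) 0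
  -- action on ω
  have hM : ∀ g : L ≃ₐ[ℚ] L, M2 (χ g) → g (ι w) = ι w ^ 2 := by
    intro g hg
    rw [hG.hω, map_pow, hχζ g, ← pow_mul, mul_comm, pow_mul, ← hG.hω]
    apply GALD.om_congr hω3
    unfold M2 at hg
    omega
  -- the plus part
  let tt : (L ≃ₐ[ℚ] L) → Fin s → Fin s → ZMod 3 := fun g j i =>
    if h : j ≠ i ∧ g (ι w) = ι w ^ 2 then ((hTp j i h.1).1 g h.2).choose else 0
  have htt : ∀ (g : L ≃ₐ[ℚ] L) (j i : Fin s), j ≠ i → g (ι w) = ι w ^ 2 →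
      IsT b p q p' q' (ι w) g j i (tt g j i) := by
    intro g j i hji hg
    have h : j ≠ i ∧ g (ι w) = ι w ^ 2 := ⟨hji, hg⟩
    have e : tt g j i = ((hTp j i h.1).1 g h.2).choose := dif_pos h
    rw [e]
    exact ((hTp j i h.1).1 g h.2).choose_spec.1
  have httu : ∀ (g : L ≃ₐ[ℚ] L) (j i : Fin s) (c : ZMod 3), j ≠ i → g (ι w) = ι w ^ 2 →
      IsT b p q p' q' (ι w) g j i c → tt g j i = c := by
    intro g j i c hji hg hc
    exact ((hTp j i hji).1 g hg).unique (htt g j i hji hg) hc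
  -- the minus part
  let F : (L ≃ₐ[ℚ] L) → Prop := fun g => g (ι w) = ι w ^ 2 ∧
    ∀ (i : Fin M) (ρ : L), ρ ^ 3 = ι (z i) → g (g ρ) = ρ
  have hFx : ∀ (g : L ≃ₐ[ℚ] L), F g → ∀ r : Fin N,
      FxK (z (α r)) (fun _ : Fin 1 => z (β r)) ι g := fun g hg r => ⟨hg.2 _, fun _ => hg.2 _⟩
  let t : (L ≃ₐ[ℚ] L) → Fin N → ZMod 3 := fun g r =>
    if h : F g then ((hT r).1 g h.1 (hFx g h r)).choose else 0
  have ht : ∀ (g : L ≃ₐ[ℚ] L) (r : Fin N), F g → IsTK (z (α r)) (fun _ : Fin 1 => P r)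
      (fun _ => Q r) (fun _ => P' r) (fun _ => Q' r) ι g 0 (t g r) := by
    intro g r h
    have e : t g r = ((hT r).1 g h.1 (hFx g h r)).choose := dif_pos h
    rw [e]
    exact ((hT r).1 g h.1 (hFx g h r)).choose_spec.1
  have htu : ∀ (g : L ≃ₐ[ℚ] L) (r : Fin N) (c : ZMod 3), F g →
      IsTK (z (α r)) (fun _ : Fin 1 => P r) (fun _ => Q r) (fun _ => P' r) (fun _ => Q' r)
        ι g 0 c → t g r = c := by
    intro g r c h hc
    exact ((hT r).1 g h.1 (hFx g h r)).unique (ht g r h) hc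
  have hconj : ∀ g τ : L ≃ₐ[ℚ] L, F g → (τ * g * τ⁻¹) (ι w) = ι w ^ 2 := by
    intro g τ hg
    rcases GAK.cases_om ι τ with hτ | hτ
    · rw [AlgEquiv.mul_apply, AlgEquiv.mul_apply, GAK.inv_fix hτ, hg.1, map_pow, hτ]
    · have h2 : τ⁻¹ (ι w) = ι w ^ 2 := by
        have h1 : τ (ι w ^ 2) = ι w := by rw [map_pow, hτ, GAK.om4]
        conv_lhs => rw [← h1]
        rw [← AlgEquiv.mul_apply, inv_mul_cancel]
        rfl
      rw [AlgEquiv.mul_apply, AlgEquiv.mul_apply, h2, map_pow, hg.1, GAK.om4, hτ]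
  have hFk : ∀ (g : L ≃ₐ[ℚ] L), F g → ∀ i : Fin M, FxK (z i) z ι g :=
    fun g hg i => ⟨hg.2 i, hg.2⟩
  refine ⟨L, hF, hN, hG.gal, χ, tt, F, t,
    max N₁ (max (Finset.univ.sup N₂) (Finset.univ.sup N₃)), hχs, ?_, ?_, ?_, ?_, ?_, ?_⟩
  · intro g τ hg j i hji
    have h1 : χ (τ * g * τ⁻¹) = χ g := by
      rw [map_mul, map_mul, map_inv, mul_comm (χ τ), mul_inv_cancel_right]
    apply httu _ _ _ _ hji
    · apply hM
      rw [h1]
      exact hg
    · exact (hTp j i hji).2.1 g τ _ (hM g hg) (htt g j i hji (hM g hg))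
  · intro g l hg hl j i hji
    apply httu _ _ _ _ hji
    · rw [GALD.pow_om hω3 g (hM g hg) l]
      apply GALD.om_congr hω3
      rw [GALD.two_pow_odd hl]
    · exact (hTp j i hji).2.2 g _ l (hM g hg) hl (htt g j i hji (hM g hg))
  · intro g τ _ hg
    have hF' : F (τ * g * τ⁻¹) :=
      ⟨hconj g τ hg, fun i => (GAK.fxk_conj τ hg.1 (hFk g hg i)).1⟩
    refine ⟨hF', funext fun r => ?_⟩
    exact htu _ _ _ hF' ((hT r).2.1 g τ _ hg.1 (hFx g hg r) (ht g r hg)).2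
  · intro g l _ hg hl
    have hF' : F (g ^ l) := by
      refine ⟨?_, fun i => (GAK.fxk_pow (hFk g hg i) l).1⟩
      rw [GALD.pow_om hω3 g hg.1 l]
      apply GALD.om_congr hω3
      rw [GALD.two_pow_odd hl]
    refine ⟨hF', funext fun r => ?_⟩
    rw [Pi.smul_apply, smul_eq_mul]
    exact htu _ _ _ hF' ((hT r).2.2 g _ l hg.1 (hFx g hg r) hl (ht g r hg)).2
  · intro a v v' y y' ha
    obtain ⟨z₁, h1F, h1p, h1m⟩ := hMC1 s M N b p q p' q' z α β P Q P' Q' f L ζ ι hSG hSZ hJ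
      (fun j => y j - y' j)
    obtain ⟨z₂, h2F, h2p, h2m⟩ := hMC2 s M N b p q p' q' z α β P Q P' Q' f L ζ ι hSG hSZ hJ
      (fun j i => v j i - v' j i)
    obtain ⟨σ, hσ⟩ : ∃ σ, σ = z₁ * z₂ := ⟨_, rfl⟩
    have hza : ∀ y : L, σ y = z₁ (z₂ y) := fun y => by rw [hσ]; rfl
    have hzζ : σ ζ = ζ := by rw [hza, h2F.ze, h1F.ze]
    have hzω : σ (ι w) = ι w := by rw [hG.hω, map_pow, hzζ]
    have h1ω : z₁ (ι w) = ι w := by rw [hG.hω, map_pow, h1F.ze]
    have hzz : ∀ (i : Fin M) (ρ : L), ρ ^ 3 = ι (z i) → σ ρ = ρ := fun i ρ hρ => by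
      rw [hza, h2F.rz i ρ hρ, h1F.rz i ρ hρ]
    have hzb : ∀ (j : Fin s) (ρ : L), ρ ^ 3 = (b j : L) → σ ρ = ρ := fun j ρ hρ => by
      rw [hza, h2F.rb j ρ hρ, h1F.rb j ρ hρ]
    have hzP : ∀ (j i : Fin s), j < i → ∀ (ρ A : L), PrP b p q p' q' ι j i ρ A →
        σ A = ι w ^ (v j i - v' j i).val * A := by
      intro j i hji ρ A hA
      rw [hza, h2p j i ρ A hji hA, map_mul, map_pow, h1ω, h1p j i ρ A hji.ne hA]
    have hzM : ∀ (j : Fin N) (ρ A : L), PrW z α P Q P' Q' ι j ρ A →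
        σ A = ι w ^ (y j - y' j).val * A ∧
        ∀ g : L ≃ₐ[ℚ] L, g (ι w) = ι w ^ 2 → σ (g A) = ι w ^ (- (y j - y' j)).val * g A := by
      intro j ρ A hA
      obtain ⟨e1, e2⟩ := h1m j ρ A hA
      obtain ⟨e3, e4⟩ := h2m j ρ A hA
      refine ⟨by rw [hza, e3, e1], fun g hg => ?_⟩
      rw [hza, e4 g hg, e2 g hg]
    have hχz : χ σ = 1 := by
      have h1 := hχζ σ
      rw [hzζ] at h1
      haveI : NeZero f := ⟨hf.ne'⟩
      have h2 : ((χ σ : ZMod f)).val = 1 := by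
        apply hG.prim.pow_inj (ZMod.val_lt _) hf1
        rw [← h1, pow_one]
      apply Units.ext
      have h3 := ZMod.natCast_zmod_val (χ σ : ZMod f)
      rw [h2] at h3
      rw [← h3]
      simp
    have hFz : ∀ g : L ≃ₐ[ℚ] L, F g → F (g * σ) := by
      intro g hg
      refine ⟨?_, fun i =>
        (GAK.fxk_mul (hSZ.cz i) hSZ.cz hg.1 hzω (hzz i) hzz (hFk g hg i)).1⟩
      rw [AlgEquiv.mul_apply, hzω, hg.1]
    have hFz' : ∀ g : L ≃ₐ[ℚ] L, F (g * σ) → F g := by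
      intro g hg
      have h1 : F (g * σ * σ⁻¹) := by
        refine ⟨?_, fun i => (GAK.fxk_mul (hSZ.cz i) hSZ.cz hg.1 (GAK.inv_fix hzω)
          (fun ρ hρ => GAK.inv_fix (hzz i ρ hρ)) (fun j ρ hρ => GAK.inv_fix (hzz j ρ hρ))
          (hFk _ hg i)).1⟩
        rw [AlgEquiv.mul_apply, GAK.inv_fix hzω, hg.1]
      rwa [mul_inv_cancel_right] at h1
    have key : ∀ g : L ≃ₐ[ℚ] L, F g → ∀ j, t (g * σ) j = t g j - (y j - y' j) := by
      intro g hg j
      apply htu _ _ _ (hFz g hg)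
      intro ρ A hρ hA
      obtain ⟨h1, h2⟩ := hzM j ρ A ⟨hρ, hA⟩
      have h3 := h2 g hg.1
      have h4 := ht g j hg ρ A hρ hA
      rw [AlgEquiv.mul_apply, AlgEquiv.mul_apply, h1, map_mul, map_pow, hg.1, map_mul, map_pow,
        map_pow, hzω, h3, map_mul, map_mul, map_pow, map_pow, map_pow, hg.1, h4]
      rw [← mul_assoc, ← mul_assoc, ← pow_mul, ← pow_mul, ← pow_mul, ← pow_add, ← pow_add]
      congr 1
      apply GALD.om_congr hω3
      have h5 := GAK.val_calc (y j - y' j) (t g j)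
      omega
    have keyp : ∀ g : L ≃ₐ[ℚ] L, g (ι w) = ι w ^ 2 → ∀ j i, j < i →
        tt (g * σ) j i = tt g j i - (v j i - v' j i) := by
      intro g hg j i hji
      have hgz : (g * σ) (ι w) = ι w ^ 2 := by rw [AlgEquiv.mul_apply, hzω, hg]
      apply httu _ _ _ _ hji.ne hgz
      intro ρ A hρ hgρ hA
      rw [AlgEquiv.mul_apply, hzb j ρ hρ] at hgρ
      have h1 := htt g j i hji.ne hg ρ A hρ hgρ hA
      rw [AlgEquiv.mul_apply, hzP j i hji ρ A ⟨hρ, hA⟩, map_mul, map_pow, hg, mul_assoc, h1,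
        ← pow_mul, ← pow_add]
      apply GALD.om_congr hω3
      have : ((2 * (v j i - v' j i).val + (tt g j i).val : ℕ) : ZMod 3) =
          (((tt g j i - (v j i - v' j i)).val : ℕ) : ZMod 3) := by
        push_cast
        rw [ZMod.natCast_zmod_val, ZMod.natCast_zmod_val, ZMod.natCast_zmod_val]
        have h3 : (3 : ZMod 3) = 0 := by decide
        linear_combination (v j i - v' j i) * h3
      exact (ZMod.natCast_eq_natCast_iff' _ _ 3).mp this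
    apply Nat.card_congr
    refine Equiv.subtypeEquiv (Equiv.mulRight σ) ?_
    intro g
    have hχ : χ (g * σ) = χ g := by rw [map_mul, hχz, mul_one]
    show (χ g = a ∧ F g ∧ t g = y ∧ ∀ j i, j < i → tt g j i = v j i) ↔
      (χ (g * σ) = a ∧ F (g * σ) ∧ t (g * σ) = y' ∧ ∀ j i, j < i → tt (g * σ) j i = v' j i)
    rw [hχ]
    constructor
    · rintro ⟨h1, h2, h3, h4⟩
      refine ⟨h1, hFz g h2, funext fun j => ?_, fun j i hji => ?_⟩
      · rw [key g h2 j, h3]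
        ring
      · rw [keyp g (hM g (by rw [h1]; exact ha)) j i hji, h4 j i hji]
        ring
    · rintro ⟨h1, h2, h3, h4⟩
      refine ⟨h1, hFz' g h2, funext fun j => ?_, fun j i hji => ?_⟩
      · have h5 := congrFun h3 j
        rw [key g (hFz' g h2) j] at h5
        linear_combination h5
      · have h5 := h4 j i hji
        rw [keyp g (hM g (by rw [h1]; exact ha)) j i hji] at h5
        linear_combination h5
  · intro q₀ hq hqp hN₀ I g hI hqI hst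
    haveI := hI
    have hN₂ : ∀ r, N₂ r < q₀ := fun r => (Finset.le_sup (f := N₂) (Finset.mem_univ r)).trans_lt
      (((le_max_left _ _).trans (le_max_right _ _)).trans_lt hN₀)
    have hN₃ : ∀ i, N₃ i < q₀ := fun i => (Finset.le_sup (f := N₃) (Finset.mem_univ i)).trans_lt
      (((le_max_right _ _).trans (le_max_right _ _)).trans_lt hN₀)
    obtain ⟨h1, h2⟩ := hFr1 q₀ hqp ((le_max_left _ _).trans_lt hN₀) I hI hqI
    obtain ⟨l, hl, hfr⟩ := h1 g hst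
    refine ⟨l, hl, hχF q₀ hq hqp I (g ^ l) hI hqI hfr, ?_⟩
    intro hq3
    obtain ⟨h3, h4⟩ := h2 (g ^ l) hfr hq3
    refine ⟨fun j i hji r hr => h4 j i hji r _ hr (htt (g ^ l) j i hji h3), fun hz => ?_⟩
    have hF' : F (g ^ l) := ⟨h3, fun i =>
      (((hFr3 i q₀ hqp (hN₃ i) I hI hqI).2 (g ^ l) hfr hq3).2 (hz i)
        (fun j => j.elim0)).1.1⟩
    refine ⟨hF', fun r ξ hξ => ?_⟩
    exact (((hFr2 r q₀ hqp (hN₂ r) I hI hqI).2 (g ^ l) hfr hq3).2 (hz _)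
      (fun _ => hz _)).2 0 ξ _ hξ (ht (g ^ l) r hF')

end Pool.Agent.PTK


end

section

/-!
# The joint governing field: summary for `Q = 1 (mod 3)`, generic pattern
-/

set_option autoImplicit false

open NumberField IsDedekindDomain Finset
open scoped nonZeroDivisors Pointwise

namespace Pool.Agent.PTK

open Pool.Agent.Lib_helper18 Pool.Agent.Lib_helper18.Eis Pool.Agent.Lib_helper84.Cub
open Pool.Agent.PT Pool.Agent.PTE Pool.Agent.PT3 Pool.Agent.PTL Pool.Agent.PTN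
open Pool.Agent.PT.GALD Pool.Agent.PTE.GALDS

namespace JAU

variable {L : Type} [Field L] [NumberField L]

theorem inv_sq {ι : Eis →+* L} {τ : L ≃ₐ[ℚ] L} (hτ : τ (ι w) = ι w ^ 2) :
    τ⁻¹ (ι w) = ι w ^ 2 := by
  have h1 : τ (ι w ^ 2) = ι w := by rw [map_pow, hτ, GAK.om4]
  conv_lhs => rw [← h1]
  rw [← AlgEquiv.mul_apply, inv_mul_cancel]
  rfl

theorem conj_om {ι : Eis →+* L} {g : L ≃ₐ[ℚ] L} (hg : g (ι w) = ι w) (τ : L ≃ₐ[ℚ] L) :
    (τ * g * τ⁻¹) (ι w) = ι w := by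
  rcases GAK.cases_om ι τ with hτ | hτ
  · rw [AlgEquiv.mul_apply, AlgEquiv.mul_apply, GAK.inv_fix hτ, hg, hτ]
  · rw [AlgEquiv.mul_apply, AlgEquiv.mul_apply, inv_sq hτ, map_pow, hg, map_pow, hτ, GAK.om4]

theorem mul_om {ι : Eis →+* L} {g h : L ≃ₐ[ℚ] L} (hg : g (ι w) = ι w ^ 2)
    (hh : h (ι w) = ι w ^ 2) : (g * h) (ι w) = ι w := by
  rw [AlgEquiv.mul_apply, hh, map_pow, hg, GAK.om4]

theorem pow_fix {g : L ≃ₐ[ℚ] L} {y : L} (h : g y = y) (l : ℕ) : (g ^ l) y = y := by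
  induction l with
  | zero => rfl
  | succ l ih => rw [pow_succ, AlgEquiv.mul_apply, h, ih]

theorem neg_val : ∀ a c : ZMod 3, (2 * (-a).val + c.val) % 3 = (c + a).val % 3 := by decide

theorem two_mul_two : ∀ a : ZMod 3, 2 * a + 2 * a = a := by decide

end JAU

theorem JAU_thm (hJZ : Stmt_JZ) (hGCHI : GCHI) (hGTS : GTS) (hGKUM : GKUM)
    (hGFRU : Stmt_GFRU) (hGTU : Stmt_GTU) (hGFKU : Stmt_GFKU) (hJC1 : Stmt_JC1)
    (hJC2 : Stmt_JC2) : Stmt_JAU := by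
  classical
  intro s b p q p' q' k x u P Q P' Q' f hSys hSysK hf h9
  obtain ⟨L, hF, hN, ζ, ι, hJ⟩ := hJZ (s + 1) k b p q p' q' x u P Q P' Q' f hSys hSysK hf h9
  have hG := hJ.plus
  have hGK := hJ.minus
  have hgal := hG.gal
  obtain ⟨χ, hχs, hχζ, hχF⟩ := hGCHI L f ζ hf hG.prim
  obtain ⟨N₁, hFr⟩ := hGFRU s b p q p' q' f L ζ (ι w) hSys hG
  obtain ⟨N₂, hFrK⟩ := hGFKU k x u P Q P' Q' f L ζ ι hSysK hGK
  have hω3 : ι w ^ 3 = 1 := om_cube hG.rel
  have hf1 : 1 < f := by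
    obtain ⟨c, hc⟩ := h9
    omega
  have h3f : 3 ∣ f := (by norm_num : (3 : ℕ) ∣ 9).trans h9
  have hfz : NeZero f := ⟨hf.ne'⟩
  obtain ⟨hT1, hT⟩ := hGTS s b p q p' q' f L ζ (ι w) hSys hG
  obtain ⟨hU1, hU2, hU⟩ := hGTU k x u P Q P' Q' f L ζ ι hSysK hGK
  -- action on ω
  have hωχ : ∀ g : L ≃ₐ[ℚ] L, g (ι w) = ι w ^ ((χ g : ZMod f)).val := by
    intro g
    rw [hG.hω, map_pow, hχζ g, ← pow_mul, mul_comm, pow_mul, ← hG.hω]
  have hM : ∀ g : L ≃ₐ[ℚ] L, M1 (χ g) → g (ι w) = ι w := by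
    intro g hg
    rw [hωχ g]
    conv_rhs => rw [← pow_one (ι w)]
    apply om_congr hω3
    unfold M1 at hg
    omega
  -- an automorphism with `c ω = ω²`
  obtain ⟨c, hc⟩ : ∃ c : L ≃ₐ[ℚ] L, c (ι w) = ι w ^ 2 := by
    have h1 : (f - 1).Coprime f := by
      have h2 : (f - 1).Coprime (f - 1 + 1) := by simp
      rwa [Nat.sub_add_cancel hf] at h2
    obtain ⟨c, hc⟩ := hχs (ZMod.unitOfCoprime (f - 1) h1)
    refine ⟨c, ?_⟩
    rw [hωχ c, hc, ZMod.coe_unitOfCoprime, ZMod.val_natCast, Nat.mod_eq_of_lt (by omega)]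
    apply om_congr hω3
    omega
  have hc' : c⁻¹ (ι w) = ι w ^ 2 := JAU.inv_sq hc
  have hb0 : ∀ j, b j ≠ 0 := by
    intro j h0
    refine hSys.ind (Pi.single j 1) ⟨j, by simp⟩ ⟨0, ?_⟩
    have h1 : ∏ i, b i ^ (Pi.single j 1 : Fin (s + 1) → ℕ) i = 0 := by
      refine Finset.prod_eq_zero (Finset.mem_univ j) ?_
      rw [Pi.single_eq_same, pow_one, h0]
    rw [h1]
    norm_num
  have hz1 : ∀ z : L ≃ₐ[ℚ] L, z ζ = ζ → z (ι w) = ι w ∧ χ z = 1 := by
    intro z hzζ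
    refine ⟨by rw [hG.hω, map_pow, hzζ], ?_⟩
    have h1 := hχζ z
    rw [hzζ] at h1
    have h2 : ((χ z : ZMod f)).val = 1 := by
      apply hG.prim.pow_inj (ZMod.val_lt _) hf1
      rw [← h1, pow_one]
    apply Units.ext
    have h3 := ZMod.natCast_zmod_val (χ z : ZMod f)
    rw [h2] at h3
    rw [← h3]
    simp
  let t : (L ≃ₐ[ℚ] L) → Fin s → Fin s → ZMod 3 := fun g j i =>
    if h : j ≠ i ∧ g (ι w) = ι w ∧ Fx b g then ((hT j i h.1).1 g h.2.1 h.2.2).choose else 0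
  have ht : ∀ (g : L ≃ₐ[ℚ] L) (j i : Fin s), j ≠ i → g (ι w) = ι w → Fx b g →
      IsTS b p q p' q' (ι w) g j.castSucc i.castSucc (t g j i) := by
    intro g j i hji hg hF
    have h : j ≠ i ∧ g (ι w) = ι w ∧ Fx b g := ⟨hji, hg, hF⟩
    have e : t g j i = ((hT j i h.1).1 g h.2.1 h.2.2).choose := dif_pos h
    rw [e]
    exact ((hT j i h.1).1 g h.2.1 h.2.2).choose_spec.1
  have htu : ∀ (g : L ≃ₐ[ℚ] L) (j i : Fin s) (c : ZMod 3), j ≠ i → g (ι w) = ι w → Fx b g →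
      IsTS b p q p' q' (ι w) g j.castSucc i.castSucc c → t g j i = c := by
    intro g j i c hji hg hF hc
    exact ((hT j i hji).1 g hg hF).unique (ht g j i hji hg hF) hc
  -- the minus part
  let F₂ : (L ≃ₐ[ℚ] L) → Prop := fun g => g (ι w) = ι w ∧ FxU x u ι g
  let t₂ : (L ≃ₐ[ℚ] L) → Fin k → ZMod 3 := fun g j =>
    if h : F₂ g then ((hU j).1 g h.1 h.2).choose else 0
  have ht₂ : ∀ (g : L ≃ₐ[ℚ] L) (j : Fin k), F₂ g → IsTU x P Q P' Q' ι g j (t₂ g j) := by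
    intro g j h
    have e : t₂ g j = ((hU j).1 g h.1 h.2).choose := dif_pos h
    rw [e]
    exact ((hU j).1 g h.1 h.2).choose_spec.1
  have htu₂ : ∀ (g : L ≃ₐ[ℚ] L) (j : Fin k) (c : ZMod 3), F₂ g →
      IsTU x P Q P' Q' ι g j c → t₂ g j = c := by
    intro g j c h hc
    exact ((hU j).1 g h.1 h.2).unique (ht₂ g j h) hc
  have hF₂c : ∀ g τ : L ≃ₐ[ℚ] L, F₂ g → F₂ (τ * g * τ⁻¹) := fun g τ h =>
    ⟨JAU.conj_om h.1 τ, hU1 g τ h.1 h.2⟩
  have htc : ∀ (g τ : L ≃ₐ[ℚ] L) (j : Fin k), F₂ g → τ (ι w) = ι w →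
      t₂ (τ * g * τ⁻¹) j = t₂ g j := by
    intro g τ j hg hτ
    exact htu₂ _ _ _ (hF₂c g τ hg) ((hU j).2.1 g τ _ hg.1 hg.2 hτ (ht₂ g j hg))
  let T : (L ≃ₐ[ℚ] L) → Fin k → ZMod 3 := fun g j => t₂ g j + t₂ (c * g * c⁻¹) j
  refine ⟨L, hF, hN, hG.gal, χ, Fx b, t, F₂, T, max N₁ N₂, hχs, ?_, ?_, ?_, ?_, ?_, ?_, ?_⟩
  · intro g τ hg hFg
    obtain ⟨_, h1, _⟩ := hT1 g (hM g hg) hFg
    obtain ⟨h2, h3⟩ := h1 τ
    refine ⟨h3, fun j i hji => ?_⟩
    exact htu _ _ _ _ hji h2 h3 ((hT j i hji).2.1 g τ _ (hM g hg) hFg (ht g j i hji (hM g hg) hFg))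
  · intro g l hg hFg hl
    obtain ⟨_, _, h1⟩ := hT1 g (hM g hg) hFg
    obtain ⟨h2, h3⟩ := h1 l
    refine ⟨h3 hl, fun j i hji => ?_⟩
    exact htu _ _ _ _ hji h2 (h3 hl) ((hT j i hji).2.2 g _ l (hM g hg)
      (ht g j i hji (hM g hg) hFg))
  · intro g τ _ hg
    refine ⟨hF₂c g τ hg, funext fun j => ?_⟩
    show t₂ (τ * g * τ⁻¹) j + t₂ (c * (τ * g * τ⁻¹) * c⁻¹) j = t₂ g j + t₂ (c * g * c⁻¹) j
    rcases GAK.cases_om ι τ with hτ | hτ
    · rw [htc g τ j hg hτ]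
      have e : c * (τ * g * τ⁻¹) * c⁻¹ = (c * τ * c⁻¹) * (c * g * c⁻¹) * (c * τ * c⁻¹)⁻¹ := by
        group
      rw [e, htc (c * g * c⁻¹) (c * τ * c⁻¹) j (hF₂c g c hg) (JAU.conj_om hτ c)]
    · have e1 : τ * g * τ⁻¹ = (τ * c⁻¹) * (c * g * c⁻¹) * (τ * c⁻¹)⁻¹ := by group
      have e2 : c * (τ * g * τ⁻¹) * c⁻¹ = (c * τ) * g * (c * τ)⁻¹ := by group
      rw [e2, htc g (c * τ) j hg (JAU.mul_om hc hτ), e1,
        htc (c * g * c⁻¹) (τ * c⁻¹) j (hF₂c g c hg) (JAU.mul_om hτ hc')]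
      ring
  · intro g l _ hg
    have hpow : ∀ (g : L ≃ₐ[ℚ] L), F₂ g → F₂ (g ^ l) := by
      intro g hg
      exact ⟨JAU.pow_fix hg.1 l, hU2 g l hg.2⟩
    have ht' : ∀ (g : L ≃ₐ[ℚ] L), F₂ g → ∀ j, t₂ (g ^ l) j = l * t₂ g j := by
      intro g hg j
      exact htu₂ _ _ _ (hpow g hg) ((hU j).2.2 g _ l hg.1 (ht₂ g j hg))
    refine ⟨hpow g hg, funext fun j => ?_⟩
    show t₂ (g ^ l) j + t₂ (c * g ^ l * c⁻¹) j = (l : ZMod 3) * (t₂ g j + t₂ (c * g * c⁻¹) j)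
    have e : c * g ^ l * c⁻¹ = (c * g * c⁻¹) ^ l := by rw [conj_pow]
    rw [e, ht' g hg j, ht' _ (hF₂c g c hg) j]
    ring
  · intro a v v' y y' ha
    obtain ⟨z₁, hz₁, hz₁P, hz₁M⟩ := hJC1 (s + 1) k b p q p' q' x u P Q P' Q' f L ζ ι hSys hSysK
      hJ (fun j => 2 * (y' j - y j))
    obtain ⟨z₂, hz₂, hz₂P, hz₂M⟩ := hJC2 (s + 1) k b p q p' q' x u P Q P' Q' f L ζ ι hSys hSysK
      hJ (fun j i => if h : j ≠ Fin.last s ∧ i ≠ Fin.last s then
        v' (j.castPred h.1) (i.castPred h.2) - v (j.castPred h.1) (i.castPred h.2) else 0)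
    obtain ⟨hz₁ω, hχz₁⟩ := hz1 z₁ hz₁.ze
    obtain ⟨hz₂ω, hχz₂⟩ := hz1 z₂ hz₂.ze
    set z := z₁ * z₂ with hz
    have hzω : z (ι w) = ι w := by rw [hz, AlgEquiv.mul_apply, hz₂ω, hz₁ω]
    have hχz : χ z = 1 := by rw [hz, map_mul, hχz₁, hχz₂, mul_one]
    have hzρ : ∀ (j : Fin (s + 1)) (ρ : L), ρ ^ 3 = (b j : L) → z ρ = ρ := by
      intro j ρ hρ
      rw [hz, AlgEquiv.mul_apply, hz₂.rb j ρ hρ, hz₁.rb j ρ hρ]
    have hzx : ∀ ρ : L, ρ ^ 3 = ι x → z ρ = ρ := by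
      intro ρ hρ
      rw [hz, AlgEquiv.mul_apply, hz₂.rx ρ hρ, hz₁.rx ρ hρ]
    have hzu : ∀ (j : Fin k) (ρ : L), ρ ^ 3 = ι (u j) → z ρ = ρ := by
      intro j ρ hρ
      rw [hz, AlgEquiv.mul_apply, hz₂.ru j ρ hρ, hz₁.ru j ρ hρ]
    have hFz : ∀ g : L ≃ₐ[ℚ] L, Fx b (g * z) ↔ Fx b g := by
      intro g
      have h1 : ∀ (j : Fin (s + 1)) (ρ : L), ρ ^ 3 = (b j : L) → (g * z) ρ = g ρ := by
        intro j ρ hρ
        rw [AlgEquiv.mul_apply, hzρ j ρ hρ]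
      unfold Fx
      constructor
      · rintro ⟨h2, h3⟩
        exact ⟨fun j ρ hρ => by rw [← h1 _ ρ hρ]; exact h2 j ρ hρ,
          fun ρ hρ => by rw [← h1 _ ρ hρ]; exact h3 ρ hρ⟩
      · rintro ⟨h2, h3⟩
        exact ⟨fun j ρ hρ => by rw [h1 _ ρ hρ]; exact h2 j ρ hρ,
          fun ρ hρ => by rw [h1 _ ρ hρ]; exact h3 ρ hρ⟩
    have hF₂z : ∀ g : L ≃ₐ[ℚ] L, F₂ (g * z) ↔ F₂ g := by
      intro g
      have h1 : ∀ ρ : L, ρ ^ 3 = ι x → (g * z) ρ = g ρ := by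
        intro ρ hρ
        rw [AlgEquiv.mul_apply, hzx ρ hρ]
      have h2 : ∀ (j : Fin k) (ρ : L), ρ ^ 3 = ι (u j) → (g * z) ρ = g ρ := by
        intro j ρ hρ
        rw [AlgEquiv.mul_apply, hzu j ρ hρ]
      have h3 : (g * z) (ι w) = g (ι w) := by rw [AlgEquiv.mul_apply, hzω]
      show ((g * z) (ι w) = ι w ∧ FxU x u ι (g * z)) ↔ (g (ι w) = ι w ∧ FxU x u ι g)
      rw [h3]
      unfold FxU
      constructor
      · rintro ⟨h4, h5, h6⟩
        exact ⟨h4, fun ρ hρ => by rw [← h1 ρ hρ]; exact h5 ρ hρ,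
          fun j ρ hρ => by rw [← h2 j ρ hρ]; exact h6 j ρ hρ⟩
      · rintro ⟨h4, h5, h6⟩
        exact ⟨h4, fun ρ hρ => by rw [h1 ρ hρ]; exact h5 ρ hρ,
          fun j ρ hρ => by rw [h2 j ρ hρ]; exact h6 j ρ hρ⟩
    have key : ∀ g : L ≃ₐ[ℚ] L, g (ι w) = ι w → Fx b g → ∀ j i, j < i →
        t (g * z) j i = (v' j i - v j i) + t g j i := by
      intro g hg hFg j i hji
      have hgz : (g * z) (ι w) = ι w := by rw [AlgEquiv.mul_apply, hzω, hg]
      apply htu _ _ _ _ hji.ne hgz ((hFz g).2 hFg)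
      intro ρ A hρ hA
      have h1 := ht g j i hji.ne hg hFg ρ A hρ hA
      have hlt : j.castSucc < i.castSucc := Fin.castSucc_lt_castSucc_iff.2 hji
      have h2 := hz₂P j.castSucc i.castSucc ρ A hlt ⟨hρ, hA⟩
      have h2' := hz₁P j.castSucc i.castSucc ρ A hlt.ne ⟨hρ, hA⟩
      have h3 : j.castSucc ≠ Fin.last s ∧ i.castSucc ≠ Fin.last s :=
        ⟨(Fin.castSucc_lt_last j).ne, (Fin.castSucc_lt_last i).ne⟩
      simp only [dif_pos h3, Fin.castPred_castSucc] at h2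
      rw [AlgEquiv.mul_apply, hz, AlgEquiv.mul_apply, h2, map_mul, map_pow, hz₁ω, h2', map_mul,
        map_pow, hg, h1, ← mul_assoc, om_add hω3]
    have key₂ : ∀ g : L ≃ₐ[ℚ] L, F₂ g → T (g * z) = T g + (y' - y) := by
      intro g hg
      funext j
      have hgz : F₂ (g * z) := (hF₂z g).2 hg
      have e1 : t₂ (g * z) j = 2 * (y' j - y j) + t₂ g j := by
        apply htu₂ _ _ _ hgz
        intro ρ A hA
        have h1 := ht₂ g j hg ρ A hA
        rw [AlgEquiv.mul_apply, hz, AlgEquiv.mul_apply, (hz₂M j ρ A hA).1, (hz₁M j ρ A hA).1,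
          map_mul, map_pow, hg.1, h1, ← mul_assoc, om_add hω3]
      have e2 : t₂ (c * (g * z) * c⁻¹) j = t₂ (c * g * c⁻¹) j + 2 * (y' j - y j) := by
        apply htu₂ _ _ _ (hF₂c _ c hgz)
        intro ρ A hA
        have h1 := ht₂ (c * g * c⁻¹) j (hF₂c g c hg) ρ A hA
        have h2 : (c * (g * z) * c⁻¹) A = c (g (z₁ (z₂ (c⁻¹ A)))) := by
          rw [hz]
          rfl
        have h3 : (c * g * c⁻¹) A = c (g (c⁻¹ A)) := rfl
        rw [h3] at h1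
        rw [h2, (hz₂M j ρ A hA).2 c⁻¹ hc', (hz₁M j ρ A hA).2 c⁻¹ hc', map_mul, map_pow, hg.1,
          map_mul, map_pow, hc, h1, ← mul_assoc, ← pow_mul, ← pow_add]
        congr 1
        apply om_congr hω3
        exact JAU.neg_val _ _
      show t₂ (g * z) j + t₂ (c * (g * z) * c⁻¹) j =
        t₂ g j + t₂ (c * g * c⁻¹) j + (y' j - y j)
      rw [e1, e2]
      have e3 := JAU.two_mul_two (y' j - y j)
      linear_combination e3
    apply Nat.card_congr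
    refine Equiv.subtypeEquiv (Equiv.mulRight z) ?_
    intro g
    have hχ : χ (g * z) = χ g := by rw [map_mul, hχz, mul_one]
    show (χ g = a ∧ Fx b g ∧ F₂ g ∧ T g = y ∧ ∀ j i, j < i → t g j i = v j i) ↔
      (χ (g * z) = a ∧ Fx b (g * z) ∧ F₂ (g * z) ∧ T (g * z) = y' ∧
        ∀ j i, j < i → t (g * z) j i = v' j i)
    rw [hχ, hFz g, hF₂z g]
    constructor
    · rintro ⟨h1, h2, h3, h4, h5⟩
      refine ⟨h1, h2, h3, ?_, fun j i hji => ?_⟩
      · rw [key₂ g h3, h4]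
        abel
      · rw [key g (hM g (by rw [h1]; exact ha)) h2 j i hji, h5 j i hji]
        ring
    · rintro ⟨h1, h2, h3, h4, h5⟩
      refine ⟨h1, h2, h3, ?_, fun j i hji => ?_⟩
      · rw [key₂ g h3] at h4
        funext j
        have h6 := congrFun h4 j
        simp only [Pi.add_apply, Pi.sub_apply] at h6
        linear_combination h6
      · have h6 := h5 j i hji
        rw [key g (hM g (by rw [h1]; exact ha)) h2 j i hji] at h6
        linear_combination h6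
  · intro a ha
    choose θ hθ using hG.root
    have hθ0 : ∀ j, θ j ≠ 0 := by
      intro j h0
      have h1 := hθ j
      rw [h0] at h1
      apply hb0 j
      have h2 : ((b j : ℤ) : L) = 0 := by rw [← h1]; norm_num
      exact_mod_cast h2
    have hex : ∀ (g : L ≃ₐ[ℚ] L) (j : Fin (s + 1)), ∃ u : ZMod 3,
        g (θ j) = ι w ^ u.val * θ j := by
      intro g j
      apply cube_root hG.rel
      rw [← map_pow, hθ j, map_intCast]
    choose uu huu using hex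
    have huniq : ∀ (g : L ≃ₐ[ℚ] L) (j : Fin (s + 1)) (u : ZMod 3),
        g (θ j) = ι w ^ u.val * θ j → uu g j = u := by
      intro g j u h
      apply om_zmod_inj hG.rel (hθ0 j)
      rw [← huu g j, h]
    -- criterion for `Fx`
    have hFu : ∀ g : L ≃ₐ[ℚ] L, g (ι w) = ι w → (Fx b g ↔
        (∀ j : Fin s, uu g j.castSucc = 0) ∧ uu g (Fin.last s) ≠ 0) := by
      intro g hg
      constructor
      · rintro ⟨h1, h2⟩
        refine ⟨fun j => ?_, fun h0 => ?_⟩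
        · apply huniq
          rw [h1 j _ (hθ _)]
          simp
        · apply h2 _ (hθ _)
          rw [huu, h0]
          simp
      · rintro ⟨h1, h2⟩
        have h3 : ∀ (j : Fin (s + 1)) (ρ : L), ρ ^ 3 = (b j : L) →
            g ρ = ι w ^ (uu g j).val * ρ := by
          intro j ρ hρ
          obtain ⟨u, hu⟩ := cube_root hG.rel (θ := θ j) (ρ := ρ) (by rw [hρ, hθ])
          rw [hu, map_mul, map_pow, hg, huu]
          ring
        refine ⟨fun j ρ hρ => ?_, fun ρ hρ h4 => ?_⟩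
        · rw [h3 _ ρ hρ, h1 j]
          simp
        · rw [h3 _ ρ hρ] at h4
          have hρ0 : ρ ≠ 0 := by
            intro h0
            rw [h0] at hρ
            apply hb0 (Fin.last s)
            have h5 : ((b (Fin.last s) : ℤ) : L) = 0 := by rw [← hρ]; norm_num
            exact_mod_cast h5
          apply h2
          apply om_zmod_inj hG.rel hρ0
          rw [h4]
          simp
    have hfib : ∀ w₁ w' : Fin (s + 1) → ZMod 3,
        (univ.filter fun g : L ≃ₐ[ℚ] L => χ g = a ∧ uu g = w₁).card =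
        (univ.filter fun g : L ≃ₐ[ℚ] L => χ g = a ∧ uu g = w').card := by
      intro w₁ w'
      obtain ⟨z, hzζ, hzρ⟩ := hGKUM (s + 1) b p q p' q' f L ζ (ι w) hSys hG (w' - w₁)
      obtain ⟨hzω, hχz⟩ := hz1 z hzζ
      have key : ∀ g : L ≃ₐ[ℚ] L, g (ι w) = ι w → uu (g * z) = (w' - w₁) + uu g := by
        intro g hg
        funext j
        apply huniq
        rw [AlgEquiv.mul_apply, hzρ j _ (hθ j), map_mul, map_pow, hg, huu, ← mul_assoc,
          om_add hω3]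
        rfl
      refine Finset.card_bij (fun g _ => g * z) ?_ ?_ ?_
      · intro g hg
        rw [mem_filter] at hg ⊢
        obtain ⟨_, h1, h2⟩ := hg
        refine ⟨mem_univ _, by rw [map_mul, hχz, mul_one, h1], ?_⟩
        rw [key g (hM g (by rw [h1]; exact ha)), h2]
        abel
      · intro g _ g' _ e
        exact mul_right_cancel e
      · intro g hg
        rw [mem_filter] at hg
        obtain ⟨_, h1, h2⟩ := hg
        have h3 : g * z⁻¹ * z = g := inv_mul_cancel_right g z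
        have h4 : χ (g * z⁻¹) = a := by rw [map_mul, map_inv, hχz, inv_one, mul_one, h1]
        refine ⟨g * z⁻¹, ?_, h3⟩
        rw [mem_filter]
        refine ⟨mem_univ _, h4, ?_⟩
        have h5 := key (g * z⁻¹) (hM _ (by rw [h4]; exact ha))
        rw [h3, h2] at h5
        funext j
        have h7 := congrFun h5 j
        simp only [Pi.add_apply, Pi.sub_apply] at h7
        linear_combination (-1 : ZMod 3) * h7
    have hsub : ∀ (D : Finset (Fin (s + 1) → ZMod 3)),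
        (univ.filter fun g : L ≃ₐ[ℚ] L => χ g = a ∧ uu g ∈ D).card =
        D.card * (univ.filter fun g : L ≃ₐ[ℚ] L => χ g = a ∧ uu g = 0).card := by
      intro D
      rw [Finset.card_eq_sum_card_fiberwise (f := uu) (t := D)]
      · rw [← smul_eq_mul, ← Finset.sum_const]
        refine Finset.sum_congr rfl fun w₁ hw => ?_
        rw [← hfib w₁ 0, Finset.filter_filter]
        congr 1
        apply Finset.filter_congr
        intro g _
        constructor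
        · rintro ⟨⟨h1, _⟩, h2⟩
          exact ⟨h1, h2⟩
        · rintro ⟨h1, h2⟩
          exact ⟨⟨h1, by rw [h2]; exact hw⟩, h2⟩
      · intro g hg
        have h1 := (mem_filter.1 (Finset.mem_coe.1 hg)).2.2
        exact h1
    have h1 : Nat.card {g : L ≃ₐ[ℚ] L // χ g = a} =
        3 ^ (s + 1) * (univ.filter fun g : L ≃ₐ[ℚ] L => χ g = a ∧ uu g = 0).card := by
      rw [Nat.card_eq_fintype_card, Fintype.card_subtype]
      have h2 := hsub univ
      simp only [mem_univ, and_true] at h2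
      rw [h2, Finset.card_univ, Fintype.card_fun, ZMod.card, Fintype.card_fin]
    have h2 : Nat.card {g : L ≃ₐ[ℚ] L // χ g = a ∧ Fx b g} =
        2 * (univ.filter fun g : L ≃ₐ[ℚ] L => χ g = a ∧ uu g = 0).card := by
      rw [Nat.card_eq_fintype_card, Fintype.card_subtype]
      have h2 := hsub (univ.filter fun w₁ : Fin (s + 1) → ZMod 3 =>
        (∀ j : Fin s, w₁ j.castSucc = 0) ∧ w₁ (Fin.last s) ≠ 0)
      rw [card_good] at h2
      rw [← h2]
      congr 1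
      apply Finset.filter_congr
      intro g _
      constructor
      · rintro ⟨h3, h4⟩
        refine ⟨h3, mem_filter.2 ⟨mem_univ _, ?_⟩⟩
        exact (hFu g (hM g (by rw [h3]; exact ha))).1 h4
      · rintro ⟨h3, h4⟩
        exact ⟨h3, (hFu g (hM g (by rw [h3]; exact ha))).2 (mem_filter.1 h4).2⟩
    rw [h1, h2]
    ring
  · intro N hN hNp hN₀ I g hI hNI hst
    have hfin := GFR.quo_finite hNp hI hNI
    obtain ⟨l, hl, hfr⟩ := GFR.exists_frob_gen (R := ℤ) I g hst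
    have hχl := hχF N hN hNp I (g ^ l) hI hNI hfr
    refine ⟨l, hl, hχl, fun hN3 ρ hρ => ?_⟩
    obtain ⟨h1, h2⟩ := hFr N hNp (lt_of_le_of_lt (le_max_left _ _) hN₀) hN3 I hI hNI (g ^ l) hfr
      ρ hρ
    have hM1 : M1 (χ (g ^ l)) := by
      unfold M1
      rw [hχl, ZMod.coe_unitOfCoprime, ZMod.val_natCast, Nat.mod_mod_of_dvd _ h3f]
      exact hN3
    refine ⟨h1, fun hF j i hji r hr => ?_, fun hx hu => ?_⟩
    · exact h2 hF j i hji r _ hr (ht (g ^ l) j i hji (hM _ hM1) hF)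
    · obtain ⟨h3, h4, h5⟩ := hFrK N hNp (lt_of_le_of_lt (le_max_right _ _) hN₀) hN3 I hI hNI
        (g ^ l) hfr ρ hρ hx hu
      have h6 : F₂ (g ^ l) := ⟨h3, h4⟩
      refine ⟨h6, fun j r r' hr hr' => ?_⟩
      exact h5 c hc j r r' _ _ hr hr' (ht₂ (g ^ l) j h6) (ht₂ _ j (hF₂c (g ^ l) c h6))

end Pool.Agent.PTK


end

section

/-!
# All moments: the joint governing field, summary for `Q = 1 (mod 3)`, generic pattern

Copy of `PTK/JAU.lean` for several base classes.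
-/

set_option autoImplicit false

open NumberField IsDedekindDomain Finset
open scoped nonZeroDivisors Pointwise

namespace Pool.Agent.PTK

open Pool.Agent.Lib_helper18 Pool.Agent.Lib_helper18.Eis Pool.Agent.Lib_helper84.Cub
open Pool.Agent.PT Pool.Agent.PTE Pool.Agent.PT3 Pool.Agent.PTL Pool.Agent.PTN
open Pool.Agent.PT.GALD Pool.Agent.PTE.GALDS

namespace MAU

/-- one class of a system, no pairs -/
theorem sysZero {M N : ℕ} {z : Fin M → Eis} {α β : Fin N → Fin M} {P Q P' Q' : Fin N → Eis}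
    (hS : SysZ z α β P Q P' Q') (i : Fin M) :
    SysK (z i) (Fin.elim0 : Fin 0 → Eis) Fin.elim0 Fin.elim0 Fin.elim0 Fin.elim0 := by
  refine ⟨fun c₀ c h hc => ?_, fun j => j.elim0, hS.cz i, fun j => j.elim0⟩
  have h1 : ¬ 3 ∣ c₀ := by
    rcases h with h | ⟨j, _⟩
    · exact h
    · exact j.elim0
  obtain ⟨t, ht⟩ := hc
  refine hS.ind (Pi.single i c₀) ⟨i, by rwa [Pi.single_eq_same]⟩ ⟨t, ht.trans ?_⟩
  have e1 : ∏ j, z j ^ (Pi.single i c₀ : Fin M → ℕ) j = z i ^ c₀ := by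
    rw [Finset.prod_eq_single i]
    · rw [Pi.single_eq_same]
    · intro j _ hj
      rw [Pi.single_eq_of_ne hj, pow_zero]
    · intro h
      exact absurd (Finset.mem_univ i) h
  rw [e1]
  simp

theorem govZero {M N : ℕ} {z : Fin M → Eis} {α : Fin N → Fin M} {P Q P' Q' : Fin N → Eis}
    {f : ℕ} {L : Type} [Field L] [NumberField L] {ζ : L} {ι : Eis →+* L}
    (hG : GovZ z α P Q P' Q' f L ζ ι) (i : Fin M) :
    GovK (z i) (Fin.elim0 : Fin 0 → Eis) Fin.elim0 Fin.elim0 Fin.elim0 Fin.elim0 f L ζ ι :=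
  ⟨hG.gal, hG.prim, hG.nine, hG.hω, hG.rz i, fun j => j.elim0, fun j => j.elim0,
    fun j => j.elim0⟩

/-- the relation between `g` and `t_r(g)` -/
def IsTW {M N : ℕ} (z : Fin M → Eis) (α : Fin N → Fin M) (P Q P' Q' : Fin N → Eis) {L : Type}
    [Field L] [NumberField L] (ι : Eis →+* L) (g : L ≃ₐ[ℚ] L) (r : Fin N) (t : ZMod 3) : Prop :=
  IsTU (z (α r)) (fun _ : Fin 1 => P r) (fun _ => Q r) (fun _ => P' r) (fun _ => Q' r) ι g 0 t

/-- `g` fixes the roots of all classes -/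
def FxZ {M : ℕ} (z : Fin M → Eis) {L : Type} [Field L] [NumberField L] (ι : Eis →+* L)
    (g : L ≃ₐ[ℚ] L) : Prop :=
  ∀ (i : Fin M) (ρ : L), ρ ^ 3 = ι (z i) → g ρ = ρ

theorem FxZ.one {M : ℕ} {z : Fin M → Eis} {L : Type} [Field L] [NumberField L] {ι : Eis →+* L}
    {g : L ≃ₐ[ℚ] L} (h : FxZ z ι g) (i j : Fin M) : FxU (z i) (fun _ : Fin 1 => z j) ι g :=
  ⟨h i, fun _ => h j⟩

theorem FxZ.zero {M : ℕ} {z : Fin M → Eis} {L : Type} [Field L] [NumberField L] {ι : Eis →+* L}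
    {g : L ≃ₐ[ℚ] L} (h : FxZ z ι g) (i : Fin M) :
    FxU (z i) (Fin.elim0 : Fin 0 → Eis) ι g :=
  ⟨h i, fun j => j.elim0⟩

end MAU

theorem MAU_thm (hMZF : Stmt_MZF) (hGCHI : GCHI) (hGTS : GTS) (hGKUM : GKUM)
    (hGFRU : Stmt_GFRU) (hGTU : Stmt_GTU) (hGFKU : Stmt_GFKU) (hMC1 : Stmt_MC1)
    (hMC2 : Stmt_MC2) : Stmt_MAU := by
  classical
  intro s b p q p' q' M N z α β P Q P' Q' f hSys hSysZ hf h9
  obtain ⟨L, hF, hN, ζ, ι, hJ⟩ := hMZF (s + 1) M N b p q p' q' z α β P Q P' Q' f hSys hSysZ hf h9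
  have hG := hJ.plus
  have hGK := hJ.minus
  have hgal := hG.gal
  obtain ⟨χ, hχs, hχζ, hχF⟩ := hGCHI L f ζ hf hG.prim
  obtain ⟨N₁, hFr⟩ := hGFRU s b p q p' q' f L ζ (ι w) hSys hG
  have hFrZ := fun r : Fin N => hGFKU 1 (z (α r)) (fun _ => z (β r)) (fun _ => P r) (fun _ => Q r)
    (fun _ => P' r) (fun _ => Q' r) f L ζ ι (hSysZ.one r) (hGK.one r)
  have hFr0 := fun i : Fin M => hGFKU 0 (z i) Fin.elim0 Fin.elim0 Fin.elim0 Fin.elim0 Fin.elim0
    f L ζ ι (MAU.sysZero hSysZ i) (MAU.govZero hGK i)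
  choose N₂ hFrK using hFrZ
  choose N₃ hFr1 using hFr0
  have hω3 : ι w ^ 3 = 1 := om_cube hG.rel
  have hf1 : 1 < f := by
    obtain ⟨c, hc⟩ := h9
    omega
  have h3f : 3 ∣ f := (by norm_num : (3 : ℕ) ∣ 9).trans h9
  have hfz : NeZero f := ⟨hf.ne'⟩
  obtain ⟨hT1, hT⟩ := hGTS s b p q p' q' f L ζ (ι w) hSys hG
  have hU := fun r : Fin N => hGTU 1 (z (α r)) (fun _ => z (β r)) (fun _ => P r) (fun _ => Q r)
    (fun _ => P' r) (fun _ => Q' r) f L ζ ι (hSysZ.one r) (hGK.one r)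
  have hU0 := fun i : Fin M => hGTU 0 (z i) Fin.elim0 Fin.elim0 Fin.elim0 Fin.elim0 Fin.elim0
    f L ζ ι (MAU.sysZero hSysZ i) (MAU.govZero hGK i)
  -- action on ω
  have hωχ : ∀ g : L ≃ₐ[ℚ] L, g (ι w) = ι w ^ ((χ g : ZMod f)).val := by
    intro g
    rw [hG.hω, map_pow, hχζ g, ← pow_mul, mul_comm, pow_mul, ← hG.hω]
  have hM : ∀ g : L ≃ₐ[ℚ] L, M1 (χ g) → g (ι w) = ι w := by
    intro g hg
    rw [hωχ g]
    conv_rhs => rw [← pow_one (ι w)]
    apply om_congr hω3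
    unfold M1 at hg
    omega
  -- an automorphism with `c ω = ω²`
  obtain ⟨c, hc⟩ : ∃ c : L ≃ₐ[ℚ] L, c (ι w) = ι w ^ 2 := by
    have h1 : (f - 1).Coprime f := by
      have h2 : (f - 1).Coprime (f - 1 + 1) := by simp
      rwa [Nat.sub_add_cancel hf] at h2
    obtain ⟨c, hc⟩ := hχs (ZMod.unitOfCoprime (f - 1) h1)
    refine ⟨c, ?_⟩
    rw [hωχ c, hc, ZMod.coe_unitOfCoprime, ZMod.val_natCast, Nat.mod_eq_of_lt (by omega)]
    apply om_congr hω3
    omega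
  have hc' : c⁻¹ (ι w) = ι w ^ 2 := JAU.inv_sq hc
  have hb0 : ∀ j, b j ≠ 0 := by
    intro j h0
    refine hSys.ind (Pi.single j 1) ⟨j, by simp⟩ ⟨0, ?_⟩
    have h1 : ∏ i, b i ^ (Pi.single j 1 : Fin (s + 1) → ℕ) i = 0 := by
      refine Finset.prod_eq_zero (Finset.mem_univ j) ?_
      rw [Pi.single_eq_same, pow_one, h0]
    rw [h1]
    norm_num
  have hz1 : ∀ y : L ≃ₐ[ℚ] L, y ζ = ζ → y (ι w) = ι w ∧ χ y = 1 := by
    intro y hzζ
    refine ⟨by rw [hG.hω, map_pow, hzζ], ?_⟩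
    have h1 := hχζ y
    rw [hzζ] at h1
    have h2 : ((χ y : ZMod f)).val = 1 := by
      apply hG.prim.pow_inj (ZMod.val_lt _) hf1
      rw [← h1, pow_one]
    apply Units.ext
    have h3 := ZMod.natCast_zmod_val (χ y : ZMod f)
    rw [h2] at h3
    rw [← h3]
    simp
  let t : (L ≃ₐ[ℚ] L) → Fin s → Fin s → ZMod 3 := fun g j i =>
    if h : j ≠ i ∧ g (ι w) = ι w ∧ Fx b g then ((hT j i h.1).1 g h.2.1 h.2.2).choose else 0
  have ht : ∀ (g : L ≃ₐ[ℚ] L) (j i : Fin s), j ≠ i → g (ι w) = ι w → Fx b g →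
      IsTS b p q p' q' (ι w) g j.castSucc i.castSucc (t g j i) := by
    intro g j i hji hg hF
    have h : j ≠ i ∧ g (ι w) = ι w ∧ Fx b g := ⟨hji, hg, hF⟩
    have e : t g j i = ((hT j i h.1).1 g h.2.1 h.2.2).choose := dif_pos h
    rw [e]
    exact ((hT j i h.1).1 g h.2.1 h.2.2).choose_spec.1
  have htu : ∀ (g : L ≃ₐ[ℚ] L) (j i : Fin s) (c : ZMod 3), j ≠ i → g (ι w) = ι w → Fx b g →
      IsTS b p q p' q' (ι w) g j.castSucc i.castSucc c → t g j i = c := by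
    intro g j i c hji hg hF hc
    exact ((hT j i hji).1 g hg hF).unique (ht g j i hji hg hF) hc
  -- the minus part
  let F₂ : (L ≃ₐ[ℚ] L) → Prop := fun g => g (ι w) = ι w ∧ MAU.FxZ z ι g
  have hone : ∀ (g : L ≃ₐ[ℚ] L) (r : Fin N), F₂ g →
      FxU (z (α r)) (fun _ : Fin 1 => z (β r)) ι g := fun g r h => h.2.one (α r) (β r)
  let t₂ : (L ≃ₐ[ℚ] L) → Fin N → ZMod 3 := fun g r =>
    if h : F₂ g then (((hU r).2.2 0).1 g h.1 (hone g r h)).choose else 0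
  have ht₂ : ∀ (g : L ≃ₐ[ℚ] L) (r : Fin N), F₂ g →
      MAU.IsTW z α P Q P' Q' ι g r (t₂ g r) := by
    intro g r h
    have e : t₂ g r = (((hU r).2.2 0).1 g h.1 (hone g r h)).choose := dif_pos h
    rw [e]
    exact (((hU r).2.2 0).1 g h.1 (hone g r h)).choose_spec.1
  have htu₂ : ∀ (g : L ≃ₐ[ℚ] L) (r : Fin N) (c : ZMod 3), F₂ g →
      MAU.IsTW z α P Q P' Q' ι g r c → t₂ g r = c := by
    intro g r c h hc
    exact (((hU r).2.2 0).1 g h.1 (hone g r h)).unique (ht₂ g r h) hc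
  have hF₂c : ∀ g τ : L ≃ₐ[ℚ] L, F₂ g → F₂ (τ * g * τ⁻¹) := fun g τ h =>
    ⟨JAU.conj_om h.1 τ, fun i => ((hU0 i).1 g τ h.1 (h.2.zero i)).1⟩
  have htc : ∀ (g τ : L ≃ₐ[ℚ] L) (j : Fin N), F₂ g → τ (ι w) = ι w →
      t₂ (τ * g * τ⁻¹) j = t₂ g j := by
    intro g τ j hg hτ
    exact htu₂ _ _ _ (hF₂c g τ hg)
      (((hU j).2.2 0).2.1 g τ _ hg.1 (hone g j hg) hτ (ht₂ g j hg))
  let T : (L ≃ₐ[ℚ] L) → Fin N → ZMod 3 := fun g j => t₂ g j + t₂ (c * g * c⁻¹) j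
  refine ⟨L, hF, hN, hG.gal, χ, Fx b, t, F₂, T,
    max N₁ (max (univ.sup N₂) (univ.sup N₃)), hχs, ?_, ?_, ?_, ?_, ?_, ?_, ?_⟩
  · intro g τ hg hFg
    obtain ⟨_, h1, _⟩ := hT1 g (hM g hg) hFg
    obtain ⟨h2, h3⟩ := h1 τ
    refine ⟨h3, fun j i hji => ?_⟩
    exact htu _ _ _ _ hji h2 h3 ((hT j i hji).2.1 g τ _ (hM g hg) hFg (ht g j i hji (hM g hg) hFg))
  · intro g l hg hFg hl
    obtain ⟨_, _, h1⟩ := hT1 g (hM g hg) hFg
    obtain ⟨h2, h3⟩ := h1 l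
    refine ⟨h3 hl, fun j i hji => ?_⟩
    exact htu _ _ _ _ hji h2 (h3 hl) ((hT j i hji).2.2 g _ l (hM g hg)
      (ht g j i hji (hM g hg) hFg))
  · intro g τ _ hg
    refine ⟨hF₂c g τ hg, funext fun j => ?_⟩
    show t₂ (τ * g * τ⁻¹) j + t₂ (c * (τ * g * τ⁻¹) * c⁻¹) j = t₂ g j + t₂ (c * g * c⁻¹) j
    rcases GAK.cases_om ι τ with hτ | hτ
    · rw [htc g τ j hg hτ]
      have e : c * (τ * g * τ⁻¹) * c⁻¹ = (c * τ * c⁻¹) * (c * g * c⁻¹) * (c * τ * c⁻¹)⁻¹ := by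
        group
      rw [e, htc (c * g * c⁻¹) (c * τ * c⁻¹) j (hF₂c g c hg) (JAU.conj_om hτ c)]
    · have e1 : τ * g * τ⁻¹ = (τ * c⁻¹) * (c * g * c⁻¹) * (τ * c⁻¹)⁻¹ := by group
      have e2 : c * (τ * g * τ⁻¹) * c⁻¹ = (c * τ) * g * (c * τ)⁻¹ := by group
      rw [e2, htc g (c * τ) j hg (JAU.mul_om hc hτ), e1,
        htc (c * g * c⁻¹) (τ * c⁻¹) j (hF₂c g c hg) (JAU.mul_om hτ hc')]
      ring
  · intro g l _ hg
    have hpow : ∀ (g : L ≃ₐ[ℚ] L), F₂ g → F₂ (g ^ l) := by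
      intro g hg
      exact ⟨JAU.pow_fix hg.1 l, fun i => ((hU0 i).2.1 g l (hg.2.zero i)).1⟩
    have ht' : ∀ (g : L ≃ₐ[ℚ] L), F₂ g → ∀ j, t₂ (g ^ l) j = l * t₂ g j := by
      intro g hg j
      exact htu₂ _ _ _ (hpow g hg) (((hU j).2.2 0).2.2 g _ l hg.1 (ht₂ g j hg))
    refine ⟨hpow g hg, funext fun j => ?_⟩
    show t₂ (g ^ l) j + t₂ (c * g ^ l * c⁻¹) j = (l : ZMod 3) * (t₂ g j + t₂ (c * g * c⁻¹) j)
    have e : c * g ^ l * c⁻¹ = (c * g * c⁻¹) ^ l := by rw [conj_pow]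
    rw [e, ht' g hg j, ht' _ (hF₂c g c hg) j]
    ring
  · intro a v v' y y' ha
    obtain ⟨z₁, hz₁, hz₁P, hz₁M⟩ := hMC1 (s + 1) M N b p q p' q' z α β P Q P' Q' f L ζ ι hSys
      hSysZ hJ (fun j => 2 * (y' j - y j))
    obtain ⟨z₂, hz₂, hz₂P, hz₂M⟩ := hMC2 (s + 1) M N b p q p' q' z α β P Q P' Q' f L ζ ι hSys
      hSysZ hJ (fun j i => if h : j ≠ Fin.last s ∧ i ≠ Fin.last s then
        v' (j.castPred h.1) (i.castPred h.2) - v (j.castPred h.1) (i.castPred h.2) else 0)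
    obtain ⟨hz₁ω, hχz₁⟩ := hz1 z₁ hz₁.ze
    obtain ⟨hz₂ω, hχz₂⟩ := hz1 z₂ hz₂.ze
    set y₀ := z₁ * z₂ with hz
    have hzω : y₀ (ι w) = ι w := by rw [hz, AlgEquiv.mul_apply, hz₂ω, hz₁ω]
    have hχz : χ y₀ = 1 := by rw [hz, map_mul, hχz₁, hχz₂, mul_one]
    have hzρ : ∀ (j : Fin (s + 1)) (ρ : L), ρ ^ 3 = (b j : L) → y₀ ρ = ρ := by
      intro j ρ hρ
      rw [hz, AlgEquiv.mul_apply, hz₂.rb j ρ hρ, hz₁.rb j ρ hρ]
    have hzu : ∀ (i : Fin M) (ρ : L), ρ ^ 3 = ι (z i) → y₀ ρ = ρ := by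
      intro i ρ hρ
      rw [hz, AlgEquiv.mul_apply, hz₂.rz i ρ hρ, hz₁.rz i ρ hρ]
    have hFz : ∀ g : L ≃ₐ[ℚ] L, Fx b (g * y₀) ↔ Fx b g := by
      intro g
      have h1 : ∀ (j : Fin (s + 1)) (ρ : L), ρ ^ 3 = (b j : L) → (g * y₀) ρ = g ρ := by
        intro j ρ hρ
        rw [AlgEquiv.mul_apply, hzρ j ρ hρ]
      unfold Fx
      constructor
      · rintro ⟨h2, h3⟩
        exact ⟨fun j ρ hρ => by rw [← h1 _ ρ hρ]; exact h2 j ρ hρ,
          fun ρ hρ => by rw [← h1 _ ρ hρ]; exact h3 ρ hρ⟩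
      · rintro ⟨h2, h3⟩
        exact ⟨fun j ρ hρ => by rw [h1 _ ρ hρ]; exact h2 j ρ hρ,
          fun ρ hρ => by rw [h1 _ ρ hρ]; exact h3 ρ hρ⟩
    have hF₂z : ∀ g : L ≃ₐ[ℚ] L, F₂ (g * y₀) ↔ F₂ g := by
      intro g
      have h2 : ∀ (j : Fin M) (ρ : L), ρ ^ 3 = ι (z j) → (g * y₀) ρ = g ρ := by
        intro j ρ hρ
        rw [AlgEquiv.mul_apply, hzu j ρ hρ]
      have h3 : (g * y₀) (ι w) = g (ι w) := by rw [AlgEquiv.mul_apply, hzω]
      show ((g * y₀) (ι w) = ι w ∧ MAU.FxZ z ι (g * y₀)) ↔ (g (ι w) = ι w ∧ MAU.FxZ z ι g)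
      rw [h3]
      constructor
      · rintro ⟨h4, h6⟩
        exact ⟨h4, fun j ρ hρ => by rw [← h2 j ρ hρ]; exact h6 j ρ hρ⟩
      · rintro ⟨h4, h6⟩
        exact ⟨h4, fun j ρ hρ => by rw [h2 j ρ hρ]; exact h6 j ρ hρ⟩
    have key : ∀ g : L ≃ₐ[ℚ] L, g (ι w) = ι w → Fx b g → ∀ j i, j < i →
        t (g * y₀) j i = (v' j i - v j i) + t g j i := by
      intro g hg hFg j i hji
      have hgz : (g * y₀) (ι w) = ι w := by rw [AlgEquiv.mul_apply, hzω, hg]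
      apply htu _ _ _ _ hji.ne hgz ((hFz g).2 hFg)
      intro ρ A hρ hA
      have h1 := ht g j i hji.ne hg hFg ρ A hρ hA
      have hlt : j.castSucc < i.castSucc := Fin.castSucc_lt_castSucc_iff.2 hji
      have h2 := hz₂P j.castSucc i.castSucc ρ A hlt ⟨hρ, hA⟩
      have h2' := hz₁P j.castSucc i.castSucc ρ A hlt.ne ⟨hρ, hA⟩
      have h3 : j.castSucc ≠ Fin.last s ∧ i.castSucc ≠ Fin.last s :=
        ⟨(Fin.castSucc_lt_last j).ne, (Fin.castSucc_lt_last i).ne⟩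
      simp only [dif_pos h3, Fin.castPred_castSucc] at h2
      rw [AlgEquiv.mul_apply, hz, AlgEquiv.mul_apply, h2, map_mul, map_pow, hz₁ω, h2', map_mul,
        map_pow, hg, h1, ← mul_assoc, om_add hω3]
    have key₂ : ∀ g : L ≃ₐ[ℚ] L, F₂ g → T (g * y₀) = T g + (y' - y) := by
      intro g hg
      funext j
      have hgz : F₂ (g * y₀) := (hF₂z g).2 hg
      have e1 : t₂ (g * y₀) j = 2 * (y' j - y j) + t₂ g j := by
        apply htu₂ _ _ _ hgz
        intro ρ A hA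
        have h1 := ht₂ g j hg ρ A hA
        rw [AlgEquiv.mul_apply, hz, AlgEquiv.mul_apply, (hz₂M j ρ A hA).1, (hz₁M j ρ A hA).1,
          map_mul, map_pow, hg.1, h1, ← mul_assoc, om_add hω3]
      have e2 : t₂ (c * (g * y₀) * c⁻¹) j = t₂ (c * g * c⁻¹) j + 2 * (y' j - y j) := by
        apply htu₂ _ _ _ (hF₂c _ c hgz)
        intro ρ A hA
        have h1 := ht₂ (c * g * c⁻¹) j (hF₂c g c hg) ρ A hA
        have h2 : (c * (g * y₀) * c⁻¹) A = c (g (z₁ (z₂ (c⁻¹ A)))) := by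
          rw [hz]
          rfl
        have h3 : (c * g * c⁻¹) A = c (g (c⁻¹ A)) := rfl
        rw [h3] at h1
        rw [h2, (hz₂M j ρ A hA).2 c⁻¹ hc', (hz₁M j ρ A hA).2 c⁻¹ hc', map_mul, map_pow, hg.1,
          map_mul, map_pow, hc, h1, ← mul_assoc, ← pow_mul, ← pow_add]
        congr 1
        apply om_congr hω3
        exact JAU.neg_val _ _
      show t₂ (g * y₀) j + t₂ (c * (g * y₀) * c⁻¹) j =
        t₂ g j + t₂ (c * g * c⁻¹) j + (y' j - y j)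
      rw [e1, e2]
      have e3 := JAU.two_mul_two (y' j - y j)
      linear_combination e3
    apply Nat.card_congr
    refine Equiv.subtypeEquiv (Equiv.mulRight y₀) ?_
    intro g
    have hχ : χ (g * y₀) = χ g := by rw [map_mul, hχz, mul_one]
    show (χ g = a ∧ Fx b g ∧ F₂ g ∧ T g = y ∧ ∀ j i, j < i → t g j i = v j i) ↔
      (χ (g * y₀) = a ∧ Fx b (g * y₀) ∧ F₂ (g * y₀) ∧ T (g * y₀) = y' ∧
        ∀ j i, j < i → t (g * y₀) j i = v' j i)
    rw [hχ, hFz g, hF₂z g]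
    constructor
    · rintro ⟨h1, h2, h3, h4, h5⟩
      refine ⟨h1, h2, h3, ?_, fun j i hji => ?_⟩
      · rw [key₂ g h3, h4]
        abel
      · rw [key g (hM g (by rw [h1]; exact ha)) h2 j i hji, h5 j i hji]
        ring
    · rintro ⟨h1, h2, h3, h4, h5⟩
      refine ⟨h1, h2, h3, ?_, fun j i hji => ?_⟩
      · rw [key₂ g h3] at h4
        funext j
        have h6 := congrFun h4 j
        simp only [Pi.add_apply, Pi.sub_apply] at h6
        linear_combination h6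
      · have h6 := h5 j i hji
        rw [key g (hM g (by rw [h1]; exact ha)) h2 j i hji] at h6
        linear_combination h6
  · intro a ha
    choose θ hθ using hG.root
    have hθ0 : ∀ j, θ j ≠ 0 := by
      intro j h0
      have h1 := hθ j
      rw [h0] at h1
      apply hb0 j
      have h2 : ((b j : ℤ) : L) = 0 := by rw [← h1]; norm_num
      exact_mod_cast h2
    have hex : ∀ (g : L ≃ₐ[ℚ] L) (j : Fin (s + 1)), ∃ u : ZMod 3,
        g (θ j) = ι w ^ u.val * θ j := by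
      intro g j
      apply cube_root hG.rel
      rw [← map_pow, hθ j, map_intCast]
    choose uu huu using hex
    have huniq : ∀ (g : L ≃ₐ[ℚ] L) (j : Fin (s + 1)) (u : ZMod 3),
        g (θ j) = ι w ^ u.val * θ j → uu g j = u := by
      intro g j u h
      apply om_zmod_inj hG.rel (hθ0 j)
      rw [← huu g j, h]
    -- criterion for `Fx`
    have hFu : ∀ g : L ≃ₐ[ℚ] L, g (ι w) = ι w → (Fx b g ↔
        (∀ j : Fin s, uu g j.castSucc = 0) ∧ uu g (Fin.last s) ≠ 0) := by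
      intro g hg
      constructor
      · rintro ⟨h1, h2⟩
        refine ⟨fun j => ?_, fun h0 => ?_⟩
        · apply huniq
          rw [h1 j _ (hθ _)]
          simp
        · apply h2 _ (hθ _)
          rw [huu, h0]
          simp
      · rintro ⟨h1, h2⟩
        have h3 : ∀ (j : Fin (s + 1)) (ρ : L), ρ ^ 3 = (b j : L) →
            g ρ = ι w ^ (uu g j).val * ρ := by
          intro j ρ hρ
          obtain ⟨u, hu⟩ := cube_root hG.rel (θ := θ j) (ρ := ρ) (by rw [hρ, hθ])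
          rw [hu, map_mul, map_pow, hg, huu]
          ring
        refine ⟨fun j ρ hρ => ?_, fun ρ hρ h4 => ?_⟩
        · rw [h3 _ ρ hρ, h1 j]
          simp
        · rw [h3 _ ρ hρ] at h4
          have hρ0 : ρ ≠ 0 := by
            intro h0
            rw [h0] at hρ
            apply hb0 (Fin.last s)
            have h5 : ((b (Fin.last s) : ℤ) : L) = 0 := by rw [← hρ]; norm_num
            exact_mod_cast h5
          apply h2
          apply om_zmod_inj hG.rel hρ0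
          rw [h4]
          simp
    have hfib : ∀ w₁ w' : Fin (s + 1) → ZMod 3,
        (univ.filter fun g : L ≃ₐ[ℚ] L => χ g = a ∧ uu g = w₁).card =
        (univ.filter fun g : L ≃ₐ[ℚ] L => χ g = a ∧ uu g = w').card := by
      intro w₁ w'
      obtain ⟨y₀, hzζ, hzρ⟩ := hGKUM (s + 1) b p q p' q' f L ζ (ι w) hSys hG (w' - w₁)
      obtain ⟨hzω, hχz⟩ := hz1 y₀ hzζ
      have key : ∀ g : L ≃ₐ[ℚ] L, g (ι w) = ι w → uu (g * y₀) = (w' - w₁) + uu g := by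
        intro g hg
        funext j
        apply huniq
        rw [AlgEquiv.mul_apply, hzρ j _ (hθ j), map_mul, map_pow, hg, huu, ← mul_assoc,
          om_add hω3]
        rfl
      refine Finset.card_bij (fun g _ => g * y₀) ?_ ?_ ?_
      · intro g hg
        rw [mem_filter] at hg ⊢
        obtain ⟨_, h1, h2⟩ := hg
        refine ⟨mem_univ _, by rw [map_mul, hχz, mul_one, h1], ?_⟩
        rw [key g (hM g (by rw [h1]; exact ha)), h2]
        abel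
      · intro g _ g' _ e
        exact mul_right_cancel e
      · intro g hg
        rw [mem_filter] at hg
        obtain ⟨_, h1, h2⟩ := hg
        have h3 : g * y₀⁻¹ * y₀ = g := inv_mul_cancel_right g y₀
        have h4 : χ (g * y₀⁻¹) = a := by rw [map_mul, map_inv, hχz, inv_one, mul_one, h1]
        refine ⟨g * y₀⁻¹, ?_, h3⟩
        rw [mem_filter]
        refine ⟨mem_univ _, h4, ?_⟩
        have h5 := key (g * y₀⁻¹) (hM _ (by rw [h4]; exact ha))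
        rw [h3, h2] at h5
        funext j
        have h7 := congrFun h5 j
        simp only [Pi.add_apply, Pi.sub_apply] at h7
        linear_combination (-1 : ZMod 3) * h7
    have hsub : ∀ (D : Finset (Fin (s + 1) → ZMod 3)),
        (univ.filter fun g : L ≃ₐ[ℚ] L => χ g = a ∧ uu g ∈ D).card =
        D.card * (univ.filter fun g : L ≃ₐ[ℚ] L => χ g = a ∧ uu g = 0).card := by
      intro D
      rw [Finset.card_eq_sum_card_fiberwise (f := uu) (t := D)]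
      · rw [← smul_eq_mul, ← Finset.sum_const]
        refine Finset.sum_congr rfl fun w₁ hw => ?_
        rw [← hfib w₁ 0, Finset.filter_filter]
        congr 1
        apply Finset.filter_congr
        intro g _
        constructor
        · rintro ⟨⟨h1, _⟩, h2⟩
          exact ⟨h1, h2⟩
        · rintro ⟨h1, h2⟩
          exact ⟨⟨h1, by rw [h2]; exact hw⟩, h2⟩
      · intro g hg
        have h1 := (mem_filter.1 (Finset.mem_coe.1 hg)).2.2
        exact h1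
    have h1 : Nat.card {g : L ≃ₐ[ℚ] L // χ g = a} =
        3 ^ (s + 1) * (univ.filter fun g : L ≃ₐ[ℚ] L => χ g = a ∧ uu g = 0).card := by
      rw [Nat.card_eq_fintype_card, Fintype.card_subtype]
      have h2 := hsub univ
      simp only [mem_univ, and_true] at h2
      rw [h2, Finset.card_univ, Fintype.card_fun, ZMod.card, Fintype.card_fin]
    have h2 : Nat.card {g : L ≃ₐ[ℚ] L // χ g = a ∧ Fx b g} =
        2 * (univ.filter fun g : L ≃ₐ[ℚ] L => χ g = a ∧ uu g = 0).card := by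
      rw [Nat.card_eq_fintype_card, Fintype.card_subtype]
      have h2 := hsub (univ.filter fun w₁ : Fin (s + 1) → ZMod 3 =>
        (∀ j : Fin s, w₁ j.castSucc = 0) ∧ w₁ (Fin.last s) ≠ 0)
      rw [card_good] at h2
      rw [← h2]
      congr 1
      apply Finset.filter_congr
      intro g _
      constructor
      · rintro ⟨h3, h4⟩
        refine ⟨h3, mem_filter.2 ⟨mem_univ _, ?_⟩⟩
        exact (hFu g (hM g (by rw [h3]; exact ha))).1 h4
      · rintro ⟨h3, h4⟩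
        exact ⟨h3, (hFu g (hM g (by rw [h3]; exact ha))).2 (mem_filter.1 h4).2⟩
    rw [h1, h2]
    ring
  · intro q₀ hq hNp hN₀ I g hI hNI hst
    have hfin := GFR.quo_finite hNp hI hNI
    obtain ⟨l, hl, hfr⟩ := GFR.exists_frob_gen (R := ℤ) I g hst
    have hχl := hχF q₀ hq hNp I (g ^ l) hI hNI hfr
    refine ⟨l, hl, hχl, fun hN3 ρ hρ => ?_⟩
    have hb1 : N₁ < q₀ := lt_of_le_of_lt (le_max_left _ _) hN₀
    have hb2 : ∀ r, N₂ r < q₀ := fun r => lt_of_le_of_lt ((Finset.le_sup (mem_univ r)).trans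
      ((le_max_left _ _).trans (le_max_right _ _))) hN₀
    have hb3 : ∀ i, N₃ i < q₀ := fun i => lt_of_le_of_lt ((Finset.le_sup (mem_univ i)).trans
      ((le_max_right _ _).trans (le_max_right _ _))) hN₀
    obtain ⟨h1, h2⟩ := hFr q₀ hNp hb1 hN3 I hI hNI (g ^ l) hfr ρ hρ
    have hM1 : M1 (χ (g ^ l)) := by
      unfold M1
      rw [hχl, ZMod.coe_unitOfCoprime, ZMod.val_natCast, Nat.mod_mod_of_dvd _ h3f]
      exact hN3
    refine ⟨h1, fun hF j i hji r hr => ?_, fun hz => ?_⟩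
    · exact h2 hF j i hji r _ hr (ht (g ^ l) j i hji (hM _ hM1) hF)
    · have h6 : F₂ (g ^ l) := ⟨hM _ hM1, fun i => (hFr1 i q₀ hNp (hb3 i) hN3 I hI hNI (g ^ l) hfr
        ρ hρ (hz i) (fun j => j.elim0)).2.1.1⟩
      refine ⟨h6, fun r ξ ξ' hξ hξ' => ?_⟩
      obtain ⟨_, _, h5⟩ := hFrK r q₀ hNp (hb2 r) hN3 I hI hNI (g ^ l) hfr ρ hρ (hz (α r))
        (fun _ => hz (β r))
      exact h5 c hc 0 ξ ξ' _ _ hξ hξ' (ht₂ (g ^ l) r h6) (ht₂ _ r (hF₂c (g ^ l) c h6))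

end Pool.Agent.PTK


end

section

/-!
# The average of `3^r` for prime twists: the joint governing field, all classes cubes

`Q = 1 (mod 3)` and all rational classes are cubes modulo `Q`.
-/

set_option autoImplicit false

open NumberField IsDedekindDomain Finset
open scoped nonZeroDivisors Pointwise

namespace Pool.Agent.PTK

open Pool.Agent.Lib_helper18 Pool.Agent.Lib_helper18.Eis Pool.Agent.Lib_helper84.Cub
open Pool.Agent.PT Pool.Agent.PTE Pool.Agent.PT3 Pool.Agent.PTL Pool.Agent.PTN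
open Pool.Agent.PT.GALD Pool.Agent.PTE.GALDS

namespace JAZ

section aut

variable {L : Type} [Field L] [NumberField L]

/-- `g` fixes `ω` and the cube roots of all the `b j` -/
def F0 {s : ℕ} (b : Fin s → ℤ) (ι : Eis →+* L) (g : L ≃ₐ[ℚ] L) : Prop :=
  g (ι w) = ι w ∧ ∀ (j : Fin s) (ρ : L), ρ ^ 3 = (b j : L) → g ρ = ρ

theorem inv_sq {ι : Eis →+* L} {τ : L ≃ₐ[ℚ] L} (h : τ (ι w) = ι w ^ 2) :
    τ⁻¹ (ι w) = ι w ^ 2 := by
  have h1 : τ (ι w ^ 2) = ι w := by rw [map_pow, h, GAK.om4]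
  conv_lhs => rw [← h1]
  rw [← AlgEquiv.mul_apply, inv_mul_cancel]
  rfl

theorem conj_fix {ι : Eis →+* L} {g : L ≃ₐ[ℚ] L} (τ : L ≃ₐ[ℚ] L) (hg : g (ι w) = ι w) :
    (τ * g * τ⁻¹) (ι w) = ι w := by
  rcases GAK.cases_om ι τ with hτ | hτ
  · rw [AlgEquiv.mul_apply, AlgEquiv.mul_apply, GAK.inv_fix hτ, hg, hτ]
  · rw [AlgEquiv.mul_apply, AlgEquiv.mul_apply, inv_sq hτ, map_pow, hg, map_pow, hτ, GAK.om4]

theorem conj_pt {g τ : L ≃ₐ[ℚ] L} {ρ : L} (h : g (τ⁻¹ ρ) = τ⁻¹ ρ) : (τ * g * τ⁻¹) ρ = ρ := by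
  rw [AlgEquiv.mul_apply, AlgEquiv.mul_apply, h, ← AlgEquiv.mul_apply, mul_inv_cancel]
  rfl

theorem pow_pt {g : L ≃ₐ[ℚ] L} {ρ : L} (h : g ρ = ρ) (l : ℕ) : (g ^ l) ρ = ρ := by
  induction l with
  | zero => rfl
  | succ l ih => rw [pow_succ, AlgEquiv.mul_apply, h, ih]

theorem F0.conj {s : ℕ} {b : Fin s → ℤ} {ι : Eis →+* L} {g : L ≃ₐ[ℚ] L} (h : F0 b ι g)
    (τ : L ≃ₐ[ℚ] L) : F0 b ι (τ * g * τ⁻¹) := by
  refine ⟨conj_fix τ h.1, fun j ρ hρ => conj_pt (h.2 j _ ?_)⟩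
  rw [← map_pow, hρ, map_intCast]

theorem F0.pow {s : ℕ} {b : Fin s → ℤ} {ι : Eis →+* L} {g : L ≃ₐ[ℚ] L} (h : F0 b ι g)
    (l : ℕ) : F0 b ι (g ^ l) :=
  ⟨pow_pt h.1 l, fun j ρ hρ => pow_pt (h.2 j ρ hρ) l⟩

theorem neg_one_val {f : ℕ} (hf : 1 < f) : (((-1 : (ZMod f)ˣ) : ZMod f)).val = f - 1 := by
  obtain ⟨n, rfl⟩ : ∃ n, f = n + 1 := ⟨f - 1, by omega⟩
  rw [Units.val_neg, Units.val_one]
  exact ZMod.val_neg_one n

theorem two_neg : ∀ v : ZMod 3, (2 * (-v).val) % 3 = v.val % 3 := by decide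

/-- the action of the conjugate of `z` -/
theorem conj_z {ι : Eis →+* L} {c z : L ≃ₐ[ℚ] L} (hc : c (ι w) = ι w ^ 2) {v : ZMod 3} {A : L}
    (h : z (c⁻¹ A) = ι w ^ (-v).val * c⁻¹ A) : (c * z * c⁻¹) A = ι w ^ v.val * A := by
  rw [AlgEquiv.mul_apply, AlgEquiv.mul_apply, h, map_mul, map_pow, hc, ← pow_mul,
    ← AlgEquiv.mul_apply, mul_inv_cancel]
  congr 1
  exact om_congr (GC.om3 (GCK.om ι)) (two_neg v)

theorem three_card : (4 : ZMod 3) = 1 := by decide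

end aut

end JAZ

open _root_.Pool.Agent.PTK.JAZ in
theorem JAZ_thm (hJZ : Stmt_JZ) (hGCHI : GCHI) (hGKUM : GKUM) (hGTU : Stmt_GTU)
    (hGFKU : Stmt_GFKU) (hJC1 : Stmt_JC1) (hSPLT : SPLT) (hSPP : SPP) : Stmt_JAZ := by
  classical
  intro s b p q p' q' k x u P Q P' Q' f hSys hSysK hf h9
  obtain ⟨L, hF, hN, ζ, ι, hG⟩ := hJZ s k b p q p' q' x u P Q P' Q' f hSys hSysK hf h9
  have hGp := hG.plus
  have hGm := hG.minus
  have := hGp.gal
  obtain ⟨χ, hχs, hχζ, hχF⟩ := hGCHI L f ζ hf hGp.prim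
  obtain ⟨N₁, hFr⟩ := hGFKU k x u P Q P' Q' f L ζ ι hSysK hGm
  obtain ⟨hT1, hT2, hT⟩ := hGTU k x u P Q P' Q' f L ζ ι hSysK hGm
  have hω3 : ι w ^ 3 = 1 := GC.om3 (GCK.om ι)
  have hf1 : 1 < f := by
    obtain ⟨c, hc⟩ := h9
    omega
  have h3f : 3 ∣ f := (by norm_num : (3 : ℕ) ∣ 9).trans h9
  have hfz : NeZero f := ⟨hf.ne'⟩
  -- action on ω
  have hωχ : ∀ g : L ≃ₐ[ℚ] L, g (ι w) = ι w ^ ((χ g : ZMod f)).val := by
    intro g
    rw [hGm.hω, map_pow, hχζ g, ← pow_mul, mul_comm, pow_mul, ← hGm.hω]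
  have hM : ∀ g : L ≃ₐ[ℚ] L, M1 (χ g) → g (ι w) = ι w := by
    intro g hg
    rw [hωχ g]
    conv_rhs => rw [← pow_one (ι w)]
    apply om_congr hω3
    unfold M1 at hg
    omega
  obtain ⟨c, hc⟩ : ∃ c : L ≃ₐ[ℚ] L, c (ι w) = ι w ^ 2 := by
    obtain ⟨c, hc⟩ := hχs (-1)
    refine ⟨c, ?_⟩
    rw [hωχ c, hc, neg_one_val hf1]
    apply om_congr hω3
    omega
  have hz1 : ∀ z : L ≃ₐ[ℚ] L, z ζ = ζ → z (ι w) = ι w ∧ χ z = 1 := by
    intro z hzζ
    refine ⟨by rw [hGm.hω, map_pow, hzζ], ?_⟩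
    have h1 := hχζ z
    rw [hzζ] at h1
    have h2 : ((χ z : ZMod f)).val = 1 := by
      apply hGp.prim.pow_inj (ZMod.val_lt _) hf1
      rw [← h1, pow_one]
    apply Units.ext
    have h3 := ZMod.natCast_zmod_val (χ z : ZMod f)
    rw [h2] at h3
    rw [← h3]
    simp
  have hb0 : ∀ j, b j ≠ 0 := PTE.GFRS.ne_zero hSys
  -- the class of the minus part
  let F2 : (L ≃ₐ[ℚ] L) → Prop := fun g => g (ι w) = ι w ∧ FxU x u ι g
  let t : (L ≃ₐ[ℚ] L) → Fin k → ZMod 3 := fun g j =>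
    if h : F2 g then ((hT j).1 g h.1 h.2).choose else 0
  have ht : ∀ (g : L ≃ₐ[ℚ] L) (j : Fin k), F2 g → IsTU x P Q P' Q' ι g j (t g j) := by
    intro g j h
    have e : t g j = ((hT j).1 g h.1 h.2).choose := dif_pos h
    rw [e]
    exact ((hT j).1 g h.1 h.2).choose_spec.1
  have htu : ∀ (g : L ≃ₐ[ℚ] L) (j : Fin k) (a : ZMod 3), F2 g →
      IsTU x P Q P' Q' ι g j a → t g j = a := by
    intro g j a h ha
    exact ((hT j).1 g h.1 h.2).unique (ht g j h) ha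
  let T : (L ≃ₐ[ℚ] L) → Fin k → ZMod 3 := fun g j => t g j + t (c * g * c⁻¹) j
  have hF2c : ∀ g τ : L ≃ₐ[ℚ] L, F2 g → F2 (τ * g * τ⁻¹) := fun g τ hg =>
    ⟨conj_fix τ hg.1, hT1 g τ hg.1 hg.2⟩
  have hF2p : ∀ (g : L ≃ₐ[ℚ] L) (l : ℕ), F2 g → F2 (g ^ l) := fun g l hg =>
    ⟨pow_pt hg.1 l, hT2 g l hg.2⟩
  have htc : ∀ (g σ : L ≃ₐ[ℚ] L) (j : Fin k), F2 g → σ (ι w) = ι w →
      t (σ * g * σ⁻¹) j = t g j := fun g σ j hg hσ =>
    htu _ _ _ (hF2c g σ hg) ((hT j).2.1 g σ _ hg.1 hg.2 hσ (ht g j hg))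
  have htp : ∀ (g : L ≃ₐ[ℚ] L) (l : ℕ) (j : Fin k), F2 g → t (g ^ l) j = l * t g j :=
    fun g l j hg => htu _ _ _ (hF2p g l hg) ((hT j).2.2 g _ l hg.1 (ht g j hg))
  -- the bound
  let B : ℕ := ∑ j, (b j).natAbs
  have hB : ∀ j, (b j).natAbs ≤ B := fun j =>
    Finset.single_le_sum (f := fun j => (b j).natAbs) (fun _ _ => Nat.zero_le _)
      (Finset.mem_univ j)
  refine ⟨L, hF, hN, hGp.gal, χ, F0 b ι, F2, T, max N₁ B, hχs, fun g τ _ h => h.conj τ,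
    fun g l _ h => h.pow l, ?_, ?_, ?_, ?_, ?_⟩
  · intro g τ _ hg
    refine ⟨hF2c g τ hg, funext fun j => ?_⟩
    show t (τ * g * τ⁻¹) j + t (c * (τ * g * τ⁻¹) * c⁻¹) j = t g j + t (c * g * c⁻¹) j
    rcases GAK.cases_om ι τ with hτ | hτ
    · have e : c * (τ * g * τ⁻¹) * c⁻¹ =
          (c * τ * c⁻¹) * (c * g * c⁻¹) * (c * τ * c⁻¹)⁻¹ := by group
      rw [e, htc g τ j hg hτ, htc _ _ j (hF2c g c hg) (conj_fix c hτ)]
    · have e1 : τ * g * τ⁻¹ = (τ * c⁻¹) * (c * g * c⁻¹) * (τ * c⁻¹)⁻¹ := by group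
      have e2 : c * (τ * g * τ⁻¹) * c⁻¹ = (c * τ) * g * (c * τ)⁻¹ := by group
      have h1 : (τ * c⁻¹) (ι w) = ι w := by
        rw [AlgEquiv.mul_apply, inv_sq hc, map_pow, hτ, GAK.om4]
      have h2 : (c * τ) (ι w) = ι w := by
        rw [AlgEquiv.mul_apply, hτ, map_pow, hc, GAK.om4]
      rw [e2, htc g _ j hg h2, e1, htc _ _ j (hF2c g c hg) h1, add_comm]
  · intro g l _ hg
    refine ⟨hF2p g l hg, funext fun j => ?_⟩
    show t (g ^ l) j + t (c * g ^ l * c⁻¹) j = (l : ZMod 3) • (t g j + t (c * g * c⁻¹) j)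
    have e : c * g ^ l * c⁻¹ = (c * g * c⁻¹) ^ l := by rw [conj_pow]
    rw [e, htp g l j hg, htp _ l j (hF2c g c hg), smul_eq_mul]
    ring
  · intro a y y' ha
    obtain ⟨z, hzF, -, hzA⟩ := hJC1 s k b p q p' q' x u P Q P' Q' f L ζ ι hSys hSysK hG
      (fun j => 2 * (y' j - y j))
    obtain ⟨hzω, hχz⟩ := hz1 z hzF.ze
    have hF0z : ∀ g : L ≃ₐ[ℚ] L, F0 b ι (g * z) ↔ F0 b ι g := by
      intro g
      have h1 : ∀ (j : Fin s) (ρ : L), ρ ^ 3 = (b j : L) → (g * z) ρ = g ρ := by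
        intro j ρ hρ
        rw [AlgEquiv.mul_apply, hzF.rb j ρ hρ]
      have h2 : (g * z) (ι w) = g (ι w) := by rw [AlgEquiv.mul_apply, hzω]
      unfold F0
      rw [h2]
      refine and_congr_right fun _ => ?_
      constructor
      · intro h j ρ hρ
        rw [← h1 j ρ hρ]
        exact h j ρ hρ
      · intro h j ρ hρ
        rw [h1 j ρ hρ]
        exact h j ρ hρ
    have hF2z : ∀ g : L ≃ₐ[ℚ] L, F2 (g * z) ↔ F2 g := by
      intro g
      have h1 : ∀ ρ : L, ρ ^ 3 = ι x → (g * z) ρ = g ρ := by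
        intro ρ hρ
        rw [AlgEquiv.mul_apply, hzF.rx ρ hρ]
      have h1' : ∀ (j : Fin k) (ρ : L), ρ ^ 3 = ι (u j) → (g * z) ρ = g ρ := by
        intro j ρ hρ
        rw [AlgEquiv.mul_apply, hzF.ru j ρ hρ]
      have h2 : (g * z) (ι w) = g (ι w) := by rw [AlgEquiv.mul_apply, hzω]
      show ((g * z) (ι w) = ι w ∧ FxU x u ι (g * z)) ↔ (g (ι w) = ι w ∧ FxU x u ι g)
      rw [h2]
      refine and_congr_right fun _ => ?_
      unfold FxU
      constructor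
      · rintro ⟨h3, h4⟩
        exact ⟨fun ρ hρ => by rw [← h1 ρ hρ]; exact h3 ρ hρ,
          fun j ρ hρ => by rw [← h1' j ρ hρ]; exact h4 j ρ hρ⟩
      · rintro ⟨h3, h4⟩
        exact ⟨fun ρ hρ => by rw [h1 ρ hρ]; exact h3 ρ hρ,
          fun j ρ hρ => by rw [h1' j ρ hρ]; exact h4 j ρ hρ⟩
    have key : ∀ g : L ≃ₐ[ℚ] L, F2 g → ∀ j, T (g * z) j = (y' j - y j) + T g j := by
      intro g hg j
      show t (g * z) j + t (c * (g * z) * c⁻¹) j =
        (y' j - y j) + (t g j + t (c * g * c⁻¹) j)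
      have e1 : t (g * z) j = 2 * (y' j - y j) + t g j := by
        apply htu _ _ _ ((hF2z g).2 hg)
        intro ρ A hA
        rw [AlgEquiv.mul_apply, (hzA j ρ A hA).1, map_mul, map_pow, hg.1,
          ht g j hg ρ A hA, ← mul_assoc, om_add hω3]
      have hg' := hF2c g c hg
      have e2 : t (c * (g * z) * c⁻¹) j = 2 * (y' j - y j) + t (c * g * c⁻¹) j := by
        apply htu _ _ _ (hF2c _ c ((hF2z g).2 hg))
        intro ρ A hA
        have h1 := conj_z hc ((hzA j ρ A hA).2 c⁻¹ (inv_sq hc))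
        have h2 : c * (g * z) * c⁻¹ = (c * g * c⁻¹) * (c * z * c⁻¹) := by group
        rw [h2, AlgEquiv.mul_apply, h1, map_mul, map_pow, hg'.1,
          ht _ j hg' ρ A hA, ← mul_assoc, om_add hω3]
      rw [e1, e2]
      linear_combination (y' j - y j) * three_card
    apply Nat.card_congr
    refine Equiv.subtypeEquiv (Equiv.mulRight z) ?_
    intro g
    have hχ : χ (g * z) = χ g := by rw [map_mul, hχz, mul_one]
    show (χ g = a ∧ F0 b ι g ∧ F2 g ∧ T g = y) ↔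
      (χ (g * z) = a ∧ F0 b ι (g * z) ∧ F2 (g * z) ∧ T (g * z) = y')
    rw [hχ, hF0z g, hF2z g]
    refine and_congr_right fun _ => and_congr_right fun _ => and_congr_right fun hg => ?_
    constructor
    · intro h
      funext j
      rw [key g hg j, h]
      ring
    · intro h
      funext j
      have h4 := congrFun h j
      rw [key g hg j] at h4
      linear_combination h4
  · intro a ha
    choose θ hθ using hGp.root
    have hθ0 : ∀ j, θ j ≠ 0 := by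
      intro j h0
      have h1 := hθ j
      rw [h0] at h1
      apply hb0 j
      have h2 : ((b j : ℤ) : L) = 0 := by rw [← h1]; norm_num
      exact_mod_cast h2
    have hex : ∀ (g : L ≃ₐ[ℚ] L) (j : Fin s), ∃ u : ZMod 3, g (θ j) = ι w ^ u.val * θ j := by
      intro g j
      apply cube_root hGp.rel
      rw [← map_pow, hθ j, map_intCast]
    choose uu huu using hex
    have huniq : ∀ (g : L ≃ₐ[ℚ] L) (j : Fin s) (u : ZMod 3), g (θ j) = ι w ^ u.val * θ j →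
        uu g j = u := by
      intro g j u h
      apply om_zmod_inj hGp.rel (hθ0 j)
      rw [← huu g j, h]
    -- criterion for `F0`
    have hFu : ∀ g : L ≃ₐ[ℚ] L, g (ι w) = ι w → (F0 b ι g ↔ uu g = 0) := by
      intro g hg
      constructor
      · rintro ⟨_, h1⟩
        funext j
        apply huniq
        rw [h1 j _ (hθ _)]
        simp
      · intro h1
        refine ⟨hg, fun j ρ hρ => ?_⟩
        obtain ⟨u, hu⟩ := cube_root hGp.rel (θ := θ j) (ρ := ρ) (by rw [hρ, hθ])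
        rw [hu, map_mul, map_pow, hg, huu, h1]
        simp
    have hfib : ∀ w w' : Fin s → ZMod 3,
        (univ.filter fun g : L ≃ₐ[ℚ] L => χ g = a ∧ uu g = w).card =
        (univ.filter fun g : L ≃ₐ[ℚ] L => χ g = a ∧ uu g = w').card := by
      intro v v'
      obtain ⟨z, hzζ, hzρ⟩ := hGKUM s b p q p' q' f L ζ (ι w) hSys hGp (v' - v)
      obtain ⟨hzω, hχz⟩ := hz1 z hzζ
      have key : ∀ g : L ≃ₐ[ℚ] L, g (ι w) = ι w → uu (g * z) = (v' - v) + uu g := by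
        intro g hg
        funext j
        apply huniq
        rw [AlgEquiv.mul_apply, hzρ j _ (hθ j), map_mul, map_pow, hg, huu, ← mul_assoc,
          om_add hω3]
        rfl
      refine Finset.card_bij (fun g _ => g * z) ?_ ?_ ?_
      · intro g hg
        rw [mem_filter] at hg ⊢
        obtain ⟨_, h1, h2⟩ := hg
        refine ⟨mem_univ _, by rw [map_mul, hχz, mul_one, h1], ?_⟩
        rw [key g (hM g (by rw [h1]; exact ha)), h2]
        abel
      · intro g _ g' _ e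
        exact mul_right_cancel e
      · intro g hg
        rw [mem_filter] at hg
        obtain ⟨_, h1, h2⟩ := hg
        have h3 : g * z⁻¹ * z = g := inv_mul_cancel_right g z
        have h4 : χ (g * z⁻¹) = a := by rw [map_mul, map_inv, hχz, inv_one, mul_one, h1]
        refine ⟨g * z⁻¹, ?_, h3⟩
        rw [mem_filter]
        refine ⟨mem_univ _, h4, ?_⟩
        have h5 := key (g * z⁻¹) (hM _ (by rw [h4]; exact ha))
        rw [h3, h2] at h5
        funext j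
        have h7 := congrFun h5 j
        simp only [Pi.add_apply, Pi.sub_apply] at h7
        linear_combination (-1 : ZMod 3) * h7
    have h1 : Nat.card {g : L ≃ₐ[ℚ] L // χ g = a} =
        3 ^ s * (univ.filter fun g : L ≃ₐ[ℚ] L => χ g = a ∧ uu g = 0).card := by
      rw [Nat.card_eq_fintype_card, Fintype.card_subtype,
        Finset.card_eq_sum_card_fiberwise (f := uu) (t := univ) (fun _ _ => by simp)]
      have h2 : ∀ v ∈ (univ : Finset (Fin s → ZMod 3)),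
          (Finset.filter (fun g => uu g = v) (univ.filter fun g : L ≃ₐ[ℚ] L => χ g = a)).card =
          (univ.filter fun g : L ≃ₐ[ℚ] L => χ g = a ∧ uu g = 0).card := by
        intro v _
        rw [Finset.filter_filter]
        exact hfib v 0
      rw [Finset.sum_congr rfl h2, Finset.sum_const, smul_eq_mul, Finset.card_univ,
        Fintype.card_fun, ZMod.card, Fintype.card_fin]
    have h2 : Nat.card {g : L ≃ₐ[ℚ] L // χ g = a ∧ F0 b ι g} =
        (univ.filter fun g : L ≃ₐ[ℚ] L => χ g = a ∧ uu g = 0).card := by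
      rw [Nat.card_eq_fintype_card, Fintype.card_subtype]
      congr 1
      apply Finset.filter_congr
      intro g _
      refine and_congr_right fun h3 => ?_
      exact hFu g (hM g (by rw [h3]; exact ha))
    rw [h1, h2]
  · intro N hN' hNp hN₀ I g hI hNI hst
    have hfin := GFR.quo_finite hNp hI hNI
    obtain ⟨l, hl, hfr⟩ := GFR.exists_frob_gen (R := ℤ) I g hst
    refine ⟨l, hl, hχF N hN' hNp I (g ^ l) hI hNI hfr, fun hN3 ρ hρ => ⟨fun hsym => ?_,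
      fun hx hu => ?_⟩⟩
    · -- the rational classes
      have hb : ∀ j, ¬ (N : ℤ) ∣ b j := fun j =>
        GFR.not_dvd_of_lt (hb0 j)
          (lt_of_le_of_lt ((hB j).trans (le_max_right _ _)) hN₀)
      obtain ⟨ωB, ρ₀, K, _, mk, z, ψ, hωB, hρ₀, D⟩ :=
        PTE.GFRS.exists_dat hSPLT hSPP hNp hI hNI hN3 hfr hGp.rel
      obtain ⟨-, -, h3, h4, h5, -⟩ := hSPLT.2 N ρ₀ hNp hN3 hρ₀
      have hC : GFRU.CJ ρ₀.1 N := ⟨h4, h5⟩
      have hsym' : ∀ j, sym ρ₀.1 (b j : Eis) = 0 := by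
        intro j
        rcases h3 ρ ⟨conj ρ.1, hρ⟩ with h6 | h6
        · rw [← h6]
          exact hsym j
        · have h7 := hC.int (hb j)
          rw [← h6, hsym j] at h7
          exact neg_eq_zero.1 h7.symm
      have hfω := D.fω
      rw [hωB] at hfω
      refine ⟨hfω, fun j θ hθ => ?_⟩
      obtain ⟨θB, rfl, hθB⟩ := PTE.GFRS.exists_int hθ
      by_contra h8
      exact D.sym_ne hθB (hb _)
        (fun h => h8 (congrArg (fun x : 𝓞 L => (x : L)) h)) (hsym' j)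
    · obtain ⟨h1, h2, h3⟩ := hFr N hNp (lt_of_le_of_lt (le_max_left _ _) hN₀) hN3 I hI hNI
        (g ^ l) hfr ρ hρ hx hu
      have h4 : F2 (g ^ l) := ⟨h1, h2⟩
      refine ⟨h4, fun j r r' hr hr' => ?_⟩
      exact h3 c hc j r r' _ _ hr hr' (ht _ j h4) (ht _ j (hF2c _ c h4))

end Pool.Agent.PTK


end

section

/-!
# All moments of `3^r` for prime twists: the joint governing field, all classes cubes

`Q = 1 (mod 3)` and all rational classes are cubes modulo `Q`; several base classes.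
-/

set_option autoImplicit false

open NumberField IsDedekindDomain Finset
open scoped nonZeroDivisors Pointwise

namespace Pool.Agent.PTK

open Pool.Agent.Lib_helper18 Pool.Agent.Lib_helper18.Eis Pool.Agent.Lib_helper84.Cub
open Pool.Agent.PT Pool.Agent.PTE Pool.Agent.PT3 Pool.Agent.PTL Pool.Agent.PTN
open Pool.Agent.PT.GALD Pool.Agent.PTE.GALDS

namespace MAZ

/-- the empty family -/
def nil : Fin 0 → Eis := fun j => j.elim0

theorem sys0 {M N : ℕ} {z : Fin M → Eis} {α β : Fin N → Fin M} {P Q P' Q' : Fin N → Eis}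
    (hS : SysZ z α β P Q P' Q') (i : Fin M) : SysK (z i) nil nil nil nil nil := by
  classical
  refine ⟨fun c₀ c h hc => ?_, fun j => j.elim0, hS.cz i, fun j => j.elim0⟩
  have h3 : ¬ 3 ∣ c₀ := by
    rcases h with h | ⟨j, _⟩
    · exact h
    · exact j.elim0
  refine hS.ind (Pi.single i c₀) ⟨i, by rwa [Pi.single_eq_same]⟩ ?_
  obtain ⟨t, ht⟩ := hc
  refine ⟨t, ht.trans ?_⟩
  rw [Finset.univ_eq_empty, Finset.prod_empty, mul_one,
    Finset.prod_eq_single i (fun j _ hj => by rw [Pi.single_eq_of_ne hj, pow_zero])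
      (fun h => absurd (Finset.mem_univ i) h), Pi.single_eq_same]

theorem gov0 {M N : ℕ} {z : Fin M → Eis} {α : Fin N → Fin M} {P Q P' Q' : Fin N → Eis}
    {f : ℕ} {L : Type} [Field L] [NumberField L] {ζ : L} {ι : Eis →+* L}
    (hG : GovZ z α P Q P' Q' f L ζ ι) (i : Fin M) : GovK (z i) nil nil nil nil nil f L ζ ι :=
  ⟨hG.gal, hG.prim, hG.nine, hG.hω, hG.rz i, fun j => j.elim0, fun j => j.elim0,
    fun j => j.elim0⟩

end MAZ

open JAZ in
theorem MAZ_thm (hMZF : Stmt_MZF) (hMC1 : Stmt_MC1) (hMC2 : Stmt_MC2) (hGTZ : Stmt_GTZ)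
    (hGFZ : Stmt_GFZ) (hGTU : Stmt_GTU) (hGFKU : Stmt_GFKU) (hGCHI : GCHI) (hGKUM : GKUM) :
    Stmt_MAZ := by
  classical
  intro s b p q p' q' M N z α β P Q P' Q' f hSys hSysZ hf h9
  obtain ⟨L, hF, hN, ζ, ι, hG⟩ := hMZF s M N b p q p' q' z α β P Q P' Q' f hSys hSysZ hf h9
  have hGp := hG.plus
  have hGm := hG.minus
  have := hGp.gal
  obtain ⟨χ, hχs, hχζ, hχF⟩ := hGCHI L f ζ hf hGp.prim
  obtain ⟨Nz, hFrZ⟩ := hGFZ s b p q p' q' f L ζ (ι w) hSys hGp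
  have hFr1 := fun i => hGFKU 0 (z i) MAZ.nil MAZ.nil MAZ.nil MAZ.nil MAZ.nil f L ζ ι
    (MAZ.sys0 hSysZ i) (MAZ.gov0 hGm i)
  choose N₁ hFr₁ using hFr1
  have hFr2 := fun r => hGFKU 1 (z (α r)) (fun _ => z (β r)) (fun _ => P r) (fun _ => Q r)
    (fun _ => P' r) (fun _ => Q' r) f L ζ ι (hSysZ.one r) (hGm.one r)
  choose N₂ hFr₂ using hFr2
  have hU := fun r => hGTU 1 (z (α r)) (fun _ => z (β r)) (fun _ => P r) (fun _ => Q r)
    (fun _ => P' r) (fun _ => Q' r) f L ζ ι (hSysZ.one r) (hGm.one r)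
  have hU0 := fun i => hGTU 0 (z i) MAZ.nil MAZ.nil MAZ.nil MAZ.nil MAZ.nil f L ζ ι
    (MAZ.sys0 hSysZ i) (MAZ.gov0 hGm i)
  obtain ⟨hZ0, hZ⟩ := hGTZ s b p q p' q' f L ζ (ι w) hSys hGp
  have hω3 : ι w ^ 3 = 1 := GC.om3 (GCK.om ι)
  have hf1 : 1 < f := by
    obtain ⟨c, hc⟩ := h9
    omega
  have h3f : 3 ∣ f := (by norm_num : (3 : ℕ) ∣ 9).trans h9
  have hfz : NeZero f := ⟨hf.ne'⟩
  -- action on ω
  have hωχ : ∀ g : L ≃ₐ[ℚ] L, g (ι w) = ι w ^ ((χ g : ZMod f)).val := by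
    intro g
    rw [hGm.hω, map_pow, hχζ g, ← pow_mul, mul_comm, pow_mul, ← hGm.hω]
  have hM : ∀ g : L ≃ₐ[ℚ] L, M1 (χ g) → g (ι w) = ι w := by
    intro g hg
    rw [hωχ g]
    conv_rhs => rw [← pow_one (ι w)]
    apply om_congr hω3
    unfold M1 at hg
    omega
  obtain ⟨c, hc⟩ : ∃ c : L ≃ₐ[ℚ] L, c (ι w) = ι w ^ 2 := by
    obtain ⟨c, hc⟩ := hχs (-1)
    refine ⟨c, ?_⟩
    rw [hωχ c, hc, neg_one_val hf1]
    apply om_congr hω3
    omega
  have hz1 : ∀ z : L ≃ₐ[ℚ] L, z ζ = ζ → z (ι w) = ι w ∧ χ z = 1 := by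
    intro z hzζ
    refine ⟨by rw [hGm.hω, map_pow, hzζ], ?_⟩
    have h1 := hχζ z
    rw [hzζ] at h1
    have h2 : ((χ z : ZMod f)).val = 1 := by
      apply hGp.prim.pow_inj (ZMod.val_lt _) hf1
      rw [← h1, pow_one]
    apply Units.ext
    have h3 := ZMod.natCast_zmod_val (χ z : ZMod f)
    rw [h2] at h3
    rw [← h3]
    simp
  have hb0 : ∀ j, b j ≠ 0 := PTE.GFRS.ne_zero hSys
  -- the class of the plus part
  let tt : (L ≃ₐ[ℚ] L) → Fin s → Fin s → ZMod 3 := fun g j i =>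
    if h : j ≠ i ∧ F0 b ι g then ((hZ j i h.1).1 g h.2.1 h.2.2).choose else 0
  have htt : ∀ (g : L ≃ₐ[ℚ] L) (j i : Fin s), j ≠ i → F0 b ι g →
      IsTS b p q p' q' (ι w) g j i (tt g j i) := by
    intro g j i hji hg
    have h : j ≠ i ∧ F0 b ι g := ⟨hji, hg⟩
    have e : tt g j i = ((hZ j i h.1).1 g h.2.1 h.2.2).choose := dif_pos h
    rw [e]
    exact ((hZ j i h.1).1 g h.2.1 h.2.2).choose_spec.1
  have httu : ∀ (g : L ≃ₐ[ℚ] L) (j i : Fin s) (a : ZMod 3), j ≠ i → F0 b ι g →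
      IsTS b p q p' q' (ι w) g j i a → tt g j i = a := by
    intro g j i a hji hg ha
    exact ((hZ j i hji).1 g hg.1 hg.2).unique (htt g j i hji hg) ha
  -- the class of the minus part
  let F2 : (L ≃ₐ[ℚ] L) → Prop := fun g =>
    g (ι w) = ι w ∧ ∀ (i : Fin M) (ρ : L), ρ ^ 3 = ι (z i) → g ρ = ρ
  have hFU : ∀ (g : L ≃ₐ[ℚ] L) (r : Fin N), F2 g →
      FxU (z (α r)) (fun _ : Fin 1 => z (β r)) ι g := fun g r hg =>
    ⟨hg.2 (α r), fun _ => hg.2 (β r)⟩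
  let t : (L ≃ₐ[ℚ] L) → Fin N → ZMod 3 := fun g r =>
    if h : F2 g then (((hU r).2.2 0).1 g h.1 (hFU g r h)).choose else 0
  have ht : ∀ (g : L ≃ₐ[ℚ] L) (r : Fin N), F2 g →
      IsTU (z (α r)) (fun _ : Fin 1 => P r) (fun _ => Q r) (fun _ => P' r) (fun _ => Q' r)
        ι g 0 (t g r) := by
    intro g r h
    have e : t g r = (((hU r).2.2 0).1 g h.1 (hFU g r h)).choose := dif_pos h
    rw [e]
    exact (((hU r).2.2 0).1 g h.1 (hFU g r h)).choose_spec.1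
  have htu : ∀ (g : L ≃ₐ[ℚ] L) (r : Fin N) (a : ZMod 3), F2 g →
      IsTU (z (α r)) (fun _ : Fin 1 => P r) (fun _ => Q r) (fun _ => P' r) (fun _ => Q' r)
        ι g 0 a → t g r = a := by
    intro g r a h ha
    exact (((hU r).2.2 0).1 g h.1 (hFU g r h)).unique (ht g r h) ha
  let T : (L ≃ₐ[ℚ] L) → Fin N → ZMod 3 := fun g r => t g r + t (c * g * c⁻¹) r
  have hF2c : ∀ g τ : L ≃ₐ[ℚ] L, F2 g → F2 (τ * g * τ⁻¹) := fun g τ hg =>
    ⟨conj_fix τ hg.1, fun i => ((hU0 i).1 g τ hg.1 ⟨hg.2 i, fun j => j.elim0⟩).1⟩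
  have hF2p : ∀ (g : L ≃ₐ[ℚ] L) (l : ℕ), F2 g → F2 (g ^ l) := fun g l hg =>
    ⟨pow_pt hg.1 l, fun i ρ hρ => pow_pt (hg.2 i ρ hρ) l⟩
  have htc : ∀ (g σ : L ≃ₐ[ℚ] L) (r : Fin N), F2 g → σ (ι w) = ι w →
      t (σ * g * σ⁻¹) r = t g r := fun g σ r hg hσ =>
    htu _ _ _ (hF2c g σ hg) (((hU r).2.2 0).2.1 g σ _ hg.1 (hFU g r hg) hσ (ht g r hg))
  have htp : ∀ (g : L ≃ₐ[ℚ] L) (l : ℕ) (r : Fin N), F2 g → t (g ^ l) r = l * t g r :=
    fun g l r hg => htu _ _ _ (hF2p g l hg) (((hU r).2.2 0).2.2 g _ l hg.1 (ht g r hg))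
  -- the bound
  have hB1 : ∀ i, N₁ i ≤ ∑ i, N₁ i := fun i =>
    Finset.single_le_sum (f := N₁) (fun _ _ => Nat.zero_le _) (Finset.mem_univ i)
  have hB2 : ∀ r, N₂ r ≤ ∑ r, N₂ r := fun r =>
    Finset.single_le_sum (f := N₂) (fun _ _ => Nat.zero_le _) (Finset.mem_univ r)
  refine ⟨L, hF, hN, hGp.gal, χ, F0 b ι, tt, F2, T, Nz + ∑ i, N₁ i + ∑ r, N₂ r, hχs,
    fun g τ _ h => ⟨h.conj τ, fun j i hji => ?_⟩, fun g l _ h => ⟨h.pow l, fun j i hji => ?_⟩,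
    ?_, ?_, ?_, ?_, ?_⟩
  · exact httu _ _ _ _ hji (h.conj τ) ((hZ j i hji).2.1 g τ _ h.1 h.2 (htt g j i hji h))
  · exact httu _ _ _ _ hji (h.pow l) ((hZ j i hji).2.2 g _ l h.1 (htt g j i hji h))
  · intro g τ _ hg
    refine ⟨hF2c g τ hg, funext fun j => ?_⟩
    show t (τ * g * τ⁻¹) j + t (c * (τ * g * τ⁻¹) * c⁻¹) j = t g j + t (c * g * c⁻¹) j
    rcases GAK.cases_om ι τ with hτ | hτ
    · have e : c * (τ * g * τ⁻¹) * c⁻¹ =
          (c * τ * c⁻¹) * (c * g * c⁻¹) * (c * τ * c⁻¹)⁻¹ := by group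
      rw [e, htc g τ j hg hτ, htc _ _ j (hF2c g c hg) (conj_fix c hτ)]
    · have e1 : τ * g * τ⁻¹ = (τ * c⁻¹) * (c * g * c⁻¹) * (τ * c⁻¹)⁻¹ := by group
      have e2 : c * (τ * g * τ⁻¹) * c⁻¹ = (c * τ) * g * (c * τ)⁻¹ := by group
      have h1 : (τ * c⁻¹) (ι w) = ι w := by
        rw [AlgEquiv.mul_apply, inv_sq hc, map_pow, hτ, GAK.om4]
      have h2 : (c * τ) (ι w) = ι w := by
        rw [AlgEquiv.mul_apply, hτ, map_pow, hc, GAK.om4]
      rw [e2, htc g _ j hg h2, e1, htc _ _ j (hF2c g c hg) h1, add_comm]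
  · intro g l _ hg
    refine ⟨hF2p g l hg, funext fun j => ?_⟩
    show t (g ^ l) j + t (c * g ^ l * c⁻¹) j = (l : ZMod 3) • (t g j + t (c * g * c⁻¹) j)
    have e : c * g ^ l * c⁻¹ = (c * g * c⁻¹) ^ l := by rw [conj_pow]
    rw [e, htp g l j hg, htp _ l j (hF2c g c hg), smul_eq_mul]
    ring
  · intro a v v' y y' ha
    obtain ⟨z₁, hz₁, hz₁P, hz₁M⟩ := hMC1 s M N b p q p' q' z α β P Q P' Q' f L ζ ι hSys hSysZ hG
      (fun j => 2 * (y' j - y j))
    obtain ⟨z₂, hz₂, hz₂P, hz₂M⟩ := hMC2 s M N b p q p' q' z α β P Q P' Q' f L ζ ι hSys hSysZ hG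
      (fun j i => v' j i - v j i)
    obtain ⟨hz₁ω, hχz₁⟩ := hz1 z₁ hz₁.ze
    obtain ⟨hz₂ω, hχz₂⟩ := hz1 z₂ hz₂.ze
    set zz := z₁ * z₂ with hzz
    have hzω : zz (ι w) = ι w := by rw [hzz, AlgEquiv.mul_apply, hz₂ω, hz₁ω]
    have hχz : χ zz = 1 := by rw [hzz, map_mul, hχz₁, hχz₂, mul_one]
    have hzb : ∀ (j : Fin s) (ρ : L), ρ ^ 3 = (b j : L) → zz ρ = ρ := by
      intro j ρ hρ
      rw [hzz, AlgEquiv.mul_apply, hz₂.rb j ρ hρ, hz₁.rb j ρ hρ]
    have hzr : ∀ (i : Fin M) (ρ : L), ρ ^ 3 = ι (z i) → zz ρ = ρ := by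
      intro i ρ hρ
      rw [hzz, AlgEquiv.mul_apply, hz₂.rz i ρ hρ, hz₁.rz i ρ hρ]
    have hF0z : ∀ g : L ≃ₐ[ℚ] L, F0 b ι (g * zz) ↔ F0 b ι g := by
      intro g
      have h1 : ∀ (j : Fin s) (ρ : L), ρ ^ 3 = (b j : L) → (g * zz) ρ = g ρ := by
        intro j ρ hρ
        rw [AlgEquiv.mul_apply, hzb j ρ hρ]
      have h2 : (g * zz) (ι w) = g (ι w) := by rw [AlgEquiv.mul_apply, hzω]
      unfold F0
      rw [h2]
      refine and_congr_right fun _ => ?_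
      constructor
      · intro h j ρ hρ
        rw [← h1 j ρ hρ]
        exact h j ρ hρ
      · intro h j ρ hρ
        rw [h1 j ρ hρ]
        exact h j ρ hρ
    have hF2z : ∀ g : L ≃ₐ[ℚ] L, F2 (g * zz) ↔ F2 g := by
      intro g
      have h1 : ∀ (i : Fin M) (ρ : L), ρ ^ 3 = ι (z i) → (g * zz) ρ = g ρ := by
        intro i ρ hρ
        rw [AlgEquiv.mul_apply, hzr i ρ hρ]
      have h2 : (g * zz) (ι w) = g (ι w) := by rw [AlgEquiv.mul_apply, hzω]
      show ((g * zz) (ι w) = ι w ∧ ∀ (i : Fin M) (ρ : L), ρ ^ 3 = ι (z i) → (g * zz) ρ = ρ) ↔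
        (g (ι w) = ι w ∧ ∀ (i : Fin M) (ρ : L), ρ ^ 3 = ι (z i) → g ρ = ρ)
      rw [h2]
      refine and_congr_right fun _ => ?_
      constructor
      · intro h i ρ hρ
        rw [← h1 i ρ hρ]
        exact h i ρ hρ
      · intro h i ρ hρ
        rw [h1 i ρ hρ]
        exact h i ρ hρ
    have key0 : ∀ g : L ≃ₐ[ℚ] L, F0 b ι g → ∀ j i, j < i →
        tt (g * zz) j i = (v' j i - v j i) + tt g j i := by
      intro g hg j i hji
      apply httu _ _ _ _ hji.ne ((hF0z g).2 hg)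
      intro ρ A hρ hA
      have h1 := htt g j i hji.ne hg ρ A hρ hA
      have h2 := hz₂P j i ρ A hji ⟨hρ, hA⟩
      have h3 := hz₁P j i ρ A hji.ne ⟨hρ, hA⟩
      rw [AlgEquiv.mul_apply, hzz, AlgEquiv.mul_apply, h2, map_mul, map_pow, hz₁ω, h3, map_mul,
        map_pow, hg.1, h1, ← mul_assoc, om_add hω3]
    have key : ∀ g : L ≃ₐ[ℚ] L, F2 g → ∀ j, T (g * zz) j = (y' j - y j) + T g j := by
      intro g hg j
      show t (g * zz) j + t (c * (g * zz) * c⁻¹) j =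
        (y' j - y j) + (t g j + t (c * g * c⁻¹) j)
      have e1 : t (g * zz) j = 2 * (y' j - y j) + t g j := by
        apply htu _ _ _ ((hF2z g).2 hg)
        intro ρ A hA
        have h1 := ht g j hg ρ A hA
        rw [AlgEquiv.mul_apply, hzz, AlgEquiv.mul_apply, (hz₂M j ρ A hA).1, (hz₁M j ρ A hA).1,
          map_mul, map_pow, hg.1, h1, ← mul_assoc, om_add hω3]
      have hg' := hF2c g c hg
      have e2 : t (c * (g * zz) * c⁻¹) j = 2 * (y' j - y j) + t (c * g * c⁻¹) j := by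
        apply htu _ _ _ (hF2c _ c ((hF2z g).2 hg))
        intro ρ A hA
        have h0 : zz (c⁻¹ A) = ι w ^ (-(2 * (y' j - y j))).val * c⁻¹ A := by
          rw [hzz, AlgEquiv.mul_apply, (hz₂M j ρ A hA).2 c⁻¹ (inv_sq hc),
            (hz₁M j ρ A hA).2 c⁻¹ (inv_sq hc)]
        have h1 := conj_z hc h0
        have h2 : c * (g * zz) * c⁻¹ = (c * g * c⁻¹) * (c * zz * c⁻¹) := by group
        rw [h2, AlgEquiv.mul_apply, h1, map_mul, map_pow, hg'.1,
          ht _ j hg' ρ A hA, ← mul_assoc, om_add hω3]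
      rw [e1, e2]
      linear_combination (y' j - y j) * three_card
    apply Nat.card_congr
    refine Equiv.subtypeEquiv (Equiv.mulRight zz) ?_
    intro g
    have hχ : χ (g * zz) = χ g := by rw [map_mul, hχz, mul_one]
    show (χ g = a ∧ F0 b ι g ∧ F2 g ∧ T g = y ∧ ∀ j i, j < i → tt g j i = v j i) ↔
      (χ (g * zz) = a ∧ F0 b ι (g * zz) ∧ F2 (g * zz) ∧ T (g * zz) = y' ∧
        ∀ j i, j < i → tt (g * zz) j i = v' j i)
    rw [hχ, hF0z g, hF2z g]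
    refine and_congr_right fun _ => and_congr_right fun hg0 => and_congr_right fun hg =>
      and_congr ?_ ?_
    · constructor
      · intro h
        funext j
        rw [key g hg j, h]
        ring
      · intro h
        funext j
        have h4 := congrFun h j
        rw [key g hg j] at h4
        linear_combination h4
    · constructor
      · intro h j i hji
        rw [key0 g hg0 j i hji, h j i hji]
        ring
      · intro h j i hji
        have h4 := h j i hji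
        rw [key0 g hg0 j i hji] at h4
        linear_combination h4
  · intro a ha
    choose θ hθ using hGp.root
    have hθ0 : ∀ j, θ j ≠ 0 := by
      intro j h0
      have h1 := hθ j
      rw [h0] at h1
      apply hb0 j
      have h2 : ((b j : ℤ) : L) = 0 := by rw [← h1]; norm_num
      exact_mod_cast h2
    have hex : ∀ (g : L ≃ₐ[ℚ] L) (j : Fin s), ∃ u : ZMod 3, g (θ j) = ι w ^ u.val * θ j := by
      intro g j
      apply cube_root hGp.rel
      rw [← map_pow, hθ j, map_intCast]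
    choose uu huu using hex
    have huniq : ∀ (g : L ≃ₐ[ℚ] L) (j : Fin s) (u : ZMod 3), g (θ j) = ι w ^ u.val * θ j →
        uu g j = u := by
      intro g j u h
      apply om_zmod_inj hGp.rel (hθ0 j)
      rw [← huu g j, h]
    -- criterion for `F0`
    have hFu : ∀ g : L ≃ₐ[ℚ] L, g (ι w) = ι w → (F0 b ι g ↔ uu g = 0) := by
      intro g hg
      constructor
      · rintro ⟨_, h1⟩
        funext j
        apply huniq
        rw [h1 j _ (hθ _)]
        simp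
      · intro h1
        refine ⟨hg, fun j ρ hρ => ?_⟩
        obtain ⟨u, hu⟩ := cube_root hGp.rel (θ := θ j) (ρ := ρ) (by rw [hρ, hθ])
        rw [hu, map_mul, map_pow, hg, huu, h1]
        simp
    have hfib : ∀ w w' : Fin s → ZMod 3,
        (univ.filter fun g : L ≃ₐ[ℚ] L => χ g = a ∧ uu g = w).card =
        (univ.filter fun g : L ≃ₐ[ℚ] L => χ g = a ∧ uu g = w').card := by
      intro v v'
      obtain ⟨z, hzζ, hzρ⟩ := hGKUM s b p q p' q' f L ζ (ι w) hSys hGp (v' - v)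
      obtain ⟨hzω, hχz⟩ := hz1 z hzζ
      have key : ∀ g : L ≃ₐ[ℚ] L, g (ι w) = ι w → uu (g * z) = (v' - v) + uu g := by
        intro g hg
        funext j
        apply huniq
        rw [AlgEquiv.mul_apply, hzρ j _ (hθ j), map_mul, map_pow, hg, huu, ← mul_assoc,
          om_add hω3]
        rfl
      refine Finset.card_bij (fun g _ => g * z) ?_ ?_ ?_
      · intro g hg
        rw [mem_filter] at hg ⊢
        obtain ⟨_, h1, h2⟩ := hg
        refine ⟨mem_univ _, by rw [map_mul, hχz, mul_one, h1], ?_⟩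
        rw [key g (hM g (by rw [h1]; exact ha)), h2]
        abel
      · intro g _ g' _ e
        exact mul_right_cancel e
      · intro g hg
        rw [mem_filter] at hg
        obtain ⟨_, h1, h2⟩ := hg
        have h3 : g * z⁻¹ * z = g := inv_mul_cancel_right g z
        have h4 : χ (g * z⁻¹) = a := by rw [map_mul, map_inv, hχz, inv_one, mul_one, h1]
        refine ⟨g * z⁻¹, ?_, h3⟩
        rw [mem_filter]
        refine ⟨mem_univ _, h4, ?_⟩
        have h5 := key (g * z⁻¹) (hM _ (by rw [h4]; exact ha))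
        rw [h3, h2] at h5
        funext j
        have h7 := congrFun h5 j
        simp only [Pi.add_apply, Pi.sub_apply] at h7
        linear_combination (-1 : ZMod 3) * h7
    have h1 : Nat.card {g : L ≃ₐ[ℚ] L // χ g = a} =
        3 ^ s * (univ.filter fun g : L ≃ₐ[ℚ] L => χ g = a ∧ uu g = 0).card := by
      rw [Nat.card_eq_fintype_card, Fintype.card_subtype,
        Finset.card_eq_sum_card_fiberwise (f := uu) (t := univ) (fun _ _ => by simp)]
      have h2 : ∀ v ∈ (univ : Finset (Fin s → ZMod 3)),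
          (Finset.filter (fun g => uu g = v) (univ.filter fun g : L ≃ₐ[ℚ] L => χ g = a)).card =
          (univ.filter fun g : L ≃ₐ[ℚ] L => χ g = a ∧ uu g = 0).card := by
        intro v _
        rw [Finset.filter_filter]
        exact hfib v 0
      rw [Finset.sum_congr rfl h2, Finset.sum_const, smul_eq_mul, Finset.card_univ,
        Fintype.card_fun, ZMod.card, Fintype.card_fin]
    have h2 : Nat.card {g : L ≃ₐ[ℚ] L // χ g = a ∧ F0 b ι g} =
        (univ.filter fun g : L ≃ₐ[ℚ] L => χ g = a ∧ uu g = 0).card := by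
      rw [Nat.card_eq_fintype_card, Fintype.card_subtype]
      congr 1
      apply Finset.filter_congr
      intro g _
      refine and_congr_right fun h3 => ?_
      exact hFu g (hM g (by rw [h3]; exact ha))
    rw [h1, h2]
  · intro q₀ hq hq₀ hN₀ I g hI hNI hst
    have hfin := GFR.quo_finite hq₀ hI hNI
    obtain ⟨l, hl, hfr⟩ := GFR.exists_frob_gen (R := ℤ) I g hst
    have hχl := hχF q₀ hq hq₀ I (g ^ l) hI hNI hfr
    refine ⟨l, hl, hχl, fun hN3 ρ hρ => ⟨fun hsym => ?_, fun hsym => ?_⟩⟩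
    · -- the rational classes
      obtain ⟨h1, h2, h3⟩ := hFrZ q₀ hq₀ (by omega) hN3 I hI hNI (g ^ l) hfr ρ hρ hsym
      have h4 : F0 b ι (g ^ l) := ⟨h1, h2⟩
      exact ⟨h4, fun j i hji r hr => h3 j i hji r _ hr (htt _ j i hji h4)⟩
    · have hM1 : M1 (χ (g ^ l)) := by
        unfold M1
        rw [hχl, ZMod.coe_unitOfCoprime, ZMod.val_natCast, Nat.mod_mod_of_dvd _ h3f]
        exact hN3
      have h4 : F2 (g ^ l) := by
        refine ⟨hM _ hM1, fun i => ?_⟩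
        have h5 := hB1 i
        exact (hFr₁ i q₀ hq₀ (by omega) hN3 I hI hNI (g ^ l) hfr ρ hρ (hsym i)
          (fun j => j.elim0)).2.1.1
      refine ⟨h4, fun r ξ ξ' hξ hξ' => ?_⟩
      have h5 := hB2 r
      exact (hFr₂ r q₀ hq₀ (by omega) hN3 I hI hNI (g ^ l) hfr ρ hρ (hsym (α r))
        (fun _ => hsym (β r))).2.2 c hc 0 ξ ξ' _ _ hξ hξ' (ht _ r h4)
        (ht _ r (hF2c _ c h4))

end Pool.Agent.PTK


end

section

/-!
# PTK: the primes with large corank, `q = 1 (mod 3)`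
-/

set_option autoImplicit false

open NumberField IsDedekindDomain Finset
open scoped nonZeroDivisors Pointwise

namespace Pool.Agent.PTK

open Pool.Agent.Lib_helper18 Pool.Agent.Lib_helper18.Eis Pool.Agent.Lib_helper84.Cub
open Pool.Agent.PT Pool.Agent.PTE Pool.Agent.PT3 Pool.Agent.PTL Pool.Agent.PTN

namespace MSPU

theorem BB_eq (h n E q : ℕ) : BB h n E q = ((3 ^ h * n : ℕ) : ℤ) * (q : ℤ) ^ E := by
  unfold BB
  push_cast
  rfl

theorem cons_eq {m : ℕ} {x y : Fin (m + 1) → ZMod 3} (h0 : x 0 = y 0)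
    (h1 : ∀ i : Fin m, x i.succ = y i.succ) : x = y := by
  funext i
  exact Fin.cases h0 h1 i

theorem neg_of_two {x y : ZMod 3} (h : 2 * x = y) : x = -y := by
  revert x y
  decide

/-- the restriction of a system to the first indices -/
theorem sysG_restr {s : ℕ} {b : Fin (s + 1) → ℤ} {P Q P' Q' : Fin (s + 1) → Fin (s + 1) → ℤ}
    (h : SysG b P Q P' Q') : SysG (rv b) (rs P) (rs Q) (rs P') (rs Q') where
  ind := by
    rintro c ⟨i, hi⟩ ⟨t, ht⟩
    refine h.ind (Fin.snoc (α := fun _ => ℕ) c 0) ⟨i.castSucc, ?_⟩ ⟨t, ?_⟩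
    · rw [Fin.snoc_castSucc]
      exact hi
    · rw [ht, Fin.prod_univ_castSucc, Fin.snoc_last, pow_zero, mul_one]
      refine Finset.prod_congr rfl fun j _ => ?_
      rw [Fin.snoc_castSucc]
      rfl
  sol j i hji := h.sol j.castSucc i.castSucc fun h1 => hji (Fin.castSucc_injective _ h1)

theorem sw_restr {s : ℕ} {P Q P' Q' : Fin (s + 1) → Fin (s + 1) → ℤ}
    (h : SwS P Q P' Q') : SwS (rs P) (rs Q) (rs P') (rs Q') :=
  fun j i hji => h j.castSucc i.castSucc fun h1 => hji (Fin.castSucc_injective _ h1)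

end MSPU

open _root_.Pool.Agent.PTK.MSPU in
/-- PTK_MSPU: the primes with large corank are in `SPU`, `SMU`, `q = 1 (mod 3)`. -/
theorem MSPU_thm (hDCOU : DCOU) (hTENT : TENT) (hNADU : Stmt_NADU) (hSPLT : SPLT) :
    Stmt_MSPU := by
  intro h n m k π p e r f w0 c d v δ s τ b X Y P Q P' Q' hNF hh _ hPl
  have hSys := hPl.sys
  have hSw := hPl.sw
  have hAdN := hPl.adm
  have hn : 0 < n := FINAS.pos_of_nf hNF
  have hN0 : 0 < 3 ^ h * n := Nat.mul_pos (pow_pos (by norm_num) _) hn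
  have hb : ∀ i, b i ≠ 0 := fun i => (hAdN i).1.ne
  have hD : ∀ j i : Fin s, ∃ f₀ : ℕ, 0 < f₀ ∧ ∀ F : ℕ, 0 < F → f₀ ∣ F →
      ∃ (C : ZMod 3) (Φ : (ZMod F)ˣ →* Multiplicative (ZMod 3)) (N₀ : ℕ), j ≠ i →
        ∀ (E q : ℕ) (hQ : q.Coprime F) (ρ : PP), (E = 1 ∨ E = 2) → q.Prime → N₀ < q →
          q % 3 = 1 → (q : Eis) = ρ.1 * conj ρ.1 →
          AG (BB h n E q) (b j.castSucc) → AG (BB h n E q) (b i.castSucc) →
          ∀ t : ℤ, (q : ℤ) ∣ t ^ 3 - b j.castSucc →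
          OT (BB h n E q) (b j.castSucc) (X j) (Y j) (b i.castSucc) (rs P j i) (rs Q j i)
            (rs P' j i) (rs Q' j i) = C + E * ((Φ (ZMod.unitOfCoprime q hQ)).toAdd +
              TAUVS ρ.1 (rs P j i) (rs Q j i) (rs P' j i) (rs Q' j i) t) := by
    intro j i
    by_cases hji : j = i
    · exact ⟨1, one_pos, fun F _ _ => ⟨0, 1, 0, fun h => absurd hji h⟩⟩
    · obtain ⟨f₀, hf₀, hf⟩ := hDCOU (3 ^ h * n) (b j.castSucc) (X j) (Y j) (b i.castSucc)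
        (rs P j i) (rs Q j i) (rs P' j i) (rs Q' j i) hN0
        (hSys.sol j.castSucc i.castSucc fun h => hji (Fin.castSucc_injective _ h)) (hb _) (hb _)
      refine ⟨f₀, hf₀, fun F hF hd => ?_⟩
      obtain ⟨C, Φ, N₀, h'⟩ := hf F hF hd
      refine ⟨C, Φ, N₀, fun _ E q hQ ρ hE hqp hqN hq3 hqρ hAj hAi t ht => ?_⟩
      rw [BB_eq] at hAj hAi ⊢
      exact h' E q hQ ρ hE hqp hqN hq3 hqρ hAj hAi t ht
  choose f₀ hf₀ hD1 using hD
  refine ⟨∏ j, ∏ i, f₀ j i, Finset.prod_pos fun j _ => Finset.prod_pos fun i _ => hf₀ j i,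
    fun F hF hdF κ hκ => ?_⟩
  have hfF : ∀ j i, f₀ j i ∣ F := fun j i =>
    ((Finset.dvd_prod_of_mem (fun i => f₀ j i) (mem_univ i)).trans
      (Finset.dvd_prod_of_mem (fun j => ∏ i, f₀ j i) (mem_univ j))).trans hdF
  choose C Φ N₀ hD2 using fun j i => hD1 j i F hF (hfF j i)
  have hN : ∀ j i, N₀ j i ≤ ∑ j, ∑ i, N₀ j i := by
    intro j i
    exact (Finset.single_le_sum (f := fun i => N₀ j i) (fun i _ => Nat.zero_le _)
      (mem_univ i)).trans (Finset.single_le_sum (f := fun j => ∑ i, N₀ j i)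
        (fun j _ => Nat.zero_le _) (mem_univ j))
  obtain ⟨M, hM⟩ : ∃ M, M = n + F + 3 + ∑ j, ∑ i, N₀ j i := ⟨_, rfl⟩
  -- the matrix
  have hmat : ∀ (E q t : ℕ), (E = 1 ∨ E = 2) → q.Prime → M < q → q % 3 = 1 → q ∈ Pat v δ →
      InCT E π w0 c q → t ≤ kU h n b X Y P Q P' Q' E q →
      ∃ (hQ : q.Coprime F) (ρ : PP), (q : Eis) = ρ.1 * conj ρ.1 ∧
        (∀ j : Fin s, sym ρ.1 (b j.castSucc : Eis) = 0) ∧ sym ρ.1 (b (Fin.last s) : Eis) ≠ 0 ∧
        ∀ τ' : Fin s → Fin s → ZMod 3,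
        (∀ j i, j ≠ i → ∀ r : ℤ, (q : ℤ) ∣ r ^ 3 - b j.castSucc →
          τ' j i = TAUVS ρ.1 (rs P j i) (rs Q j i) (rs P' j i) (rs Q' j i) r) →
        t ≤ s - (alt fun j i =>
          C j i + E * ((Φ j i (ZMod.unitOfCoprime q hQ)).toAdd + τ' j i)).rank := by
    intro E q t hE hq hqM hq3 hqP hIn htk
    obtain ⟨ρ, hqρ, hpat⟩ := hqP
    have hqn : ¬ q ∣ n := fun h => by
      have := Nat.le_of_dvd hn h
      omega
    have hQ : q.Coprime F := by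
      rw [Nat.Prime.coprime_iff_not_dvd hq]
      intro h
      have := Nat.le_of_dvd hF h
      omega
    have h3q : 3 < q := by omega
    have hρn : ¬ ρ.1 ∣ (n : Eis) := by
      intro h2
      have h4 := (hSPLT.2 q ρ hq hq3 hqρ).2.2.2.1 (n : ℤ)
      rw [Int.cast_natCast] at h4
      exact hqn (Int.natCast_dvd_natCast.1 (h4.1 h2))
    obtain ⟨hiff, -⟩ := hPl.pat ρ hρn
    obtain ⟨hb0, hb1⟩ := hiff.2 hpat
    obtain ⟨hBG, hTy, hA⟩ := hNADU h n m k π p e r f w0 c E q ρ hNF hh hE hq hq3 hIn hqn hqρ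
    have hAG : ∀ i : Fin s, AG (BB h n E q) (b i.castSucc) := fun i =>
      ((hA _ (hAdN i.castSucc).1.supp).1 ⟨hAdN i.castSucc, hb0 i⟩).1
    have hskew := (hTENT s τ (rv b) X Y _ _ _ _ _ (sysG_restr hSys) (sw_restr hSw) hBG
      hAG (hPl.lam _ hTy) (fun i => hb _)).1
    refine ⟨hQ, ρ, hqρ, hb0, hb1, fun τ' hτ' => ?_⟩
    have hent : ∀ j i, j ≠ i →
        MaT (rv b) X Y (rs P) (rs Q) (rs P') (rs Q') (BB h n E q) j i =
        C j i + E * ((Φ j i (ZMod.unitOfCoprime q hQ)).toAdd + τ' j i) := by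
      intro j i hji
      have hqb : ¬ (q : ℤ) ∣ b j.castSucc := fun h => by
        rcases (hq.dvd_mul).1 ((hAdN j.castSucc).1.supp q hq h) with h1 | h1
        · have := Nat.le_of_dvd (by norm_num) h1
          omega
        · exact hqn h1
      obtain ⟨x, hx⟩ := (hSPLT.2 q ρ hq hq3 hqρ).2.2.2.2.2 _ hqb (hb0 j)
      unfold MaT
      rw [if_neg hji]
      refine (hD2 j i hji E q hQ ρ hE hq (by have := hN j i; omega) hq3 hqρ (hAG j) (hAG i) x
        hx).trans ?_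
      rw [← hτ' j i hji x hx]
    have hMa : MaT (rv b) X Y (rs P) (rs Q) (rs P') (rs Q') (BB h n E q) = alt fun j i =>
        C j i + E * ((Φ j i (ZMod.unitOfCoprime q hQ)).toAdd + τ' j i) := by
      ext j i
      rw [alt]
      rcases lt_trichotomy j i with h | h | h
      · rw [if_pos h, hent j i h.ne]
      · subst h
        rw [if_neg (lt_irrefl _), if_neg (lt_irrefl _), MaT, if_pos rfl]
      · rw [if_neg (not_lt.2 h.le), if_pos h, hskew j i, hent i j h.ne]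
    rw [← hMa]
    exact htk
  refine ⟨C, FINAS.assemble Φ, M, fun q t hq hqM hq3 hqP => ⟨fun hIn htk => ?_,
    fun hIn htk => ?_⟩⟩
  · obtain ⟨hQ, ρ, hqρ, hb0, hb1, hm⟩ := hmat 1 q t (Or.inl rfl) hq hqM hq3 hqP hIn htk
    obtain ⟨hw, hc⟩ := hIn
    refine ⟨hQ, ρ, ⟨hq3, ?_, hqρ, hb0, hb1⟩, fun τ' hτ' => ?_⟩
    · rw [hκ]
      refine cons_eq ?_ fun i => ?_
      · rw [Fin.cons_zero, Fin.cons_zero]
        rw [pow_one] at hw
        exact hw
      · rw [Fin.cons_succ, Fin.cons_succ, ← hc i, Nat.cast_one, one_mul]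
    · have e1 : (fun j i => C j i + ((1 : ℕ) : ZMod 3) *
          ((Φ j i (ZMod.unitOfCoprime q hQ)).toAdd + τ' j i)) =
          C + (FINAS.assemble Φ (ZMod.unitOfCoprime q hQ)).toAdd + τ' := by
        funext j i
        show C j i + ((1 : ℕ) : ZMod 3) * ((Φ j i (ZMod.unitOfCoprime q hQ)).toAdd + τ' j i) =
          C j i + (Φ j i (ZMod.unitOfCoprime q hQ)).toAdd + τ' j i
        rw [Nat.cast_one]
        ring
      rw [← e1]
      exact hm τ' hτ'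
  · obtain ⟨hQ, ρ, hqρ, hb0, hb1, hm⟩ := hmat 2 q t (Or.inr rfl) hq hqM hq3 hqP hIn htk
    obtain ⟨hw, hc⟩ := hIn
    refine ⟨hQ, ρ, ⟨hq3, ?_, hqρ, hb0, hb1⟩, fun τ' hτ' => ?_⟩
    · rw [hκ]
      refine cons_eq ?_ fun i => ?_
      · rw [Fin.cons_zero, Pi.neg_apply, Fin.cons_zero]
        have h3 : ¬ (3 : ℤ) ∣ (q : ℤ) := by omega
        have h4 := sq_mod_three h3
        have h5 : ((q : ℤ) ^ 2) ^ 2 = (q : ℤ) ^ 2 * (q : ℤ) ^ 2 := by ring
        rw [h5, wt_mul h4 h4] at hw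
        exact neg_of_two (by rw [two_mul]; exact hw)
      · rw [Fin.cons_succ, Pi.neg_apply, Fin.cons_succ]
        exact neg_of_two (hc i)
    · have e1 : (fun j i => C j i + ((2 : ℕ) : ZMod 3) *
          ((Φ j i (ZMod.unitOfCoprime q hQ)).toAdd + τ' j i)) =
          C - (FINAS.assemble Φ (ZMod.unitOfCoprime q hQ)).toAdd - τ' := by
        funext j i
        show C j i + ((2 : ℕ) : ZMod 3) * ((Φ j i (ZMod.unitOfCoprime q hQ)).toAdd + τ' j i) =
          C j i - (Φ j i (ZMod.unitOfCoprime q hQ)).toAdd - τ' j i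
        rw [show ((2 : ℕ) : ZMod 3) = -1 from by decide]
        ring
      rw [← e1]
      exact hm τ' hτ'

end Pool.Agent.PTK


end

section

/-!
# PTK_NBW: the bound for the rank by the classes of the points and the corank of the matrix
-/

set_option autoImplicit false

namespace Pool.Agent.PTK

open Pool.Agent.Lib_helper18 Pool.Agent.Lib_helper18.Eis Pool.Agent.Lib_helper84.Cub
open Pool.Agent.PT Pool.Agent.PTE Pool.Agent.PT3 Pool.Agent.PTL Pool.Agent.PTN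

open Pool.Agent.PTN.NBKN in
/-- PTK_NBW: the bound for the rank. -/
theorem NBW_thm (hK : Stmt_KID) (hA : Stmt_NADT) (hL : Stmt_NPLU) (hTENT : TENT)
    (hWGR : Stmt_WGR) : Stmt_NBW := by
  classical
  intro h n m k π p e r f w0 c s τ b X Y P Q P' Q' E q hNF hh hAdm hSys hSw hLam hgen hEE hq hq3
    hq2 hInC hqn
  obtain ⟨hBG, hTy, hE⟩ := hA h n m k π p e r f w0 c E q hNF hh hEE hq hq2 hInC hqn
  obtain ⟨⟨d, hd⟩, hY₁⟩ := hWGR h n m k π p e r f w0 c E q hNF hh hEE hq hq3 hq2 hInC hqn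
  have H := key hA hL hTENT hNF hh hAdm hSys hSw hLam hgen hEE hq hq3 hq2 hInC hqn
  have hcf : CubeRank.CubeFree (BB h n E q) := cubeFree_BB hNF hh hEE hq hq3 hqn
  have h3B : 3 ≤ (BB h n E q).natAbs := three_le_BB hNF hEE hq3
  obtain ⟨B, hB⟩ : ∃ B : ℤ, B = BB h n E q := ⟨_, rfl⟩
  rw [← hB] at hBG hTy hE hY₁ H hcf h3B hd ⊢
  have hB0 : B ≠ 0 := hTy.1
  have habs : 3 ≤ |B| := by
    rw [Int.abs_eq_natAbs]
    exact_mod_cast h3B
  have hnc : ¬ ∃ t : ℤ, t ^ 3 = B := CubeRank.GenPf.not_cube hcf habs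
  obtain ⟨M, hM⟩ : ∃ M : Matrix (Fin s) (Fin s) (ZMod 3), M = MaT b X Y P Q P' Q' B := ⟨_, rfl⟩
  rw [← hM] at H ⊢
  choose g u y j hu hy hz hker using H
  let Ψ₂ : ℤ → LinearMap.ker M.mulVecLin := fun z =>
    if hs : S2 B z then ⟨fun i => (g z hs i : ZMod 3), by
      rw [LinearMap.mem_ker]
      funext a
      exact hker z hs a⟩ else 0
  choose yv hyv g₁ g₂ hg₁ hg₂ hyg using hY₁
  let Y₁ : Eis → WqS h n π p e r w0 c B := fun ζ =>
    if hs : S1 B ζ then ⟨yv ζ hs, hyv ζ hs⟩ else ⟨yv 1 (Or.inl rfl), hyv 1 (Or.inl rfl)⟩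
  have hidx := hK B hB0 hcf hnc (WqS h n π p e r w0 c B) (LinearMap.ker M.mulVecLin) Y₁ Ψ₂
    (by
      intro ζ ζ' h1 h2 h12
      have h3 : yv ζ h1 = yv ζ' h2 := by
        have h4 := congrArg (fun x : WqS h n π p e r w0 c B => (x : Fin (m + 1) → ZMod 3)) h12
        simp only [Y₁, dif_pos h1, dif_pos h2] at h4
        exact h4
      have e1 := hyg ζ h1
      have e2 := hyg ζ' h2
      rw [h3] at e1
      refine ⟨g₁ ζ h1 * g₂ ζ' h2, g₁ ζ' h2 * g₂ ζ h1, mul_ne_zero (hg₁ ζ h1) (hg₂ ζ' h2),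
        mul_ne_zero (hg₁ ζ' h2) (hg₂ ζ h1), ?_⟩
      linear_combination (g₂ ζ' h2) ^ 3 * e1 - (g₂ ζ h1) ^ 3 * e2)
    (by
      intro z z' h1 h2 h12
      have h3 : ∀ i, (g z h1 i : ZMod 3) = g z' h2 i := by
        intro i
        have h4 := congrArg (fun x : LinearMap.ker M.mulVecLin => (x : Fin s → ZMod 3) i) h12
        simp only [Ψ₂, dif_pos h1, dif_pos h2] at h4
        exact h4
      obtain ⟨A1, A2, hA1, hA2, hAA⟩ := BKER.prod_cube b (fun i => (hAdm i).1.ne) (g z h1)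
        (g z' h2) h3
      have e1 := hz z h1
      have e2 := hz z' h2
      have hu1 := hu z h1
      have hu2 := hu z' h2
      have hy1 := hy z h1
      have hy2 := hy z' h2
      generalize (∏ i, b i ^ g z h1 i) = P1 at *
      generalize (∏ i, b i ^ g z' h2 i) = P2 at *
      generalize u z h1 = u1 at *
      generalize u z' h2 = u2 at *
      generalize y z h1 = y1 at *
      generalize y z' h2 = y2 at *
      generalize j z h1 = j1 at *
      generalize j z' h2 = j2 at *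
      refine ⟨B ^ j1 * y1 * A1 * u2, y2 * A2 * u1, j2 + 2 * j1, ?_, ?_, ?_⟩
      · exact mul_ne_zero (mul_ne_zero (mul_ne_zero (pow_ne_zero _ hB0) hy1) hA1) hu2
      · exact mul_ne_zero (mul_ne_zero hy2 hA2) hu1
      · have e3 : B ^ (j2 + 2 * j1) = B ^ j2 * (B ^ j1) ^ 2 := by
          rw [pow_add, mul_comm 2 j1, pow_mul]
        rw [e3]
        generalize B ^ j1 = C1 at *
        generalize B ^ j2 = C2 at *
        linear_combination (-(C1 ^ 2 * A1 ^ 3 * u2 ^ 3)) * e1 +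
          (C1 ^ 2 * u1 ^ 3 * u2 ^ 3) * hAA + (C1 ^ 2 * A2 ^ 3 * u1 ^ 3) * e2)
  have hkr : Module.finrank (ZMod 3) (LinearMap.ker M.mulVecLin) = s - M.rank := by
    have h1 := LinearMap.finrank_range_add_finrank_ker M.mulVecLin
    rw [Module.finrank_fintype_fun_eq_card, Fintype.card_fin] at h1
    have h2 : Module.finrank (ZMod 3) (LinearMap.range M.mulVecLin) = M.rank := rfl
    omega
  refine CubeRank.gen' B hcf h3B _ hidx.1 (hidx.2.trans ?_)
  rw [Module.natCard_eq_pow_finrank (K := ZMod 3) (V := LinearMap.ker M.mulVecLin),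
    Nat.card_zmod, hkr, hd, Nat.log_pow (by norm_num : 1 < 3), pow_add]

end Pool.Agent.PTK


end

section

/-!
# PAT (helper9): every prime has a pattern
-/

set_option autoImplicit false

open NumberField IsDedekindDomain Finset
open scoped nonZeroDivisors Pointwise

namespace Pool.Agent.PTK

open Pool.Agent.Lib_helper18 Pool.Agent.Lib_helper18.Eis Pool.Agent.Lib_helper84.Cub
open Pool.Agent.PT Pool.Agent.PTE Pool.Agent.PT3 Pool.Agent.PTL Pool.Agent.PTN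

/-- PAT: every prime has a pattern. -/
theorem PAT_thm : Stmt_PAT := by
  intro d v _
  refine ⟨0, fun q _ _ _ => ?_⟩
  by_cases hZ : q ∈ ZP v
  · exact Or.inl hZ
  · right
    have h1 : ¬ ∀ ρ : PP, (q : Eis) = ρ.1 * conj ρ.1 → ∀ i, sym ρ.1 (v i : Eis) = 0 := hZ
    push Not at h1
    obtain ⟨ρ, hρ, i, hi⟩ := h1
    refine ⟨fun i => sym ρ.1 (v i : Eis), fun i => - sym ρ.1 (v i : Eis), ?_, ?_, ?_, ?_, ?_⟩
    · intro h
      exact hi (congrFun h i)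
    · intro h
      exact hi (neg_eq_zero.1 (congrFun h i))
    · intro h
      have h2 : sym ρ.1 (v i : Eis) = - sym ρ.1 (v i : Eis) := congrFun h i
      have h3 : ∀ z : ZMod 3, z = - z → z = 0 := by decide
      exact hi (h3 _ h2)
    · exact ⟨ρ, hρ, 1, by decide, fun i => by rw [one_mul]⟩
    · exact ⟨ρ, hρ, -1, by decide, fun i => by ring⟩

end Pool.Agent.PTK


end

section

/-!
# PTK_SAE: additivity of the local term of a point at `lam`
-/

set_option autoImplicit false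

open NumberField IsDedekindDomain Finset
open scoped nonZeroDivisors Pointwise

namespace Pool.Agent.PTK

open Pool.Agent.Lib_helper18 Pool.Agent.Lib_helper18.Eis Pool.Agent.Lib_helper84.Cub
open Pool.Agent.PT Pool.Agent.PTE Pool.Agent.PT3 Pool.Agent.PTL Pool.Agent.PTN

namespace SAE

/-- the three linear forms multiply to the norm -/
theorem Lf_prod (p q r : Eis) : LfE p q 0 r * LfE p q 1 r * LfE p q 2 r = p ^ 3 + q ^ 3 * r ^ 3 := by
  unfold LfE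
  have h1 := w_rel
  have h2 := w_cube
  linear_combination (p ^ 2 * q * r + p * q ^ 2 * r ^ 2 * w) * h1 +
    q ^ 3 * r ^ 3 * h2

/-- the linear forms are nonzero with bounded valuation at good approximations -/
theorem Lf_bound {π : Eis} (hπ : Prime π) {b p q r : Eis} {N : ℕ}
    (hn : p ^ 3 + b * q ^ 3 ≠ 0) (hr : π ^ N ∣ r ^ 3 - b)
    (hN : V π (p ^ 3 + b * q ^ 3) < N) (i : ℕ) (hi : i = 1 ∨ i = 2) :
    LfE p q i r ≠ 0 ∧ V π (LfE p q i r) ≤ V π (p ^ 3 + b * q ^ 3) := by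
  have e : p ^ 3 + b * q ^ 3 = (p ^ 3 + q ^ 3 * r ^ 3) - q ^ 3 * (r ^ 3 - b) := by
    ring
  have hnd : ¬ π ^ (V π (p ^ 3 + b * q ^ 3) + 1) ∣
      LfE p q 0 r * LfE p q 1 r * LfE p q 2 r := by
    rw [Lf_prod]
    intro h
    have h1 : π ^ (V π (p ^ 3 + b * q ^ 3) + 1) ∣ p ^ 3 + b * q ^ 3 := by
      have h2 : π ^ (V π (p ^ 3 + b * q ^ 3) + 1) ∣ q ^ 3 * (r ^ 3 - b) :=
        Dvd.dvd.mul_left ((pow_dvd_pow π (by omega)).trans hr) _
      have h3 := dvd_sub h h2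
      rwa [← e] at h3
    exact (fin hπ hn).not_pow_dvd_of_multiplicity_lt (Nat.lt_succ_self _) h1
  have hdv : LfE p q i r ∣ LfE p q 0 r * LfE p q 1 r * LfE p q 2 r := by
    rcases hi with rfl | rfl
    · exact ⟨LfE p q 0 r * LfE p q 2 r, by ring⟩
    · exact ⟨LfE p q 0 r * LfE p q 1 r, by ring⟩
  have h0 : LfE p q i r ≠ 0 := by
    intro h
    rw [h] at hdv
    rw [zero_dvd_iff.1 hdv] at hnd
    exact hnd (dvd_zero _)
  refine ⟨h0, ?_⟩
  by_contra hlt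
  push Not at hlt
  apply hnd
  exact (pow_dvd_of_le_multiplicity hlt).trans hdv

/-- evaluation of the identity at `w^i r` -/
theorem Lf_ident {b p₁ q₁ p₁' q₁' p₂ q₂ p₂' q₂' p q p' q' : Eis}
    (R : PRelE b p₁ q₁ p₁' q₁' p₂ q₂ p₂' q₂' p q p' q') (i : ℕ) (r : Eis) :
    LfE p₁ q₁ i r * LfE p₂ q₂ i r * LfE p' q' i r - LfE p₁' q₁' i r * LfE p₂' q₂' i r * LfE p q i r =
      (r ^ 3 - b) * (q₁ * q₂ * q' - q₁' * q₂' * q) := by
  have h3 : (w ^ i) ^ 3 = 1 := by rw [← pow_mul, mul_comm, pow_mul, w_cube, one_pow]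
  have e0' := R.e0
  have e1' := R.e1
  have e2' := R.e2
  unfold LfE
  generalize w ^ i = W at *
  linear_combination e0' + W * r * e1' + W ^ 2 * r ^ 2 * e2' +
    (q₁ * q₂ * q' - q₁' * q₂' * q) * r ^ 3 * h3

/-- additivity of `ASE` at good approximations -/
theorem AS_add {π : Eis} {s : Eis → Eis → ZMod 3} {e : ℕ} (hs : LSym π s e)
    {B b p₁ q₁ p₁' q₁' p₂ q₂ p₂' q₂' p q p' q' : Eis} (hB : B ≠ 0)
    (n₁ : p₁ ^ 3 + b * q₁ ^ 3 ≠ 0) (n₂ : p₂ ^ 3 + b * q₂ ^ 3 ≠ 0)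
    (n₃ : p' ^ 3 + b * q' ^ 3 ≠ 0) (m₁ : p₁' ^ 3 + b * q₁' ^ 3 ≠ 0)
    (m₂ : p₂' ^ 3 + b * q₂' ^ 3 ≠ 0) (m₃ : p ^ 3 + b * q ^ 3 ≠ 0)
    (R : PRelE b p₁ q₁ p₁' q₁' p₂ q₂ p₂' q₂' p q p' q') :
    ∃ N0 : ℕ, ∀ r : Eis, π ^ N0 ∣ r ^ 3 - b →
      ASE s B p q p' q' r = ASE s B p₁ q₁ p₁' q₁' r + ASE s B p₂ q₂ p₂' q₂' r := by
  refine ⟨V π (p₁ ^ 3 + b * q₁ ^ 3) + V π (p₂ ^ 3 + b * q₂ ^ 3) +
    V π (p' ^ 3 + b * q' ^ 3) + V π (p₁' ^ 3 + b * q₁' ^ 3) +
    V π (p₂' ^ 3 + b * q₂' ^ 3) + V π (p ^ 3 + b * q ^ 3) + e + 1,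
    fun r hr => ?_⟩
  have key : ∀ i : ℕ, i = 1 ∨ i = 2 →
      s B (LfE p₁ q₁ i r) + s B (LfE p₂ q₂ i r) + s B (LfE p' q' i r) =
        s B (LfE p₁' q₁' i r) + s B (LfE p₂' q₂' i r) + s B (LfE p q i r) := by
    intro i hi
    have a1 := Lf_bound hs.prime n₁ hr (by omega) i hi
    have a2 := Lf_bound hs.prime n₂ hr (by omega) i hi
    have a3 := Lf_bound hs.prime n₃ hr (by omega) i hi
    have b1 := Lf_bound hs.prime m₁ hr (by omega) i hi
    have b2 := Lf_bound hs.prime m₂ hr (by omega) i hi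
    have b3 := Lf_bound hs.prime m₃ hr (by omega) i hi
    refine TADD.step_i hs hB a1.1 a2.1 a3.1 b1.1 b2.1 b3.1 ?_ hr (Lf_ident R i r)
    have h1 := b1.2
    have h2 := b2.2
    have h3 := b3.2
    omega
  have k1 := key 1 (Or.inl rfl)
  have k2 := key 2 (Or.inr rfl)
  unfold ASE
  linear_combination k1 - k2

/-- the swapped solution -/
theorem swap' {b x p q p' q' : Eis} (h : SolE b x p q p' q') : SolE x b p (-p') (-q) q' where
  eq := by linear_combination h.eq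
  n1 := by
    intro h0
    apply h.n2
    linear_combination h0
  n2 := by
    intro h0
    apply h.n1
    linear_combination h0
  g1 := by
    intro h0
    apply h.g1
    unfold GfE at h0 ⊢
    linear_combination h0
  g2 := by
    intro h0
    apply h.g2
    unfold GfE at h0 ⊢
    linear_combination h0

/-- the denominators are nonzero -/
theorem den_ne {b x p q p' q' : Eis} (S : SolE b x p q p' q') : p' ^ 3 + b * q' ^ 3 ≠ 0 := by
  intro h
  apply S.n1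
  rw [S.eq, h, mul_zero]

/-- IF4 for the swapped solution -/
theorem if4_swap (hIF4 : Stmt_IF4) {π : Eis} {s : Eis → Eis → ZMod 3} {e : ℕ} (hs : LSym π s e)
    {b x p q p' q' X Y : Eis} (hb : b ≠ 0) (hx : x ≠ 0) (S : SolE b x p q p' q') (hX : X ≠ 0)
    (hY : Y ≠ 0) (hn : X ^ 3 + b * Y ^ 3 ≠ 0) (hD : DNE X Y p (-p') (-q) q') :
    ∃ N0 : ℕ, ∀ ξ : Eis, π ^ N0 ∣ ξ ^ 3 - b →
      SVE s b p (-p') (-q) q' X Y = ASE s (X ^ 3 + b * Y ^ 3) p q p' q' ξ +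
        s (LfE X Y 1 ξ) x - s (LfE X Y 2 ξ) x := by
  obtain ⟨N0, hN0⟩ := hIF4 π s e hs x b p (-p') (-q) q' X Y hx hb (swap' S) hX hY hn hD
  refine ⟨N0, fun ξ hξ => ?_⟩
  have h := hN0 ξ hξ
  rw [neg_neg, neg_neg] at h
  exact h

/-- local additivity where `b` is a local cube -/
theorem loc_cube (hIF4 : Stmt_IF4) {π : Eis} {s : Eis → Eis → ZMod 3} {e : ℕ} (hs : LSym π s e)
    {b x₁ x₂ p₁ q₁ p₁' q₁' p₂ q₂ p₂' q₂' p q p' q' X Y : Eis} (hb : b ≠ 0) (hx₁ : x₁ ≠ 0)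
    (hx₂ : x₂ ≠ 0) (S₁ : SolE b x₁ p₁ q₁ p₁' q₁') (S₂ : SolE b x₂ p₂ q₂ p₂' q₂')
    (S : SolE b (x₁ * x₂) p q p' q') (R : PRelE b p₁ q₁ p₁' q₁' p₂ q₂ p₂' q₂' p q p' q')
    (hX : X ≠ 0) (hY : Y ≠ 0) (hn : X ^ 3 + b * Y ^ 3 ≠ 0)
    (D₁ : DNE X Y p₁ (-p₁') (-q₁) q₁') (D₂ : DNE X Y p₂ (-p₂') (-q₂) q₂')
    (D : DNE X Y p (-p') (-q) q') (hLC : LCE π b) :
    SVE s b p (-p') (-q) q' X Y =
      SVE s b p₁ (-p₁') (-q₁) q₁' X Y + SVE s b p₂ (-p₂') (-q₂) q₂' X Y := by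
  obtain ⟨N₁, h₁⟩ := if4_swap hIF4 hs hb hx₁ S₁ hX hY hn D₁
  obtain ⟨N₂, h₂⟩ := if4_swap hIF4 hs hb hx₂ S₂ hX hY hn D₂
  obtain ⟨N₃, h₃⟩ := if4_swap hIF4 hs hb (mul_ne_zero hx₁ hx₂) S hX hY hn D
  obtain ⟨N₄, h₄⟩ := AS_add hs hn S₁.n1 S₂.n1 (den_ne S) (den_ne S₁) (den_ne S₂) S.n1 R
  obtain ⟨r, hr⟩ := hLC (N₁ + N₂ + N₃ + N₄ + V π (X ^ 3 + b * Y ^ 3) + 1)
  have k : ∀ M : ℕ, M ≤ N₁ + N₂ + N₃ + N₄ + V π (X ^ 3 + b * Y ^ 3) + 1 →
      π ^ M ∣ r ^ 3 - b := fun M hM => (pow_dvd_pow π hM).trans hr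
  have l1 := (Lf_bound hs.prime hn hr (by omega) 1 (Or.inl rfl)).1
  have l2 := (Lf_bound hs.prime hn hr (by omega) 2 (Or.inr rfl)).1
  have g₁ := h₁ r (k _ (by omega))
  have g₂ := h₂ r (k _ (by omega))
  have g₃ := h₃ r (k _ (by omega))
  have g₄ := h₄ r (k _ (by omega))
  rw [TADD.LSym.right_mul hs l1 hx₁ hx₂, TADD.LSym.right_mul hs l2 hx₁ hx₂] at g₃
  rw [g₁, g₂, g₃, g₄]
  ring

end SAE

open _root_.Pool.Agent.PTK.SAE in
/-- PTK_SAE -/
theorem SAE_thm (hSTM : STM) (hSPP : SPP) (hLCI : Stmt_LCI)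
    (hIF4 : Stmt_IF4) (hF6R : Stmt_F6R) (hF7U : Stmt_F7U) (hSVF : Stmt_SVF) : Stmt_SAE := by
  intro b x₁ x₂ p₁ q₁ p₁' q₁' p₂ q₂ p₂' q₂' p q p' q' X Y hb hx₁ hx₂ S₁ S₂ S R hX hY hn D₁ D₂ D
  have hx : x₁ * x₂ ≠ 0 := mul_ne_zero hx₁ hx₂
  have hw0 : (w : Eis) ≠ 0 := by
    intro h
    have := w_cube
    rw [h] at this
    exact absurd this (by decide)
  have hloc : ∀ π : PP, SVE (tm π.1) b p (-p') (-q) q' X Y =
      SVE (tm π.1) b p₁ (-p₁') (-q₁) q₁' X Y + SVE (tm π.1) b p₂ (-p₂') (-q₂) q₂' X Y := by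
    intro π
    have hs : LSym π.1 (tm π.1) 1 := hSTM π.1 π.2.1 (hSPP.2.2.2.1 π).1
    by_cases h3 : 3 ∣ V π.1 b
    · by_cases hc : ch π.1 b = 0
      · exact loc_cube hIF4 hs hb hx₁ hx₂ S₁ S₂ S R hX hY hn D₁ D₂ D ((hLCI.1 π b hb).2 ⟨h3, hc⟩)
      · rw [hF7U π x₁ b p₁ (-p₁') (-q₁) q₁' X Y hx₁ hb (swap' S₁) hX hY D₁ h3 hc,
          hF7U π x₂ b p₂ (-p₂') (-q₂) q₂' X Y hx₂ hb (swap' S₂) hX hY D₂ h3 hc,
          hF7U π (x₁ * x₂) b p (-p') (-q) q' X Y hx hb (swap' S) hX hY D h3 hc, add_zero]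
    · have f₁ := hF6R π x₁ b p₁ (-p₁') (-q₁) q₁' X Y hx₁ hb (swap' S₁) hX hY D₁ h3
      have f₂ := hF6R π x₂ b p₂ (-p₂') (-q₂) q₂' X Y hx₂ hb (swap' S₂) hX hY D₂ h3
      have f₃ := hF6R π (x₁ * x₂) b p (-p') (-q) q' X Y hx hb (swap' S) hX hY D h3
      by_cases hV : 3 ∣ V π.1 (X ^ 3 + b * Y ^ 3)
      · rw [f₁.1 hV, f₂.1 hV, f₃.1 hV, add_zero]
      · rw [f₁.2 hV, f₂.2 hV, f₃.2 hV, TADD.LSym.right_mul hs hw0 hx₁ hx₂]
        ring
  obtain ⟨s₁, t₁⟩ := hSVF x₁ b p₁ (-p₁') (-q₁) q₁' X Y hx₁ hb (swap' S₁) hX hY hn D₁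
  obtain ⟨s₂, t₂⟩ := hSVF x₂ b p₂ (-p₂') (-q₂) q₂' X Y hx₂ hb (swap' S₂) hX hY hn D₂
  obtain ⟨s₃, t₃⟩ := hSVF (x₁ * x₂) b p (-p') (-q) q' X Y hx hb (swap' S) hX hY hn D
  have s₁₂ : (Function.support fun v : Pl => SVE (sy v) b p₁ (-p₁') (-q₁) q₁' X Y +
      SVE (sy v) b p₂ (-p₂') (-q₂) q₂' X Y).Finite :=
    (s₁.union s₂).subset (Function.support_add _ _)
  have t₁₂ : ∑ᶠ v : Pl, (SVE (sy v) b p₁ (-p₁') (-q₁) q₁' X Y +
      SVE (sy v) b p₂ (-p₂') (-q₂) q₂' X Y) = 0 := by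
    rw [finsum_add_distrib s₁ s₂, t₁, t₂, add_zero]
  have t : ∑ᶠ v : Pl, (SVE (sy v) b p (-p') (-q) q' X Y -
      (SVE (sy v) b p₁ (-p₁') (-q₁) q₁' X Y + SVE (sy v) b p₂ (-p₂') (-q₂) q₂' X Y)) = 0 := by
    rw [finsum_sub_distrib s₃ s₁₂, t₃, t₁₂, sub_zero]
  rw [finsum_eq_single _ (none : Pl)] at t
  · exact sub_eq_zero.1 t
  · intro v hv
    rcases v with _ | π
    · exact absurd rfl hv
    · exact sub_eq_zero.2 (hloc π)

end Pool.Agent.PTK


end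

section

/-!
# UPL: from upper bounds to a lower bound
-/

set_option autoImplicit false

open NumberField IsDedekindDomain Finset
open scoped nonZeroDivisors Pointwise

namespace Pool.Agent.PTK

open Pool.Agent.Lib_helper18 Pool.Agent.Lib_helper18.Eis Pool.Agent.Lib_helper84.Cub
open Pool.Agent.PT Pool.Agent.PTE Pool.Agent.PT3 Pool.Agent.PTL Pool.Agent.PTN

namespace UPL

open BDENS

theorem tf_nonneg (P : Prop) : 0 ≤ tf P := by
  unfold tf
  split_ifs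
  · exact zero_le_one
  · exact le_rfl

open Classical in
/-- one exponent, pointwise -/
theorem point (n : ℤ) (a M : ℕ) (W R : ℤ → Prop) (S : Set ℕ) (g : ℕ → ℝ) (c₀ : ℝ) (E : ℕ)
    (h1 : ∀ q : ℕ, q.Prime → M < q → q ∈ S → q % 3 = a ∧ W ((q : ℤ) ^ E))
    (h2 : ∀ q : ℕ, q.Prime → M < q → q ∈ S → c₀ - g q ≤ tf (R (n * (q : ℤ) ^ E)))
    {σ : ℝ} (hσ : 1 < σ) (q : ℕ) :
    c₀ * ind S σ q - (if q.Prime ∧ q ∈ S then g q * (q : ℝ) ^ (-σ) else 0) ≤
      (if q.Prime ∧ q % 3 = a ∧ W ((q : ℤ) ^ E) then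
        tf (R (n * (q : ℤ) ^ E)) * (q : ℝ) ^ (-σ) else 0) +
      (if q ≤ M then |c₀ - g q| else 0) := by
  have hA : 0 ≤ (if q.Prime ∧ q % 3 = a ∧ W ((q : ℤ) ^ E) then
      tf (R (n * (q : ℤ) ^ E)) * (q : ℝ) ^ (-σ) else 0) := by
    split_ifs
    · exact mul_nonneg (tf_nonneg _) (Real.rpow_nonneg (Nat.cast_nonneg q) _)
    · exact le_rfl
  have hC : 0 ≤ (if q ≤ M then |c₀ - g q| else 0) := by
    split_ifs
    · exact abs_nonneg _
    · exact le_rfl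
  by_cases hq : q.Prime ∧ q ∈ S
  · rw [if_pos hq, ind_mem hq.1 hq.2, ← sub_mul]
    have hp0 : 0 ≤ (q : ℝ) ^ (-σ) := Real.rpow_nonneg (Nat.cast_nonneg q) _
    by_cases hqM : q ≤ M
    · rw [if_pos hqM]
      have hp1 : (q : ℝ) ^ (-σ) ≤ 1 :=
        Real.rpow_le_one_of_one_le_of_nonpos (by exact_mod_cast hq.1.one_lt.le) (by linarith)
      have e1 : (c₀ - g q) * (q : ℝ) ^ (-σ) ≤ |c₀ - g q| * (q : ℝ) ^ (-σ) :=
        mul_le_mul_of_nonneg_right (le_abs_self _) hp0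
      have e2 : |c₀ - g q| * (q : ℝ) ^ (-σ) ≤ |c₀ - g q| * 1 :=
        mul_le_mul_of_nonneg_left hp1 (abs_nonneg _)
      linarith
    · rw [if_neg hqM, add_zero]
      rw [not_le] at hqM
      obtain ⟨e1, e2⟩ := h1 q hq.1 hqM hq.2
      rw [if_pos ⟨hq.1, e1, e2⟩]
      exact mul_le_mul_of_nonneg_right (h2 q hq.1 hqM hq.2) hp0
  · rw [if_neg hq, ind_not hq, mul_zero, sub_zero]
    exact add_nonneg hA hC

open Classical in
/-- one exponent -/
theorem one (n : ℤ) (a M : ℕ) (W R : ℤ → Prop) (S : Set ℕ) (g : ℕ → ℝ) (c₀ : ℝ) (E : ℕ)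
    (hc : 0 ≤ c₀)
    (h1 : ∀ q : ℕ, q.Prime → M < q → q ∈ S → q % 3 = a ∧ W ((q : ℤ) ^ E))
    (h2 : ∀ q : ℕ, q.Prime → M < q → q ∈ S → c₀ - g q ≤ tf (R (n * (q : ℤ) ^ E)))
    {σ : ℝ} (hσ : 1 < σ) (T : Finset ℕ) (hT : sm S σ - 1 ≤ ∑ q ∈ T, ind S σ q) :
    c₀ * (sm S σ - 1) - ∑ q ∈ T, (if q.Prime ∧ q ∈ S then g q * (q : ℝ) ^ (-σ) else 0) ≤
      ∑ q ∈ T, (if q.Prime ∧ q % 3 = a ∧ W ((q : ℤ) ^ E) then
        tf (R (n * (q : ℤ) ^ E)) * (q : ℝ) ^ (-σ) else 0) +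
      ∑ q ∈ Finset.range (M + 1), |c₀ - g q| := by
  have e1 := Finset.sum_le_sum fun q (_ : q ∈ T) => point n a M W R S g c₀ E h1 h2 hσ q
  rw [Finset.sum_sub_distrib, Finset.sum_add_distrib, ← Finset.mul_sum] at e1
  have e2 : ∑ q ∈ T, (if q ≤ M then |c₀ - g q| else 0) ≤
      ∑ q ∈ Finset.range (M + 1), |c₀ - g q| := by
    rw [← Finset.sum_filter]
    refine Finset.sum_le_sum_of_subset_of_nonneg ?_ fun q _ _ => abs_nonneg _
    intro q hq
    rw [Finset.mem_range]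
    have := (Finset.mem_filter.1 hq).2
    omega
  have e3 := mul_le_mul_of_nonneg_left hT hc
  linarith

end UPL

open _root_.Pool.Agent.PTK.UPL BDENS in
theorem UPL_thm : Stmt_UPL := by
  classical
  intro n a M W R S G x y c₀ hc h1 h2 hD hU
  obtain ⟨K0, hK0⟩ := hD
  obtain ⟨K1, hK1⟩ := hU
  refine ⟨c₀ * (K0 + 2) + K1 + ∑ q ∈ Finset.range (M + 1), |c₀ - G 1 q| +
    ∑ q ∈ Finset.range (M + 1), |c₀ - G 2 q|, fun σ hσ hσ2 => ?_⟩
  obtain ⟨T1, hT1⟩ := DOM.approx (S 1) hσ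
  obtain ⟨T2, hT2⟩ := DOM.approx (S 2) hσ
  refine ⟨T1 ∪ T2, ?_⟩
  have j1 : ∑ q ∈ T1, ind (S 1) σ q ≤ ∑ q ∈ T1 ∪ T2, ind (S 1) σ q :=
    Finset.sum_le_sum_of_subset_of_nonneg Finset.subset_union_left fun q _ _ =>
      ind_nonneg _ _ _
  have j2 : ∑ q ∈ T2, ind (S 2) σ q ≤ ∑ q ∈ T1 ∪ T2, ind (S 2) σ q :=
    Finset.sum_le_sum_of_subset_of_nonneg Finset.subset_union_right fun q _ _ =>
      ind_nonneg _ _ _
  have i1 := one n a M W R (S 1) (G 1) c₀ 1 hc (fun q => h1 1 q (Or.inl rfl))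
    (fun q => h2 1 q (Or.inl rfl)) hσ (T1 ∪ T2) (hT1.trans j1)
  have i2 := one n a M W R (S 2) (G 2) c₀ 2 hc (fun q => h1 2 q (Or.inr rfl))
    (fun q => h2 2 q (Or.inr rfl)) hσ (T1 ∪ T2) (hT2.trans j2)
  have e1 := hK1 σ hσ hσ2 (T1 ∪ T2)
  rw [Finset.sum_pair (by norm_num : (1 : ℕ) ≠ 2)] at e1
  have e2 := mul_le_mul_of_nonneg_left (hK0 σ hσ hσ2) hc
  unfold SumA
  rw [Finset.sum_pair (by norm_num : (1 : ℕ) ≠ 2)]
  have e3 : (c₀ * y - x) * Real.log (1 / (σ - 1)) =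
      c₀ * (y * Real.log (1 / (σ - 1))) - x * Real.log (1 / (σ - 1)) := by ring
  rw [e3]
  linarith

end Pool.Agent.PTK


end
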