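import Mathlib
import Pool.Agent.PTDM.C02
import Pool.Agent.PTDM.C09
import Pool.Agent.PTDM.C21
import Pool.Agent.PTDM.C24
import Pool.Agent.PTDM.C26
import Pool.Agent.PTDM.C27
import Pool.Agent.PTDM.C29
import Pool.Agent.PTDM.C30
import Pool.Agent.PTDM.C31
import Pool.Agent.PTKW.C01
import Pool.Agent.PTKW.C02
import Pool.Agent.PTKW.C04

/-! Parts: PTKX.AVE, PTKX.DX2, PTKX.F4E, PTKX.GTK, PTKX.GTU, PTKX.LCI, PTKX.GKK, PTKX.JKU, PTKX.MKU, PTKX.NGN, PTKX.NG2, PTKX.RAE, PTKX.THE, PTKX.TPE -/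

section

/-!
# AVE: the value `AVE` is attained
-/

set_option autoImplicit false

namespace Pool.Agent.PTK

open Pool.Agent.Lib_helper18 Pool.Agent.Lib_helper18.Eis Pool.Agent.Lib_helper84.Cub
open Pool.Agent.PT

namespace AVE

theorem pow_dvd_iff {π a : Eis} (hπ : Prime π) (ha : a ≠ 0) (k : ℕ) : π ^ k ∣ a ↔ k ≤ V π a :=
  (fin hπ ha).pow_dvd_iff_le_multiplicity

theorem pig {π a b c : Eis} (hπ : Prime π) {M : ℕ} (h : π ^ (3 * M) ∣ a * b * c) :
    π ^ M ∣ a ∨ π ^ M ∣ b ∨ π ^ M ∣ c := by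
  by_cases ha : a = 0
  · exact Or.inl (ha ▸ dvd_zero _)
  by_cases hb : b = 0
  · exact Or.inr (Or.inl (hb ▸ dvd_zero _))
  by_cases hc : c = 0
  · exact Or.inr (Or.inr (hc ▸ dvd_zero _))
  rw [pow_dvd_iff hπ (mul_ne_zero (mul_ne_zero ha hb) hc), V_mul hπ (mul_ne_zero ha hb) hc,
    V_mul hπ ha hb] at h
  rw [pow_dvd_iff hπ ha, pow_dvd_iff hπ hb, pow_dvd_iff hπ hc]
  omega

theorem close {π P Q : Eis} (hπ : Prime π) {N : ℕ} (h : π ^ N ∣ P - Q) (hQ : Q ≠ 0)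
    (hN : V π Q < N) : P ≠ 0 ∧ V π P ≤ V π Q := by
  have h1 : ¬ π ^ N ∣ P := by
    intro h2
    have h3 : π ^ N ∣ Q := by
      have h4 := dvd_sub h2 h
      rwa [sub_sub_cancel] at h4
    rw [pow_dvd_iff hπ hQ] at h3
    omega
  have hP : P ≠ 0 := by
    rintro rfl
    exact h1 (dvd_zero _)
  refine ⟨hP, ?_⟩
  rw [pow_dvd_iff hπ hP, not_le] at h1
  rw [← pow_dvd_iff hπ hQ]
  have h2 : π ^ V π P ∣ P := (pow_dvd_iff hπ hP _).mpr le_rfl
  have h3 : π ^ V π P ∣ P - Q := (pow_dvd_pow π h1.le).trans h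
  have h4 := dvd_sub h2 h3
  rwa [sub_sub_cancel] at h4

theorem prod_eq (p q r : Eis) :
    LfE p q 0 r * LfE p q 1 r * LfE p q 2 r = (p ^ 3 + q ^ 3 * r ^ 3) := by
  unfold LfE
  have h1 := w_rel
  have h2 := w_cube
  linear_combination (p ^ 2 * q * r + p * q ^ 2 * r ^ 2 * w) * h1 +
    ((q * r) ^ 3) * h2

theorem LfE_add_three (p q r : Eis) (j : ℕ) : LfE p q (j + 3) r = LfE p q j r := by
  unfold LfE
  rw [pow_add, w_cube, mul_one]

theorem prod_sub {π : Eis} {b r : Eis} {N : ℕ} (h : π ^ N ∣ r ^ 3 - b) (p q : Eis) :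
    π ^ N ∣ LfE p q 0 r * LfE p q 1 r * LfE p q 2 r - (p ^ 3 + b * q ^ 3) := by
  rw [prod_eq]
  have e : (p ^ 3 + q ^ 3 * r ^ 3) - (p ^ 3 + b * q ^ 3) =
      (r ^ 3 - b) * q ^ 3 := by
    ring
  rw [e]
  exact Dvd.dvd.mul_right h _

theorem lin {π : Eis} (hπ : Prime π) {b r : Eis} {N : ℕ} (h : π ^ N ∣ r ^ 3 - b)
    (p q : Eis) (h0 : (p ^ 3 + b * q ^ 3) ≠ 0)
    (hN : V π (p ^ 3 + b * q ^ 3) < N) :
    ∀ j < 3, LfE p q j r ≠ 0 ∧ V π (LfE p q j r) ≤ V π (p ^ 3 + b * q ^ 3) := by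
  obtain ⟨h1, h2⟩ := close hπ (prod_sub h p q) h0 hN
  have h3 := mul_ne_zero_iff.mp h1
  have h4 := mul_ne_zero_iff.mp h3.1
  rw [V_mul hπ h3.1 h3.2, V_mul hπ h4.1 h4.2] at h2
  intro j hj
  interval_cases j
  · exact ⟨h4.1, by omega⟩
  · exact ⟨h4.2, by omega⟩
  · exact ⟨h3.2, by omega⟩

section

variable {π : Eis} {s : Eis → Eis → ZMod 3} {e : ℕ}

theorem cont' (hs : LSym π s e) {a a' B : Eis} (hB : B ≠ 0) (ha : a ≠ 0) (ha' : a' ≠ 0)
    (h : π ^ (V π a + e) ∣ a' - a) : s B a' = s B a := by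
  rw [hs.skew a' B ha' hB, hs.skew a B ha hB, hs.cont a a' B ha hB h]

theorem mul' (hs : LSym π s e) {a c B : Eis} (hB : B ≠ 0) (ha : a ≠ 0) (hc : c ≠ 0) :
    s B (a * c) = s B a + s B c := by
  rw [hs.skew (a * c) B (mul_ne_zero ha hc) hB, hs.skew a B ha hB, hs.skew c B hc hB,
    hs.mul a c B ha hc hB]
  ring

theorem sum_eq (hs : LSym π s e) {B : Eis} (hB : B ≠ 0) {b r : Eis} {N : ℕ}
    (h : π ^ N ∣ r ^ 3 - b) (p q : Eis) (h0 : (p ^ 3 + b * q ^ 3) ≠ 0)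
    (hN : V π (p ^ 3 + b * q ^ 3) + e < N) :
    s B (LfE p q 0 r) + s B (LfE p q 1 r) + s B (LfE p q 2 r) =
      s B (p ^ 3 + b * q ^ 3) := by
  have h1 := lin hs.prime h p q h0 (by omega)
  have n0 := (h1 0 (by norm_num)).1
  have n1 := (h1 1 (by norm_num)).1
  have n2 := (h1 2 (by norm_num)).1
  rw [← mul' hs hB n0 n1, ← mul' hs hB (mul_ne_zero n0 n1) n2]
  exact cont' hs hB h0 (mul_ne_zero (mul_ne_zero n0 n1) n2)
    ((pow_dvd_pow π hN.le).trans (prod_sub h p q))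

theorem shift (hs : LSym π s e) {B : Eis} (hB : B ≠ 0) {r r' : Eis} {M : ℕ} {i j k : ℕ}
    (h : π ^ M ∣ r' - w ^ i * r) (p q : Eis) (hk : LfE p q (j + i) r = LfE p q k r)
    (hne : LfE p q k r ≠ 0) (hne' : LfE p q j r' ≠ 0) (hM : V π (LfE p q k r) + e ≤ M) :
    s B (LfE p q j r') = s B (LfE p q k r) := by
  refine cont' hs hB hne hne' ((pow_dvd_pow π hM).trans ?_)
  rw [← hk]
  have e1 : LfE p q j r' - LfE p q (j + i) r = (r' - w ^ i * r) * (q * w ^ j) := by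
    unfold LfE
    rw [pow_add]
    ring
  rw [e1]
  exact Dvd.dvd.mul_right h _

end


/-- the symbol at a place is a symbol at its uniformizer -/
theorem lsym (hSTM : STM) (hSPP : SPP) (hSLC : SLC) (v : Pl) : ∃ e, LSym (uni v) (sy v) e := by
  cases v with
  | none => exact ⟨4, hSLC⟩
  | some π => exact ⟨1, hSTM π.1 π.2.1 (hSPP.2.2.2.1 π).1⟩

/-- independence of the cube root -/
theorem root (π : Eis) (s : Eis → Eis → ZMod 3) (e : ℕ) (hs : LSym π s e)
    (b x p q p' q' B : Eis) (hx : x ≠ 0) (hW : SolWE b x p q p' q') (hB : B ≠ 0)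
    (hBx : s B x = 0) :
    ∃ N0 : ℕ, ∀ r r' : Eis, π ^ N0 ∣ r ^ 3 - b → π ^ N0 ∣ r' ^ 3 - b →
      ASE s B p q p' q' r = ASE s B p q p' q' r' := by
  have n1 : p ^ 3 + b * q ^ 3 ≠ 0 := hW.n1
  have n2 : p' ^ 3 + b * q' ^ 3 ≠ 0 := by
    intro h
    apply n1
    rw [hW.eq, h, mul_zero]
  set v1 := V π (p ^ 3 + b * q ^ 3) with hv1
  set v2 := V π (p' ^ 3 + b * q' ^ 3) with hv2
  set M := v1 + v2 + e + 1 with hM
  refine ⟨3 * M, fun r r' hr hr' => ?_⟩
  have L := lin hs.prime hr p q n1 (by omega)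
  have L' := lin hs.prime hr p' q' n2 (by omega)
  have K := lin hs.prime hr' p q n1 (by omega)
  have K' := lin hs.prime hr' p' q' n2 (by omega)
  have hS := sum_eq hs hB hr p q n1 (by omega)
  have hS' := sum_eq hs hB hr p' q' n2 (by omega)
  have hprod : s B (p ^ 3 + b * q ^ 3) = s B (p' ^ 3 + b * q' ^ 3) := by
    have h1 : (p ^ 3 + b * q ^ 3) = x * (p' ^ 3 + b * q' ^ 3) := by
      rw [hW.eq]
    rw [h1, mul' hs hB hx n2, hBx, zero_add]
  rw [hprod, ← hS'] at hS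
  have h3 : (3 : ZMod 3) = 0 := by decide
  have hdiv : π ^ (3 * M) ∣ (r' - w ^ 0 * r) * (r' - w ^ 1 * r) *
      (r' - w ^ 2 * r) := by
    have e1 : (r' - w ^ 0 * r) * (r' - w ^ 1 * r) * (r' - w ^ 2 * r) =
        (r' ^ 3 - b) - (r ^ 3 - b) := by
      have h1 := w_rel
      have h2 := w_cube
      linear_combination (-(r' ^ 2) * r + r' * r ^ 2 * w) * h1 -
        (r ^ 3) * h2
    rw [e1]
    exact dvd_sub hr' hr
  have b0 := (L 0 (by norm_num)).2
  have b1 := (L 1 (by norm_num)).2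
  have b2 := (L 2 (by norm_num)).2
  have c0 := (L' 0 (by norm_num)).2
  have c1 := (L' 1 (by norm_num)).2
  have c2 := (L' 2 (by norm_num)).2
  rcases pig hs.prime hdiv with h | h | h
  · have e1 := shift hs hB h p q (j := 2) (k := 2) rfl (L 2 (by norm_num)).1
      (K 2 (by norm_num)).1 (by omega)
    have e2 := shift hs hB h p' q' (j := 1) (k := 1) rfl (L' 1 (by norm_num)).1
      (K' 1 (by norm_num)).1 (by omega)
    have e3 := shift hs hB h p q (j := 1) (k := 1) rfl (L 1 (by norm_num)).1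
      (K 1 (by norm_num)).1 (by omega)
    have e4 := shift hs hB h p' q' (j := 2) (k := 2) rfl (L' 2 (by norm_num)).1
      (K' 2 (by norm_num)).1 (by omega)
    unfold ASE
    rw [e1, e2, e3, e4]
  · have e1 := shift hs hB h p q (j := 2) (k := 0) (LfE_add_three p q r 0)
      (L 0 (by norm_num)).1 (K 2 (by norm_num)).1 (by omega)
    have e2 := shift hs hB h p' q' (j := 1) (k := 2) rfl (L' 2 (by norm_num)).1
      (K' 1 (by norm_num)).1 (by omega)
    have e3 := shift hs hB h p q (j := 1) (k := 2) rfl (L 2 (by norm_num)).1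
      (K 1 (by norm_num)).1 (by omega)
    have e4 := shift hs hB h p' q' (j := 2) (k := 0) (LfE_add_three p' q' r 0)
      (L' 0 (by norm_num)).1 (K' 2 (by norm_num)).1 (by omega)
    unfold ASE
    rw [e1, e2, e3, e4]
    linear_combination (-1 : ZMod 3) * hS + (s B (LfE p q 2 r) - s B (LfE p' q' 2 r)) * h3
  · have e1 := shift hs hB h p q (j := 2) (k := 1) (LfE_add_three p q r 1)
      (L 1 (by norm_num)).1 (K 2 (by norm_num)).1 (by omega)
    have e2 := shift hs hB h p' q' (j := 1) (k := 0) (LfE_add_three p' q' r 0)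
      (L' 0 (by norm_num)).1 (K' 1 (by norm_num)).1 (by omega)
    have e3 := shift hs hB h p q (j := 1) (k := 0) (LfE_add_three p q r 0)
      (L 0 (by norm_num)).1 (K 1 (by norm_num)).1 (by omega)
    have e4 := shift hs hB h p' q' (j := 2) (k := 1) (LfE_add_three p' q' r 1)
      (L' 1 (by norm_num)).1 (K' 2 (by norm_num)).1 (by omega)
    unfold ASE
    rw [e1, e2, e3, e4]
    linear_combination hS + (s B (LfE p' q' 1 r) - s B (LfE p q 1 r)) * h3


end AVE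

theorem AVE_thm (hSTM : STM) (hSPP : SPP) (hSLC : SLC) : Stmt_AVE := by
  intro v B b x p q p' q' hB hb hx hsol hs hlc
  obtain ⟨e, he⟩ := AVE.lsym hSTM hSPP hSLC v
  obtain ⟨N0, hN0⟩ := AVE.root (uni v) (sy v) e he b x p q p' q' B hx hsol hB hs
  obtain ⟨r0, hr0⟩ := hlc N0
  have h : ∃ c : ZMod 3, ∃ N0 : ℕ, ∀ r : Eis, uni v ^ N0 ∣ r ^ 3 - b →
      ASE (sy v) B p q p' q' r = c :=
    ⟨ASE (sy v) B p q p' q' r0, N0, fun r hr => hN0 r r0 hr hr0⟩
  have hav : AVE v B b p q p' q' = h.choose := by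
    unfold AVE
    rw [dif_pos h]
  have h1 : ∃ N0 : ℕ, ∀ r : Eis, uni v ^ N0 ∣ r ^ 3 - b →
      ASE (sy v) B p q p' q' r = AVE v B b p q p' q' := by
    rw [hav]
    exact h.choose_spec
  refine ⟨h1, fun c N hN => ?_⟩
  obtain ⟨M, hM⟩ := h1
  obtain ⟨r, hr⟩ := hlc (max M N)
  rw [← hM r ((pow_dvd_pow _ (le_max_left M N)).trans hr),
    hN r ((pow_dvd_pow _ (le_max_right M N)).trans hr)]

end Pool.Agent.PTK


end

section

/-!
# PTK_DX2: the local term of a good point at the place above `3` (helper91)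
-/

set_option autoImplicit false

namespace Pool.Agent.PTK

open Pool.Agent.Lib_helper18 Pool.Agent.Lib_helper18.Eis Pool.Agent.Lib_helper84.Cub
open Pool.Agent.PT

namespace DX2

lemma B_ne {N : ℕ} {b x p q p' q' : Eis} (HX : HypX N b x p q p' q') {E Q : ℕ} {X Y : Eis}
    (HP : HypP N b x p q p' q' E Q X Y) : (N : Eis) * (Q : Eis) ^ E ≠ 0 := by
  have h1 : (N : Eis) ≠ 0 := by
    have h2 : ((N : ℤ) : Eis) ≠ 0 := DCONST.cast_ne (by have := HX.N0; omega)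
    rwa [Int.cast_natCast] at h2
  have h3 : (Q : Eis) ≠ 0 := by
    have h2 : ((Q : ℤ) : Eis) ≠ 0 := DCONST.cast_ne (by have := HP.hQ.pos; omega)
    rwa [Int.cast_natCast] at h2
  exact mul_ne_zero h1 (pow_ne_zero _ h3)

lemma n0_ne {N : ℕ} {b x p q p' q' : Eis} (HX : HypX N b x p q p' q') {E Q : ℕ} {X Y : Eis}
    (HP : HypP N b x p q p' q' E Q X Y) : X ^ 3 + x * Y ^ 3 ≠ 0 := by
  obtain ⟨c, hc, h⟩ := HP.pt.eq
  intro h0
  rw [h0, mul_zero] at h
  exact mul_ne_zero (B_ne HX HP) (pow_ne_zero _ hc) h.symm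

/-- the product formula when all tame symbols vanish -/
lemma sl_zero (hSSL : SSL) {b B : Eis} (hb : b ≠ 0) (hB : B ≠ 0)
    (h : ∀ σ : PP, tm σ.1 b B = 0) : sl b B = 0 := by
  have hE := (hSSL.2.2.2 b B hb hB).2
  have h0 : ∀ v : Pl, v ≠ none → sy v b B = 0 := by
    intro v hv
    match v, hv with
    | none, hv => exact absurd rfl hv
    | some π, _ => exact h π
  rw [finsum_eq_single _ none h0] at hE
  exact hE

end DX2

open DPA in
/-- PTK_DX2. -/
theorem DX2_thm (hSLC : SLC) (hSSL : SSL) (hLCI : Stmt_LCI) (hIF4 : Stmt_IF4) : Stmt_DX2 := by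
  intro N b x p q p' q' HX f hf h9
  have hs : LSym lam sl 4 := hSLC
  have hlamf : lam ^ 4 ∣ (f : Eis) := by
    have h1 : ((9 : ℤ) : Eis) ∣ ((f : ℤ) : Eis) :=
      intCast_dvd_intCast.2 (by exact_mod_cast h9)
    rw [Int.cast_natCast] at h1
    refine Dvd.dvd.trans ⟨w ^ 4, ?_⟩ h1
    have h2 : ((9 : ℤ) : Eis) = (3 : Eis) ^ 2 := by norm_num
    rw [h2, three_eq]
    ring
  have hN : (N : Eis) ≠ 0 := by
    have h2 : ((N : ℤ) : Eis) ≠ 0 := DCONST.cast_ne (by have := HX.N0; omega)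
    rwa [Int.cast_natCast] at h2
  obtain ⟨C, Φ, H⟩ := place_LC hs hN HX.sol.n1 (SolE_n1' HX.sol) HX.lx hf hlamf
  refine ⟨C, Φ, ?_⟩
  intro E Q hQ X Y HP hG
  have hB := DX2.B_ne HX HP
  have hn0 := DX2.n0_ne HX HP
  obtain ⟨c, hc, hE⟩ := HP.pt.eq
  have hcast : (((N : ℤ) * (Q : ℤ) ^ E : ℤ) : Eis) = (N : Eis) * (Q : Eis) ^ E := by
    push_cast
    rfl
  have hsb : sl b (N * (Q : Eis) ^ E) = 0 := DX2.sl_zero hSSL HX.hb hB HP.sb
  obtain ⟨N1, H1⟩ := exists_ne hs.prime (b := x) HX.sol.n1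
  obtain ⟨N2, H2⟩ := exists_ne hs.prime (b := x) (SolE_n1' HX.sol)
  obtain ⟨N3, H3⟩ := hG b HX.hb HX.nb HX.cb (by rw [hcast]; exact hsb)
  obtain ⟨N4, H4⟩ := hIF4 lam sl 4 hs b x p (-p') (-q) q' X Y HX.hb HX.hx
    (SolE_flip HX.sol) HP.pt.hX HP.pt.hY hn0 HP.dn
  have hx0 : ∀ a : Eis, a ≠ 0 → sl x a = 0 := fun a ha =>
    hLCI.2.2 lam sl 4 x a hs HX.lx HX.hx ha
  have hrel : ∀ a : Eis, a ≠ 0 →
      sl (X ^ 3 + x * Y ^ 3) a = sl ((N : Eis) * (Q : Eis) ^ E) a := by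
    intro a ha
    have h1 := s_rel hs HX.hx hn0 hB hc ha hE
    rw [hx0 a ha, zero_add] at h1
    exact h1
  refine H E Q hQ _ (N1 + N2 + N3 + N4) fun ξ hξ => ?_
  have g1 := H1 ξ ((pow_dvd_pow _ (by omega)).trans hξ)
  have g2 := H2 ξ ((pow_dvd_pow _ (by omega)).trans hξ)
  have g3 := H3 ξ ((pow_dvd_pow _ (by omega)).trans hξ)
  have g4 := H4 ξ ((pow_dvd_pow _ (by omega)).trans hξ)
  rw [g4, neg_neg, neg_neg, g3]
  unfold ASE
  rw [hrel _ (g1 2), hrel _ (g2 1), hrel _ (g1 1), hrel _ (g2 2)]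
  ring

end Pool.Agent.PTK


end

section

/-!
# F4E: two noncubes at a place not dividing `B` (Eisenstein case)
-/

set_option autoImplicit false

namespace Pool.Agent.PTK

open Pool.Agent.Lib_helper18 Pool.Agent.Lib_helper18.Eis Pool.Agent.Lib_helper84.Cub
open Pool.Agent.PT Pool.Agent.PTE Pool.Agent.PT3 Pool.Agent.PTL Pool.Agent.PTN

theorem F4E_thm : Stmt_F4E := by
  intro π B b x p q p' q' hB hAb hAx hS hπB hcb hcx
  have hl : Prime π.1 := π.2.1
  have h3 : ¬ π.1 ∣ 3 := by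
    intro h
    have h1 := (dvd_three_iff hl).1 h
    have h2 : lam ∣ π.1 := h1.symm.dvd
    rw [lam_dvd_iff] at h2
    have h4 := π.2.2.1
    have h5 := π.2.2.2
    omega
  have hb : ¬ π.1 ∣ b := hAb.unr π hπB
  have hx : ¬ π.1 ∣ x := hAx.unr π hπB
  rw [PT.F3U.ch_eq hb] at hcb
  rw [PT.F3U.ch_eq hx] at hcx
  have hw : ¬ π.1 ∣ w := not_dvd_of_isUnit hl isUnit_w
  -- the maximal power
  have hpq : ¬ (p = 0 ∧ q = 0) := by
    rintro ⟨h1, h2⟩
    apply hS.n1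
    rw [h1, h2]
    ring
  obtain ⟨m, P, Q, P', Q', eP, eQ, eP', eQ', hn⟩ :=
    PT.F3U.exists_max (p' := p') (q' := q') hl hpq
  have heq : p ^ 3 + b * q ^ 3 = x * (p' ^ 3 + b * q' ^ 3) := hS.eq
  have heq2 : P ^ 3 + b * Q ^ 3 = x * (P' ^ 3 + b * Q' ^ 3) := by
    have h0 : (π.1 ^ m) ^ 3 ≠ 0 := pow_ne_zero _ (pow_ne_zero _ hl.ne_zero)
    apply mul_left_cancel₀ h0
    rw [eP, eQ, eP', eQ'] at heq
    linear_combination heq
  have hV : ∀ i, V π.1 (GfE p q p' q' i) = m + m := by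
    intro i
    have e1 : GfE p q p' q' i = π.1 ^ (m + m) * (Q * P' - w ^ i * P * Q') := by
      unfold GfE
      rw [eP, eQ, eP', eQ', pow_add]
      ring
    rw [e1]
    exact V_pow_mul hl _ (PT.F3U.key hl h3 hb hcb hx hcx heq2 hn i)
  have hVB : V π.1 B = 0 := V_eq_zero hπB
  have hVw : V π.1 w = 0 := V_eq_zero hw
  have hVP : V π.1 (B * x * b) = 0 := by
    apply V_eq_zero
    intro h
    rcases hl.dvd_or_dvd h with h1 | h1
    · rcases hl.dvd_or_dvd h1 with h2 | h2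
      · exact hπB h2
      · exact hx h2
    · exact hb h1
  unfold UVE tm
  rw [hV 1, hV 2, hVB, hVw, hVP]
  simp

end Pool.Agent.PTK


end

section

/-!
# GTK: existence, uniqueness and properties of `t`
-/

set_option autoImplicit false
set_option linter.unusedSectionVars false

open NumberField IsDedekindDomain Finset
open scoped nonZeroDivisors Pointwise

namespace Pool.Agent.PTK

open Pool.Agent.Lib_helper18 Pool.Agent.Lib_helper18.Eis Pool.Agent.Lib_helper84.Cub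
open Pool.Agent.PT Pool.Agent.PTL

namespace GTK

open Pool.Agent.PT.GT (E E_pow E_add E_zero E_inj of_cube map_ω cube_one ω_ne_zero E_ne_zero map_E')

variable {L : Type} [Field L] [NumberField L] {ι : Eis →+* L}

theorem rel (ι : Eis →+* L) : ι w ^ 2 + ι w + 1 = 0 := by
  rw [← map_pow, ← map_add, ← map_one ι, ← map_add, w_rel, map_zero]

theorem ι_eq (ι : Eis →+* L) (a : Eis) : ι a = (a.re : L) + (a.im : L) * ι w := by
  conv_lhs => rw [eq_re_add_im a]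
  rw [map_add, map_mul, map_intCast, map_intCast]

/-- An automorphism which fixes `ω` fixes the image of `Z[w]`. -/
theorem fix_ι {h : L ≃ₐ[ℚ] L} (hh : h (ι w) = ι w) (a : Eis) : h (ι a) = ι a := by
  rw [ι_eq ι a, map_add, map_mul, map_intCast, map_intCast, hh]

theorem map_aD {h : L ≃ₐ[ℚ] L} (hh : h (ι w) = ι w) (p q p' q' : Eis) (ρ : L) :
    h (aDE ι p q p' q' ρ) = aDE ι p q p' q' (h ρ) := by
  unfold aDE
  simp only [map_mul, map_add, map_pow, fix_ι hh]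

theorem map_aN {h : L ≃ₐ[ℚ] L} (hh : h (ι w) = ι w) (p q p' q' : Eis) (ρ : L) :
    h (aNE ι p q p' q' ρ) = aNE ι p q p' q' (h ρ) := by
  unfold aNE
  simp only [map_mul, map_add, map_pow, fix_ι hh]

theorem nrm (ι : Eis →+* L) {ρ : L} {x : Eis} (p q : Eis) (hρ : ρ ^ 3 = ι x) :
    (ι p + ι q * ρ) * ((ι p + ι q * ι w * ρ) * (ι p + ι q * ι w ^ 2 * ρ)) =
      ι (p ^ 3 + x * q ^ 3) := by
  rw [map_add, map_mul, map_pow, map_pow, ← hρ]
  linear_combination ((ι p) ^ 2 * ι q * ρ + ι p * (ι q) ^ 2 * ρ ^ 2 * ι w +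
    (ι q) ^ 3 * ρ ^ 3 * (ι w - 1)) * rel ι

/-- The step from `ρ` to `ω ρ`. -/
theorem step {h : L ≃ₐ[ℚ] L} (hh : h (ι w) = ι w) {x b p q p' q' : Eis}
    (hsol : SolE x b p q p' q') (hb : ∀ θ : L, θ ^ 3 = ι b → h θ = θ) {ρ A A' c : L}
    (hρ : ρ ^ 3 = ι x) (hhρ : h ρ = ρ)
    (hD : aDE ι p q p' q' ρ ≠ 0) (hN : aNE ι p q p' q' ρ ≠ 0)
    (hD' : aDE ι p q p' q' (ι w * ρ) ≠ 0)
    (hA : A ^ 3 * aDE ι p q p' q' ρ = aNE ι p q p' q' ρ)
    (hA' : A' ^ 3 * aDE ι p q p' q' (ι w * ρ) = aNE ι p q p' q' (ι w * ρ))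
    (hc : h A = c * A) : h A' = c * A' := by
  have r := rel ι
  have h3 := cube_one r
  have e1 : ι q * ι w ^ 2 * (ι w * ρ) = ι q * ρ := by linear_combination (ι q * ρ) * h3
  have e2 : ι q' * ι w ^ 2 * (ι w * ρ) = ι q' * ρ := by linear_combination (ι q' * ρ) * h3
  have e3 : ι q * ι w * (ι w * ρ) = ι q * ι w ^ 2 * ρ := by ring
  have e4 : ι q' * ι w * (ι w * ρ) = ι q' * ι w ^ 2 * ρ := by ring
  have hn := nrm ι p q hρ
  have hn' := nrm ι p' q' hρ
  have heq : ι (p ^ 3 + x * q ^ 3) = ι b * ι (p' ^ 3 + x * q' ^ 3) := by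
    rw [hsol.eq, map_mul]
  unfold aDE at hD hD' hA hA'
  unfold aNE at hN hA hA'
  rw [e2, e3] at hD'
  rw [e1, e2, e3, e4] at hA'
  rw [← hn, ← hn'] at heq
  obtain ⟨d1, d2'⟩ := mul_ne_zero_iff.1 hD
  obtain ⟨d2, d1'⟩ := mul_ne_zero_iff.1 hN
  obtain ⟨-, d0'⟩ := mul_ne_zero_iff.1 hD'
  have hA0 : A ≠ 0 := by
    rintro rfl
    apply hN
    rw [← hA]
    ring
  have hθ : (A' * (ι p + ι q * ι w ^ 2 * ρ) / (A * (ι p' + ι q' * ι w ^ 2 * ρ))) ^ 3 = ι b := by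
    rw [div_pow, div_eq_iff (pow_ne_zero _ (mul_ne_zero hA0 d2')), mul_pow, mul_pow]
    apply mul_right_cancel₀ (mul_ne_zero d1 d0')
    generalize ι p + ι q * ρ = l0 at *
    generalize ι p' + ι q' * ρ = l0' at *
    generalize ι p + ι q * ι w * ρ = l1 at *
    generalize ι p' + ι q' * ι w * ρ = l1' at *
    generalize ι p + ι q * ι w ^ 2 * ρ = l2 at *
    generalize ι p' + ι q' * ι w ^ 2 * ρ = l2' at *
    linear_combination (l2 ^ 2 * l1) * hA' + (l2 * l2') * heq - (ι b * l2' ^ 2 * l0') * hA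
  have hfix := hb _ hθ
  simp only [map_div₀, map_mul, map_add, map_pow, fix_ι hh, hhρ, hc] at hfix
  have hc0 : c ≠ 0 := by
    rintro rfl
    rw [zero_mul] at hc
    exact hA0 ((map_eq_zero_iff h h.injective).1 hc)
  rw [div_eq_div_iff (mul_ne_zero (mul_ne_zero hc0 hA0) d2') (mul_ne_zero hA0 d2')] at hfix
  apply mul_right_cancel₀ (mul_ne_zero d2 (mul_ne_zero hA0 d2'))
  linear_combination hfix

/-- The square of an automorphism which inverts `ω`. -/
theorem sq_ω {g : L ≃ₐ[ℚ] L} (hg : g (ι w) = ι w ^ 2) : (g * g) (ι w) = ι w := by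
  have h3 := cube_one (rel ι)
  change g (g (ι w)) = ι w
  rw [hg, map_pow, hg]
  linear_combination (ι w) * h3

end GTK

open _root_.Pool.Agent.PTK.GTK in
open Pool.Agent.PT.GT (E E_pow E_add E_zero E_inj of_cube map_ω cube_one ω_ne_zero E_ne_zero
  map_E') in
/-- GTK: existence, uniqueness and properties of `t`. -/
theorem GTK_thm : Stmt_GTK := by
  intro s x b p q p' q' f L _ _ ζ ι hS hG j
  have r := rel ι
  have h3 := cube_one r
  have hA0 : ∀ (ρ A : L), ρ ^ 3 = ι x →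
      A ^ 3 * aDE ι (p j) (q j) (p' j) (q' j) ρ = aNE ι (p j) (q j) (p' j) (q' j) ρ → A ≠ 0 := by
    rintro ρ A hρ hA rfl
    apply (hG.D j ρ hρ).2
    rw [← hA]
    ring
  -- one witness is enough
  have all : ∀ (h : L ≃ₐ[ℚ] L) (t : ZMod 3) (ρ₀ A₀ : L), h (ι w) = ι w →
      (∀ ρ : L, ρ ^ 3 = ι x → h ρ = ρ) → (∀ θ : L, θ ^ 3 = ι (b j) → h θ = θ) →
      ρ₀ ^ 3 = ι x →
      A₀ ^ 3 * aDE ι (p j) (q j) (p' j) (q' j) ρ₀ = aNE ι (p j) (q j) (p' j) (q' j) ρ₀ →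
      h A₀ = E (ι w) t * A₀ → ∀ ρ A : L, ρ ^ 3 = ι x →
      A ^ 3 * aDE ι (p j) (q j) (p' j) (q' j) ρ = aNE ι (p j) (q j) (p' j) (q' j) ρ →
      h A = E (ι w) t * A := by
    intro h t ρ₀ A₀ hh hx hb hρ₀ hA₀ ht
    have hpow : ∀ n : ℕ, (ι w ^ n * ρ₀) ^ 3 = ι x := by
      intro n
      rw [mul_pow, hρ₀, ← pow_mul, mul_comm n 3, pow_mul, h3, one_pow, one_mul]
    have key : ∀ n : ℕ, ∀ A : L,
        A ^ 3 * aDE ι (p j) (q j) (p' j) (q' j) (ι w ^ n * ρ₀) =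
          aNE ι (p j) (q j) (p' j) (q' j) (ι w ^ n * ρ₀) → h A = E (ι w) t * A := by
      intro n
      induction n with
      | zero =>
        intro A hA
        rw [pow_zero, one_mul] at hA
        have hD := (hG.D j ρ₀ hρ₀).1
        have e2 : A ^ 3 = A₀ ^ 3 := mul_right_cancel₀ hD (hA.trans hA₀.symm)
        obtain ⟨k, hk⟩ := of_cube r e2
        rw [hk, map_mul, map_E' hh, ht]
        ring
      | succ n ih =>
        intro A' hA'
        obtain ⟨A, hA⟩ := hG.A j _ (hpow n)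
        have e1 : ι w ^ (n + 1) * ρ₀ = ι w * (ι w ^ n * ρ₀) := by rw [pow_succ]; ring
        have hD' := (hG.D j _ (hpow (n + 1))).1
        rw [e1] at hA' hD'
        exact step hh (hS.sol j) hb (hpow n) (hx _ (hpow n)) (hG.D j _ (hpow n)).1
          (hG.D j _ (hpow n)).2 hD' hA hA' (ih A hA)
    intro ρ A hρ hA
    obtain ⟨k, hk⟩ := of_cube r (hρ.trans hρ₀.symm)
    rw [hk] at hA
    exact key k.val A hA
  obtain ⟨ρ₀, hρ₀⟩ := hG.rx
  obtain ⟨A₀, hA₀⟩ := hG.A j ρ₀ hρ₀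
  have hA₀0 := hA0 ρ₀ A₀ hρ₀ hA₀
  -- conjugation by an automorphism which fixes `ω`
  have conjA : ∀ (g τ : L ≃ₐ[ℚ] L) (t : ZMod 3), τ (ι w) = ι w → FxK x b ι g →
      IsTK x p q p' q' ι g j t →
      FxK x b ι (τ * g * τ⁻¹) ∧ IsTK x p q p' q' ι (τ * g * τ⁻¹) j t := by
    intro g τ t hτ hF hT
    have hτ' : τ⁻¹ (ι w) = ι w := by
      have h5 : τ⁻¹ (τ (ι w)) = ι w := τ.symm_apply_apply _
      rwa [hτ] at h5
    have hττ : ∀ y : L, τ (τ⁻¹ y) = y := fun y => τ.apply_symm_apply y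
    have hτt : ∀ y : L, τ⁻¹ (τ y) = y := fun y => τ.symm_apply_apply y
    have c1 : ∀ y : L, (τ * g * τ⁻¹) ((τ * g * τ⁻¹) y) = τ (g (g (τ⁻¹ y))) := by
      intro y
      change τ (g (τ⁻¹ (τ (g (τ⁻¹ y))))) = _
      rw [hτt]
    refine ⟨⟨?_, ?_⟩, ?_⟩
    · intro ρ hρ
      rw [c1, hF.1 (τ⁻¹ ρ) (by rw [← map_pow, hρ, fix_ι hτ']), hττ]
    · intro i ρ hρ
      rw [c1, hF.2 i (τ⁻¹ ρ) (by rw [← map_pow, hρ, fix_ι hτ']), hττ]
    · intro ρ A hρ hA
      have e1 := congrArg (τ⁻¹ : L ≃ₐ[ℚ] L) hA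
      rw [map_mul, map_pow, map_aD hτ', map_aN hτ'] at e1
      rw [c1, hT (τ⁻¹ ρ) (τ⁻¹ A) (by rw [← map_pow, hρ, fix_ι hτ']) e1, map_mul, map_pow, hτ, hττ]
  refine ⟨?_, ?_, ?_⟩
  · intro g hg hF
    have hh : (g * g) (ι w) = ι w := sq_ω hg
    have e1 := congrArg (g * g : L ≃ₐ[ℚ] L) hA₀
    rw [map_mul, map_pow, map_aD hh, map_aN hh] at e1
    have e0 : (g * g) ρ₀ = ρ₀ := hF.1 ρ₀ hρ₀
    rw [e0] at e1
    have e2 : ((g * g) A₀) ^ 3 = A₀ ^ 3 :=
      mul_right_cancel₀ (hG.D j ρ₀ hρ₀).1 (e1.trans hA₀.symm)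
    obtain ⟨t, ht⟩ := of_cube r e2
    refine ⟨t, ?_, ?_⟩
    · intro ρ A hρ hA
      exact all (g * g) t ρ₀ A₀ hh hF.1 (hF.2 j) hρ₀ hA₀ ht ρ A hρ hA
    · intro t' ht'
      have h5 : (g * g) A₀ = E (ι w) t' * A₀ := ht' ρ₀ A₀ hρ₀ hA₀
      rw [ht] at h5
      exact (E_inj r (mul_right_cancel₀ hA₀0 h5)).symm
  · intro g τ t hg hF hT
    rcases map_ω r τ with hτ | hτ
    · exact conjA g τ t hτ hF hT
    · have hgi : g⁻¹ (ι w) = ι w ^ 2 := by
        have h5 : g⁻¹ (g (ι w ^ 2)) = ι w ^ 2 := g.symm_apply_apply _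
        have h6 : g (ι w ^ 2) = ι w := by
          rw [map_pow, hg]
          linear_combination (ι w) * h3
        rwa [h6] at h5
      have hτ' : (τ * g⁻¹) (ι w) = ι w := by
        change τ (g⁻¹ (ι w)) = ι w
        rw [hgi, map_pow, hτ]
        linear_combination (ι w) * h3
      have h7 := conjA g (τ * g⁻¹) t hτ' hF hT
      have h8 : (τ * g⁻¹) * g * (τ * g⁻¹)⁻¹ = τ * g * τ⁻¹ := by group
      rwa [h8] at h7
  · intro g t k hg hF _ hT
    have hh : (g * g) (ι w) = ι w := sq_ω hg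
    have hsq : ∀ (n : ℕ) (y : L), (g ^ n) ((g ^ n) y) = ((g * g) ^ n) y := by
      intro n y
      change (g ^ n * g ^ n) y = _
      rw [← (Commute.refl g).mul_pow]
    have hfix : ∀ (n : ℕ) (y : L), g (g y) = y → ((g * g) ^ n) y = y := by
      intro n y hy
      induction n with
      | zero => rfl
      | succ n ih =>
        rw [pow_succ']
        change g (g (((g * g) ^ n) y)) = y
        rw [ih, hy]
    refine ⟨⟨?_, ?_⟩, ?_⟩
    · intro ρ hρ
      rw [hsq, hfix _ _ (hF.1 ρ hρ)]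
    · intro i ρ hρ
      rw [hsq, hfix _ _ (hF.2 i ρ hρ)]
    · intro ρ A hρ hA
      have h5 : ∀ n : ℕ, ((g * g) ^ n) A = E (ι w) ((n : ZMod 3) * t) * A := by
        intro n
        induction n with
        | zero =>
          rw [Nat.cast_zero, zero_mul, E_zero, one_mul]
          rfl
        | succ n ih =>
          rw [pow_succ']
          change (g * g) (((g * g) ^ n) A) = _
          rw [ih, map_mul, map_E' hh]
          have h6 : (g * g) A = E (ι w) t * A := hT ρ A hρ hA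
          rw [h6, Nat.cast_succ, add_mul, one_mul, E_add r]
          ring
      rw [hsq, h5]
      rfl

end Pool.Agent.PTK


end

section

/-!
# GTU (helper9): existence, uniqueness and properties of `t` for `Q = 1 (mod 3)`
-/

set_option autoImplicit false
set_option linter.unusedSectionVars false

open NumberField IsDedekindDomain Finset
open scoped nonZeroDivisors Pointwise

namespace Pool.Agent.PTK

open Pool.Agent.Lib_helper18 Pool.Agent.Lib_helper18.Eis Pool.Agent.Lib_helper84.Cub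
open Pool.Agent.PT Pool.Agent.PTE Pool.Agent.PT3 Pool.Agent.PTL Pool.Agent.PTN

namespace GTU

open Pool.Agent.PT.GT (E E_pow E_add E_zero E_inj of_cube map_ω cube_one ω_ne_zero E_ne_zero map_E')
open GTK (rel ι_eq fix_ι map_aD map_aN)

variable {L : Type} [Field L] [NumberField L] {ι : Eis →+* L}

/-- An automorphism with `σ ω = ω²` acts on the image of `Z[w]` as the conjugation. -/
theorem conj_ι {h : L ≃ₐ[ℚ] L} (hh : h (ι w) = ι w ^ 2) (a : Eis) : h (ι a) = ι (conj a) := by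
  rw [ι_eq ι a, ι_eq ι (conj a), map_add, map_mul, map_intCast, map_intCast, hh, conj_re, conj_im]
  push_cast
  linear_combination (a.im : L) * rel ι

theorem inv_ω {τ : L ≃ₐ[ℚ] L} (hτ : τ (ι w) = ι w) : τ⁻¹ (ι w) = ι w := by
  have h5 : τ⁻¹ (τ (ι w)) = ι w := τ.symm_apply_apply _
  rwa [hτ] at h5

theorem inv_ω2 {τ : L ≃ₐ[ℚ] L} (hτ : τ (ι w) = ι w ^ 2) : τ⁻¹ (ι w) = ι w ^ 2 := by
  have h3 := cube_one (rel ι)
  have h5 : τ⁻¹ (τ (ι w ^ 2)) = ι w ^ 2 := τ.symm_apply_apply _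
  have h6 : τ (ι w ^ 2) = ι w := by
    rw [map_pow, hτ]
    linear_combination (ι w) * h3
  rwa [h6] at h5

/-- `g` fixes the conjugates of the roots of `z`. -/
theorem fix_root {g τ : L ≃ₐ[ℚ] L} (hg : g (ι w) = ι w) {z : Eis}
    (hz : ∃ T : Eis, z * conj z = T ^ 3) (hfix : ∀ ρ : L, ρ ^ 3 = ι z → g ρ = ρ) {ρ : L}
    (hρ : ρ ^ 3 = ι z) : g (τ⁻¹ ρ) = τ⁻¹ ρ := by
  have r := rel ι
  rcases map_ω r τ with hτ | hτ
  · exact hfix _ (by rw [← map_pow, hρ, fix_ι (inv_ω hτ)])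
  · obtain ⟨T, hT⟩ := hz
    by_cases h0 : ρ = 0
    · rw [h0, map_zero, map_zero]
    · have h1 : (τ⁻¹ ρ * ρ) ^ 3 = (ι T) ^ 3 := by
        rw [mul_pow, ← map_pow, hρ, conj_ι (inv_ω2 hτ), ← map_mul, ← map_pow, ← hT, mul_comm]
      obtain ⟨k, hk⟩ := of_cube r h1
      have h2 : g (τ⁻¹ ρ * ρ) = τ⁻¹ ρ * ρ := by
        rw [hk, map_mul, map_E' hg, fix_ι hg]
      rw [map_mul, hfix ρ hρ] at h2
      exact mul_right_cancel₀ h0 h2

end GTU

open _root_.Pool.Agent.PTK.GTU in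
open GTK (rel fix_ι map_aD map_aN step) in
open Pool.Agent.PT.GT (E E_pow E_add E_zero E_inj of_cube map_ω cube_one ω_ne_zero E_ne_zero
  map_E') in
/-- GTU: existence, uniqueness and properties of `t`. -/
theorem GTU_thm : Stmt_GTU := by
  intro k x u P Q P' Q' f L _ _ ζ ι hS hG
  have r := rel ι
  have h3 := cube_one r
  refine ⟨?_, ?_, ?_⟩
  · intro g τ hg hF
    have hττ : ∀ y : L, τ (τ⁻¹ y) = y := fun y => τ.apply_symm_apply y
    refine ⟨?_, ?_⟩
    · intro ρ hρ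
      change τ (g (τ⁻¹ ρ)) = ρ
      rw [fix_root hg hS.cx hF.1 hρ, hττ]
    · intro j ρ hρ
      change τ (g (τ⁻¹ ρ)) = ρ
      rw [fix_root hg (hS.cb j) (hF.2 j) hρ, hττ]
  · intro g l hF
    have hfix : ∀ y : L, g y = y → (g ^ l) y = y := by
      intro y hy
      induction l with
      | zero => rfl
      | succ n ih =>
        rw [pow_succ']
        change g ((g ^ n) y) = y
        rw [ih, hy]
    exact ⟨fun ρ hρ => hfix _ (hF.1 ρ hρ), fun j ρ hρ => hfix _ (hF.2 j ρ hρ)⟩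
  intro j
  have hA0 : ∀ (ρ A : L), ρ ^ 3 = ι x →
      A ^ 3 * aDE ι (P j) (Q j) (P' j) (Q' j) ρ = aNE ι (P j) (Q j) (P' j) (Q' j) ρ → A ≠ 0 := by
    rintro ρ A hρ hA rfl
    apply (hG.D j ρ hρ).2
    rw [← hA]
    ring
  -- one witness is enough
  have all : ∀ (h : L ≃ₐ[ℚ] L) (t : ZMod 3) (ρ₀ A₀ : L), h (ι w) = ι w →
      (∀ ρ : L, ρ ^ 3 = ι x → h ρ = ρ) → (∀ θ : L, θ ^ 3 = ι (u j) → h θ = θ) →
      ρ₀ ^ 3 = ι x →
      A₀ ^ 3 * aDE ι (P j) (Q j) (P' j) (Q' j) ρ₀ = aNE ι (P j) (Q j) (P' j) (Q' j) ρ₀ →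
      h A₀ = E (ι w) t * A₀ → ∀ ρ A : L, ρ ^ 3 = ι x →
      A ^ 3 * aDE ι (P j) (Q j) (P' j) (Q' j) ρ = aNE ι (P j) (Q j) (P' j) (Q' j) ρ →
      h A = E (ι w) t * A := by
    intro h t ρ₀ A₀ hh hx hb hρ₀ hA₀ ht
    have hpow : ∀ n : ℕ, (ι w ^ n * ρ₀) ^ 3 = ι x := by
      intro n
      rw [mul_pow, hρ₀, ← pow_mul, mul_comm n 3, pow_mul, h3, one_pow, one_mul]
    have key : ∀ n : ℕ, ∀ A : L,
        A ^ 3 * aDE ι (P j) (Q j) (P' j) (Q' j) (ι w ^ n * ρ₀) =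
          aNE ι (P j) (Q j) (P' j) (Q' j) (ι w ^ n * ρ₀) → h A = E (ι w) t * A := by
      intro n
      induction n with
      | zero =>
        intro A hA
        rw [pow_zero, one_mul] at hA
        have hD := (hG.D j ρ₀ hρ₀).1
        have e2 : A ^ 3 = A₀ ^ 3 := mul_right_cancel₀ hD (hA.trans hA₀.symm)
        obtain ⟨k, hk⟩ := of_cube r e2
        rw [hk, map_mul, map_E' hh, ht]
        ring
      | succ n ih =>
        intro A' hA'
        obtain ⟨A, hA⟩ := hG.A j _ (hpow n)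
        have e1 : ι w ^ (n + 1) * ρ₀ = ι w * (ι w ^ n * ρ₀) := by rw [pow_succ]; ring
        have hD' := (hG.D j _ (hpow (n + 1))).1
        rw [e1] at hA' hD'
        exact step hh (hS.sol j) hb (hpow n) (hx _ (hpow n)) (hG.D j _ (hpow n)).1
          (hG.D j _ (hpow n)).2 hD' hA hA' (ih A hA)
    intro ρ A hρ hA
    obtain ⟨k, hk⟩ := of_cube r (hρ.trans hρ₀.symm)
    rw [hk] at hA
    exact key k.val A hA
  obtain ⟨ρ₀, hρ₀⟩ := hG.rx
  obtain ⟨A₀, hA₀⟩ := hG.A j ρ₀ hρ₀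
  have hA₀0 := hA0 ρ₀ A₀ hρ₀ hA₀
  refine ⟨?_, ?_, ?_⟩
  · intro g hg hF
    have e1 := congrArg g hA₀
    rw [map_mul, map_pow, map_aD hg, map_aN hg, hF.1 ρ₀ hρ₀] at e1
    have e2 : (g A₀) ^ 3 = A₀ ^ 3 :=
      mul_right_cancel₀ (hG.D j ρ₀ hρ₀).1 (e1.trans hA₀.symm)
    obtain ⟨t, ht⟩ := of_cube r e2
    refine ⟨t, ?_, ?_⟩
    · intro ρ A hPA
      exact all g t ρ₀ A₀ hg hF.1 (hF.2 j) hρ₀ hA₀ ht ρ A hPA.1 hPA.2
    · intro t' ht'
      have h5 : g A₀ = E (ι w) t' * A₀ := ht' ρ₀ A₀ ⟨hρ₀, hA₀⟩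
      rw [ht] at h5
      exact (E_inj r (mul_right_cancel₀ hA₀0 h5)).symm
  · intro g τ t hg hF hτ hT
    have hτ' := inv_ω hτ
    have hττ : ∀ y : L, τ (τ⁻¹ y) = y := fun y => τ.apply_symm_apply y
    intro ρ A hPA
    obtain ⟨hρ, hA⟩ := hPA
    have e1 := congrArg (τ⁻¹ : L ≃ₐ[ℚ] L) hA
    rw [map_mul, map_pow, map_aD hτ', map_aN hτ'] at e1
    change τ (g (τ⁻¹ A)) = _
    rw [hT (τ⁻¹ ρ) (τ⁻¹ A) ⟨by rw [← map_pow, hρ, fix_ι hτ'], e1⟩, map_mul, map_pow, hτ, hττ]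
  · intro g t l hg hT ρ A hPA
    have h5 : ∀ n : ℕ, (g ^ n) A = E (ι w) ((n : ZMod 3) * t) * A := by
      intro n
      induction n with
      | zero =>
        rw [Nat.cast_zero, zero_mul, E_zero, one_mul]
        rfl
      | succ n ih =>
        rw [pow_succ']
        change g ((g ^ n) A) = _
        rw [ih, map_mul, map_E' hg]
        have h6 : g A = E (ι w) t * A := hT ρ A hPA
        rw [h6, Nat.cast_succ, add_mul, one_mul, E_add r]
        ring
    exact h5 l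

end Pool.Agent.PTK


end

section

/-!
# LCI: local cubes in `Z[w]`
-/

set_option autoImplicit false

namespace Pool.Agent.PTK

open Pool.Agent.Lib_helper18 Pool.Agent.Lib_helper18.Eis Pool.Agent.Lib_helper84.Cub
open Pool.Agent.PT

namespace LCI

open Pool.Agent.PT.LCI (up_eq up_spec ch_mul ch_unit ch_pow three_mul_zmod cont root_ne_zero)

/-- In a finite field with `3 K + 1` elements the elements with `x ^ K = 1` are cubes. -/
theorem fin_cube {F : Type} [Field F] [Finite F] {K : ℕ} (hK : Nat.card F = 3 * K + 1) {x : F}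
    (hx : x ≠ 0) (h : x ^ K = 1) : ∃ y : F, y ^ 3 = x := by
  obtain ⟨g, hg⟩ := IsCyclic.exists_generator (α := Fˣ)
  obtain ⟨u, hu⟩ : ∃ u : Fˣ, (u : F) = x := ⟨Units.mk0 x hx, rfl⟩
  obtain ⟨k, hk⟩ := (Subgroup.mem_zpowers_iff).1 (hg u)
  have hu1 : u ^ K = 1 := by
    apply Units.ext
    rw [Units.val_pow_eq_pow_val, hu, h, Units.val_one]
  have ho : orderOf g = 3 * K := by
    rw [orderOf_eq_card_of_forall_mem_zpowers hg, Nat.card_units, hK, Nat.add_sub_cancel]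
  have hK0 : K ≠ 0 := by
    rintro rfl
    have h1 : 1 < Nat.card F := Finite.one_lt_card
    omega
  have hd : ((3 * K : ℕ) : ℤ) ∣ k * (K : ℤ) := by
    rw [← ho]
    apply orderOf_dvd_iff_zpow_eq_one.2
    rw [zpow_mul, hk, zpow_natCast]
    exact hu1
  have h3k : (3 : ℤ) ∣ k := by
    obtain ⟨c, hc⟩ := hd
    have h5 : (K : ℤ) ≠ 0 := by exact_mod_cast hK0
    refine ⟨c, ?_⟩
    apply mul_right_cancel₀ h5
    push_cast at hc
    linear_combination hc
  obtain ⟨j, hj⟩ := h3k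
  refine ⟨((g ^ j : Fˣ) : F), ?_⟩
  rw [← hu, ← hk, hj, ← Units.val_pow_eq_pow_val]
  congr 1
  rw [← zpow_natCast, ← zpow_mul]
  congr 1
  push_cast
  ring

/-- The integer residue. -/
theorem val_dvd (M : ℕ) [NeZero M] (a : ℤ) : (M : ℤ) ∣ a - ((a : ZMod M).val : ℤ) := by
  rw [← ZMod.intCast_zmod_eq_zero_iff_dvd]
  push_cast
  rw [ZMod.natCast_val, ZMod.cast_id', id, sub_self]

theorem aux1 (x : Eis) (a b : ℤ) : ((a : Eis) + (b : Eis) * w) - x =
    -(((x.re - a : ℤ) : Eis) + ((x.im - b : ℤ) : Eis) * w) := by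
  conv_lhs => rw [eq_re_add_im x]
  push_cast
  ring

theorem aux2 (a b a' b' : ℤ) : ((a : Eis) + (b : Eis) * w) - ((a' : Eis) + (b' : Eis) * w) =
    (⟨a - a', b - b'⟩ : Eis) := by
  ext
  · simp
  · simp

/-- The residue field is finite, with `N π` elements. -/
theorem card_res (hSPP : SPP) (π : PP) (h3 : ¬ π.1 ∣ 3) (I : Ideal Eis)
    (hI : I = Ideal.span {π.1}) [I.IsMaximal] : Finite (Eis ⧸ I) ∧ Nat.card (Eis ⧸ I) = N π.1 := by
  have hπ := π.2.1
  have hmk : ∀ a : Eis, Ideal.Quotient.mk I a = 0 ↔ π.1 ∣ a := by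
    intro a
    rw [Ideal.Quotient.eq_zero_iff_mem, hI, Ideal.mem_span_singleton]
  let _ : Field (Eis ⧸ I) := Ideal.Quotient.field I
  have hM0 : N π.1 ≠ 0 := by
    intro h
    have h1 := three_mul_div hπ h3
    omega
  have : NeZero (N π.1) := ⟨hM0⟩
  have hMd : π.1 ∣ (((N π.1 : ℕ) : ℤ) : Eis) := by
    rw [N_cast, ← mul_conj]
    exact dvd_mul_right _ _
  -- finiteness
  have hfin : Finite (Eis ⧸ I) := by
    refine Finite.of_surjective (fun z : ZMod (N π.1) × ZMod (N π.1) =>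
      Ideal.Quotient.mk I (((z.1.val : ℤ) : Eis) + ((z.2.val : ℤ) : Eis) * w)) ?_
    intro y
    obtain ⟨x, rfl⟩ := Ideal.Quotient.mk_surjective y
    refine ⟨((x.re : ZMod (N π.1)), (x.im : ZMod (N π.1))), ?_⟩
    rw [← sub_eq_zero, ← map_sub, hmk]
    rw [aux1, dvd_neg]
    refine dvd_add ?_ (Dvd.dvd.mul_right ?_ _)
    · exact hMd.trans (intCast_dvd_intCast.2 (val_dvd _ _))
    · exact hMd.trans (intCast_dvd_intCast.2 (val_dvd _ _))
  refine ⟨hfin, le_antisymm ?_ ?_⟩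
  · -- at most `N π` elements
    obtain ⟨g, hg⟩ := IsCyclic.exists_generator (α := (Eis ⧸ I)ˣ)
    have ho : orderOf g = Nat.card (Eis ⧸ I) - 1 := by
      rw [orderOf_eq_card_of_forall_mem_zpowers hg, Nat.card_units]
    obtain ⟨x, hx⟩ := Ideal.Quotient.mk_surjective ((g : (Eis ⧸ I)ˣ) : Eis ⧸ I)
    have h1 : (Ideal.Quotient.mk I x) ^ N π.1 = Ideal.Quotient.mk I x := by
      rw [← sub_eq_zero, ← map_pow, ← map_sub, hmk]
      exact dvd_pow_sub hπ h3
    have h2 : g ^ (N π.1 - 1) = 1 := by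
      have h4 : g ^ (N π.1 - 1) * g = 1 * g := by
        rw [← pow_succ, Nat.sub_add_cancel (Nat.one_le_iff_ne_zero.2 hM0), one_mul]
        apply Units.ext
        rw [Units.val_pow_eq_pow_val, ← hx, h1]
      exact mul_right_cancel h4
    have h5 := orderOf_dvd_of_pow_eq_one h2
    rw [ho] at h5
    have h6 : 0 < N π.1 - 1 := by
      have h7 := three_mul_div hπ h3
      have h8 : N π.1 ≠ 1 := by
        intro h9
        apply hπ.not_isUnit
        rw [isUnit_iff_norm, ← N_cast, h9]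
        rfl
      omega
    have h7 := Nat.le_of_dvd h6 h5
    omega
  · -- at least `N π` elements
    obtain ⟨p, hp, hc⟩ := hSPP.2.2.2.2.2 π
    have : NeZero p := ⟨hp.ne_zero⟩
    have hpi : Prime (p : ℤ) := Nat.prime_iff_prime_int.1 hp
    have hval : ∀ a b : ZMod p, (p : ℤ) ∣ (a.val : ℤ) - (b.val : ℤ) → a = b := by
      intro a b h
      have h1 := (ZMod.intCast_zmod_eq_zero_iff_dvd _ p).2 h
      push_cast at h1
      rw [ZMod.natCast_val, ZMod.natCast_val, ZMod.cast_id', id, id] at h1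
      exact sub_eq_zero.1 h1
    rcases hc with ⟨-, h2⟩ | ⟨-, h2, -, -⟩
    · have hN : N π.1 = Nat.card (ZMod p × ZMod p) := by
        rw [Nat.card_prod, Nat.card_zmod]
        have h5 : ((N π.1 : ℕ) : ℤ) = ((p * p : ℕ) : ℤ) := by
          rw [N_cast, h2, norm_def]
          push_cast
          simp only [natCast_re, natCast_im]
          ring
        exact_mod_cast h5
      rw [hN]
      refine Nat.card_le_card_of_injective (fun z : ZMod p × ZMod p =>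
        Ideal.Quotient.mk I (((z.1.val : ℤ) : Eis) + ((z.2.val : ℤ) : Eis) * w)) ?_
      intro z z' hz
      have h5 := sub_eq_zero.2 hz
      simp only [] at h5
      rw [← map_sub, hmk, h2] at h5
      rw [aux2, ← Int.cast_natCast, intCast_dvd_iff] at h5
      exact Prod.ext (hval _ _ h5.1) (hval _ _ h5.2)
    · have hN : N π.1 = Nat.card (ZMod p) := by
        rw [Nat.card_zmod]
        have h5 : ((N π.1 : ℕ) : ℤ) = (p : ℤ) := by rw [N_cast, h2]
        exact_mod_cast h5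
      rw [hN]
      refine Nat.card_le_card_of_injective (fun z : ZMod p =>
        Ideal.Quotient.mk I ((z.val : ℤ) : Eis)) ?_
      intro z z' hz
      have h5 := sub_eq_zero.2 hz
      simp only [] at h5
      rw [← map_sub, hmk, ← Int.cast_sub] at h5
      apply hval
      obtain ⟨y, hy⟩ := h5
      have h6 := congrArg Eis.norm hy
      rw [Eis.norm_mul, Pool.Agent.PT.LCI.norm_int, h2] at h6
      exact hpi.dvd_of_dvd_pow ⟨_, h6⟩

/-- An element prime to `π` with trivial symbol is a cube modulo `π`. -/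
theorem cube_root (hSPP : SPP) (π : PP) {c : Eis} (hc : ¬ π.1 ∣ c) (hs : sym π.1 c = 0) :
    ∃ r : Eis, π.1 ∣ r ^ 3 - c := by
  have hπ := π.2.1
  have h3 := (hSPP.2.2.2.1 π).1
  have hmax : (Ideal.span {π.1}).IsMaximal := PrincipalIdealRing.isMaximal_of_irreducible
    hπ.irreducible
  generalize hI : Ideal.span {π.1} = I at hmax
  obtain ⟨hfin, hcard⟩ := card_res hSPP π h3 I hI.symm
  have hmk : ∀ a : Eis, Ideal.Quotient.mk I a = 0 ↔ π.1 ∣ a := by
    intro a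
    rw [Ideal.Quotient.eq_zero_iff_mem, ← hI, Ideal.mem_span_singleton]
  let _ : Field (Eis ⧸ I) := Ideal.Quotient.field I
  have h4 := sym_spec hπ h3 hc
  rw [hs, ZMod.val_zero, pow_zero] at h4
  obtain ⟨y, hy⟩ := fin_cube (K := (N π.1 - 1) / 3) (x := Ideal.Quotient.mk I c)
    (by rw [hcard, three_mul_div hπ h3]) (fun h => hc ((hmk c).1 h))
    (by rw [← map_pow, ← sub_eq_zero, ← map_one (Ideal.Quotient.mk I), ← map_sub, hmk]
        exact h4)
  obtain ⟨r, rfl⟩ := Ideal.Quotient.mk_surjective y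
  refine ⟨r, ?_⟩
  rw [← hmk, map_sub, map_pow, hy, sub_self]

theorem first (hSPP : SPP) (π : PP) (b : Eis) (hb0 : b ≠ 0) :
    LCE π.1 b ↔ 3 ∣ V π.1 b ∧ ch π.1 b = 0 := by
  have hπ := π.2.1
  have h3 := (hSPP.2.2.2.1 π).1
  constructor
  · intro h
    obtain ⟨r, hr⟩ := h (V π.1 b + 1)
    have hr0 := root_ne_zero hπ hb0 le_rfl hr
    obtain ⟨h1, h2⟩ := cont hπ hb0 hr
    rw [V_pow hπ hr0] at h1
    rw [ch_pow hπ h3 hr0, three_mul_zmod (dvd_refl 3), zero_mul] at h2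
    exact ⟨⟨_, h1.symm⟩, h2.symm⟩
  · rintro ⟨⟨j, hj⟩, h2⟩ M
    obtain ⟨h4, h5⟩ := up_spec hπ hb0
    obtain ⟨r0, hr0⟩ := cube_root hSPP π h5 h2
    obtain ⟨τ, -, hτ⟩ := hensel hπ h3 h5 hr0 M
    refine ⟨π.1 ^ j * τ, ?_⟩
    have e : (π.1 ^ j * τ) ^ 3 - b = π.1 ^ V π.1 b * (τ ^ 3 - up π.1 b) := by
      conv_lhs => rw [h4]
      rw [hj]
      ring
    rw [e]
    exact ((pow_dvd_pow π.1 (Nat.le_succ M)).trans hτ).mul_left _

/-- Cubes at `λ`: elements `1` modulo `λ⁴`. -/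
theorem lam_cube {b : Eis} (hb : lam ^ 4 ∣ b - 1) : ∀ M : ℕ, ∃ r : Eis, lam ∣ r - 1 ∧
    lam ^ (M + 4) ∣ r ^ 3 - b := by
  intro M
  induction M with
  | zero =>
    refine ⟨1, by rw [sub_self]; exact dvd_zero _, ?_⟩
    rw [zero_add, one_pow, ← dvd_neg, neg_sub]
    exact hb
  | succ M ih =>
    obtain ⟨r, ⟨k, hk⟩, c, hc⟩ := ih
    have h3 : (3 : Eis) = lam ^ 2 * (-w ^ 2) := lam_two
    have hw := w_cube
    refine ⟨r + lam ^ (M + 2) * (w * c), ⟨k + lam ^ (M + 1) * (w * c), ?_⟩,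
      -c * k * (r + 1) - w ^ 2 * lam ^ (M + 1) * r * (w * c) ^ 2 +
        lam ^ (2 * M + 1) * (w * c) ^ 3, ?_⟩
    · rw [pow_succ lam (M + 1)]
      linear_combination hk
    · have e1 : lam ^ (M + 1 + 4) = lam ^ M * lam ^ 5 := by rw [← pow_add]
      have e2 : lam ^ (M + 4) = lam ^ M * lam ^ 4 := by rw [← pow_add]
      have e3 : lam ^ (M + 2) = lam ^ M * lam ^ 2 := by rw [← pow_add]
      have e4 : lam ^ (M + 1) = lam ^ M * lam := by rw [pow_succ]
      have e5 : lam ^ (2 * M + 1) = lam ^ M * lam ^ M * lam := by rw [two_mul, pow_succ, pow_add]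
      rw [e2] at hc
      rw [e1, e3, e4, e5]
      generalize lam ^ M = P at *
      linear_combination hc + (P * lam ^ 2 * r ^ 2 * (w * c) + P ^ 2 * lam ^ 4 * r * (w * c) ^ 2) * h3
        - P * lam ^ 4 * r ^ 2 * c * hw - P * lam ^ 4 * c * (r + 1) * hk

theorem second (b a c : Eis) (ha : ¬ lam ∣ a) (hc : ¬ lam ∣ c) (h : lam ^ 4 ∣ b * c ^ 3 - a ^ 3) :
    LCE lam b := by
  obtain ⟨C, hC, y, hy⟩ := cube_mod_nine ha
  obtain ⟨C', hC', y', hy'⟩ := cube_mod_nine hc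
  have h9 : (9 : Eis) = w * lam ^ 4 := by decide
  have hCC : (C' : Eis) * (C' : Eis) = 1 := by
    rcases hC' with rfl | rfl <;> simp
  have hC2 : (C : Eis) * (C : Eis) = 1 := by
    rcases hC with rfl | rfl <;> simp
  -- `b` is congruent to `C C'`
  have h1 : lam ^ 4 ∣ b - (C : Eis) * C' := by
    obtain ⟨k, hk⟩ := h
    rw [hy, hy'] at hk
    refine ⟨k * C' - b * w * y' * C' + w * y * C', ?_⟩
    linear_combination (C' : Eis) * hk - b * hCC - (b * y' * C' - y * C') * h9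
  -- a cube root of `C C' b`
  have h2 : lam ^ 4 ∣ (C : Eis) * C' * b - 1 := by
    have e : (C : Eis) * C' * b - 1 = (C : Eis) * C' * (b - (C : Eis) * C') := by
      linear_combination (C' : Eis) * C' * hC2 + hCC
    rw [e]
    exact h1.mul_left _
  intro M
  obtain ⟨r, -, hr⟩ := lam_cube h2 M
  refine ⟨(C : Eis) * C' * r, ?_⟩
  have e : ((C : Eis) * C' * r) ^ 3 - b = (C : Eis) * C' * (r ^ 3 - (C : Eis) * C' * b) := by
    have h4 : ((C : Eis) * C') ^ 2 = 1 := by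
      rw [mul_pow, pow_two, pow_two, hC2, hCC, one_mul]
    linear_combination ((C : Eis) * C' * r ^ 3 + b) * h4
  rw [e]
  exact ((pow_dvd_pow lam (by omega)).trans hr).mul_left _

theorem third (π : Eis) (s : Eis → Eis → ZMod 3) (e : ℕ) (b a : Eis) (hs : LSym π s e)
    (h : LCE π b) (hb0 : b ≠ 0) (ha : a ≠ 0) : s b a = 0 := by
  obtain ⟨r, hr⟩ := h (V π b + e)
  have hr0 := root_ne_zero hs.prime hb0 hs.pos hr
  have h1 := hs.cont b (r ^ 3) a hb0 ha hr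
  rw [← h1]
  have h2 := hs.mul r r a hr0 hr0 ha
  have h3 := hs.mul (r * r) r a (mul_ne_zero hr0 hr0) hr0 ha
  have e3 : r ^ 3 = r * r * r := by ring
  rw [e3, h3, h2]
  have h4 : ∀ x : ZMod 3, x + x + x = 0 := by decide
  exact h4 _

end LCI

theorem LCI_thm (hSPP : SPP) : Stmt_LCI :=
  ⟨LCI.first hSPP, LCI.second, fun π s e b a hs h hb ha => LCI.third π s e b a hs h hb ha⟩

end Pool.Agent.PTK


end

section

/-!
# GKK: Kummer theory over `K = Q(w)`
-/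

set_option autoImplicit false

open NumberField IsDedekindDomain Finset
open scoped nonZeroDivisors Pointwise

namespace Pool.Agent.PTK

open Pool.Agent.Lib_helper18 Pool.Agent.Lib_helper18.Eis Pool.Agent.Lib_helper84.Cub
open Pool.Agent.PT Pool.Agent.PTL

namespace GKK

variable {L : Type} [Field L] [NumberField L] {ι : Eis →+* L}

/-- `ι` is injective. -/
theorem inj (ι : Eis →+* L) : Function.Injective ι := by
  rw [injective_iff_map_eq_zero]
  intro a ha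
  have h1 : ι (a * conj a) = 0 := by rw [map_mul, ha, zero_mul]
  rw [mul_conj, map_intCast] at h1
  have h2 : a.norm = 0 := by exact_mod_cast h1
  exact norm_eq_zero.1 h2

theorem mem_F (ι : Eis →+* L) (a : Eis) : ι a ∈ IntermediateField.adjoin ℚ {ι w} := by
  rw [GTK.ι_eq ι a]
  refine add_mem ?_ (mul_mem ?_ (IntermediateField.mem_adjoin_simple_self ℚ (ι w)))
  · exact intCast_mem _ _
  · exact intCast_mem _ _

/-- The elements of `ℚ(ω)` are fractions. -/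
theorem frac (ι : Eis →+* L) {y : L} (hy : y ∈ IntermediateField.adjoin ℚ {ι w}) :
    ∃ u v : Eis, v ≠ 0 ∧ y * ι v = ι u := by
  have hi := inj ι
  induction hy using IntermediateField.adjoin_induction with
  | mem x hx =>
    rw [Set.mem_singleton_iff] at hx
    exact ⟨w, 1, one_ne_zero, by rw [hx, map_one, mul_one]⟩
  | algebraMap q =>
    refine ⟨(q.num : Eis), (q.den : Eis), ?_, ?_⟩
    · intro h
      have h1 := congrArg Eis.re h
      rw [natCast_re, zero_re] at h1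
      exact q.den_nz (by exact_mod_cast h1)
    · rw [map_intCast, map_natCast]
      have h1 : (q : ℚ) * q.den = q.num := Rat.mul_den_eq_num q
      have h2 := congrArg (algebraMap ℚ L) h1
      rw [map_mul, map_natCast, map_intCast] at h2
      exact h2
  | add x y _ _ hx hy =>
    obtain ⟨u, v, hv, h1⟩ := hx
    obtain ⟨u', v', hv', h2⟩ := hy
    refine ⟨u * v' + u' * v, v * v', mul_ne_zero hv hv', ?_⟩
    rw [map_mul, map_add, map_mul, map_mul]
    linear_combination ι v' * h1 + ι v * h2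
  | inv x _ hx =>
    obtain ⟨u, v, hv, h1⟩ := hx
    by_cases hx0 : x = 0
    · exact ⟨0, 1, one_ne_zero, by rw [hx0, inv_zero, zero_mul, map_zero]⟩
    · refine ⟨v, u, ?_, ?_⟩
      · rintro rfl
        rw [map_zero] at h1
        rcases mul_eq_zero.1 h1 with h2 | h2
        · exact hx0 h2
        · exact hv (hi (by rw [h2, map_zero]))
      · rw [← h1, ← mul_assoc, inv_mul_cancel₀ hx0, one_mul]
  | mul x y _ _ hx hy =>
    obtain ⟨u, v, hv, h1⟩ := hx
    obtain ⟨u', v', hv', h2⟩ := hy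
    refine ⟨u * u', v * v', mul_ne_zero hv hv', ?_⟩
    rw [map_mul, map_mul, ← h1, ← h2]
    ring

/-- An element of `Z[w]` which is a cube in `ℚ(ω)` is a cube. -/
theorem cube_of (ι : Eis →+* L) {β : L} (hβ : β ∈ IntermediateField.adjoin ℚ {ι w}) {a : Eis}
    (h : ι a = β ^ 3) : ∃ t : Eis, t ^ 3 = a := by
  obtain ⟨u, v, hv, h1⟩ := frac ι hβ
  have h2 : u ^ 3 = v ^ 3 * a := by
    apply inj ι
    rw [map_pow, ← h1, map_mul, map_pow, h]
    ring
  obtain ⟨t, rfl⟩ := (IsIntegrallyClosed.pow_dvd_pow_iff (R := Eis) three_ne_zero).1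
    (⟨a, h2⟩ : v ^ 3 ∣ u ^ 3)
  refine ⟨t, ?_⟩
  apply mul_left_cancel₀ (pow_ne_zero 3 hv)
  rw [← h2]
  ring

end GKK

open _root_.Pool.Agent.PTK.GKK in
/-- GKK: Kummer theory over `K`. -/
theorem GKK_thm (hKUM : KUM) : Stmt_GKK := by
  intro s x b p q p' q' f L _ _ ζ ι hS hG a₀ a
  have hω := GTK.rel ι
  have := hG.gal
  have hx0 : x ≠ 0 := by
    rintro rfl
    refine hS.ind 1 (fun _ => 0) (Or.inl (by norm_num)) ⟨0, ?_⟩
    rw [pow_one, zero_mul]
    ring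
  have hb0 : ∀ j, b j ≠ 0 := by
    intro j hj
    refine hS.ind 0 (fun l => if l = j then 1 else 0) (Or.inr ⟨j, by simp⟩) ⟨0, ?_⟩
    rw [zero_pow three_ne_zero, pow_zero, one_mul]
    symm
    exact Finset.prod_eq_zero (Finset.mem_univ j) (by simp [hj])
  obtain ⟨θ₀, hθ₀⟩ := hG.rx
  choose θ hθ using hG.rb
  let F := IntermediateField.adjoin ℚ {ι w}
  let c : Option (Fin s) → Eis := fun i => i.elim x b
  have hc0 : ∀ i, c i ≠ 0 := by
    rintro (_ | j)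
    · exact hx0
    · exact hb0 j
  let A : Option (Fin s) → L := fun i => i.elim θ₀ θ
  have hA : ∀ i, A i ^ 3 = ι (c i) := by
    rintro (_ | j)
    · exact hθ₀
    · exact hθ j
  obtain ⟨g, hg⟩ := hKUM F L ⟨ι w, mem_F ι w⟩ (Option (Fin s)) (fun i => ⟨ι (c i), mem_F ι _⟩) A
    (by
      apply Subtype.ext
      push_cast
      exact hω)
    (by
      intro i h
      have h1 : ι (c i) = 0 := congrArg Subtype.val h
      exact hc0 i (inj ι (by rw [h1, map_zero])))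
    (fun i => hA i)
    (by
      rintro n ⟨β, hβ⟩
      by_contra hcon
      push Not at hcon
      have h1 : ι (∏ i, c i ^ n i) = (β : L) ^ 3 := by
        have h2 := congrArg (algebraMap F L) hβ
        rw [map_pow, map_prod] at h2
        rw [map_prod]
        refine Eq.trans ?_ h2
        refine Finset.prod_congr rfl fun i _ => ?_
        rw [map_pow, map_pow]
        rfl
      obtain ⟨t, ht⟩ := cube_of ι β.2 h1
      rw [Fintype.prod_option] at ht
      refine hS.ind (n none) (fun j => n (some j)) ?_ ⟨t, ht⟩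
      obtain ⟨i, hi⟩ := hcon
      rcases i with _ | j
      · exact Or.inl hi
      · exact Or.inr ⟨j, hi⟩)
    (fun i => i.elim a₀ a)
  have hgω : g (ι w) = ι w := g.commutes (⟨ι w, mem_F ι w⟩ : F)
  have hroot : ∀ (i : Option (Fin s)) (ρ : L), ρ ^ 3 = ι (c i) →
      g ρ = ι w ^ (i.elim a₀ a : ZMod 3).val * ρ := by
    intro i ρ hρ
    obtain ⟨k, hk⟩ := Pool.Agent.PT.GT.of_cube hω (hρ.trans (hA i).symm)
    have h2 := hg i
    change g (A i) = ι w ^ (i.elim a₀ a : ZMod 3).val * A i at h2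
    rw [hk, map_mul, h2, Pool.Agent.PT.GT.E, map_pow, hgω]
    ring
  refine ⟨g.restrictScalars ℚ, hgω, fun ρ hρ => ?_, fun j ρ hρ => ?_⟩
  · exact hroot none ρ hρ
  · exact hroot (some j) ρ hρ

end Pool.Agent.PTK


end

section

/-!
# JKU: Kummer theory over `K = Q(w)` for all classes together
-/

set_option autoImplicit false

open NumberField IsDedekindDomain Finset
open scoped nonZeroDivisors Pointwise

namespace Pool.Agent.PTK

open Pool.Agent.Lib_helper18 Pool.Agent.Lib_helper18.Eis Pool.Agent.Lib_helper84.Cub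
open Pool.Agent.PT Pool.Agent.PTE Pool.Agent.PT3 Pool.Agent.PTL Pool.Agent.PTN

namespace JKU

/-- A rational integer whose square is a cube in `Eis` is a cube. -/
theorem cube_int {D : ℤ} (hD : D ≠ 0) {r : Eis} (h : r ^ 3 = (D : Eis) ^ 2) :
    ∃ m : ℤ, m ^ 3 = D := by
  have h1 : r.norm ^ 3 = (D ^ 2) ^ 2 := by
    have h2 := congrArg Eis.norm h
    rw [norm_pow, norm_pow, norm_intCast] at h2
    exact h2
  have h3 : D ^ 3 ∣ r.norm ^ 3 := ⟨D, by rw [h1]; ring⟩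
  have h4 : D ∣ r.norm := (Int.pow_dvd_pow_iff three_ne_zero).1 h3
  obtain ⟨m, hm⟩ := h4
  refine ⟨m, ?_⟩
  rw [hm] at h1
  have h5 : D ^ 3 * m ^ 3 = D ^ 3 * D := by rw [← mul_pow, h1]; ring
  exact mul_left_cancel₀ (pow_ne_zero 3 hD) h5

theorem cast_zero {n : ℤ} (h : (n : Eis) = 0) : n = 0 := by
  have h1 := congrArg Eis.re h
  rw [intCast_re, zero_re] at h1
  exact h1

/-- Divisibility of cubes. -/
theorem dvd_cube {a b : Eis} (h : a ^ 3 ∣ b ^ 3) : a ∣ b :=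
  (IsIntegrallyClosed.pow_dvd_pow_iff (R := Eis) three_ne_zero).1 h

theorem x_ne {k : ℕ} {x : Eis} {u P Q P' Q' : Fin k → Eis} (hK : SysK x u P Q P' Q') :
    x ≠ 0 := by
  rintro rfl
  refine hK.ind 1 (fun _ => 0) (Or.inl (by norm_num)) ⟨0, ?_⟩
  rw [pow_one, zero_mul]
  ring

theorem u_ne {k : ℕ} {x : Eis} {u P Q P' Q' : Fin k → Eis} (hK : SysK x u P Q P' Q')
    (j : Fin k) : u j ≠ 0 := by
  intro hj
  refine hK.ind 0 (fun l => if l = j then 1 else 0) (Or.inr ⟨j, by simp⟩) ⟨0, ?_⟩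
  rw [zero_pow three_ne_zero, pow_zero, one_mul]
  symm
  exact Finset.prod_eq_zero (Finset.mem_univ j) (by simp [hj])

theorem b_ne {s : ℕ} {b : Fin s → ℤ} {p q p' q' : Fin s → Fin s → ℤ} (hG : SysG b p q p' q')
    (j : Fin s) : b j ≠ 0 := by
  intro hj
  refine hG.ind (fun l => if l = j then 1 else 0) ⟨j, by simp⟩ ⟨0, ?_⟩
  rw [zero_pow three_ne_zero]
  symm
  exact Finset.prod_eq_zero (Finset.mem_univ j) (by simp [hj])

/-- Independence of all classes. -/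
theorem indep {s k : ℕ} {b : Fin s → ℤ} {p q p' q' : Fin s → Fin s → ℤ}
    {x : Eis} {u P Q P' Q' : Fin k → Eis} (hG : SysG b p q p' q') (hK : SysK x u P Q P' Q')
    (c₀ : ℕ) (c : Fin k → ℕ) (d : Fin s → ℕ) (t : Eis)
    (h : t ^ 3 = (x ^ c₀ * ∏ j, u j ^ c j) * ∏ i, (b i : Eis) ^ d i) :
    3 ∣ c₀ ∧ (∀ j, 3 ∣ c j) ∧ ∀ i, 3 ∣ d i := by
  have hx0 : x ≠ 0 := x_ne hK
  have hu0 : ∀ j, u j ≠ 0 := u_ne hK
  have hb0 : ∀ i, b i ≠ 0 := b_ne hG
  obtain ⟨tx, htx⟩ := hK.cx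
  choose tu htu using hK.cb
  obtain ⟨Z, hZ⟩ : ∃ Z : Eis, Z = x ^ c₀ * ∏ j, u j ^ c j := ⟨_, rfl⟩
  obtain ⟨D, hD⟩ : ∃ D : ℤ, D = ∏ i, b i ^ d i := ⟨_, rfl⟩
  obtain ⟨t₁, ht₁⟩ : ∃ t₁ : Eis, t₁ = tx ^ c₀ * ∏ j, tu j ^ c j := ⟨_, rfl⟩
  have hDE : (∏ i, (b i : Eis) ^ d i) = (D : Eis) := by
    rw [hD, Int.cast_prod]
    exact Finset.prod_congr rfl fun i _ => (Int.cast_pow _ _).symm
  have hD0 : D ≠ 0 := by
    rw [hD]
    exact Finset.prod_ne_zero_iff.2 fun i _ => pow_ne_zero _ (hb0 i)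
  have hZ0 : Z ≠ 0 := by
    rw [hZ]
    exact mul_ne_zero (pow_ne_zero _ hx0)
      (Finset.prod_ne_zero_iff.2 fun i _ => pow_ne_zero _ (hu0 i))
  rw [hDE, ← hZ] at h
  have hZZ : Z * conj Z = t₁ ^ 3 := by
    rw [hZ, ht₁, map_mul, map_pow, map_prod]
    have e1 : ∀ j, conj (u j ^ c j) = conj (u j) ^ c j := fun j => map_pow _ _ _
    calc (x ^ c₀ * ∏ j, u j ^ c j) * (conj x ^ c₀ * ∏ j, conj (u j ^ c j))
        = (x * conj x) ^ c₀ * ∏ j, (u j * conj (u j)) ^ c j := by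
          simp only [e1, mul_pow, Finset.prod_mul_distrib]
          ring
      _ = (tx ^ 3) ^ c₀ * ∏ j, (tu j ^ 3) ^ c j := by
          rw [htx]
          congr 1
          exact Finset.prod_congr rfl fun j _ => by rw [htu j]
      _ = (tx ^ c₀ * ∏ j, tu j ^ c j) ^ 3 := by
          rw [mul_pow, ← Finset.prod_pow]
          congr 1
          · rw [← pow_mul, ← pow_mul, mul_comm]
          · exact Finset.prod_congr rfl fun j _ => by rw [← pow_mul, ← pow_mul, mul_comm]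
  have ht₁0 : t₁ ≠ 0 := by
    rintro rfl
    rw [zero_pow three_ne_zero, mul_conj] at hZZ
    have h2 : Z.norm = 0 := cast_zero hZZ
    exact hZ0 (norm_eq_zero.1 h2)
  have hc : conj t ^ 3 = conj Z * D := by
    rw [← map_pow, h, map_mul, conj_intCast]
  have hNN : (t * conj t) ^ 3 = t₁ ^ 3 * (D : Eis) ^ 2 := by
    rw [mul_pow, h, hc, ← hZZ]
    ring
  obtain ⟨r, hr⟩ := dvd_cube (⟨_, hNN⟩ : t₁ ^ 3 ∣ (t * conj t) ^ 3)
  have hr3 : r ^ 3 = (D : Eis) ^ 2 := by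
    apply mul_left_cancel₀ (pow_ne_zero 3 ht₁0)
    rw [← hNN, hr]
    ring
  obtain ⟨m, hm⟩ := cube_int hD0 hr3
  have hd : ∀ i, 3 ∣ d i := by
    by_contra hcon
    push Not at hcon
    exact hG.ind d hcon ⟨m, by rw [hm, hD]⟩
  have hm0 : (m : Eis) ≠ 0 := by
    intro h0
    have h1 : ((m ^ 3 : ℤ) : Eis) = 0 := by
      rw [Int.cast_pow, h0, zero_pow three_ne_zero]
    rw [hm] at h1
    exact hD0 (cast_zero h1)
  have h3 : t ^ 3 = (m : Eis) ^ 3 * Z := by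
    rw [h, ← hm, Int.cast_pow]
    ring
  obtain ⟨t', ht'⟩ := dvd_cube (⟨Z, h3⟩ : (m : Eis) ^ 3 ∣ t ^ 3)
  have h4 : t' ^ 3 = Z := by
    apply mul_left_cancel₀ (pow_ne_zero 3 hm0)
    rw [← h3, ht']
    ring
  have h5 : ¬ (¬ 3 ∣ c₀ ∨ ∃ j, ¬ 3 ∣ c j) := fun hcon =>
    hK.ind c₀ c hcon ⟨t', by rw [h4, hZ]⟩
  push Not at h5
  exact ⟨h5.1, h5.2, hd⟩

end JKU

open _root_.Pool.Agent.PTK.JKU in
/-- JKU: Kummer theory over `K` for all classes together. -/
theorem JKU_thm (hKUM : KUM) : Stmt_JKU := by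
  intro s k b p q p' q' x u P Q P' Q' f L _ _ ζ ι hSG hSK hJ a₀ a v
  have hω := GTK.rel ι
  have := hJ.minus.gal
  obtain ⟨θ₀, hθ₀⟩ := hJ.minus.rx
  choose θ hθ using hJ.minus.rb
  choose η hη using hJ.plus.root
  let F := IntermediateField.adjoin ℚ {ι w}
  let c : Option (Fin k) ⊕ Fin s → Eis :=
    Sum.elim (fun i => i.elim x u) (fun i => (b i : Eis))
  let V : Option (Fin k) ⊕ Fin s → ZMod 3 := Sum.elim (fun i => i.elim a₀ a) v
  have hc0 : ∀ i, c i ≠ 0 := by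
    rintro ((_ | j) | i)
    · exact x_ne hSK
    · exact u_ne hSK j
    · intro h0
      have h1 : (b i : Eis) = 0 := h0
      exact b_ne hSG i (cast_zero h1)
  let A : Option (Fin k) ⊕ Fin s → L := Sum.elim (fun i => i.elim θ₀ θ) η
  have hA : ∀ i, A i ^ 3 = ι (c i) := by
    rintro ((_ | j) | i)
    · exact hθ₀
    · exact hθ j
    · exact (hη i).trans (map_intCast ι (b i)).symm
  obtain ⟨g, hg⟩ := hKUM F L ⟨ι w, GKK.mem_F ι w⟩ (Option (Fin k) ⊕ Fin s)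
    (fun i => ⟨ι (c i), GKK.mem_F ι _⟩) A
    (by
      apply Subtype.ext
      push_cast
      exact hω)
    (by
      intro i h
      have h1 : ι (c i) = 0 := congrArg Subtype.val h
      exact hc0 i (GKK.inj ι (by rw [h1, map_zero])))
    (fun i => hA i)
    (by
      rintro n ⟨β, hβ⟩
      have h1 : ι (∏ i, c i ^ n i) = (β : L) ^ 3 := by
        have h2 := congrArg (algebraMap F L) hβ
        rw [map_pow, map_prod] at h2
        rw [map_prod]
        refine Eq.trans ?_ h2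
        refine Finset.prod_congr rfl fun i _ => ?_
        rw [map_pow, map_pow]
        rfl
      obtain ⟨t, ht⟩ := GKK.cube_of ι β.2 h1
      rw [Fintype.prod_sum_type, Fintype.prod_option] at ht
      obtain ⟨h3, h4, h5⟩ := indep hSG hSK (n (Sum.inl none)) (fun j => n (Sum.inl (some j)))
        (fun i => n (Sum.inr i)) t ht
      rintro ((_ | j) | i)
      · exact h3
      · exact h4 j
      · exact h5 i)
    V
  have hgω : g (ι w) = ι w := g.commutes (⟨ι w, GKK.mem_F ι w⟩ : F)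
  have hroot : ∀ (i : Option (Fin k) ⊕ Fin s) (ρ : L), ρ ^ 3 = ι (c i) →
      g ρ = ι w ^ (V i).val * ρ := by
    intro i ρ hρ
    obtain ⟨l, hl⟩ := Pool.Agent.PT.GT.of_cube hω (hρ.trans (hA i).symm)
    have h2 := hg i
    change g (A i) = ι w ^ (V i).val * A i at h2
    rw [hl, map_mul, h2, Pool.Agent.PT.GT.E, map_pow, hgω]
    ring
  refine ⟨g.restrictScalars ℚ, hgω, fun ρ hρ => ?_, fun j ρ hρ => ?_, fun i ρ hρ => ?_⟩
  · exact hroot (Sum.inl none) ρ hρ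
  · exact hroot (Sum.inl (some j)) ρ hρ
  · exact hroot (Sum.inr i) ρ (hρ.trans (map_intCast ι (b i)).symm)

end Pool.Agent.PTK


end

section

/-!
# MKU: Kummer theory over `K = Q(w)` for all classes together, several base classes
-/

set_option autoImplicit false

open NumberField IsDedekindDomain Finset
open scoped nonZeroDivisors Pointwise

namespace Pool.Agent.PTK

open Pool.Agent.Lib_helper18 Pool.Agent.Lib_helper18.Eis Pool.Agent.Lib_helper84.Cub
open Pool.Agent.PT Pool.Agent.PTE Pool.Agent.PT3 Pool.Agent.PTL Pool.Agent.PTN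

namespace MKU

theorem z_ne {M N : ℕ} {z : Fin M → Eis} {α β : Fin N → Fin M} {P Q P' Q' : Fin N → Eis}
    (hS : SysZ z α β P Q P' Q') (j : Fin M) : z j ≠ 0 := by
  intro hj
  refine hS.ind (fun l => if l = j then 1 else 0) ⟨j, by simp⟩ ⟨0, ?_⟩
  rw [zero_pow three_ne_zero]
  symm
  exact Finset.prod_eq_zero (Finset.mem_univ j) (by simp [hj])

/-- Independence of all classes. -/
theorem indep {s M N : ℕ} {b : Fin s → ℤ} {p q p' q' : Fin s → Fin s → ℤ}
    {z : Fin M → Eis} {α β : Fin N → Fin M} {P Q P' Q' : Fin N → Eis}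
    (hG : SysG b p q p' q') (hS : SysZ z α β P Q P' Q')
    (c : Fin M → ℕ) (d : Fin s → ℕ) (t : Eis)
    (h : t ^ 3 = (∏ j, z j ^ c j) * ∏ i, (b i : Eis) ^ d i) :
    (∀ j, 3 ∣ c j) ∧ ∀ i, 3 ∣ d i := by
  have hz0 : ∀ j, z j ≠ 0 := z_ne hS
  have hb0 : ∀ i, b i ≠ 0 := JKU.b_ne hG
  choose tz htz using hS.cz
  obtain ⟨Z, hZ⟩ : ∃ Z : Eis, Z = ∏ j, z j ^ c j := ⟨_, rfl⟩
  obtain ⟨D, hD⟩ : ∃ D : ℤ, D = ∏ i, b i ^ d i := ⟨_, rfl⟩
  obtain ⟨t₁, ht₁⟩ : ∃ t₁ : Eis, t₁ = ∏ j, tz j ^ c j := ⟨_, rfl⟩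
  have hDE : (∏ i, (b i : Eis) ^ d i) = (D : Eis) := by
    rw [hD, Int.cast_prod]
    exact Finset.prod_congr rfl fun i _ => (Int.cast_pow _ _).symm
  have hD0 : D ≠ 0 := by
    rw [hD]
    exact Finset.prod_ne_zero_iff.2 fun i _ => pow_ne_zero _ (hb0 i)
  have hZ0 : Z ≠ 0 := by
    rw [hZ]
    exact Finset.prod_ne_zero_iff.2 fun i _ => pow_ne_zero _ (hz0 i)
  rw [hDE, ← hZ] at h
  have hZZ : Z * conj Z = t₁ ^ 3 := by
    rw [hZ, ht₁, map_prod, ← Finset.prod_mul_distrib, ← Finset.prod_pow]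
    refine Finset.prod_congr rfl fun j _ => ?_
    rw [map_pow, ← mul_pow, htz j, ← pow_mul, ← pow_mul, mul_comm]
  have ht₁0 : t₁ ≠ 0 := by
    rintro rfl
    rw [zero_pow three_ne_zero, mul_conj] at hZZ
    have h2 : Z.norm = 0 := JKU.cast_zero hZZ
    exact hZ0 (norm_eq_zero.1 h2)
  have hc : conj t ^ 3 = conj Z * D := by
    rw [← map_pow, h, map_mul, conj_intCast]
  have hNN : (t * conj t) ^ 3 = t₁ ^ 3 * (D : Eis) ^ 2 := by
    rw [mul_pow, h, hc, ← hZZ]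
    ring
  obtain ⟨r, hr⟩ := JKU.dvd_cube (⟨_, hNN⟩ : t₁ ^ 3 ∣ (t * conj t) ^ 3)
  have hr3 : r ^ 3 = (D : Eis) ^ 2 := by
    apply mul_left_cancel₀ (pow_ne_zero 3 ht₁0)
    rw [← hNN, hr]
    ring
  obtain ⟨m, hm⟩ := JKU.cube_int hD0 hr3
  have hd : ∀ i, 3 ∣ d i := by
    by_contra hcon
    push Not at hcon
    exact hG.ind d hcon ⟨m, by rw [hm, hD]⟩
  have hm0 : (m : Eis) ≠ 0 := by
    intro h0
    have h1 : ((m ^ 3 : ℤ) : Eis) = 0 := by
      rw [Int.cast_pow, h0, zero_pow three_ne_zero]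
    rw [hm] at h1
    exact hD0 (JKU.cast_zero h1)
  have h3 : t ^ 3 = (m : Eis) ^ 3 * Z := by
    rw [h, ← hm, Int.cast_pow]
    ring
  obtain ⟨t', ht'⟩ := JKU.dvd_cube (⟨Z, h3⟩ : (m : Eis) ^ 3 ∣ t ^ 3)
  have h4 : t' ^ 3 = Z := by
    apply mul_left_cancel₀ (pow_ne_zero 3 hm0)
    rw [← h3, ht']
    ring
  have h5 : ¬ ∃ j, ¬ 3 ∣ c j := fun hcon => hS.ind c hcon ⟨t', by rw [h4, hZ]⟩
  push Not at h5
  exact ⟨h5, hd⟩

end MKU

open _root_.Pool.Agent.PTK.MKU in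
/-- MKU: Kummer theory over `K` for all classes together. -/
theorem MKU_thm (hKUM : KUM) : Stmt_MKU := by
  intro s M N b p q p' q' z α β P Q P' Q' f L _ _ ζ ι hSG hSZ hJ a v
  have hω := GTK.rel ι
  have := hJ.minus.gal
  choose θ hθ using hJ.minus.rz
  choose η hη using hJ.plus.root
  let F := IntermediateField.adjoin ℚ {ι w}
  let c : Fin M ⊕ Fin s → Eis := Sum.elim z (fun i => (b i : Eis))
  let V : Fin M ⊕ Fin s → ZMod 3 := Sum.elim a v
  have hc0 : ∀ i, c i ≠ 0 := by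
    rintro (j | i)
    · exact z_ne hSZ j
    · intro h0
      have h1 : (b i : Eis) = 0 := h0
      exact JKU.b_ne hSG i (JKU.cast_zero h1)
  let A : Fin M ⊕ Fin s → L := Sum.elim θ η
  have hA : ∀ i, A i ^ 3 = ι (c i) := by
    rintro (j | i)
    · exact hθ j
    · exact (hη i).trans (map_intCast ι (b i)).symm
  obtain ⟨g, hg⟩ := hKUM F L ⟨ι w, GKK.mem_F ι w⟩ (Fin M ⊕ Fin s)
    (fun i => ⟨ι (c i), GKK.mem_F ι _⟩) A
    (by
      apply Subtype.ext
      push_cast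
      exact hω)
    (by
      intro i h
      have h1 : ι (c i) = 0 := congrArg Subtype.val h
      exact hc0 i (GKK.inj ι (by rw [h1, map_zero])))
    (fun i => hA i)
    (by
      rintro n ⟨β', hβ⟩
      have h1 : ι (∏ i, c i ^ n i) = (β' : L) ^ 3 := by
        have h2 := congrArg (algebraMap F L) hβ
        rw [map_pow, map_prod] at h2
        rw [map_prod]
        refine Eq.trans ?_ h2
        refine Finset.prod_congr rfl fun i _ => ?_
        rw [map_pow, map_pow]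
        rfl
      obtain ⟨t, ht⟩ := GKK.cube_of ι β'.2 h1
      rw [Fintype.prod_sum_type] at ht
      obtain ⟨h4, h5⟩ := indep hSG hSZ (fun j => n (Sum.inl j)) (fun i => n (Sum.inr i)) t ht
      rintro (j | i)
      · exact h4 j
      · exact h5 i)
    V
  have hgω : g (ι w) = ι w := g.commutes (⟨ι w, GKK.mem_F ι w⟩ : F)
  have hroot : ∀ (i : Fin M ⊕ Fin s) (ρ : L), ρ ^ 3 = ι (c i) →
      g ρ = ι w ^ (V i).val * ρ := by
    intro i ρ hρ
    obtain ⟨l, hl⟩ := Pool.Agent.PT.GT.of_cube hω (hρ.trans (hA i).symm)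
    have h2 := hg i
    change g (A i) = ι w ^ (V i).val * A i at h2
    rw [hl, map_mul, h2, Pool.Agent.PT.GT.E, map_pow, hgω]
    ring
  refine ⟨g.restrictScalars ℚ, hgω, fun j ρ hρ => ?_, fun i ρ hρ => ?_⟩
  · exact hroot (Sum.inl j) ρ hρ
  · exact hroot (Sum.inr i) ρ (hρ.trans (map_intCast ι (b i)).symm)

end Pool.Agent.PTK


end

section

/-!
# A set of places and sufficiently many units with independent symbols (over `K`)
-/

set_option autoImplicit false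

open NumberField IsDedekindDomain Finset
open scoped nonZeroDivisors Pointwise

namespace Pool.Agent.PTK

open Pool.Agent.Lib_helper18 Pool.Agent.Lib_helper18.Eis Pool.Agent.Lib_helper84.Cub
open Pool.Agent.PT

namespace NGN

open Pool.Agent.PT.NGEN

theorem nine_of {x : Eis} (h : lam ^ 4 ∣ x ^ 2 - 1) :
    ∃ ε : ℤ, (ε = 1 ∨ ε = -1) ∧ (9 : ℤ) ∣ x.re - ε ∧ (9 : ℤ) ∣ x.im := by
  obtain ⟨h1, h2⟩ := Pool.Agent.PT.NCNT.nine_dvd h
  have hre : (x ^ 2 - 1).re = x.re * x.re - x.im * x.im - 1 := by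
    rw [pow_two]
    simp
  have him : (x ^ 2 - 1).im = x.im * (2 * x.re - x.im) := by
    rw [pow_two]
    simp
    ring
  rw [hre] at h1
  rw [him] at h2
  generalize x.re = a at *
  generalize x.im = b at *
  have key : ∀ α β : ZMod 9, α * α - β * β - 1 = 0 → β * (2 * α - β) = 0 →
      (α = 1 ∨ α = -1) ∧ β = 0 := by decide
  have hcast : ∀ n : ℤ, ((n : ZMod 9) = 0 ↔ (9 : ℤ) ∣ n) := fun n => by
    have := ZMod.intCast_zmod_eq_zero_iff_dvd n 9
    simpa using this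
  rw [← hcast] at h1 h2
  push_cast at h1 h2
  obtain ⟨h3, h4⟩ := key _ _ h1 h2
  rw [hcast] at h4
  rcases h3 with h3 | h3
  · refine ⟨1, Or.inl rfl, ?_, h4⟩
    rw [← hcast]
    push_cast
    rw [h3, sub_self]
  · refine ⟨-1, Or.inr rfl, ?_, h4⟩
    rw [← hcast]
    push_cast
    rw [h3, sub_self]

theorem prim_of {x : Eis} (h : lam ^ 4 ∣ x ^ 2 - 1) : Prim x := by
  obtain ⟨ε, hε, h1, h2⟩ := nine_of h
  refine ⟨by omega, ?_⟩
  rcases hε with rfl | rfl <;> omega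

theorem dvd_sub_of {x : Eis} {ε : ℤ} (h1 : (9 : ℤ) ∣ x.re - ε) (h2 : (9 : ℤ) ∣ x.im) :
    lam ^ 4 ∣ x - (ε : Eis) := by
  have h3 : ((9 : ℤ) : Eis) ∣ x - (ε : Eis) := by
    rw [intCast_dvd_iff]
    refine ⟨?_, ?_⟩
    · simpa using h1
    · simpa using h2
  refine dvd_trans ⟨w, ?_⟩ h3
  decide

theorem lce_lam (hLCI : Stmt_LCI) {x : Eis} (h : lam ^ 4 ∣ x ^ 2 - 1) : LCE (uni none) x := by
  obtain ⟨ε, hε, h1, h2⟩ := nine_of h
  have h3 := dvd_sub_of h1 h2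
  have hl1 : ¬ lam ∣ 1 := fun h => prime_lam.not_unit (isUnit_of_dvd_one h)
  change LCE lam x
  refine hLCI.2.1 x (ε : Eis) 1 ?_ hl1 ?_
  · rcases hε with rfl | rfl
    · simpa using hl1
    · intro h4
      apply hl1
      have h5 : (1 : Eis) = (((-1 : ℤ) : Eis)) * (-1) := by decide
      rw [h5]
      exact h4.mul_right _
  · have h4 : (ε : Eis) ^ 3 = (ε : Eis) := by
      rcases hε with rfl | rfl
      · decide
      · decide
    rw [h4, one_pow, mul_one]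
    exact h3

/-- the symbol of `x` at a prime not dividing it -/
theorem ch_eqE (hSPP : SPP) (hSREC : SREC) {x : Eis} (hx : Prim x) (D : Finset PP)
    (hD : ∀ π : PP, π ∈ D ↔ π.1 ∣ x) (ρ : PP) (hρ : ρ ∉ D) :
    ch ρ.1 x = ∑ π ∈ D, (V π.1 x : ZMod 3) * sym π.1 ρ.1 := by
  classical
  have h1 := hSREC.1 ρ.1 x (ppPrim ρ) hx
  have hρx : ¬ ρ.1 ∣ x := fun h => hρ ((hD ρ).2 h)
  rw [sl_eq (insert ρ D) (fun v hv => by
    rcases hv with hv | hv
    · rw [eq_of_dvd hSPP hv]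
      exact Finset.mem_insert_self _ _
    · exact Finset.mem_insert_of_mem ((hD v).2 hv)), Finset.sum_insert hρ, neg_eq_zero] at h1
  have h2 : tm ρ.1 ρ.1 x = - ch ρ.1 x := by
    unfold tm
    rw [V_eq_zero hρx, V_self]
    push_cast
    ring
  have h3' : ∑ π ∈ D, tm π.1 ρ.1 x = ∑ π ∈ D, (V π.1 x : ZMod 3) * sym π.1 ρ.1 := by
    apply Finset.sum_congr rfl
    intro π hπ
    have hne : π ≠ ρ := fun h => hρ (h ▸ hπ)
    have hd1 : ¬ π.1 ∣ ρ.1 := fun hd => hne (eq_of_dvd hSPP hd)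
    unfold tm
    rw [V_eq_zero hd1, ch_of_not_dvd hd1]
    push_cast
    ring
  rw [h2, h3'] at h1
  rw [← add_right_inj (-ch ρ.1 x), h1]
  ring

theorem tm_eqE (hSPP : SPP) {x : Eis} {π ρ : PP} (hne : π ≠ ρ) :
    tm π.1 ρ.1 x = (V π.1 x : ZMod 3) * sym π.1 ρ.1 := by
  have hd1 : ¬ π.1 ∣ ρ.1 := fun hd => hne (eq_of_dvd hSPP hd)
  unfold tm
  rw [V_eq_zero hd1, ch_of_not_dvd hd1]
  push_cast
  ring

/-- `x` is divisible by an element of `PP` -/
theorem exists_dvdE (hSPP : SPP) {x : Eis} (h0 : x ≠ 0) (hx : Prim x)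
    (hc : ¬ ∃ c : Eis, c ^ 3 = x) : ∃ π : PP, π.1 ∣ x := by
  have hxu : ¬ IsUnit x := by
    intro h
    have h1 : Prim (1 : Eis) := ⟨by simp, by decide⟩
    rcases Prim.unit h1 h (by rw [one_mul]; exact hx) with h' | h'
    · exact hc ⟨1, by rw [h']; decide⟩
    · exact hc ⟨-1, by rw [h']; decide⟩
  obtain ⟨l, hl, hlx⟩ := WfDvdMonoid.exists_irreducible_factor hxu h0
  have hlP : Prime l := hl.prime
  have hl3 : ¬ l ∣ 3 := by
    intro h
    rw [dvd_three_iff hlP] at h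
    exact hx.not_lam_dvd (h.symm.dvd.trans hlx)
  obtain ⟨π, hπ⟩ := hSPP.1 l hlP hl3
  exact ⟨π, hπ.symm.dvd.trans hlx⟩

open Classical in
/-- from a finite type to `Fin e` -/
theorem transferE {κ : Type} [Fintype κ] (x : Eis) (S₀ S : Finset Pl) (d : κ → Eis) (hS : S₀ ⊆ S)
    (hLC : ∀ v ∈ S, v ∉ S₀ → LCE (uni v) x)
    (hcard : (S.filter fun v => ¬ LCE (uni v) x).card = Fintype.card κ + 1)
    (hd0 : ∀ i, d i ≠ 0) (hdS : ∀ i (v : Pl), uni v ∣ d i → v ∈ S)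
    (hmul : ∀ n m : κ → ℕ, ∏ i, d i ^ n i = ∏ i, d i ^ m i → n = m)
    (hind : ∀ n : κ → ZMod 3, (∀ v : Pl, ∑ i, n i * sy v (d i) x = 0) → n = 0) :
    ∃ (S : Finset Pl) (e : ℕ) (d : Fin e → Eis), S₀ ⊆ S ∧ (∀ v ∈ S, v ∉ S₀ → LCE (uni v) x) ∧
    (S.filter fun v => ¬ LCE (uni v) x).card = e + 1 ∧
    (∀ i, d i ≠ 0) ∧ (∀ i (v : Pl), uni v ∣ d i → v ∈ S) ∧
    (∀ n m : Fin e → ℕ, ∏ i, d i ^ n i = ∏ i, d i ^ m i → n = m) ∧
    (∀ n : Fin e → ZMod 3, (∀ v : Pl, ∑ i, n i * sy v (d i) x = 0) → n = 0) := by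
  let E : Fin (Fintype.card κ) ≃ κ := (Fintype.equivFin κ).symm
  refine ⟨S, Fintype.card κ, fun i => d (E i), hS, hLC, hcard, fun i => hd0 _,
    fun i v h => hdS _ v h, ?_, ?_⟩
  · intro n m h
    have h1 : ∀ n : Fin (Fintype.card κ) → ℕ,
        ∏ i, d (E i) ^ n i = ∏ k, d k ^ n (E.symm k) := by
      intro n
      rw [← E.prod_comp]
      simp
    rw [h1, h1] at h
    have h2 := hmul _ _ h
    funext i
    have := congrFun h2 (E i)
    simpa using this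
  · intro n h
    have h1 := hind (fun k => n (E.symm k)) (fun v => by
      rw [← h v, ← E.sum_comp]
      simp)
    funext i
    have := congrFun h1 (E i)
    simpa using this

theorem V_castE {x : Eis} (π : PP) (h : π.1 ∣ x) (h2 : V π.1 x ≤ 2) :
    (V π.1 x : ZMod 3) * (V π.1 x : ZMod 3) = 1 ∧ ¬ 3 ∣ V π.1 x := by
  have h1 : V π.1 x ≠ 0 := fun h' => (V_eq_zero_iff.1 h') h
  have h3 : V π.1 x = 1 ∨ V π.1 x = 2 := by omega
  rcases h3 with h3 | h3
  · rw [h3]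
    exact ⟨by decide, by decide⟩
  · rw [h3]
    exact ⟨by decide, by decide⟩

end NGN

open Pool.Agent.PT.NGEN _root_.Pool.Agent.PTK.NGN in
open Classical in
/-- a set of places and sufficiently many units with independent symbols -/
theorem NGN_thm (hSPP : SPP) (hSREC : SREC) (hLCI : Stmt_LCI)
    (hNAUX : NAUX) : Stmt_NGN := by
  intro x S₀ hx0 hx9 hV hcube hnone hS0 hS0'
  have hxP : Prim x := prim_of hx9
  obtain ⟨D, hD⟩ : ∃ D : Finset PP, ∀ π : PP, π ∈ D ↔ π.1 ∣ x := by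
    refine ⟨(hSPP.2.2.1 x hx0).toFinset, fun π => ?_⟩
    rw [Set.Finite.mem_toFinset]
    rfl
  obtain ⟨π₀, hπ₀⟩ := exists_dvdE hSPP hx0 hxP hcube
  have hπ₀D : π₀ ∈ D := (hD π₀).2 hπ₀
  have hVD : ∀ π ∈ D, (V π.1 x : ZMod 3) * (V π.1 x : ZMod 3) = 1 ∧
      ¬ 3 ∣ V π.1 x := fun π hπ => V_castE π ((hD π).1 hπ) (hV π)
  let κ : Type := {k // k ∈ D.erase π₀}
  -- the vectors
  let r : κ → PP → ZMod 3 := fun k π => if π = k.1 then 1 else
    if π = π₀ then - (V k.1.1 x : ZMod 3) * (V π₀.1 x : ZMod 3) else 0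
  have hkD : ∀ k : κ, k.1 ∈ D ∧ k.1 ≠ π₀ := fun k =>
    ⟨Finset.mem_of_mem_erase k.2, Finset.ne_of_mem_erase k.2⟩
  have hr0 : ∀ k : κ, ∑ π ∈ D, (V π.1 x : ZMod 3) * r k π = 0 := by
    intro k
    obtain ⟨hk1, hk2⟩ := hkD k
    have h1 : ∑ π ∈ D, (V π.1 x : ZMod 3) * r k π =
        ∑ π ∈ ({k.1, π₀} : Finset PP), (V π.1 x : ZMod 3) * r k π := by
      symm
      apply Finset.sum_subset
      · intro π hπ
        rcases Finset.mem_insert.1 hπ with rfl | hπ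
        · exact hk1
        · rw [Finset.mem_singleton.1 hπ]
          exact hπ₀D
      · intro π _ hπ
        rw [Finset.mem_insert, Finset.mem_singleton, not_or] at hπ
        simp only [r]
        rw [if_neg hπ.1, if_neg hπ.2, mul_zero]
    have hr1 : r k k.1 = 1 := if_pos rfl
    have hr2 : r k π₀ = - (V k.1.1 x : ZMod 3) * (V π₀.1 x : ZMod 3) := by
      change (if π₀ = k.1 then (1 : ZMod 3) else
        if π₀ = π₀ then - (V k.1.1 x : ZMod 3) * (V π₀.1 x : ZMod 3) else 0) = _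
      rw [if_neg hk2.symm, if_pos rfl]
    rw [h1, Finset.sum_pair hk2, hr1, hr2]
    have h2 := (hVD π₀ hπ₀D).1
    calc (V k.1.1 x : ZMod 3) * 1 + (V π₀.1 x : ZMod 3) *
          (- (V k.1.1 x : ZMod 3) * (V π₀.1 x : ZMod 3))
        = (V k.1.1 x : ZMod 3) * (1 - (V π₀.1 x : ZMod 3) *
          (V π₀.1 x : ZMod 3)) := by ring
      _ = 0 := by rw [h2, sub_self, mul_zero]
  have hrk : ∀ k l : κ, r k l.1 = if l = k then 1 else 0 := by
    intro k l
    simp only [r]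
    by_cases h : l = k
    · rw [h, if_pos rfl, if_pos rfl]
    · rw [if_neg (fun h' => h (Subtype.ext h')), if_neg (hkD l).2, if_neg h]
  -- the auxiliary primes
  have hex : ∀ (k : κ) (A : Finset PP), ∃ ρ : PP, ρ ∉ A ∧ ∃ ε : ZMod 3, ε ≠ 0 ∧
      ∀ π ∈ D, sym ρ.1 π.1 = ε * r k π := by
    intro k A
    obtain ⟨ρ, hρ, ε, hε, h⟩ := hNAUX D.card (fun i => (D.equivFin.symm i).1)
      (fun i => r k (D.equivFin.symm i).1) A (fun i j h => by
        exact D.equivFin.symm.injective (Subtype.ext h))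
    refine ⟨ρ, hρ, ε, hε, fun π hπ => ?_⟩
    have := h (D.equivFin ⟨π, hπ⟩)
    simpa using this
  let A₀ : Finset PP := (S₀.biUnion fun v => match v with
    | none => ∅
    | some π => {π})
  have hA₀ : ∀ π : PP, π ∈ A₀ ↔ some π ∈ S₀ := by
    intro π
    simp only [A₀, Finset.mem_biUnion]
    constructor
    · rintro ⟨v, hv, hπ⟩
      cases v with
      | none => simp at hπ
      | some π' =>
        have : π = π' := by simpa using hπ
        rw [this]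
        exact hv
    · intro h
      exact ⟨some π, h, by simp⟩
  obtain ⟨ρ, hρ1, hρ2⟩ := choose_distinct (κ := κ) (α := PP)
    (fun k ρ => ∃ ε : ZMod 3, ε ≠ 0 ∧ ∀ π ∈ D, sym ρ.1 π.1 = ε * r k π) A₀ hex Finset.univ
  have hρS : ∀ k, some (ρ k) ∉ S₀ := fun k h => (hρ1 k (Finset.mem_univ _)).2 ((hA₀ _).2 h)
  have hρD : ∀ k, ρ k ∉ D := fun k h => hρS k (hS0 _ ((hD _).1 h))
  have hρinj : ∀ k l, ρ k = ρ l → k = l := fun k l h =>
    hρ2 k (Finset.mem_univ _) l (Finset.mem_univ _) h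
  choose ε hε hsym using fun k => (hρ1 k (Finset.mem_univ _)).1
  have hsym' : ∀ k, ∀ π ∈ D, sym π.1 (ρ k).1 = ε k * r k π := by
    intro k π hπ
    have hne : π ≠ ρ k := fun h => hρD k (h ▸ hπ)
    rw [← recPP hSPP hSREC hne]
    exact hsym k π hπ
  have htm : ∀ k, ∀ π ∈ D, tm π.1 (ρ k).1 x =
      (V π.1 x : ZMod 3) * (ε k * r k π) := by
    intro k π hπ
    have hne : π ≠ ρ k := fun h => hρD k (h ▸ hπ)
    rw [tm_eqE hSPP hne, hsym' k π hπ]
  have htm0 : ∀ k, ∑ π ∈ D, tm π.1 (ρ k).1 x = 0 := by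
    intro k
    rw [Finset.sum_congr rfl (htm k)]
    have h1 : ∀ π ∈ D, (V π.1 x : ZMod 3) * (ε k * r k π) =
        ε k * ((V π.1 x : ZMod 3) * r k π) := fun π _ => by ring
    rw [Finset.sum_congr rfl h1, ← Finset.mul_sum, hr0 k, mul_zero]
  have hLCρ : ∀ k, LCE (ρ k).1 x := by
    intro k
    rw [hLCI.1 (ρ k) x hx0]
    have hnd : ¬ (ρ k).1 ∣ x := fun h => hρD k ((hD _).2 h)
    refine ⟨by rw [V_eq_zero hnd]; exact dvd_zero _, ?_⟩
    rw [ch_eqE hSPP hSREC hxP D hD (ρ k) (hρD k)]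
    have h1 : ∀ π ∈ D, (V π.1 x : ZMod 3) * sym π.1 (ρ k).1 =
        ε k * ((V π.1 x : ZMod 3) * r k π) := fun π hπ => by
      rw [hsym' k π hπ]
      ring
    rw [Finset.sum_congr rfl h1, ← Finset.mul_sum, hr0 k, mul_zero]
  have hLCD : ∀ π ∈ D, ¬ LCE π.1 x := by
    intro π hπ h
    exact (hVD π hπ).2 ((hLCI.1 π x hx0).1 h).1
  -- the set of places
  let S : Finset Pl := S₀ ∪ Finset.univ.image (fun k : κ => some (ρ k))
  have hmemS : ∀ v, v ∈ S ↔ v ∈ S₀ ∨ ∃ k, some (ρ k) = v := by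
    intro v
    simp [S]
  have hLCS : ∀ v ∈ S, v ∉ S₀ → LCE (uni v) x := by
    intro v hv hv0
    rcases (hmemS v).1 hv with h | ⟨k, rfl⟩
    · exact absurd h hv0
    · exact hLCρ k
  have hSsub : S₀ ⊆ S := fun v hv => (hmemS v).2 (Or.inl hv)
  have hcκ : Fintype.card κ + 1 = D.card := by
    have h1 : Fintype.card κ = (D.erase π₀).card := Fintype.card_coe _
    rw [h1, Finset.card_erase_of_mem hπ₀D]
    have : 0 < D.card := Finset.card_pos.2 ⟨π₀, hπ₀D⟩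
    omega
  have hfilter : ∀ v, v ∈ S.filter (fun v => ¬ LCE (uni v) x) ↔
      v ∈ D.image some := by
    intro v
    rw [Finset.mem_filter, hmemS]
    cases v with
    | none =>
      constructor
      · rintro ⟨_, h⟩
        exact absurd (lce_lam hLCI hx9) h
      · intro h
        simp at h
    | some π =>
      constructor
      · rintro ⟨h1, h2⟩
        rw [Finset.mem_image]
        rcases h1 with h1 | ⟨k, hk⟩
        · exact ⟨π, (hD π).2 (hS0' π h1 h2), rfl⟩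
        · exfalso
          have : ρ k = π := by simpa using hk
          exact h2 (this ▸ hLCρ k)
      · intro h
        rw [Finset.mem_image] at h
        obtain ⟨π', hπ', he⟩ := h
        have : π' = π := by simpa using he
        subst this
        exact ⟨Or.inl (hS0 _ ((hD _).1 hπ')), hLCD _ hπ'⟩
  have hVρ : ∀ k l, V (ρ k).1 (ρ l).1 = if l = k then 1 else 0 := by
    intro k l
    by_cases h : l = k
    · rw [h, if_pos rfl]
      exact V_self
    · rw [if_neg h]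
      apply V_eq_zero
      intro hd
      exact h (hρinj _ _ (eq_of_dvd hSPP hd)).symm
  have hρdS : ∀ (k : κ) (v : Pl), uni v ∣ (ρ k).1 → v ∈ S := by
    intro k v hv
    cases v with
    | none => exact hSsub hnone
    | some π =>
      have : π = ρ k := eq_of_dvd hSPP hv
      rw [this]
      exact (hmemS _).2 (Or.inr ⟨k, rfl⟩)
  -- independence, first part
  have hsum : ∀ (n : κ → ZMod 3) (l : κ), ∑ k, n k * tm l.1.1 (ρ k).1 x =
      (V l.1.1 x : ZMod 3) * (ε l * n l) := by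
    intro n l
    rw [Finset.sum_eq_single l]
    · rw [htm l l.1 (hkD l).1, hrk, if_pos rfl]
      ring
    · intro k _ hk
      rw [htm k l.1 (hkD l).1, hrk, if_neg (fun h => hk h.symm)]
      ring
    · intro h
      exact absurd (Finset.mem_univ _) h
  have hzero : ∀ (l : κ) (a : ZMod 3), (V l.1.1 x : ZMod 3) * (ε l * a) = 0 → a = 0 := by
    intro l a h
    have h1 := (hVD l.1 (hkD l).1).1
    have h2 : (V l.1.1 x : ZMod 3) ≠ 0 := by
      intro h0
      rw [h0, mul_zero] at h1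
      exact zero_ne_one h1
    rcases mul_eq_zero.1 h with h | h
    · exact absurd h h2
    · rcases mul_eq_zero.1 h with h | h
      · exact absurd h (hε l)
      · exact h
  refine transferE (κ := κ) x S₀ S (fun k => (ρ k).1) hSsub hLCS ?_
    (fun k => (ρ k).2.1.ne_zero) hρdS ?_ ?_
  · have h1 : S.filter (fun v => ¬ LCE (uni v) x) = D.image some := by
      ext v
      rw [hfilter]
    rw [h1, Finset.card_image_of_injective _ (Option.some_injective _), hcκ]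
  · apply mul_indep
    · exact fun k => (ρ k).2.1.ne_zero
    · intro k
      refine ⟨(ρ k).1, (ρ k).2.1, ?_, ?_⟩
      · rw [hVρ, if_pos rfl]
        exact one_ne_zero
      · intro l hl
        rw [hVρ, if_neg hl]
  · intro n h
    funext l
    have h1 := h (some l.1)
    change ∑ k, n k * tm l.1.1 (ρ k).1 x = 0 at h1
    rw [hsum] at h1
    exact hzero l _ h1

end Pool.Agent.PTK


end

section

/-!
# A set of places and sufficiently many units with independent symbols, `x` not a local cube at `λ`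

Hypotheses: `SPP`, `SSL`, `SREC`, `SLC`, `Stmt_LCI`, `NAUX`.
-/

set_option autoImplicit false

open NumberField IsDedekindDomain Finset
open scoped nonZeroDivisors Pointwise

namespace Pool.Agent.PTK

open Pool.Agent.Lib_helper18 Pool.Agent.Lib_helper18.Eis Pool.Agent.Lib_helper84.Cub
open Pool.Agent.PT

namespace NG2

open Pool.Agent.PT.NGEN

theorem not_dvd_lam (hSPP : SPP) (π : PP) : ¬ π.1 ∣ lam := fun h =>
  not_three hSPP π (h.trans lam_dvd_three)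

theorem not_lam_dvd (hSPP : SPP) (π : PP) : ¬ lam ∣ π.1 :=
  not_lam_dvd_of_prime π.2.1 (not_three hSPP π)

end NG2

open Pool.Agent.PT.NGEN NGN _root_.Pool.Agent.PTK.NG2 in
open Classical in
/-- a set of places and sufficiently many units with independent symbols -/
theorem NG2_thm (hSPP : SPP) (hSSL : SSL) (hSREC : SREC) (hSLC : SLC) (hLCI : Stmt_LCI)
    (hNAUX : NAUX) : Stmt_NG2 := by
  intro x S₀ hx0 hxP hxl hV hcube hnone hS0 hS0'
  have hlam0 : lam ≠ 0 := prime_lam.ne_zero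
  have hnlam : ¬ LCE lam x := fun h => hxl (hLCI.2.2 lam sl 4 x lam hSLC h hx0 hlam0)
  obtain ⟨D, hD⟩ : ∃ D : Finset PP, ∀ π : PP, π ∈ D ↔ π.1 ∣ x := by
    refine ⟨(hSPP.2.2.1 x hx0).toFinset, fun π => ?_⟩
    rw [Set.Finite.mem_toFinset]
    rfl
  obtain ⟨π₀, hπ₀⟩ := exists_dvdE hSPP hx0 hxP hcube
  have hπ₀D : π₀ ∈ D := (hD π₀).2 hπ₀
  have hVD : ∀ π ∈ D, (V π.1 x : ZMod 3) * (V π.1 x : ZMod 3) = 1 ∧
      ¬ 3 ∣ V π.1 x := fun π hπ => V_castE π ((hD π).1 hπ) (hV π)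
  let κ : Type := {k // k ∈ D.erase π₀}
  -- the vectors
  let r : κ → PP → ZMod 3 := fun k π => if π = k.1 then 1 else
    if π = π₀ then - (V k.1.1 x : ZMod 3) * (V π₀.1 x : ZMod 3) else 0
  have hkD : ∀ k : κ, k.1 ∈ D ∧ k.1 ≠ π₀ := fun k =>
    ⟨Finset.mem_of_mem_erase k.2, Finset.ne_of_mem_erase k.2⟩
  have hr0 : ∀ k : κ, ∑ π ∈ D, (V π.1 x : ZMod 3) * r k π = 0 := by
    intro k
    obtain ⟨hk1, hk2⟩ := hkD k
    have h1 : ∑ π ∈ D, (V π.1 x : ZMod 3) * r k π =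
        ∑ π ∈ ({k.1, π₀} : Finset PP), (V π.1 x : ZMod 3) * r k π := by
      symm
      apply Finset.sum_subset
      · intro π hπ
        rcases Finset.mem_insert.1 hπ with rfl | hπ
        · exact hk1
        · rw [Finset.mem_singleton.1 hπ]
          exact hπ₀D
      · intro π _ hπ
        rw [Finset.mem_insert, Finset.mem_singleton, not_or] at hπ
        simp only [r]
        rw [if_neg hπ.1, if_neg hπ.2, mul_zero]
    have hr1 : r k k.1 = 1 := if_pos rfl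
    have hr2 : r k π₀ = - (V k.1.1 x : ZMod 3) * (V π₀.1 x : ZMod 3) := by
      change (if π₀ = k.1 then (1 : ZMod 3) else
        if π₀ = π₀ then - (V k.1.1 x : ZMod 3) * (V π₀.1 x : ZMod 3) else 0) = _
      rw [if_neg hk2.symm, if_pos rfl]
    rw [h1, Finset.sum_pair hk2, hr1, hr2]
    have h2 := (hVD π₀ hπ₀D).1
    calc (V k.1.1 x : ZMod 3) * 1 + (V π₀.1 x : ZMod 3) *
          (- (V k.1.1 x : ZMod 3) * (V π₀.1 x : ZMod 3))
        = (V k.1.1 x : ZMod 3) * (1 - (V π₀.1 x : ZMod 3) *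
          (V π₀.1 x : ZMod 3)) := by ring
      _ = 0 := by rw [h2, sub_self, mul_zero]
  have hrk : ∀ k l : κ, r k l.1 = if l = k then 1 else 0 := by
    intro k l
    simp only [r]
    by_cases h : l = k
    · rw [h, if_pos rfl, if_pos rfl]
    · rw [if_neg (fun h' => h (Subtype.ext h')), if_neg (hkD l).2, if_neg h]
  -- the auxiliary primes
  have hex : ∀ (k : κ) (A : Finset PP), ∃ ρ : PP, ρ ∉ A ∧ ∃ ε : ZMod 3, ε ≠ 0 ∧
      ∀ π ∈ D, sym ρ.1 π.1 = ε * r k π := by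
    intro k A
    obtain ⟨ρ, hρ, ε, hε, h⟩ := hNAUX D.card (fun i => (D.equivFin.symm i).1)
      (fun i => r k (D.equivFin.symm i).1) A (fun i j h => by
        exact D.equivFin.symm.injective (Subtype.ext h))
    refine ⟨ρ, hρ, ε, hε, fun π hπ => ?_⟩
    have := h (D.equivFin ⟨π, hπ⟩)
    simpa using this
  let A₀ : Finset PP := (S₀.biUnion fun v => match v with
    | none => ∅
    | some π => {π})
  have hA₀ : ∀ π : PP, π ∈ A₀ ↔ some π ∈ S₀ := by
    intro π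
    simp only [A₀, Finset.mem_biUnion]
    constructor
    · rintro ⟨v, hv, hπ⟩
      cases v with
      | none => simp at hπ
      | some π' =>
        have : π = π' := by simpa using hπ
        rw [this]
        exact hv
    · intro h
      exact ⟨some π, h, by simp⟩
  obtain ⟨ρ, hρ1, hρ2⟩ := choose_distinct (κ := κ) (α := PP)
    (fun k ρ => ∃ ε : ZMod 3, ε ≠ 0 ∧ ∀ π ∈ D, sym ρ.1 π.1 = ε * r k π) A₀ hex Finset.univ
  have hρS : ∀ k, some (ρ k) ∉ S₀ := fun k h => (hρ1 k (Finset.mem_univ _)).2 ((hA₀ _).2 h)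
  have hρD : ∀ k, ρ k ∉ D := fun k h => hρS k (hS0 _ ((hD _).1 h))
  have hρinj : ∀ k l, ρ k = ρ l → k = l := fun k l h =>
    hρ2 k (Finset.mem_univ _) l (Finset.mem_univ _) h
  choose ε hε hsym using fun k => (hρ1 k (Finset.mem_univ _)).1
  have hsym' : ∀ k, ∀ π ∈ D, sym π.1 (ρ k).1 = ε k * r k π := by
    intro k π hπ
    have hne : π ≠ ρ k := fun h => hρD k (h ▸ hπ)
    rw [← recPP hSPP hSREC hne]
    exact hsym k π hπ
  have htm : ∀ k, ∀ π ∈ D, tm π.1 (ρ k).1 x =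
      (V π.1 x : ZMod 3) * (ε k * r k π) := by
    intro k π hπ
    have hne : π ≠ ρ k := fun h => hρD k (h ▸ hπ)
    rw [tm_eqE hSPP hne, hsym' k π hπ]
  have htm0 : ∀ k, ∑ π ∈ D, tm π.1 (ρ k).1 x = 0 := by
    intro k
    rw [Finset.sum_congr rfl (htm k)]
    have h1 : ∀ π ∈ D, (V π.1 x : ZMod 3) * (ε k * r k π) =
        ε k * ((V π.1 x : ZMod 3) * r k π) := fun π _ => by ring
    rw [Finset.sum_congr rfl h1, ← Finset.mul_sum, hr0 k, mul_zero]
  have hLCρ : ∀ k, LCE (ρ k).1 x := by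
    intro k
    rw [hLCI.1 (ρ k) x hx0]
    have hnd : ¬ (ρ k).1 ∣ x := fun h => hρD k ((hD _).2 h)
    refine ⟨by rw [V_eq_zero hnd]; exact dvd_zero _, ?_⟩
    rw [ch_eqE hSPP hSREC hxP D hD (ρ k) (hρD k)]
    have h1 : ∀ π ∈ D, (V π.1 x : ZMod 3) * sym π.1 (ρ k).1 =
        ε k * ((V π.1 x : ZMod 3) * r k π) := fun π hπ => by
      rw [hsym' k π hπ]
      ring
    rw [Finset.sum_congr rfl h1, ← Finset.mul_sum, hr0 k, mul_zero]
  have hLCD : ∀ π ∈ D, ¬ LCE π.1 x := by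
    intro π hπ h
    exact (hVD π hπ).2 ((hLCI.1 π x hx0).1 h).1
  -- the set of places
  let S : Finset Pl := S₀ ∪ Finset.univ.image (fun k : κ => some (ρ k))
  have hmemS : ∀ v, v ∈ S ↔ v ∈ S₀ ∨ ∃ k, some (ρ k) = v := by
    intro v
    simp [S]
  have hLCS : ∀ v ∈ S, v ∉ S₀ → LCE (uni v) x := by
    intro v hv hv0
    rcases (hmemS v).1 hv with h | ⟨k, rfl⟩
    · exact absurd h hv0
    · exact hLCρ k
  have hSsub : S₀ ⊆ S := fun v hv => (hmemS v).2 (Or.inl hv)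
  have hcκ : Fintype.card κ + 1 = D.card := by
    have h1 : Fintype.card κ = (D.erase π₀).card := Fintype.card_coe _
    rw [h1, Finset.card_erase_of_mem hπ₀D]
    have : 0 < D.card := Finset.card_pos.2 ⟨π₀, hπ₀D⟩
    omega
  have hfilter : ∀ v, v ∈ S.filter (fun v => ¬ LCE (uni v) x) ↔
      v ∈ insert none (D.image some) := by
    intro v
    rw [Finset.mem_filter, hmemS, Finset.mem_insert]
    cases v with
    | none =>
      constructor
      · intro _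
        exact Or.inl rfl
      · intro _
        exact ⟨Or.inl hnone, hnlam⟩
    | some π =>
      constructor
      · rintro ⟨h1, h2⟩
        refine Or.inr ?_
        rw [Finset.mem_image]
        rcases h1 with h1 | ⟨k, hk⟩
        · exact ⟨π, (hD π).2 (hS0' π h1 h2), rfl⟩
        · exfalso
          have : ρ k = π := by simpa using hk
          exact h2 (this ▸ hLCρ k)
      · intro h
        rcases h with h | h
        · exact absurd h (by simp)
        rw [Finset.mem_image] at h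
        obtain ⟨π', hπ', he⟩ := h
        have : π' = π := by simpa using he
        subst this
        exact ⟨Or.inl (hS0 _ ((hD _).1 hπ')), hLCD _ hπ'⟩
  have hVρ : ∀ k l, V (ρ k).1 (ρ l).1 = if l = k then 1 else 0 := by
    intro k l
    by_cases h : l = k
    · rw [h, if_pos rfl]
      exact V_self
    · rw [if_neg h]
      apply V_eq_zero
      intro hd
      exact h (hρinj _ _ (eq_of_dvd hSPP hd)).symm
  have hρdS : ∀ (k : κ) (v : Pl), uni v ∣ (ρ k).1 → v ∈ S := by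
    intro k v hv
    cases v with
    | none => exact hSsub hnone
    | some π =>
      have : π = ρ k := eq_of_dvd hSPP hv
      rw [this]
      exact (hmemS _).2 (Or.inr ⟨k, rfl⟩)
  -- independence, first part
  have hsum : ∀ (n : κ → ZMod 3) (l : κ), ∑ k, n k * tm l.1.1 (ρ k).1 x =
      (V l.1.1 x : ZMod 3) * (ε l * n l) := by
    intro n l
    rw [Finset.sum_eq_single l]
    · rw [htm l l.1 (hkD l).1, hrk, if_pos rfl]
      ring
    · intro k _ hk
      rw [htm k l.1 (hkD l).1, hrk, if_neg (fun h => hk h.symm)]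
      ring
    · intro h
      exact absurd (Finset.mem_univ _) h
  have hzero : ∀ (l : κ) (a : ZMod 3), (V l.1.1 x : ZMod 3) * (ε l * a) = 0 → a = 0 := by
    intro l a h
    have h1 := (hVD l.1 (hkD l).1).1
    have h2 : (V l.1.1 x : ZMod 3) ≠ 0 := by
      intro h0
      rw [h0, mul_zero] at h1
      exact zero_ne_one h1
    rcases mul_eq_zero.1 h with h | h
    · exact absurd h h2
    · rcases mul_eq_zero.1 h with h | h
      · exact absurd h (hε l)
      · exact h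
  -- the symbols of `λ`
  have hlamsum : ∑ π ∈ D, tm π.1 lam x = sl x lam := by
    have h1 := sl_eq (a := lam) (b := x) D (fun π h => by
      rcases h with h | h
      · exact absurd h (not_dvd_lam hSPP π)
      · exact (hD π).2 h)
    have h2 := hSSL.2.1 x lam hx0 hlam0
    rw [h1] at h2
    exact neg_injective h2
  let d : Option κ → Eis := fun o => match o with
    | none => lam
    | some k => (ρ k).1
  have hd0 : ∀ o, d o ≠ 0 := by
    intro o
    cases o with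
    | none => exact hlam0
    | some k => exact (ρ k).2.1.ne_zero
  refine transferE (κ := Option κ) x S₀ S d hSsub hLCS ?_ hd0 ?_ ?_ ?_
  · have h1 : S.filter (fun v => ¬ LCE (uni v) x) = insert none (D.image some) := by
      ext v
      rw [hfilter]
    rw [h1, Finset.card_insert_of_notMem (by simp),
      Finset.card_image_of_injective _ (Option.some_injective _), Fintype.card_option, hcκ]
  · intro o v hv
    cases o with
    | none =>
      cases v with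
      | none => exact hSsub hnone
      | some π => exact absurd hv (not_dvd_lam hSPP π)
    | some k => exact hρdS k v hv
  · apply mul_indep
    · exact hd0
    · intro o
      cases o with
      | none =>
        refine ⟨lam, prime_lam, ?_, ?_⟩
        · change V lam lam ≠ 0
          rw [V_self]
          exact one_ne_zero
        · intro o' ho'
          cases o' with
          | none => exact absurd rfl ho'
          | some k => exact V_eq_zero (not_lam_dvd hSPP (ρ k))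
      | some k =>
        refine ⟨(ρ k).1, (ρ k).2.1, ?_, ?_⟩
        · change V (ρ k).1 (ρ k).1 ≠ 0
          rw [hVρ, if_pos rfl]
          exact one_ne_zero
        · intro o' ho'
          cases o' with
          | none => exact V_eq_zero (not_dvd_lam hSPP (ρ k))
          | some l =>
            change V (ρ k).1 (ρ l).1 = 0
            rw [hVρ, if_neg (fun h => ho' (by rw [h]))]
  · intro n h
    have h1 : ∀ π : PP, n none * tm π.1 lam x + ∑ k, n (some k) * tm π.1 (ρ k).1 x = 0 := by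
      intro π
      have h2 := h (some π)
      rw [Fintype.sum_option] at h2
      exact h2
    have hn0 : n none = 0 := by
      have h2 : ∑ π ∈ D, (n none * tm π.1 lam x + ∑ k, n (some k) * tm π.1 (ρ k).1 x) = 0 :=
        Finset.sum_eq_zero fun π _ => h1 π
      rw [Finset.sum_add_distrib, ← Finset.mul_sum, hlamsum, Finset.sum_comm] at h2
      have h3 : ∑ k, ∑ π ∈ D, n (some k) * tm π.1 (ρ k).1 x = 0 := by
        apply Finset.sum_eq_zero
        intro k _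
        rw [← Finset.mul_sum, htm0 k, mul_zero]
      rw [h3, add_zero] at h2
      rcases mul_eq_zero.1 h2 with h4 | h4
      · exact h4
      · exact absurd h4 hxl
    funext o
    cases o with
    | none => exact hn0
    | some l =>
      have h2 := h1 l.1
      rw [hn0, zero_mul, zero_add, hsum (fun k => n (some k)) l] at h2
      exact hzero l _ h2

end Pool.Agent.PTK


end

section

/-!
# Full law: additivity of the local term at `lam` when the base is not a local cube and the norms are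
-/

set_option autoImplicit false

namespace Pool.Agent.PTK

open Pool.Agent.Lib_helper18 Pool.Agent.Lib_helper18.Eis Pool.Agent.Lib_helper84.Cub
open Pool.Agent.PT Pool.Agent.PTE Pool.Agent.PT3 Pool.Agent.PTL Pool.Agent.PTN

namespace RAE

/-- linear forms at good approximations of a cube root do not vanish -/
theorem lf_ne {π : Eis} (hπ : Prime π) {p q r b : Eis} {N : ℕ} (hn : p ^ 3 + b * q ^ 3 ≠ 0)
    (hN : V π (p ^ 3 + b * q ^ 3) < N) (hr : π ^ N ∣ r ^ 3 - b) (i : ℕ) : LfE p q i r ≠ 0 := by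
  intro h0
  unfold LfE at h0
  have h1 : q * w ^ i * r = -p := by linear_combination h0
  have h2 : (q * w ^ i * r) ^ 3 = (-p) ^ 3 := by rw [h1]
  have h3 : (w ^ i) ^ 3 = 1 := by rw [← pow_mul, mul_comm, pow_mul, w_cube, one_pow]
  have h4 : p ^ 3 + b * q ^ 3 = (-q ^ 3) * (r ^ 3 - b) := by
    linear_combination h2 - q ^ 3 * r ^ 3 * h3
  have h5 : π ^ N ∣ p ^ 3 + b * q ^ 3 := by
    rw [h4]
    exact Dvd.dvd.mul_left hr _
  have h6 := (fin hπ hn).le_multiplicity_of_pow_dvd h5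
  exact absurd h6 (not_le.2 hN)

theorem gf_swap (p q p' q' : Eis) (i : ℕ) : GfE p (-p') (-q) q' i = GfE p q p' q' i := by
  unfold GfE
  ring

/-- base and norm exchanged -/
theorem swap {b x p q p' q' : Eis} (h : SolE b x p q p' q') : SolE x b p (-p') (-q) q' where
  eq := by linear_combination h.eq
  n1 := by
    intro h0
    apply h.n2
    linear_combination h0
  n2 := by
    intro h0
    apply h.n1
    linear_combination h0
  g1 := by rw [gf_swap]; exact h.g1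
  g2 := by rw [gf_swap]; exact h.g2

theorem lce_mul {π a b : Eis} (ha : LCE π a) (hb : LCE π b) : LCE π (a * b) := by
  intro N
  obtain ⟨r, hr⟩ := ha N
  obtain ⟨s, hs⟩ := hb N
  refine ⟨r * s, ?_⟩
  have h1 : (r * s) ^ 3 - a * b = r ^ 3 * (s ^ 3 - b) + b * (r ^ 3 - a) := by ring
  rw [h1]
  exact dvd_add (Dvd.dvd.mul_left hs _) (Dvd.dvd.mul_left hr _)

/-- the local term through the local terms of two points -/
theorem key (hAVE : Stmt_AVE) (hIIA : Stmt_IIA) (hIF2 : Stmt_IF2) (hLCI : Stmt_LCI)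
    (hSSL : SSL) (hSLC : SLC) {B b x p q p' q' X Y X' Y' : Eis} {κ : ZMod 3} (hB : B ≠ 0)
    (hb : b ≠ 0) (hx : x ≠ 0) (hbB : sl b B = 0) (hLb : ¬ LCE lam b) (hLx : LCE lam x)
    (hS : SolE b x p q p' q') (hX : X ≠ 0) (hY : Y ≠ 0) (hX' : X' ≠ 0) (hY' : Y' ≠ 0)
    (hn : X ^ 3 + b * Y ^ 3 ≠ 0) (hn' : X' ^ 3 + b * Y' ^ 3 ≠ 0)
    (hD : DNE X Y p (-p') (-q) q') (hD' : DNE X' Y' p (-p') (-q) q')
    (hκ : ∀ z : Eis, z ≠ 0 → sl B z = κ * (sl (X ^ 3 + b * Y ^ 3) z +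
      sl (X' ^ 3 + b * Y' ^ 3) z - sl b z)) :
    LTE B b x p q p' q' = κ * (SVE sl b p (-p') (-q) q' X Y + SVE sl b p (-p') (-q) q' X' Y') := by
  have hS' := swap hS
  have hw : (w : Eis) ≠ 0 := isUnit_w.ne_zero
  obtain ⟨⟨N1, h1⟩, -⟩ := hAVE none B x b p (-p') (-q) q' hB hx hb hS'.toSolWE
    (by
      show sl B b = 0
      rw [hSSL.2.1 b B hb hB, hbB, neg_zero]) hLx
  obtain ⟨N2, h2⟩ := hIIA x b p (-p') (-q) q' X Y hx hb hLx hS' hX hY hn hD
  obtain ⟨N3, h3⟩ := hIIA x b p (-p') (-q) q' X' Y' hx hb hLx hS' hX' hY' hn' hD'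
  obtain ⟨N4, h4⟩ := hIF2 lam sl 4 hSLC x b p (-p') (-q) q' hx hb hS'
  have hm1 : p ^ 3 + x * (-p') ^ 3 ≠ 0 := hS'.n1
  have hm2 : (-q) ^ 3 + x * q' ^ 3 ≠ 0 := by
    intro h0
    apply hm1
    rw [hS'.eq, h0, mul_zero]
  obtain ⟨ξ, hξ⟩ := hLx (N1 + N2 + N3 + N4 + V lam (p ^ 3 + x * (-p') ^ 3) +
    V lam ((-q) ^ 3 + x * q' ^ 3) + 1)
  have hd : ∀ M : ℕ, M ≤ N1 + N2 + N3 + N4 + V lam (p ^ 3 + x * (-p') ^ 3) +
      V lam ((-q) ^ 3 + x * q' ^ 3) + 1 → lam ^ M ∣ ξ ^ 3 - x :=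
    fun M hM => (pow_dvd_pow lam hM).trans hξ
  have e1 : ASE sl B p (-p') (-q) q' ξ = AVE none B x p (-p') (-q) q' :=
    h1 ξ (hd N1 (by omega))
  have e2 := h2 ξ (hd N2 (by omega))
  have e3 := h3 ξ (hd N3 (by omega))
  have e4 := h4 ξ (hd N4 (by omega))
  have l1 : ∀ i, LfE p (-p') i ξ ≠ 0 := fun i =>
    lf_ne prime_lam hm1 (by omega) (hd (V lam (p ^ 3 + x * (-p') ^ 3) + 1) (by omega)) i
  have l2 : ∀ i, LfE (-q) q' i ξ ≠ 0 := fun i =>
    lf_ne prime_lam hm2 (by omega) (hd (V lam ((-q) ^ 3 + x * q' ^ 3) + 1) (by omega)) i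
  have hsk : ∀ a : Eis, a ≠ 0 → sl w a = - sl a w := fun a ha => hSSL.2.1 a w ha hw
  have k1 := hκ _ (l1 1)
  have k2 := hκ _ (l1 2)
  have k3 := hκ _ (l2 1)
  have k4 := hκ _ (l2 2)
  have k5 := hκ _ hS.g1
  have k6 := hκ _ hS.g2
  have k7 := hκ w hw
  have hxw : sl w x = 0 := by
    rw [hsk x hx, hLCI.2.2 lam sl 4 x w hSLC hLx hx hw, neg_zero]
  have hBxb : sl w (B * x * b) = sl w B + sl w b := by
    rw [hsk _ (mul_ne_zero (mul_ne_zero hB hx) hb), hSSL.1 _ _ _ (mul_ne_zero hB hx) hb hw,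
      hSSL.1 _ _ _ hB hx hw]
    have h5 := hsk x hx
    rw [hxw] at h5
    rw [hsk B hB, hsk b hb]
    linear_combination -h5
  unfold LTE
  rw [if_neg hLb, if_pos hLx, ← e1, e2, e3]
  unfold UVE
  simp only [gf_swap] at e4 ⊢
  rw [hBxb, hsk B hB, hsk _ hn, hsk _ hn', k5, k6, k7]
  rw [hsk b hb] at e4 ⊢
  unfold ASE at e4 ⊢
  rw [k1, k2, k3, k4]
  linear_combination κ * e4

/-! ### The norm modulo `9` -/

theorem dec9 : ∀ u v m : ZMod 9, (u ^ 2 - u * v + v ^ 2) ^ 2 = m ^ 3 → (u + v) * 3 ≠ 0 →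
    (1 + (2 * u - v) + (u ^ 2 - u * v + v ^ 2) = 3 ∨
      1 + (2 * u - v) + (u ^ 2 - u * v + v ^ 2) = 4) ∨
    (1 - (2 * u - v) + (u ^ 2 - u * v + v ^ 2) = 3 ∨
      1 - (2 * u - v) + (u ^ 2 - u * v + v ^ 2) = 4) := by decide

theorem lvw_of_mod (hLCL : LCL) {m : ℤ} (h : (m : ZMod 9) = 3 ∨ (m : ZMod 9) = 4) :
    m ≠ 0 ∧ (lv m ≠ 0 ∨ lw m ≠ 0) := by
  rcases h with h | h
  · have h1 : ((m - 3 : ℤ) : ZMod 9) = 0 := by push_cast; rw [h]; decide
    rw [ZMod.intCast_zmod_eq_zero_iff_dvd] at h1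
    obtain ⟨c, hc⟩ := h1
    push_cast at hc
    have h2 : m = 3 * (1 + 3 * c) := by linarith
    have h3 : ¬ (3 : ℤ) ∣ 1 + 3 * c := by omega
    have h4 : (1 : ℤ) + 3 * c ≠ 0 := by omega
    refine ⟨by omega, Or.inl ?_⟩
    rw [h2, (hLCL.2.1 3 (1 + 3 * c) (by norm_num) h4).1, hLCL.2.2.1.1, (hLCL.2.2.2.1 _ h3).1]
    decide
  · have h1 : ((m - 4 : ℤ) : ZMod 9) = 0 := by push_cast; rw [h]; decide
    rw [ZMod.intCast_zmod_eq_zero_iff_dvd] at h1
    obtain ⟨c, hc⟩ := h1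
    push_cast at hc
    have h3 : ¬ (3 : ℤ) ∣ m := by omega
    refine ⟨by omega, Or.inr ?_⟩
    rw [(hLCL.2.2.2.1 _ h3).2, wt_eq (k := 5 + 24 * c + 27 * c ^ 2) (by
      have h2 : m = 4 + 9 * c := by linarith
      rw [h2]
      ring)]
    push_cast
    have h9 : (3 : ZMod 3) = 0 := by decide
    have e5 : (5 : ZMod 3) + 24 * (c : ZMod 3) + 27 * (c : ZMod 3) ^ 2 = 2 := by
      linear_combination (1 + 8 * (c : ZMod 3) + 9 * (c : ZMod 3) ^ 2) * h9
    rw [e5]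
    decide

/-- a sign such that the norms are not local cubes -/
theorem sign {b t : Eis} (hb : ¬ lam ∣ b) (ht : b * conj b = t ^ 3) :
    ∃ e : ℤ, (e = 1 ∨ e = -1) ∧ ∀ k : ℤ,
      ((((1 + 9 * k : ℤ) : Eis) ^ 3 + b * (e : Eis) ^ 3).norm : ZMod 9) = 3 ∨
      ((((1 + 9 * k : ℤ) : Eis) ^ 3 + b * (e : Eis) ^ 3).norm : ZMod 9) = 4 := by
  have h1 : (b.re : ZMod 9) ^ 2 - b.re * b.im + (b.im : ZMod 9) ^ 2 = (b.norm : ZMod 9) := by
    rw [norm_def]
    push_cast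
    ring
  have h2 : (b.norm) ^ 2 = t.norm ^ 3 := by
    have h3 := congrArg Eis.norm ht
    rw [norm_mul, norm_conj, norm_pow] at h3
    rw [← h3]
    ring
  have h4 : ((b.re : ZMod 9) ^ 2 - b.re * b.im + (b.im : ZMod 9) ^ 2) ^ 2 =
      (t.norm : ZMod 9) ^ 3 := by
    rw [h1]
    exact_mod_cast congrArg (fun z : ℤ => (z : ZMod 9)) h2
  have h5 : ((b.re : ZMod 9) + b.im) * 3 ≠ 0 := by
    intro h0
    apply hb
    rw [lam_dvd_iff]
    have h6 : (((b.re + b.im) * 3 : ℤ) : ZMod 9) = 0 := by push_cast; exact h0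
    rw [ZMod.intCast_zmod_eq_zero_iff_dvd] at h6
    push_cast at h6
    omega
  have h9 : (9 : ZMod 9) = 0 := by decide
  have hN : ∀ e k : ℤ, e ^ 3 = e → e ^ 2 = 1 →
      ((((1 + 9 * k : ℤ) : Eis) ^ 3 + b * (e : Eis) ^ 3).norm : ZMod 9) =
      1 + (e : ZMod 9) * (2 * b.re - b.im) +
        ((b.re : ZMod 9) ^ 2 - b.re * b.im + (b.im : ZMod 9) ^ 2) := by
    intro e k he he2
    have h6 : (((1 + 9 * k : ℤ) : Eis) ^ 3 + b * (e : Eis) ^ 3).norm =
        ((1 + 9 * k) ^ 3) ^ 2 + (1 + 9 * k) ^ 3 * e * (2 * b.re - b.im) +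
          e ^ 2 * (b.re ^ 2 - b.re * b.im + b.im ^ 2) := by
      have h7 : ((1 + 9 * k : ℤ) : Eis) ^ 3 + b * (e : Eis) ^ 3 =
          ⟨(1 + 9 * k) ^ 3 + e * b.re, e * b.im⟩ := by
        have h8 : (((1 + 9 * k : ℤ) : Eis) ^ 3 + b * (e : Eis) ^ 3) =
            (((1 + 9 * k) ^ 3 : ℤ) : Eis) + b * ((e : ℤ) : Eis) := by
          have h10 : ((e ^ 3 : ℤ) : Eis) = ((e : ℤ) : Eis) := by rw [he]
          push_cast at h10 ⊢
          rw [h10]
        rw [h8]
        ext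
        · simp only [add_re, mul_re, intCast_re, intCast_im]
          ring
        · simp only [add_im, mul_im, intCast_re, intCast_im]
          ring
      rw [h7, norm_def]
      ring
    rw [h6, he2]
    push_cast
    have h10 : ((1 : ZMod 9) + 9 * k) = 1 := by rw [h9]; ring
    rw [h10]
    ring
  rcases dec9 _ _ _ h4 h5 with h | h
  · refine ⟨1, Or.inl rfl, fun k => ?_⟩
    rw [hN 1 k (by norm_num) (by norm_num)]
    push_cast
    rw [one_mul]
    exact h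
  · refine ⟨-1, Or.inr rfl, fun k => ?_⟩
    rw [hN (-1) k (by norm_num) (by norm_num)]
    push_cast
    rw [neg_one_mul, ← sub_eq_add_neg]
    exact h

/-! ### The factor -/

theorem dec3 : ∀ a1 a2 c1 c2 s3 s4 : ZMod 3, (a1 ≠ 0 ∨ a2 ≠ 0) → ¬ (s3 = 0 ∧ s4 = 0) →
    a1 * s3 - a2 * s4 = 0 → c1 * s3 - c2 * s4 = 0 → ∃ κ : ZMod 3, c1 = κ * a1 ∧ c2 = κ * a2 := by
  decide

theorem int_ne {x : ℤ} (hx : x ≠ 0) : (x : Eis) ≠ 0 := HYPT.int_ne hx

/-- minus a cube is trivial -/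
theorem neg_cube (hSSL : SSL) {c X : Eis} (hc : c ≠ 0) (hX : X ≠ 0) : sl (-X ^ 3) c = 0 := by
  have hA := EHYP.add3_sl hSSL hc
  have h1 : -X ^ 3 = -1 * X ^ 3 := by ring
  have h2 := hA (-1) (X ^ 3) (by simp) (pow_ne_zero 3 hX)
  have h3 := hA.neg_one
  have h4 := hA.pow hX 3
  simp only at h2 h3 h4
  rw [h1, h2, h3, h4]
  have h5 : ((3 : ℕ) : ZMod 3) = 0 := rfl
  rw [h5, zero_mul, zero_add]

theorem mul_cube (hSSL : SSL) {b c Y : Eis} (hb : b ≠ 0) (hc : c ≠ 0) (hY : Y ≠ 0) :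
    sl (-(b * Y ^ 3)) c = sl b c := by
  have hA := EHYP.add3_sl hSSL hc
  have h1 : -(b * Y ^ 3) = b * (-Y ^ 3) := by ring
  have h2 := hA b (-Y ^ 3) hb (neg_ne_zero.2 (pow_ne_zero 3 hY))
  simp only at h2
  rw [h1, h2, neg_cube hSSL hc hY, add_zero]

theorem sl_n (hSSL : SSL) {b X Y : Eis} (hb : b ≠ 0) (hX : X ≠ 0) (hY : Y ≠ 0)
    (hn : X ^ 3 + b * Y ^ 3 ≠ 0) : sl b (X ^ 3 + b * Y ^ 3) = 0 := by
  have hX3 : -X ^ 3 ≠ 0 := neg_ne_zero.2 (pow_ne_zero 3 hX)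
  have hY3 : -(b * Y ^ 3) ≠ 0 := neg_ne_zero.2 (mul_ne_zero hb (pow_ne_zero 3 hY))
  have h1 := hSSL.2.2.1 (X ^ 3 + b * Y ^ 3) (-X ^ 3) (-(b * Y ^ 3)) hn hX3 hY3 (by ring)
  rw [neg_cube hSSL hY3 hX, mul_cube hSSL hb hn hY, hSSL.2.1 _ _ hX3 hn, neg_cube hSSL hn hX] at h1
  linear_combination h1

theorem sl_conj (hSSL : SSL) (hSCJ : SCJ) {b t n : Eis} (hb : b ≠ 0) (ht : b * conj b = t ^ 3)
    (hn : n ≠ 0) (h0 : sl b n = 0) : sl b (conj n) = 0 := by
  have hb' := EHYP.conj_ne hb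
  have ht0 : t ≠ 0 := by
    rintro rfl
    rw [zero_pow (by norm_num)] at ht
    exact mul_ne_zero hb hb' ht
  have hA := EHYP.add3_sl hSSL hn
  have h1 := hA b (conj b) hb hb'
  have h2 := hA.pow ht0 3
  simp only at h1 h2
  rw [ht, h2, h0] at h1
  have h3 : ((3 : ℕ) : ZMod 3) = 0 := rfl
  rw [h3, zero_mul, zero_add] at h1
  have h4 := hSCJ.2.1 (conj b) n hb' hn
  rw [conj_conj, ← h1, neg_zero] at h4
  exact h4

/-- `B` is a power of the norm at `lam` -/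
theorem kappa (hLMC : Stmt_LMC) (hSSL : SSL) (hSCJ : SCJ) (hLCL : LCL) {B : ℤ} {b t X Y : Eis}
    (hB : B ≠ 0) (hb : b ≠ 0) (hM : MCl b) (ht : b * conj b = t ^ 3) (hbB : sl b (B : Eis) = 0)
    (hLb : ¬ LCE lam b) (hX : X ≠ 0) (hY : Y ≠ 0) (hn : X ^ 3 + b * Y ^ 3 ≠ 0)
    (h9 : ((X ^ 3 + b * Y ^ 3).norm : ZMod 9) = 3 ∨ ((X ^ 3 + b * Y ^ 3).norm : ZMod 9) = 4) :
    ∃ κ : ZMod 3, ∀ z : Eis, z ≠ 0 → sl (B : Eis) z =
      κ * (sl (X ^ 3 + b * Y ^ 3) z + sl (conj (X ^ 3 + b * Y ^ 3)) z) := by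
  obtain ⟨hm0, hm⟩ := lvw_of_mod hLCL h9
  have hn' := EHYP.conj_ne hn
  obtain ⟨-, hL, hI⟩ := hLMC b hb hM
  have h1 := sl_n hSSL hb hX hY hn
  have h2 := sl_conj hSSL hSCJ hb ht hn h1
  have h3 : sl b ((X ^ 3 + b * Y ^ 3).norm : Eis) = 0 := by
    rw [← mul_conj, hSSL.2.1 _ _ (mul_ne_zero hn hn') hb, hSSL.1 _ _ _ hn hn' hb,
      hSSL.2.1 b _ hb hn, hSSL.2.1 b _ hb hn', h1, h2]
    ring
  rw [hI _ hm0] at h3
  rw [hI _ hB] at hbB
  obtain ⟨κ, k1, k2⟩ := dec3 _ _ _ _ _ _ hm (fun h => hLb (hL.2 h)) h3 hbB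
  refine ⟨κ, fun z hz => ?_⟩
  have hBe := int_ne hB
  have hme := int_ne hm0
  have h4 : sl ((X ^ 3 + b * Y ^ 3).norm : Eis) z =
      sl (X ^ 3 + b * Y ^ 3) z + sl (conj (X ^ 3 + b * Y ^ 3)) z := by
    rw [← mul_conj, hSSL.1 _ _ _ hn hn' hz]
  rw [← h4, hSSL.2.1 z _ hz hBe, hSSL.2.1 z _ hz hme, HYPT.sl_int hSSL hLCL hz _ hB,
    HYPT.sl_int hSSL hLCL hz _ hm0, k1, k2]
  ring

/-! ### Avoiding the zeros -/

theorem ev_ne {α β : Eis} (h : α ≠ 0 ∨ β ≠ 0) :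
    ∀ᶠ k : ℕ in Filter.cofinite, ((1 + 9 * (k : ℤ) : ℤ) : Eis) * α + β ≠ 0 := by
  rw [Filter.eventually_cofinite]
  by_cases hα : α = 0
  · have hβ : β ≠ 0 := by
      rcases h with h | h
      · exact absurd hα h
      · exact h
    have h1 : {k : ℕ | ¬ ((1 + 9 * (k : ℤ) : ℤ) : Eis) * α + β ≠ 0} = ∅ := by
      ext k
      simp [hα, hβ]
    rw [h1]
    exact Set.finite_empty
  · apply Set.Subsingleton.finite
    intro k hk l hl
    simp only [Set.mem_ofPred_eq, not_not] at hk hl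
    have h1 : (((1 + 9 * (k : ℤ) : ℤ) : Eis) - ((1 + 9 * (l : ℤ) : ℤ) : Eis)) * α = 0 := by
      linear_combination hk - hl
    rcases mul_eq_zero.1 h1 with h2 | h2
    · have h3 := congrArg Eis.re h2
      rw [sub_re, intCast_re, intCast_re, zero_re] at h3
      omega
    · exact absurd h2 hα

/-- the nondegeneracy at the two points for almost all `k` -/
theorem ev_dne {b x p q p' q' t : Eis} {e : ℤ} (ht : t ≠ 0) (he : e ≠ 0)
    (h : SolE b x p q p' q') :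
    ∀ᶠ k : ℕ in Filter.cofinite,
      DNE ((1 + 9 * (k : ℤ) : ℤ) : Eis) (e : Eis) p (-p') (-q) q' ∧
      DNE (t * (e : Eis)) ((1 + 9 * (k : ℤ) : ℤ) : Eis) p (-p') (-q) q' := by
  have hE := int_ne he
  have hw : ∀ i : ℕ, (w : Eis) ^ i ≠ 0 := fun i => pow_ne_zero i isUnit_w.ne_zero
  have h1 : p ≠ 0 ∨ q ≠ 0 := by
    by_contra h0
    push Not at h0
    apply h.n1
    rw [h0.1, h0.2]
    ring
  have h2 : p' ≠ 0 ∨ q' ≠ 0 := by
    by_contra h0
    push Not at h0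
    apply h.n1
    rw [h.eq, h0.1, h0.2]
    ring
  have a : ∀ i : ℕ, ∀ᶠ k : ℕ in Filter.cofinite,
      ((1 + 9 * (k : ℤ) : ℤ) : Eis) * (-q) + w ^ i * p * e ≠ 0 := fun i =>
    ev_ne (h1.symm.imp neg_ne_zero.2 fun h => mul_ne_zero (mul_ne_zero (hw i) h) hE)
  have b' : ∀ i : ℕ, ∀ᶠ k : ℕ in Filter.cofinite,
      ((1 + 9 * (k : ℤ) : ℤ) : Eis) * q' + w ^ i * (-p') * e ≠ 0 := fun i =>
    ev_ne (h2.symm.imp id fun h => mul_ne_zero (mul_ne_zero (hw i) (neg_ne_zero.2 h)) hE)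
  have c : ∀ i : ℕ, ∀ᶠ k : ℕ in Filter.cofinite,
      ((1 + 9 * (k : ℤ) : ℤ) : Eis) * (w ^ i * p) + t * e * (-q) ≠ 0 := fun i =>
    ev_ne (h1.imp (fun h => mul_ne_zero (hw i) h)
      fun h => mul_ne_zero (mul_ne_zero ht hE) (neg_ne_zero.2 h))
  have d : ∀ i : ℕ, ∀ᶠ k : ℕ in Filter.cofinite,
      ((1 + 9 * (k : ℤ) : ℤ) : Eis) * (w ^ i * (-p')) + t * e * q' ≠ 0 := fun i =>
    ev_ne (h2.imp (fun h => mul_ne_zero (hw i) (neg_ne_zero.2 h))
      fun h => mul_ne_zero (mul_ne_zero ht hE) h)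
  filter_upwards [a 1, a 2, b' 1, b' 2, c 1, c 2, d 1, d 2] with k a1 a2 b1 b2 c1 c2 d1 d2
  refine ⟨⟨a1, a2, b1, b2⟩, ⟨?_, ?_, ?_, ?_⟩⟩
  · unfold DfE
    intro h0
    apply c1
    linear_combination h0
  · unfold DfE
    intro h0
    apply c2
    linear_combination h0
  · unfold DfE
    intro h0
    apply d1
    linear_combination h0
  · unfold DfE
    intro h0
    apply d2
    linear_combination h0

end RAE

open _root_.Pool.Agent.PTK.RAE in
/-- PTK_RAE -/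
theorem RAE_thm (hAVE : Stmt_AVE) (hIIA : Stmt_IIA) (hIF2 : Stmt_IF2) (hSAE : Stmt_SAE)
    (hLMC : Stmt_LMC) (hLCI : Stmt_LCI) (hSSL : SSL) (hSLC : SLC) (hSCJ : SCJ) (hLCL : LCL) :
    Stmt_RAE := by
  intro B b x₁ x₂ p₁ q₁ p₁' q₁' p₂ q₂ p₂' q₂' p q p' q' hB hb hM hbB hLb hx₁ hx₂ hL₁ hL₂ hS₁ hS₂
    hS hP
  obtain ⟨t, ht⟩ := hM.cb
  have hb' := EHYP.conj_ne hb
  have ht0 : t ≠ 0 := by
    rintro rfl
    rw [zero_pow (by norm_num)] at ht
    exact mul_ne_zero hb hb' ht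
  obtain ⟨e, he, hN⟩ := sign hM.nl ht
  have he0 : e ≠ 0 := by rcases he with h | h <;> rw [h] <;> norm_num
  have he2 : e ^ 2 = 1 := by rcases he with h | h <;> rw [h] <;> norm_num
  obtain ⟨k, ⟨⟨hD₁, hD₁'⟩, hD₂, hD₂'⟩, hD, hD'⟩ :=
    (((ev_dne ht0 he0 hS₁).and (ev_dne ht0 he0 hS₂)).and (ev_dne ht0 he0 hS)).exists
  have hx := mul_ne_zero hx₁ hx₂
  have hL := lce_mul hL₁ hL₂
  have hBe := int_ne hB
  have hE := int_ne he0
  have hK : (1 + 9 * (k : ℤ) : ℤ) ≠ 0 := by omega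
  have hX := int_ne hK
  obtain ⟨hm0, -⟩ := lvw_of_mod hLCL (hN k)
  have h9 := hN k
  have hXc : conj ((1 + 9 * (k : ℤ) : ℤ) : Eis) = ((1 + 9 * (k : ℤ) : ℤ) : Eis) := conj_intCast _
  have hEc : conj (e : Eis) = (e : Eis) := conj_intCast _
  clear hN
  generalize ((1 + 9 * (k : ℤ) : ℤ) : Eis) = X at *
  have hn : X ^ 3 + b * (e : Eis) ^ 3 ≠ 0 := by
    intro h0
    rw [h0] at hm0
    exact hm0 norm_zero
  have hne := EHYP.conj_ne hn
  have hn'e : (t * (e : Eis)) ^ 3 + b * X ^ 3 = b * conj (X ^ 3 + b * (e : Eis) ^ 3) := by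
    rw [map_add, map_mul, map_pow, map_pow, hXc, hEc]
    linear_combination (-(e : Eis) ^ 3) * ht
  have hn' : (t * (e : Eis)) ^ 3 + b * X ^ 3 ≠ 0 := by
    rw [hn'e]
    exact mul_ne_zero hb hne
  obtain ⟨κ, hκ⟩ := kappa hLMC hSSL hSCJ hLCL hB hb hM ht hbB hLb hX hE hn h9
  have hκ' : ∀ z : Eis, z ≠ 0 → sl (B : Eis) z = κ * (sl (X ^ 3 + b * (e : Eis) ^ 3) z +
      sl ((t * (e : Eis)) ^ 3 + b * X ^ 3) z - sl b z) := by
    intro z hz
    rw [hκ z hz, hn'e, hSSL.1 _ _ _ hb hne hz]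
    ring
  have hX' := mul_ne_zero ht0 hE
  rw [key hAVE hIIA hIF2 hLCI hSSL hSLC hBe hb hx hbB hLb hL hS hX hE hX' hX hn hn' hD hD' hκ',
    key hAVE hIIA hIF2 hLCI hSSL hSLC hBe hb hx₁ hbB hLb hL₁ hS₁ hX hE hX' hX hn hn' hD₁ hD₁' hκ',
    key hAVE hIIA hIF2 hLCI hSSL hSLC hBe hb hx₂ hbB hLb hL₂ hS₂ hX hE hX' hX hn hn' hD₂ hD₂' hκ',
    hSAE b x₁ x₂ p₁ q₁ p₁' q₁' p₂ q₂ p₂' q₂' p q p' q' X e hb hx₁ hx₂ hS₁ hS₂ hS hP hX hE hn
      hD₁ hD₂ hD,
    hSAE b x₁ x₂ p₁ q₁ p₁' q₁' p₂ q₂ p₂' q₂' p q p' q' (t * e) X hb hx₁ hx₂ hS₁ hS₂ hS hP hX' hX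
      hn' hD₁' hD₂' hD']
  ring

end Pool.Agent.PTK


end

section

/-!
# PTK_THE: the pairing of `b` with `b^(1/3)` is zero
-/

set_option autoImplicit false

namespace Pool.Agent.PTK

open Pool.Agent.Lib_helper18 Pool.Agent.Lib_helper18.Eis Pool.Agent.Lib_helper84.Cub
open Pool.Agent.PT Pool.Agent.PTE Pool.Agent.PT3 Pool.Agent.PTL Pool.Agent.PTN

namespace THE

open Pool.Agent.PT.TTH

theorem ASE_val {π : Eis} {s : Eis → Eis → ZMod 3} {e : ℕ} (hs : LSym π s e) {B : Eis}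
    (hB : B ≠ 0) {r : Eis} (hr : r ≠ 0) : ASE s B 0 1 1 0 r = - s w B := by
  have e1 : LfE 0 1 2 r = w * (w * r) := by
    unfold LfE
    ring
  have e2 : LfE 1 0 1 r = 1 := by
    unfold LfE
    ring
  have e3 : LfE 0 1 1 r = w * r := by
    unfold LfE
    ring
  have e4 : LfE 1 0 2 r = 1 := by
    unfold LfE
    ring
  unfold ASE
  rw [e1, e2, e3, e4, LSym.mul_right hs hB TTH.w_ne (mul_ne_zero TTH.w_ne hr),
    hs.skew w B TTH.w_ne hB]
  ring

theorem sy_sym {B b : Eis} (hb : AGE B b) {e : ℕ} (v : Pl) (hs : LSym (uni v) (sy v) e)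
    (hB0 : B ≠ 0) : sy v B b = 0 := by
  rw [hs.skew _ _ hb.ne hB0]
  cases v with
  | none =>
    change - sl b B = 0
    unfold sl
    have h0 : (fun π : PP => tm π.1 b B) = fun _ => 0 := by
      funext π
      exact hb.sym π
    rw [h0, finsum_zero, neg_zero, neg_zero]
  | some π =>
    change - tm π.1 b B = 0
    rw [hb.sym π, neg_zero]

/-- the value at a place where `b` is a local cube -/
theorem AVE_val (hAVE : Stmt_AVE) {B b : Eis} (hB : BGE B) (hb : AGE B b) {e : ℕ} (v : Pl)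
    (hs : LSym (uni v) (sy v) e) (hLC : LCE (uni v) b) :
    AVE v B b 0 1 1 0 = - sy v w B := by
  have hSol : SolWE b b 0 1 1 0 := ⟨by ring, by simpa using hb.ne⟩
  refine (hAVE v B b b 0 1 1 0 hB.ne hb.ne hb.ne hSol (sy_sym hb v hs hB.ne) hLC).2
    (- sy v w B) (V (uni v) b + 1) ?_
  intro r hr
  refine ASE_val hs hB.ne ?_
  intro hr0
  rw [hr0, zero_pow three_ne_zero, zero_sub, dvd_neg] at hr
  exact (fin hs.prime hb.ne).not_pow_dvd_of_multiplicity_lt (Nat.lt_succ_self _) hr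

theorem tame_eq (hAVE : Stmt_AVE) (hLCI : Stmt_LCI) (hSTM : STM) (hSPP : SPP) {B b : Eis}
    (hB : BGE B) (hb : AGE B b) (π : PP) :
    TTE π B b b 0 1 1 0 = tm π.1 w b - tm π.1 w B := by
  have hs : LSym (uni (some π)) (sy (some π)) 1 := hSTM π.1 π.2.1 (hSPP.2.2.2.1 π).1
  by_cases hLC : LCE π.1 b
  · have hAV := AVE_val hAVE hB hb (some π) hs hLC
    unfold TTE
    rw [if_pos hLC, hAV]
    change - tm π.1 w B + tm π.1 w b = _
    ring
  · have hVw : V π.1 w = 0 := by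
      rw [V_eq_zero_iff]
      intro h
      have h1 : π.1 ∣ w ^ 3 := dvd_pow h three_ne_zero
      rw [w_cube] at h1
      exact π.2.1.not_isUnit (isUnit_of_dvd_one h1)
    have ht : ∀ x : Eis, tm π.1 w x = (V π.1 x : ZMod 3) * ch π.1 w := by
      intro x
      unfold tm
      rw [hVw]
      push_cast
      ring
    unfold TTE
    rw [if_neg hLC]
    rw [ht, ht]
    by_cases hd : π.1 ∣ B
    · have hV1 : V π.1 B ≠ 0 := by
        intro h
        exact (V_eq_zero_iff.mp h) hd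
      have hV2 := hB.cf π
      have hVB : ¬ 3 ∣ V π.1 B := by omega
      have hVb : ¬ 3 ∣ V π.1 b := by
        intro h3
        apply hLC
        refine (hLCI.1 π b hb.ne).mpr ⟨h3, ?_⟩
        have h4 := hb.sym π
        unfold tm at h4
        rw [(cast3 _).mpr h3, zero_mul, sub_zero] at h4
        rcases mul_eq_zero.mp h4 with h5 | h5
        · exact absurd ((cast3 _).mp h5) hVB
        · exact h5
      by_cases h6 : 3 ∣ V π.1 b + V π.1 B
      · rw [if_pos ⟨h6, hVb⟩]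
        refine key3 _ _ _ ?_
        rw [← Nat.cast_add]
        exact (cast3 _).mpr h6
      · rw [if_neg (fun h => h6 h.1)]
        refine key3' _ _ _ ?_ ?_ ?_
        · exact fun h => hVb ((cast3 _).mp h)
        · exact fun h => hVB ((cast3 _).mp h)
        · rw [← Nat.cast_add]
          exact fun h => h6 ((cast3 _).mp h)
    · have h1 : V π.1 B = 0 := V_eq_zero hd
      have h2 : V π.1 b = 0 := V_eq_zero (hb.unr π hd)
      rw [h1, h2, if_neg (fun h => h.2 (dvd_zero _))]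
      push_cast
      ring

theorem lam_eq (hAVE : Stmt_AVE) (hLMC : Stmt_LMC) (hLCI : Stmt_LCI) (hSLC : SLC) {B b : Eis}
    (hB : BGE B) (hb : AGE B b) (hM : MCl b) (h : LCE lam b ∨ LCE lam B) :
    LTE B b b 0 1 1 0 = sl w b - sl w B := by
  by_cases hLC : LCE lam b
  · have hAV : AVE none B b 0 1 1 0 = - sl w B := AVE_val hAVE hB hb none hSLC hLC
    unfold LTE
    rw [if_pos hLC, hAV]
    ring
  · have hLB := h.resolve_left hLC
    have h1 := hLCI.2.2 lam sl 4 B w hSLC hLB hB.ne TTH.w_ne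
    have h2 : sl w B = 0 := by
      rw [hSLC.skew _ _ hB.ne TTH.w_ne, h1, neg_zero]
    unfold LTE lfE
    rw [if_neg hLC, if_neg hLC, h2, (hLMC b hb.ne hM).1]
    ring

theorem fin_tame (hSSL : SSL) {a b : Eis} (ha : a ≠ 0) (hb : b ≠ 0) :
    (Function.support fun π : PP => tm π.1 a b).Finite := by
  have h1 := (hSSL.2.2.2 a b ha hb).1
  have h2 : (Function.support fun π : PP => tm π.1 a b) =
      (some : PP → Pl) ⁻¹' (Function.support fun v : Pl => sy v a b) := by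
    ext π
    rfl
  rw [h2]
  exact h1.preimage (Option.some_injective PP).injOn

end THE

/-- PTK_THE -/
theorem THE_thm (hAVE : Stmt_AVE) (hLMC : Stmt_LMC) (hLCI : Stmt_LCI) (hSTM : STM) (hSPP : SPP)
    (hSSL : SSL) (hSLC : SLC) : Stmt_THE := by
  intro B b hB hb hM h
  unfold OZE
  rw [THE.lam_eq hAVE hLMC hLCI hSLC hB hb hM h]
  have h1 : (fun π : PP => TTE π (B : Eis) b b 0 1 1 0) =
      fun π : PP => tm π.1 w b - tm π.1 w (B : Eis) := by
    funext π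
    exact THE.tame_eq hAVE hLCI hSTM hSPP hB hb π
  rw [h1, finsum_sub_distrib (THE.fin_tame hSSL TTH.w_ne hb.ne)
    (THE.fin_tame hSSL TTH.w_ne hB.ne)]
  unfold sl
  ring

end Pool.Agent.PTK


end

section

/-!
# PTK_TPE: the pairing vanishes on the class of a point (helper64)
-/

set_option autoImplicit false

open Finset

namespace Pool.Agent.PTK

open Pool.Agent.Lib_helper18 Pool.Agent.Lib_helper18.Eis Pool.Agent.Lib_helper84.Cub
open Pool.Agent.PT Pool.Agent.PTE Pool.Agent.PT3 Pool.Agent.PTL Pool.Agent.PTN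

namespace TPE

open DPA

/-- additivity in the second variable -/
theorem mulr {u : Eis} {s : Eis → Eis → ZMod 3} {e : ℕ} (h : LSym u s e) {a b c : Eis}
    (ha : a ≠ 0) (hb : b ≠ 0) (hc : c ≠ 0) : s c (a * b) = s c a + s c b := by
  rw [h.skew (a * b) c (mul_ne_zero ha hb) hc, h.mul a b c ha hb hc, h.skew a c ha hc,
    h.skew b c hb hc]
  ring

/-- the local identity at `lam` -/
theorem lam_case (hAVE : Stmt_AVE) (hLMC : Stmt_LMC) (hIIA : Stmt_IIA) (hIF2 : Stmt_IF2)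
    (hIF4 : Stmt_IF4) (hLCI : Stmt_LCI) (hSSL : SSL) (hSLC : SLC)
    {B : ℤ} {b x p q p' q' X Y : Eis} (hB : (B : Eis) ≠ 0) (hb : AGE B b) (hx : AGE B x)
    (mb : MCl b) (mx : MCl x) (hS : SolE b x p q p' q') (hP : PtE (B : Eis) x X Y)
    (hn : X ^ 3 + x * Y ^ 3 ≠ 0) (hD : DNE X Y p q p' q')
    (h : LCE lam b ∨ (LCE lam x ∧ GoodPt B x X Y) ∨
      (¬ LCE lam b ∧ ¬ LCE lam x ∧ LCE lam (B : Eis) ∧ GoodW x X Y)) :
    LTE B b x p q p' q' = UVE sl B b x p q p' q' - SVE sl x p q p' q' X Y := by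
  have L : LSym lam sl 4 := hSLC
  have hw : w ≠ 0 := isUnit_w.ne_zero
  have sb : sl b B = 0 := DX2.sl_zero hSSL hb.ne hB hb.sym
  have sx : sl x B = 0 := DX2.sl_zero hSSL hx.ne hB hx.sym
  have sb' : sl B b = 0 := by rw [L.skew b B hb.ne hB, sb, neg_zero]
  have sx' : sl B x = 0 := by rw [L.skew x B hx.ne hB, sx, neg_zero]
  have wb : sl w b = 0 := (hLMC b hb.ne mb).1
  have wx : sl w x = 0 := (hLMC x hx.ne mx).1
  obtain ⟨c, hc, hE⟩ := hP.eq
  have hU : UVE sl B b x p q p' q' =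
      sl B (GfE p q p' q' 1) - sl B (GfE p q p' q' 2) + sl w B := by
    unfold UVE
    rw [mulr L (mul_ne_zero hB hx.ne) hb.ne hw, mulr L hB hx.ne hw, wb, wx, add_zero, add_zero]
  rw [hU]
  unfold LTE
  by_cases hcb : LCE lam b
  · rw [if_pos hcb, wx]
    obtain ⟨N1, H1⟩ := (hAVE none B b x p q p' q' hB hb.ne hx.ne hS.toSolWE sx' hcb).1
    obtain ⟨N2, H2⟩ := hIIA b x p q p' q' X Y hb.ne hx.ne hcb hS hP.hX hP.hY hn hD
    obtain ⟨N3, H3⟩ := hIF2 lam sl 4 L b x p q p' q' hb.ne hx.ne hS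
    obtain ⟨N4, H4⟩ := exists_ne L.prime (b := b) hS.n1
    obtain ⟨N5, H5⟩ := exists_ne L.prime (b := b) (SolE_n1' hS)
    obtain ⟨r, hr⟩ := hcb (N1 + N2 + N3 + N4 + N5)
    have g1 : ASE sl B p q p' q' r = AVE none B b p q p' q' :=
      H1 r ((pow_dvd_pow _ (by omega)).trans hr)
    have g2 := H2 r ((pow_dvd_pow _ (by omega)).trans hr)
    have g3 := H3 r ((pow_dvd_pow _ (by omega)).trans hr)
    have g4 := H4 r ((pow_dvd_pow _ (by omega)).trans hr)
    have g5 := H5 r ((pow_dvd_pow _ (by omega)).trans hr)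
    have r0 := ASE_rel L g4 g5 hx.ne hn hB hc hE
    have r1 := s_rel L hx.ne hn hB hc hS.g1 hE
    have r2 := s_rel L hx.ne hn hB hc hS.g2 hE
    have r3 := s_rel L hx.ne hn hB hc hw hE
    have k1 := L.skew w x hw hx.ne
    have k2 := L.skew w _ hw hn
    have k3 := L.skew w B hw hB
    rw [k1, k2, k3] at r3
    rw [← g1, ← r0, g2, g3]
    linear_combination r1 - r2 - r3
  · rw [if_neg hcb]
    by_cases hcx : LCE lam x
    · rw [if_pos hcx, hU, wb, add_zero]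
      have hG : GoodPt B x X Y := by
        rcases h with h | h | h
        · exact absurd h hcb
        · exact h.2
        · exact absurd hcx h.2.1
      have hS' := SolE_flip hS
      obtain ⟨N1, H1⟩ := (hAVE none B x b p (-p') (-q) q' hB hx.ne hb.ne hS'.toSolWE sb' hcx).1
      obtain ⟨N2, H2⟩ := hG b hb.ne mb.nl mb.cb sb
      obtain ⟨N3, H3⟩ := hIF4 lam sl 4 L b x p q p' q' X Y hb.ne hx.ne hS hP.hX hP.hY hn hD
      obtain ⟨N4, H4⟩ := exists_ne L.prime (b := x) hS'.n1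
      obtain ⟨N5, H5⟩ := exists_ne L.prime (b := x) (SolE_n1' hS')
      obtain ⟨ξ, hξ⟩ := hcx (N1 + N2 + N3 + N4 + N5)
      have g1 : ASE sl B p (-p') (-q) q' ξ = AVE none B x p (-p') (-q) q' :=
        H1 ξ ((pow_dvd_pow _ (by omega)).trans hξ)
      have g2 := H2 ξ ((pow_dvd_pow _ (by omega)).trans hξ)
      have g3 := H3 ξ ((pow_dvd_pow _ (by omega)).trans hξ)
      have g4 := H4 ξ ((pow_dvd_pow _ (by omega)).trans hξ)
      have g5 := H5 ξ ((pow_dvd_pow _ (by omega)).trans hξ)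
      have r0 := ASE_rel L g4 g5 hx.ne hn hB hc hE
      have hx0 : ∀ a : Eis, a ≠ 0 → sl x a = 0 := fun a ha =>
        hLCI.2.2 lam sl 4 x a L hcx hx.ne ha
      have r1 : ASE sl x p (-p') (-q) q' ξ = 0 := by
        unfold ASE
        rw [hx0 _ (g4 2), hx0 _ (g5 1), hx0 _ (g4 1), hx0 _ (g5 2)]
        ring
      rw [g3, g2, ← g1, ← r0, r1]
      ring
    · rw [if_neg hcx]
      obtain ⟨-, -, hcB, hW⟩ : ¬ LCE lam b ∧ ¬ LCE lam x ∧ LCE lam (B : Eis) ∧ GoodW x X Y := by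
        rcases h with h | h | h
        · exact absurd h hcb
        · exact absurd h.1 hcx
        · exact h
      have hB0 : ∀ a : Eis, a ≠ 0 → sl B a = 0 := fun a ha =>
        hLCI.2.2 lam sl 4 B a L hcB hB ha
      have k3 : sl w B = 0 := by
        rw [L.skew B w hB hw, hB0 w hw, neg_zero]
      rw [hB0 _ hS.g1, hB0 _ hS.g2, k3, hW b p q p' q' hb.ne mb hS hD]
      unfold lfE
      ring

end TPE

/-- PTK_TPE. -/
theorem TPE_thm (hAVE : Stmt_AVE) (hLEE : Stmt_LEE) (hLFE : Stmt_LFE) (hLMC : Stmt_LMC)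
    (hIIA : Stmt_IIA) (hIF2 : Stmt_IF2) (hIF4 : Stmt_IF4) (hSVF : Stmt_SVF) (hLCI : Stmt_LCI)
    (hSSL : SSL) (hSLC : SLC) : Stmt_TPE := by
  intro B b x p q p' q' X Y hB hb hx mb mx hS hP hD h
  have hn : X ^ 3 + x * Y ^ 3 ≠ 0 := by
    obtain ⟨c, hc, e⟩ := hP.eq
    intro h0
    rw [h0, mul_zero] at e
    exact mul_ne_zero hB.ne (pow_ne_zero 3 hc) e.symm
  have hlam := TPE.lam_case hAVE hLMC hIIA hIF2 hIF4 hLCI hSSL hSLC hB.ne hb hx mb mx hS hP hn hD h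
  obtain ⟨f1, e1⟩ := hLFE.2 B b x p q p' q' hB.ne hb.ne hx.ne hS
  obtain ⟨f2, e2⟩ := hSVF b x p q p' q' X Y hb.ne hx.ne hS hP.hX hP.hY hn hD
  have f3 : (Function.support fun π : PP => SVE (tm π.1) x p q p' q' X Y).Finite :=
    f2.preimage (f := fun π : PP => (some π : Pl)) (Option.some_injective _).injOn
  have e3 : SVE sl x p q p' q' X Y + ∑ᶠ π : PP, SVE (tm π.1) x p q p' q' X Y = 0 := by
    rw [finsum_option (f := fun v : Pl => SVE (sy v) x p q p' q' X Y) f3] at e2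
    exact e2
  have e4 : ∑ᶠ π : PP, TTE π B b x p q p' q' =
      ∑ᶠ π : PP, UVE (tm π.1) B b x p q p' q' - ∑ᶠ π : PP, SVE (tm π.1) x p q p' q' X Y := by
    rw [← finsum_sub_distrib f1 f3]
    exact finsum_congr fun π => hLEE π B b x p q p' q' X Y hB hb hx hS hP hD
  unfold OZE
  rw [e4, hlam]
  linear_combination e1 - e3

end Pool.Agent.PTK


end
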