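import Mathlib
import Pool.Agent.PTDM.C23
import Pool.Agent.PTDM.C26
import Pool.Agent.PTDM.C27
import Pool.Agent.PTDM.C41
import Pool.Agent.PTDM.C43
import Pool.Agent.PTKW.C01
import Pool.Agent.PTKW.C02
import Pool.Agent.PTKW.C04

/-! Parts: PTKX.ALV, PTKX.CLV, PTKX.DE2, PTKX.DX3, PTKX.FB, PTKX.GFK, PTKX.GFKU, PTKX.LRR, PTKX.JZ, PTKX.MZF, PTKX.NDS, PTKX.TAE -/

section

/-!
# PTK_ALV: the averages over all `A`, `q = 1 (mod 3)`
-/

set_option autoImplicit false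

open NumberField IsDedekindDomain Finset
open scoped nonZeroDivisors Pointwise

namespace Pool.Agent.PTK

open Pool.Agent.Lib_helper18 Pool.Agent.Lib_helper18.Eis Pool.Agent.Lib_helper84.Cub
open Pool.Agent.PT Pool.Agent.PTE Pool.Agent.PT3 Pool.Agent.PTL Pool.Agent.PTN

namespace ALV

theorem hsol : ∀ A : ℤ, A ≠ 0 → CubeRank.GenBy A (CubeRank.rr A) → CubeRank.rr A < 1 →
    ¬ ∃ X Y : ℚ, X ^ 3 + Y ^ 3 = (A : ℚ) := by
  intro A hA h1 h2
  have h3 : CubeRank.rr A = 0 := by omega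
  rw [h3] at h1
  exact DOM.no_sol hA h1

theorem hone : ∀ A : ℤ, A ≠ 0 → CubeRank.GenBy A (CubeRank.rr A) → CubeRank.rr A < 2 →
    CubeRank.rr A ≤ 1 := by
  intro A _ _ h2
  omega

end ALV

/-- PTK_ALV -/
theorem ALV_thm (hCAV : Stmt_CAV) (hCBV : Stmt_CBV) (hLAW : Stmt_LAW) (hSUMA : Stmt_SUMA)
    (hNDIM : Stmt_NDIM) (hNSUM : Stmt_NSUM) (hNZER : Stmt_NZER) (hNSU1 : Stmt_NSU1)
    (hNZE1 : Stmt_NZE1) : Stmt_ALV := by
  classical
  intro h n m k π p e r f hN hh μ hμ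
  obtain ⟨-, -, hL3, hL4, -, -, hL7, -⟩ := hLAW
  have hmono : Monotone fun j : ℕ => (3 : ℝ) ^ j := fun i j hij =>
    pow_le_pow_right₀ (by norm_num) hij
  have hz : (0 : ℝ) ≤ (fun j : ℕ => (3 : ℝ) ^ j) 0 := by norm_num
  have hC := fun y : ZMod 3 × (Fin m → ZMod 3) =>
    hCAV h n m k π p e r f y.1 y.2 hN hh (fun j : ℕ => (3 : ℝ) ^ j) hmono hz
  have hB := fun y : ZMod 3 × (Fin m → ZMod 3) => hCBV h n m k π p e r f y.1 y.2 hN hh
  -- the classes with `v = 0`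
  have hdim : ∀ y : ZMod 3 × (Fin m → ZMod 3), (vN h n π p e r y.1 y.2 = 0 ∧
      ¬ (h = 0 ∧ wt ((n : ℤ) ^ 2) + y.1 = 0)) →
      vN h n π p e r y.1 y.2 = 0 ∧
        sN h n π p e r y.1 y.2 = k + if h = 1 then 1 else 0 := by
    rintro y ⟨h1, h2⟩
    have h3 := hNDIM h n m k π p e r y.1 y.2
    refine ⟨h1, ?_⟩
    rw [h1] at h3
    have hact : actR h n y.1 ↔ h = 2 := by
      unfold actR
      constructor
      · rintro (h4 | h4)
        · exact h4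
        · exact absurd h4 h2
      · exact fun h4 => Or.inl h4
    simp only [hact] at h3
    have hcase : h = 0 ∨ h = 1 ∨ h = 2 := by omega
    rcases hcase with rfl | rfl | rfl
    · simp at h3 ⊢
      omega
    · simp at h3 ⊢
      omega
    · simp at h3 ⊢
      omega
  -- the lower bound in a class
  have low : ∀ (t : ℕ) (R : ℤ → Prop),
      (∀ A : ℤ, A ≠ 0 → CubeRank.GenBy A (CubeRank.rr A) → CubeRank.rr A < t → R A) →
      ∀ d : ℝ, d ≤ 1 - LI ((k + if h = 1 then 1 else 0) + 1) t →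
      ∀ y : ZMod 3 × (Fin m → ZMod 3), (vN h n π p e r y.1 y.2 = 0 ∧
        ¬ (h = 0 ∧ wt ((n : ℤ) ^ 2) + y.1 = 0)) →
      BelowA ((3 ^ h * n : ℕ) : ℤ) 1 (Kl π y.1 y.2) (fun A => tf (R A)) (d / 3 ^ (m + 1)) := by
    intro t R hR d hdl y hy
    obtain ⟨h1, h2⟩ := hdim y hy
    have h3 := hB y t R hR
    rw [h1, h2, Nat.sub_zero] at h3
    exact (hSUMA _ 1 m π _).2.2.2 _ _ _ (div_le_div_of_nonneg_right hdl (by positivity)) h3
  have key : ∀ (t : ℕ) (R : ℤ → Prop),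
      (∀ A : ℤ, A ≠ 0 → CubeRank.GenBy A (CubeRank.rr A) → CubeRank.rr A < t → R A) →
      ∀ d : ℝ, 0 ≤ d → d ≤ 1 - LI ((k + if h = 1 then 1 else 0) + 1) t →
      BelowA ((3 ^ h * n : ℕ) : ℤ) 1 (fun _ => True) (fun A => tf (R A))
        (d * (2 / 3) ^ μ) := by
    intro t R hR d hd hdl
    by_cases h1' : h = 1
    · have hμ1 : μ = m := by rw [hμ, if_pos h1', add_zero]
      rw [hμ1]
      have hZ : 3 * 2 ^ m ≤ Nat.card {x : ZMod 3 × (Fin m → ZMod 3) //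
          vN h n π p e r x.1 x.2 = 0} := by
        have h5 := hNZE1 n m k π p e r f hN
        rw [h1']
        exact h5
      exact ALLQ.low hSUMA _ 1 m π _ (fun A => ALLA.tf_nn _) _ d hd
        (fun y hy => low t R hR d hdl y ⟨hy, fun h6 => by omega⟩) hZ
    · have hμ1 : μ = m + 1 := by rw [hμ, if_neg h1']
      rw [hμ1]
      exact ALLA.low hSUMA _ 1 m π _ (fun A => ALLA.tf_nn _) _ d hd
        (fun y hy => low t R hR d hdl y hy) (hNZER h n m k π p e r f hN)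
  refine ⟨?_, fun hk => ?_, fun hk => ?_⟩
  · by_cases h1' : h = 1
    · have hμ1 : μ = m := by rw [hμ, if_pos h1', add_zero]
      rw [hμ1]
      have hS : ∑ x : ZMod 3 × (Fin m → ZMod 3), 3 ^ vN h n π p e r x.1 x.2 ≤ 3 * 5 ^ m := by
        have h5 := hNSU1 n m k π p e r f hN
        rw [h1']
        exact h5
      exact ALLQ.up hSUMA _ 1 m π _ (fun y => vN h n π p e r y.1 y.2) _ 4 (by norm_num)
        (fun y => hC y) (fun y => hL7 _ _) hS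
    · have hμ1 : μ = m + 1 := by rw [hμ, if_neg h1']
      rw [hμ1]
      exact ALLA.up hSUMA _ 1 m π _ (fun y => vN h n π p e r y.1 y.2) _ 4 (by norm_num)
        (fun y => hC y) (fun y => hL7 _ _) (hNSUM h n m k π p e r f hN)
  · refine key 2 _ ALV.hone _ (by norm_num) ?_
    have := hL4 _ hk.add_one
    linarith
  · refine key 1 _ ALV.hsol _ (by norm_num) ?_
    have := hL3 _ hk.add_one
    linarith

end Pool.Agent.PTK


end

section

/-!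
# PTK_CLV: the distribution of the rank in a class, `q = 1 (mod 3)`
-/

set_option autoImplicit false

open NumberField IsDedekindDomain Finset
open scoped nonZeroDivisors Pointwise

namespace Pool.Agent.PTK

open Pool.Agent.Lib_helper18 Pool.Agent.Lib_helper18.Eis Pool.Agent.Lib_helper84.Cub
open Pool.Agent.PT Pool.Agent.PTE Pool.Agent.PT3 Pool.Agent.PTL Pool.Agent.PTN

namespace CLV

/-- the identity for the tails -/
theorem li_eq (hESZ : Stmt_ESZ) (d τ : ℕ) :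
    (1 - 1 / 3 ^ d) * LI (d - 1) τ + 1 / 3 ^ d * LI d (τ - 1) = LI (d + 1) τ := by
  have h1 := hESZ d (fun c => if τ ≤ c then 1 else 0)
  have h2 : (fun c => (if τ ≤ c + 1 then (1 : ℝ) else 0)) =
      fun c => if τ - 1 ≤ c then (1 : ℝ) else 0 := by
    funext c
    by_cases h : τ ≤ c + 1
    · rw [if_pos h, if_pos (by omega)]
    · rw [if_neg h, if_neg (by omega)]
  simp only [h2] at h1
  rw [LAW.Esk_ind, LAW.Esk_ind, LAW.Esk_ind] at h1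
  exact h1

/-- the empty configuration -/
theorem te0 {M' : ℕ} (V V₀ : Submodule (ZMod 3) (Fin M' → ZMod 3)) :
    TeC V V₀ (Fin.elim0 : Fin 0 → Fin M' → ZMod 3) (Fin.elim0 : Fin 0 → Fin 0) Fin.elim0 where
  ind := linearIndependent_empty_type
  mem i := i.elim0
  lt j := j.elim0
  inj j := j.elim0
  wl j := j.elim0

/-- the number of the classes -/
theorem log_le (h n : ℕ) {m k : ℕ} (π : Fin m → PP) (p e : Fin m → ℕ) (r : Fin k → ℕ)
    (w0 : ZMod 3) (c : Fin m → ZMod 3) (B : ℤ) :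
    Nat.log 3 (Nat.card (WqS h n π p e r w0 c B)) ≤ vN h n π p e r w0 c := by
  have h1 : Nat.card (WqS h n π p e r w0 c B) ≤ Nat.card (VS h n π p e r w0 c) := by
    refine Nat.card_le_card_of_injective
      (fun y => (⟨y.1, y.2.1⟩ : VS h n π p e r w0 c)) ?_
    intro y y' hy
    exact Subtype.ext (congrArg (fun z : VS h n π p e r w0 c => z.1) hy)
  have h2 : Nat.card (VS h n π p e r w0 c) = 3 ^ vN h n π p e r w0 c := by
    rw [Module.natCard_eq_pow_finrank (K := ZMod 3), Nat.card_zmod]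
    rfl
  rw [h2] at h1
  calc Nat.log 3 (Nat.card (WqS h n π p e r w0 c B)) ≤ Nat.log 3 (3 ^ vN h n π p e r w0 c) :=
        Nat.log_mono_right h1
    _ = vN h n π p e r w0 c := Nat.log_pow (by norm_num) _

end CLV

open _root_.Pool.Agent.PTK.CLV BDENS in
/-- CLV: the distribution of the rank in a class, `q = 1 (mod 3)`. -/
theorem CLV_thm (hNHPT : Stmt_NHPT) (hPLE : Stmt_PLE) (hDLU : Stmt_DLU) (hSMT : Stmt_SMT)
    (hPAT : Stmt_PAT) (hZPV : Stmt_ZPV) (hNBX : Stmt_NBX) (hMTZ : Stmt_MTZ)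
    (hESZ : Stmt_ESZ) : Stmt_CLV := by
  classical
  intro h n m k π p e r f w0 c hNF hh t
  have hn0 : 0 < n := by
    rw [hNF.eq]
    exact Nat.mul_pos (Finset.prod_pos fun i _ => pow_pos (hNF.pp i).pos _)
      (Finset.prod_pos fun j _ => pow_pos (hNF.rp j).pos _)
  obtain ⟨d, V, hd, hAd, hspan, hHP⟩ := hNHPT h n m k π p e r f w0 c hNF hh
  have hHB : HB h n π w0 c V := ⟨hAd, hspan, hHP⟩
  obtain ⟨s, ty, b, X, Y, P, Q, P', Q', hs, hPl⟩ := hPLE h n m k π p e r f w0 c hNF hh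
  have hsd : s = d := hs.trans hd.symm
  subst hsd
  rw [← hd]
  obtain ⟨τ, hτ⟩ : ∃ τ, τ = t - vN h n π p e r w0 c := ⟨_, rfl⟩
  rw [← hτ]
  obtain ⟨M1, hM1⟩ := hPAT s V fun i => (hAd i).1.ne
  obtain ⟨M2, hM2⟩ := hZPV h n m k π p e r f w0 c s ty b X Y P Q P' Q' s V hNF hh hPl hHB
  have hU := hDLU h n m k π p e r f w0 c s V hNF hh hHB
  obtain ⟨KM, hKM⟩ := hMTZ h n m k π p e r f w0 c s ty b X Y P Q P' Q' hNF hh hPl 0 0
    Fin.elim0 Fin.elim0 Fin.elim0 (te0 _ _) (τ - 1)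
  -- the primes outside of `ZP V`
  have hA : ∀ E : ℕ, ∃ K : ℝ, ∀ σ : ℝ, 1 < σ → σ ≤ 2 → 2 * sm (WR h n π w0 c 1 E t \ ZP V) σ ≤
      ∑ i : {δ : Fin s → ZMod 3 // δ ≠ 0}, sm (WR h n π w0 c 1 E t ∩ Pat V i.1) σ + K := by
    intro E
    refine (hSMT {δ : Fin s → ZMod 3 // δ ≠ 0} (WR h n π w0 c 1 E t \ ZP V) ∅ ∅
      (fun i => WR h n π w0 c 1 E t ∩ Pat V i.1) M1).1 ?_
    intro q hq hMq hqS
    rcases hM1 q hq hMq hqS.1.1 with h1 | ⟨δ, δ', h1, h2, h3, h4, h5⟩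
    · exact absurd h1 hqS.2
    · exact ⟨⟨δ, h1⟩, ⟨δ', h2⟩, fun h6 => h3 (congrArg Subtype.val h6), ⟨hqS.1, h4⟩,
        ⟨hqS.1, h5⟩⟩
  -- the primes of `ZP V`
  have hB : ∀ E : ℕ, (E = 1 ∨ E = 2) → ∃ K : ℝ, ∀ σ : ℝ, 1 < σ → σ ≤ 2 →
      sm (WR h n π w0 c 1 E t) σ ≤ sm (WR h n π w0 c 1 E t \ ZP V) σ +
        sm {q | (q ∈ QM h n π e w0 c (Fin.elim0 : Fin 0 → Fin (m + 1) → ZMod 3)
          (Fin.elim0 : Fin 0 → Fin 0) 1 E ∧ q ∈ ZP b) ∧
          τ - 1 ≤ kS h n b X Y P Q P' Q' E q} σ + K := by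
    intro E hE
    refine (hSMT PUnit (WR h n π w0 c 1 E t) (WR h n π w0 c 1 E t \ ZP V) _
      (fun _ => ∅) (n + 3 + M2)).2.2 ?_
    intro q hq hMq hqS
    by_cases hZ : q ∈ ZP V
    · right
      have hZb := hM2 q hq (by omega) hZ
      refine ⟨⟨⟨hqS.1, hqS.2.1, fun j => j.elim0⟩, hZb⟩, ?_⟩
      have h1 := CubeRank.rr_le (hNBX h n m k π p e r f w0 c s ty b X Y P Q P' Q' E q hNF hh hPl
        hE hq (by omega) hqS.1 hqS.2.1 (fun hd => by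
          have := Nat.le_of_dvd hn0 hd
          omega) hZb)
      have h2 := log_le h n π p e r w0 c (BB h n E q)
      have h3 := hqS.2.2
      omega
    · left
      exact ⟨hqS, hZ⟩
  obtain ⟨KA1, hA1⟩ := hA 1
  obtain ⟨KA2, hA2⟩ := hA 2
  obtain ⟨KB1, hB1⟩ := hB 1 (Or.inl rfl)
  obtain ⟨KB2, hB2⟩ := hB 2 (Or.inr rfl)
  choose KU hKU using fun δ : {δ : Fin s → ZMod 3 // δ ≠ 0} => hU δ.1 δ.2 t
  have hcard := CLU.card_ne s
  refine ⟨KB1 + KB2 + (KA1 + KA2 + ∑ i, KU i) / 2 + KM, fun σ hσ hσ2 => ?_⟩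
  have a1 := hA1 σ hσ hσ2
  have a2 := hA2 σ hσ hσ2
  have b1 := hB1 σ hσ hσ2
  have b2 := hB2 σ hσ hσ2
  have c0 := hKM σ hσ hσ2
  obtain ⟨Lg, hLg⟩ : ∃ Lg, Lg = Real.log (1 / (σ - 1)) := ⟨_, rfl⟩
  have u1 : ∑ i : {δ : Fin s → ZMod 3 // δ ≠ 0}, sm (WR h n π w0 c 1 1 t ∩ Pat V i.1) σ +
      ∑ i : {δ : Fin s → ZMod 3 // δ ≠ 0}, sm (WR h n π w0 c 1 2 t ∩ Pat V i.1) σ ≤
      (3 ^ s - 1) * (2 / 3 ^ s * LI (s - 1) τ / 3 ^ (m + 1) * Lg) + ∑ i, KU i := by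
    rw [← Finset.sum_add_distrib, ← hcard, ← nsmul_eq_mul, ← Finset.card_univ,
      ← Finset.sum_const, ← Finset.sum_add_distrib, hLg, hτ]
    exact Finset.sum_le_sum fun i _ => hKU i σ hσ hσ2
  rw [← hLg] at c0 ⊢
  have e1 : (3 ^ s - 1 : ℝ) * (2 / 3 ^ s * LI (s - 1) τ / 3 ^ (m + 1) * Lg) =
      2 * ((1 - 1 / 3 ^ s) * LI (s - 1) τ / 3 ^ (m + 1) * Lg) := by
    field_simp
  have e2 : (1 / 3 ^ s / 3 ^ 0 / 3 ^ (m + 1) * LI s (τ - 1) * Lg : ℝ) =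
      1 / 3 ^ s * LI s (τ - 1) / 3 ^ (m + 1) * Lg := by
    rw [pow_zero, div_one]
    ring
  have e3 : LI (s + 1) τ / 3 ^ (m + 1) * Lg = (1 - 1 / 3 ^ s) * LI (s - 1) τ / 3 ^ (m + 1) * Lg +
      1 / 3 ^ s * LI s (τ - 1) / 3 ^ (m + 1) * Lg := by
    rw [← li_eq hESZ s τ]
    ring
  rw [e1] at u1
  rw [e2] at c0
  rw [e3]
  linarith

end Pool.Agent.PTK


end

section

/-!
# PTK_DE2: the pairing of the minus part as a function of the prime `Q = 2 (mod 3)` and of `E`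
-/

set_option autoImplicit false

open NumberField IsDedekindDomain Finset
open scoped nonZeroDivisors Pointwise

namespace Pool.Agent.PTK

open Pool.Agent.Lib_helper18 Pool.Agent.Lib_helper18.Eis Pool.Agent.Lib_helper84.Cub
open Pool.Agent.PT Pool.Agent.PTE Pool.Agent.PT3 Pool.Agent.PTL Pool.Agent.PTN

namespace DE2

open DPA

lemma w_ne : w ≠ 0 := by
  intro h
  have := congrArg Eis.im h
  simp at this

lemma sy_zero (hSTM : STM) (hSPP : SPP) {B x : Eis} (hB : B ≠ 0) (hx : x ≠ 0)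
    (h : ∀ π : PP, tm π.1 x B = 0) (v : Pl) : sy v B x = 0 := by
  have h1 : ∀ π : PP, tm π.1 B x = 0 := by
    intro π
    rw [(hSTM π.1 π.2.1 (hSPP.2.2.2.1 π).1).skew x B hx hB, h π, neg_zero]
  rcases v with _ | π
  · show sl B x = 0
    unfold sl
    rw [finsum_eq_zero_of_forall_eq_zero h1, neg_zero]
  · exact h1 π

lemma N_ne {N : ℕ} {b x p q p' q' : Eis} (HE : HypE N b x p q p' q') : (N : Eis) ≠ 0 := by
  have h2 : ((N : ℤ) : Eis) ≠ 0 := DCONST.cast_ne (by have := HE.N0; omega)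
  rwa [Int.cast_natCast] at h2

lemma Q_ne {f : ℕ} (hf : 1 < f) {Q : ℕ} (hQ : Q.Coprime f) : (Q : Eis) ≠ 0 := by
  have h1 : ((Q : ℤ) : Eis) ≠ 0 := ne_cop hf (Nat.isCoprime_iff_coprime.2 hQ)
  rwa [Int.cast_natCast] at h1

lemma B_ne {N : ℕ} {b x p q p' q' : Eis} (HE : HypE N b x p q p' q') {f : ℕ} (hf : 1 < f)
    (E : ℕ) {Q : ℕ} (hQ : Q.Coprime f) : (N : Eis) * (Q : Eis) ^ E ≠ 0 :=
  mul_ne_zero (N_ne HE) (pow_ne_zero _ (Q_ne hf hQ))

/-- the place above `3` -/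
lemma lamE (hSTM : STM) (hSPP : SPP) (hSLC : SLC) (hAVE : Stmt_AVE) {N : ℕ}
    {b x p q p' q' : Eis} (HE : HypE N b x p q p' q') {f : ℕ} (hf : 1 < f) (h9 : 9 ∣ f) :
    ∃ (C : ZMod 3) (Φ : (ZMod f)ˣ →* Multiplicative (ZMod 3)),
      ∀ (E Q : ℕ) (hQ : Q.Coprime f),
        (∀ σ : PP, tm σ.1 b ((N : Eis) * (Q : Eis) ^ E) = 0) →
        (∀ σ : PP, tm σ.1 x ((N : Eis) * (Q : Eis) ^ E) = 0) →
        LTE ((N : Eis) * (Q : Eis) ^ E) b x p q p' q' =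
          C + E * (Φ (ZMod.unitOfCoprime Q hQ)).toAdd := by
  have hs : LSym lam sl 4 := hSLC
  have hlamf : lam ^ 4 ∣ (f : Eis) := by
    have h1 : ((9 : ℤ) : Eis) ∣ ((f : ℤ) : Eis) :=
      intCast_dvd_intCast.2 (by exact_mod_cast h9)
    rw [Int.cast_natCast] at h1
    refine Dvd.dvd.trans ⟨w ^ 4, ?_⟩ h1
    have h2 : ((9 : ℤ) : Eis) = (3 : Eis) ^ 2 := by norm_num
    rw [h2, three_eq]
    ring
  have hN := N_ne HE
  have hw0 := w_ne
  by_cases hb : LCE lam b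
  · obtain ⟨C, Φ, H⟩ := place_LC (n := (N : Eis)) hs hN HE.sol.n1 (SolE_n1' HE.sol) hb hf hlamf
    refine ⟨C + sl w x, Φ, ?_⟩
    intro E Q hQ _ hx
    have hB := B_ne HE hf E hQ
    unfold LTE
    rw [if_pos hb]
    obtain ⟨N0, hN0⟩ := (hAVE none ((N : Eis) * (Q : Eis) ^ E) b x p q p' q' hB HE.hb HE.hx
      HE.sol.toSolWE (sy_zero hSTM hSPP hB HE.hx hx none) hb).1
    rw [H E Q hQ _ N0 hN0]
    ring
  · by_cases hx : LCE lam x
    · have hfl := SolE_flip HE.sol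
      obtain ⟨r₀, hr, hr', H⟩ := exists_root (p := p) (q := -p') (p' := -q) (q' := q') hs hfl.n1
        (SolE_n1' (b := b) (x := x) (p := p) (q := -p') (p' := -q) (q' := q') hfl) hx
      have hg1 := HE.sol.g1
      have hg2 := HE.sol.g2
      obtain ⟨C, Φ, hΦ⟩ := exists_char hs.prime hs.pos hf hlamf
        (fun B => sl B (GfE p q p' q' 1) - sl B (GfE p q p' q' 2) - sl B w -
          ASE sl B p (-p') (-q) q' r₀)
        (by
          intro A B hA hB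
          show _ = (_ : ZMod 3)
          rw [hs.mul A B _ hA hB hg1, hs.mul A B _ hA hB hg2, hs.mul A B _ hA hB hw0,
            ASE_mul hs hr hr' hA hB]
          ring)
        (by
          intro A B hA hB hd
          show _ = (_ : ZMod 3)
          rw [hs.cont A B _ hA hg1 hd, hs.cont A B _ hA hg2 hd, hs.cont A B _ hA hw0 hd,
            ASE_cont hs hr hr' hA hd]) hN
      refine ⟨C - sl (x * b) w - sl w b, Φ, ?_⟩
      intro E Q hQ hb' _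
      have hB := B_ne HE hf E hQ
      unfold LTE
      rw [if_neg hb, if_pos hx]
      obtain ⟨N0, hN0⟩ := (hAVE none ((N : Eis) * (Q : Eis) ^ E) x b p (-p') (-q) q' hB HE.hx
        HE.hb hfl.toSolWE (sy_zero hSTM hSPP hB HE.hb hb' none) hx).1
      have h1 := H _ _ N0 hB hN0
      have h2 := hΦ E Q hQ
      have h3 : sl w ((N : Eis) * (Q : Eis) ^ E * x * b) =
          - (sl ((N : Eis) * (Q : Eis) ^ E) w + sl (x * b) w) := by
        rw [mul_assoc, hs.skew _ w (mul_ne_zero hB (mul_ne_zero HE.hx HE.hb)) hw0,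
          hs.mul _ _ w hB (mul_ne_zero HE.hx HE.hb) hw0]
      unfold UVE
      rw [h3]
      have h5 : AVE none ((N : Eis) * (Q : Eis) ^ E) x p (-p') (-q) q' =
        ASE sl ((N : Eis) * (Q : Eis) ^ E) p (-p') (-q) q' r₀ := h1.symm
      rw [h5]
      linear_combination h2
    · refine ⟨lfE b x, 1, ?_⟩
      intro E Q hQ _ _
      unfold LTE
      rw [if_neg hb, if_neg hx]
      simp

/-- the tame places dividing `f` -/
lemma tameE (hSTM : STM) (hSPP : SPP) (hAVE : Stmt_AVE) {N : ℕ} {b x p q p' q' : Eis}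
    (HE : HypE N b x p q p' q') (π : PP) {f : ℕ} (hf : 1 < f) (hπf : π.1 ∣ (f : Eis)) :
    ∃ (C : ZMod 3) (Φ : (ZMod f)ˣ →* Multiplicative (ZMod 3)),
      ∀ (E Q : ℕ) (hQ : Q.Coprime f),
        (∀ σ : PP, tm σ.1 x ((N : Eis) * (Q : Eis) ^ E) = 0) →
        TTE π ((N : Eis) * (Q : Eis) ^ E) b x p q p' q' =
          C + E * (Φ (ZMod.unitOfCoprime Q hQ)).toAdd := by
  have hs : LSym π.1 (tm π.1) 1 := hSTM π.1 π.2.1 (hSPP.2.2.2.1 π).1
  have hN := N_ne HE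
  by_cases hb : LCE π.1 b
  · obtain ⟨C, Φ, H⟩ := place_LC (n := (N : Eis)) hs hN HE.sol.n1 (SolE_n1' HE.sol) hb hf
      (by rwa [pow_one])
    refine ⟨C + tm π.1 w x, Φ, ?_⟩
    intro E Q hQ hx
    have hB := B_ne HE hf E hQ
    unfold TTE
    rw [if_pos hb]
    obtain ⟨N0, hN0⟩ := (hAVE (some π) ((N : Eis) * (Q : Eis) ^ E) b x p q p' q' hB HE.hb HE.hx
      HE.sol.toSolWE (sy_zero hSTM hSPP hB HE.hx hx (some π)) hb).1
    rw [H E Q hQ _ N0 hN0]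
    ring
  · classical
    refine ⟨if 3 ∣ V π.1 b + V π.1 (N : Eis) ∧ ¬ 3 ∣ V π.1 b then - tm π.1 w x else 0, 1, ?_⟩
    intro E Q hQ _
    have hQ0 := Q_ne hf hQ
    have h1 := V_cop π.2.1 hπf (Nat.isCoprime_iff_coprime.2 hQ)
    rw [Int.cast_natCast] at h1
    have hV : V π.1 ((N : Eis) * (Q : Eis) ^ E) = V π.1 (N : Eis) := by
      rw [V_mul π.2.1 hN (pow_ne_zero _ hQ0), V_pow π.2.1 hQ0, h1, mul_zero, add_zero]
    unfold TTE
    rw [if_neg hb, hV]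
    simp

/-- the local terms vanish outside -/
lemma outE (hSTM : STM) (hSPP : SPP) (hAVE : Stmt_AVE) {N : ℕ} {b x p q p' q' : Eis}
    (HE : HypE N b x p q p' q') (π : PP) {B : Eis} (hB : B ≠ 0) (hπB : ¬ π.1 ∣ B)
    (hπN : ¬ π.1 ∣ (N : Eis)) (h1 : ¬ π.1 ∣ p ^ 3 + b * q ^ 3)
    (h2 : ¬ π.1 ∣ p' ^ 3 + b * q' ^ 3) (hx : ∀ σ : PP, tm σ.1 x B = 0) :
    TTE π B b x p q p' q' = 0 := by
  obtain ⟨hπb, hπx⟩ := HE.unr π hπN
  unfold TTE
  by_cases hb : LCE π.1 b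
  · rw [if_pos hb, DCONST.tm_zero (not_dvd_w π.2.1) hπx, add_zero]
    refine (hAVE (some π) B b x p q p' q' hB HE.hb HE.hx HE.sol.toSolWE
      (sy_zero hSTM hSPP hB HE.hx hx (some π)) hb).2 0 1 ?_
    intro r hr
    have hr1 : π.1 ∣ r ^ 3 - b := by
      have h3 : π.1 ^ 1 ∣ r ^ 3 - b := hr
      rwa [pow_one] at h3
    have k1 := LfE_ndvd (p := p) (q := q) hr1 h1
    have k2 := LfE_ndvd (p := p') (q := q') hr1 h2
    show ASE (tm π.1) B p q p' q' r = 0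
    unfold ASE
    rw [DCONST.tm_zero hπB (k1 2), DCONST.tm_zero hπB (k2 1), DCONST.tm_zero hπB (k1 1),
      DCONST.tm_zero hπB (k2 2)]
    simp
  · rw [if_neg hb, if_neg]
    rintro ⟨-, h3⟩
    apply h3
    rw [V_eq_zero hπb]
    exact dvd_zero 3

/-- the local term at `Q` -/
lemma atQ (hSTM : STM) (hSPP : SPP) (hAVE : Stmt_AVE) (hLCI : Stmt_LCI) {N : ℕ}
    {b x p q p' q' : Eis} (HE : HypE N b x p q p' q') (π : PP) {E Q : ℕ}
    (hE : E = 1 ∨ E = 2) (hπQ : π.1 = (Q : Eis)) (hπN : ¬ π.1 ∣ (N : Eis))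
    (hM1 : ¬ π.1 ∣ p ^ 3 + b * q ^ 3) (hM2 : ¬ π.1 ∣ p' ^ 3 + b * q' ^ 3)
    (hsb : ∀ σ : PP, tm σ.1 b ((N : Eis) * (Q : Eis) ^ E) = 0)
    (hsx : ∀ σ : PP, tm σ.1 x ((N : Eis) * (Q : Eis) ^ E) = 0) {ξ : Eis}
    (hξ : (Q : Eis) ∣ ξ ^ 3 - b) :
    TTE π ((N : Eis) * (Q : Eis) ^ E) b x p q p' q' = - (E * TAUE Q p q p' q' ξ) := by
  have h3 : ¬ π.1 ∣ 3 := (hSPP.2.2.2.1 π).1
  have hs : LSym π.1 (tm π.1) 1 := hSTM π.1 π.2.1 h3
  obtain ⟨hπb, hπx⟩ := HE.unr π hπN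
  have hVx0 : V π.1 x = 0 := V_eq_zero hπx
  have hVb0 : V π.1 b = 0 := V_eq_zero hπb
  have hQe : (Q : Eis) = π.1 := hπQ.symm
  have hB : (N : Eis) * (Q : Eis) ^ E ≠ 0 := by
    rw [hQe]
    exact mul_ne_zero (N_ne HE) (pow_ne_zero _ π.2.1.ne_zero)
  have hVB : V π.1 ((N : Eis) * (Q : Eis) ^ E) = E := by
    rw [← hπQ, V_mul_not_dvd π.2.1 hπN (pow_ne_zero _ π.2.1.ne_zero), V_pow π.2.1 π.2.1.ne_zero,
      V_self, mul_one]
  have hE0 : (E : ZMod 3) ≠ 0 := by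
    rcases hE with h | h
    · rw [h]; decide
    · rw [h]; decide
  have hcub : ∀ a : Eis, V π.1 a = 0 → tm π.1 a ((N : Eis) * (Q : Eis) ^ E) = 0 →
      ch π.1 a = 0 := by
    intro a ha h
    unfold tm at h
    rw [hVB, ha] at h
    simp only [Nat.cast_zero, zero_mul, sub_zero] at h
    exact (mul_eq_zero.1 h).resolve_left hE0
  have hcx := hcub x hVx0 (hsx π)
  have hcb := hcub b hVb0 (hsb π)
  have hLb : LCE π.1 b := (hLCI.1 π b HE.hb).2 ⟨by rw [hVb0]; exact dvd_zero 3, hcb⟩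
  rw [hQe] at hξ
  -- independence of the cube root
  have hcongr : ∀ r r' : Eis, π.1 ∣ r - r' → TAUE Q p q p' q' r = TAUE Q p q p' q' r' := by
    intro r r' hr
    have h6 : ∀ (g h : Eis) (i : ℕ), sym (Q : Eis) (LfE g h i r) = sym (Q : Eis) (LfE g h i r') := by
      intro g h i
      apply sym_congr
      have h7 : LfE g h i r - LfE g h i r' = (h * w ^ i) * (r - r') := by
        unfold LfE
        ring
      rw [h7, hQe]
      exact dvd_mul_of_dvd_right hr _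
    unfold TAUE
    rw [h6, h6, h6, h6]
  have hshift : ∀ r : Eis, π.1 ∣ r ^ 3 - b → TAUE Q p q p' q' (w * r) = TAUE Q p q p' q' r := by
    intro r hr
    have m1 := LfE_ndvd (p := p) (q := q) hr hM1
    have m2 := LfE_ndvd (p := p') (q := q') hr hM2
    have h8 : sym π.1 (LfE p q 0 r) + sym π.1 (LfE p q 1 r) + sym π.1 (LfE p q 2 r) =
        sym π.1 x + (sym π.1 (LfE p' q' 0 r) + sym π.1 (LfE p' q' 1 r) +
          sym π.1 (LfE p' q' 2 r)) := by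
      rw [← sym_mul π.2.1 h3 (m1 0) (m1 1), ← sym_mul π.2.1 h3 (π.2.1.not_dvd_mul (m1 0) (m1 1)) (m1 2),
        ← sym_mul π.2.1 h3 (m2 0) (m2 1), ← sym_mul π.2.1 h3 (π.2.1.not_dvd_mul (m2 0) (m2 1)) (m2 2),
        ← sym_mul π.2.1 h3 hπx (π.2.1.not_dvd_mul (π.2.1.not_dvd_mul (m2 0) (m2 1)) (m2 2))]
      apply sym_congr
      rw [DP4.LfE_prod, DP4.LfE_prod]
      have h9 : p ^ 3 + q ^ 3 * r ^ 3 - x * (p' ^ 3 + q' ^ 3 * r ^ 3) =
          (q ^ 3 - x * q' ^ 3) * (r ^ 3 - b) := by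
        linear_combination HE.sol.eq
      rw [h9]
      exact dvd_mul_of_dvd_right hr _
    have h10 : sym π.1 x = 0 := by
      have h11 := hcx
      unfold ch up at h11
      rwa [hVx0, pow_zero, EuclideanDomain.div_one] at h11
    unfold TAUE
    rw [DP4.LfE_shift, DP4.LfE_shift, DP4.LfE_shift, DP4.LfE_shift, hQe]
    have e1 : LfE p q (2 + 1) r = LfE p q 0 r := DP4.LfE_per p q r 0
    have e2 : LfE p' q' (2 + 1) r = LfE p' q' 0 r := DP4.LfE_per p' q' r 0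
    rw [e1, e2]
    rw [h10] at h8
    have h12 : (3 : ZMod 3) = 0 := rfl
    linear_combination h8 - (sym π.1 (LfE p q 2 r) - sym π.1 (LfE p' q' 2 r)) * h12
  have hw3 : ∀ r : Eis, π.1 ∣ r ^ 3 - b → π.1 ∣ (w * r) ^ 3 - b := by
    intro r hr
    rwa [mul_pow, w_cube, one_mul]
  unfold TTE
  rw [if_pos hLb, DCONST.tm_zero (not_dvd_w π.2.1) hπx, add_zero]
  refine (hAVE (some π) ((N : Eis) * (Q : Eis) ^ E) b x p q p' q' hB HE.hb HE.hx HE.sol.toSolWE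
    (sy_zero hSTM hSPP hB HE.hx hsx (some π)) hLb).2 _ 1 ?_
  intro ξ' hξ'
  have h4 : π.1 ∣ ξ' ^ 3 - b := by
    have h5 : π.1 ^ 1 ∣ ξ' ^ 3 - b := hξ'
    rwa [pow_one] at h5
  have k1 := LfE_ndvd (p := p) (q := q) h4 hM1
  have k2 := LfE_ndvd (p := p') (q := q') h4 hM2
  have hdiv : π.1 ∣ (ξ' - ξ) * (ξ' - w * ξ) * (ξ' - w * (w * ξ)) := by
    have h13 : (ξ' - ξ) * (ξ' - w * ξ) * (ξ' - w * (w * ξ)) = (ξ' ^ 3 - b) - (ξ ^ 3 - b) := by
      have h1 : w ^ 3 = 1 := w_cube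
      have h2 : w ^ 2 + w + 1 = 0 := w_rel
      linear_combination (- ξ ^ 3) * h1 + (- ξ' ^ 2 * ξ + ξ' * ξ ^ 2 * w) * h2
    rw [h13]
    exact dvd_sub h4 hξ
  have hT : TAUE Q p q p' q' ξ' = TAUE Q p q p' q' ξ := by
    rcases π.2.1.dvd_or_dvd hdiv with h | h
    · rcases π.2.1.dvd_or_dvd h with h | h
      · exact hcongr _ _ h
      · rw [hcongr _ _ h, hshift ξ hξ]
    · rw [hcongr _ _ h, hshift (w * ξ) (hw3 ξ hξ), hshift ξ hξ]
  show ASE (tm π.1) ((N : Eis) * (Q : Eis) ^ E) p q p' q' ξ' = _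
  rw [← hT]
  unfold ASE TAUE
  rw [hQe, DP4.tm_inert π.2.1 hπN (k1 2), DP4.tm_inert π.2.1 hπN (k2 1),
    DP4.tm_inert π.2.1 hπN (k1 1), DP4.tm_inert π.2.1 hπN (k2 2)]
  ring

/-- the modulus -/
lemma exists_mod {N : ℕ} {b x p q p' q' : Eis} (HE : HypE N b x p q p' q') :
    ∃ M : ℕ, 0 < M ∧ (N : Eis) ∣ (M : Eis) ∧ p ^ 3 + b * q ^ 3 ∣ (M : Eis) ∧
      p' ^ 3 + b * q' ^ 3 ∣ (M : Eis) := by
  have hn1 := HE.sol.n1
  have hn2 := SolE_n1' HE.sol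
  obtain ⟨m1, hm1⟩ : ∃ m : ℕ, m = (p ^ 3 + b * q ^ 3).norm.natAbs := ⟨_, rfl⟩
  obtain ⟨m2, hm2⟩ : ∃ m : ℕ, m = (p' ^ 3 + b * q' ^ 3).norm.natAbs := ⟨_, rfl⟩
  have hm1d : p ^ 3 + b * q ^ 3 ∣ (m1 : Eis) := by rw [hm1]; exact DCK.dvd_natAbs_norm _
  have hm2d : p' ^ 3 + b * q' ^ 3 ∣ (m2 : Eis) := by rw [hm2]; exact DCK.dvd_natAbs_norm _
  have hm1p : 0 < m1 := by
    rw [hm1]
    exact Int.natAbs_pos.2 (norm_pos hn1).ne'
  have hm2p : 0 < m2 := by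
    rw [hm2]
    exact Int.natAbs_pos.2 (norm_pos hn2).ne'
  have hMe : ((N * m1 * m2 : ℕ) : Eis) = (N : Eis) * (m1 : Eis) * (m2 : Eis) := by
    push_cast
    ring
  refine ⟨N * m1 * m2, Nat.mul_pos (Nat.mul_pos HE.N0 hm1p) hm2p, ?_, ?_, ?_⟩
  · rw [hMe, mul_assoc]
    exact Dvd.intro _ rfl
  · rw [hMe]
    exact dvd_mul_of_dvd_left (dvd_mul_of_dvd_right hm1d _) _
  · rw [hMe]
    exact dvd_mul_of_dvd_right hm2d _

end DE2

open DPA _root_.Pool.Agent.PTK.DE2 in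
/-- PTK_DE2. -/
theorem DE2_thm (hAVE : Stmt_AVE) (hLCI : Stmt_LCI) (hSTM : STM) (hSPP : SPP) (hSLC : SLC) :
    Stmt_DE2 := by
  intro N b x p q p' q' HE
  obtain ⟨M, hMp, dN, d1, d2⟩ := exists_mod HE
  have hM0 : (M : Eis) ≠ 0 := DCK.nat_ne hMp.ne'
  have hfin := hSPP.2.2.1 (M : Eis) hM0
  refine ⟨9 * M, by omega, ?_⟩
  intro f hf0 hf
  have h9 : 9 ∣ f := (Dvd.intro _ rfl).trans hf
  have hf1 : 1 < f := by
    have := Nat.le_of_dvd hf0 h9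
    omega
  have hMf : M ∣ f := (Dvd.intro_left 9 rfl).trans hf
  have hMfe : (M : Eis) ∣ (f : Eis) := by
    obtain ⟨k, hk⟩ := hMf
    rw [hk]
    push_cast
    exact Dvd.intro _ rfl
  obtain ⟨C₀, Φ₀, H₀⟩ := lamE hSTM hSPP hSLC hAVE HE hf1 h9
  have hpl : ∀ π : PP, ∃ (c : ZMod 3) (Φ : (ZMod f)ˣ →* Multiplicative (ZMod 3)),
      π.1 ∣ (M : Eis) → ∀ (E Q : ℕ) (hQ : Q.Coprime f),
        (∀ σ : PP, tm σ.1 x ((N : Eis) * (Q : Eis) ^ E) = 0) →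
        TTE π ((N : Eis) * (Q : Eis) ^ E) b x p q p' q' =
          c + E * (Φ (ZMod.unitOfCoprime Q hQ)).toAdd := by
    intro π
    by_cases hπM : π.1 ∣ (M : Eis)
    · obtain ⟨C, Φ, H⟩ := tameE hSTM hSPP hAVE HE π hf1 (hπM.trans hMfe)
      exact ⟨C, Φ, fun _ => H⟩
    · exact ⟨0, 1, fun h => absurd h hπM⟩
  choose c Φ H using hpl
  refine ⟨C₀ + ∑ π ∈ hfin.toFinset, c π, Φ₀ * ∏ π ∈ hfin.toFinset, Φ π, 0, ?_⟩
  intro E Q hQ hE hQp _ hQ3 hsb hsx ξ hξ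
  obtain ⟨πQ, hπQ⟩ := hSPP.2.2.2.2.1 Q hQp hQ3
  have hB := DE2.B_ne HE hf1 E hQ
  have hQM : ¬ πQ.1 ∣ (M : Eis) := by
    intro h
    rw [hπQ] at h
    have h1 : ((Q : ℤ) : Eis) ∣ ((M : ℤ) : Eis) := by
      rw [Int.cast_natCast, Int.cast_natCast]
      exact h
    have h2 : Q ∣ M := Int.natCast_dvd_natCast.1 (intCast_dvd_intCast.1 h1)
    have h3 := Nat.Coprime.eq_one_of_dvd hQ (h2.trans hMf)
    exact hQp.one_lt.ne' h3
  have hTQ := atQ hSTM hSPP hAVE hLCI HE πQ hE hπQ (fun h => hQM (h.trans dN))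
    (fun h => hQM (h.trans d1)) (fun h => hQM (h.trans d2)) hsb hsx hξ
  have hQS : πQ ∉ hfin.toFinset := by
    rw [Set.Finite.mem_toFinset]
    exact hQM
  classical
  have hsupp : (Function.support fun π : PP =>
      TTE π ((N : Eis) * (Q : Eis) ^ E) b x p q p' q') ⊆
      ((insert πQ hfin.toFinset : Finset PP) : Set PP) := by
    intro π hv
    by_contra hnv
    apply hv
    have hnM : ¬ π.1 ∣ (M : Eis) := by
      intro h
      apply hnv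
      rw [Finset.mem_coe]
      refine Finset.mem_insert_of_mem ?_
      rw [Set.Finite.mem_toFinset]
      exact h
    have hπne : π ≠ πQ := by
      rintro rfl
      apply hnv
      rw [Finset.mem_coe]
      exact Finset.mem_insert_self _ _
    have hπQnd : ¬ π.1 ∣ (Q : Eis) := by
      rw [← hπQ]
      intro h
      exact hπne (hSPP.2.1 π πQ (π.2.1.associated_of_dvd πQ.2.1 h))
    have hπN : ¬ π.1 ∣ (N : Eis) := fun h => hnM (h.trans dN)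
    refine outE hSTM hSPP hAVE HE π hB ?_ hπN (fun h => hnM (h.trans d1))
      (fun h => hnM (h.trans d2)) hsx
    intro h
    rcases π.2.1.dvd_or_dvd h with h1 | h1
    · exact hπN h1
    · exact hπQnd (π.2.1.dvd_of_dvd_pow h1)
  have hsum : ∑ π ∈ hfin.toFinset, TTE π ((N : Eis) * (Q : Eis) ^ E) b x p q p' q' =
      ∑ π ∈ hfin.toFinset, (c π + E * (Φ π (ZMod.unitOfCoprime Q hQ)).toAdd) := by
    refine Finset.sum_congr rfl ?_
    intro π hπ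
    rw [Set.Finite.mem_toFinset] at hπ
    exact H π hπ E Q hQ hsx
  unfold OZE
  rw [finsum_eq_sum_of_support_subset _ hsupp, Finset.sum_insert hQS, hsum, hTQ,
    H₀ E Q hQ hsb hsx, Finset.sum_add_distrib, MonoidHom.mul_apply,
    MonoidHom.finsetProd_apply, toAdd_mul, toAdd_prod, ← Finset.mul_sum]
  ring

end Pool.Agent.PTK


end

section

/-!
# PTK_DX3: the local terms of a point vanish outside, for `HypX`
-/

set_option autoImplicit false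

namespace Pool.Agent.PTK

open Pool.Agent.Lib_helper18 Pool.Agent.Lib_helper18.Eis Pool.Agent.Lib_helper84.Cub
open Pool.Agent.PT

namespace DX3

open DPA

lemma B_ne' {N : ℕ} {b x p q p' q' : Eis} (HD : HypX N b x p q p' q') {E Q : ℕ} {X Y : Eis}
    (HP : HypP N b x p q p' q' E Q X Y) : (N : Eis) * (Q : Eis) ^ E ≠ 0 := by
  have h1 : (N : Eis) ≠ 0 := by
    have h2 : ((N : ℤ) : Eis) ≠ 0 := DCONST.cast_ne (by have := HD.N0; omega)
    rwa [Int.cast_natCast] at h2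
  have h3 : (Q : Eis) ≠ 0 := by
    have h2 : ((Q : ℤ) : Eis) ≠ 0 := DCONST.cast_ne (by have := HP.hQ.pos; omega)
    rwa [Int.cast_natCast] at h2
  exact mul_ne_zero h1 (pow_ne_zero _ h3)

lemma n0_ne' {N : ℕ} {b x p q p' q' : Eis} (HD : HypX N b x p q p' q') {E Q : ℕ} {X Y : Eis}
    (HP : HypP N b x p q p' q' E Q X Y) : X ^ 3 + x * Y ^ 3 ≠ 0 := by
  obtain ⟨c, hc, h⟩ := HP.pt.eq
  intro h0
  rw [h0, mul_zero] at h
  exact mul_ne_zero (B_ne' HD HP) (pow_ne_zero _ hc) h.symm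

/-- The local term at a tame place where `x` is a local cube. -/
lemma core' (hIF4 : Stmt_IF4) (hLCI : Stmt_LCI) {π : PP} (hs : LSym π.1 (tm π.1) 1) {N : ℕ}
    {b x p q p' q' : Eis} (HD : HypX N b x p q p' q') {E Q : ℕ} {X Y : Eis}
    (HP : HypP N b x p q p' q' E Q X Y) (hL : LCE π.1 x) :
    ∃ N0 : ℕ, ∀ ξ : Eis, π.1 ^ N0 ∣ ξ ^ 3 - x →
      (∀ i, LfE X Y i ξ ≠ 0) ∧
      (∀ a : Eis, a ≠ 0 → tm π.1 a (X ^ 3 + x * Y ^ 3) = tm π.1 a ((N : Eis) * (Q : Eis) ^ E)) ∧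
      SVE (tm π.1) x p (-p') (-q) q' X Y =
        ASE (tm π.1) ((N : Eis) * (Q : Eis) ^ E) p q p' q' ξ +
          tm π.1 (LfE X Y 1 ξ) b - tm π.1 (LfE X Y 2 ξ) b := by
  have hB := B_ne' HD HP
  have hn0 := n0_ne' HD HP
  obtain ⟨c, hc, hE⟩ := HP.pt.eq
  obtain ⟨N1, H1⟩ := exists_ne hs.prime (b := x) HD.sol.n1
  obtain ⟨N2, H2⟩ := exists_ne hs.prime (b := x) (SolE_n1' HD.sol)
  obtain ⟨N3, H3⟩ := exists_ne hs.prime (b := x) (p := X) (q := Y) hn0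
  obtain ⟨N4, H4⟩ := hIF4 π.1 (tm π.1) 1 hs b x p (-p') (-q) q' X Y HD.hb HD.hx
    (SolE_flip HD.sol) HP.pt.hX HP.pt.hY hn0 HP.dn
  refine ⟨N1 + N2 + N3 + N4, fun ξ hξ => ?_⟩
  have g1 := H1 ξ ((pow_dvd_pow _ (by omega)).trans hξ)
  have g2 := H2 ξ ((pow_dvd_pow _ (by omega)).trans hξ)
  have g3 := H3 ξ ((pow_dvd_pow _ (by omega)).trans hξ)
  have g4 := H4 ξ ((pow_dvd_pow _ (by omega)).trans hξ)
  have hx0 : ∀ a : Eis, a ≠ 0 → tm π.1 x a = 0 := fun a ha =>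
    hLCI.2.2 π.1 (tm π.1) 1 x a hs hL HD.hx ha
  have hrel : ∀ a : Eis, a ≠ 0 →
      tm π.1 (X ^ 3 + x * Y ^ 3) a = tm π.1 ((N : Eis) * (Q : Eis) ^ E) a := by
    intro a ha
    have h1 := s_rel hs HD.hx hn0 hB hc ha hE
    rw [hx0 a ha, zero_add] at h1
    exact h1
  refine ⟨g3, ?_, ?_⟩
  · intro a ha
    rw [hs.skew (X ^ 3 + x * Y ^ 3) a hn0 ha, hs.skew ((N : Eis) * (Q : Eis) ^ E) a hB ha, hrel a ha]
  · rw [g4, neg_neg, neg_neg]
    unfold ASE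
    rw [hrel _ (g1 2), hrel _ (g2 1), hrel _ (g1 1), hrel _ (g2 2)]

end DX3

open DPA in
/-- PTK_DX3. -/
theorem DX3_thm (hSTM : STM) (hSPP : SPP) (hIF4 : Stmt_IF4) (hF7U : Stmt_F7U)
    (hLFV : Stmt_LFV) (hLCI : Stmt_LCI) : Stmt_DX3 := by
  intro N b x p q p' q' HD π E Q X Y HP hπN hπQ hπM
  have hs : LSym π.1 (tm π.1) 1 := hSTM π.1 π.2.1 (hSPP.2.2.2.1 π).1
  obtain ⟨hπb, hπx⟩ := HD.unr π hπN
  have hVx0 : V π.1 x = 0 := V_eq_zero hπx
  have hVb0 : V π.1 b = 0 := V_eq_zero hπb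
  have hVx : 3 ∣ V π.1 x := by rw [hVx0]; exact dvd_zero 3
  by_cases hcx : ch π.1 x = 0
  · have hL : LCE π.1 x := (hLCI.1 π x HD.hx).2 ⟨hVx, hcx⟩
    have hB := DX3.B_ne' HD HP
    have hn0 := DX3.n0_ne' HD HP
    have hπB : ¬ π.1 ∣ (N : Eis) * (Q : Eis) ^ E := by
      intro h
      rcases π.2.1.dvd_or_dvd h with h1 | h1
      · exact hπN h1
      · exact hπQ (π.2.1.dvd_of_dvd_pow h1)
    have hVB0 : V π.1 ((N : Eis) * (Q : Eis) ^ E) = 0 := V_eq_zero hπB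
    obtain ⟨c, hc, hE⟩ := HP.pt.eq
    have hVn : 3 ∣ V π.1 (X ^ 3 + x * Y ^ 3) := by
      have h1 := congrArg (V π.1) hE
      rw [V_mul π.2.1 HD.hx hn0, V_mul π.2.1 hB (pow_ne_zero _ hc), V_pow π.2.1 hc, hVx0,
        hVB0] at h1
      omega
    obtain ⟨N1, H1⟩ := DX3.core' hIF4 hLCI hs HD HP hL
    obtain ⟨N2, H2⟩ := hLFV π x X Y HD.hx HP.pt.hX HP.pt.hY hn0 hVx hVn
    obtain ⟨ξ, hξ⟩ := hL (N1 + N2 + 1)
    obtain ⟨-, -, h1⟩ := H1 ξ ((pow_dvd_pow _ (by omega)).trans hξ)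
    have h2 := H2 ξ ((pow_dvd_pow _ (by omega)).trans hξ)
    have h3 : π.1 ∣ ξ ^ 3 - x := by
      have h4 : π.1 ^ 1 ∣ ξ ^ 3 - x := (pow_dvd_pow _ (by omega)).trans hξ
      rwa [pow_one] at h4
    have k1 := LfE_ndvd (p := p) (q := q) h3 (fun h => hπM (dvd_mul_of_dvd_left h _))
    have k2 := LfE_ndvd (p := p') (q := q') h3 (fun h => hπM (dvd_mul_of_dvd_right h _))
    have h5 : tm π.1 (LfE X Y 1 ξ) b - tm π.1 (LfE X Y 2 ξ) b = 0 := by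
      unfold tm
      rw [h2, hVb0]
      simp
    rw [h1, add_sub_assoc, h5, add_zero]
    unfold ASE
    rw [DCONST.tm_zero hπB (k1 2), DCONST.tm_zero hπB (k2 1), DCONST.tm_zero hπB (k1 1),
      DCONST.tm_zero hπB (k2 2)]
    simp
  · exact hF7U π b x p (-p') (-q) q' X Y HD.hb HD.hx (SolE_flip HD.sol) HP.pt.hX HP.pt.hY HP.dn
      hVx hcx

end Pool.Agent.PTK


end

section

/-! PTK_FB (helper13): the law in a class, both residue classes, upper and lower bounds. -/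

set_option autoImplicit false

open Finset

namespace Pool.Agent.PTK

open Pool.Agent.Lib_helper18 Pool.Agent.Lib_helper18.Eis Pool.Agent.Lib_helper84.Cub
open Pool.Agent.PT Pool.Agent.PTE Pool.Agent.PT3 Pool.Agent.PTL Pool.Agent.PTN

namespace FB

theorem Esk_compl (s : ℕ) (G : ℕ → ℝ) : Esk s (fun x => 1 - G x) = 1 - Esk s G := by
  classical
  unfold Esk
  have : Nonempty {M : Matrix (Fin s) (Fin s) (ZMod 3) // M.transpose = -M} :=
    ⟨⟨0, by simp⟩⟩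
  have h0 : (Fintype.card {M : Matrix (Fin s) (Fin s) (ZMod 3) // M.transpose = -M} : ℝ) ≠ 0 := by
    exact_mod_cast Fintype.card_ne_zero
  rw [finsum_eq_sum_of_fintype, finsum_eq_sum_of_fintype, Nat.card_eq_fintype_card,
    Finset.sum_sub_distrib, sub_div, Finset.sum_const, nsmul_eq_mul, mul_one, Finset.card_univ,
    div_self h0]

theorem EsD_compl (v s t : ℕ) : EsD v s (fun x => if x < t then 1 else 0) =
    1 - EsD v s (fun x => if t ≤ x then 1 else 0) := by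
  unfold EsD
  rw [← Esk_compl]
  congr 1
  funext x
  rw [← Esk_compl]
  congr 1
  funext y
  show (if x + y < t then (1 : ℝ) else 0) = 1 - (if t ≤ x + y then (1 : ℝ) else 0)
  by_cases h : x + y < t
  · rw [if_pos h, if_neg (not_le.2 h), sub_zero]
  · rw [if_neg h, if_pos (not_lt.1 h), sub_self]

theorem mono (t : ℕ) : Monotone fun x : ℕ => (if t ≤ x then (1 : ℝ) else 0) := by
  intro a b hab
  show (if t ≤ a then (1 : ℝ) else 0) ≤ if t ≤ b then (1 : ℝ) else 0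
  split_ifs
  · exact le_rfl
  · omega
  · norm_num
  · exact le_rfl

theorem nonneg (t : ℕ) : (0 : ℝ) ≤ if t ≤ 0 then (1 : ℝ) else 0 := by
  split_ifs <;> norm_num

theorem hBB (h n E q : ℕ) : ((3 ^ h * n : ℕ) : ℤ) * (q : ℤ) ^ E = BB h n E q := by
  unfold BB
  push_cast
  rfl

/-- the lower bound from the upper bound -/
theorem low (hUPL : Stmt_UPL) (hCLT : Stmt_CLT) (hSPP : SPP)
    {h n m k : ℕ} {π : Fin m → PP} {p e : Fin m → ℕ} {r f : Fin k → ℕ}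
    {w0 : ZMod 3} {c : Fin m → ZMod 3} (hN : NF n π p e r f) {a v s t : ℕ} (ha : a = 1 ∨ a = 2)
    (R : ℤ → Prop)
    (hR : ∀ A : ℤ, A ≠ 0 → CubeRank.GenBy A (CubeRank.rr A) → CubeRank.rr A < t → R A)
    (hgen : ∃ M : ℕ, ∀ E q : ℕ, (E = 1 ∨ E = 2) → q.Prime → M < q → q % 3 = a →
      InCT E π w0 c q → ∃ d, CubeRank.GenBy (BB h n E q) d)
    (hU : UpS (fun E => {q | q % 3 = a ∧ InCT E π w0 c q})
      (fun E q => (if t ≤ CubeRank.rr (BB h n E q) then (1 : ℝ) else 0))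
      (EsD v s (fun x => if t ≤ x then 1 else 0) / 3 ^ (m + 1))) :
    BelowA ((3 ^ h * n : ℕ) : ℤ) a (Kl π w0 c) (fun A => tf (R A))
      (EsD v s (fun x => if x < t then 1 else 0) / 3 ^ (m + 1)) := by
  obtain ⟨M, hM⟩ := hgen
  have key := hUPL ((3 ^ h * n : ℕ) : ℤ) a (M + ∑ i, p i) (Kl π w0 c) R
    (fun E => {q | q % 3 = a ∧ InCT E π w0 c q})
    (fun E q => (if t ≤ CubeRank.rr (BB h n E q) then (1 : ℝ) else 0))
    (EsD v s (fun x => if t ≤ x then 1 else 0) / 3 ^ (m + 1)) (1 / 3 ^ (m + 1)) 1 zero_le_one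
    (fun E q hE hq hqM hqS => by
      have hp : ∀ i, p i < q := by
        intro i
        have := Finset.single_le_sum (f := p) (fun j _ => Nat.zero_le _) (Finset.mem_univ i)
        omega
      exact ⟨hqS.1, CBE.kl_of hSPP hN hq hp hqS.2⟩)
    (fun E q hE hq hqM hqS => by
      rw [hBB]
      show 1 - (if t ≤ CubeRank.rr (BB h n E q) then (1 : ℝ) else 0) ≤ tf (R (BB h n E q))
      unfold tf
      by_cases hlt : t ≤ CubeRank.rr (BB h n E q)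
      · rw [if_pos hlt, sub_self]
        split_ifs <;> norm_num
      · obtain ⟨d, hd⟩ := hM E q hE hq (by omega) hqS.1 hqS.2
        have hRB : R (BB h n E q) := by
          refine hR _ ?_ (CubeRank.gen_rr hd) (not_le.1 hlt)
          unfold BB
          refine mul_ne_zero (mul_ne_zero (pow_ne_zero _ (by norm_num)) ?_) (pow_ne_zero _ ?_)
          · exact_mod_cast CBE.n_ne hN
          · exact_mod_cast hq.ne_zero
        rw [if_neg hlt, if_pos hRB, sub_zero])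
    (by
      obtain ⟨K, hK⟩ := hCLT m π p hN.pp hN.p1 hN.pπ hN.pinj w0 c a ha
      exact ⟨K, fun σ h1 h2 => (hK σ h1 h2).1⟩)
    hU
  have e1 : EsD v s (fun x => if x < t then 1 else 0) / 3 ^ (m + 1) =
      1 * (1 / 3 ^ (m + 1)) - EsD v s (fun x => if t ≤ x then 1 else 0) / 3 ^ (m + 1) := by
    rw [EsD_compl, one_mul, sub_div]
  rw [e1]
  exact key

end FB

/-- PTK_FB. -/
theorem FB_thm (hFL2 : Stmt_FL2) (hFL1 : Stmt_FL1) (hUPA : Stmt_UPA) (hUPL : Stmt_UPL)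
    (hCLT : Stmt_CLT) (hCLN : Stmt_CLN) (hCLU : Stmt_CLU) (hSPP : SPP) : Stmt_FB := by
  intro h n m k π p e r f w0 c hN hh a ha
  have hup : ∀ F : ℕ → ℝ, Monotone F → 0 ≤ F 0 →
      UpS (fun E => {q | q % 3 = a ∧ InCT E π w0 c q}) (fun E q => F (CubeRank.rr (BB h n E q)))
        (EsD (vN h n π p e r w0 c) (sN h n π p e r w0 c + if a = 1 then 1 else 0) F /
          3 ^ (m + 1)) := by
    intro F hF hF0
    rcases ha with rfl | rfl
    · rw [if_pos rfl]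
      exact hFL1 h n m k π p e r f w0 c hN hh F hF hF0
    · rw [if_neg (by norm_num), add_zero]
      exact hFL2 h n m k π p e r f w0 c hN hh F hF hF0
  refine ⟨fun F hF hF0 => ?_, fun t R hR => ?_⟩
  · exact hUPA h n m k π p e r f w0 c a (fun A => F (CubeRank.rr A)) _ hN (hup F hF hF0)
  · refine FB.low hUPL hCLT hSPP hN ha R hR ?_ (hup _ (FB.mono t) (FB.nonneg t))
    rcases ha with rfl | rfl
    · obtain ⟨⟨M, hM⟩, -⟩ := hCLU h n m k π p e r f w0 c hN hh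
      exact ⟨M, fun E q hE hq hqM hq3 hqc => ⟨_, hM E q hE hq hqM hq3 hqc⟩⟩
    · obtain ⟨⟨M, hM⟩, -⟩ := hCLN h n m k π p e r f w0 c hN hh
      exact ⟨M, fun E q hE hq hqM hq3 hqc => ⟨_, hM E q hE hq hqM hq3 hqc⟩⟩

end Pool.Agent.PTK


end

section

/-!
# PTK, module GFK: Frobenius elements and `t` (helper92)

Model: `PT/GFR.lean`.
-/

set_option autoImplicit false

open NumberField IsDedekindDomain Finset
open scoped nonZeroDivisors Pointwise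

namespace Pool.Agent.PTK

open Pool.Agent.Lib_helper18 Pool.Agent.Lib_helper18.Eis Pool.Agent.Lib_helper84.Cub
open Pool.Agent.PT Pool.Agent.PTL

namespace GFK

theorem hom_eq {S : Type*} [CommRing S] (κ : Eis →+* S) (a : Eis) :
    κ a = (a.re : S) + (a.im : S) * κ w := by
  have h : a = (a.re : Eis) + (a.im : Eis) * w := by
    ext <;> simp
  conv_lhs => rw [h]
  rw [map_add, map_mul, map_intCast, map_intCast]

theorem hom_rel {S : Type*} [CommRing S] (κ : Eis →+* S) : κ w ^ 2 + κ w + 1 = 0 := by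
  have := congrArg κ w_rel
  rwa [map_add, map_add, map_pow, map_one, map_zero] at this

theorem lf_prod (p q r : Eis) : LfE p q 0 r * LfE p q 1 r * LfE p q 2 r =
    p ^ 3 + q ^ 3 * r ^ 3 := by
  have h1 := w_rel
  have h2 := w_cube
  simp only [LfE]
  linear_combination (p ^ 2 * q * r + p * q ^ 2 * r ^ 2) * h1 +
    (p * q ^ 2 * r ^ 2 + q ^ 3 * r ^ 3) * h2

/-- the linear forms are prime to `Q` -/
theorem lf_not_dvd {Q : ℕ} {x p q r : Eis} (hb : ¬ (Q : Eis) ∣ p ^ 3 + x * q ^ 3)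
    (hr : (Q : Eis) ∣ r ^ 3 - x) : ¬ (Q : Eis) ∣ LfE p q 1 r ∧ ¬ (Q : Eis) ∣ LfE p q 2 r := by
  have key : ¬ (Q : Eis) ∣ LfE p q 0 r * LfE p q 1 r * LfE p q 2 r := by
    rw [lf_prod]
    intro h
    refine hb ?_
    have h2 : p ^ 3 + x * q ^ 3 = p ^ 3 + q ^ 3 * r ^ 3 - (r ^ 3 - x) * q ^ 3 := by ring
    rw [h2]
    exact dvd_sub h (Dvd.dvd.mul_right hr _)
  exact ⟨fun h => key (Dvd.dvd.mul_right (Dvd.dvd.mul_left h _) _),
    fun h => key (Dvd.dvd.mul_left h _)⟩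

theorem N_Q (Q : ℕ) : N (Q : Eis) = Q * Q := by
  have h3 := N_cast (Q : Eis)
  rw [Eis.norm_natCast] at h3
  have h4 : ((N (Q : Eis) : ℕ) : ℤ) = ((Q * Q : ℕ) : ℤ) := by
    rw [h3]
    push_cast
    ring
  exact_mod_cast h4

theorem not_dvd_of_lt {Q : ℕ} {z : Eis} (hz : z ≠ 0) (h : N z < Q) : ¬ (Q : Eis) ∣ z := by
  rintro ⟨d, rfl⟩
  have hd : d ≠ 0 := by
    rintro rfl
    exact hz (mul_zero _)
  have h1 := N_pos hd
  rw [N_mul, N_Q] at h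
  rcases Nat.eq_zero_or_pos Q with h0 | h0
  · rw [h0] at h
    omega
  · have h2 : 1 ≤ Q * N d := Nat.mul_pos h0 h1
    nlinarith

/-- the general comparison modulo `P` -/
theorem key {L : Type} [Field L] [NumberField L] {Q : ℕ} (hQ : Q.Prime)
    {P : Ideal (𝓞 L)} (hP : P.IsPrime) (hQP : (Q : 𝓞 L) ∈ P) (hQ3 : Q % 3 = 2)
    {φ : L ≃ₐ[ℚ] L} (hφ : IsArithFrobAt ℤ φ P) (κ : Eis →+* 𝓞 L) {E : Eis}
    (hE : ¬ (Q : Eis) ∣ E) {y : 𝓞 L}
    (hy : Ideal.Quotient.mk P y ^ 3 = Ideal.Quotient.mk P (κ E)) {k : ℕ}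
    (hk : φ • (φ • y) = κ w ^ k * y) : (k : ZMod 3) = sym (Q : Eis) E := by
  have hfin := GFR.quo_finite hQ hP hQP
  have hmax : P.IsMaximal :=
    Ideal.Quotient.maximal_of_isField _ (Finite.isField_of_domain (𝓞 L ⧸ P))
  let _ : Field (𝓞 L ⧸ P) := Ideal.Quotient.field P
  have hq := prime_inert hQ hQ3
  have hq3 := n3 hQ hQ3
  let ψ : Eis →+* 𝓞 L ⧸ P := (Ideal.Quotient.mk P).comp κ
  set z : 𝓞 L ⧸ P := ψ w with hz
  have hzrel : z ^ 2 + z + 1 = 0 := hom_rel ψ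
  have hz3 := GFR.omega_cube hzrel
  have h3Q : ¬ (Q : ℤ) ∣ 3 := by
    intro h3
    have h4 : Q ∣ 3 := by exact_mod_cast h3
    have h5 := (Nat.prime_dvd_prime_iff_eq hQ Nat.prime_three).1 h4
    omega
  have hz1 : z ≠ 1 := by
    intro h3
    rw [h3] at hzrel
    refine h3Q ((GFR.int_mk hQ hP hQP 3).1 ?_)
    push_cast
    linear_combination hzrel
  have hψQ : ψ (Q : Eis) = 0 := by
    rw [map_natCast, ← map_natCast (Ideal.Quotient.mk P)]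
    exact Ideal.Quotient.eq_zero_iff_mem.2 hQP
  have hsym := map_pow_eq hq hq3 hE ψ hψQ
  set a := Ideal.Quotient.mk P y with ha
  have hmkA : a ^ 3 = ψ E := hy
  rw [← hmkA, ← hz] at hsym
  have hN := N_Q Q
  have hM : 3 * ((N (Q : Eis) - 1) / 3) + 1 = Q * Q := by
    rw [three_mul_div hq hq3, hN]
  have ha0 : a ≠ 0 := by
    intro h3
    rw [h3] at hsym
    have h5 : 0 < (N (Q : Eis) - 1) / 3 := by
      have h6 := hQ.two_le
      by_contra h7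
      have h8 : (N (Q : Eis) - 1) / 3 = 0 := by omega
      rw [h8] at hM
      nlinarith
    have h6 : z ≠ 0 := by
      intro h7
      rw [h7] at hz3
      norm_num at hz3
    rw [zero_pow (by norm_num), zero_pow h5.ne'] at hsym
    exact pow_ne_zero _ h6 hsym.symm
  have hfinal : z ^ k = z ^ (sym (Q : Eis) E).val := by
    have h3 := congrArg (Ideal.Quotient.mk P) hk
    have h4 : Ideal.Quotient.mk P (κ w) = z := rfl
    rw [GFR.frob_mk hQ hP hQP hφ, GFR.frob_mk hQ hP hQP hφ, map_mul, map_pow, h4, ← ha, ← pow_mul,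
      ← hM, pow_succ, pow_mul, hsym] at h3
    exact (mul_right_cancel₀ ha0 h3).symm
  have horder : orderOf z = 3 := by
    have := Fact.mk Nat.prime_three
    exact orderOf_eq_prime hz3 hz1
  have h3 := IsPrimitiveRoot.orderOf z
  rw [horder] at h3
  rw [GFR.pow_mod3 hz3 k] at hfinal
  have h4 : k % 3 = (sym (Q : Eis) E).val :=
    h3.pow_inj (Nat.mod_lt k (by norm_num)) (ZMod.val_lt _) hfinal
  rw [← ZMod.natCast_mod k 3, h4, ZMod.natCast_val, ZMod.cast_id', id_eq]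

theorem cube_eq {F : Type*} [Field F] {ω y ρ : F} (hω : ω ^ 2 + ω + 1 = 0)
    (h : y ^ 3 = ρ ^ 3) : y = ρ ∨ y = ω * ρ ∨ y = ω ^ 2 * ρ := by
  have hω3 := GFR.omega_cube hω
  have h2 : (y - ρ) * ((y - ω * ρ) * (y - ω ^ 2 * ρ)) = 0 := by
    linear_combination h + (-y ^ 2 * ρ + y * ρ ^ 2) * hω + (y * ρ ^ 2 - ρ ^ 3) * hω3
  rcases mul_eq_zero.1 h2 with h3 | h3
  · exact Or.inl (sub_eq_zero.1 h3)
  rcases mul_eq_zero.1 h3 with h4 | h4
  · exact Or.inr (Or.inl (sub_eq_zero.1 h4))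
  · exact Or.inr (Or.inr (sub_eq_zero.1 h4))

/-- the lift of `ι` to the ring of integers -/
theorem exists_lift {L : Type} [Field L] [NumberField L] (ι : Eis →+* L) :
    ∃ κ : Eis →+* 𝓞 L, ∀ a, ((κ a : 𝓞 L) : L) = ι a := by
  let ωB : 𝓞 L := ⟨ι w, GFR.isIntegral_omega (hom_rel ι)⟩
  have hωB : ωB ^ 2 + ωB + 1 = 0 := by
    apply RingOfIntegers.coe_injective
    change ι w ^ 2 + ι w + 1 = 0
    exact hom_rel ι
  refine ⟨GFR.lift ωB hωB, fun a => ?_⟩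
  have h1 := hom_eq ((algebraMap (𝓞 L) L).comp (GFR.lift ωB hωB)) a
  have h2 := hom_eq ι a
  have h3 : ((algebraMap (𝓞 L) L).comp (GFR.lift ωB hωB)) w = ι w := by
    rw [RingHom.comp_apply, GFR.lift_w]
    rfl
  rw [h3] at h1
  rw [h2, ← h1]
  rfl

section Main

variable {L : Type} [Field L] [NumberField L] {Q : ℕ} (hQ : Q.Prime)
    {P : Ideal (𝓞 L)} (hP : P.IsPrime) (hQP : (Q : 𝓞 L) ∈ P) (hQ3 : Q % 3 = 2)
    {φ : L ≃ₐ[ℚ] L} (hφ : IsArithFrobAt ℤ φ P) (ι : Eis →+* L)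

include hQ hP hQP hQ3 hφ

theorem sq_w : φ (φ (ι w)) = ι w := by
  have h1 := GFR.frob_omega hQ hP hQP hQ3 hφ (hom_rel ι)
  have h3 := GFR.omega_cube (hom_rel ι)
  rw [h1, map_pow, h1]
  linear_combination ι w * h3

theorem sq_a (a : Eis) : φ (φ (ι a)) = ι a := by
  have h := sq_w hQ hP hQP hQ3 hφ ι
  rw [hom_eq ι a]
  simp only [map_add, map_mul, map_intCast, h]

/-- a root of an element with trivial symbol is fixed by the square of the Frobenius element -/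
theorem fix {c : Eis} (hc : ¬ (Q : Eis) ∣ c) (hs : sym (Q : Eis) c = 0) {ρ : L}
    (hρ : ρ ^ 3 = ι c) : φ (φ ρ) = ρ := by
  obtain ⟨κ, hκ⟩ := exists_lift ι
  have hint : IsIntegral ℤ ρ := by
    refine IsIntegral.of_pow (n := 3) (by norm_num) ?_
    rw [hρ, ← hκ]
    exact RingOfIntegers.isIntegral_coe _
  let y : 𝓞 L := ⟨ρ, hint⟩
  have hy : y ^ 3 = κ c := by
    apply RingOfIntegers.coe_injective
    change ρ ^ 3 = ((κ c : 𝓞 L) : L)
    rw [hκ, hρ]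
  have hcube : (φ (φ ρ)) ^ 3 = ρ ^ 3 := by
    rw [← map_pow, ← map_pow, hρ, sq_a hQ hP hQP hQ3 hφ]
  have hrel := hom_rel ι
  obtain ⟨k, hk⟩ : ∃ k : ℕ, φ (φ ρ) = ι w ^ k * ρ := by
    rcases cube_eq hrel hcube with h | h | h
    · exact ⟨0, by rw [h, pow_zero, one_mul]⟩
    · exact ⟨1, by rw [h, pow_one]⟩
    · exact ⟨2, h⟩
  have hkk : φ • (φ • y) = κ w ^ k * y := by
    apply RingOfIntegers.coe_injective
    rw [map_mul, map_pow]
    change φ (φ ρ) = ((κ w : 𝓞 L) : L) ^ k * ρ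
    rw [hκ, hk]
  have h1 := key hQ hP hQP hQ3 hφ κ hc (y := y) (by rw [← map_pow, hy]) hkk
  rw [hs] at h1
  have h2 : 3 ∣ k := (ZMod.natCast_eq_zero_iff k 3).1 h1
  obtain ⟨m, rfl⟩ := h2
  rw [hk, pow_mul, GFR.omega_cube hrel, one_pow, one_mul]

theorem core {x p q p' q' r : Eis} (h0 : ¬ (Q : Eis) ∣ x) (hsx : sym (Q : Eis) x = 0)
    (h1 : ¬ (Q : Eis) ∣ p ^ 3 + x * q ^ 3)
    (h2 : ¬ (Q : Eis) ∣ p' ^ 3 + x * q' ^ 3) (hr : (Q : Eis) ∣ r ^ 3 - x)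
    (hroot : ∃ θ : L, θ ^ 3 = ι x)
    (hA : ∀ ρ : L, ρ ^ 3 = ι x → ∃ A : L, A ^ 3 * aDE ι p q p' q' ρ = aNE ι p q p' q' ρ)
    {t : ZMod 3} (ht : ∀ ρ A : L, ρ ^ 3 = ι x →
      A ^ 3 * aDE ι p q p' q' ρ = aNE ι p q p' q' ρ → φ (φ A) = ι w ^ t.val * A) :
    t = TAUE Q p q p' q' r := by
  obtain ⟨κ, hκ⟩ := exists_lift ι
  have hrel := hom_rel ι
  have hω3 := GFR.omega_cube hrel
  have hfin := GFR.quo_finite hQ hP hQP
  have hmax : P.IsMaximal :=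
    Ideal.Quotient.maximal_of_isField _ (Finite.isField_of_domain (𝓞 L ⧸ P))
  let _ : Field (𝓞 L ⧸ P) := Ideal.Quotient.field P
  have hq := prime_inert hQ hQ3
  have hq3 := n3 hQ hQ3
  let ψ : Eis →+* 𝓞 L ⧸ P := (Ideal.Quotient.mk P).comp κ
  have hψrel : ψ w ^ 2 + ψ w + 1 = 0 := hom_rel ψ
  have hψ3 := GFR.omega_cube hψrel
  have hψQ : ψ (Q : Eis) = 0 := by
    rw [map_natCast, ← map_natCast (Ideal.Quotient.mk P)]
    exact Ideal.Quotient.eq_zero_iff_mem.2 hQP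
  have hψr : ψ r ^ 3 = ψ x := by
    obtain ⟨d, hd⟩ := hr
    have h3 := congrArg ψ hd
    rw [map_sub, map_pow, map_mul, hψQ, zero_mul] at h3
    exact sub_eq_zero.1 h3
  -- a root of `x` congruent to `r`
  obtain ⟨ρB, hρB, hρr⟩ : ∃ ρB : 𝓞 L, ρB ^ 3 = κ x ∧ Ideal.Quotient.mk P ρB = ψ r := by
    obtain ⟨θ, hθ⟩ := hroot
    have hint : IsIntegral ℤ θ := by
      refine IsIntegral.of_pow (n := 3) (by norm_num) ?_
      rw [hθ, ← hκ]
      exact RingOfIntegers.isIntegral_coe _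
    let θB : 𝓞 L := ⟨θ, hint⟩
    have hθB : θB ^ 3 = κ x := by
      apply RingOfIntegers.coe_injective
      change θ ^ 3 = ((κ x : 𝓞 L) : L)
      rw [hκ, hθ]
    have hκ3 : κ w ^ 3 = 1 := GFR.omega_cube (hom_rel κ)
    have hc3 : (ψ r) ^ 3 = (Ideal.Quotient.mk P θB) ^ 3 := by
      rw [hψr, ← map_pow, hθB]
      rfl
    rcases cube_eq hψrel hc3 with h | h | h
    · exact ⟨θB, hθB, h.symm⟩
    · refine ⟨κ w * θB, ?_, ?_⟩
      · rw [mul_pow, hκ3, one_mul, hθB]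
      · rw [map_mul, h]
        rfl
    · refine ⟨κ w ^ 2 * θB, ?_, ?_⟩
      · rw [mul_pow, ← pow_mul, mul_comm 2 3, pow_mul, hκ3, one_pow, one_mul, hθB]
      · rw [map_mul, map_pow, h]
        rfl
  have hρ : (ρB : L) ^ 3 = ι x := by
    rw [← hκ, ← hρB]
    rfl
  obtain ⟨A, hAA⟩ := hA (ρB : L) hρ
  -- the elements of the ring of integers
  let dD : 𝓞 L := (κ p + κ q * κ w * ρB) * (κ p' + κ q' * κ w ^ 2 * ρB)
  let dN : 𝓞 L := (κ p + κ q * κ w ^ 2 * ρB) * (κ p' + κ q' * κ w * ρB)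
  have hdD : algebraMap (𝓞 L) L dD = aDE ι p q p' q' (ρB : L) := by
    simp only [dD, aDE, map_mul, map_add, map_pow, hκ]
  have hdN : algebraMap (𝓞 L) L dN = aNE ι p q p' q' (ρB : L) := by
    simp only [dN, aNE, map_mul, map_add, map_pow, hκ]
  have hA' : (A * aDE ι p q p' q' (ρB : L)) ^ 3 = algebraMap (𝓞 L) L (dN * dD ^ 2) := by
    rw [map_mul, map_pow, hdD, hdN, ← hAA]
    ring
  have hAint : IsIntegral ℤ (A * aDE ι p q p' q' (ρB : L)) := by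
    refine IsIntegral.of_pow (n := 3) (by norm_num) ?_
    rw [hA']
    exact RingOfIntegers.isIntegral_coe _
  let AB : 𝓞 L := ⟨A * aDE ι p q p' q' (ρB : L), hAint⟩
  have hAB : AB ^ 3 = dN * dD ^ 2 := by
    apply RingOfIntegers.coe_injective
    rw [← hA']
    rfl
  have hφρ : φ (φ (ρB : L)) = ρB := fix hQ hP hQP hQ3 hφ ι h0 hsx hρ
  have hφD : φ (φ (aDE ι p q p' q' (ρB : L))) = aDE ι p q p' q' (ρB : L) := by
    simp only [aDE, map_mul, map_add, map_pow, sq_a hQ hP hQP hQ3 hφ, hφρ]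
  have hφφ : φ • (φ • AB) = κ w ^ t.val * AB := by
    apply RingOfIntegers.coe_injective
    rw [map_mul, map_pow]
    change φ (φ (A * aDE ι p q p' q' (ρB : L))) =
      ((κ w : 𝓞 L) : L) ^ t.val * (A * aDE ι p q p' q' (ρB : L))
    rw [hκ, map_mul, map_mul, hφD, ht _ A hρ hAA]
    ring
  obtain ⟨e1, e2⟩ := lf_not_dvd h1 hr
  obtain ⟨e1', e2'⟩ := lf_not_dvd h2 hr
  set E : Eis := LfE p q 2 r * LfE p' q' 1 r * (LfE p q 1 r * LfE p' q' 2 r) ^ 2 with hE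
  have hEd : ¬ (Q : Eis) ∣ E := by
    intro h3
    rcases hq.dvd_or_dvd h3 with h4 | h4
    · rcases hq.dvd_or_dvd h4 with h5 | h5
      · exact e2 h5
      · exact e1' h5
    · rcases hq.dvd_or_dvd (hq.dvd_of_dvd_pow h4) with h5 | h5
      · exact e1 h5
      · exact e2' h5
  have hmkA : Ideal.Quotient.mk P AB ^ 3 = Ideal.Quotient.mk P (κ E) := by
    rw [← map_pow, hAB, hE]
    have hψκ : ∀ a : Eis, Ideal.Quotient.mk P (κ a) = ψ a := fun a => rfl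
    simp only [dD, dN, LfE, map_mul, map_add, map_pow, hρr, pow_one, hψκ]
  have hsym := key hQ hP hQP hQ3 hφ κ hEd hmkA hφφ
  rw [ZMod.natCast_val, ZMod.cast_id', id_eq] at hsym
  rw [hsym, hE]
  have g1 : ¬ (Q : Eis) ∣ LfE p q 2 r * LfE p' q' 1 r := fun h3 =>
    (hq.dvd_or_dvd h3).elim e2 e1'
  have g2 : ¬ (Q : Eis) ∣ LfE p q 1 r * LfE p' q' 2 r := fun h3 =>
    (hq.dvd_or_dvd h3).elim e1 e2'
  have g3 : ¬ (Q : Eis) ∣ (LfE p q 1 r * LfE p' q' 2 r) ^ 2 := fun h3 =>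
    g2 (hq.dvd_of_dvd_pow h3)
  rw [sym_mul hq hq3 g1 g3, sym_mul hq hq3 e2 e1', sym_pow hq hq3 g2, sym_mul hq hq3 e1 e2']
  unfold TAUE
  have h2z : ((2 : ℕ) : ZMod 3) = -1 := by decide
  rw [h2z]
  ring

end Main

end GFK

open _root_.Pool.Agent.PTK.GFK

theorem GFK_thm : Stmt_GFK := by
  classical
  intro s x b p q p' q' f L _ _ ζ ι hS hG
  have hgal := hG.gal
  let B : Fin s → ℕ := fun j => N (b j) + N (p j ^ 3 + x * q j ^ 3) +
    N (p' j ^ 3 + x * q' j ^ 3)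
  refine ⟨N x + ∑ j, B j, fun Q hQ hQN P hP hQP => ⟨fun g hg => ?_, fun φ hφ hQ3 => ?_⟩⟩
  · have hfin := GFR.quo_finite hQ hP hQP
    exact GFR.exists_frob_gen (R := ℤ) P g hg
  · have hφω := GFR.frob_omega hQ hP hQP hQ3 hφ (hom_rel ι)
    refine ⟨hφω, fun hsx hsb => ?_⟩
    have hx0 : x ≠ 0 := by
      intro h0
      refine hS.ind 1 (fun _ => 0) (Or.inl (by norm_num)) ⟨0, ?_⟩
      rw [h0]
      simp
    have hxQ : ¬ (Q : Eis) ∣ x := not_dvd_of_lt hx0 (by omega)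
    have hBj : ∀ j, B j < Q := by
      intro j
      have h1 : B j ≤ ∑ i, B i :=
        Finset.single_le_sum (f := B) (fun _ _ => Nat.zero_le _) (Finset.mem_univ j)
      omega
    have hb0 : ∀ j, b j ≠ 0 := by
      intro j h0
      refine hS.ind 0 (Pi.single j 1) (Or.inr ⟨j, by simp⟩) ⟨0, ?_⟩
      have h1 : ∏ i, b i ^ (Pi.single j 1 : Fin s → ℕ) i = 0 := by
        refine Finset.prod_eq_zero (Finset.mem_univ j) ?_
        rw [Pi.single_eq_same, pow_one, h0]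
      rw [h1]
      simp
    have hbQ : ∀ j, ¬ (Q : Eis) ∣ b j := by
      intro j
      have h1 := hBj j
      simp only [B] at h1
      exact not_dvd_of_lt (hb0 j) (by omega)
    refine ⟨⟨fun ρ hρ => fix hQ hP hQP hQ3 hφ ι hxQ hsx hρ,
      fun j ρ hρ => fix hQ hP hQP hQ3 hφ ι (hbQ j) (hsb j) hρ⟩, fun j r t hr ht => ?_⟩
    have h1 := hBj j
    simp only [B] at h1
    have hsol := hS.sol j
    have hn1 : p j ^ 3 + x * q j ^ 3 ≠ 0 := hsol.n1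
    have hn2 : p' j ^ 3 + x * q' j ^ 3 ≠ 0 := by
      intro h0
      refine hn1 ?_
      have h3 := hsol.eq
      rw [h0, mul_zero] at h3
      exact h3
    exact core hQ hP hQP hQ3 hφ ι hxQ hsx (not_dvd_of_lt hn1 (by omega))
      (not_dvd_of_lt hn2 (by omega)) hr hG.rx (fun ρ hρ => hG.A j ρ hρ) ht

end Pool.Agent.PTK


end

section

/-!
# PTK, module GFKU: Frobenius elements and `t`, primes `= 1 (mod 3)` (helper88)

Models: `PTK/GFK.lean`, `PTE/GFRS.lean`.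
-/

set_option autoImplicit false

open NumberField IsDedekindDomain Finset
open scoped nonZeroDivisors Pointwise

namespace Pool.Agent.PTK

open Pool.Agent.Lib_helper18 Pool.Agent.Lib_helper18.Eis Pool.Agent.Lib_helper84.Cub
open Pool.Agent.PT Pool.Agent.PTE Pool.Agent.PT3 Pool.Agent.PTL Pool.Agent.PTN

namespace GFKU

open Pool.Agent.PTE.GFRS (Dat cases_root)

/-- the data at the prime `P`, for a given prime `ρ` below `P` -/
theorem exists_dat (hSPLT : SPLT) (hSPP : SPP) {L : Type} [Field L] [NumberField L] {Q : ℕ}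
    (hQ : Q.Prime) {P : Ideal (𝓞 L)} (hP : P.IsPrime) (hQP : (Q : 𝓞 L) ∈ P) (hQ3 : Q % 3 = 1)
    {φ : L ≃ₐ[ℚ] L} (hφ : IsArithFrobAt ℤ φ P) (κ : Eis →+* 𝓞 L) {ρ : PP}
    (hρQ : (Q : Eis) = ρ.1 * conj ρ.1) (hρP : κ ρ.1 ∈ P) :
    ∃ (F : Type) (_ : Field F) (mk : 𝓞 L →+* F) (z : F) (ψ : Eis →+* F),
      (∀ a, mk (κ a) = ψ a) ∧ Dat Q φ (κ w) ρ.1 mk z ψ := by
  have hfin := GFR.quo_finite hQ hP hQP
  have hmax : P.IsMaximal :=
    Ideal.Quotient.maximal_of_isField _ (Finite.isField_of_domain (𝓞 L ⧸ P))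
  let _ : Field (𝓞 L ⧸ P) := Ideal.Quotient.field P
  have h3 : κ w ^ 2 + κ w + 1 = 0 := GFK.hom_rel κ
  let ψ : Eis →+* 𝓞 L ⧸ P := (Ideal.Quotient.mk P).comp κ
  set z : 𝓞 L ⧸ P := ψ w with hz
  have hzrel : z ^ 2 + z + 1 = 0 := GFK.hom_rel ψ
  have h3Q : ¬ (Q : ℤ) ∣ 3 := by
    intro h3
    have h4 : Q ∣ 3 := by exact_mod_cast h3
    have h5 := (Nat.prime_dvd_prime_iff_eq hQ Nat.prime_three).1 h4
    omega
  have hz1 : z ≠ 1 := by
    intro h3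
    rw [h3] at hzrel
    refine h3Q ((GFR.int_mk hQ hP hQP 3).1 ?_)
    push_cast
    linear_combination hzrel
  have hN : N ρ.1 = Q := by
    have h1 := mul_conj ρ.1
    rw [← hρQ] at h1
    have h2 : ((Q : ℤ) : Eis) = ((ρ.1.norm : ℤ) : Eis) := by
      rw [Int.cast_natCast]
      exact h1
    have h3 : (Q : ℤ) = ρ.1.norm := by
      have h4 := congrArg Eis.re h2
      simpa using h4
    have h4 := N_cast ρ.1
    rw [← h3] at h4
    exact_mod_cast h4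
  have hωL : ((κ w : 𝓞 L) : L) ^ 2 + ((κ w : 𝓞 L) : L) + 1 = 0 := by
    have h4 := congrArg (fun x : 𝓞 L => (x : L)) h3
    simpa using h4
  exact ⟨𝓞 L ⧸ P, inferInstance, Ideal.Quotient.mk P, z, ψ, fun a => rfl,
    { hQ := hQ
      rel := hzrel
      ne1 := hz1
      ωz := rfl
      ψw := rfl
      ψρ := Ideal.Quotient.eq_zero_iff_mem.2 hρP
      i0 := fun n => GFR.int_mk hQ hP hQP n
      fr := fun x => GFR.frob_mk hQ hP hQP hφ x
      fω := PTE.GFRS.frob_omega hQ hP hQP hQ3 hφ hωL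
      rω := h3
      hq := ρ.2.1
      h3 := (hSPP.2.2.2.1 ρ).1
      hN := hN
      hd := (hSPLT.2 Q ρ hQ hQ3 hρQ).2.2.2.1 }⟩

/-- the linear forms are prime to `ρ` -/
theorem lf_not_dvd {ρ x p q r : Eis} (hb : ¬ ρ ∣ p ^ 3 + x * q ^ 3)
    (hr : ρ ∣ r ^ 3 - x) : ¬ ρ ∣ LfE p q 1 r ∧ ¬ ρ ∣ LfE p q 2 r := by
  have key : ¬ ρ ∣ LfE p q 0 r * LfE p q 1 r * LfE p q 2 r := by
    rw [GFK.lf_prod]
    intro h
    refine hb ?_
    have h2 : p ^ 3 + x * q ^ 3 = p ^ 3 + q ^ 3 * r ^ 3 - (r ^ 3 - x) * q ^ 3 := by ring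
    rw [h2]
    exact dvd_sub h (Dvd.dvd.mul_right hr _)
  exact ⟨fun h => key (Dvd.dvd.mul_right (Dvd.dvd.mul_left h _) _),
    fun h => key (Dvd.dvd.mul_left h _)⟩

section Main

variable {L : Type} [Field L] [NumberField L] {F : Type} [Field F] {Q : ℕ}
  {φ : L ≃ₐ[ℚ] L} {κ : Eis →+* 𝓞 L} {ρ : Eis} {mk : 𝓞 L →+* F} {z : F} {ψ : Eis →+* F}
  (D : Dat Q φ (κ w) ρ mk z ψ) (hψ : ∀ a, mk (κ a) = ψ a)

include D

theorem psi_ne {e : Eis} (he : ¬ ρ ∣ e) : ψ e ≠ 0 := by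
  intro h0
  have h4 := map_pow_eq D.hq D.h3 he ψ D.ψρ
  rw [h0, D.ψw] at h4
  have h5 := D.three_mul
  have h6 := D.hQ.two_le
  rw [zero_pow (by omega)] at h4
  exact pow_ne_zero _ D.z0 h4.symm

variable (ι : Eis →+* L) (hκ : ∀ a, ((κ a : 𝓞 L) : L) = ι a)

include hκ

theorem fw : φ (ι w) = ι w := by
  have h := D.fω
  rwa [hκ] at h

theorem fa (a : Eis) : φ (ι a) = ι a := by
  have h := fw D ι hκ
  rw [GFK.hom_eq ι a]
  simp only [map_add, map_mul, map_intCast, h]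

include hψ

/-- a root of an element with trivial symbol is fixed -/
theorem fix {c : Eis} (hc : ¬ ρ ∣ c) (hs : sym ρ c = 0) {θ : L} (hθ : θ ^ 3 = ι c) :
    φ θ = θ := by
  have hint : IsIntegral ℤ θ := by
    refine IsIntegral.of_pow (n := 3) (by norm_num) ?_
    rw [hθ, ← hκ]
    exact RingOfIntegers.isIntegral_coe _
  let y : 𝓞 L := ⟨θ, hint⟩
  have hy : y ^ 3 = κ c := by
    apply RingOfIntegers.coe_injective
    change θ ^ 3 = ((κ c : 𝓞 L) : L)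
    rw [hκ, hθ]
  have hmy : mk y ^ 3 = ψ c := by rw [← map_pow, hy, hψ]
  have hmy0 : mk y ≠ 0 := by
    intro h0
    rw [h0, zero_pow (by norm_num)] at hmy
    exact psi_ne D hc hmy.symm
  have hcube : (φ • y) ^ 3 = y ^ 3 := by
    rw [hy]
    apply RingOfIntegers.coe_injective
    change (φ θ) ^ 3 = ((κ c : 𝓞 L) : L)
    rw [hκ, ← map_pow, hθ, fa D ι hκ]
  obtain ⟨k, hk⟩ := cases_root D.rω hcube
  have h1 : mk (φ • y) = mk y := by
    rw [D.fr, D.pow_Q hc hmy, hs, ZMod.val_zero, pow_zero, one_mul]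
  rw [hk, map_mul, map_pow, D.ωz] at h1
  have h2 : z ^ k = 1 := by
    refine mul_right_cancel₀ hmy0 ?_
    rw [h1, one_mul]
  have h3 : 3 ∣ k := by
    rw [← D.order]
    exact orderOf_dvd_of_pow_eq_one h2
  obtain ⟨l, rfl⟩ := h3
  have h4 : φ • y = y := by
    rw [hk, pow_mul, GFR.omega_cube D.rω, one_pow, one_mul]
  exact congrArg (fun x : 𝓞 L => (x : L)) h4

theorem core {x p q p' q' r : Eis} (h0 : ¬ ρ ∣ x) (hsx : sym ρ x = 0)
    (h1 : ¬ ρ ∣ p ^ 3 + x * q ^ 3)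
    (h2 : ¬ ρ ∣ p' ^ 3 + x * q' ^ 3) (hr : ρ ∣ r ^ 3 - x)
    (hroot : ∃ θ : L, θ ^ 3 = ι x)
    (hA : ∀ θ : L, θ ^ 3 = ι x → ∃ A : L, A ^ 3 * aDE ι p q p' q' θ = aNE ι p q p' q' θ)
    {t : ZMod 3} (ht : ∀ θ A : L, θ ^ 3 = ι x →
      A ^ 3 * aDE ι p q p' q' θ = aNE ι p q p' q' θ → φ A = ι w ^ t.val * A) :
    t = TAUP ρ p q p' q' r := by
  have hψr : ψ r ^ 3 = ψ x := by
    obtain ⟨d, hd⟩ := hr
    have h3 := congrArg ψ hd
    rw [map_sub, map_pow, map_mul, D.ψρ, zero_mul] at h3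
    exact sub_eq_zero.1 h3
  -- a root of `x` congruent to `r`
  obtain ⟨ρB, hρB, hρr⟩ : ∃ ρB : 𝓞 L, ρB ^ 3 = κ x ∧ mk ρB = ψ r := by
    obtain ⟨θ, hθ⟩ := hroot
    have hint : IsIntegral ℤ θ := by
      refine IsIntegral.of_pow (n := 3) (by norm_num) ?_
      rw [hθ, ← hκ]
      exact RingOfIntegers.isIntegral_coe _
    let θB : 𝓞 L := ⟨θ, hint⟩
    have hθB : θB ^ 3 = κ x := by
      apply RingOfIntegers.coe_injective
      change θ ^ 3 = ((κ x : 𝓞 L) : L)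
      rw [hκ, hθ]
    have hc3 : (ψ r) ^ 3 = (mk θB) ^ 3 := by
      rw [hψr, ← map_pow, hθB, hψ]
    obtain ⟨k, hk⟩ := cases_root D.rel hc3
    refine ⟨κ w ^ k * θB, ?_, ?_⟩
    · rw [mul_pow, ← pow_mul, mul_comm k 3, pow_mul, GFR.omega_cube D.rω, one_pow, one_mul, hθB]
    · rw [map_mul, map_pow, D.ωz, hk]
  have hρ : (ρB : L) ^ 3 = ι x := by
    rw [← hκ, ← hρB]
    rfl
  obtain ⟨A, hAA⟩ := hA (ρB : L) hρ
  -- the elements of the ring of integers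
  let dD : 𝓞 L := (κ p + κ q * κ w * ρB) * (κ p' + κ q' * κ w ^ 2 * ρB)
  let dN : 𝓞 L := (κ p + κ q * κ w ^ 2 * ρB) * (κ p' + κ q' * κ w * ρB)
  have hdD : algebraMap (𝓞 L) L dD = aDE ι p q p' q' (ρB : L) := by
    simp only [dD, aDE, map_mul, map_add, map_pow, hκ]
  have hdN : algebraMap (𝓞 L) L dN = aNE ι p q p' q' (ρB : L) := by
    simp only [dN, aNE, map_mul, map_add, map_pow, hκ]
  have hA' : (A * aDE ι p q p' q' (ρB : L)) ^ 3 = algebraMap (𝓞 L) L (dN * dD ^ 2) := by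
    rw [map_mul, map_pow, hdD, hdN, ← hAA]
    ring
  have hAint : IsIntegral ℤ (A * aDE ι p q p' q' (ρB : L)) := by
    refine IsIntegral.of_pow (n := 3) (by norm_num) ?_
    rw [hA']
    exact RingOfIntegers.isIntegral_coe _
  let AB : 𝓞 L := ⟨A * aDE ι p q p' q' (ρB : L), hAint⟩
  have hAB : AB ^ 3 = dN * dD ^ 2 := by
    apply RingOfIntegers.coe_injective
    rw [← hA']
    rfl
  have hφρ : φ (ρB : L) = ρB := fix D hψ ι hκ h0 hsx hρ
  have hφD : φ (aDE ι p q p' q' (ρB : L)) = aDE ι p q p' q' (ρB : L) := by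
    simp only [aDE, map_mul, map_add, map_pow, fa D ι hκ, hφρ]
  have hφφ : φ • AB = κ w ^ t.val * AB := by
    apply RingOfIntegers.coe_injective
    rw [map_mul, map_pow]
    change φ (A * aDE ι p q p' q' (ρB : L)) =
      ((κ w : 𝓞 L) : L) ^ t.val * (A * aDE ι p q p' q' (ρB : L))
    rw [hκ, map_mul, hφD, ht _ A hρ hAA]
    ring
  have hq := D.hq
  obtain ⟨e1, e2⟩ := lf_not_dvd h1 hr
  obtain ⟨e1', e2'⟩ := lf_not_dvd h2 hr
  set E : Eis := LfE p q 2 r * LfE p' q' 1 r * (LfE p q 1 r * LfE p' q' 2 r) ^ 2 with hE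
  have hEd : ¬ ρ ∣ E := by
    intro h3
    rcases hq.dvd_or_dvd h3 with h4 | h4
    · rcases hq.dvd_or_dvd h4 with h5 | h5
      · exact e2 h5
      · exact e1' h5
    · rcases hq.dvd_or_dvd (hq.dvd_of_dvd_pow h4) with h5 | h5
      · exact e1 h5
      · exact e2' h5
  have hmkA : mk AB ^ 3 = ψ E := by
    rw [← map_pow, hAB, hE]
    simp only [dD, dN, LfE, map_mul, map_add, map_pow, hρr, pow_one, hψ]
  have ha0 : mk AB ≠ 0 := by
    intro h3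
    rw [h3, zero_pow (by norm_num)] at hmkA
    exact psi_ne D hEd hmkA.symm
  have hfinal : z ^ t.val = z ^ (sym ρ E).val := by
    have h3 := congrArg mk hφφ
    rw [D.fr, D.pow_Q hEd hmkA, map_mul, map_pow, D.ωz] at h3
    exact (mul_right_cancel₀ ha0 h3).symm
  have ht' : t = sym ρ E := D.pow_inj hfinal
  rw [ht', hE]
  have g1 : ¬ ρ ∣ LfE p q 2 r * LfE p' q' 1 r := fun h3 =>
    (hq.dvd_or_dvd h3).elim e2 e1'
  have g2 : ¬ ρ ∣ LfE p q 1 r * LfE p' q' 2 r := fun h3 =>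
    (hq.dvd_or_dvd h3).elim e1 e2'
  have g3 : ¬ ρ ∣ (LfE p q 1 r * LfE p' q' 2 r) ^ 2 := fun h3 =>
    g2 (hq.dvd_of_dvd_pow h3)
  rw [sym_mul hq D.h3 g1 g3, sym_mul hq D.h3 e2 e1', sym_pow hq D.h3 g2,
    sym_mul hq D.h3 e1 e2']
  unfold TAUP
  have h2z : ((2 : ℕ) : ZMod 3) = -1 := by decide
  rw [h2z]
  ring

end Main

/-- The element `z` is not zero and has a small norm. -/
def Sm (Q : ℕ) (z : Eis) : Prop := z ≠ 0 ∧ N z < Q

theorem N_eq {Q : ℕ} {ρ : Eis} (h : (Q : Eis) = ρ * conj ρ) : N ρ = Q := by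
  have h1 := mul_conj ρ
  rw [← h] at h1
  have h2 : ((Q : ℤ) : Eis) = ((ρ.norm : ℤ) : Eis) := by
    rw [Int.cast_natCast]
    exact h1
  have h3 : (Q : ℤ) = ρ.norm := by
    have h4 := congrArg Eis.re h2
    simpa using h4
  have h4 := N_cast ρ
  rw [← h3] at h4
  exact_mod_cast h4

theorem Sm.not_dvd {Q : ℕ} {ρ z : Eis} (h : Sm Q z) (hρ : (Q : Eis) = ρ * conj ρ) : ¬ ρ ∣ z := by
  rintro ⟨d, rfl⟩
  have hd : d ≠ 0 := by
    rintro rfl
    exact h.1 (mul_zero _)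
  have h1 := N_pos hd
  have h2 := h.2
  rw [N_mul, N_eq hρ] at h2
  nlinarith

end GFKU

open _root_.Pool.Agent.PTK.GFKU

theorem GFKU_thm (hSPP : SPP) (_hSCJ : SCJ) (hSPLT : SPLT) : Stmt_GFKU := by
  classical
  intro k x u P Q P' Q' f L _ _ ζ ι hS hG
  have hgal := hG.gal
  obtain ⟨κ, hκ⟩ := GFK.exists_lift ι
  let B : Fin k → ℕ := fun j => N (u j) + N (P j ^ 3 + x * Q j ^ 3) +
    N (P' j ^ 3 + x * Q' j ^ 3)
  refine ⟨N x + ∑ j, B j, fun n hn hnN hn3 I hI hnI φ hφ ρ hρ hsx hsu => ?_⟩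
  -- the elements with a small norm
  have hx0 : x ≠ 0 := by
    intro h0
    refine hS.ind 1 (fun _ => 0) (Or.inl (by norm_num)) ⟨0, ?_⟩
    rw [h0]
    simp
  have hu0 : ∀ j, u j ≠ 0 := by
    intro j h0
    refine hS.ind 0 (Pi.single j 1) (Or.inr ⟨j, by simp⟩) ⟨0, ?_⟩
    have h1 : ∏ i, u i ^ (Pi.single j 1 : Fin k → ℕ) i = 0 := by
      refine Finset.prod_eq_zero (Finset.mem_univ j) ?_
      rw [Pi.single_eq_same, pow_one, h0]
    rw [h1]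
    simp
  have hBj : ∀ j, B j < n := by
    intro j
    have h1 : B j ≤ ∑ i, B i :=
      Finset.single_le_sum (f := B) (fun _ _ => Nat.zero_le _) (Finset.mem_univ j)
    omega
  have sx : Sm n x := ⟨hx0, by omega⟩
  have su : ∀ j, Sm n (u j) := fun j => ⟨hu0 j, by have := hBj j; simp only [B] at this; omega⟩
  have s1 : ∀ j, Sm n (P j ^ 3 + x * Q j ^ 3) := fun j =>
    ⟨(hS.sol j).n1, by have := hBj j; simp only [B] at this; omega⟩
  have s2 : ∀ j, Sm n (P' j ^ 3 + x * Q' j ^ 3) := by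
    intro j
    refine ⟨?_, by have := hBj j; simp only [B] at this; omega⟩
    intro h0
    refine (hS.sol j).n1 ?_
    rw [(hS.sol j).eq, h0, mul_zero]
  -- the other prime
  obtain ⟨hna, ⟨ρ', hρ'⟩, hdv, -, hcj, -⟩ := hSPLT.2 n ρ hn hn3 hρ
  have hρ'n : (n : Eis) = ρ'.1 * conj ρ'.1 := by
    rw [hρ', conj_conj, mul_comm]
    exact hρ
  have hconj : ∀ a : Eis, Sm n a → sym ρ.1 a = 0 → (∃ t : Eis, a * conj a = t ^ 3) →
      sym ρ'.1 a = 0 := by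
    intro a ha hs ⟨t, ht⟩
    have hda := ha.not_dvd hρ
    have hda' := ha.not_dvd hρ'n
    have hdc : ¬ ρ.1 ∣ conj a := by
      intro h
      have h1 : conj ρ.1 ∣ a := by
        have h2 := map_dvd conj h
        rwa [conj_conj] at h2
      rw [hρ'] at hda'
      exact hda' h1
    have h3 := (hSPP.2.2.2.1 ρ).1
    have h4 : ¬ ρ.1 ∣ t := by
      intro h
      have h5 : ρ.1 ∣ a * conj a := by
        rw [ht]
        exact Dvd.dvd.pow h (by norm_num)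
      exact (ρ.2.1.dvd_or_dvd h5).elim hda hdc
    have h5 : sym ρ.1 (a * conj a) = 0 := by
      rw [ht, sym_pow ρ.2.1 h3 h4]
      have h6 : ((3 : ℕ) : ZMod 3) = 0 := by decide
      rw [h6, zero_mul]
    rw [sym_mul ρ.2.1 h3 hda hdc, hs, zero_add] at h5
    have h6 := hcj (conj a) hdc
    rw [conj_conj, h5, neg_zero] at h6
    rw [hρ']
    exact h6
  have hsx' := hconj x sx hsx hS.cx
  have hsu' : ∀ j, sym ρ'.1 (u j) = 0 := fun j => hconj (u j) (su j) (hsu j) (hS.cb j)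
  -- the statement for one prime ideal
  have main : ∀ (J : Ideal (𝓞 L)) (σ : L ≃ₐ[ℚ] L) (π : PP), J.IsPrime → (n : 𝓞 L) ∈ J →
      IsArithFrobAt ℤ σ J → (n : Eis) = π.1 * conj π.1 → κ π.1 ∈ J → sym π.1 x = 0 →
      (∀ j, sym π.1 (u j) = 0) →
      (σ (ι w) = ι w ∧ FxU x u ι σ) ∧ ∀ (j : Fin k) (r : Eis) (t : ZMod 3), π.1 ∣ r ^ 3 - x →
        IsTU x P Q P' Q' ι σ j t → t = TAUP π.1 (P j) (Q j) (P' j) (Q' j) r := by
    intro J σ π hJ hnJ hσ hπ hπJ hsx hsu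
    obtain ⟨F, _, mk, z, ψ, hψ, D⟩ := GFKU.exists_dat hSPLT hSPP hn hJ hnJ hn3 hσ κ hπ hπJ
    refine ⟨⟨fw D ι hκ, fun θ hθ => fix D hψ ι hκ (sx.not_dvd hπ) hsx hθ,
      fun j θ hθ => fix D hψ ι hκ ((su j).not_dvd hπ) (hsu j) hθ⟩, fun j r t hr ht => ?_⟩
    exact core D hψ ι hκ (sx.not_dvd hπ) hsx ((s1 j).not_dvd hπ) ((s2 j).not_dvd hπ) hr hG.rx
      (fun θ hθ => hG.A j θ hθ) (fun θ A h1 h2 => ht θ A ⟨h1, h2⟩)
  -- the conjugate prime ideal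
  have hcon : ∀ (c : L ≃ₐ[ℚ] L), c (ι w) = ι w ^ 2 → ∀ a : Eis, κ (conj a) ∈ I →
      κ a ∈ c • I := by
    intro c hc a ha
    have h1 : c • (κ (conj a)) = κ a := by
      apply RingOfIntegers.coe_injective
      change c ((κ (conj a) : 𝓞 L) : L) = ((κ a : 𝓞 L) : L)
      rw [hκ, hκ, GFK.hom_eq ι (conj a)]
      have h2 := GFK.hom_eq (ι.comp conj) (conj a)
      rw [RingHom.comp_apply, RingHom.comp_apply, conj_conj, conj_w, map_pow] at h2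
      rw [map_add, map_mul, map_intCast, map_intCast, hc]
      exact h2.symm
    rw [← h1]
    exact Ideal.smul_mem_pointwise_smul c _ I ha
  have hP : ∀ (c : L ≃ₐ[ℚ] L), (c • I).IsPrime ∧ (n : 𝓞 L) ∈ c • I := by
    intro c
    refine ⟨inferInstance, ?_⟩
    have h1 : c • (n : 𝓞 L) = (n : 𝓞 L) := by
      apply RingOfIntegers.coe_injective
      have h7 : ((n : 𝓞 L) : L) = (n : L) := map_natCast (algebraMap (𝓞 L) L) n
      change c (((n : 𝓞 L)) : L) = (((n : 𝓞 L)) : L)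
      rw [h7, map_natCast]
    rw [← h1]
    exact Ideal.smul_mem_pointwise_smul c _ I hnI
  have hmem : κ ρ.1 ∈ I ∨ κ ρ'.1 ∈ I := by
    refine hI.mem_or_mem ?_
    rw [← map_mul, hρ', ← hρ, map_natCast]
    exact hnI
  rcases hmem with hm | hm
  · obtain ⟨⟨a1, a2⟩, a3⟩ := main I φ ρ hI hnI hφ hρ hm hsx hsu
    refine ⟨a1, a2, fun c hc j r r' t t' hr hr' ht ht' => ?_⟩
    have hm' : κ ρ'.1 ∈ c • I := hcon c hc _ (by rw [hρ', conj_conj]; exact hm)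
    obtain ⟨-, b3⟩ := main (c • I) (c * φ * c⁻¹) ρ' (hP c).1 (hP c).2 (hφ.conj c) hρ'n hm'
      hsx' hsu'
    rw [← hρ'] at hr' ⊢
    rw [a3 j r t hr ht, b3 j r' t' hr' ht']
  · obtain ⟨⟨a1, a2⟩, a3⟩ := main I φ ρ' hI hnI hφ hρ'n hm hsx' hsu'
    refine ⟨a1, a2, fun c hc j r r' t t' hr hr' ht ht' => ?_⟩
    have hm' : κ ρ.1 ∈ c • I := hcon c hc _ (by rw [← hρ']; exact hm)
    obtain ⟨-, b3⟩ := main (c • I) (c * φ * c⁻¹) ρ (hP c).1 (hP c).2 (hφ.conj c) hρ hm'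
      hsx hsu
    rw [← hρ'] at hr' ⊢
    rw [a3 j r' t hr' ht, b3 j r t' hr ht', add_comm]

end Pool.Agent.PTK


end

section

/-!
# PTK_LRR: the class of a point of the isogenous curve at `3`
-/

set_option autoImplicit false

open Finset

namespace Pool.Agent.PTK

open Pool.Agent.Lib_helper18 Pool.Agent.Lib_helper18.Eis Pool.Agent.Lib_helper84.Cub
open Pool.Agent.PT Pool.Agent.PTE Pool.Agent.PT3 Pool.Agent.PTL Pool.Agent.PTN

namespace LRR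

theorem wt_res' {A : ℤ} {c : ℤ} (s t : ℤ) (hA : A % 9 = c) (h : c ^ 2 = 1 + 3 * (3 * s + t)) :
    wt (A ^ 2) = (t : ZMod 3) := by
  obtain ⟨k, hk⟩ : ∃ k : ℤ, A = 9 * k + c := ⟨A / 9, by omega⟩
  have h3 : A ^ 2 = 1 + 3 * (3 * (9 * k ^ 2 + 2 * k * c + s) + t) := by
    rw [hk]
    linear_combination h
  have e : (A ^ 2 - 1) / 3 = 3 * (9 * k ^ 2 + 2 * k * c + s) + t := by omega
  unfold wt
  rw [e]
  push_cast
  have h4 : (3 : ZMod 3) = 0 := by decide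
  rw [h4]
  ring

theorem cls (hLCL : LCL) {A : ℤ} (hA : ¬ (3 : ℤ) ∣ A) : lv A = 0 ∧
    ((A % 9 = 1 ∨ A % 9 = 8) ∧ lw A = 0 ∨ (A % 9 = 2 ∨ A % 9 = 7) ∧ lw A = 1 ∨
      (A % 9 = 4 ∨ A % 9 = 5) ∧ lw A = 2) := by
  obtain ⟨h1, h2⟩ := hLCL.2.2.2.1 A hA
  refine ⟨h1, ?_⟩
  rw [h2]
  have hr : A % 9 = 1 ∨ A % 9 = 2 ∨ A % 9 = 4 ∨ A % 9 = 5 ∨ A % 9 = 7 ∨ A % 9 = 8 := by omega
  rcases hr with h | h | h | h | h | h
  · exact Or.inl ⟨Or.inl h, by rw [wt_res' 0 0 h (by norm_num)]; decide⟩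
  · exact Or.inr (Or.inl ⟨Or.inl h, by rw [wt_res' 0 1 h (by norm_num)]; decide⟩)
  · exact Or.inr (Or.inr ⟨Or.inl h, by rw [wt_res' 1 2 h (by norm_num)]; decide⟩)
  · exact Or.inr (Or.inr ⟨Or.inr h, by rw [wt_res' 2 2 h (by norm_num)]; decide⟩)
  · exact Or.inr (Or.inl ⟨Or.inr h, by rw [wt_res' 5 1 h (by norm_num)]; decide⟩)
  · exact Or.inl ⟨Or.inr h, by rw [wt_res' 7 0 h (by norm_num)]; decide⟩

/-- two numbers prime to `3` with sum divisible by `9` -/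
theorem opp (hLCL : LCL) {A B : ℤ} (hA : ¬ (3 : ℤ) ∣ A) (hB : ¬ (3 : ℤ) ∣ B) (h : (9 : ℤ) ∣ A + B) :
    lw A = lw B := by
  obtain ⟨-, h1⟩ := cls hLCL hA
  obtain ⟨-, h2⟩ := cls hLCL hB
  rcases h1 with ⟨h1, e1⟩ | ⟨h1, e1⟩ | ⟨h1, e1⟩ <;>
  rcases h2 with ⟨h2, e2⟩ | ⟨h2, e2⟩ | ⟨h2, e2⟩ <;>
  first
    | (exfalso; omega)
    | rw [e1, e2]

/-- three numbers prime to `3` with sum zero -/
theorem thr (hLCL : LCL) {A B C : ℤ} (hA : ¬ (3 : ℤ) ∣ A) (hB : ¬ (3 : ℤ) ∣ B) (hC : ¬ (3 : ℤ) ∣ C)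
    (h : A + B + C = 0) : lw A + lw B + lw C = 1 := by
  obtain ⟨-, h1⟩ := cls hLCL hA
  obtain ⟨-, h2⟩ := cls hLCL hB
  obtain ⟨-, h3⟩ := cls hLCL hC
  rcases h1 with ⟨h1, e1⟩ | ⟨h1, e1⟩ | ⟨h1, e1⟩ <;>
  rcases h2 with ⟨h2, e2⟩ | ⟨h2, e2⟩ | ⟨h2, e2⟩ <;>
  rcases h3 with ⟨h3, e3⟩ | ⟨h3, e3⟩ | ⟨h3, e3⟩ <;>
  first
    | (exfalso; omega)
    | (rw [e1, e2, e3]; decide)

/-- `3` divides exactly one of the three numbers -/
theorem one (hLCL : LCL) {A C D B : ℤ} (hA0 : A ≠ 0) (hA : (3 : ℤ) ∣ A) (hC : ¬ (3 : ℤ) ∣ C)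
    (h : A + C + D = 0) (h1 : lv A + lv C + lv D = lv B) (h2 : lw A + lw C + lw D = lw B)
    (h3 : lv B ≠ 1) :
    lv C = 0 ∧ lv D = 0 ∧ lv A = lv B ∧ lw C = lw D ∧ lw A - lw C = lw B := by
  have hD : ¬ (3 : ℤ) ∣ D := by omega
  obtain ⟨c0, -⟩ := cls hLCL hC
  obtain ⟨d0, -⟩ := cls hLCL hD
  rw [c0, d0, add_zero, add_zero] at h1
  have h9 : (9 : ℤ) ∣ A := by
    by_contra hcon
    obtain ⟨a, rfl⟩ := hA
    have ha : ¬ (3 : ℤ) ∣ a := fun h => hcon (by obtain ⟨t, rfl⟩ := h; exact ⟨t, by ring⟩)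
    have ha0 : a ≠ 0 := fun h => ha (h ▸ dvd_zero _)
    have e := (hLCL.2.1 3 a (by norm_num) ha0).1
    rw [hLCL.2.2.1.1, (cls hLCL ha).1, add_zero] at e
    exact h3 (h1.symm.trans e)
  have e : lw C = lw D := opp hLCL hC hD (by omega)
  refine ⟨c0, d0, h1, e, ?_⟩
  rw [← h2, ← e]
  have h4 : (3 : ZMod 3) = 0 := by decide
  linear_combination (-lw C) * h4

theorem main (hLCL : LCL) : ∀ (n : ℕ) (P Q R B : ℤ), P.natAbs ≤ n → P ≠ 0 → Q ≠ 0 → R ≠ 0 →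
    B ≠ 0 → P + Q + R = 0 → lv (P * Q * R) = lv B → lw (P * Q * R) = lw B → lv B ≠ 1 →
    ∃ κ : ZMod 3, lv Q - lv R = κ * lv B ∧ lw Q - lw R = κ * lw B := by
  intro n
  induction n with
  | zero =>
    intro P Q R B hn hP
    exact absurd (Int.natAbs_eq_zero.1 (Nat.le_zero.1 hn)) hP
  | succ n ih =>
    intro P Q R B hn hP hQ hR hB hs h1 h2 h3
    have hPQ : P * Q ≠ 0 := mul_ne_zero hP hQ
    have f1 : lv P + lv Q + lv R = lv B := by
      rw [← h1, (hLCL.2.1 _ _ hPQ hR).1, (hLCL.2.1 _ _ hP hQ).1]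
    have f2 : lw P + lw Q + lw R = lw B := by
      rw [← h2, (hLCL.2.1 _ _ hPQ hR).2, (hLCL.2.1 _ _ hP hQ).2]
    by_cases hp : (3 : ℤ) ∣ P
    · by_cases hq : (3 : ℤ) ∣ Q
      · -- all divisible
        have hr : (3 : ℤ) ∣ R := by omega
        obtain ⟨p, rfl⟩ := hp
        obtain ⟨q, rfl⟩ := hq
        obtain ⟨r, rfl⟩ := hr
        have p0 : p ≠ 0 := fun h => hP (by rw [h, mul_zero])
        have q0 : q ≠ 0 := fun h => hQ (by rw [h, mul_zero])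
        have r0 : r ≠ 0 := fun h => hR (by rw [h, mul_zero])
        have t0 : (3 : ℤ) ≠ 0 := by norm_num
        obtain ⟨a1, b1⟩ := hLCL.2.1 3 p t0 p0
        obtain ⟨a2, b2⟩ := hLCL.2.1 3 q t0 q0
        obtain ⟨a3, b3⟩ := hLCL.2.1 3 r t0 r0
        obtain ⟨c1, c2⟩ := hLCL.2.2.1
        have h4 : (3 : ZMod 3) = 0 := by decide
        rw [a1, a2, a3, c1] at f1
        rw [b1, b2, b3, c2] at f2
        obtain ⟨κ, k1, k2⟩ := ih p q r B (by omega) p0 q0 r0 hB (by omega)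
          (by
            rw [(hLCL.2.1 _ _ (mul_ne_zero p0 q0) r0).1, (hLCL.2.1 _ _ p0 q0).1]
            linear_combination f1 - h4)
          (by
            rw [(hLCL.2.1 _ _ (mul_ne_zero p0 q0) r0).2, (hLCL.2.1 _ _ p0 q0).2]
            linear_combination f2) h3
        refine ⟨κ, ?_, ?_⟩
        · rw [a2, a3, ← k1]
          ring
        · rw [b2, b3, ← k2]
          ring
      · -- only `P`
        obtain ⟨c0, d0, e1, e2, e3⟩ := one hLCL hP hp hq hs f1 f2 h3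
        exact ⟨0, by rw [c0, d0]; ring, by rw [e2]; ring⟩
    · by_cases hq : (3 : ℤ) ∣ Q
      · -- only `Q`
        obtain ⟨c0, d0, e1, e2, e3⟩ := one (D := R) (B := B) hLCL hQ hq hp (by omega)
          (by rw [← f1]; ring) (by rw [← f2]; ring) h3
        refine ⟨1, ?_, ?_⟩
        · rw [d0, e1]
          ring
        · rw [← e3, e2]
          ring
      · by_cases hr : (3 : ℤ) ∣ R
        · -- only `R`
          obtain ⟨c0, d0, e1, e2, e3⟩ := one (D := Q) (B := B) hLCL hR hr hp (by omega)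
            (by rw [← f1]; ring) (by rw [← f2]; ring) h3
          refine ⟨-1, ?_, ?_⟩
          · rw [d0, e1]
            ring
          · rw [← e3, e2]
            ring
        · -- none
          have g := thr hLCL hp hq hr hs
          rw [f2] at g
          refine ⟨lw Q - lw R, ?_, ?_⟩
          · rw [← f1, (cls hLCL hp).1, (cls hLCL hq).1, (cls hLCL hr).1]
            ring
          · rw [g, mul_one]

end LRR

theorem LRR_thm (hLCL : LCL) : Stmt_LRR := by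
  intro R B hR hB hs h1 h2 h3
  exact LRR.main hLCL _ (R 0) (R 1) (R 2) B le_rfl (hR 0) (hR 1) (hR 2) hB hs h1 h2 h3

end Pool.Agent.PTK


end

section

/-!
# JZ: existence of the joint governing field
-/

set_option autoImplicit false

open NumberField IsDedekindDomain Finset
open scoped nonZeroDivisors Pointwise

namespace Pool.Agent.PTK

open Pool.Agent.Lib_helper18 Pool.Agent.Lib_helper18.Eis Pool.Agent.Lib_helper84.Cub
open Pool.Agent.PT Pool.Agent.PTE Pool.Agent.PT3 Pool.Agent.PTL Pool.Agent.PTN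

namespace JZ

/-- ring homomorphisms from the Eisenstein integers to fields of characteristic zero are injective -/
theorem inj0 {L : Type} [Field L] [CharZero L] (ι : Eis →+* L) : Function.Injective ι := by
  rw [injective_iff_map_eq_zero]
  intro a ha
  have h1 : ι (a * conj a) = 0 := by rw [map_mul, ha, zero_mul]
  rw [mul_conj, map_intCast] at h1
  have h2 : a.norm = 0 := by exact_mod_cast h1
  exact norm_eq_zero.1 h2

theorem ne_of_prodE {L : Type} [Field L] [CharZero L] (ι : Eis →+* L) {p q p' q' x : Eis} {ρ : L}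
    (h1 : p ^ 3 + x * q ^ 3 ≠ 0) (h2 : p' ^ 3 + x * q' ^ 3 ≠ 0) (hρ : ρ ^ 3 = ι x) :
    aDE ι p q p' q' ρ ≠ 0 ∧ aNE ι p q p' q' ρ ≠ 0 := by
  have hω : ι w ^ 2 + ι w + 1 = 0 := by
    rw [← map_pow, ← map_add, ← map_one ι, ← map_add, w_rel, map_zero]
  have h3 : ι w ^ 3 = 1 := by linear_combination (ι w - 1) * hω
  have key : aDE ι p q p' q' ρ * aNE ι p q p' q' ρ *
      ((ι p + ι q * ρ) * (ι p' + ι q' * ρ)) =
      ι (p ^ 3 + x * q ^ 3) * ι (p' ^ 3 + x * q' ^ 3) := by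
    have e1 : ∀ u v : L, (u + v * ι w ^ 2 * ρ) * (u + v * ι w * ρ) * (u + v * ρ) =
        u ^ 3 + v ^ 3 * ρ ^ 3 := by
      intro u v
      linear_combination (u ^ 2 * v * ρ + u * v ^ 2 * ρ ^ 2 * ι w) * hω + v ^ 3 * ρ ^ 3 * h3
    have e2 := e1 (ι p) (ι q)
    have e3 := e1 (ι p') (ι q')
    rw [hρ] at e2 e3
    unfold aDE aNE
    rw [map_add, map_add, map_mul, map_mul, map_pow, map_pow, map_pow, map_pow]
    linear_combination ((ι p' + ι q' * ι w ^ 2 * ρ) * (ι p' + ι q' * ι w * ρ) *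
      (ι p' + ι q' * ρ)) * e2 + ((ι p) ^ 3 + ι q ^ 3 * ι x) * e3
  have hi := inj0 ι
  have hne : ι (p ^ 3 + x * q ^ 3) * ι (p' ^ 3 + x * q' ^ 3) ≠ 0 :=
    mul_ne_zero ((map_ne_zero_iff ι hi).2 h1) ((map_ne_zero_iff ι hi).2 h2)
  rw [← key] at hne
  exact ⟨left_ne_zero_of_mul (left_ne_zero_of_mul hne),
    right_ne_zero_of_mul (left_ne_zero_of_mul hne)⟩

theorem fin_roots (c : AlgebraicClosure ℚ) : {ρ : AlgebraicClosure ℚ | ρ ^ 3 = c}.Finite := by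
  classical
  refine (Polynomial.nthRoots 3 c).toFinset.finite_toSet.subset ?_
  intro ρ hρ
  simp only [Finset.mem_coe, Multiset.mem_toFinset]
  exact (Polynomial.mem_nthRoots (by norm_num)).2 hρ

end JZ

open _root_.Pool.Agent.PTK.JZ Pool.Agent.PT.GZERO in
/-- JZ: existence of the joint governing field. -/
theorem JZ_thm : Stmt_JZ := by
  intro s k b p q p' q' x u P Q P' Q' f hSys hSysK hf h9
  have : NeZero (f : AlgebraicClosure ℚ) := ⟨Nat.cast_ne_zero.2 hf.ne'⟩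
  have : NeZero f := ⟨hf.ne'⟩
  obtain ⟨ζ, hζ⟩ := HasEnoughRootsOfUnity.exists_primitiveRoot (AlgebraicClosure ℚ) f
  have hω := rel_of_prim (prim_pow hf h9 hζ)
  set ι₀ : Eis →+* AlgebraicClosure ℚ := GFR.lift (ζ ^ (f / 3)) hω with hι₀
  -- the plus part
  have hN : ∀ j i, j ≠ i → p j i ^ 3 + b j * q j i ^ 3 ≠ 0 ∧
      p' j i ^ 3 + b j * q' j i ^ 3 ≠ 0 := by
    intro j i hji
    have h1 := hSys.sol j i hji
    refine ⟨h1.n1, fun h2 => h1.n1 ?_⟩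
    rw [h1.eq, h2, mul_zero]
  have hA : ∀ (j i : Fin s) (ρ : AlgebraicClosure ℚ), ∃ A : AlgebraicClosure ℚ, j ≠ i →
      ρ ^ 3 = (b j : AlgebraicClosure ℚ) →
      A ^ 3 * aD (ζ ^ (f / 3)) (p j i) (q j i) (p' j i) (q' j i) ρ =
        aN (ζ ^ (f / 3)) (p j i) (q j i) (p' j i) (q' j i) ρ := by
    intro j i ρ
    obtain ⟨A, hA⟩ := IsAlgClosed.exists_pow_nat_eq
      (aN (ζ ^ (f / 3)) (p j i) (q j i) (p' j i) (q' j i) ρ /
        aD (ζ ^ (f / 3)) (p j i) (q j i) (p' j i) (q' j i) ρ) (n := 3) (by norm_num)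
    refine ⟨A, fun hji hρ => ?_⟩
    rw [hA, div_mul_cancel₀]
    exact (ne_of_prod hω (hN j i hji).1 (hN j i hji).2 hρ).1
  choose A hA using hA
  -- the minus part
  have hNK : ∀ j, P j ^ 3 + x * Q j ^ 3 ≠ 0 ∧ P' j ^ 3 + x * Q' j ^ 3 ≠ 0 := by
    intro j
    have h1 := hSysK.sol j
    refine ⟨h1.n1, fun h2 => h1.n1 ?_⟩
    rw [h1.eq, h2, mul_zero]
  have hB : ∀ (j : Fin k) (ρ : AlgebraicClosure ℚ), ∃ A : AlgebraicClosure ℚ, ρ ^ 3 = ι₀ x →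
      A ^ 3 * aDE ι₀ (P j) (Q j) (P' j) (Q' j) ρ = aNE ι₀ (P j) (Q j) (P' j) (Q' j) ρ := by
    intro j ρ
    obtain ⟨A, hA⟩ := IsAlgClosed.exists_pow_nat_eq
      (aNE ι₀ (P j) (Q j) (P' j) (Q' j) ρ / aDE ι₀ (P j) (Q j) (P' j) (Q' j) ρ) (n := 3)
      (by norm_num)
    refine ⟨A, fun hρ => ?_⟩
    rw [hA, div_mul_cancel₀]
    exact (ne_of_prodE ι₀ (hNK j).1 (hNK j).2 hρ).1
  choose B hB using hB
  have hroot : ∀ c : AlgebraicClosure ℚ, ∃ θ : AlgebraicClosure ℚ, θ ^ 3 = c :=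
    fun c => IsAlgClosed.exists_pow_nat_eq _ (by norm_num)
  obtain ⟨L, iF, iN, iG, ι, hι⟩ := exists_field
    ({ζ} ∪ ((⋃ j : Fin s, {ρ | ρ ^ 3 = (b j : AlgebraicClosure ℚ)}) ∪
      ({ρ | ρ ^ 3 = ι₀ x} ∪ ((⋃ j : Fin k, {ρ | ρ ^ 3 = ι₀ (u j)}) ∪
        ((⋃ j : Fin s, ⋃ i : Fin s, A j i '' {ρ | ρ ^ 3 = (b j : AlgebraicClosure ℚ)}) ∪
          ⋃ j : Fin k, B j '' {ρ | ρ ^ 3 = ι₀ x})))))
    ((Set.finite_singleton ζ).union ((Set.finite_iUnion fun j => fin_roots _).union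
      ((fin_roots _).union ((Set.finite_iUnion fun j => fin_roots _).union
        ((Set.finite_iUnion fun j => Set.finite_iUnion fun i => (fin_roots _).image _).union
          (Set.finite_iUnion fun j => (fin_roots _).image _))))))
  have hinj : Function.Injective ι := ι.injective
  obtain ⟨z, hz⟩ := hι ζ (Or.inl rfl)
  have hzp : IsPrimitiveRoot z f := by
    refine IsPrimitiveRoot.of_map_of_injective (f := ι) ?_ hinj
    rw [hz]
    exact hζ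
  have hzω : ι (z ^ (f / 3)) = ζ ^ (f / 3) := by rw [map_pow, hz]
  have hrel := rel_of_prim (prim_pow hf h9 hzp)
  set κ : Eis →+* L := GFR.lift (z ^ (f / 3)) hrel with hκ
  have hκw : κ w = z ^ (f / 3) := GFR.lift_w _ _
  have hcomp : ∀ a : Eis, ι (κ a) = ι₀ a := by
    intro a
    change ι ((a.re : L) + (a.im : L) * z ^ (f / 3)) =
      (a.re : AlgebraicClosure ℚ) + (a.im : AlgebraicClosure ℚ) * ζ ^ (f / 3)
    rw [map_add, map_mul, map_intCast, map_intCast, hzω]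
  have hNmap : ∀ (u v u' v' : ℤ) (ρ : L), ι (aN (z ^ (f / 3)) u v u' v' ρ) =
      aN (ζ ^ (f / 3)) u v u' v' (ι ρ) := by
    intro u v u' v' ρ
    unfold aN
    simp only [map_mul, map_add, map_pow, map_intCast, hz]
  have hDmap : ∀ (u v u' v' : ℤ) (ρ : L), ι (aD (z ^ (f / 3)) u v u' v' ρ) =
      aD (ζ ^ (f / 3)) u v u' v' (ι ρ) := by
    intro u v u' v' ρ
    unfold aD
    simp only [map_mul, map_add, map_pow, map_intCast, hz]
  have hNmapE : ∀ (a c a' c' : Eis) (ρ : L), ι (aNE κ a c a' c' ρ) =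
      aNE ι₀ a c a' c' (ι ρ) := by
    intro a c a' c' ρ
    unfold aNE
    simp only [map_mul, map_add, map_pow, hcomp]
  have hDmapE : ∀ (a c a' c' : Eis) (ρ : L), ι (aDE κ a c a' c' ρ) =
      aDE ι₀ a c a' c' (ι ρ) := by
    intro a c a' c' ρ
    unfold aDE
    simp only [map_mul, map_add, map_pow, hcomp]
  refine ⟨L, iF, iN, z, κ, ?_, ?_⟩
  · rw [hκw]
    refine ⟨iG, hzp, h9, rfl, hrel, ?_, ?_, ?_⟩
    · intro j
      obtain ⟨θ, hθ⟩ := hroot (b j : AlgebraicClosure ℚ)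
      obtain ⟨y, hy⟩ := hι θ (Or.inr (Or.inl (Set.mem_iUnion.2 ⟨j, hθ⟩)))
      refine ⟨y, hinj ?_⟩
      rw [map_pow, hy, hθ, map_intCast]
    · intro j i hji ρ hρ
      have hρ' : (ι ρ) ^ 3 = (b j : AlgebraicClosure ℚ) := by rw [← map_pow, hρ, map_intCast]
      obtain ⟨y, hy⟩ := hι (A j i (ι ρ)) (Or.inr (Or.inr (Or.inr (Or.inr (Or.inl
        (Set.mem_iUnion.2 ⟨j, Set.mem_iUnion.2 ⟨i, ⟨ι ρ, hρ', rfl⟩⟩⟩))))))
      refine ⟨y, hinj ?_⟩
      rw [map_mul, map_pow, hy, hDmap, hNmap]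
      exact hA j i (ι ρ) hji hρ'
    · intro j i hji ρ hρ
      exact ne_of_prod hrel (hN j i hji).1 (hN j i hji).2 hρ
  · refine ⟨iG, hzp, h9, hκw, ?_, ?_, ?_, ?_⟩
    · obtain ⟨θ, hθ⟩ := hroot (ι₀ x)
      obtain ⟨y, hy⟩ := hι θ (Or.inr (Or.inr (Or.inl hθ)))
      refine ⟨y, hinj ?_⟩
      rw [map_pow, hy, hθ, hcomp]
    · intro j
      obtain ⟨θ, hθ⟩ := hroot (ι₀ (u j))
      obtain ⟨y, hy⟩ := hι θ (Or.inr (Or.inr (Or.inr (Or.inl (Set.mem_iUnion.2 ⟨j, hθ⟩)))))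
      refine ⟨y, hinj ?_⟩
      rw [map_pow, hy, hθ, hcomp]
    · intro j ρ hρ
      have hρ' : (ι ρ) ^ 3 = ι₀ x := by rw [← map_pow, hρ, hcomp]
      obtain ⟨y, hy⟩ := hι (B j (ι ρ)) (Or.inr (Or.inr (Or.inr (Or.inr (Or.inr
        (Set.mem_iUnion.2 ⟨j, ⟨ι ρ, hρ', rfl⟩⟩))))))
      refine ⟨y, hinj ?_⟩
      rw [map_mul, map_pow, hy, hDmapE, hNmapE]
      exact hB j (ι ρ) hρ'
    · intro j ρ hρ
      exact ne_of_prodE κ (hNK j).1 (hNK j).2 hρ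

end Pool.Agent.PTK


end

section

/-!
# MZF: existence of the joint governing field, several base classes
-/

set_option autoImplicit false

open NumberField IsDedekindDomain Finset
open scoped nonZeroDivisors Pointwise

namespace Pool.Agent.PTK

open Pool.Agent.Lib_helper18 Pool.Agent.Lib_helper18.Eis Pool.Agent.Lib_helper84.Cub
open Pool.Agent.PT Pool.Agent.PTE Pool.Agent.PT3 Pool.Agent.PTL Pool.Agent.PTN

open JZ Pool.Agent.PT.GZERO in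
/-- MZF: existence of the joint governing field. -/
theorem MZF_thm : Stmt_MZF := by
  intro s M N b p q p' q' z α β P Q P' Q' f hSys hSysZ hf h9
  have : NeZero (f : AlgebraicClosure ℚ) := ⟨Nat.cast_ne_zero.2 hf.ne'⟩
  have : NeZero f := ⟨hf.ne'⟩
  obtain ⟨ζ, hζ⟩ := HasEnoughRootsOfUnity.exists_primitiveRoot (AlgebraicClosure ℚ) f
  have hω := rel_of_prim (prim_pow hf h9 hζ)
  set ι₀ : Eis →+* AlgebraicClosure ℚ := GFR.lift (ζ ^ (f / 3)) hω with hι₀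
  -- the plus part
  have hN : ∀ j i, j ≠ i → p j i ^ 3 + b j * q j i ^ 3 ≠ 0 ∧
      p' j i ^ 3 + b j * q' j i ^ 3 ≠ 0 := by
    intro j i hji
    have h1 := hSys.sol j i hji
    refine ⟨h1.n1, fun h2 => h1.n1 ?_⟩
    rw [h1.eq, h2, mul_zero]
  have hA : ∀ (j i : Fin s) (ρ : AlgebraicClosure ℚ), ∃ A : AlgebraicClosure ℚ, j ≠ i →
      ρ ^ 3 = (b j : AlgebraicClosure ℚ) →
      A ^ 3 * aD (ζ ^ (f / 3)) (p j i) (q j i) (p' j i) (q' j i) ρ =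
        aN (ζ ^ (f / 3)) (p j i) (q j i) (p' j i) (q' j i) ρ := by
    intro j i ρ
    obtain ⟨A, hA⟩ := IsAlgClosed.exists_pow_nat_eq
      (aN (ζ ^ (f / 3)) (p j i) (q j i) (p' j i) (q' j i) ρ /
        aD (ζ ^ (f / 3)) (p j i) (q j i) (p' j i) (q' j i) ρ) (n := 3) (by norm_num)
    refine ⟨A, fun hji hρ => ?_⟩
    rw [hA, div_mul_cancel₀]
    exact (ne_of_prod hω (hN j i hji).1 (hN j i hji).2 hρ).1
  choose A hA using hA
  -- the minus part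
  have hNK : ∀ r, P r ^ 3 + z (α r) * Q r ^ 3 ≠ 0 ∧ P' r ^ 3 + z (α r) * Q' r ^ 3 ≠ 0 := by
    intro r
    have h1 := hSysZ.sol r
    refine ⟨h1.n1, fun h2 => h1.n1 ?_⟩
    rw [h1.eq, h2, mul_zero]
  have hB : ∀ (r : Fin N) (ρ : AlgebraicClosure ℚ), ∃ A : AlgebraicClosure ℚ,
      ρ ^ 3 = ι₀ (z (α r)) →
      A ^ 3 * aDE ι₀ (P r) (Q r) (P' r) (Q' r) ρ = aNE ι₀ (P r) (Q r) (P' r) (Q' r) ρ := by
    intro r ρ
    obtain ⟨A, hA⟩ := IsAlgClosed.exists_pow_nat_eq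
      (aNE ι₀ (P r) (Q r) (P' r) (Q' r) ρ / aDE ι₀ (P r) (Q r) (P' r) (Q' r) ρ) (n := 3)
      (by norm_num)
    refine ⟨A, fun hρ => ?_⟩
    rw [hA, div_mul_cancel₀]
    exact (ne_of_prodE ι₀ (hNK r).1 (hNK r).2 hρ).1
  choose B hB using hB
  have hroot : ∀ c : AlgebraicClosure ℚ, ∃ θ : AlgebraicClosure ℚ, θ ^ 3 = c :=
    fun c => IsAlgClosed.exists_pow_nat_eq _ (by norm_num)
  obtain ⟨L, iF, iN, iG, ι, hι⟩ := exists_field
    ({ζ} ∪ ((⋃ j : Fin s, {ρ | ρ ^ 3 = (b j : AlgebraicClosure ℚ)}) ∪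
      ((⋃ j : Fin M, {ρ | ρ ^ 3 = ι₀ (z j)}) ∪
        ((⋃ j : Fin s, ⋃ i : Fin s, A j i '' {ρ | ρ ^ 3 = (b j : AlgebraicClosure ℚ)}) ∪
          ⋃ r : Fin N, B r '' {ρ | ρ ^ 3 = ι₀ (z (α r))}))))
    ((Set.finite_singleton ζ).union ((Set.finite_iUnion fun j => fin_roots _).union
      ((Set.finite_iUnion fun j => fin_roots _).union
        ((Set.finite_iUnion fun j => Set.finite_iUnion fun i => (fin_roots _).image _).union
          (Set.finite_iUnion fun j => (fin_roots _).image _)))))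
  have hinj : Function.Injective ι := ι.injective
  obtain ⟨y₀, hz⟩ := hι ζ (Or.inl rfl)
  have hzp : IsPrimitiveRoot y₀ f := by
    refine IsPrimitiveRoot.of_map_of_injective (f := ι) ?_ hinj
    rw [hz]
    exact hζ
  have hzω : ι (y₀ ^ (f / 3)) = ζ ^ (f / 3) := by rw [map_pow, hz]
  have hrel := rel_of_prim (prim_pow hf h9 hzp)
  set κ : Eis →+* L := GFR.lift (y₀ ^ (f / 3)) hrel with hκ
  have hκw : κ w = y₀ ^ (f / 3) := GFR.lift_w _ _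
  have hcomp : ∀ a : Eis, ι (κ a) = ι₀ a := by
    intro a
    change ι ((a.re : L) + (a.im : L) * y₀ ^ (f / 3)) =
      (a.re : AlgebraicClosure ℚ) + (a.im : AlgebraicClosure ℚ) * ζ ^ (f / 3)
    rw [map_add, map_mul, map_intCast, map_intCast, hzω]
  have hNmap : ∀ (u v u' v' : ℤ) (ρ : L), ι (aN (y₀ ^ (f / 3)) u v u' v' ρ) =
      aN (ζ ^ (f / 3)) u v u' v' (ι ρ) := by
    intro u v u' v' ρ
    unfold aN
    simp only [map_mul, map_add, map_pow, map_intCast, hz]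
  have hDmap : ∀ (u v u' v' : ℤ) (ρ : L), ι (aD (y₀ ^ (f / 3)) u v u' v' ρ) =
      aD (ζ ^ (f / 3)) u v u' v' (ι ρ) := by
    intro u v u' v' ρ
    unfold aD
    simp only [map_mul, map_add, map_pow, map_intCast, hz]
  have hNmapE : ∀ (a c a' c' : Eis) (ρ : L), ι (aNE κ a c a' c' ρ) =
      aNE ι₀ a c a' c' (ι ρ) := by
    intro a c a' c' ρ
    unfold aNE
    simp only [map_mul, map_add, map_pow, hcomp]
  have hDmapE : ∀ (a c a' c' : Eis) (ρ : L), ι (aDE κ a c a' c' ρ) =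
      aDE ι₀ a c a' c' (ι ρ) := by
    intro a c a' c' ρ
    unfold aDE
    simp only [map_mul, map_add, map_pow, hcomp]
  refine ⟨L, iF, iN, y₀, κ, ?_, ?_⟩
  · rw [hκw]
    refine ⟨iG, hzp, h9, rfl, hrel, ?_, ?_, ?_⟩
    · intro j
      obtain ⟨θ, hθ⟩ := hroot (b j : AlgebraicClosure ℚ)
      obtain ⟨y, hy⟩ := hι θ (Or.inr (Or.inl (Set.mem_iUnion.2 ⟨j, hθ⟩)))
      refine ⟨y, hinj ?_⟩
      rw [map_pow, hy, hθ, map_intCast]
    · intro j i hji ρ hρ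
      have hρ' : (ι ρ) ^ 3 = (b j : AlgebraicClosure ℚ) := by rw [← map_pow, hρ, map_intCast]
      obtain ⟨y, hy⟩ := hι (A j i (ι ρ)) (Or.inr (Or.inr (Or.inr (Or.inl
        (Set.mem_iUnion.2 ⟨j, Set.mem_iUnion.2 ⟨i, ⟨ι ρ, hρ', rfl⟩⟩⟩)))))
      refine ⟨y, hinj ?_⟩
      rw [map_mul, map_pow, hy, hDmap, hNmap]
      exact hA j i (ι ρ) hji hρ'
    · intro j i hji ρ hρ
      exact ne_of_prod hrel (hN j i hji).1 (hN j i hji).2 hρ
  · refine ⟨iG, hzp, h9, hκw, ?_, ?_, ?_⟩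
    · intro j
      obtain ⟨θ, hθ⟩ := hroot (ι₀ (z j))
      obtain ⟨y, hy⟩ := hι θ (Or.inr (Or.inr (Or.inl (Set.mem_iUnion.2 ⟨j, hθ⟩))))
      refine ⟨y, hinj ?_⟩
      rw [map_pow, hy, hθ, hcomp]
    · intro r ρ hρ
      have hρ' : (ι ρ) ^ 3 = ι₀ (z (α r)) := by rw [← map_pow, hρ, hcomp]
      obtain ⟨y, hy⟩ := hι (B r (ι ρ)) (Or.inr (Or.inr (Or.inr (Or.inr
        (Set.mem_iUnion.2 ⟨r, ⟨ι ρ, hρ', rfl⟩⟩)))))
      refine ⟨y, hinj ?_⟩
      rw [map_mul, map_pow, hy, hDmapE, hNmapE]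
      exact hB r (ι ρ) hρ'
    · intro r ρ hρ
      exact ne_of_prodE κ (hNK r).1 (hNK r).2 hρ

end Pool.Agent.PTK


end

section

/-!
# PTK, module NDS: the solution as a quotient of linear forms (helper54)
-/

set_option autoImplicit false

open NumberField IsDedekindDomain Finset
open scoped nonZeroDivisors Pointwise

namespace Pool.Agent.PTK

open Pool.Agent.Lib_helper18 Pool.Agent.Lib_helper18.Eis Pool.Agent.Lib_helper84.Cub
open Pool.Agent.PT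

namespace NDS

variable {x : Eis} {L : Type} [Field L] [NumberField L] {ι : Eis →+* L} {θ : L} {σ : L ≃ₐ[ℚ] L}

theorem norm_lin (h : CubE x L ι θ σ) (α β : Eis) :
    (ι α + ι β * θ) * σ (ι α + ι β * θ) * σ (σ (ι α + ι β * θ)) = ι (α ^ 3 + x * β ^ 3) := by
  have hw : ι w ^ 2 + ι w + 1 = 0 := by
    have : w ^ 2 + w + 1 = (0 : Eis) := by
      decide
    rw [← map_pow, ← map_one ι, ← map_add, ← map_add, this, map_zero]
  have h3 : ι w ^ 3 = 1 := by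
    linear_combination (ι w - 1) * hw
  have e1 : σ (ι α + ι β * θ) = ι α + ι β * (ι w * θ) := by
    rw [map_add, map_mul, h.sι, h.sι, h.sθ]
  have e2 : σ (σ (ι α + ι β * θ)) = ι α + ι β * (ι w * (ι w * θ)) := by
    rw [e1, map_add, map_mul, map_mul, h.sι, h.sι, h.sι, h.sθ]
  rw [e2, e1, map_add, map_mul, map_pow, map_pow, ← h.cube]
  linear_combination (ι α ^ 2 * ι β * θ + ι α * ι β ^ 2 * θ ^ 2 * ι w) * hw
    + ι β ^ 3 * θ ^ 3 * h3

theorem norm_ne (h : CubE x L ι θ σ) {α β : Eis} (hne : ι α + ι β * θ ≠ 0) :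
    α ^ 3 + x * β ^ 3 ≠ 0 := by
  intro h0
  have h1 := norm_lin h α β
  rw [h0, map_zero] at h1
  have hs : ∀ y : L, y ≠ 0 → σ y ≠ 0 := fun y hy => (map_ne_zero σ).mpr hy
  exact (mul_ne_zero (mul_ne_zero hne (hs _ hne)) (hs _ (hs _ hne))) h1

end NDS

theorem NDS_thm : Stmt_NDS := by
  intro x L _ _ ι θ σ _ hF y z hy hz hN
  obtain ⟨m, a, b, d, hm, e⟩ := hF.rep z
  have hmL : (m : L) ≠ 0 := by exact_mod_cast hm
  have hm' : ι (m : Eis) = (m : L) := map_intCast ι m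
  have hmE : (m : Eis) ≠ 0 := by
    intro h0
    rw [h0, map_zero] at hm'
    exact hmL hm'.symm
  -- killing the coefficient of `θ ^ 2`
  obtain ⟨γ, δ, hγδ, h2⟩ : ∃ γ δ : Eis, ¬ (γ = 0 ∧ δ = 0) ∧ b * δ + d * γ = 0 := by
    by_cases h3 : b = 0 ∧ d = 0
    · refine ⟨1, 0, by simp, ?_⟩
      rw [h3.1, h3.2]
      ring
    · refine ⟨b, -d, ?_, by ring⟩
      rintro ⟨h4, h5⟩
      exact h3 ⟨h4, neg_eq_zero.1 h5⟩
  have hlin : ι γ + ι δ * θ ≠ 0 := by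
    intro h0
    have h1 := hF.lin γ δ 0 (by rw [map_zero, zero_mul, add_zero]; exact h0)
    exact hγδ ⟨h1.1, h1.2.1⟩
  have h3 : ((m : L) * z) * (ι γ + ι δ * θ) =
      ι (a * γ + d * δ * x) + ι (a * δ + b * γ) * θ := by
    have h4 : ι b * ι δ + ι d * ι γ = 0 := by
      rw [← map_mul, ← map_mul, ← map_add, h2, map_zero]
    have h5 := hF.cube
    rw [e]
    simp only [map_add, map_mul]
    linear_combination θ ^ 2 * h4 + ι d * ι δ * h5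
  have h4 : (m : Eis) ^ 3 * y * (γ ^ 3 + x * δ ^ 3) =
      (a * γ + d * δ * x) ^ 3 + x * (a * δ + b * γ) ^ 3 := by
    apply hF.inj
    rw [← NDS.norm_lin hF (a * γ + d * δ * x) (a * δ + b * γ), ← h3, map_mul, map_mul, map_pow,
      hm', ← NDS.norm_lin hF γ δ, ← hN]
    simp only [map_mul, map_intCast]
    ring
  have h5 := NDS.norm_ne hF hlin
  refine ⟨a * γ + d * δ * x, a * δ + b * γ, m * γ, m * δ, ?_, ?_⟩
  · rw [← h4]
    ring
  · rw [← h4]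
    exact mul_ne_zero (mul_ne_zero (pow_ne_zero 3 hmE) hy) h5

end Pool.Agent.PTK


end

section

/-!
# PTK_TAE: additivity of the pairing in the second variable
-/

set_option autoImplicit false

open NumberField IsDedekindDomain Finset
open scoped nonZeroDivisors Pointwise

namespace Pool.Agent.PTK

open Pool.Agent.Lib_helper18 Pool.Agent.Lib_helper18.Eis Pool.Agent.Lib_helper84.Cub
open Pool.Agent.PT Pool.Agent.PTE Pool.Agent.PT3 Pool.Agent.PTL Pool.Agent.PTN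

namespace TAE

/-! ### The algebra -/

/-- the norm form of `x + y T + z T^2`, `T^3 = b` -/
def N3 (b x y z : Eis) : Eis := x ^ 3 + b * y ^ 3 + b ^ 2 * z ^ 3 - 3 * b * x * y * z

theorem N3_mul (b x y z u v t : Eis) :
    N3 b (x * u + b * (y * t + z * v)) (x * v + y * u + b * (z * t)) (x * t + y * v + z * u) =
      N3 b x y z * N3 b u v t := by
  unfold N3
  ring

/-- no zeros of `p^3 + b q^3` when `b` is not a cube -/
theorem ne_of_not_cube {b p q : Eis} (hb : ¬ ∃ c : Eis, c ^ 3 = b) (h : ¬ (p = 0 ∧ q = 0)) :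
    p ^ 3 + b * q ^ 3 ≠ 0 := by
  intro h0
  by_cases hq : q = 0
  · subst hq
    have h1 : p ^ 3 = 0 := by linear_combination h0
    exact h ⟨pow_eq_zero_iff (three_ne_zero) |>.1 h1, rfl⟩
  · obtain ⟨c, hc⟩ := HNE.cube_of (y := -b) (a := p) hq (by linear_combination h0)
    exact hb ⟨-c, by linear_combination -hc⟩

/-- the product of two elements `(p + q T)/(p' + q' T)` has this form again -/
theorem exists_prod (b : Eis) (p₁ q₁ p₁' q₁' p₂ q₂ p₂' q₂' : Eis)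
    (h1 : p₁' ^ 3 + b * q₁' ^ 3 ≠ 0) (h2 : p₂' ^ 3 + b * q₂' ^ 3 ≠ 0) :
    ∃ p q p' q' : Eis, ¬ (p' = 0 ∧ q' = 0) ∧
      (p₁ * p₂ * p' + b * (q₁ * q₂ * q') = p₁' * p₂' * p + b * (q₁' * q₂' * q)) ∧
      ((p₁ * q₂ + q₁ * p₂) * p' + p₁ * p₂ * q' = (p₁' * q₂' + q₁' * p₂') * p + p₁' * p₂' * q) ∧
      (q₁ * q₂ * p' + (p₁ * q₂ + q₁ * p₂) * q' = q₁' * q₂' * p + (p₁' * q₂' + q₁' * p₂') * q) := by
  obtain ⟨e0, he0⟩ : ∃ e0, e0 = p₁ * p₂ := ⟨_, rfl⟩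
  obtain ⟨e1, he1⟩ : ∃ e1, e1 = p₁ * q₂ + q₁ * p₂ := ⟨_, rfl⟩
  obtain ⟨e2, he2⟩ : ∃ e2, e2 = q₁ * q₂ := ⟨_, rfl⟩
  obtain ⟨f0, hf0⟩ : ∃ e0, e0 = p₁' * p₂' := ⟨_, rfl⟩
  obtain ⟨f1, hf1⟩ : ∃ e1, e1 = p₁' * q₂' + q₁' * p₂' := ⟨_, rfl⟩
  obtain ⟨f2, hf2⟩ : ∃ e2, e2 = q₁' * q₂' := ⟨_, rfl⟩
  have hN : N3 b f0 f1 f2 = (p₁' ^ 3 + b * q₁' ^ 3) * (p₂' ^ 3 + b * q₂' ^ 3) := by
    have := N3_mul b p₁' q₁' 0 p₂' q₂' 0
    unfold N3 at this ⊢
    subst hf0 hf1 hf2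
    linear_combination this
  have hN0 : N3 b f0 f1 f2 ≠ 0 := by rw [hN]; exact mul_ne_zero h1 h2
  rw [← he0, ← he1, ← he2, ← hf0, ← hf1, ← hf2]
  obtain ⟨g0, hg0⟩ : ∃ g, g = e0 * (f0 ^ 2 - b * f1 * f2) + b * (e1 * (f1 ^ 2 - f0 * f2) +
      e2 * (b * f2 ^ 2 - f0 * f1)) := ⟨_, rfl⟩
  obtain ⟨g1, hg1⟩ : ∃ g, g = e0 * (b * f2 ^ 2 - f0 * f1) + e1 * (f0 ^ 2 - b * f1 * f2) +
      b * (e2 * (f1 ^ 2 - f0 * f2)) := ⟨_, rfl⟩
  obtain ⟨g2, hg2⟩ : ∃ g, g = e0 * (f1 ^ 2 - f0 * f2) + e1 * (b * f2 ^ 2 - f0 * f1) +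
      e2 * (f0 ^ 2 - b * f1 * f2) := ⟨_, rfl⟩
  -- g * f = N e
  have k0 : g0 * f0 + b * (g1 * f2 + g2 * f1) = N3 b f0 f1 f2 * e0 := by
    unfold N3; subst hg0 hg1 hg2; ring
  have k1 : g0 * f1 + g1 * f0 + b * (g2 * f2) = N3 b f0 f1 f2 * e1 := by
    unfold N3; subst hg0 hg1 hg2; ring
  have k2 : g0 * f2 + g1 * f1 + g2 * f0 = N3 b f0 f1 f2 * e2 := by
    unfold N3; subst hg0 hg1 hg2; ring
  by_cases hg : g1 = 0 ∧ g2 = 0
  · obtain ⟨hg1', hg2'⟩ := hg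
    refine ⟨g0, 0, N3 b f0 f1 f2, 0, fun h => hN0 h.1, ?_, ?_, ?_⟩
    · rw [hg1', hg2'] at k0; linear_combination -k0
    · rw [hg1', hg2'] at k1; linear_combination -k1
    · rw [hg1', hg2'] at k2; linear_combination -k2
  · refine ⟨g0 * g1 - b * g2 ^ 2, g1 ^ 2 - g0 * g2, N3 b f0 f1 f2 * g1, - (N3 b f0 f1 f2 * g2),
      fun h => hg ⟨(mul_eq_zero.1 h.1).resolve_left hN0,
        (mul_eq_zero.1 (neg_eq_zero.1 h.2)).resolve_left hN0⟩, ?_, ?_, ?_⟩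
    · linear_combination (-g1) * k0 + b * g2 * k2
    · linear_combination (-g1) * k1 + g2 * k0
    · linear_combination (-g1) * k2 + g2 * k1

/-- the norm of the product -/
theorem norm_prod {b p₁ q₁ p₁' q₁' p₂ q₂ p₂' q₂' p q p' q' : Eis}
    (h : PRelE b p₁ q₁ p₁' q₁' p₂ q₂ p₂' q₂' p q p' q') :
    (p₁ ^ 3 + b * q₁ ^ 3) * (p₂ ^ 3 + b * q₂ ^ 3) * (p' ^ 3 + b * q' ^ 3) =
      (p₁' ^ 3 + b * q₁' ^ 3) * (p₂' ^ 3 + b * q₂' ^ 3) * (p ^ 3 + b * q ^ 3) := by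
  have h1 := N3_mul b p₁ q₁ 0 p₂ q₂ 0
  have h2 := N3_mul b p₁' q₁' 0 p₂' q₂' 0
  have h3 := N3_mul b (p₁ * p₂) (p₁ * q₂ + q₁ * p₂) (q₁ * q₂) p' q' 0
  have h4 := N3_mul b (p₁' * p₂') (p₁' * q₂' + q₁' * p₂') (q₁' * q₂') p q 0
  have h5 : N3 b (p₁ * p₂ * p' + b * ((p₁ * q₂ + q₁ * p₂) * 0 + q₁ * q₂ * q'))
      (p₁ * p₂ * q' + (p₁ * q₂ + q₁ * p₂) * p' + b * (q₁ * q₂ * 0))
      (p₁ * p₂ * 0 + (p₁ * q₂ + q₁ * p₂) * q' + q₁ * q₂ * p') =
    N3 b (p₁' * p₂' * p + b * ((p₁' * q₂' + q₁' * p₂') * 0 + q₁' * q₂' * q))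
      (p₁' * p₂' * q + (p₁' * q₂' + q₁' * p₂') * p + b * (q₁' * q₂' * 0))
      (p₁' * p₂' * 0 + (p₁' * q₂' + q₁' * p₂') * q + q₁' * q₂' * p) := by
    congr 1
    · linear_combination h.e0
    · linear_combination h.e1
    · linear_combination h.e2
  rw [h3, h4] at h5
  have g1 : N3 b (p₁ * p₂) (p₁ * q₂ + q₁ * p₂) (q₁ * q₂) =
      (p₁ ^ 3 + b * q₁ ^ 3) * (p₂ ^ 3 + b * q₂ ^ 3) := by
    unfold N3 at h1 ⊢
    linear_combination h1
  have g2 : N3 b (p₁' * p₂') (p₁' * q₂' + q₁' * p₂') (q₁' * q₂') =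
      (p₁' ^ 3 + b * q₁' ^ 3) * (p₂' ^ 3 + b * q₂' ^ 3) := by
    unfold N3 at h2 ⊢
    linear_combination h2
  have g3 : N3 b p' q' 0 = p' ^ 3 + b * q' ^ 3 := by unfold N3; ring
  have g4 : N3 b p q 0 = p ^ 3 + b * q ^ 3 := by unfold N3; ring
  rw [g1, g2, g3, g4] at h5
  exact h5

/-! ### The linear forms -/

theorem LfE_ndvd {u b p q r : Eis} (hr : u ∣ r ^ 3 - b) (h : ¬ u ∣ p ^ 3 + b * q ^ 3) (i : ℕ) :
    ¬ u ∣ LfE p q i r := by
  intro hd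
  apply h
  have h3 : (w ^ i) ^ 3 = 1 := by rw [← pow_mul, mul_comm, pow_mul, w_cube, one_pow]
  have h1 : p ^ 3 + b * q ^ 3 =
      LfE p q i r * (p ^ 2 - p * (q * w ^ i * r) + (q * w ^ i * r) ^ 2) -
        q ^ 3 * (r ^ 3 - b) := by
    unfold LfE
    linear_combination (- q ^ 3 * r ^ 3) * h3
  rw [h1]
  exact dvd_sub (dvd_mul_of_dvd_left hd _) (dvd_mul_of_dvd_right hr _)

/-- the linear forms are nonzero with bounded valuation at good approximations -/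
theorem LfE_bound {π : Eis} (hπ : Prime π) {b p q r : Eis} {N : ℕ}
    (hn : p ^ 3 + b * q ^ 3 ≠ 0) (hr : π ^ N ∣ r ^ 3 - b)
    (hN : V π (p ^ 3 + b * q ^ 3) < N) (i : ℕ) :
    LfE p q i r ≠ 0 ∧ V π (LfE p q i r) ≤ V π (p ^ 3 + b * q ^ 3) := by
  have hnd : ¬ π ^ (V π (p ^ 3 + b * q ^ 3) + 1) ∣ LfE p q i r := by
    refine LfE_ndvd ((pow_dvd_pow π (by omega)).trans hr) ?_ i
    exact (fin hπ hn).not_pow_dvd_of_multiplicity_lt (Nat.lt_succ_self _)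
  have h0 : LfE p q i r ≠ 0 := by
    intro h
    rw [h] at hnd
    exact hnd (dvd_zero _)
  refine ⟨h0, ?_⟩
  by_contra hlt
  push Not at hlt
  apply hnd
  exact pow_dvd_of_le_multiplicity hlt

/-- evaluation of the identity at `w^i r` -/
theorem LfE_ident {b p₁ q₁ p₁' q₁' p₂ q₂ p₂' q₂' p q p' q' : Eis}
    (h : PRelE b p₁ q₁ p₁' q₁' p₂ q₂ p₂' q₂' p q p' q') (i : ℕ) (r : Eis) :
    LfE p₁ q₁ i r * LfE p₂ q₂ i r * LfE p' q' i r -
      LfE p₁' q₁' i r * LfE p₂' q₂' i r * LfE p q i r =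
      (r ^ 3 - b) * (q₁ * q₂ * q' - q₁' * q₂' * q) := by
  have h3 : (w ^ i) ^ 3 = 1 := by rw [← pow_mul, mul_comm, pow_mul, w_cube, one_pow]
  have e0' := h.e0
  have e1' := h.e1
  have e2' := h.e2
  unfold LfE
  generalize w ^ i = W at *
  linear_combination e0' + W * r * e1' + W ^ 2 * r ^ 2 * e2' +
    (q₁ * q₂ * q' - q₁' * q₂' * q) * r ^ 3 * h3

/-- additivity of `ASE` at good approximations -/
theorem ASE_add {π : Eis} {s : Eis → Eis → ZMod 3} {e : ℕ} (hs : LSym π s e)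
    {B b p₁ q₁ p₁' q₁' p₂ q₂ p₂' q₂' p q p' q' : Eis} (hB : B ≠ 0)
    (n₁ : p₁ ^ 3 + b * q₁ ^ 3 ≠ 0) (n₂ : p₂ ^ 3 + b * q₂ ^ 3 ≠ 0)
    (n₃ : p' ^ 3 + b * q' ^ 3 ≠ 0) (m₁ : p₁' ^ 3 + b * q₁' ^ 3 ≠ 0)
    (m₂ : p₂' ^ 3 + b * q₂' ^ 3 ≠ 0) (m₃ : p ^ 3 + b * q ^ 3 ≠ 0)
    (h : PRelE b p₁ q₁ p₁' q₁' p₂ q₂ p₂' q₂' p q p' q') :
    ∃ N0 : ℕ, ∀ r : Eis, π ^ N0 ∣ r ^ 3 - b →
      ASE s B p q p' q' r = ASE s B p₁ q₁ p₁' q₁' r + ASE s B p₂ q₂ p₂' q₂' r := by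
  refine ⟨V π (p₁ ^ 3 + b * q₁ ^ 3) + V π (p₂ ^ 3 + b * q₂ ^ 3) +
    V π (p' ^ 3 + b * q' ^ 3) + V π (p₁' ^ 3 + b * q₁' ^ 3) +
    V π (p₂' ^ 3 + b * q₂' ^ 3) + V π (p ^ 3 + b * q ^ 3) + e + 1, fun r hr => ?_⟩
  have key : ∀ i : ℕ,
      s B (LfE p₁ q₁ i r) + s B (LfE p₂ q₂ i r) + s B (LfE p' q' i r) =
        s B (LfE p₁' q₁' i r) + s B (LfE p₂' q₂' i r) + s B (LfE p q i r) := by
    intro i
    have a1 := LfE_bound hs.prime n₁ hr (by omega) i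
    have a2 := LfE_bound hs.prime n₂ hr (by omega) i
    have a3 := LfE_bound hs.prime n₃ hr (by omega) i
    have b1 := LfE_bound hs.prime m₁ hr (by omega) i
    have b2 := LfE_bound hs.prime m₂ hr (by omega) i
    have b3 := LfE_bound hs.prime m₃ hr (by omega) i
    refine Pool.Agent.PT.TADD.step_i hs hB a1.1 a2.1 a3.1 b1.1 b2.1 b3.1 ?_ hr (LfE_ident h i r)
    have h1 := b1.2
    have h2 := b2.2
    have h3 := b3.2
    omega
  have k1 := key 1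
  have k2 := key 2
  unfold ASE
  linear_combination k1 - k2

/-! ### The local terms -/

lemma w_ne : w ≠ 0 := by
  intro h
  have h2 := congrArg Eis.im h
  simp at h2

/-- the denominators -/
theorem SolWE.den {b x p q p' q' : Eis} (h : SolWE b x p q p' q') : p' ^ 3 + b * q' ^ 3 ≠ 0 := by
  intro h1
  apply h.n1
  rw [h.eq, h1, mul_zero]

/-- additivity of `AVE` -/
theorem AVE_add (hAVE : Stmt_AVE) {v : Pl} {e : ℕ} (hs : LSym (uni v) (sy v) e)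
    {B b x₁ x₂ p₁ q₁ p₁' q₁' p₂ q₂ p₂' q₂' p q p' q' : Eis} (hB : B ≠ 0) (hb : b ≠ 0)
    (hx₁ : x₁ ≠ 0) (hx₂ : x₂ ≠ 0) (h₁ : sy v B x₁ = 0) (h₂ : sy v B x₂ = 0)
    (S₁ : SolWE b x₁ p₁ q₁ p₁' q₁') (S₂ : SolWE b x₂ p₂ q₂ p₂' q₂')
    (S : SolWE b (x₁ * x₂) p q p' q') (hR : PRelE b p₁ q₁ p₁' q₁' p₂ q₂ p₂' q₂' p q p' q')
    (hL : LCE (uni v) b) :
    AVE v B b p q p' q' = AVE v B b p₁ q₁ p₁' q₁' + AVE v B b p₂ q₂ p₂' q₂' := by
  have h12 : sy v B (x₁ * x₂) = 0 := by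
    rw [Pool.Agent.PT.TADD.LSym.right_mul hs hB hx₁ hx₂, h₁, h₂, add_zero]
  obtain ⟨⟨N₁, hN₁⟩, -⟩ := hAVE v B b x₁ p₁ q₁ p₁' q₁' hB hb hx₁ S₁ h₁ hL
  obtain ⟨⟨N₂, hN₂⟩, -⟩ := hAVE v B b x₂ p₂ q₂ p₂' q₂' hB hb hx₂ S₂ h₂ hL
  obtain ⟨-, huniq⟩ := hAVE v B b (x₁ * x₂) p q p' q' hB hb (mul_ne_zero hx₁ hx₂) S h12 hL
  obtain ⟨N₃, hN₃⟩ := ASE_add hs hB S₁.n1 S₂.n1 (SolWE.den S) (SolWE.den S₁) (SolWE.den S₂)
    S.n1 hR
  refine huniq _ (max N₁ (max N₂ N₃)) (fun r hr => ?_)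
  rw [hN₃ r ((pow_dvd_pow _ (by omega)).trans hr),
    hN₁ r ((pow_dvd_pow _ (by omega)).trans hr),
    hN₂ r ((pow_dvd_pow _ (by omega)).trans hr)]

/-- the solution with exchanged base and norm -/
theorem SolE.swap {b x p q p' q' : Eis} (h : SolE b x p q p' q') :
    SolWE x b p (-p') (-q) q' where
  eq := by linear_combination h.eq
  n1 := by
    intro h1
    apply h.n2
    linear_combination h1

/-- the local term at `λ` when `B` is a local cube and `b` is not -/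
theorem LTE_cube (hAVE : Stmt_AVE) (hLCI : Stmt_LCI) (hSLC : SLC) {B b x p q p' q' : Eis}
    (hB : B ≠ 0) (hb : b ≠ 0) (hx : x ≠ 0) (hLB : LCE lam B) (hLb : ¬ LCE lam b)
    (S : SolE b x p q p' q') : LTE B b x p q p' q' = lfE b x := by
  have hz : ∀ a c : Eis, LCE lam a → a ≠ 0 → c ≠ 0 → sl a c = 0 :=
    fun a c h ha hc => hLCI.2.2 lam sl 4 a c hSLC h ha hc
  have hw0 : w ≠ 0 := w_ne
  unfold LTE
  rw [if_neg hLb]
  split_ifs with hLx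
  · have h4 : (4 : Eis) ≠ 0 := by
      intro h
      have := congrArg Eis.re h
      revert this
      decide
    have h3 : (3 : Eis) ≠ 0 := by
      intro h
      have := congrArg Eis.re h
      revert this
      decide
    have hA : AVE none B x p (-p') (-q) q' = 0 := by
      have hS' := SolE.swap S
      obtain ⟨-, huniq⟩ := hAVE none B x b p (-p') (-q) q' hB hx hb hS' (hz B b hLB hB hb) hLx
      refine huniq 0 (V lam (p ^ 3 + x * (-p') ^ 3) + V lam ((-q) ^ 3 + x * q' ^ 3) + 1)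
        (fun r hr => ?_)
      have hr' : lam ^ (V lam (p ^ 3 + x * (-p') ^ 3) + V lam ((-q) ^ 3 + x * q' ^ 3) + 1) ∣
        r ^ 3 - x := hr
      have a : ∀ i, LfE p (-p') i r ≠ 0 := fun i =>
        (LfE_bound hSLC.prime hS'.n1 hr' (by omega) i).1
      have a' : ∀ i, LfE (-q) q' i r ≠ 0 := fun i =>
        (LfE_bound hSLC.prime (SolWE.den hS') hr' (by omega) i).1
      unfold ASE
      show sl B (LfE p (-p') 2 r) + sl B (LfE (-q) q' 1 r) - sl B (LfE p (-p') 1 r) -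
        sl B (LfE (-q) q' 2 r) = 0
      rw [hz B _ hLB hB (a 2), hz B _ hLB hB (a' 1), hz B _ hLB hB (a 1), hz B _ hLB hB (a' 2)]
      ring
    have hU : UVE sl B b x p q p' q' = sl w b := by
      unfold UVE
      rw [hz B _ hLB hB S.g1, hz B _ hLB hB S.g2,
        Pool.Agent.PT.TADD.LSym.right_mul hSLC hw0 (mul_ne_zero hB hx) hb,
        Pool.Agent.PT.TADD.LSym.right_mul hSLC hw0 hB hx,
        hSLC.skew B w hB hw0, hz B w hLB hB hw0, hSLC.skew x w hx hw0, hz x w hLx hx hw0]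
      ring
    rw [hA, hU]
    unfold lfE
    rw [hz x 3 hLx hx h3, hz x 4 hLx hx h4]
    ring
  · rfl

end TAE

open _root_.Pool.Agent.PTK.TAE in
/-- PTK_TAE: additivity of the pairing. -/
theorem TAE_thm (hAVE : Stmt_AVE) (hLFE : Stmt_LFE) (hRAE : Stmt_RAE) (hLCI : Stmt_LCI)
    (hSTM : STM) (hSPP : SPP) (hSLC : SLC) : Stmt_TAE := by
  have hv : ∀ v : Pl, ∃ e, LSym (uni v) (sy v) e := by
    intro v
    rcases v with _ | π
    · exact ⟨4, hSLC⟩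
    · exact ⟨1, hSTM π.1 π.2.1 (hSPP.2.2.2.1 π).1⟩
  have hw0 : w ≠ 0 := TAE.w_ne
  have hslz : ∀ (B x : Eis), AGE B x → sl x B = 0 := by
    intro B x hx
    unfold sl
    rw [finsum_eq_zero_of_forall_eq_zero fun π : PP => hx.sym π, neg_zero]
  have hsy : ∀ (B x : Eis), B ≠ 0 → AGE B x → ∀ v : Pl, sy v B x = 0 := by
    intro B x hB0 hx v
    rcases v with _ | π
    · change sl B x = 0
      rw [hSLC.skew x B hx.ne hB0, hslz B x hx, neg_zero]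
    · change tm π.1 B x = 0
      rw [(hSTM π.1 π.2.1 (hSPP.2.2.2.1 π).1).skew x B hx.ne hB0, hx.sym π, neg_zero]
  intro b x₁ x₂ p₁ q₁ p₁' q₁' p₂ q₂ p₂' q₂' hb hx12 hb0 hx₁ hx₂ Mb _ _ T₁ T₂
  have S₁ := T₁.toSolWE
  have S₂ := T₂.toSolWE
  obtain ⟨p, q, p', q', hne, e0, e1, e2⟩ := exists_prod b p₁ q₁ p₁' q₁' p₂ q₂ p₂' q₂'
    (TAE.SolWE.den S₁) (TAE.SolWE.den S₂)
  have hR : PRelE b p₁ q₁ p₁' q₁' p₂ q₂ p₂' q₂' p q p' q' := ⟨e0, e1, e2⟩
  have d' : p' ^ 3 + b * q' ^ 3 ≠ 0 := ne_of_not_cube hb hne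
  have hS : SolWE b (x₁ * x₂) p q p' q' := by
    have heq : p ^ 3 + b * q ^ 3 = x₁ * x₂ * (p' ^ 3 + b * q' ^ 3) := by
      apply mul_left_cancel₀ (mul_ne_zero (TAE.SolWE.den S₁) (TAE.SolWE.den S₂))
      rw [← norm_prod hR, S₁.eq, S₂.eq]
      ring
    refine ⟨heq, ?_⟩
    rw [heq]
    exact mul_ne_zero (mul_ne_zero hx₁ hx₂) d'
  have hT : SolE b (x₁ * x₂) p q p' q' := HNE.sol hb0 hx12 hS
  refine ⟨p, q, p', q', hT, ?_⟩
  intro B hB hAb hA₁ hA₂ hcase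
  have hB0 : (B : Eis) ≠ 0 := hB.ne
  have hx120 : x₁ * x₂ ≠ 0 := mul_ne_zero hx₁ hx₂
  -- the tame places
  have htame : ∀ π : PP, TTE π B b (x₁ * x₂) p q p' q' =
      TTE π B b x₁ p₁ q₁ p₁' q₁' + TTE π B b x₂ p₂ q₂ p₂' q₂' := by
    intro π
    have hs : LSym π.1 (tm π.1) 1 := hSTM π.1 π.2.1 (hSPP.2.2.2.1 π).1
    have htw : tm π.1 w (x₁ * x₂) = tm π.1 w x₁ + tm π.1 w x₂ :=
      Pool.Agent.PT.TADD.LSym.right_mul hs hw0 hx₁ hx₂
    unfold TTE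
    by_cases hL : LCE π.1 b
    · rw [if_pos hL, if_pos hL, if_pos hL, htw,
        AVE_add hAVE (v := some π) hs hB0 hb0 hx₁ hx₂ (hsy B x₁ hB0 hA₁ _) (hsy B x₂ hB0 hA₂ _)
          S₁ S₂ hS hR hL]
      ring
    · rw [if_neg hL, if_neg hL, if_neg hL, htw]
      split_ifs <;> ring
  have hfin : ∑ᶠ π : PP, TTE π B b (x₁ * x₂) p q p' q' =
      ∑ᶠ π : PP, TTE π B b x₁ p₁ q₁ p₁' q₁' + ∑ᶠ π : PP, TTE π B b x₂ p₂ q₂ p₂' q₂' := by
    rw [← finsum_add_distrib (hLFE.1 B b x₁ p₁ q₁ p₁' q₁' hB hAb hA₁ S₁)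
      (hLFE.1 B b x₂ p₂ q₂ p₂' q₂' hB hAb hA₂ S₂)]
    exact finsum_congr htame
  -- the place above `3`
  have hlam : LTE B b (x₁ * x₂) p q p' q' =
      LTE B b x₁ p₁ q₁ p₁' q₁' + LTE B b x₂ p₂ q₂ p₂' q₂' := by
    by_cases hLb : LCE lam b
    · unfold LTE
      rw [if_pos hLb, if_pos hLb, if_pos hLb,
        Pool.Agent.PT.TADD.LSym.right_mul hSLC hw0 hx₁ hx₂,
        AVE_add hAVE (v := none) hSLC hB0 hb0 hx₁ hx₂ (hsy B x₁ hB0 hA₁ _)
          (hsy B x₂ hB0 hA₂ _) S₁ S₂ hS hR hLb]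
      ring
    · by_cases hLB : LCE lam (B : Eis)
      · rw [LTE_cube hAVE hLCI hSLC hB0 hb0 hx120 hLB hLb hT,
          LTE_cube hAVE hLCI hSLC hB0 hb0 hx₁ hLB hLb T₁,
          LTE_cube hAVE hLCI hSLC hB0 hb0 hx₂ hLB hLb T₂]
        have h4 : (4 : Eis) ≠ 0 := by
          intro h
          have := congrArg Eis.re h
          revert this
          decide
        have h3 : (3 : Eis) ≠ 0 := by
          intro h
          have := congrArg Eis.re h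
          revert this
          decide
        unfold lfE
        rw [hSLC.mul x₁ x₂ 3 hx₁ hx₂ h3, hSLC.mul x₁ x₂ 4 hx₁ hx₂ h4]
        ring
      · obtain ⟨hL₁, hL₂⟩ := (hcase.resolve_left hLb).resolve_left hLB
        have hBz : B ≠ 0 := by
          rintro rfl
          exact hB0 (by simp)
        exact hRAE B b x₁ x₂ p₁ q₁ p₁' q₁' p₂ q₂ p₂' q₂' p q p' q' hBz hb0 Mb
          (hslz B b hAb) hLb hx₁ hx₂ hL₁ hL₂ T₁ T₂ hT hR
  unfold OZE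
  rw [hlam, hfin]
  ring

end Pool.Agent.PTK


end
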