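import Mathlib
import Pool.Agent.PTDM.C31
import Pool.Agent.PTKW.C01
import Pool.Agent.PTKW.C02

/-! Parts: PTKX.CNM, PTKX.JDZ, PTKX.NCN, PTKX.NHN -/

section

/-!
# PTK_CNM: the pairs and the law

`Prs α β` says that `r ↦ (α r, β r)` is an enumeration of the pairs `i < j` of `Fin l`; such an enumeration exists, since
the set of these pairs is finite. For `i < j` only the index `r` with `(α r, β r) = (i, j)` contributes to
`altZ α β M i j`, which is therefore `M r`, and `altZ α β M j i = - M r`, `altZ α β M i i = 0`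
(no `r` has `α r = β r`). A matrix with `A i j = - A j i` over the field with three elements has zero diagonal, and is
determined by its entries above the diagonal, so `M ↦ altZ α β M` is a bijection of `Fin N → ZMod 3` onto the matrices
with `Aᵀ = - A`; the number of these is `3 ^ N`, and the average over them is the average over the `M`.
-/

set_option autoImplicit false

open NumberField IsDedekindDomain Finset
open scoped nonZeroDivisors Pointwise

namespace Pool.Agent.PTK

open Pool.Agent.Lib_helper18 Pool.Agent.Lib_helper18.Eis Pool.Agent.Lib_helper84.Cub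
open Pool.Agent.PT Pool.Agent.PTE Pool.Agent.PT3 Pool.Agent.PTL Pool.Agent.PTN

namespace CNM

variable {l N : ℕ} {α β : Fin N → Fin l}

/-- the entries of the matrix at an enumerated pair -/
theorem altZ_pos (h : Prs α β) (M : Fin N → ZMod 3) (r : Fin N) :
    altZ α β M (α r) (β r) = M r := by
  classical
  unfold altZ
  have h1 : (∑ s, if α s = α r ∧ β s = β r then M s else 0) = M r := by
    rw [Finset.sum_eq_single r]
    · simp
    · intro s _ hs
      rw [if_neg]
      rintro ⟨h1, h2⟩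
      exact hs (h.inj s r h1 h2)
    · intro hr
      exact absurd (Finset.mem_univ r) hr
  have h2 : (∑ s, if α s = β r ∧ β s = α r then M s else 0) = 0 := by
    apply Finset.sum_eq_zero
    intro s _
    rw [if_neg]
    rintro ⟨h1, h2⟩
    have h3 := h.lt s
    have h4 := h.lt r
    rw [h1, h2] at h3
    exact lt_asymm h3 h4
  rw [h1, h2, sub_zero]

/-- the matrix is antisymmetric -/
theorem altZ_anti (M : Fin N → ZMod 3) (i j : Fin l) : altZ α β M i j = - altZ α β M j i := by
  unfold altZ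
  ring

/-- the diagonal of an antisymmetric matrix over the field with three elements is zero -/
theorem zero_of_neg {a : ZMod 3} (h : a = -a) : a = 0 := by
  revert h
  revert a
  decide

/-- an antisymmetric matrix is determined by its entries at the enumerated pairs -/
theorem altZ_of (h : Prs α β) (A : Matrix (Fin l) (Fin l) (ZMod 3))
    (hA : ∀ i j, A i j = - A j i) : altZ α β (fun r => A (α r) (β r)) = A := by
  ext i j
  rcases lt_trichotomy i j with hij | hij | hij
  · obtain ⟨r, h1, h2⟩ := h.sur i j hij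
    have h3 := altZ_pos h (fun r => A (α r) (β r)) r
    rw [h1, h2] at h3
    exact h3
  · subst hij
    rw [zero_of_neg (altZ_anti _ i i), zero_of_neg (hA i i)]
  · obtain ⟨r, h1, h2⟩ := h.sur j i hij
    have h3 := altZ_pos h (fun r => A (α r) (β r)) r
    rw [h1, h2] at h3
    rw [altZ_anti, h3, ← hA i j]

/-- the bijection of the entries and the antisymmetric matrices -/
noncomputable def eqz (h : Prs α β) :
    (Fin N → ZMod 3) ≃ {M : Matrix (Fin l) (Fin l) (ZMod 3) // M.transpose = -M} where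
  toFun M := ⟨altZ α β M, by
    ext i j
    rw [Matrix.transpose_apply, Matrix.neg_apply, altZ_anti]⟩
  invFun A := fun r => A.1 (α r) (β r)
  left_inv M := by
    funext r
    exact altZ_pos h M r
  right_inv A := by
    apply Subtype.ext
    apply altZ_of h A.1
    intro i j
    have h1 := congrFun (congrFun A.2 j) i
    rw [Matrix.transpose_apply, Matrix.neg_apply] at h1
    exact h1

/-- an enumeration of the pairs exists -/
theorem exPrs (l : ℕ) : ∃ (N : ℕ) (α β : Fin N → Fin l), Prs α β := by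
  classical
  obtain ⟨N, ⟨e⟩⟩ := Finite.exists_equiv_fin {p : Fin l × Fin l // p.1 < p.2}
  refine ⟨N, fun r => (e.symm r).1.1, fun r => (e.symm r).1.2, ?_, ?_, ?_⟩
  · intro r
    exact (e.symm r).2
  · intro r r' h1 h2
    exact e.symm.injective (Subtype.ext (Prod.ext h1 h2))
  · intro i j hij
    refine ⟨e ⟨(i, j), hij⟩, ?_, ?_⟩ <;> simp

end CNM

/-- PTK_CNM. -/
theorem CNM_thm : Stmt_CNM := by
  refine ⟨CNM.exPrs, ?_⟩
  intro l N α β h
  refine ⟨fun A hA => CNM.altZ_of h A hA, ?_⟩
  intro g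
  unfold Esk
  have h1 : (∑ᶠ M : {M : Matrix (Fin l) (Fin l) (ZMod 3) // M.transpose = -M},
      g (l - M.1.rank)) = ∑ M : Fin N → ZMod 3, g (l - (altZ α β M).rank) := by
    rw [← finsum_comp_equiv (CNM.eqz h), finsum_eq_sum_of_fintype]
    rfl
  have h2 : Nat.card {M : Matrix (Fin l) (Fin l) (ZMod 3) // M.transpose = -M} = 3 ^ N := by
    rw [← Nat.card_congr (CNM.eqz h), Nat.card_eq_fintype_card]
    simp
  rw [h1, h2]
  push_cast
  rfl

end Pool.Agent.PTK


end

section

/-!
# PTK_JDZ: joint averages, `q = 1 (mod 3)`, zero pattern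
-/

set_option autoImplicit false

open NumberField IsDedekindDomain Finset
open scoped nonZeroDivisors Pointwise

namespace Pool.Agent.PTK

open Pool.Agent.Lib_helper18 Pool.Agent.Lib_helper18.Eis Pool.Agent.Lib_helper84.Cub
open Pool.Agent.PT Pool.Agent.PTE Pool.Agent.PT3 Pool.Agent.PTL Pool.Agent.PTN

theorem JDZ_thm (hUPS : Stmt_UPS) (hKUM : Stmt_KUM) (hMDZ : Stmt_MDZ) (hZKQ : Stmt_ZKQ)
    (hCNM : Stmt_CNM) : Stmt_JDZ := by
  classical
  intro h n m k π p e r f w0 c s τ b X Y P Q P' Q' hNF hh hS l N y U R U' R' α β hMn F hF hF0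
  have hFn : ∀ a d, 0 ≤ F a d := fun a d => (hF0 a).trans (hF a (Nat.zero_le d))
  obtain ⟨N₀, hN₀⟩ := hZKQ h n m k π p e r f w0 c hNF hh l y U R U' R' hMn.bas hMn.sys
  obtain ⟨hC1, hC2⟩ := hCNM.2 l N α β hMn.prs
  have h1 := hUPS.1 (Fin N → ZMod 3) (fun E => {q | q % 3 = 1 ∧ InCT E π w0 c q ∧ q ∈ ZP b})
    (fun E q => F (kY h n π e y U R U' R' E q) (kS h n b X Y P Q P' Q' E q))
    (fun M E => {q | q ∈ QMM h n π e w0 c y U R U' R' α β M 1 E ∧ q ∈ ZP b})
    (fun M E q => F (l - (altZ α β M).rank) (kS h n b X Y P Q P' Q' E q))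
    (fun M => Esk s (F (l - (altZ α β M).rank)) * (1 / 3 ^ s / 3 ^ N / 3 ^ (m + 1)))
    1 N₀ one_pos (fun M E q => hFn _ _) ?_ ?_
  · have e1 : (∑ M : Fin N → ZMod 3, Esk s (F (l - (altZ α β M).rank)) *
        (1 / 3 ^ s / 3 ^ N / 3 ^ (m + 1))) / 1 =
        Esk l (fun a => Esk s (F a)) * (1 / 3 ^ s / 3 ^ (m + 1)) := by
      rw [← Finset.sum_mul, ← hC2 (fun a => Esk s (F a))]
      field_simp
    rw [e1] at h1
    exact h1
  · intro E q hE hq hqN hqS
    obtain ⟨q1, q2, q3⟩ := hqS
    obtain ⟨hA, -⟩ := hN₀ E q hE hq hqN (Or.inl q1) q2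
    have hM := hC1 (MY h n π e y U R U' R' E q) hA
    have hmem : q ∈ ({q | q ∈ QMM h n π e w0 c y U R U' R' α β
        (fun r => MY h n π e y U R U' R' E q (α r) (β r)) 1 E ∧ q ∈ ZP b} : Set ℕ) :=
      ⟨⟨q1, q2, fun r => rfl⟩, q3⟩
    rw [one_mul]
    refine le_trans ?_ (Finset.single_le_sum (fun M _ => ?_)
      (Finset.mem_univ (fun r => MY h n π e y U R U' R' E q (α r) (β r))))
    · split_ifs with hc
      · have e2 : (l - (altZ α β fun r => MY h n π e y U R U' R' E q (α r) (β r)).rank) =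
            kY h n π e y U R U' R' E q := by
          rw [hM]
          rfl
        exact le_of_eq (congrArg (fun x => F x (kS h n b X Y P Q P' Q' E q)) e2.symm)
      · exact absurd hmem hc
    · split_ifs
      · exact hFn _ _
      · exact le_rfl
  · intro M
    refine hKUM (fun E => {q | q ∈ QMM h n π e w0 c y U R U' R' α β M 1 E ∧ q ∈ ZP b})
      (fun E q => kS h n b X Y P Q P' Q' E q) s 0 (1 / 3 ^ s / 3 ^ N / 3 ^ (m + 1))
      (by positivity) (fun E q _ _ _ _ => Nat.sub_le _ _) ?_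
      (F (l - (altZ α β M).rank)) (hF _) (hF0 _)
    intro t
    exact hMDZ h n m k π p e r f w0 c s τ b X Y P Q P' Q' hNF hh hS l N y U R U' R' α β hMn M t

end Pool.Agent.PTK


end

section

/-!
# PTK_NCN: the number of primes above a place
-/

set_option autoImplicit false

open NumberField IsDedekindDomain Finset
open scoped nonZeroDivisors Pointwise

namespace Pool.Agent.PTK

open Pool.Agent.Lib_helper18 Pool.Agent.Lib_helper18.Eis Pool.Agent.Lib_helper84.Cub
open Pool.Agent.PT

namespace NCN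

open Pool.Agent.PT.NCNT

/-- The end of the argument. -/
theorem local_cube (hLCI : Stmt_LCI) {x : Eis} (hx : x ≠ 0) (h3 : ¬ lam ∣ x) (v : Pl) {a b : Eis}
    (hu : Prime (uni v)) (hb : b ≠ 0)
    (h : uni v ^ (3 * V (uni v) b + V (uni v) x + 4) ∣ x * b ^ 3 - a ^ 3) :
    LCE (uni v) x := by
  obtain ⟨x1, a1, b1, hx1, hV, hux, hua, hub, hd⟩ := reduce hu hx hb h
  cases v with
  | some π =>
    have hπ3 : ¬ π.1 ∣ 3 := by
      intro h
      have h2 := (dvd_three_iff π.2.1).mp h
      have h4 : lam ∣ π.1 := h2.symm.dvd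
      rw [lam_dvd_iff] at h4
      obtain ⟨-, h5, h6⟩ := π.2
      omega
    change LCE π.1 x
    change Prime π.1 at hu
    rw [hLCI.1 π x hx]
    refine ⟨hV, ?_⟩
    have hup : up π.1 x = x1 := by
      unfold up
      conv_lhs => rw [hx1]
      have hne : π.1 ^ V π.1 x ≠ 0 := pow_ne_zero _ hu.ne_zero
      change (π.1 ^ V π.1 x * x1) / π.1 ^ V π.1 (π.1 ^ V π.1 x * x1) = x1
      have hVV : V π.1 (π.1 ^ V π.1 x * x1) = V π.1 x := by
        conv_rhs => rw [show x = π.1 ^ V π.1 x * x1 from hx1]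
      rw [hVV]
      exact mul_div_cancel_left₀ x1 hne
    unfold ch
    rw [hup]
    have hd1 : π.1 ∣ x1 * b1 ^ 3 - a1 ^ 3 :=
      (dvd_pow_self π.1 (by norm_num)).trans hd
    have h1 := sym_congr hd1
    have hb3 : ¬ π.1 ∣ b1 ^ 3 := fun h => hub (hu.dvd_of_dvd_pow h)
    rw [sym_mul hu hπ3 hux hb3, sym_pow hu hπ3 hub, sym_pow hu hπ3 hua] at h1
    have h30 : (3 : ZMod 3) = 0 := by decide
    push_cast at h1
    rw [h30] at h1
    simpa using h1
  | none =>
    change LCE lam x
    change Prime lam at hu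
    have hV0 : V lam x = 0 := V_eq_zero h3
    have hx1' : x = x1 := by
      have h1 : x = lam ^ V lam x * x1 := hx1
      rw [hV0, pow_zero, one_mul] at h1
      exact h1
    rw [← hx1'] at hd
    exact hLCI.2.1 x a1 b1 hua hub hd

/-! ### Valuations of `L` -/

variable {L : Type} [Field L] [NumberField L]

variable {x : Eis} {ι : Eis →+* L} {θ : L} {σ : L ≃ₐ[ℚ] L}

/-- If `x` is a local cube, `σ` does not fix a prime above `v`. -/
theorem no_fix (h : CubE x L ι θ σ) (hx : x ≠ 0) {v : Pl} {P : HeightOneSpectrum (𝓞 L)}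
    (hle : ∀ a : Eis, P.valuation L (ι a) ≤ 1) (hP : P.valuation L (ι (uni v)) < 1)
    (hfix : ∀ z : L, P.valuation L (σ z) = P.valuation L z) (hLC : LCE (uni v) x) : False := by
  have hc0 : (w - 1) ^ 3 * x ≠ 0 :=
    mul_ne_zero (pow_ne_zero _ (by decide)) (hx)
  have hγ : P.valuation L (ι ((w - 1) ^ 3 * x)) ≠ 0 := by
    rw [Valuation.ne_zero_iff]
    exact (map_ne_zero_iff ι h.inj).mpr hc0
  obtain ⟨N, hN⟩ := exists_pow_lt hP hγ
  obtain ⟨r, t, ht⟩ := hLC N
  have hsmall : P.valuation L (ι (r ^ 3 - x)) ≤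
      P.valuation L (ι (uni v)) ^ N := by
    rw [ht, map_mul, map_mul, map_pow, map_pow]
    exact mul_le_of_le_one_right' (hle t)
  have s0 : σ (θ - ι r) = ι w * (θ - ι (w ^ 2 * r)) := by
    rw [map_sub, h.sθ, h.sι, mul_sub, ← map_mul, ← mul_assoc, ← pow_succ', w_cube, one_mul]
  have s1 : σ (θ - ι (w * r)) = ι w * (θ - ι r) := by
    rw [map_sub, h.sθ, h.sι, mul_sub, ← map_mul]
  have v0 : P.valuation L (θ - ι (w ^ 2 * r)) = P.valuation L (θ - ι r) := by
    rw [← hfix (θ - ι r), s0, Valuation.map_mul, val_w, one_mul]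
  have v1 : P.valuation L (θ - ι (w * r)) = P.valuation L (θ - ι r) := by
    rw [← hfix (θ - ι (w * r)), s1, Valuation.map_mul, val_w, one_mul]
  have hprod : (θ - ι r) * (θ - ι (w * r)) * (θ - ι (w ^ 2 * r)) =
      - ι (r ^ 3 - x) := by
    have h1 : (ι w) ^ 2 + ι w + 1 = 0 := by
      have := congrArg ι w_rel
      simpa using this
    have h2 : (ι w) ^ 3 = 1 := by
      have := congrArg ι w_cube
      simpa using this
    have h3 := h.cube
    simp only [map_sub, map_mul, map_pow]
    linear_combination (-(θ ^ 2 * ι r) + θ * (ι r) ^ 2 * ι w) * h1 -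
      ((ι r) ^ 3) * h2 + h3
  have hα : P.valuation L (θ - ι r) ^ 3 ≤ P.valuation L (ι (uni v)) ^ N := by
    have h1 := congrArg (P.valuation L) hprod
    rw [map_mul, map_mul, v0, v1, Valuation.map_neg] at h1
    calc P.valuation L (θ - ι r) ^ 3 = P.valuation L (θ - ι r) * P.valuation L (θ - ι r) *
        P.valuation L (θ - ι r) := by rw [pow_succ, pow_two]
      _ ≤ _ := by rw [h1]; exact hsmall
  have hdiff : P.valuation L (ι ((w - 1) * r)) ≤ P.valuation L (θ - ι r) := by
    have e1 : ι ((w - 1) * r) = (θ - ι r) - (θ - ι (w * r)) := by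
      rw [sub_mul, one_mul, map_sub]
      ring
    rw [e1]
    refine (Valuation.map_sub _ _ _).trans ?_
    rw [v1, max_self]
  have hcube : P.valuation L (ι (((w - 1) * r) ^ 3)) ≤ P.valuation L (ι (uni v)) ^ N := by
    rw [map_pow, map_pow]
    exact (pow_le_pow_left' hdiff 3).trans hα
  have hfin : P.valuation L (ι ((w - 1) ^ 3 * x)) ≤ P.valuation L (ι (uni v)) ^ N := by
    have e1 : ι ((w - 1) ^ 3 * x) = ι (((w - 1) * r) ^ 3) -
        ι ((w - 1) ^ 3) * ι (r ^ 3 - x) := by
      rw [← map_mul, ← map_sub]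
      congr 1
      ring
    rw [e1]
    refine (Valuation.map_sub _ _ _).trans (max_le hcube ?_)
    rw [map_mul]
    exact (mul_le_of_le_one_left' (hle _)).trans hsmall
  exact absurd hN (not_lt.mpr hfin)

/-- If `σ` does not fix the prime `P`, then `θ` is approximated at `P` by invariant elements. -/
theorem approx (h : CubE x L ι θ σ) (h3 : ∀ z : L, σ (σ (σ z)) = z)
    {P P1 P2 : HeightOneSpectrum (𝓞 L)} (h01 : P ≠ P1) (h02 : P ≠ P2) (h12 : P1 ≠ P2)
    (e1 : ∀ z, P1.valuation L (σ z) = P.valuation L z)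
    (e2 : ∀ z, P2.valuation L (σ z) = P1.valuation L z) (N : ℕ) :
    ∃ T : L, σ T = T ∧ P.valuation L (θ - T) ≤ WithZero.exp (-(N : ℤ)) := by
  have hθ : IsIntegral ℤ θ := by
    refine IsIntegral.of_pow (n := 3) (by norm_num) ?_
    rw [h.cube]
    exact Pool.Agent.PT.NTR.isIntegral_io ι x
  let θ' : 𝓞 L := ⟨θ, hθ⟩
  obtain ⟨z, hz⟩ := IsDedekindDomain.exists_forall_sub_mem_ideal (R := 𝓞 L)
    (s := (univ : Finset (Fin 3))) (![P.asIdeal, P1.asIdeal, P2.asIdeal]) (fun _ => N)
    (by
      intro i _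
      fin_cases i
      · exact P.prime
      · exact P1.prime
      · exact P2.prime)
    (by
      have k01 : P.asIdeal ≠ P1.asIdeal := fun h => h01 (HeightOneSpectrum.ext h)
      have k02 : P.asIdeal ≠ P2.asIdeal := fun h => h02 (HeightOneSpectrum.ext h)
      have k12 : P1.asIdeal ≠ P2.asIdeal := fun h => h12 (HeightOneSpectrum.ext h)
      intro i _ j _ hij
      fin_cases i <;> fin_cases j
      · exact absurd rfl hij
      · exact k01
      · exact k02
      · exact k01.symm
      · exact absurd rfl hij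
      · exact k12
      · exact k02.symm
      · exact k12.symm
      · exact absurd rfl hij)
    (fun i => (![θ', 0, 0] : Fin 3 → 𝓞 L) i.1)
  have z0 : z - θ' ∈ P.asIdeal ^ N := hz 0 (mem_univ _)
  have z1 : z ∈ P1.asIdeal ^ N := by
    have h1 : z - 0 ∈ P1.asIdeal ^ N := hz 1 (mem_univ _)
    rwa [sub_zero] at h1
  have z2 : z ∈ P2.asIdeal ^ N := by
    have h1 : z - 0 ∈ P2.asIdeal ^ N := hz 2 (mem_univ _)
    rwa [sub_zero] at h1
  have cv : ∀ (Q : HeightOneSpectrum (𝓞 L)) (y : 𝓞 L), y ∈ Q.asIdeal ^ N →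
      Q.valuation L (algebraMap (𝓞 L) L y) ≤ WithZero.exp (-(N : ℤ)) := by
    intro Q y hy
    rw [Q.valuation_of_algebraMap, Q.intValuation_le_pow_iff_mem]
    exact hy
  have w0 := cv P _ z0
  have w1 := cv P1 _ z1
  have w2 := cv P2 _ z2
  rw [map_sub] at w0
  have hθ' : algebraMap (𝓞 L) L θ' = θ := rfl
  rw [hθ'] at w0
  set y : L := algebraMap (𝓞 L) L z with hy
  have f1 : ∀ t, P.valuation L (σ t) = P2.valuation L t := by
    intro t
    rw [← e1 (σ t), ← e2 (σ (σ t)), h3]
  refine ⟨y + σ y + σ (σ y), ?_, ?_⟩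
  · rw [map_add, map_add, h3]
    ring
  · have e3 : θ - (y + σ y + σ (σ y)) = -((y - θ) + (σ y + σ (σ y))) := by ring
    rw [e3, Valuation.map_neg]
    refine (Valuation.map_add _ _ _).trans (max_le w0 ?_)
    refine (Valuation.map_add _ _ _).trans (max_le ?_ ?_)
    · rw [f1]
      exact w2
    · rw [f1, e2]
      exact w1

/-- If `σ` does not fix `P`, then `x` is a local cube. -/
theorem lc_of (hLCI : Stmt_LCI) (h : CubE x L ι θ σ) (hx : x ≠ 0) (hx3 : ¬ lam ∣ x)
    (h3 : ∀ z : L, σ (σ (σ z)) = z)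
    (hfixed : ∀ z : L, σ z = z → ∃ a b : Eis, b ≠ 0 ∧ z * ι b = ι a) {v : Pl}
    {P P1 P2 : HeightOneSpectrum (𝓞 L)} (hu : Prime (uni v))
    (hle : ∀ a : Eis, P.valuation L (ι a) ≤ 1) (hP : P.valuation L (ι (uni v)) < 1)
    (hlt : ∀ a : Eis, P.valuation L (ι a) < 1 → uni v ∣ a)
    (h01 : P ≠ P1) (h02 : P ≠ P2) (h12 : P1 ≠ P2)
    (e1 : ∀ z, P1.valuation L (σ z) = P.valuation L z)
    (e2 : ∀ z, P2.valuation L (σ z) = P1.valuation L z) : LCE (uni v) x := by
  have hρ : P.valuation L (ι (uni v)) ≠ 0 := by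
    rw [Valuation.ne_zero_iff]
    exact (map_ne_zero_iff ι h.inj).mpr hu.ne_zero
  set ρ := P.valuation L (ι (uni v)) with hρd
  set M := V (uni v) x + 4 with hM
  obtain ⟨N, hN⟩ := exists_exp_le (pow_ne_zero M hρ)
  obtain ⟨T, hT, hTP⟩ := approx h h3 h01 h02 h12 e1 e2 N
  obtain ⟨a, b, hb, hab⟩ := hfixed T hT
  apply local_cube hLCI hx hx3 v hu hb (a := a)
  set y := x * b ^ 3 - a ^ 3 with hyd
  by_cases hy0 : y = 0
  · rw [hy0]
    exact dvd_zero _
  rw [pow_dvd_iff hu hy0, add_assoc, ← hM]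
  by_contra hcon
  push Not at hcon
  have hθ1 : P.valuation L θ ≤ 1 := by
    have hθ : IsIntegral ℤ θ := by
      refine IsIntegral.of_pow (n := 3) (by norm_num) ?_
      rw [h.cube]
      exact Pool.Agent.PT.NTR.isIntegral_io ι x
    exact P.valuation_le_one (K := L) (⟨θ, hθ⟩ : 𝓞 L)
  have hexp : WithZero.exp (-(N : ℤ)) ≤ (1 : WithZero (Multiplicative ℤ)) := by
    rw [← WithZero.exp_zero, WithZero.exp_le_exp]
    omega
  have hT1 : P.valuation L T ≤ 1 := by
    have e3 : T = θ - (θ - T) := by ring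
    rw [e3]
    exact (Valuation.map_sub _ _ _).trans (max_le hθ1 (hTP.trans hexp))
  have hfac : ι y = (θ - T) * ((ι b) ^ 3 * (θ ^ 2 + θ * T + T ^ 2)) := by
    have h5 := h.cube
    rw [hyd]
    simp only [map_sub, map_mul, map_pow]
    rw [← hab, ← h5]
    ring
  have hquad : P.valuation L (θ ^ 2 + θ * T + T ^ 2) ≤ 1 := by
    refine (Valuation.map_add _ _ _).trans (max_le ((Valuation.map_add _ _ _).trans
      (max_le ?_ ?_)) ?_)
    · rw [map_pow]
      exact pow_le_one' hθ1 2
    · rw [map_mul]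
      exact mul_le_one' hθ1 hT1
    · rw [map_pow]
      exact pow_le_one' hT1 2
  have hval : P.valuation L (ι y) ≤ ρ ^ M * (P.valuation L (ι b)) ^ 3 := by
    rw [hfac, map_mul, map_mul, map_pow]
    refine mul_le_mul' (hTP.trans hN) ?_
    exact mul_le_of_le_one_right' hquad
  rw [val_eq hu hle hlt hy0, val_eq hu hle hlt hb, ← hρd, ← pow_mul, ← pow_add] at hval
  have h6 : M + V (uni v) b * 3 > V (uni v) y := by omega
  have h7 := pow_lt_pow_right_of_lt_one₀ (zero_lt_iff.mpr hρ) hP h6
  exact absurd hval (not_le.mpr h7)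

end NCN

open Pool.Agent.PTK.NCN in
open Pool.Agent.PT.NCNT (pow_dvd_iff reduce ext_val exists_exp_le pow_le_exp exists_pow_lt val_eq
  val_w prime_uni) in
theorem NCN_thm (_hSPP : SPP) (hLCI : Stmt_LCI) (hNHN : Stmt_NHN) (hNTR : Stmt_NTR) :
    Stmt_NCN := by
  classical
  intro x L _ _ ι θ σ hx hx3 _ h v
  obtain ⟨h3, hfixed, -⟩ := hNHN x L ι θ σ hx h
  obtain ⟨t1, t2, t3, t4, t5, -⟩ := hNTR x L ι θ σ hx hx3 h
  have hu := prime_uni v
  obtain ⟨P, hP⟩ := (t4 v).2
  obtain ⟨P1, e1⟩ := t3 P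
  obtain ⟨P2, e2⟩ := t3 P1
  have hP' : P.valuation L (ι (uni v)) < 1 := hP
  have hP1 : P1 ∈ Abv ι v := by
    change P1.valuation L (ι (uni v)) < 1
    rw [← h.sι, e1]
    exact hP'
  have hP2 : P2 ∈ Abv ι v := by
    change P2.valuation L (ι (uni v)) < 1
    rw [← h.sι, e2]
    exact hP1
  have e0 : ∀ z, P.valuation L (σ z) = P2.valuation L z := by
    intro z
    rw [← e1 (σ z), ← e2 (σ (σ z)), h3]
  have hall : ∀ Q ∈ Abv ι v, Q = P ∨ Q = P1 ∨ Q = P2 := by
    intro Q hQ
    obtain ⟨i, hi⟩ := t5 v P Q hP hQ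
    have key : ∀ i : ℕ, ∀ Q : HeightOneSpectrum (𝓞 L),
        (∀ z : L, Q.valuation L ((σ ^ i) z) = P.valuation L z) → Q = P ∨ Q = P1 ∨ Q = P2 := by
      intro i
      induction i using Nat.strong_induction_on with
      | _ i ih =>
        intro Q hi
        rcases i with _ | _ | _ | i
        · left
          apply ext_val
          intro z
          simpa using hi z
        · right; left
          apply ext_val
          intro z
          obtain ⟨y, rfl⟩ := σ.surjective z
          rw [e1]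
          simpa using hi y
        · right; right
          apply ext_val
          intro z
          obtain ⟨y, rfl⟩ := σ.surjective z
          obtain ⟨y, rfl⟩ := σ.surjective y
          rw [e2, e1]
          have h4 := hi y
          rw [pow_succ, pow_one] at h4
          exact h4
        · refine ih i (by omega) Q fun z => ?_
          have h4 := hi z
          have h5 : (σ ^ (i + 3)) z = (σ ^ i) z := by
            rw [pow_add]
            change (σ ^ i) ((σ ^ 3) z) = _
            congr 1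
            exact h3 z
          rw [← h5]
          exact h4
    exact key i Q hi
  have hlt : ∀ a : Eis, P.valuation L (ι a) < 1 → uni v ∣ a := by
    obtain ⟨v', -, hv'⟩ := t2 P
    intro a ha
    have h4 : uni v' ∣ uni v := hv' _ hP'
    have h5 : Associated (uni v') (uni v) := (prime_uni v').associated_of_dvd hu h4
    exact h5.symm.dvd.trans (hv' a ha)
  by_cases hfix : P = P1
  · have hfix' : ∀ z : L, P.valuation L (σ z) = P.valuation L z := by
      intro z
      conv_lhs => rw [hfix]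
      exact e1 z
    have hnot : ¬ LCE (uni v) x := fun hLC => no_fix h hx (t1 P) hP' hfix' hLC
    rw [if_neg hnot]
    have hP2' : P2 = P := by
      apply ext_val
      intro z
      rw [← e0, hfix']
    have hset : Abv ι v = {P} := by
      ext Q
      rw [Set.mem_singleton_iff]
      constructor
      · intro hQ
        rcases hall Q hQ with h4 | h4 | h4
        · exact h4
        · exact h4.trans hfix.symm
        · exact h4.trans hP2'
      · rintro rfl
        exact hP
    rw [hset]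
    simp
  · have h02 : P ≠ P2 := by
      intro h4
      apply hfix
      apply ext_val
      intro z
      obtain ⟨y, rfl⟩ := σ.surjective z
      rw [e1, e0, ← h4]
    have h12 : P1 ≠ P2 := by
      intro h4
      apply hfix
      apply ext_val
      intro z
      calc P.valuation L z = P1.valuation L (σ z) := (e1 z).symm
        _ = P2.valuation L (σ z) := by rw [h4]
        _ = P1.valuation L z := e2 z
    have hLC : LCE (uni v) x :=
      lc_of hLCI h hx hx3 h3 hfixed hu (t1 P) hP' hlt hfix h02 h12 e1 e2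
    rw [if_pos hLC]
    have hset : Abv ι v = {P, P1, P2} := by
      ext Q
      simp only [Set.mem_insert_iff, Set.mem_singleton_iff]
      constructor
      · exact hall Q
      · rintro (rfl | rfl | rfl)
        · exact hP
        · exact hP1
        · exact hP2
    rw [Nat.card_coe_set_eq, hset, Set.ncard_eq_three]
    exact ⟨P, P1, P2, hfix, h02, h12, rfl⟩

end Pool.Agent.PTK


end

section

/-!
# PTK_NHN: Hilbert 90
-/

set_option autoImplicit false

open NumberField IsDedekindDomain Finset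
open scoped nonZeroDivisors Pointwise

namespace Pool.Agent.PTK

open Pool.Agent.Lib_helper18 Pool.Agent.Lib_helper18.Eis Pool.Agent.Lib_helper84.Cub
open Pool.Agent.PT

namespace NHN

set_option linter.unusedSectionVars false

variable {x : Eis} {L : Type} [Field L] [NumberField L] {ι : Eis →+* L} {θ : L}
  {σ : L ≃ₐ[ℚ] L}

theorem w3 (ι : Eis →+* L) : ι w ^ 3 = 1 := by
  rw [← map_pow, w_cube, map_one]

theorem wrel (ι : Eis →+* L) : ι w ^ 2 + ι w + 1 = 0 := by
  rw [← map_pow, ← map_add, ← map_one ι, ← map_add, w_rel, map_zero]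

theorem s1 (h : CubE x L ι θ σ) (a b d : Eis) :
    σ (ι a + ι b * θ + ι d * θ ^ 2) = ι a + ι b * (ι w * θ) + ι d * (ι w * θ) ^ 2 := by
  rw [map_add, map_add, map_mul, map_mul, map_pow, h.sι, h.sι, h.sι, h.sθ]

theorem s3θ (h : CubE x L ι θ σ) : σ (σ (σ θ)) = θ := by
  rw [h.sθ, map_mul, h.sι, h.sθ, map_mul, map_mul, h.sι, h.sθ]
  linear_combination θ * w3 ι

theorem s3 (h : CubE x L ι θ σ) (z : L) : σ (σ (σ z)) = z := by
  obtain ⟨m, a, b, d, hm, hz⟩ := h.rep z
  have hm' : (m : L) ≠ 0 := Int.cast_ne_zero.2 hm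
  have h1 : σ (σ (σ ((m : L) * z))) = (m : L) * z := by
    rw [hz]
    simp only [map_add, map_mul, map_pow, h.sι, s3θ h]
  rw [map_mul, map_mul, map_mul, map_intCast, map_intCast, map_intCast] at h1
  exact mul_left_cancel₀ hm' h1

theorem fixed (h : CubE x L ι θ σ) {z : L} (hz : σ z = z) :
    ∃ a b : Eis, b ≠ 0 ∧ z * ι b = ι a := by
  obtain ⟨m, a, b, d, hm, hmz⟩ := h.rep z
  have h1 : σ ((m : L) * z) = (m : L) * z := by rw [map_mul, map_intCast, hz]
  rw [hmz, s1 h] at h1
  have h2 : ι 0 + ι (b * (w - 1)) * θ + ι (d * (w ^ 2 - 1)) * θ ^ 2 = 0 := by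
    rw [map_zero, map_mul, map_mul, map_sub, map_sub, map_pow, map_one]
    linear_combination h1
  obtain ⟨-, h3, h4⟩ := h.lin _ _ _ h2
  have hw1 : (w - 1 : Eis) ≠ 0 := by
    intro hc
    have := congrArg Eis.im hc
    simp at this
  have hw2 : (w ^ 2 - 1 : Eis) ≠ 0 := by
    rw [w_sq]
    intro hc
    have := congrArg Eis.im hc
    simp at this
  have hb : b = 0 := (mul_eq_zero.1 h3).resolve_right hw1
  have hd : d = 0 := (mul_eq_zero.1 h4).resolve_right hw2
  have hm' : (m : Eis) ≠ 0 := by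
    intro hc
    have h5 := congrArg Eis.re hc
    rw [intCast_re, zero_re] at h5
    exact hm h5
  refine ⟨a, (m : Eis), hm', ?_⟩
  rw [hb, hd] at hmz
  rw [map_intCast, mul_comm, hmz, map_zero]
  ring

end NHN

theorem NHN_thm : Stmt_NHN := by
  intro x L _ _ ι θ σ hx h
  refine ⟨NHN.s3 h, fun z hz => NHN.fixed h hz, fun u hu => ?_⟩
  have hu' : (u : L) * σ u * σ (σ u) = 1 := by
    have h1 := congrArg (Units.val) hu
    simp only [Finset.prod_range_succ, Finset.prod_range_zero, one_mul, pow_zero, pow_one,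
      one_smul, pow_two, mul_smul] at h1
    simpa using h1
  have hθ : θ ≠ 0 := by
    rintro rfl
    have h1 := h.cube
    rw [zero_pow (by norm_num)] at h1
    exact hx (h.inj (h1.symm.trans (map_zero ι).symm))
  -- the sum
  have key : ∀ e : L, (u : L) * σ (e + u * σ e + u * σ u * σ (σ e)) =
      e + u * σ e + u * σ u * σ (σ e) := by
    intro e
    rw [map_add, map_add, map_mul, map_mul, map_mul, NHN.s3 h]
    linear_combination e * hu'
  have main : ∃ e : L, e + u * σ e + u * σ u * σ (σ e) ≠ 0 := by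
    by_contra hc
    push Not at hc
    have h1 := hc 1
    have h2 := hc θ
    have h3 := hc (θ ^ 2)
    have e1 : σ (σ θ) = ι w ^ 2 * θ := by
      rw [h.sθ, map_mul, h.sι, h.sθ]
      ring
    have e2 : σ (σ (θ ^ 2)) = (ι w ^ 2 * θ) ^ 2 := by rw [map_pow, map_pow, e1]
    have e3 : σ (θ ^ 2) = (ι w * θ) ^ 2 := by rw [map_pow, h.sθ]
    rw [map_one, map_one, mul_one, mul_one] at h1
    rw [e1, h.sθ] at h2
    rw [e2, e3] at h3
    have h2' : 1 + u * ι w + u * σ u * ι w ^ 2 = 0 := by
      have : θ * (1 + u * ι w + u * σ u * ι w ^ 2) = 0 := by linear_combination h2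
      exact (mul_eq_zero.1 this).resolve_left hθ
    have h3' : 1 + u * ι w ^ 2 + u * σ u * ι w ^ 4 = 0 := by
      have : θ ^ 2 * (1 + u * ι w ^ 2 + u * σ u * ι w ^ 4) = 0 := by linear_combination h3
      exact (mul_eq_zero.1 this).resolve_left (pow_ne_zero _ hθ)
    have h4 : (3 : L) = 0 := by
      linear_combination h1 + h2' + h3' - (u : L) * NHN.wrel ι -
        (u : L) * σ u * (NHN.wrel ι + ι w * NHN.w3 ι)
    exact three_ne_zero h4
  obtain ⟨e, he⟩ := main
  refine ⟨Units.mk0 _ he, ?_⟩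
  rw [eq_div_iff_mul_eq']
  ext
  rw [Units.val_mul, AlgEquiv.smul_units_def]
  simp only [Units.coe_map, Units.val_mk0]
  have := key e
  simpa [mul_comm] using this

end Pool.Agent.PTK


end
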